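import Pool.Agent.Lib.MP_0f5a55_nt.V.V04
import Mathlib.Analysis.SpecialFunctions.Trigonometric.DerivHyp

section F_W_D0

open Complex MeasureTheory Set Filter Topology
open scoped ComplexConjugate

namespace LW

/-- sin w / w -/
noncomputable def sn (w : ℂ) : ℂ := dslope Complex.sin 0 w

/-- inverse of the Blaschke factor of the strip 0 < Re z < 1 at rho, times (z - rho) -/
noncomputable def ib (ρ z : ℂ) : ℂ :=
  2 / Real.pi * Complex.sin (Real.pi * (z + conj ρ) / 2) / sn (Real.pi * (z - ρ) / 2)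

/-- density of harmonic measure of the strip, seen from 1/2 (mass one half on each side) -/
noncomputable def sw (u : ℝ) : ℝ := (Real.cosh (Real.pi * u))⁻¹

/-- entire function equal to (s-1) L(s, chi) for s <> 1 -/
noncomputable def El {N : ℕ} [NeZero N] (χ : DirichletCharacter ℂ N) (s : ℂ) : ℂ :=
  if χ = 1 then DirichletCharacter.LFunctionTrivChar₁ N s else (s - 1) * LX.Lf χ s

/-- product of the factors (s + i x_j - 1)/(s + i x_j + 1) -/
noncomputable def Pf {N m : ℕ} (X : Fin m → DirichletCharacter ℂ N × ℝ) (s : ℂ) : ℂ :=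
  ∏ j, ((s + (X j).2 * I - 1) / (s + (X j).2 * I + 1))

/-- mean of the mollified L-functions -/
noncomputable def Mn {N m : ℕ} [NeZero N] (X : Fin m → DirichletCharacter ℂ N × ℝ) (l : ℝ) (s : ℂ) : ℂ :=
  (m : ℂ)⁻¹ * ∑ j, LX.FF (X j).1 l (s + (X j).2 * I)

/-- Pf times Mn, without poles -/
noncomputable def Gt {N m : ℕ} [NeZero N] (X : Fin m → DirichletCharacter ℂ N × ℝ) (l : ℝ) (s : ℂ) : ℂ :=
  (m : ℂ)⁻¹ * ∑ j, (∏ i ∈ Finset.univ.erase j, ((s + (X i).2 * I - 1) / (s + (X i).2 * I + 1))) *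
    (El (X j).1 (s + (X j).2 * I) * LX.Mol (X j).1 1 l (s + (X j).2 * I) / (s + (X j).2 * I + 1))

end LW

end F_W_D0

section F_W_W01

open Complex MeasureTheory Set Filter Topology
open scoped ComplexConjugate

namespace LW

theorem sw_pos (u : ℝ) : 0 < sw u := by
  unfold sw
  exact inv_pos.mpr (Real.cosh_pos _)

theorem sw_cont : Continuous sw := by
  unfold sw
  exact (Real.continuous_cosh.comp (continuous_const.mul continuous_id)).inv₀
    (fun u => (Real.cosh_pos _).ne')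

private theorem w01_cosh (x : ℝ) : Real.exp |x| / 2 ≤ Real.cosh x := by
  rw [← Real.cosh_abs, Real.cosh_eq]
  have := Real.exp_pos (-|x|)
  linarith

/-- cosh x >= exp|x| / 2 -/
theorem sw_le (u : ℝ) : sw u ≤ 2 * Real.exp (-(Real.pi * |u|)) := by
  unfold sw
  have h := w01_cosh (Real.pi * u)
  rw [abs_mul, abs_of_pos Real.pi_pos] at h
  have h1 : (Real.cosh (Real.pi * u))⁻¹ ≤ (Real.exp (Real.pi * |u|) / 2)⁻¹ :=
    inv_anti₀ (by positivity) h
  refine h1.trans (le_of_eq ?_)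
  rw [inv_div, Real.exp_neg]
  rfl

theorem sw_exp_int : Integrable (fun u : ℝ => Real.exp |u| * sw u) := by
  have hbase : Integrable (fun u : ℝ => 2 * (1 + u ^ 2)⁻¹) := integrable_inv_one_add_sq.const_mul 2
  refine hbase.mono' ?_ (Filter.Eventually.of_forall fun u => ?_)
  · exact ((Real.continuous_exp.comp continuous_abs).mul sw_cont).aestronglyMeasurable
  · have h0 : 0 ≤ Real.exp |u| * sw u := mul_nonneg (Real.exp_pos _).le (sw_pos u).le
    rw [Real.norm_of_nonneg h0]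
    have hpi := Real.pi_gt_three
    have hu := abs_nonneg u
    have h1 : Real.exp |u| * sw u ≤ 2 * Real.exp (-(2 * |u|)) := by
      calc Real.exp |u| * sw u ≤ Real.exp |u| * (2 * Real.exp (-(Real.pi * |u|))) :=
            mul_le_mul_of_nonneg_left (sw_le u) (Real.exp_pos _).le
        _ = 2 * Real.exp (|u| + -(Real.pi * |u|)) := by
            rw [Real.exp_add]
            ring
        _ ≤ 2 * Real.exp (-(2 * |u|)) := by
            gcongr
            nlinarith
    have h2 : 1 + u ^ 2 ≤ Real.exp (2 * |u|) := by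
      have h3 := Real.quadratic_le_exp_of_nonneg (x := 2 * |u|) (by positivity)
      have h4 : u ^ 2 = |u| ^ 2 := (sq_abs u).symm
      nlinarith
    have h5 : Real.exp (-(2 * |u|)) ≤ (1 + u ^ 2)⁻¹ := by
      rw [Real.exp_neg]
      exact inv_anti₀ (by positivity) h2
    linarith

/-- antiderivative (2/pi) arctan(exp(pi u)) -/
theorem sw_mass : ∫ u : ℝ, sw u = 1 := by
  have hint : Integrable sw := by
    refine sw_exp_int.mono' sw_cont.aestronglyMeasurable (Filter.Eventually.of_forall fun u => ?_)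
    rw [Real.norm_of_nonneg (sw_pos u).le]
    have h1 : 1 ≤ Real.exp |u| := Real.one_le_exp (abs_nonneg u)
    have h2 := sw_pos u
    nlinarith
  have hpi : Real.pi ≠ 0 := Real.pi_ne_zero
  have hd : ∀ u : ℝ, HasDerivAt (fun u : ℝ => 2 / Real.pi * Real.arctan (Real.exp (Real.pi * u)))
      (sw u) u := by
    intro u
    have h1 : HasDerivAt (fun u : ℝ => Real.pi * u) Real.pi u := by
      simpa using (hasDerivAt_id u).const_mul Real.pi
    have h2 := (h1.exp.arctan).const_mul (2 / Real.pi)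
    refine h2.congr_deriv ?_
    unfold sw
    rw [Real.cosh_eq, Real.exp_neg]
    have he := Real.exp_pos (Real.pi * u)
    field_simp
    ring
  have hbot : Tendsto (fun u : ℝ => 2 / Real.pi * Real.arctan (Real.exp (Real.pi * u))) atBot (𝓝 0) := by
    have h1 : Tendsto (fun u : ℝ => Real.exp (Real.pi * u)) atBot (𝓝 0) :=
      Real.tendsto_exp_atBot.comp (tendsto_id.const_mul_atBot Real.pi_pos)
    have h2 := (Real.continuous_arctan.tendsto 0).comp h1
    rw [Real.arctan_zero] at h2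
    simpa using h2.const_mul (2 / Real.pi)
  have htop : Tendsto (fun u : ℝ => 2 / Real.pi * Real.arctan (Real.exp (Real.pi * u))) atTop (𝓝 1) := by
    have h1 : Tendsto (fun u : ℝ => Real.exp (Real.pi * u)) atTop atTop :=
      Real.tendsto_exp_atTop.comp (tendsto_id.const_mul_atTop Real.pi_pos)
    have h2 : Tendsto (fun u : ℝ => Real.arctan (Real.exp (Real.pi * u))) atTop (𝓝 (Real.pi / 2)) :=
      (Real.tendsto_arctan_atTop.mono_right nhdsWithin_le_nhds).comp h1
    have h3 := h2.const_mul (2 / Real.pi)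
    have h4 : 2 / Real.pi * (Real.pi / 2) = 1 := by field_simp
    rw [h4] at h3
    exact h3
  have := integral_of_hasDerivAt_of_tendsto hd hint hbot htop
  rw [this, sub_zero]

end LW

end F_W_W01

section F_W_W02

open Complex MeasureTheory Set Filter Topology
open scoped ComplexConjugate

namespace LW

theorem sn_diff : Differentiable ℂ sn := by
  have h : DifferentiableOn ℂ (dslope Complex.sin 0) univ :=
    (Complex.differentiableOn_dslope univ_mem).2 Complex.differentiable_sin.differentiableOn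
  exact differentiableOn_univ.1 h

theorem sn_mul (w : ℂ) : w * sn w = Complex.sin w := by
  have h := sub_smul_dslope Complex.sin 0 w
  rw [sub_zero, Complex.sin_zero, sub_zero, smul_eq_mul] at h
  exact h

theorem sn_zero : sn 0 = 1 := by
  unfold sn
  rw [dslope_same, Complex.deriv_sin, Complex.cos_zero]

/-- sin w = 0 only for w = k pi -/
theorem sn_ne {w : ℂ} (h : |w.re| < Real.pi) : sn w ≠ 0 := by
  intro h0
  have h1 : Complex.sin w = 0 := by rw [← sn_mul, h0, mul_zero]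
  obtain ⟨k, hk⟩ := Complex.sin_eq_zero_iff.1 h1
  have h2 : w.re = k * Real.pi := by
    rw [hk, ← Complex.ofReal_intCast, ← Complex.ofReal_mul, Complex.ofReal_re]
  rw [h2, abs_mul, abs_of_pos Real.pi_pos] at h
  have h3 : |(k : ℝ)| < 1 := by
    by_contra hc
    rw [not_lt] at hc
    have := mul_le_mul_of_nonneg_right hc Real.pi_pos.le
    linarith
  have h4 : |k| < 1 := by exact_mod_cast h3
  have h5 : k = 0 := Int.abs_lt_one_iff.1 h4
  rw [h5, Int.cast_zero, zero_mul] at hk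
  rw [hk, sn_zero] at h0
  exact one_ne_zero h0

end LW

end F_W_W02

section F_W_W04

open Complex MeasureTheory Set Filter Topology
open scoped ComplexConjugate

namespace LW

private lemma W04_nsin (w : ℂ) :
    ‖Complex.sin w‖ ^ 2 = Real.sin w.re ^ 2 + Real.sinh w.im ^ 2 := by
  have h : Complex.sin w = ((Real.sin w.re * Real.cosh w.im : ℝ) : ℂ) +
      ((Real.cos w.re * Real.sinh w.im : ℝ) : ℂ) * I := by
    rw [Complex.sin_eq]
    push_cast
    ring
  rw [← Complex.normSq_eq_norm_sq, h, Complex.normSq_add_mul_I]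
  have h1 := Real.sin_sq_add_cos_sq w.re
  have h2 := Real.cosh_sq w.im
  linear_combination (Real.sin w.re ^ 2) * h2 + (Real.sinh w.im ^ 2) * h1

private lemma W04_re (z ρ : ℂ) : (Real.pi * (z - ρ) / 2 : ℂ).re = Real.pi * (z.re - ρ.re) / 2 := by
  have h : (Real.pi * (z - ρ) / 2 : ℂ) = ((Real.pi / 2 : ℝ) : ℂ) * (z - ρ) := by
    push_cast
    ring
  rw [h, Complex.re_ofReal_mul, Complex.sub_re]
  ring

private lemma W04_im (z ρ : ℂ) : (Real.pi * (z - ρ) / 2 : ℂ).im = Real.pi * (z.im - ρ.im) / 2 := by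
  have h : (Real.pi * (z - ρ) / 2 : ℂ) = ((Real.pi / 2 : ℝ) : ℂ) * (z - ρ) := by
    push_cast
    ring
  rw [h, Complex.im_ofReal_mul, Complex.sub_im]
  ring

private lemma W04_re' (z ρ : ℂ) :
    (Real.pi * (z + conj ρ) / 2 : ℂ).re = Real.pi * (z.re + ρ.re) / 2 := by
  have h : (Real.pi * (z + conj ρ) / 2 : ℂ) = ((Real.pi / 2 : ℝ) : ℂ) * (z + conj ρ) := by
    push_cast
    ring
  rw [h, Complex.re_ofReal_mul, Complex.add_re, Complex.conj_re]
  ring

private lemma W04_im' (z ρ : ℂ) :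
    (Real.pi * (z + conj ρ) / 2 : ℂ).im = Real.pi * (z.im - ρ.im) / 2 := by
  have h : (Real.pi * (z + conj ρ) / 2 : ℂ) = ((Real.pi / 2 : ℝ) : ℂ) * (z + conj ρ) := by
    push_cast
    ring
  rw [h, Complex.im_ofReal_mul, Complex.add_im, Complex.conj_im]
  ring

private lemma W04_small {ρ z : ℂ} (h0 : 0 < ρ.re) (h1 : ρ.re < 1) (hz0 : 0 ≤ z.re)
    (hz1 : z.re ≤ 1) : |(Real.pi * (z - ρ) / 2 : ℂ).re| < Real.pi := by
  rw [W04_re, abs_lt]
  have hp := Real.pi_pos
  constructor <;> nlinarith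

theorem ib_diff {ρ z : ℂ} (h0 : 0 < ρ.re) (h1 : ρ.re < 1) (hz0 : 0 ≤ z.re) (hz1 : z.re ≤ 1) :
    DifferentiableAt ℂ (ib ρ) z := by
  unfold ib
  have e1 : DifferentiableAt ℂ (fun z : ℂ => 2 / Real.pi * Complex.sin (Real.pi * (z + conj ρ) / 2)) z := by
    fun_prop
  have e2 : DifferentiableAt ℂ (fun z : ℂ => sn (Real.pi * (z - ρ) / 2)) z := by
    have e3 : DifferentiableAt ℂ (fun z : ℂ => (Real.pi * (z - ρ) / 2 : ℂ)) z := by fun_prop
    exact (sn_diff _).comp z e3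
  exact e1.div e2 (sn_ne (W04_small h0 h1 hz0 hz1))

/-- for z <> rho: ib = (z - rho) sin(pi (z + conj rho)/2) / sin(pi (z - rho)/2) -/
theorem ib_eq {ρ z : ℂ} (h : z ≠ ρ) :
    ib ρ z = (z - ρ) * (Complex.sin (Real.pi * (z + conj ρ) / 2) / Complex.sin (Real.pi * (z - ρ) / 2)) := by
  unfold ib
  have hp : (Real.pi : ℂ) ≠ 0 := by exact_mod_cast Real.pi_ne_zero
  have hz : z - ρ ≠ 0 := sub_ne_zero.2 h
  rw [← sn_mul (Real.pi * (z - ρ) / 2)]
  by_cases hs : sn (Real.pi * (z - ρ) / 2) = 0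
  · rw [hs]
    simp
  · field_simp

/-- for Re z = 0: z + conj rho = - conj (z - rho), so the quotient of the sines has modulus 1 -/
theorem ib_left {ρ : ℂ} (h0 : 0 < ρ.re) (h1 : ρ.re < 1) (u : ℝ) : ‖ib ρ (u * I)‖ = ‖u * I - ρ‖ := by
  have hz : (u * I : ℂ) ≠ ρ := by
    intro h
    rw [← h] at h0
    simp at h0
  have hz' : (u * I : ℂ) - ρ ≠ 0 := sub_ne_zero.2 hz
  have hw : (Real.pi * (u * I - ρ) / 2 : ℂ) ≠ 0 := by
    have hp : (Real.pi : ℂ) ≠ 0 := by exact_mod_cast Real.pi_ne_zero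
    exact div_ne_zero (mul_ne_zero hp hz') two_ne_zero
  have hs : Complex.sin (Real.pi * (u * I - ρ) / 2) ≠ 0 := by
    rw [← sn_mul]
    exact mul_ne_zero hw (sn_ne (W04_small h0 h1 (by simp) (by simp)))
  have e : (Real.pi * (u * I + conj ρ) / 2 : ℂ) = -conj (Real.pi * (u * I - ρ) / 2 : ℂ) := by
    rw [map_div₀, map_mul, map_sub, map_mul, Complex.conj_ofReal, Complex.conj_ofReal, Complex.conj_I]
    have : conj (2 : ℂ) = 2 := Complex.conj_ofNat 2
    rw [this]
    ring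
  rw [ib_eq hz, norm_mul, norm_div, e, Complex.sin_neg, norm_neg, Complex.sin_conj,
    RCLike.norm_conj, div_self (norm_ne_zero_iff.2 hs), mul_one]

/-- for Re z = 1: z + conj rho = 2 - conj (z - rho), sin(pi - w) = sin w -/
theorem ib_right {ρ : ℂ} (h0 : 0 < ρ.re) (h1 : ρ.re < 1) (u : ℝ) : ‖ib ρ (1 + u * I)‖ = ‖1 + u * I - ρ‖ := by
  have hz : (1 + u * I : ℂ) ≠ ρ := by
    intro h
    rw [← h] at h1
    simp at h1
  have hz' : (1 + u * I : ℂ) - ρ ≠ 0 := sub_ne_zero.2 hz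
  have hw : (Real.pi * (1 + u * I - ρ) / 2 : ℂ) ≠ 0 := by
    have hp : (Real.pi : ℂ) ≠ 0 := by exact_mod_cast Real.pi_ne_zero
    exact div_ne_zero (mul_ne_zero hp hz') two_ne_zero
  have hs : Complex.sin (Real.pi * (1 + u * I - ρ) / 2) ≠ 0 := by
    rw [← sn_mul]
    exact mul_ne_zero hw (sn_ne (W04_small h0 h1 (by simp) (by simp)))
  have e : (Real.pi * (1 + u * I + conj ρ) / 2 : ℂ) =
      Real.pi - conj (Real.pi * (1 + u * I - ρ) / 2 : ℂ) := by
    rw [map_div₀, map_mul, map_sub, map_add, map_mul, map_one, Complex.conj_ofReal,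
      Complex.conj_ofReal, Complex.conj_I]
    have : conj (2 : ℂ) = 2 := Complex.conj_ofNat 2
    rw [this]
    ring
  rw [ib_eq hz, norm_mul, norm_div, e, Complex.sin_pi_sub, Complex.sin_conj,
    RCLike.norm_conj, div_self (norm_ne_zero_iff.2 hs), mul_one]

/-- |sin(x+iy)|^2 = sin^2 x + sinh^2 y lies between sinh^2 y and cosh^2 y; cosh/sinh <= 2 at y >= pi -/
theorem ib_far {ρ z : ℂ} (h : 2 ≤ |z.im - ρ.im|) : ‖ib ρ z‖ ≤ 2 * ‖z - ρ‖ := by
  have hz : z ≠ ρ := by
    intro h1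
    rw [h1, sub_self, abs_zero] at h
    linarith
  rw [ib_eq hz, norm_mul, norm_div, mul_comm]
  apply mul_le_mul_of_nonneg_right _ (norm_nonneg _)
  set y : ℝ := Real.pi * (z.im - ρ.im) / 2 with hy
  have hy1 : 3 ≤ |y| := by
    rw [hy, abs_div, abs_mul, abs_of_pos Real.pi_pos, abs_of_pos (two_pos : (0:ℝ) < 2)]
    have := Real.pi_gt_three
    nlinarith
  have hA := W04_nsin (Real.pi * (z + conj ρ) / 2)
  have hB := W04_nsin (Real.pi * (z - ρ) / 2)
  rw [W04_im', ← hy] at hA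
  rw [W04_im, ← hy] at hB
  have hsh : 1 ≤ Real.sinh y ^ 2 := by
    have h1 : |y| ≤ Real.sinh |y| := Real.self_le_sinh_iff.2 (abs_nonneg y)
    have h2 : Real.sinh |y| ^ 2 = Real.sinh y ^ 2 := by
      rcases abs_choice y with h3 | h3
      · rw [h3]
      · rw [h3, Real.sinh_neg, neg_sq]
    rw [← h2]
    nlinarith
  have hs1 : Real.sin (Real.pi * (z + conj ρ) / 2 : ℂ).re ^ 2 ≤ 1 := Real.sin_sq_le_one _
  have hs2 : 0 ≤ Real.sin (Real.pi * (z - ρ) / 2 : ℂ).re ^ 2 := sq_nonneg _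
  have hpos : 0 < ‖Complex.sin (Real.pi * (z - ρ) / 2)‖ := by
    by_contra hc
    have h3 : ‖Complex.sin (Real.pi * (z - ρ) / 2)‖ = 0 := le_antisymm (not_lt.1 hc) (norm_nonneg _)
    rw [h3] at hB
    nlinarith
  rw [div_le_iff₀ hpos]
  apply le_of_sq_le_sq _ (by positivity)
  rw [mul_pow, hA, hB]
  nlinarith

private lemma W04_cosh : Real.cosh Real.pi ≤ 16 := by
  rw [Real.cosh_eq]
  have h1 : Real.exp Real.pi ≤ Real.exp (3 + 0.2) := by
    apply Real.exp_le_exp.2
    have := Real.pi_lt_d2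
    linarith
  have h2 : Real.exp (3 + 0.2) = Real.exp 1 ^ 3 * Real.exp 0.2 := by
    rw [Real.exp_add, ← Real.exp_nat_mul]
    norm_num
  have h3 : Real.exp 1 ^ 3 ≤ 2.72 ^ 3 := by
    apply pow_le_pow_left₀ (Real.exp_pos 1).le
    have := Real.exp_one_lt_d9
    linarith
  have h4 : Real.exp 0.2 ≤ 1.25 := by
    have h5 := Real.add_one_le_exp (-0.2)
    have h6 : Real.exp 0.2 * Real.exp (-0.2) = 1 := by
      rw [← Real.exp_add]
      norm_num
    have h7 := Real.exp_pos 0.2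
    nlinarith
  have h8 : Real.exp (-Real.pi) ≤ 1 := Real.exp_le_one_iff.2 (by linarith [Real.pi_pos])
  have h9 : Real.exp 1 ^ 3 * Real.exp 0.2 ≤ 2.72 ^ 3 * 1.25 :=
    mul_le_mul h3 h4 (Real.exp_pos _).le (by norm_num)
  have h10 : (2.72 : ℝ) ^ 3 * 1.25 ≤ 31 := by norm_num
  rw [h2] at h1
  linarith

/-- |sin(x+iy)|^2 = (cosh 2y - cos 2x)/2. The squared quotient at z = 1/2 is
(cosh(pi gamma) + sin(pi delta))/(cosh(pi gamma) - sin(pi delta)) >= 1 + 2 sin(pi delta)/cosh(pi gamma), sin(pi delta) >= 2 delta for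
delta <= 1/2, cosh pi <= 16. -/
theorem ib_mid {ρ : ℂ} (h0 : 0 < ρ.re) (h1 : ρ.re ≤ 1/2) (h2 : |ρ.im| ≤ 1) :
    (1 + ρ.re / 4) * ‖1/2 - ρ‖ ^ 2 ≤ ‖ib ρ (1/2)‖ ^ 2 := by
  by_cases hz : (1/2 : ℂ) = ρ
  · rw [← hz]
    simp
  rw [ib_eq hz, norm_mul, mul_pow, mul_comm]
  apply mul_le_mul_of_nonneg_left _ (sq_nonneg _)
  have hz' : (1/2 : ℂ) - ρ ≠ 0 := sub_ne_zero.2 hz
  have hw : (Real.pi * (1/2 - ρ) / 2 : ℂ) ≠ 0 := by
    have hp : (Real.pi : ℂ) ≠ 0 := by exact_mod_cast Real.pi_ne_zero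
    exact div_ne_zero (mul_ne_zero hp hz') two_ne_zero
  have h12 : (1/2 : ℂ).re = 1/2 := by norm_num
  have h12' : (1/2 : ℂ).im = 0 := by norm_num
  have hs : Complex.sin (Real.pi * (1/2 - ρ) / 2) ≠ 0 := by
    rw [← sn_mul]
    exact mul_ne_zero hw (sn_ne (W04_small h0 (by linarith) (by rw [h12]; norm_num)
      (by rw [h12]; norm_num)))
  have hA := W04_nsin (Real.pi * (1/2 + conj ρ) / 2)
  have hB := W04_nsin (Real.pi * (1/2 - ρ) / 2)
  rw [W04_im', W04_re', h12, h12'] at hA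
  rw [W04_im, W04_re, h12, h12'] at hB
  set C : ℝ := Real.cosh (Real.pi * ρ.im) with hC
  set S : ℝ := Real.sin (Real.pi * ρ.re) with hS
  have hsh : Real.sinh (Real.pi * (0 - ρ.im) / 2) ^ 2 = (C - 1) / 2 := by
    have e1 : Real.pi * ρ.im = 2 * (-(Real.pi * (0 - ρ.im) / 2)) := by ring
    rw [hC, e1, Real.cosh_two_mul, Real.cosh_neg, Real.sinh_neg, Real.cosh_sq]
    ring
  have hs1 : Real.sin (Real.pi * (1/2 + ρ.re) / 2) ^ 2 = (1 + S) / 2 := by
    rw [Real.sin_sq_eq_half_sub]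
    have e1 : 2 * (Real.pi * (1/2 + ρ.re) / 2) = Real.pi * ρ.re + Real.pi / 2 := by ring
    rw [e1, Real.cos_add_pi_div_two]
    ring
  have hs2 : Real.sin (Real.pi * (1/2 - ρ.re) / 2) ^ 2 = (1 - S) / 2 := by
    rw [Real.sin_sq_eq_half_sub]
    have e1 : 2 * (Real.pi * (1/2 - ρ.re) / 2) = Real.pi / 2 - Real.pi * ρ.re := by ring
    rw [e1, Real.cos_pi_div_two_sub]
    ring
  rw [hsh, hs1] at hA
  rw [hsh, hs2] at hB
  have hpos : 0 < ‖Complex.sin (Real.pi * (1/2 - ρ) / 2)‖ ^ 2 := by positivity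
  rw [norm_div, div_pow, le_div_iff₀ hpos, hA, hB]
  have hC16 : C ≤ 16 := by
    have e1 : C ≤ Real.cosh Real.pi := by
      rw [hC, Real.cosh_le_cosh, abs_mul, abs_of_pos Real.pi_pos]
      have := Real.pi_pos
      nlinarith
    exact e1.trans W04_cosh
  have hS2 : 2 * ρ.re ≤ S := by
    have e1 := Real.mul_le_sin (x := Real.pi * ρ.re) (by positivity)
      (by have := Real.pi_pos; nlinarith)
    have e2 : 2 / Real.pi * (Real.pi * ρ.re) = 2 * ρ.re := by
      field_simp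
    rw [e2] at e1
    exact e1
  nlinarith

end LW

end F_W_W04

section F_W_W05

open Complex MeasureTheory Set Filter Topology
open scoped ComplexConjugate

namespace LW

/-- split off one zero: g = dslope f rho, Complex.differentiableOn_dslope -/
theorem factor_one {U : Set ℂ} (hU : IsOpen U) {f : ℂ → ℂ} (hf : DifferentiableOn ℂ f U) {ρ : ℂ} (hρ : ρ ∈ U)
    (h0 : f ρ = 0) : ∃ g : ℂ → ℂ, DifferentiableOn ℂ g U ∧ (∀ z, f z = (z - ρ) * g z) := by
  refine ⟨dslope f ρ, (Complex.differentiableOn_dslope (hU.mem_nhds hρ)).2 hf, fun z => ?_⟩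
  have h := sub_smul_dslope f ρ z
  rw [h0, sub_zero, smul_eq_mul] at h
  exact h.symm

theorem W05_order_self (ρ : ℂ) : analyticOrderAt (fun z : ℂ => z - ρ) ρ = 1 := by
  have ha : AnalyticAt ℂ (fun z : ℂ => z - ρ) ρ := by fun_prop
  have h : analyticOrderAt (fun z : ℂ => z - ρ) ρ = ((1 : ℕ) : ℕ∞) := by
    rw [ha.analyticOrderAt_eq_natCast]
    refine ⟨fun _ => 1, analyticAt_const, one_ne_zero, ?_⟩
    filter_upwards with z
    simp
  simp only [Nat.cast_one] at h
  exact h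

theorem W05_order_ne {ρ ρ' : ℂ} (h : ρ' ≠ ρ) : analyticOrderAt (fun z : ℂ => z - ρ) ρ' = 0 := by
  have ha : AnalyticAt ℂ (fun z : ℂ => z - ρ) ρ' := by fun_prop
  rw [ha.analyticOrderAt_eq_zero]
  exact sub_ne_zero.2 h

/-- divide by the zeros in A with multiplicities. Induction on the sum of mu over A, with factor_one; orders of g:
AnalyticAt.analyticOrderAt_mul and the order of z - rho (1 at rho, 0 elsewhere). -/
theorem factor_zeros {U : Set ℂ} (hU : IsOpen U) {f : ℂ → ℂ} (hf : DifferentiableOn ℂ f U) (A : Finset ℂ)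
    (μ : ℂ → ℕ) (hA : ∀ ρ ∈ A, ρ ∈ U) (hμ : ∀ ρ ∈ A, (μ ρ : ℕ∞) ≤ analyticOrderAt f ρ) :
    ∃ g : ℂ → ℂ, DifferentiableOn ℂ g U ∧ ∀ z ∈ U, f z = (∏ ρ ∈ A, (z - ρ) ^ μ ρ) * g z := by
  classical
  have key : ∀ (n : ℕ) (f : ℂ → ℂ) (μ : ℂ → ℕ), DifferentiableOn ℂ f U →
      (∀ ρ ∈ A, (μ ρ : ℕ∞) ≤ analyticOrderAt f ρ) → ∑ ρ ∈ A, μ ρ = n →
      ∃ g : ℂ → ℂ, DifferentiableOn ℂ g U ∧ ∀ z ∈ U, f z = (∏ ρ ∈ A, (z - ρ) ^ μ ρ) * g z := by
    intro n
    induction n with
    | zero =>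
      intro f μ hf _ hs
      refine ⟨f, hf, fun z _ => ?_⟩
      have h1 : ∀ ρ ∈ A, μ ρ = 0 := Finset.sum_eq_zero_iff.1 hs
      rw [Finset.prod_congr rfl (fun ρ hρ => by rw [h1 ρ hρ, pow_zero]), Finset.prod_const_one, one_mul]
    | succ n ih =>
      intro f μ hf hμ hs
      obtain ⟨ρ₀, hρ₀, hpos⟩ : ∃ ρ₀ ∈ A, μ ρ₀ ≠ 0 := by
        by_contra hcon
        push Not at hcon
        rw [Finset.sum_eq_zero hcon] at hs
        omega
      have hfa : AnalyticAt ℂ f ρ₀ := hf.analyticAt (hU.mem_nhds (hA ρ₀ hρ₀))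
      have h0 : f ρ₀ = 0 := by
        by_contra hne
        have h1 := hfa.analyticOrderAt_eq_zero.2 hne
        have h2 := hμ ρ₀ hρ₀
        rw [h1, nonpos_iff_eq_zero] at h2
        exact hpos (by exact_mod_cast h2)
      obtain ⟨g, hg, hfg⟩ := factor_one hU hf (hA ρ₀ hρ₀) h0
      have hfun : f = (fun z => z - ρ₀) * g := by
        funext z
        exact hfg z
      set μ' : ℂ → ℕ := Function.update μ ρ₀ (μ ρ₀ - 1) with hμ'
      have hord : ∀ ρ ∈ A, (μ' ρ : ℕ∞) ≤ analyticOrderAt g ρ := by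
        intro ρ hρ
        have hga : AnalyticAt ℂ g ρ := hg.analyticAt (hU.mem_nhds (hA ρ hρ))
        have hm := hμ ρ hρ
        have hla : AnalyticAt ℂ (fun z : ℂ => z - ρ₀) ρ := by fun_prop
        rw [hfun, analyticOrderAt_mul hla hga] at hm
        by_cases hh : ρ = ρ₀
        · subst hh
          rw [W05_order_self] at hm
          rw [hμ', Function.update_self]
          have h3 : (μ ρ : ℕ∞) = 1 + ((μ ρ - 1 : ℕ) : ℕ∞) := by
            have h4 : μ ρ = 1 + (μ ρ - 1) := by omega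
            exact_mod_cast h4
          rw [h3] at hm
          exact (ENat.add_le_add_iff_left (by simp)).1 hm
        · rw [W05_order_ne hh, zero_add] at hm
          rw [hμ', Function.update_of_ne hh]
          exact hm
      have hsum : ∑ ρ ∈ A, μ' ρ = n := by
        rw [← Finset.add_sum_erase A _ hρ₀] at hs ⊢
        rw [hμ', Function.update_self]
        have h5 : ∑ x ∈ A.erase ρ₀, Function.update μ ρ₀ (μ ρ₀ - 1) x = ∑ x ∈ A.erase ρ₀, μ x :=
          Finset.sum_congr rfl fun x hx => Function.update_of_ne (Finset.ne_of_mem_erase hx) _ _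
        rw [h5]
        omega
      obtain ⟨h, hh, hgh⟩ := ih g μ' hg hord hsum
      refine ⟨h, hh, fun z hz => ?_⟩
      rw [hfg z, hgh z hz, ← mul_assoc]
      congr 1
      rw [← Finset.mul_prod_erase A _ hρ₀, ← Finset.mul_prod_erase A (fun ρ => (z - ρ) ^ μ ρ) hρ₀, ← mul_assoc]
      rw [hμ', Function.update_self, ← pow_succ']
      have h6 : μ ρ₀ - 1 + 1 = μ ρ₀ := by omega
      rw [h6]
      congr 1
      exact Finset.prod_congr rfl fun x hx => by
        rw [Function.update_of_ne (Finset.ne_of_mem_erase hx)]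
  exact key _ f μ hf hμ rfl

end LW

end F_W_W05
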