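import Pool.Agent.Lib.MP_0f5a55_nt.V.V02

section F_M03

open Complex MeasureTheory Set Filter Topology
open scoped ComplexConjugate

namespace LZ

theorem M03_log (l : ℝ) (hl : 0 < l) (S : Finset ℕ) : 0 ≤ Real.log (nS S) / l := by
  apply div_nonneg _ hl.le
  exact Real.log_natCast_nonneg _

/-- |cf| <= 1, cf = 0 unless nS S < exp l, and at most exp l sets S have cf <> 0 (S -> nS S is injective on sets of primes);
hence sums of |cf|. -/
theorem cf_sum : ∀ lam l : ℝ, 0 ≤ lam → lam ≤ 1 → 0 < l → ∀ z : ℕ,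
    (∀ S : Finset ℕ, |cf lam l S| ≤ 1) ∧
    (∀ S ∈ (PP z).powerset, cf lam l S ≠ 0 → 1 ≤ nS S ∧ (nS S : ℝ) ≤ Real.exp l) ∧
    ∑ S ∈ (PP z).powerset, |cf lam l S| ≤ Real.exp l := by
  intro lam l h0 h1 hl z
  have A : ∀ S : Finset ℕ, |cf lam l S| ≤ 1 := by
    intro S
    unfold cf wt
    rw [abs_mul, abs_pow, abs_neg, abs_of_nonneg h0]
    have h2 : 0 ≤ max 0 (1 - Real.log (nS S) / l) := le_max_left _ _
    rw [abs_of_nonneg (pow_nonneg h2 21)]
    have h3 : max 0 (1 - Real.log (nS S) / l) ≤ 1 := by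
      apply max_le zero_le_one
      have := M03_log l hl S
      linarith
    exact mul_le_one₀ (pow_le_one₀ h0 h1) (pow_nonneg h2 21) (pow_le_one₀ h2 h3)
  have B : ∀ S ∈ (PP z).powerset, cf lam l S ≠ 0 → 1 ≤ nS S ∧ (nS S : ℝ) ≤ Real.exp l := by
    intro S hS hcf
    rw [Finset.mem_powerset] at hS
    have hpos : 0 < nS S := by
      unfold nS
      apply Finset.prod_pos
      intro q hq
      have := hS hq
      unfold PP at this
      rw [Finset.mem_filter] at this
      exact this.2.pos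
    refine ⟨hpos, ?_⟩
    by_contra hcon
    push Not at hcon
    apply hcf
    have h3 : l ≤ Real.log (nS S) := by
      rw [Real.le_log_iff_exp_le (by exact_mod_cast hpos)]
      exact hcon.le
    have h4 : 1 ≤ Real.log (nS S) / l := by
      rw [le_div_iff₀ hl]
      linarith
    unfold cf wt
    rw [max_eq_left (by linarith)]
    simp
  refine ⟨A, B, ?_⟩
  set T := (PP z).powerset.filter (fun S => cf lam l S ≠ 0) with hT
  have h2 : ∑ S ∈ (PP z).powerset, |cf lam l S| = ∑ S ∈ T, |cf lam l S| := by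
    rw [hT, Finset.sum_filter]
    apply Finset.sum_congr rfl
    intro S _
    split_ifs with h
    · rfl
    · push Not at h
      rw [h, abs_zero]
  rw [h2]
  have h3 : ∑ S ∈ T, |cf lam l S| ≤ ∑ S ∈ T, (1 : ℝ) := Finset.sum_le_sum (fun S _ => A S)
  refine h3.trans ?_
  rw [Finset.sum_const, nsmul_eq_mul, mul_one]
  have h4 : T.card ≤ (Finset.Icc 1 ⌊Real.exp l⌋₊).card := by
    apply Finset.card_le_card_of_injOn nS
    · intro S hS
      rw [Finset.mem_coe, hT, Finset.mem_filter] at hS
      obtain ⟨h5, h6⟩ := B S hS.1 hS.2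
      rw [Finset.mem_coe, Finset.mem_Icc]
      exact ⟨h5, Nat.le_floor h6⟩
    · intro S hS S' hS' hSS
      rw [Finset.mem_coe, hT, Finset.mem_filter, Finset.mem_powerset] at hS hS'
      have hp : ∀ S : Finset ℕ, S ⊆ PP z → (nS S).primeFactors = S := by
        intro S hS
        unfold nS
        apply Nat.primeFactors_prod
        intro p hp
        have := hS hp
        unfold PP at this
        rw [Finset.mem_filter] at this
        exact this.2
      rw [← hp S hS.1, ← hp S' hS'.1, hSS]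
  rw [Nat.card_Icc, Nat.add_sub_cancel] at h4
  exact (by exact_mod_cast h4 : (T.card : ℝ) ≤ (⌊Real.exp l⌋₊ : ℝ)).trans
    (Nat.floor_le (Real.exp_pos l).le)

end LZ

end F_M03
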