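import Pool.Agent.Lib.MP_0f5a55_nt.V.V04
import Pool.Agent.Lib.MP_0f5a55_nt.V.V10

section F_X_Base

/-!
# Dirichlet L-functions: first facts
-/

open Complex MeasureTheory Set Filter Topology

namespace LX

open LZ

variable {q : ℕ}

theorem prim_inv {χ : DirichletCharacter ℂ q} (hχ : χ.IsPrimitive) : χ⁻¹.IsPrimitive := by
  rw [DirichletCharacter.isPrimitive_def, DirichletCharacter.conductor_inv]
  exact hχ

theorem ne_one {χ : DirichletCharacter ℂ q} (hχ : χ.IsPrimitive) (hq : 1 < q) : χ ≠ 1 := by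
  rintro rfl
  have : NeZero q := ⟨by omega⟩
  rw [DirichletCharacter.isPrimitive_def, DirichletCharacter.conductor_one] at hχ
  omega

theorem Lf_diff [NeZero q] {χ : DirichletCharacter ℂ q} (h : χ ≠ 1) : Differentiable ℂ (Lf χ) :=
  DirichletCharacter.differentiable_LFunction h

theorem norm_char_le (χ : DirichletCharacter ℂ q) (a : ZMod q) : ‖χ a‖ ≤ 1 := χ.norm_le_one a

/-- the inverse character is the complex conjugate character -/
theorem inv_apply (χ : DirichletCharacter ℂ q) (a : ZMod q) :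
    χ⁻¹ a = (starRingEnd ℂ) (χ a) := by
  rw [← MulChar.star_eq_inv, MulChar.star_apply, Complex.star_def]

theorem PQ_sub (q z : ℕ) : PQ q z ⊆ PP z := Finset.filter_subset _ _

theorem PQ_pow_sub (q z : ℕ) : (PQ q z).powerset ⊆ (PP z).powerset :=
  Finset.powerset_mono.mpr (PQ_sub q z)

theorem PQ_mono (q : ℕ) {z z' : ℕ} (h : z ≤ z') : PQ q z ⊆ PQ q z' := by
  intro p hp
  rw [PQ, Finset.mem_filter, PP, Finset.mem_filter, Finset.mem_range] at hp ⊢
  exact ⟨⟨by omega, hp.1.2⟩, hp.2⟩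

theorem nS_pos {z : ℕ} {S : Finset ℕ} (hS : S ∈ (PP z).powerset) : 0 < nS S := by
  unfold nS
  apply Finset.prod_pos
  intro p hp
  have := Finset.mem_powerset.mp hS hp
  rw [PP, Finset.mem_filter] at this
  exact this.2.pos

theorem nS_pos' {z : ℕ} {S : Finset ℕ} (hS : S ∈ (PQ q z).powerset) : 0 < nS S :=
  nS_pos (PQ_pow_sub q z hS)

theorem nS_coprime {z : ℕ} {S : Finset ℕ} (hS : S ∈ (PQ q z).powerset) : (nS S).Coprime q := by
  unfold nS
  apply Nat.Coprime.prod_left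
  intro p hp
  have := Finset.mem_powerset.mp hS hp
  rw [PQ, Finset.mem_filter, PP, Finset.mem_filter] at this
  exact (Nat.Prime.coprime_iff_not_dvd this.1.2).mpr this.2

theorem norm_char_eq [NeZero q] (χ : DirichletCharacter ℂ q) {n : ℕ} (hn : n.Coprime q) :
    ‖χ (n : ZMod q)‖ = 1 := by
  have : IsUnit (n : ZMod q) := (ZMod.isUnit_iff_coprime n q).mpr hn
  obtain ⟨u, hu⟩ := this
  rw [← hu]
  exact DirichletCharacter.unit_norm_eq_one χ u

theorem char_mul_inv [NeZero q] (χ : DirichletCharacter ℂ q) {n : ℕ} (hn : n.Coprime q) :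
    χ (n : ZMod q) * χ⁻¹ (n : ZMod q) = 1 := by
  rw [inv_apply, Complex.mul_conj, Complex.normSq_eq_norm_sq, norm_char_eq χ hn]
  simp

/-- all characters cancel in the main terms of the master moment -/
theorem char_cancel [NeZero q] (χ : DirichletCharacter ℂ q) {h k : ℕ}
    (hhq : h.Coprime q) (hkq : k.Coprime q) :
    χ (h : ZMod q) * χ⁻¹ (k : ZMod q) *
      (χ ((k / Nat.gcd h k : ℕ) : ZMod q) * χ⁻¹ ((h / Nat.gcd h k : ℕ) : ZMod q)) = 1 := by
  set g := Nat.gcd h k with hg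
  have hgh : g ∣ h := Nat.gcd_dvd_left h k
  have hgk : g ∣ k := Nat.gcd_dvd_right h k
  have h1 : h = g * (h / g) := (Nat.mul_div_cancel' hgh).symm
  have k1 : k = g * (k / g) := (Nat.mul_div_cancel' hgk).symm
  have hgq : g.Coprime q := Nat.Coprime.coprime_dvd_left hgh hhq
  have hh' : (h / g).Coprime q := Nat.Coprime.coprime_dvd_left (Nat.div_dvd_of_dvd hgh) hhq
  have hk' : (k / g).Coprime q := Nat.Coprime.coprime_dvd_left (Nat.div_dvd_of_dvd hgk) hkq
  have e1 : χ (h : ZMod q) = χ (g : ZMod q) * χ ((h / g : ℕ) : ZMod q) := by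
    conv_lhs => rw [h1]
    rw [Nat.cast_mul, map_mul]
  have e2 : χ⁻¹ (k : ZMod q) = χ⁻¹ (g : ZMod q) * χ⁻¹ ((k / g : ℕ) : ZMod q) := by
    conv_lhs => rw [k1]
    rw [Nat.cast_mul, map_mul]
  rw [e1, e2]
  have c1 := char_mul_inv χ hgq
  have c2 := char_mul_inv χ hh'
  have c3 := char_mul_inv χ hk'
  calc _ = (χ (g : ZMod q) * χ⁻¹ (g : ZMod q)) * (χ ((h / g : ℕ) : ZMod q) * χ⁻¹ ((h / g : ℕ) : ZMod q)) *
      (χ ((k / g : ℕ) : ZMod q) * χ⁻¹ ((k / g : ℕ) : ZMod q)) := by ring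
    _ = 1 := by rw [c1, c2, c3]; ring

theorem cf_sum : ∀ lam l : ℝ, 0 ≤ lam → lam ≤ 1 → 0 < l → ∀ z : ℕ,
    (∀ S : Finset ℕ, |cf lam l S| ≤ 1) ∧
    (∀ S ∈ (PQ q z).powerset, cf lam l S ≠ 0 → 1 ≤ nS S ∧ (nS S : ℝ) ≤ Real.exp l) ∧
    ∑ S ∈ (PQ q z).powerset, |cf lam l S| ≤ Real.exp l := by
  intro lam l h0 h1 hl z
  obtain ⟨a, b, c⟩ := LZ.cf_sum lam l h0 h1 hl z
  refine ⟨a, fun S hS => b S (PQ_pow_sub q z hS), ?_⟩
  exact (Finset.sum_le_sum_of_subset_of_nonneg (PQ_pow_sub q z) (fun _ _ _ => abs_nonneg _)).trans c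

theorem Mol_diff (χ : DirichletCharacter ℂ q) (lam l : ℝ) : Differentiable ℂ (Mol χ lam l) := by
  unfold Mol
  apply Differentiable.fun_sum
  intro S hS
  apply Differentiable.const_mul
  intro s
  have h0 : (nS S : ℂ) ≠ 0 := by exact_mod_cast (nS_pos' hS).ne'
  exact (differentiableAt_id.neg).const_cpow (Or.inl h0)

theorem Mol_cont (χ : DirichletCharacter ℂ q) (lam l : ℝ) : Continuous (Mol χ lam l) :=
  (Mol_diff χ lam l).continuous

theorem Mol_bound (χ : DirichletCharacter ℂ q) {lam l : ℝ} (h0 : 0 ≤ lam) (h1 : lam ≤ 1) (hl : 0 < l)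
    {s : ℂ} (hs : 0 ≤ s.re) : ‖Mol χ lam l s‖ ≤ Real.exp l := by
  obtain ⟨a, b, c⟩ := cf_sum (q := q) lam l h0 h1 hl ⌊Real.exp l⌋₊
  refine le_trans ?_ c
  unfold Mol
  refine (norm_sum_le _ _).trans (Finset.sum_le_sum fun S hS => ?_)
  rw [norm_mul, norm_mul, Complex.norm_real, Real.norm_eq_abs]
  have hn := nS_pos' hS
  have h2 : ‖(nS S : ℂ) ^ (-s)‖ ≤ 1 := by
    rw [Complex.norm_natCast_cpow_of_pos hn]
    apply Real.rpow_le_one_of_one_le_of_nonpos
    · exact_mod_cast hn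
    · rw [Complex.neg_re]; linarith
  calc |cf lam l S| * ‖χ (nS S : ZMod q)‖ * ‖(nS S : ℂ) ^ (-s)‖ ≤ |cf lam l S| * 1 * 1 := by
        gcongr
        exact norm_char_le χ _
    _ = |cf lam l S| := by ring

theorem Mol_conj (χ : DirichletCharacter ℂ q) (lam l : ℝ) (s : ℂ) :
    Mol χ⁻¹ lam l ((starRingEnd ℂ) s) = (starRingEnd ℂ) (Mol χ lam l s) := by
  unfold Mol
  rw [map_sum]
  refine Finset.sum_congr rfl fun S hS => ?_
  rw [map_mul, map_mul, Complex.conj_ofReal, inv_apply]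
  congr 1
  have hn := nS_pos' hS
  rw [← map_neg]
  have h := Complex.cpow_conj (nS S : ℂ) (-s) (by
    rw [Complex.natCast_arg]
    exact Real.pi_pos.ne)
  rw [Complex.conj_natCast] at h
  rw [h]

end LX

end F_X_Base
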