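import Pool.Agent.Lib.MP_0f5a55_nt.V.V05
import Pool.Agent.Lib.MP_0f5a55_nt.V.V11

section F_Y_C08

open Complex MeasureTheory Set Filter Topology
open scoped ComplexConjugate

namespace LP

open LZ (kk nS cf EE ER PP wt Sep)

variable {N : ℕ} [NeZero N]

private theorem C08_Lf_conj (χ : DirichletCharacter ℂ N) (s : ℂ) (hs : s ≠ 1) :
    LX.Lf χ⁻¹ (conj s) = conj (LX.Lf χ s) := by
  have hopen : IsOpen ({1}ᶜ : Set ℂ) := isOpen_compl_singleton
  have hconn : IsPreconnected ({1}ᶜ : Set ℂ) :=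
    (isConnected_compl_singleton_of_one_lt_rank (by simp) 1).isPreconnected
  have hf : AnalyticOnNhd ℂ (LX.Lf χ⁻¹) {1}ᶜ := by
    apply DifferentiableOn.analyticOnNhd _ hopen
    intro z hz
    exact (DirichletCharacter.differentiableAt_LFunction χ⁻¹ z (Or.inl hz)).differentiableWithinAt
  have hg : AnalyticOnNhd ℂ (fun z => conj (LX.Lf χ (conj z))) {1}ᶜ := by
    apply DifferentiableOn.analyticOnNhd _ hopen
    intro z hz
    have hz' : conj z ≠ 1 := by
      intro h
      apply hz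
      have := congrArg conj h
      rw [Complex.conj_conj, map_one] at this
      exact this
    have h := (DirichletCharacter.differentiableAt_LFunction χ (conj z) (Or.inl hz')).conj_conj
    rw [Complex.conj_conj] at h
    exact h.differentiableWithinAt
  have h2 : (2 : ℂ) ∈ ({1}ᶜ : Set ℂ) := by simp
  have key : EqOn (LX.Lf χ⁻¹) (fun z => conj (LX.Lf χ (conj z))) {1}ᶜ := by
    refine hf.eqOn_of_preconnected_of_eventuallyEq hg hconn h2 ?_
    have hev : ∀ᶠ z : ℂ in 𝓝 (2 : ℂ), 1 < z.re :=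
      (isOpen_lt continuous_const Complex.continuous_re).mem_nhds (by simp)
    filter_upwards [hev] with z hz
    have hz' : 1 < (conj z).re := by rwa [Complex.conj_re]
    unfold LX.Lf
    rw [DirichletCharacter.LFunction_eq_LSeries _ hz, DirichletCharacter.LFunction_eq_LSeries _ hz']
    unfold LSeries
    rw [Complex.conj_tsum]
    refine tsum_congr fun n => ?_
    rcases Nat.eq_zero_or_pos n with rfl | hn
    · simp [LSeries.term_zero]
    · rw [LSeries.term_of_ne_zero hn.ne', LSeries.term_of_ne_zero hn.ne', map_div₀, LX.inv_apply]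
      congr 1
      have h := cpow_conj (n : ℂ) z (by
        rw [natCast_arg]
        exact Real.pi_pos.ne)
      rw [conj_natCast] at h
      rw [h, Complex.conj_conj]
  have hs' : conj s ∈ ({1}ᶜ : Set ℂ) := by
    intro h
    apply hs
    have := congrArg conj (Set.mem_singleton_iff.1 h)
    rw [Complex.conj_conj, map_one] at this
    exact this
  have h3 := key hs'
  simp only [Complex.conj_conj] at h3
  exact h3

/-- complex conjugation; adapt LZ.M08 (conj_facts) / LX.M08 (Lf_conj, Mol_conj; for every chi, s <> 1 or chi <> 1). -/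
theorem conj_facts (χ ψ : DirichletCharacter ℂ N) : (∀ s : ℂ, s ≠ 1 → LX.Lf χ⁻¹ (conj s) = conj (LX.Lf χ s)) ∧
    (∀ lam l : ℝ, ∀ s : ℂ, LX.Mol χ⁻¹ lam l (conj s) = conj (LX.Mol χ lam l s)) ∧
    (∀ (l : ℝ), 0 < l → ∀ σ u1 u2 t : ℝ, |σ| ≤ 1/4 →
      XP χ ψ⁻¹ l (σ + u1 * I) (σ - u2 * I) t =
        LX.FF χ l (1/2 + σ + (t + u1) * I) * conj (LX.FF ψ l (1/2 + σ + (t + u2) * I))) := by
  refine ⟨fun s hs => C08_Lf_conj χ s hs, fun lam l s => LX.Mol_conj χ lam l s, ?_⟩
  intro l _ σ u1 u2 t hσ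
  have e1 : (1/2 + (σ + u1 * I) + t * I : ℂ) = 1/2 + σ + (t + u1) * I := by ring
  have e2 : (1/2 + (σ - u2 * I) - t * I : ℂ) = conj (1/2 + σ + (t + u2) * I) := by
    have h2 : conj (2 : ℂ) = 2 := Complex.conj_ofNat 2
    simp only [map_add, map_mul, map_div₀, map_one, h2, conj_ofReal, conj_I]
    ring
  have hne : (1/2 + σ + (t + u2) * I : ℂ) ≠ 1 := by
    intro h
    have h4 := congrArg Complex.re h
    have h5 : (1/2 + σ + (t + u2) * I : ℂ).re = 1/2 + σ := by simp
    rw [h5, one_re] at h4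
    have := (abs_le.1 hσ).2
    linarith
  unfold XP LX.FF
  rw [e1, e2, C08_Lf_conj ψ _ hne, LX.Mol_conj, map_mul]

end LP

end F_Y_C08
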