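import Pool.Agent.Lib.MP_0f5a55_nt.V.V02

section F_A12

open Complex MeasureTheory Set Filter Topology
open scoped ComplexConjugate

namespace LZ

theorem A12_sin {k b : ℕ} (hb : 1 ≤ b) (hbk : b < k) : 2 / (k : ℝ) ≤ Real.sin (Real.pi * b / k) := by
  have hk : (0:ℝ) < k := by exact_mod_cast (by omega : 0 < k)
  have hb1 : (1:ℝ) ≤ b := by exact_mod_cast hb
  have hbk1 : (b:ℝ) + 1 ≤ k := by exact_mod_cast hbk
  have hpi := Real.pi_pos
  rcases le_total (2 * (b:ℝ)) k with h | h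
  · have h1 := Real.mul_le_sin (x := Real.pi * b / k) (by positivity) (by
      rw [div_le_div_iff₀ hk two_pos]
      have := mul_le_mul_of_nonneg_left h hpi.le
      linarith only [this])
    refine le_trans ?_ h1
    have : 2 / Real.pi * (Real.pi * b / k) = 2 * b / k := by field_simp
    rw [this]
    exact div_le_div_of_nonneg_right (by linarith only [hb1]) hk.le
  · have h1 := Real.mul_le_sin (x := Real.pi * (k - b) / k) (by
      have : 0 ≤ (k:ℝ) - b := by linarith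
      positivity) (by
      rw [div_le_div_iff₀ hk two_pos]
      have := mul_le_mul_of_nonneg_left h hpi.le
      linarith only [this])
    have h2 : Real.sin (Real.pi * b / k) = Real.sin (Real.pi * (k - b) / k) := by
      rw [← Real.sin_pi_sub]
      congr 1
      field_simp
    rw [h2]
    refine le_trans ?_ h1
    have : 2 / Real.pi * (Real.pi * (k - b) / k) = 2 * (k - b) / k := by field_simp
    rw [this]
    exact div_le_div_of_nonneg_right (by linarith only [hbk1]) hk.le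

theorem A12_a {r k : ℝ} (hr : 1 ≤ r) (hk : 2 ≤ k) : r * k ≤ 4 * r * (4 * k ^ 2) := by
  have h0 : 0 ≤ r * k := mul_nonneg (by linarith only [hr]) (by linarith only [hk])
  have h1 := mul_le_mul_of_nonneg_left (show (1:ℝ) ≤ 16 * k by linarith only [hk]) h0
  linarith only [h1]

theorem A12_b {r : ℝ} (h : r ≤ 64) : r ^ 3 ≤ 64 * r ^ 2 := by
  have h1 := mul_le_mul_of_nonneg_right h (sq_nonneg r)
  linarith only [h1]

theorem A12_c {r : ℝ} (h : 64 ≤ r) : r ^ 3 ≤ (r ^ 2 - 1) ^ 2 := by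
  have h1 : 64 * r ≤ r * r := mul_le_mul_of_nonneg_right h (by linarith only [h])
  have h6 : r ^ 2 ≤ 2 * (r ^ 2 - 1) := by linarith only [h1, h]
  have h8 : 2 * r ≤ r ^ 2 - 1 := by linarith only [h1, h]
  have h7 : r * r ^ 2 ≤ r * (2 * (r ^ 2 - 1)) := mul_le_mul_of_nonneg_left h6 (by linarith only [h])
  have h9 : 2 * r * (r ^ 2 - 1) ≤ (r ^ 2 - 1) * (r ^ 2 - 1) :=
    mul_le_mul_of_nonneg_right h8 (by linarith only [h8, h])
  linarith only [h7, h9]

theorem A12_d {k : ℝ} (h : 2 ≤ k) : 1 ≤ 4 * k ^ 2 := by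
  have h1 : 2 * 2 ≤ k * k := mul_le_mul h h (by norm_num) (by linarith only [h])
  linarith only [h1]

/-- |exp(y+2 pi i b/k)-1|^2 = (e^y-1)^2+4e^y sin^2(pi b/k) >= max((e^y-1)^2, 16 e^y/k^2). -/
theorem fz_off {k b : ℕ} (hb : 1 ≤ b) (hbk : b < k) {y : ℝ} (hy : 0 ≤ y) :
    exp ((y : ℂ) + 2 * Real.pi * I * b / k) - 1 ≠ 0 ∧
    ‖(exp ((y : ℂ) + 2 * Real.pi * I * b / k) - 1)⁻¹‖ ≤ 4 * (k : ℝ) ^ 2 * Real.exp (-y / 2) ∧
    ‖exp ((y : ℂ) + 2 * Real.pi * I * b / k) / (exp ((y : ℂ) + 2 * Real.pi * I * b / k) - 1) ^ 2‖ ≤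
      4 * (k : ℝ) ^ 2 * Real.exp (-y / 2) := by
  have hk2 : (2:ℝ) ≤ k := by exact_mod_cast (by omega : 2 ≤ k)
  have hk : (0:ℝ) < k := by linarith
  set w : ℂ := exp ((y : ℂ) + 2 * Real.pi * I * b / k) with hw
  set r : ℝ := Real.exp (y / 2) with hr
  have hr1 : 1 ≤ r := Real.one_le_exp (by linarith)
  have hrinv : Real.exp (-y / 2) = r⁻¹ := by
    rw [hr, ← Real.exp_neg]
    congr 1
    ring
  have hE : Real.exp y = r ^ 2 := by
    rw [hr, sq, ← Real.exp_add]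
    congr 1
    ring
  set θ : ℝ := 2 * (Real.pi * b / k) with hθ
  have hwE : w = (Real.exp y : ℂ) * (Real.cos θ + Real.sin θ * I) := by
    rw [hw, ofReal_exp, ofReal_cos, ofReal_sin, ← exp_mul_I, ← exp_add]
    congr 1
    rw [hθ]
    push_cast
    ring
  have hwn : ‖w‖ = r ^ 2 := by
    rw [hw, norm_exp, ← hE]
    congr 1
    have : ((y : ℂ) + 2 * Real.pi * I * b / k) = (y : ℂ) + (θ : ℂ) * I := by
      rw [hθ]
      push_cast
      ring
    rw [this]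
    simp
  have hsq : ‖w - 1‖ ^ 2 = (r ^ 2 - 1) ^ 2 + 4 * r ^ 2 * Real.sin (Real.pi * b / k) ^ 2 := by
    have hwc : w - 1 = ((r ^ 2 * Real.cos θ - 1 : ℝ) : ℂ) + ((r ^ 2 * Real.sin θ : ℝ) : ℂ) * I := by
      rw [hwE, hE]
      push_cast
      ring
    have hre : (w - 1).re = r ^ 2 * Real.cos θ - 1 := by
      rw [hwc, add_re, ofReal_re, mul_re, I_re, I_im, ofReal_im]
      ring
    have him : (w - 1).im = r ^ 2 * Real.sin θ := by
      rw [hwc, add_im, ofReal_im, mul_im, I_re, I_im, ofReal_re]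
      ring
    rw [Complex.sq_norm, normSq_apply, hre, him]
    have h1 : Real.cos θ = 1 - 2 * Real.sin (Real.pi * b / k) ^ 2 := by
      rw [hθ, Real.cos_two_mul, Real.cos_sq']
      ring
    have h2 := Real.sin_sq_add_cos_sq θ
    have h3 : (r ^ 2 * Real.cos θ - 1) * (r ^ 2 * Real.cos θ - 1) +
        r ^ 2 * Real.sin θ * (r ^ 2 * Real.sin θ) = (r ^ 2 - 1) ^ 2 + 2 * r ^ 2 * (1 - Real.cos θ) := by
      linear_combination r ^ 4 * h2
    rw [h3, h1]
    ring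
  have hs := A12_sin hb hbk
  have hlow : 16 * r ^ 2 / (k : ℝ) ^ 2 + (r ^ 2 - 1) ^ 2 ≤ ‖w - 1‖ ^ 2 := by
    have h1 : (2 / (k : ℝ)) ^ 2 ≤ Real.sin (Real.pi * b / k) ^ 2 :=
      pow_le_pow_left₀ (by positivity) hs 2
    have h2 : 16 * r ^ 2 / (k : ℝ) ^ 2 = 4 * r ^ 2 * (2 / (k : ℝ)) ^ 2 := by
      field_simp
      norm_num
    rw [hsq, h2]
    have : 4 * r ^ 2 * (2 / (k : ℝ)) ^ 2 ≤ 4 * r ^ 2 * Real.sin (Real.pi * b / k) ^ 2 := by gcongr
    linarith only [this]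
  have hposn : 0 < ‖w - 1‖ := by
    by_contra h
    have h0 : ‖w - 1‖ = 0 := le_antisymm (not_lt.mp h) (norm_nonneg _)
    rw [h0, zero_pow two_ne_zero] at hlow
    have : 0 < 16 * r ^ 2 / (k : ℝ) ^ 2 := by positivity
    linarith only [sq_nonneg (r ^ 2 - 1), this, hlow]
  refine ⟨norm_pos_iff.mp hposn, ?_, ?_⟩
  · rw [norm_inv, hrinv, inv_le_comm₀ hposn (by positivity)]
    have h1 : (4 * r / k) ^ 2 ≤ ‖w - 1‖ ^ 2 := by
      refine le_trans ?_ hlow
      have : (4 * r / k) ^ 2 = 16 * r ^ 2 / (k : ℝ) ^ 2 := by ring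
      rw [this]
      linarith [sq_nonneg (r ^ 2 - 1)]
    have h2 : 4 * r / k ≤ ‖w - 1‖ := by
      exact le_of_sq_le_sq h1 (norm_nonneg _)
    refine le_trans ?_ h2
    rw [mul_inv, inv_inv, mul_inv]
    have h3 : (4:ℝ)⁻¹ * ((k : ℝ) ^ 2)⁻¹ * r = r / (4 * k ^ 2) := by
      field_simp
    rw [h3, div_le_div_iff₀ (by positivity) hk]
    exact A12_a hr1 hk2
  · rw [norm_div, norm_pow, hwn, hrinv, div_le_iff₀ (by positivity)]
    have key : r ^ 3 ≤ 4 * (k : ℝ) ^ 2 * ‖w - 1‖ ^ 2 := by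
      have h1 : 4 * (k : ℝ) ^ 2 * (16 * r ^ 2 / (k : ℝ) ^ 2 + (r ^ 2 - 1) ^ 2) ≤
          4 * (k : ℝ) ^ 2 * ‖w - 1‖ ^ 2 := by gcongr
      refine le_trans ?_ h1
      have h2 : 4 * (k : ℝ) ^ 2 * (16 * r ^ 2 / (k : ℝ) ^ 2 + (r ^ 2 - 1) ^ 2) =
          64 * r ^ 2 + 4 * (k : ℝ) ^ 2 * (r ^ 2 - 1) ^ 2 := by
        field_simp
        ring
      rw [h2]
      rcases le_total r 64 with h | h
      · have : r ^ 3 ≤ 64 * r ^ 2 := A12_b h
        have h4 : 0 ≤ 4 * (k : ℝ) ^ 2 * (r ^ 2 - 1) ^ 2 := by positivity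
        linarith only [this, h4]
      · have h4 : r ^ 3 ≤ (r ^ 2 - 1) ^ 2 := A12_c h
        have h5 : (r ^ 2 - 1) ^ 2 ≤ 4 * (k : ℝ) ^ 2 * (r ^ 2 - 1) ^ 2 := by
          exact le_mul_of_one_le_left (sq_nonneg _) (A12_d hk2)
        have h6 : 0 ≤ 64 * r ^ 2 := by positivity
        linarith only [h4, h5, h6]
    have hr0 : 0 < r := by linarith
    calc r ^ 2 = r ^ 3 * r⁻¹ := by field_simp
      _ ≤ (4 * (k : ℝ) ^ 2 * ‖w - 1‖ ^ 2) * r⁻¹ := by gcongr
      _ = _ := by ring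

end LZ

end F_A12

section F_P01

open Complex MeasureTheory Set Filter Topology
open scoped ComplexConjugate

namespace LZ

/-- (1.1). riemannZeta_eulerProduct_exp_log: zeta(s)=exp(tsum -log(1-p^(-s))); real part of -log(1-x) is
Re x + O(|x|^2) for |x|<=1/2, and sum over primes of p^(-2) converges. -/
theorem R_log : ∃ C : ℝ, 0 ≤ C ∧ ∀ s : ℂ, 1 < s.re → |R s - Real.log ‖riemannZeta s‖| ≤ C := by
  have hsum2 : Summable (fun p : Nat.Primes => (p : ℝ) ^ (-2 : ℝ)) :=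
    Nat.Primes.summable_rpow.2 (by norm_num)
  refine ⟨∑' p : Nat.Primes, (p : ℝ) ^ (-2 : ℝ), tsum_nonneg fun p => by positivity, ?_⟩
  intro s hs
  have hp2 : ∀ p : Nat.Primes, (2 : ℝ) ≤ (p : ℝ) := fun p => by
    exact_mod_cast p.2.two_le
  have hn : ∀ p : Nat.Primes, ‖((p : ℕ) : ℂ) ^ (-s)‖ = (p : ℝ) ^ (-s.re) := by
    intro p
    have h0 : (0:ℝ) < (p : ℝ) := by have := hp2 p; linarith
    have : ((p : ℕ) : ℂ) = ((p : ℝ) : ℂ) := by simp
    rw [this, norm_cpow_eq_rpow_re_of_pos h0, neg_re]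
  have hn1 : ∀ p : Nat.Primes, ‖((p : ℕ) : ℂ) ^ (-s)‖ ≤ (p : ℝ) ^ (-1 : ℝ) := by
    intro p
    rw [hn p]
    apply Real.rpow_le_rpow_of_exponent_le (by have := hp2 p; linarith)
    linarith
  have hn2 : ∀ p : Nat.Primes, ‖((p : ℕ) : ℂ) ^ (-s)‖ ≤ 1 / 2 := by
    intro p
    refine (hn1 p).trans ?_
    rw [Real.rpow_neg_one, one_div]
    exact inv_anti₀ (by norm_num) (hp2 p)
  have hd : ∀ p : Nat.Primes, ‖(-log (1 - ((p : ℕ) : ℂ) ^ (-s))) - ((p : ℕ) : ℂ) ^ (-s)‖ ≤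
      (p : ℝ) ^ (-2 : ℝ) := by
    intro p
    set x : ℂ := ((p : ℕ) : ℂ) ^ (-s) with hx
    have h1 : ‖-x‖ < 1 := by rw [norm_neg]; linarith [hn2 p]
    have h2 := norm_log_one_add_sub_self_le h1
    rw [norm_neg] at h2
    have h3 : (-log (1 - x)) - x = -(log (1 + -x) - -x) := by ring_nf
    rw [h3, norm_neg]
    have h4 : (1 - ‖x‖)⁻¹ ≤ 2 := by
      rw [inv_le_comm₀ (by linarith [hn2 p]) (by norm_num)]
      linarith [hn2 p]
    have h5 : ‖x‖ ^ 2 ≤ (p : ℝ) ^ (-2 : ℝ) := by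
      have h6 : (p : ℝ) ^ (-2 : ℝ) = ((p : ℝ) ^ (-1 : ℝ)) ^ 2 := by
        rw [← Real.rpow_natCast, ← Real.rpow_mul (by have := hp2 p; linarith)]
        norm_num
      rw [h6]
      exact pow_le_pow_left₀ (norm_nonneg _) (hn1 p) 2
    calc _ ≤ ‖x‖ ^ 2 * (1 - ‖x‖)⁻¹ / 2 := h2
      _ ≤ ‖x‖ ^ 2 * 2 / 2 := by gcongr
      _ = ‖x‖ ^ 2 := by ring
      _ ≤ _ := h5
  have hs1 : Summable (fun p : Nat.Primes => ((p : ℕ) : ℂ) ^ (-s)) := by
    apply Summable.of_norm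
    have : Summable (fun p : Nat.Primes => (p : ℝ) ^ (-s.re)) :=
      Nat.Primes.summable_rpow.2 (by linarith)
    exact this.congr fun p => (hn p).symm
  have hs2 : Summable (fun p : Nat.Primes =>
      (-log (1 - ((p : ℕ) : ℂ) ^ (-s))) - ((p : ℕ) : ℂ) ^ (-s)) :=
    Summable.of_norm_bounded hsum2 hd
  have hs3 : Summable (fun p : Nat.Primes => (-log (1 - ((p : ℕ) : ℂ) ^ (-s)))) := by
    have := hs2.add hs1
    simpa using this
  have hz : Real.log ‖riemannZeta s‖ = (∑' p : Nat.Primes, -log (1 - ((p : ℕ) : ℂ) ^ (-s))).re := by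
    rw [← riemannZeta_eulerProduct_exp_log hs, norm_exp, Real.log_exp]
  have hR : R s = (∑' p : Nat.Primes, ((p : ℕ) : ℂ) ^ (-s)).re := by
    unfold R
    rw [re_tsum hs1]
  rw [hz, hR, ← sub_re, ← hs1.tsum_sub hs3]
  refine (abs_re_le_norm _).trans ?_
  refine tsum_of_norm_bounded hsum2.hasSum ?_
  intro p
  rw [norm_sub_rev]
  exact hd p

end LZ

end F_P01

section F_P02

open Complex MeasureTheory Set Filter Topology
open scoped ComplexConjugate

namespace LZ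

/-- zeta(1+w) w is continuous and nonvanishing on the compact set {0<=Re w, |w|<=1} (value 1 at w=0:
riemannZeta_residue_one; nonvanishing riemannZeta_ne_zero_of_one_le_re). -/
theorem zeta_one : ∃ C : ℝ, 0 < C ∧ ∀ w : ℂ, 0 < w.re → ‖w‖ ≤ 1 →
    ‖riemannZeta (1 + w)‖ ≤ C / ‖w‖ ∧ ‖riemannZeta (1 + w)‖⁻¹ ≤ C * ‖w‖ := by
  set h : ℂ → ℂ := Function.update (fun w => w * riemannZeta (1 + w)) 0 1 with hh
  have hne : ∀ w, w ≠ 0 → h w = w * riemannZeta (1 + w) := fun w hw => by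
    rw [hh, Function.update_of_ne hw]
  have h0 : h 0 = 1 := by rw [hh, Function.update_self]
  have hcont : Continuous h := by
    rw [continuous_iff_continuousAt]
    intro w
    by_cases hw : w = 0
    · subst hw
      rw [hh, continuousAt_update_same]
      have h1 := riemannZeta_residue_one
      have h2 : Tendsto (fun w : ℂ => 1 + w) (𝓝[≠] 0) (𝓝[≠] 1) := by
        refine tendsto_nhdsWithin_iff.2 ⟨?_, ?_⟩
        · have h3 : Tendsto (fun w : ℂ => 1 + w) (𝓝 0) (𝓝 (1 + 0)) :=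
            (continuous_const.add continuous_id).tendsto 0
          rw [add_zero] at h3
          exact h3.mono_left nhdsWithin_le_nhds
        · filter_upwards [self_mem_nhdsWithin] with w hw
          intro h4
          apply hw
          have h5 : (1 : ℂ) + w = 1 := h4
          exact left_eq_add.1 h5.symm
      have h6 := h1.comp h2
      refine h6.congr fun w => ?_
      simp
    · have h1 : ContinuousAt (fun w : ℂ => w * riemannZeta (1 + w)) w := by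
        refine continuousAt_id.mul ?_
        have h2 : (1 : ℂ) + w ≠ 1 := fun h => hw (left_eq_add.1 h.symm)
        exact ContinuousAt.comp (f := fun w : ℂ => 1 + w)
          (differentiableAt_riemannZeta h2).continuousAt
          (continuous_const.add continuous_id).continuousAt
      refine h1.congr ?_
      filter_upwards [isOpen_ne.mem_nhds hw] with v hv
      exact (hne v hv).symm
  have hK : IsCompact (Metric.closedBall (0 : ℂ) 1 ∩ {w : ℂ | 0 ≤ w.re}) :=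
    (isCompact_closedBall 0 1).inter_right (isClosed_le continuous_const continuous_re)
  have hKne : (Metric.closedBall (0 : ℂ) 1 ∩ {w : ℂ | 0 ≤ w.re}).Nonempty :=
    ⟨0, by simp, by simp⟩
  have hnz : ∀ w ∈ Metric.closedBall (0 : ℂ) 1 ∩ {w : ℂ | 0 ≤ w.re}, 0 < ‖h w‖ := by
    rintro w ⟨-, hw⟩
    rw [norm_pos_iff]
    by_cases hw0 : w = 0
    · rw [hw0, h0]; exact one_ne_zero
    · rw [hne w hw0]
      refine mul_ne_zero hw0 (riemannZeta_ne_zero_of_one_le_re ?_)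
      have hw' : 0 ≤ w.re := hw
      rw [add_re, one_re]
      linarith
  obtain ⟨w1, hw1, hmin⟩ := hK.exists_isMinOn hKne hcont.norm.continuousOn
  obtain ⟨w2, hw2, hmax⟩ := hK.exists_isMaxOn hKne hcont.norm.continuousOn
  have hm : 0 < ‖h w1‖ := hnz w1 hw1
  have hM : 0 < ‖h w2‖ := hnz w2 hw2
  refine ⟨max ‖h w2‖ (1 / ‖h w1‖), lt_max_of_lt_left hM, fun w hre hw => ?_⟩
  have hw0 : w ≠ 0 := by
    rintro rfl
    simp at hre
  have hwn : 0 < ‖w‖ := norm_pos_iff.2 hw0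
  have hwK : w ∈ Metric.closedBall (0 : ℂ) 1 ∩ {w : ℂ | 0 ≤ w.re} :=
    ⟨by simpa using hw, hre.le⟩
  have e1 : ‖h w‖ = ‖w‖ * ‖riemannZeta (1 + w)‖ := by rw [hne w hw0, norm_mul]
  have b1 : ‖h w‖ ≤ ‖h w2‖ := hmax hwK
  have b2 : ‖h w1‖ ≤ ‖h w‖ := hmin hwK
  have hz : 0 < ‖riemannZeta (1 + w)‖ := by
    have := hnz w hwK
    rw [e1] at this
    exact pos_of_mul_pos_right this hwn.le
  constructor
  · rw [le_div_iff₀ hwn, mul_comm, ← e1]
    exact b1.trans (le_max_left _ _)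
  · have h1 : 1 ≤ 1 / ‖h w1‖ * ‖h w‖ := by
      rw [one_div, inv_mul_eq_div, one_le_div hm]
      exact b2
    have h2 : 1 ≤ max ‖h w2‖ (1 / ‖h w1‖) * ‖h w‖ :=
      h1.trans (mul_le_mul_of_nonneg_right (le_max_right _ _) (norm_nonneg _))
    rw [e1, ← mul_assoc] at h2
    rwa [inv_le_iff_one_le_mul₀ hz]

end LZ

end F_P02

section F_P04

open Complex MeasureTheory Set Filter Topology
open scoped ComplexConjugate

namespace LZ

/-- (1.2) from R_log, zeta_one, Rz_facts (|R(1+w)| <= R(1+Re w)). -/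
theorem R_exp : ∃ C : ℝ, 0 < C ∧ ∀ w : ℂ, 0 < w.re → w.re ≤ 1 →
    Real.exp (R (1 + w)) ≤ C / w.re ∧ Real.exp (-R (1 + w)) ≤ C / w.re ∧
    Real.exp (R ((1 + w.re : ℝ) : ℂ)) ≤ C / w.re ∧
    (‖w‖ ≤ 1 → Real.exp (R (1 + w)) ≤ C / ‖w‖ ∧ Real.exp (-R (1 + w)) ≤ C * ‖w‖) := by
  obtain ⟨C0, hC0, h0⟩ := R_log
  obtain ⟨C1, hC1, h1⟩ := zeta_one
  obtain ⟨-, hR, -, -, -⟩ := Rz_facts
  -- basic estimate in the disc
  have key : ∀ w : ℂ, 0 < w.re → ‖w‖ ≤ 1 →
      Real.exp (R (1 + w)) ≤ Real.exp C0 * C1 / ‖w‖ ∧ Real.exp (-R (1 + w)) ≤ Real.exp C0 * C1 * ‖w‖ := by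
    intro w hw hw1
    have hs : 1 < (1 + w).re := by simp; exact hw
    have hz : 0 < ‖riemannZeta (1 + w)‖ :=
      norm_pos_iff.2 (riemannZeta_ne_zero_of_one_le_re hs.le)
    have h2 := abs_le.1 (h0 (1 + w) hs)
    obtain ⟨h3, h4⟩ := h1 w hw hw1
    constructor
    · calc Real.exp (R (1 + w)) ≤ Real.exp (C0 + Real.log ‖riemannZeta (1 + w)‖) :=
            Real.exp_le_exp.2 (by linarith [h2.2])
        _ = Real.exp C0 * ‖riemannZeta (1 + w)‖ := by rw [Real.exp_add, Real.exp_log hz]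
        _ ≤ Real.exp C0 * (C1 / ‖w‖) := by gcongr
        _ = _ := by ring
    · calc Real.exp (-R (1 + w)) ≤ Real.exp (C0 + -Real.log ‖riemannZeta (1 + w)‖) :=
            Real.exp_le_exp.2 (by linarith [h2.1])
        _ = Real.exp C0 * ‖riemannZeta (1 + w)‖⁻¹ := by
            rw [Real.exp_add, Real.exp_neg, Real.exp_log hz]
        _ ≤ Real.exp C0 * (C1 * ‖w‖) := by gcongr
        _ = _ := by ring
  refine ⟨Real.exp C0 * C1, by positivity, ?_⟩
  intro w hw hw1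
  have hs : 1 < (1 + w).re := by simp; exact hw
  have e1 : (((1 + w).re : ℝ) : ℂ) = 1 + ((w.re : ℝ) : ℂ) := by simp
  have hn : ‖((w.re : ℝ) : ℂ)‖ = w.re := by rw [norm_real, Real.norm_eq_abs, abs_of_pos hw]
  have h5 := (key ((w.re : ℝ) : ℂ) (by simpa using hw) (by rw [hn]; exact hw1)).1
  rw [hn] at h5
  have h6 := hR (1 + w) hs
  rw [e1] at h6
  have h7 := abs_le.1 h6
  refine ⟨?_, ?_, ?_, fun h => key w hw h⟩
  · exact (Real.exp_le_exp.2 h7.2).trans h5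
  · exact (Real.exp_le_exp.2 (by linarith [h7.1])).trans h5
  · have e2 : ((1 + w.re : ℝ) : ℂ) = 1 + ((w.re : ℝ) : ℂ) := by push_cast; ring
    rw [e2]
    exact h5

end LZ

end F_P04

section F_M08

open Complex MeasureTheory Set Filter Topology
open scoped ComplexConjugate

namespace LZ

private theorem M08_mol (lam l : ℝ) (s : ℂ) : Mol lam l (conj s) = conj (Mol lam l s) := by
  unfold Mol
  rw [map_sum]
  refine Finset.sum_congr rfl fun S _ => ?_
  rw [map_mul, conj_ofReal]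
  congr 1
  have h := cpow_conj ((nS S : ℕ) : ℂ) (-s) (by
    rw [natCast_arg]
    exact Real.pi_pos.ne)
  rw [map_neg, conj_natCast] at h
  exact h

private theorem M08_one (l : ℝ) (s : ℂ) : Mol 0 l s = 1 := by
  unfold Mol
  rw [Finset.sum_eq_single ∅]
  · simp [cf, nS, wt]
  · intro S _ hS
    have h : S.card ≠ 0 := fun h => hS (Finset.card_eq_zero.1 h)
    simp [cf, h]
  · intro h
    exact absurd (Finset.empty_mem_powerset _) h

/-- reflection identities. -/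
theorem conj_facts : (∀ s : ℂ, riemannZeta (conj s) = conj (riemannZeta s)) ∧
    (∀ lam l : ℝ, ∀ s : ℂ, Mol lam l (conj s) = conj (Mol lam l s)) ∧
    (∀ l : ℝ, 0 < l → ∀ s : ℂ, Mol 0 l s = 1) ∧
    (∀ (l : ℝ), 0 < l → ∀ σ u1 u2 t : ℝ,
      XX ![1, 0, 1, 0] l (σ + u1 * I) (σ - u2 * I) ![σ + u1 * I, 0, σ - u2 * I, 0] t =
        FF l (1/2 + σ + (t + u1) * I) * conj (FF l (1/2 + σ + (t + u2) * I))) := by
  refine ⟨fun s => riemannZeta_conj s, M08_mol, fun l _ s => M08_one l s, ?_⟩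
  intro l _ σ u1 u2 t
  have e1 : (1/2 + (σ + u1 * I) + t * I : ℂ) = 1/2 + σ + (t + u1) * I := by ring
  have e2 : (1/2 + (σ - u2 * I) - t * I : ℂ) = conj (1/2 + σ + (t + u2) * I) := by
    have h2 : conj (2 : ℂ) = 2 := Complex.conj_ofNat 2
    simp only [map_add, map_mul, map_div₀, map_one, h2, conj_ofReal, conj_I]
    ring
  unfold XX FF
  simp only [Matrix.cons_val]
  rw [e1, e2, M08_one, M08_one, riemannZeta_conj, M08_mol, map_mul]
  ring

end LZ

end F_M08
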