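import Pool.Agent.Lib.MP_0f5a55_nt.V.V11

section F_X_LB

/-!
# Bounds for Dirichlet L-functions in the half plane Re s > 0
-/

set_option autoImplicit false

namespace LX

open Finset

theorem w06_total (q : ℕ) [NeZero q] (f : ZMod q → ℂ) :
    ∑ n ∈ range q, f (n : ZMod q) = ∑ a, f a := by
  refine Finset.sum_nbij' (fun n => (n : ZMod q)) ZMod.val ?_ ?_ ?_ ?_ ?_
  · intro n _
    exact mem_univ _
  · intro a _
    exact mem_range.2 (ZMod.val_lt a)
  · intro n hn
    exact ZMod.val_cast_of_lt (mem_range.1 hn)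
  · intro a _
    exact ZMod.natCast_zmod_val a
  · intro n _
    rfl

theorem w06_shift (q : ℕ) [NeZero q] (f : ZMod q → ℂ) (N : ℕ) :
    ∑ n ∈ range q, f (((N + n + 1 : ℕ)) : ZMod q) = ∑ a, f a := by
  rw [← Equiv.sum_comp (Equiv.addLeft ((N : ZMod q) + 1)) f, ← w06_total q (fun a => f (Equiv.addLeft ((N : ZMod q) + 1) a))]
  refine Finset.sum_congr rfl fun n _ => ?_
  simp only [Equiv.coe_addLeft]
  congr 1
  push_cast
  ring

theorem w06_range (g : ℕ → ℂ) (N : ℕ) : ∑ n ∈ Icc 1 N, g n = ∑ n ∈ range N, g (n + 1) := by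
  induction N with
  | zero => simp
  | succ n ih => rw [Finset.sum_Icc_succ_top (by omega), Finset.sum_range_succ, ih]

/-- Proof. `N = q m + r`, `r < q`: by periodicity the sum is `m S + ∑_{r terms}` with
`S = ∑_{a mod q} χ(a)`, which is `φ(q)` if `χ = 1` (count units) and `0` else
(`MulChar.sum_eq_zero_of_ne_one`). The rest and `r S/q` have norm `≤ q`. -/
theorem char_sum (q : ℕ) [NeZero q] (χ : DirichletCharacter ℂ q) (N : ℕ) :
    ‖∑ n ∈ Icc 1 N, χ (n : ZMod q) -
      (if χ = 1 then ((q.totient : ℂ) / q) else 0) * N‖ ≤ 2 * q := by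
  have hq : (q : ℂ) ≠ 0 := by exact_mod_cast NeZero.ne q
  have hq1 : 0 < q := Nat.pos_of_ne_zero (NeZero.ne q)
  set c : ℂ := if χ = 1 then ((q.totient : ℂ) / q) else 0 with hc
  have hS : ∑ a : ZMod q, χ a = c * q := by
    rw [hc]
    split_ifs with h
    · rw [h, MulChar.sum_one_eq_card_units, div_mul_cancel₀ _ hq, ZMod.card_units_eq_totient]
    · rw [zero_mul]
      exact MulChar.sum_eq_zero_of_ne_one h
  have hc1 : ‖c‖ ≤ 1 := by
    rw [hc]
    split_ifs with h
    · rw [norm_div, Complex.norm_natCast, Complex.norm_natCast, div_le_one (by exact_mod_cast hq1)]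
      exact_mod_cast Nat.totient_le q
    · simp
  rw [w06_range (fun n => χ (n : ZMod q)) N]
  induction N using Nat.strong_induction_on with
  | _ N ih =>
    rcases Nat.lt_or_ge N q with h | h
    · have h1 : ‖∑ n ∈ range N, χ ((n + 1 : ℕ) : ZMod q)‖ ≤ N := by
        refine (norm_sum_le _ _).trans ?_
        refine (Finset.sum_le_card_nsmul _ _ 1 (fun n _ => DirichletCharacter.norm_le_one χ _)).trans ?_
        simp
      have h2 : ‖c * N‖ ≤ N := by
        rw [norm_mul, Complex.norm_natCast]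
        exact mul_le_of_le_one_left (Nat.cast_nonneg _) hc1
      have h3 : (N : ℝ) ≤ q := by exact_mod_cast h.le
      refine (norm_sub_le _ _).trans ?_
      linarith
    · obtain ⟨M, rfl⟩ := Nat.exists_eq_add_of_le' h
      have h1 := ih M (by omega)
      rw [Finset.sum_range_add, w06_shift q (fun a => χ a) M, hS]
      have h2 : ∑ n ∈ range M, χ ((n + 1 : ℕ) : ZMod q) + c * q - c * ((M + q : ℕ) : ℂ) =
          ∑ n ∈ range M, χ ((n + 1 : ℕ) : ZMod q) - c * M := by
        push_cast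
        ring
      rw [h2]
      exact h1

/-- the partial sums, cut off below `1` -/
noncomputable def w10_A {q : ℕ} (χ : DirichletCharacter ℂ q) (t : ℝ) : ℂ :=
  Set.indicator (Set.Ioi (1 : ℝ)) (fun t => ∑ k ∈ Icc 1 ⌊t⌋₊, χ (k : ZMod q)) t

theorem w10_sum_le (q : ℕ) [NeZero q] (χ : DirichletCharacter ℂ q) (hχ : χ ≠ 1) (N : ℕ) :
    ‖∑ n ∈ Icc 1 N, χ (n : ZMod q)‖ ≤ 2 * q := by
  have := char_sum q χ N
  rwa [if_neg hχ, zero_mul, sub_zero] at this

theorem w10_A_le (q : ℕ) [NeZero q] (χ : DirichletCharacter ℂ q) (hχ : χ ≠ 1) (t : ℝ) :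
    ‖w10_A χ t‖ ≤ 2 * q := by
  unfold w10_A
  rw [Set.indicator_apply]
  split_ifs
  · exact w10_sum_le q χ hχ _
  · rw [norm_zero]; positivity

theorem w10_A_meas {q : ℕ} (χ : DirichletCharacter ℂ q) : Measurable (w10_A χ) := by
  unfold w10_A
  apply Measurable.indicator _ measurableSet_Ioi
  exact (measurable_from_nat (f := fun N : ℕ => ∑ k ∈ Icc 1 N, χ (k : ZMod q))).comp
    Nat.measurable_floor

open MeasureTheory Filter Topology in
theorem w10_diff (q : ℕ) [NeZero q] (χ : DirichletCharacter ℂ q) (hχ : χ ≠ 1) (s : ℂ)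
    (hs : 0 < s.re) : DifferentiableAt ℂ (fun s => mellin (w10_A χ) (-s)) s := by
  have h1 : DifferentiableAt ℂ (mellin (w10_A χ)) (-s) := by
    refine mellin_differentiableAt_of_isBigO_rpow (a := 0) (b := (-s).re - 1) ?_ ?_ ?_ ?_ ?_
    · apply LocallyIntegrable.locallyIntegrableOn
      intro x
      refine ⟨Set.Icc (x - 1) (x + 1), Icc_mem_nhds (by linarith) (by linarith), ?_⟩
      refine Measure.integrableOn_of_bounded (M := 2 * q) (by simp) 
        (w10_A_meas χ).aestronglyMeasurable ?_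
      exact Filter.Eventually.of_forall fun t => w10_A_le q χ hχ t
    · simp only [neg_zero, Real.rpow_zero]
      exact Asymptotics.isBigO_of_le' (c := 2 * q) _ fun t => by
        simpa using w10_A_le q χ hχ t
    · simp only [Complex.neg_re]; linarith
    · refine Filter.EventuallyEq.trans_isBigO (f₂ := fun _ : ℝ => (0 : ℂ)) ?_
        (Asymptotics.isBigO_zero _ _)
      have h2 : ∀ᶠ t in 𝓝[>] (0 : ℝ), t < 1 := by
        filter_upwards [Ioo_mem_nhdsGT (zero_lt_one (α := ℝ))] with t ht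
        exact ht.2
      filter_upwards [h2] with t ht
      unfold w10_A
      rw [Set.indicator_of_notMem]
      exact not_lt.2 ht.le
    · linarith
  exact h1.comp s differentiableAt_id.neg

open MeasureTheory in
theorem w10_mellin {q : ℕ} (χ : DirichletCharacter ℂ q) (s : ℂ) :
    mellin (w10_A χ) (-s) = ∫ t in Set.Ioi (1 : ℝ), (∑ k ∈ Icc 1 ⌊t⌋₊, χ (k : ZMod q)) *
      (t : ℂ) ^ (-(s + 1)) := by
  unfold mellin
  have e : ∀ t : ℝ, (t : ℂ) ^ (-s - 1) • w10_A χ t =
      Set.indicator (Set.Ioi (1 : ℝ)) (fun t : ℝ => (∑ k ∈ Icc 1 ⌊t⌋₊, χ (k : ZMod q)) *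
      (t : ℂ) ^ (-(s + 1))) t := by
    intro t
    unfold w10_A
    rw [Set.indicator_apply, Set.indicator_apply]
    split_ifs
    · rw [smul_eq_mul, mul_comm]
      congr 2
      ring
    · rw [smul_zero]
  simp_rw [e]
  rw [setIntegral_indicator measurableSet_Ioi]
  congr 2
  rw [Set.Ioi_inter_Ioi]
  simp

open MeasureTheory Filter Topology in
theorem w10_eq (q : ℕ) [NeZero q] (χ : DirichletCharacter ℂ q) (hχ : χ ≠ 1) (s : ℂ)
    (hs : 0 < s.re) : DirichletCharacter.LFunction χ s = s * mellin (w10_A χ) (-s) := by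
  have hU : IsOpen {s : ℂ | 0 < s.re} := isOpen_lt continuous_const Complex.continuous_re
  have hf : AnalyticOnNhd ℂ (DirichletCharacter.LFunction χ) {s : ℂ | 0 < s.re} := fun z _ =>
    (DirichletCharacter.differentiable_LFunction hχ).analyticAt z
  have hg : AnalyticOnNhd ℂ (fun s => s * mellin (w10_A χ) (-s)) {s : ℂ | 0 < s.re} := by
    apply DifferentiableOn.analyticOnNhd _ hU
    intro z hz
    exact (differentiableAt_id.mul (w10_diff q χ hχ z hz)).differentiableWithinAt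
  have hpre : IsPreconnected {s : ℂ | 0 < s.re} := (convex_halfSpace_re_gt 0).isPreconnected
  have h2 : (2 : ℂ) ∈ {s : ℂ | 0 < s.re} := by simp
  refine hf.eqOn_of_preconnected_of_eventuallyEq hg hpre h2 ?_ hs
  have hev : ∀ᶠ z : ℂ in 𝓝 (2 : ℂ), 1 < z.re :=
    (isOpen_lt continuous_const Complex.continuous_re).mem_nhds (by simp)
  filter_upwards [hev] with z hz
  rw [DirichletCharacter.LFunction_eq_LSeries χ hz, w10_mellin]
  refine LSeries_eq_mul_integral (fun n : ℕ => χ (n : ZMod q)) le_rfl (by linarith)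
    (DirichletCharacter.LSeriesSummable_of_one_lt_re χ hz) ?_
  simp only [Real.rpow_zero]
  exact Asymptotics.isBigO_of_le' (c := 2 * q) _ fun n => by
    simpa using w10_sum_le q χ hχ n

/-- Proof. `A(t) = ∑_{n ≤ t} χ(n)`, `‖A‖ ≤ 2q`. For `Re s > 1`,
`L(s,χ) = s ∫_1^∞ A(t) t^{-s-1} dt` (`LSeries_eq_mul_integral` with `r = 0`). Both sides are analytic
on `Re s > 0` (right side: `mellin_differentiableAt_of_isBigO_rpow` or differentiation under the
integral sign), and `LFunction χ` is entire for `χ ≠ 1`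
(`DirichletCharacter.differentiable_LFunction`), so they agree on `Re s > 0`
(`AnalyticOnNhd.eqOn_of_preconnected_of_eventuallyEq`), and
`|s| · 2q ∫_1^∞ t^{-σ-1} dt = 2q|s|/σ`. -/
theorem LFunction_le (q : ℕ) [NeZero q] (χ : DirichletCharacter ℂ q) (hχ : χ ≠ 1) (s : ℂ)
    (hs : 0 < s.re) : ‖DirichletCharacter.LFunction χ s‖ ≤ 2 * q * ‖s‖ / s.re := by
  rw [w10_eq q χ hχ s hs, norm_mul, w10_mellin]
  have h1 : ‖∫ t in Set.Ioi (1 : ℝ), (∑ k ∈ Icc 1 ⌊t⌋₊, χ (k : ZMod q)) *
      (t : ℂ) ^ (-(s + 1))‖ ≤ ∫ t in Set.Ioi (1 : ℝ), (2 * q) * t ^ (-(s.re + 1)) := by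
    apply MeasureTheory.norm_integral_le_of_norm_le
    · exact (integrableOn_Ioi_rpow_of_lt (by linarith) zero_lt_one).const_mul _
    · refine (MeasureTheory.ae_restrict_iff' measurableSet_Ioi).2 (Filter.Eventually.of_forall ?_)
      intro t ht
      have ht0 : (0 : ℝ) < t := zero_lt_one.trans ht
      rw [norm_mul, Complex.norm_cpow_eq_rpow_re_of_pos ht0]
      have e : (-(s + 1)).re = -(s.re + 1) := by simp
      rw [e]
      exact mul_le_mul_of_nonneg_right (w10_sum_le q χ hχ _) (Real.rpow_nonneg ht0.le _)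
  rw [MeasureTheory.integral_const_mul, integral_Ioi_rpow_of_lt (by linarith) zero_lt_one,
    Real.one_rpow] at h1
  have e2 : (2 * (q : ℝ)) * (-1 / (-(s.re + 1) + 1)) = 2 * q / s.re := by
    have : -(s.re + 1) + 1 = -s.re := by ring
    rw [this, neg_div_neg_eq]
    ring
  rw [e2] at h1
  calc ‖s‖ * _ ≤ ‖s‖ * (2 * q / s.re) := mul_le_mul_of_nonneg_left h1 (norm_nonneg _)
    _ = 2 * q * ‖s‖ / s.re := by ring


theorem Lf_le {q : ℕ} [NeZero q] {χ : DirichletCharacter ℂ q} (hχ : χ ≠ 1) {s : ℂ} (hs : 0 < s.re) :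
    ‖Lf χ s‖ ≤ 2 * q * ‖s‖ / s.re := LFunction_le q χ hχ s hs

/-- polynomial growth in the half plane Re s ≥ 5/16 -/
theorem L_pol {q : ℕ} [NeZero q] {χ : DirichletCharacter ℂ q} (hχ : χ ≠ 1) :
    ∃ C : ℝ, 0 < C ∧ ∀ s : ℂ, 5/16 ≤ s.re → ‖Lf χ s‖ ≤ C * (1 + |s.im|) := by
  have hq : (0 : ℝ) < q := by exact_mod_cast Nat.pos_of_ne_zero (NeZero.ne q)
  refine ⟨8 * q, by positivity, fun s hs => ?_⟩
  have hs0 : 0 < s.re := by linarith
  refine (Lf_le hχ hs0).trans ?_
  rw [div_le_iff₀ hs0]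
  have h1 : ‖s‖ ≤ s.re + |s.im| := by
    calc ‖s‖ ≤ |s.re| + |s.im| := Complex.norm_le_abs_re_add_abs_im s
      _ = s.re + |s.im| := by rw [abs_of_pos hs0]
  have h2 : ‖s‖ ≤ 4 * (1 + |s.im|) * s.re := by
    have := abs_nonneg s.im
    nlinarith
  calc 2 * (q : ℝ) * ‖s‖ ≤ 2 * q * (4 * (1 + |s.im|) * s.re) := by gcongr
    _ = 8 * q * (1 + |s.im|) * s.re := by ring

end LX

end F_X_LB
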