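import Pool.Agent.Lib.MP_0f5a55_nt.V.V02
import Pool.Agent.Lib.MP_0f5a55_nt.V.V06
import Pool.Agent.Lib.MP_0f5a55_nt.V.V15

section F_A15

open Complex MeasureTheory Set Filter Topology
open scoped ComplexConjugate

namespace LZ

theorem A15_f1 {y : ℝ} (hy : 0 < y) : 0 ≤ f1 y ∧ f1 y ≤ Real.exp (-y) := by
  unfold f1
  rw [Real.exp_neg]
  have h1 : y + 1 ≤ Real.exp y := Real.add_one_le_exp y
  have h2 : 1 - y ≤ (Real.exp y)⁻¹ := by
    rw [← Real.exp_neg]; linarith [Real.add_one_le_exp (-y)]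
  set E := Real.exp y with hE
  have hE0 : 0 < E := Real.exp_pos y
  have hE1 : 0 < E - 1 := by linarith
  have h3 : E * (1 - y) ≤ 1 := by
    calc E * (1 - y) ≤ E * E⁻¹ := by gcongr
      _ = 1 := mul_inv_cancel₀ hE0.ne'
  constructor
  · rw [sub_nonneg, ← one_div, div_div, div_le_div_iff₀ (by positivity) hE1]
    linarith
  · rw [sub_le_iff_le_add, ← one_div, div_div, div_add_div _ _ (by positivity) (by positivity),
      div_le_div_iff₀ hE1 (by positivity)]
    nlinarith [mul_nonneg hE0.le (by linarith : 0 ≤ E - 1 - y)]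

/-- |zeta(1+eta)| and |Ac eta|: |Gamma(1-eta)| <= Gamma(1-Re eta), f1 bounded by C exp(-y/2). -/
theorem zA_bounds (V : ℝ) (hV : 0 ≤ V) : ∃ C : ℝ, 0 < C ∧ ∀ η : ℂ, |η.re| ≤ 1/8 → |η.im| ≤ V → η ≠ 0 →
    ‖riemannZeta (1 + η)‖ ≤ C * (1 + 1 / ‖η‖) ∧ ‖Ac η‖ ≤ C * (1 + 1 / ‖η‖) := by
  set S : Set ℂ := Icc (-(1/8 : ℝ)) (1/8) ×ℂ Icc (-V) V with hS
  have hSc : IsCompact S := isCompact_Icc.reProdIm isCompact_Icc
  have hmem : ∀ η : ℂ, |η.re| ≤ 1/8 → |η.im| ≤ V → η ∈ S := by
    intro η h1 h2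
    rw [hS, mem_reProdIm]
    exact ⟨abs_le.1 h1, abs_le.1 h2⟩
  have hre : ∀ η ∈ S, |η.re| ≤ 1/8 := by
    intro η h
    rw [hS, mem_reProdIm] at h
    exact abs_le.2 h.1
  -- zeta
  obtain ⟨C1, hC1⟩ := hSc.exists_bound_of_continuousOn (f := fun η : ℂ => riemannZeta₁ (1 + η))
    (by
      refine Continuous.continuousOn ?_
      exact differentiable_riemannZeta₁.continuous.comp (by fun_prop))
  obtain ⟨C2, hC2⟩ := hSc.exists_bound_of_continuousOn (f := fun η : ℂ => Gamma (1 - η))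
    (by
      intro η hη
      have h1 := abs_le.1 (hre η hη)
      refine ContinuousAt.continuousWithinAt ?_
      refine ContinuousAt.comp (g := Gamma) (f := fun η : ℂ => 1 - η) ?_ (by fun_prop)
      refine (differentiableAt_Gamma _ ?_).continuousAt
      intro m h
      have h2 := congrArg Complex.re h
      simp only [sub_re, one_re, neg_re, natCast_re] at h2
      have h3 : (0 : ℝ) ≤ m := Nat.cast_nonneg m
      linarith)
  set g : ℝ → ℝ := fun y => y ^ (-(1/8 : ℝ)) * Real.exp (-y) + y ^ (1/8 : ℝ) * Real.exp (-y) with hg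
  have hgi : IntegrableOn g (Ioi 0) := by
    refine Integrable.add ?_ ?_
    · have h := integrableOn_rpow_mul_exp_neg_mul_rpow (s := -(1/8 : ℝ)) (p := 1) (b := 1) (by norm_num) one_pos one_pos
      refine h.congr_fun (fun t _ => ?_) measurableSet_Ioi
      simp only [Real.rpow_one, neg_mul, one_mul]
    · have h := integrableOn_rpow_mul_exp_neg_mul_rpow (s := (1/8 : ℝ)) (p := 1) (b := 1) (by norm_num) one_pos one_pos
      refine h.congr_fun (fun t _ => ?_) measurableSet_Ioi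
      simp only [Real.rpow_one, neg_mul, one_mul]
  set C3 : ℝ := ∫ y in Ioi (0 : ℝ), g y with hC3
  have hint : ∀ η : ℂ, |η.re| ≤ 1/8 → ‖∫ y in Ioi (0:ℝ), (y : ℂ) ^ (-η) * (f1 y : ℂ)‖ ≤ C3 := by
    intro η hη
    refine norm_integral_le_of_norm_le hgi ?_
    refine (ae_restrict_iff' measurableSet_Ioi).2 (Eventually.of_forall fun y hy => ?_)
    have hy0 : (0 : ℝ) < y := hy
    obtain ⟨h1, h2⟩ := A15_f1 hy0
    obtain ⟨h3, h4⟩ := abs_le.1 hη
    rw [norm_mul, Complex.norm_cpow_eq_rpow_re_of_pos hy0, neg_re, Complex.norm_real, Real.norm_of_nonneg h1]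
    have h5 : y ^ (-η.re) ≤ y ^ (-(1/8 : ℝ)) + y ^ (1/8 : ℝ) := by
      rcases le_total 1 y with h | h
      · have := Real.rpow_le_rpow_of_exponent_le h (by linarith : -η.re ≤ 1/8)
        have h6 : 0 ≤ y ^ (-(1/8 : ℝ)) := by positivity
        linarith
      · have := Real.rpow_le_rpow_of_exponent_ge hy0 h (by linarith : -(1/8) ≤ -η.re)
        have h6 : 0 ≤ y ^ (1/8 : ℝ) := by positivity
        linarith
    calc y ^ (-η.re) * f1 y ≤ (y ^ (-(1/8 : ℝ)) + y ^ (1/8 : ℝ)) * Real.exp (-y) := by gcongr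
      _ = g y := by rw [hg]; ring
  have hC3' : 0 ≤ C3 := (norm_nonneg _).trans (hint 0 (by simp))
  refine ⟨|C1| + |C2| + C3 + 1, by positivity, fun η h1 h2 h0 => ?_⟩
  have hn : 0 < ‖η‖ := norm_pos_iff.2 h0
  have hi : 0 < 1 / ‖η‖ := by positivity
  constructor
  · have h3 := hC1 η (hmem η h1 h2)
    have h4 : riemannZeta (1 + η) = riemannZeta₁ (1 + η) / η := by
      have h6 : (1 : ℂ) + η ≠ 1 := by
        intro h
        exact h0 (by simpa using h)
      rw [riemannZeta_eq_inv_sub_mul h6, add_sub_cancel_left, div_eq_inv_mul]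
    rw [h4, norm_div, div_eq_mul_one_div]
    have h5 : ‖riemannZeta₁ (1 + η)‖ ≤ |C1| + |C2| + C3 + 1 := by
      have := le_abs_self C1
      have := abs_nonneg C2
      linarith
    calc ‖riemannZeta₁ (1 + η)‖ * (1 / ‖η‖) ≤ (|C1| + |C2| + C3 + 1) * (1 / ‖η‖) := by gcongr
      _ ≤ (|C1| + |C2| + C3 + 1) * (1 + 1 / ‖η‖) := by gcongr; linarith
  · unfold Ac
    have h3 := hC2 η (hmem η h1 h2)
    refine (norm_add_le _ _).trans ?_
    rw [norm_div, norm_neg, div_eq_mul_one_div]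
    have a1 : ‖Gamma (1 - η)‖ * (1 / ‖η‖) ≤ (|C1| + |C2| + C3 + 1) * (1 / ‖η‖) := by
      gcongr
      have := le_abs_self C2
      have := abs_nonneg C1
      linarith
    have a2 : ‖∫ y in Ioi (0:ℝ), (y : ℂ) ^ (-η) * (f1 y : ℂ)‖ ≤ |C1| + |C2| + C3 + 1 := by
      have := hint η h1
      have := abs_nonneg C1
      have := abs_nonneg C2
      linarith
    calc ‖Gamma (1 - η)‖ * (1 / ‖η‖) + ‖∫ y in Ioi (0:ℝ), (y : ℂ) ^ (-η) * (f1 y : ℂ)‖
        ≤ (|C1| + |C2| + C3 + 1) * (1 / ‖η‖) + (|C1| + |C2| + C3 + 1) := add_le_add a1 a2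
      _ = (|C1| + |C2| + C3 + 1) * (1 + 1 / ‖η‖) := by ring

end LZ

end F_A15

section F_X_M08

open Complex MeasureTheory Set Filter Topology
open scoped ComplexConjugate

namespace LX

open LZ

variable {q : ℕ} [NeZero q]

/-- reflection -/
theorem Lf_conj {χ : DirichletCharacter ℂ q} (hχ : χ ≠ 1) (s : ℂ) :
    Lf χ⁻¹ (conj s) = conj (Lf χ s) := by
  have hinv : χ⁻¹ ≠ 1 := inv_ne_one.mpr hχ
  have hf : AnalyticOnNhd ℂ (Lf χ⁻¹) univ := fun z _ => (Lf_diff hinv).analyticAt z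
  have hgd : Differentiable ℂ (fun z => conj (Lf χ (conj z))) := by
    intro z
    have h := ((Lf_diff hχ) (conj z)).conj_conj
    rw [Complex.conj_conj] at h
    exact h
  have hg : AnalyticOnNhd ℂ (fun z => conj (Lf χ (conj z))) univ := fun z _ => hgd.analyticAt z
  have h2 : (2 : ℂ) ∈ (univ : Set ℂ) := mem_univ _
  have key : EqOn (Lf χ⁻¹) (fun z => conj (Lf χ (conj z))) univ := by
    refine hf.eqOn_of_preconnected_of_eventuallyEq hg isPreconnected_univ h2 ?_
    have hev : ∀ᶠ z : ℂ in 𝓝 (2 : ℂ), 1 < z.re :=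
      (isOpen_lt continuous_const Complex.continuous_re).mem_nhds (by simp)
    filter_upwards [hev] with z hz
    have hz' : 1 < (conj z).re := by rwa [Complex.conj_re]
    unfold Lf
    rw [DirichletCharacter.LFunction_eq_LSeries _ hz, DirichletCharacter.LFunction_eq_LSeries _ hz']
    unfold LSeries
    rw [Complex.conj_tsum]
    refine tsum_congr fun n => ?_
    rcases Nat.eq_zero_or_pos n with rfl | hn
    · simp [LSeries.term_zero]
    · rw [LSeries.term_of_ne_zero hn.ne', LSeries.term_of_ne_zero hn.ne', map_div₀, inv_apply]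
      congr 1
      have h := cpow_conj (n : ℂ) z (by
        rw [natCast_arg]
        exact Real.pi_pos.ne)
      rw [conj_natCast] at h
      rw [h, Complex.conj_conj]
  have h3 := key (mem_univ (conj s))
  simp only [Complex.conj_conj] at h3
  exact h3

theorem Mol_zero (χ : DirichletCharacter ℂ q) (l : ℝ) (s : ℂ) : Mol χ 0 l s = 1 := by
  unfold Mol
  rw [Finset.sum_eq_single ∅]
  · simp [cf, nS, wt]
  · intro S _ hS
    have h : S.card ≠ 0 := fun h => hS (Finset.card_eq_zero.1 h)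
    simp [cf, h]
  · intro h
    exact absurd (Finset.empty_mem_powerset _) h

theorem XX_mu_eq {χ : DirichletCharacter ℂ q} (hχ : χ ≠ 1) (l σ u1 u2 t : ℝ) :
    XX χ ![1, 0, 1, 0] l (σ + u1 * I) (σ - u2 * I) ![σ + u1 * I, 0, σ - u2 * I, 0] t =
      FF χ l (1/2 + σ + (t + u1) * I) * conj (FF χ l (1/2 + σ + (t + u2) * I)) := by
  have e1 : (1/2 + (σ + u1 * I) + t * I : ℂ) = 1/2 + σ + (t + u1) * I := by ring
  have e2 : (1/2 + (σ - u2 * I) - t * I : ℂ) = conj (1/2 + σ + (t + u2) * I) := by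
    have h2 : conj (2 : ℂ) = 2 := Complex.conj_ofNat 2
    simp only [map_add, map_mul, map_div₀, map_one, h2, conj_ofReal, conj_I]
    ring
  unfold XX FF
  simp only [Matrix.cons_val]
  rw [e1, e2, Mol_zero, Mol_zero, Lf_conj hχ, Mol_conj, map_mul]
  ring

end LX

end F_X_M08

section F_Z03

open Complex MeasureTheory Set Filter Topology
open scoped ComplexConjugate

namespace LZ

theorem Z03_re (t : ℝ) : ((1/2 : ℂ) + t * I).re = 1/2 := by
  simp only [add_re, mul_re, ofReal_re, I_re, mul_zero, ofReal_im, I_im, zero_mul, sub_zero,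
    add_zero]
  norm_num

theorem Z03_ne (t : ℝ) : Gammaℝ (1/2 + t * I) ≠ 0 :=
  Gammaℝ_ne_zero_of_re_pos (by rw [Z03_re]; norm_num)

theorem Z03_cont : Continuous (fun t : ℝ => Gammaℝ (1/2 + t * I)) := by
  have h1 : Continuous (fun t : ℝ => (Gammaℝ (1/2 + t * I))⁻¹) :=
    differentiable_Gammaℝ_inv.continuous.comp
      (continuous_const.add (continuous_ofReal.mul continuous_const))
  have h2 := h1.inv₀ (fun t => inv_ne_zero (Z03_ne t))
  refine h2.congr (fun t => ?_)
  exact inv_inv _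

theorem Z03_Gammaℝ_conj (s : ℂ) : Gammaℝ (conj s) = conj (Gammaℝ s) := by
  rw [Gammaℝ_def, Gammaℝ_def, map_mul]
  have h1 : conj s / 2 = conj (s / 2) := by
    rw [map_div₀, Complex.conj_ofNat]
  have h2 : -conj s / 2 = conj (-s / 2) := by
    rw [map_div₀, map_neg, Complex.conj_ofNat]
  rw [h1, h2, Gamma_conj]
  congr 1
  have h3 := A_aux (-s / 2)
  exact h3
where
  A_aux (w : ℂ) : ((Real.pi : ℂ)) ^ (conj w) = conj ((Real.pi : ℂ) ^ w) := by
    rw [cpow_def_of_ne_zero (by exact_mod_cast Real.pi_ne_zero),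
      cpow_def_of_ne_zero (by exact_mod_cast Real.pi_ne_zero), ← exp_conj, map_mul,
      ← ofReal_log Real.pi_pos.le, conj_ofReal]

theorem Z03_completed_real (t : ℝ) :
    conj (completedRiemannZeta (1/2 + t * I)) = completedRiemannZeta (1/2 + t * I) := by
  have hne : ((1:ℂ)/2 + t * I) ≠ 0 := by
    intro h
    have := congrArg Complex.re h
    rw [Z03_re, zero_re] at this
    norm_num at this
  have hc : conj ((1:ℂ)/2 + t * I) = 1 - (1/2 + t * I) := by
    simp only [map_add, map_mul, conj_ofReal, conj_I, map_div₀, map_one]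
    rw [Complex.conj_ofNat]
    ring
  have hne2 : conj ((1:ℂ)/2 + t * I) ≠ 0 := by
    intro h
    rw [map_eq_zero] at h
    exact hne h
  have e1 : completedRiemannZeta (1/2 + t * I) = riemannZeta (1/2 + t * I) * Gammaℝ (1/2 + t * I) := by
    rw [riemannZeta_def_of_ne_zero hne]
    exact (div_mul_cancel₀ _ (Z03_ne t)).symm
  have e2 : completedRiemannZeta (conj ((1:ℂ)/2 + t * I)) =
      riemannZeta (conj ((1:ℂ)/2 + t * I)) * Gammaℝ (conj ((1:ℂ)/2 + t * I)) := by
    rw [riemannZeta_def_of_ne_zero hne2]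
    refine (div_mul_cancel₀ _ ?_).symm
    rw [Z03_Gammaℝ_conj]
    intro h
    rw [map_eq_zero] at h
    exact Z03_ne t h
  have e3 : completedRiemannZeta (conj ((1:ℂ)/2 + t * I)) =
      conj (completedRiemannZeta (1/2 + t * I)) := by
    rw [e2, riemannZeta_conj, Z03_Gammaℝ_conj, ← map_mul, ← e1]
  rw [← e3, hc, completedRiemannZeta_one_sub]

/-- completedRiemannZeta (1/2+it) is real, riemannZeta s = completedRiemannZeta s / Gammaℝ s. -/
theorem uu_facts : (∀ t : ℝ, ‖uu t‖ = 1) ∧ Continuous uu ∧ (∀ t : ℝ, (uu t * riemannZeta (1/2 + t * I)).im = 0) := by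
  refine ⟨fun t => ?_, ?_, fun t => ?_⟩
  · unfold uu
    rw [norm_div, norm_real, norm_norm, div_self]
    exact norm_ne_zero_iff.2 (Z03_ne t)
  · unfold uu
    refine Z03_cont.div (continuous_ofReal.comp Z03_cont.norm) (fun t => ?_)
    exact_mod_cast norm_ne_zero_iff.2 (Z03_ne t)
  · have hne : ((1:ℂ)/2 + t * I) ≠ 0 := by
      intro h
      have := congrArg Complex.re h
      rw [Z03_re, zero_re] at this
      norm_num at this
    rw [← conj_eq_iff_im]
    unfold uu
    rw [riemannZeta_def_of_ne_zero hne]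
    have h1 : Gammaℝ (1/2 + t * I) / (‖Gammaℝ (1/2 + t * I)‖ : ℂ) *
        (completedRiemannZeta (1/2 + t * I) / Gammaℝ (1/2 + t * I)) =
        completedRiemannZeta (1/2 + t * I) / (‖Gammaℝ (1/2 + t * I)‖ : ℂ) := by
      rw [div_mul_div_comm, mul_comm (‖Gammaℝ (1/2 + t * I)‖ : ℂ), mul_div_mul_left _ _ (Z03_ne t)]
    rw [h1, map_div₀, conj_ofReal, Z03_completed_real]

end LZ

end F_Z03
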