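import Pool.Agent.Lib.MP_0f5a55_nt.V.V05
import Pool.Agent.Lib.MP_0f5a55_nt.V.V11

section F_Y_XB1

open Complex MeasureTheory Set Filter Topology
open scoped ComplexConjugate

namespace LP

open LZ (kk nS cf EE ER PP wt Sep)

variable {N : ℕ} [NeZero N]

/-- Dirichlet series, linearity and the constant function (q = N).
Hints: ZMod.LFunction_eq_LSeries, ZMod.LSeriesSummable_of_one_lt_re, zeta: LZX / Mathlib zeta_eq_tsum_one_div_nat_add_one_cpow;
identity theorem for (iii), or hurwitz formula; (ii) is by unfolding ZMod.LFunction (linear in the function). -/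
theorem per_basic : (∀ (f : ZMod N → ℂ) (s : ℂ), 1 < s.re →
      HasSum (fun n : ℕ => f ((n + 1 : ℕ) : ZMod N) * ((n : ℂ) + 1) ^ (-s)) (ZMod.LFunction f s)) ∧
    (∀ (f g : ZMod N → ℂ) (a b s : ℂ), ZMod.LFunction (fun x => a * f x + b * g x) s =
      a * ZMod.LFunction f s + b * ZMod.LFunction g s) ∧
    (∀ s : ℂ, s ≠ 1 → ZMod.LFunction (fun _ : ZMod N => (1:ℂ)) s = riemannZeta s) := by
  have hser : ∀ (f : ZMod N → ℂ) (s : ℂ), 1 < s.re →
      HasSum (fun n : ℕ => f ((n + 1 : ℕ) : ZMod N) * ((n : ℂ) + 1) ^ (-s)) (ZMod.LFunction f s) := by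
    intro f s hs
    have h1 : HasSum (LSeries.term (fun n : ℕ => f n) s) (ZMod.LFunction f s) := by
      rw [ZMod.LFunction_eq_LSeries f hs]
      exact (ZMod.LSeriesSummable_of_one_lt_re f hs).hasSum
    have h2 := (hasSum_nat_add_iff' (f := LSeries.term (fun n : ℕ => f n) s) 1).2 h1
    rw [Finset.sum_range_one, LSeries.term_zero, sub_zero] at h2
    refine h2.congr_fun ?_
    intro n
    rw [LSeries.term_of_ne_zero (Nat.succ_ne_zero n), Complex.cpow_neg, div_eq_mul_inv]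
    push_cast
    rfl
  refine ⟨hser, ?_, ?_⟩
  · intro f g a b s
    simp only [ZMod.LFunction, add_mul, Finset.sum_add_distrib, mul_add, Finset.mul_sum]
    congr 1
    · refine Finset.sum_congr rfl fun j _ => ?_
      ring
    · refine Finset.sum_congr rfl fun j _ => ?_
      ring
  · intro s hs
    have hopen : IsOpen ({1}ᶜ : Set ℂ) := isOpen_compl_singleton
    have hf : AnalyticOnNhd ℂ (ZMod.LFunction (fun _ : ZMod N => (1 : ℂ))) {1}ᶜ := by
      refine DifferentiableOn.analyticOnNhd ?_ hopen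
      intro z hz
      exact (ZMod.differentiableAt_LFunction _ z (Or.inl hz)).differentiableWithinAt
    have hg : AnalyticOnNhd ℂ riemannZeta {1}ᶜ := by
      refine DifferentiableOn.analyticOnNhd ?_ hopen
      intro z hz
      exact (differentiableAt_riemannZeta hz).differentiableWithinAt
    have hpre : IsPreconnected ({1}ᶜ : Set ℂ) :=
      (isConnected_compl_singleton_of_one_lt_rank (by simp) _).isPreconnected
    have hev : ZMod.LFunction (fun _ : ZMod N => (1 : ℂ)) =ᶠ[𝓝 2] riemannZeta := by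
      have hU : {z : ℂ | 1 < z.re} ∈ 𝓝 (2 : ℂ) := by
        refine (isOpen_lt continuous_const Complex.continuous_re).mem_nhds ?_
        norm_num
      filter_upwards [hU] with z hz
      have h1 := hser (fun _ => 1) z hz
      rw [zeta_eq_tsum_one_div_nat_add_one_cpow hz, ← h1.tsum_eq]
      refine tsum_congr fun n => ?_
      rw [one_mul, Complex.cpow_neg, one_div]
    exact hf.eqOn_of_preconnected_of_eventuallyEq hg hpre (by norm_num) hev hs

end LP

end F_Y_XB1

section F_Y_C01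

open Complex MeasureTheory Set Filter Topology
open scoped ComplexConjugate

namespace LP

open LZ (kk nS cf EE ER PP wt Sep)

variable {N : ℕ} [NeZero N]

/-- expand the two mollifiers; adapt LZ.M01 / LX.M01. -/
theorem XP_expand (χ ψ : DirichletCharacter ℂ N) (l : ℝ) (α β : ℂ) (t : ℝ) :
    XP χ ψ l α β t = ∑ S ∈ (LX.PQ N ⌊Real.exp l⌋₊).powerset ×ˢ (LX.PQ N ⌊Real.exp l⌋₊).powerset,
      ((cf 1 l S.1 : ℂ) * (cf 1 l S.2 : ℂ) * (χ (nS S.1 : ℕ) * ψ (nS S.2 : ℕ)) *
        ((nS S.1 : ℂ) ^ (-(1/2) - α) * (nS S.2 : ℂ) ^ (-(1/2) - β))) *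
        (LX.Lf χ (1/2 + α + t * I) * LX.Lf ψ (1/2 + β - t * I) *
          ((nS S.1 : ℂ) ^ (-(t * I)) * (nS S.2 : ℂ) ^ (t * I))) := by
  have h1 : XP χ ψ l α β t = (LX.Lf χ (1/2 + α + t * I) * LX.Lf ψ (1/2 + β - t * I)) *
      ((∑ S ∈ (LX.PQ N ⌊Real.exp l⌋₊).powerset,
        (cf 1 l S : ℂ) * χ (nS S) * (nS S : ℂ) ^ (-(1/2 + α + t * I))) *
      (∑ S ∈ (LX.PQ N ⌊Real.exp l⌋₊).powerset,
        (cf 1 l S : ℂ) * ψ (nS S) * (nS S : ℂ) ^ (-(1/2 + β - t * I)))) := by
    unfold XP LX.FF LX.Mol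
    ring
  rw [h1, Finset.sum_mul_sum, ← Finset.sum_product', Finset.mul_sum]
  refine Finset.sum_congr rfl fun S hS => ?_
  rw [Finset.mem_product] at hS
  have hne1 : (nS S.1 : ℂ) ≠ 0 := by exact_mod_cast (LX.nS_pos' hS.1).ne'
  have hne2 : (nS S.2 : ℂ) ≠ 0 := by exact_mod_cast (LX.nS_pos' hS.2).ne'
  have e1 : -(1/2 + α + t * I) = (-(1/2) - α) + -(t * I) := by ring
  have e2 : -(1/2 + β - t * I) = (-(1/2) - β) + (t * I) := by ring
  rw [e1, e2, cpow_add _ _ hne1, cpow_add _ _ hne2]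
  ring

end LP

end F_Y_C01
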