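import Pool.Agent.Lib.MP_0f5a55_nt.V.V02
import Pool.Agent.Lib.MP_0f5a55_nt.V.V12
import Pool.Agent.Lib.MP_0f5a55_nt.V.V13

section F_Y_A02

open Complex MeasureTheory Set Filter Topology
open scoped ComplexConjugate

namespace LP

open LZ (kk nS cf EE ER PP wt Sep)

variable {N : ℕ} [NeZero N]

private theorem A02_mulcpow {r : ℝ} (hr : 0 < r) {V : ℂ} (hV : V ≠ 0) (s : ℂ) :
    ((r : ℂ) * V) ^ s = (r : ℂ) ^ s * V ^ s := by
  have hr' : (r : ℂ) ≠ 0 := ofReal_ne_zero.mpr hr.ne'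
  rw [cpow_def_of_ne_zero (mul_ne_zero hr' hV), cpow_def_of_ne_zero hr', cpow_def_of_ne_zero hV,
    log_ofReal_mul hr hV, ← exp_add, ofReal_log hr.le]
  congr 1
  ring

private theorem A02_norm (n : ℕ) (s : ℂ) : ‖((n : ℂ) + 1) ^ (-s)‖ = ((n : ℝ) + 1) ^ (-s.re) := by
  have h : ((n : ℂ) + 1) = (((n : ℝ) + 1 : ℝ) : ℂ) := by push_cast; ring
  rw [h, norm_cpow_eq_rpow_re_of_pos (by positivity), neg_re]

private theorem A02_sum (a : ℝ) (ha : 1 < a) : Summable (fun n : ℕ => ((n : ℝ) + 1) ^ (-a)) := by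
  have h := (Real.summable_nat_rpow (p := -a)).mpr (by linarith)
  have h2 := (summable_nat_add_iff 1).mpr h
  simpa using h2

/-- geometric series -/
private theorem A02_geom (w : ℂ) (hw : 0 < w.re) :
    HasSum (fun n : ℕ => exp (-(((n : ℂ) + 1) * w))) (exp w - 1)⁻¹ := by
  set q : ℂ := exp (-w) with hq
  have hq1 : ‖q‖ < 1 := by
    rw [hq, norm_exp, neg_re]
    rw [Real.exp_lt_one_iff]
    linarith
  have hq0 : q ≠ 0 := exp_ne_zero _
  have h1 : (fun n : ℕ => exp (-(((n : ℂ) + 1) * w))) = fun n : ℕ => q * q ^ n := by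
    funext n
    rw [← pow_succ', hq, ← exp_nat_mul]
    congr 1
    push_cast
    ring
  rw [h1]
  have h2 : exp w = q⁻¹ := by
    rw [hq, exp_neg, inv_inv]
  rw [h2]
  have h3 : (1 - q) ≠ 0 := by
    intro h
    have : q = 1 := by linear_combination -h
    rw [this] at hq1
    simp at hq1
  have h4 : q⁻¹ - 1 = q⁻¹ * (1 - q) := by
    field_simp
  rw [h4, mul_inv, inv_inv]
  exact (hasSum_geometric_of_norm_lt_one hq1).mul_left q

/-- the Fourier transform as a sum of exponentials -/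
private theorem A02_FT (g : ZMod N → ℂ) (n : ℕ) :
    FT g (n : ZMod N) = ∑ b : ZMod N, g b * exp (2 * Real.pi * I * b.val * n / N) := by
  unfold FT
  rw [ZMod.dft_apply, ← Equiv.sum_comp (Equiv.neg (ZMod N))]
  refine Finset.sum_congr rfl fun b _ => ?_
  have h1 : -((Equiv.neg (ZMod N)) b * (n : ZMod N)) = (((b.val * n : ℕ) : ℤ) : ZMod N) := by
    rw [Equiv.neg_apply]
    push_cast
    rw [ZMod.natCast_zmod_val]
    ring
  rw [h1, ZMod.stdAddChar_coe, Equiv.neg_apply, neg_neg, smul_eq_mul, mul_comm]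
  congr 2
  push_cast
  ring

/-- the generating function of the Fourier transform -/
private theorem A02_gen (g : ZMod N → ℂ) (z : ℂ) (hz : 0 < z.re) :
    HasSum (fun n : ℕ => FT g ((n + 1 : ℕ) : ZMod N) * exp (-(((n : ℂ) + 1) * z)))
      (∑ b : ZMod N, g b * (exp (z - 2 * Real.pi * I * b.val / N) - 1)⁻¹) := by
  have h1 : (fun n : ℕ => FT g ((n + 1 : ℕ) : ZMod N) * exp (-(((n : ℂ) + 1) * z))) =
      fun n : ℕ => ∑ b : ZMod N, g b * exp (-(((n : ℂ) + 1) * (z - 2 * Real.pi * I * b.val / N))) := by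
    funext n
    rw [A02_FT, Finset.sum_mul]
    refine Finset.sum_congr rfl fun b _ => ?_
    rw [mul_assoc, ← exp_add]
    congr 2
    push_cast
    ring
  rw [h1]
  refine hasSum_sum fun b _ => (A02_geom _ ?_).mul_left (g b)
  have h2 : (2 * Real.pi * I * (b.val : ℂ) / N) = ((2 * Real.pi * b.val / N : ℝ) : ℂ) * I := by
    push_cast
    ring
  rw [h2, sub_re, re_ofReal_mul, I_re, mul_zero, sub_zero]
  exact hz

private theorem A02_le (f : ZMod N → ℂ) (x : ZMod N) : ‖f x‖ ≤ ∑ a : ZMod N, ‖f a‖ :=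
  Finset.single_le_sum (f := fun a => ‖f a‖) (fun _ _ => norm_nonneg _) (Finset.mem_univ x)

private theorem A02_fsum (f : ZMod N → ℂ) (a : ℝ) (ha : 1 < a) :
    Summable (fun n : ℕ => ‖f ((n + 1 : ℕ) : ZMod N)‖ * ((n : ℝ) + 1) ^ (-a)) := by
  refine Summable.of_nonneg_of_le (fun n => by positivity) (fun n => ?_)
    ((A02_sum a ha).mul_left (∑ a : ZMod N, ‖f a‖))
  exact mul_le_mul_of_nonneg_right (A02_le f _) (by positivity)

private theorem A02_cont (f : ZMod N → ℂ) (a : ℂ) (ha : 1 < a.re) :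
    Continuous (fun y : ℝ => ZMod.LFunction f (a + y * I)) := by
  rw [continuous_iff_continuousAt]
  intro y
  have hne : a + y * I ≠ 1 := by
    intro h
    have h2 := congrArg Complex.re h
    simp at h2
    linarith
  have h1 : ContinuousAt (ZMod.LFunction f) (a + y * I) :=
    (ZMod.differentiableAt_LFunction f _ (Or.inl hne)).continuousAt
  have h2 : ContinuousAt (fun y : ℝ => a + (y : ℂ) * I) y := by fun_prop
  exact ContinuousAt.comp (f := fun y : ℝ => a + (y : ℂ) * I) h1 h2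

private theorem A02_bd (f : ZMod N → ℂ) (a : ℂ) (ha : 1 < a.re) (y : ℝ) :
    ‖ZMod.LFunction f (a + y * I)‖ ≤ ∑' n : ℕ, ‖f ((n + 1 : ℕ) : ZMod N)‖ * ((n : ℝ) + 1) ^ (-a.re) := by
  rw [← (per_basic.1 f (a + y * I) (by simpa using ha)).tsum_eq]
  have e : (fun n : ℕ => ‖f ((n + 1 : ℕ) : ZMod N) * ((n : ℂ) + 1) ^ (-(a + y * I))‖) =
      fun n : ℕ => ‖f ((n + 1 : ℕ) : ZMod N)‖ * ((n : ℝ) + 1) ^ (-a.re) := by
    funext n
    rw [norm_mul, A02_norm]
    simp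
  refine (norm_tsum_le_tsum_norm ?_).trans ?_
  · rw [e]
    exact A02_fsum f a.re ha
  · rw [e]

/-- Mellin transform. Adapt LZ.A02 (mellin_DD), LZX.exp_mellin: for m, n >= 1 the term f(m) FT g(n) m^(-eta) (mn W)^(-s) Gamma(s);
sum over n: sum_n FT g(n) exp(-n z) = sum_b g(b) (exp(z - 2 pi i b/N) - 1)^(-1) for Re z > 0 (FT g(n) = sum_b g(b) exp(2 pi i b n/N),
geometric series). -/
theorem mellin_DD (f g : ZMod N → ℂ) (η W : ℂ) (hη : |η.re| ≤ 1/2) (hW : 0 < W.re) :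
    Integrable (fun y : ℝ => ZMod.LFunction f (2 + y * I + η) * ZMod.LFunction (FT g) (2 + y * I) * Gamma (2 + y * I) *
      W ^ (-(2 + y * I : ℂ))) ∧
    ∫ y : ℝ, ZMod.LFunction f (2 + y * I + η) * ZMod.LFunction (FT g) (2 + y * I) * Gamma (2 + y * I) *
      W ^ (-(2 + y * I : ℂ)) = 2 * Real.pi * DD f g η W := by
  have hη' := abs_le.mp hη
  have hW0 : W ≠ 0 := by rintro rfl; simp at hW
  have hg : ∀ V : ℂ, 0 < V.re → Integrable (fun y : ℝ => Gamma (2 + y * I) * V ^ (-(2 + y * I : ℂ))) ∧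
      ∫ y : ℝ, Gamma (2 + y * I) * V ^ (-(2 + y * I : ℂ)) = 2 * Real.pi * exp (-V) := by
    intro V hV
    have h := LZX.exp_mellin (c := 2) two_pos hV
    have e : ((2 : ℝ) : ℂ) = 2 := by norm_num
    rw [e] at h
    refine ⟨h.1, ?_⟩
    rw [← h.2]
    have hpi : (Real.pi : ℂ) ≠ 0 := ofReal_ne_zero.mpr Real.pi_ne_zero
    rw [← mul_assoc]
    have e2 : (2 * Real.pi * (1 / (2 * Real.pi)) : ℂ) = 1 := by field_simp
    rw [e2, one_mul]
  have ha : 1 < ((2 : ℂ) + η).re := by simp; linarith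
  have hb : 1 < (2 : ℂ).re := by norm_num
  obtain ⟨G, hG⟩ : ∃ G : ZMod N → ℂ, G = FT g := ⟨_, rfl⟩
  have hI : Integrable (fun y : ℝ => ZMod.LFunction f (2 + y * I + η) * ZMod.LFunction G (2 + y * I) *
      Gamma (2 + y * I) * W ^ (-(2 + y * I : ℂ))) := by
    have h1 := (hg W hW).1
    have hc : Continuous (fun y : ℝ => ZMod.LFunction f (2 + y * I + η) * ZMod.LFunction G (2 + y * I)) := by
      have e : (fun y : ℝ => ZMod.LFunction f (2 + y * I + η) * ZMod.LFunction G (2 + y * I)) =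
          fun y : ℝ => ZMod.LFunction f ((2 + η) + y * I) * ZMod.LFunction G (2 + y * I) := by
        funext y
        congr 2
        ring
      rw [e]
      exact (A02_cont f _ ha).mul (A02_cont G _ hb)
    have h2 := h1.bdd_mul (c := (∑' n : ℕ, ‖f ((n + 1 : ℕ) : ZMod N)‖ * ((n : ℝ) + 1) ^ (-((2 : ℂ) + η).re)) *
      (∑' n : ℕ, ‖G ((n + 1 : ℕ) : ZMod N)‖ * ((n : ℝ) + 1) ^ (-(2 : ℂ).re))) hc.aestronglyMeasurable
      (Eventually.of_forall (fun y => by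
        rw [norm_mul]
        have e : (2 : ℂ) + y * I + η = (2 + η) + y * I := by ring
        rw [e]
        refine mul_le_mul (A02_bd f _ ha y) (A02_bd G _ hb y) (norm_nonneg _) ?_
        exact tsum_nonneg (fun n => by positivity)))
    refine h2.congr (Eventually.of_forall (fun y => ?_))
    simp only
    ring
  rw [← hG]
  refine ⟨hI, ?_⟩
  -- the terms
  set F : ℕ × ℕ → ℝ → ℂ := fun p y =>
    ((f ((p.1 + 1 : ℕ) : ZMod N) * ((p.1 : ℂ) + 1) ^ (-(2 + y * I + η))) *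
      (G ((p.2 + 1 : ℕ) : ZMod N) * ((p.2 : ℂ) + 1) ^ (-(2 + y * I : ℂ)))) *
      (Gamma (2 + y * I) * W ^ (-(2 + y * I : ℂ))) with hF
  have hre1 : ∀ y : ℝ, ((2 : ℂ) + y * I + η).re = 2 + η.re := fun y => by simp
  have hre2 : ∀ y : ℝ, ((2 : ℂ) + y * I).re = 2 := fun y => by simp
  have hnF : ∀ p : ℕ × ℕ, ∀ y : ℝ, ‖F p y‖ =
      ((‖f ((p.1 + 1 : ℕ) : ZMod N)‖ * ((p.1 : ℝ) + 1) ^ (-(2 + η.re))) *
        (‖G ((p.2 + 1 : ℕ) : ZMod N)‖ * ((p.2 : ℝ) + 1) ^ (-(2 : ℝ)))) *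
      ‖Gamma (2 + y * I) * W ^ (-(2 + y * I : ℂ))‖ := by
    intro p y
    rw [hF]
    simp only
    rw [norm_mul, norm_mul, norm_mul, norm_mul, A02_norm, A02_norm, hre1, hre2]
  -- each term equals m^(-eta) times the kernel at mnW
  have hFe : ∀ p : ℕ × ℕ, ∀ y : ℝ, F p y = (f ((p.1 + 1 : ℕ) : ZMod N) * ((p.1 : ℂ) + 1) ^ (-η) *
      G ((p.2 + 1 : ℕ) : ZMod N)) * (Gamma (2 + y * I) *
      (((p.1 : ℂ) + 1) * ((p.2 : ℂ) + 1) * W) ^ (-(2 + y * I : ℂ))) := by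
    intro p y
    have e1 : ((p.1 : ℂ) + 1) = (((p.1 : ℝ) + 1 : ℝ) : ℂ) := by push_cast; ring
    have e2 : ((p.2 : ℂ) + 1) = (((p.2 : ℝ) + 1 : ℝ) : ℂ) := by push_cast; ring
    have hp1 : (0:ℝ) < (p.1 : ℝ) + 1 := by positivity
    have hp2 : (0:ℝ) < (p.2 : ℝ) + 1 := by positivity
    have h1 : (((p.1 : ℂ) + 1) * ((p.2 : ℂ) + 1) * W) ^ (-(2 + y * I : ℂ)) =
        ((p.1 : ℂ) + 1) ^ (-(2 + y * I : ℂ)) * (((p.2 : ℂ) + 1) ^ (-(2 + y * I : ℂ)) *
          W ^ (-(2 + y * I : ℂ))) := by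
      rw [e1, e2, mul_assoc, A02_mulcpow hp1 (mul_ne_zero (ofReal_ne_zero.mpr hp2.ne') hW0),
        A02_mulcpow hp2 hW0]
    have h2 : ((p.1 : ℂ) + 1) ^ (-(2 + y * I + η)) =
        ((p.1 : ℂ) + 1) ^ (-(2 + y * I : ℂ)) * ((p.1 : ℂ) + 1) ^ (-η) := by
      rw [← cpow_add _ _ (by rw [e1]; exact ofReal_ne_zero.mpr hp1.ne')]
      congr 1
      ring
    rw [hF]
    simp only
    rw [h1, h2]
    ring
  have hmn : ∀ p : ℕ × ℕ, 0 < (((p.1 : ℂ) + 1) * ((p.2 : ℂ) + 1) * W).re := by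
    intro p
    have e : ((p.1 : ℂ) + 1) * ((p.2 : ℂ) + 1) = ((((p.1 : ℝ) + 1) * ((p.2 : ℝ) + 1) : ℝ) : ℂ) := by
      push_cast; ring
    rw [e, re_ofReal_mul]
    positivity
  have hFint : ∀ p : ℕ × ℕ, Integrable (F p) := by
    intro p
    refine (((hg _ (hmn p)).1).const_mul (f ((p.1 + 1 : ℕ) : ZMod N) * ((p.1 : ℂ) + 1) ^ (-η) *
      G ((p.2 + 1 : ℕ) : ZMod N))).congr (Eventually.of_forall (fun y => ?_))
    rw [hFe p y]
  have hFval : ∀ p : ℕ × ℕ, ∫ y, F p y = (f ((p.1 + 1 : ℕ) : ZMod N) * ((p.1 : ℂ) + 1) ^ (-η) *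
      G ((p.2 + 1 : ℕ) : ZMod N)) *
      (2 * Real.pi * exp (-(((p.1 : ℂ) + 1) * ((p.2 : ℂ) + 1) * W))) := by
    intro p
    rw [← (hg _ (hmn p)).2, ← integral_const_mul]
    exact integral_congr_ae (Eventually.of_forall (fun y => hFe p y))
  have hs1 : Summable (fun n : ℕ => ‖f ((n + 1 : ℕ) : ZMod N)‖ * ((n : ℝ) + 1) ^ (-(2 + η.re))) :=
    A02_fsum f _ (by linarith)
  have hs2 : Summable (fun n : ℕ => ‖G ((n + 1 : ℕ) : ZMod N)‖ * ((n : ℝ) + 1) ^ (-(2:ℝ))) :=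
    A02_fsum G _ (by norm_num)
  have hs12 : Summable (fun p : ℕ × ℕ => (‖f ((p.1 + 1 : ℕ) : ZMod N)‖ * ((p.1 : ℝ) + 1) ^ (-(2 + η.re))) *
      (‖G ((p.2 + 1 : ℕ) : ZMod N)‖ * ((p.2 : ℝ) + 1) ^ (-(2 : ℝ)))) := by
    have h := hs1.mul_of_nonneg hs2 (fun n => by positivity) (fun n => by positivity)
    exact h
  have hFn : ∀ p : ℕ × ℕ, ∫ y, ‖F p y‖ =
      ((‖f ((p.1 + 1 : ℕ) : ZMod N)‖ * ((p.1 : ℝ) + 1) ^ (-(2 + η.re))) *
        (‖G ((p.2 + 1 : ℕ) : ZMod N)‖ * ((p.2 : ℝ) + 1) ^ (-(2 : ℝ)))) *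
      ∫ y : ℝ, ‖Gamma (2 + y * I) * W ^ (-(2 + y * I : ℂ))‖ := by
    intro p
    rw [← integral_const_mul]
    exact integral_congr_ae (Eventually.of_forall (fun y => hnF p y))
  have hFsum : Summable (fun p : ℕ × ℕ => ∫ y, ‖F p y‖) := by
    simp_rw [hFn]
    exact hs12.mul_right _
  have key := integral_tsum_of_summable_integral_norm hFint hFsum
  -- the pointwise sum
  have hpt : ∀ y : ℝ, ∑' p : ℕ × ℕ, F p y = ZMod.LFunction f (2 + y * I + η) * ZMod.LFunction G (2 + y * I) *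
      Gamma (2 + y * I) * W ^ (-(2 + y * I : ℂ)) := by
    intro y
    have z1 := (per_basic.1 f (2 + y * I + η) (by rw [hre1]; linarith)).tsum_eq
    have z2 := (per_basic.1 G (2 + y * I) (by rw [hre2]; norm_num)).tsum_eq
    have n1 : Summable (fun n : ℕ => ‖f ((n + 1 : ℕ) : ZMod N) * ((n : ℂ) + 1) ^ (-(2 + y * I + η))‖) := by
      simp_rw [norm_mul, A02_norm, hre1]
      exact hs1
    have n2 : Summable (fun n : ℕ => ‖G ((n + 1 : ℕ) : ZMod N) * ((n : ℂ) + 1) ^ (-(2 + y * I : ℂ))‖) := by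
      simp_rw [norm_mul, A02_norm, hre2]
      exact hs2
    rw [hF]
    simp only
    rw [tsum_mul_right, ← z1, ← z2, tsum_mul_tsum_of_summable_norm n1 n2]
    ring
  have hL : ∫ y : ℝ, ∑' p : ℕ × ℕ, F p y = ∫ y : ℝ, ZMod.LFunction f (2 + y * I + η) *
      ZMod.LFunction G (2 + y * I) * Gamma (2 + y * I) * W ^ (-(2 + y * I : ℂ)) :=
    integral_congr_ae (Eventually.of_forall hpt)
  rw [← hL, ← key]
  simp_rw [hFval]
  have hsumm : Summable (fun p : ℕ × ℕ => (f ((p.1 + 1 : ℕ) : ZMod N) * ((p.1 : ℂ) + 1) ^ (-η) *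
      G ((p.2 + 1 : ℕ) : ZMod N)) *
      (2 * Real.pi * exp (-(((p.1 : ℂ) + 1) * ((p.2 : ℂ) + 1) * W)))) := by
    simp_rw [← hFval]
    exact Summable.of_norm_bounded hFsum (fun p => norm_integral_le_integral_norm _)
  rw [hsumm.tsum_prod]
  simp only
  rw [DD, ← tsum_mul_left]
  refine tsum_congr (fun m => ?_)
  have hmW : 0 < (((m : ℂ) + 1) * W).re := by
    have e : ((m : ℂ) + 1) = (((m : ℝ) + 1 : ℝ) : ℂ) := by push_cast; ring
    rw [e, re_ofReal_mul]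
    positivity
  have h5 := ((A02_gen g (((m : ℂ) + 1) * W) hmW).mul_left
    (2 * Real.pi * (f ((m + 1 : ℕ) : ZMod N) * ((m : ℂ) + 1) ^ (-η)))).tsum_eq
  rw [mul_assoc (2 * Real.pi : ℂ)] at h5
  rw [← h5]
  refine tsum_congr (fun n => ?_)
  rw [hG]
  have e3 : ((n : ℂ) + 1) * (((m : ℂ) + 1) * W) = ((m : ℂ) + 1) * ((n : ℂ) + 1) * W := by ring
  rw [e3]
  ring

end LP

end F_Y_A02

section F_A02

open Complex MeasureTheory Set Filter Topology
open scoped ComplexConjugate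

namespace LZ

private theorem A02_mulcpow {r : ℝ} (hr : 0 < r) {V : ℂ} (hV : V ≠ 0) (s : ℂ) :
    ((r : ℂ) * V) ^ s = (r : ℂ) ^ s * V ^ s := by
  have hr' : (r : ℂ) ≠ 0 := ofReal_ne_zero.mpr hr.ne'
  rw [cpow_def_of_ne_zero (mul_ne_zero hr' hV), cpow_def_of_ne_zero hr', cpow_def_of_ne_zero hV,
    log_ofReal_mul hr hV, ← exp_add, ofReal_log hr.le]
  congr 1
  ring

private theorem A02_zeta (s : ℂ) (hs : 1 < s.re) :
    riemannZeta s = ∑' n : ℕ, ((n : ℂ) + 1) ^ (-s) := by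
  rw [zeta_eq_tsum_one_div_nat_add_one_cpow hs]
  refine tsum_congr (fun n => ?_)
  rw [cpow_neg, one_div]

private theorem A02_norm (n : ℕ) (s : ℂ) : ‖((n : ℂ) + 1) ^ (-s)‖ = ((n : ℝ) + 1) ^ (-s.re) := by
  have h : ((n : ℂ) + 1) = (((n : ℝ) + 1 : ℝ) : ℂ) := by push_cast; ring
  rw [h, norm_cpow_eq_rpow_re_of_pos (by positivity), neg_re]

private theorem A02_sum (a : ℝ) (ha : 1 < a) : Summable (fun n : ℕ => ((n : ℝ) + 1) ^ (-a)) := by
  have h := (Real.summable_nat_rpow (p := -a)).mpr (by linarith)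
  have h2 := (summable_nat_add_iff 1).mpr h
  simpa using h2

private theorem A02_rn (n : ℕ) (a : ℝ) : 0 ≤ ((n : ℝ) + 1) ^ a :=
  Real.rpow_nonneg (add_nonneg (Nat.cast_nonneg n) zero_le_one) a

private theorem A02_s12 (a b c : ℝ) (ha : 1 < a) (hb : 1 < b) :
    Summable (fun p : ℕ × ℕ => ((p.1 : ℝ) + 1) ^ (-a) * ((p.2 : ℝ) + 1) ^ (-b) * c) := by
  have h : Summable (fun p : ℕ × ℕ => ((p.1 : ℝ) + 1) ^ (-a) * ((p.2 : ℝ) + 1) ^ (-b)) :=
    Summable.mul_of_nonneg (f := fun n : ℕ => ((n : ℝ) + 1) ^ (-a))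
      (g := fun n : ℕ => ((n : ℝ) + 1) ^ (-b)) (A02_sum a ha) (A02_sum b hb)
      (fun n => A02_rn n _) (fun n => A02_rn n _)
  exact h.mul_right c

private theorem A02_geom (m : ℕ) (W : ℂ) (hW : 0 < W.re) :
    ∑' n : ℕ, exp (-(((m : ℂ) + 1) * ((n : ℂ) + 1) * W)) = (exp (((m : ℂ) + 1) * W) - 1)⁻¹ := by
  set q : ℂ := exp (-(((m : ℂ) + 1) * W)) with hq
  have hre : 0 < (((m : ℂ) + 1) * W).re := by
    have h : ((m : ℂ) + 1) = (((m : ℝ) + 1 : ℝ) : ℂ) := by push_cast; ring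
    rw [h, re_ofReal_mul]
    positivity
  have hq1 : ‖q‖ < 1 := by
    rw [hq, norm_exp, neg_re]
    rw [Real.exp_lt_one_iff]
    linarith
  have hq0 : q ≠ 0 := exp_ne_zero _
  have h1 : ∀ n : ℕ, exp (-(((m : ℂ) + 1) * ((n : ℂ) + 1) * W)) = q * q ^ n := by
    intro n
    rw [← pow_succ', hq, ← exp_nat_mul]
    congr 1
    push_cast
    ring
  simp_rw [h1]
  rw [tsum_mul_left, tsum_geometric_of_norm_lt_one hq1]
  have h2 : exp (((m : ℂ) + 1) * W) = q⁻¹ := by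
    rw [hq, exp_neg, inv_inv]
  rw [h2]
  have h3 : (1 - q) ≠ 0 := by
    intro h
    have : q = 1 := by linear_combination -h
    rw [this] at hq1
    simp at hq1
  have h4 : q⁻¹ - 1 = q⁻¹ * (1 - q) := by
    field_simp
  rw [h4, mul_inv, inv_inv]

private theorem A02_cont (a : ℂ) (ha : 1 < a.re) :
    Continuous (fun y : ℝ => riemannZeta (a + y * I)) := by
  rw [continuous_iff_continuousAt]
  intro y
  have hne : a + y * I ≠ 1 := by
    intro h
    have h2 := congrArg Complex.re h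
    simp at h2
    linarith
  have h1 : ContinuousAt riemannZeta (a + y * I) :=
    (differentiableAt_riemannZeta hne).continuousAt
  have h2 : ContinuousAt (fun y : ℝ => a + (y : ℂ) * I) y := by fun_prop
  exact ContinuousAt.comp (f := fun y : ℝ => a + (y : ℂ) * I) h1 h2

private theorem A02_bd (a : ℂ) (ha : 1 < a.re) (y : ℝ) :
    ‖riemannZeta (a + y * I)‖ ≤ ∑' n : ℕ, ((n : ℝ) + 1) ^ (-a.re) := by
  rw [A02_zeta _ (by simpa using ha)]
  refine (norm_tsum_le_tsum_norm ?_).trans ?_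
  · simp_rw [A02_norm]
    simpa using A02_sum a.re ha
  · simp_rw [A02_norm]
    simp

/-- (3.1). Expand both zetas (absolutely convergent), LZX.exp_mellin (X0) with W replaced by mnW,
sum over n: sum exp(-mnW) = 1/(exp(mW)-1). -/
theorem mellin_DD (η W : ℂ) (hη : |η.re| ≤ 1/2) (hW : 0 < W.re) :
    Integrable (fun y : ℝ => riemannZeta (2 + y * I + η) * riemannZeta (2 + y * I) * Gamma (2 + y * I) *
      W ^ (-(2 + y * I : ℂ))) ∧
    ∫ y : ℝ, riemannZeta (2 + y * I + η) * riemannZeta (2 + y * I) * Gamma (2 + y * I) *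
      W ^ (-(2 + y * I : ℂ)) = 2 * Real.pi * DD η W := by
  have hη' := abs_le.mp hη
  have hW0 : W ≠ 0 := by rintro rfl; simp at hW
  have hg : ∀ V : ℂ, 0 < V.re → Integrable (fun y : ℝ => Gamma (2 + y * I) * V ^ (-(2 + y * I : ℂ))) ∧
      ∫ y : ℝ, Gamma (2 + y * I) * V ^ (-(2 + y * I : ℂ)) = 2 * Real.pi * exp (-V) := by
    intro V hV
    have h := LZX.exp_mellin (c := 2) two_pos hV
    have e : ((2 : ℝ) : ℂ) = 2 := by norm_num
    rw [e] at h
    refine ⟨h.1, ?_⟩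
    rw [← h.2]
    have hpi : (Real.pi : ℂ) ≠ 0 := ofReal_ne_zero.mpr Real.pi_ne_zero
    rw [← mul_assoc]
    have e2 : (2 * Real.pi * (1 / (2 * Real.pi)) : ℂ) = 1 := by field_simp
    rw [e2, one_mul]
  have ha : 1 < ((2 : ℂ) + η).re := by simp; linarith
  have hb : 1 < (2 : ℂ).re := by norm_num
  have hI : Integrable (fun y : ℝ => riemannZeta (2 + y * I + η) * riemannZeta (2 + y * I) * Gamma (2 + y * I) *
      W ^ (-(2 + y * I : ℂ))) := by
    have h1 := (hg W hW).1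
    have hc : Continuous (fun y : ℝ => riemannZeta (2 + y * I + η) * riemannZeta (2 + y * I)) := by
      have e : (fun y : ℝ => riemannZeta (2 + y * I + η) * riemannZeta (2 + y * I)) =
          fun y : ℝ => riemannZeta ((2 + η) + y * I) * riemannZeta (2 + y * I) := by
        funext y
        congr 2
        ring
      rw [e]
      exact (A02_cont _ ha).mul (A02_cont _ hb)
    have h2 := h1.bdd_mul (c := (∑' n : ℕ, ((n : ℝ) + 1) ^ (-((2 : ℂ) + η).re)) *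
      (∑' n : ℕ, ((n : ℝ) + 1) ^ (-(2 : ℂ).re))) hc.aestronglyMeasurable
      (Eventually.of_forall (fun y => by
        rw [norm_mul]
        have e : (2 : ℂ) + y * I + η = (2 + η) + y * I := by ring
        rw [e]
        refine mul_le_mul (A02_bd _ ha y) (A02_bd _ hb y) (norm_nonneg _) ?_
        exact tsum_nonneg (fun n => by positivity)))
    refine h2.congr (Eventually.of_forall (fun y => ?_))
    simp only
    ring
  refine ⟨hI, ?_⟩
  -- the terms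
  set F : ℕ × ℕ → ℝ → ℂ := fun p y =>
    (((p.1 : ℂ) + 1) ^ (-(2 + y * I + η)) * ((p.2 : ℂ) + 1) ^ (-(2 + y * I : ℂ))) *
      (Gamma (2 + y * I) * W ^ (-(2 + y * I : ℂ))) with hF
  have hre1 : ∀ y : ℝ, ((2 : ℂ) + y * I + η).re = 2 + η.re := fun y => by simp
  have hre2 : ∀ y : ℝ, ((2 : ℂ) + y * I).re = 2 := fun y => by simp
  have hnF : ∀ p : ℕ × ℕ, ∀ y : ℝ, ‖F p y‖ = (((p.1 : ℝ) + 1) ^ (-(2 + η.re)) * ((p.2 : ℝ) + 1) ^ (-(2 : ℝ))) *
      ‖Gamma (2 + y * I) * W ^ (-(2 + y * I : ℂ))‖ := by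
    intro p y
    rw [hF]
    simp only
    rw [norm_mul, norm_mul, A02_norm, A02_norm, hre1, hre2]
  -- each term equals m^(-eta) times the kernel at mnW
  have hFe : ∀ p : ℕ × ℕ, ∀ y : ℝ, F p y = ((p.1 : ℂ) + 1) ^ (-η) * (Gamma (2 + y * I) *
      (((p.1 : ℂ) + 1) * ((p.2 : ℂ) + 1) * W) ^ (-(2 + y * I : ℂ))) := by
    intro p y
    have e1 : ((p.1 : ℂ) + 1) = (((p.1 : ℝ) + 1 : ℝ) : ℂ) := by push_cast; ring
    have e2 : ((p.2 : ℂ) + 1) = (((p.2 : ℝ) + 1 : ℝ) : ℂ) := by push_cast; ring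
    have hp1 : (0:ℝ) < (p.1 : ℝ) + 1 := by positivity
    have hp2 : (0:ℝ) < (p.2 : ℝ) + 1 := by positivity
    have h1 : (((p.1 : ℂ) + 1) * ((p.2 : ℂ) + 1) * W) ^ (-(2 + y * I : ℂ)) =
        ((p.1 : ℂ) + 1) ^ (-(2 + y * I : ℂ)) * (((p.2 : ℂ) + 1) ^ (-(2 + y * I : ℂ)) *
          W ^ (-(2 + y * I : ℂ))) := by
      rw [e1, e2, mul_assoc, A02_mulcpow hp1 (mul_ne_zero (ofReal_ne_zero.mpr hp2.ne') hW0),
        A02_mulcpow hp2 hW0]
    have h2 : ((p.1 : ℂ) + 1) ^ (-(2 + y * I + η)) =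
        ((p.1 : ℂ) + 1) ^ (-(2 + y * I : ℂ)) * ((p.1 : ℂ) + 1) ^ (-η) := by
      rw [← cpow_add _ _ (by rw [e1]; exact ofReal_ne_zero.mpr hp1.ne')]
      congr 1
      ring
    rw [hF]
    simp only
    rw [h1, h2]
    ring
  have hmn : ∀ p : ℕ × ℕ, 0 < (((p.1 : ℂ) + 1) * ((p.2 : ℂ) + 1) * W).re := by
    intro p
    have e : ((p.1 : ℂ) + 1) * ((p.2 : ℂ) + 1) = ((((p.1 : ℝ) + 1) * ((p.2 : ℝ) + 1) : ℝ) : ℂ) := by
      push_cast; ring
    rw [e, re_ofReal_mul]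
    positivity
  have hFint : ∀ p : ℕ × ℕ, Integrable (F p) := by
    intro p
    refine (((hg _ (hmn p)).1).const_mul (((p.1 : ℂ) + 1) ^ (-η))).congr
      (Eventually.of_forall (fun y => ?_))
    rw [hFe p y]
  have hFval : ∀ p : ℕ × ℕ, ∫ y, F p y = ((p.1 : ℂ) + 1) ^ (-η) *
      (2 * Real.pi * exp (-(((p.1 : ℂ) + 1) * ((p.2 : ℂ) + 1) * W))) := by
    intro p
    rw [← (hg _ (hmn p)).2, ← integral_const_mul]
    exact integral_congr_ae (Eventually.of_forall (fun y => hFe p y))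
  have hs1 : Summable (fun n : ℕ => ((n : ℝ) + 1) ^ (-(2 + η.re))) := A02_sum _ (by linarith)
  have hs2 : Summable (fun n : ℕ => ((n : ℝ) + 1) ^ (-(2:ℝ))) := A02_sum _ (by norm_num)
  have hFn : ∀ p : ℕ × ℕ, ∫ y, ‖F p y‖ = (((p.1 : ℝ) + 1) ^ (-(2 + η.re)) * ((p.2 : ℝ) + 1) ^ (-(2 : ℝ))) *
      ∫ y : ℝ, ‖Gamma (2 + y * I) * W ^ (-(2 + y * I : ℂ))‖ := by
    intro p
    rw [← integral_const_mul]
    exact integral_congr_ae (Eventually.of_forall (fun y => hnF p y))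
  have hFsum : Summable (fun p : ℕ × ℕ => ∫ y, ‖F p y‖) := by
    exact (A02_s12 (2 + η.re) 2 _ (by linarith) (by norm_num)).congr (fun p => (hFn p).symm)
  have key := integral_tsum_of_summable_integral_norm hFint hFsum
  -- the pointwise sum
  have hpt : ∀ y : ℝ, ∑' p : ℕ × ℕ, F p y = riemannZeta (2 + y * I + η) * riemannZeta (2 + y * I) *
      Gamma (2 + y * I) * W ^ (-(2 + y * I : ℂ)) := by
    intro y
    have z1 := A02_zeta (2 + y * I + η) (by rw [hre1]; linarith)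
    have z2 := A02_zeta (2 + y * I) (by rw [hre2]; norm_num)
    have n1 : Summable (fun n : ℕ => ‖((n : ℂ) + 1) ^ (-(2 + y * I + η))‖) := by
      simp_rw [A02_norm, hre1]
      exact hs1
    have n2 : Summable (fun n : ℕ => ‖((n : ℂ) + 1) ^ (-(2 + y * I : ℂ))‖) := by
      simp_rw [A02_norm, hre2]
      exact hs2
    rw [hF]
    simp only
    rw [tsum_mul_right, z1, z2, tsum_mul_tsum_of_summable_norm n1 n2]
    ring
  have hL : ∫ y : ℝ, ∑' p : ℕ × ℕ, F p y = ∫ y : ℝ, riemannZeta (2 + y * I + η) * riemannZeta (2 + y * I) *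
      Gamma (2 + y * I) * W ^ (-(2 + y * I : ℂ)) :=
    integral_congr_ae (Eventually.of_forall hpt)
  rw [← hL, ← key]
  simp_rw [hFval]
  have hsumm : Summable (fun p : ℕ × ℕ => ((p.1 : ℂ) + 1) ^ (-η) *
      (2 * Real.pi * exp (-(((p.1 : ℂ) + 1) * ((p.2 : ℂ) + 1) * W)))) := by
    simp_rw [← hFval]
    exact Summable.of_norm_bounded hFsum (fun p => norm_integral_le_integral_norm _)
  rw [hsumm.tsum_prod]
  simp only
  rw [DD, ← tsum_mul_left]
  refine tsum_congr (fun m => ?_)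
  rw [tsum_mul_left, tsum_mul_left, A02_geom m W hW]
  ring

end LZ

end F_A02
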