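import Pool.Agent.Lib.MP_0f5a55_nt.V.V02
import Pool.Agent.Lib.MP_0f5a55_nt.V.V13

section F_A04

open Complex MeasureTheory Set Filter Topology
open scoped ComplexConjugate

namespace LZ

theorem A04_bdd : ∃ M : ℝ, 0 < M ∧ ∀ x : ℝ, 1/4 ≤ x → x ≤ 3 → Real.Gamma x ≤ M := by
  have hc : ContinuousOn Real.Gamma (Set.Icc (1/4) 3) := by
    intro x hx
    apply ContinuousAt.continuousWithinAt
    apply (Real.differentiableAt_Gamma _).continuousAt
    intro m h
    have : (0 : ℝ) ≤ m := Nat.cast_nonneg m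
    have h2 := hx.1
    linarith
  obtain ⟨M, hM⟩ := isCompact_Icc.exists_bound_of_continuousOn hc
  refine ⟨max M 1, lt_of_lt_of_le one_pos (le_max_right _ _), fun x h1 h2 => ?_⟩
  exact ((le_abs_self _).trans (hM x ⟨h1, h2⟩)).trans (le_max_left _ _)

/-- LZX.Gamma_tau (X0): |Gamma(x+iy)| exp(tau y) <= (1/cos tau)^x Gamma(x) for
|tau| < pi/2; take tau = sign(y)(pi/2 - 1/(1+|y|)), cos tau = sin(1/(1+|y|)) >= (2/pi)/(1+|y|). -/
theorem Gamma_strip : ∃ C : ℝ, 0 < C ∧ ∀ x y : ℝ, 1/4 ≤ x → x ≤ 3 →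
    ‖Gamma (x + y * I)‖ ≤ C * (1 + |y|) ^ 3 * Real.exp (-(Real.pi / 2 * |y|)) := by
  obtain ⟨M, hM0, hM⟩ := A04_bdd
  refine ⟨(Real.pi / 2) ^ 3 * M * Real.exp 1, by positivity, ?_⟩
  intro x y hx1 hx2
  have hpi := Real.pi_gt_three
  set δ : ℝ := 1 / (1 + |y|) with hδ
  have hy := abs_nonneg y
  have hδ0 : 0 < δ := by positivity
  have hδ1 : δ ≤ 1 := by
    rw [hδ, div_le_one (by positivity)]
    linarith
  set θ : ℝ := Real.pi / 2 - δ with hθ
  have hθ0 : 0 < θ := by rw [hθ]; linarith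
  set τ : ℝ := if 0 ≤ y then θ else -θ with hτ
  have hτabs : |τ| < Real.pi / 2 := by
    have : |τ| = θ := by
      rw [hτ]
      split_ifs
      · exact abs_of_pos hθ0
      · rw [abs_neg]; exact abs_of_pos hθ0
    rw [this, hθ]
    linarith
  have hτy : τ * y = θ * |y| := by
    rw [hτ]
    split_ifs with h
    · rw [abs_of_nonneg h]
    · rw [abs_of_neg (not_le.mp h)]
      ring
  have hcos : Real.cos τ = Real.sin δ := by
    have : Real.cos τ = Real.cos θ := by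
      rw [hτ]
      split_ifs
      · rfl
      · rw [Real.cos_neg]
    rw [this, hθ, Real.cos_pi_div_two_sub]
  have hs : 0 < ((x : ℂ) + y * I).re := by
    simp
    linarith
  have h := LZX.Gamma_tau hτabs hs
  have hre : ((x : ℂ) + y * I).re = x := by simp
  have him : ((x : ℂ) + y * I).im = y := by simp
  rw [hre, him, hτy, hcos] at h
  have hsin : 2 / Real.pi * δ ≤ Real.sin δ := Real.mul_le_sin hδ0.le (by linarith)
  have hsin0 : 0 < 2 / Real.pi * δ := by positivity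
  have h1 : 1 / Real.sin δ ≤ Real.pi / 2 * (1 + |y|) := by
    refine (one_div_le_one_div_of_le hsin0 hsin).trans (le_of_eq ?_)
    rw [hδ]
    field_simp
  have h2 : 1 ≤ Real.pi / 2 * (1 + |y|) := by nlinarith
  have hsin1 : 0 < Real.sin δ := lt_of_lt_of_le hsin0 hsin
  have h3 : (1 / Real.sin δ) ^ x ≤ (Real.pi / 2 * (1 + |y|)) ^ 3 := by
    calc (1 / Real.sin δ) ^ x ≤ (Real.pi / 2 * (1 + |y|)) ^ x :=
          Real.rpow_le_rpow (by positivity) h1 (by linarith)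
      _ ≤ (Real.pi / 2 * (1 + |y|)) ^ (3 : ℝ) := Real.rpow_le_rpow_of_exponent_le h2 hx2
      _ = (Real.pi / 2 * (1 + |y|)) ^ 3 := by
          rw [show (3 : ℝ) = ((3 : ℕ) : ℝ) by norm_num, Real.rpow_natCast]
  have h4 : (1 / Real.sin δ) ^ x * Real.Gamma x ≤ (Real.pi / 2 * (1 + |y|)) ^ 3 * M :=
    mul_le_mul h3 (hM x hx1 hx2) (Real.Gamma_pos_of_pos (by linarith)).le (by positivity)
  have h5 : Real.exp (Real.pi / 2 * |y| - 1) ≤ Real.exp (θ * |y|) := by
    apply Real.exp_le_exp.mpr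
    rw [hθ]
    have : δ * |y| ≤ 1 := by
      rw [hδ, one_div, inv_mul_le_iff₀ (by positivity)]
      linarith
    nlinarith
  have h6 : ‖Gamma ((x : ℂ) + y * I)‖ * Real.exp (Real.pi / 2 * |y| - 1) ≤
      (Real.pi / 2 * (1 + |y|)) ^ 3 * M :=
    (mul_le_mul_of_nonneg_left h5 (norm_nonneg _)).trans (h.trans h4)
  have h7 : Real.exp (Real.pi / 2 * |y| - 1) * (Real.exp 1 * Real.exp (-(Real.pi / 2 * |y|))) = 1 := by
    rw [← Real.exp_add, ← Real.exp_add]
    rw [show Real.pi / 2 * |y| - 1 + (1 + -(Real.pi / 2 * |y|)) = 0 by ring, Real.exp_zero]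
  calc ‖Gamma ((x : ℂ) + y * I)‖ = ‖Gamma ((x : ℂ) + y * I)‖ * (Real.exp (Real.pi / 2 * |y| - 1) *
        (Real.exp 1 * Real.exp (-(Real.pi / 2 * |y|)))) := by rw [h7, mul_one]
    _ = ‖Gamma ((x : ℂ) + y * I)‖ * Real.exp (Real.pi / 2 * |y| - 1) *
        (Real.exp 1 * Real.exp (-(Real.pi / 2 * |y|))) := by ring
    _ ≤ (Real.pi / 2 * (1 + |y|)) ^ 3 * M * (Real.exp 1 * Real.exp (-(Real.pi / 2 * |y|))) :=
        mul_le_mul_of_nonneg_right h6 (by positivity)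
    _ = (Real.pi / 2) ^ 3 * M * Real.exp 1 * (1 + |y|) ^ 3 * Real.exp (-(Real.pi / 2 * |y|)) := by
        ring

end LZ

end F_A04
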