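import Pool.Agent.Lib.MP_0f5a55_nt.V.V02
import Pool.Agent.Lib.MP_0f5a55_nt.V.V16

section F_A03

open Complex MeasureTheory Set Filter Topology
open scoped ComplexConjugate

namespace LZ

/-- from zeta_formula and vt_bound (LZX, file X1): |zeta s| <= 1/|s-1| + |s| sum (n+1)^(-Re s-1) for Re s <= 3,
and |zeta s| <= zeta(3) beyond. -/
theorem zeta_pol : ∃ C : ℝ, 0 < C ∧ ∀ s : ℂ, 5/16 ≤ s.re → 1/4 ≤ ‖s - 1‖ →
    ‖riemannZeta s‖ ≤ C * (1 + |s.im|) := by
  set C1 := ∑' n : ℕ, ((n : ℝ) + 1) ^ (-(5/16 : ℝ) - 1) with hC1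
  set C2 := ∑' n : ℕ, ((n : ℝ) + 1) ^ (-(2 : ℝ) - 1) with hC2
  have hsum1 := LZX.rpow_summable (show (0:ℝ) < 5/16 by norm_num)
  have hsum2 := LZX.rpow_summable (show (0:ℝ) < 2 by norm_num)
  have hC10 : 0 ≤ C1 := tsum_nonneg (fun n => by positivity)
  have hC20 : 0 ≤ C2 := tsum_nonneg (fun n => by positivity)
  refine ⟨4 + 3 * C1 + C2, by positivity, ?_⟩
  intro s hs hs1
  have him : 0 ≤ |s.im| := abs_nonneg _
  have hne : s ≠ 1 := by rintro rfl; norm_num at hs1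
  by_cases h3 : s.re ≤ 3
  · have hs0 : 0 < s.re := by linarith
    have hnp : 0 < ‖s - 1‖ := norm_pos_iff.2 (sub_ne_zero.2 hne)
    have h2 : ‖(s - 1) * riemannZeta s‖ ≤ 1 + ‖s - 1‖ * ‖s‖ * C1 := by
      rw [LZX.zeta_formula hs0 hne]
      refine (norm_add_le _ _).trans ?_
      rw [norm_one]
      gcongr
      rw [hC1, ← tsum_mul_left]
      refine tsum_of_norm_bounded (hsum1.mul_left _).hasSum ?_
      intro n
      refine (LZX.vt_bound n s (by linarith)).trans ?_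
      have : ((n : ℝ) + 1) ^ (-s.re - 1) ≤ ((n : ℝ) + 1) ^ (-(5/16:ℝ) - 1) :=
        Real.rpow_le_rpow_of_exponent_le (by linarith [Nat.cast_nonneg (α := ℝ) n]) (by linarith)
      gcongr
    rw [norm_mul] at h2
    have h4 : ‖riemannZeta s‖ ≤ 1 / ‖s - 1‖ + ‖s‖ * C1 := by
      have h5 : ‖riemannZeta s‖ ≤ (1 + ‖s - 1‖ * ‖s‖ * C1) / ‖s - 1‖ := by
        rw [le_div_iff₀ hnp, mul_comm]; exact h2
      refine h5.trans (le_of_eq ?_)
      field_simp
    have h6 : 1 / ‖s - 1‖ ≤ 4 := by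
      rw [div_le_iff₀ hnp]; linarith
    have h7 : ‖s‖ ≤ 3 + |s.im| := by
      refine (Complex.norm_le_abs_re_add_abs_im s).trans ?_
      rw [abs_of_pos hs0]; linarith
    have h8 : ‖s‖ * C1 ≤ (3 + |s.im|) * C1 := mul_le_mul_of_nonneg_right h7 hC10
    have h9 : 0 ≤ C1 * |s.im| := mul_nonneg hC10 him
    have h10 : 0 ≤ C2 * |s.im| := mul_nonneg hC20 him
    nlinarith
  · have h1 : 1 < s.re := by linarith [not_le.mp h3]
    have h4 : ‖riemannZeta s‖ ≤ C2 := by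
      rw [zeta_eq_tsum_one_div_nat_add_one_cpow h1]
      refine tsum_of_norm_bounded hsum2.hasSum ?_
      intro n
      have hc : ((n : ℂ) + 1) = (((n : ℝ) + 1 : ℝ) : ℂ) := by push_cast; ring
      rw [norm_div, norm_one, hc, Complex.norm_cpow_eq_rpow_re_of_pos (by positivity), one_div,
        ← Real.rpow_neg (by positivity)]
      apply Real.rpow_le_rpow_of_exponent_le (by linarith [Nat.cast_nonneg (α := ℝ) n])
      linarith [not_le.mp h3]
    have h9 : 0 ≤ C1 * |s.im| := mul_nonneg hC10 him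
    have h10 : 0 ≤ C2 * |s.im| := mul_nonneg hC20 him
    nlinarith

end LZ

end F_A03

section F_A19

open Complex MeasureTheory Set Filter Topology
open scoped ComplexConjugate

namespace LZ

/-- the general term of `DD` -/
noncomputable def A19_f (η W : ℂ) (m : ℕ) : ℂ := ((m : ℂ) + 1) ^ (-η) * (exp (((m : ℂ) + 1) * W) - 1)⁻¹

theorem A19_cpow_norm (η : ℂ) (hη : |η.re| ≤ 1 / 8) (x : ℝ) (hx : 1 ≤ x) : ‖(x : ℂ) ^ (-η)‖ ≤ x := by
  rw [Complex.norm_cpow_eq_rpow_re_of_pos (by linarith)]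
  calc x ^ (-η).re ≤ x ^ (1 : ℝ) := by
        apply Real.rpow_le_rpow_of_exponent_le hx
        rw [Complex.neg_re]
        have := abs_le.1 hη
        linarith [this.1]
    _ = x := Real.rpow_one x

theorem A19_inv_norm (z : ℂ) (Y : ℝ) (hY : 0 < Y) (hz : Y ≤ z.re) :
    ‖(exp z - 1)⁻¹‖ ≤ (1 - Real.exp (-Y))⁻¹ * Real.exp (-z.re) := by
  have h1 : Real.exp (-Y) < 1 := by rw [Real.exp_lt_one_iff]; linarith
  have h2 : 0 < 1 - Real.exp (-Y) := by linarith
  have h3 : Real.exp z.re * (1 - Real.exp (-Y)) ≤ ‖exp z - 1‖ := by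
    have h4 : ‖exp z‖ - ‖(1 : ℂ)‖ ≤ ‖exp z - 1‖ := norm_sub_norm_le _ _
    rw [Complex.norm_exp, norm_one] at h4
    have h5 : 1 ≤ Real.exp (z.re + -Y) := Real.one_le_exp (by linarith)
    rw [Real.exp_add] at h5
    nlinarith
  rw [norm_inv]
  calc ‖exp z - 1‖⁻¹ ≤ (Real.exp z.re * (1 - Real.exp (-Y)))⁻¹ :=
        inv_anti₀ (by positivity) h3
    _ = _ := by rw [mul_inv, Real.exp_neg z.re]; ring

theorem A19_summable_maj (Y : ℝ) (hY : 0 < Y) (K : ℝ) :
    Summable fun m : ℕ => ((m : ℝ) + 1) * (K * Real.exp (-(((m : ℝ) + 1) * Y))) := by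
  have h1 := Real.summable_pow_mul_exp_neg_nat_mul 1 hY
  have h2 := ((summable_nat_add_iff 1).2 h1).mul_left K
  refine h2.congr fun m => ?_
  rw [pow_one]
  push_cast
  have : -Y * ((m : ℝ) + 1) = -(((m : ℝ) + 1) * Y) := by ring
  rw [this]
  ring

theorem A19_summable (η W : ℂ) (hη : |η.re| ≤ 1 / 8) (hW : 0 < W.re) : Summable (A19_f η W) := by
  refine Summable.of_norm_bounded (A19_summable_maj W.re hW (1 - Real.exp (-W.re))⁻¹) fun m => ?_
  unfold A19_f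
  rw [norm_mul]
  have hm1 : (1 : ℝ) ≤ (m : ℝ) + 1 := by
    have : (0 : ℝ) ≤ m := Nat.cast_nonneg m
    linarith
  have h1 : ‖((m : ℂ) + 1) ^ (-η)‖ ≤ (m : ℝ) + 1 := by
    have := A19_cpow_norm η hη ((m : ℝ) + 1) hm1
    push_cast at this
    exact this
  have hre : (((m : ℂ) + 1) * W).re = ((m : ℝ) + 1) * W.re := by
    have : ((m : ℂ) + 1) = (((m : ℝ) + 1 : ℝ) : ℂ) := by push_cast; rfl
    rw [this, Complex.re_ofReal_mul]
  have h2 := A19_inv_norm (((m : ℂ) + 1) * W) W.re hW (by rw [hre]; nlinarith)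
  rw [hre] at h2
  exact mul_le_mul h1 h2 (norm_nonneg _) (by linarith)

/-- splitting of DD in residue classes (gcd(h,k)=1, m = a + jk): for a < k the term is a function of mY only, with
b = (a h) mod k; for a = k (m = k(j+1)) subtract exp(-k m Y)/(mY). -/
theorem DD_split (η : ℂ) (hη : |η.re| ≤ 1/8) (h k : ℕ) (hh : 1 ≤ h) (hk : 1 ≤ k) (hc : Nat.Coprime h k)
    (Y : ℝ) (hY : 0 < Y) :
    DD η ((Y : ℂ) + 2 * Real.pi * I * h / k) =
      (∑ a ∈ Finset.Ico 1 k, ∑' j : ℕ, ((a : ℂ) + j * k) ^ (-η) *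
        (exp (((((a : ℝ) + j * k) * Y : ℝ) : ℂ) + 2 * Real.pi * I * ((a * h) % k : ℕ) / k) - 1)⁻¹) +
      (∑' j : ℕ, ((k : ℂ) + j * k) ^ (-η) *
        ((1 / (Real.exp (((k : ℝ) + j * k) * Y) - 1) - Real.exp (-(k * (((k : ℝ) + j * k) * Y))) /
          (((k : ℝ) + j * k) * Y) : ℝ) : ℂ)) +
      (k : ℂ) ^ (-1 - η) / Y * ∑' n : ℕ, ((n : ℂ) + 1) ^ (-(1 + η)) *
        (Real.exp (-(((n : ℝ) + 1) * ((k : ℝ) ^ 2 * Y))) : ℂ) := by
  have hk0 : (0 : ℝ) < k := by exact_mod_cast hk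
  have hk1 : (1 : ℝ) ≤ k := by exact_mod_cast hk
  have hkC : (k : ℂ) ≠ 0 := by exact_mod_cast hk0.ne'
  have : NeZero k := ⟨by omega⟩
  set W : ℂ := (Y : ℂ) + 2 * Real.pi * I * h / k with hW
  have hWre : W.re = Y := by
    have e : W = (Y : ℂ) + ((2 * Real.pi * h / k : ℝ) : ℂ) * I := by
      rw [hW]; push_cast; ring
    rw [e]; simp
  have hWpos : 0 < W.re := by rw [hWre]; exact hY
  have hsum := A19_summable η W hη hWpos
  have hDD : DD η W = ∑' m, A19_f η W m := rfl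
  rw [hDD, Nat.sumByResidueClasses hsum k]
  -- from ZMod k to a range
  have hzmod : ∀ G : ℕ → ℂ, ∑ j : ZMod k, G j.val = ∑ a ∈ Finset.range k, G a := by
    intro G
    apply Finset.sum_bij (fun (j : ZMod k) _ => j.val)
    · intro j _; exact Finset.mem_range.2 (ZMod.val_lt j)
    · intro a _ b _ hab; exact ZMod.val_injective k hab
    · intro a ha
      exact ⟨(a : ZMod k), Finset.mem_univ _, ZMod.val_cast_of_lt (Finset.mem_range.1 ha)⟩
    · intro j _; rfl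
  rw [hzmod (fun v => ∑' m : ℕ, A19_f η W (v + k * m))]
  have hrange : ∀ G : ℕ → ℂ, ∑ a ∈ Finset.range k, G (a + 1) = ∑ a ∈ Finset.Ico 1 k, G a + G k := by
    intro G
    have h1 : ∑ a ∈ Finset.range k, G (a + 1) = ∑ a ∈ Finset.Ico 1 (k + 1), G a := by
      rw [Finset.range_eq_Ico, Finset.sum_Ico_add' G 0 k 1]
    rw [h1, Finset.sum_Ico_succ_top (by omega)]
  -- the exponential depends only on the residue class
  have hexp : ∀ (a j : ℕ), exp (((a : ℂ) + j * k) * W) =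
      exp (((((a : ℝ) + j * k) * Y : ℝ) : ℂ) + 2 * Real.pi * I * ((a * h) % k : ℕ) / k) := by
    intro a j
    rw [Complex.exp_eq_exp_iff_exists_int]
    obtain ⟨q, hq⟩ : ∃ q : ℕ, q = a * h / k := ⟨_, rfl⟩
    refine ⟨((q + j * h : ℕ) : ℤ), ?_⟩
    have h1 : (a * h : ℕ) = (a * h) % k + k * q := by rw [hq]; exact (Nat.mod_add_div _ _).symm
    have h2 : ((a : ℂ) * h) = (((a * h) % k : ℕ) : ℂ) + k * (q : ℂ) := by
      exact_mod_cast h1
    have h3 : ((a : ℂ) + j * k) * W = ((a : ℂ) + j * k) * Y +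
        2 * Real.pi * I * ((a * h : ℂ) / k + j * h) := by
      rw [hW]; field_simp
    rw [h3, h2]
    push_cast
    field_simp
    ring
  have hterm : ∀ (a j : ℕ), A19_f η W (a + k * j) = (((a + 1 : ℕ) : ℂ) + j * k) ^ (-η) *
      (exp ((((((a + 1 : ℕ) : ℝ) + j * k) * Y : ℝ) : ℂ) +
        2 * Real.pi * I * (((a + 1) * h) % k : ℕ) / k) - 1)⁻¹ := by
    intro a j
    unfold A19_f
    rw [← hexp]
    have : (((a + k * j : ℕ) : ℂ) + 1) = ((a + 1 : ℕ) : ℂ) + j * k := by push_cast; ring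
    rw [this]
  rw [Finset.sum_congr rfl fun a _ => tsum_congr fun j => hterm a j,
    hrange (fun b => ∑' j : ℕ, ((b : ℂ) + j * k) ^ (-η) *
      (exp (((((b : ℝ) + j * k) * Y : ℝ) : ℂ) + 2 * Real.pi * I * ((b * h) % k : ℕ) / k) - 1)⁻¹),
    add_assoc]
  congr 1
  -- the class a = k
  have hlast : ∀ j : ℕ, ((k : ℂ) + j * k) ^ (-η) *
      (exp (((((k : ℝ) + j * k) * Y : ℝ) : ℂ) + 2 * Real.pi * I * ((k * h) % k : ℕ) / k) - 1)⁻¹ =
      ((k : ℂ) + j * k) ^ (-η) *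
        ((1 / (Real.exp (((k : ℝ) + j * k) * Y) - 1) - Real.exp (-(k * (((k : ℝ) + j * k) * Y))) /
          (((k : ℝ) + j * k) * Y) : ℝ) : ℂ) +
      (k : ℂ) ^ (-1 - η) / Y * (((j : ℂ) + 1) ^ (-(1 + η)) *
        (Real.exp (-(((j : ℝ) + 1) * ((k : ℝ) ^ 2 * Y))) : ℂ)) := by
    intro j
    have hj0 : (0 : ℝ) ≤ j := Nat.cast_nonneg j
    have hY0 : (Y : ℂ) ≠ 0 := by exact_mod_cast hY.ne'
    have hj1 : ((j : ℂ) + 1) ≠ 0 := by
      have : ((j : ℝ) + 1) ≠ 0 := by positivity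
      exact_mod_cast this
    have h1 : exp (((((k : ℝ) + j * k) * Y : ℝ) : ℂ) + 2 * Real.pi * I * ((k * h) % k : ℕ) / k) =
        ((Real.exp (((k : ℝ) + j * k) * Y) : ℝ) : ℂ) := by
      rw [Nat.mul_mod_right]
      simp
    rw [h1]
    have h2 : ((k : ℂ) + j * k) = (k : ℂ) * ((j : ℂ) + 1) := by ring
    have h3 : ((k : ℂ) + j * k) ^ (-η) = (k : ℂ) ^ (-η) * ((j : ℂ) + 1) ^ (-η) := by
      rw [h2]
      have := Complex.mul_cpow_ofReal_nonneg hk0.le (show (0 : ℝ) ≤ (j : ℝ) + 1 by positivity) (-η)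
      push_cast at this
      exact this
    have h4 : (k : ℂ) ^ (-1 - η) = (k : ℂ)⁻¹ * (k : ℂ) ^ (-η) := by
      rw [show -1 - η = -1 + -η by ring, Complex.cpow_add _ _ hkC, Complex.cpow_neg_one]
    have h5 : ((j : ℂ) + 1) ^ (-(1 + η)) = ((j : ℂ) + 1)⁻¹ * ((j : ℂ) + 1) ^ (-η) := by
      rw [show -(1 + η) = -1 + -η by ring, Complex.cpow_add _ _ hj1, Complex.cpow_neg_one]
    have h6 : Real.exp (-(k * (((k : ℝ) + j * k) * Y))) =
        Real.exp (-(((j : ℝ) + 1) * ((k : ℝ) ^ 2 * Y))) := by congr 1; ring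
    rw [h3, h4, h5, h6]
    push_cast
    rw [h2]
    generalize cexp ((k : ℂ) * ((j : ℂ) + 1) * Y) = E
    generalize cexp (-(((j : ℂ) + 1) * ((k : ℂ) ^ 2 * Y))) = e
    rw [one_div]
    generalize (E - 1)⁻¹ = F
    generalize ((j : ℂ) + 1) ^ (-η) = zη
    generalize (k : ℂ) ^ (-η) = kη
    generalize (j : ℂ) + 1 = z at *
    field_simp
    ring
  rw [tsum_congr hlast]
  have hs2 : Summable fun j : ℕ => (k : ℂ) ^ (-1 - η) / Y * (((j : ℂ) + 1) ^ (-(1 + η)) *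
      (Real.exp (-(((j : ℝ) + 1) * ((k : ℝ) ^ 2 * Y))) : ℂ)) := by
    apply Summable.mul_left
    have hk2Y : 0 < (k : ℝ) ^ 2 * Y := by positivity
    refine Summable.of_norm_bounded (A19_summable_maj ((k : ℝ) ^ 2 * Y) hk2Y 1) fun j => ?_
    have hj1 : (1 : ℝ) ≤ (j : ℝ) + 1 := by
      have : (0 : ℝ) ≤ j := Nat.cast_nonneg j
      linarith
    rw [norm_mul, Complex.norm_real, Real.norm_eq_abs, abs_of_pos (Real.exp_pos _), one_mul]
    apply mul_le_mul_of_nonneg_right _ (Real.exp_pos _).le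
    have e : ((j : ℂ) + 1) = (((j : ℝ) + 1 : ℝ) : ℂ) := by push_cast; rfl
    rw [e, Complex.norm_cpow_eq_rpow_re_of_pos (by linarith)]
    calc ((j : ℝ) + 1) ^ (-(1 + η)).re ≤ ((j : ℝ) + 1) ^ (1 : ℝ) := by
          apply Real.rpow_le_rpow_of_exponent_le hj1
          rw [Complex.neg_re, Complex.add_re, Complex.one_re]
          have := abs_le.1 hη
          linarith [this.1]
      _ = (j : ℝ) + 1 := Real.rpow_one _
  have hs0 : Summable fun j : ℕ => ((k : ℂ) + j * k) ^ (-η) *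
      (exp (((((k : ℝ) + j * k) * Y : ℝ) : ℂ) + 2 * Real.pi * I * ((k * h) % k : ℕ) / k) - 1)⁻¹ := by
    have hinj : Function.Injective (fun j : ℕ => (k - 1) + k * j) := by
      intro a b hab
      simp only at hab
      have : k * a = k * b := by omega
      exact Nat.eq_of_mul_eq_mul_left (by omega) this
    have h1 := hsum.comp_injective hinj
    refine h1.congr fun j => ?_
    have h2 := hterm (k - 1) j
    have h3 : k - 1 + 1 = k := by omega
    rw [h3] at h2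
    simp only [Function.comp]
    exact h2
  have hs1 : Summable fun j : ℕ => ((k : ℂ) + j * k) ^ (-η) *
        ((1 / (Real.exp (((k : ℝ) + j * k) * Y) - 1) - Real.exp (-(k * (((k : ℝ) + j * k) * Y))) /
          (((k : ℝ) + j * k) * Y) : ℝ) : ℂ) := by
    have h1 := hs0.sub hs2
    refine h1.congr fun j => ?_
    rw [hlast j]
    ring
  rw [hs1.tsum_add hs2, tsum_mul_left]

end LZ

end F_A19
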