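import Pool.Agent.Lib.MP_0f5a55_nt.V.V02
import Pool.Agent.Lib.MP_0f5a55_nt.V.V03
import Pool.Agent.Lib.MP_0f5a55_nt.V.V17
import Pool.Agent.Lib.MP_0f5a55_nt.V.V19

section F_E02

open Complex MeasureTheory Set Filter Topology
open scoped ComplexConjugate

namespace LZ

/-- clamp -/
private noncomputable def E02_cl (u v x : ℝ) : ℝ := max u (min x v)

private theorem E02_cl_cont (u v : ℝ) : Continuous (E02_cl u v) := by
  unfold E02_cl
  fun_prop

private theorem E02_cl_mem {u v : ℝ} (h : u ≤ v) (x : ℝ) : u ≤ E02_cl u v x ∧ E02_cl u v x ≤ v :=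
  ⟨le_max_left _ _, max_le h (min_le_right _ _)⟩

private theorem E02_cl_eq {u v x : ℝ} (h1 : u ≤ x) (h2 : x ≤ v) : E02_cl u v x = x := by
  unfold E02_cl
  rw [min_eq_left h2, max_eq_right h1]

/-- sum over disjoint intervals -/
private theorem E02_sum_int {r a b : ℝ} (hr : 0 < r) (hab : a ≤ b) (Y : Finset ℝ)
    (hY : ∀ y ∈ Y, a ≤ y ∧ y ≤ b) (hsep : Sep (2 * r) Y) {g : ℝ → ℝ} (hg : Continuous g)
    (hg0 : ∀ t, 0 ≤ g t) :
    ∑ y ∈ Y, ∫ t in (y - r)..(y + r), g t ≤ ∫ t in (a - r)..(b + r), g t := by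
  have h1 : ∑ y ∈ Y, ∫ t in (y - r)..(y + r), g t = ∑ y ∈ Y, ∫ t in Ioc (y - r) (y + r), g t := by
    refine Finset.sum_congr rfl fun y _ => ?_
    rw [intervalIntegral.integral_of_le (by linarith)]
  have hint : ∀ u v : ℝ, IntegrableOn g (Ioc u v) := fun u v =>
    (hg.integrableOn_Icc (a := u) (b := v)).mono_set Ioc_subset_Icc_self
  rw [h1, intervalIntegral.integral_of_le (by linarith), ← integral_biUnion_finset]
  · refine setIntegral_mono_set (hint _ _) (ae_of_all _ fun t => hg0 t) ?_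
    refine LE.le.eventuallyLE ?_
    refine iUnion₂_subset fun y hy => ?_
    exact Ioc_subset_Ioc (by linarith [(hY y hy).1]) (by linarith [(hY y hy).2])
  · exact fun y _ => measurableSet_Ioc
  · intro y hy z hz hyz
    have h2 := hsep y hy z hz hyz
    rw [Function.onFun, Set.disjoint_left]
    intro t ht1 ht2
    rcases abs_cases (y - z) with ⟨h3, -⟩ | ⟨h3, -⟩
    · have := ht1.1
      have := ht2.2
      linarith
    · have := ht1.2
      have := ht2.1
      linarith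
  · exact fun y _ => hint _ _

/-- sum of (6.1) over a 2r-separated set: the t-intervals (y-r,y+r) are disjoint. -/
theorem sum_sep {f : ℂ → ℂ} {r a b : ℝ} (hr : 0 < r) (hab : a ≤ b) (Y : Finset ℝ) (hY : ∀ y ∈ Y, a ≤ y ∧ y ≤ b)
    (hsep : Sep (2 * r) Y)
    (hf : ∀ z : ℂ, |z.re - 1/2| ≤ r → a - r ≤ z.im → z.im ≤ b + r → DifferentiableAt ℂ f z) :
    ∑ y ∈ Y, ‖f (1/2 + y * I)‖ ^ 2 ≤
      (Real.pi * r ^ 2)⁻¹ * ∫ σ in (-r)..r, ∫ t in (a - r)..(b + r), ‖f (1/2 + σ + t * I)‖ ^ 2 := by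
  -- the clamped function
  set G : ℝ → ℝ → ℝ := fun σ t =>
    ‖f (1/2 + (E02_cl (-r) r σ : ℂ) + (E02_cl (a - r) (b + r) t : ℂ) * I)‖ ^ 2 with hG
  have hfc : ContinuousOn f {z : ℂ | |z.re - 1/2| ≤ r ∧ a - r ≤ z.im ∧ z.im ≤ b + r} :=
    fun z hz => (hf z hz.1 hz.2.1 hz.2.2).continuousAt.continuousWithinAt
  have hGc : Continuous (Function.uncurry G) := by
    have hc : Continuous fun z : ℝ × ℝ =>
        (1/2 + (E02_cl (-r) r z.1 : ℂ) + (E02_cl (a - r) (b + r) z.2 : ℂ) * I) := by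
      have h1 := E02_cl_cont (-r) r
      have h2 := E02_cl_cont (a - r) (b + r)
      fun_prop
    have hcomp : Continuous fun z : ℝ × ℝ =>
        f (1/2 + (E02_cl (-r) r z.1 : ℂ) + (E02_cl (a - r) (b + r) z.2 : ℂ) * I) := by
      rw [← continuousOn_univ]
      refine hfc.comp hc.continuousOn fun z _ => ?_
      have h1 := E02_cl_mem (show -r ≤ r by linarith) z.1
      have h2 := E02_cl_mem (show a - r ≤ b + r by linarith) z.2
      refine ⟨?_, ?_, ?_⟩
      · simp only [add_re, mul_re, ofReal_re, ofReal_im, I_re, I_im, mul_zero, mul_one, zero_mul,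
          sub_zero, sub_self, add_zero]
        have : ((1:ℂ)/2).re = 1/2 := by norm_num
        rw [this, abs_le]
        constructor <;> linarith [h1.1, h1.2]
      · simp only [add_im, mul_im, ofReal_re, ofReal_im, I_re, I_im, mul_zero, mul_one, zero_mul,
          add_zero]
        have : ((1:ℂ)/2).im = 0 := by norm_num
        rw [this]
        linarith [h2.1]
      · simp only [add_im, mul_im, ofReal_re, ofReal_im, I_re, I_im, mul_zero, mul_one, zero_mul,
          add_zero]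
        have : ((1:ℂ)/2).im = 0 := by norm_num
        rw [this]
        linarith [h2.2]
    exact hcomp.norm.pow 2
  have hG0 : ∀ σ t, 0 ≤ G σ t := fun σ t => by rw [hG]; positivity
  have hGe : ∀ σ ∈ Icc (-r) r, ∀ t ∈ Icc (a - r) (b + r), ‖f (1/2 + σ + t * I)‖ ^ 2 = G σ t := by
    intro σ hσ t ht
    simp only [hG]
    rw [E02_cl_eq hσ.1 hσ.2, E02_cl_eq ht.1 ht.2]
  have hnn : 0 ≤ (Real.pi * r ^ 2)⁻¹ := by positivity
  -- each term
  have hterm : ∀ y ∈ Y, ‖f (1/2 + y * I)‖ ^ 2 ≤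
      (Real.pi * r ^ 2)⁻¹ * ∫ σ in (-r)..r, ∫ t in (y - r)..(y + r), G σ t := by
    intro y hy
    have h1 := sub_mean (f := f) (c := 1/2 + y * I) hr (fun z hz1 hz2 => by
      have e1 : (z - (1/2 + y * I)).re = z.re - 1/2 := by
        simp only [sub_re, add_re, mul_re, ofReal_re, ofReal_im, I_re, I_im, mul_zero, zero_mul,
          sub_self, add_zero]
        norm_num
      have e2 : (z - (1/2 + y * I)).im = z.im - y := by
        simp only [sub_im, add_im, mul_im, ofReal_re, ofReal_im, I_re, I_im, mul_zero, mul_one,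
          add_zero]
        norm_num
      rw [e1] at hz1
      rw [e2] at hz2
      have h2 := abs_le.1 hz2
      exact hf z hz1 (by linarith [h2.1, (hY y hy).1]) (by linarith [h2.2, (hY y hy).2]))
    refine h1.trans (le_of_eq ?_)
    congr 1
    refine intervalIntegral.integral_congr fun σ hσ => ?_
    rw [uIcc_of_le (by linarith)] at hσ
    have h3 : ∫ t in (-r)..r, ‖f (1/2 + y * I + σ + t * I)‖ ^ 2 =
        ∫ t in (-r)..r, (fun t => G σ t) (t + y) := by
      refine intervalIntegral.integral_congr fun t ht => ?_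
      rw [uIcc_of_le (by linarith)] at ht
      simp only
      rw [← hGe σ hσ (t + y) ⟨by linarith [ht.1, (hY y hy).1], by linarith [ht.2, (hY y hy).2]⟩]
      congr 3
      push_cast
      ring
    rw [h3, intervalIntegral.integral_comp_add_right (fun t => G σ t)]
    congr 1 <;> ring
  have hcont : ∀ u v : ℝ, Continuous fun σ => ∫ t in u..v, G σ t := fun u v =>
    intervalIntegral.continuous_parametric_intervalIntegral_of_continuous' hGc u v
  calc ∑ y ∈ Y, ‖f (1/2 + y * I)‖ ^ 2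
      ≤ ∑ y ∈ Y, (Real.pi * r ^ 2)⁻¹ * ∫ σ in (-r)..r, ∫ t in (y - r)..(y + r), G σ t :=
        Finset.sum_le_sum hterm
    _ = (Real.pi * r ^ 2)⁻¹ * ∫ σ in (-r)..r, ∑ y ∈ Y, ∫ t in (y - r)..(y + r), G σ t := by
        rw [← Finset.mul_sum, intervalIntegral.integral_finsetSum]
        exact fun y _ => (hcont _ _).intervalIntegrable _ _
    _ ≤ (Real.pi * r ^ 2)⁻¹ * ∫ σ in (-r)..r, ∫ t in (a - r)..(b + r), G σ t := by
        refine mul_le_mul_of_nonneg_left ?_ hnn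
        refine intervalIntegral.integral_mono_on (by linarith) ?_ ?_ fun σ _ => ?_
        · exact (continuous_finsetSum _ fun y _ => hcont _ _).intervalIntegrable _ _
        · exact (hcont _ _).intervalIntegrable _ _
        · have hGs : Continuous (G σ) := by
            have h9 := hGc.comp (Continuous.prodMk (continuous_const (y := σ)) continuous_id)
            exact h9
          exact E02_sum_int hr hab Y hY hsep hGs (fun t => hG0 σ t)
    _ = (Real.pi * r ^ 2)⁻¹ * ∫ σ in (-r)..r, ∫ t in (a - r)..(b + r), ‖f (1/2 + σ + t * I)‖ ^ 2 := by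
        congr 1
        refine intervalIntegral.integral_congr fun σ hσ => ?_
        rw [uIcc_of_le (by linarith)] at hσ
        refine intervalIntegral.integral_congr fun t ht => ?_
        rw [uIcc_of_le (by linarith)] at ht
        exact (hGe σ hσ t ht).symm

end LZ

end F_E02

section F_A05

open Complex MeasureTheory Set Filter Topology
open scoped ComplexConjugate

namespace LZ

theorem A05_polar (ε : ℝ) (h k : ℕ) : WW ε h k =
    ((2 * Real.pi * (h / k) : ℝ) : ℂ) *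
      (Complex.cos ((Real.pi / 2 - ε : ℝ) : ℂ) + Complex.sin ((Real.pi / 2 - ε : ℝ) : ℂ) * I) := by
  have h1 : exp (-((ε : ℂ) * I)) = (Real.cos ε : ℂ) - (Real.sin ε : ℂ) * I := by
    have h2 : -((ε : ℂ) * I) = ((-ε : ℝ) : ℂ) * I := by push_cast; ring
    rw [h2, Complex.exp_mul_I, ← Complex.ofReal_cos, ← Complex.ofReal_sin, Real.cos_neg,
      Real.sin_neg]
    push_cast; ring
  have h3 : Complex.cos ((Real.pi / 2 - ε : ℝ) : ℂ) = (Real.sin ε : ℂ) := by
    rw [← Complex.ofReal_cos, Real.cos_pi_div_two_sub]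
  have h4 : Complex.sin ((Real.pi / 2 - ε : ℝ) : ℂ) = (Real.cos ε : ℂ) := by
    rw [← Complex.ofReal_sin, Real.sin_pi_div_two_sub]
  unfold WW
  rw [h1, h3, h4]
  push_cast
  linear_combination (-(2 * (Real.pi : ℂ) * (h / k) * Complex.sin ε)) * Complex.I_mul_I

/-- the norm of `WW ^ (-s)` -/
theorem A05_norm {ε : ℝ} (hε : 0 < ε) (hε1 : ε ≤ 1/2) {h k : ℕ} (hh : 1 ≤ h) (hk : 1 ≤ k) (s : ℂ) :
    ‖(WW ε h k) ^ (-s)‖ = (2 * Real.pi * (h / k)) ^ (-s.re) * Real.exp ((Real.pi / 2 - ε) * s.im) := by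
  have h4 : (0 : ℝ) < h := by exact_mod_cast hh
  have h5 : (0 : ℝ) < k := by exact_mod_cast hk
  have hr : 0 < 2 * Real.pi * ((h : ℝ) / k) := by positivity
  have hpi := Real.pi_gt_three
  have harg : (WW ε h k).arg = Real.pi / 2 - ε := by
    rw [A05_polar]
    exact Complex.arg_mul_cos_add_sin_mul_I hr ⟨by linarith, by linarith⟩
  have hnorm : ‖WW ε h k‖ = 2 * Real.pi * ((h : ℝ) / k) := by
    rw [A05_polar, norm_mul, Complex.norm_real, Complex.norm_cos_add_sin_mul_I, mul_one,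
      Real.norm_of_nonneg hr.le]
  have hne : WW ε h k ≠ 0 := by
    intro h0
    rw [h0, norm_zero] at hnorm
    linarith
  rw [Complex.norm_cpow_of_ne_zero hne, harg, hnorm, neg_re, neg_im, div_eq_mul_inv, ← Real.exp_neg]
  congr 2
  ring

/-- for `0 ≤ Re s ≤ 2` -/
theorem A05_norm_le {ε : ℝ} (hε : 0 < ε) (hε1 : ε ≤ 1/2) {h k : ℕ} (hh : 1 ≤ h) (hk : 1 ≤ k) (s : ℂ)
    (hs0 : 0 ≤ s.re) (hs2 : s.re ≤ 2) :
    ‖(WW ε h k) ^ (-s)‖ ≤ ((h : ℝ) * k) ^ 2 * Real.exp ((Real.pi / 2 - ε) * s.im) := by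
  rw [A05_norm hε hε1 hh hk]
  apply mul_le_mul_of_nonneg_right _ (Real.exp_nonneg _)
  have h4 : (1 : ℝ) ≤ h := by exact_mod_cast hh
  have h5 : (1 : ℝ) ≤ k := by exact_mod_cast hk
  have hpi := Real.pi_gt_three
  have hr : 0 < 2 * Real.pi * ((h : ℝ) / k) := by positivity
  rw [Real.rpow_neg hr.le, ← Real.inv_rpow hr.le]
  have h6 : (2 * Real.pi * ((h : ℝ) / k))⁻¹ ≤ (h : ℝ) * k := by
    rw [inv_le_iff_one_le_mul₀ hr]
    have h7 : (h : ℝ) * k * (2 * Real.pi * ((h : ℝ) / k)) = 2 * Real.pi * ((h : ℝ) * h) := by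
      field_simp
    rw [h7]
    nlinarith
  have hhk : (1 : ℝ) ≤ (h : ℝ) * k := by nlinarith
  calc ((2 * Real.pi * ((h : ℝ) / k))⁻¹) ^ s.re ≤ ((h : ℝ) * k) ^ s.re :=
        Real.rpow_le_rpow (by positivity) h6 hs0
    _ ≤ ((h : ℝ) * k) ^ (2 : ℝ) := Real.rpow_le_rpow_of_exponent_le hhk hs2
    _ = ((h : ℝ) * k) ^ 2 := Real.rpow_two _

/-- growth in the half strip; |WW^(-s)| = (2 pi h/k)^(-Re s) exp((pi/2-eps) Im s). -/
theorem G_bound (U : ℝ) (hU : 0 ≤ U) : ∃ C : ℝ, 0 < C ∧ ∀ ε : ℝ, 0 < ε → ε ≤ 1/2 → ∀ h k : ℕ, 1 ≤ h → 1 ≤ k →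
    ∀ η : ℂ, |η.re| ≤ 1/8 → |η.im| ≤ 2 * U → ∀ s : ℂ, 7/16 ≤ s.re → s.re ≤ 2 → 2 * U + 2 ≤ s.im →
    ‖riemannZeta (s + η) * riemannZeta s * Gamma s * (WW ε h k) ^ (-s)‖ ≤
      C * ((h : ℝ) * k) ^ 2 * (1 + s.im) ^ 5 * Real.exp (-(ε * s.im)) := by
  obtain ⟨C0, hC0, hz⟩ := zeta_pol
  obtain ⟨C4, hC4, hG⟩ := Gamma_strip
  refine ⟨2 * C0 ^ 2 * C4, by positivity, ?_⟩
  intro ε hε hε1 h k hh hk η hηre hηim s hs1 hs2 hs3
  have hη1 := abs_le.mp hηre
  have hη2 := abs_le.mp hηim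
  have hy0 : 0 ≤ s.im := by linarith
  have a1 : ‖riemannZeta (s + η)‖ ≤ C0 * (2 * (1 + s.im)) := by
    refine (hz (s + η) (by rw [add_re]; linarith) ?_).trans ?_
    · have h1 := Complex.abs_im_le_norm (s + η - 1)
      rw [sub_im, add_im, one_im, sub_zero, abs_of_nonneg (by linarith)] at h1
      linarith
    · rw [add_im, abs_of_nonneg (by linarith)]
      apply mul_le_mul_of_nonneg_left _ hC0.le
      linarith
  have a2 : ‖riemannZeta s‖ ≤ C0 * (1 + s.im) := by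
    refine (hz s (by linarith) ?_).trans ?_
    · have h1 := Complex.abs_im_le_norm (s - 1)
      rw [sub_im, one_im, sub_zero, abs_of_nonneg hy0] at h1
      linarith
    · rw [abs_of_nonneg hy0]
  have a3 : ‖Gamma s‖ ≤ C4 * (1 + s.im) ^ 3 * Real.exp (-(Real.pi / 2 * s.im)) := by
    have h1 := hG s.re s.im (by linarith) (by linarith)
    rw [Complex.re_add_im, abs_of_nonneg hy0] at h1
    exact h1
  have a4 := A05_norm_le hε hε1 hh hk s (by linarith) hs2
  rw [norm_mul, norm_mul, norm_mul]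
  calc ‖riemannZeta (s + η)‖ * ‖riemannZeta s‖ * ‖Gamma s‖ * ‖(WW ε h k) ^ (-s)‖
      ≤ (C0 * (2 * (1 + s.im))) * (C0 * (1 + s.im)) *
        (C4 * (1 + s.im) ^ 3 * Real.exp (-(Real.pi / 2 * s.im))) *
        (((h : ℝ) * k) ^ 2 * Real.exp ((Real.pi / 2 - ε) * s.im)) := by
        gcongr
    _ = 2 * C0 ^ 2 * C4 * ((h : ℝ) * k) ^ 2 * (1 + s.im) ^ 5 *
        (Real.exp (-(Real.pi / 2 * s.im)) * Real.exp ((Real.pi / 2 - ε) * s.im)) := by ring
    _ = _ := by
        rw [← Real.exp_add]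
        congr 2
        ring

end LZ

end F_A05
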