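import Pool.Agent.Lib.MP_0f5a55_nt.V.V02
import Pool.Agent.Lib.MP_0f5a55_nt.V.V14
import Pool.Agent.Lib.MP_0f5a55_nt.V.V19
import Pool.Agent.Lib.MP_0f5a55_nt.V.V22

section F_A08

open Complex MeasureTheory Set Filter Topology
open scoped ComplexConjugate

namespace LZ

/-- `zeta` is bounded for `Re s ≥ 3/2` -/
theorem A08_zeta : ∃ C : ℝ, 0 ≤ C ∧ ∀ s : ℂ, 3/2 ≤ s.re → ‖riemannZeta s‖ ≤ C := by
  have hsum := LZX.rpow_summable (show (0:ℝ) < 1/2 by norm_num)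
  refine ⟨∑' n : ℕ, ((n : ℝ) + 1) ^ (-(1/2 : ℝ) - 1), tsum_nonneg (fun n => by positivity), ?_⟩
  intro s hs
  rw [zeta_eq_tsum_one_div_nat_add_one_cpow (by linarith)]
  refine tsum_of_norm_bounded hsum.hasSum ?_
  intro n
  have hc : ((n : ℂ) + 1) = (((n : ℝ) + 1 : ℝ) : ℂ) := by push_cast; ring
  rw [norm_div, norm_one, hc, Complex.norm_cpow_eq_rpow_re_of_pos (by positivity), one_div,
    ← Real.rpow_neg (by positivity)]
  apply Real.rpow_le_rpow_of_exponent_le (by linarith [Nat.cast_nonneg (α := ℝ) n])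
  linarith

theorem A08_pow (a : ℝ) (ha : 0 ≤ a) : (1 + a) ^ 3 ≤ 216 * Real.exp ((1 + a) / 2) := by
  have h1 : (1 + a) / 6 ≤ Real.exp ((1 + a) / 6) := by
    have := Real.add_one_le_exp ((1 + a) / 6); linarith
  have h2 : 1 + a ≤ 6 * Real.exp ((1 + a) / 6) := by linarith
  calc (1 + a) ^ 3 ≤ (6 * Real.exp ((1 + a) / 6)) ^ 3 := pow_le_pow_left₀ (by linarith) h2 3
    _ = 216 * Real.exp ((1 + a) / 2) := by
      rw [mul_pow, ← Real.exp_nat_mul]
      norm_num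
      ring_nf

private theorem A08_e {y ε : ℝ} (hy : y < 0) (hε : ε ≤ 1 / 2) :
    -(Real.pi / 2 * -y) + (Real.pi / 2 - ε) * y ≤ Real.pi / 2 * y ∧
      (1 + -y) / 2 + Real.pi / 2 * y ≤ 1 / 2 + y := by
  have hpi := Real.pi_gt_three
  have h1 := mul_nonneg (show 0 ≤ Real.pi / 2 - ε by linarith) (show 0 ≤ -y by linarith)
  have h2 := mul_nonneg (show 0 ≤ Real.pi / 2 - 3 / 2 by linarith) (show 0 ≤ -y by linarith)
  exact ⟨by linarith, by linarith⟩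

private theorem A08_pos {y ε U K : ℝ} (hU : 0 ≤ U) (hε : 0 < ε) (h0 : 0 ≤ y)
    (hy : y ≤ 2 * U + 2) (e5 : (3 + 2 * U) ^ 3 ≤ K) (hK0 : 0 ≤ K) :
    (1 + y) ^ 3 * Real.exp (-(ε * y)) ≤ K * Real.exp y := by
  have e2 : Real.exp (-(ε * y)) ≤ 1 := by
    rw [Real.exp_le_one_iff]
    exact neg_nonpos.mpr (mul_nonneg hε.le h0)
  have e3 : 1 ≤ Real.exp y := Real.one_le_exp h0
  have e4 : (1 + y) ^ 3 ≤ (3 + 2 * U) ^ 3 := pow_le_pow_left₀ (by linarith) (by linarith) 3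
  have e6 : 0 ≤ (3 + 2 * U) ^ 3 := pow_nonneg (by linarith) 3
  exact (mul_le_mul e4 e2 (Real.exp_pos _).le e6).trans (mul_le_mul e5 e3 zero_le_one hK0)

private theorem A08_neg {y ε K : ℝ} (hε : ε ≤ 1 / 2) (h0 : y < 0)
    (e5 : 216 * Real.exp (1 / 2) ≤ K) :
    (1 + -y) ^ 3 * Real.exp (-(Real.pi / 2 * -y) + (Real.pi / 2 - ε) * y) ≤
      K * Real.exp y := by
  obtain ⟨e1, e3⟩ := A08_e h0 hε
  have e2 := A08_pow (-y) (by linarith)
  calc (1 + -y) ^ 3 * Real.exp (-(Real.pi / 2 * -y) + (Real.pi / 2 - ε) * y)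
      ≤ (216 * Real.exp ((1 + -y) / 2)) * Real.exp (Real.pi / 2 * y) :=
        mul_le_mul e2 (Real.exp_le_exp.mpr e1) (Real.exp_nonneg _)
          (mul_nonneg (by norm_num) (Real.exp_nonneg _))
    _ = 216 * Real.exp ((1 + -y) / 2 + Real.pi / 2 * y) := by rw [mul_assoc, ← Real.exp_add]
    _ ≤ 216 * Real.exp (1 / 2 + y) :=
        mul_le_mul_of_nonneg_left (Real.exp_le_exp.mpr e3) (by norm_num)
    _ = 216 * Real.exp (1 / 2) * Real.exp y := by rw [Real.exp_add, mul_assoc]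
    _ ≤ K * Real.exp y := mul_le_mul_of_nonneg_right e5 (Real.exp_nonneg _)

/-- (3.2) lower part of the line Re = 2. -/
theorem G_low (U : ℝ) (hU : 0 ≤ U) : ∃ C : ℝ, 0 < C ∧ ∀ ε : ℝ, 0 < ε → ε ≤ 1/2 → ∀ h k : ℕ, 1 ≤ h → 1 ≤ k →
    ∀ η : ℂ, |η.re| ≤ 1/8 →
    ‖∫ y in Iic (2 * U + 2), riemannZeta (2 + y * I + η) * riemannZeta (2 + y * I) * Gamma (2 + y * I) *
        (WW ε h k) ^ (-(2 + y * I : ℂ))‖ ≤ C * ((h : ℝ) * k) ^ 2 := by
  obtain ⟨C0, hC0, hz⟩ := A08_zeta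
  obtain ⟨C4, hC4, hG⟩ := Gamma_strip
  set K : ℝ := 216 * Real.exp (1 / 2) + (3 + 2 * U) ^ 3 with hK
  have hK0 : 0 < K := by positivity
  refine ⟨(C0 ^ 2 + 1) * C4 * K * Real.exp (2 * U + 2), by positivity, ?_⟩
  intro ε hε hε1 h k hh hk η hηre
  have hη1 := abs_le.mp hηre
  have hpi := Real.pi_gt_three
  have hb : ∀ y : ℝ, y ≤ 2 * U + 2 →
      ‖riemannZeta (2 + y * I + η) * riemannZeta (2 + y * I) * Gamma (2 + y * I) *
        (WW ε h k) ^ (-(2 + y * I : ℂ))‖ ≤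
        (C0 ^ 2 + 1) * C4 * K * ((h : ℝ) * k) ^ 2 * Real.exp y := by
    intro y hy
    have hre : ((2 : ℂ) + y * I).re = 2 := by simp
    have him : ((2 : ℂ) + y * I).im = y := by simp
    have a1 : ‖riemannZeta (2 + y * I + η)‖ ≤ C0 := hz _ (by rw [add_re, hre]; linarith)
    have a2 : ‖riemannZeta (2 + y * I)‖ ≤ C0 := hz _ (by rw [hre]; norm_num)
    have a3 : ‖Gamma (2 + y * I)‖ ≤ C4 * (1 + |y|) ^ 3 * Real.exp (-(Real.pi / 2 * |y|)) := by
      have h1 := hG 2 y (by norm_num) (by norm_num)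
      rw [Complex.ofReal_ofNat] at h1
      exact h1
    have a4 := A05_norm_le hε hε1 hh hk (2 + y * I) (by rw [hre]; norm_num) (by rw [hre])
    rw [him] at a4
    have hkey : (1 + |y|) ^ 3 * (Real.exp (-(Real.pi / 2 * |y|)) * Real.exp ((Real.pi / 2 - ε) * y)) ≤
        K * Real.exp y := by
      rw [← Real.exp_add]
      rcases le_or_gt 0 y with h0 | h0
      · rw [abs_of_nonneg h0]
        have e1 : -(Real.pi / 2 * y) + (Real.pi / 2 - ε) * y = -(ε * y) := by ring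
        rw [e1]
        exact A08_pos hU hε h0 hy (by rw [hK]; linarith [Real.exp_pos (1 / 2)]) hK0.le
      · rw [abs_of_neg h0]
        exact A08_neg hε1 h0 (by rw [hK]; linarith [pow_nonneg (show 0 ≤ 3 + 2 * U by linarith) 3])
    rw [norm_mul, norm_mul, norm_mul]
    calc ‖riemannZeta (2 + y * I + η)‖ * ‖riemannZeta (2 + y * I)‖ * ‖Gamma (2 + y * I)‖ *
          ‖(WW ε h k) ^ (-(2 + y * I : ℂ))‖
        ≤ C0 * C0 * (C4 * (1 + |y|) ^ 3 * Real.exp (-(Real.pi / 2 * |y|))) *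
          (((h : ℝ) * k) ^ 2 * Real.exp ((Real.pi / 2 - ε) * y)) := by
          gcongr
      _ = C0 ^ 2 * C4 * ((h : ℝ) * k) ^ 2 * ((1 + |y|) ^ 3 *
          (Real.exp (-(Real.pi / 2 * |y|)) * Real.exp ((Real.pi / 2 - ε) * y))) := by ring
      _ ≤ C0 ^ 2 * C4 * ((h : ℝ) * k) ^ 2 * (K * Real.exp y) :=
          mul_le_mul_of_nonneg_left hkey (by positivity)
      _ ≤ (C0 ^ 2 + 1) * C4 * ((h : ℝ) * k) ^ 2 * (K * Real.exp y) := by
          gcongr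
          linarith
      _ = _ := by ring
  have hexp : IntegrableOn (fun y : ℝ => (C0 ^ 2 + 1) * C4 * K * ((h : ℝ) * k) ^ 2 * Real.exp y)
      (Iic (2 * U + 2)) := (integrableOn_exp_Iic (2 * U + 2)).const_mul _
  refine (norm_integral_le_of_norm_le hexp ?_).trans ?_
  · rw [ae_restrict_iff' measurableSet_Iic]
    exact Filter.Eventually.of_forall (fun y hy => hb y hy)
  · rw [integral_const_mul, integral_exp_Iic]
    exact le_of_eq (by ring)

end LZ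

end F_A08
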