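import Pool.Agent.Lib.MP_0f5a55_nt.V.V02
import Pool.Agent.Lib.MP_0f5a55_nt.V.V10

section F_E06

open Complex MeasureTheory Set Filter Topology
open scoped ComplexConjugate

namespace LZ

theorem E06_floor {a b w : ℝ} (hw : 0 < w) (hab : w ≤ |a - b|) : ⌊a / w⌋ ≠ ⌊b / w⌋ := by
  intro h
  have h1 := Int.abs_sub_lt_one_of_floor_eq_floor h
  rw [← sub_div, abs_div, abs_of_pos hw, div_lt_one hw] at h1
  linarith

theorem E06_card {w T : ℝ} (hw : 0 < w) (hT : 0 ≤ T) {Y : Finset ℝ} (hY : ∀ y ∈ Y, |y| ≤ T)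
    (hS : Sep w Y) : (Y.card : ℝ) ≤ 2 * T / w + 2 := by
  classical
  have hinj : Set.InjOn (fun y : ℝ => ⌊y / w⌋) (Y : Set ℝ) := by
    intro a ha b hb hab
    by_contra hne
    exact E06_floor hw (hS a ha b hb hne) hab
  have h1 : Y.card ≤ (Finset.Icc ⌊-T / w⌋ ⌊T / w⌋).card := by
    rw [← Finset.card_image_of_injOn hinj]
    apply Finset.card_le_card
    intro k hk
    rw [Finset.mem_image] at hk
    obtain ⟨y, hy, rfl⟩ := hk
    have h2 := abs_le.mp (hY y hy)
    rw [Finset.mem_Icc]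
    exact ⟨Int.floor_le_floor (div_le_div_of_nonneg_right h2.1 hw.le),
      Int.floor_le_floor (div_le_div_of_nonneg_right h2.2 hw.le)⟩
  have h3 : ((Finset.Icc ⌊-T / w⌋ ⌊T / w⌋).card : ℝ) ≤ 2 * T / w + 2 := by
    rw [Int.card_Icc]
    have h4 : ⌊-T / w⌋ ≤ ⌊T / w⌋ :=
      Int.floor_le_floor (div_le_div_of_nonneg_right (by linarith) hw.le)
    have h5 : (((⌊T / w⌋ + 1 - ⌊-T / w⌋).toNat : ℤ) : ℝ) = ⌊T / w⌋ + 1 - ⌊-T / w⌋ := by
      rw [Int.toNat_of_nonneg (by linarith)]
      push_cast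
      ring
    have h6 : (((⌊T / w⌋ + 1 - ⌊-T / w⌋).toNat : ℕ) : ℝ) = ⌊T / w⌋ + 1 - ⌊-T / w⌋ := by
      exact_mod_cast h5
    rw [h6]
    have h7 := Int.floor_le (T / w)
    have h8 := Int.lt_floor_add_one (-T / w)
    have h9 : 2 * T / w = T / w - (-T / w) := by ring
    rw [h9]
    linarith
  exact le_trans (by exact_mod_cast h1) h3

/-- the weight of the cell number `j` -/
noncomputable def E06_g (w : ℝ) (j : ℕ) : ℝ := 1 / (1 + w * ((j - 1 : ℕ) : ℝ))

theorem E06_g_nonneg {w : ℝ} (hw : 0 < w) (j : ℕ) : 0 ≤ E06_g w j := by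
  unfold E06_g
  positivity

theorem E06_value {v w : ℝ} (hw : 0 < w) : 1 / (1 + |v|) ≤ E06_g w (⌊v / w⌋.natAbs) := by
  unfold E06_g
  refine one_div_le_one_div_of_le (by positivity) ?_
  have h1 : w * ((⌊v / w⌋.natAbs - 1 : ℕ) : ℝ) ≤ |v| := by
    rcases Nat.eq_zero_or_pos ⌊v / w⌋.natAbs with h0 | h0
    · rw [h0]
      simp
    · have h2 : ((⌊v / w⌋.natAbs - 1 : ℕ) : ℝ) = ((⌊v / w⌋.natAbs : ℕ) : ℝ) - 1 := by
        rw [Nat.cast_sub h0, Nat.cast_one]
      have h3 : ((⌊v / w⌋.natAbs : ℕ) : ℝ) = |((⌊v / w⌋ : ℤ) : ℝ)| := by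
        rw [← Int.cast_abs, ← Int.cast_natCast, Int.natCast_natAbs]
      rw [h2, h3]
      have h4 := Int.floor_le (v / w)
      have h5 := Int.lt_floor_add_one (v / w)
      rw [le_div_iff₀ hw] at h4
      rw [div_lt_iff₀ hw] at h5
      rcases le_total 0 ((⌊v / w⌋ : ℤ) : ℝ) with h6 | h6
      · rw [abs_of_nonneg h6]
        have h7 := le_abs_self v
        nlinarith
      · rw [abs_of_nonpos h6]
        have h7 := neg_abs_le v
        nlinarith
  linarith

/-- the sum over the cells -/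
theorem E06_cells {w : ℝ} (hw : 0 < w) (N : ℕ) (K : Finset ℤ) (hK : ∀ k ∈ K, k.natAbs ≤ N) :
    ∑ k ∈ K, E06_g w k.natAbs ≤ 4 + 2 / w * (1 + Real.log N) := by
  classical
  have h1 : ∑ k ∈ K, E06_g w k.natAbs = ∑ j ∈ Finset.range (N + 1),
      ∑ k ∈ K.filter (fun k => k.natAbs = j), E06_g w k.natAbs := by
    symm
    exact Finset.sum_fiberwise_of_maps_to
      (fun k hk => Finset.mem_range.mpr (Nat.lt_succ_of_le (hK k hk))) _
  have h2 : ∀ j : ℕ, ∑ k ∈ K.filter (fun k => k.natAbs = j), E06_g w k.natAbs ≤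
      2 * E06_g w j := by
    intro j
    have h3 : ∑ k ∈ K.filter (fun k => k.natAbs = j), E06_g w k.natAbs =
        ((K.filter (fun k => k.natAbs = j)).card : ℝ) * E06_g w j := by
      rw [← nsmul_eq_mul, ← Finset.sum_const]
      refine Finset.sum_congr rfl fun k hk => ?_
      rw [(Finset.mem_filter.mp hk).2]
    rw [h3]
    refine mul_le_mul_of_nonneg_right ?_ (E06_g_nonneg hw j)
    have h4 : K.filter (fun k => k.natAbs = j) ⊆ {(j : ℤ), -(j : ℤ)} := by
      intro k hk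
      have h5 := (Finset.mem_filter.mp hk).2
      rw [Finset.mem_insert, Finset.mem_singleton]
      omega
    have h6 := (Finset.card_le_card h4).trans Finset.card_le_two
    exact_mod_cast h6
  have h7 : ∑ j ∈ Finset.range (N + 1), E06_g w j ≤ 2 + 1 / w * (1 + Real.log N) := by
    calc ∑ j ∈ Finset.range (N + 1), E06_g w j ≤ ∑ j ∈ Finset.range (N + 2), E06_g w j :=
          Finset.sum_le_sum_of_subset_of_nonneg (Finset.range_subset_range.mpr (by omega))
            fun j _ _ => E06_g_nonneg hw j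
      _ = (∑ j ∈ Finset.range N, E06_g w (j + 2)) + E06_g w 1 + E06_g w 0 := by
          rw [Finset.sum_range_succ', Finset.sum_range_succ']
      _ ≤ (∑ j ∈ Finset.range N, 1 / w * ((j : ℝ) + 1)⁻¹) + 1 + 1 := by
          refine add_le_add (add_le_add (Finset.sum_le_sum fun j _ => ?_) ?_) ?_
          · unfold E06_g
            have h8 : (((j + 2 - 1 : ℕ)) : ℝ) = (j : ℝ) + 1 := by
              have : j + 2 - 1 = j + 1 := by omega
              rw [this]
              push_cast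
              ring
            rw [h8, ← one_div, one_div_mul_one_div]
            refine one_div_le_one_div_of_le (by positivity) ?_
            linarith
          · unfold E06_g
            simp
          · unfold E06_g
            simp
      _ = 1 / w * (∑ j ∈ Finset.range N, ((j : ℝ) + 1)⁻¹) + 2 := by
          rw [Finset.mul_sum]
          ring
      _ ≤ 1 / w * (1 + Real.log N) + 2 := by
          refine add_le_add (mul_le_mul_of_nonneg_left ?_ (by positivity)) le_rfl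
          have h9 := harmonic_le_one_add_log N
          unfold harmonic at h9
          push_cast at h9
          exact h9
      _ = 2 + 1 / w * (1 + Real.log N) := by ring
  rw [h1]
  calc ∑ j ∈ Finset.range (N + 1), ∑ k ∈ K.filter (fun k => k.natAbs = j), E06_g w k.natAbs
      ≤ ∑ j ∈ Finset.range (N + 1), 2 * E06_g w j := Finset.sum_le_sum fun j _ => h2 j
    _ = 2 * ∑ j ∈ Finset.range (N + 1), E06_g w j := by rw [Finset.mul_sum]
    _ ≤ 2 * (2 + 1 / w * (1 + Real.log N)) := by linarith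
    _ = 4 + 2 / w * (1 + Real.log N) := by ring

/-- the sum over a separated set -/
theorem E06_sum {w : ℝ} (hw : 0 < w) (Y : Finset ℝ) (r c : ℝ)
    (hS : ∀ a ∈ Y, ∀ b ∈ Y, a ≠ b → w ≤ |(r * a + c) - (r * b + c)|) :
    ∑ y ∈ Y, 1 / (1 + |r * y + c|) ≤ 4 + 2 / w * (1 + Real.log (Y.card + 1)) + 1 / w := by
  classical
  have hinj : Set.InjOn (fun y : ℝ => ⌊(r * y + c) / w⌋) (Y : Set ℝ) := by
    intro a ha b hb hab
    by_contra hne
    exact E06_floor hw (hS a ha b hb hne) hab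
  obtain ⟨K, hK⟩ : ∃ K, K = Y.image (fun y : ℝ => ⌊(r * y + c) / w⌋) := ⟨_, rfl⟩
  have hKc : K.card = Y.card := by
    rw [hK]
    exact Finset.card_image_of_injOn hinj
  obtain ⟨N, hN⟩ : ∃ N, N = Y.card + 1 := ⟨_, rfl⟩
  have hN0 : (0 : ℝ) < N := by
    rw [hN]
    positivity
  have h1 : ∑ y ∈ Y, 1 / (1 + |r * y + c|) ≤ ∑ k ∈ K, E06_g w k.natAbs := by
    rw [hK, Finset.sum_image hinj]
    exact Finset.sum_le_sum fun y _ => E06_value hw
  rw [← Finset.sum_filter_add_sum_filter_not K (fun k => k.natAbs ≤ N)] at h1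
  have h2 := E06_cells hw N (K.filter (fun k => k.natAbs ≤ N))
    (fun k hk => (Finset.mem_filter.mp hk).2)
  have h3 : ∑ k ∈ K.filter (fun k => ¬ k.natAbs ≤ N), E06_g w k.natAbs ≤ 1 / w := by
    calc ∑ k ∈ K.filter (fun k => ¬ k.natAbs ≤ N), E06_g w k.natAbs
        ≤ ∑ _k ∈ K.filter (fun k => ¬ k.natAbs ≤ N), 1 / (w * N) := by
          refine Finset.sum_le_sum fun k hk => ?_
          have h4 := (Finset.mem_filter.mp hk).2
          unfold E06_g
          refine one_div_le_one_div_of_le (by positivity) ?_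
          have h5 : N ≤ k.natAbs - 1 := by omega
          have h6 : (N : ℝ) ≤ ((k.natAbs - 1 : ℕ) : ℝ) := by exact_mod_cast h5
          nlinarith
      _ = ((K.filter (fun k => ¬ k.natAbs ≤ N)).card : ℝ) * (1 / (w * N)) := by
          rw [Finset.sum_const, nsmul_eq_mul]
      _ ≤ N * (1 / (w * N)) := by
          refine mul_le_mul_of_nonneg_right ?_ (by positivity)
          have h7 : (K.filter (fun k => ¬ k.natAbs ≤ N)).card ≤ N := by
            refine (Finset.card_le_card (Finset.filter_subset _ _)).trans ?_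
            rw [hKc, hN]
            omega
          exact_mod_cast h7
      _ = 1 / w := by field_simp
  have h8 : Real.log N = Real.log (Y.card + 1) := by
    rw [hN]
    push_cast
    rfl
  rw [h8] at h2
  linarith

/-- a d/log T separated subset of [-T,T]: size, and the sum of 1/(1+|ry+c|). -/
theorem sep_count (r d : ℝ) (hr : r ≠ 0) (hd : 0 < d) : ∃ C T0 : ℝ, 0 < C ∧ 2 ≤ T0 ∧ ∀ T : ℝ, T0 ≤ T →
    ∀ Y : Finset ℝ, (∀ y ∈ Y, |y| ≤ T) → Sep (d / Real.log T) Y → (Y.card : ℝ) ≤ C * T * Real.log T ∧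
    ∀ c : ℝ, ∑ y ∈ Y, 1 / (1 + |r * y + c|) ≤ C * Real.log T ^ 2 := by
  obtain ⟨C1, hC1⟩ : ∃ C1, C1 = 2 / d + 2 := ⟨_, rfl⟩
  have hC10 : 0 < C1 := by rw [hC1]; positivity
  have hr' : 0 < |r| := abs_pos.mpr hr
  obtain ⟨C2, hC2⟩ : ∃ C2, C2 = 4 + 9 / (|r| * d) := ⟨_, rfl⟩
  have hC20 : 0 < C2 := by rw [hC2]; positivity
  have hev : ∀ᶠ T : ℝ in atTop, 2 ≤ T ∧ C1 + 1 ≤ T ∧ 1 ≤ Real.log T := by
    exact (eventually_ge_atTop _).and ((eventually_ge_atTop _).and
      (Real.tendsto_log_atTop.eventually_ge_atTop _))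
  obtain ⟨T0, hT0⟩ := Filter.eventually_atTop.mp hev
  refine ⟨C1 + C2, max T0 2, by positivity, le_max_right _ _, ?_⟩
  intro T hT Y hY hS
  obtain ⟨hT2, hTC, hL1⟩ := hT0 T ((le_max_left _ _).trans hT)
  have hT00 : 0 < T := by linarith
  have hL : 0 < Real.log T := by linarith
  have hδ : 0 < d / Real.log T := by positivity
  have hcard : (Y.card : ℝ) ≤ C1 * T * Real.log T := by
    have h1 := E06_card hδ hT00.le hY hS
    have h2 : 2 * T / (d / Real.log T) = 2 / d * T * Real.log T := by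
      field_simp
    rw [h2] at h1
    have h3 : 1 ≤ T * Real.log T := by nlinarith
    calc (Y.card : ℝ) ≤ 2 / d * T * Real.log T + 2 := h1
      _ ≤ 2 / d * T * Real.log T + 2 * (T * Real.log T) := by linarith
      _ = C1 * T * Real.log T := by rw [hC1]; ring
  refine ⟨hcard.trans ?_, ?_⟩
  · have h1 : 0 ≤ T * Real.log T := by positivity
    nlinarith
  intro c
  obtain ⟨w, hw⟩ : ∃ w, w = |r| * (d / Real.log T) := ⟨_, rfl⟩
  have hw0 : 0 < w := by rw [hw]; positivity
  have hsum := E06_sum hw0 Y r c (by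
    intro a ha b hb hab
    have h1 : (r * a + c) - (r * b + c) = r * (a - b) := by ring
    rw [h1, abs_mul, hw]
    exact mul_le_mul_of_nonneg_left (hS a ha b hb hab) hr'.le)
  have hlog : Real.log (Y.card + 1) ≤ 3 * Real.log T := by
    have h1 : ((Y.card : ℝ) + 1) ≤ T ^ 3 := by
      have h2 : Real.log T ≤ T := (Real.log_le_sub_one_of_pos hT00).trans (by linarith)
      have h3 : C1 * T * Real.log T ≤ C1 * T * T := mul_le_mul_of_nonneg_left h2 (by positivity)
      have h4 : 1 ≤ T ^ 2 := by nlinarith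
      calc (Y.card : ℝ) + 1 ≤ C1 * T * T + T ^ 2 := by linarith
        _ = (C1 + 1) * T ^ 2 := by ring
        _ ≤ T * T ^ 2 := mul_le_mul_of_nonneg_right hTC (by positivity)
        _ = T ^ 3 := by ring
    calc Real.log (Y.card + 1) ≤ Real.log (T ^ 3) := Real.log_le_log (by positivity) h1
      _ = 3 * Real.log T := by
          rw [Real.log_pow]
          norm_num
  have h1w : 1 / w = Real.log T / (|r| * d) := by
    rw [hw]
    field_simp
  have h2w : 2 / w = 2 * (1 / w) := by ring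
  rw [h2w, h1w] at hsum
  have hR : 0 ≤ Real.log T / (|r| * d) := by positivity
  have h5 : 2 * (Real.log T / (|r| * d)) * (1 + Real.log (Y.card + 1)) + Real.log T / (|r| * d) ≤
      9 / (|r| * d) * Real.log T ^ 2 := by
    calc 2 * (Real.log T / (|r| * d)) * (1 + Real.log (Y.card + 1)) + Real.log T / (|r| * d)
        = Real.log T / (|r| * d) * (3 + 2 * Real.log (Y.card + 1)) := by ring
      _ ≤ Real.log T / (|r| * d) * (9 * Real.log T) :=
          mul_le_mul_of_nonneg_left (by linarith) hR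
      _ = 9 / (|r| * d) * Real.log T ^ 2 := by ring
  have h6 : 4 ≤ 4 * Real.log T ^ 2 := by nlinarith
  have h7 : C2 * Real.log T ^ 2 = 4 * Real.log T ^ 2 + 9 / (|r| * d) * Real.log T ^ 2 := by
    rw [hC2]
    ring
  have h8 : 0 ≤ C1 * Real.log T ^ 2 := by positivity
  have h9 : (C1 + C2) * Real.log T ^ 2 = C1 * Real.log T ^ 2 + C2 * Real.log T ^ 2 := by ring
  rw [h9, h7]
  linarith

end LZ

end F_E06

section F_F02

open Complex MeasureTheory Set Filter Topology
open scoped ComplexConjugate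

namespace LZ

private theorem F02_prime {z : ℕ} {S : Finset ℕ} (hS : S ∈ (PP z).powerset) : ∀ p ∈ S, p.Prime := by
  intro p hp
  have := Finset.mem_powerset.1 hS hp
  unfold PP at this
  exact (Finset.mem_filter.1 this).2

private theorem F02_inj {z : ℕ} {S S' : Finset ℕ} (hS : S ∈ (PP z).powerset)
    (hS' : S' ∈ (PP z).powerset) (h : nS S = nS S') : S = S' := by
  have h1 := Nat.primeFactors_prod (F02_prime hS)
  have h2 := Nat.primeFactors_prod (F02_prime hS')
  unfold nS at h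
  rw [← h1, ← h2, h]

private theorem F02_pos {z : ℕ} {S : Finset ℕ} (hS : S ∈ (PP z).powerset) : 0 < nS S := by
  unfold nS
  exact Finset.prod_pos fun p hp => (F02_prime hS p hp).pos

private theorem F02_cf_empty (l : ℝ) : cf 1 l ∅ = 1 := by
  simp [cf, nS, wt]

private theorem F02_one (N : ℕ) (l : ℝ) (hN : 1 ≤ N) : cN N l 1 = 1 := by
  unfold cN
  have : (PP ⌊Real.exp l⌋₊).powerset.filter (fun S => nS S ∣ 1 ∧ 1 / nS S ≤ N ∧ 1 ≤ 1) = {∅} := by
    ext S
    simp only [Finset.mem_filter, Finset.mem_singleton]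
    constructor
    · rintro ⟨hS, h1, -⟩
      rw [Nat.dvd_one] at h1
      apply F02_inj hS (by simp)
      rw [h1]; simp [nS]
    · rintro rfl
      refine ⟨by simp, by simp [nS], ?_, le_rfl⟩
      simpa [nS] using hN
  rw [this, Finset.sum_singleton, F02_cf_empty]

private theorem F02_abs (N : ℕ) (l : ℝ) (n : ℕ) (hl : 0 < l) : |cN N l n| ≤ n.divisors.card := by
  unfold cN
  have h1 := (cf_sum 1 l (by norm_num) le_rfl hl 0).1
  refine (Finset.abs_sum_le_sum_abs _ _).trans ?_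
  refine (Finset.sum_le_sum fun S _ => h1 S).trans ?_
  rw [Finset.sum_const, nsmul_eq_mul, mul_one]
  have : ((PP ⌊Real.exp l⌋₊).powerset.filter (fun S => nS S ∣ n ∧ n / nS S ≤ N ∧ 1 ≤ n)).card ≤
      n.divisors.card := by
    apply Finset.card_le_card_of_injOn nS
    · intro S hS
      have hS' := Finset.mem_filter.1 (Finset.mem_coe.1 hS)
      rw [Finset.mem_coe, Nat.mem_divisors]
      exact ⟨hS'.2.1, by have := hS'.2.2.2; omega⟩
    · intro S hS S' hS' h
      exact F02_inj (Finset.mem_filter.1 (Finset.mem_coe.1 hS)).1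
        (Finset.mem_filter.1 (Finset.mem_coe.1 hS')).1 h
  exact_mod_cast this

private theorem F02_lim (n : ℕ) (hn : 2 ≤ n) (δ : ℝ) (hδ : 0 < δ) :
    ∃ l0 : ℝ, 1 ≤ l0 ∧ ∀ l : ℝ, l0 ≤ l → ∀ N : ℕ, n ≤ N → |cN N l n| ≤ δ := by
  have hne : n.primeFactors.Nonempty := Nat.nonempty_primeFactors.2 (by omega)
  have hwt0 : wt 0 = 1 := by simp [wt]
  have hwc : Continuous wt := by
    unfold wt
    fun_prop
  have hlim : Tendsto (fun l : ℝ => ∑ S ∈ n.primeFactors.powerset, cf 1 l S) atTop (𝓝 0) := by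
    have h0 : (0 : ℝ) = ∑ S ∈ n.primeFactors.powerset, (-1 : ℝ) ^ S.card * wt 0 := by
      rw [← Finset.sum_mul, hwt0, mul_one]
      have := Finset.sum_powerset_neg_one_pow_card_of_nonempty hne
      have h2 : ((∑ m ∈ n.primeFactors.powerset, (-1 : ℤ) ^ m.card : ℤ) : ℝ) = 0 := by
        rw [this]; simp
      push_cast at h2
      exact h2.symm
    rw [h0]
    apply tendsto_finsetSum
    intro S _
    unfold cf
    apply Tendsto.const_mul
    apply (hwc.tendsto 0).comp
    exact tendsto_const_nhds.div_atTop tendsto_id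
  have hev : ∀ᶠ l : ℝ in atTop, |∑ S ∈ n.primeFactors.powerset, cf 1 l S| ≤ δ := by
    have := (hlim.abs).eventually (Iic_mem_nhds (show |(0:ℝ)| < δ by simpa using hδ))
    exact this
  obtain ⟨l1, hl1⟩ := Filter.eventually_atTop.1 hev
  refine ⟨max (max 1 l1) (Real.log n), le_trans (le_max_left _ _) (le_max_left _ _), ?_⟩
  intro l hl N hN
  have hl1' : l1 ≤ l := le_trans (le_trans (le_max_right _ _) (le_max_left _ _)) hl
  have hll : Real.log n ≤ l := le_trans (le_max_right _ _) hl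
  have hn0 : (0 : ℝ) < n := by positivity
  have hnz : n ≤ ⌊Real.exp l⌋₊ := by
    rw [Nat.le_floor_iff (Real.exp_pos l).le]
    calc (n : ℝ) = Real.exp (Real.log n) := (Real.exp_log hn0).symm
      _ ≤ _ := Real.exp_le_exp.2 hll
  have hset : (PP ⌊Real.exp l⌋₊).powerset.filter (fun S => nS S ∣ n ∧ n / nS S ≤ N ∧ 1 ≤ n) =
      n.primeFactors.powerset := by
    ext S
    simp only [Finset.mem_filter]
    constructor
    · rintro ⟨hS, h1, -⟩
      rw [Finset.mem_powerset]
      intro p hp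
      rw [Nat.mem_primeFactors]
      refine ⟨F02_prime hS p hp, (Finset.dvd_prod_of_mem _ hp).trans h1, by omega⟩
    · intro hS
      rw [Finset.mem_powerset] at hS
      refine ⟨?_, ?_, (Nat.div_le_self _ _).trans hN, by omega⟩
      · rw [Finset.mem_powerset]
        intro p hp
        have h1 := Nat.mem_primeFactors.1 (hS hp)
        unfold PP
        rw [Finset.mem_filter, Finset.mem_range]
        refine ⟨?_, h1.1⟩
        have := Nat.le_of_dvd (by omega) h1.2.1
        omega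
      · exact (Finset.prod_dvd_prod_of_subset _ _ _ hS).trans (Nat.prod_primeFactors_dvd n)
  unfold cN
  rw [hset]
  exact hl1 l hl1'

private theorem F02_prod (N : ℕ) (l : ℝ) (s : ℂ) (hl : 0 < l) :
      (∑ n ∈ Finset.Icc 1 N, (n : ℂ) ^ (-s)) * Mol 1 l s =
        ∑ n ∈ Finset.Icc 1 (N * ⌊Real.exp l⌋₊), (cN N l n : ℂ) * (n : ℂ) ^ (-s) := by
  unfold Mol cN
  rw [Finset.sum_mul_sum]
  have hR : ∀ n ∈ Finset.Icc 1 (N * ⌊Real.exp l⌋₊),
      ((∑ S ∈ (PP ⌊Real.exp l⌋₊).powerset.filter (fun S => nS S ∣ n ∧ n / nS S ≤ N ∧ 1 ≤ n),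
        cf 1 l S : ℝ) : ℂ) * (n : ℂ) ^ (-s) =
      ∑ S ∈ (PP ⌊Real.exp l⌋₊).powerset, if (nS S ∣ n ∧ n / nS S ≤ N ∧ 1 ≤ n) then
        (cf 1 l S : ℂ) * (n : ℂ) ^ (-s) else 0 := by
    intro n _
    rw [← Finset.sum_filter]
    push_cast
    rw [Finset.sum_mul]
  rw [Finset.sum_congr rfl hR]
  refine Finset.sum_comm.trans (Eq.trans ?_ Finset.sum_comm)
  apply Finset.sum_congr rfl
  intro S hS
  by_cases hcf : cf 1 l S = 0
  · simp [hcf]
  have hle := ((cf_sum 1 l (by norm_num) le_rfl hl ⌊Real.exp l⌋₊).2.1 S hS hcf).2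
  have hle' : nS S ≤ ⌊Real.exp l⌋₊ := (Nat.le_floor_iff (Real.exp_pos l).le).2 hle
  have hpos := F02_pos hS
  rw [← Finset.sum_filter]
  refine Finset.sum_nbij' (fun m => m * nS S) (fun n => n / nS S) ?_ ?_ ?_ ?_ ?_
  · intro m hm
    rw [Finset.mem_Icc] at hm
    rw [Finset.mem_filter, Finset.mem_Icc]
    have h1 : 1 ≤ m * nS S := Nat.mul_pos (by omega) hpos
    refine ⟨⟨h1, Nat.mul_le_mul hm.2 hle'⟩, Dvd.intro_left _ rfl, ?_, h1⟩
    rw [Nat.mul_div_cancel _ hpos]
    exact hm.2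
  · intro n hn
    rw [Finset.mem_filter, Finset.mem_Icc] at hn
    rw [Finset.mem_Icc]
    refine ⟨?_, hn.2.2.1⟩
    exact Nat.div_pos (Nat.le_of_dvd (by omega) hn.2.1) hpos
  · intro m _
    exact Nat.mul_div_cancel _ hpos
  · intro n hn
    rw [Finset.mem_filter] at hn
    exact Nat.div_mul_cancel hn.2.1
  · intro m _
    rw [Nat.cast_mul, Complex.natCast_mul_natCast_cpow]
    ring

/-- coefficients of (sum over n <= N) times the mollifier. -/
theorem cN_facts : (∀ (N : ℕ) (l : ℝ), 1 ≤ N → 0 < l → cN N l 1 = 1) ∧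
    (∀ (N : ℕ) (l : ℝ) (n : ℕ), 0 < l → |cN N l n| ≤ n.divisors.card) ∧
    (∀ n : ℕ, 2 ≤ n → ∀ δ : ℝ, 0 < δ → ∃ l0 : ℝ, 1 ≤ l0 ∧ ∀ l : ℝ, l0 ≤ l → ∀ N : ℕ, n ≤ N → |cN N l n| ≤ δ) ∧
    (∀ (N : ℕ) (l : ℝ) (s : ℂ), 1 ≤ N → 0 < l →
      (∑ n ∈ Finset.Icc 1 N, (n : ℂ) ^ (-s)) * Mol 1 l s =
        ∑ n ∈ Finset.Icc 1 (N * ⌊Real.exp l⌋₊), (cN N l n : ℂ) * (n : ℂ) ^ (-s)) :=
  ⟨fun N l hN _ => F02_one N l hN, F02_abs, F02_lim, fun N l s _ hl => F02_prod N l s hl⟩

end LZ

end F_F02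

section F_Q07

open Complex MeasureTheory Set Filter Topology
open scoped ComplexConjugate

namespace LZ

theorem Q07_cf (lam l : ℝ) (hl : 0 < l) (z : ℕ) (S : Finset ℕ) (hS : S ⊆ PP z)
    (p : ℕ) (hp : p ∈ S) (hpl : Real.exp l ≤ p) : cf lam l S = 0 := by
  have hpos : 0 < nS S := by
    unfold nS
    apply Finset.prod_pos
    intro q hq
    have := hS hq
    unfold PP at this
    rw [Finset.mem_filter] at this
    exact this.2.pos
  have h1 : p ≤ nS S := Nat.le_of_dvd hpos (Finset.dvd_prod_of_mem _ hp)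
  have h2 : Real.exp l ≤ nS S := hpl.trans (by exact_mod_cast h1)
  have h3 : l ≤ Real.log (nS S) := by
    rw [Real.le_log_iff_exp_le (by exact_mod_cast hpos)]
    exact h2
  have h4 : 1 ≤ Real.log (nS S) / l := by
    rw [le_div_iff₀ hl]
    linarith
  unfold cf wt
  rw [max_eq_left (by linarith)]
  simp

/-- the weight kills every S with nS S >= exp l, in particular every S containing a prime > exp l. -/
theorem QQ_stable (z : ℕ) (lam : Fin 4 → ℝ) (l : ℝ) (hl : 0 < l) (e : Fin 4 → ℂ) (e4 : ℂ)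
    (hz : ⌊Real.exp l⌋₊ ≤ z) : QQ z lam l e e4 = QQ ⌊Real.exp l⌋₊ lam l e e4 := by
  have hPP : PP ⌊Real.exp l⌋₊ ⊆ PP z := by
    intro p hp
    unfold PP at hp ⊢
    rw [Finset.mem_filter, Finset.mem_range] at hp ⊢
    exact ⟨by omega, hp.2⟩
  unfold QQ
  symm
  apply Finset.sum_subset
  · apply Fintype.piFinset_subset
    intro _
    exact Finset.powerset_mono.mpr hPP
  · intro S hS hnS
    rw [Fintype.mem_piFinset] at hS hnS
    push Not at hnS
    obtain ⟨j, hj⟩ := hnS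
    have hSj := Finset.mem_powerset.mp (hS j)
    rw [Finset.mem_powerset, Finset.not_subset] at hj
    obtain ⟨p, hp1, hp2⟩ := hj
    have hpz := hSj hp1
    have hpl : Real.exp l ≤ p := by
      by_contra h
      push Not at h
      apply hp2
      unfold PP at hpz ⊢
      rw [Finset.mem_filter, Finset.mem_range] at hpz ⊢
      exact ⟨Nat.lt_succ_of_le (Nat.le_floor h.le), hpz.2⟩
    have h0 := Q07_cf (lam j) l hl z (S j) hSj p hp1 hpl
    rw [Finset.prod_eq_zero (Finset.mem_univ j) (by rw [h0]; simp), zero_mul]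

end LZ

end F_Q07
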