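import Pool.Agent.Lib.MP_0f5a55_nt.V.V02

section F_Q05

open Complex MeasureTheory Set Filter Topology
open scoped ComplexConjugate

namespace LZ

theorem Q05_ne (u : ℝ) : (1 + (u : ℂ) * I) ≠ 0 := by
  intro h
  have := congrArg Complex.re h
  simp at this

theorem Q05_norm (u : ℝ) : ‖(1 + (u : ℂ) * I) ^ 22‖ = (1 + u ^ 2) ^ 11 := by
  have h1 : ‖(1 + (u : ℂ) * I)‖ ^ 2 = 1 + u ^ 2 := by
    rw [← Complex.normSq_eq_norm_sq, Complex.normSq_apply]
    simp
    ring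
  rw [norm_pow]
  calc ‖(1 + (u : ℂ) * I)‖ ^ 22 = (‖(1 + (u : ℂ) * I)‖ ^ 2) ^ 11 := by ring
    _ = _ := by rw [h1]

theorem kk_facts : Continuous kk ∧ Integrable (fun u : ℝ => ‖kk u‖ * (1 + |u|) ^ 16) := by
  have hcont : Continuous kk := by
    unfold kk
    apply Continuous.mul
    · fun_prop
    · apply Continuous.inv₀
      · fun_prop
      · intro u
        exact pow_ne_zero _ (Q05_ne u)
  refine ⟨hcont, ?_⟩
  set C : ℝ := ‖(Nat.factorial 21 : ℂ) / (2 * Real.pi)‖ * Real.exp 1 with hC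
  have hkn : ∀ u : ℝ, ‖kk u‖ = C * ((1 + u ^ 2) ^ 11)⁻¹ := by
    intro u
    unfold kk
    rw [norm_mul, norm_mul, norm_inv, Q05_norm, Complex.norm_exp, hC]
    congr 3
    simp
  have hI := integrable_inv_one_add_sq.const_mul (C * 2 ^ 8)
  apply hI.mono'
  · exact (hcont.norm.mul (by fun_prop)).aestronglyMeasurable
  · filter_upwards with u
    rw [Real.norm_eq_abs, abs_of_nonneg (by positivity), hkn]
    have hC0 : 0 ≤ C := by rw [hC]; positivity
    have h0 : (0 : ℝ) < 1 + u ^ 2 := by positivity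
    have h1 : (1 + |u|) ^ 2 ≤ 2 * (1 + u ^ 2) := by
      have := sq_abs u
      nlinarith [sq_nonneg (1 - |u|)]
    have h2 : (1 + |u|) ^ 16 ≤ (2 * (1 + u ^ 2)) ^ 8 := by
      calc (1 + |u|) ^ 16 = ((1 + |u|) ^ 2) ^ 8 := by ring
        _ ≤ _ := pow_le_pow_left₀ (by positivity) h1 8
    have h3 : ((1 + u ^ 2) ^ 11)⁻¹ * (2 * (1 + u ^ 2)) ^ 8 ≤ 2 ^ 8 * (1 + u ^ 2)⁻¹ := by
      have e : ((1 + u ^ 2) ^ 11)⁻¹ * (2 * (1 + u ^ 2)) ^ 8 = 2 ^ 8 * ((1 + u ^ 2) ^ 3)⁻¹ := by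
        rw [mul_pow]
        field_simp
      rw [e]
      apply mul_le_mul_of_nonneg_left _ (by norm_num)
      apply inv_anti₀ h0
      have h4 : 1 ≤ 1 + u ^ 2 := by nlinarith [sq_nonneg u]
      calc 1 + u ^ 2 = (1 + u ^ 2) ^ 1 := (pow_one _).symm
        _ ≤ _ := pow_le_pow_right₀ h4 (by norm_num)
    calc C * ((1 + u ^ 2) ^ 11)⁻¹ * (1 + |u|) ^ 16 = C * (((1 + u ^ 2) ^ 11)⁻¹ * (1 + |u|) ^ 16) := by
          ring
      _ ≤ C * (((1 + u ^ 2) ^ 11)⁻¹ * (2 * (1 + u ^ 2)) ^ 8) := by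
          apply mul_le_mul_of_nonneg_left _ hC0
          exact mul_le_mul_of_nonneg_left h2 (by positivity)
      _ ≤ C * (2 ^ 8 * (1 + u ^ 2)⁻¹) := mul_le_mul_of_nonneg_left h3 hC0
      _ = _ := by ring

end LZ

end F_Q05

section F_Q01

open Complex MeasureTheory Set Filter Topology
open scoped ComplexConjugate

namespace LZ

private theorem Q01_gcd_aux (p m n a k : ℕ) (hp : p.Prime) (hm : ¬ p ∣ m) :
    Nat.gcd (p ^ a * m) (p ^ (a + k) * n) = p ^ a * Nat.gcd m n := by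
  rw [pow_add, mul_assoc (p ^ a) (p ^ k) n, Nat.gcd_mul_left]
  congr 1
  exact Nat.Coprime.gcd_mul_left_cancel_right n
    (Nat.Coprime.pow_left k ((Nat.Prime.coprime_iff_not_dvd hp).2 hm))

private theorem Q01_gcd (p m n a b : ℕ) (hp : p.Prime) (hm : ¬ p ∣ m) (hn : ¬ p ∣ n) :
    Nat.gcd (p ^ a * m) (p ^ b * n) = p ^ min a b * Nat.gcd m n := by
  rcases le_total a b with h | h
  · obtain ⟨k, rfl⟩ := Nat.exists_eq_add_of_le h
    rw [min_eq_left h]
    exact Q01_gcd_aux p m n a k hp hm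
  · obtain ⟨k, rfl⟩ := Nat.exists_eq_add_of_le h
    rw [min_eq_right h, Nat.gcd_comm, Nat.gcd_comm m n]
    exact Q01_gcd_aux p n m b k hp hn

private theorem Q01_ndvd (P S : Finset ℕ) (hP : ∀ q ∈ P, q.Prime) (p : ℕ) (hp : p.Prime) (hpP : p ∉ P)
    (hS : S ⊆ P) : ¬ p ∣ nS S := by
  intro h
  unfold nS at h
  obtain ⟨q, hq, hd⟩ := (Nat.Prime.prime hp).exists_mem_finset_dvd h
  have hq' := hP q (hS hq)
  have : p = q := (Nat.prime_dvd_prime_iff_eq hp hq').1 hd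
  exact hpP (this ▸ hS hq)

private theorem Q01_gcdC (p m n a b : ℕ) (hp : p.Prime) (hm : ¬ p ∣ m) (hn : ¬ p ∣ n) (C : ℂ) :
    ((Nat.gcd (p ^ a * m) (p ^ b * n) : ℕ) : ℂ) ^ C
      = ((p : ℂ) ^ C) ^ (min a b) * ((Nat.gcd m n : ℕ) : ℂ) ^ C := by
  rw [Q01_gcd p m n a b hp hm hn, Nat.cast_mul, Complex.natCast_mul_natCast_cpow, Nat.cast_pow]
  congr 1
  rw [← Complex.natCast_cpow_natCast_mul, ← Complex.cpow_nat_mul]

/-- weight of one coordinate -/
private noncomputable def Q01_u (l : ℝ) (A : ℂ) (S : Finset ℕ) : ℂ :=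
  (((-l) ^ S.card : ℝ) : ℂ) * (nS S : ℂ) ^ (-A)

private theorem Q01_nS_insert (p : ℕ) (S : Finset ℕ) (h : p ∉ S) : nS (insert p S) = p * nS S := by
  unfold nS
  rw [Finset.prod_insert h]

private theorem Q01_u_insert (l : ℝ) (A : ℂ) (p : ℕ) (S : Finset ℕ) (h : p ∉ S) :
    Q01_u l A (insert p S) = (-(l : ℂ) * (p : ℂ) ^ (-A)) * Q01_u l A S := by
  unfold Q01_u
  rw [Q01_nS_insert p S h, Finset.card_insert_of_notMem h, Nat.cast_mul,
    Complex.natCast_mul_natCast_cpow, pow_succ]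
  push_cast
  ring

private theorem Q01_nested (P : Finset ℕ) (hP : ∀ p ∈ P, p.Prime) (lam : Fin 4 → ℝ) (A : Fin 4 → ℂ)
    (C : ℂ) :
    ∑ S0 ∈ P.powerset, ∑ S1 ∈ P.powerset, ∑ S2 ∈ P.powerset, ∑ S3 ∈ P.powerset,
      (Q01_u (lam 0) (A 0) S0 * Q01_u (lam 1) (A 1) S1 * Q01_u (lam 2) (A 2) S2
        * Q01_u (lam 3) (A 3) S3) * ((Nat.gcd (nS S0 * nS S1) (nS S2 * nS S3) : ℕ) : ℂ) ^ C
    = ∏ p ∈ P, EP (fun j => -(lam j : ℂ) * (p : ℂ) ^ (-(A j))) ((p : ℂ) ^ C) := by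
  classical
  induction P using Finset.induction_on with
  | empty =>
    simp [Q01_u, nS]
  | insert p P hpP ih =>
    have hp : p.Prime := hP p (Finset.mem_insert_self p P)
    have hP' : ∀ q ∈ P, q.Prime := fun q hq => hP q (Finset.mem_insert_of_mem hq)
    rw [Finset.prod_insert hpP, ← ih hP']
    simp only [Finset.sum_powerset_insert hpP, ← Finset.sum_add_distrib, Finset.mul_sum]
    refine Finset.sum_congr rfl fun S0 h0 => ?_
    refine Finset.sum_congr rfl fun S1 h1 => ?_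
    refine Finset.sum_congr rfl fun S2 h2 => ?_
    refine Finset.sum_congr rfl fun S3 h3 => ?_
    rw [Finset.mem_powerset] at h0 h1 h2 h3
    have n0 : p ∉ S0 := fun h => hpP (h0 h)
    have n1 : p ∉ S1 := fun h => hpP (h1 h)
    have n2 : p ∉ S2 := fun h => hpP (h2 h)
    have n3 : p ∉ S3 := fun h => hpP (h3 h)
    have d01 : ¬ p ∣ nS S0 * nS S1 := by
      rw [Nat.Prime.dvd_mul hp]
      rintro (h | h)
      · exact Q01_ndvd P S0 hP' p hp hpP h0 h
      · exact Q01_ndvd P S1 hP' p hp hpP h1 h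
    have d23 : ¬ p ∣ nS S2 * nS S3 := by
      rw [Nat.Prime.dvd_mul hp]
      rintro (h | h)
      · exact Q01_ndvd P S2 hP' p hp hpP h2 h
      · exact Q01_ndvd P S3 hP' p hp hpP h3 h
    rw [Q01_u_insert _ _ p S0 n0, Q01_u_insert _ _ p S1 n1, Q01_u_insert _ _ p S2 n2,
      Q01_u_insert _ _ p S3 n3, Q01_nS_insert p S0 n0, Q01_nS_insert p S1 n1,
      Q01_nS_insert p S2 n2, Q01_nS_insert p S3 n3]
    generalize hm : nS S0 * nS S1 = m at *
    generalize hn : nS S2 * nS S3 = n at *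
    have e01 : p * nS S0 * nS S1 = p ^ 1 * m := by rw [← hm]; ring
    have e01' : nS S0 * (p * nS S1) = p ^ 1 * m := by rw [← hm]; ring
    have e01'' : p * nS S0 * (p * nS S1) = p ^ 2 * m := by rw [← hm]; ring
    have e23 : p * nS S2 * nS S3 = p ^ 1 * n := by rw [← hn]; ring
    have e23' : nS S2 * (p * nS S3) = p ^ 1 * n := by rw [← hn]; ring
    have e23'' : p * nS S2 * (p * nS S3) = p ^ 2 * n := by rw [← hn]; ring
    rw [e01, e01', e01'', e23, e23', e23'']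
    have g (a b : ℕ) := Q01_gcdC p m n a b hp d01 d23 C
    have g01 := g 0 1
    have g02 := g 0 2
    have g10 := g 1 0
    have g20 := g 2 0
    rw [pow_zero, one_mul] at g01 g02 g10 g20
    rw [g01, g02, g10, g20, g 1 1, g 1 2, g 2 1, g 2 2]
    simp only [EP]
    norm_num
    ring

/-- (2.1) Euler product for the four variable gcd sum, P any finite set of primes. Induction on P (or
Finset.prod_univ_sum): for p not in P, piFinset over powerset (insert p P) splits in 16 parts, and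
gcd(n0 n1, n2 n3) gets the factor p^(min(e0+e1,e2+e3)). -/
theorem euler4 (P : Finset ℕ) (hP : ∀ p ∈ P, p.Prime) (lam : Fin 4 → ℝ) (A : Fin 4 → ℂ) (C : ℂ) :
    ∑ S ∈ Fintype.piFinset (fun _ : Fin 4 => P.powerset),
      (∏ j, (((-(lam j)) ^ (S j).card : ℝ) : ℂ) * (nS (S j) : ℂ) ^ (-(A j))) *
        ((Nat.gcd (nS (S 0) * nS (S 1)) (nS (S 2) * nS (S 3)) : ℕ) : ℂ) ^ C
    = ∏ p ∈ P, EP (fun j => -(lam j : ℂ) * (p : ℂ) ^ (-(A j))) ((p : ℂ) ^ C) := by
  classical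
  rw [← Q01_nested P hP lam A C]
  rw [← Finset.sum_product', ← Finset.sum_product', ← Finset.sum_product']
  refine Finset.sum_bij' (fun S _ => (((S 0, S 1), S 2), S 3))
    (fun x _ => ![x.1.1.1, x.1.1.2, x.1.2, x.2]) ?_ ?_ ?_ ?_ ?_
  · intro S hS
    rw [Fintype.mem_piFinset] at hS
    simp only [Finset.mem_product]
    exact ⟨⟨⟨hS 0, hS 1⟩, hS 2⟩, hS 3⟩
  · intro x hx
    simp only [Finset.mem_product] at hx
    rw [Fintype.mem_piFinset]
    intro j
    fin_cases j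
    · exact hx.1.1.1
    · exact hx.1.1.2
    · exact hx.1.2
    · exact hx.2
  · intro S hS
    ext1 j
    fin_cases j <;> rfl
  · intro x hx
    rfl
  · intro S hS
    simp only [Q01_u, Fin.prod_univ_four]

end LZ

end F_Q01
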