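import Pool.Agent.Lib.MP_0f5a55_nt.V.V02
import Pool.Agent.Lib.MP_0f5a55_nt.V.V13
import Pool.Agent.Lib.MP_0f5a55_nt.V.V36

section F_Q04

open Complex MeasureTheory Set Filter Topology
open scoped ComplexConjugate FourierTransform

namespace LZ

/-- the function `t^21 exp(-t)` on `t > 0` -/
noncomputable def Q04_g (t : ℝ) : ℂ := (((max 0 t) ^ 21 * Real.exp (-t) : ℝ) : ℂ)

/-- its transform -/
noncomputable def Q04_h (u : ℝ) : ℂ := (Nat.factorial 21 : ℂ) * ((1 + (u : ℂ) * I) ^ 22)⁻¹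

theorem Q04_g_cont : Continuous Q04_g := by
  unfold Q04_g
  fun_prop

theorem Q04_g_ind : Q04_g = (Ioi (0 : ℝ)).indicator
    (fun x : ℝ => (x : ℂ) ^ ((22 : ℂ) - 1) * cexp (-(1 * x))) := by
  funext t
  by_cases ht : t ∈ Ioi (0 : ℝ)
  · rw [Set.indicator_of_mem ht]
    have ht0 : 0 < t := ht
    unfold Q04_g
    rw [max_eq_right ht0.le]
    have h1 : (22 : ℂ) - 1 = ((21 : ℕ) : ℂ) := by norm_num
    rw [h1, Complex.cpow_natCast]
    push_cast
    rw [one_mul]
  · rw [Set.indicator_of_notMem ht]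
    have ht0 : t ≤ 0 := not_lt.1 ht
    unfold Q04_g
    rw [max_eq_left ht0]
    simp

theorem Q04_g_int : Integrable Q04_g := by
  rw [Q04_g_ind, integrable_indicator_iff measurableSet_Ioi]
  have h := LZX.exp_int_intg (s := 22) (by norm_num) (W := 1) (by norm_num)
  exact h

theorem Q04_ne (u : ℝ) : (1 + (u : ℂ) * I) ≠ 0 := by
  intro h
  have := congrArg Complex.re h
  simp at this

theorem Q04_h_cont : Continuous Q04_h := by
  unfold Q04_h
  apply Continuous.mul continuous_const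
  apply Continuous.inv₀
  · fun_prop
  · intro u
    exact pow_ne_zero _ (Q04_ne u)

theorem Q04_h_int : Integrable Q04_h := by
  have hI := integrable_inv_one_add_sq.const_mul ‖(Nat.factorial 21 : ℂ)‖
  apply hI.mono' Q04_h_cont.aestronglyMeasurable
  filter_upwards with u
  unfold Q04_h
  rw [norm_mul, norm_inv, norm_pow]
  apply mul_le_mul_of_nonneg_left _ (norm_nonneg _)
  have h1 : ‖(1 + (u : ℂ) * I)‖ ^ 2 = 1 + u ^ 2 := by
    rw [← Complex.normSq_eq_norm_sq, Complex.normSq_apply]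
    simp
    ring
  have h2 : (1 : ℝ) ≤ 1 + u ^ 2 := by nlinarith [sq_nonneg u]
  apply inv_anti₀ (by linarith)
  calc 1 + u ^ 2 = (1 + u ^ 2) ^ 1 := (pow_one _).symm
    _ ≤ (1 + u ^ 2) ^ 11 := pow_le_pow_right₀ h2 (by norm_num)
    _ = ‖(1 + (u : ℂ) * I)‖ ^ 22 := by rw [← h1]; ring

theorem Q04_fourier (w : ℝ) : 𝓕 Q04_g w = Q04_h (2 * Real.pi * w) := by
  rw [Real.fourier_real_eq_integral_exp_smul]
  have h1 : ∀ v : ℝ, cexp (((-2 * Real.pi * v * w : ℝ) : ℂ) * I) • Q04_g v =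
      (Ioi (0 : ℝ)).indicator (fun x : ℝ => (x : ℂ) ^ ((22 : ℂ) - 1) *
        cexp (-((1 + ((2 * Real.pi * w : ℝ) : ℂ) * I) * x))) v := by
    intro v
    rw [Q04_g_ind]
    by_cases hv : v ∈ Ioi (0 : ℝ)
    · rw [Set.indicator_of_mem hv, Set.indicator_of_mem hv, smul_eq_mul]
      have : cexp (-((1 + ((2 * Real.pi * w : ℝ) : ℂ) * I) * v)) =
          cexp (((-2 * Real.pi * v * w : ℝ) : ℂ) * I) * cexp (-(1 * (v : ℂ))) := by
        rw [← Complex.exp_add]
        congr 1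
        push_cast
        ring
      rw [this]; ring
    · rw [Set.indicator_of_notMem hv, Set.indicator_of_notMem hv, smul_zero]
  simp_rw [h1]
  rw [integral_indicator measurableSet_Ioi]
  rw [LZX.exp_int (s := 22) (by norm_num) (W := 1 + ((2 * Real.pi * w : ℝ) : ℂ) * I) (by simp)]
  unfold Q04_h
  have h2 : Gamma (22 : ℂ) = (Nat.factorial 21 : ℂ) := by
    have := Complex.Gamma_nat_eq_factorial 21
    rw [← this]
    congr 1
    norm_num
  have h3 : (1 + ((2 * Real.pi * w : ℝ) : ℂ) * I) ^ (-(22 : ℂ)) =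
      ((1 + ((2 * Real.pi * w : ℝ) : ℂ) * I) ^ 22)⁻¹ := by
    rw [Complex.cpow_neg]
    congr 1
    have : (22 : ℂ) = ((22 : ℕ) : ℂ) := by norm_num
    rw [this, Complex.cpow_natCast]
  rw [h2, h3]
  ring

theorem Q04_inv (X : ℝ) : Q04_g X = ((2 * Real.pi : ℝ) : ℂ)⁻¹ * ∫ u : ℝ, cexp ((u * X : ℝ) * I) * Q04_h u := by
  have hpi : (0 : ℝ) < 2 * Real.pi := Real.two_pi_pos
  have hF : 𝓕 Q04_g = fun w => Q04_h (2 * Real.pi * w) := funext Q04_fourier
  have hFi : Integrable (𝓕 Q04_g) := by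
    rw [hF]
    exact Q04_h_int.comp_mul_left' hpi.ne'
  have h1 := Q04_g_int.fourierInv_fourier_eq hFi (Q04_g_cont.continuousAt (x := X))
  rw [← h1, Real.fourierInv_eq_fourier_neg, Real.fourier_real_eq_integral_exp_smul, hF]
  have h2 : ∀ v : ℝ, cexp (((-2 * Real.pi * v * -X : ℝ) : ℂ) * I) • Q04_h (2 * Real.pi * v) =
      (fun u : ℝ => cexp ((u * X : ℝ) * I) * Q04_h u) (2 * Real.pi * v) := by
    intro v
    simp only [smul_eq_mul]
    congr 2
    push_cast
    ring
  simp_rw [h2]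
  rw [MeasureTheory.Measure.integral_comp_mul_left (fun u : ℝ => cexp ((u * X : ℝ) * I) * Q04_h u),
    abs_of_pos (inv_pos.2 hpi), Complex.real_smul]
  push_cast
  rfl

/-- (0.1): Fourier inversion for g(x) = x^21 exp(-x) on x>0, 0 on x<=0 (continuous, integrable, transform
21!/(1+iu)^22 integrable); with X = 1-x: wt x = integral kk(u) exp(-(1+iu)x) du, for every real x. -/
theorem wt_eq (x : ℝ) : (wt x : ℂ) = ∫ u : ℝ, kk u * exp (-((1 + u * I) * x)) := by
  have h1 : ∀ u : ℝ, kk u * exp (-((1 + u * I) * x)) =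
      cexp (((1 - x : ℝ) : ℂ)) * (((2 * Real.pi : ℝ) : ℂ)⁻¹ *
        (cexp ((u * (1 - x) : ℝ) * I) * Q04_h u)) := by
    intro u
    unfold kk Q04_h
    have h2 : cexp (1 + u * I) * cexp (-((1 + u * I) * x)) =
        cexp (((1 - x : ℝ) : ℂ)) * cexp ((u * (1 - x) : ℝ) * I) := by
      rw [← Complex.exp_add, ← Complex.exp_add]
      congr 1
      push_cast
      ring
    calc _ = (Nat.factorial 21 : ℂ) / (2 * Real.pi) * ((1 + u * I) ^ 22)⁻¹ *
          (cexp (1 + u * I) * cexp (-((1 + u * I) * x))) := by ring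
      _ = _ := by rw [h2]; push_cast; ring
  simp_rw [h1]
  rw [integral_const_mul, integral_const_mul, ← Q04_inv (1 - x)]
  unfold Q04_g wt
  rw [← Complex.ofReal_exp]
  rw [← Complex.ofReal_mul]
  congr 1
  rw [mul_left_comm, ← Real.exp_add]
  simp

end LZ

end F_Q04

section F_Q06

open Complex MeasureTheory Set Filter Topology
open scoped ComplexConjugate

namespace LZ

private theorem Q06_kk_int : Integrable kk := by
  obtain ⟨h1, h2⟩ := kk_facts
  refine h2.mono h1.aestronglyMeasurable (Eventually.of_forall fun u => ?_)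
  rw [Real.norm_of_nonneg (by positivity)]
  have h3 : (1 : ℝ) ≤ (1 + |u|) ^ 16 := one_le_pow₀ (by linarith [abs_nonneg u])
  nlinarith [norm_nonneg (kk u)]

private theorem Q06_phi_int (n : ℕ) (hn : 0 < n) (l : ℝ) (e c : ℂ) :
    Integrable (fun u : ℝ => c * (kk u * (n : ℂ) ^ (-(1 + e + (1 + u * I) / l)))) := by
  apply Integrable.const_mul
  have hn0 : (n : ℂ) ≠ 0 := by exact_mod_cast hn.ne'
  have hcont : Continuous (fun u : ℝ => (n : ℂ) ^ (-(1 + e + (1 + u * I) / l))) := by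
    refine Continuous.const_cpow ?_ (Or.inl hn0)
    fun_prop
  refine Q06_kk_int.mul_bdd (c := (n : ℝ) ^ (-(1 + e.re + 1 / l))) hcont.aestronglyMeasurable
    (Eventually.of_forall fun u => ?_)
  rw [Complex.norm_natCast_cpow_of_pos hn]
  apply le_of_eq
  congr 1
  have : ((1 + (u : ℂ) * I) / (l : ℂ)).re = 1 / l := by
    rw [Complex.div_ofReal_re]
    simp
  simp only [neg_re, add_re, one_re, this]

private theorem Q06_phi_val (n : ℕ) (hn : 0 < n) (l : ℝ) (e : ℂ) :
    (wt (Real.log n / l) : ℂ) * (n : ℂ) ^ (-1 - e) =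
      ∫ u : ℝ, kk u * (n : ℂ) ^ (-(1 + e + (1 + u * I) / l)) := by
  have hn0 : (n : ℂ) ≠ 0 := by exact_mod_cast hn.ne'
  rw [wt_eq, ← integral_mul_const]
  refine integral_congr_ae (Eventually.of_forall fun u => ?_)
  simp only
  rw [mul_assoc]
  congr 1
  rw [Complex.cpow_def_of_ne_zero hn0, Complex.cpow_def_of_ne_zero hn0, ← Complex.exp_add]
  congr 1
  have hlog : Complex.log (n : ℂ) = (Real.log n : ℂ) := (Complex.natCast_log).symm
  rw [hlog]
  push_cast
  ring

/-- Insert wt_eq (x = log n/l) for the four weights, exchange the finite sum with the integral over Fin 4 → ℝ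
(product of four integrals: integral_fintype_prod_eq_prod) and use euler4. -/
theorem QQ_integral (z : ℕ) (lam : Fin 4 → ℝ) (l : ℝ) (hl : 0 < l) (e : Fin 4 → ℂ) (e4 : ℂ) :
    QQ z lam l e e4 = ∫ u : Fin 4 → ℝ, (∏ j, kk (u j)) *
      ∏ p ∈ PP z, EP (fun j => -(lam j : ℂ) * (p : ℂ) ^ (-(Aex l e u j))) ((p : ℂ) ^ (1 + e4)) := by
  have hP : ∀ p ∈ PP z, p.Prime := fun p hp => (Finset.mem_filter.1 hp).2
  have hpos : ∀ S ∈ Fintype.piFinset (fun _ : Fin 4 => (PP z).powerset), ∀ j, 0 < nS (S j) := by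
    intro S hS j
    have h1 := Fintype.mem_piFinset.1 hS j
    rw [Finset.mem_powerset] at h1
    exact Finset.prod_pos fun p hp => (hP p (h1 hp)).pos
  set φ : (Fin 4 → Finset ℕ) → Fin 4 → ℝ → ℂ := fun S j u =>
    (((-(lam j)) ^ (S j).card : ℝ) : ℂ) *
      (kk u * (nS (S j) : ℂ) ^ (-(1 + e j + (1 + u * I) / l))) with hφ
  have hint : ∀ S ∈ Fintype.piFinset (fun _ : Fin 4 => (PP z).powerset), ∀ j,
      Integrable (φ S j) := fun S hS j => Q06_phi_int _ (hpos S hS j) l (e j) _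
  have hval : ∀ S ∈ Fintype.piFinset (fun _ : Fin 4 => (PP z).powerset), ∀ j,
      (cf (lam j) l (S j) : ℂ) * (nS (S j) : ℂ) ^ (-1 - e j) = ∫ u : ℝ, φ S j u := by
    intro S hS j
    rw [hφ]
    simp only
    rw [integral_const_mul, ← Q06_phi_val _ (hpos S hS j) l (e j)]
    unfold cf
    push_cast
    ring
  unfold QQ
  have h1 : ∀ S ∈ Fintype.piFinset (fun _ : Fin 4 => (PP z).powerset),
      (∏ j, (cf (lam j) l (S j) : ℂ) * (nS (S j) : ℂ) ^ (-1 - e j)) *
      ((Nat.gcd (nS (S 0) * nS (S 1)) (nS (S 2) * nS (S 3)) : ℕ) : ℂ) ^ (1 + e4) =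
      ∫ u : Fin 4 → ℝ, (∏ j, φ S j (u j)) *
        ((Nat.gcd (nS (S 0) * nS (S 1)) (nS (S 2) * nS (S 3)) : ℕ) : ℂ) ^ (1 + e4) := by
    intro S hS
    rw [integral_mul_const, integral_fintype_prod_volume_eq_prod (fun j u => φ S j u)]
    congr 1
    exact Finset.prod_congr rfl fun j _ => hval S hS j
  rw [Finset.sum_congr rfl h1, ← integral_finset_sum]
  · refine integral_congr_ae (Eventually.of_forall fun u => ?_)
    simp only
    rw [← euler4 (PP z) hP lam (Aex l e u) (1 + e4), Finset.mul_sum]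
    refine Finset.sum_congr rfl fun S _ => ?_
    rw [← mul_assoc, ← Finset.prod_mul_distrib]
    congr 1
    refine Finset.prod_congr rfl fun j _ => ?_
    rw [hφ]
    simp only [Aex]
    ring
  · intro S hS
    apply Integrable.mul_const
    exact Integrable.fintype_prod_dep (μ := fun _ => volume) (fun j => hint S hS j)

end LZ

end F_Q06
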