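import Mathlib.Algebra.Order.Chebyshev
import Mathlib.AlgebraicTopology.FundamentalGroupoid.SimplyConnected
import Mathlib.Analysis.Complex.AbsMax
import Mathlib.Analysis.Complex.MeanValue
import Mathlib.Analysis.MellinInversion
import Mathlib.Analysis.Normed.Group.Tannery
import Mathlib.Analysis.Real.Pi.Bounds
import Mathlib.Analysis.SpecialFunctions.Log.Summable
import Mathlib.Data.Finset.Functor
import Mathlib.Data.FunLike.Fintype
import Mathlib.Data.Int.Star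
import Mathlib.NumberTheory.Harmonic.Bounds
import Mathlib.NumberTheory.LSeries.Nonvanishing
import Mathlib.NumberTheory.LSeries.SumCoeff
import Mathlib.NumberTheory.ZetaValues
import Mathlib.Order.CompletePartialOrder
import Mathlib.Order.SuccPred.IntervalSucc
import Mathlib.RingTheory.SimpleRing.Principal
import Mathlib.Topology.Separation.CompletelyRegular
import Mathlib.Tactic

section F_D0

open Complex MeasureTheory Set Filter Topology

namespace LZ

/-- weight (1-x)_+^21 -/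
noncomputable def wt (x : ℝ) : ℝ := (max 0 (1 - x)) ^ 21

/-- kernel with wt x = integral of kk u * exp (-(1+iu) x), for x at least 0 -/
noncomputable def kk (u : ℝ) : ℂ :=
  (Nat.factorial 21 : ℂ) / (2 * Real.pi) * exp (1 + u * I) * ((1 + u * I) ^ 22)⁻¹

/-- primes at most z -/
def PP (z : ℕ) : Finset ℕ := (Finset.range (z + 1)).filter Nat.Prime

/-- product of a finite set of numbers -/
def nS (S : Finset ℕ) : ℕ := ∏ p ∈ S, p

/-- mollifier coefficient -/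
noncomputable def cf (lam l : ℝ) (S : Finset ℕ) : ℝ :=
  (-lam) ^ S.card * wt (Real.log (nS S) / l)

/-- mollifier; lam = 1 usual, lam = 1/2 Selberg, lam = 0 constant 1. Length exp l. -/
noncomputable def Mol (lam l : ℝ) (s : ℂ) : ℂ :=
  ∑ S ∈ (PP ⌊Real.exp l⌋₊).powerset, (cf lam l S : ℂ) * (nS S : ℂ) ^ (-s)

/-- prime sum -/
noncomputable def R (s : ℂ) : ℝ := ∑' p : Nat.Primes, ((((p : ℕ) : ℂ)) ^ (-s)).re

/-- truncated prime sum -/
noncomputable def Rz (z : ℕ) (s : ℂ) : ℝ := ∑ p ∈ PP z, ((p : ℂ) ^ (-s)).re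

/-- local Euler factor of the four variable gcd sum -/
noncomputable def EP (x : Fin 4 → ℂ) (c : ℂ) : ℂ :=
  (1 + x 0) * (1 + x 1) + (1 + x 2) * (1 + x 3) - 1
    + c * ((x 0 + x 1) * (x 2 + x 3) + (x 0 + x 1) * (x 2 * x 3) + (x 0 * x 1) * (x 2 + x 3))
    + c ^ 2 * (x 0 * x 1 * x 2 * x 3)

/-- signed combination of values at the exponents -/
noncomputable def SR (F : ℂ → ℝ) (lam : Fin 4 → ℝ) (A : Fin 4 → ℂ) (C : ℂ) : ℝ :=
  -(∑ j, lam j * F (A j)) + (lam 0 * lam 2 * F (A 0 + A 2 - C) + lam 0 * lam 3 * F (A 0 + A 3 - C)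
    + lam 1 * lam 2 * F (A 1 + A 2 - C) + lam 1 * lam 3 * F (A 1 + A 3 - C))

/-- mollified gcd sum -/
noncomputable def QQ (z : ℕ) (lam : Fin 4 → ℝ) (l : ℝ) (e : Fin 4 → ℂ) (e4 : ℂ) : ℂ :=
  ∑ S ∈ Fintype.piFinset (fun _ : Fin 4 => (PP z).powerset),
    (∏ j, (cf (lam j) l (S j) : ℂ) * (nS (S j) : ℂ) ^ (-1 - e j)) *
      ((Nat.gcd (nS (S 0) * nS (S 1)) (nS (S 2) * nS (S 3)) : ℕ) : ℂ) ^ (1 + e4)

/-- exponents after inserting the integral representation of the weights -/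
noncomputable def Aex (l : ℝ) (e : Fin 4 → ℂ) (u : Fin 4 → ℝ) (j : Fin 4) : ℂ :=
  1 + e j + (1 + u j * I) / l

/-- mean over (0,oo) with weight exp(-t/T)/T -/
noncomputable def EE (T : ℝ) (f : ℝ → ℂ) : ℂ :=
  (T : ℂ)⁻¹ * ∫ t in Ioi (0:ℝ), f t * (Real.exp (-t / T) : ℂ)

noncomputable def ER (T : ℝ) (f : ℝ → ℝ) : ℝ :=
  T⁻¹ * ∫ t in Ioi (0:ℝ), f t * Real.exp (-t / T)

noncomputable def f1 (y : ℝ) : ℝ := 1 / (Real.exp y - 1) - Real.exp (-y) / y

noncomputable def Ac (η : ℂ) : ℂ :=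
  -Gamma (1 - η) / η + ∫ y in Ioi (0:ℝ), (y : ℂ) ^ (-η) * (f1 y : ℂ)

/-- double series sum over m,n of m^(-eta) exp(-m n W) -/
noncomputable def DD (η W : ℂ) : ℂ :=
  ∑' m : ℕ, ((m : ℂ) + 1) ^ (-η) * (exp (((m : ℂ) + 1) * W) - 1)⁻¹

/-- 2 pi i exp(-i eps) h / k -/
noncomputable def WW (ε : ℝ) (h k : ℕ) : ℂ := 2 * Real.pi * I * exp (-(ε * I)) * h / k

/-- main term of the twisted second moment -/
noncomputable def mainT (T : ℝ) (α β : ℂ) (h k : ℕ) : ℂ :=
  riemannZeta (1 + (α + β)) * ((h / Nat.gcd h k : ℕ) : ℂ) ^ (-1/2 - β) *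
      ((k / Nat.gcd h k : ℕ) : ℂ) ^ (-1/2 - α)
    + ((2 * Real.pi / T : ℝ) : ℂ) ^ (α + β) * Ac (α + β) *
      ((h / Nat.gcd h k : ℕ) : ℂ) ^ (-1/2 + α) * ((k / Nat.gcd h k : ℕ) : ℂ) ^ (-1/2 + β)

/-- integrand of the master moment -/
noncomputable def XX (lam : Fin 4 → ℝ) (l : ℝ) (α β : ℂ) (τ : Fin 4 → ℂ) (t : ℝ) : ℂ :=
  riemannZeta (1/2 + α + t * I) * riemannZeta (1/2 + β - t * I) *
    (Mol (lam 0) l (1/2 + τ 0 + t * I) * Mol (lam 1) l (1/2 + τ 1 + t * I) *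
      Mol (lam 2) l (1/2 + τ 2 - t * I) * Mol (lam 3) l (1/2 + τ 3 - t * I))

/-- mollified zeta -/
noncomputable def FF (l : ℝ) (s : ℂ) : ℂ := riemannZeta s * Mol 1 l s

/-- convergent Euler product correction for the usual mollifier -/
noncomputable def R1 (A B D : ℂ) : ℂ :=
  ∏' p : Nat.Primes, ((1 - ((p : ℕ) : ℂ) ^ (-A) - ((p : ℕ) : ℂ) ^ (-B) + ((p : ℕ) : ℂ) ^ (-D)) *
    (1 - ((p : ℕ) : ℂ) ^ (-D)) / ((1 - ((p : ℕ) : ℂ) ^ (-A)) * (1 - ((p : ℕ) : ℂ) ^ (-B))))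

/-- Selberg correlation -/
noncomputable def KK (T l : ℝ) (v : ℂ) : ℂ :=
  EE T (XX (fun _ => 1/2) l 0 (-(v * I)) ![0, v * I, 0, -(v * I)])

/-- coefficients of the truncated mollified zeta -/
noncomputable def cN (N : ℕ) (l : ℝ) (n : ℕ) : ℝ :=
  ∑ S ∈ (PP ⌊Real.exp l⌋₊).powerset.filter (fun S => nS S ∣ n ∧ n / nS S ≤ N ∧ 1 ≤ n), cf 1 l S

/-- unimodular phase making zeta real on the critical line -/
noncomputable def uu (t : ℝ) : ℂ := Gammaℝ (1/2 + t * I) / (‖Gammaℝ (1/2 + t * I)‖ : ℂ)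

/-- Hardy function times the absolute square of the Selberg mollifier -/
noncomputable def GG (l : ℝ) (t : ℝ) : ℝ :=
  (uu t * riemannZeta (1/2 + t * I)).re * ‖Mol (1/2) l (1/2 + t * I)‖ ^ 2

/-- ordinates of zeros on the critical line -/
def Gam : Set ℝ := {g : ℝ | riemannZeta (1/2 + g * I) = 0}

/-- d-separated finite set of reals -/
def Sep (d : ℝ) (Y : Finset ℝ) : Prop := ∀ a ∈ Y, ∀ b ∈ Y, a ≠ b → d ≤ |a - b|

end LZ

end F_D0

section F_P03

open Complex MeasureTheory Set Filter Topology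
open scoped ComplexConjugate

namespace LZ

theorem P03_norm (p : Nat.Primes) (s : ℂ) :
    |((((p : ℕ) : ℂ)) ^ (-s)).re| ≤ ((p : ℕ) : ℝ) ^ (-s.re) := by
  refine (abs_re_le_norm _).trans (le_of_eq ?_)
  rw [norm_natCast_cpow_of_pos p.2.pos, neg_re]

theorem P03_real (p : ℕ) (x : ℝ) : (((p : ℂ)) ^ (-(x : ℂ))).re = (p : ℝ) ^ (-x) := by
  rw [← ofReal_neg, ← ofReal_natCast, ← ofReal_cpow (Nat.cast_nonneg p), ofReal_re]

theorem P03_sum {x : ℝ} (hx : 1 < x) : Summable (fun p : Nat.Primes => ((p : ℕ) : ℝ) ^ (-x)) :=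
  Nat.Primes.summable_rpow.2 (by linarith)

theorem P03_R (x : ℝ) : R (x : ℂ) = ∑' p : Nat.Primes, ((p : ℕ) : ℝ) ^ (-x) := by
  unfold R
  exact tsum_congr fun p => P03_real p x

theorem P03_summable {s : ℂ} (hs : 1 < s.re) :
    Summable (fun p : Nat.Primes => ((((p : ℕ) : ℂ)) ^ (-s)).re) :=
  Summable.of_norm_bounded (P03_sum hs) (fun p => P03_norm p s)

/-- the primes up to `z` as a finset of `Nat.Primes` -/
def P03_fin (z : ℕ) : Finset Nat.Primes := Finset.subtype Nat.Prime (PP z)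

theorem P03_fin_sum (z : ℕ) (f : ℕ → ℝ) : ∑ p ∈ P03_fin z, f p = ∑ p ∈ PP z, f p := by
  unfold P03_fin
  refine Finset.sum_subtype_of_mem f ?_
  intro p hp
  exact (Finset.mem_filter.1 hp).2

theorem P03_mem_fin (z : ℕ) (p : Nat.Primes) : p ∈ P03_fin z ↔ (p : ℕ) ∈ PP z :=
  Finset.mem_subtype (p := Nat.Prime)

theorem P03_fin_tendsto : Tendsto P03_fin atTop atTop := by
  refine tendsto_atTop_finset_of_monotone ?_ ?_
  · intro a b hab p hp
    rw [P03_mem_fin] at *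
    unfold PP at *
    rw [Finset.mem_filter, Finset.mem_range] at *
    exact ⟨by omega, hp.2⟩
  · intro p
    refine ⟨p, ?_⟩
    rw [P03_mem_fin]
    unfold PP
    rw [Finset.mem_filter, Finset.mem_range]
    exact ⟨by omega, p.2⟩

/-- elementary facts on R (absolute convergence for Re s > 1, |p^(-s)| = p^(-Re s)). -/
theorem Rz_facts : (∀ x : ℝ, 1 < x → 0 ≤ R (x : ℂ)) ∧ (∀ s : ℂ, 1 < s.re → |R s| ≤ R (s.re : ℂ)) ∧
    (∀ (z : ℕ) (s : ℂ), 1 < s.re → |Rz z s| ≤ R (s.re : ℂ)) ∧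
    (∀ s : ℂ, 1 < s.re → Tendsto (fun z : ℕ => Rz z s) atTop (𝓝 (R s))) ∧
    ContinuousOn R {s : ℂ | 1 < s.re} := by
  refine ⟨fun x _ => ?_, fun s hs => ?_, fun z s hs => ?_, fun s hs => ?_, ?_⟩
  · rw [P03_R]
    exact tsum_nonneg fun p => by positivity
  · rw [P03_R]
    have h1 : ‖∑' p : Nat.Primes, ((((p : ℕ) : ℂ)) ^ (-s)).re‖ ≤
        ∑' p : Nat.Primes, ((p : ℕ) : ℝ) ^ (-s.re) :=
      tsum_of_norm_bounded (P03_sum hs).hasSum (fun p => P03_norm p s)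
    exact h1
  · rw [P03_R]
    unfold Rz
    rw [← P03_fin_sum z (fun p => ((p : ℂ) ^ (-s)).re)]
    calc |∑ p ∈ P03_fin z, (((p : ℕ) : ℂ) ^ (-s)).re|
        ≤ ∑ p ∈ P03_fin z, |(((p : ℕ) : ℂ) ^ (-s)).re| := Finset.abs_sum_le_sum_abs _ _
      _ ≤ ∑ p ∈ P03_fin z, ((p : ℕ) : ℝ) ^ (-s.re) :=
          Finset.sum_le_sum fun p _ => P03_norm p s
      _ ≤ _ := (P03_sum hs).sum_le_tsum _ (fun p _ => by positivity)
  · have h1 := (P03_summable hs).hasSum.comp P03_fin_tendsto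
    refine h1.congr fun z => ?_
    exact P03_fin_sum z (fun p => ((p : ℂ) ^ (-s)).re)
  · intro s hs
    have hs' : 1 < s.re := hs
    refine ContinuousAt.continuousWithinAt ?_
    set x : ℝ := (1 + s.re) / 2 with hx
    have hx1 : 1 < x := by rw [hx]; linarith
    have hxs : x < s.re := by rw [hx]; linarith
    have hopen : IsOpen {w : ℂ | x < w.re} := isOpen_lt continuous_const continuous_re
    have hc : ContinuousOn R {w : ℂ | x < w.re} := by
      unfold R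
      refine continuousOn_tsum (fun p => ?_) (P03_sum hx1) (fun p w hw => ?_)
      · refine Continuous.continuousOn ?_
        refine continuous_re.comp ?_
        exact continuous_const.cpow continuous_neg (fun w => Or.inl (by
          rw [natCast_re]
          exact_mod_cast p.2.pos))
      · have hw' : x < w.re := hw
        refine (P03_norm p w).trans ?_
        exact Real.rpow_le_rpow_of_exponent_le (by exact_mod_cast p.2.one_lt.le) (by linarith)
    exact hc.continuousAt (hopen.mem_nhds hxs)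

end LZ

end F_P03
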