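import Pool.Agent.Lib.MP_0f5a55_nt.V.V01
import Pool.Agent.Lib.MP_0f5a55_nt.V.V02

section F_X_D0

/-!
# Dirichlet L-functions: definitions

`χ` is a Dirichlet character modulo `q`; in the theorems it is primitive and `q > 1`.
-/

open Complex MeasureTheory Set Filter Topology

namespace LX

open LZ

/-- Dirichlet L-function -/
noncomputable def Lf {q : ℕ} [NeZero q] (χ : DirichletCharacter ℂ q) (s : ℂ) : ℂ :=
  DirichletCharacter.LFunction χ s

/-- primes at most z not dividing q -/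
def PQ (q z : ℕ) : Finset ℕ := (PP z).filter (fun p => ¬ p ∣ q)

/-- mollifier; lam = 1 usual, lam = 1/2 Selberg, lam = 0 constant 1. Length exp l. -/
noncomputable def Mol {q : ℕ} (χ : DirichletCharacter ℂ q) (lam l : ℝ) (s : ℂ) : ℂ :=
  ∑ S ∈ (PQ q ⌊Real.exp l⌋₊).powerset, (cf lam l S : ℂ) * χ (nS S) * (nS S : ℂ) ^ (-s)

/-- zeta function without the Euler factors at the primes dividing q -/
noncomputable def zq (q : ℕ) (s : ℂ) : ℂ :=
  riemannZeta s * ∏ p ∈ q.primeFactors, (1 - (p : ℂ) ^ (-s))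

/-- dual constant -/
noncomputable def Aq {q : ℕ} [NeZero q] (χ : DirichletCharacter ℂ q) (η : ℂ) : ℂ :=
  (q : ℂ)⁻¹ * LP.AC χ (χ⁻¹ : DirichletCharacter ℂ q) η

/-- mollified gcd sum over numbers prime to q -/
noncomputable def QQ (q z : ℕ) (lam : Fin 4 → ℝ) (l : ℝ) (e : Fin 4 → ℂ) (e4 : ℂ) : ℂ :=
  ∑ S ∈ Fintype.piFinset (fun _ : Fin 4 => (PQ q z).powerset),
    (∏ j, (cf (lam j) l (S j) : ℂ) * (nS (S j) : ℂ) ^ (-1 - e j)) *
      ((Nat.gcd (nS (S 0) * nS (S 1)) (nS (S 2) * nS (S 3)) : ℕ) : ℂ) ^ (1 + e4)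

/-- main term of the twisted second moment (without the character values) -/
noncomputable def mainT {q : ℕ} [NeZero q] (χ : DirichletCharacter ℂ q) (T : ℝ) (α β : ℂ) (h k : ℕ) : ℂ :=
  zq q (1 + (α + β)) * ((h / Nat.gcd h k : ℕ) : ℂ) ^ (-1/2 - β) *
      ((k / Nat.gcd h k : ℕ) : ℂ) ^ (-1/2 - α)
    + ((2 * Real.pi / (q * T) : ℝ) : ℂ) ^ (α + β) * Aq χ (α + β) *
      ((h / Nat.gcd h k : ℕ) : ℂ) ^ (-1/2 + α) * ((k / Nat.gcd h k : ℕ) : ℂ) ^ (-1/2 + β)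

/-- integrand of the master moment -/
noncomputable def XX {q : ℕ} [NeZero q] (χ : DirichletCharacter ℂ q) (lam : Fin 4 → ℝ) (l : ℝ) (α β : ℂ)
    (τ : Fin 4 → ℂ) (t : ℝ) : ℂ :=
  Lf χ (1/2 + α + t * I) * Lf χ⁻¹ (1/2 + β - t * I) *
    (Mol χ (lam 0) l (1/2 + τ 0 + t * I) * Mol χ (lam 1) l (1/2 + τ 1 + t * I) *
      Mol χ⁻¹ (lam 2) l (1/2 + τ 2 - t * I) * Mol χ⁻¹ (lam 3) l (1/2 + τ 3 - t * I))

/-- mollified L-function -/
noncomputable def FF {q : ℕ} [NeZero q] (χ : DirichletCharacter ℂ q) (l : ℝ) (s : ℂ) : ℂ :=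
  Lf χ s * Mol χ 1 l s

/-- Selberg correlation -/
noncomputable def KK {q : ℕ} [NeZero q] (χ : DirichletCharacter ℂ q) (T l : ℝ) (v : ℂ) : ℂ :=
  EE T (XX χ (fun _ => 1/2) l 0 (-(v * I)) ![0, v * I, 0, -(v * I)])

/-- ordinates of zeros on the critical line -/
def Gam {q : ℕ} [NeZero q] (χ : DirichletCharacter ℂ q) : Set ℝ := {g : ℝ | Lf χ (1/2 + g * I) = 0}

/-- a square root of the root number of the conjugate character -/
noncomputable def cc {q : ℕ} [NeZero q] (χ : DirichletCharacter ℂ q) : ℂ :=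
  (DirichletCharacter.rootNumber χ⁻¹) ^ (1/2 : ℂ)

/-- unimodular phase making the L-function real on the critical line -/
noncomputable def uu {q : ℕ} [NeZero q] (χ : DirichletCharacter ℂ q) (t : ℝ) : ℂ :=
  cc χ * exp ((t / 2 * Real.log q : ℝ) * I) *
    (χ.gammaFactor (1/2 + t * I) / (‖χ.gammaFactor (1/2 + t * I)‖ : ℂ))

/-- Hardy function times the absolute square of the Selberg mollifier -/
noncomputable def GG {q : ℕ} [NeZero q] (χ : DirichletCharacter ℂ q) (l : ℝ) (t : ℝ) : ℝ :=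
  (uu χ t * Lf χ (1/2 + t * I)).re * ‖Mol χ (1/2) l (1/2 + t * I)‖ ^ 2

end LX

end F_X_D0
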