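import Pool.Agent.Lib.MP_0f5a55_nt.V.V01
import Pool.Agent.Lib.MP_0f5a55_nt.V.V04

section F_Y_D0

open Complex MeasureTheory Set Filter Topology
open scoped ComplexConjugate

namespace LP

open LZ (kk nS cf EE ER PP wt Sep)

/-- 2 pi i exp(-i eps) h / (k N) -/
noncomputable def WW (N : ℕ) (ε : ℝ) (h k : ℕ) : ℂ :=
  2 * Real.pi * I * exp (-(ε * I)) * h / (k * N)

/-- sum over m of f(m) m^(-eta) sum over b of g(b)/(exp(m W - 2 pi i b/N) - 1) -/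
noncomputable def DD {N : ℕ} [NeZero N] (f g : ZMod N → ℂ) (η W : ℂ) : ℂ :=
  ∑' m : ℕ, f ((m + 1 : ℕ) : ZMod N) * ((m : ℂ) + 1) ^ (-η) *
    ∑ b : ZMod N, g b * (exp (((m : ℂ) + 1) * W - 2 * Real.pi * I * b.val / N) - 1)⁻¹

/-- Fourier transform with positive sign: FT g n = sum over b of g(b) exp(2 pi i b n/N) -/
noncomputable def FT {N : ℕ} [NeZero N] (g : ZMod N → ℂ) : ZMod N → ℂ := ZMod.dft (fun x => g (-x))

/-- Fourier transform with negative sign -/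
noncomputable def FT' {N : ℕ} [NeZero N] (g : ZMod N → ℂ) : ZMod N → ℂ := ZMod.dft g

/-- residue of a h - b k modulo k N -/
def cab (N h k a b : ℕ) : ℕ := (((a * h : ℕ) - (b * k : ℕ) : ℤ) % ((k * N : ℕ) : ℤ)).toNat

/-- the function of y = m Y attached to a residue c modulo K -/
noncomputable def ph (k K c : ℕ) (y : ℝ) : ℂ :=
  if c = 0 then ((1 / (Real.exp y - 1) - Real.exp (-(k * y)) / y : ℝ) : ℂ)
  else (exp ((y : ℂ) + 2 * Real.pi * I * c / K) - 1)⁻¹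

/-- main term of the twisted second moment for the pair of characters chi, psi -/
noncomputable def mainT {N : ℕ} [NeZero N] (χ ψ : DirichletCharacter ℂ N) (T : ℝ) (α β : ℂ) (h k : ℕ) : ℂ :=
  χ ((k / Nat.gcd h k : ℕ) : ZMod N) * ψ ((h / Nat.gcd h k : ℕ) : ZMod N) *
      (LX.Lf (χ * ψ) (1 + (α + β)) * ((h / Nat.gcd h k : ℕ) : ℂ) ^ (-1/2 - β) *
        ((k / Nat.gcd h k : ℕ) : ℂ) ^ (-1/2 - α))
    + χ⁻¹ ((h / Nat.gcd h k : ℕ) : ZMod N) * ψ⁻¹ ((k / Nat.gcd h k : ℕ) : ZMod N) *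
      ((N : ℂ)⁻¹ * ((2 * Real.pi / (N * T) : ℝ) : ℂ) ^ (α + β) * AC χ ψ (α + β) *
        ((h / Nat.gcd h k : ℕ) : ℂ) ^ (-1/2 + α) * ((k / Nat.gcd h k : ℕ) : ℂ) ^ (-1/2 + β))

/-- two variable mollified gcd sum with characters -/
noncomputable def Q2 {N : ℕ} [NeZero N] (ρ κ : DirichletCharacter ℂ N) (z : ℕ) (l : ℝ) (e e4 : ℂ) : ℂ :=
  ∑ S ∈ (LX.PQ N z).powerset ×ˢ (LX.PQ N z).powerset,
    (cf 1 l S.1 : ℂ) * (cf 1 l S.2 : ℂ) *
      (ρ (nS S.1 : ℕ) * ρ (nS S.2 : ℕ) * κ (Nat.gcd (nS S.1) (nS S.2) : ℕ)) *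
      ((nS S.1 : ℂ) ^ (-1 - e) * (nS S.2 : ℂ) ^ (-1 - e) *
        ((Nat.gcd (nS S.1) (nS S.2) : ℕ) : ℂ) ^ (1 + e4))

/-- local factor: 1 - rho(p) p^(-A) - rho(p) p^(-B) + om(p) p^(-D) -/
noncomputable def loc {N : ℕ} (ρ om : DirichletCharacter ℂ N) (A B D : ℂ) (p : ℕ) : ℂ :=
  1 - ρ (p : ZMod N) * (p : ℂ) ^ (-A) - ρ (p : ZMod N) * (p : ℂ) ^ (-B) + om (p : ZMod N) * (p : ℂ) ^ (-D)

/-- local correction factor -/
noncomputable def cor {N : ℕ} (ρ om : DirichletCharacter ℂ N) (A B D : ℂ) (p : ℕ) : ℂ :=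
  loc ρ om A B D p * (1 - om (p : ZMod N) * (p : ℂ) ^ (-D)) /
    ((1 - ρ (p : ZMod N) * (p : ℂ) ^ (-A)) * (1 - ρ (p : ZMod N) * (p : ℂ) ^ (-B)))

/-- convergent Euler product correction -/
noncomputable def R1 {N : ℕ} (ρ om : DirichletCharacter ℂ N) (A B D : ℂ) : ℂ :=
  ∏' p : Nat.Primes, cor ρ om A B D p

/-- product of two mollified L-functions, integrand of the moment -/
noncomputable def XP {N : ℕ} [NeZero N] (χ ψ : DirichletCharacter ℂ N) (l : ℝ) (α β : ℂ) (t : ℝ) : ℂ :=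
  LX.FF χ l (1/2 + α + t * I) * LX.FF ψ l (1/2 + β - t * I)

end LP

end F_Y_D0
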