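import Pool.Agent.Lib.MP_0f5a55_nt.V.V01
import Pool.Agent.Lib.MP_0f5a55_nt.V.V02
import Pool.Agent.Lib.MP_0f5a55_nt.V.V03
import Pool.Agent.Lib.MP_0f5a55_nt.V.V05
import Pool.Agent.Lib.MP_0f5a55_nt.V.V06

section F_A06

open Complex MeasureTheory Set Filter Topology
open scoped ComplexConjugate

namespace LZ

theorem A06_bd {ε : ℝ} (hε : 0 < ε) (Y : ℝ) : ∃ K : ℝ, 0 ≤ K ∧ ∀ y : ℝ, Y ≤ y →
    (1 + |y|) ^ 5 * Real.exp (-(ε * y)) ≤ K * Real.exp (-(ε / 2) * y) := by
  refine ⟨(10 / ε) ^ 5 * Real.exp (ε / 2 + ε * |Y|), by positivity, ?_⟩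
  intro y hy
  have h0 : 0 ≤ |y| := abs_nonneg y
  have h1 : ε / 10 * (1 + |y|) ≤ Real.exp (ε / 10 * (1 + |y|)) := by
    have := Real.add_one_le_exp (ε / 10 * (1 + |y|)); linarith
  have h2 : 1 + |y| ≤ 10 / ε * Real.exp (ε / 10 * (1 + |y|)) := by
    have h3 : 1 + |y| = 10 / ε * (ε / 10 * (1 + |y|)) := by field_simp
    calc 1 + |y| = 10 / ε * (ε / 10 * (1 + |y|)) := h3
      _ ≤ _ := mul_le_mul_of_nonneg_left h1 (by positivity)
  have h4 : (1 + |y|) ^ 5 ≤ (10 / ε) ^ 5 * Real.exp (ε / 2 * (1 + |y|)) := by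
    calc (1 + |y|) ^ 5 ≤ (10 / ε * Real.exp (ε / 10 * (1 + |y|))) ^ 5 :=
          pow_le_pow_left₀ (by linarith) h2 5
      _ = (10 / ε) ^ 5 * Real.exp (ε / 2 * (1 + |y|)) := by
        rw [mul_pow, ← Real.exp_nat_mul]
        congr 2
        push_cast; ring
  have h5 : |y| ≤ y + 2 * |Y| := by
    rcases le_or_gt 0 y with h | h
    · rw [abs_of_nonneg h]; linarith [abs_nonneg Y]
    · rw [abs_of_neg h]
      have : -Y ≤ |Y| := neg_le_abs Y
      linarith
  calc (1 + |y|) ^ 5 * Real.exp (-(ε * y))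
      ≤ ((10 / ε) ^ 5 * Real.exp (ε / 2 * (1 + |y|))) * Real.exp (-(ε * y)) := by gcongr
    _ = (10 / ε) ^ 5 * Real.exp (ε / 2 * (1 + |y|) + -(ε * y)) := by rw [mul_assoc, ← Real.exp_add]
    _ ≤ (10 / ε) ^ 5 * Real.exp ((ε / 2 + ε * |Y|) + -(ε / 2) * y) := by
      apply mul_le_mul_of_nonneg_left _ (by positivity)
      rw [Real.exp_le_exp]
      nlinarith
    _ = _ := by rw [Real.exp_add, mul_assoc]

/-- shift of a half line; Cauchy on the rectangle [a,b] x [Y,R], R to infinity. -/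
theorem half_shift {a b Y : ℝ} (hab : a ≤ b) {F : ℂ → ℂ}
    (hF : ∀ s : ℂ, a ≤ s.re → s.re ≤ b → Y ≤ s.im → DifferentiableAt ℂ F s) {C ε : ℝ} (hε : 0 < ε)
    (hC : ∀ s : ℂ, a ≤ s.re → s.re ≤ b → Y ≤ s.im → ‖F s‖ ≤ C * (1 + |s.im|) ^ 5 * Real.exp (-(ε * s.im)))
    {D : ℝ} (hD : ∀ x ∈ Icc a b, ‖F (x + Y * I)‖ ≤ D) :
    ‖(∫ y in Ioi Y, F (a + y * I)) - ∫ y in Ioi Y, F (b + y * I)‖ ≤ (b - a) * D := by
  obtain ⟨K, hK0, hK⟩ := A06_bd hε Y
  have hre : ∀ x y : ℝ, ((x : ℂ) + y * I).re = x := fun x y => by simp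
  have him : ∀ x y : ℝ, ((x : ℂ) + y * I).im = y := fun x y => by simp
  have hC0 : 0 ≤ C := by
    have h1 := hC (a + Y * I) (by rw [hre]) (by rw [hre]; exact hab) (by rw [him])
    by_contra hneg
    push Not at hneg
    have h2 : C * (1 + |((a : ℂ) + Y * I).im|) ^ 5 * Real.exp (-(ε * ((a : ℂ) + Y * I).im)) < 0 := by
      rw [him, mul_assoc]
      have h3 : 0 < (1 + |Y|) ^ 5 * Real.exp (-(ε * Y)) := by positivity
      exact mul_neg_of_neg_of_pos hneg h3
    linarith [norm_nonneg (F (a + Y * I))]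
  have hbd : ∀ x ∈ Icc a b, ∀ y : ℝ, Y ≤ y → ‖F (x + y * I)‖ ≤ C * K * Real.exp (-(ε / 2) * y) := by
    intro x hx y hy
    have h1 := hC (x + y * I) (by rw [hre]; exact hx.1) (by rw [hre]; exact hx.2) (by rw [him]; exact hy)
    rw [him] at h1
    calc ‖F (x + y * I)‖ ≤ C * ((1 + |y|) ^ 5 * Real.exp (-(ε * y))) := by rw [← mul_assoc]; exact h1
      _ ≤ C * (K * Real.exp (-(ε / 2) * y)) := mul_le_mul_of_nonneg_left (hK y hy) hC0
      _ = _ := by ring
  have hint : ∀ x ∈ Icc a b, IntegrableOn (fun y : ℝ => F (x + y * I)) (Ioi Y) := by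
    intro x hx
    refine Integrable.mono' ((exp_neg_integrableOn_Ioi Y (half_pos hε)).const_mul (C * K)) ?_ ?_
    · refine ContinuousOn.aestronglyMeasurable (fun y hy => ?_) measurableSet_Ioi
      have h1 : DifferentiableAt ℂ F (x + y * I) :=
        hF _ (by rw [hre]; exact hx.1) (by rw [hre]; exact hx.2) (by rw [him]; exact le_of_lt hy)
      exact (ContinuousAt.comp (f := fun y : ℝ => (x : ℂ) + y * I) (g := F) h1.continuousAt
        (by fun_prop)).continuousWithinAt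
    · rw [ae_restrict_iff' measurableSet_Ioi]
      exact Filter.Eventually.of_forall (fun y hy => hbd x hx y (le_of_lt hy))
  have hrect : ∀ R : ℝ, Y ≤ R →
      (∫ x in a..b, F (x + Y * I)) - (∫ x in a..b, F (x + R * I)) =
        I * ((∫ y in Y..R, F (a + y * I)) - ∫ y in Y..R, F (b + y * I)) := by
    intro R hR
    have h1 := integral_boundary_rect_eq_zero_of_differentiableOn F (a + Y * I) (b + R * I) ?_
    · rw [hre, hre, him, him, smul_eq_mul, smul_eq_mul] at h1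
      linear_combination h1
    · rw [hre, hre, him, him, uIcc_of_le hab, uIcc_of_le hR]
      intro s hs
      exact (hF s hs.1.1 hs.1.2 hs.2.1).differentiableWithinAt
  have ha : a ∈ Icc a b := left_mem_Icc.mpr hab
  have hb : b ∈ Icc a b := right_mem_Icc.mpr hab
  have l1 : Tendsto (fun R : ℝ => ∫ y in Y..R, F (a + y * I)) atTop (𝓝 (∫ y in Ioi Y, F (a + y * I))) :=
    intervalIntegral_tendsto_integral_Ioi Y (hint a ha) tendsto_id
  have l2 : Tendsto (fun R : ℝ => ∫ y in Y..R, F (b + y * I)) atTop (𝓝 (∫ y in Ioi Y, F (b + y * I))) :=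
    intervalIntegral_tendsto_integral_Ioi Y (hint b hb) tendsto_id
  have l3 : Tendsto (fun R : ℝ => ∫ x in a..b, F (x + R * I)) atTop (𝓝 0) := by
    rw [tendsto_zero_iff_norm_tendsto_zero]
    have h1 : Tendsto (fun R : ℝ => C * K * Real.exp (-(ε / 2) * R) * |b - a|) atTop (𝓝 0) := by
      have h2 : Tendsto (fun R : ℝ => Real.exp (-(ε / 2) * R)) atTop (𝓝 0) := by
        rw [Real.tendsto_exp_comp_nhds_zero]
        exact tendsto_id.const_mul_atTop_of_neg (by linarith)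
      have h3 := (h2.const_mul (C * K)).mul_const (|b - a|)
      simpa using h3
    refine squeeze_zero' (Filter.Eventually.of_forall (fun R => norm_nonneg _)) ?_ h1
    filter_upwards [eventually_ge_atTop Y] with R hR
    apply intervalIntegral.norm_integral_le_of_norm_le_const
    intro x hx
    rw [uIoc_of_le hab] at hx
    exact hbd x ⟨le_of_lt hx.1, hx.2⟩ R hR
  have l4 : Tendsto (fun R : ℝ => (∫ x in a..b, F (x + Y * I)) - (∫ x in a..b, F (x + R * I))) atTop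
      (𝓝 ((∫ x in a..b, F (x + Y * I)) - 0)) := l3.const_sub _
  have l5 : Tendsto (fun R : ℝ => I * ((∫ y in Y..R, F (a + y * I)) - ∫ y in Y..R, F (b + y * I))) atTop
      (𝓝 (I * ((∫ y in Ioi Y, F (a + y * I)) - ∫ y in Ioi Y, F (b + y * I)))) :=
    (l1.sub l2).const_mul I
  have l6 : Tendsto (fun R : ℝ => (∫ x in a..b, F (x + Y * I)) - (∫ x in a..b, F (x + R * I))) atTop
      (𝓝 (I * ((∫ y in Ioi Y, F (a + y * I)) - ∫ y in Ioi Y, F (b + y * I)))) := by
    refine l5.congr' ?_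
    filter_upwards [eventually_ge_atTop Y] with R hR
    exact (hrect R hR).symm
  have heq := tendsto_nhds_unique l4 l6
  rw [sub_zero] at heq
  have hnorm : ‖(∫ y in Ioi Y, F (a + y * I)) - ∫ y in Ioi Y, F (b + y * I)‖ =
      ‖∫ x in a..b, F (x + Y * I)‖ := by
    rw [heq, norm_mul, norm_I, one_mul]
  rw [hnorm]
  have hfin : ‖∫ x in a..b, F (x + Y * I)‖ ≤ D * |b - a| := by
    apply intervalIntegral.norm_integral_le_of_norm_le_const
    intro x hx
    rw [uIoc_of_le hab] at hx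
    exact hD x ⟨le_of_lt hx.1, hx.2⟩
  rw [abs_of_nonneg (by linarith : 0 ≤ b - a)] at hfin
  linarith

end LZ

end F_A06

section F_Y_JF

open Complex MeasureTheory Set Filter Topology
open scoped ComplexConjugate

namespace LP

variable {N : ℕ} [NeZero N]

private theorem JF_exp (a b : ZMod N) (hab : a ≠ b) : ∃ c : ℕ, 1 ≤ c ∧ c < N ∧ ∀ y : ℝ,
    exp ((y : ℂ) + 2 * Real.pi * I * ((a.val : ℂ) - b.val) / N) = exp ((y : ℂ) + 2 * Real.pi * I * c / N) := by
  have hN : 0 < N := Nat.pos_of_ne_zero (NeZero.ne N)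
  have hNC : (N : ℂ) ≠ 0 := by exact_mod_cast hN.ne'
  have h1 := ZMod.val_lt a
  have h2 := ZMod.val_lt b
  have h3 : a.val ≠ b.val := fun h => hab (ZMod.val_injective N h)
  rcases lt_or_gt_of_ne h3 with h | h
  · refine ⟨a.val + N - b.val, by omega, by omega, fun y => ?_⟩
    rw [Nat.cast_sub (by omega), Nat.cast_add]
    have e : (y : ℂ) + 2 * Real.pi * I * ((a.val : ℂ) + N - b.val) / N =
        ((y : ℂ) + 2 * Real.pi * I * ((a.val : ℂ) - b.val) / N) + 2 * Real.pi * I := by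
      field_simp
      ring
    rw [e, exp_periodic]
  · refine ⟨a.val - b.val, by omega, by omega, fun y => ?_⟩
    rw [Nat.cast_sub (by omega)]

/-- the regularised function and its integral are bounded -/
theorem JF_bound (f g : ZMod N → ℂ) : ∃ C : ℝ, 0 < C ∧
    (∀ y : ℝ, 0 < y → ‖PF f g y - Sf f g * ((Real.exp (-y) / y : ℝ) : ℂ)‖ ≤ C * Real.exp (-y / 2)) ∧
    ∀ η : ℂ, |η.re| ≤ 1/8 → ‖JF f g η‖ ≤ C := by
  obtain ⟨C0, hC0, h0⟩ := LZ.phi0_bounds
  have key : ∀ a b : ZMod N, ∃ K : ℝ, 0 ≤ K ∧ ∀ y : ℝ, 0 < y →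
      ‖(exp ((y : ℂ) + 2 * Real.pi * I * ((a.val : ℂ) - b.val) / N) - 1)⁻¹ -
        (if a = b then ((Real.exp (-y) / y : ℝ) : ℂ) else 0)‖ ≤ K * Real.exp (-y / 2) := by
    intro a b
    by_cases hab : a = b
    · refine ⟨C0, hC0.le, fun y hy => ?_⟩
      rw [if_pos hab, hab]
      have h1 := (h0 1 le_rfl y hy).2.1
      simp only [Nat.cast_one, one_mul, one_pow, mul_one] at h1
      have e : (exp ((y : ℂ) + 2 * Real.pi * I * ((b.val : ℂ) - b.val) / N) - 1)⁻¹ -
          ((Real.exp (-y) / y : ℝ) : ℂ) = ((1 / (Real.exp y - 1) - Real.exp (-y) / y : ℝ) : ℂ) := by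
        push_cast
        rw [sub_self, mul_zero, zero_div, add_zero, one_div]
      rw [e, Complex.norm_real, Real.norm_eq_abs]
      exact h1
    · obtain ⟨c, hc1, hc2, hc⟩ := JF_exp a b hab
      refine ⟨4 * (N : ℝ) ^ 2, by positivity, fun y hy => ?_⟩
      rw [if_neg hab, sub_zero, hc y]
      exact (LZ.fz_off hc1 hc2 hy.le).2.1
  choose K hK0 hK using key
  set B : ℝ := ∑ a : ZMod N, ∑ b : ZMod N, ‖f a * g b‖ * K a b with hB
  have hB0 : 0 ≤ B := Finset.sum_nonneg fun a _ => Finset.sum_nonneg fun b _ =>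
    mul_nonneg (norm_nonneg _) (hK0 a b)
  have h1 : ∀ y : ℝ, 0 < y → ‖PF f g y - Sf f g * ((Real.exp (-y) / y : ℝ) : ℂ)‖ ≤ B * Real.exp (-y / 2) := by
    intro y hy
    have e : PF f g y - Sf f g * ((Real.exp (-y) / y : ℝ) : ℂ) = ∑ a : ZMod N, ∑ b : ZMod N,
        f a * g b * ((exp ((y : ℂ) + 2 * Real.pi * I * ((a.val : ℂ) - b.val) / N) - 1)⁻¹ -
        (if a = b then ((Real.exp (-y) / y : ℝ) : ℂ) else 0)) := by
      have e1 : Sf f g * ((Real.exp (-y) / y : ℝ) : ℂ) = ∑ a : ZMod N, ∑ b : ZMod N,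
          f a * g b * (if a = b then ((Real.exp (-y) / y : ℝ) : ℂ) else 0) := by
        unfold Sf
        rw [Finset.sum_mul]
        refine Finset.sum_congr rfl fun a _ => ?_
        rw [Finset.sum_eq_single a]
        · rw [if_pos rfl]
        · intro b _ hb
          rw [if_neg (Ne.symm hb), mul_zero]
        · intro h
          exact absurd (Finset.mem_univ a) h
      rw [e1]
      unfold PF
      rw [← Finset.sum_sub_distrib]
      refine Finset.sum_congr rfl fun a _ => ?_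
      rw [← Finset.sum_sub_distrib]
      refine Finset.sum_congr rfl fun b _ => ?_
      ring
    rw [e, hB, Finset.sum_mul]
    refine (norm_sum_le _ _).trans (Finset.sum_le_sum fun a _ => ?_)
    rw [Finset.sum_mul]
    refine (norm_sum_le _ _).trans (Finset.sum_le_sum fun b _ => ?_)
    rw [norm_mul (f a * g b)]
    exact (mul_le_mul_of_nonneg_left (hK a b y hy) (norm_nonneg (f a * g b))).trans (le_of_eq (by ring))
  have hi : ∀ s : ℝ, -1 < s → IntegrableOn (fun y : ℝ => y ^ s * Real.exp (-y / 2)) (Ioi 0) := by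
    intro s hs
    have := integrableOn_rpow_mul_exp_neg_mul_rpow (p := 1) (s := s) (b := 1/2) hs (by norm_num) (by norm_num)
    refine this.congr_fun (fun y _ => ?_) measurableSet_Ioi
    simp only [Real.rpow_one]
    congr 2
    ring
  have hdom : IntegrableOn (fun y : ℝ => B * (y ^ (-(1/8) : ℝ) * Real.exp (-y / 2) + y ^ (1/8 : ℝ) * Real.exp (-y / 2)))
      (Ioi 0) := ((hi _ (by norm_num)).add (hi _ (by norm_num))).const_mul B
  set D : ℝ := ∫ y in Ioi (0:ℝ), B * (y ^ (-(1/8) : ℝ) * Real.exp (-y / 2) + y ^ (1/8 : ℝ) * Real.exp (-y / 2)) with hD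
  have h2 : ∀ η : ℂ, |η.re| ≤ 1/8 → ‖JF f g η‖ ≤ D := by
    intro η hη
    unfold JF
    rw [hD]
    refine norm_integral_le_of_norm_le hdom ?_
    filter_upwards [ae_restrict_mem measurableSet_Ioi] with y hy
    have hy0 : (0:ℝ) < y := hy
    rw [norm_mul, Complex.norm_cpow_eq_rpow_re_of_pos hy0, Complex.neg_re]
    have hre := abs_le.mp hη
    have h3 : y ^ (-η.re) ≤ y ^ (-(1/8) : ℝ) + y ^ (1/8 : ℝ) := by
      rcases le_or_gt y 1 with h | h
      · have := Real.rpow_le_rpow_of_exponent_ge hy0 h (show -(1/8 : ℝ) ≤ -η.re by linarith)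
        have h4 : 0 ≤ y ^ (1/8 : ℝ) := by positivity
        linarith
      · have := Real.rpow_le_rpow_of_exponent_le h.le (show -η.re ≤ (1/8 : ℝ) by linarith)
        have h4 : 0 ≤ y ^ (-(1/8) : ℝ) := by positivity
        linarith
    calc y ^ (-η.re) * ‖PF f g y - Sf f g * ((Real.exp (-y) / y : ℝ) : ℂ)‖
        ≤ (y ^ (-(1/8) : ℝ) + y ^ (1/8 : ℝ)) * (B * Real.exp (-y / 2)) :=
          mul_le_mul h3 (h1 y hy0) (norm_nonneg _) (by positivity)
      _ = _ := by ring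
  refine ⟨max B D + 1, by have := le_max_left B D; linarith, fun y hy => (h1 y hy).trans ?_, fun η hη => (h2 η hη).trans ?_⟩
  · exact mul_le_mul_of_nonneg_right (by have := le_max_left B D; linarith) (Real.exp_pos _).le
  · have := le_max_right B D
    linarith

end LP

end F_Y_JF

section F_Y_B07

open Complex MeasureTheory Set Filter Topology
open scoped ComplexConjugate

namespace LP

open LZ (kk nS cf EE ER PP wt Sep)

variable {N : ℕ} [NeZero N]

private theorem B07_sum_le {σ : ℝ} (hσ : 1 < σ) (hσ2 : σ ≤ 2) :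
    ∑' n : ℕ, 1 / ((n : ℝ) + 1) ^ σ ≤ 2 / (σ - 1) := by
  have h := ZetaAsymptotics.zeta_limit_aux1 hσ
  have h0 : 0 ≤ ZetaAsymptotics.termTSum σ := by
    unfold ZetaAsymptotics.termTSum
    exact tsum_nonneg fun n => ZetaAsymptotics.term_nonneg _ _
  have h1 : 0 ≤ σ * ZetaAsymptotics.termTSum σ := mul_nonneg (by linarith) h0
  have h2 : 1 ≤ 1 / (σ - 1) := by
    rw [le_div_iff₀ (by linarith)]
    linarith
  have h3 : 2 / (σ - 1) = 1 / (σ - 1) + 1 / (σ - 1) := by ring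
  rw [h3]
  linarith

private theorem B07_LSeries {f : ℕ → ℂ} (hf : ∀ n, ‖f n‖ ≤ 1) {s : ℂ} (h1 : 1 < s.re)
    (h2 : s.re ≤ 2) : ‖LSeries f s‖ ≤ 2 / (s.re - 1) := by
  have hs : Summable fun n : ℕ => 1 / ((n : ℝ) + 1) ^ s.re := by
    have := (summable_nat_add_iff 1).mpr (Real.summable_one_div_nat_rpow.mpr h1)
    simpa using this
  have hb : ∀ n : ℕ, ‖LSeries.term f s (n + 1)‖ ≤ 1 / ((n : ℝ) + 1) ^ s.re := by
    intro n
    rw [LSeries.norm_term_eq, if_neg (Nat.succ_ne_zero n)]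
    push_cast
    have : 0 < ((n : ℝ) + 1) ^ s.re := by positivity
    exact div_le_div_of_nonneg_right (hf _) this.le
  have hsn : Summable fun n : ℕ => ‖LSeries.term f s (n + 1)‖ :=
    Summable.of_nonneg_of_le (fun _ => norm_nonneg _) hb hs
  have hsf : Summable fun n : ℕ => LSeries.term f s n :=
    (summable_nat_add_iff 1).mp hsn.of_norm
  have h3 : LSeries f s = ∑' n : ℕ, LSeries.term f s (n + 1) := by
    rw [LSeries, hsf.tsum_eq_zero_add, LSeries.term_zero, zero_add]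
  rw [h3]
  refine (norm_tsum_le_tsum_norm hsn).trans ?_
  exact (hsn.tsum_le_tsum hb hs).trans (B07_sum_le h1 h2)

/-- trivial two sided bounds for L-functions to the right of 1: |L(s,chi)|, |L(s,chi)|^-1 <= C/(Re s - 1), absolute C. -/
theorem L_trivial : ∃ C : ℝ, 0 < C ∧ ∀ (M : ℕ) [NeZero M] (χ : DirichletCharacter ℂ M) (s : ℂ), 1 < s.re → s.re ≤ 2 →
    ‖LX.Lf χ s‖ ≤ C / (s.re - 1) ∧ ‖LX.Lf χ s‖⁻¹ ≤ C / (s.re - 1) := by
  refine ⟨2, two_pos, fun M _ χ s h1 h2 => ?_⟩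
  have e : LX.Lf χ s = LSeries (fun n : ℕ => χ n) s := DirichletCharacter.LFunction_eq_LSeries χ h1
  rw [e]
  refine ⟨B07_LSeries (fun n => χ.norm_le_one _) h1 h2, ?_⟩
  have h3 := DirichletCharacter.LSeries.mul_mu_eq_one χ h1
  have h4 : ‖LSeries (fun n : ℕ => χ n) s‖⁻¹ =
      ‖LSeries ((fun n : ℕ => χ n) * fun n => (ArithmeticFunction.moebius n : ℂ)) s‖ := by
    rw [← norm_inv, inv_eq_of_mul_eq_one_right h3]
  rw [h4]
  refine B07_LSeries (fun n => ?_) h1 h2
  rw [Pi.mul_apply, norm_mul]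
  have h5 : ‖(ArithmeticFunction.moebius n : ℂ)‖ ≤ 1 := by
    rw [Complex.norm_intCast]
    exact_mod_cast ArithmeticFunction.abs_moebius_le_one
  exact mul_le_one₀ (χ.norm_le_one _) (norm_nonneg _) h5

end LP

end F_Y_B07

section F_P07

open Complex MeasureTheory Set Filter Topology
open scoped ComplexConjugate

namespace LZ

theorem P07_compact (u0 : ℝ) (hu : u0 ≠ 0) : ∃ M : ℝ, 0 < M ∧ ∀ w : ℂ, 0 ≤ w.re → w.re ≤ 1 →
    |w.im - u0| ≤ |u0| / 2 → ‖riemannZeta (1 + w)‖ ≤ M ∧ ‖riemannZeta (1 + w)‖⁻¹ ≤ M := by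
  have hu0 : 0 < |u0| := abs_pos.2 hu
  set S : Set ℂ := {w : ℂ | 0 ≤ w.re ∧ w.re ≤ 1 ∧ |w.im - u0| ≤ |u0| / 2} with hS
  have hScomp : IsCompact S := by
    rw [Metric.isCompact_iff_isClosed_bounded]
    constructor
    · have h1 : IsClosed {w : ℂ | 0 ≤ w.re} := isClosed_le continuous_const Complex.continuous_re
      have h2 : IsClosed {w : ℂ | w.re ≤ 1} := isClosed_le Complex.continuous_re continuous_const
      have h3 : IsClosed {w : ℂ | |w.im - u0| ≤ |u0| / 2} :=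
        isClosed_le ((Complex.continuous_im.sub continuous_const).abs) continuous_const
      exact h1.inter (h2.inter h3)
    · rw [isBounded_iff_forall_norm_le]
      refine ⟨1 + 2 * |u0|, fun w hw => ?_⟩
      obtain ⟨h1, h2, h3⟩ := hw
      refine (Complex.norm_le_abs_re_add_abs_im w).trans ?_
      rw [abs_of_nonneg h1]
      have h4 : |w.im| ≤ |w.im - u0| + |u0| := by
        have := abs_add_le (w.im - u0) u0
        simpa using this
      linarith
  have hne : ∀ w ∈ S, (1 + w) ≠ 1 ∧ riemannZeta (1 + w) ≠ 0 := by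
    rintro w ⟨h1, h2, h3⟩
    constructor
    · intro h
      have h4 : w = 0 := by
        have := congrArg (fun z => z - 1) h
        simpa using this
      rw [h4] at h3
      simp at h3
      linarith
    · apply riemannZeta_ne_zero_of_one_le_re
      rw [Complex.add_re, Complex.one_re]
      linarith
  have hcont : ContinuousOn (fun w : ℂ => riemannZeta (1 + w)) S := by
    intro w hw
    apply ContinuousAt.continuousWithinAt
    exact ContinuousAt.comp (f := fun w : ℂ => 1 + w)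
      (differentiableAt_riemannZeta (hne w hw).1).continuousAt
      (continuousAt_const.add continuousAt_id)
  obtain ⟨M1, hM1⟩ := hScomp.exists_bound_of_continuousOn hcont
  obtain ⟨M2, hM2⟩ := hScomp.exists_bound_of_continuousOn
    (hcont.inv₀ fun w hw => (hne w hw).2)
  refine ⟨max 1 (max M1 M2), by positivity, ?_⟩
  intro w h1 h2 h3
  have hw : w ∈ S := ⟨h1, h2, h3⟩
  constructor
  · exact (hM1 w hw).trans ((le_max_left _ _).trans (le_max_right _ _))
  · have := hM2 w hw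
    rw [Pi.inv_apply, norm_inv] at this
    exact this.trans ((le_max_right _ _).trans (le_max_right _ _))

private theorem P07_a {x A B v : ℝ} (h : x ≤ A) (hA : 0 ≤ A) (hB : 0 ≤ B) (hv : 0 ≤ v) :
    x ≤ (A + B) * (1 + v) := by
  have h1 := mul_nonneg hA hv
  have h2 := mul_nonneg hB hv
  have h3 : (A + B) * (1 + v) = A + B + A * v + B * v := by ring
  linarith

private theorem P07_b {C l x : ℝ} (hC : 0 < C) (hl : 0 < l) (hx : 1 / l / 2 ≤ x) :
    C / x ≤ C * (2 * l) := by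
  have hx0 : 0 < x := lt_of_lt_of_le (by positivity) hx
  rw [div_le_iff₀ hx0]
  have h1 : 1 ≤ 2 * l * x := by
    have h2 := mul_le_mul_of_nonneg_left hx (show 0 ≤ 2 * l by positivity)
    have e2 : 2 * l * (1 / l / 2) = 1 := by field_simp
    rwa [e2] at h2
  calc C = C * 1 := (mul_one C).symm
    _ ≤ C * (2 * l * x) := mul_le_mul_of_nonneg_left h1 hC.le
    _ = C * (2 * l) * x := by ring

private theorem P07_c {l u v : ℝ} (hl : 0 < l) (hu : 0 < u) (hv : u / 2 < v / l) :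
    l ≤ 2 * v / u := by
  rw [le_div_iff₀ hu]
  rw [div_lt_div_iff₀ two_pos hl] at hv
  linarith

private theorem P07_d {x A C l u v z : ℝ} (h1 : x ≤ C / z) (h2 : C / z ≤ C * (2 * l))
    (h3 : l ≤ 2 * v / u) (hA : 0 ≤ A) (hC : 0 ≤ C) (hu : 0 ≤ u) (hv : 0 ≤ v) :
    x ≤ (A + C * 4 / u) * (1 + v) := by
  have g6 : C * (2 * l) ≤ C * 4 / u * v := by
    have : C * (2 * l) ≤ C * (2 * (2 * v / u)) :=
      mul_le_mul_of_nonneg_left (mul_le_mul_of_nonneg_left h3 zero_le_two) hC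
    refine this.trans (le_of_eq ?_)
    ring
  have g7 : 0 ≤ C * 4 / u := div_nonneg (mul_nonneg hC (by norm_num)) hu
  have g8 : 0 ≤ A * (1 + v) := mul_nonneg hA (add_nonneg zero_le_one hv)
  have g9 : (A + C * 4 / u) * (1 + v) = A * (1 + v) + C * 4 / u + C * 4 / u * v := by ring
  linarith

private theorem P07_dv (c v l : ℝ) : ((c : ℂ) + v * I) / l = ((c / l : ℝ) : ℂ) +
    ((v / l : ℝ) : ℂ) * I := by
  push_cast
  ring

private theorem P07_r0 {a c l : ℝ} (hl : 3 ≤ l) (hc : 1 ≤ c) (hc2 : c ≤ 2)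
    (h1 : |a| ≤ 1 / (8 * l)) : 1 / l / 2 ≤ a + c / l ∧ a + c / l ≤ 1 := by
  have hl0 : 0 < l := by linarith
  have h1 := abs_le.1 h1
  have h8 : 1 / (8 * l) = (1 / l) / 8 := by field_simp
  have hil : 0 < 1 / l := one_div_pos.mpr hl0
  have hil3 : 1 / l ≤ 1 / 3 := one_div_le_one_div_of_le (by norm_num) hl
  have hcl1 : 1 / l ≤ c / l := div_le_div_of_nonneg_right hc hl0.le
  have hcl2 : c / l ≤ 2 / l := div_le_div_of_nonneg_right hc2 hl0.le
  have h2l : 2 / l = 2 * (1 / l) := by ring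
  exact ⟨by linarith [h1.1], by linarith [h1.2]⟩

private theorem P07_R {z : ℂ} {C1 M : ℝ} (hz : riemannZeta z ≠ 0)
    (h : |R z - Real.log ‖riemannZeta z‖| ≤ C1) (g1 : ‖riemannZeta z‖ ≤ M)
    (g2 : ‖riemannZeta z‖⁻¹ ≤ M) : Real.exp |R z| ≤ Real.exp C1 * M := by
  have hzp : 0 < ‖riemannZeta z‖ := norm_pos_iff.2 hz
  have g3 := abs_le.1 h
  rcases abs_cases (R z) with ⟨h, -⟩ | ⟨h, -⟩
  · rw [h]
    calc Real.exp (R z) ≤ Real.exp (C1 + Real.log ‖riemannZeta z‖) :=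
          Real.exp_le_exp.2 (by linarith [g3.2])
      _ = Real.exp C1 * ‖riemannZeta z‖ := by rw [Real.exp_add, Real.exp_log hzp]
      _ ≤ _ := mul_le_mul_of_nonneg_left g1 (Real.exp_pos _).le
  · rw [h]
    calc Real.exp (-R z) ≤ Real.exp (C1 + -Real.log ‖riemannZeta z‖) :=
          Real.exp_le_exp.2 (by linarith [g3.1])
      _ = Real.exp C1 * ‖riemannZeta z‖⁻¹ := by
          rw [Real.exp_add, Real.exp_neg, Real.exp_log hzp]
      _ ≤ _ := mul_le_mul_of_nonneg_left g2 (Real.exp_pos _).le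

/-- Away from the pole. If |v|/l <= |u0|/2 the point stays in the compact set {0<=Re w<=1, |Im w| in [|u0|/2, 3|u0|/2]}
where zeta(1+w) is bounded above and below (R_log); otherwise exp|R| <= C/Re w <= Cl <= C'|v|. -/
theorem R_off (u0 : ℝ) (hu : u0 ≠ 0) : ∃ C l0 : ℝ, 0 < C ∧ 1 ≤ l0 ∧ ∀ l : ℝ, l0 ≤ l → ∀ η : ℂ,
    |η.re| ≤ 1 / (8 * l) → η.im = u0 → ∀ c v : ℝ, 1 ≤ c → c ≤ 2 →
    Real.exp |R (1 + η + (c + v * I) / l)| ≤ C * (1 + |v|) := by
  obtain ⟨C1, hC1, hLog⟩ := R_log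
  obtain ⟨C2, hC2, hExp⟩ := R_exp
  obtain ⟨M, hM, hMz⟩ := P07_compact u0 hu
  have hu0 : 0 < |u0| := abs_pos.2 hu
  refine ⟨Real.exp C1 * M + C2 * 4 / |u0|, 3, by positivity, by norm_num, ?_⟩
  intro l hl η hη1 hη2 c v hc1 hc2
  have hl0 : 0 < l := lt_of_lt_of_le (by norm_num) hl
  set w : ℂ := η + (c + v * I) / l with hw
  have hwre : w.re = η.re + c / l := by
    rw [hw, P07_dv]; simp
  have hwim : w.im = u0 + v / l := by
    rw [hw, P07_dv]; simp [hη2]
  obtain ⟨hre0, hre1⟩ := P07_r0 hl hc1 hc2 hη1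
  rw [← hwre] at hre0 hre1
  have hrepos : 0 < w.re := lt_of_lt_of_le (half_pos (one_div_pos.mpr hl0)) hre0
  have e : 1 + η + (c + v * I) / l = 1 + w := by rw [hw]; ring
  rw [e]
  have hv0 : 0 ≤ |v| := abs_nonneg v
  have hone : 1 < (1 + w).re := by
    rw [Complex.add_re, Complex.one_re]
    exact lt_add_of_pos_right 1 hrepos
  have hEM : 0 ≤ Real.exp C1 * M := mul_nonneg (Real.exp_pos _).le hM.le
  by_cases hv : |v| / l ≤ |u0| / 2
  · have h3 : |w.im - u0| ≤ |u0| / 2 := by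
      rw [hwim]
      have : u0 + v / l - u0 = v / l := by ring
      rw [this, abs_div, abs_of_pos hl0]
      exact hv
    obtain ⟨g1, g2⟩ := hMz w hrepos.le hre1 h3
    have hz : riemannZeta (1 + w) ≠ 0 := riemannZeta_ne_zero_of_one_le_re hone.le
    exact P07_a (P07_R hz (hLog (1 + w) hone) g1 g2) hEM
      (div_nonneg (mul_nonneg hC2.le (by norm_num)) hu0.le) hv0
  · push Not at hv
    obtain ⟨g1, g2, -, -⟩ := hExp w hrepos hre1
    have g3 : Real.exp |R (1 + w)| ≤ C2 / w.re := by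
      rcases abs_cases (R (1 + w)) with ⟨h, -⟩ | ⟨h, -⟩
      · rw [h]; exact g1
      · rw [h]; exact g2
    exact P07_d g3 (P07_b hC2 hl0 hre0) (P07_c hl0 hu0 hv) hEM hC2.le hu0.le hv0

end LZ

end F_P07
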