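import Pool.Agent.Lib.MP_0f5a55_nt.V.V05
import Pool.Agent.Lib.MP_0f5a55_nt.V.V11

section F_Y_A10

open Complex MeasureTheory Set Filter Topology
open scoped ComplexConjugate

namespace LP

open LZ (kk nS cf EE ER PP wt Sep)

variable {N : ℕ} [NeZero N]

private lemma A10_e1 {t : ℝ} (ht : 0 < t) : Real.exp (-t) * (1 + t) ^ 3 ≤ 27 := by
  have h1 : (1 + t) ^ 3 ≤ 27 * (1 + t / 3) ^ 3 := by nlinarith [pow_pos ht 2, pow_pos ht 3]
  have h2 : (1 + t / 3) ^ 3 ≤ Real.exp t := by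
    have h3 : 1 + t / 3 ≤ Real.exp (t / 3) := by linarith [Real.add_one_le_exp (t / 3)]
    calc (1 + t / 3) ^ 3 ≤ (Real.exp (t / 3)) ^ 3 := pow_le_pow_left₀ (by positivity) h3 3
      _ = Real.exp t := by rw [← Real.exp_nat_mul]; congr 1; push_cast; ring
  have h4 : Real.exp (-t) * Real.exp t = 1 := by rw [← Real.exp_add]; simp
  calc Real.exp (-t) * (1 + t) ^ 3 ≤ Real.exp (-t) * (27 * Real.exp t) := by
        apply mul_le_mul_of_nonneg_left _ (Real.exp_pos _).le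
        linarith
    _ = 27 * (Real.exp (-t) * Real.exp t) := by ring
    _ = 27 := by rw [h4]; ring

private lemma A10_e2 {t : ℝ} (ht : 0 < t) : t / (1 + t) ≤ 1 - Real.exp (-t) := by
  have h1 : 1 + t ≤ Real.exp t := by linarith [Real.add_one_le_exp t]
  have h2 : Real.exp (-t) ≤ 1 / (1 + t) := by
    rw [Real.exp_neg, ← one_div]
    exact one_div_le_one_div_of_le (by positivity) h1
  have h3 : t / (1 + t) = 1 - 1 / (1 + t) := by field_simp; ring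
  rw [h3]; linarith

private lemma A10_p {a : ℂ} {t : ℝ} (ht : 0 < t) (ha : t ≤ a.re) :
    (exp a - 1)⁻¹ = exp (-a) * (1 - exp (-a))⁻¹ ∧ t / (1 + t) ≤ ‖1 - exp (-a)‖ ∧ ‖exp (-a)‖ ≤ Real.exp (-t) := by
  have h1 : ‖exp (-a)‖ ≤ Real.exp (-t) := by
    rw [norm_exp]; apply Real.exp_le_exp.mpr; simp; exact ha
  have h2 : t / (1 + t) ≤ ‖1 - exp (-a)‖ := by
    have h3 := norm_sub_norm_le (1 : ℂ) (exp (-a))
    rw [norm_one] at h3
    linarith [A10_e2 ht]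
  refine ⟨?_, h2, h1⟩
  have h4 : (1 - exp (-a)) ≠ 0 := by
    rw [← norm_pos_iff]
    exact lt_of_lt_of_le (by positivity) h2
  have h5 : exp a - 1 = exp a * (1 - exp (-a)) := by
    rw [mul_sub, ← exp_add]; simp
  rw [h5, mul_inv, ← exp_neg]

private lemma A10_f1 {a : ℂ} {t : ℝ} (ht : 0 < t) (ha : t ≤ a.re) : ‖(exp a - 1)⁻¹‖ ≤ 27 / t ^ 2 := by
  obtain ⟨h1, h2, h3⟩ := A10_p ht ha
  rw [h1, norm_mul, norm_inv]
  have h4 : ‖1 - exp (-a)‖⁻¹ ≤ (1 + t) / t := by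
    rw [← inv_div]
    exact inv_anti₀ (by positivity) h2
  calc ‖exp (-a)‖ * ‖1 - exp (-a)‖⁻¹ ≤ Real.exp (-t) * ((1 + t) / t) :=
        mul_le_mul h3 h4 (by positivity) (Real.exp_pos _).le
    _ = (Real.exp (-t) * ((1 + t) * t)) / t ^ 2 := by field_simp
    _ ≤ 27 / t ^ 2 := by
        apply div_le_div_of_nonneg_right _ (by positivity)
        refine le_trans ?_ (A10_e1 ht)
        apply mul_le_mul_of_nonneg_left _ (Real.exp_pos _).le
        nlinarith [pow_pos ht 2, pow_pos ht 3]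

private lemma A10_exp {a b : ℂ} {t : ℝ} (ha : t ≤ a.re) (hb : t ≤ b.re) :
    ‖exp (-a) - exp (-b)‖ ≤ Real.exp (-t) * ‖a - b‖ := by
  have h1 : Convex ℝ {z : ℂ | z.re ≤ -t} := convex_halfSpace_re_le _
  have h2 := h1.norm_image_sub_le_of_norm_hasDerivWithin_le (f := exp) (f' := exp) (C := Real.exp (-t))
    (x := -b) (y := -a) (fun x _ => (hasDerivAt_exp x).hasDerivWithinAt)
    (fun x hx => by
      rw [norm_exp]
      exact Real.exp_le_exp.mpr hx)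
    (by show (-b).re ≤ -t; simp; exact hb) (by show (-a).re ≤ -t; simp; exact ha)
  refine h2.trans (le_of_eq ?_)
  congr 1
  rw [show -a - -b = -(a - b) by ring, norm_neg]

private lemma A10_f2 {a b : ℂ} {t : ℝ} (ht : 0 < t) (ha : t ≤ a.re) (hb : t ≤ b.re) :
    ‖(exp a - 1)⁻¹ - (exp b - 1)⁻¹‖ ≤ ‖a - b‖ * (27 * t ^ (-(9/4) : ℝ)) := by
  obtain ⟨h1, h2, h3⟩ := A10_p ht ha
  obtain ⟨k1, k2, k3⟩ := A10_p ht hb
  have h4 : (1 - exp (-a)) ≠ 0 := by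
    rw [← norm_pos_iff]
    exact lt_of_lt_of_le (by positivity) h2
  have k4 : (1 - exp (-b)) ≠ 0 := by
    rw [← norm_pos_iff]
    exact lt_of_lt_of_le (by positivity) k2
  have h5 : (exp a - 1)⁻¹ - (exp b - 1)⁻¹ =
      (exp (-a) - exp (-b)) * ((1 - exp (-a))⁻¹ * (1 - exp (-b))⁻¹) := by
    rw [h1, k1]; field_simp; ring
  rw [h5, norm_mul, norm_mul, norm_inv, norm_inv]
  have h6 : ‖1 - exp (-a)‖⁻¹ ≤ (1 + t) / t := by
    rw [← inv_div]
    exact inv_anti₀ (by positivity) h2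
  have k6 : ‖1 - exp (-b)‖⁻¹ ≤ (1 + t) / t := by
    rw [← inv_div]
    exact inv_anti₀ (by positivity) k2
  have h7 : t ^ (-(9/4) : ℝ) = (t ^ 2)⁻¹ * t ^ (-(1/4) : ℝ) := by
    rw [show (-(9/4) : ℝ) = -((2 : ℕ) : ℝ) + (-(1/4)) by norm_num, Real.rpow_add ht, Real.rpow_neg ht.le,
      Real.rpow_natCast]
  have h8 : (1 : ℝ) ≤ (1 + t) * t ^ (-(1/4) : ℝ) := by
    rw [Real.rpow_neg ht.le, ← div_eq_mul_inv, le_div_iff₀ (by positivity), one_mul]
    calc t ^ ((1/4) : ℝ) ≤ (1 + t) ^ ((1/4) : ℝ) := Real.rpow_le_rpow ht.le (by linarith) (by norm_num)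
      _ ≤ (1 + t) ^ (1 : ℝ) := Real.rpow_le_rpow_of_exponent_le (by linarith) (by norm_num)
      _ = 1 + t := Real.rpow_one _
  calc ‖exp (-a) - exp (-b)‖ * (‖1 - exp (-a)‖⁻¹ * ‖1 - exp (-b)‖⁻¹)
      ≤ (Real.exp (-t) * ‖a - b‖) * (((1 + t) / t) * ((1 + t) / t)) := by
        apply mul_le_mul (A10_exp ha hb) _ (by positivity) (by positivity)
        exact mul_le_mul h6 k6 (by positivity) (by positivity)
    _ = ‖a - b‖ * ((Real.exp (-t) * (1 + t) ^ 2 * 1) * (t ^ 2)⁻¹) := by field_simp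
    _ ≤ ‖a - b‖ * ((Real.exp (-t) * (1 + t) ^ 2 * ((1 + t) * t ^ (-(1/4) : ℝ))) * (t ^ 2)⁻¹) := by
        gcongr
    _ = ‖a - b‖ * ((Real.exp (-t) * (1 + t) ^ 3) * ((t ^ 2)⁻¹ * t ^ (-(1/4) : ℝ))) := by ring
    _ ≤ ‖a - b‖ * (27 * t ^ (-(9/4) : ℝ)) := by
        rw [h7]
        have := A10_e1 ht
        gcongr

private lemma A10_cp {η : ℂ} (hη : |η.re| ≤ 1/8) (m : ℕ) :
    ‖((m : ℂ) + 1) ^ (-η)‖ ≤ ((m : ℝ) + 1) ^ ((1/8) : ℝ) := by
  have h1 : ((m : ℂ) + 1) = (((m : ℝ) + 1 : ℝ) : ℂ) := by push_cast; rfl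
  rw [h1, norm_cpow_eq_rpow_re_of_pos (by positivity)]
  apply Real.rpow_le_rpow_of_exponent_le
  · have : (0 : ℝ) ≤ m := Nat.cast_nonneg m
    linarith
  · have := (abs_le.mp hη).1
    simp; linarith

private lemma A10_sm (s : ℝ) (hs : 1 < s) : Summable (fun m : ℕ => ((m : ℝ) + 1) ^ (-s)) := by
  have h1 : Summable (fun m : ℕ => (m : ℝ) ^ (-s)) := Real.summable_nat_rpow.mpr (by linarith)
  have h2 := (summable_nat_add_iff 1).mpr h1
  simpa using h2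

omit [NeZero N] in
private lemma A10_re (m b : ℕ) (Z : ℂ) :
    (((m : ℂ) + 1) * Z - 2 * Real.pi * I * b / N).re = ((m : ℝ) + 1) * Z.re := by
  have h1 : ((m : ℂ) + 1) = (((m : ℝ) + 1 : ℝ) : ℂ) := by push_cast; rfl
  have h2 : (2 * Real.pi * I * b / N : ℂ) = ((2 * Real.pi * b / N : ℝ) : ℂ) * I := by push_cast; ring
  rw [sub_re, h1, re_ofReal_mul, h2, re_ofReal_mul, I_re, mul_zero, sub_zero]

private lemma A10_single (f : ZMod N → ℂ) (x : ZMod N) : ‖f x‖ ≤ ∑ a : ZMod N, ‖f a‖ :=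
  Finset.single_le_sum (f := fun a => ‖f a‖) (fun _ _ => norm_nonneg _) (Finset.mem_univ x)

private lemma A10_summable (f g : ZMod N → ℂ) {η W : ℂ} (hη : |η.re| ≤ 1/8) {x : ℝ} (hx : 0 < x) (hW : x ≤ W.re) :
    Summable (fun m : ℕ => f ((m + 1 : ℕ) : ZMod N) * ((m : ℂ) + 1) ^ (-η) *
      ∑ b : ZMod N, g b * (exp (((m : ℂ) + 1) * W - 2 * Real.pi * I * b.val / N) - 1)⁻¹) := by
  set F : ℝ := ∑ a : ZMod N, ‖f a‖ with hF
  set G : ℝ := ∑ b : ZMod N, ‖g b‖ with hG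
  have hF0 : 0 ≤ F := Finset.sum_nonneg (fun _ _ => norm_nonneg _)
  have hG0 : 0 ≤ G := Finset.sum_nonneg (fun _ _ => norm_nonneg _)
  apply Summable.of_norm_bounded (g := fun m : ℕ => (F * G * (27 / x ^ 2)) * ((m : ℝ) + 1) ^ (-(15/8) : ℝ))
    ((A10_sm (15/8) (by norm_num)).mul_left _)
  intro m
  have hm : (0 : ℝ) < (m : ℝ) + 1 := by positivity
  rw [norm_mul, norm_mul]
  have h1 := A10_cp hη m
  have h2 : ‖∑ b : ZMod N, g b * (exp (((m : ℂ) + 1) * W - 2 * Real.pi * I * b.val / N) - 1)⁻¹‖ ≤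
      G * (27 / (((m : ℝ) + 1) * x) ^ 2) := by
    rw [hG, Finset.sum_mul]
    refine (norm_sum_le _ _).trans (Finset.sum_le_sum fun b _ => ?_)
    rw [norm_mul]
    apply mul_le_mul_of_nonneg_left _ (norm_nonneg _)
    apply A10_f1 (by positivity)
    rw [A10_re]
    exact mul_le_mul_of_nonneg_left hW hm.le
  have h3 := A10_single f ((m + 1 : ℕ) : ZMod N)
  calc ‖f ((m + 1 : ℕ) : ZMod N)‖ * ‖((m : ℂ) + 1) ^ (-η)‖ *
        ‖∑ b : ZMod N, g b * (exp (((m : ℂ) + 1) * W - 2 * Real.pi * I * b.val / N) - 1)⁻¹‖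
      ≤ F * ((m : ℝ) + 1) ^ ((1/8) : ℝ) * (G * (27 / (((m : ℝ) + 1) * x) ^ 2)) :=
        mul_le_mul (mul_le_mul h3 h1 (norm_nonneg _) hF0) h2 (norm_nonneg _) (by positivity)
    _ = F * G * (27 / x ^ 2) * (((m : ℝ) + 1) ^ ((1/8) : ℝ) * (((m : ℝ) + 1) ^ 2)⁻¹) := by
        field_simp
    _ = F * G * (27 / x ^ 2) * ((m : ℝ) + 1) ^ (-(15/8) : ℝ) := by
        congr 1
        rw [show (-(15/8) : ℝ) = (1/8) + (-((2 : ℕ) : ℝ)) by norm_num, Real.rpow_add hm, Real.rpow_neg hm.le,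
          Real.rpow_natCast]

private lemma A10_diff (f g : ZMod N → ℂ) {η W V : ℂ} (hη : |η.re| ≤ 1/8) {x : ℝ} (hx : 0 < x) (hW : x ≤ W.re)
    (hV : x ≤ V.re) :
    ‖DD f g η W - DD f g η V‖ ≤ (∑ a : ZMod N, ‖f a‖) * (∑ b : ZMod N, ‖g b‖) *
      (‖W - V‖ * (27 * x ^ (-(9/4) : ℝ))) * ∑' m : ℕ, ((m : ℝ) + 1) ^ (-(9/8) : ℝ) := by
  set F : ℝ := ∑ a : ZMod N, ‖f a‖ with hF
  set G : ℝ := ∑ b : ZMod N, ‖g b‖ with hG
  have hF0 : 0 ≤ F := Finset.sum_nonneg (fun _ _ => norm_nonneg _)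
  have hG0 : 0 ≤ G := Finset.sum_nonneg (fun _ _ => norm_nonneg _)
  unfold DD
  rw [← (A10_summable f g hη hx hW).tsum_sub (A10_summable f g hη hx hV), ← tsum_mul_left]
  apply tsum_of_norm_bounded ((A10_sm (9/8) (by norm_num)).mul_left _).hasSum
  intro m
  have hm : (0 : ℝ) < (m : ℝ) + 1 := by positivity
  rw [← mul_sub, norm_mul, norm_mul]
  have h1 := A10_cp hη m
  have h3 : ‖((m : ℂ) + 1) * W - ((m : ℂ) + 1) * V‖ = ((m : ℝ) + 1) * ‖W - V‖ := by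
    have h1 : ((m : ℂ) + 1) = (((m : ℝ) + 1 : ℝ) : ℂ) := by push_cast; rfl
    rw [← mul_sub, norm_mul, h1, norm_real, Real.norm_of_nonneg hm.le]
  have h2 : ‖∑ b : ZMod N, g b * (exp (((m : ℂ) + 1) * W - 2 * Real.pi * I * b.val / N) - 1)⁻¹ -
      ∑ b : ZMod N, g b * (exp (((m : ℂ) + 1) * V - 2 * Real.pi * I * b.val / N) - 1)⁻¹‖ ≤
      G * ((((m : ℝ) + 1) * ‖W - V‖) * (27 * (((m : ℝ) + 1) * x) ^ (-(9/4) : ℝ))) := by
    rw [← Finset.sum_sub_distrib, hG, Finset.sum_mul]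
    refine (norm_sum_le _ _).trans (Finset.sum_le_sum fun b _ => ?_)
    rw [← mul_sub, norm_mul]
    apply mul_le_mul_of_nonneg_left _ (norm_nonneg _)
    rw [← h3]
    have h4 : (((m : ℂ) + 1) * W - 2 * Real.pi * I * b.val / N) - (((m : ℂ) + 1) * V - 2 * Real.pi * I * b.val / N) =
        ((m : ℂ) + 1) * W - ((m : ℂ) + 1) * V := by ring
    rw [← h4]
    apply A10_f2 (by positivity)
    · rw [A10_re]; exact mul_le_mul_of_nonneg_left hW hm.le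
    · rw [A10_re]; exact mul_le_mul_of_nonneg_left hV hm.le
  have h5 := A10_single f ((m + 1 : ℕ) : ZMod N)
  calc ‖f ((m + 1 : ℕ) : ZMod N)‖ * ‖((m : ℂ) + 1) ^ (-η)‖ *
      ‖∑ b : ZMod N, g b * (exp (((m : ℂ) + 1) * W - 2 * Real.pi * I * b.val / N) - 1)⁻¹ -
      ∑ b : ZMod N, g b * (exp (((m : ℂ) + 1) * V - 2 * Real.pi * I * b.val / N) - 1)⁻¹‖
      ≤ F * ((m : ℝ) + 1) ^ ((1/8) : ℝ) *
        (G * ((((m : ℝ) + 1) * ‖W - V‖) * (27 * (((m : ℝ) + 1) * x) ^ (-(9/4) : ℝ)))) :=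
        mul_le_mul (mul_le_mul h5 h1 (norm_nonneg _) hF0) h2 (norm_nonneg _) (by positivity)
    _ = F * G * (‖W - V‖ * (27 * x ^ (-(9/4) : ℝ))) * (((m : ℝ) + 1) ^ ((1/8) : ℝ) * ((m : ℝ) + 1) *
          ((m : ℝ) + 1) ^ (-(9/4) : ℝ)) := by
        rw [Real.mul_rpow hm.le hx.le]; ring
    _ = F * G * (‖W - V‖ * (27 * x ^ (-(9/4) : ℝ))) * ((m : ℝ) + 1) ^ (-(9/8) : ℝ) := by
        congr 1
        rw [show (-(9/8) : ℝ) = (1/8) + 1 + (-(9/4)) by norm_num, Real.rpow_add hm, Real.rpow_add hm,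
          Real.rpow_one]

private lemma A10_s1 {ε : ℝ} (hε : 0 < ε) (hε2 : ε ≤ 1/2) : ε / 2 ≤ Real.sin ε := by
  have h1 := Real.mul_le_sin hε.le (le_trans hε2 (by linarith [Real.pi_gt_three]))
  refine le_trans ?_ h1
  rw [div_eq_inv_mul]
  apply mul_le_mul_of_nonneg_right _ hε.le
  rw [le_div_iff₀ Real.pi_pos]
  linarith [Real.pi_le_four]

private lemma A10_s2 {ε : ℝ} (hε : 0 < ε) (hε2 : ε ≤ 1/2) :
    ‖((Real.sin ε - ε : ℝ) : ℂ) + ((Real.cos ε - 1 : ℝ) : ℂ) * I‖ ≤ ε ^ 2 := by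
  have h11 : 0 < ε ^ 2 := pow_pos hε 2
  have h4 : |Real.sin ε - ε| ≤ ε ^ 2 / 4 := by
    have h5 := Real.sin_gt_sub_cube hε
    have h6 := Real.sin_lt hε
    have h10 : ε ^ 3 ≤ ε ^ 2 * (1 / 2) := by
      rw [pow_succ]
      exact mul_le_mul_of_nonneg_left hε2 h11.le
    have h12 : 0 < ε ^ 3 := pow_pos hε 3
    exact abs_le.mpr ⟨by linarith only [h5, h10, h11, h12], by linarith only [h6, h11]⟩
  have h7 : |Real.cos ε - 1| ≤ ε ^ 2 / 2 := by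
    have h8 := Real.one_sub_sq_div_two_le_cos (x := ε)
    have h9 := Real.cos_le_one ε
    exact abs_le.mpr ⟨by linarith only [h8], by linarith only [h9, h11]⟩
  refine (norm_add_le _ _).trans ?_
  rw [norm_mul, norm_I, mul_one, norm_real, norm_real, Real.norm_eq_abs, Real.norm_eq_abs]
  linarith only [h4, h7, h11]

omit [NeZero N] in
private lemma A10_W (ε : ℝ) (h k : ℕ) : WW N ε h k =
    (((2 * Real.pi * ((h : ℝ) / (k * N)) * Real.sin ε : ℝ)) : ℂ) + ((2 * Real.pi * ((h : ℝ) / (k * N)) * Real.cos ε : ℝ) : ℂ) * I := by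
  unfold WW
  have h1 : exp (-((ε : ℂ) * I)) = Real.cos ε - Real.sin ε * I := by
    rw [show -((ε : ℂ) * I) = ((-ε : ℝ) : ℂ) * I by push_cast; ring, exp_mul_I, ← ofReal_cos, ← ofReal_sin,
      Real.cos_neg, Real.sin_neg]
    push_cast; ring
  rw [h1]
  simp only [ofReal_mul, ofReal_div, ofReal_natCast, ofReal_ofNat]
  linear_combination (-(2 * (Real.pi : ℂ) * ((h : ℂ) / (k * N)) * (Real.sin ε : ℂ))) * I_sq

omit [NeZero N] in
private lemma A10_V (ε : ℝ) (h k : ℕ) : (((2 * Real.pi * ε * h / (k * N) : ℝ) : ℂ) + 2 * Real.pi * I * h / (k * N)) =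
    ((2 * Real.pi * ((h : ℝ) / (k * N)) * ε : ℝ) : ℂ) + ((2 * Real.pi * ((h : ℝ) / (k * N)) : ℝ) : ℂ) * I := by
  simp only [ofReal_mul, ofReal_div, ofReal_natCast, ofReal_ofNat]
  ring

private lemma A10_WV {ε q : ℝ} (hε : 0 < ε) (hε2 : ε ≤ 1/2) (hq0 : 0 < q) :
    ‖((((2 * Real.pi * q * Real.sin ε : ℝ)) : ℂ) + ((2 * Real.pi * q * Real.cos ε : ℝ) : ℂ) * I) -
      (((2 * Real.pi * q * ε : ℝ) : ℂ) + ((2 * Real.pi * q : ℝ) : ℂ) * I)‖ ≤ 2 * Real.pi * q * ε ^ 2 := by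
  have h3 : (((2 * Real.pi * q * Real.sin ε : ℝ)) : ℂ) + ((2 * Real.pi * q * Real.cos ε : ℝ) : ℂ) * I -
      (((2 * Real.pi * q * ε : ℝ) : ℂ) + ((2 * Real.pi * q : ℝ) : ℂ) * I) =
      ((2 * Real.pi * q : ℝ) : ℂ) * (((Real.sin ε - ε : ℝ) : ℂ) + ((Real.cos ε - 1 : ℝ) : ℂ) * I) := by
    simp only [ofReal_mul, ofReal_sub, ofReal_one]
    ring
  have h0 : (0 : ℝ) ≤ 2 * Real.pi * q := mul_nonneg (mul_nonneg zero_le_two Real.pi_pos.le) hq0.le
  rw [h3, norm_mul, norm_real, Real.norm_of_nonneg h0]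
  exact mul_le_mul_of_nonneg_left (A10_s2 hε hε2) h0

private lemma A10_q4 {ε q : ℝ} (hε : 0 < ε) (hq0 : 0 < q) :
    q * ε ^ 2 * (q * ε) ^ (-(9/4) : ℝ) = q ^ (-(5/4) : ℝ) * ε ^ (-(1/4) : ℝ) := by
  rw [Real.mul_rpow hq0.le hε.le]
  rw [show (-(5/4) : ℝ) = 1 + (-(9/4)) by norm_num, Real.rpow_add hq0, Real.rpow_one]
  rw [show (-(1/4) : ℝ) = ((2 : ℕ) : ℝ) + (-(9/4)) by norm_num, Real.rpow_add hε, Real.rpow_natCast]
  ring

private lemma A10_q5 {h k n : ℝ} (hh1 : 1 ≤ h) (hk1 : 1 ≤ k) (hN1 : 1 ≤ n) :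
    (h / (k * n)) ^ (-(5/4) : ℝ) ≤ n ^ 2 * (h * k) ^ 4 := by
  have hh0 : 0 < h := lt_of_lt_of_le one_pos hh1
  have hk0 : 0 < k := lt_of_lt_of_le one_pos hk1
  have hN0 : 0 < n := lt_of_lt_of_le one_pos hN1
  have hkn : 0 < k * n := mul_pos hk0 hN0
  have hkh : 0 ≤ k / h := div_nonneg hk0.le hh0.le
  have h6 : (h / (k * n)) ^ (-(5/4) : ℝ) = ((k / h) * n) ^ ((5/4) : ℝ) := by
    rw [Real.rpow_neg (div_nonneg hh0.le hkn.le), ← Real.inv_rpow (div_nonneg hh0.le hkn.le), inv_div, mul_div_right_comm]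
  rw [h6, Real.mul_rpow hkh hN0.le, mul_comm]
  have h7 : k / h ≤ h * k := by
    rw [div_le_iff₀ hh0]
    have h11 : (1 : ℝ) ≤ h * h := one_le_mul_of_one_le_of_one_le hh1 hh1
    calc k = 1 * k := (one_mul k).symm
      _ ≤ (h * h) * k := mul_le_mul_of_nonneg_right h11 hk0.le
      _ = h * k * h := by ring
  have h8 : 1 ≤ h * k := one_le_mul_of_one_le_of_one_le hh1 hk1
  have h9 : n ^ ((5/4) : ℝ) ≤ n ^ 2 := by
    rw [← Real.rpow_natCast]
    exact Real.rpow_le_rpow_of_exponent_le hN1 (by norm_num)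
  have h10 : (k / h) ^ ((5/4) : ℝ) ≤ (h * k) ^ 4 := by
    refine (Real.rpow_le_rpow hkh h7 (by norm_num)).trans ?_
    rw [← Real.rpow_natCast (h * k)]
    exact Real.rpow_le_rpow_of_exponent_le h8 (by norm_num)
  exact mul_le_mul h9 h10 (Real.rpow_nonneg hkh _) (pow_nonneg hN0.le _)

private lemma A10_fin {F G S Q q ε T H n D : ℝ} (hF : 0 ≤ F) (hG : 0 ≤ G) (hS : 0 ≤ S) (hp : 0 < Real.pi)
    (hT0 : 0 ≤ T) (hD : D ≤ 2 * Real.pi * q * ε ^ 2) (hq : 0 < q) (hε : 0 < ε) (hT : T ≤ Q)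
    (hQ : q * ε ^ 2 * Q ≤ n ^ 2 * H ^ 4 * ε ^ (-(1/4) : ℝ)) :
    F * G * (D * (27 * T)) * S ≤ (F * G * (2 * Real.pi * 27) * S * n ^ 2 + 1) * H ^ 4 * ε ^ (-(1/4) : ℝ) := by
  have hFG : 0 ≤ F * G := mul_nonneg hF hG
  have h0 : 0 ≤ 2 * Real.pi * q * ε ^ 2 := mul_nonneg (mul_nonneg (mul_nonneg zero_le_two hp.le) hq.le) (pow_nonneg hε.le _)
  have hH : 0 ≤ H ^ 4 * ε ^ (-(1/4) : ℝ) := mul_nonneg (Even.pow_nonneg (by decide) H) (Real.rpow_nonneg hε.le _)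
  have hc : 0 ≤ F * G * (2 * Real.pi * 27) * S :=
    mul_nonneg (mul_nonneg hFG (mul_nonneg (mul_nonneg zero_le_two hp.le) (by norm_num))) hS
  calc F * G * (D * (27 * T)) * S ≤ F * G * ((2 * Real.pi * q * ε ^ 2) * (27 * Q)) * S := by
        apply mul_le_mul_of_nonneg_right _ hS
        apply mul_le_mul_of_nonneg_left _ hFG
        exact mul_le_mul hD (mul_le_mul_of_nonneg_left hT (by norm_num)) (mul_nonneg (by norm_num) hT0) h0
    _ = F * G * (2 * Real.pi * 27) * S * (q * ε ^ 2 * Q) := by ring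
    _ ≤ F * G * (2 * Real.pi * 27) * S * (n ^ 2 * H ^ 4 * ε ^ (-(1/4) : ℝ)) := mul_le_mul_of_nonneg_left hQ hc
    _ ≤ F * G * (2 * Real.pi * 27) * S * (n ^ 2 * H ^ 4 * ε ^ (-(1/4) : ℝ)) + H ^ 4 * ε ^ (-(1/4) : ℝ) :=
        le_add_of_nonneg_right hH
    _ = _ := by ring

/-- Adapt LZ.A10 (DD_real). Expand (exp(z - 2 pi i b/N) - 1)^(-1) = sum_n exp(2 pi i b n/N) exp(-n z) (Re z > 0), |f|,|g| bounded.
|WW - (2 pi eps h/(kN) + 2 pi i h/(kN))| <= C eps^2 h/(kN). -/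
theorem DD_real (f g : ZMod N → ℂ) : ∃ C : ℝ, 0 < C ∧ ∀ ε : ℝ, 0 < ε → ε ≤ 1/2 → ∀ h k : ℕ, 1 ≤ h → 1 ≤ k →
    ∀ η : ℂ, |η.re| ≤ 1/8 →
    ‖DD f g η (WW N ε h k) - DD f g η (((2 * Real.pi * ε * h / (k * N) : ℝ) : ℂ) + 2 * Real.pi * I * h / (k * N))‖ ≤
      C * ((h : ℝ) * k) ^ 4 * ε ^ (-(1/4) : ℝ) := by
  have hS0 : 0 ≤ ∑' m : ℕ, ((m : ℝ) + 1) ^ (-(9/8) : ℝ) :=
    tsum_nonneg (fun m => Real.rpow_nonneg (add_nonneg (Nat.cast_nonneg m) zero_le_one) _)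
  have hF0 : 0 ≤ ∑ a : ZMod N, ‖f a‖ := Finset.sum_nonneg (fun _ _ => norm_nonneg _)
  have hG0 : 0 ≤ ∑ b : ZMod N, ‖g b‖ := Finset.sum_nonneg (fun _ _ => norm_nonneg _)
  have hN1 : (1 : ℝ) ≤ N := Nat.one_le_cast.mpr (Nat.one_le_iff_ne_zero.mpr (NeZero.ne N))
  have hpi := Real.pi_pos
  refine ⟨(∑ a : ZMod N, ‖f a‖) * (∑ b : ZMod N, ‖g b‖) * (2 * Real.pi * 27) *
    (∑' m : ℕ, ((m : ℝ) + 1) ^ (-(9/8) : ℝ)) * (N : ℝ) ^ 2 + 1,
    add_pos_of_nonneg_of_pos (mul_nonneg (mul_nonneg (mul_nonneg (mul_nonneg hF0 hG0)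
      (mul_nonneg (mul_nonneg zero_le_two hpi.le) (by norm_num))) hS0) (sq_nonneg _)) one_pos, ?_⟩
  intro ε hε hε2 h k hh hk η hη
  have hh1 : (1 : ℝ) ≤ h := Nat.one_le_cast.mpr hh
  have hk1 : (1 : ℝ) ≤ k := Nat.one_le_cast.mpr hk
  have hq0 : 0 < (h : ℝ) / (k * N) := div_pos (lt_of_lt_of_le one_pos hh1)
    (mul_pos (lt_of_lt_of_le one_pos hk1) (lt_of_lt_of_le one_pos hN1))
  have hqe : 0 < (h : ℝ) / (k * N) * ε := mul_pos hq0 hε
  have hx : 0 < Real.pi * ((h : ℝ) / (k * N)) * ε := mul_pos (mul_pos hpi hq0) hε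
  have hWre : Real.pi * ((h : ℝ) / (k * N)) * ε ≤ (WW N ε h k).re := by
    rw [A10_W]
    simp only [add_re, ofReal_re, mul_re, I_re, ofReal_im, I_im, mul_zero, mul_one, sub_self, add_zero]
    have h7 := mul_le_mul_of_nonneg_left (A10_s1 hε hε2)
      (mul_nonneg (mul_nonneg zero_le_two hpi.le) hq0.le : (0 : ℝ) ≤ 2 * Real.pi * ((h : ℝ) / (k * N)))
    refine le_trans (le_of_eq ?_) h7
    ring
  have hVre : Real.pi * ((h : ℝ) / (k * N)) * ε ≤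
      (((2 * Real.pi * ε * h / (k * N) : ℝ) : ℂ) + 2 * Real.pi * I * h / (k * N)).re := by
    rw [A10_V]
    simp only [add_re, ofReal_re, mul_re, I_re, ofReal_im, I_im, mul_zero, mul_one, sub_self, add_zero]
    linarith only [hx]
  refine (A10_diff f g hη hx hWre hVre).trans ?_
  refine A10_fin (Q := ((h : ℝ) / (k * N) * ε) ^ (-(9/4) : ℝ)) hF0 hG0 hS0 hpi (Real.rpow_nonneg hx.le _) ?_ hq0 hε ?_ ?_
  · rw [A10_W, A10_V]
    exact A10_WV hε hε2 hq0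
  · apply Real.rpow_le_rpow_of_nonpos hqe _ (by norm_num)
    have h8 := mul_le_mul_of_nonneg_right (show (1 : ℝ) ≤ Real.pi by linarith only [Real.pi_gt_three]) hqe.le
    rw [one_mul] at h8
    rwa [mul_assoc]
  · rw [A10_q4 hε hq0]
    exact mul_le_mul_of_nonneg_right (A10_q5 hh1 hk1 hN1) (Real.rpow_nonneg hε.le _)

end LP

end F_Y_A10

section F_Y_C02

open Complex MeasureTheory Set Filter Topology
open scoped ComplexConjugate

namespace LP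

open LZ (kk nS cf EE ER PP wt Sep)

variable {N : ℕ} [NeZero N]

omit [NeZero N] in
private lemma C02_cpow {n : ℕ} (hn : 0 < n) (a : ℂ) : (n : ℂ) ^ a = exp ((Real.log n : ℂ) * a) := by
  have hx : (0 : ℝ) < (n : ℝ) := by exact_mod_cast hn
  have h : ((n : ℝ) : ℂ) ^ a = exp ((Real.log n : ℂ) * a) := by
    rw [cpow_def_of_ne_zero (by exact_mod_cast hx.ne'), ofReal_log hx.le]
  simpa using h

/-- the character values -/
private lemma C02_char (χ ψ : DirichletCharacter ℂ N) {h k : ℕ} (hh : h.Coprime N)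
    (hk : k.Coprime N) :
    χ (h : ZMod N) * ψ (k : ZMod N) * (χ ((k / Nat.gcd h k : ℕ) : ZMod N) *
        ψ ((h / Nat.gcd h k : ℕ) : ZMod N)) =
      (χ * ψ) (h : ZMod N) * (χ * ψ) (k : ZMod N) * (χ * ψ)⁻¹ ((Nat.gcd h k : ℕ) : ZMod N) ∧
    χ (h : ZMod N) * ψ (k : ZMod N) * (χ⁻¹ ((h / Nat.gcd h k : ℕ) : ZMod N) *
        ψ⁻¹ ((k / Nat.gcd h k : ℕ) : ZMod N)) =
      (1 : DirichletCharacter ℂ N) (h : ZMod N) * (1 : DirichletCharacter ℂ N) (k : ZMod N) *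
        (χ * ψ) ((Nat.gcd h k : ℕ) : ZMod N) := by
  set g := Nat.gcd h k with hg
  have hgh : g ∣ h := Nat.gcd_dvd_left h k
  have hgk : g ∣ k := Nat.gcd_dvd_right h k
  have h1 : h = g * (h / g) := (Nat.mul_div_cancel' hgh).symm
  have k1 : k = g * (k / g) := (Nat.mul_div_cancel' hgk).symm
  have hgq : g.Coprime N := Nat.Coprime.coprime_dvd_left hgh hh
  have hh' : (h / g).Coprime N := Nat.Coprime.coprime_dvd_left (Nat.div_dvd_of_dvd hgh) hh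
  have hk' : (k / g).Coprime N := Nat.Coprime.coprime_dvd_left (Nat.div_dvd_of_dvd hgk) hk
  have e : ∀ θ : DirichletCharacter ℂ N, θ (h : ZMod N) = θ (g : ZMod N) * θ ((h / g : ℕ) : ZMod N) := by
    intro θ
    conv_lhs => rw [h1]
    rw [Nat.cast_mul, map_mul]
  have e' : ∀ θ : DirichletCharacter ℂ N, θ (k : ZMod N) = θ (g : ZMod N) * θ ((k / g : ℕ) : ZMod N) := by
    intro θ
    conv_lhs => rw [k1]
    rw [Nat.cast_mul, map_mul]
  have c1 := LX.char_mul_inv (χ * ψ) hgq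
  have c2 := LX.char_mul_inv χ hh'
  have c3 := LX.char_mul_inv ψ hk'
  have u1 : (1 : DirichletCharacter ℂ N) (h : ZMod N) = 1 :=
    MulChar.one_apply ((ZMod.isUnit_iff_coprime h N).mpr hh)
  have u2 : (1 : DirichletCharacter ℂ N) (k : ZMod N) = 1 :=
    MulChar.one_apply ((ZMod.isUnit_iff_coprime k N).mpr hk)
  have m : ∀ x : ZMod N, (χ * ψ) x = χ x * ψ x := fun x => MulChar.mul_apply χ ψ x
  constructor
  · rw [e (χ * ψ), e' (χ * ψ), e χ, e' ψ]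
    calc χ (g : ZMod N) * χ ((h / g : ℕ) : ZMod N) * (ψ (g : ZMod N) * ψ ((k / g : ℕ) : ZMod N)) *
          (χ ((k / g : ℕ) : ZMod N) * ψ ((h / g : ℕ) : ZMod N)) =
        (χ (g : ZMod N) * ψ (g : ZMod N)) * (χ ((h / g : ℕ) : ZMod N) * ψ ((h / g : ℕ) : ZMod N)) *
          (χ ((k / g : ℕ) : ZMod N) * ψ ((k / g : ℕ) : ZMod N)) := by ring
      _ = (χ * ψ) (g : ZMod N) * (χ * ψ) ((h / g : ℕ) : ZMod N) * (χ * ψ) ((k / g : ℕ) : ZMod N) *
          ((χ * ψ) (g : ZMod N) * (χ * ψ)⁻¹ (g : ZMod N)) := by rw [c1, m, m, m, mul_one]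
      _ = _ := by ring
  · rw [u1, u2, e χ, e' ψ, m]
    calc χ (g : ZMod N) * χ ((h / g : ℕ) : ZMod N) * (ψ (g : ZMod N) * ψ ((k / g : ℕ) : ZMod N)) *
          (χ⁻¹ ((h / g : ℕ) : ZMod N) * ψ⁻¹ ((k / g : ℕ) : ZMod N)) =
        (χ (g : ZMod N) * ψ (g : ZMod N)) * (χ ((h / g : ℕ) : ZMod N) * χ⁻¹ ((h / g : ℕ) : ZMod N)) *
          (ψ ((k / g : ℕ) : ZMod N) * ψ⁻¹ ((k / g : ℕ) : ZMod N)) := by ring
      _ = _ := by rw [c2, c3]; ring

/-- the term of one pair -/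
private lemma C02_term (χ ψ : DirichletCharacter ℂ N) (T : ℝ) (c₁ c₂ : ℂ) {h k : ℕ} (hh0 : 0 < h)
    (hk0 : 0 < k) (hh : h.Coprime N) (hk : k.Coprime N) (α β : ℂ) :
    (c₁ * c₂ * (χ (h : ZMod N) * ψ (k : ZMod N)) * ((h : ℂ) ^ (-(1/2) - α) * (k : ℂ) ^ (-(1/2) - β))) *
        mainT χ ψ T α β h k =
      LX.Lf (χ * ψ) (1 + (α + β)) * (c₁ * c₂ * ((χ * ψ) (h : ZMod N) * (χ * ψ) (k : ZMod N) *
        (χ * ψ)⁻¹ ((Nat.gcd h k : ℕ) : ZMod N)) * ((h : ℂ) ^ (-1 - (α + β)) *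
        (k : ℂ) ^ (-1 - (α + β)) * ((Nat.gcd h k : ℕ) : ℂ) ^ (1 + (α + β)))) +
      (N : ℂ)⁻¹ * ((2 * Real.pi / (N * T) : ℝ) : ℂ) ^ (α + β) * AC χ ψ (α + β) *
        (c₁ * c₂ * ((1 : DirichletCharacter ℂ N) (h : ZMod N) * (1 : DirichletCharacter ℂ N) (k : ZMod N) *
        (χ * ψ) ((Nat.gcd h k : ℕ) : ZMod N)) * ((h : ℂ) ^ (-1 - 0 : ℂ) * (k : ℂ) ^ (-1 - 0 : ℂ) *
        ((Nat.gcd h k : ℕ) : ℂ) ^ (1 + (-(α + β))))) := by
  obtain ⟨hc1, hc2⟩ := C02_char χ ψ hh hk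
  rw [← hc1, ← hc2]
  unfold mainT
  set g := Nat.gcd h k with hg
  have hg0 : 0 < g := Nat.gcd_pos_of_pos_left _ hh0
  have hgh : g ∣ h := Nat.gcd_dvd_left _ _
  have hgk : g ∣ k := Nat.gcd_dvd_right _ _
  have hhg : 0 < h / g := Nat.div_pos (Nat.le_of_dvd hh0 hgh) hg0
  have hkg : 0 < k / g := Nat.div_pos (Nat.le_of_dvd hk0 hgk) hg0
  have hgR : (g : ℝ) ≠ 0 := by exact_mod_cast hg0.ne'
  have l1 : Real.log ((h / g : ℕ) : ℝ) = Real.log h - Real.log g := by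
    rw [Nat.cast_div hgh hgR, Real.log_div (by exact_mod_cast hh0.ne') hgR]
  have l2 : Real.log ((k / g : ℕ) : ℝ) = Real.log k - Real.log g := by
    rw [Nat.cast_div hgk hgR, Real.log_div (by exact_mod_cast hk0.ne') hgR]
  simp only [C02_cpow hh0, C02_cpow hk0, C02_cpow hg0, C02_cpow hhg, C02_cpow hkg, l1, l2, ofReal_sub]
  set L0 : ℂ := (Real.log h : ℂ)
  set L1 : ℂ := (Real.log k : ℂ)
  set G : ℂ := (Real.log g : ℂ)
  have i1 : exp (L0 * (-(1/2) - α)) * exp (L1 * (-(1/2) - β)) * (exp ((L0 - G) * (-1/2 - β)) *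
        exp ((L1 - G) * (-1/2 - α))) =
      exp (L0 * (-1 - (α + β))) * exp (L1 * (-1 - (α + β))) * exp (G * (1 + (α + β))) := by
    simp only [← exp_add]
    congr 1
    ring
  have i2 : exp (L0 * (-(1/2) - α)) * exp (L1 * (-(1/2) - β)) * (exp ((L0 - G) * (-1/2 + α)) *
        exp ((L1 - G) * (-1/2 + β))) =
      exp (L0 * (-1 - 0)) * exp (L1 * (-1 - 0)) * exp (G * (1 + -(α + β))) := by
    simp only [← exp_add]
    congr 1
    ring
  linear_combination (LX.Lf (χ * ψ) (1 + (α + β)) * (c₁ * c₂ * (χ (h : ZMod N) * ψ (k : ZMod N) *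
      (χ ((k / g : ℕ) : ZMod N) * ψ ((h / g : ℕ) : ZMod N))))) * i1 +
    ((N : ℂ)⁻¹ * ((2 * Real.pi / (N * T) : ℝ) : ℂ) ^ (α + β) * AC χ ψ (α + β) *
      (c₁ * c₂ * (χ (h : ZMod N) * ψ (k : ZMod N) * (χ⁻¹ ((h / g : ℕ) : ZMod N) *
        ψ⁻¹ ((k / g : ℕ) : ZMod N))))) * i2

/-- algebra of the main terms; adapt LZ.M02 / LX.M02. h = n(S1), k = n(S2), g = gcd, all prime to N: chi(h) psi(k) chi(k/g) psi(h/g) =
theta(h) theta(k) theta^-1(g), chi(h) psi(k) chi^-1(h/g) psi^-1(k/g) = theta(g), theta = chi psi. -/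
theorem main_alg (χ ψ : DirichletCharacter ℂ N) (T : ℝ) (hT : 0 < T) (l : ℝ) (α β : ℂ) (z : ℕ) :
    ∑ S ∈ (LX.PQ N z).powerset ×ˢ (LX.PQ N z).powerset,
      ((cf 1 l S.1 : ℂ) * (cf 1 l S.2 : ℂ) * (χ (nS S.1 : ℕ) * ψ (nS S.2 : ℕ)) *
        ((nS S.1 : ℂ) ^ (-(1/2) - α) * (nS S.2 : ℂ) ^ (-(1/2) - β))) * mainT χ ψ T α β (nS S.1) (nS S.2) =
    LX.Lf (χ * ψ) (1 + (α + β)) * Q2 (χ * ψ) (χ * ψ)⁻¹ z l (α + β) (α + β) +
      (N : ℂ)⁻¹ * ((2 * Real.pi / (N * T) : ℝ) : ℂ) ^ (α + β) * AC χ ψ (α + β) *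
        Q2 1 (χ * ψ) z l 0 (-(α + β)) := by
  unfold Q2
  rw [Finset.mul_sum, Finset.mul_sum, ← Finset.sum_add_distrib]
  refine Finset.sum_congr rfl fun S hS => ?_
  rw [Finset.mem_product] at hS
  exact C02_term χ ψ T (cf 1 l S.1 : ℂ) (cf 1 l S.2 : ℂ) (LX.nS_pos' hS.1) (LX.nS_pos' hS.2)
    (LX.nS_coprime hS.1) (LX.nS_coprime hS.2) α β

end LP

end F_Y_C02

section F_Y_B01

open Complex MeasureTheory Set Filter Topology
open scoped ComplexConjugate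

namespace LP

open LZ (kk nS cf EE ER PP wt Sep)

variable {N : ℕ} [NeZero N]

/-- weight of one coordinate -/
private noncomputable def B01_u (ρ : DirichletCharacter ℂ N) (A : ℂ) (S : Finset ℕ) : ℂ :=
  (((-1) ^ S.card : ℝ) : ℂ) * ρ (nS S : ℕ) * (nS S : ℂ) ^ (-A)

/-- weight of the gcd -/
private noncomputable def B01_v (κ : DirichletCharacter ℂ N) (C : ℂ) (n : ℕ) : ℂ :=
  κ (n : ZMod N) * (n : ℂ) ^ C

private theorem B01_nS_insert (p : ℕ) (S : Finset ℕ) (h : p ∉ S) : nS (insert p S) = p * nS S := by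
  unfold nS
  rw [Finset.prod_insert h]

private theorem B01_ndvd (P S : Finset ℕ) (hP : ∀ q ∈ P, q.Prime) (p : ℕ) (hp : p.Prime) (hpP : p ∉ P)
    (hS : S ⊆ P) : ¬ p ∣ nS S := by
  intro h
  unfold nS at h
  obtain ⟨q, hq, hd⟩ := (Nat.Prime.prime hp).exists_mem_finset_dvd h
  have hq' := hP q (hS hq)
  have : p = q := (Nat.prime_dvd_prime_iff_eq hp hq').1 hd
  exact hpP (this ▸ hS hq)

private theorem B01_u_insert (ρ : DirichletCharacter ℂ N) (A : ℂ) (p : ℕ) (S : Finset ℕ) (h : p ∉ S) :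
    B01_u ρ A (insert p S) = (-(ρ (p : ZMod N)) * (p : ℂ) ^ (-A)) * B01_u ρ A S := by
  unfold B01_u
  rw [B01_nS_insert p S h, Finset.card_insert_of_notMem h, Nat.cast_mul, Nat.cast_mul, map_mul,
    Complex.natCast_mul_natCast_cpow, pow_succ]
  push_cast
  ring

private theorem B01_v_mul (κ : DirichletCharacter ℂ N) (C : ℂ) (p n : ℕ) :
    B01_v κ C (p * n) = B01_v κ C p * B01_v κ C n := by
  unfold B01_v
  rw [Nat.cast_mul, Nat.cast_mul, map_mul, Complex.natCast_mul_natCast_cpow]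
  ring

private theorem B01_nested (P : Finset ℕ) (hP : ∀ p ∈ P, p.Prime) (ρ κ : DirichletCharacter ℂ N)
    (A B C : ℂ) :
    ∑ S0 ∈ P.powerset, ∑ S1 ∈ P.powerset,
      (B01_u ρ A S0 * B01_u ρ B S1) * B01_v κ C (Nat.gcd (nS S0) (nS S1))
    = ∏ p ∈ P, loc ρ (ρ ^ 2 * κ) A B (A + B - C) p := by
  classical
  induction P using Finset.induction_on with
  | empty =>
    simp [B01_u, B01_v, nS]
  | insert p P hpP ih =>
    have hp : p.Prime := hP p (Finset.mem_insert_self p P)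
    have hP' : ∀ q ∈ P, q.Prime := fun q hq => hP q (Finset.mem_insert_of_mem hq)
    rw [Finset.prod_insert hpP, ← ih hP']
    simp only [Finset.sum_powerset_insert hpP, ← Finset.sum_add_distrib, Finset.mul_sum]
    refine Finset.sum_congr rfl fun S0 h0 => ?_
    refine Finset.sum_congr rfl fun S1 h1 => ?_
    rw [Finset.mem_powerset] at h0 h1
    have n0 : p ∉ S0 := fun h => hpP (h0 h)
    have n1 : p ∉ S1 := fun h => hpP (h1 h)
    have d0 := B01_ndvd P S0 hP' p hp hpP h0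
    have d1 := B01_ndvd P S1 hP' p hp hpP h1
    have c0 : Nat.Coprime p (nS S0) := (Nat.Prime.coprime_iff_not_dvd hp).2 d0
    have c1 : Nat.Coprime p (nS S1) := (Nat.Prime.coprime_iff_not_dvd hp).2 d1
    rw [B01_u_insert _ _ p S0 n0, B01_u_insert _ _ p S1 n1, B01_nS_insert p S0 n0,
      B01_nS_insert p S1 n1, Nat.gcd_mul_left, Nat.Coprime.gcd_mul_left_cancel _ c1,
      Nat.Coprime.gcd_mul_left_cancel_right _ c0, B01_v_mul]
    have hp0 : (p : ℂ) ≠ 0 := by exact_mod_cast hp.ne_zero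
    have e : (p : ℂ) ^ (-(A + B - C)) = (p : ℂ) ^ (-A) * (p : ℂ) ^ (-B) * (p : ℂ) ^ C := by
      rw [← Complex.cpow_add _ _ hp0, ← Complex.cpow_add _ _ hp0]
      congr 1
      ring
    have e2 : (ρ ^ 2 * κ) (p : ZMod N) = ρ (p : ZMod N) ^ 2 * κ (p : ZMod N) := by
      rw [MulChar.mul_apply, MulChar.pow_apply' _ two_ne_zero]
    unfold loc
    rw [e, e2]
    have e3 : B01_v κ C p = κ (p : ZMod N) * (p : ℂ) ^ C := rfl
    rw [e3]
    ring

/-- Euler product of the two variable sum over a finite set of primes. -/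
theorem euler2 (P : Finset ℕ) (hP : ∀ p ∈ P, p.Prime) (ρ κ : DirichletCharacter ℂ N) (A B C : ℂ) :
    ∑ S ∈ P.powerset ×ˢ P.powerset, (((-1) ^ S.1.card : ℝ) : ℂ) * (((-1) ^ S.2.card : ℝ) : ℂ) *
      (ρ (nS S.1 : ℕ) * ρ (nS S.2 : ℕ) * κ (Nat.gcd (nS S.1) (nS S.2) : ℕ)) *
      ((nS S.1 : ℂ) ^ (-A) * (nS S.2 : ℂ) ^ (-B) * ((Nat.gcd (nS S.1) (nS S.2) : ℕ) : ℂ) ^ C)
    = ∏ p ∈ P, loc ρ (ρ ^ 2 * κ) A B (A + B - C) p := by
  rw [← B01_nested P hP ρ κ A B C, Finset.sum_product]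
  refine Finset.sum_congr rfl fun S0 _ => Finset.sum_congr rfl fun S1 _ => ?_
  simp only [B01_u, B01_v]
  ring

end LP

end F_Y_B01

section F_Y_B04

open Complex MeasureTheory Set Filter Topology
open scoped ComplexConjugate

namespace LP

open LZ (kk nS cf EE ER PP wt Sep)

theorem B04_norm {N : ℕ} [NeZero N] (χ : DirichletCharacter ℂ N) (p : ℕ) (hp : p.Prime) (A : ℂ)
    (hA : 1 ≤ A.re) : ‖χ (p : ZMod N) * (p : ℂ) ^ (-A)‖ ≤ ((p : ℝ))⁻¹ := by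
  have hp1 : (1 : ℝ) ≤ p := by exact_mod_cast hp.one_lt.le
  rw [norm_mul, Complex.norm_natCast_cpow_of_pos hp.pos]
  have h1 : ‖χ (p : ZMod N)‖ ≤ 1 := DirichletCharacter.norm_le_one χ _
  calc ‖χ (p : ZMod N)‖ * (p : ℝ) ^ (-A).re ≤ 1 * (p : ℝ) ^ (-1 : ℝ) := by
        apply mul_le_mul h1 _ (Real.rpow_nonneg (by linarith) _) zero_le_one
        apply Real.rpow_le_rpow_of_exponent_le hp1
        rw [Complex.neg_re]; linarith
    _ = ((p : ℝ))⁻¹ := by rw [one_mul]; exact Real.rpow_neg_one _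

/-- local correction factors, adapt LZ.Q13 (R1_local) (absolute constant K; characters are bounded by 1). -/
theorem cor_local : ∃ K : ℝ, 0 < K ∧ ∀ (N : ℕ) [NeZero N] (ρ om : DirichletCharacter ℂ N) (p : ℕ), p.Prime →
    ∀ A B D : ℂ, 1 ≤ A.re → 1 ≤ B.re → 1 ≤ D.re → ‖cor ρ om A B D p - 1‖ ≤ K * ((p : ℝ) ^ 2)⁻¹ := by
  refine ⟨16, by norm_num, ?_⟩
  intro N _ ρ om p hp A B D hA hB hD
  have ha := B04_norm ρ p hp A hA
  have hb := B04_norm ρ p hp B hB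
  have hd := B04_norm om p hp D hD
  unfold cor loc
  generalize ρ (p : ZMod N) * (p : ℂ) ^ (-A) = a at *
  generalize ρ (p : ZMod N) * (p : ℂ) ^ (-B) = b at *
  generalize om (p : ZMod N) * (p : ℂ) ^ (-D) = d at *
  have hp2 : (2 : ℝ) ≤ p := by exact_mod_cast hp.two_le
  set t : ℝ := ((p : ℝ))⁻¹ with ht
  have ht0 : 0 < t := by rw [ht]; positivity
  have ht2 : t ≤ 1 / 2 := by
    rw [ht, inv_eq_one_div]
    exact one_div_le_one_div_of_le (by norm_num) hp2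
  have h1 : ∀ z : ℂ, ‖z‖ ≤ t → 1 / 2 ≤ ‖1 - z‖ := by
    intro z hz
    have := norm_sub_norm_le (1 : ℂ) z
    rw [norm_one] at this
    linarith
  have ha1 := h1 a ha
  have hb1 := h1 b hb
  have ha0 : (1 - a) ≠ 0 := by
    intro h; rw [h, norm_zero] at ha1; linarith
  have hb0 : (1 - b) ≠ 0 := by
    intro h; rw [h, norm_zero] at hb1; linarith
  have e : (1 - a - b + d) * (1 - d) / ((1 - a) * (1 - b)) - 1 =
      (d * a + d * b - d * d - a * b) / ((1 - a) * (1 - b)) := by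
    field_simp
    ring
  rw [e, norm_div, norm_mul]
  have hnum : ‖d * a + d * b - d * d - a * b‖ ≤ 4 * t ^ 2 := by
    have hm : ∀ x y : ℂ, ‖x‖ ≤ t → ‖y‖ ≤ t → ‖x * y‖ ≤ t ^ 2 := by
      intro x y hx hy
      rw [norm_mul, sq]
      exact mul_le_mul hx hy (norm_nonneg _) ht0.le
    calc ‖d * a + d * b - d * d - a * b‖ ≤ ‖d * a + d * b - d * d‖ + ‖a * b‖ := norm_sub_le _ _
      _ ≤ (‖d * a + d * b‖ + ‖d * d‖) + ‖a * b‖ := by
          have := norm_sub_le (d * a + d * b) (d * d); linarith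
      _ ≤ ((‖d * a‖ + ‖d * b‖) + ‖d * d‖) + ‖a * b‖ := by
          have := norm_add_le (d * a) (d * b); linarith
      _ ≤ 4 * t ^ 2 := by
          have := hm d a hd ha
          have := hm d b hd hb
          have := hm d d hd hd
          have := hm a b ha hb
          linarith
  have hden : 1 / 4 ≤ ‖1 - a‖ * ‖1 - b‖ := by
    have := mul_le_mul ha1 hb1 (by norm_num) (norm_nonneg _)
    linarith
  rw [div_le_iff₀ (by linarith)]
  have e2 : ((p : ℝ) ^ 2)⁻¹ = t ^ 2 := by rw [ht, inv_pow]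
  rw [e2]
  have : 0 ≤ t ^ 2 := sq_nonneg _
  nlinarith

end LP

end F_Y_B04

section F_Y_B05

open Complex MeasureTheory Set Filter Topology
open scoped ComplexConjugate

namespace LP

open LZ (kk nS cf EE ER PP wt Sep)

/-- local factor of R1 -/
private noncomputable def B05_F {N : ℕ} (ρ om : DirichletCharacter ℂ N) (p : ℕ) (x : ℂ × ℂ × ℂ) : ℂ :=
  cor ρ om x.1 x.2.1 x.2.2 p

private lemma B05_ne {N : ℕ} (ρ : DirichletCharacter ℂ N) {p : ℕ} (hp : p.Prime) {w : ℂ} (hw : 1 ≤ w.re) :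
    1 - ρ (p : ZMod N) * (p : ℂ) ^ (-w) ≠ 0 := by
  intro h
  have h1 : ρ (p : ZMod N) * (p : ℂ) ^ (-w) = 1 := (sub_eq_zero.1 h).symm
  have h2 : ‖(p : ℂ) ^ (-w)‖ = (p : ℝ) ^ (-w.re) := by
    rw [Complex.norm_natCast_cpow_of_pos hp.pos, Complex.neg_re]
  have h3 : (p : ℝ) ^ (-w.re) < 1 :=
    Real.rpow_lt_one_of_one_lt_of_neg (by exact_mod_cast hp.one_lt) (by linarith)
  have h4 : ‖ρ (p : ZMod N)‖ ≤ 1 := ρ.norm_le_one _
  have h5 : ‖ρ (p : ZMod N) * (p : ℂ) ^ (-w)‖ = 1 := by rw [h1, norm_one]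
  rw [norm_mul, h2] at h5
  have h6 : 0 ≤ (p : ℝ) ^ (-w.re) := Real.rpow_nonneg (Nat.cast_nonneg _) _
  nlinarith [mul_le_mul_of_nonneg_right h4 h6]

private lemma B05_F_diag {N : ℕ} (ρ : DirichletCharacter ℂ N) {p : ℕ} (hp : p.Prime) {w : ℂ} (hw : 1 ≤ w.re) :
    B05_F ρ ρ p (w, w, w) = 1 := by
  have h := B05_ne ρ hp hw
  simp only [B05_F, cor, loc]
  rw [div_eq_one_iff_eq (mul_ne_zero h h)]
  ring

private lemma B05_F_cont {N : ℕ} (ρ om : DirichletCharacter ℂ N) {p : ℕ} (hp : p.Prime) {w : ℂ} (hw : 1 ≤ w.re) :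
    ContinuousAt (B05_F ρ om p) (w, w, w) := by
  have h := B05_ne ρ hp hw
  have hp0 : (p : ℂ) ≠ 0 := by exact_mod_cast hp.ne_zero
  unfold B05_F cor loc
  have c1 : ContinuousAt (fun x : ℂ × ℂ × ℂ => ρ (p : ZMod N) * (p : ℂ) ^ (-x.1)) (w, w, w) := by
    apply ContinuousAt.mul continuousAt_const
    apply ContinuousAt.const_cpow _ (Or.inl hp0)
    fun_prop
  have c2 : ContinuousAt (fun x : ℂ × ℂ × ℂ => ρ (p : ZMod N) * (p : ℂ) ^ (-x.2.1)) (w, w, w) := by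
    apply ContinuousAt.mul continuousAt_const
    apply ContinuousAt.const_cpow _ (Or.inl hp0)
    fun_prop
  have c3 : ContinuousAt (fun x : ℂ × ℂ × ℂ => om (p : ZMod N) * (p : ℂ) ^ (-x.2.2)) (w, w, w) := by
    apply ContinuousAt.mul continuousAt_const
    apply ContinuousAt.const_cpow _ (Or.inl hp0)
    fun_prop
  refine ContinuousAt.div ?_ ?_ (mul_ne_zero h h)
  · exact (((continuousAt_const.sub c1).sub c2).add c3).mul (continuousAt_const.sub c3)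
  · exact (continuousAt_const.sub c1).mul (continuousAt_const.sub c2)

private lemma B05_summ : Summable (fun p : Nat.Primes => (((p : ℕ) : ℝ) ^ 2)⁻¹) := by
  have h := (Nat.Primes.summable_rpow (r := -2)).2 (by norm_num)
  refine h.congr (fun p => ?_)
  rw [Real.rpow_neg (Nat.cast_nonneg _)]
  norm_num

/-- adapt LZ.Q14 (R1_facts); K absolute. In (iii) rho = om: then cor rho rho w w w p = 1 for every p. -/
theorem R1_facts : ∃ K : ℝ, 0 < K ∧ ∀ (N : ℕ) [NeZero N],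
    (∀ (ρ om : DirichletCharacter ℂ N) (A B D : ℂ), 1 ≤ A.re → 1 ≤ B.re → 1 ≤ D.re → ‖R1 ρ om A B D‖ ≤ K) ∧
    (∀ (ρ om : DirichletCharacter ℂ N) (A B D : ℂ), 1 ≤ A.re → 1 ≤ B.re → 1 ≤ D.re →
      Tendsto (fun z : ℕ => ∏ p ∈ PP z, cor ρ om A B D p) atTop (𝓝 (R1 ρ om A B D))) ∧
    (∀ (ρ : DirichletCharacter ℂ N) (w : ℂ), 1 ≤ w.re → ∀ δ : ℝ, 0 < δ → ∃ r : ℝ, 0 < r ∧ ∀ A B D : ℂ,
      1 ≤ A.re → 1 ≤ B.re → 1 ≤ D.re → ‖A - w‖ ≤ r → ‖B - w‖ ≤ r → ‖D - w‖ ≤ r → ‖R1 ρ ρ A B D - 1‖ ≤ δ) := by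
  obtain ⟨K, hK, hloc⟩ := cor_local
  set S : ℝ := ∑' p : Nat.Primes, (((p : ℕ) : ℝ) ^ 2)⁻¹ with hS
  refine ⟨Real.exp (K * S), Real.exp_pos _, ?_⟩
  intro N _
  have hdom : ∀ (ρ om : DirichletCharacter ℂ N) (A B D : ℂ), 1 ≤ A.re → 1 ≤ B.re → 1 ≤ D.re → ∀ p : Nat.Primes,
      ‖B05_F ρ om p (A, B, D) - 1‖ ≤ K * (((p : ℕ) : ℝ) ^ 2)⁻¹ := by
    intro ρ om A B D hA hB hD p
    exact hloc N ρ om p p.2 A B D hA hB hD
  have hsum : ∀ (ρ om : DirichletCharacter ℂ N) (A B D : ℂ), 1 ≤ A.re → 1 ≤ B.re → 1 ≤ D.re →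
      Summable (fun p : Nat.Primes => ‖B05_F ρ om p (A, B, D) - 1‖) := by
    intro ρ om A B D hA hB hD
    exact Summable.of_nonneg_of_le (fun _ => norm_nonneg _) (hdom ρ om A B D hA hB hD)
      (B05_summ.mul_left K)
  have hR : ∀ (ρ om : DirichletCharacter ℂ N) (A B D : ℂ),
      R1 ρ om A B D = ∏' p : Nat.Primes, (1 + (B05_F ρ om p (A, B, D) - 1)) := by
    intro ρ om A B D
    unfold R1 B05_F
    congr 1
    funext p
    ring
  have hprod : ∀ (ρ om : DirichletCharacter ℂ N) (A B D : ℂ), 1 ≤ A.re → 1 ≤ B.re → 1 ≤ D.re →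
      HasProd (fun p : Nat.Primes => (1 + (B05_F ρ om p (A, B, D) - 1))) (R1 ρ om A B D) := by
    intro ρ om A B D hA hB hD
    rw [hR]
    exact (multipliable_one_add_of_summable (hsum ρ om A B D hA hB hD)).hasProd
  have hle : ∀ (ρ om : DirichletCharacter ℂ N) (A B D : ℂ), 1 ≤ A.re → 1 ≤ B.re → 1 ≤ D.re →
      ‖R1 ρ om A B D - 1‖ ≤ Real.exp (∑' p : Nat.Primes, ‖B05_F ρ om p (A, B, D) - 1‖) - 1 := by
    intro ρ om A B D hA hB hD
    have h1 := (hprod ρ om A B D hA hB hD)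
    have h2 : Tendsto (fun s : Finset Nat.Primes =>
        ‖∏ p ∈ s, (1 + (B05_F ρ om p (A, B, D) - 1)) - 1‖) atTop (𝓝 ‖R1 ρ om A B D - 1‖) :=
      (Tendsto.sub_const h1 1).norm
    refine le_of_tendsto h2 (Eventually.of_forall (fun s => ?_))
    refine (Finset.norm_prod_one_add_sub_one_le s _).trans ?_
    have h3 : ∑ p ∈ s, ‖B05_F ρ om p (A, B, D) - 1‖ ≤ ∑' p : Nat.Primes, ‖B05_F ρ om p (A, B, D) - 1‖ :=
      (hsum ρ om A B D hA hB hD).sum_le_tsum s (fun _ _ => norm_nonneg _)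
    linarith [Real.exp_le_exp.2 h3]
  refine ⟨?_, ?_, ?_⟩
  · intro ρ om A B D hA hB hD
    have h1 := hle ρ om A B D hA hB hD
    have h2 : ∑' p : Nat.Primes, ‖B05_F ρ om p (A, B, D) - 1‖ ≤ K * S := by
      rw [hS, ← tsum_mul_left]
      exact (hsum ρ om A B D hA hB hD).tsum_le_tsum (hdom ρ om A B D hA hB hD) (B05_summ.mul_left K)
    have h3 : ‖R1 ρ om A B D‖ ≤ ‖R1 ρ om A B D - 1‖ + 1 := by
      have := norm_add_le (R1 ρ om A B D - 1) 1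
      simpa using this
    linarith [Real.exp_le_exp.2 h2]
  · intro ρ om A B D hA hB hD
    have h1 := hprod ρ om A B D hA hB hD
    have hs : Tendsto (fun z : ℕ => (PP z).subtype Nat.Prime) atTop atTop := by
      apply tendsto_atTop_finset_of_monotone
      · intro a b hab x hx
        simp only [PP, Finset.mem_subtype, Finset.mem_filter, Finset.mem_range] at hx ⊢
        exact ⟨by omega, hx.2⟩
      · intro x
        refine ⟨x.1, ?_⟩
        simp only [PP, Finset.mem_subtype, Finset.mem_filter, Finset.mem_range]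
        exact ⟨by omega, x.2⟩
    have h2 := Tendsto.comp h1 hs
    refine h2.congr (fun z => ?_)
    simp only [Function.comp]
    have h3 : ∀ p : ℕ, 1 + (B05_F ρ om p (A, B, D) - 1) = cor ρ om A B D p := by
      intro p
      unfold B05_F
      ring
    have h4 := Finset.prod_subtype_of_mem (s := PP z) (p := Nat.Prime)
      (fun p : ℕ => (1 + (B05_F ρ om p (A, B, D) - 1)))
      (by intro x hx; exact (Finset.mem_filter.1 hx).2)
    exact Eq.trans h4 (Finset.prod_congr rfl (fun p _ => h3 p))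
  · intro ρ w hw δ hδ
    set U : Set (ℂ × ℂ × ℂ) := {x | 1 ≤ x.1.re ∧ 1 ≤ x.2.1.re ∧ 1 ≤ x.2.2.re} with hU
    have ht : Tendsto (fun x : ℂ × ℂ × ℂ => ∑' p : Nat.Primes, ‖B05_F ρ ρ p x - 1‖)
        (𝓝[U] (w, w, w)) (𝓝 (∑' _ : Nat.Primes, (0 : ℝ))) := by
      apply tendsto_tsum_of_dominated_convergence (B05_summ.mul_left K)
      · intro p
        have h1 := (B05_F_cont ρ ρ p.2 hw).tendsto
        rw [B05_F_diag ρ p.2 hw] at h1
        have h2 := (h1.sub_const 1).norm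
        rw [sub_self, norm_zero] at h2
        exact h2.mono_left nhdsWithin_le_nhds
      · filter_upwards [self_mem_nhdsWithin] with x hx p
        rw [norm_norm]
        exact hdom ρ ρ x.1 x.2.1 x.2.2 hx.1 hx.2.1 hx.2.2 p
    rw [tsum_zero] at ht
    have ht2 : Tendsto (fun x : ℂ × ℂ × ℂ => Real.exp (∑' p : Nat.Primes, ‖B05_F ρ ρ p x - 1‖) - 1)
        (𝓝[U] (w, w, w)) (𝓝 0) := by
      have := (Real.continuous_exp.tendsto 0).comp ht
      rw [Real.exp_zero] at this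
      simpa using this.sub_const 1
    have hev := ht2.eventually (gt_mem_nhds hδ)
    rw [eventually_nhdsWithin_iff, Metric.eventually_nhds_iff] at hev
    obtain ⟨r, hr, hrr⟩ := hev
    refine ⟨r / 2, by positivity, ?_⟩
    intro A B D hA hB hD hA1 hB1 hD1
    have h1 : dist (A, B, D) (w, w, w) < r := by
      rw [Prod.dist_eq, Prod.dist_eq]
      simp only [dist_eq_norm]
      refine max_lt (by linarith) (max_lt (by linarith) (by linarith))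
    have h2 := hrr h1 ⟨hA, hB, hD⟩
    exact (hle ρ ρ A B D hA hB hD).trans h2.le

end LP

end F_Y_B05

section F_Y_B06

open Complex MeasureTheory Set Filter Topology
open scoped ComplexConjugate

namespace LP

open LZ (kk nS cf EE ER PP wt Sep)

variable {N : ℕ} [NeZero N]

theorem B06_L (χ : DirichletCharacter ℂ N) (s : ℂ) (hs : 1 < s.re) :
    Tendsto (fun z : ℕ => ∏ p ∈ PP z, (1 - χ (p : ZMod N) * (p : ℂ) ^ (-s))⁻¹) atTop
      (𝓝 (LX.Lf χ s)) := by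
  have h := (DirichletCharacter.LSeries_eulerProduct χ hs).comp (tendsto_add_atTop_nat 1)
  unfold LX.Lf
  rw [DirichletCharacter.LFunction_eq_LSeries χ hs]
  refine h.congr fun z => ?_
  rfl

theorem B06_ne (χ : DirichletCharacter ℂ N) (s : ℂ) (hs : 1 < s.re) (p : ℕ) (hp : p.Prime) :
    1 - χ (p : ZMod N) * (p : ℂ) ^ (-s) ≠ 0 := by
  intro h
  have h1 : χ (p : ZMod N) * (p : ℂ) ^ (-s) = 1 := (sub_eq_zero.1 h).symm
  have h2 : ‖χ (p : ZMod N) * (p : ℂ) ^ (-s)‖ = 1 := by rw [h1, norm_one]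
  rw [norm_mul, Complex.norm_natCast_cpow_of_pos hp.pos, Complex.neg_re] at h2
  have hp1 : (1 : ℝ) < p := by exact_mod_cast hp.one_lt
  have h3 : (p : ℝ) ^ (-s.re) < 1 := Real.rpow_lt_one_of_one_lt_of_neg hp1 (by linarith)
  have h4 : 0 ≤ (p : ℝ) ^ (-s.re) := by positivity
  have h5 : ‖χ (p : ZMod N)‖ ≤ 1 := DirichletCharacter.norm_le_one χ _
  have h6 := mul_le_mul_of_nonneg_right h5 h4
  linarith

/-- adapt LZ.Q15 (mu_prod). For p | N the local factor loc is 1 (characters vanish), so PQ may be replaced by PP. Euler product: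
DirichletCharacter.LSeries_eulerProduct_tprod / LSeries_eulerProduct, LFunction_eq_LSeries. -/
theorem mu_prod (ρ om : DirichletCharacter ℂ N) (A B D : ℂ) (hA : 1 < A.re) (hB : 1 < B.re) (hD : 1 < D.re) :
    Tendsto (fun z : ℕ => ∏ p ∈ LX.PQ N z, loc ρ om A B D p) atTop
      (𝓝 (LX.Lf om D / (LX.Lf ρ A * LX.Lf ρ B) * R1 ρ om A B D)) := by
  obtain ⟨K, hK, hR⟩ := R1_facts
  obtain ⟨hR1b, hR1t, hR1l⟩ := hR N
  have hne : ∀ (χ : DirichletCharacter ℂ N) (s : ℂ), 1 < s.re → LX.Lf χ s ≠ 0 := by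
    intro χ s hs
    unfold LX.Lf
    refine DirichletCharacter.LFunction_ne_zero_of_one_le_re χ (Or.inr ?_) hs.le
    intro h
    rw [h, Complex.one_re] at hs
    exact lt_irrefl _ hs
  have h1 := ((B06_L om D hD).div ((B06_L ρ A hA).mul (B06_L ρ B hB))
    (mul_ne_zero (hne ρ A hA) (hne ρ B hB))).mul (hR1t ρ om A B D hA.le hB.le hD.le)
  refine h1.congr fun z => ?_
  have hPQ : ∏ p ∈ LX.PQ N z, loc ρ om A B D p = ∏ p ∈ PP z, loc ρ om A B D p := by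
    unfold LX.PQ
    rw [Finset.prod_filter]
    refine Finset.prod_congr rfl fun p hp => ?_
    have hp' : p.Prime := by
      unfold PP at hp
      exact (Finset.mem_filter.1 hp).2
    by_cases h : p ∣ N
    · rw [if_neg (not_not.2 h)]
      have hu : ¬ IsUnit ((p : ℕ) : ZMod N) := by
        rw [ZMod.isUnit_iff_coprime, Nat.Prime.coprime_iff_not_dvd hp']
        exact not_not.2 h
      unfold loc
      rw [MulChar.map_nonunit ρ hu, MulChar.map_nonunit om hu]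
      ring
    · rw [if_pos h]
  rw [hPQ]
  simp only [Pi.div_apply]
  rw [← Finset.prod_mul_distrib, ← Finset.prod_div_distrib, ← Finset.prod_mul_distrib]
  apply Finset.prod_congr rfl
  intro p hp
  have hp' : p.Prime := by
    unfold PP at hp
    exact (Finset.mem_filter.1 hp).2
  have e1 := B06_ne ρ A hA p hp'
  have e2 := B06_ne ρ B hB p hp'
  have e3 := B06_ne om D hD p hp'
  unfold cor
  field_simp

end LP

end F_Y_B06
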