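import Pool.Agent.Lib.MP_0f5a55_nt.V.V02
import Pool.Agent.Lib.MP_0f5a55_nt.V.V05
import Pool.Agent.Lib.MP_0f5a55_nt.V.V07
import Pool.Agent.Lib.MP_0f5a55_nt.V.V11
import Pool.Agent.Lib.MP_0f5a55_nt.V.V15
import Pool.Agent.Lib.MP_0f5a55_nt.V.V16
import Pool.Agent.Lib.MP_0f5a55_nt.V.V26
import Pool.Agent.Lib.MP_0f5a55_nt.V.V35
import Pool.Agent.Lib.MP_0f5a55_nt.V.V36
import Pool.Agent.Lib.MP_0f5a55_nt.V.V37
import Pool.Agent.Lib.MP_0f5a55_nt.V.V44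

section F_X_F01

open Complex MeasureTheory Set Filter Topology Asymptotics

namespace LX

open LZ

/-- the Dirichlet series of a nontrivial character converges for Re s > 0 -/
theorem L_tendsto {q : ℕ} [NeZero q] {χ : DirichletCharacter ℂ q} (hχ : χ ≠ 1) {s : ℂ}
    (hs : 0 < s.re) :
    Tendsto (fun N : ℕ => ∑ n ∈ Finset.Icc 1 N, χ (n : ZMod q) * (n : ℂ) ^ (-s)) atTop
      (𝓝 (Lf χ s)) := by
  set c : ℕ → ℂ := fun n => if n = 0 then 0 else χ (n : ZMod q) with hc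
  have hc0 : c 0 = 0 := by simp [hc]
  have hcn : ∀ n, n ≠ 0 → c n = χ (n : ZMod q) := fun n hn => by simp [hc, hn]
  have hs0 : s ≠ 0 := by
    rintro rfl
    simp at hs
  have h₄ : ∀ n, ∑ k ∈ Finset.Icc 0 n, c k = ∑ k ∈ Finset.Icc 1 n, χ (k : ZMod q) := fun n => by
    rw [← Finset.insert_Icc_add_one_left_eq_Icc n.zero_le, Finset.sum_insert (by simp), hc0,
      zero_add, zero_add]
    refine Finset.sum_congr rfl fun k hk => hcn k ?_
    have := (Finset.mem_Icc.mp hk).1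
    omega
  have hS : ∀ n : ℕ, ∑ k ∈ Finset.Icc 0 n, (fun x : ℝ => (x : ℂ) ^ (-s)) (k : ℝ) * c k =
      ∑ k ∈ Finset.Icc 1 n, χ (k : ZMod q) * (k : ℂ) ^ (-s) := fun n => by
    rw [← Finset.insert_Icc_add_one_left_eq_Icc n.zero_le, Finset.sum_insert (by simp), hc0,
      zero_add, mul_zero, zero_add]
    refine Finset.sum_congr rfl fun k hk => ?_
    have := (Finset.mem_Icc.mp hk).1
    rw [hcn k (by omega), mul_comm]
    simp
  have hO : (fun n : ℕ => ∑ k ∈ Finset.Icc 0 n, c k) =O[atTop] fun _ : ℕ => (1 : ℝ) := by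
    refine isBigO_of_le' (c := 2 * q) _ fun n => ?_
    rw [h₄]
    simpa using w10_sum_le q χ hχ n
  have h₁ : -s.re - 1 < -1 := by linarith
  have h₃ (t : ℝ) (ht : t ∈ Set.Ici (1 : ℝ)) :
      DifferentiableAt ℝ (fun x : ℝ ↦ (x : ℂ) ^ (-s)) t :=
    differentiableAt_id.ofReal_cpow_const (zero_lt_one.trans_le ht).ne' (neg_ne_zero.mpr hs0)
  have hmain := tendsto_sum_mul_atTop_nhds_one_sub_integral₀ c (f := fun x : ℝ => (x : ℂ) ^ (-s))
    (l := 0) (g := fun t : ℝ => t ^ (-s.re - 1)) hc0 h₃ (by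
      refine (Iff.mpr integrableOn_Ici_iff_integrableOn_Ioi <|
        integrableOn_Ioi_deriv_ofReal_cpow zero_lt_one
        (by simpa using hs)).locallyIntegrableOn) (by
      rw [tendsto_zero_iff_norm_tendsto_zero]
      have h5 : Tendsto (fun n : ℕ => 2 * (q : ℝ) * (n : ℝ) ^ (-s.re)) atTop (𝓝 0) := by
        have := ((tendsto_rpow_neg_atTop hs).comp tendsto_natCast_atTop_atTop).const_mul (2 * (q : ℝ))
        simpa using this
      refine squeeze_zero' (Eventually.of_forall fun n => norm_nonneg _) ?_ h5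
      filter_upwards [eventually_gt_atTop 0] with n hn
      rw [norm_mul, h₄, mul_comm]
      have h6 : ‖(((n : ℝ) : ℂ)) ^ (-s)‖ = (n : ℝ) ^ (-s.re) := by
        rw [Complex.norm_cpow_eq_rpow_re_of_pos (by exact_mod_cast hn), neg_re]
      rw [h6]
      exact mul_le_mul_of_nonneg_right (w10_sum_le q χ hχ n) (by positivity)) (by
      refine IsBigO.of_bound (‖s‖ * (2 * q)) ?_
      filter_upwards [eventually_gt_atTop 0] with t ht
      rw [norm_mul, h₄, deriv_ofReal_cpow_const ht.ne' (neg_ne_zero.mpr hs0), norm_mul, norm_neg,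
        Complex.norm_cpow_eq_rpow_re_of_pos ht, Real.norm_of_nonneg (by positivity : 0 ≤ t ^ (-s.re - 1))]
      have e : (-s - 1).re = -s.re - 1 := by simp
      rw [e]
      have := w10_sum_le q χ hχ ⌊t⌋₊
      have h7 : 0 ≤ t ^ (-s.re - 1) := by positivity
      calc ‖s‖ * t ^ (-s.re - 1) * ‖∑ k ∈ Finset.Icc 1 ⌊t⌋₊, χ (k : ZMod q)‖ ≤
          ‖s‖ * t ^ (-s.re - 1) * (2 * q) := by gcongr
        _ = _ := by ring) (integrableAtFilter_rpow_atTop_iff.mpr h₁)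
  have hlim : (0 : ℂ) - ∫ t in Set.Ioi (1 : ℝ), deriv (fun x : ℝ => (x : ℂ) ^ (-s)) t *
      ∑ k ∈ Finset.Icc 0 ⌊t⌋₊, c k = Lf χ s := by
    unfold Lf
    rw [w10_eq q χ hχ s hs, w10_mellin, zero_sub, ← integral_neg, ← integral_const_mul]
    refine setIntegral_congr_fun measurableSet_Ioi fun t ht => ?_
    rw [deriv_ofReal_cpow_const (zero_lt_one.trans ht).ne' (neg_ne_zero.mpr hs0), h₄]
    ring_nf
  rw [hlim] at hmain
  exact hmain.congr hS

/-- periodic sequences with mean zero have periodic partial sums -/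
theorem per_sum {q : ℕ} {f : ℕ → ℂ} (hf : ∀ n, f (n + q) = f n)
    (h0 : ∑ n ∈ Finset.range q, f n = 0) :
    ∀ N, ∑ n ∈ Finset.range (N + q), f n = ∑ n ∈ Finset.range N, f n := by
  intro N
  induction N with
  | zero => simpa using h0
  | succ N ih =>
    rw [show N + 1 + q = N + q + 1 by ring, Finset.sum_range_succ, ih, hf, Finset.sum_range_succ]

theorem per_bdd {q : ℕ} (hq : 0 < q) {f : ℕ → ℂ} (hf : ∀ n, f (n + q) = f n) :
    ∃ K : ℝ, 0 < K ∧ ∀ n, ‖f n‖ ≤ K := by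
  refine ⟨∑ n ∈ Finset.range q, ‖f n‖ + 1, by positivity, fun n => ?_⟩
  have h1 : f n = f (n % q) := by
    have hp : Function.Periodic f q := hf
    exact (hp.map_mod_nat n).symm
  rw [h1]
  have h2 : ‖f (n % q)‖ ≤ ∑ n ∈ Finset.range q, ‖f n‖ :=
    Finset.single_le_sum (f := fun n => ‖f n‖) (fun _ _ => norm_nonneg _)
      (Finset.mem_range.mpr (Nat.mod_lt n hq))
  linarith

theorem F01_diff2 (n : ℕ) (s : ℂ) (hs : 0 ≤ s.re) :
    ‖(((n : ℂ) + 1) ^ (-s) - ((n : ℂ) + 2) ^ (-s)) - (((n : ℂ) + 2) ^ (-s) - ((n : ℂ) + 3) ^ (-s))‖ ≤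
      ‖s‖ * ‖s + 1‖ * ((n : ℝ) + 1) ^ (-s.re - 2) := by
  set M : ℝ := ‖s + 1‖ * ((n : ℝ) + 1) ^ (-s.re - 2) with hM
  have hstep : ∀ x : ℝ, 0 ≤ x → ‖((n : ℂ) + 1 + x) ^ (-s - 1) - ((n : ℂ) + 1 + ((x + 1 : ℝ) : ℂ)) ^ (-s - 1)‖ ≤ M := by
    intro x hx
    have h := Convex.norm_image_sub_le_of_norm_hasDerivWithin_le (𝕜 := ℝ)
      (f := fun x : ℝ => ((n : ℂ) + 1 + x) ^ (-s - 1))
      (f' := fun x : ℝ => (-s - 1) * ((n : ℂ) + 1 + x) ^ (-s - 1 - 1))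
      (s := Icc (0:ℝ) (x + 1)) (x := x + 1) (y := x) (C := M)
      (fun y hy => (LZX.hasDerivAt_cpow_line n y hy.1 (-s - 1)).hasDerivWithinAt)
      (fun y hy => by
        rw [norm_mul, LZX.norm_cpow_line n y hy.1, show (-s - 1 : ℂ) = -(s + 1) by ring, norm_neg, hM]
        have h1 : (-(s + 1) - 1 : ℂ).re = -s.re - 2 := by
          simp only [sub_re, neg_re, add_re, one_re]; ring
        rw [h1]
        refine mul_le_mul_of_nonneg_left ?_ (norm_nonneg _)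
        exact Real.rpow_le_rpow_of_nonpos (by positivity) (by linarith [hy.1]) (by linarith))
      (convex_Icc 0 (x + 1)) ⟨by linarith, le_rfl⟩ ⟨hx, by linarith⟩
    have h2 : ‖x - (x + 1)‖ = 1 := by
      rw [show x - (x + 1) = -1 by ring, norm_neg, norm_one]
    rw [h2, mul_one] at h
    exact h
  have h := Convex.norm_image_sub_le_of_norm_hasDerivWithin_le (𝕜 := ℝ)
      (f := fun x : ℝ => ((n : ℂ) + 1 + x) ^ (-s) - ((n : ℂ) + 1 + ((x + 1 : ℝ) : ℂ)) ^ (-s))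
      (f' := fun x : ℝ => (-s) * ((n : ℂ) + 1 + x) ^ (-s - 1) -
        (-s) * ((n : ℂ) + 1 + ((x + 1 : ℝ) : ℂ)) ^ (-s - 1))
      (s := Icc (0:ℝ) 1) (x := 1) (y := 0) (C := ‖s‖ * M)
      (fun y hy => by
        refine HasDerivAt.hasDerivWithinAt (HasDerivAt.sub (LZX.hasDerivAt_cpow_line n y hy.1 (-s)) ?_)
        have h1 := LZX.hasDerivAt_cpow_line n (y + 1) (by linarith [hy.1]) (-s)
        exact HasDerivAt.comp_add_const y 1 h1)
      (fun y hy => by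
        rw [← mul_sub, norm_mul, norm_neg]
        exact mul_le_mul_of_nonneg_left (hstep y hy.1) (norm_nonneg _))
      (convex_Icc 0 1) (by simp) (by simp)
  have h2 : ‖(0 : ℝ) - 1‖ = 1 := by rw [zero_sub, norm_neg, norm_one]
  rw [h2, mul_one] at h
  have e : ((((n : ℂ) + 1) ^ (-s) - ((n : ℂ) + 2) ^ (-s)) - (((n : ℂ) + 2) ^ (-s) - ((n : ℂ) + 3) ^ (-s))) =
      (((n : ℂ) + 1 + ((0 : ℝ) : ℂ)) ^ (-s) - ((n : ℂ) + 1 + (((0 : ℝ) + 1 : ℝ) : ℂ)) ^ (-s)) -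
      (((n : ℂ) + 1 + ((1 : ℝ) : ℂ)) ^ (-s) - ((n : ℂ) + 1 + (((1 : ℝ) + 1 : ℝ) : ℂ)) ^ (-s)) := by
    have e1 : (n : ℂ) + 1 + ((0 : ℝ) : ℂ) = (n : ℂ) + 1 := by push_cast; ring
    have e2 : (n : ℂ) + 1 + (((0 : ℝ) + 1 : ℝ) : ℂ) = (n : ℂ) + 2 := by push_cast; ring
    have e3 : (n : ℂ) + 1 + ((1 : ℝ) : ℂ) = (n : ℂ) + 2 := by push_cast; ring
    have e4 : (n : ℂ) + 1 + (((1 : ℝ) + 1 : ℝ) : ℂ) = (n : ℂ) + 3 := by push_cast; ring
    rw [e1, e2, e3, e4]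
  rw [e]
  refine h.trans (le_of_eq ?_)
  rw [hM]
  ring

theorem F01_inv_sum (k M : ℕ) :
    ∑ n ∈ Finset.range M, 1 / (((n + k : ℕ) : ℝ) + 1) ^ 2 ≤ 2 / ((k : ℝ) + 1) := by
  have h : ∀ M : ℕ, ∑ n ∈ Finset.range M, 1 / (((n + k : ℕ) : ℝ) + 1) ^ 2 ≤
      2 / ((k : ℝ) + 1) - 2 / (((M + k : ℕ) : ℝ) + 1) := by
    intro M
    induction M with
    | zero => simp
    | succ M ih =>
      rw [Finset.sum_range_succ]
      have h1 : 1 / (((M + k : ℕ) : ℝ) + 1) ^ 2 ≤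
          2 / (((M + k : ℕ) : ℝ) + 1) - 2 / (((M + 1 + k : ℕ) : ℝ) + 1) := by
        have e : ((M + 1 + k : ℕ) : ℝ) = ((M + k : ℕ) : ℝ) + 1 := by push_cast; ring
        rw [e]
        set a : ℝ := ((M + k : ℕ) : ℝ) with ha
        have ha0 : 0 ≤ a := Nat.cast_nonneg _
        rw [div_sub_div _ _ (by positivity) (by positivity), div_le_div_iff₀ (by positivity) (by positivity)]
        have h9 := mul_nonneg ha0 (sq_nonneg (a + 1))
        have h8 := sq_nonneg (a + 1)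
        linarith [show (2 * (a + 1 + 1) - (a + 1) * 2) * (a + 1) ^ 2 = 2 * (a + 1) ^ 2 by ring,
          show 1 * ((a + 1) * (a + 1 + 1)) = (a + 1) ^ 2 + (a + 1) by ring,
          show (a + 1) ^ 2 = a * a + 2 * a + 1 by ring, mul_nonneg ha0 ha0]
      linarith
  refine (h M).trans ?_
  have : 0 ≤ 2 / (((M + k : ℕ) : ℝ) + 1) := by positivity
  linarith

theorem F01_pow_sum (k M : ℕ) :
    ∑ n ∈ Finset.range M, (((n + k : ℕ) : ℝ) + 1) ^ (-(5/2) : ℝ) ≤ 2 * ((k : ℝ) + 1) ^ (-(3/2) : ℝ) := by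
  have hk0 : (0 : ℝ) < (k : ℝ) + 1 := by positivity
  have hpow : ∀ m : ℕ, ((m : ℝ) + 1) ^ (-(5/2) : ℝ) =
      1 / (Real.sqrt ((m : ℝ) + 1)) * (1 / ((m : ℝ) + 1) ^ 2) := by
    intro m
    have hm : (0 : ℝ) < (m : ℝ) + 1 := by positivity
    rw [show (-(5/2) : ℝ) = -(1/2) + (-2) by norm_num, Real.rpow_add hm, Real.rpow_neg hm.le,
      ← Real.sqrt_eq_rpow, Real.rpow_neg hm.le, Real.rpow_two]
    rw [one_div, one_div]
  have e3 : ∀ n ∈ Finset.range M, (((n + k : ℕ) : ℝ) + 1) ^ (-(5/2) : ℝ) ≤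
      1 / Real.sqrt ((k : ℝ) + 1) * (1 / (((n + k : ℕ) : ℝ) + 1) ^ 2) := by
    intro n _
    rw [hpow]
    apply mul_le_mul_of_nonneg_right _ (by positivity)
    apply one_div_le_one_div_of_le (Real.sqrt_pos.2 hk0)
    apply Real.sqrt_le_sqrt
    push_cast
    linarith [Nat.cast_nonneg (α := ℝ) n]
  refine (Finset.sum_le_sum e3).trans ?_
  rw [← Finset.mul_sum]
  refine (mul_le_mul_of_nonneg_left (F01_inv_sum k M) (by positivity)).trans (le_of_eq ?_)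
  rw [show (-(3/2) : ℝ) = -(1/2) + (-1) by norm_num, Real.rpow_add hk0, Real.rpow_neg hk0.le,
    ← Real.sqrt_eq_rpow, Real.rpow_neg_one]
  ring

private theorem F01_fin {KA KB P Z : ℝ} (hA : 0 ≤ KA) (hB : 0 ≤ KB) (hP : 0 ≤ P) (hZ : 0 ≤ Z) :
    KB * (4 * Z) + (KA * P + KB * Z) ≤ (KA + 10 * KB) * (P + Z) := by
  have h1 := mul_nonneg hA hZ
  have h2 := mul_nonneg hB hP
  have h3 := mul_nonneg hB hZ
  linarith [show (KA + 10 * KB) * (P + Z) = KA * P + KA * Z + 10 * (KB * P) + 10 * (KB * Z) by ring,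
    show KB * (4 * Z) + (KA * P + KB * Z) = KA * P + 5 * (KB * Z) by ring]

private theorem F01_t1 (t : ℝ) : 1 + |t| ≤ (1 + |t|) ^ 2 :=
  le_self_pow₀ (by linarith [abs_nonneg t]) two_ne_zero

private theorem F01_t0 (t : ℝ) : 0 ≤ 1 + |t| := by linarith [abs_nonneg t]

private theorem F01_ns (t : ℝ) : ‖(1/2 : ℂ) + t * I‖ ≤ 1 + |t| := by
  have h1 : ‖(1/2 : ℂ) + t * I‖ ≤ ‖(1/2 : ℂ)‖ + ‖(t : ℂ) * I‖ := norm_add_le _ _
  rw [norm_mul, Complex.norm_I, mul_one, Complex.norm_real, Real.norm_eq_abs] at h1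
  have h2 : ‖(1/2 : ℂ)‖ = 1/2 := by norm_num
  rw [h2] at h1
  linarith

private theorem F01_ns1 (t : ℝ) : ‖(1/2 : ℂ) + t * I + 1‖ ≤ 2 * (1 + |t|) := by
  have h1 : ‖(1/2 : ℂ) + t * I + 1‖ ≤ ‖(1/2 : ℂ) + t * I‖ + ‖(1 : ℂ)‖ := norm_add_le _ _
  rw [norm_one] at h1
  linarith [abs_nonneg t, F01_ns t]

private theorem F01_pw {n : ℕ} (hn : 1 ≤ n) {a : ℝ} (ha : a ≤ 0) :
    ((n : ℝ) + 1) ^ a ≤ (n : ℝ) ^ a :=
  Real.rpow_le_rpow_of_nonpos (by exact_mod_cast hn) (by linarith) ha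

private theorem F01_pw0 (n : ℕ) (a : ℝ) : 0 ≤ (n : ℝ) ^ a := Real.rpow_nonneg (Nat.cast_nonneg n) a

private theorem F01_pw1 (n : ℕ) (a : ℝ) : 0 ≤ ((n : ℝ) + 1) ^ a :=
  Real.rpow_nonneg (by linarith [Nat.cast_nonneg (α := ℝ) n]) a

private theorem F01_D2 {x y u p r : ℝ} (hu : 0 ≤ u) (hy : 0 ≤ y) (h1 : x ≤ u)
    (h2 : y ≤ 2 * u) (hp : 0 ≤ p) (h3 : p ≤ r) : x * y * (2 * p) ≤ 4 * (u ^ 2 * r) := by
  calc x * y * (2 * p) ≤ u * (2 * u) * (2 * r) :=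
        mul_le_mul (mul_le_mul h1 h2 hy hu) (by linarith) (by linarith) (mul_nonneg hu (by linarith))
    _ = _ := by ring

/-- second order summation by parts. -/
theorem L_em {q : ℕ} [NeZero q] {χ : DirichletCharacter ℂ q} (hχ : χ ≠ 1) :
    ∃ C : ℝ, 0 < C ∧ ∀ (t : ℝ) (N : ℕ), 1 ≤ N →
    ‖Lf χ (1/2 + t * I) - ∑ n ∈ Finset.Icc 1 N, χ (n : ZMod q) * (n : ℂ) ^ (-(1/2 + t * I))‖ ≤
      C * ((N : ℝ) ^ (-(1/2) : ℝ) + (1 + |t|) ^ 2 * (N : ℝ) ^ (-(3/2) : ℝ)) := by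
  have hq : 0 < q := Nat.pos_of_ne_zero (NeZero.ne q)
  have hqC : (q : ℂ) ≠ 0 := by exact_mod_cast hq.ne'
  set c : ℕ → ℂ := fun n => χ ((n + 1 : ℕ) : ZMod q) with hc
  have hcper : ∀ n, c (n + q) = c n := fun n => by
    simp only [hc]
    congr 1
    push_cast
    rw [ZMod.natCast_self]
    ring
  have hc0 : ∑ n ∈ Finset.range q, c n = 0 := by
    have h1 := w06_shift q (fun a => χ a) 0
    rw [MulChar.sum_eq_zero_of_ne_one hχ] at h1
    rw [← h1]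
    refine Finset.sum_congr rfl fun n _ => ?_
    simp only [hc]
    congr 2
    omega
  set A : ℕ → ℂ := fun N => ∑ n ∈ Finset.range N, c n with hA
  have hAper : ∀ n, A (n + q) = A n := per_sum hcper hc0
  set a : ℂ := (q : ℂ)⁻¹ * ∑ n ∈ Finset.range q, A n with ha
  set A' : ℕ → ℂ := fun N => A N - a with hA'
  have hA'per : ∀ n, A' (n + q) = A' n := fun n => by simp only [hA']; rw [hAper]
  have hA'0 : ∑ n ∈ Finset.range q, A' n = 0 := by
    simp only [hA']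
    rw [Finset.sum_sub_distrib, Finset.sum_const, Finset.card_range, nsmul_eq_mul, ha, ← mul_assoc,
      mul_inv_cancel₀ hqC, one_mul, sub_self]
  set B : ℕ → ℂ := fun N => ∑ n ∈ Finset.range N, A' n with hB
  have hBper : ∀ n, B (n + q) = B n := per_sum hA'per hA'0
  obtain ⟨KA, hKA0, hKA⟩ := per_bdd hq hA'per
  obtain ⟨KB, hKB0, hKB⟩ := per_bdd hq hBper
  refine ⟨KA + 10 * KB, by positivity, ?_⟩
  intro t N hN
  set s : ℂ := 1/2 + t * I with hs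
  have hre : s.re = 1/2 := by simp [hs]
  have hre0 : 0 < s.re := by rw [hre]; norm_num
  set f : ℕ → ℂ := fun n => ((n : ℂ) + 1) ^ (-s) with hf
  set g : ℕ → ℂ := fun n => f n - f (n + 1) with hg
  set S : ℕ → ℂ := fun N => ∑ n ∈ Finset.range N, c n * f n with hS
  set V : ℕ → ℂ := fun N => S N - A' N * f N - B (N + 1) * g N with hV
  have hSeq : ∀ N : ℕ, ∑ n ∈ Finset.Icc 1 N, χ (n : ZMod q) * (n : ℂ) ^ (-s) = S N := by
    intro N
    rw [w06_range (fun n => χ (n : ZMod q) * (n : ℂ) ^ (-s)) N]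
    refine Finset.sum_congr rfl fun n _ => ?_
    simp only [hc, hf]
    push_cast
    rfl
  have hVstep : ∀ n, V (n + 1) - V n = B (n + 2) * (g n - g (n + 1)) := by
    intro n
    have h1 : S (n + 1) = S n + c n * f n := by simp only [hS]; rw [Finset.sum_range_succ]
    have h2 : c n = A' (n + 1) - A' n := by
      simp only [hA', hA]; rw [Finset.sum_range_succ]; ring
    have h3 : A' (n + 1) = B (n + 2) - B (n + 1) := by
      simp only [hB]; rw [Finset.sum_range_succ _ (n + 1)]; ring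
    simp only [hV]
    rw [h1, h2, show n + 1 + 1 = n + 2 by ring, h3]
    simp only [hg]
    rw [show n + 1 + 1 = n + 2 by ring]
    ring
  have hfn : ∀ n : ℕ, ‖f n‖ = ((n : ℝ) + 1) ^ (-(1/2) : ℝ) := by
    intro n
    have := LZX.norm_cpow_line n 0 le_rfl (-s)
    simp only [ofReal_zero, add_zero, neg_re, hre] at this
    simp only [hf]
    exact this
  have hg2 : ∀ n : ℕ, ‖g n - g (n + 1)‖ ≤ ‖s‖ * ‖s + 1‖ * ((n : ℝ) + 1) ^ (-(5/2) : ℝ) := by
    intro n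
    have h1 := F01_diff2 n s (by rw [hre]; norm_num)
    rw [hre, show (-(1/2) - 2 : ℝ) = -(5/2) by norm_num] at h1
    have e : g n - g (n + 1) = (((n : ℂ) + 1) ^ (-s) - ((n : ℂ) + 2) ^ (-s)) -
        (((n : ℂ) + 2) ^ (-s) - ((n : ℂ) + 3) ^ (-s)) := by
      simp only [hg, hf]
      push_cast
      rw [show (n : ℂ) + 1 + 1 = (n : ℂ) + 2 by ring, show (n : ℂ) + 2 + 1 = (n : ℂ) + 3 by ring]
    rw [e]
    exact h1
  have hg1 : ‖g N‖ ≤ ‖s‖ * ((N : ℝ) + 1) ^ (-(3/2) : ℝ) := by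
    have h := Convex.norm_image_sub_le_of_norm_hasDerivWithin_le (𝕜 := ℝ)
      (f := fun x : ℝ => ((N : ℂ) + 1 + x) ^ (-s))
      (f' := fun x : ℝ => (-s) * ((N : ℂ) + 1 + x) ^ (-s - 1))
      (s := Icc (0:ℝ) 1) (x := 1) (y := 0) (C := ‖s‖ * ((N : ℝ) + 1) ^ (-(3/2) : ℝ))
      (fun y hy => (LZX.hasDerivAt_cpow_line N y hy.1 (-s)).hasDerivWithinAt)
      (fun y hy => by
        rw [norm_mul, LZX.norm_cpow_line N y hy.1, norm_neg]
        have h1 : (-s - 1 : ℂ).re = -(3/2) := by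
          simp only [sub_re, neg_re, one_re, hre]; norm_num
        rw [h1]
        refine mul_le_mul_of_nonneg_left ?_ (norm_nonneg _)
        exact Real.rpow_le_rpow_of_nonpos (by positivity) (by linarith [hy.1]) (by norm_num))
      (convex_Icc 0 1) (by simp) (by simp)
    have h2 : ‖(0 : ℝ) - 1‖ = 1 := by rw [zero_sub, norm_neg, norm_one]
    rw [h2, mul_one] at h
    simp only [ofReal_zero, add_zero, ofReal_one] at h
    have e : g N = ((N : ℂ) + 1) ^ (-s) - ((N : ℂ) + 1 + 1) ^ (-s) := by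
      simp only [hg, hf]
      push_cast
      rfl
    rw [e]
    exact h
  -- limits
  have hflim : Tendsto f atTop (𝓝 0) := by
    rw [tendsto_zero_iff_norm_tendsto_zero]
    have e2 : Tendsto (fun n : ℕ => ((n : ℝ) + 1) ^ (-(1/2) : ℝ)) atTop (𝓝 0) := by
      apply (tendsto_rpow_neg_atTop (by norm_num : (0:ℝ) < 1/2)).comp
      apply tendsto_atTop_add_const_right
      exact tendsto_natCast_atTop_atTop
    exact e2.congr fun n => (hfn n).symm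
  have hglim : Tendsto g atTop (𝓝 0) := by
    have := hflim.sub (hflim.comp (tendsto_add_atTop_nat 1))
    rw [sub_zero] at this
    exact this
  have hAf : Tendsto (fun n => A' n * f n) atTop (𝓝 0) :=
    squeeze_zero_norm (a := fun n => KA * ‖f n‖) (fun n => by
      rw [norm_mul]
      exact mul_le_mul_of_nonneg_right (hKA n) (norm_nonneg _)) (by
      have := (tendsto_norm_zero.comp hflim).const_mul KA
      simpa using this)
  have hBg : Tendsto (fun n => B (n + 1) * g n) atTop (𝓝 0) :=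
    squeeze_zero_norm (a := fun n => KB * ‖g n‖) (fun n => by
      rw [norm_mul]
      exact mul_le_mul_of_nonneg_right (hKB _) (norm_nonneg _)) (by
      have := (tendsto_norm_zero.comp hglim).const_mul KB
      simpa using this)
  have hSlim : Tendsto S atTop (𝓝 (Lf χ s)) := (L_tendsto hχ hre0).congr hSeq
  have hVlim : Tendsto V atTop (𝓝 (Lf χ s)) := by
    have := (hSlim.sub hAf).sub hBg
    rw [sub_zero, sub_zero] at this
    exact this
  -- tail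
  set D : ℝ := KB * (‖s‖ * ‖s + 1‖ * (2 * ((N : ℝ) + 1) ^ (-(3/2) : ℝ))) with hD
  have htail : ∀ M : ℕ, ‖V (M + N) - V N‖ ≤ D := by
    intro M
    have e1 : V (M + N) - V N = ∑ n ∈ Finset.range M, (V (n + 1 + N) - V (n + N)) := by
      rw [Finset.sum_range_sub (fun n => V (n + N)), zero_add]
    rw [e1]
    refine (norm_sum_le _ _).trans ?_
    have h1 : ∀ n ∈ Finset.range M, ‖V (n + 1 + N) - V (n + N)‖ ≤
        KB * (‖s‖ * ‖s + 1‖ * (((n + N : ℕ) : ℝ) + 1) ^ (-(5/2) : ℝ)) := by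
      intro n _
      rw [show n + 1 + N = n + N + 1 by ring, hVstep, norm_mul]
      exact mul_le_mul (hKB _) (hg2 _) (norm_nonneg _) hKB0.le
    refine (Finset.sum_le_sum h1).trans ?_
    rw [← Finset.mul_sum, ← Finset.mul_sum, hD]
    have := F01_pow_sum N M
    exact mul_le_mul_of_nonneg_left (mul_le_mul_of_nonneg_left this
      (mul_nonneg (norm_nonneg _) (norm_nonneg _))) hKB0.le
  have hVN : ‖Lf χ s - V N‖ ≤ D := by
    have h1 : Tendsto (fun M : ℕ => ‖V (M + N) - V N‖) atTop (𝓝 ‖Lf χ s - V N‖) :=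
      (((hVlim.comp (tendsto_add_atTop_nat N))).sub_const _).norm
    exact le_of_tendsto h1 (Eventually.of_forall htail)
  have hns : ‖s‖ ≤ 1 + |t| := F01_ns t
  have hns1 : ‖s + 1‖ ≤ 2 * (1 + |t|) := F01_ns1 t
  have hp1 : ((N : ℝ) + 1) ^ (-(1/2) : ℝ) ≤ (N : ℝ) ^ (-(1/2) : ℝ) := F01_pw hN (by norm_num)
  have hp3 : ((N : ℝ) + 1) ^ (-(3/2) : ℝ) ≤ (N : ℝ) ^ (-(3/2) : ℝ) := F01_pw hN (by norm_num)
  have hP1 : 0 ≤ (N : ℝ) ^ (-(1/2) : ℝ) := F01_pw0 N _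
  have hP3 : 0 ≤ (N : ℝ) ^ (-(3/2) : ℝ) := F01_pw0 N _
  have hVS : ‖V N - S N‖ ≤ KA * (N : ℝ) ^ (-(1/2) : ℝ) + KB * ((1 + |t|) * (N : ℝ) ^ (-(3/2) : ℝ)) := by
    have e : V N - S N = -(A' N * f N) - B (N + 1) * g N := by simp only [hV]; ring
    rw [e]
    refine (norm_sub_le _ _).trans ?_
    rw [norm_neg, norm_mul, norm_mul, hfn]
    refine add_le_add ?_ ?_
    · exact mul_le_mul (hKA N) hp1 (F01_pw1 _ _) hKA0.le
    · refine mul_le_mul (hKB _) (hg1.trans ?_) (norm_nonneg _) hKB0.le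
      exact mul_le_mul hns hp3 (F01_pw1 _ _) (F01_t0 t)
  have hD2 : D ≤ KB * (4 * ((1 + |t|) ^ 2 * (N : ℝ) ^ (-(3/2) : ℝ))) := by
    rw [hD]
    exact mul_le_mul_of_nonneg_left (F01_D2 (F01_t0 t) (norm_nonneg _) hns hns1
      (F01_pw1 _ _) hp3) hKB0.le
  rw [hSeq]
  have h1t : 1 + |t| ≤ (1 + |t|) ^ 2 := F01_t1 t
  calc ‖Lf χ s - S N‖ = ‖(Lf χ s - V N) + (V N - S N)‖ := by congr 1; ring
    _ ≤ ‖Lf χ s - V N‖ + ‖V N - S N‖ := norm_add_le _ _
    _ ≤ KB * (4 * ((1 + |t|) ^ 2 * (N : ℝ) ^ (-(3/2) : ℝ))) +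
        (KA * (N : ℝ) ^ (-(1/2) : ℝ) + KB * ((1 + |t|) * (N : ℝ) ^ (-(3/2) : ℝ))) :=
          add_le_add (hVN.trans hD2) hVS
    _ ≤ KB * (4 * ((1 + |t|) ^ 2 * (N : ℝ) ^ (-(3/2) : ℝ))) +
        (KA * (N : ℝ) ^ (-(1/2) : ℝ) + KB * ((1 + |t|) ^ 2 * (N : ℝ) ^ (-(3/2) : ℝ))) :=
          add_le_add le_rfl (add_le_add le_rfl (mul_le_mul_of_nonneg_left
            (mul_le_mul_of_nonneg_right h1t hP3) hKB0.le))
    _ ≤ (KA + 10 * KB) * ((N : ℝ) ^ (-(1/2) : ℝ) + (1 + |t|) ^ 2 * (N : ℝ) ^ (-(3/2) : ℝ)) :=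
        F01_fin hKA0.le hKB0.le hP1 (mul_nonneg (sq_nonneg _) hP3)

end LX

end F_X_F01

section F_E05

open Complex MeasureTheory Set Filter Topology
open scoped ComplexConjugate

namespace LZ

private theorem E05_norm_sum_mul_sq (Y : Finset ℝ) (b d : ℝ → ℂ) :
    ‖∑ y ∈ Y, b y * d y‖ ^ 2 ≤ (∑ y ∈ Y, ‖b y‖ ^ 2) * ∑ y ∈ Y, ‖d y‖ ^ 2 := by
  have h1 : ‖∑ y ∈ Y, b y * d y‖ ≤ ∑ y ∈ Y, ‖b y‖ * ‖d y‖ := by
    refine (norm_sum_le _ _).trans (Finset.sum_le_sum fun y _ => ?_)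
    rw [norm_mul]
  calc ‖∑ y ∈ Y, b y * d y‖ ^ 2 ≤ (∑ y ∈ Y, ‖b y‖ * ‖d y‖) ^ 2 :=
        pow_le_pow_left₀ (norm_nonneg _) h1 2
    _ ≤ _ := Finset.sum_mul_sq_le_sq_mul_sq _ _ _

/-- duality (Cauchy-Schwarz). -/
theorem dual_sieve (r d : ℝ) (hr : r ≠ 0) (hd : 0 < d) : ∃ C T0 : ℝ, 0 < C ∧ 2 ≤ T0 ∧ ∀ T : ℝ, T0 ≤ T →
    ∀ Y : Finset ℝ, (∀ y ∈ Y, |y| ≤ T) → Sep (d / Real.log T) Y → ∀ (N : ℕ), 1 ≤ N → (N : ℝ) ≤ T ^ 2 →
    ∀ b : ℝ → ℂ, ∑ n ∈ Finset.Ioc N (2 * N), ‖∑ y ∈ Y, b y * (n : ℂ) ^ (-(r * y * I))‖ ^ 2 ≤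
      C * Real.log T * (T + N) * ∑ y ∈ Y, ‖b y‖ ^ 2 := by
  obtain ⟨C, T0, hC, hT0, H⟩ := primal_sieve r d hr hd
  refine ⟨C, T0, hC, hT0, fun T hT Y hY hS N hN hNT b => ?_⟩
  have hT1 : 1 < T := by linarith
  have hlog : 0 < Real.log T := Real.log_pos hT1
  set Δ : ℝ := C * Real.log T * (T + N) with hΔ
  have hΔ0 : 0 < Δ := by positivity
  set S : ℝ := ∑ n ∈ Finset.Ioc N (2 * N), ‖∑ y ∈ Y, b y * (n : ℂ) ^ (-(r * y * I))‖ ^ 2 with hSdef
  set c : ℕ → ℂ := fun n => conj (∑ y ∈ Y, b y * (n : ℂ) ^ (-(r * y * I))) with hc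
  have hS0 : 0 ≤ S := Finset.sum_nonneg fun n _ => by positivity
  have hcn : ∑ n ∈ Finset.Ioc N (2 * N), ‖c n‖ ^ 2 = S := by
    rw [hSdef]
    refine Finset.sum_congr rfl fun n _ => ?_
    rw [hc]
    simp only [RCLike.norm_conj]
  have hSe : (S : ℂ) = ∑ y ∈ Y, b y * ∑ n ∈ Finset.Ioc N (2 * N), c n * (n : ℂ) ^ (-(r * y * I)) := by
    have h1 : (S : ℂ) = ∑ n ∈ Finset.Ioc N (2 * N), c n * ∑ y ∈ Y, b y * (n : ℂ) ^ (-(r * y * I)) := by
      rw [hSdef]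
      push_cast
      refine Finset.sum_congr rfl fun n _ => ?_
      rw [hc]
      simp only
      rw [← Complex.normSq_eq_conj_mul_self, Complex.normSq_eq_norm_sq]
      push_cast
      rfl
    rw [h1]
    simp only [Finset.mul_sum]
    rw [Finset.sum_comm]
    refine Finset.sum_congr rfl fun y _ => Finset.sum_congr rfl fun n _ => ?_
    ring
  have hprimal := H T hT Y hY hS N hN hNT c
  rw [hcn] at hprimal
  have hCS := E05_norm_sum_mul_sq Y b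
    (fun y => ∑ n ∈ Finset.Ioc N (2 * N), c n * (n : ℂ) ^ (-(r * y * I)))
  rw [← hSe] at hCS
  have hn : ‖(S : ℂ)‖ ^ 2 = S ^ 2 := by
    rw [Complex.norm_real, Real.norm_eq_abs, sq_abs]
  rw [hn] at hCS
  have hB0 : 0 ≤ ∑ y ∈ Y, ‖b y‖ ^ 2 := Finset.sum_nonneg fun y _ => by positivity
  have h2 : S ^ 2 ≤ (∑ y ∈ Y, ‖b y‖ ^ 2) * (Δ * S) :=
    hCS.trans (mul_le_mul_of_nonneg_left hprimal hB0)
  rcases eq_or_lt_of_le hS0 with h | h
  · rw [← h]; positivity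
  · by_contra hcon
    push Not at hcon
    have : (∑ y ∈ Y, ‖b y‖ ^ 2) * (Δ * S) < S ^ 2 := by
      calc (∑ y ∈ Y, ‖b y‖ ^ 2) * (Δ * S) = (Δ * ∑ y ∈ Y, ‖b y‖ ^ 2) * S := by ring
        _ < S * S := mul_lt_mul_of_pos_right hcon h
        _ = S ^ 2 := by ring
    linarith

end LZ

end F_E05

section F_F03

open Complex MeasureTheory Set Filter Topology
open scoped ComplexConjugate

namespace LZ

theorem F03_two (a : ℕ) : ((a : ℝ) + 1) ≤ 12 * (2 : ℝ) ^ ((a : ℝ) / 8) := by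
  have h1 : (2 : ℝ) ^ ((a : ℝ) / 8) = Real.exp (Real.log 2 * ((a : ℝ) / 8)) :=
    Real.rpow_def_of_pos two_pos _
  have h2 := Real.add_one_le_exp (Real.log 2 * ((a : ℝ) / 8))
  have h3 := Real.log_two_gt_d9
  have ha : (0 : ℝ) ≤ a := Nat.cast_nonneg a
  rw [h1]
  nlinarith

theorem F03_big (a p : ℕ) (hp : 256 ≤ p) : ((a : ℝ) + 1) ≤ ((p : ℝ) ^ a) ^ (1 / 8 : ℝ) := by
  have h1 : ((256 : ℝ) ^ a) ^ (1 / 8 : ℝ) ≤ ((p : ℝ) ^ a) ^ (1 / 8 : ℝ) := by
    apply Real.rpow_le_rpow (by positivity) _ (by norm_num)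
    exact pow_le_pow_left₀ (by norm_num) (by exact_mod_cast hp) a
  have h2 : ((256 : ℝ) ^ a) ^ (1 / 8 : ℝ) = 2 ^ a := by
    have h3 : (256 : ℝ) ^ a = ((2 : ℝ) ^ a) ^ (8 : ℕ) := by
      rw [← pow_mul, mul_comm a 8, pow_mul]
      norm_num
    have h4 : (1 / 8 : ℝ) = ((8 : ℕ) : ℝ)⁻¹ := by norm_num
    rw [h3, h4]
    exact Real.pow_rpow_inv_natCast (by positivity) (by norm_num)
  rw [h2] at h1
  refine le_trans ?_ h1
  have h5 : a + 1 ≤ 2 ^ a := Nat.lt_two_pow_self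
  exact_mod_cast h5

/-- divisor bound with exponent 1/8 (d(n)/n^(1/8) is a product over p^a of (a+1)/p^(a/8)). -/
theorem div_bound : ∃ C : ℝ, 0 < C ∧ ∀ n : ℕ, 1 ≤ n → (n.divisors.card : ℝ) ≤ C * (n : ℝ) ^ (1/8 : ℝ) := by
  classical
  refine ⟨12 ^ 256, by positivity, fun n hn => ?_⟩
  have hn0 : n ≠ 0 := by omega
  rw [Nat.card_divisors hn0]
  push_cast
  have h1 : ∀ p ∈ n.primeFactors, ((n.factorization p : ℝ) + 1) ≤
      (if p < 256 then 12 else 1) * ((p : ℝ) ^ (n.factorization p)) ^ (1 / 8 : ℝ) := by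
    intro p hp
    have hpp := Nat.prime_of_mem_primeFactors hp
    split_ifs with h
    · refine (F03_two _).trans (mul_le_mul_of_nonneg_left ?_ (by norm_num))
      have h2 : (2 : ℝ) ^ ((n.factorization p : ℝ) / 8) =
          ((2 : ℝ) ^ (n.factorization p)) ^ (1 / 8 : ℝ) := by
        rw [← Real.rpow_natCast, ← Real.rpow_mul (by norm_num)]
        congr 1
        ring
      rw [h2]
      apply Real.rpow_le_rpow (by positivity) _ (by norm_num)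
      exact pow_le_pow_left₀ (by norm_num) (by exact_mod_cast hpp.two_le) _
    · rw [one_mul]
      exact F03_big _ _ (by omega)
  have h2 : (∏ p ∈ n.primeFactors, ((n.factorization p : ℝ) + 1)) ≤
      ∏ p ∈ n.primeFactors, ((if p < 256 then 12 else 1) *
        ((p : ℝ) ^ (n.factorization p)) ^ (1 / 8 : ℝ)) :=
    Finset.prod_le_prod (fun p _ => by positivity) h1
  refine h2.trans ?_
  rw [Finset.prod_mul_distrib]
  have h3 : ∏ p ∈ n.primeFactors, ((p : ℝ) ^ (n.factorization p)) ^ (1 / 8 : ℝ) =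
      (n : ℝ) ^ (1 / 8 : ℝ) := by
    rw [Real.finset_prod_rpow _ _ (fun p _ => by positivity)]
    congr 1
    have h4 := Nat.factorization_prod_pow_eq_self hn0
    rw [Finsupp.prod] at h4
    rw [Nat.support_factorization] at h4
    exact_mod_cast h4
  rw [h3]
  refine mul_le_mul_of_nonneg_right ?_ (by positivity)
  rw [Finset.prod_ite, Finset.prod_const_one, mul_one, Finset.prod_const]
  refine pow_le_pow_right₀ (by norm_num) ?_
  calc (n.primeFactors.filter fun p => p < 256).card ≤ (Finset.range 256).card := by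
        refine Finset.card_le_card fun p hp => ?_
        rw [Finset.mem_range]
        exact (Finset.mem_filter.mp hp).2
    _ = 256 := Finset.card_range 256

end LZ

end F_F03

section F_X_F02

open Complex MeasureTheory Set Filter Topology

namespace LX

open LZ

theorem char_zero {q : ℕ} [NeZero q] (χ : DirichletCharacter ℂ q) {p n : ℕ} (hp : p.Prime)
    (hpn : p ∣ n) (hpq : p ∣ q) : χ (n : ZMod q) = 0 := by
  apply χ.map_nonunit
  rw [ZMod.isUnit_iff_coprime]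
  exact Nat.not_coprime_of_dvd_of_dvd hp.one_lt hpn hpq

/-- coefficients of (sum over n <= N) times the mollifier. -/
theorem F02_prod {q : ℕ} [NeZero q] (χ : DirichletCharacter ℂ q) (N : ℕ) (l : ℝ) (s : ℂ)
    (hl : 0 < l) :
      (∑ n ∈ Finset.Icc 1 N, χ (n : ZMod q) * (n : ℂ) ^ (-s)) * Mol χ 1 l s =
        ∑ n ∈ Finset.Icc 1 (N * ⌊Real.exp l⌋₊), χ (n : ZMod q) * (cN N l n : ℂ) * (n : ℂ) ^ (-s) := by
  unfold Mol cN
  rw [Finset.sum_mul_sum]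
  have hR : ∀ n ∈ Finset.Icc 1 (N * ⌊Real.exp l⌋₊),
      χ (n : ZMod q) * ((∑ S ∈ (PP ⌊Real.exp l⌋₊).powerset.filter
        (fun S => nS S ∣ n ∧ n / nS S ≤ N ∧ 1 ≤ n), cf 1 l S : ℝ) : ℂ) * (n : ℂ) ^ (-s) =
      ∑ S ∈ (PQ q ⌊Real.exp l⌋₊).powerset, if (nS S ∣ n ∧ n / nS S ≤ N ∧ 1 ≤ n) then
        (cf 1 l S : ℂ) * χ (n : ZMod q) * (n : ℂ) ^ (-s) else 0 := by
    intro n _
    have h1 : ∑ S ∈ (PQ q ⌊Real.exp l⌋₊).powerset, (if (nS S ∣ n ∧ n / nS S ≤ N ∧ 1 ≤ n) then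
        (cf 1 l S : ℂ) * χ (n : ZMod q) * (n : ℂ) ^ (-s) else 0) =
        ∑ S ∈ (PP ⌊Real.exp l⌋₊).powerset, (if (nS S ∣ n ∧ n / nS S ≤ N ∧ 1 ≤ n) then
        (cf 1 l S : ℂ) * χ (n : ZMod q) * (n : ℂ) ^ (-s) else 0) := by
      refine Finset.sum_subset (PQ_pow_sub q _) fun S hS hS' => ?_
      rw [ite_eq_right_iff]
      intro h
      rw [Finset.mem_powerset, Finset.not_subset] at hS'
      obtain ⟨p, hpS, hpQ⟩ := hS'
      have hpP := Finset.mem_powerset.mp hS hpS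
      have hpq : p ∣ q := by
        by_contra hc
        exact hpQ (Finset.mem_filter.mpr ⟨hpP, hc⟩)
      have hpp : p.Prime := (Finset.mem_filter.mp hpP).2
      rw [char_zero χ hpp ((Finset.dvd_prod_of_mem (fun p => p) hpS).trans h.1) hpq]
      ring
    rw [h1, ← Finset.sum_filter]
    push_cast
    rw [Finset.mul_sum, Finset.sum_mul]
    refine Finset.sum_congr rfl fun S _ => ?_
    ring
  rw [Finset.sum_congr rfl hR]
  refine Finset.sum_comm.trans (Eq.trans ?_ Finset.sum_comm)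
  apply Finset.sum_congr rfl
  intro S hS
  by_cases hcf : cf 1 l S = 0
  · simp [hcf]
  have hle := ((cf_sum (q := q) 1 l (by norm_num) le_rfl hl ⌊Real.exp l⌋₊).2.1 S hS hcf).2
  have hle' : nS S ≤ ⌊Real.exp l⌋₊ := (Nat.le_floor_iff (Real.exp_pos l).le).2 hle
  have hpos := nS_pos' hS
  rw [← Finset.sum_filter]
  refine Finset.sum_nbij' (fun m => m * nS S) (fun n => n / nS S) ?_ ?_ ?_ ?_ ?_
  · intro m hm
    rw [Finset.mem_Icc] at hm
    rw [Finset.mem_filter, Finset.mem_Icc]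
    have h1 : 1 ≤ m * nS S := Nat.mul_pos (by omega) hpos
    refine ⟨⟨h1, Nat.mul_le_mul hm.2 hle'⟩, Dvd.intro_left _ rfl, ?_, h1⟩
    rw [Nat.mul_div_cancel _ hpos]
    exact hm.2
  · intro n hn
    rw [Finset.mem_filter, Finset.mem_Icc] at hn
    rw [Finset.mem_Icc]
    refine ⟨?_, hn.2.2.1⟩
    exact Nat.div_pos (Nat.le_of_dvd (by omega) hn.2.1) hpos
  · intro m _
    exact Nat.mul_div_cancel _ hpos
  · intro n hn
    rw [Finset.mem_filter] at hn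
    exact Nat.div_mul_cancel hn.2.1
  · intro m _
    rw [Nat.cast_mul (α := ZMod q), map_mul, Nat.cast_mul (α := ℂ), Complex.natCast_mul_natCast_cpow]
    ring

end LX

end F_X_F02

section F_F01

open Complex MeasureTheory Set Filter Topology
open scoped ComplexConjugate

namespace LZ

private theorem F01_trap (n : ℕ) (s : ℂ) (hs : 0 ≤ s.re) :
    ‖LZX.vt n s - (s - 1) / 2 * (((n : ℂ) + 1) ^ (-s) - ((n : ℂ) + 2) ^ (-s))‖ ≤
      ‖s - 1‖ * ‖s‖ * ‖s + 1‖ / 2 * ((n : ℝ) + 1) ^ (-s.re - 2) := by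
  set M : ℝ := ‖s - 1‖ * ‖s‖ * ‖s + 1‖ * ((n : ℝ) + 1) ^ (-s.re - 2) with hM
  have hMn : 0 ≤ M := by positivity
  have d0 : ∀ x : ℝ, 0 ≤ x → HasDerivAt (fun x : ℝ => ((n : ℂ) + 1 + x) ^ (1 - s))
      ((1 - s) * ((n : ℂ) + 1 + x) ^ (-s)) x := by
    intro x hx
    have := LZX.hasDerivAt_cpow_line n x hx (1 - s)
    rwa [show 1 - s - 1 = -s by ring] at this
  have d1 : ∀ x : ℝ, 0 ≤ x → HasDerivAt (fun x : ℝ => (1 - s) * ((n : ℂ) + 1 + x) ^ (-s))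
      ((1 - s) * (-s * ((n : ℂ) + 1 + x) ^ (-s - 1))) x := fun x hx =>
    (LZX.hasDerivAt_cpow_line n x hx (-s)).const_mul (1 - s)
  have d2 : ∀ x : ℝ, 0 ≤ x → HasDerivAt (fun x : ℝ => (1 - s) * (-s * ((n : ℂ) + 1 + x) ^ (-s - 1)))
      ((1 - s) * (-s * ((-s - 1) * ((n : ℂ) + 1 + x) ^ (-s - 2)))) x := by
    intro x hx
    have := ((LZX.hasDerivAt_cpow_line n x hx (-s - 1)).const_mul (-s)).const_mul (1 - s)
    rwa [show -s - 1 - 1 = -s - 2 by ring] at this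
  set F1 : ℝ → ℂ := fun x => (1 - s) * ((n : ℂ) + 1 + x) ^ (-s) with hF1
  set F2 : ℝ → ℂ := fun x => (1 - s) * (-s * ((n : ℂ) + 1 + x) ^ (-s - 1)) with hF2
  set F3 : ℝ → ℂ := fun x => (1 - s) * (-s * ((-s - 1) * ((n : ℂ) + 1 + x) ^ (-s - 2))) with hF3
  have hF3b : ∀ x : ℝ, 0 ≤ x → ‖F3 x‖ ≤ M := by
    intro x hx
    simp only [hF3, hM]
    rw [norm_mul, norm_mul, norm_mul, norm_neg, LZX.norm_cpow_line n x hx,
      show (1 - s : ℂ) = -(s - 1) by ring, norm_neg, show (-s - 1 : ℂ) = -(s + 1) by ring, norm_neg]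
    have h1 : (-s - 2).re = -s.re - 2 := by simp
    rw [h1, mul_assoc, mul_assoc]
    gcongr ‖s - 1‖ * (‖s‖ * (‖s + 1‖ * ?_))
    exact Real.rpow_le_rpow_of_nonpos (by positivity) (by linarith) (by linarith)
  -- first application
  have hK : ∀ x : ℝ, x ∈ Icc (0:ℝ) 1 → ‖F1 x - F1 0 - x * F2 x‖ ≤ M := by
    intro x hx
    have h2 := Convex.norm_image_sub_le_of_norm_hasDerivWithin_le (𝕜 := ℝ)
      (f := fun x : ℝ => F1 x - F1 0 - x * F2 x) (f' := fun x : ℝ => F2 x - (1 * F2 x + x * F3 x))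
      (s := Icc (0:ℝ) 1) (x := 0) (y := x) (C := M)
      (fun y hy => by
        have e1 : HasDerivAt (fun y : ℝ => (y : ℂ)) 1 y := Complex.ofRealCLM.hasDerivAt
        exact (((d1 y hy.1).sub_const _).sub (e1.mul (d2 y hy.1))).hasDerivWithinAt)
      (fun y hy => by
        have e1 : F2 y - (1 * F2 y + y * F3 y) = -(y * F3 y) := by ring
        rw [e1, norm_neg, norm_mul, Complex.norm_real, Real.norm_of_nonneg hy.1]
        calc y * ‖F3 y‖ ≤ 1 * ‖F3 y‖ := mul_le_mul_of_nonneg_right hy.2 (norm_nonneg _)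
          _ ≤ M := by rw [one_mul]; exact hF3b y hy.1)
      (convex_Icc 0 1) (by simp) hx
    simp only [ofReal_zero, zero_mul, sub_zero, sub_self] at h2
    refine h2.trans ?_
    rw [Real.norm_of_nonneg hx.1]
    calc M * x ≤ M * 1 := mul_le_mul_of_nonneg_left hx.2 hMn
      _ = M := mul_one M
  -- second application
  have h3 := Convex.norm_image_sub_le_of_norm_hasDerivWithin_le (𝕜 := ℝ)
      (f := fun x : ℝ => ((n : ℂ) + 1 + x) ^ (1 - s) - x * ((F1 0 + F1 x) / 2))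
      (f' := fun x : ℝ => F1 x - (1 * ((F1 0 + F1 x) / 2) + x * (F2 x / 2)))
      (s := Icc (0:ℝ) 1) (x := 0) (y := 1) (C := M / 2)
      (fun y hy => by
        have e1 : HasDerivAt (fun y : ℝ => (y : ℂ)) 1 y := Complex.ofRealCLM.hasDerivAt
        exact ((d0 y hy.1).sub (e1.mul (((d1 y hy.1).const_add _).div_const 2))).hasDerivWithinAt)
      (fun y hy => by
        have e1 : F1 y - (1 * ((F1 0 + F1 y) / 2) + y * (F2 y / 2)) = (F1 y - F1 0 - y * F2 y) / 2 := by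
          ring
        rw [e1, norm_div, Complex.norm_two]
        exact div_le_div_of_nonneg_right (hK y hy) (by norm_num))
      (convex_Icc 0 1) (by simp) (by simp)
  simp only [ofReal_zero, ofReal_one, zero_mul, sub_zero, one_mul, add_zero, norm_one, mul_one] at h3
  have h4 : M / 2 = ‖s - 1‖ * ‖s‖ * ‖s + 1‖ / 2 * ((n : ℝ) + 1) ^ (-s.re - 2) := by rw [hM]; ring
  rw [h4] at h3
  refine le_trans (le_of_eq ?_) h3
  congr 1
  have h5 : (n : ℂ) + 1 + 1 = (n : ℂ) + 2 := by ring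
  simp only [hF1, LZX.vt, ofReal_zero, ofReal_one, add_zero]
  rw [h5]
  ring

private theorem F01_inv_sum (k M : ℕ) :
    ∑ n ∈ Finset.range M, 1 / (((n + k : ℕ) : ℝ) + 1) ^ 2 ≤ 2 / ((k : ℝ) + 1) := by
  have h : ∀ M : ℕ, ∑ n ∈ Finset.range M, 1 / (((n + k : ℕ) : ℝ) + 1) ^ 2 ≤
      2 / ((k : ℝ) + 1) - 2 / (((M + k : ℕ) : ℝ) + 1) := by
    intro M
    induction M with
    | zero => simp
    | succ M ih =>
      rw [Finset.sum_range_succ]
      have h1 : 1 / (((M + k : ℕ) : ℝ) + 1) ^ 2 ≤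
          2 / (((M + k : ℕ) : ℝ) + 1) - 2 / (((M + 1 + k : ℕ) : ℝ) + 1) := by
        have e : ((M + 1 + k : ℕ) : ℝ) = ((M + k : ℕ) : ℝ) + 1 := by push_cast; ring
        rw [e]
        set a : ℝ := ((M + k : ℕ) : ℝ) with ha
        have ha0 : 0 ≤ a := Nat.cast_nonneg _
        rw [div_sub_div _ _ (by positivity) (by positivity), div_le_div_iff₀ (by positivity) (by positivity)]
        nlinarith [sq_nonneg (a + 1), mul_nonneg ha0 (sq_nonneg (a + 1))]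
      linarith
  refine (h M).trans ?_
  have : 0 ≤ 2 / (((M + k : ℕ) : ℝ) + 1) := by positivity
  linarith

/-- (7.1) second order Euler-Maclaurin. -/
theorem zeta_em : ∃ C : ℝ, 0 < C ∧ ∀ (t : ℝ) (N : ℕ), 1 ≤ N →
    ‖riemannZeta (1/2 + t * I) - (∑ n ∈ Finset.Icc 1 N, (n : ℂ) ^ (-(1/2 + t * I)) +
      (N : ℂ) ^ (1 - (1/2 + t * I)) / ((1/2 + t * I) - 1) - (N : ℂ) ^ (-(1/2 + t * I)) / 2)‖ ≤
      C * (1 + |t|) ^ 2 * (N : ℝ) ^ (-(3/2) : ℝ) := by
  refine ⟨2, by norm_num, ?_⟩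
  intro t N hN
  obtain ⟨k, rfl⟩ : ∃ k, N = k + 1 := ⟨N - 1, by omega⟩
  set s : ℂ := 1/2 + t * I with hs
  have hre : s.re = 1/2 := by simp [hs]
  have hne : s ≠ 1 := by
    intro h
    rw [h] at hre
    norm_num at hre
  have hne' : s - 1 ≠ 0 := sub_ne_zero.2 hne
  have hne'' : 0 < ‖s - 1‖ := norm_pos_iff.2 hne'
  have hk0 : (0 : ℝ) < (k : ℝ) + 1 := by positivity
  set g : ℕ → ℂ := fun n => (((n + k : ℕ) : ℂ) + 1) ^ (-s) with hg
  -- partial sums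
  have hsumm := LZX.vt_summable (s := s) (by rw [hre]; norm_num)
  have hz := LZX.zeta_formula (s := s) (by rw [hre]; norm_num) hne
  have hsplit := hsumm.sum_add_tsum_nat_add k
  have hfirst : ∀ k : ℕ, ∑ n ∈ Finset.range k, LZX.vt n s =
      (s - 1) * ∑ n ∈ Finset.range k, ((n : ℂ) + 1) ^ (-s) + (((k : ℂ) + 1) ^ (1 - s) - 1) := by
    intro k
    induction k with
    | zero => simp
    | succ k ih =>
      rw [Finset.sum_range_succ, ih, Finset.sum_range_succ]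
      simp only [LZX.vt]
      have h5 : ((k + 1 : ℕ) : ℂ) + 1 = (k : ℂ) + 2 := by push_cast; ring
      rw [h5]
      ring
  -- the tail
  have hpow : ∀ m : ℕ, ((m : ℝ) + 1) ^ (-s.re - 2) = 1 / (Real.sqrt ((m : ℝ) + 1)) * (1 / ((m : ℝ) + 1) ^ 2) := by
    intro m
    have hm : (0 : ℝ) < (m : ℝ) + 1 := by positivity
    rw [hre, show (-(1/2 : ℝ) - 2) = -(1/2) + (-2) by norm_num, Real.rpow_add hm, Real.rpow_neg hm.le,
      ← Real.sqrt_eq_rpow, Real.rpow_neg hm.le, Real.rpow_two]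
    rw [one_div, one_div]
  set D : ℝ := ‖s - 1‖ * ‖s‖ * ‖s + 1‖ * ((k : ℝ) + 1) ^ (-(3/2) : ℝ) with hD
  have htail : ∀ M : ℕ, ‖∑ n ∈ Finset.range M, LZX.vt (n + k) s - (s - 1) / 2 * (g 0 - g M)‖ ≤ D := by
    intro M
    have e1 : ∑ n ∈ Finset.range M, LZX.vt (n + k) s - (s - 1) / 2 * (g 0 - g M) =
        ∑ n ∈ Finset.range M, (LZX.vt (n + k) s - (s - 1) / 2 *
          ((((n + k : ℕ) : ℂ) + 1) ^ (-s) - (((n + k : ℕ) : ℂ) + 2) ^ (-s))) := by
      rw [Finset.sum_sub_distrib, ← Finset.mul_sum]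
      congr 2
      rw [← Finset.sum_range_sub' g M]
      apply Finset.sum_congr rfl
      intro n _
      simp only [hg]
      congr 2
      push_cast
      ring
    rw [e1]
    refine (norm_sum_le _ _).trans ?_
    refine (Finset.sum_le_sum fun n _ => F01_trap (n + k) s (by rw [hre]; norm_num)).trans ?_
    rw [← Finset.mul_sum]
    have e2 : ∑ n ∈ Finset.range M, (((n + k : ℕ) : ℝ) + 1) ^ (-s.re - 2) ≤
        2 * ((k : ℝ) + 1) ^ (-(3/2) : ℝ) := by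
      have e3 : ∀ n ∈ Finset.range M, (((n + k : ℕ) : ℝ) + 1) ^ (-s.re - 2) ≤
          1 / Real.sqrt ((k : ℝ) + 1) * (1 / (((n + k : ℕ) : ℝ) + 1) ^ 2) := by
        intro n _
        rw [hpow]
        apply mul_le_mul_of_nonneg_right _ (by positivity)
        apply one_div_le_one_div_of_le (Real.sqrt_pos.2 hk0)
        apply Real.sqrt_le_sqrt
        push_cast
        linarith [Nat.cast_nonneg (α := ℝ) n]
      refine (Finset.sum_le_sum e3).trans ?_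
      rw [← Finset.mul_sum]
      refine (mul_le_mul_of_nonneg_left (F01_inv_sum k M) (by positivity)).trans (le_of_eq ?_)
      rw [show (-(3/2) : ℝ) = -(1/2) + (-1) by norm_num, Real.rpow_add hk0, Real.rpow_neg hk0.le,
        ← Real.sqrt_eq_rpow, Real.rpow_neg_one]
      ring
    calc ‖s - 1‖ * ‖s‖ * ‖s + 1‖ / 2 * ∑ n ∈ Finset.range M, (((n + k : ℕ) : ℝ) + 1) ^ (-s.re - 2) ≤
        ‖s - 1‖ * ‖s‖ * ‖s + 1‖ / 2 * (2 * ((k : ℝ) + 1) ^ (-(3/2) : ℝ)) :=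
          mul_le_mul_of_nonneg_left e2 (by positivity)
      _ = D := by rw [hD]; ring
  have hglim : Tendsto g atTop (𝓝 0) := by
    rw [tendsto_zero_iff_norm_tendsto_zero]
    have e1 : ∀ n : ℕ, ‖g n‖ = (((n + k : ℕ) : ℝ) + 1) ^ (-(1/2) : ℝ) := by
      intro n
      have := LZX.norm_cpow_line (n + k) 0 le_rfl (-s)
      simp only [ofReal_zero, add_zero, neg_re, hre] at this
      simp only [hg]
      exact this
    have e2 : Tendsto (fun n : ℕ => (((n + k : ℕ) : ℝ) + 1) ^ (-(1/2) : ℝ)) atTop (𝓝 0) := by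
      apply (tendsto_rpow_neg_atTop (by norm_num : (0:ℝ) < 1/2)).comp
      apply tendsto_atTop_add_const_right
      exact tendsto_natCast_atTop_atTop.comp (tendsto_add_atTop_nat k)
    exact e2.congr fun n => (e1 n).symm
  have hsumk : Summable fun n => LZX.vt (n + k) s :=
    (summable_nat_add_iff (f := fun n => LZX.vt n s) k).2 hsumm
  have hlim : Tendsto (fun M : ℕ => ‖∑ n ∈ Finset.range M, LZX.vt (n + k) s - (s - 1) / 2 * (g 0 - g M)‖)
      atTop (𝓝 ‖∑' n, LZX.vt (n + k) s - (s - 1) / 2 * (g 0 - 0)‖) := by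
    apply Tendsto.norm
    apply Tendsto.sub hsumk.hasSum.tendsto_sum_nat
    apply Tendsto.const_mul
    exact tendsto_const_nhds.sub hglim
  have hfin : ‖∑' n, LZX.vt (n + k) s - (s - 1) / 2 * (g 0 - 0)‖ ≤ D :=
    le_of_tendsto hlim (Filter.Eventually.of_forall htail)
  rw [sub_zero] at hfin
  have hg0 : g 0 = ((k : ℂ) + 1) ^ (-s) := by simp [hg]
  -- conclusion
  have hIcc : ∑ n ∈ Finset.Icc 1 (k + 1), (n : ℂ) ^ (-s) =
      ∑ n ∈ Finset.range k, ((n : ℂ) + 1) ^ (-s) + ((k : ℂ) + 1) ^ (-s) := by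
    rw [← Finset.sum_range_succ]
    have h1 : ∑ x ∈ Finset.Ico 0 (k + 1), ((x + 1 : ℕ) : ℂ) ^ (-s) =
        ∑ x ∈ Finset.Ico (0 + 1) (k + 1 + 1), (x : ℂ) ^ (-s) :=
      Finset.sum_Ico_add' (fun n : ℕ => (n : ℂ) ^ (-s)) 0 (k + 1) 1
    have h2 : Finset.Icc 1 (k + 1) = Finset.Ico (0 + 1) (k + 1 + 1) := by
      ext x
      simp only [Finset.mem_Icc, Finset.mem_Ico]
      omega
    rw [h2, ← h1, Finset.range_eq_Ico]
    apply Finset.sum_congr rfl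
    intro x _
    push_cast
    rfl
  have hkey : (s - 1) * (riemannZeta s - (∑ n ∈ Finset.Icc 1 (k + 1), (n : ℂ) ^ (-s) +
      ((k + 1 : ℕ) : ℂ) ^ (1 - s) / (s - 1) - ((k + 1 : ℕ) : ℂ) ^ (-s) / 2)) =
      ∑' n, LZX.vt (n + k) s - (s - 1) / 2 * g 0 := by
    rw [mul_sub, hz, ← hsplit, hfirst k, hIcc, hg0]
    push_cast
    field_simp
    ring
  have hnorm : ‖s - 1‖ * ‖riemannZeta s - (∑ n ∈ Finset.Icc 1 (k + 1), (n : ℂ) ^ (-s) +
      ((k + 1 : ℕ) : ℂ) ^ (1 - s) / (s - 1) - ((k + 1 : ℕ) : ℂ) ^ (-s) / 2)‖ ≤ D := by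
    rw [← norm_mul, hkey]
    exact hfin
  have hns : ‖s‖ ≤ 1 + |t| := by
    have h1 : ‖s‖ ≤ ‖(1/2 : ℂ)‖ + ‖(t : ℂ) * I‖ := norm_add_le _ _
    rw [norm_mul, Complex.norm_I, mul_one, Complex.norm_real, Real.norm_eq_abs] at h1
    have h2 : ‖(1/2 : ℂ)‖ = 1/2 := by norm_num
    rw [h2] at h1
    linarith
  have hns1 : ‖s + 1‖ ≤ 2 * (1 + |t|) := by
    have h1 : ‖s + 1‖ ≤ ‖s‖ + ‖(1 : ℂ)‖ := norm_add_le _ _
    rw [norm_one] at h1
    linarith [abs_nonneg t]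
  have hcast : (((k + 1 : ℕ) : ℝ)) = (k : ℝ) + 1 := by push_cast; ring
  rw [hcast]
  have hD2 : D ≤ ‖s - 1‖ * (2 * (1 + |t|) ^ 2 * ((k : ℝ) + 1) ^ (-(3/2) : ℝ)) := by
    rw [hD]
    have h1 : ‖s‖ * ‖s + 1‖ ≤ (1 + |t|) * (2 * (1 + |t|)) :=
      mul_le_mul hns hns1 (norm_nonneg _) (by positivity)
    have h2 : 0 ≤ ((k : ℝ) + 1) ^ (-(3/2) : ℝ) := by positivity
    calc ‖s - 1‖ * ‖s‖ * ‖s + 1‖ * ((k : ℝ) + 1) ^ (-(3/2) : ℝ) =
        ‖s - 1‖ * ((‖s‖ * ‖s + 1‖) * ((k : ℝ) + 1) ^ (-(3/2) : ℝ)) := by ring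
      _ ≤ ‖s - 1‖ * (((1 + |t|) * (2 * (1 + |t|))) * ((k : ℝ) + 1) ^ (-(3/2) : ℝ)) := by
          apply mul_le_mul_of_nonneg_left _ (norm_nonneg _)
          exact mul_le_mul_of_nonneg_right h1 h2
      _ = _ := by ring
  exact le_of_mul_le_mul_left (hnorm.trans hD2) hne''

end LZ

end F_F01

section F_Y_B02

open Complex MeasureTheory Set Filter Topology
open scoped ComplexConjugate

namespace LP

open LZ (kk nS cf EE ER PP wt Sep)

variable {N : ℕ} [NeZero N]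

private theorem B02_kk_int : Integrable kk := by
  obtain ⟨h1, h2⟩ := LZ.kk_facts
  refine h2.mono h1.aestronglyMeasurable (Eventually.of_forall fun u => ?_)
  rw [Real.norm_of_nonneg (by positivity)]
  have h3 : (1 : ℝ) ≤ (1 + |u|) ^ 16 := one_le_pow₀ (by linarith [abs_nonneg u])
  nlinarith [norm_nonneg (kk u)]

private theorem B02_phi_int (n : ℕ) (hn : 0 < n) (l : ℝ) (e c : ℂ) :
    Integrable (fun u : ℝ => c * (kk u * (n : ℂ) ^ (-(1 + e + (1 + u * I) / l)))) := by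
  apply Integrable.const_mul
  have hn0 : (n : ℂ) ≠ 0 := by exact_mod_cast hn.ne'
  have hcont : Continuous (fun u : ℝ => (n : ℂ) ^ (-(1 + e + (1 + u * I) / l))) := by
    refine Continuous.const_cpow ?_ (Or.inl hn0)
    fun_prop
  refine B02_kk_int.mul_bdd (c := (n : ℝ) ^ (-(1 + e.re + 1 / l))) hcont.aestronglyMeasurable
    (Eventually.of_forall fun u => ?_)
  rw [Complex.norm_natCast_cpow_of_pos hn]
  apply le_of_eq
  congr 1
  have : ((1 + (u : ℂ) * I) / (l : ℂ)).re = 1 / l := by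
    rw [Complex.div_ofReal_re]
    simp
  simp only [neg_re, add_re, one_re, this]

private theorem B02_phi_val (n : ℕ) (hn : 0 < n) (l : ℝ) (e : ℂ) :
    (wt (Real.log n / l) : ℂ) * (n : ℂ) ^ (-1 - e) =
      ∫ u : ℝ, kk u * (n : ℂ) ^ (-(1 + e + (1 + u * I) / l)) := by
  have hn0 : (n : ℂ) ≠ 0 := by exact_mod_cast hn.ne'
  rw [LZ.wt_eq, ← integral_mul_const]
  refine integral_congr_ae (Eventually.of_forall fun u => ?_)
  simp only
  rw [mul_assoc]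
  congr 1
  rw [Complex.cpow_def_of_ne_zero hn0, Complex.cpow_def_of_ne_zero hn0, ← Complex.exp_add]
  congr 1
  have hlog : Complex.log (n : ℂ) = (Real.log n : ℂ) := (Complex.natCast_log).symm
  rw [hlog]
  push_cast
  ring

/-- Insert LZ.wt_eq (Q04) for the two weights; adapt LZ.Q06 (QQ_integral), two variables. -/
theorem Q2_integral (ρ κ : DirichletCharacter ℂ N) (z : ℕ) (l : ℝ) (hl : 0 < l) (e e4 : ℂ) :
    Q2 ρ κ z l e e4 = ∫ u : ℝ × ℝ, kk u.1 * kk u.2 *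
      ∏ p ∈ LX.PQ N z, loc ρ (ρ ^ 2 * κ) (1 + e + (1 + u.1 * I) / l) (1 + e + (1 + u.2 * I) / l)
        (1 + 2 * e - e4 + (2 + (u.1 + u.2) * I) / l) p := by
  have hP : ∀ p ∈ LX.PQ N z, p.Prime := fun p hp =>
    (Finset.mem_filter.1 (Finset.mem_filter.1 hp).1).2
  have hpos : ∀ S ∈ (LX.PQ N z).powerset, 0 < nS S := by
    intro S hS
    rw [Finset.mem_powerset] at hS
    exact Finset.prod_pos fun p hp => (hP p (hS hp)).pos
  set φ : Finset ℕ → ℝ → ℂ := fun S u =>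
    (((-1) ^ S.card : ℝ) : ℂ) * (kk u * (nS S : ℂ) ^ (-(1 + e + (1 + u * I) / l))) with hφ
  have hint : ∀ S ∈ (LX.PQ N z).powerset, Integrable (φ S) := fun S hS =>
    B02_phi_int _ (hpos S hS) l e _
  have hval : ∀ S ∈ (LX.PQ N z).powerset,
      (cf 1 l S : ℂ) * (nS S : ℂ) ^ (-1 - e) = ∫ u : ℝ, φ S u := by
    intro S hS
    rw [hφ]
    simp only
    rw [integral_const_mul, ← B02_phi_val _ (hpos S hS) l e]
    unfold cf
    push_cast
    ring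
  unfold Q2
  have h1 : ∀ S ∈ (LX.PQ N z).powerset ×ˢ (LX.PQ N z).powerset,
      (cf 1 l S.1 : ℂ) * (cf 1 l S.2 : ℂ) *
      (ρ (nS S.1 : ℕ) * ρ (nS S.2 : ℕ) * κ (Nat.gcd (nS S.1) (nS S.2) : ℕ)) *
      ((nS S.1 : ℂ) ^ (-1 - e) * (nS S.2 : ℂ) ^ (-1 - e) *
        ((Nat.gcd (nS S.1) (nS S.2) : ℕ) : ℂ) ^ (1 + e4)) =
      ∫ u : ℝ × ℝ, (φ S.1 u.1 * φ S.2 u.2) *
        ((ρ (nS S.1 : ℕ) * ρ (nS S.2 : ℕ) * κ (Nat.gcd (nS S.1) (nS S.2) : ℕ)) *
        ((Nat.gcd (nS S.1) (nS S.2) : ℕ) : ℂ) ^ (1 + e4)) := by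
    intro S hS
    rw [Finset.mem_product] at hS
    rw [integral_mul_const, Measure.volume_eq_prod, integral_prod_mul (φ S.1) (φ S.2),
      ← hval S.1 hS.1, ← hval S.2 hS.2]
    ring
  rw [Finset.sum_congr rfl h1, ← integral_finset_sum]
  · refine integral_congr_ae (Eventually.of_forall fun u => ?_)
    simp only
    have h2 := euler2 (LX.PQ N z) hP ρ κ (1 + e + (1 + u.1 * I) / l) (1 + e + (1 + u.2 * I) / l)
      (1 + e4)
    have h3 : 1 + e + (1 + (u.1 : ℂ) * I) / l + (1 + e + (1 + (u.2 : ℂ) * I) / l) - (1 + e4) =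
        1 + 2 * e - e4 + (2 + ((u.1 : ℂ) + u.2) * I) / l := by
      ring
    rw [h3] at h2
    rw [← h2, Finset.mul_sum]
    refine Finset.sum_congr rfl fun S _ => ?_
    rw [hφ]
    simp only
    ring
  · intro S hS
    rw [Finset.mem_product] at hS
    apply Integrable.mul_const
    rw [Measure.volume_eq_prod]
    exact (hint S.1 hS.1).mul_prod (hint S.2 hS.2)

end LP

end F_Y_B02

section F_Y_B03

open Complex MeasureTheory Set Filter Topology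
open scoped ComplexConjugate

namespace LP

open LZ (kk nS cf EE ER PP wt Sep)

variable {N : ℕ} [NeZero N]

/-- enlarging the set of primes does not change the sum; adapt LZ.Q07 (QQ_stable). -/
theorem Q2_stable (ρ κ : DirichletCharacter ℂ N) (z : ℕ) (l : ℝ) (hl : 0 < l) (e e4 : ℂ)
    (hz : ⌊Real.exp l⌋₊ ≤ z) : Q2 ρ κ z l e e4 = Q2 ρ κ ⌊Real.exp l⌋₊ l e e4 := by
  have hPP : LX.PQ N ⌊Real.exp l⌋₊ ⊆ LX.PQ N z := by
    intro p hp
    unfold LX.PQ LZ.PP at hp ⊢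
    rw [Finset.mem_filter, Finset.mem_filter, Finset.mem_range] at hp ⊢
    exact ⟨⟨by omega, hp.1.2⟩, hp.2⟩
  have hPPz : LX.PQ N z ⊆ LZ.PP z := Finset.filter_subset _ _
  have key : ∀ S ∈ (LX.PQ N z).powerset, S ∉ (LX.PQ N ⌊Real.exp l⌋₊).powerset → cf 1 l S = 0 := by
    intro S hS hnS
    rw [Finset.mem_powerset] at hS
    rw [Finset.mem_powerset, Finset.not_subset] at hnS
    obtain ⟨p, hp1, hp2⟩ := hnS
    have hpz := hS hp1
    have hpl : Real.exp l ≤ p := by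
      by_contra h
      push Not at h
      apply hp2
      unfold LX.PQ LZ.PP at hpz ⊢
      rw [Finset.mem_filter, Finset.mem_filter, Finset.mem_range] at hpz ⊢
      exact ⟨⟨Nat.lt_succ_of_le (Nat.le_floor h.le), hpz.1.2⟩, hpz.2⟩
    exact LZ.Q07_cf 1 l hl z S (hS.trans hPPz) p hp1 hpl
  unfold Q2
  symm
  apply Finset.sum_subset
  · exact Finset.product_subset_product (Finset.powerset_mono.mpr hPP) (Finset.powerset_mono.mpr hPP)
  · intro S hS hnS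
    rw [Finset.mem_product] at hS hnS
    by_cases h1 : S.1 ∈ (LX.PQ N ⌊Real.exp l⌋₊).powerset
    · have h2 : S.2 ∉ (LX.PQ N ⌊Real.exp l⌋₊).powerset := fun h => hnS ⟨h1, h⟩
      rw [key S.2 hS.2 h2]
      simp
    · rw [key S.1 hS.1 h1]
      simp

end LP

end F_Y_B03

section F_Y_B10

open Complex MeasureTheory Set Filter Topology
open scoped ComplexConjugate

namespace LP

open LZ (kk nS cf EE ER PP wt Sep)

variable {N : ℕ} [NeZero N]

private lemma B10_term (χ : DirichletCharacter ℂ N) {p : ℕ} (hp : p.Prime) (s : ℂ) :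
    ‖χ (p : ZMod N) * (p : ℂ) ^ (-s)‖ ≤ (p : ℝ) ^ (-s.re) := by
  rw [norm_mul, Complex.norm_natCast_cpow_of_pos hp.pos, Complex.neg_re]
  have h1 := LX.norm_char_le χ (p : ZMod N)
  have h2 : (0:ℝ) ≤ (p : ℝ) ^ (-s.re) := Real.rpow_nonneg (Nat.cast_nonneg _) _
  calc ‖χ (p : ZMod N)‖ * (p : ℝ) ^ (-s.re) ≤ 1 * (p : ℝ) ^ (-s.re) := by gcongr
    _ = _ := one_mul _

private lemma B10_sum (z : ℕ) {a : ℝ} (ha : 1 < a) :
    ∑ p ∈ LX.PQ N z, (p : ℝ) ^ (-a) ≤ ∑' n : ℕ, (n : ℝ) ^ (-a) := by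
  have hs : Summable (fun n : ℕ => (n : ℝ) ^ (-a)) := Real.summable_nat_rpow.mpr (by linarith)
  exact hs.sum_le_tsum _ (fun n _ => Real.rpow_nonneg (Nat.cast_nonneg _) _)

private lemma B10_bound (ρ om : DirichletCharacter ℂ N) (z : ℕ) (A B D : ℂ) (hA : 1 < A.re)
    (hB : 1 < B.re) (hD : 1 < D.re) :
    ‖∏ p ∈ LX.PQ N z, loc ρ om A B D p‖ ≤
      Real.exp ((∑' n : ℕ, (n : ℝ) ^ (-A.re)) + (∑' n : ℕ, (n : ℝ) ^ (-B.re)) +
        (∑' n : ℕ, (n : ℝ) ^ (-D.re))) := by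
  rw [norm_prod]
  have h1 : ∀ p ∈ LX.PQ N z, ‖loc ρ om A B D p‖ ≤
      Real.exp ((p : ℝ) ^ (-A.re) + (p : ℝ) ^ (-B.re) + (p : ℝ) ^ (-D.re)) := by
    intro p hp
    have hp' : p.Prime := (Finset.mem_filter.mp (LX.PQ_sub N z hp)).2
    have a1 := B10_term ρ hp' A
    have a2 := B10_term ρ hp' B
    have a3 := B10_term om hp' D
    have h2 : ‖loc ρ om A B D p‖ ≤ 1 + (p : ℝ) ^ (-A.re) + (p : ℝ) ^ (-B.re) + (p : ℝ) ^ (-D.re) := by
      unfold loc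
      refine (norm_add_le _ _).trans ?_
      refine add_le_add ?_ a3
      refine (norm_sub_le _ _).trans ?_
      refine add_le_add ?_ a2
      refine (norm_sub_le _ _).trans ?_
      refine add_le_add ?_ a1
      simp
    have h3 := Real.add_one_le_exp ((p : ℝ) ^ (-A.re) + (p : ℝ) ^ (-B.re) + (p : ℝ) ^ (-D.re))
    linarith
  refine (Finset.prod_le_prod (fun p _ => norm_nonneg _) h1).trans ?_
  rw [← Real.exp_sum]
  refine Real.exp_le_exp.mpr ?_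
  rw [Finset.sum_add_distrib, Finset.sum_add_distrib]
  have b1 := B10_sum (N := N) z hA
  have b2 := B10_sum (N := N) z hB
  have b3 := B10_sum (N := N) z hD
  linarith

/-- adapt LZ.Q16 (QQ_mu_integral): z -> oo in Q2_integral, dominated convergence. Domination: for p not dividing N,
|loc| <= exp(3 p^(-sigma') + K p^(-15/8)) with sigma' = 1 + 1/(8 l)... simplest: |prod loc| <= C_l uniformly in z and u, since
sum_p p^(-(1+1/(4l))) converges (Re A, Re B >= 1 + 7/(8l), Re D >= 1 + (2 - 3/8)/l), and kk is integrable (LZ.Q05). -/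
theorem Q2_mu_integral (ρ κ : DirichletCharacter ℂ N) : ∃ l0 : ℝ, 1 ≤ l0 ∧ ∀ l : ℝ, l0 ≤ l → ∀ e e4 : ℂ,
    |e.re| ≤ 1 / (8 * l) → |e4.re| ≤ 1 / (8 * l) →
    Q2 ρ κ ⌊Real.exp l⌋₊ l e e4 = ∫ u : ℝ × ℝ, kk u.1 * kk u.2 *
      (LX.Lf (ρ ^ 2 * κ) (1 + 2 * e - e4 + (2 + (u.1 + u.2) * I) / l) /
        (LX.Lf ρ (1 + e + (1 + u.1 * I) / l) * LX.Lf ρ (1 + e + (1 + u.2 * I) / l)) *
        R1 ρ (ρ ^ 2 * κ) (1 + e + (1 + u.1 * I) / l) (1 + e + (1 + u.2 * I) / l)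
          (1 + 2 * e - e4 + (2 + (u.1 + u.2) * I) / l)) := by
  obtain ⟨hkc, hki⟩ := LZ.kk_facts
  refine ⟨1, le_rfl, ?_⟩
  intro l hl e e4 h0 h4
  have hl0 : 0 < l := by linarith
  have h0' := abs_le.mp h0
  have h4' := abs_le.mp h4
  have h8 : 1 / (8 * l) = 1 / l / 8 := by field_simp
  have hl1 : 0 < 1 / l := by positivity
  rw [h8] at h0' h4'
  have h2l : 2 / l = 2 * (1 / l) := by ring
  have hAre : ∀ x : ℝ, (1 + e + (1 + (x : ℂ) * I) / l).re = 1 + e.re + 1 / l := by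
    intro x
    rw [add_re, add_re, one_re, div_ofReal_re, add_re, one_re, re_ofReal_mul, I_re]
    ring
  have hDre : ∀ x y : ℝ, (1 + 2 * e - e4 + (2 + ((x : ℂ) + y) * I) / l).re =
      1 + 2 * e.re - e4.re + 2 / l := by
    intro x y
    rw [add_re, sub_re, add_re, one_re, div_ofReal_re]
    simp
  set F : ℕ → (ℝ × ℝ) → ℂ := fun z u => kk u.1 * kk u.2 *
    ∏ p ∈ LX.PQ N z, loc ρ (ρ ^ 2 * κ) (1 + e + (1 + u.1 * I) / l) (1 + e + (1 + u.2 * I) / l)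
        (1 + 2 * e - e4 + (2 + (u.1 + u.2) * I) / l) p with hF
  have hFQ : ∀ z : ℕ, Q2 ρ κ z l e e4 = ∫ u, F z u := by
    intro z
    rw [Q2_integral ρ κ z l hl0 e e4]
  have hFc : ∀ z : ℕ, Continuous (F z) := by
    intro z
    have h1 : Continuous (fun u : ℝ × ℝ => kk u.1 * kk u.2) :=
      (hkc.comp continuous_fst).mul (hkc.comp continuous_snd)
    refine h1.mul (continuous_finsetProd _ (fun p hp => ?_))
    have hp0 : (p : ℂ) ≠ 0 := by
      exact_mod_cast (Finset.mem_filter.mp (LX.PQ_sub N z hp)).2.ne_zero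
    have c1 : Continuous (fun u : ℝ × ℝ => (p : ℂ) ^ (-(1 + e + (1 + (u.1 : ℂ) * I) / l))) :=
      Continuous.const_cpow (by fun_prop) (Or.inl hp0)
    have c2 : Continuous (fun u : ℝ × ℝ => (p : ℂ) ^ (-(1 + e + (1 + (u.2 : ℂ) * I) / l))) :=
      Continuous.const_cpow (by fun_prop) (Or.inl hp0)
    have c3 : Continuous (fun u : ℝ × ℝ =>
        (p : ℂ) ^ (-(1 + 2 * e - e4 + (2 + ((u.1 : ℂ) + u.2) * I) / l))) :=
      Continuous.const_cpow (by fun_prop) (Or.inl hp0)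
    unfold loc
    exact ((continuous_const.sub (continuous_const.mul c1)).sub (continuous_const.mul c2)).add
      (continuous_const.mul c3)
  set M : ℝ := Real.exp ((∑' n : ℕ, (n : ℝ) ^ (-(1 + e.re + 1 / l))) +
    (∑' n : ℕ, (n : ℝ) ^ (-(1 + e.re + 1 / l))) +
        (∑' n : ℕ, (n : ℝ) ^ (-(1 + 2 * e.re - e4.re + 2 / l)))) with hM
  have hki2 : Integrable (fun u : ℝ => ‖kk u‖) := by
    refine Integrable.mono' hki hkc.norm.aestronglyMeasurable (Eventually.of_forall (fun u => ?_))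
    rw [norm_norm]
    have : (1:ℝ) ≤ (1 + |u|) ^ 16 := one_le_pow₀ (by linarith [abs_nonneg u])
    nlinarith [norm_nonneg (kk u)]
  have hbi : Integrable (fun u : ℝ × ℝ => (‖kk u.1‖ * ‖kk u.2‖) * M) :=
    (hki2.mul_prod hki2).mul_const M
  have hA1 : 1 < 1 + e.re + 1 / l := by linarith
  have hD1 : 1 < 1 + 2 * e.re - e4.re + 2 / l := by rw [h2l]; linarith
  have hFb : ∀ z : ℕ, ∀ u : ℝ × ℝ, ‖F z u‖ ≤ (‖kk u.1‖ * ‖kk u.2‖) * M := by
    intro z u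
    simp only [hF]
    rw [norm_mul, norm_mul]
    refine mul_le_mul_of_nonneg_left ?_ (mul_nonneg (norm_nonneg _) (norm_nonneg _))
    have h5 := B10_bound ρ (ρ ^ 2 * κ) z (1 + e + (1 + u.1 * I) / l) (1 + e + (1 + u.2 * I) / l)
        (1 + 2 * e - e4 + (2 + (u.1 + u.2) * I) / l) (by rw [hAre]; exact hA1)
        (by rw [hAre]; exact hA1) (by rw [hDre]; exact hD1)
    rw [hAre, hAre, hDre] at h5
    exact h5
  have hlim : ∀ u : ℝ × ℝ, Tendsto (fun z => F z u) atTop (𝓝 (kk u.1 * kk u.2 *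
      (LX.Lf (ρ ^ 2 * κ) (1 + 2 * e - e4 + (2 + (u.1 + u.2) * I) / l) /
        (LX.Lf ρ (1 + e + (1 + u.1 * I) / l) * LX.Lf ρ (1 + e + (1 + u.2 * I) / l)) *
        R1 ρ (ρ ^ 2 * κ) (1 + e + (1 + u.1 * I) / l) (1 + e + (1 + u.2 * I) / l)
          (1 + 2 * e - e4 + (2 + (u.1 + u.2) * I) / l)))) := by
    intro u
    exact (mu_prod ρ (ρ ^ 2 * κ) (1 + e + (1 + u.1 * I) / l) (1 + e + (1 + u.2 * I) / l)
        (1 + 2 * e - e4 + (2 + (u.1 + u.2) * I) / l) (by rw [hAre]; exact hA1)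
        (by rw [hAre]; exact hA1) (by rw [hDre]; exact hD1)).const_mul _
  have key := tendsto_integral_of_dominated_convergence _ (fun z => (hFc z).aestronglyMeasurable) hbi
    (fun z => Eventually.of_forall (hFb z)) (Eventually.of_forall hlim)
  have hconst : Tendsto (fun z => ∫ u, F z u) atTop (𝓝 (Q2 ρ κ ⌊Real.exp l⌋₊ l e e4)) := by
    refine tendsto_const_nhds.congr' ?_
    filter_upwards [eventually_ge_atTop ⌊Real.exp l⌋₊] with z hz
    rw [← hFQ z]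
    exact (Q2_stable ρ κ z l hl0 e e4 hz).symm
  exact tendsto_nhds_unique hconst key

end LP

end F_Y_B10
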