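import Pool.Agent.Lib.MP_0f5a55_nt.V.V02
import Pool.Agent.Lib.MP_0f5a55_nt.V.V16

section F_A16

open Complex MeasureTheory Set Filter Topology
open scoped ComplexConjugate

namespace LZ

private lemma A16_integrable (η : ℂ) (hη : -1/2 ≤ η.re) :
    IntegrableOn (fun x : ℝ => ((Int.fract x : ℝ) : ℂ) * (x : ℂ) ^ (-2 - η)) (Ioi 1) := by
  have h1 : IntegrableOn (fun x : ℝ => (x : ℂ) ^ (-2 - η)) (Ioi 1) := by
    apply integrableOn_Ioi_cpow_of_lt _ one_pos
    simp only [sub_re, neg_re, re_ofNat]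
    linarith
  refine Integrable.bdd_mul (c := 1) h1 ?_ ?_
  · exact (Complex.measurable_ofReal.comp measurable_fract).aestronglyMeasurable
  · refine Eventually.of_forall fun x => ?_
    rw [Complex.norm_real, Real.norm_eq_abs, abs_of_nonneg (Int.fract_nonneg x)]
    exact (Int.fract_lt_one x).le

private lemma A16_cell (η : ℂ) (hη : -1/2 ≤ η.re) (n : ℕ) :
    LZX.vt n (1 + η) = η * (((n : ℂ) + 1) ^ (-(1 + η)) - ((n : ℂ) + 2) ^ (-(1 + η))) -
      η * (1 + η) * ∫ x in ((n : ℝ) + 1)..((n : ℝ) + 2),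
        ((Int.fract x : ℝ) : ℂ) * (x : ℂ) ^ (-2 - η) := by
  have hn : (0 : ℝ) < (n : ℝ) + 1 := by positivity
  set F : ℝ → ℂ := fun x => -η * (((x : ℂ) - (n + 1)) * (x : ℂ) ^ (-(1 + η))) - (x : ℂ) ^ (-η)
    with hF
  have hint : IntervalIntegrable (fun x : ℝ => η * (1 + η) *
      (((Int.fract x : ℝ) : ℂ) * (x : ℂ) ^ (-2 - η))) volume ((n : ℝ) + 1) ((n : ℝ) + 2) := by
    apply IntervalIntegrable.const_mul
    rw [intervalIntegrable_iff_integrableOn_Ioc_of_le (by linarith)]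
    refine (A16_integrable η hη).mono_set ?_
    intro x hx
    have : (1 : ℝ) ≤ (n : ℝ) + 1 := by
      have : (0 : ℝ) ≤ n := Nat.cast_nonneg n
      linarith
    exact lt_of_le_of_lt this hx.1
  have hder : ∀ x : ℝ, 0 < x → HasDerivAt F (η * (1 + η) *
      (((x : ℂ) - (n + 1)) * (x : ℂ) ^ (-2 - η))) x := by
    intro x hx
    have hx' : (x : ℂ) ∈ slitPlane := by
      left
      simpa using hx
    have hx0 : (x : ℂ) ≠ 0 := by exact_mod_cast hx.ne'
    have h1 : HasDerivAt (fun z : ℂ => -η * ((z - (n + 1)) * z ^ (-(1 + η))) - z ^ (-η))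
        (-η * (1 * (x : ℂ) ^ (-(1 + η)) + ((x : ℂ) - (n + 1)) *
          (-(1 + η) * (x : ℂ) ^ (-(1 + η) - 1) * 1)) - (-η * (x : ℂ) ^ (-η - 1) * 1)) (x : ℂ) :=
      ((((hasDerivAt_id _).sub_const _).mul ((hasDerivAt_id _).cpow_const hx')).const_mul _).sub
        ((hasDerivAt_id _).cpow_const hx')
    have h2 := h1.comp_ofReal
    convert h2 using 1
    have e1 : -(1 + η) - 1 = -2 - η := by ring
    have e2 : -η - 1 = -(1 + η) := by ring
    rw [e1, e2]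
    ring
  have hcont : ContinuousOn F (Icc ((n : ℝ) + 1) ((n : ℝ) + 2)) := by
    intro x hx
    exact (hder x (hn.trans_le hx.1)).continuousAt.continuousWithinAt
  have hFTC := intervalIntegral.integral_eq_sub_of_hasDerivAt_of_le
    (show (n : ℝ) + 1 ≤ (n : ℝ) + 2 by linarith) hcont (f' := fun x : ℝ => η * (1 + η) *
      (((Int.fract x : ℝ) : ℂ) * (x : ℂ) ^ (-2 - η))) (fun x hx => ?_) hint
  · rw [intervalIntegral.integral_const_mul] at hFTC
    rw [hFTC, hF, LZX.vt]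
    have e1 : ((((n : ℝ) + 2 : ℝ) : ℂ)) = (n : ℂ) + 2 := by push_cast; ring
    have e2 : ((((n : ℝ) + 1 : ℝ) : ℂ)) = (n : ℂ) + 1 := by push_cast; ring
    have e3 : (1 : ℂ) - (1 + η) = -η := by ring
    simp only [e1, e2, e3]
    ring
  · have hfr : Int.fract x = x - ((n : ℝ) + 1) := by
      rw [Int.fract_eq_iff]
      refine ⟨by linarith [hx.1], by linarith [hx.2], (n : ℤ) + 1, ?_⟩
      push_cast
      ring
    have h3 := hder x (hn.trans hx.1)
    have e : ((Int.fract x : ℝ) : ℂ) = (x : ℂ) - (n + 1) := by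
      rw [hfr]
      push_cast
      ring
    rw [e]
    exact h3

/-- Euler-Maclaurin form of zeta near s = 1: zeta(1+eta) = 1/eta + 1 - (1+eta) int_1^oo {x} x^(-2-eta) dx for Re eta > -1,
eta <> 0 (from zeta_formula / vt_tsum, or directly by analytic continuation). -/
theorem zeta_frac (η : ℂ) (hη : -1/2 ≤ η.re) (h0 : η ≠ 0) :
    riemannZeta (1 + η) = 1 / η + 1 - (1 + η) * ∫ x in Ioi (1:ℝ), ((Int.fract x : ℝ) : ℂ) * (x : ℂ) ^ (-2 - η) := by
  set g : ℝ → ℂ := fun x => ((Int.fract x : ℝ) : ℂ) * (x : ℂ) ^ (-2 - η) with hg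
  have hs : 0 < (1 + η).re := by
    rw [add_re, one_re]
    linarith
  have hs1 : 1 + η ≠ 1 := by
    intro h
    apply h0
    linear_combination h
  have h1 := LZX.zeta_formula hs hs1
  have h2 : Tendsto (fun N : ℕ => ∑ n ∈ Finset.range N, LZX.vt n (1 + η)) atTop
      (𝓝 (∑' n, LZX.vt n (1 + η))) := (LZX.vt_summable hs).hasSum.tendsto_sum_nat
  have hgi : ∀ n : ℕ, IntervalIntegrable g volume ((n : ℝ) + 1) ((n : ℝ) + 2) := by
    intro n
    rw [intervalIntegrable_iff_integrableOn_Ioc_of_le (by linarith)]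
    refine (A16_integrable η hη).mono_set ?_
    intro x hx
    have : (1 : ℝ) ≤ (n : ℝ) + 1 := by
      have : (0 : ℝ) ≤ n := Nat.cast_nonneg n
      linarith
    exact lt_of_le_of_lt this hx.1
  have h3 : ∀ N : ℕ, ∑ n ∈ Finset.range N, LZX.vt n (1 + η) =
      η * (1 - ((N : ℂ) + 1) ^ (-(1 + η))) - η * (1 + η) * ∫ x in (1 : ℝ)..((N : ℝ) + 1), g x := by
    intro N
    induction N with
    | zero => simp
    | succ N ih =>
      rw [Finset.sum_range_succ, ih, A16_cell η hη N]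
      have e1 : ((N + 1 : ℕ) : ℂ) + 1 = (N : ℂ) + 2 := by push_cast; ring
      have e2 : ((N + 1 : ℕ) : ℝ) + 1 = (N : ℝ) + 2 := by push_cast; ring
      have hN1 : IntervalIntegrable g volume 1 ((N : ℝ) + 1) := by
        have : (1 : ℝ) ≤ (N : ℝ) + 1 := by
          have : (0 : ℝ) ≤ N := Nat.cast_nonneg N
          linarith
        rw [intervalIntegrable_iff_integrableOn_Ioc_of_le this]
        exact (A16_integrable η hη).mono_set (fun x hx => hx.1)
      rw [e1, e2, ← intervalIntegral.integral_add_adjacent_intervals hN1 (hgi N)]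
      ring
  have h4 : Tendsto (fun N : ℕ => ∫ x in (1 : ℝ)..((N : ℝ) + 1), g x) atTop
      (𝓝 (∫ x in Ioi (1:ℝ), g x)) := by
    apply intervalIntegral_tendsto_integral_Ioi 1 (A16_integrable η hη)
    exact tendsto_atTop_add_const_right _ _ tendsto_natCast_atTop_atTop
  have h5 : Tendsto (fun N : ℕ => ((N : ℂ) + 1) ^ (-(1 + η))) atTop (𝓝 0) := by
    rw [tendsto_zero_iff_norm_tendsto_zero]
    have e : ∀ N : ℕ, ‖((N : ℂ) + 1) ^ (-(1 + η))‖ = ((N : ℝ) + 1) ^ (-(1 + η).re) := by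
      intro N
      have e1 : ((N : ℂ) + 1) = (((N : ℝ) + 1 : ℝ) : ℂ) := by push_cast; ring
      rw [e1, Complex.norm_cpow_eq_rpow_re_of_pos (by positivity), neg_re]
    simp only [e]
    have h6 := tendsto_rpow_neg_atTop hs
    exact h6.comp (tendsto_atTop_add_const_right _ _ tendsto_natCast_atTop_atTop)
  have h6 : Tendsto (fun N : ℕ => ∑ n ∈ Finset.range N, LZX.vt n (1 + η)) atTop
      (𝓝 (η * (1 - 0) - η * (1 + η) * ∫ x in Ioi (1:ℝ), g x)) := by
    simp only [h3]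
    exact ((h5.const_sub 1).const_mul η).sub (h4.const_mul _)
  have h7 := tendsto_nhds_unique h2 h6
  rw [h7] at h1
  have e : (1 + η - 1) = η := by ring
  rw [e] at h1
  have h8 : riemannZeta (1 + η) = (1 + (η * (1 - 0) - η * (1 + η) * ∫ x in Ioi (1:ℝ), g x)) / η := by
    rw [eq_div_iff h0, mul_comm]
    exact h1
  rw [h8]
  field_simp
  ring

end LZ

end F_A16

section F_M01

open Complex MeasureTheory Set Filter Topology
open scoped ComplexConjugate

namespace LZ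

theorem M01_nS_ne {z : ℕ} {S : Finset ℕ} (hS : S ∈ (PP z).powerset) : (nS S : ℂ) ≠ 0 := by
  rw [Finset.mem_powerset] at hS
  have : nS S ≠ 0 := Finset.prod_ne_zero_iff.2 fun p hp => by
    have := hS hp
    rw [PP, Finset.mem_filter] at this
    exact this.2.ne_zero
  exact_mod_cast this

/-- expand the four mollifiers. -/
theorem XX_expand (lam : Fin 4 → ℝ) (l : ℝ) (α β : ℂ) (τ : Fin 4 → ℂ) (t : ℝ) :
    XX lam l α β τ t = ∑ S ∈ Fintype.piFinset (fun _ : Fin 4 => (PP ⌊Real.exp l⌋₊).powerset),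
      (∏ j, (cf (lam j) l (S j) : ℂ) * (nS (S j) : ℂ) ^ (-(1/2) - τ j)) *
        (riemannZeta (1/2 + α + t * I) * riemannZeta (1/2 + β - t * I) *
          (((nS (S 0) * nS (S 1) : ℕ) : ℂ) ^ (-(t * I)) * ((nS (S 2) * nS (S 3) : ℕ) : ℂ) ^ (t * I))) := by
  set σ : Fin 4 → ℂ := ![t * I, t * I, -(t * I), -(t * I)] with hσ
  have h1 : XX lam l α β τ t = riemannZeta (1/2 + α + t * I) * riemannZeta (1/2 + β - t * I) *
      ∏ j : Fin 4, ∑ S ∈ (PP ⌊Real.exp l⌋₊).powerset,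
        (cf (lam j) l S : ℂ) * (nS S : ℂ) ^ (-(1/2 + τ j + σ j)) := by
    rw [Fin.prod_univ_four]
    unfold XX Mol
    rw [hσ]
    simp only [Matrix.cons_val, sub_eq_add_neg]
  rw [h1, Finset.prod_univ_sum, Finset.mul_sum]
  refine Finset.sum_congr rfl fun S hS => ?_
  rw [Fintype.mem_piFinset] at hS
  have h2 : ∀ j : Fin 4, (cf (lam j) l (S j) : ℂ) * (nS (S j) : ℂ) ^ (-(1/2 + τ j + σ j)) =
      ((cf (lam j) l (S j) : ℂ) * (nS (S j) : ℂ) ^ (-(1/2) - τ j)) * (nS (S j) : ℂ) ^ (-(σ j)) := by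
    intro j
    have : -(1/2 + τ j + σ j) = (-(1/2) - τ j) + -(σ j) := by ring
    rw [this, cpow_add _ _ (M01_nS_ne (hS j))]
    ring
  rw [Finset.prod_congr rfl (fun j _ => h2 j), Finset.prod_mul_distrib]
  have h3 : ∏ j : Fin 4, (nS (S j) : ℂ) ^ (-(σ j)) =
      ((nS (S 0) * nS (S 1) : ℕ) : ℂ) ^ (-(t * I)) * ((nS (S 2) * nS (S 3) : ℕ) : ℂ) ^ (t * I) := by
    rw [Fin.prod_univ_four]
    push_cast
    rw [natCast_mul_natCast_cpow, natCast_mul_natCast_cpow, hσ]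
    simp only [Matrix.cons_val, neg_neg]
    ring
  rw [h3]
  ring

end LZ

end F_M01

section F_Q13

open Complex MeasureTheory Set Filter Topology
open scoped ComplexConjugate

namespace LZ

theorem Q13_norm (p : ℕ) (hp : p.Prime) (A : ℂ) (hA : 1 ≤ A.re) :
    ‖(p : ℂ) ^ (-A)‖ ≤ ((p : ℝ))⁻¹ := by
  have hp1 : (1 : ℝ) ≤ p := by exact_mod_cast hp.one_lt.le
  rw [Complex.norm_natCast_cpow_of_pos hp.pos]
  calc (p : ℝ) ^ (-A).re ≤ (p : ℝ) ^ (-1 : ℝ) := by
        apply Real.rpow_le_rpow_of_exponent_le hp1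
        rw [Complex.neg_re]; linarith
    _ = ((p : ℝ))⁻¹ := Real.rpow_neg_one _

/-- local factors of R1: for Re A, Re B, Re D >= 1 each factor is 1 + O(p^(-2)) with an absolute constant. -/
theorem R1_local : ∃ K : ℝ, 0 < K ∧ ∀ p : ℕ, p.Prime → ∀ A B D : ℂ, 1 ≤ A.re → 1 ≤ B.re → 1 ≤ D.re →
    ‖(1 - (p : ℂ) ^ (-A) - (p : ℂ) ^ (-B) + (p : ℂ) ^ (-D)) * (1 - (p : ℂ) ^ (-D)) /
      ((1 - (p : ℂ) ^ (-A)) * (1 - (p : ℂ) ^ (-B))) - 1‖ ≤ K * ((p : ℝ) ^ 2)⁻¹ := by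
  refine ⟨16, by norm_num, ?_⟩
  intro p hp A B D hA hB hD
  have ha := Q13_norm p hp A hA
  have hb := Q13_norm p hp B hB
  have hd := Q13_norm p hp D hD
  generalize (p : ℂ) ^ (-A) = a at *
  generalize (p : ℂ) ^ (-B) = b at *
  generalize (p : ℂ) ^ (-D) = d at *
  have hp2 : (2 : ℝ) ≤ p := by exact_mod_cast hp.two_le
  set t : ℝ := ((p : ℝ))⁻¹ with ht
  have ht0 : 0 < t := by rw [ht]; positivity
  have ht2 : t ≤ 1 / 2 := by
    rw [ht, inv_eq_one_div]
    exact one_div_le_one_div_of_le (by norm_num) hp2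
  have h1 : ∀ z : ℂ, ‖z‖ ≤ t → 1 / 2 ≤ ‖1 - z‖ := by
    intro z hz
    have := norm_sub_norm_le (1 : ℂ) z
    rw [norm_one] at this
    linarith
  have ha1 := h1 a ha
  have hb1 := h1 b hb
  have ha0 : (1 - a) ≠ 0 := by
    intro h; rw [h, norm_zero] at ha1; linarith
  have hb0 : (1 - b) ≠ 0 := by
    intro h; rw [h, norm_zero] at hb1; linarith
  have e : (1 - a - b + d) * (1 - d) / ((1 - a) * (1 - b)) - 1 =
      (d * a + d * b - d * d - a * b) / ((1 - a) * (1 - b)) := by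
    field_simp
    ring
  rw [e, norm_div, norm_mul]
  have hnum : ‖d * a + d * b - d * d - a * b‖ ≤ 4 * t ^ 2 := by
    have hm : ∀ x y : ℂ, ‖x‖ ≤ t → ‖y‖ ≤ t → ‖x * y‖ ≤ t ^ 2 := by
      intro x y hx hy
      rw [norm_mul, sq]
      exact mul_le_mul hx hy (norm_nonneg _) ht0.le
    calc ‖d * a + d * b - d * d - a * b‖ ≤ ‖d * a + d * b - d * d‖ + ‖a * b‖ := norm_sub_le _ _
      _ ≤ (‖d * a + d * b‖ + ‖d * d‖) + ‖a * b‖ := by
          have := norm_sub_le (d * a + d * b) (d * d); linarith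
      _ ≤ ((‖d * a‖ + ‖d * b‖) + ‖d * d‖) + ‖a * b‖ := by
          have := norm_add_le (d * a) (d * b); linarith
      _ ≤ 4 * t ^ 2 := by
          have := hm d a hd ha
          have := hm d b hd hb
          have := hm d d hd hd
          have := hm a b ha hb
          linarith
  have hden : 1 / 4 ≤ ‖1 - a‖ * ‖1 - b‖ := by
    have := mul_le_mul ha1 hb1 (by norm_num) (norm_nonneg _)
    linarith
  rw [div_le_iff₀ (by linarith)]
  have e2 : ((p : ℝ) ^ 2)⁻¹ = t ^ 2 := by rw [ht, inv_pow]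
  rw [e2]
  have : 0 ≤ t ^ 2 := sq_nonneg _
  nlinarith

end LZ

end F_Q13

section F_Q14

open Complex MeasureTheory Set Filter Topology
open scoped ComplexConjugate

namespace LZ

/-- local factor of R1 -/
private noncomputable def Q14_F (p : ℕ) (x : ℂ × ℂ × ℂ) : ℂ :=
  (1 - (p : ℂ) ^ (-x.1) - (p : ℂ) ^ (-x.2.1) + (p : ℂ) ^ (-x.2.2)) * (1 - (p : ℂ) ^ (-x.2.2)) /
    ((1 - (p : ℂ) ^ (-x.1)) * (1 - (p : ℂ) ^ (-x.2.1)))

private lemma Q14_ne {p : ℕ} (hp : p.Prime) {w : ℂ} (hw : 1 ≤ w.re) : 1 - (p : ℂ) ^ (-w) ≠ 0 := by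
  intro h
  have h1 : (p : ℂ) ^ (-w) = 1 := (sub_eq_zero.1 h).symm
  have h2 : ‖(p : ℂ) ^ (-w)‖ = (p : ℝ) ^ (-w.re) := by
    rw [Complex.norm_natCast_cpow_of_pos hp.pos, Complex.neg_re]
  rw [h1, norm_one] at h2
  have h3 : (p : ℝ) ^ (-w.re) < 1 :=
    Real.rpow_lt_one_of_one_lt_of_neg (by exact_mod_cast hp.one_lt) (by linarith)
  linarith

private lemma Q14_F_diag {p : ℕ} (hp : p.Prime) {w : ℂ} (hw : 1 ≤ w.re) :
    Q14_F p (w, w, w) = 1 := by
  have h := Q14_ne hp hw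
  simp only [Q14_F]
  rw [div_eq_one_iff_eq (mul_ne_zero h h)]
  ring

private lemma Q14_F_cont {p : ℕ} (hp : p.Prime) {w : ℂ} (hw : 1 ≤ w.re) :
    ContinuousAt (Q14_F p) (w, w, w) := by
  have h := Q14_ne hp hw
  have hp0 : (p : ℂ) ≠ 0 := by exact_mod_cast hp.ne_zero
  unfold Q14_F
  have c1 : ContinuousAt (fun x : ℂ × ℂ × ℂ => (p : ℂ) ^ (-x.1)) (w, w, w) := by
    apply ContinuousAt.const_cpow _ (Or.inl hp0)
    fun_prop
  have c2 : ContinuousAt (fun x : ℂ × ℂ × ℂ => (p : ℂ) ^ (-x.2.1)) (w, w, w) := by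
    apply ContinuousAt.const_cpow _ (Or.inl hp0)
    fun_prop
  have c3 : ContinuousAt (fun x : ℂ × ℂ × ℂ => (p : ℂ) ^ (-x.2.2)) (w, w, w) := by
    apply ContinuousAt.const_cpow _ (Or.inl hp0)
    fun_prop
  refine ContinuousAt.div ?_ ?_ (mul_ne_zero h h)
  · exact (((continuousAt_const.sub c1).sub c2).add c3).mul (continuousAt_const.sub c3)
  · exact (continuousAt_const.sub c1).mul (continuousAt_const.sub c2)

private lemma Q14_summ : Summable (fun p : Nat.Primes => (((p : ℕ) : ℝ) ^ 2)⁻¹) := by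
  have h := (Nat.Primes.summable_rpow (r := -2)).2 (by norm_num)
  refine h.congr (fun p => ?_)
  rw [Real.rpow_neg (Nat.cast_nonneg _)]
  norm_num

/-- R1 as a limit, bounded, and close to 1 when A, B, D are close to the same point of the line Re = 1
(the local factor is exactly 1 when A = B = D; dominated convergence for the tail). -/
theorem R1_facts : ∃ K : ℝ, 0 < K ∧
    (∀ A B D : ℂ, 1 ≤ A.re → 1 ≤ B.re → 1 ≤ D.re → ‖R1 A B D‖ ≤ K) ∧
    (∀ A B D : ℂ, 1 ≤ A.re → 1 ≤ B.re → 1 ≤ D.re →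
      Tendsto (fun z : ℕ => ∏ p ∈ PP z, ((1 - (p : ℂ) ^ (-A) - (p : ℂ) ^ (-B) + (p : ℂ) ^ (-D)) *
        (1 - (p : ℂ) ^ (-D)) / ((1 - (p : ℂ) ^ (-A)) * (1 - (p : ℂ) ^ (-B))))) atTop (𝓝 (R1 A B D))) ∧
    (∀ w : ℂ, 1 ≤ w.re → ∀ δ : ℝ, 0 < δ → ∃ ρ : ℝ, 0 < ρ ∧ ∀ A B D : ℂ, 1 ≤ A.re → 1 ≤ B.re → 1 ≤ D.re →
      ‖A - w‖ ≤ ρ → ‖B - w‖ ≤ ρ → ‖D - w‖ ≤ ρ → ‖R1 A B D - 1‖ ≤ δ) := by
  obtain ⟨K, hK, hloc⟩ := R1_local
  set S : ℝ := ∑' p : Nat.Primes, (((p : ℕ) : ℝ) ^ 2)⁻¹ with hS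
  have hdom : ∀ A B D : ℂ, 1 ≤ A.re → 1 ≤ B.re → 1 ≤ D.re → ∀ p : Nat.Primes,
      ‖Q14_F p (A, B, D) - 1‖ ≤ K * (((p : ℕ) : ℝ) ^ 2)⁻¹ := by
    intro A B D hA hB hD p
    exact hloc p p.2 A B D hA hB hD
  have hsum : ∀ A B D : ℂ, 1 ≤ A.re → 1 ≤ B.re → 1 ≤ D.re →
      Summable (fun p : Nat.Primes => ‖Q14_F p (A, B, D) - 1‖) := by
    intro A B D hA hB hD
    exact Summable.of_nonneg_of_le (fun _ => norm_nonneg _) (hdom A B D hA hB hD)
      (Q14_summ.mul_left K)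
  have hR : ∀ A B D : ℂ, R1 A B D = ∏' p : Nat.Primes, (1 + (Q14_F p (A, B, D) - 1)) := by
    intro A B D
    unfold R1 Q14_F
    congr 1
    funext p
    ring
  have hprod : ∀ A B D : ℂ, 1 ≤ A.re → 1 ≤ B.re → 1 ≤ D.re →
      HasProd (fun p : Nat.Primes => (1 + (Q14_F p (A, B, D) - 1))) (R1 A B D) := by
    intro A B D hA hB hD
    rw [hR]
    exact (multipliable_one_add_of_summable (hsum A B D hA hB hD)).hasProd
  have hle : ∀ A B D : ℂ, 1 ≤ A.re → 1 ≤ B.re → 1 ≤ D.re →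
      ‖R1 A B D - 1‖ ≤ Real.exp (∑' p : Nat.Primes, ‖Q14_F p (A, B, D) - 1‖) - 1 := by
    intro A B D hA hB hD
    have h1 := (hprod A B D hA hB hD)
    have h2 : Tendsto (fun s : Finset Nat.Primes =>
        ‖∏ p ∈ s, (1 + (Q14_F p (A, B, D) - 1)) - 1‖) atTop (𝓝 ‖R1 A B D - 1‖) :=
      (Tendsto.sub_const h1 1).norm
    refine le_of_tendsto h2 (Eventually.of_forall (fun s => ?_))
    refine (Finset.norm_prod_one_add_sub_one_le s _).trans ?_
    have h3 : ∑ p ∈ s, ‖Q14_F p (A, B, D) - 1‖ ≤ ∑' p : Nat.Primes, ‖Q14_F p (A, B, D) - 1‖ :=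
      (hsum A B D hA hB hD).sum_le_tsum s (fun _ _ => norm_nonneg _)
    linarith [Real.exp_le_exp.2 h3]
  refine ⟨Real.exp (K * S), Real.exp_pos _, ?_, ?_, ?_⟩
  · intro A B D hA hB hD
    have h1 := hle A B D hA hB hD
    have h2 : ∑' p : Nat.Primes, ‖Q14_F p (A, B, D) - 1‖ ≤ K * S := by
      rw [hS, ← tsum_mul_left]
      exact (hsum A B D hA hB hD).tsum_le_tsum (hdom A B D hA hB hD) (Q14_summ.mul_left K)
    have h3 : ‖R1 A B D‖ ≤ ‖R1 A B D - 1‖ + 1 := by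
      have := norm_add_le (R1 A B D - 1) 1
      simpa using this
    linarith [Real.exp_le_exp.2 h2]
  · intro A B D hA hB hD
    have h1 := hprod A B D hA hB hD
    have hs : Tendsto (fun z : ℕ => (PP z).subtype Nat.Prime) atTop atTop := by
      apply tendsto_atTop_finset_of_monotone
      · intro a b hab x hx
        simp only [PP, Finset.mem_subtype, Finset.mem_filter, Finset.mem_range] at hx ⊢
        exact ⟨by omega, hx.2⟩
      · intro x
        refine ⟨x.1, ?_⟩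
        simp only [PP, Finset.mem_subtype, Finset.mem_filter, Finset.mem_range]
        exact ⟨by omega, x.2⟩
    have h2 := Tendsto.comp h1 hs
    refine h2.congr (fun z => ?_)
    simp only [Function.comp]
    have h3 : ∀ p : ℕ, 1 + (Q14_F p (A, B, D) - 1) =
        (1 - (p : ℂ) ^ (-A) - (p : ℂ) ^ (-B) + (p : ℂ) ^ (-D)) *
        (1 - (p : ℂ) ^ (-D)) / ((1 - (p : ℂ) ^ (-A)) * (1 - (p : ℂ) ^ (-B))) := by
      intro p
      unfold Q14_F
      ring
    have h4 := Finset.prod_subtype_of_mem (s := PP z) (p := Nat.Prime)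
      (fun p : ℕ => (1 + (Q14_F p (A, B, D) - 1)))
      (by intro x hx; exact (Finset.mem_filter.1 hx).2)
    exact Eq.trans h4 (Finset.prod_congr rfl (fun p _ => h3 p))
  · intro w hw δ hδ
    set U : Set (ℂ × ℂ × ℂ) := {x | 1 ≤ x.1.re ∧ 1 ≤ x.2.1.re ∧ 1 ≤ x.2.2.re} with hU
    have ht : Tendsto (fun x : ℂ × ℂ × ℂ => ∑' p : Nat.Primes, ‖Q14_F p x - 1‖)
        (𝓝[U] (w, w, w)) (𝓝 (∑' _ : Nat.Primes, (0 : ℝ))) := by
      apply tendsto_tsum_of_dominated_convergence (Q14_summ.mul_left K)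
      · intro p
        have h1 := (Q14_F_cont p.2 hw).tendsto
        rw [Q14_F_diag p.2 hw] at h1
        have h2 := (h1.sub_const 1).norm
        rw [sub_self, norm_zero] at h2
        exact h2.mono_left nhdsWithin_le_nhds
      · filter_upwards [self_mem_nhdsWithin] with x hx p
        rw [norm_norm]
        exact hdom x.1 x.2.1 x.2.2 hx.1 hx.2.1 hx.2.2 p
    rw [tsum_zero] at ht
    have ht2 : Tendsto (fun x : ℂ × ℂ × ℂ => Real.exp (∑' p : Nat.Primes, ‖Q14_F p x - 1‖) - 1)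
        (𝓝[U] (w, w, w)) (𝓝 0) := by
      have := (Real.continuous_exp.tendsto 0).comp ht
      rw [Real.exp_zero] at this
      simpa using this.sub_const 1
    have hev := ht2.eventually (gt_mem_nhds hδ)
    rw [eventually_nhdsWithin_iff, Metric.eventually_nhds_iff] at hev
    obtain ⟨r, hr, hrr⟩ := hev
    refine ⟨r / 2, by positivity, ?_⟩
    intro A B D hA hB hD hA1 hB1 hD1
    have h1 : dist (A, B, D) (w, w, w) < r := by
      rw [Prod.dist_eq, Prod.dist_eq]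
      simp only [dist_eq_norm]
      refine max_lt (by linarith) (max_lt (by linarith) (by linarith))
    have h2 := hrr h1 ⟨hA, hB, hD⟩
    exact (hle A B D hA hB hD).trans h2.le

end LZ

end F_Q14
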