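import Pool.Agent.Lib.MP_0f5a55_nt.V.V02
import Pool.Agent.Lib.MP_0f5a55_nt.V.V06

section F_A11

open Complex MeasureTheory Set Filter Topology
open scoped ComplexConjugate

namespace LZ

private lemma A11_loc {g g' : ℝ → ℂ} {a : ℝ} (hg : ∀ x : ℝ, a ≤ x → HasDerivAt g (g' x) x)
    (hi' : IntegrableOn g' (Ioi a)) {b c : ℝ} (hab : a ≤ b) (hbc : b ≤ c) :
    ‖((c - b : ℝ) : ℂ) * g b - ∫ x in Ioc b c, g x‖ ≤ (c - b) * ∫ x in Ioc b c, ‖g' x‖ := by
  have hcont : ContinuousOn g (Icc b c) := fun x hx => (hg x (hab.trans hx.1)).continuousAt.continuousWithinAt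
  have hgi : IntegrableOn g (Ioc b c) := (hcont.integrableOn_Icc).mono_set Ioc_subset_Icc_self
  have hi2 : IntegrableOn g' (Ioc b c) := hi'.mono_set (fun x hx => lt_of_le_of_lt hab hx.1)
  have hvol : (volume (Ioc b c)).toReal = c - b := by
    rw [Real.volume_Ioc, ENNReal.toReal_ofReal (by linarith)]
  have h1 : ((c - b : ℝ) : ℂ) * g b = ∫ x in Ioc b c, g b := by
    rw [setIntegral_const, measureReal_def, hvol]
    simp
  rw [h1, ← integral_sub (by simp) hgi]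
  have h2 : ∀ x ∈ Ioc b c, ‖g b - g x‖ ≤ ∫ x in Ioc b c, ‖g' x‖ := by
    intro x hx
    have h3 : ∫ y in b..x, g' y = g x - g b := by
      apply intervalIntegral.integral_eq_sub_of_hasDerivAt
      · intro y hy
        rw [uIcc_of_le hx.1.le] at hy
        exact hg y (hab.trans hy.1)
      · rw [intervalIntegrable_iff_integrableOn_Ioc_of_le hx.1.le]
        exact hi2.mono_set (Ioc_subset_Ioc_right hx.2)
    rw [norm_sub_rev, ← h3, intervalIntegral.integral_of_le hx.1.le]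
    refine (norm_integral_le_integral_norm _).trans ?_
    apply setIntegral_mono_set hi2.norm
    · exact Filter.Eventually.of_forall fun y => norm_nonneg _
    · exact (Ioc_subset_Ioc_right hx.2).eventuallyLE
  have h4 := norm_setIntegral_le_of_norm_le_const (μ := volume) (s := Ioc b c) (f := fun x => g b - g x)
    (C := ∫ x in Ioc b c, ‖g' x‖) (by rw [Real.volume_Ioc]; exact ENNReal.ofReal_lt_top) h2
  rw [measureReal_def, hvol] at h4
  linarith

private lemma A11_union (a : ℝ) (k : ℕ) (hk : 1 ≤ k) :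
    ⋃ j : ℕ, Ioc (a + j * k) (a + ((j + 1 : ℕ) : ℝ) * k) = Ioi a := by
  have hk0 : (0 : ℝ) < k := by exact_mod_cast hk
  ext x
  rw [mem_iUnion, mem_Ioi]
  constructor
  · rintro ⟨j, hj⟩
    have : (0 : ℝ) ≤ (j : ℝ) * k := by positivity
    linarith [hj.1]
  · intro hx
    have hq : 0 < (x - a) / k := div_pos (by linarith) hk0
    have h1 : 0 < ⌈(x - a) / k⌉₊ := Nat.ceil_pos.mpr hq
    refine ⟨⌈(x - a) / k⌉₊ - 1, ?_, ?_⟩
    · have h2 := Nat.ceil_lt_add_one hq.le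
      rw [Nat.cast_sub h1, Nat.cast_one]
      have h3 : ((⌈(x - a) / k⌉₊ : ℝ) - 1) < (x - a) / k := by linarith
      rw [lt_div_iff₀ hk0] at h3
      linarith
    · rw [Nat.sub_add_cancel h1]
      have h2 := Nat.le_ceil ((x - a) / k)
      rw [div_le_iff₀ hk0] at h2
      linarith

private lemma A11_disj (a : ℝ) (k : ℕ) :
    Pairwise (Function.onFun Disjoint (fun j : ℕ => Ioc (a + j * k) (a + ((j + 1 : ℕ) : ℝ) * k))) := by
  have hmono : Monotone (fun j : ℕ => a + (j : ℝ) * k) := by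
    intro i j hij
    have h1 : (i : ℝ) ≤ j := by exact_mod_cast hij
    have h2 : (0 : ℝ) ≤ k := Nat.cast_nonneg k
    show a + (i : ℝ) * k ≤ a + (j : ℝ) * k
    nlinarith
  exact hmono.pairwise_disjoint_on_Ioc_succ

/-- sum versus integral: on [a+jk, a+(j+1)k] compare g with its value at the left end point. -/
theorem sum_int {g g' : ℝ → ℂ} {a : ℝ} (k : ℕ) (hk : 1 ≤ k) (hg : ∀ x : ℝ, a ≤ x → HasDerivAt g (g' x) x)
    (hi : IntegrableOn g (Ioi a)) (hi' : IntegrableOn g' (Ioi a)) :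
    Summable (fun j : ℕ => g (a + j * k)) ∧
    ‖∑' j : ℕ, g (a + j * k) - (1 / (k : ℂ)) * ∫ x in Ioi a, g x‖ ≤ ∫ x in Ioi a, ‖g' x‖ := by
  have hk0 : (0 : ℝ) < k := by exact_mod_cast hk
  have hkC : (k : ℂ) ≠ 0 := by exact_mod_cast hk0.ne'
  have hm : ∀ j : ℕ, MeasurableSet (Ioc (a + j * k) (a + ((j + 1 : ℕ) : ℝ) * k)) := fun j => measurableSet_Ioc
  have hU := A11_union a k hk
  have hD := A11_disj a k
  have s1 : HasSum (fun j : ℕ => ∫ x in Ioc (a + j * k) (a + ((j + 1 : ℕ) : ℝ) * k), g x) (∫ x in Ioi a, g x) := by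
    have := hasSum_integral_iUnion (μ := volume) (f := g) hm hD (by rw [hU]; exact hi)
    rwa [hU] at this
  have s2 : HasSum (fun j : ℕ => ∫ x in Ioc (a + j * k) (a + ((j + 1 : ℕ) : ℝ) * k), ‖g' x‖)
      (∫ x in Ioi a, ‖g' x‖) := by
    have := hasSum_integral_iUnion (μ := volume) (f := fun x => ‖g' x‖) hm hD (by rw [hU]; exact hi'.norm)
    rwa [hU] at this
  have hloc : ∀ j : ℕ, ‖g (a + j * k) - (1 / (k : ℂ)) * ∫ x in Ioc (a + j * k) (a + ((j + 1 : ℕ) : ℝ) * k), g x‖ ≤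
      ∫ x in Ioc (a + j * k) (a + ((j + 1 : ℕ) : ℝ) * k), ‖g' x‖ := by
    intro j
    have hj0 : (0 : ℝ) ≤ (j : ℝ) * k := by positivity
    have h1 := A11_loc hg hi' (b := a + j * k) (c := a + ((j + 1 : ℕ) : ℝ) * k) (by linarith)
      (by push_cast; linarith)
    have h2 : a + ((j + 1 : ℕ) : ℝ) * k - (a + j * k) = k := by push_cast; ring
    rw [h2] at h1
    have h3 : g (a + j * k) - (1 / (k : ℂ)) * ∫ x in Ioc (a + j * k) (a + ((j + 1 : ℕ) : ℝ) * k), g x =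
        (1 / (k : ℂ)) * (((k : ℝ) : ℂ) * g (a + j * k) -
          ∫ x in Ioc (a + j * k) (a + ((j + 1 : ℕ) : ℝ) * k), g x) := by
      push_cast; field_simp
    rw [h3, norm_mul, norm_div, norm_one, norm_natCast, one_div, inv_mul_le_iff₀ hk0]
    exact h1
  have s3 : Summable (fun j : ℕ => g (a + j * k) -
      (1 / (k : ℂ)) * ∫ x in Ioc (a + j * k) (a + ((j + 1 : ℕ) : ℝ) * k), g x) :=
    Summable.of_norm_bounded s2.summable hloc
  have s4 := s1.mul_left (1 / (k : ℂ))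
  have s5 : Summable (fun j : ℕ => g (a + j * k)) := by
    have := s3.add s4.summable
    refine this.congr (fun j => ?_)
    ring
  refine ⟨s5, ?_⟩
  have h6 : ∑' j : ℕ, g (a + j * k) - (1 / (k : ℂ)) * ∫ x in Ioi a, g x =
      ∑' j : ℕ, (g (a + j * k) - (1 / (k : ℂ)) * ∫ x in Ioc (a + j * k) (a + ((j + 1 : ℕ) : ℝ) * k), g x) := by
    rw [s5.tsum_sub s4.summable, s4.tsum_eq]
  rw [h6]
  exact tsum_of_norm_bounded s2 hloc

end LZ

end F_A11

section F_A18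

open Complex MeasureTheory Set Filter Topology
open scoped ComplexConjugate

namespace LZ

theorem A18_gam {b r : ℝ} (hb : 0 < b) (hr : 0 < r) :
    IntegrableOn (fun x : ℝ => x ^ (b - 1) * Real.exp (-(r * x))) (Ioi 0) ∧
      ∫ x in Ioi (0:ℝ), x ^ (b - 1) * Real.exp (-(r * x)) = (1 / r) ^ b * Real.Gamma b := by
  have h := Real.integral_rpow_mul_exp_neg_mul_Ioi (a := b) (r := r) hb hr
  refine ⟨?_, h⟩
  refine Integrable.of_integral_ne_zero ?_
  rw [h]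
  have := Real.Gamma_pos_of_pos hb
  positivity

theorem A18_pow1 {Y : ℝ} (hY : 0 < Y) (hY1 : Y ≤ 1) :
    (1 / (Y / 2)) ^ (1 / 8 : ℝ) ≤ 2 * Y ^ (-(1/4) : ℝ) := by
  have e : 1 / (Y / 2) = 2 * Y⁻¹ := by field_simp
  rw [e, Real.mul_rpow (by norm_num) (by positivity), Real.inv_rpow hY.le, ← Real.rpow_neg hY.le]
  have h1 : (2 : ℝ) ^ (1 / 8 : ℝ) ≤ 2 ^ (1 : ℝ) :=
    Real.rpow_le_rpow_of_exponent_le (by norm_num) (by norm_num)
  rw [Real.rpow_one] at h1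
  have h2 : Y ^ (-(1 / 8) : ℝ) ≤ Y ^ (-(1/4) : ℝ) :=
    Real.rpow_le_rpow_of_exponent_ge hY hY1 (by norm_num)
  exact mul_le_mul h1 h2 (by positivity) (by norm_num)

theorem A18_pow2 {Y : ℝ} (hY : 0 < Y) (hY1 : Y ≤ 1) :
    Y * (1 / (Y / 2)) ^ (9 / 8 : ℝ) ≤ 4 * Y ^ (-(1/4) : ℝ) := by
  have e : 1 / (Y / 2) = 2 * Y⁻¹ := by field_simp
  rw [e, Real.mul_rpow (by norm_num) (by positivity), Real.inv_rpow hY.le, ← Real.rpow_neg hY.le]
  have h1 : (2 : ℝ) ^ (9 / 8 : ℝ) ≤ 2 ^ (2 : ℝ) :=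
    Real.rpow_le_rpow_of_exponent_le (by norm_num) (by norm_num)
  rw [Real.rpow_two] at h1
  have h3 : Y * Y ^ (-(9 / 8) : ℝ) = Y ^ (-(1 / 8) : ℝ) := by
    nth_rewrite 1 [← Real.rpow_one Y]
    rw [← Real.rpow_add hY]
    norm_num
  have h2 : Y ^ (-(1 / 8) : ℝ) ≤ Y ^ (-(1/4) : ℝ) :=
    Real.rpow_le_rpow_of_exponent_ge hY hY1 (by norm_num)
  calc Y * ((2 : ℝ) ^ (9 / 8 : ℝ) * Y ^ (-(9 / 8) : ℝ))
      = (2 : ℝ) ^ (9 / 8 : ℝ) * (Y * Y ^ (-(9 / 8) : ℝ)) := by ring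
    _ ≤ 4 * Y ^ (-(1/4) : ℝ) := by
      rw [h3]
      exact mul_le_mul (by linarith) h2 (by positivity) (by norm_num)

theorem A18_rpow_le {x t : ℝ} (hx : 1 ≤ x) (ht : |t| ≤ 1/8) : x ^ (-t) ≤ x ^ (9 / 8 - 1 : ℝ) := by
  refine Real.rpow_le_rpow_of_exponent_le hx ?_
  have := (abs_le.1 ht).1
  linarith

theorem A18_rpow_le' {x t : ℝ} (hx : 1 ≤ x) (ht : |t| ≤ 1/8) :
    x ^ (-t - 1) ≤ x ^ (1 / 8 - 1 : ℝ) := by
  refine Real.rpow_le_rpow_of_exponent_le hx ?_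
  have := (abs_le.1 ht).1
  linarith

theorem A18_rpow_small {x t : ℝ} (hx : 0 < x) (ht : |t| ≤ 1/8) :
    x ^ (-t) ≤ x ^ (-(1/8) : ℝ) + x ^ (1/8 : ℝ) := by
  have h := abs_le.1 ht
  rcases le_total x 1 with h1 | h1
  · have : x ^ (-t) ≤ x ^ (-(1/8) : ℝ) :=
      Real.rpow_le_rpow_of_exponent_ge hx h1 (by linarith)
    have : 0 ≤ x ^ (1/8 : ℝ) := by positivity
    linarith
  · have : x ^ (-t) ≤ x ^ (1/8 : ℝ) :=
      Real.rpow_le_rpow_of_exponent_le h1 (by linarith)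
    have : 0 ≤ x ^ (-(1/8) : ℝ) := by positivity
    linarith

/-- one residue class. g(x) = x^(-eta) phi(xY), sum_int; int_a^oo |g'| <= CK k Y^(-1/8); the missing piece (1/k) int_0^a g is
<= CK k; substitution int_0^oo x^(-eta) phi(xY) dx = Y^(eta-1) int_0^oo y^(-eta) phi(y) dy. -/
theorem class_sum (V : ℝ) (hV : 0 ≤ V) : ∃ C : ℝ, 0 < C ∧ ∀ η : ℂ, |η.re| ≤ 1/8 → |η.im| ≤ V →
    ∀ (φ φ' : ℝ → ℂ) (K : ℝ), 0 ≤ K → (∀ y : ℝ, 0 < y → HasDerivAt φ (φ' y) y) →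
    (∀ y : ℝ, 0 < y → ‖φ y‖ ≤ K * Real.exp (-y / 2)) → (∀ y : ℝ, 0 < y → ‖φ' y‖ ≤ K * Real.exp (-y / 2)) →
    ∀ k a : ℕ, 1 ≤ a → a ≤ k → ∀ Y : ℝ, 0 < Y → Y ≤ 1 →
    Summable (fun j : ℕ => ((a : ℂ) + j * k) ^ (-η) * φ (((a : ℝ) + j * k) * Y)) ∧
    ‖∑' j : ℕ, ((a : ℂ) + j * k) ^ (-η) * φ (((a : ℝ) + j * k) * Y) -
      (1 / (k : ℂ)) * (Y : ℂ) ^ (η - 1) * ∫ y in Ioi (0:ℝ), (y : ℂ) ^ (-η) * φ y‖ ≤
      C * K * (k : ℝ) ^ 2 * Y ^ (-(1/4) : ℝ) := by
  have hG1 : 0 < Real.Gamma (1 / 8) := Real.Gamma_pos_of_pos (by norm_num)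
  have hG2 : 0 < Real.Gamma (9 / 8) := Real.Gamma_pos_of_pos (by norm_num)
  refine ⟨(1 / 8 + V) * (2 * Real.Gamma (1 / 8)) + 4 * Real.Gamma (9 / 8) + 3, by positivity, ?_⟩
  intro η hη1 hη2 φ φ' K hK hφ hφb hφb' k a ha hak Y hY hY1
  have hηn : ‖η‖ ≤ 1 / 8 + V := (Complex.norm_le_abs_re_add_abs_im η).trans (add_le_add hη1 hη2)
  have ha1 : (1 : ℝ) ≤ a := by exact_mod_cast ha
  have hak' : (a : ℝ) ≤ k := by exact_mod_cast hak
  have hk1 : (1 : ℝ) ≤ k := ha1.trans hak'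
  have hY4 : 1 ≤ Y ^ (-(1/4) : ℝ) := Real.one_le_rpow_of_pos_of_le_one_of_nonpos hY hY1 (by norm_num)
  obtain ⟨g, hg⟩ : ∃ g : ℝ → ℂ, g = fun x : ℝ => (x : ℂ) ^ (-η) * φ (x * Y) := ⟨_, rfl⟩
  obtain ⟨g', hg'⟩ : ∃ g' : ℝ → ℂ, g' = fun x : ℝ => (-η * (x : ℂ) ^ (-η - 1)) * φ (x * Y) +
    (x : ℂ) ^ (-η) * ((Y : ℂ) * φ' (x * Y)) := ⟨_, rfl⟩
  have hder : ∀ x : ℝ, 0 < x → HasDerivAt g (g' x) x := by
    intro x hx
    have h1 : HasDerivAt (fun x : ℝ => (x : ℂ) ^ (-η)) (-η * (x : ℂ) ^ (-η - 1)) x := by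
      have h2 : HasDerivAt (fun z : ℂ => z ^ (-η)) (-η * (x : ℂ) ^ (-η - 1) * 1) (x : ℂ) :=
        (hasDerivAt_id (x : ℂ)).cpow_const (Or.inl (by simpa using hx))
      rw [mul_one] at h2
      exact h2.comp_ofReal
    have h3 : HasDerivAt (fun x : ℝ => φ (x * Y)) ((Y : ℂ) * φ' (x * Y)) x := by
      have h4 : HasDerivAt (fun x : ℝ => x * Y) (1 * Y) x := (hasDerivAt_id x).mul_const Y
      have h5 := (hφ (x * Y) (by positivity)).scomp x h4
      rw [one_mul] at h5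
      exact h5
    rw [hg, hg']
    exact h1.mul h3
  have hnorm : ∀ x : ℝ, 0 < x → ‖g x‖ ≤ K * (x ^ (-η.re) * Real.exp (-(Y / 2 * x))) := by
    intro x hx
    rw [hg]
    simp only
    rw [norm_mul, norm_cpow_eq_rpow_re_of_pos hx, neg_re]
    have h1 := hφb (x * Y) (by positivity)
    have h2 : -(x * Y) / 2 = -(Y / 2 * x) := by ring
    rw [h2] at h1
    calc x ^ (-η.re) * ‖φ (x * Y)‖ ≤ x ^ (-η.re) * (K * Real.exp (-(Y / 2 * x))) := by gcongr
      _ = _ := by ring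
  have hnorm' : ∀ x : ℝ, 1 ≤ x → ‖g' x‖ ≤
      ((1 / 8 + V) * K) * (x ^ (1 / 8 - 1 : ℝ) * Real.exp (-(Y / 2 * x))) +
        (Y * K) * (x ^ (9 / 8 - 1 : ℝ) * Real.exp (-(Y / 2 * x))) := by
    intro x hx1
    have hx : 0 < x := by linarith
    rw [hg']
    simp only
    have h1 := hφb (x * Y) (by positivity)
    have h1' := hφb' (x * Y) (by positivity)
    have h2 : -(x * Y) / 2 = -(Y / 2 * x) := by ring
    rw [h2] at h1 h1'
    refine (norm_add_le _ _).trans (add_le_add ?_ ?_)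
    · rw [norm_mul, norm_mul, norm_neg, norm_cpow_eq_rpow_re_of_pos hx]
      have h3 : (-η - 1).re = -η.re - 1 := by simp
      rw [h3]
      have h4 := A18_rpow_le' hx1 hη1
      calc ‖η‖ * x ^ (-η.re - 1) * ‖φ (x * Y)‖
          ≤ (1 / 8 + V) * x ^ (1 / 8 - 1 : ℝ) * (K * Real.exp (-(Y / 2 * x))) := by gcongr
        _ = _ := by ring
    · rw [norm_mul, norm_mul, norm_cpow_eq_rpow_re_of_pos hx, neg_re, norm_real,
        Real.norm_of_nonneg hY.le]
      have h4 := A18_rpow_le hx1 hη1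
      calc x ^ (-η.re) * (Y * ‖φ' (x * Y)‖)
          ≤ x ^ (9 / 8 - 1 : ℝ) * (Y * (K * Real.exp (-(Y / 2 * x)))) := by gcongr
        _ = _ := by ring
  have hY2 : 0 < Y / 2 := by positivity
  obtain ⟨i1, v1⟩ := A18_gam (b := 1 / 8) (r := Y / 2) (by norm_num) hY2
  obtain ⟨i2, v2⟩ := A18_gam (b := 9 / 8) (r := Y / 2) (by norm_num) hY2
  have hsub : Ioi (a : ℝ) ⊆ Ioi (0 : ℝ) := Ioi_subset_Ioi (by linarith)
  have hcont : ContinuousOn g (Ioi 0) := fun x hx => (hder x hx).continuousAt.continuousWithinAt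
  have hmeas' : AEStronglyMeasurable g' (volume.restrict (Ioi (a : ℝ))) := by
    refine ((aestronglyMeasurable_deriv g _)).congr ?_
    filter_upwards [ae_restrict_mem measurableSet_Ioi] with x hx
    exact (hder x (hsub hx)).deriv
  have hgi : IntegrableOn g (Ioi (a : ℝ)) := by
    refine Integrable.mono' ((i2.mono_set hsub).const_mul K)
      ((hcont.mono hsub).aestronglyMeasurable measurableSet_Ioi) ?_
    filter_upwards [ae_restrict_mem measurableSet_Ioi] with x hx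
    have hx1 : 1 ≤ x := ha1.trans (le_of_lt hx)
    refine (hnorm x (by linarith)).trans ?_
    have := A18_rpow_le hx1 hη1
    gcongr
  have hbd : IntegrableOn (fun x => ((1 / 8 + V) * K) * (x ^ (1 / 8 - 1 : ℝ) *
      Real.exp (-(Y / 2 * x))) + (Y * K) * (x ^ (9 / 8 - 1 : ℝ) * Real.exp (-(Y / 2 * x))))
      (Ioi (0 : ℝ)) := (i1.const_mul _).add (i2.const_mul _)
  have hgi' : IntegrableOn g' (Ioi (a : ℝ)) := by
    refine Integrable.mono' (hbd.mono_set hsub) hmeas' ?_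
    filter_upwards [ae_restrict_mem measurableSet_Ioi] with x hx
    exact hnorm' x (ha1.trans (le_of_lt hx))
  obtain ⟨hs1, hs2⟩ := sum_int (g := g) (g' := g') (a := (a : ℝ)) k (ha.trans hak)
    (fun x hx => hder x (by linarith)) hgi hgi'
  have hint' : ∫ x in Ioi (a : ℝ), ‖g' x‖ ≤
      ((1 / 8 + V) * (2 * Real.Gamma (1 / 8)) + 4 * Real.Gamma (9 / 8)) * K * Y ^ (-(1/4) : ℝ) := by
    calc ∫ x in Ioi (a : ℝ), ‖g' x‖
        ≤ ∫ x in Ioi (a : ℝ), (((1 / 8 + V) * K) * (x ^ (1 / 8 - 1 : ℝ) *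
            Real.exp (-(Y / 2 * x))) + (Y * K) * (x ^ (9 / 8 - 1 : ℝ) *
            Real.exp (-(Y / 2 * x)))) := by
          refine setIntegral_mono_on hgi'.norm (hbd.mono_set hsub) measurableSet_Ioi ?_
          intro x hx
          exact hnorm' x (ha1.trans (le_of_lt hx))
      _ ≤ ∫ x in Ioi (0 : ℝ), (((1 / 8 + V) * K) * (x ^ (1 / 8 - 1 : ℝ) *
            Real.exp (-(Y / 2 * x))) + (Y * K) * (x ^ (9 / 8 - 1 : ℝ) *
            Real.exp (-(Y / 2 * x)))) := by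
          refine setIntegral_mono_set hbd ?_ (Eventually.of_forall hsub)
          filter_upwards [ae_restrict_mem measurableSet_Ioi] with x hx
          have hx : 0 < x := hx
          simp only [Pi.zero_apply]
          positivity
      _ = ((1 / 8 + V) * K) * ((1 / (Y / 2)) ^ (1 / 8 : ℝ) * Real.Gamma (1 / 8)) +
            K * ((Y * (1 / (Y / 2)) ^ (9 / 8 : ℝ)) * Real.Gamma (9 / 8)) := by
          rw [integral_add (i1.const_mul _) (i2.const_mul _), integral_const_mul,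
            integral_const_mul, v1, v2]
          ring
      _ ≤ ((1 / 8 + V) * K) * ((2 * Y ^ (-(1/4) : ℝ)) * Real.Gamma (1 / 8)) +
            K * ((4 * Y ^ (-(1/4) : ℝ)) * Real.Gamma (9 / 8)) := by
          have e1 := A18_pow1 hY hY1
          have e2 := A18_pow2 hY hY1
          gcongr
      _ = _ := by ring
  -- the missing piece
  have hj0 : IntervalIntegrable (fun x : ℝ => K * (x ^ (-(1/8) : ℝ) + x ^ (1/8 : ℝ))) volume 0 a :=
    ((intervalIntegral.intervalIntegrable_rpow' (by norm_num)).add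
      (intervalIntegral.intervalIntegrable_rpow' (by norm_num))).const_mul K
  have hsm : ∀ x ∈ Ioc (0 : ℝ) a, ‖g x‖ ≤ K * (x ^ (-(1/8) : ℝ) + x ^ (1/8 : ℝ)) := by
    intro x hx
    refine (hnorm x hx.1).trans ?_
    have h1 := A18_rpow_small hx.1 hη1
    have h2 : Real.exp (-(Y / 2 * x)) ≤ 1 := by
      rw [Real.exp_le_one_iff]
      have := hx.1
      have : 0 < Y / 2 * x := by positivity
      linarith
    have h3 : 0 ≤ x ^ (-η.re) := Real.rpow_nonneg hx.1.le _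
    calc K * (x ^ (-η.re) * Real.exp (-(Y / 2 * x))) ≤ K * (x ^ (-η.re) * 1) := by gcongr
      _ ≤ _ := by rw [mul_one]; gcongr
  have hg0a : IntegrableOn g (Ioc (0 : ℝ) a) := by
    refine Integrable.mono' ((intervalIntegrable_iff_integrableOn_Ioc_of_le (by linarith)).1 hj0)
      ((hcont.mono Ioc_subset_Ioi_self).aestronglyMeasurable measurableSet_Ioc) ?_
    filter_upwards [ae_restrict_mem measurableSet_Ioc] with x hx
    exact hsm x hx
  have hpiece : ‖∫ x in Ioc (0 : ℝ) a, g x‖ ≤ 3 * K * (k : ℝ) ^ 2 := by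
    calc ‖∫ x in Ioc (0 : ℝ) a, g x‖ ≤ ∫ x in Ioc (0 : ℝ) a, K * (x ^ (-(1/8) : ℝ) +
          x ^ (1/8 : ℝ)) := by
          refine norm_integral_le_of_norm_le
            ((intervalIntegrable_iff_integrableOn_Ioc_of_le (by linarith)).1 hj0) ?_
          filter_upwards [ae_restrict_mem measurableSet_Ioc] with x hx
          exact hsm x hx
      _ = ∫ x in (0 : ℝ)..a, K * (x ^ (-(1/8) : ℝ) + x ^ (1/8 : ℝ)) := by
          rw [intervalIntegral.integral_of_le (by linarith)]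
      _ = K * (8 / 7 * (a : ℝ) ^ (7 / 8 : ℝ) + 8 / 9 * (a : ℝ) ^ (9 / 8 : ℝ)) := by
          rw [intervalIntegral.integral_const_mul, intervalIntegral.integral_add
            (intervalIntegral.intervalIntegrable_rpow' (by norm_num))
            (intervalIntegral.intervalIntegrable_rpow' (by norm_num)),
            integral_rpow (Or.inl (by norm_num)), integral_rpow (Or.inl (by norm_num)),
            show (-(1/8) + 1 : ℝ) = 7 / 8 by norm_num, show (1/8 + 1 : ℝ) = 9 / 8 by norm_num,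
            Real.zero_rpow (by norm_num), Real.zero_rpow (by norm_num)]
          ring
      _ ≤ K * (8 / 7 * (k : ℝ) ^ 2 + 8 / 9 * (k : ℝ) ^ 2) := by
          have e1 : (a : ℝ) ^ (7 / 8 : ℝ) ≤ (k : ℝ) ^ 2 := by
            rw [← Real.rpow_two]
            exact (Real.rpow_le_rpow_of_exponent_le ha1 (by norm_num)).trans
              (Real.rpow_le_rpow (by linarith) hak' (by norm_num))
          have e2 : (a : ℝ) ^ (9 / 8 : ℝ) ≤ (k : ℝ) ^ 2 := by
            rw [← Real.rpow_two]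
            exact (Real.rpow_le_rpow_of_exponent_le ha1 (by norm_num)).trans
              (Real.rpow_le_rpow (by linarith) hak' (by norm_num))
          gcongr
      _ ≤ 3 * K * (k : ℝ) ^ 2 := by
          have h0 : 0 ≤ K * (k : ℝ) ^ 2 := mul_nonneg hK (sq_nonneg _)
          calc K * (8 / 7 * (k : ℝ) ^ 2 + 8 / 9 * (k : ℝ) ^ 2) = 128 / 63 * (K * (k : ℝ) ^ 2) := by ring
            _ ≤ 3 * (K * (k : ℝ) ^ 2) := mul_le_mul_of_nonneg_right (by norm_num) h0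
            _ = 3 * K * (k : ℝ) ^ 2 := by ring
  -- substitution
  have hsubst : ∫ x in Ioi (0 : ℝ), g x =
      (Y : ℂ) ^ (η - 1) * ∫ y in Ioi (0:ℝ), (y : ℂ) ^ (-η) * φ y := by
    have h1 := integral_comp_mul_right_Ioi (fun y : ℝ => (y : ℂ) ^ (-η) * φ y) 0 hY
    rw [zero_mul] at h1
    have hYc : (Y : ℂ) ≠ 0 := by exact_mod_cast hY.ne'
    have h2 : ∫ x in Ioi (0 : ℝ), ((x * Y : ℝ) : ℂ) ^ (-η) * φ (x * Y) =
        (Y : ℂ) ^ (-η) * ∫ x in Ioi (0 : ℝ), g x := by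
      rw [← integral_const_mul]
      refine setIntegral_congr_fun measurableSet_Ioi fun x hx => ?_
      have hx : 0 < x := hx
      rw [hg]
      simp only
      rw [ofReal_mul, mul_cpow_ofReal_nonneg hx.le hY.le]
      ring
    rw [h2] at h1
    have h3 : (Y : ℂ) ^ η * (Y : ℂ) ^ (-η) = 1 := by
      rw [← cpow_add _ _ hYc, add_neg_cancel, cpow_zero]
    calc ∫ x in Ioi (0 : ℝ), g x = (Y : ℂ) ^ η * ((Y : ℂ) ^ (-η) * ∫ x in Ioi (0 : ℝ), g x) := by
          rw [← mul_assoc, h3, one_mul]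
      _ = _ := by
          rw [h1, cpow_sub _ _ hYc, cpow_one, real_smul, ofReal_inv]
          field_simp
  have hterm : ∀ j : ℕ, ((a : ℂ) + j * k) ^ (-η) * φ (((a : ℝ) + j * k) * Y) =
      g ((a : ℝ) + j * k) := by
    intro j
    rw [hg]
    push_cast
    rfl
  simp only [hterm]
  refine ⟨hs1, ?_⟩
  have hsplit : ∫ x in Ioi (0 : ℝ), g x =
      (∫ x in Ioc (0 : ℝ) a, g x) + ∫ x in Ioi (a : ℝ), g x := by
    rw [← setIntegral_union Ioc_disjoint_Ioi_same measurableSet_Ioi hg0a hgi,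
      Ioc_union_Ioi_eq_Ioi (by linarith)]
  rw [mul_assoc, ← hsubst, hsplit]
  have hkn : ‖(1 / (k : ℂ))‖ ≤ 1 := by
    rw [norm_div, norm_one, Complex.norm_natCast, div_le_one (by linarith)]
    exact hk1
  calc ‖∑' j : ℕ, g ((a : ℝ) + j * k) - 1 / (k : ℂ) * ((∫ x in Ioc (0 : ℝ) a, g x) +
        ∫ x in Ioi (a : ℝ), g x)‖
      = ‖(∑' j : ℕ, g ((a : ℝ) + j * k) - 1 / (k : ℂ) * ∫ x in Ioi (a : ℝ), g x) -
          1 / (k : ℂ) * ∫ x in Ioc (0 : ℝ) a, g x‖ := by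
        congr 1
        ring
    _ ≤ ‖∑' j : ℕ, g ((a : ℝ) + j * k) - 1 / (k : ℂ) * ∫ x in Ioi (a : ℝ), g x‖ +
          ‖1 / (k : ℂ) * ∫ x in Ioc (0 : ℝ) a, g x‖ := norm_sub_le _ _
    _ ≤ ((1 / 8 + V) * (2 * Real.Gamma (1 / 8)) + 4 * Real.Gamma (9 / 8)) * K *
          Y ^ (-(1/4) : ℝ) + 1 * (3 * K * (k : ℝ) ^ 2) := by
        refine add_le_add (hs2.trans hint') ?_
        rw [norm_mul]
        exact mul_le_mul hkn hpiece (norm_nonneg _) zero_le_one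
    _ ≤ ((1 / 8 + V) * (2 * Real.Gamma (1 / 8)) + 4 * Real.Gamma (9 / 8)) * K *
          Y ^ (-(1/4) : ℝ) * (k : ℝ) ^ 2 + (3 * K * (k : ℝ) ^ 2) * Y ^ (-(1/4) : ℝ) := by
        refine add_le_add ?_ ?_
        · exact le_mul_of_one_le_right (by positivity) (one_le_pow₀ hk1)
        · rw [one_mul]
          exact le_mul_of_one_le_right (by positivity) hY4
    _ = _ := by ring

end LZ

end F_A18

section F_P05

open Complex MeasureTheory Set Filter Topology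
open scoped ComplexConjugate

namespace LZ

/-- (1.4). w = eta+(1+iu)/l. If |w|<=1 use R_exp: C|w| <= C(l|eta|+1+|u|)/l. If |w|>1 then l <= 2(1+|u|) and
exp(-R) <= C/Re w <= 2Cl. -/
theorem R_neg : ∃ C l0 : ℝ, 0 < C ∧ 1 ≤ l0 ∧ ∀ l : ℝ, l0 ≤ l → ∀ η : ℂ, |η.re| ≤ 1 / (8 * l) → ‖η‖ ≤ 1/4 →
    ∀ u : ℝ, Real.exp (-R (1 + η + (1 + u * I) / l)) ≤ C * (1 + l * ‖η‖) * (1 + |u|) ^ 2 / l := by
  obtain ⟨C, hC, hR⟩ := R_exp
  refine ⟨3 * C, 2, by positivity, by norm_num, fun l hl η hη1 hη2 u => ?_⟩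
  have hl0 : 0 < l := by linarith
  set w : ℂ := η + (1 + u * I) / l with hw
  have e1 : 1 + η + (1 + u * I) / l = 1 + w := by rw [hw]; ring
  rw [e1]
  have hre : w.re = η.re + 1 / l := by
    rw [hw, add_re]
    congr 1
    rw [div_ofReal_re]
    simp
  have h8 : 1 / (8 * l) = (1 / l) / 8 := by field_simp
  rw [h8] at hη1
  have hη1' := abs_le.1 hη1
  have hinv : 0 < 1 / l := by positivity
  have hinv2 : 1 / l ≤ 1 / 2 := one_div_le_one_div_of_le (by norm_num) hl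
  have hwpos : 7 / 8 * (1 / l) ≤ w.re := by rw [hre]; linarith
  have hwpos' : 0 < w.re := lt_of_lt_of_le (by positivity) hwpos
  have hw1 : w.re ≤ 1 := by rw [hre]; linarith
  obtain ⟨-, h2, -, h4⟩ := hR w hwpos' hw1
  have hnum : ‖(1 + u * I : ℂ)‖ ≤ 1 + |u| := by
    refine (norm_add_le _ _).trans ?_
    simp
  have hdiv : ‖(1 + u * I : ℂ) / l‖ ≤ (1 + |u|) / l := by
    rw [norm_div, Complex.norm_real, Real.norm_eq_abs, abs_of_pos hl0]
    gcongr
  have hwn : ‖w‖ ≤ ‖η‖ + (1 + |u|) / l := (norm_add_le _ _).trans (by gcongr)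
  have hu : 0 ≤ |u| := abs_nonneg u
  have hη0 : 0 ≤ ‖η‖ := norm_nonneg η
  rcases le_or_gt ‖w‖ 1 with h | h
  · obtain ⟨-, h5⟩ := h4 h
    refine h5.trans ?_
    have h6 : C * ‖w‖ ≤ C * (‖η‖ + (1 + |u|) / l) := by gcongr
    refine h6.trans ?_
    rw [le_div_iff₀ hl0]
    have e2 : C * (‖η‖ + (1 + |u|) / l) * l = C * (l * ‖η‖ + (1 + |u|)) := by
      field_simp
    rw [e2]
    have h7 : l * ‖η‖ + (1 + |u|) ≤ 3 * ((1 + l * ‖η‖) * (1 + |u|) ^ 2) := by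
      have h8 : 0 ≤ l * ‖η‖ := by positivity
      nlinarith [mul_nonneg h8 hu, mul_nonneg h8 (mul_nonneg hu hu), mul_nonneg hu hu]
    calc C * (l * ‖η‖ + (1 + |u|)) ≤ C * (3 * ((1 + l * ‖η‖) * (1 + |u|) ^ 2)) := by gcongr
      _ = 3 * C * (1 + l * ‖η‖) * (1 + |u|) ^ 2 := by ring
  · have h5 : l < 4 / 3 * (1 + |u|) := by
      have h6 : 3 / 4 < (1 + |u|) / l := by linarith
      rw [lt_div_iff₀ hl0] at h6
      linarith
    have h6 : C / w.re ≤ C * (8 / 7 * l) := by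
      rw [div_le_iff₀ hwpos']
      have h7 : 1 ≤ 8 / 7 * l * w.re := by
        have h8 : 8 / 7 * l * (7 / 8 * (1 / l)) ≤ 8 / 7 * l * w.re := by gcongr
        have h9 : 8 / 7 * l * (7 / 8 * (1 / l)) = 1 := by field_simp
        linarith
      calc C = C * 1 := by ring
        _ ≤ C * (8 / 7 * l * w.re) := by gcongr
        _ = C * (8 / 7 * l) * w.re := by ring
    refine h2.trans (h6.trans ?_)
    rw [le_div_iff₀ hl0]
    have h7 : l * l ≤ (4 / 3 * (1 + |u|)) * (4 / 3 * (1 + |u|)) :=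
      mul_le_mul h5.le h5.le hl0.le (by positivity)
    have h8 : (1 + |u|) ^ 2 ≤ (1 + l * ‖η‖) * (1 + |u|) ^ 2 := by
      have : 0 ≤ l * ‖η‖ * (1 + |u|) ^ 2 := by positivity
      linarith
    calc C * (8 / 7 * l) * l = C * (8 / 7 * (l * l)) := by ring
      _ ≤ C * (8 / 7 * ((4 / 3 * (1 + |u|)) * (4 / 3 * (1 + |u|)))) := by gcongr
      _ = C * (128 / 63 * (1 + |u|) ^ 2) := by ring
      _ ≤ C * (3 * (1 + |u|) ^ 2) := by
          have : 0 ≤ (1 + |u|) ^ 2 := by positivity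
          gcongr
          linarith
      _ ≤ C * (3 * ((1 + l * ‖η‖) * (1 + |u|) ^ 2)) := by gcongr
      _ = 3 * C * (1 + l * ‖η‖) * (1 + |u|) ^ 2 := by ring

end LZ

end F_P05

section F_P06

open Complex MeasureTheory Set Filter Topology
open scoped ComplexConjugate

namespace LZ

/-- (1.5). w = eta+(2+iv)/l, Re w >= 1/l. If |w|<=1: R_exp and 1+l|eta| <= 4(1+|v|) l|w|. If |w|>1: exp R <= Cl,
l <= 2(2+|v|), 1+l|eta| <= C(1+|v|). -/
theorem R_pos : ∃ C l0 : ℝ, 0 < C ∧ 1 ≤ l0 ∧ ∀ l : ℝ, l0 ≤ l → ∀ η : ℂ, |η.re| ≤ 1 / l → ‖η‖ ≤ 1/4 →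
    ∀ v : ℝ, Real.exp (R (1 + η + (2 + v * I) / l)) ≤ C * l * (1 + |v|) / (1 + l * ‖η‖) := by
  obtain ⟨C, hC, hR⟩ := R_exp
  refine ⟨4 * C, 3, by linarith, by norm_num, ?_⟩
  intro l hl η hη hη4 v
  have hl0 : 0 < l := by linarith
  have hlc : (l : ℂ) ≠ 0 := by exact_mod_cast hl0.ne'
  set w : ℂ := η + (2 + v * I) / l with hw
  have e1 : 1 + η + (2 + v * I) / l = 1 + w := by rw [hw, add_assoc]
  have hre : w.re = η.re + 2 / l := by
    rw [hw, Complex.add_re, Complex.div_ofReal_re]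
    simp
  have hη1 := abs_le.1 hη
  have hw1 : 1 / l ≤ w.re := by
    rw [hre]
    have : 2 / l = 1 / l + 1 / l := by ring
    linarith [hη1.1]
  have hl1 : 0 < 1 / l := by positivity
  have hw3 : w.re ≤ 1 := by
    rw [hre]
    have h1 : η.re + 2 / l ≤ 3 / l := by
      have : 3 / l = 1 / l + 2 / l := by ring
      linarith [hη1.2]
    have h2 : 3 / l ≤ 1 := by rw [div_le_one hl0]; exact hl
    linarith
  have hw0 : 0 < w.re := by linarith
  have hlw : 1 ≤ l * w.re := by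
    have := mul_le_mul_of_nonneg_left hw1 hl0.le
    rwa [mul_one_div_cancel hl0.ne'] at this
  obtain ⟨h1, _, _, h4⟩ := hR w hw0 hw3
  have hnorm2 : ‖(2 + v * I : ℂ)‖ ≤ 2 + |v| := by
    refine (norm_add_le _ _).trans ?_
    simp
  have hv : 0 ≤ |v| := abs_nonneg v
  have hηn : 0 ≤ ‖η‖ := norm_nonneg _
  have hden : 0 < 1 + l * ‖η‖ := by positivity
  rw [e1]
  rcases le_or_gt ‖w‖ 1 with h | h
  · refine (h4 h).1.trans ?_
    have hwn : w.re ≤ ‖w‖ := Complex.re_le_norm w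
    have hwp : 0 < ‖w‖ := hw0.trans_le hwn
    have h5 : 1 ≤ l * ‖w‖ := hlw.trans (mul_le_mul_of_nonneg_left hwn hl0.le)
    have h6 : l * ‖η‖ ≤ l * ‖w‖ + (2 + |v|) := by
      have h7 : (l : ℂ) * η = l * w - (2 + v * I) := by
        rw [hw]
        field_simp
        ring
      have h8 : ‖(l : ℂ) * η‖ = l * ‖η‖ := by
        rw [norm_mul, Complex.norm_real, Real.norm_eq_abs, abs_of_pos hl0]
      have h9 : ‖(l : ℂ) * w‖ = l * ‖w‖ := by
        rw [norm_mul, Complex.norm_real, Real.norm_eq_abs, abs_of_pos hl0]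
      rw [← h8, ← h9, h7]
      exact (norm_sub_le _ _).trans (by linarith)
    rw [div_le_div_iff₀ hwp hden]
    have h10 : 1 + l * ‖η‖ ≤ 4 * (1 + |v|) * (l * ‖w‖) := by nlinarith
    calc C * (1 + l * ‖η‖) ≤ C * (4 * (1 + |v|) * (l * ‖w‖)) := mul_le_mul_of_nonneg_left h10 hC.le
      _ = 4 * C * l * (1 + |v|) * ‖w‖ := by ring
  · refine h1.trans ?_
    have h5 : C / w.re ≤ C * l := by
      rw [div_le_iff₀ hw0]
      have : C * 1 ≤ C * (l * w.re) := mul_le_mul_of_nonneg_left hlw hC.le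
      linarith
    refine h5.trans ?_
    rw [le_div_iff₀ hden]
    have h6 : ‖w‖ ≤ 1 / 4 + (2 + |v|) / l := by
      rw [hw]
      refine (norm_add_le _ _).trans ?_
      rw [norm_div, Complex.norm_real, Real.norm_eq_abs, abs_of_pos hl0]
      have := div_le_div_of_nonneg_right hnorm2 hl0.le
      linarith
    have h7 : l * (3 / 4) ≤ 2 + |v| := by
      have h8 : 3 / 4 ≤ (2 + |v|) / l := by linarith
      rw [le_div_iff₀ hl0] at h8
      linarith
    have h9 : l * ‖η‖ ≤ l * (1 / 4) := mul_le_mul_of_nonneg_left hη4 hl0.le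
    have h10 : 1 + l * ‖η‖ ≤ 4 * (1 + |v|) := by linarith
    calc C * l * (1 + l * ‖η‖) ≤ C * l * (4 * (1 + |v|)) := mul_le_mul_of_nonneg_left h10 (by positivity)
      _ = 4 * C * l * (1 + |v|) := by ring

end LZ

end F_P06
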