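import Pool.Agent.Lib.MP_0f5a55_nt.V.V02
import Pool.Agent.Lib.MP_0f5a55_nt.V.V03
import Pool.Agent.Lib.MP_0f5a55_nt.V.V06
import Pool.Agent.Lib.MP_0f5a55_nt.V.V11
import Pool.Agent.Lib.MP_0f5a55_nt.V.V35
import Pool.Agent.Lib.MP_0f5a55_nt.V.V36
import Pool.Agent.Lib.MP_0f5a55_nt.V.V37
import Pool.Agent.Lib.MP_0f5a55_nt.V.V38

section F_Q08

open Complex MeasureTheory Set Filter Topology
open scoped ComplexConjugate

namespace LZ

lemma Q08_Aex_re (l : ℝ) (e : Fin 4 → ℂ) (u : Fin 4 → ℝ) (j : Fin 4) :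
    (Aex l e u j).re = 1 + (e j).re + 1 / l := by
  simp [Aex, Complex.div_ofReal_re]

lemma Q08_kk_int : Integrable (fun u : ℝ => ‖kk u‖) := by
  obtain ⟨hc, hi⟩ := kk_facts
  refine hi.mono' hc.norm.aestronglyMeasurable (Eventually.of_forall fun u => ?_)
  rw [norm_norm]
  have h1 : (1:ℝ) ≤ (1 + |u|) ^ 16 := one_le_pow₀ (by linarith [abs_nonneg u])
  nlinarith [norm_nonneg (kk u)]

lemma Q08_prod_int : Integrable (fun u : Fin 4 → ℝ => ∏ j, ‖kk (u j)‖) :=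
  Integrable.fintype_prod (f := fun _ : Fin 4 => fun u : ℝ => ‖kk u‖) (fun _ => Q08_kk_int)

lemma Q08_SR_le (F : ℂ → ℝ) (G : ℂ → ℝ) (h : ∀ s : ℂ, 1 < s.re → |F s| ≤ G s)
    (lam : Fin 4 → ℝ) (hlam : ∀ j, 0 ≤ lam j ∧ lam j ≤ 1) (A : Fin 4 → ℂ) (C : ℂ)
    (hA : ∀ j, 1 < (A j).re) (h02 : 1 < (A 0 + A 2 - C).re) (h03 : 1 < (A 0 + A 3 - C).re)
    (h12 : 1 < (A 1 + A 2 - C).re) (h13 : 1 < (A 1 + A 3 - C).re) :
    SR F lam A C ≤ (∑ j, G (A j)) + (G (A 0 + A 2 - C) + G (A 0 + A 3 - C) + G (A 1 + A 2 - C)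
      + G (A 1 + A 3 - C)) := by
  unfold SR
  have key : ∀ (a : ℝ), 0 ≤ a → a ≤ 1 → ∀ s : ℂ, 1 < s.re → a * F s ≤ G s ∧ -(a * F s) ≤ G s := by
    intro a ha0 ha1 s hs
    have h1 := h s hs
    have h2 := abs_le.1 h1
    have h3 : |a * F s| ≤ G s := by
      rw [abs_mul, abs_of_nonneg ha0]
      calc a * |F s| ≤ 1 * |F s| := by gcongr
        _ ≤ G s := by rw [one_mul]; exact h1
    exact ⟨(le_abs_self _).trans h3, (neg_le_abs _).trans h3⟩
  have hs : -(∑ j, lam j * F (A j)) ≤ ∑ j, G (A j) := by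
    rw [← Finset.sum_neg_distrib]
    exact Finset.sum_le_sum fun j _ => (key _ (hlam j).1 (hlam j).2 _ (hA j)).2
  have hp : ∀ i j : Fin 4, 0 ≤ lam i * lam j ∧ lam i * lam j ≤ 1 := fun i j =>
    ⟨mul_nonneg (hlam i).1 (hlam j).1, mul_le_one₀ (hlam i).2 (hlam j).1 (hlam j).2⟩
  have e1 := (key _ (hp 0 2).1 (hp 0 2).2 _ h02).1
  have e2 := (key _ (hp 0 3).1 (hp 0 3).2 _ h03).1
  have e3 := (key _ (hp 1 2).1 (hp 1 2).2 _ h12).1
  have e4 := (key _ (hp 1 3).1 (hp 1 3).2 _ h13).1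
  linarith

lemma Q08_Aex_cont (l : ℝ) (e : Fin 4 → ℂ) (j : Fin 4) : Continuous (fun u : Fin 4 → ℝ => Aex l e u j) := by
  unfold Aex
  fun_prop

lemma Q08_SR_tendsto {F : ℕ → ℂ → ℝ} {G : ℂ → ℝ} (h : ∀ s : ℂ, 1 < s.re → Tendsto (fun n => F n s) atTop (𝓝 (G s)))
    (lam : Fin 4 → ℝ) (A : Fin 4 → ℂ) (C : ℂ)
    (hA : ∀ j, 1 < (A j).re) (h02 : 1 < (A 0 + A 2 - C).re) (h03 : 1 < (A 0 + A 3 - C).re)
    (h12 : 1 < (A 1 + A 2 - C).re) (h13 : 1 < (A 1 + A 3 - C).re) :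
    Tendsto (fun n => SR (F n) lam A C) atTop (𝓝 (SR G lam A C)) := by
  unfold SR
  refine Tendsto.add ?_ ?_
  · exact (tendsto_finsetSum _ fun j _ => (h _ (hA j)).const_mul _).neg
  · exact ((((h _ h02).const_mul _).add ((h _ h03).const_mul _)).add ((h _ h12).const_mul _)).add
      ((h _ h13).const_mul _)

/-- (2.3). For z >= exp l: QQ = integral; bound by prod_bound; let z go to infinity with dominated convergence
(Rz_facts; all exponents have Re >= 1+1/(2l), so exp(SR ..) <= C_l uniformly in u). -/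
theorem QQ_bound : ∃ K l0 : ℝ, 0 < K ∧ 1 ≤ l0 ∧ ∀ l : ℝ, l0 ≤ l → ∀ lam : Fin 4 → ℝ,
    (∀ j, 0 ≤ lam j ∧ lam j ≤ 1) → ∀ (e : Fin 4 → ℂ) (e4 : ℂ), (∀ j, |(e j).re| ≤ 1 / (8 * l)) →
    |e4.re| ≤ 1 / (8 * l) →
    Integrable (fun u : Fin 4 → ℝ => (∏ j, ‖kk (u j)‖) * Real.exp (SR R lam (Aex l e u) (1 + e4))) ∧
    ‖QQ ⌊Real.exp l⌋₊ lam l e e4‖ ≤
      K * ∫ u : Fin 4 → ℝ, (∏ j, ‖kk (u j)‖) * Real.exp (SR R lam (Aex l e u) (1 + e4)) := by
  obtain ⟨K, hK, hprod⟩ := prod_bound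
  obtain ⟨hR0, hRabs, hRz, hRt, hRc⟩ := Rz_facts
  refine ⟨K, 16, hK, by norm_num, ?_⟩
  intro l hl lam hlam e e4 he he4
  have hl0 : 0 < l := by linarith
  set δ := 1 / (8 * l) with hδ
  have hδpos : 0 < δ := by positivity
  have hδl : 1 / l = 8 * δ := by rw [hδ]; field_simp
  have hre : ∀ u : Fin 4 → ℝ, ∀ j, (Aex l e u j).re = 1 + (e j).re + 8 * δ := fun u j => by
    rw [Q08_Aex_re, hδl]
  have hA : ∀ u : Fin 4 → ℝ, ∀ j, 1 < (Aex l e u j).re := fun u j => by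
    rw [hre]; have := abs_le.1 (he j); linarith [this.1]
  have hP : ∀ u : Fin 4 → ℝ, ∀ i j, 1 < (Aex l e u i + Aex l e u j - (1 + e4)).re := fun u i j => by
    rw [sub_re, add_re, hre, hre, add_re, one_re]
    have h1 := abs_le.1 (he i); have h2 := abs_le.1 (he j); have h3 := abs_le.1 he4
    linarith [h1.1, h2.1, h3.2]
  -- the uniform bound
  set M : ℝ := (∑ j, R (((1 + (e j).re + 8 * δ : ℝ)) : ℂ)) + (R (((1 + (e 0).re + 8 * δ + (1 + (e 2).re + 8 * δ) - (1 + e4.re) : ℝ)) : ℂ)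
    + R (((1 + (e 0).re + 8 * δ + (1 + (e 3).re + 8 * δ) - (1 + e4.re) : ℝ)) : ℂ)
    + R (((1 + (e 1).re + 8 * δ + (1 + (e 2).re + 8 * δ) - (1 + e4.re) : ℝ)) : ℂ)
    + R (((1 + (e 1).re + 8 * δ + (1 + (e 3).re + 8 * δ) - (1 + e4.re) : ℝ)) : ℂ)) with hM
  have hMle : ∀ F : ℂ → ℝ, (∀ s : ℂ, 1 < s.re → |F s| ≤ R (s.re : ℂ)) → ∀ u : Fin 4 → ℝ,
      SR F lam (Aex l e u) (1 + e4) ≤ M := by
    intro F hF u
    refine (Q08_SR_le F (fun s => R (s.re : ℂ)) hF lam hlam _ _ (hA u) (hP u 0 2) (hP u 0 3) (hP u 1 2)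
      (hP u 1 3)).trans (le_of_eq ?_)
    simp only [hM, sub_re, add_re, one_re, hre]
  have hcontSR : Continuous (fun u : Fin 4 → ℝ => SR R lam (Aex l e u) (1 + e4)) := by
    have hc1 : ∀ j, Continuous (fun u : Fin 4 → ℝ => R (Aex l e u j)) := fun j =>
      hRc.comp_continuous (Q08_Aex_cont l e j) (fun u => hA u j)
    have hc2 : ∀ i j, Continuous (fun u : Fin 4 → ℝ => R (Aex l e u i + Aex l e u j - (1 + e4))) := fun i j =>
      hRc.comp_continuous (((Q08_Aex_cont l e i).add (Q08_Aex_cont l e j)).sub continuous_const) (fun u => hP u i j)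
    unfold SR
    refine Continuous.add ?_ ?_
    · exact (continuous_finsetSum _ fun j _ => continuous_const.mul (hc1 j)).neg
    · exact (((continuous_const.mul (hc2 0 2)).add (continuous_const.mul (hc2 0 3))).add
        (continuous_const.mul (hc2 1 2))).add (continuous_const.mul (hc2 1 3))
  have hkc : Continuous (fun u : Fin 4 → ℝ => ∏ j, ‖kk (u j)‖) :=
    continuous_finsetProd _ fun j _ => (kk_facts.1.comp (continuous_apply j)).norm
  have hdom : Integrable (fun u : Fin 4 → ℝ => (∏ j, ‖kk (u j)‖) * Real.exp M) := Q08_prod_int.mul_const _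
  have hpn : ∀ u : Fin 4 → ℝ, 0 ≤ ∏ j, ‖kk (u j)‖ := fun u => Finset.prod_nonneg fun j _ => norm_nonneg _
  have hbd : ∀ F : ℂ → ℝ, (∀ s : ℂ, 1 < s.re → |F s| ≤ R (s.re : ℂ)) → ∀ u : Fin 4 → ℝ,
      ‖(∏ j, ‖kk (u j)‖) * Real.exp (SR F lam (Aex l e u) (1 + e4))‖ ≤ (∏ j, ‖kk (u j)‖) * Real.exp M := by
    intro F hF u
    rw [Real.norm_of_nonneg (mul_nonneg (hpn u) (Real.exp_pos _).le)]
    exact mul_le_mul_of_nonneg_left (Real.exp_le_exp.2 (hMle F hF u)) (hpn u)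
  have hint : Integrable (fun u : Fin 4 → ℝ => (∏ j, ‖kk (u j)‖) * Real.exp (SR R lam (Aex l e u) (1 + e4))) :=
    hdom.mono' (hkc.mul (Real.continuous_exp.comp hcontSR)).aestronglyMeasurable
      (Eventually.of_forall fun u => hbd R hRabs u)
  refine ⟨hint, ?_⟩
  -- continuity of the truncated sums
  have hRzc : ∀ z : ℕ, Continuous (Rz z) := by
    intro z
    unfold Rz
    refine continuous_finsetSum _ fun p hp => ?_
    have hp0 : (p : ℂ) ≠ 0 := by
      have : p.Prime := (Finset.mem_filter.1 hp).2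
      exact_mod_cast this.ne_zero
    have : Continuous (fun s : ℂ => (p : ℂ) ^ (-s)) := (continuous_neg).const_cpow (Or.inl hp0)
    exact continuous_re.comp this
  have hSRz : ∀ z : ℕ, Continuous (fun u : Fin 4 → ℝ => SR (Rz z) lam (Aex l e u) (1 + e4)) := by
    intro z
    unfold SR
    refine Continuous.add ?_ ?_
    · exact (continuous_finsetSum _ fun j _ => continuous_const.mul ((hRzc z).comp (Q08_Aex_cont l e j))).neg
    · have hc2 : ∀ i j, Continuous (fun u : Fin 4 → ℝ => Rz z (Aex l e u i + Aex l e u j - (1 + e4))) := fun i j =>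
        (hRzc z).comp (((Q08_Aex_cont l e i).add (Q08_Aex_cont l e j)).sub continuous_const)
      exact (((continuous_const.mul (hc2 0 2)).add (continuous_const.mul (hc2 0 3))).add
        (continuous_const.mul (hc2 1 2))).add (continuous_const.mul (hc2 1 3))
  have hz : ∀ z : ℕ, ⌊Real.exp l⌋₊ ≤ z → ‖QQ ⌊Real.exp l⌋₊ lam l e e4‖ ≤
      K * ∫ u : Fin 4 → ℝ, (∏ j, ‖kk (u j)‖) * Real.exp (SR (Rz z) lam (Aex l e u) (1 + e4)) := by
    intro z hz
    rw [← QQ_stable z lam l hl0 e e4 hz, QQ_integral z lam l hl0 e e4, ← integral_const_mul]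
    refine norm_integral_le_of_norm_le ?_ (Eventually.of_forall fun u => ?_)
    · refine Integrable.const_mul ?_ K
      exact hdom.mono' (hkc.mul (Real.continuous_exp.comp (hSRz z))).aestronglyMeasurable
        (Eventually.of_forall fun u => hbd (Rz z) (hRz z) u)
    · rw [norm_mul, norm_prod]
      have h1 : ∀ s : ℂ, 1 < s.re → (15/16 : ℝ) ≤ s.re := fun s hs => by linarith
      have hb := hprod z lam hlam (Aex l e u) (1 + e4) (fun j => h1 _ (hA u j)) (h1 _ (hP u 0 2))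
        (h1 _ (hP u 0 3)) (h1 _ (hP u 1 2)) (h1 _ (hP u 1 3))
      calc (∏ j, ‖kk (u j)‖) * ‖∏ p ∈ PP z, EP (fun j => -(lam j : ℂ) * (p : ℂ) ^ (-(Aex l e u j))) ((p : ℂ) ^ (1 + e4))‖
          ≤ (∏ j, ‖kk (u j)‖) * (K * Real.exp (SR (Rz z) lam (Aex l e u) (1 + e4))) :=
            mul_le_mul_of_nonneg_left hb (hpn u)
        _ = K * ((∏ j, ‖kk (u j)‖) * Real.exp (SR (Rz z) lam (Aex l e u) (1 + e4))) := by ring
  have hlim : Tendsto (fun z : ℕ => K * ∫ u : Fin 4 → ℝ, (∏ j, ‖kk (u j)‖) *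
      Real.exp (SR (Rz z) lam (Aex l e u) (1 + e4))) atTop
      (𝓝 (K * ∫ u : Fin 4 → ℝ, (∏ j, ‖kk (u j)‖) * Real.exp (SR R lam (Aex l e u) (1 + e4)))) := by
    refine Tendsto.const_mul K ?_
    refine tendsto_integral_of_dominated_convergence (fun u => (∏ j, ‖kk (u j)‖) * Real.exp M) ?_ hdom ?_ ?_
    · exact fun z => (hkc.mul (Real.continuous_exp.comp (hSRz z))).aestronglyMeasurable
    · exact fun z => Eventually.of_forall fun u => hbd (Rz z) (hRz z) u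
    · refine Eventually.of_forall fun u => ?_
      refine Tendsto.const_mul _ ?_
      exact (Real.continuous_exp.tendsto _).comp (Q08_SR_tendsto hRt lam _ _ (hA u) (hP u 0 2) (hP u 0 3)
        (hP u 1 2) (hP u 1 3))
  exact ge_of_tendsto hlim (eventually_atTop.2 ⟨⌊Real.exp l⌋₊, hz⟩)

end LZ

end F_Q08

section F_X_QA1

open Complex MeasureTheory Set Filter Topology
open scoped ComplexConjugate

namespace LX

open LZ

private theorem QA1_kk_int : Integrable kk := by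
  obtain ⟨h1, h2⟩ := kk_facts
  refine h2.mono h1.aestronglyMeasurable (Eventually.of_forall fun u => ?_)
  rw [Real.norm_of_nonneg (by positivity)]
  have h3 : (1 : ℝ) ≤ (1 + |u|) ^ 16 := one_le_pow₀ (by linarith [abs_nonneg u])
  nlinarith [norm_nonneg (kk u)]

private theorem QA1_phi_int (n : ℕ) (hn : 0 < n) (l : ℝ) (e c : ℂ) :
    Integrable (fun u : ℝ => c * (kk u * (n : ℂ) ^ (-(1 + e + (1 + u * I) / l)))) := by
  apply Integrable.const_mul
  have hn0 : (n : ℂ) ≠ 0 := by exact_mod_cast hn.ne'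
  have hcont : Continuous (fun u : ℝ => (n : ℂ) ^ (-(1 + e + (1 + u * I) / l))) := by
    refine Continuous.const_cpow ?_ (Or.inl hn0)
    fun_prop
  refine QA1_kk_int.mul_bdd (c := (n : ℝ) ^ (-(1 + e.re + 1 / l))) hcont.aestronglyMeasurable
    (Eventually.of_forall fun u => ?_)
  rw [Complex.norm_natCast_cpow_of_pos hn]
  apply le_of_eq
  congr 1
  have : ((1 + (u : ℂ) * I) / (l : ℂ)).re = 1 / l := by
    rw [Complex.div_ofReal_re]
    simp
  simp only [neg_re, add_re, one_re, this]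

private theorem QA1_phi_val (n : ℕ) (hn : 0 < n) (l : ℝ) (e : ℂ) :
    (wt (Real.log n / l) : ℂ) * (n : ℂ) ^ (-1 - e) =
      ∫ u : ℝ, kk u * (n : ℂ) ^ (-(1 + e + (1 + u * I) / l)) := by
  have hn0 : (n : ℂ) ≠ 0 := by exact_mod_cast hn.ne'
  rw [wt_eq, ← integral_mul_const]
  refine integral_congr_ae (Eventually.of_forall fun u => ?_)
  simp only
  rw [mul_assoc]
  congr 1
  rw [Complex.cpow_def_of_ne_zero hn0, Complex.cpow_def_of_ne_zero hn0, ← Complex.exp_add]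
  congr 1
  have hlog : Complex.log (n : ℂ) = (Real.log n : ℂ) := (Complex.natCast_log).symm
  rw [hlog]
  push_cast
  ring

/-- Insert wt_eq (x = log n/l) for the four weights, exchange the finite sum with the integral over Fin 4 → ℝ
(product of four integrals: integral_fintype_prod_eq_prod) and use euler4. -/
theorem QQ_integral (q z : ℕ) (lam : Fin 4 → ℝ) (l : ℝ) (hl : 0 < l) (e : Fin 4 → ℂ) (e4 : ℂ) :
    QQ q z lam l e e4 = ∫ u : Fin 4 → ℝ, (∏ j, kk (u j)) *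
      ∏ p ∈ PQ q z, EP (fun j => -(lam j : ℂ) * (p : ℂ) ^ (-(Aex l e u j))) ((p : ℂ) ^ (1 + e4)) := by
  have hP : ∀ p ∈ PQ q z, p.Prime := fun p hp => (Finset.mem_filter.1 (PQ_sub q z hp)).2
  have hpos : ∀ S ∈ Fintype.piFinset (fun _ : Fin 4 => (PQ q z).powerset), ∀ j, 0 < nS (S j) := by
    intro S hS j
    have h1 := Fintype.mem_piFinset.1 hS j
    rw [Finset.mem_powerset] at h1
    exact Finset.prod_pos fun p hp => (hP p (h1 hp)).pos
  set φ : (Fin 4 → Finset ℕ) → Fin 4 → ℝ → ℂ := fun S j u =>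
    (((-(lam j)) ^ (S j).card : ℝ) : ℂ) *
      (kk u * (nS (S j) : ℂ) ^ (-(1 + e j + (1 + u * I) / l))) with hφ
  have hint : ∀ S ∈ Fintype.piFinset (fun _ : Fin 4 => (PQ q z).powerset), ∀ j,
      Integrable (φ S j) := fun S hS j => QA1_phi_int _ (hpos S hS j) l (e j) _
  have hval : ∀ S ∈ Fintype.piFinset (fun _ : Fin 4 => (PQ q z).powerset), ∀ j,
      (cf (lam j) l (S j) : ℂ) * (nS (S j) : ℂ) ^ (-1 - e j) = ∫ u : ℝ, φ S j u := by
    intro S hS j
    rw [hφ]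
    simp only
    rw [integral_const_mul, ← QA1_phi_val _ (hpos S hS j) l (e j)]
    unfold cf
    push_cast
    ring
  unfold QQ
  have h1 : ∀ S ∈ Fintype.piFinset (fun _ : Fin 4 => (PQ q z).powerset),
      (∏ j, (cf (lam j) l (S j) : ℂ) * (nS (S j) : ℂ) ^ (-1 - e j)) *
      ((Nat.gcd (nS (S 0) * nS (S 1)) (nS (S 2) * nS (S 3)) : ℕ) : ℂ) ^ (1 + e4) =
      ∫ u : Fin 4 → ℝ, (∏ j, φ S j (u j)) *
        ((Nat.gcd (nS (S 0) * nS (S 1)) (nS (S 2) * nS (S 3)) : ℕ) : ℂ) ^ (1 + e4) := by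
    intro S hS
    rw [integral_mul_const, integral_fintype_prod_volume_eq_prod (fun j u => φ S j u)]
    congr 1
    exact Finset.prod_congr rfl fun j _ => hval S hS j
  rw [Finset.sum_congr rfl h1, ← integral_finset_sum]
  · refine integral_congr_ae (Eventually.of_forall fun u => ?_)
    simp only
    rw [← euler4 (PQ q z) hP lam (Aex l e u) (1 + e4), Finset.mul_sum]
    refine Finset.sum_congr rfl fun S _ => ?_
    rw [← mul_assoc, ← Finset.prod_mul_distrib]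
    congr 1
    refine Finset.prod_congr rfl fun j _ => ?_
    rw [hφ]
    simp only [Aex]
    ring
  · intro S hS
    apply Integrable.mul_const
    exact Integrable.fintype_prod_dep (μ := fun _ => volume) (fun j => hint S hS j)


/-- the weight kills every S with nS S >= exp l, in particular every S containing a prime > exp l. -/
theorem QQ_stable (q z : ℕ) (lam : Fin 4 → ℝ) (l : ℝ) (hl : 0 < l) (e : Fin 4 → ℂ) (e4 : ℂ)
    (hz : ⌊Real.exp l⌋₊ ≤ z) : QQ q z lam l e e4 = QQ q ⌊Real.exp l⌋₊ lam l e e4 := by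
  have hPP : PQ q ⌊Real.exp l⌋₊ ⊆ PQ q z := PQ_mono q hz
  unfold QQ
  symm
  apply Finset.sum_subset
  · apply Fintype.piFinset_subset
    intro _
    exact Finset.powerset_mono.mpr hPP
  · intro S hS hnS
    rw [Fintype.mem_piFinset] at hS hnS
    push Not at hnS
    obtain ⟨j, hj⟩ := hnS
    have hSj := Finset.mem_powerset.mp (hS j)
    rw [Finset.mem_powerset, Finset.not_subset] at hj
    obtain ⟨p, hp1, hp2⟩ := hj
    have hpz := hSj hp1
    have hpl : Real.exp l ≤ p := by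
      by_contra h
      push Not at h
      apply hp2
      unfold PQ PP at hpz ⊢
      rw [Finset.mem_filter, Finset.mem_filter, Finset.mem_range] at hpz ⊢
      exact ⟨⟨Nat.lt_succ_of_le (Nat.le_floor h.le), hpz.1.2⟩, hpz.2⟩
    have h0 := Q07_cf (lam j) l hl z (S j) (hSj.trans (PQ_sub q z)) p hp1 hpl
    rw [Finset.prod_eq_zero (Finset.mem_univ j) (by rw [h0]; simp), zero_mul]


/-- if lam j = 0 then cf 0 l S = 0 unless S is empty, and nS of the empty set is 1. -/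
theorem QQ_congr (q z : ℕ) (lam : Fin 4 → ℝ) (l : ℝ) (e e' : Fin 4 → ℂ) (e4 : ℂ)
    (h : ∀ j, lam j = 0 ∨ e j = e' j) : QQ q z lam l e e4 = QQ q z lam l e' e4 := by
  unfold QQ
  apply Finset.sum_congr rfl
  intro S _
  congr 1
  apply Finset.prod_congr rfl
  intro j _
  rcases h j with h0 | h0
  · rw [h0]
    by_cases hS : S j = ∅
    · rw [hS]
      unfold nS
      simp
    · have h1 : cf 0 l (S j) = 0 := by
        unfold cf
        rw [neg_zero, zero_pow (Finset.card_ne_zero.mpr (Finset.nonempty_iff_ne_empty.mpr hS)),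
          zero_mul]
      rw [h1]
      simp
  · rw [h0]


/-- reindex the sum by swapping 0 with 1 and 2 with 3. -/
theorem QQ_swap (q z : ℕ) (c l : ℝ) (a b c' d e4 : ℂ) :
    QQ q z (fun _ => c) l ![a, b, c', d] e4 = QQ q z (fun _ => c) l ![b, a, d, c'] e4 := by
  classical
  unfold QQ
  set σ : Equiv.Perm (Fin 4) := Equiv.swap 0 1 * Equiv.swap 2 3 with hσ
  have hσ0 : σ 0 = 1 := by decide
  have hσ1 : σ 1 = 0 := by decide
  have hσ2 : σ 2 = 3 := by decide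
  have hσ3 : σ 3 = 2 := by decide
  refine Finset.sum_nbij' (fun S => fun j => S (σ j)) (fun S => fun j => S (σ j)) ?_ ?_ ?_ ?_ ?_
  · intro S hS
    rw [Fintype.mem_piFinset] at hS ⊢
    exact fun j => hS (σ j)
  · intro S hS
    rw [Fintype.mem_piFinset] at hS ⊢
    exact fun j => hS (σ j)
  · intro S _
    funext j
    have : σ (σ j) = j := by
      revert j
      decide
    simp only [this]
  · intro S _
    funext j
    have : σ (σ j) = j := by
      revert j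
      decide
    simp only [this]
  · intro S _
    rw [Fin.prod_univ_four, Fin.prod_univ_four]
    simp only [hσ0, hσ1, hσ2, hσ3]
    have e1 : nS (S 1) * nS (S 0) = nS (S 0) * nS (S 1) := mul_comm _ _
    have e2 : nS (S 3) * nS (S 2) = nS (S 2) * nS (S 3) := mul_comm _ _
    rw [e1, e2]
    simp only [Matrix.cons_val_zero, Matrix.cons_val_one, Matrix.cons_val]
    ring


end LX

end F_X_QA1

section F_X_QA2

open Complex MeasureTheory Set Filter Topology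
open scoped ComplexConjugate

namespace LX

open LZ

/-- phi(q)/q -/
noncomputable def rq (q : ℕ) : ℝ := ∏ p ∈ q.primeFactors, (1 - (p : ℝ)⁻¹)

theorem rq_pos (q : ℕ) : 0 < rq q := by
  unfold rq
  refine Finset.prod_pos fun p hp => ?_
  have h1 : (1 : ℝ) < p := by exact_mod_cast (Nat.prime_of_mem_primeFactors hp).one_lt
  have := inv_lt_one_of_one_lt₀ h1
  linarith

theorem rq_le_one (q : ℕ) : rq q ≤ 1 := by
  unfold rq
  refine Finset.prod_le_one (fun p hp => ?_) (fun p hp => ?_)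
  · have h1 : (1 : ℝ) < p := by exact_mod_cast (Nat.prime_of_mem_primeFactors hp).one_lt
    have := inv_lt_one_of_one_lt₀ h1
    linarith
  · have : (0 : ℝ) ≤ (p : ℝ)⁻¹ := by positivity
    linarith

theorem rq_eq {q : ℕ} (hq : 1 ≤ q) : (q.totient : ℝ) = q * rq q := by
  have h := Nat.totient_eq_mul_prod_factors q
  have h2 : ((q.totient : ℚ) : ℝ) = ((q * ∏ p ∈ q.primeFactors, (1 - (p : ℚ)⁻¹) : ℚ) : ℝ) := by rw [h]
  unfold rq
  push_cast at h2
  exact h2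

theorem rq_exp (q : ℕ) : Real.exp (∑ p ∈ q.primeFactors, (p : ℝ)⁻¹) ≤ (rq q)⁻¹ := by
  rw [Real.exp_sum]
  unfold rq
  rw [← Finset.prod_inv_distrib]
  refine Finset.prod_le_prod (fun p _ => (Real.exp_pos _).le) (fun p hp => ?_)
  have h1 : (1 : ℝ) < p := by exact_mod_cast (Nat.prime_of_mem_primeFactors hp).one_lt
  have h2 := inv_lt_one_of_one_lt₀ h1
  have h3 : 0 < 1 - (p : ℝ)⁻¹ := by linarith
  rw [le_inv_comm₀ (Real.exp_pos _) h3, ← Real.exp_neg]
  have := Real.add_one_le_exp (-(p : ℝ)⁻¹)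
  linarith

theorem QA2_exp {w : ℂ} (hw : 0 ≤ w.re) : ‖exp (-w) - 1‖ ≤ ‖w‖ := by
  have hconv : Convex ℝ {z : ℂ | z.re ≤ 0} := convex_halfSpace_re_le 0
  have h := hconv.norm_image_sub_le_of_norm_hasDerivWithin_le (f := fun z => exp z) (f' := fun z => exp z)
    (C := 1) (x := 0) (y := -w) (fun z _ => (Complex.hasDerivAt_exp z).hasDerivWithinAt)
    (fun z hz => by
      rw [Complex.norm_exp]
      exact Real.exp_le_one_iff.mpr hz) (by simp) (by simpa using hw)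
  simpa using h

theorem QA2_one {p : ℕ} (hp : p.Prime) {s : ℂ} (hs : 1 ≤ s.re) :
    |((p : ℂ) ^ (-s)).re - (p : ℝ)⁻¹| ≤ Real.log p * (p : ℝ)⁻¹ * ‖s - 1‖ := by
  have hp0 : (p : ℂ) ≠ 0 := by exact_mod_cast hp.ne_zero
  have hlog : Complex.log (p : ℂ) = (Real.log p : ℂ) := (Complex.natCast_log).symm
  have hl0 : 0 ≤ Real.log p := Real.log_nonneg (by exact_mod_cast hp.one_lt.le)
  have e1 : (p : ℂ) ^ (-s) = (p : ℂ)⁻¹ * exp (-((s - 1) * (Real.log p : ℂ))) := by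
    have e2 : -s = -1 + -(s - 1) := by ring
    rw [e2, Complex.cpow_add _ _ hp0, Complex.cpow_neg_one, Complex.cpow_def_of_ne_zero hp0, hlog]
    congr 2
    ring
  have e3 : ((p : ℂ) ^ (-s)).re - (p : ℝ)⁻¹ = ((p : ℂ)⁻¹ * (exp (-((s - 1) * (Real.log p : ℂ))) - 1)).re := by
    rw [mul_sub, mul_one, Complex.sub_re, ← e1]
    congr 1
    rw [← Complex.ofReal_natCast, ← Complex.ofReal_inv, Complex.ofReal_re]
  rw [e3]
  refine (Complex.abs_re_le_norm _).trans ?_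
  rw [norm_mul, norm_inv, Complex.norm_natCast]
  have h1 : ‖exp (-((s - 1) * (Real.log p : ℂ))) - 1‖ ≤ ‖(s - 1) * (Real.log p : ℂ)‖ := by
    apply QA2_exp
    rw [Complex.re_mul_ofReal, Complex.sub_re, Complex.one_re]
    exact mul_nonneg (by linarith) hl0
  rw [norm_mul, Complex.norm_real, Real.norm_of_nonneg hl0] at h1
  calc (p : ℝ)⁻¹ * ‖exp (-((s - 1) * (Real.log p : ℂ))) - 1‖ ≤ (p : ℝ)⁻¹ * (‖s - 1‖ * Real.log p) := by gcongr
    _ = _ := by ring

theorem QA2_abs {p : ℕ} (hp : p.Prime) {s : ℂ} (hs : 1 ≤ s.re) :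
    |((p : ℂ) ^ (-s)).re| ≤ (p : ℝ)⁻¹ := by
  refine (Complex.abs_re_le_norm _).trans ?_
  rw [Complex.norm_natCast_cpow_of_pos hp.pos, Complex.neg_re, ← Real.rpow_neg_one]
  exact Real.rpow_le_rpow_of_exponent_le (by exact_mod_cast hp.one_lt.le) (by linarith)

/-- total distance of the exponents from one -/
noncomputable def Dst (A : Fin 4 → ℂ) (C : ℂ) : ℝ :=
  (∑ j, ‖A j - 1‖) + (‖A 0 + A 2 - C - 1‖ + ‖A 0 + A 3 - C - 1‖ + ‖A 1 + A 2 - C - 1‖ + ‖A 1 + A 3 - C - 1‖)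

theorem QA2_SR {p : ℕ} (hp : p.Prime) (lam : Fin 4 → ℝ) (hlam : ∀ j, 0 ≤ lam j ∧ lam j ≤ 1)
    (hc : (∑ j, lam j) - (lam 0 * lam 2 + lam 0 * lam 3 + lam 1 * lam 2 + lam 1 * lam 3) = 1)
    (A : Fin 4 → ℂ) (C : ℂ) (hA : ∀ j, 1 ≤ (A j).re) (h02 : 1 ≤ (A 0 + A 2 - C).re)
    (h03 : 1 ≤ (A 0 + A 3 - C).re) (h12 : 1 ≤ (A 1 + A 2 - C).re) (h13 : 1 ≤ (A 1 + A 3 - C).re) :
    -SR (fun s => ((p : ℂ) ^ (-s)).re) lam A C ≤ (p : ℝ)⁻¹ + Real.log p * (p : ℝ)⁻¹ * Dst A C ∧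
    -SR (fun s => ((p : ℂ) ^ (-s)).re) lam A C ≤ 8 * (p : ℝ)⁻¹ := by
  have hp0 : (0 : ℝ) < (p : ℝ)⁻¹ := by
    have : (0 : ℝ) < p := by exact_mod_cast hp.pos
    positivity
  have hl0 : 0 ≤ Real.log p := Real.log_nonneg (by exact_mod_cast hp.one_lt.le)
  have hk0 : 0 ≤ Real.log p * (p : ℝ)⁻¹ := by positivity
  have key : ∀ (a : ℝ), 0 ≤ a → a ≤ 1 → ∀ s : ℂ, 1 ≤ s.re →
      a * ((p : ℂ) ^ (-s)).re ≤ a * (p : ℝ)⁻¹ + Real.log p * (p : ℝ)⁻¹ * ‖s - 1‖ ∧
      -(a * ((p : ℂ) ^ (-s)).re) ≤ -(a * (p : ℝ)⁻¹) + Real.log p * (p : ℝ)⁻¹ * ‖s - 1‖ := by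
    intro a ha0 ha1 s hs
    have h1 := abs_le.mp (QA2_one hp hs)
    have hn : 0 ≤ Real.log p * (p : ℝ)⁻¹ * ‖s - 1‖ := by positivity
    have hB : a * (Real.log p * (p : ℝ)⁻¹ * ‖s - 1‖) ≤ Real.log p * (p : ℝ)⁻¹ * ‖s - 1‖ := by
      have := mul_le_mul_of_nonneg_right ha1 hn
      rwa [one_mul] at this
    have h2 := mul_le_mul_of_nonneg_left h1.2 ha0
    have h3 := mul_le_mul_of_nonneg_left h1.1 ha0
    rw [mul_sub] at h2
    rw [mul_sub, mul_neg] at h3
    constructor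
    · linarith only [h2, hB]
    · linarith only [h3, hB]
  have key2 : ∀ (a : ℝ), 0 ≤ a → a ≤ 1 → ∀ s : ℂ, 1 ≤ s.re →
      |a * ((p : ℂ) ^ (-s)).re| ≤ (p : ℝ)⁻¹ := by
    intro a ha0 ha1 s hs
    rw [abs_mul, abs_of_nonneg ha0]
    calc a * |((p : ℂ) ^ (-s)).re| ≤ 1 * (p : ℝ)⁻¹ :=
          mul_le_mul ha1 (QA2_abs hp hs) (abs_nonneg _) zero_le_one
      _ = _ := one_mul _
  have hpp : ∀ i j : Fin 4, 0 ≤ lam i * lam j ∧ lam i * lam j ≤ 1 := fun i j =>
    ⟨mul_nonneg (hlam i).1 (hlam j).1, mul_le_one₀ (hlam i).2 (hlam j).1 (hlam j).2⟩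
  unfold SR Dst
  rw [Fin.sum_univ_four] at hc
  rw [Fin.sum_univ_four, Fin.sum_univ_four]
  constructor
  · have a0 := (key _ (hlam 0).1 (hlam 0).2 _ (hA 0)).1
    have a1 := (key _ (hlam 1).1 (hlam 1).2 _ (hA 1)).1
    have a2 := (key _ (hlam 2).1 (hlam 2).2 _ (hA 2)).1
    have a3 := (key _ (hlam 3).1 (hlam 3).2 _ (hA 3)).1
    have b02 := (key _ (hpp 0 2).1 (hpp 0 2).2 _ h02).2
    have b03 := (key _ (hpp 0 3).1 (hpp 0 3).2 _ h03).2
    have b12 := (key _ (hpp 1 2).1 (hpp 1 2).2 _ h12).2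
    have b13 := (key _ (hpp 1 3).1 (hpp 1 3).2 _ h13).2
    have hcp := congrArg (fun x => x * (p : ℝ)⁻¹) hc
    simp only [one_mul] at hcp
    linarith
  · have a0 := (abs_le.mp (key2 _ (hlam 0).1 (hlam 0).2 _ (hA 0))).2
    have a1 := (abs_le.mp (key2 _ (hlam 1).1 (hlam 1).2 _ (hA 1))).2
    have a2 := (abs_le.mp (key2 _ (hlam 2).1 (hlam 2).2 _ (hA 2))).2
    have a3 := (abs_le.mp (key2 _ (hlam 3).1 (hlam 3).2 _ (hA 3))).2
    have b02 := (abs_le.mp (key2 _ (hpp 0 2).1 (hpp 0 2).2 _ h02)).1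
    have b03 := (abs_le.mp (key2 _ (hpp 0 3).1 (hpp 0 3).2 _ h03)).1
    have b12 := (abs_le.mp (key2 _ (hpp 1 2).1 (hpp 1 2).2 _ h12)).1
    have b13 := (abs_le.mp (key2 _ (hpp 1 3).1 (hpp 1 3).2 _ h13)).1
    linarith

private theorem QA2_ab {a b : ℝ} (ha : 0 ≤ a) (hb : 0 ≤ b) : 1 + a + b ≤ (1 + a) * (1 + b) := by
  have h := mul_nonneg ha hb
  have e : (1 + a) * (1 + b) = 1 + a + b + a * b := by ring
  linarith only [h, e]

/-- correction at the primes dividing q -/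
theorem QA2_corr (q : ℕ) : ∃ ρ l0 : ℝ, 0 < ρ ∧ 16 ≤ l0 ∧ ∀ l : ℝ, l0 ≤ l → ∀ lam : Fin 4 → ℝ,
    (∀ j, 0 ≤ lam j ∧ lam j ≤ 1) →
    (∑ j, lam j) - (lam 0 * lam 2 + lam 0 * lam 3 + lam 1 * lam 2 + lam 1 * lam 3) = 1 →
    ∀ (e : Fin 4 → ℂ) (e4 : ℂ), (∀ j, |(e j).re| ≤ 1 / (8 * l)) → |e4.re| ≤ 1 / (8 * l) →
    (∀ j, ‖e j‖ ≤ ρ) → ‖e4‖ ≤ ρ → ∀ u : Fin 4 → ℝ,
    Real.exp (-∑ p ∈ q.primeFactors, SR (fun s => ((p : ℂ) ^ (-s)).re) lam (Aex l e u) (1 + e4)) ≤
      2 / rq q * ∏ j, (1 + |u j|) := by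
  set P1 : ℝ := ∑ p ∈ q.primeFactors, (p : ℝ)⁻¹ with hP1
  set L : ℝ := ∑ p ∈ q.primeFactors, Real.log p * (p : ℝ)⁻¹ with hL
  have hP10 : 0 ≤ P1 := Finset.sum_nonneg fun p _ => by positivity
  have hL0 : 0 ≤ L := Finset.sum_nonneg fun p hp => by
    have h1 : (1 : ℝ) ≤ p := by exact_mod_cast (Nat.prime_of_mem_primeFactors hp).one_lt.le
    have := Real.log_nonneg h1
    positivity
  set M : ℝ := L * Real.exp (8 * P1) with hM
  have hM0 : 0 ≤ M := by positivity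
  refine ⟨1 / (32 * (M + 1)), 24 * (M + 1), by positivity, by linarith, ?_⟩
  intro l hl lam hlam hc e e4 he he4 hρ hρ4 u
  have hl24 : 24 ≤ l := by linarith
  have hl0 : 0 < l := by linarith
  set ρ : ℝ := 1 / (32 * (M + 1)) with hρdef
  have hδl : 1 / l = 8 * (1 / (8 * l)) := by field_simp
  have hre : ∀ j, (Aex l e u j).re = 1 + (e j).re + 1 / l := fun j => Q08_Aex_re l e u j
  have hδpos : 0 < 1 / (8 * l) := by positivity
  have hA : ∀ j, 1 ≤ (Aex l e u j).re := fun j => by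
    rw [hre, hδl]
    have := abs_le.1 (he j)
    linarith [this.1]
  have hP : ∀ i j, 1 ≤ (Aex l e u i + Aex l e u j - (1 + e4)).re := fun i j => by
    rw [sub_re, add_re, hre, hre, add_re, one_re, hδl]
    have h1 := abs_le.1 (he i)
    have h2 := abs_le.1 (he j)
    have h3 := abs_le.1 he4
    linarith [h1.1, h2.1, h3.2]
  set D : ℝ := Dst (Aex l e u) (1 + e4) with hD
  have hD0 : 0 ≤ D := by
    rw [hD]
    unfold Dst
    positivity
  -- bound for D
  set S : ℝ := |u 0| + |u 1| + |u 2| + |u 3| with hS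
  have hS0 : 0 ≤ S := by positivity
  have hn1 : ∀ j, ‖Aex l e u j - 1‖ ≤ ρ + (1 + |u j|) / l := by
    intro j
    have e1 : Aex l e u j - 1 = e j + (1 + u j * I) / l := by unfold Aex; ring
    rw [e1]
    refine (norm_add_le _ _).trans (add_le_add (hρ j) ?_)
    rw [norm_div, Complex.norm_real, Real.norm_of_nonneg hl0.le]
    gcongr
    refine (norm_add_le _ _).trans ?_
    simp
  have hn2 : ∀ i j, ‖Aex l e u i + Aex l e u j - (1 + e4) - 1‖ ≤ 3 * ρ + (2 + |u i| + |u j|) / l := by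
    intro i j
    have e1 : Aex l e u i + Aex l e u j - (1 + e4) - 1 = (Aex l e u i - 1) + (Aex l e u j - 1) - e4 := by ring
    rw [e1]
    have h1 := norm_sub_le ((Aex l e u i - 1) + (Aex l e u j - 1)) e4
    have h2 := norm_add_le (Aex l e u i - 1) (Aex l e u j - 1)
    have h3 := hn1 i
    have h4 := hn1 j
    have h5 : (2 + |u i| + |u j|) / l = (1 + |u i|) / l + (1 + |u j|) / l := by ring
    linarith
  have hDle : D ≤ 16 * ρ + (12 + 3 * S) / l := by
    rw [hD]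
    unfold Dst
    rw [Fin.sum_univ_four]
    have a0 := hn1 0
    have a1 := hn1 1
    have a2 := hn1 2
    have a3 := hn1 3
    have b0 := hn2 0 2
    have b1 := hn2 0 3
    have b2 := hn2 1 2
    have b3 := hn2 1 3
    have h5 : 16 * ρ + (12 + 3 * S) / l = (ρ + (1 + |u 0|) / l) + (ρ + (1 + |u 1|) / l) + (ρ + (1 + |u 2|) / l) +
        (ρ + (1 + |u 3|) / l) + ((3 * ρ + (2 + |u 0| + |u 2|) / l) + (3 * ρ + (2 + |u 0| + |u 3|) / l) +
        (3 * ρ + (2 + |u 1| + |u 2|) / l) + (3 * ρ + (2 + |u 1| + |u 3|) / l)) := by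
      rw [hS]
      ring
    linarith
  have hMD : M * D ≤ 1 + S := by
    have h1 : M * D ≤ M * (16 * ρ + (12 + 3 * S) / l) := mul_le_mul_of_nonneg_left hDle hM0
    have h2 : M * (16 * ρ) ≤ 1 / 2 := by
      rw [hρdef]
      have : M * (16 * (1 / (32 * (M + 1)))) = M / (2 * (M + 1)) := by
        field_simp
        ring
      rw [this, div_le_div_iff₀ (by positivity) (by norm_num)]
      linarith
    have h3 : M * ((12 + 3 * S) / l) ≤ 1 / 2 + S := by
      rw [mul_div_assoc', div_le_iff₀ hl0]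
      have h4 : M * (12 + 3 * S) ≤ (M + 1) * (12 + 3 * S) := by
        apply mul_le_mul_of_nonneg_right _ (by positivity)
        linarith
      have h5 : (1 / 2 + S) * (24 * (M + 1)) ≤ (1 / 2 + S) * l := mul_le_mul_of_nonneg_left hl (by positivity)
      have h7 : (M + 1) * (12 + 3 * S) ≤ (M + 1) * (12 + 24 * S) :=
        mul_le_mul_of_nonneg_left (by linarith only [hS0]) (by linarith only [hM0])
      have h8 : (1 / 2 + S) * (24 * (M + 1)) = (M + 1) * (12 + 24 * S) := by ring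
      linarith only [h4, h5, h7, h8]
    have h6 : M * (16 * ρ + (12 + 3 * S) / l) = M * (16 * ρ) + M * ((12 + 3 * S) / l) := by ring
    linarith
  -- the sum over primes
  have hs1 : -∑ p ∈ q.primeFactors, SR (fun s => ((p : ℂ) ^ (-s)).re) lam (Aex l e u) (1 + e4) ≤
      P1 + L * D := by
    rw [← Finset.sum_neg_distrib, hP1, hL, Finset.sum_mul, ← Finset.sum_add_distrib]
    exact Finset.sum_le_sum fun p hp => (QA2_SR (Nat.prime_of_mem_primeFactors hp) lam hlam hc _ _ hA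
      (hP 0 2) (hP 0 3) (hP 1 2) (hP 1 3)).1
  have hs2 : -∑ p ∈ q.primeFactors, SR (fun s => ((p : ℂ) ^ (-s)).re) lam (Aex l e u) (1 + e4) ≤
      8 * P1 := by
    rw [← Finset.sum_neg_distrib, hP1, Finset.mul_sum]
    exact Finset.sum_le_sum fun p hp => (QA2_SR (Nat.prime_of_mem_primeFactors hp) lam hlam hc _ _ hA
      (hP 0 2) (hP 0 3) (hP 1 2) (hP 1 3)).2
  set N : ℝ := -∑ p ∈ q.primeFactors, SR (fun s => ((p : ℂ) ^ (-s)).re) lam (Aex l e u) (1 + e4) with hN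
  have hexp : Real.exp N ≤ Real.exp P1 * (1 + M * D) := by
    set m : ℝ := min (L * D) (8 * P1) with hm
    have hm0 : 0 ≤ m := le_min (by positivity) (by positivity)
    have hNm : N ≤ P1 + m := by
      rcases le_total (L * D) (8 * P1) with h | h
      · rw [hm, min_eq_left h]; exact hs1
      · rw [hm, min_eq_right h]; linarith
    have h1 : Real.exp m ≤ 1 + m * Real.exp m := by
      have := Real.add_one_le_exp (-m)
      have h2 : Real.exp (-m) * Real.exp m = 1 := by rw [← Real.exp_add]; simp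
      have h3 := mul_le_mul_of_nonneg_right this (Real.exp_pos m).le
      rw [h2, add_mul, one_mul, neg_mul] at h3
      linarith only [h3]
    have h2 : m * Real.exp m ≤ M * D := by
      have h3 : m ≤ L * D := min_le_left _ _
      have h4 : Real.exp m ≤ Real.exp (8 * P1) := Real.exp_le_exp.mpr (min_le_right _ _)
      calc m * Real.exp m ≤ (L * D) * Real.exp (8 * P1) := mul_le_mul h3 h4 (Real.exp_pos _).le (by positivity)
        _ = M * D := by rw [hM]; ring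
    calc Real.exp N ≤ Real.exp (P1 + m) := Real.exp_le_exp.mpr hNm
      _ = Real.exp P1 * Real.exp m := Real.exp_add _ _
      _ ≤ Real.exp P1 * (1 + M * D) := by
          apply mul_le_mul_of_nonneg_left _ (Real.exp_pos _).le
          linarith
  have hprod : 2 + S ≤ 2 * ∏ j, (1 + |u j|) := by
    rw [Fin.prod_univ_four]
    have h0 := abs_nonneg (u 0)
    have h1 := abs_nonneg (u 1)
    have h2 := abs_nonneg (u 2)
    have h3 := abs_nonneg (u 3)
    have a := QA2_ab h0 h1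
    have b : 1 + (|u 0| + |u 1|) + |u 2| ≤ (1 + |u 0|) * (1 + |u 1|) * (1 + |u 2|) :=
      (QA2_ab (add_nonneg h0 h1) h2).trans (mul_le_mul_of_nonneg_right (by linarith only [a])
        (by linarith only [h2]))
    have c : 1 + (|u 0| + |u 1| + |u 2|) + |u 3| ≤
        (1 + |u 0|) * (1 + |u 1|) * (1 + |u 2|) * (1 + |u 3|) :=
      (QA2_ab (add_nonneg (add_nonneg h0 h1) h2) h3).trans (mul_le_mul_of_nonneg_right
        (by linarith only [b]) (by linarith only [h3]))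
    rw [hS]
    linarith only [c, h0, h1, h2, h3]
  calc Real.exp N ≤ Real.exp P1 * (1 + M * D) := hexp
    _ ≤ (rq q)⁻¹ * (2 * ∏ j, (1 + |u j|)) := by
        refine mul_le_mul (rq_exp q) (by linarith) (by positivity) ?_
        have := rq_pos q
        positivity
    _ = _ := by ring

end LX

end F_X_QA2
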