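import Pool.Agent.Lib.MP_0f5a55_nt.V.V02
import Pool.Agent.Lib.MP_0f5a55_nt.V.V03
import Pool.Agent.Lib.MP_0f5a55_nt.V.V06
import Pool.Agent.Lib.MP_0f5a55_nt.V.V31
import Pool.Agent.Lib.MP_0f5a55_nt.V.V33
import Pool.Agent.Lib.MP_0f5a55_nt.V.V36
import Pool.Agent.Lib.MP_0f5a55_nt.V.V39

section F_Q10

open Complex MeasureTheory Set Filter Topology
open scoped ComplexConjugate

namespace LZ

private lemma Q10_re (l a b c : ℝ) (hl3 : 3 ≤ l) (ha : |a| ≤ 1 / (8 * l)) (hb : |b| ≤ 1 / (8 * l))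
    (hc : |c| ≤ 1 / (8 * l)) : 1 / l ≤ a + b - c + 2 / l ∧ a + b - c + 2 / l ≤ 1 := by
  have a0 := abs_le.1 ha
  have a2 := abs_le.1 hb
  have a4 := abs_le.1 hc
  have hq : 1 / (8 * l) = (1 / 8) * (1 / l) := by rw [one_div_mul_one_div]
  have hq2 : 2 / l = 2 * (1 / l) := by rw [mul_one_div]
  have hli : 0 < 1 / l := one_div_pos.mpr (by linarith)
  have hli3 : 1 / l ≤ 1 / 3 := one_div_le_one_div_of_le (by norm_num) hl3
  rw [hq2]
  rw [hq] at a0 a2 a4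
  constructor
  · linarith [a0.1, a2.1, a4.2]
  · linarith [a0.2, a2.2, a4.1]

private lemma Q10_real (l C5 n u x : ℝ) (hl : 0 < l) (hC : 0 < C5) (hn : n ≤ 1 / (8 * l))
    (hx : x ≤ C5 * (1 + l * n) * (1 + |u|) ^ 2 / l) : x ≤ 2 * C5 * (1 + |u|) ^ 2 / l := by
  refine hx.trans ?_
  have h2 : l * (1 / (8 * l)) = 1 / 8 := by field_simp
  have h1 : l * n ≤ 1 / 8 := (mul_le_mul_of_nonneg_left hn hl.le).trans (le_of_eq h2)
  rw [div_le_div_iff_of_pos_right hl, mul_comm 2 C5]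
  exact mul_le_mul_of_nonneg_right (mul_le_mul_of_nonneg_left (by linarith) hC.le) (sq_nonneg _)

private lemma Q10_w (l C4 : ℝ) (a b c : ℂ) (hl3 : 3 ≤ l) (hC4 : 0 < C4) (ha : ‖a‖ ≤ 1 / (8 * l))
    (hb : ‖b‖ ≤ 1 / (8 * l)) (hc : |c.re| ≤ 1 / (8 * l))
    (hexp : ∀ w : ℂ, 0 < w.re → w.re ≤ 1 → Real.exp (R (1 + w)) ≤ C4 / w.re) (x y : ℝ) :
    Real.exp (R (1 + a + (1 + x * I) / l + (1 + b + (1 + y * I) / l) - (1 + c))) ≤ C4 * l := by
  have hl : 0 < l := by linarith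
  have hwe : 1 + a + (1 + x * I) / l + (1 + b + (1 + y * I) / l) - (1 + c) =
      1 + (a + b - c + (2 + (x + y) * I) / l) := by ring
  rw [hwe]
  have hre : (a + b - c + (2 + (x + y) * I) / l).re = a.re + b.re - c.re + 2 / l := by
    rw [Complex.add_re, Complex.sub_re, Complex.add_re, Complex.div_ofReal_re, Complex.add_re, ← Complex.ofReal_add,
      Complex.re_ofReal_mul, Complex.I_re, mul_zero, add_zero, Complex.re_ofNat]
  obtain ⟨h1, h2⟩ := Q10_re l a.re b.re c.re hl3 ((Complex.abs_re_le_norm a).trans ha)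
    ((Complex.abs_re_le_norm b).trans hb) hc
  rw [← hre] at h1 h2
  have hli : 0 < 1 / l := one_div_pos.mpr hl
  refine (hexp _ (lt_of_lt_of_le hli h1) h2).trans ?_
  rw [div_le_iff₀ (lt_of_lt_of_le hli h1), mul_assoc]
  refine le_mul_of_one_le_right hC4.le ?_
  have h5 := mul_le_mul_of_nonneg_left h1 hl.le
  rwa [mul_one_div, div_self hl.ne'] at h5

private lemma Q10_pt (k0 k1 k2 k3 g0 g1 g2 g3 p0 p2 x0 x2 x4 C5 C4 l : ℝ) (hl : 0 < l) (hC5 : 0 < C5) (hC4 : 0 < C4)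
    (hk0 : 0 ≤ k0) (hk1 : 0 ≤ k1) (hk2 : 0 ≤ k2) (hk3 : 0 ≤ k3) (hp0 : 0 ≤ p0) (hp2 : 0 ≤ p2)
    (hx0 : 0 ≤ x0) (hx2 : 0 ≤ x2) (hx4 : 0 ≤ x4)
    (h0 : k0 * p0 ≤ g0) (h1 : k1 ≤ g1) (h2 : k2 * p2 ≤ g2) (h3 : k3 ≤ g3)
    (e0 : x0 ≤ 2 * C5 * p0 / l) (e2 : x2 ≤ 2 * C5 * p2 / l) (e4 : x4 ≤ C4 * l) :
    k0 * k1 * k2 * k3 * (x0 * x2 * x4) ≤ (4 * C5 ^ 2 * C4 / l) * (g0 * g1 * g2 * g3) := by
  have hg0 : 0 ≤ g0 := (mul_nonneg hk0 hp0).trans h0
  have hg2 : 0 ≤ g2 := (mul_nonneg hk2 hp2).trans h2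
  have hg1 : 0 ≤ g1 := hk1.trans h1
  have hy0 : 0 ≤ 2 * C5 * p0 / l := hx0.trans e0
  have hy2 : 0 ≤ 2 * C5 * p2 / l := hx2.trans e2
  calc k0 * k1 * k2 * k3 * (x0 * x2 * x4)
      ≤ k0 * k1 * k2 * k3 * ((2 * C5 * p0 / l) * (2 * C5 * p2 / l) * (C4 * l)) :=
        mul_le_mul_of_nonneg_left (mul_le_mul (mul_le_mul e0 e2 hx2 hy0) e4 hx4 (mul_nonneg hy0 hy2))
          (mul_nonneg (mul_nonneg (mul_nonneg hk0 hk1) hk2) hk3)
    _ = (4 * C5 ^ 2 * C4 / l) * ((k0 * p0) * k1 * (k2 * p2) * k3) := by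
        field_simp
        ring
    _ ≤ (4 * C5 ^ 2 * C4 / l) * (g0 * g1 * g2 * g3) :=
        mul_le_mul_of_nonneg_left (mul_le_mul (mul_le_mul (mul_le_mul h0 h1 hk1 hg0) h2 (mul_nonneg hk2 hp2)
          (mul_nonneg hg0 hg1)) h3 hk3 (mul_nonneg (mul_nonneg hg0 hg1) hg2))
          (div_nonneg (mul_nonneg (mul_nonneg (by norm_num) (sq_nonneg _)) hC4.le) hl.le)

private lemma Q10_SR (a b c : ℂ) (l : ℝ) (u : Fin 4 → ℝ) : SR R ![1, 0, 1, 0] (Aex l ![a, 0, b, 0] u) (1 + c) =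
    -R (1 + a + (1 + u 0 * I) / l) + -R (1 + b + (1 + u 2 * I) / l)
      + R (1 + a + (1 + u 0 * I) / l + (1 + b + (1 + u 2 * I) / l) - (1 + c)) := by
  simp only [SR, Fin.sum_univ_four, Aex, Matrix.cons_val_zero, Matrix.cons_val_one, Matrix.cons_val]
  ring

/-- (2.4). Replace e 1, e 3 by 0 (QQ_congr). SR = -R(A0)-R(A2)+R(A0+A2-C); R_neg (with |eta| <= 1/(8l)) twice,
and exp R <= C l by R_exp (Re w >= 1/l). Integrate the product (integral_fintype_prod_eq_prod). -/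
theorem QQ_mu : ∃ K l0 : ℝ, 0 < K ∧ 1 ≤ l0 ∧ ∀ l : ℝ, l0 ≤ l → ∀ (e : Fin 4 → ℂ) (e4 : ℂ),
    ‖e 0‖ ≤ 1 / (8 * l) → ‖e 2‖ ≤ 1 / (8 * l) → |e4.re| ≤ 1 / (8 * l) →
    ‖QQ ⌊Real.exp l⌋₊ ![1, 0, 1, 0] l e e4‖ ≤ K / l := by
  obtain ⟨K1, l1, hK1, hl1, hQ⟩ := QQ_bound
  obtain ⟨C5, l5, hC5, hl5, hneg⟩ := R_neg
  obtain ⟨C4, hC4, hexp⟩ := R_exp
  obtain ⟨hkc, hki⟩ := kk_facts
  obtain ⟨g, hg⟩ : ∃ g : ℝ → ℝ, g = fun u => ‖kk u‖ * (1 + |u|) ^ 16 := ⟨_, rfl⟩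
  rw [← hg] at hki
  have h1x : ∀ x : ℝ, (1 : ℝ) ≤ 1 + |x| := fun x => le_add_of_nonneg_right (abs_nonneg x)
  have hkg : ∀ x : ℝ, ‖kk x‖ ≤ g x := by
    intro x
    rw [hg]
    exact le_mul_of_one_le_right (norm_nonneg _) (one_le_pow₀ (h1x x))
  have hkg2 : ∀ x : ℝ, ‖kk x‖ * (1 + |x|) ^ 2 ≤ g x := by
    intro x
    rw [hg]
    exact mul_le_mul_of_nonneg_left (pow_le_pow_right₀ (h1x x) (by norm_num)) (norm_nonneg (kk x))
  obtain ⟨G, hGdef⟩ : ∃ G : ℝ, G = ∫ u, g u := ⟨_, rfl⟩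
  have hG : 0 ≤ G := by
    rw [hGdef]
    exact integral_nonneg (fun u => (norm_nonneg _).trans (hkg u))
  have hK0 : 0 ≤ K1 * (4 * C5 ^ 2 * C4) * G ^ 4 :=
    mul_nonneg (mul_nonneg hK1.le (mul_nonneg (mul_nonneg (by norm_num) (sq_nonneg _)) hC4.le)) (pow_nonneg hG 4)
  refine ⟨K1 * (4 * C5 ^ 2 * C4) * G ^ 4 + 1, max (max l1 l5) 3, add_pos_of_nonneg_of_pos hK0 one_pos,
    hl1.trans ((le_max_left l1 l5).trans (le_max_left _ 3)), ?_⟩
  intro l hl e e4 h0 h2 h4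
  have hll1 : l1 ≤ l := ((le_max_left l1 l5).trans (le_max_left _ 3)).trans hl
  have hll5 : l5 ≤ l := ((le_max_right l1 l5).trans (le_max_left _ 3)).trans hl
  have hl3 : (3 : ℝ) ≤ l := (le_max_right _ _).trans hl
  have hlpos : 0 < l := lt_of_lt_of_le three_pos hl3
  have hcongr := QQ_congr ⌊Real.exp l⌋₊ ![1, 0, 1, 0] l e ![e 0, 0, e 2, 0] e4
    (by
      intro j
      fin_cases j
      exacts [Or.inr rfl, Or.inl rfl, Or.inr rfl, Or.inl rfl])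
  rw [hcongr]
  have h18 : (0 : ℝ) ≤ 1 / (8 * l) := one_div_nonneg.mpr (mul_nonneg (by norm_num) hlpos.le)
  have h18' : |(0 : ℂ).re| ≤ 1 / (8 * l) := by
    rw [Complex.zero_re, abs_zero]
    exact h18
  have hB := hQ l hll1 ![1, 0, 1, 0]
    (by
      intro j
      fin_cases j
      exacts [⟨zero_le_one, le_rfl⟩, ⟨le_rfl, zero_le_one⟩, ⟨zero_le_one, le_rfl⟩, ⟨le_rfl, zero_le_one⟩])
    ![e 0, 0, e 2, 0] e4
    (by
      intro j
      fin_cases j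
      exacts [(Complex.abs_re_le_norm _).trans h0, h18', (Complex.abs_re_le_norm _).trans h2, h18']) h4
  refine hB.2.trans ?_
  have hsmall : 1 / (8 * l) ≤ 1 / 4 := one_div_le_one_div_of_le (by norm_num) (by linarith only [hl3])
  have hone : ∀ η : ℂ, ‖η‖ ≤ 1 / (8 * l) → ∀ u : ℝ,
      Real.exp (-R (1 + η + (1 + u * I) / l)) ≤ 2 * C5 * (1 + |u|) ^ 2 / l := fun η hη u =>
    Q10_real l C5 ‖η‖ u _ hlpos hC5 hη (hneg l hll5 η ((Complex.abs_re_le_norm _).trans hη) (hη.trans hsmall) u)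
  have hw := Q10_w l C4 (e 0) (e 2) e4 hl3 hC4 h0 h2 h4 (fun w h1 h2 => (hexp w h1 h2).1)
  have hpt : ∀ u : Fin 4 → ℝ, (∏ j, ‖kk (u j)‖) * Real.exp (SR R ![1, 0, 1, 0]
      (Aex l ![e 0, 0, e 2, 0] u) (1 + e4)) ≤ (4 * C5 ^ 2 * C4 / l) * ∏ j, g (u j) := by
    intro u
    rw [Q10_SR, Real.exp_add, Real.exp_add, Fin.prod_univ_four, Fin.prod_univ_four]
    exact Q10_pt _ _ _ _ _ _ _ _ _ _ _ _ _ _ _ _ hlpos hC5 hC4 (norm_nonneg _) (norm_nonneg _) (norm_nonneg _)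
      (norm_nonneg _) (sq_nonneg _) (sq_nonneg _) (Real.exp_pos _).le (Real.exp_pos _).le (Real.exp_pos _).le
      (hkg2 (u 0)) (hkg (u 1)) (hkg2 (u 2)) (hkg (u 3)) (hone (e 0) h0 (u 0)) (hone (e 2) h2 (u 2)) (hw (u 0) (u 2))
  have hint : Integrable (fun u : Fin 4 → ℝ => ∏ j, g (u j)) :=
    Integrable.fintype_prod (f := fun _ : Fin 4 => g) (fun _ => hki)
  have hval : ∫ u : Fin 4 → ℝ, ∏ j, g (u j) = G ^ 4 := by
    rw [MeasureTheory.integral_fintype_prod_volume_eq_prod (ι := Fin 4) (fun _ : Fin 4 => g), Fin.prod_univ_four,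
      ← hGdef]
    ring
  calc K1 * ∫ u : Fin 4 → ℝ, (∏ j, ‖kk (u j)‖) * Real.exp (SR R ![1, 0, 1, 0]
        (Aex l ![e 0, 0, e 2, 0] u) (1 + e4))
      ≤ K1 * ∫ u : Fin 4 → ℝ, (4 * C5 ^ 2 * C4 / l) * ∏ j, g (u j) :=
        mul_le_mul_of_nonneg_left (integral_mono hB.1 (hint.const_mul _) hpt) hK1.le
    _ = K1 * (4 * C5 ^ 2 * C4) * G ^ 4 / l := by
        rw [integral_const_mul, hval]
        ring
    _ ≤ (K1 * (4 * C5 ^ 2 * C4) * G ^ 4 + 1) / l :=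
        div_le_div_of_nonneg_right (le_add_of_nonneg_right zero_le_one) hlpos.le

end LZ

end F_Q10

section F_X_QA3

open Complex MeasureTheory Set Filter Topology
open scoped ComplexConjugate

namespace LX

open LZ

theorem QA3_split (q z : ℕ) (hz : q ≤ z) (f : ℕ → ℝ) (hq : 1 ≤ q) :
    ∑ p ∈ PQ q z, f p = ∑ p ∈ PP z, f p - ∑ p ∈ q.primeFactors, f p := by
  have h1 : q.primeFactors ⊆ PP z := by
    intro p hp
    unfold PP
    rw [Finset.mem_filter, Finset.mem_range]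
    have h2 := Nat.le_of_dvd hq (Nat.dvd_of_mem_primeFactors hp)
    exact ⟨by omega, Nat.prime_of_mem_primeFactors hp⟩
  have h2 : PQ q z = PP z \ q.primeFactors := by
    ext p
    rw [PQ, Finset.mem_filter, Finset.mem_sdiff, Nat.mem_primeFactors]
    constructor
    · rintro ⟨h3, h4⟩
      exact ⟨h3, fun h => h4 h.2.1⟩
    · rintro ⟨h3, h4⟩
      refine ⟨h3, fun h => h4 ⟨?_, h, by omega⟩⟩
      rw [PP, Finset.mem_filter] at h3
      exact h3.2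
  rw [h2, eq_sub_iff_add_eq]
  exact Finset.sum_sdiff h1

/-- product bound over the primes not dividing q -/
theorem prod_boundq : ∃ K : ℝ, 0 < K ∧ ∀ (q z : ℕ) (lam : Fin 4 → ℝ), (∀ j, 0 ≤ lam j ∧ lam j ≤ 1) →
    ∀ (A : Fin 4 → ℂ) (C : ℂ), (∀ j, 15/16 ≤ (A j).re) →
      15/16 ≤ (A 0 + A 2 - C).re → 15/16 ≤ (A 0 + A 3 - C).re → 15/16 ≤ (A 1 + A 2 - C).re →
      15/16 ≤ (A 1 + A 3 - C).re →
      ‖∏ p ∈ PQ q z, EP (fun j => -(lam j : ℂ) * (p : ℂ) ^ (-(A j))) ((p : ℂ) ^ C)‖ ≤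
        K * Real.exp (∑ p ∈ PQ q z, SR (fun s => ((p : ℂ) ^ (-s)).re) lam A C) := by
  obtain ⟨K, hK, h⟩ := EP_bound
  have hsum : Summable (fun n : ℕ => (n : ℝ) ^ (-(15/8) : ℝ)) :=
    Real.summable_nat_rpow.mpr (by norm_num)
  refine ⟨Real.exp (K * ∑' n : ℕ, (n : ℝ) ^ (-(15/8) : ℝ)), Real.exp_pos _, ?_⟩
  intro q z lam hlam A C hA h1 h2 h3 h4
  rw [norm_prod]
  have hb : ∀ p ∈ PQ q z, ‖EP (fun j => -(lam j : ℂ) * (p : ℂ) ^ (-(A j))) ((p : ℂ) ^ C)‖ ≤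
      Real.exp (SR (fun s => ((p : ℂ) ^ (-s)).re) lam A C + K * (p : ℝ) ^ (-(15/8) : ℝ)) := by
    intro p hp
    have hp := PQ_sub q z hp
    unfold PP at hp
    rw [Finset.mem_filter] at hp
    exact h p hp.2 lam hlam A C hA h1 h2 h3 h4
  refine (Finset.prod_le_prod (fun p _ => norm_nonneg _) hb).trans ?_
  rw [← Real.exp_sum, Finset.sum_add_distrib, ← Finset.mul_sum, ← Real.exp_add]
  apply Real.exp_le_exp.mpr
  have h5 : ∑ p ∈ PQ q z, (p : ℝ) ^ (-(15/8) : ℝ) ≤ ∑' n : ℕ, (n : ℝ) ^ (-(15/8) : ℝ) :=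
    hsum.sum_le_tsum _ (fun n _ => Real.rpow_nonneg (Nat.cast_nonneg n) _)
  have h6 := mul_le_mul_of_nonneg_left h5 hK
  linarith

theorem QA3_kk (n : ℕ) (hn : n ≤ 16) : Integrable (fun u : ℝ => ‖kk u‖ * (1 + |u|) ^ n) := by
  obtain ⟨hc, hi⟩ := kk_facts
  refine hi.mono' ?_ (Eventually.of_forall fun u => ?_)
  · exact (hc.norm.mul ((continuous_const.add continuous_abs).pow n)).aestronglyMeasurable
  · have h1 : (1 : ℝ) ≤ 1 + |u| := by linarith [abs_nonneg u]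
    rw [Real.norm_of_nonneg (by positivity)]
    exact mul_le_mul_of_nonneg_left (pow_le_pow_right₀ h1 hn) (norm_nonneg _)

/-- (2.3) with the primes dividing q removed; constant K q/phi(q), K absolute -/
theorem QQ_boundq : ∃ K : ℝ, 0 < K ∧ ∀ q : ℕ, 1 ≤ q → ∃ ρ l0 : ℝ, 0 < ρ ∧ 16 ≤ l0 ∧ ∀ l : ℝ, l0 ≤ l →
    ∀ lam : Fin 4 → ℝ, (∀ j, 0 ≤ lam j ∧ lam j ≤ 1) →
    (∑ j, lam j) - (lam 0 * lam 2 + lam 0 * lam 3 + lam 1 * lam 2 + lam 1 * lam 3) = 1 →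
    ∀ (e : Fin 4 → ℂ) (e4 : ℂ), (∀ j, |(e j).re| ≤ 1 / (8 * l)) → |e4.re| ≤ 1 / (8 * l) →
    (∀ j, ‖e j‖ ≤ ρ) → ‖e4‖ ≤ ρ →
    Integrable (fun u : Fin 4 → ℝ => (∏ j, (‖kk (u j)‖ * (1 + |u j|) ^ 1)) *
      Real.exp (SR R lam (Aex l e u) (1 + e4))) ∧
    ‖QQ q ⌊Real.exp l⌋₊ lam l e e4‖ ≤
      K / rq q * ∫ u : Fin 4 → ℝ, (∏ j, (‖kk (u j)‖ * (1 + |u j|) ^ 1)) *
        Real.exp (SR R lam (Aex l e u) (1 + e4)) := by
  obtain ⟨K, hK, hprod⟩ := prod_boundq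
  obtain ⟨hR0, hRabs, hRz, hRt, hRc⟩ := Rz_facts
  refine ⟨2 * K, by positivity, fun q hq => ?_⟩
  obtain ⟨ρ, l0, hρ, hl0, hcorr⟩ := QA2_corr q
  refine ⟨ρ, l0, hρ, hl0, ?_⟩
  intro l hl lam hlam hc e e4 he he4 hρe hρe4
  have hrq := rq_pos q
  have hl16 : 16 ≤ l := hl0.trans hl
  have hl0 : 0 < l := by linarith
  set δ := 1 / (8 * l) with hδ
  have hδpos : 0 < δ := by positivity
  have hδl : 1 / l = 8 * δ := by rw [hδ]; field_simp
  have hre : ∀ u : Fin 4 → ℝ, ∀ j, (Aex l e u j).re = 1 + (e j).re + 8 * δ := fun u j => by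
    rw [Q08_Aex_re, hδl]
  have hA : ∀ u : Fin 4 → ℝ, ∀ j, 1 < (Aex l e u j).re := fun u j => by
    rw [hre]; have := abs_le.1 (he j); linarith [this.1]
  have hP : ∀ u : Fin 4 → ℝ, ∀ i j, 1 < (Aex l e u i + Aex l e u j - (1 + e4)).re := fun u i j => by
    rw [sub_re, add_re, hre, hre, add_re, one_re]
    have h1 := abs_le.1 (he i); have h2 := abs_le.1 (he j); have h3 := abs_le.1 he4
    linarith [h1.1, h2.1, h3.2]
  -- the uniform bound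
  set M : ℝ := (∑ j, R (((1 + (e j).re + 8 * δ : ℝ)) : ℂ)) + (R (((1 + (e 0).re + 8 * δ + (1 + (e 2).re + 8 * δ) - (1 + e4.re) : ℝ)) : ℂ)
    + R (((1 + (e 0).re + 8 * δ + (1 + (e 3).re + 8 * δ) - (1 + e4.re) : ℝ)) : ℂ)
    + R (((1 + (e 1).re + 8 * δ + (1 + (e 2).re + 8 * δ) - (1 + e4.re) : ℝ)) : ℂ)
    + R (((1 + (e 1).re + 8 * δ + (1 + (e 3).re + 8 * δ) - (1 + e4.re) : ℝ)) : ℂ)) with hM
  have hMle : ∀ F : ℂ → ℝ, (∀ s : ℂ, 1 < s.re → |F s| ≤ R (s.re : ℂ)) → ∀ u : Fin 4 → ℝ,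
      SR F lam (Aex l e u) (1 + e4) ≤ M := by
    intro F hF u
    refine (Q08_SR_le F (fun s => R (s.re : ℂ)) hF lam hlam _ _ (hA u) (hP u 0 2) (hP u 0 3) (hP u 1 2)
      (hP u 1 3)).trans (le_of_eq ?_)
    simp only [hM, sub_re, add_re, one_re, hre]
  have hcontSR : Continuous (fun u : Fin 4 → ℝ => SR R lam (Aex l e u) (1 + e4)) := by
    have hc1 : ∀ j, Continuous (fun u : Fin 4 → ℝ => R (Aex l e u j)) := fun j =>
      hRc.comp_continuous (Q08_Aex_cont l e j) (fun u => hA u j)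
    have hc2 : ∀ i j, Continuous (fun u : Fin 4 → ℝ => R (Aex l e u i + Aex l e u j - (1 + e4))) := fun i j =>
      hRc.comp_continuous (((Q08_Aex_cont l e i).add (Q08_Aex_cont l e j)).sub continuous_const) (fun u => hP u i j)
    unfold SR
    refine Continuous.add ?_ ?_
    · exact (continuous_finsetSum _ fun j _ => continuous_const.mul (hc1 j)).neg
    · exact (((continuous_const.mul (hc2 0 2)).add (continuous_const.mul (hc2 0 3))).add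
        (continuous_const.mul (hc2 1 2))).add (continuous_const.mul (hc2 1 3))
  have hkc : Continuous (fun u : Fin 4 → ℝ => ∏ j, (‖kk (u j)‖ * (1 + |u j|) ^ 1)) := by
    refine continuous_finsetProd _ fun j _ => ?_
    exact (kk_facts.1.comp (continuous_apply j)).norm.mul
      ((continuous_const.add (continuous_abs.comp (continuous_apply j))).pow 1)
  have hprodint : Integrable (fun u : Fin 4 → ℝ => ∏ j, (‖kk (u j)‖ * (1 + |u j|) ^ 1)) :=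
    Integrable.fintype_prod (f := fun _ : Fin 4 => fun u : ℝ => ‖kk u‖ * (1 + |u|) ^ 1)
      (fun _ => QA3_kk 1 (by norm_num))
  have hdom : Integrable (fun u : Fin 4 → ℝ => (∏ j, (‖kk (u j)‖ * (1 + |u j|) ^ 1)) * Real.exp M) :=
    hprodint.mul_const _
  have hpn : ∀ u : Fin 4 → ℝ, 0 ≤ ∏ j, (‖kk (u j)‖ * (1 + |u j|) ^ 1) := fun u =>
    Finset.prod_nonneg fun j _ => by positivity
  have hbd : ∀ F : ℂ → ℝ, (∀ s : ℂ, 1 < s.re → |F s| ≤ R (s.re : ℂ)) → ∀ u : Fin 4 → ℝ,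
      ‖(∏ j, (‖kk (u j)‖ * (1 + |u j|) ^ 1)) * Real.exp (SR F lam (Aex l e u) (1 + e4))‖ ≤
        (∏ j, (‖kk (u j)‖ * (1 + |u j|) ^ 1)) * Real.exp M := by
    intro F hF u
    rw [Real.norm_of_nonneg (mul_nonneg (hpn u) (Real.exp_pos _).le)]
    exact mul_le_mul_of_nonneg_left (Real.exp_le_exp.2 (hMle F hF u)) (hpn u)
  have hint : Integrable (fun u : Fin 4 → ℝ => (∏ j, (‖kk (u j)‖ * (1 + |u j|) ^ 1)) *
      Real.exp (SR R lam (Aex l e u) (1 + e4))) :=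
    hdom.mono' (hkc.mul (Real.continuous_exp.comp hcontSR)).aestronglyMeasurable
      (Eventually.of_forall fun u => hbd R hRabs u)
  refine ⟨hint, ?_⟩
  -- continuity of the truncated sums
  have hRzc : ∀ z : ℕ, Continuous (Rz z) := by
    intro z
    unfold Rz
    refine continuous_finsetSum _ fun p hp => ?_
    have hp0 : (p : ℂ) ≠ 0 := by
      have : p.Prime := (Finset.mem_filter.1 hp).2
      exact_mod_cast this.ne_zero
    have : Continuous (fun s : ℂ => (p : ℂ) ^ (-s)) := (continuous_neg).const_cpow (Or.inl hp0)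
    exact continuous_re.comp this
  have hSRz : ∀ z : ℕ, Continuous (fun u : Fin 4 → ℝ => SR (Rz z) lam (Aex l e u) (1 + e4)) := by
    intro z
    unfold SR
    refine Continuous.add ?_ ?_
    · exact (continuous_finsetSum _ fun j _ => continuous_const.mul ((hRzc z).comp (Q08_Aex_cont l e j))).neg
    · have hc2 : ∀ i j, Continuous (fun u : Fin 4 → ℝ => Rz z (Aex l e u i + Aex l e u j - (1 + e4))) := fun i j =>
        (hRzc z).comp (((Q08_Aex_cont l e i).add (Q08_Aex_cont l e j)).sub continuous_const)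
      exact (((continuous_const.mul (hc2 0 2)).add (continuous_const.mul (hc2 0 3))).add
        (continuous_const.mul (hc2 1 2))).add (continuous_const.mul (hc2 1 3))
  have hz : ∀ z : ℕ, max q ⌊Real.exp l⌋₊ ≤ z → ‖QQ q ⌊Real.exp l⌋₊ lam l e e4‖ ≤
      2 * K / rq q * ∫ u : Fin 4 → ℝ, (∏ j, (‖kk (u j)‖ * (1 + |u j|) ^ 1)) *
        Real.exp (SR (Rz z) lam (Aex l e u) (1 + e4)) := by
    intro z hz
    have hz1 : q ≤ z := (le_max_left _ _).trans hz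
    have hz2 : ⌊Real.exp l⌋₊ ≤ z := (le_max_right _ _).trans hz
    rw [← QQ_stable q z lam l hl0 e e4 hz2, QQ_integral q z lam l hl0 e e4, ← integral_const_mul]
    refine norm_integral_le_of_norm_le ?_ (Eventually.of_forall fun u => ?_)
    · refine Integrable.const_mul ?_ _
      exact hdom.mono' (hkc.mul (Real.continuous_exp.comp (hSRz z))).aestronglyMeasurable
        (Eventually.of_forall fun u => hbd (Rz z) (hRz z) u)
    · rw [norm_mul, norm_prod]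
      have h1 : ∀ s : ℂ, 1 < s.re → (15/16 : ℝ) ≤ s.re := fun s hs => by linarith
      have hb := hprod q z lam hlam (Aex l e u) (1 + e4) (fun j => h1 _ (hA u j)) (h1 _ (hP u 0 2))
        (h1 _ (hP u 0 3)) (h1 _ (hP u 1 2)) (h1 _ (hP u 1 3))
      have hs := QA3_split q z hz1 (fun p => SR (fun s => ((p : ℂ) ^ (-s)).re) lam (Aex l e u) (1 + e4)) hq
      rw [Q03_SR_sum] at hs
      have hcr := hcorr l hl lam hlam hc e e4 he he4 hρe hρe4 u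
      have hb2 : ‖∏ p ∈ PQ q z, EP (fun j => -(lam j : ℂ) * (p : ℂ) ^ (-(Aex l e u j))) ((p : ℂ) ^ (1 + e4))‖ ≤
          K * (Real.exp (SR (Rz z) lam (Aex l e u) (1 + e4)) * (2 / rq q * ∏ j, (1 + |u j|))) := by
        refine hb.trans ?_
        apply mul_le_mul_of_nonneg_left _ hK.le
        rw [hs, sub_eq_add_neg, Real.exp_add]
        exact mul_le_mul_of_nonneg_left hcr (Real.exp_pos _).le
      have hkn : 0 ≤ ∏ j, ‖kk (u j)‖ := Finset.prod_nonneg fun j _ => norm_nonneg _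
      calc (∏ j, ‖kk (u j)‖) * ‖∏ p ∈ PQ q z, EP (fun j => -(lam j : ℂ) * (p : ℂ) ^ (-(Aex l e u j))) ((p : ℂ) ^ (1 + e4))‖
          ≤ (∏ j, ‖kk (u j)‖) * (K * (Real.exp (SR (Rz z) lam (Aex l e u) (1 + e4)) * (2 / rq q * ∏ j, (1 + |u j|)))) :=
            mul_le_mul_of_nonneg_left hb2 hkn
        _ = 2 * K / rq q * ((∏ j, (‖kk (u j)‖ * (1 + |u j|) ^ 1)) * Real.exp (SR (Rz z) lam (Aex l e u) (1 + e4))) := by
            rw [Finset.prod_mul_distrib]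
            simp only [pow_one]
            ring
  have hlim : Tendsto (fun z : ℕ => 2 * K / rq q * ∫ u : Fin 4 → ℝ, (∏ j, (‖kk (u j)‖ * (1 + |u j|) ^ 1)) *
      Real.exp (SR (Rz z) lam (Aex l e u) (1 + e4))) atTop
      (𝓝 (2 * K / rq q * ∫ u : Fin 4 → ℝ, (∏ j, (‖kk (u j)‖ * (1 + |u j|) ^ 1)) *
        Real.exp (SR R lam (Aex l e u) (1 + e4)))) := by
    refine Tendsto.const_mul _ ?_
    refine tendsto_integral_of_dominated_convergence (fun u => (∏ j, (‖kk (u j)‖ * (1 + |u j|) ^ 1)) * Real.exp M) ?_ hdom ?_ ?_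
    · exact fun z => (hkc.mul (Real.continuous_exp.comp (hSRz z))).aestronglyMeasurable
    · exact fun z => Eventually.of_forall fun u => hbd (Rz z) (hRz z) u
    · refine Eventually.of_forall fun u => ?_
      refine Tendsto.const_mul _ ?_
      exact (Real.continuous_exp.tendsto _).comp (Q08_SR_tendsto hRt lam _ _ (hA u) (hP u 0 2) (hP u 0 3)
        (hP u 1 2) (hP u 1 3))
  exact ge_of_tendsto hlim (eventually_atTop.2 ⟨max q ⌊Real.exp l⌋₊, hz⟩)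

end LX

end F_X_QA3

section F_Q15

open Complex MeasureTheory Set Filter Topology
open scoped ComplexConjugate

namespace LZ

theorem Q15_zeta (s : ℂ) (hs : 1 < s.re) :
    Tendsto (fun z : ℕ => ∏ p ∈ PP z, (1 - (p : ℂ) ^ (-s))⁻¹) atTop (𝓝 (riemannZeta s)) := by
  have h := (riemannZeta_eulerProduct hs).comp (tendsto_add_atTop_nat 1)
  refine h.congr fun z => ?_
  rfl

theorem Q15_ne (s : ℂ) (hs : 1 < s.re) (p : ℕ) (hp : p.Prime) : 1 - (p : ℂ) ^ (-s) ≠ 0 := by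
  intro h
  have h1 : (p : ℂ) ^ (-s) = 1 := (sub_eq_zero.1 h).symm
  have h2 : ‖(p : ℂ) ^ (-s)‖ = 1 := by rw [h1, norm_one]
  rw [Complex.norm_natCast_cpow_of_pos hp.pos, Complex.neg_re] at h2
  have hp1 : (1 : ℝ) < p := by exact_mod_cast hp.one_lt
  have h3 : (p : ℝ) ^ (-s.re) < 1 := Real.rpow_lt_one_of_one_lt_of_neg hp1 (by linarith)
  linarith

/-- riemannZeta_eulerProduct (limit of the product over primes below n) and R1_facts. -/
theorem mu_prod (A B D : ℂ) (hA : 1 < A.re) (hB : 1 < B.re) (hD : 1 < D.re) :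
    Tendsto (fun z : ℕ => ∏ p ∈ PP z, (1 - (p : ℂ) ^ (-A) - (p : ℂ) ^ (-B) + (p : ℂ) ^ (-D))) atTop
      (𝓝 (riemannZeta D / (riemannZeta A * riemannZeta B) * R1 A B D)) := by
  obtain ⟨K, hK, hR1b, hR1t, hR1l⟩ := R1_facts
  have hzA : riemannZeta A ≠ 0 := riemannZeta_ne_zero_of_one_le_re hA.le
  have hzB : riemannZeta B ≠ 0 := riemannZeta_ne_zero_of_one_le_re hB.le
  have h1 := ((Q15_zeta D hD).div ((Q15_zeta A hA).mul (Q15_zeta B hB)) (mul_ne_zero hzA hzB)).mul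
    (hR1t A B D hA.le hB.le hD.le)
  refine h1.congr fun z => ?_
  simp only [Pi.div_apply]
  rw [← Finset.prod_mul_distrib, ← Finset.prod_div_distrib, ← Finset.prod_mul_distrib]
  apply Finset.prod_congr rfl
  intro p hp
  have hp' : p.Prime := by
    unfold PP at hp
    exact (Finset.mem_filter.1 hp).2
  have e1 := Q15_ne A hA p hp'
  have e2 := Q15_ne B hB p hp'
  have e3 := Q15_ne D hD p hp'
  field_simp

end LZ

end F_Q15
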