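import Pool.Agent.Lib.MP_0f5a55_nt.V.V02
import Pool.Agent.Lib.MP_0f5a55_nt.V.V03
import Pool.Agent.Lib.MP_0f5a55_nt.V.V06
import Pool.Agent.Lib.MP_0f5a55_nt.V.V10
import Pool.Agent.Lib.MP_0f5a55_nt.V.V16
import Pool.Agent.Lib.MP_0f5a55_nt.V.V35
import Pool.Agent.Lib.MP_0f5a55_nt.V.V36
import Pool.Agent.Lib.MP_0f5a55_nt.V.V37
import Pool.Agent.Lib.MP_0f5a55_nt.V.V45
import Pool.Agent.Lib.MP_0f5a55_nt.V.V47

section F_X_F04

open Complex MeasureTheory Set Filter Topology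
open scoped ComplexConjugate

namespace LX

open LZ

/-- the exponential sum over a set of points -/
private noncomputable def SS (r : ℝ) (Y : Finset ℝ) (n : ℕ) : ℂ :=
  ∑ y ∈ Y, (n : ℂ) ^ (-(r * y * I))

private lemma f04_norm_phase (r y : ℝ) {n : ℕ} (hn : 1 ≤ n) : ‖(n : ℂ) ^ (-(r * y * I : ℂ))‖ = 1 := by
  rw [Complex.norm_natCast_cpow_of_pos (by omega)]
  simp

private lemma f04_SS_le (r : ℝ) (Y : Finset ℝ) {n : ℕ} (hn : 1 ≤ n) : ‖SS r Y n‖ ≤ Y.card := by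
  unfold SS
  refine (norm_sum_le _ _).trans ?_
  rw [Finset.sum_congr rfl fun y _ => f04_norm_phase r y hn]
  simp

private lemma f04_split (r1 r2 x y1 y2 : ℝ) {n : ℕ} (hn : 1 ≤ n) :
    (n : ℂ) ^ (-(1/2 + (r1 * y1 + r2 * y2 + x) * I : ℂ)) =
      (n : ℂ) ^ (-(1/2 + x * I : ℂ)) * ((n : ℂ) ^ (-(r1 * y1 * I : ℂ)) *
        (n : ℂ) ^ (-(r2 * y2 * I : ℂ))) := by
  have hn0 : (n : ℂ) ≠ 0 := by exact_mod_cast (by omega : n ≠ 0)
  rw [← Complex.cpow_add _ _ hn0, ← Complex.cpow_add _ _ hn0]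
  congr 1
  ring

private lemma f04_cs (K1 K2 L T M : ℝ) (n1 n2 : ℝ) (hL : 0 ≤ L) (hT : 0 ≤ T) (hM : 0 ≤ M)
    (hK1 : 0 ≤ K1) (hK2 : 0 ≤ K2) (c1 c2 : ℝ) (hc1 : 0 ≤ c1) (hc2 : 0 ≤ c2)
    (h1 : n1 ≤ c1 * T * L) (h2 : n2 ≤ c2 * T * L) (a b : ℝ)
    (ha : a ≤ K1 * L * (T + M) * n1) (hb : b ≤ K2 * L * (T + M) * n2) :
    Real.sqrt a * Real.sqrt b ≤ Real.sqrt (K1 * c1) * Real.sqrt (K2 * c2) * ((T + M) * (T * L ^ 2))
    := by
  have e1 : Real.sqrt a ≤ Real.sqrt (K1 * c1) * (L * Real.sqrt ((T + M) * T)) := by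
    rw [← Real.sqrt_sq hL, ← Real.sqrt_mul (by positivity), ← Real.sqrt_mul (by positivity)]
    apply Real.sqrt_le_sqrt
    refine ha.trans ?_
    calc K1 * L * (T + M) * n1 ≤ K1 * L * (T + M) * (c1 * T * L) :=
          mul_le_mul_of_nonneg_left h1 (by positivity)
      _ = K1 * c1 * (L ^ 2 * ((T + M) * T)) := by ring
  have e2 : Real.sqrt b ≤ Real.sqrt (K2 * c2) * (L * Real.sqrt ((T + M) * T)) := by
    rw [← Real.sqrt_sq hL, ← Real.sqrt_mul (by positivity), ← Real.sqrt_mul (by positivity)]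
    apply Real.sqrt_le_sqrt
    refine hb.trans ?_
    calc K2 * L * (T + M) * n2 ≤ K2 * L * (T + M) * (c2 * T * L) :=
          mul_le_mul_of_nonneg_left h2 (by positivity)
      _ = K2 * c2 * (L ^ 2 * ((T + M) * T)) := by ring
  have e3 : Real.sqrt ((T + M) * T) * Real.sqrt ((T + M) * T) = (T + M) * T :=
    Real.mul_self_sqrt (by positivity)
  calc Real.sqrt a * Real.sqrt b ≤ (Real.sqrt (K1 * c1) * (L * Real.sqrt ((T + M) * T))) *
        (Real.sqrt (K2 * c2) * (L * Real.sqrt ((T + M) * T))) :=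
        mul_le_mul e1 e2 (Real.sqrt_nonneg _) (by positivity)
    _ = Real.sqrt (K1 * c1) * Real.sqrt (K2 * c2) * (L ^ 2 *
        (Real.sqrt ((T + M) * T) * Real.sqrt ((T + M) * T))) := by ring
    _ = _ := by rw [e3]; ring

/-- the dyadic block -/
private lemma f04_block (r1 r2 d : ℝ) (h1 : r1 ≠ 0) (h2 : r2 ≠ 0) (hd : 0 < d) :
    ∃ K T0 : ℝ, 0 < K ∧ 2 ≤ T0 ∧ ∀ T : ℝ, T0 ≤ T → ∀ Y1 Y2 : Finset ℝ, (∀ y ∈ Y1, |y| ≤ T) →
      (∀ y ∈ Y2, |y| ≤ T) → LZ.Sep (d / Real.log T) Y1 → LZ.Sep (d / Real.log T) Y2 →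
      (Y1.card : ℝ) ≤ K * T * Real.log T ∧ (Y2.card : ℝ) ≤ K * T * Real.log T ∧
      ∀ M : ℕ, 1 ≤ M → (M : ℝ) ≤ T ^ 2 → ∀ c : ℕ → ℝ, (∀ n, |c n| ≤ n.divisors.card) →
        ∑ n ∈ Finset.Ioc M (2 * M), |c n| * (n : ℝ) ^ (-(1/2) : ℝ) *
          (‖SS r1 Y1 n‖ * ‖SS r2 Y2 n‖) ≤
          K * (M : ℝ) ^ (-(3/8) : ℝ) * ((T + M) * (T * Real.log T ^ 2)) := by
  obtain ⟨Ca, Ta, hCa, hTa, ha⟩ := dual_sieve r1 d h1 hd
  obtain ⟨Cb, Tb, hCb, hTb, hb⟩ := dual_sieve r2 d h2 hd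
  obtain ⟨Cc, Tc, hCc, hTc, hc⟩ := sep_count r1 d h1 hd
  obtain ⟨Ce, Te, hCe, hTe, he⟩ := sep_count r2 d h2 hd
  obtain ⟨Cd, hCd, hdiv⟩ := div_bound
  set K : ℝ := Cc + Ce + Cd * (Real.sqrt (Ca * Cc) * Real.sqrt (Cb * Ce)) with hK
  have hKs : 0 ≤ Cd * (Real.sqrt (Ca * Cc) * Real.sqrt (Cb * Ce)) := by positivity
  refine ⟨K, max (max Ta Tb) (max Tc Te), by positivity,
    hTa.trans ((le_max_left _ _).trans (le_max_left _ _)), ?_⟩
  intro T hT Y1 Y2 hY1 hY2 hs1 hs2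
  have hT1 : Ta ≤ T := (le_max_left _ _).trans ((le_max_left _ _).trans hT)
  have hT2 : Tb ≤ T := (le_max_right _ _).trans ((le_max_left _ _).trans hT)
  have hT3 : Tc ≤ T := (le_max_left _ _).trans ((le_max_right _ _).trans hT)
  have hT4 : Te ≤ T := (le_max_right _ _).trans ((le_max_right _ _).trans hT)
  have hT0 : 0 < T := lt_of_lt_of_le (by linarith only [hTa]) hT1
  have hL : 0 ≤ Real.log T := Real.log_nonneg (by linarith only [hTa, hT1])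
  have n1 := (hc T hT3 Y1 hY1 hs1).1
  have n2 := (he T hT4 Y2 hY2 hs2).1
  refine ⟨n1.trans ?_, n2.trans ?_, ?_⟩
  · refine mul_le_mul_of_nonneg_right (mul_le_mul_of_nonneg_right ?_ hT0.le) hL
    rw [hK]
    linarith only [hKs, hCc, hCe]
  · refine mul_le_mul_of_nonneg_right (mul_le_mul_of_nonneg_right ?_ hT0.le) hL
    rw [hK]
    linarith only [hKs, hCc, hCe]
  · intro M hM hMT c hcd
    have s1 := ha T hT1 Y1 hY1 hs1 M hM hMT (fun _ => 1)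
    have s2 := hb T hT2 Y2 hY2 hs2 M hM hMT (fun _ => 1)
    simp only [one_mul, norm_one, one_pow, Finset.sum_const, nsmul_eq_mul, mul_one] at s1 s2
    have hM0 : (0 : ℝ) < M := by exact_mod_cast hM
    have hcoef : ∀ n ∈ Finset.Ioc M (2 * M), |c n| * (n : ℝ) ^ (-(1/2) : ℝ) ≤
        Cd * (M : ℝ) ^ (-(3/8) : ℝ) := by
      intro n hn
      rw [Finset.mem_Ioc] at hn
      have hn1 : 1 ≤ n := by omega
      have hn0 : (0 : ℝ) < n := by exact_mod_cast hn1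
      have hMn : (M : ℝ) ≤ n := by exact_mod_cast hn.1.le
      calc |c n| * (n : ℝ) ^ (-(1/2) : ℝ) ≤ (Cd * (n : ℝ) ^ (1/8 : ℝ)) * (n : ℝ) ^ (-(1/2) : ℝ) :=
            mul_le_mul_of_nonneg_right ((hcd n).trans (hdiv n hn1)) (Real.rpow_nonneg hn0.le _)
        _ = Cd * (n : ℝ) ^ (-(3/8) : ℝ) := by
            rw [mul_assoc, ← Real.rpow_add hn0]
            norm_num
        _ ≤ Cd * (M : ℝ) ^ (-(3/8) : ℝ) :=
            mul_le_mul_of_nonneg_left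
              (Real.rpow_le_rpow_of_nonpos hM0 hMn (by norm_num)) hCd.le
    have hstep1 : ∑ n ∈ Finset.Ioc M (2 * M), |c n| * (n : ℝ) ^ (-(1/2) : ℝ) *
          (‖SS r1 Y1 n‖ * ‖SS r2 Y2 n‖) ≤
        Cd * (M : ℝ) ^ (-(3/8) : ℝ) *
          ∑ n ∈ Finset.Ioc M (2 * M), ‖SS r1 Y1 n‖ * ‖SS r2 Y2 n‖ := by
      rw [Finset.mul_sum]
      exact Finset.sum_le_sum fun n hn => mul_le_mul_of_nonneg_right (hcoef n hn)
        (mul_nonneg (norm_nonneg _) (norm_nonneg _))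
    have hstep2 := Real.sum_mul_le_sqrt_mul_sqrt (Finset.Ioc M (2 * M))
      (fun n => ‖SS r1 Y1 n‖) (fun n => ‖SS r2 Y2 n‖)
    have hstep3 := f04_cs Ca Cb (Real.log T) T M _ _ hL hT0.le hM0.le hCa.le hCb.le Cc Ce hCc.le
      hCe.le n1 n2 _ _ s1 s2
    have hMr : 0 ≤ (M : ℝ) ^ (-(3/8) : ℝ) := Real.rpow_nonneg hM0.le _
    have hpos : 0 ≤ (T + M) * (T * Real.log T ^ 2) :=
      mul_nonneg (add_nonneg hT0.le hM0.le) (mul_nonneg hT0.le (sq_nonneg _))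
    calc _ ≤ Cd * (M : ℝ) ^ (-(3/8) : ℝ) *
          ∑ n ∈ Finset.Ioc M (2 * M), ‖SS r1 Y1 n‖ * ‖SS r2 Y2 n‖ := hstep1
      _ ≤ Cd * (M : ℝ) ^ (-(3/8) : ℝ) * (Real.sqrt (Ca * Cc) * Real.sqrt (Cb * Ce) *
          ((T + M) * (T * Real.log T ^ 2))) :=
          mul_le_mul_of_nonneg_left (hstep2.trans hstep3) (mul_nonneg hCd.le hMr)
      _ = (Cd * (Real.sqrt (Ca * Cc) * Real.sqrt (Cb * Ce))) * ((M : ℝ) ^ (-(3/8) : ℝ) *
          ((T + M) * (T * Real.log T ^ 2))) := by ring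
      _ ≤ K * ((M : ℝ) ^ (-(3/8) : ℝ) * ((T + M) * (T * Real.log T ^ 2))) :=
          mul_le_mul_of_nonneg_right (by rw [hK]; linarith only [hCc, hCe]) (mul_nonneg hMr hpos)
      _ = _ := by ring

private lemma f04_ratio : (2 : ℝ) ^ (-(3/8) : ℝ) ≤ 4 / 5 := by
  have h1 : ((2 : ℝ) ^ (-(3/8) : ℝ)) ^ 8 ≤ (4 / 5) ^ 8 := by
    rw [← Real.rpow_natCast, ← Real.rpow_mul (by norm_num)]
    have h2 : (-(3/8) : ℝ) * ((8 : ℕ) : ℝ) = -3 := by norm_num
    rw [h2, Real.rpow_neg (by norm_num)]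
    have h3 : (2 : ℝ) ^ (3 : ℝ) = 8 := by
      have := Real.rpow_natCast (2 : ℝ) 3
      norm_num at this ⊢
    rw [h3]
    norm_num
  exact le_of_pow_le_pow_left₀ (by norm_num) (by norm_num) h1

private lemma f04_geom (r : ℝ) (h0 : 0 ≤ r) (h1 : r ≤ 4 / 5) (n : ℕ) :
    ∑ i ∈ Finset.range n, r ^ i ≤ 5 := by
  have h2 := mul_neg_geom_sum r n
  have h3 : 0 ≤ r ^ n := pow_nonneg h0 n
  have h4 : 0 ≤ ∑ i ∈ Finset.range n, r ^ i := Finset.sum_nonneg fun i _ => pow_nonneg h0 i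
  have h5 := mul_le_mul_of_nonneg_right h1 h4
  generalize ∑ i ∈ Finset.range n, r ^ i = S at *
  linarith only [h2, h3, h4, h5]

/-- sum over the dyadic blocks -/
private lemma f04_dyadic (W : ℕ → ℝ) (hW : ∀ n, 0 ≤ W n) (X0 Z : ℕ) (hX0 : 1 ≤ X0) (A B : ℝ)
    (hA : 0 ≤ A) (hB : 0 ≤ B) (I : ℕ) (hI : Z ≤ X0 * 2 ^ I)
    (hblock : ∀ i < I, ∑ n ∈ Finset.Ioc (X0 * 2 ^ i) (2 * (X0 * 2 ^ i)), W n ≤
      A * ((X0 * 2 ^ i : ℕ) : ℝ) ^ (-(3/8) : ℝ) + B) :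
    ∑ n ∈ Finset.Ioc X0 Z, W n ≤ 5 * A * (X0 : ℝ) ^ (-(3/8) : ℝ) + I * B := by
  have hX00 : (0 : ℝ) < X0 := by exact_mod_cast hX0
  have hsum : ∀ J : ℕ, ∑ n ∈ Finset.Ioc X0 (X0 * 2 ^ J), W n =
      ∑ i ∈ Finset.range J, ∑ n ∈ Finset.Ioc (X0 * 2 ^ i) (2 * (X0 * 2 ^ i)), W n := by
    intro J
    induction J with
    | zero => simp
    | succ J ih =>
      rw [Finset.sum_range_succ, ← ih]
      have h1 : X0 ≤ X0 * 2 ^ J := Nat.le_mul_of_pos_right _ (by positivity)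
      have h2 : X0 * 2 ^ J ≤ X0 * 2 ^ (J + 1) := Nat.mul_le_mul_left _ (Nat.pow_le_pow_right
        (by norm_num) (by omega))
      have h3 : X0 * 2 ^ (J + 1) = 2 * (X0 * 2 ^ J) := by ring
      rw [← h3]
      exact (Finset.sum_Ioc_consecutive W h1 h2).symm
  have h4 : ∑ n ∈ Finset.Ioc X0 Z, W n ≤ ∑ n ∈ Finset.Ioc X0 (X0 * 2 ^ I), W n :=
    Finset.sum_le_sum_of_subset_of_nonneg (Finset.Ioc_subset_Ioc_right hI) fun n _ _ => hW n
  refine h4.trans ?_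
  rw [hsum]
  have h5 : ∑ i ∈ Finset.range I, ∑ n ∈ Finset.Ioc (X0 * 2 ^ i) (2 * (X0 * 2 ^ i)), W n ≤
      ∑ i ∈ Finset.range I, (A * (X0 : ℝ) ^ (-(3/8) : ℝ) * ((2 : ℝ) ^ (-(3/8) : ℝ)) ^ i + B) := by
    refine Finset.sum_le_sum fun i hi => (hblock i (Finset.mem_range.mp hi)).trans (le_of_eq ?_)
    push_cast
    rw [Real.mul_rpow hX00.le (by positivity), ← Real.rpow_natCast 2 i,
      ← Real.rpow_mul (by norm_num), mul_comm (i : ℝ), Real.rpow_mul (by norm_num),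
      Real.rpow_natCast]
    ring
  refine h5.trans ?_
  rw [Finset.sum_add_distrib, Finset.sum_const, Finset.card_range, nsmul_eq_mul,
    ← Finset.mul_sum]
  have h6 := f04_geom ((2 : ℝ) ^ (-(3/8) : ℝ)) (by positivity) f04_ratio I
  have h7 : 0 ≤ A * (X0 : ℝ) ^ (-(3/8) : ℝ) := mul_nonneg hA (Real.rpow_nonneg hX00.le _)
  have h8 := mul_le_mul_of_nonneg_left h6 h7
  refine add_le_add (h8.trans (le_of_eq ?_)) le_rfl
  ring

private lemma f04_event (κ K δ : ℝ) (hκ : 0 < κ) (hK : 0 < K) (hδ : 0 < δ) (X0 : ℕ) :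
    ∀ᶠ T : ℝ in atTop, 2 ≤ T ∧ 1 ≤ Real.log T ∧ K * (4 * Real.log T * T ^ (19/20 : ℝ)) ≤ κ * T ∧
      ∀ n ∈ Finset.Ioc 1 X0, |cN ⌊T ^ (3/2 : ℝ)⌋₊ (Real.log T / 1500) n| ≤ δ := by
  have e1 := eventually_ge_atTop (2 : ℝ)
  have e2 := Real.tendsto_log_atTop.eventually_ge_atTop (1 : ℝ)
  have e3 : ∀ᶠ T : ℝ in atTop, K * (4 * Real.log T * T ^ (19/20 : ℝ)) ≤ κ * T := by
    have h := (isLittleO_log_rpow_atTop (show (0 : ℝ) < 1 / 20 by norm_num)).bound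
      (show (0 : ℝ) < κ / (4 * K) by positivity)
    filter_upwards [h, e1, e2] with T h1 h2 h3
    have hT0 : 0 < T := by linarith
    rw [Real.norm_of_nonneg (by linarith), Real.norm_of_nonneg (by positivity)] at h1
    have h4 : T = T ^ (1 / 20 : ℝ) * T ^ (19/20 : ℝ) := by
      rw [← Real.rpow_add hT0]
      norm_num
    have h5 : 0 < T ^ (19/20 : ℝ) := by positivity
    calc K * (4 * Real.log T * T ^ (19/20 : ℝ)) = (4 * K) * Real.log T * T ^ (19/20 : ℝ) := by ring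
      _ ≤ (4 * K) * (κ / (4 * K) * T ^ (1 / 20 : ℝ)) * T ^ (19/20 : ℝ) :=
          mul_le_mul_of_nonneg_right (mul_le_mul_of_nonneg_left h1 (by positivity)) h5.le
      _ = κ * (T ^ (1 / 20 : ℝ) * T ^ (19/20 : ℝ)) := by field_simp
      _ = κ * T := by rw [← h4]
  have e4 : ∀ᶠ T : ℝ in atTop, ∀ n ∈ Finset.Ioc 1 X0,
      |cN ⌊T ^ (3/2 : ℝ)⌋₊ (Real.log T / 1500) n| ≤ δ := by
    rw [Filter.eventually_all_finset]
    intro n hn
    rw [Finset.mem_Ioc] at hn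
    obtain ⟨l0, hl0, hl⟩ := cN_facts.2.2.1 n (by omega) δ hδ
    have f1 := Real.tendsto_log_atTop.eventually_ge_atTop (1500 * l0)
    have f2 := (tendsto_rpow_atTop (show (0 : ℝ) < 3 / 2 by norm_num)).eventually_ge_atTop (n : ℝ)
    filter_upwards [f1, f2] with T g1 g2
    exact hl _ (by linarith) _ (Nat.le_floor g2)
  filter_upwards [e1, e2, e3, e4] with T h1 h2 h3 h4
  exact ⟨h1, h2, h3, h4⟩

/-- the exact formula for the double sum -/
private lemma f04_exact {q : ℕ} [NeZero q] (χ : DirichletCharacter ℂ q) (r1 r2 x l : ℝ) (N : ℕ) (hN : 1 ≤ N) (hl : 0 < l) (Y1 Y2 : Finset ℝ) :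
    ∑ y1 ∈ Y1, ∑ y2 ∈ Y2, ((∑ n ∈ Finset.Icc 1 N,
      χ (n : ZMod q) * (n : ℂ) ^ (-(1/2 + (r1 * y1 + r2 * y2 + x) * I : ℂ))) *
      Mol χ 1 l (1/2 + (r1 * y1 + r2 * y2 + x) * I)) - (Y1.card : ℂ) * Y2.card =
      ∑ n ∈ Finset.Ioc 1 (N * ⌊Real.exp l⌋₊), χ (n : ZMod q) * (cN N l n : ℂ) * (n : ℂ) ^ (-(1/2 + x * I : ℂ)) *
        (SS r1 Y1 n * SS r2 Y2 n) := by
  have hz : 1 ≤ ⌊Real.exp l⌋₊ := Nat.le_floor (by
    push_cast
    exact Real.one_le_exp hl.le)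
  have h1 : ∑ y1 ∈ Y1, ∑ y2 ∈ Y2, ((∑ n ∈ Finset.Icc 1 N,
      χ (n : ZMod q) * (n : ℂ) ^ (-(1/2 + (r1 * y1 + r2 * y2 + x) * I : ℂ))) *
      Mol χ 1 l (1/2 + (r1 * y1 + r2 * y2 + x) * I)) =
      ∑ n ∈ Finset.Icc 1 (N * ⌊Real.exp l⌋₊), χ (n : ZMod q) * (cN N l n : ℂ) * (n : ℂ) ^ (-(1/2 + x * I : ℂ)) *
        (SS r1 Y1 n * SS r2 Y2 n) := by
    have h2 : ∀ y1 y2 : ℝ, (∑ n ∈ Finset.Icc 1 N,
      χ (n : ZMod q) * (n : ℂ) ^ (-(1/2 + (r1 * y1 + r2 * y2 + x) * I : ℂ))) *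
      Mol χ 1 l (1/2 + (r1 * y1 + r2 * y2 + x) * I) =
      ∑ n ∈ Finset.Icc 1 (N * ⌊Real.exp l⌋₊), χ (n : ZMod q) * (cN N l n : ℂ) *
        (n : ℂ) ^ (-(1/2 + (r1 * y1 + r2 * y2 + x) * I : ℂ)) := fun y1 y2 =>
      F02_prod χ N l _ hl
    simp_rw [h2]
    rw [Finset.sum_congr rfl fun y1 _ => Finset.sum_comm, Finset.sum_comm]
    refine Finset.sum_congr rfl fun n hn => ?_
    have hn1 : 1 ≤ n := (Finset.mem_Icc.mp hn).1
    unfold SS
    rw [Finset.sum_mul_sum, Finset.mul_sum]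
    refine Finset.sum_congr rfl fun y1 _ => ?_
    rw [Finset.mul_sum]
    refine Finset.sum_congr rfl fun y2 _ => ?_
    rw [f04_split r1 r2 x y1 y2 hn1]
    ring
  rw [h1, ← Finset.sum_Ioc_add_eq_sum_Icc (Nat.one_le_iff_ne_zero.mpr
    (Nat.mul_ne_zero (by omega) (by omega)))]
  have h3 : SS r1 Y1 1 = Y1.card := by
    unfold SS
    simp
  have h4 : SS r2 Y2 1 = Y2.card := by
    unfold SS
    simp
  rw [cN_facts.1 N l hN hl, h3, h4]
  simp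

private lemma f04_num (I L l2 : ℝ) (h7 : (I - 1) * l2 ≤ 2 * L) (h8 : 0.6931471803 < l2)
    (h10 : 1 ≤ I) (hL : 1 ≤ L) : I ≤ 4 * L := by
  have h1 : (I - 1) * 0.6931471803 ≤ (I - 1) * l2 :=
    mul_le_mul_of_nonneg_left h8.le (sub_nonneg.mpr h10)
  linarith only [h1, h7, hL]

/-- (7.2), polynomial part: N = floor(T^(3/2)), l = log T/1500. n = 1 gives |Y1||Y2|; 2 <= n <= X0: coefficients -> 0;
n > X0: dyadic blocks Ioc M (2M), M = X0 2^i <= T^2, Cauchy-Schwarz and dual_sieve (b y = exp(..) of modulus 1). -/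
theorem poly_sum {q : ℕ} [NeZero q] (χ : DirichletCharacter ℂ q) (r1 r2 d : ℝ) (h1 : r1 ≠ 0) (h2 : r2 ≠ 0) (hd : 0 < d) : ∀ κ : ℝ, 0 < κ → ∃ T0 : ℝ, 2 ≤ T0 ∧
    ∀ T : ℝ, T0 ≤ T → ∀ Y1 Y2 : Finset ℝ, (∀ y ∈ Y1, |y| ≤ T) → (∀ y ∈ Y2, |y| ≤ T) → LZ.Sep (d / Real.log T) Y1 →
    LZ.Sep (d / Real.log T) Y2 → ∀ x : ℝ,
    ‖∑ y1 ∈ Y1, ∑ y2 ∈ Y2, ((∑ n ∈ Finset.Icc 1 ⌊T ^ (3/2 : ℝ)⌋₊,
      χ (n : ZMod q) * (n : ℂ) ^ (-(1/2 + (r1 * y1 + r2 * y2 + x) * I))) *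
      Mol χ 1 (Real.log T / 1500) (1/2 + (r1 * y1 + r2 * y2 + x) * I)) - (Y1.card : ℂ) * Y2.card‖ ≤
      κ * (T * Real.log T) ^ 2 := by
  classical
  intro κ hκ
  obtain ⟨K, T1, hK, hT1, hblk⟩ := f04_block r1 r2 d h1 h2 hd
  -- choice of X0
  have hx := ((tendsto_rpow_neg_atTop (show (0 : ℝ) < 3 / 8 by norm_num)).comp
    tendsto_natCast_atTop_atTop).eventually (gt_mem_nhds (show (0 : ℝ) < κ / (15 * K) by positivity))
  obtain ⟨X0, hX0, hX1⟩ := (hx.and (eventually_ge_atTop 1)).exists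
  simp only [Function.comp_apply] at hX0
  set δ : ℝ := κ / (3 * (X0 + 1) * K ^ 2) with hδdef
  have hδ : 0 < δ := by positivity
  obtain ⟨T2, hT2⟩ := eventually_atTop.mp (f04_event (κ / 3) K δ (by positivity) hK hδ X0)
  refine ⟨max T1 T2, hT1.trans (le_max_left _ _), ?_⟩
  intro T hT Y1 Y2 hY1 hY2 hs1 hs2 x
  obtain ⟨hTt, hL1, hTK, hcsmall⟩ := hT2 T ((le_max_right _ _).trans hT)
  obtain ⟨hn1, hn2, hM⟩ := hblk T ((le_max_left _ _).trans hT) Y1 Y2 hY1 hY2 hs1 hs2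
  have hT0 : 0 < T := by linarith only [hTt]
  set L := Real.log T with hL
  set N := ⌊T ^ (3/2 : ℝ)⌋₊ with hN
  have hl : 0 < L / 1500 := by linarith only [hL1]
  have hN1 : 1 ≤ N := Nat.le_floor (by
    push_cast
    exact Real.one_le_rpow (by linarith only [hTt]) (by norm_num))
  rw [f04_exact χ r1 r2 x (L / 1500) N hN1 hl Y1 Y2]
  set z := ⌊Real.exp (L / 1500)⌋₊ with hz
  set W : ℕ → ℝ := fun n => |cN N (L / 1500) n| * (n : ℝ) ^ (-(1/2) : ℝ) *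
    (‖SS r1 Y1 n‖ * ‖SS r2 Y2 n‖) with hW
  have hW0 : ∀ n, 0 ≤ W n := fun n => mul_nonneg (mul_nonneg (abs_nonneg _)
    (Real.rpow_nonneg (Nat.cast_nonneg _) _)) (mul_nonneg (norm_nonneg _) (norm_nonneg _))
  have hnorm : ‖∑ n ∈ Finset.Ioc 1 (N * z), χ (n : ZMod q) * (cN N (L / 1500) n : ℂ) *
      (n : ℂ) ^ (-(1/2 + x * I : ℂ)) * (SS r1 Y1 n * SS r2 Y2 n)‖ ≤
      ∑ n ∈ Finset.Ioc 1 (N * z), W n := by
    refine (norm_sum_le _ _).trans (Finset.sum_le_sum fun n hn => ?_)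
    rw [Finset.mem_Ioc] at hn
    rw [norm_mul, norm_mul, norm_mul, norm_mul, Complex.norm_real, Real.norm_eq_abs,
      Complex.norm_natCast_cpow_of_pos (by omega)]
    have h3 : (-(1/2 + x * I : ℂ)).re = (-(1/2) : ℝ) := by simp
    rw [h3]
    have h4 : ‖χ (n : ZMod q)‖ * |cN N (L / 1500) n| ≤ |cN N (L / 1500) n| :=
      mul_le_of_le_one_left (abs_nonneg _) (norm_char_le χ _)
    exact mul_le_mul_of_nonneg_right (mul_le_mul_of_nonneg_right h4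
      (Real.rpow_nonneg (Nat.cast_nonneg _) _)) (mul_nonneg (norm_nonneg _) (norm_nonneg _))
  refine hnorm.trans ?_
  -- the range of the sum
  have hNle : (N : ℝ) ≤ T ^ (3/2 : ℝ) := Nat.floor_le (by positivity)
  have hzle : (z : ℝ) ≤ T ^ (1/1500 : ℝ) := by
    have h3 : (z : ℝ) ≤ Real.exp (L / 1500) := Nat.floor_le (Real.exp_pos _).le
    rw [Real.rpow_def_of_pos hT0]
    have h4 : Real.log T * (1 / 1500) = L / 1500 := by ring
    rw [h4]
    exact h3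
  have hNz : ((N * z : ℕ) : ℝ) ≤ T ^ (38/25 : ℝ) := by
    push_cast
    calc (N : ℝ) * z ≤ T ^ (3/2 : ℝ) * T ^ (1/1500 : ℝ) :=
          mul_le_mul hNle hzle (Nat.cast_nonneg _) (by positivity)
      _ = T ^ (3/2 + 1/1500 : ℝ) := (Real.rpow_add hT0 _ _).symm
      _ ≤ T ^ (38/25 : ℝ) := Real.rpow_le_rpow_of_exponent_le (by linarith only [hTt]) (by norm_num)
  have hNz2 : ((N * z : ℕ) : ℝ) ≤ T ^ 2 := by
    refine hNz.trans ?_
    rw [← Real.rpow_natCast T 2]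
    exact Real.rpow_le_rpow_of_exponent_le (by linarith only [hTt]) (by norm_num)
  -- number of blocks
  have hexI : ∃ I : ℕ, N * z ≤ X0 * 2 ^ I := by
    refine ⟨N * z, ?_⟩
    calc N * z ≤ 2 ^ (N * z) := Nat.lt_two_pow_self.le
      _ ≤ X0 * 2 ^ (N * z) := Nat.le_mul_of_pos_left _ (by omega)
  set I0 := Nat.find hexI with hI0
  have hI0spec : N * z ≤ X0 * 2 ^ I0 := Nat.find_spec hexI
  have hI0min : ∀ i < I0, X0 * 2 ^ i < N * z := fun i hi => by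
    have := Nat.find_min hexI hi
    omega
  have hI0le : (I0 : ℝ) ≤ 4 * L := by
    rcases Nat.eq_zero_or_pos I0 with h0 | hpos
    · rw [h0]
      push_cast
      linarith only [hL1]
    · have h3 := hI0min (I0 - 1) (by omega)
      have h4 : 2 ^ (I0 - 1) ≤ X0 * 2 ^ (I0 - 1) := Nat.le_mul_of_pos_left _ (by omega)
      have h5 : ((2 : ℝ)) ^ (I0 - 1) ≤ T ^ 2 := by
        have h6 : ((2 ^ (I0 - 1) : ℕ) : ℝ) ≤ ((N * z : ℕ) : ℝ) := by
          exact_mod_cast h4.trans h3.le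
        push_cast at h6 hNz2
        exact h6.trans hNz2
      have h7 := Real.log_le_log (by positivity) h5
      rw [Real.log_pow, Real.log_pow] at h7
      have h8 := Real.log_two_gt_d9
      have h9 : ((I0 - 1 : ℕ) : ℝ) = (I0 : ℝ) - 1 := by
        rw [Nat.cast_sub hpos]
        simp
      rw [h9] at h7
      push_cast at h7
      have h10 : (1 : ℝ) ≤ I0 := by exact_mod_cast hpos
      exact f04_num _ _ _ h7 h8 h10 hL1
  -- blocks
  have hTL : 0 ≤ T * L ^ 2 := by positivity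
  have hdy := f04_dyadic W hW0 X0 (N * z) hX1 (K * (T * (T * L ^ 2)))
    (K * (T ^ (19/20 : ℝ) * (T * L ^ 2))) (by positivity) (by positivity) I0 hI0spec (by
    intro i hi
    have hM1 : 1 ≤ X0 * 2 ^ i := Nat.one_le_iff_ne_zero.mpr (by positivity)
    have h3 := hI0min i hi
    have h4 : ((X0 * 2 ^ i : ℕ) : ℝ) ≤ ((N * z : ℕ) : ℝ) := by exact_mod_cast h3.le
    have hb := hM (X0 * 2 ^ i) hM1 (h4.trans hNz2) (fun n => cN N (L / 1500) n)
      (fun n => cN_facts.2.1 N (L / 1500) n hl)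
    refine hb.trans ?_
    have hMpos : (0 : ℝ) < ((X0 * 2 ^ i : ℕ) : ℝ) := by exact_mod_cast hM1
    set M := ((X0 * 2 ^ i : ℕ) : ℝ) with hMdef
    have h5 : M ^ (-(3/8) : ℝ) * M ≤ T ^ (19/20 : ℝ) := by
      have h6 : M ^ (-(3/8) : ℝ) * M = M ^ (5/8 : ℝ) := by
        conv_lhs => rw [← Real.rpow_one M]
        rw [← Real.rpow_mul hMpos.le, ← Real.rpow_add hMpos]
        norm_num
      rw [h6]
      calc M ^ (5/8 : ℝ) ≤ (T ^ (38/25 : ℝ)) ^ (5/8 : ℝ) :=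
            Real.rpow_le_rpow hMpos.le (h4.trans hNz) (by norm_num)
        _ = T ^ (19/20 : ℝ) := by
            rw [← Real.rpow_mul hT0.le]
            norm_num
    have h7 : K * M ^ (-(3/8) : ℝ) * ((T + M) * (T * L ^ 2)) =
        K * (T * (T * L ^ 2)) * M ^ (-(3/8) : ℝ) +
          K * ((M ^ (-(3/8) : ℝ) * M) * (T * L ^ 2)) := by ring
    rw [h7]
    have h8 := mul_le_mul_of_nonneg_left (mul_le_mul_of_nonneg_right h5 hTL) hK.le
    exact add_le_add le_rfl h8)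
  -- small n
  have hKTL : 0 ≤ K * T * L := mul_nonneg (mul_nonneg hK.le hT0.le) (by linarith only [hL1])
  have hsmall : ∑ n ∈ Finset.Ioc 1 X0, W n ≤ κ / 3 * (T * L) ^ 2 := by
    have h3 : ∀ n ∈ Finset.Ioc 1 X0, W n ≤ δ * (K * T * L * (K * T * L)) := by
      intro n hn
      have hn' := Finset.mem_Ioc.mp hn
      have h4 := hcsmall n hn
      have h5 : (n : ℝ) ^ (-(1/2) : ℝ) ≤ 1 :=
        Real.rpow_le_one_of_one_le_of_nonpos (by exact_mod_cast hn'.1.le) (by norm_num)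
      have h6 : ‖SS r1 Y1 n‖ ≤ K * T * L := (f04_SS_le r1 Y1 (by omega)).trans hn1
      have h7 : ‖SS r2 Y2 n‖ ≤ K * T * L := (f04_SS_le r2 Y2 (by omega)).trans hn2
      have h8 : |cN N (L / 1500) n| * (n : ℝ) ^ (-(1/2) : ℝ) ≤ δ := by
        calc |cN N (L / 1500) n| * (n : ℝ) ^ (-(1/2) : ℝ) ≤ δ * 1 :=
              mul_le_mul h4 h5 (Real.rpow_nonneg (Nat.cast_nonneg _) _) hδ.le
          _ = δ := mul_one _
      exact mul_le_mul h8 (mul_le_mul h6 h7 (norm_nonneg _) hKTL)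
        (mul_nonneg (norm_nonneg _) (norm_nonneg _)) hδ.le
    refine (Finset.sum_le_sum h3).trans ?_
    rw [Finset.sum_const, nsmul_eq_mul, Nat.card_Ioc]
    have h9 : ((X0 - 1 : ℕ) : ℝ) ≤ X0 + 1 := by
      have : X0 - 1 ≤ X0 + 1 := by omega
      exact_mod_cast this
    calc ((X0 - 1 : ℕ) : ℝ) * (δ * (K * T * L * (K * T * L))) ≤
          (X0 + 1) * (δ * (K * T * L * (K * T * L))) :=
          mul_le_mul_of_nonneg_right h9 (mul_nonneg hδ.le (mul_nonneg hKTL hKTL))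
      _ = κ / 3 * (T * L) ^ 2 := by
          rw [hδdef]
          field_simp
  -- splitting
  have hsplit : ∑ n ∈ Finset.Ioc 1 (N * z), W n ≤
      ∑ n ∈ Finset.Ioc 1 X0, W n + ∑ n ∈ Finset.Ioc X0 (N * z), W n := by
    rcases le_total X0 (N * z) with h3 | h3
    · rw [Finset.sum_Ioc_consecutive W hX1 h3]
    · have h4 : ∑ n ∈ Finset.Ioc 1 (N * z), W n ≤ ∑ n ∈ Finset.Ioc 1 X0, W n :=
        Finset.sum_le_sum_of_subset_of_nonneg (Finset.Ioc_subset_Ioc_right h3) fun n _ _ => hW0 n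
      have h5 : 0 ≤ ∑ n ∈ Finset.Ioc X0 (N * z), W n := Finset.sum_nonneg fun n _ => hW0 n
      exact h4.trans (le_add_of_nonneg_right h5)
  refine hsplit.trans ?_
  have hmain1 : 5 * (K * (T * (T * L ^ 2))) * (X0 : ℝ) ^ (-(3/8) : ℝ) ≤ κ / 3 * (T * L) ^ 2 := by
    have h3 : 5 * K * (X0 : ℝ) ^ (-(3/8) : ℝ) ≤ κ / 3 := by
      have h4 : 5 * K * (X0 : ℝ) ^ (-(3/8) : ℝ) ≤ 5 * K * (κ / (15 * K)) :=
        mul_le_mul_of_nonneg_left hX0.le (by positivity)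
      refine h4.trans (le_of_eq ?_)
      field_simp
      norm_num
    calc 5 * (K * (T * (T * L ^ 2))) * (X0 : ℝ) ^ (-(3/8) : ℝ) =
          (5 * K * (X0 : ℝ) ^ (-(3/8) : ℝ)) * (T * L) ^ 2 := by ring
      _ ≤ κ / 3 * (T * L) ^ 2 := mul_le_mul_of_nonneg_right h3 (by positivity)
  have hmain2 : (I0 : ℝ) * (K * (T ^ (19/20 : ℝ) * (T * L ^ 2))) ≤ κ / 3 * (T * L) ^ 2 := by
    calc (I0 : ℝ) * (K * (T ^ (19/20 : ℝ) * (T * L ^ 2))) ≤
          (4 * L) * (K * (T ^ (19/20 : ℝ) * (T * L ^ 2))) :=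
          mul_le_mul_of_nonneg_right hI0le (by positivity)
      _ = (K * (4 * L * T ^ (19/20 : ℝ))) * (T * L ^ 2) := by ring
      _ ≤ (κ / 3 * T) * (T * L ^ 2) := mul_le_mul_of_nonneg_right hTK hTL
      _ = κ / 3 * (T * L) ^ 2 := by ring
  have hfin := add_le_add hsmall (hdy.trans (add_le_add hmain1 hmain2))
  refine hfin.trans (le_of_eq ?_)
  ring

end LX

end F_X_F04

section F_G01

open Complex MeasureTheory Set Filter Topology
open scoped ComplexConjugate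

namespace LZ

/-- zeros in a disc and the value at the centre -/
lemma G01_bl (R r M : ℝ) (c : ℂ) (hr : 0 < r) (hrR : r < R) : ∀ (A : Finset ℂ) (f : ℂ → ℂ),
    DifferentiableOn ℂ f (Metric.closedBall c R) → (∀ z : ℂ, ‖z - c‖ = R → ‖f z‖ ≤ M) →
    (∀ a ∈ A, f a = 0 ∧ ‖a - c‖ ≤ r) → ‖f c‖ ≤ M * (r / R) ^ A.card := by
  classical
  have hR : 0 < R := hr.trans hrR
  intro A
  induction A using Finset.induction_on with
  | empty =>
    intro f hf hM _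
    rw [Finset.card_empty, pow_zero, mul_one]
    have hd : DiffContOnCl ℂ f (Metric.ball c R) := by
      apply DifferentiableOn.diffContOnCl
      rw [closure_ball c hR.ne']
      exact hf
    refine Complex.norm_le_of_forall_mem_frontier_norm_le Metric.isBounded_ball hd ?_
      (subset_closure (Metric.mem_ball_self hR))
    intro z hz
    rw [frontier_ball c hR.ne', mem_sphere_iff_norm] at hz
    exact hM z hz
  | insert a A ha ih =>
    intro f hf hM hA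
    obtain ⟨hfa, har⟩ := hA a (Finset.mem_insert_self a A)
    have hM0 : 0 ≤ M := by
      have h1 := hM (c + R) (by simp [abs_of_pos hR])
      exact (norm_nonneg _).trans h1
    by_cases hca : c = a
    · rw [hca, hfa, norm_zero]
      positivity
    set g : ℂ → ℂ := fun z => dslope f a z * (((R : ℂ) ^ 2 - conj (a - c) * (z - c)) / R) with hg
    have hgd : DifferentiableOn ℂ g (Metric.closedBall c R) := by
      apply DifferentiableOn.mul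
      · rw [Complex.differentiableOn_dslope]
        · exact hf
        · apply mem_of_superset _ Metric.ball_subset_closedBall
          apply Metric.isOpen_ball.mem_nhds
          rw [Metric.mem_ball, dist_eq_norm]
          linarith
      · fun_prop
    have hgM : ∀ z : ℂ, ‖z - c‖ = R → ‖g z‖ ≤ M := by
      intro z hz
      have hza : z ≠ a := by
        rintro rfl
        linarith
      have hza0 : z - a ≠ 0 := sub_ne_zero.mpr hza
      have e1 : (R : ℂ) ^ 2 - conj (a - c) * (z - c) = (z - c) * conj (z - a) := by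
        have e2 : (R : ℂ) ^ 2 = (z - c) * conj (z - c) := by
          rw [Complex.mul_conj, Complex.normSq_eq_norm_sq, hz]
          push_cast
          rfl
        rw [e2]
        simp only [map_sub]
        ring
      have e3 : ‖g z‖ = ‖f z‖ := by
        rw [hg]
        simp only
        rw [norm_mul, dslope_of_ne _ hza, e1, norm_div, norm_mul, hz, slope_def_field, hfa, sub_zero,
          norm_div, RCLike.norm_conj, Complex.norm_real, Real.norm_of_nonneg hR.le]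
        have : ‖z - a‖ ≠ 0 := norm_ne_zero_iff.mpr hza0
        field_simp
      rw [e3]
      exact hM z hz
    have hgA : ∀ b ∈ A, g b = 0 ∧ ‖b - c‖ ≤ r := by
      intro b hb
      obtain ⟨hfb, hbr⟩ := hA b (Finset.mem_insert_of_mem hb)
      have hba : b ≠ a := by
        rintro rfl
        exact ha hb
      refine ⟨?_, hbr⟩
      rw [hg]
      simp only
      rw [dslope_of_ne _ hba, slope_def_field, hfb, hfa, sub_zero, zero_div, zero_mul]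
    have h1 := ih g hgd hgM hgA
    rw [Finset.card_insert_of_notMem ha]
    have hca0 : ‖c - a‖ ≠ 0 := norm_ne_zero_iff.mpr (sub_ne_zero.mpr hca)
    have e4 : ‖f c‖ = ‖g c‖ * (‖c - a‖ / R) := by
      rw [hg]
      simp only
      rw [dslope_of_ne _ hca, slope_def_field, hfa, sub_zero, sub_self, mul_zero, sub_zero, norm_mul,
        norm_div, norm_div, norm_pow, Complex.norm_real, Real.norm_of_nonneg hR.le]
      field_simp
    rw [e4, pow_succ]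
    have h2 : ‖c - a‖ / R ≤ r / R := by
      rw [norm_sub_rev]
      exact div_le_div_of_nonneg_right har hR.le
    calc ‖g c‖ * (‖c - a‖ / R) ≤ (M * (r / R) ^ A.card) * (r / R) :=
          mul_le_mul h1 h2 (by positivity) (by positivity)
      _ = _ := by ring

/-- growth in the half plane Re s >= 1/8 -/
lemma G01_growth : ∃ C : ℝ, 1 ≤ C ∧ ∀ s : ℂ, 1/8 ≤ s.re →
    ‖riemannZeta₁ s‖ ≤ 1 + C * (‖s - 1‖ * ‖s‖) := by
  set C := ∑' n : ℕ, ((n : ℝ) + 1) ^ (-(1/8 : ℝ) - 1) with hC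
  have hsum := LZX.rpow_summable (show (0:ℝ) < 1/8 by norm_num)
  refine ⟨C, ?_, ?_⟩
  · have := hsum.le_tsum 0 (fun n _ => by positivity)
    simpa [hC] using this
  · intro s hs
    have hC0 : 0 ≤ C := tsum_nonneg (fun n => by positivity)
    by_cases h1 : s = 1
    · rw [h1, riemannZeta₁_one]
      simp
    have hs0 : 0 < s.re := by linarith
    have h2 := LZX.zeta_formula hs0 h1
    rw [riemannZeta_eq_inv_sub_mul h1] at h2
    have h3 : s - 1 ≠ 0 := sub_ne_zero.2 h1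
    rw [← mul_assoc, mul_inv_cancel₀ h3, one_mul] at h2
    rw [h2]
    refine (norm_add_le _ _).trans ?_
    rw [norm_one, mul_comm C]
    gcongr
    rw [hC, ← tsum_mul_left]
    refine tsum_of_norm_bounded (hsum.mul_left _).hasSum ?_
    intro n
    refine (LZX.vt_bound n s (by linarith)).trans ?_
    have : ((n : ℝ) + 1) ^ (-s.re - 1) ≤ ((n : ℝ) + 1) ^ (-(1/8:ℝ) - 1) :=
      Real.rpow_le_rpow_of_exponent_le (by linarith [Nat.cast_nonneg (α := ℝ) n]) (by linarith)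
    gcongr

/-- lower bound on the line Re s = 2 -/
lemma G01_lower (t : ℝ) : 1 / 4 ≤ ‖riemannZeta₁ (2 + t * I)‖ := by
  have hre : (2 + t * I : ℂ).re = 2 := by simp
  have hs : 1 < (2 + t * I : ℂ).re := by rw [hre]; norm_num
  have hne : (2 + t * I : ℂ) ≠ 1 := by
    intro h
    rw [h] at hre
    norm_num at hre
  have h3 : (2 + t * I : ℂ) - 1 ≠ 0 := sub_ne_zero.2 hne
  have e1 : riemannZeta₁ (2 + t * I) = ((2 + t * I : ℂ) - 1) * riemannZeta (2 + t * I) := by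
    rw [riemannZeta_eq_inv_sub_mul hne, ← mul_assoc, mul_inv_cancel₀ h3, one_mul]
  have h4 : 1 ≤ ‖(2 + t * I : ℂ) - 1‖ := by
    have := Complex.abs_re_le_norm ((2 + t * I : ℂ) - 1)
    have e : ((2 + t * I : ℂ) - 1).re = 1 := by simp; norm_num
    rw [e, abs_one] at this
    exact this
  have hz := zeta_eq_tsum_one_div_nat_add_one_cpow hs
  have hsumm : Summable (fun n : ℕ => 1 / ((n : ℝ) + 1) ^ 2) := by
    have := (summable_nat_add_iff 1).2 (Real.summable_one_div_nat_pow.2 (show 1 < 2 by norm_num))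
    simpa using this
  have hnorm : ∀ n : ℕ, ‖1 / ((n : ℂ) + 1) ^ (2 + t * I : ℂ)‖ = 1 / ((n : ℝ) + 1) ^ 2 := by
    intro n
    have e : ((n : ℂ) + 1) = (((n : ℝ) + 1 : ℝ) : ℂ) := by push_cast; rfl
    rw [norm_div, norm_one, e, Complex.norm_cpow_eq_rpow_re_of_pos (by positivity), hre]
    norm_num
  have hsummC : Summable (fun n : ℕ => 1 / ((n : ℂ) + 1) ^ (2 + t * I : ℂ)) := by
    apply Summable.of_norm
    simp_rw [hnorm]
    exact hsumm
  have htot : ∑' n : ℕ, 1 / ((n : ℝ) + 1) ^ 2 = Real.pi ^ 2 / 6 := by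
    have h := hasSum_zeta_two
    have h5 := h.tsum_eq
    rw [Summable.tsum_eq_zero_add h.summable] at h5
    simpa using h5
  have hpi : Real.pi ^ 2 / 6 ≤ 7 / 4 := by
    have := Real.pi_lt_d2
    have h6 := Real.pi_pos
    nlinarith
  have h7 : ‖riemannZeta (2 + t * I) - 1‖ ≤ 3 / 4 := by
    rw [hz, Summable.tsum_eq_zero_add hsummC]
    have e0 : 1 / (((0 : ℕ) : ℂ) + 1) ^ (2 + t * I : ℂ) = 1 := by simp
    rw [e0, add_sub_cancel_left]
    have hs1 : Summable (fun n : ℕ => ‖1 / (((n + 1 : ℕ) : ℂ) + 1) ^ (2 + t * I : ℂ)‖) := by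
      have := (summable_nat_add_iff 1).2 hsummC.norm
      exact this
    refine (norm_tsum_le_tsum_norm hs1).trans ?_
    have e2 : ∑' n : ℕ, ‖1 / (((n + 1 : ℕ) : ℂ) + 1) ^ (2 + t * I : ℂ)‖ = Real.pi ^ 2 / 6 - 1 := by
      have h8 := Summable.tsum_eq_zero_add hsumm
      rw [htot] at h8
      have h9 : ∑' n : ℕ, ‖1 / (((n + 1 : ℕ) : ℂ) + 1) ^ (2 + t * I : ℂ)‖ =
          ∑' n : ℕ, 1 / (((n + 1 : ℕ) : ℝ) + 1) ^ 2 := tsum_congr (fun n => hnorm (n + 1))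
      rw [h9, h8]
      norm_num
    rw [e2]
    linarith
  have h8 : 1 / 4 ≤ ‖riemannZeta (2 + t * I)‖ := by
    have h9 := norm_sub_norm_le (1 : ℂ) (1 - riemannZeta (2 + t * I))
    rw [norm_one, sub_sub_cancel, norm_sub_rev] at h9
    linarith
  rw [e1, norm_mul]
  nlinarith [norm_nonneg (riemannZeta (2 + t * I))]

/-- zeros near one integer -/
lemma G01_local : ∃ K : ℝ, 0 < K ∧ ∀ T : ℝ, 2 ≤ T → ∀ n : ℤ, |(n : ℝ)| ≤ T + 1 → ∀ A : Finset ℝ,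
    (∀ g ∈ A, g ∈ Gam ∧ |g - n| ≤ 1 / 2) → (A.card : ℝ) ≤ K * Real.log T := by
  classical
  obtain ⟨C, hC1, hC⟩ := G01_growth
  have hC0 : 0 < C := by linarith
  have hq : 0 < Real.log ((15 / 8) / (8 / 5)) := Real.log_pos (by norm_num)
  have hl2 : 0 < Real.log 2 := Real.log_pos (by norm_num)
  have hlC : 0 ≤ Real.log (128 * C) := Real.log_nonneg (by linarith)
  refine ⟨(Real.log (128 * C) / Real.log 2 + 2) / Real.log ((15 / 8) / (8 / 5)), by positivity, ?_⟩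
  intro T hT n hn A hA
  have hT0 : 0 < T := by linarith
  have hinj : Function.Injective (fun g : ℝ => (1 / 2 + g * I : ℂ)) := by
    intro a b hab
    have := congrArg Complex.im hab
    simpa using this
  set B : Finset ℂ := A.image (fun g : ℝ => (1 / 2 + g * I : ℂ)) with hB
  have hBc : B.card = A.card := Finset.card_image_of_injective _ hinj
  have hzero : ∀ a ∈ B, riemannZeta₁ a = 0 ∧ ‖a - (2 + (n : ℝ) * I)‖ ≤ 8 / 5 := by
    intro a ha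
    rw [hB, Finset.mem_image] at ha
    obtain ⟨g, hg, rfl⟩ := ha
    obtain ⟨hg1, hg2⟩ := hA g hg
    have hg1' : riemannZeta (1 / 2 + g * I) = 0 := hg1
    have hne : (1 / 2 + g * I : ℂ) ≠ 1 := by
      intro h
      have := congrArg Complex.re h
      simp at this
    constructor
    · rw [riemannZeta_eq_inv_sub_mul hne] at hg1'
      rcases mul_eq_zero.mp hg1' with h | h
      · exact absurd h (inv_ne_zero (sub_ne_zero.mpr hne))
      · exact h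
    · rw [Complex.norm_eq_sqrt_sq_add_sq]
      apply Real.sqrt_le_iff.mpr
      constructor
      · norm_num
      · have e1 : ((1 / 2 + g * I : ℂ) - (2 + (n : ℝ) * I)).re = -(3 / 2) := by
          simp
          norm_num
        have e2 : ((1 / 2 + g * I : ℂ) - (2 + (n : ℝ) * I)).im = g - n := by
          simp
        rw [e1, e2]
        have := abs_le.mp hg2
        nlinarith
  set M : ℝ := 2 * C * (|(n : ℝ)| + 5) ^ 2 with hM
  have hMb : ∀ z : ℂ, ‖z - (2 + (n : ℝ) * I)‖ = 15 / 8 → ‖riemannZeta₁ z‖ ≤ M := by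
    intro z hz
    have h1 := Complex.abs_re_le_norm (z - (2 + (n : ℝ) * I))
    have e1 : (z - (2 + (n : ℝ) * I)).re = z.re - 2 := by simp
    rw [e1, hz] at h1
    have h2 : 1 / 8 ≤ z.re := by
      have := (abs_le.mp h1).1
      linarith
    have h3 : ‖(2 + (n : ℝ) * I : ℂ)‖ ≤ 2 + |(n : ℝ)| := by
      refine (norm_add_le _ _).trans ?_
      rw [norm_mul, Complex.norm_real, Complex.norm_I, mul_one, Real.norm_eq_abs]
      norm_num
    have h4 : ‖z‖ ≤ |(n : ℝ)| + 4 := by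
      have : ‖z‖ ≤ ‖z - (2 + (n : ℝ) * I)‖ + ‖(2 + (n : ℝ) * I : ℂ)‖ := by
        have h5 := norm_add_le (z - (2 + (n : ℝ) * I)) (2 + (n : ℝ) * I)
        rwa [sub_add_cancel] at h5
      rw [hz] at this
      linarith
    have h5 : ‖z - 1‖ ≤ |(n : ℝ)| + 5 := by
      have := norm_sub_le z 1
      rw [norm_one] at this
      linarith
    have h6 := hC z h2
    have hn0 := abs_nonneg (n : ℝ)
    have h7 : ‖z - 1‖ * ‖z‖ ≤ (|(n : ℝ)| + 5) * (|(n : ℝ)| + 5) :=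
      mul_le_mul h5 (by linarith) (norm_nonneg _) (by linarith)
    have h8 : C * (‖z - 1‖ * ‖z‖) ≤ C * ((|(n : ℝ)| + 5) * (|(n : ℝ)| + 5)) :=
      mul_le_mul_of_nonneg_left h7 hC0.le
    have h9 : 1 ≤ C * ((|(n : ℝ)| + 5) * (|(n : ℝ)| + 5)) := by
      have : 1 * 1 ≤ C * ((|(n : ℝ)| + 5) * (|(n : ℝ)| + 5)) :=
        mul_le_mul hC1 (by nlinarith) zero_le_one hC0.le
      linarith
    rw [hM]
    nlinarith
  have hmain := G01_bl (15 / 8) (8 / 5) M (2 + (n : ℝ) * I) (by norm_num) (by norm_num) B riemannZeta₁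
    differentiable_riemannZeta₁.differentiableOn hMb hzero
  have hlow := G01_lower n
  rw [hBc] at hmain
  have hM0 : 0 < M := by
    have := abs_nonneg (n : ℝ)
    positivity
  have h1 : 1 / 4 ≤ M * ((8 / 5 : ℝ) / (15 / 8)) ^ A.card := hlow.trans hmain
  have h2 : ((15 / 8 : ℝ) / (8 / 5)) ^ A.card ≤ 4 * M := by
    have e : ((8 / 5 : ℝ) / (15 / 8)) ^ A.card * ((15 / 8 : ℝ) / (8 / 5)) ^ A.card = 1 := by
      rw [← mul_pow]
      norm_num
    have hp : 0 < ((15 / 8 : ℝ) / (8 / 5)) ^ A.card := by positivity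
    have := mul_le_mul_of_nonneg_right h1 hp.le
    rw [mul_assoc, e, mul_one] at this
    linarith
  have h3 : (A.card : ℝ) * Real.log ((15 / 8) / (8 / 5)) ≤ Real.log (4 * M) := by
    rw [← Real.log_pow]
    exact Real.log_le_log (by positivity) h2
  have h4 : 4 * M ≤ 128 * C * T ^ 2 := by
    have h5 : |(n : ℝ)| + 5 ≤ 4 * T := by linarith
    have h6 : (|(n : ℝ)| + 5) ^ 2 ≤ (4 * T) ^ 2 :=
      pow_le_pow_left₀ (by have := abs_nonneg (n : ℝ); linarith) h5 2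
    rw [hM]
    nlinarith
  have h5 : Real.log (4 * M) ≤ Real.log (128 * C) + 2 * Real.log T := by
    have h6 := Real.log_le_log (by positivity) h4
    have e : Real.log (128 * C * T ^ 2) = Real.log (128 * C) + 2 * Real.log T := by
      rw [Real.log_mul (by positivity) (by positivity), Real.log_pow]
      norm_num
    rw [e] at h6
    exact h6
  have h6 : Real.log (128 * C) ≤ Real.log (128 * C) / Real.log 2 * Real.log T := by
    have h7 : Real.log 2 ≤ Real.log T := Real.log_le_log (by norm_num) hT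
    calc Real.log (128 * C) = Real.log (128 * C) / Real.log 2 * Real.log 2 := by field_simp
      _ ≤ _ := mul_le_mul_of_nonneg_left h7 (by positivity)
  have h7 : (A.card : ℝ) * Real.log ((15 / 8) / (8 / 5)) ≤
      (Real.log (128 * C) / Real.log 2 + 2) * Real.log T := by
    linarith
  rw [div_mul_eq_mul_div, le_div_iff₀ hq]
  exact h7

/-- number of critical ordinates up to T is O(T log T), and finiteness (Jensen in discs around 2+in, or any zero counting). -/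
theorem Gam_count : ∃ C T0 : ℝ, 0 < C ∧ 2 ≤ T0 ∧ ∀ T : ℝ, T0 ≤ T → (Gam ∩ Icc (-T) T).Finite ∧
    ((Gam ∩ Icc (-T) T).ncard : ℝ) ≤ C * T * Real.log T := by
  classical
  obtain ⟨K, hK, hloc⟩ := G01_local
  have key : ∀ T : ℝ, 2 ≤ T → ∀ A : Finset ℝ, ((A : Set ℝ) ⊆ Gam ∩ Icc (-T) T) →
      (A.card : ℝ) ≤ 3 * K * T * Real.log T := by
    intro T hT A hA
    have hT0 : 0 < T := by linarith
    have hlog : 0 ≤ Real.log T := Real.log_nonneg (by linarith)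
    have hround : ∀ g ∈ A, |g - (round g : ℝ)| ≤ 1 / 2 := fun g _ => abs_sub_round g
    have hfib : ∀ m ∈ A.image (fun g => round g), (A.filter (fun g => round g = m)).card ≤
        ⌊K * Real.log T⌋₊ := by
      intro m hm
      rw [Finset.mem_image] at hm
      obtain ⟨g0, hg0, rfl⟩ := hm
      apply Nat.le_floor
      apply hloc T hT (round g0)
      · have h1 := (hA hg0).2
        have h2 := hround g0 hg0
        have h3 := abs_le.mp h2
        rw [abs_le]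
        constructor <;> linarith [h1.1, h1.2, h3.1, h3.2]
      · intro g hg
        rw [Finset.mem_filter] at hg
        refine ⟨(hA hg.1).1, ?_⟩
        rw [← hg.2]
        exact hround g hg.1
    have hcard := Finset.card_le_mul_card_image A _ hfib
    have himg : (A.image (fun g => round g)) ⊆ Finset.Icc (-⌊T + 1 / 2⌋) ⌊T + 1 / 2⌋ := by
      intro m hm
      rw [Finset.mem_image] at hm
      obtain ⟨g, hg, rfl⟩ := hm
      have h1 := (hA hg).2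
      have h3 := abs_le.mp (hround g hg)
      rw [Finset.mem_Icc]
      constructor
      · rw [neg_le, Int.le_floor]
        push_cast
        linarith [h1.1, h3.2]
      · rw [Int.le_floor]
        linarith [h1.2, h3.1]
    have hic : ((A.image (fun g => round g)).card : ℝ) ≤ 3 * T := by
      have h1 : ((A.image (fun g => round g)).card : ℤ) ≤ 2 * ⌊T + 1 / 2⌋ + 1 := by
        have h2 := Finset.card_le_card himg
        rw [Int.card_Icc] at h2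
        have h3 : 0 ≤ ⌊T + 1 / 2⌋ := Int.floor_nonneg.mpr (by linarith)
        omega
      have h2 : (⌊T + 1 / 2⌋ : ℝ) ≤ T + 1 / 2 := Int.floor_le _
      have h3 : ((A.image (fun g => round g)).card : ℝ) ≤ 2 * (⌊T + 1 / 2⌋ : ℝ) + 1 := by
        exact_mod_cast h1
      linarith
    have hfl : ((⌊K * Real.log T⌋₊ : ℕ) : ℝ) ≤ K * Real.log T := Nat.floor_le (by positivity)
    calc (A.card : ℝ) ≤ ((⌊K * Real.log T⌋₊ * (A.image (fun g => round g)).card : ℕ) : ℝ) := by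
          exact_mod_cast hcard
      _ = (⌊K * Real.log T⌋₊ : ℝ) * ((A.image (fun g => round g)).card : ℝ) := by push_cast; rfl
      _ ≤ (K * Real.log T) * (3 * T) := mul_le_mul hfl hic (by positivity) (by positivity)
      _ = 3 * K * T * Real.log T := by ring
  refine ⟨3 * K, 2, by positivity, le_rfl, fun T hT => ?_⟩
  have hfin : (Gam ∩ Icc (-T) T).Finite := by
    by_contra h
    obtain ⟨A, hA, hc⟩ := Set.Infinite.exists_subset_card_eq h (⌊3 * K * T * Real.log T⌋₊ + 1)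
    have h1 := key T hT A hA
    rw [hc] at h1
    have h2 := Nat.lt_floor_add_one (3 * K * T * Real.log T)
    push_cast at h1
    linarith
  refine ⟨hfin, ?_⟩
  rw [Set.ncard_eq_toFinset_card _ hfin]
  exact key T hT _ (by simp)

end LZ

end F_G01

section F_Z07

open Complex MeasureTheory Set Filter Topology
open scoped ComplexConjugate

namespace LZ

/-- integrability of functions of quadratic growth -/
lemma Z07_integrable {T : ℝ} (hT : 0 < T) {f : ℝ → ℝ} (hf : Continuous f) {C : ℝ}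
    (hb : ∀ t : ℝ, 0 ≤ t → |f t| ≤ C * (1 + t) ^ 2) :
    IntegrableOn (fun t => f t * Real.exp (-t / T)) (Ioi 0) := by
  have hC : 0 ≤ C := by
    have h := hb 0 le_rfl
    have h2 := (abs_nonneg _).trans h
    simpa using h2
  have hdom : IntegrableOn (fun t : ℝ => (C * (2 + 16 * T ^ 2)) * Real.exp (-(1 / (2 * T)) * t)) (Ioi 0) :=
    (exp_neg_integrableOn_Ioi 0 (by positivity)).const_mul _
  refine Integrable.mono' hdom ?_ ?_
  · exact (hf.mul (by fun_prop)).aestronglyMeasurable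
  · refine (ae_restrict_iff' measurableSet_Ioi).mpr (Eventually.of_forall fun t ht => ?_)
    have ht0 : 0 < t := ht
    rw [norm_mul, Real.norm_eq_abs, Real.norm_of_nonneg (Real.exp_pos _).le]
    have hq := Real.quadratic_le_exp_of_nonneg (x := t / (2 * T)) (by positivity)
    have h1 : t ^ 2 ≤ 8 * T ^ 2 * Real.exp (t / (2 * T)) := by
      have e : t ^ 2 = 8 * T ^ 2 * ((t / (2 * T)) ^ 2 / 2) := by field_simp; ring
      have hpos : 0 ≤ t / (2 * T) := by positivity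
      calc t ^ 2 = 8 * T ^ 2 * ((t / (2 * T)) ^ 2 / 2) := e
        _ ≤ _ := mul_le_mul_of_nonneg_left (by linarith) (by positivity)
    have h2 : 1 ≤ Real.exp (t / (2 * T)) := Real.one_le_exp (by positivity)
    have h3 : (1 + t) ^ 2 ≤ (2 + 16 * T ^ 2) * Real.exp (t / (2 * T)) := by
      nlinarith [sq_nonneg (t - 1)]
    have h4 : Real.exp (t / (2 * T)) * Real.exp (-t / T) = Real.exp (-(1 / (2 * T)) * t) := by
      rw [← Real.exp_add]
      congr 1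
      field_simp
      ring
    calc |f t| * Real.exp (-t / T) ≤ (C * ((2 + 16 * T ^ 2) * Real.exp (t / (2 * T)))) * Real.exp (-t / T) := by
          refine mul_le_mul_of_nonneg_right ?_ (Real.exp_pos _).le
          exact (hb t ht0.le).trans (mul_le_mul_of_nonneg_left h3 hC)
      _ = _ := by rw [← h4]; ring

/-- shift of the mean. -/
theorem ER_shift {T : ℝ} (hT : 0 < T) {f : ℝ → ℝ} (hf : Continuous f) {C : ℝ}
    (hb : ∀ t : ℝ, 0 ≤ t → |f t| ≤ C * (1 + t) ^ 2) {a : ℝ} (ha : 0 ≤ a) :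
    ER T (fun t => f (t + a)) = Real.exp (a / T) * (ER T f - T⁻¹ * ∫ t in (0:ℝ)..a, f t * Real.exp (-t / T)) := by
  have hint := Z07_integrable hT hf hb
  have hint' : IntegrableOn (fun t => f t * Real.exp (-t / T)) (Ioi a) :=
    hint.mono_set (Ioi_subset_Ioi ha)
  have hadd := intervalIntegral.integral_interval_add_Ioi hint hint'
  have hshift : ∫ t in Ioi (0:ℝ), f (t + a) * Real.exp (-(t + a) / T) =
      ∫ s in Ioi a, f s * Real.exp (-s / T) := by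
    have h := (measurePreserving_add_right (volume : Measure ℝ) a).setIntegral_preimage_emb
      (measurableEmbedding_addRight a) (fun s => f s * Real.exp (-s / T)) (Ioi a)
    have e : (fun x : ℝ => x + a) ⁻¹' Ioi a = Ioi 0 := by
      ext t
      simp
    rw [e] at h
    exact h
  have hfac : ∫ t in Ioi (0:ℝ), f (t + a) * Real.exp (-t / T) =
      Real.exp (a / T) * ∫ t in Ioi (0:ℝ), f (t + a) * Real.exp (-(t + a) / T) := by
    rw [← integral_const_mul]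
    congr 1
    ext t
    have e : Real.exp (-t / T) = Real.exp (a / T) * Real.exp (-(t + a) / T) := by
      rw [← Real.exp_add]
      congr 1
      field_simp
      ring
    rw [e]
    ring
  unfold ER
  rw [hfac, hshift, ← hadd]
  ring

end LZ

end F_Z07

section F_Z14

open Complex MeasureTheory Set Filter Topology
open scoped ComplexConjugate

namespace LZ

theorem Z14_measure {p : ℝ} (hp : 0 < p) (hp1 : p ≤ 1) {T : ℝ} (hT : 1 ≤ T) {S : Set ℝ}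
    (hS : MeasurableSet S) (h : p ≤ ER T (S.indicator (fun _ => 1))) :
    p / 2 * T ≤ volume.real (S ∩ Ioc (p / 4 * T) (Real.log (4 / p) * T)) := by
  have hT0 : 0 < T := by linarith
  obtain ⟨B, hB⟩ : ∃ B : ℝ, B = Real.log (4 / p) := ⟨_, rfl⟩
  have hB0 : 0 < B := by
    rw [hB]
    refine Real.log_pos ?_
    rw [lt_div_iff₀ hp]
    linarith
  have hexpB : Real.exp (-B) = p / 4 := by
    rw [hB, Real.exp_neg, Real.exp_log (by positivity), inv_div]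
  rw [← hB]
  have hne : volume (S ∩ Ioc (p / 4 * T) (B * T)) ≠ ⊤ :=
    ((measure_mono inter_subset_right).trans_lt measure_Ioc_lt_top).ne
  have hSm : MeasurableSet (S ∩ Ioc (p / 4 * T) (B * T)) := hS.inter measurableSet_Ioc
  have hc : -T⁻¹ < 0 := by
    have : 0 < T⁻¹ := by positivity
    linarith
  have i1 : IntegrableOn ((Ioc (0 : ℝ) (p / 4 * T)).indicator (fun _ => (1 : ℝ))) (Ioi 0) :=
    ((integrable_indicator_iff measurableSet_Ioc).2 (integrableOn_const (by simp))).integrableOn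
  have i2 : IntegrableOn ((S ∩ Ioc (p / 4 * T) (B * T)).indicator (fun _ => (1 : ℝ))) (Ioi 0) :=
    ((integrable_indicator_iff hSm).2 (integrableOn_const hne)).integrableOn
  have i3 : IntegrableOn ((Ioi (B * T)).indicator (fun t => Real.exp (-T⁻¹ * t))) (Ioi 0) :=
    ((integrable_indicator_iff measurableSet_Ioi).2 (integrableOn_exp_mul_Ioi hc _)).integrableOn
  have key : ∫ t in Ioi (0:ℝ), S.indicator (fun _ => (1 : ℝ)) t * Real.exp (-t / T) ≤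
      ∫ t in Ioi (0:ℝ), ((Ioc (0 : ℝ) (p / 4 * T)).indicator (fun _ => (1 : ℝ)) t +
        (S ∩ Ioc (p / 4 * T) (B * T)).indicator (fun _ => (1 : ℝ)) t +
        (Ioi (B * T)).indicator (fun t => Real.exp (-T⁻¹ * t)) t) := by
    refine integral_mono_of_nonneg ?_ ((i1.add i2).add i3) ?_
    · refine Eventually.of_forall fun t => ?_
      exact mul_nonneg (indicator_nonneg (fun _ _ => zero_le_one) t) (Real.exp_pos _).le
    · filter_upwards [ae_restrict_mem measurableSet_Ioi] with t ht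
      have ht : 0 < t := ht
      have e0 : -t / T = -T⁻¹ * t := by field_simp
      have hle1 : Real.exp (-T⁻¹ * t) ≤ 1 := by
        rw [Real.exp_le_one_iff]
        have : 0 < T⁻¹ * t := by positivity
        linarith
      have n1 : 0 ≤ (Ioc (0 : ℝ) (p / 4 * T)).indicator (fun _ => (1 : ℝ)) t :=
        indicator_nonneg (fun _ _ => zero_le_one) t
      have n2 : 0 ≤ (S ∩ Ioc (p / 4 * T) (B * T)).indicator (fun _ => (1 : ℝ)) t :=
        indicator_nonneg (fun _ _ => zero_le_one) t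
      have n3 : 0 ≤ (Ioi (B * T)).indicator (fun t => Real.exp (-T⁻¹ * t)) t :=
        indicator_nonneg (fun _ _ => (Real.exp_pos _).le) t
      rw [e0]
      by_cases hts : t ∈ S
      · rw [indicator_of_mem hts, one_mul]
        by_cases h1 : t ≤ p / 4 * T
        · have : (Ioc (0 : ℝ) (p / 4 * T)).indicator (fun _ => (1 : ℝ)) t = 1 :=
            indicator_of_mem (show t ∈ Ioc (0 : ℝ) (p / 4 * T) from ⟨ht, h1⟩) _
          linarith
        · by_cases h2 : t ≤ B * T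
          · have : (S ∩ Ioc (p / 4 * T) (B * T)).indicator (fun _ => (1 : ℝ)) t = 1 :=
              indicator_of_mem (show t ∈ S ∩ Ioc (p / 4 * T) (B * T) from
                ⟨hts, lt_of_not_ge h1, h2⟩) _
            linarith
          · have : (Ioi (B * T)).indicator (fun t => Real.exp (-T⁻¹ * t)) t =
                Real.exp (-T⁻¹ * t) :=
              indicator_of_mem (show t ∈ Ioi (B * T) from lt_of_not_ge h2) _
            linarith
      · rw [indicator_of_notMem hts, zero_mul]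
        linarith
  have v1 : ∫ t in Ioi (0:ℝ), (Ioc (0 : ℝ) (p / 4 * T)).indicator (fun _ => (1 : ℝ)) t =
      p / 4 * T := by
    rw [setIntegral_indicator measurableSet_Ioc, inter_eq_right.2 Ioc_subset_Ioi_self,
      setIntegral_const, Real.volume_real_Ioc_of_le (by positivity)]
    simp
  have v2 : ∫ t in Ioi (0:ℝ), (S ∩ Ioc (p / 4 * T) (B * T)).indicator (fun _ => (1 : ℝ)) t ≤
      volume.real (S ∩ Ioc (p / 4 * T) (B * T)) := by
    rw [setIntegral_indicator hSm, setIntegral_const, smul_eq_mul, mul_one]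
    exact measureReal_mono inter_subset_right hne
  have v3 : ∫ t in Ioi (0:ℝ), (Ioi (B * T)).indicator (fun t => Real.exp (-T⁻¹ * t)) t =
      p / 4 * T := by
    rw [setIntegral_indicator measurableSet_Ioi,
      inter_eq_right.2 (Ioi_subset_Ioi (by positivity)), integral_exp_mul_Ioi hc]
    have e : -T⁻¹ * (B * T) = -B := by field_simp
    rw [e, hexpB]
    field_simp
  have i12 : IntegrableOn (fun t => (Ioc (0 : ℝ) (p / 4 * T)).indicator (fun _ => (1 : ℝ)) t +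
      (S ∩ Ioc (p / 4 * T) (B * T)).indicator (fun _ => (1 : ℝ)) t) (Ioi 0) := i1.add i2
  rw [integral_add i12 i3, integral_add i1 i2, v1, v3] at key
  have h' : p * T ≤ ∫ t in Ioi (0:ℝ), S.indicator (fun _ => (1 : ℝ)) t * Real.exp (-t / T) := by
    rw [ER, inv_mul_eq_div, le_div_iff₀ hT0] at h
    exact h
  linarith

theorem Z14_pigeon (F : Finset ℕ) : ∃ r : ℕ, F.card ≤ 3 * (F.filter (fun m => m % 3 = r)).card := by
  by_contra hcon
  push Not at hcon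
  have h1 : F.card = ∑ r ∈ Finset.range 3, (F.filter (fun m => m % 3 = r)).card :=
    Finset.card_eq_sum_card_fiberwise (fun m _ => by
      simp only [Finset.coe_range, Set.mem_Iio]
      exact Nat.mod_lt _ (by norm_num))
  have h2 := hcon 0
  have h3 := hcon 1
  have h4 := hcon 2
  simp only [Finset.sum_range_succ, Finset.sum_range_zero] at h1
  omega

/-- extraction: the part of S in t <= (p/4)T or t > BT, exp(-B) = p/4, has mean <= p/2; cells of length h, every third. -/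
theorem extract (p : ℝ) (hp : 0 < p) (hp1 : p ≤ 1) : ∃ c B : ℝ, 0 < c ∧ 1 ≤ B ∧ ∀ (T h : ℝ), 1 ≤ T → 0 < h → h ≤ 1 →
    ∀ (S G : Set ℝ), MeasurableSet S → p ≤ ER T (S.indicator (fun _ => 1)) →
    (∀ t ∈ S, 0 < t → ∃ g ∈ G, g ∈ Icc t (t + h)) → c * T / h ≥ 1 →
    ∃ Y : Finset ℝ, (∀ y ∈ Y, y ∈ G ∧ p / 4 * T ≤ y ∧ y ≤ B * T) ∧ Sep h Y ∧ c * T / h ≤ Y.card := by
  classical
  have hlog : 0 < Real.log (4 / p) := by
    refine Real.log_pos ?_
    rw [lt_div_iff₀ hp]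
    linarith
  refine ⟨p / 6, Real.log (4 / p) + 1, by positivity, by linarith, ?_⟩
  intro T h hT hh hh1 S G hS hmean hG _
  have hT0 : 0 < T := by linarith
  have hm := Z14_measure hp hp1 hT hS hmean
  obtain ⟨S', hS'⟩ : ∃ S' : Set ℝ, S' = S ∩ Ioc (p / 4 * T) (Real.log (4 / p) * T) := ⟨_, rfl⟩
  rw [← hS'] at hm
  have hpos : ∀ t ∈ S', 0 < t := by
    intro t ht
    rw [hS'] at ht
    have : 0 < p / 4 * T := by positivity
    linarith [ht.2.1]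
  obtain ⟨F, hF⟩ : ∃ F : Finset ℕ, F = (Finset.range (⌊Real.log (4 / p) * T / h⌋₊ + 1)).filter
    (fun m : ℕ => ∃ t ∈ S', (m : ℝ) * h ≤ t ∧ t < ((m : ℝ) + 1) * h) := ⟨_, rfl⟩
  have hcov : S' ⊆ ⋃ m ∈ F, Ico ((m : ℝ) * h) (((m : ℝ) + 1) * h) := by
    intro t ht
    have ht0 := hpos t ht
    have e1 : (⌊t / h⌋₊ : ℝ) * h ≤ t := by
      rw [← le_div_iff₀ hh]
      exact Nat.floor_le (by positivity)
    have e2 : t < ((⌊t / h⌋₊ : ℝ) + 1) * h := by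
      rw [← div_lt_iff₀ hh]
      exact Nat.lt_floor_add_one _
    simp only [mem_iUnion, exists_prop]
    refine ⟨⌊t / h⌋₊, ?_, e1, e2⟩
    rw [hF, Finset.mem_filter, Finset.mem_range]
    refine ⟨?_, t, ht, e1, e2⟩
    rw [Nat.lt_succ_iff]
    refine Nat.floor_le_floor ?_
    rw [hS'] at ht
    have := ht.2.2
    gcongr
  have hvol : volume.real S' ≤ F.card * h := by
    have h1 : volume.real S' ≤ ∑ m ∈ F, volume.real (Ico ((m : ℝ) * h) (((m : ℝ) + 1) * h)) := by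
      refine (measureReal_mono hcov ?_).trans (measureReal_biUnion_finset_le _ _)
      exact ((measure_biUnion_finset_le _ _).trans_lt
        (ENNReal.sum_lt_top.2 fun m _ => measure_Ico_lt_top)).ne
    refine h1.trans (le_of_eq ?_)
    rw [Finset.sum_congr rfl (g := fun _ => h), Finset.sum_const, nsmul_eq_mul]
    intro m _
    rw [Real.volume_real_Ico_of_le (by nlinarith)]
    ring
  obtain ⟨r, hr⟩ := Z14_pigeon F
  have hch : ∀ m : ℕ, ∃ g : ℝ, m ∈ F → g ∈ G ∧ p / 4 * T ≤ g ∧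
      g ≤ (Real.log (4 / p) + 1) * T ∧ (m : ℝ) * h ≤ g ∧ g < ((m : ℝ) + 2) * h := by
    intro m
    by_cases hmF : m ∈ F
    · have hmF' := hmF
      rw [hF, Finset.mem_filter] at hmF'
      obtain ⟨-, t, ht, ht1, ht2⟩ := hmF'
      have ht0 := hpos t ht
      rw [hS'] at ht
      obtain ⟨g, hg, hg1, hg2⟩ := hG t ht.1 ht0
      refine ⟨g, fun _ => ⟨hg, by linarith [ht.2.1], ?_, by linarith, by linarith⟩⟩
      have := ht.2.2
      nlinarith
    · exact ⟨0, fun hmF' => absurd hmF' hmF⟩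
  choose g hg using hch
  have hsep : ∀ m ∈ F.filter (fun m => m % 3 = r), ∀ m' ∈ F.filter (fun m => m % 3 = r), m < m' →
      h < g m' - g m := by
    intro m hm1 m' hm2 hlt
    rw [Finset.mem_filter] at hm1 hm2
    obtain ⟨-, -, -, -, a2⟩ := hg m hm1.1
    obtain ⟨-, -, -, a1, -⟩ := hg m' hm2.1
    have h3 : m + 3 ≤ m' := by omega
    have h3' : (m : ℝ) + 3 ≤ m' := by exact_mod_cast h3
    have h4 : ((m : ℝ) + 3) * h ≤ m' * h := by gcongr
    linarith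
  have hinj : Set.InjOn g (F.filter (fun m => m % 3 = r) : Finset ℕ) := by
    intro m hm1 m' hm2 he
    rcases lt_trichotomy m m' with h1 | h1 | h1
    · have := hsep m hm1 m' hm2 h1
      linarith
    · exact h1
    · have := hsep m' hm2 m hm1 h1
      linarith
  refine ⟨(F.filter (fun m => m % 3 = r)).image g, ?_, ?_, ?_⟩
  · intro y hy
    obtain ⟨m, hm1, rfl⟩ := Finset.mem_image.1 hy
    obtain ⟨b1, b2, b3, -, -⟩ := hg m (Finset.mem_filter.1 hm1).1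
    exact ⟨b1, b2, b3⟩
  · intro a ha b hb hab
    obtain ⟨m, hm1, rfl⟩ := Finset.mem_image.1 ha
    obtain ⟨m', hm2, rfl⟩ := Finset.mem_image.1 hb
    rcases lt_trichotomy m m' with h1 | h1 | h1
    · have := hsep m hm1 m' hm2 h1
      rw [abs_sub_comm]
      exact this.le.trans (le_abs_self _)
    · exact absurd (by rw [h1]) hab
    · have := hsep m' hm2 m hm1 h1
      exact this.le.trans (le_abs_self _)
  · rw [Finset.card_image_of_injOn hinj, div_le_iff₀ hh]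
    have h1 : (F.card : ℝ) ≤ 3 * ((F.filter (fun m => m % 3 = r)).card : ℝ) := by exact_mod_cast hr
    have h2 : (F.card : ℝ) * h ≤ 3 * ((F.filter (fun m => m % 3 = r)).card : ℝ) * h := by gcongr
    linarith

end LZ

end F_Z14

section F_F04

open Complex MeasureTheory Set Filter Topology
open scoped ComplexConjugate

namespace LZ

/-- the exponential sum over a set of points -/
private noncomputable def SS (r : ℝ) (Y : Finset ℝ) (n : ℕ) : ℂ :=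
  ∑ y ∈ Y, (n : ℂ) ^ (-(r * y * I))

private lemma f04_norm_phase (r y : ℝ) {n : ℕ} (hn : 1 ≤ n) : ‖(n : ℂ) ^ (-(r * y * I : ℂ))‖ = 1 := by
  rw [Complex.norm_natCast_cpow_of_pos (by omega)]
  simp

private lemma f04_SS_le (r : ℝ) (Y : Finset ℝ) {n : ℕ} (hn : 1 ≤ n) : ‖SS r Y n‖ ≤ Y.card := by
  unfold SS
  refine (norm_sum_le _ _).trans ?_
  rw [Finset.sum_congr rfl fun y _ => f04_norm_phase r y hn]
  simp

private lemma f04_split (r1 r2 x y1 y2 : ℝ) {n : ℕ} (hn : 1 ≤ n) :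
    (n : ℂ) ^ (-(1/2 + (r1 * y1 + r2 * y2 + x) * I : ℂ)) =
      (n : ℂ) ^ (-(1/2 + x * I : ℂ)) * ((n : ℂ) ^ (-(r1 * y1 * I : ℂ)) *
        (n : ℂ) ^ (-(r2 * y2 * I : ℂ))) := by
  have hn0 : (n : ℂ) ≠ 0 := by exact_mod_cast (by omega : n ≠ 0)
  rw [← Complex.cpow_add _ _ hn0, ← Complex.cpow_add _ _ hn0]
  congr 1
  ring

private lemma f04_cs1 {K1 L T M n1 c1 a : ℝ} (hL : 0 ≤ L) (hT : 0 ≤ T) (hM : 0 ≤ M)
    (hK1 : 0 ≤ K1) (hc1 : 0 ≤ c1) (h1 : n1 ≤ c1 * T * L) (ha : a ≤ K1 * L * (T + M) * n1) :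
    Real.sqrt a ≤ Real.sqrt (K1 * c1) * (L * Real.sqrt ((T + M) * T)) := by
  have hTM : 0 ≤ T + M := add_nonneg hT hM
  rw [← Real.sqrt_sq hL, ← Real.sqrt_mul (sq_nonneg _), ← Real.sqrt_mul (mul_nonneg hK1 hc1)]
  apply Real.sqrt_le_sqrt
  refine ha.trans ?_
  calc K1 * L * (T + M) * n1 ≤ K1 * L * (T + M) * (c1 * T * L) :=
        mul_le_mul_of_nonneg_left h1 (mul_nonneg (mul_nonneg hK1 hL) hTM)
    _ = K1 * c1 * (L ^ 2 * ((T + M) * T)) := by ring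

private lemma f04_cs (K1 K2 L T M : ℝ) (n1 n2 : ℝ) (hL : 0 ≤ L) (hT : 0 ≤ T) (hM : 0 ≤ M)
    (hK1 : 0 ≤ K1) (hK2 : 0 ≤ K2) (c1 c2 : ℝ) (hc1 : 0 ≤ c1) (hc2 : 0 ≤ c2)
    (h1 : n1 ≤ c1 * T * L) (h2 : n2 ≤ c2 * T * L) (a b : ℝ)
    (ha : a ≤ K1 * L * (T + M) * n1) (hb : b ≤ K2 * L * (T + M) * n2) :
    Real.sqrt a * Real.sqrt b ≤ Real.sqrt (K1 * c1) * Real.sqrt (K2 * c2) * ((T + M) * (T * L ^ 2))
    := by
  have e1 := f04_cs1 hL hT hM hK1 hc1 h1 ha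
  have e2 := f04_cs1 hL hT hM hK2 hc2 h2 hb
  have e3 : Real.sqrt ((T + M) * T) * Real.sqrt ((T + M) * T) = (T + M) * T :=
    Real.mul_self_sqrt (by positivity)
  calc Real.sqrt a * Real.sqrt b ≤ (Real.sqrt (K1 * c1) * (L * Real.sqrt ((T + M) * T))) *
        (Real.sqrt (K2 * c2) * (L * Real.sqrt ((T + M) * T))) :=
        mul_le_mul e1 e2 (Real.sqrt_nonneg _) (by positivity)
    _ = Real.sqrt (K1 * c1) * Real.sqrt (K2 * c2) * (L ^ 2 *
        (Real.sqrt ((T + M) * T) * Real.sqrt ((T + M) * T))) := by ring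
    _ = _ := by rw [e3]; ring

/-- the dyadic block -/
private lemma f04_block (r1 r2 d : ℝ) (h1 : r1 ≠ 0) (h2 : r2 ≠ 0) (hd : 0 < d) :
    ∃ K T0 : ℝ, 0 < K ∧ 2 ≤ T0 ∧ ∀ T : ℝ, T0 ≤ T → ∀ Y1 Y2 : Finset ℝ, (∀ y ∈ Y1, |y| ≤ T) →
      (∀ y ∈ Y2, |y| ≤ T) → Sep (d / Real.log T) Y1 → Sep (d / Real.log T) Y2 →
      (Y1.card : ℝ) ≤ K * T * Real.log T ∧ (Y2.card : ℝ) ≤ K * T * Real.log T ∧
      ∀ M : ℕ, 1 ≤ M → (M : ℝ) ≤ T ^ 2 → ∀ c : ℕ → ℝ, (∀ n, |c n| ≤ n.divisors.card) →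
        ∑ n ∈ Finset.Ioc M (2 * M), |c n| * (n : ℝ) ^ (-(1/2) : ℝ) *
          (‖SS r1 Y1 n‖ * ‖SS r2 Y2 n‖) ≤
          K * (M : ℝ) ^ (-(3/8) : ℝ) * ((T + M) * (T * Real.log T ^ 2)) := by
  obtain ⟨Ca, Ta, hCa, hTa, ha⟩ := dual_sieve r1 d h1 hd
  obtain ⟨Cb, Tb, hCb, hTb, hb⟩ := dual_sieve r2 d h2 hd
  obtain ⟨Cc, Tc, hCc, hTc, hc⟩ := sep_count r1 d h1 hd
  obtain ⟨Ce, Te, hCe, hTe, he⟩ := sep_count r2 d h2 hd
  obtain ⟨Cd, hCd, hdiv⟩ := div_bound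
  set K : ℝ := Cc + Ce + Cd * (Real.sqrt (Ca * Cc) * Real.sqrt (Cb * Ce)) with hK
  have hKs : 0 ≤ Cd * (Real.sqrt (Ca * Cc) * Real.sqrt (Cb * Ce)) := by positivity
  refine ⟨K, max (max Ta Tb) (max Tc Te), by positivity,
    hTa.trans ((le_max_left _ _).trans (le_max_left _ _)), ?_⟩
  intro T hT Y1 Y2 hY1 hY2 hs1 hs2
  have hT1 : Ta ≤ T := (le_max_left _ _).trans ((le_max_left _ _).trans hT)
  have hT2 : Tb ≤ T := (le_max_right _ _).trans ((le_max_left _ _).trans hT)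
  have hT3 : Tc ≤ T := (le_max_left _ _).trans ((le_max_right _ _).trans hT)
  have hT4 : Te ≤ T := (le_max_right _ _).trans ((le_max_right _ _).trans hT)
  have hT0 : 0 < T := by linarith
  have hL : 0 ≤ Real.log T := Real.log_nonneg (by linarith)
  have n1 := (hc T hT3 Y1 hY1 hs1).1
  have n2 := (he T hT4 Y2 hY2 hs2).1
  refine ⟨n1.trans ?_, n2.trans ?_, ?_⟩
  · refine mul_le_mul_of_nonneg_right (mul_le_mul_of_nonneg_right ?_ hT0.le) hL
    rw [hK]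
    linarith
  · refine mul_le_mul_of_nonneg_right (mul_le_mul_of_nonneg_right ?_ hT0.le) hL
    rw [hK]
    linarith
  · intro M hM hMT c hcd
    have s1 := ha T hT1 Y1 hY1 hs1 M hM hMT (fun _ => 1)
    have s2 := hb T hT2 Y2 hY2 hs2 M hM hMT (fun _ => 1)
    simp only [one_mul, norm_one, one_pow, Finset.sum_const, nsmul_eq_mul, mul_one] at s1 s2
    have hM0 : (0 : ℝ) < M := by exact_mod_cast hM
    have hcoef : ∀ n ∈ Finset.Ioc M (2 * M), |c n| * (n : ℝ) ^ (-(1/2) : ℝ) ≤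
        Cd * (M : ℝ) ^ (-(3/8) : ℝ) := by
      intro n hn
      rw [Finset.mem_Ioc] at hn
      have hn1 : 1 ≤ n := by omega
      have hn0 : (0 : ℝ) < n := by exact_mod_cast hn1
      have hMn : (M : ℝ) ≤ n := by exact_mod_cast hn.1.le
      calc |c n| * (n : ℝ) ^ (-(1/2) : ℝ) ≤ (Cd * (n : ℝ) ^ (1/8 : ℝ)) * (n : ℝ) ^ (-(1/2) : ℝ) :=
            mul_le_mul_of_nonneg_right ((hcd n).trans (hdiv n hn1)) (by positivity)
        _ = Cd * (n : ℝ) ^ (-(3/8) : ℝ) := by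
            rw [mul_assoc, ← Real.rpow_add hn0]
            norm_num
        _ ≤ Cd * (M : ℝ) ^ (-(3/8) : ℝ) :=
            mul_le_mul_of_nonneg_left
              (Real.rpow_le_rpow_of_nonpos hM0 hMn (by norm_num)) hCd.le
    have hstep1 : ∑ n ∈ Finset.Ioc M (2 * M), |c n| * (n : ℝ) ^ (-(1/2) : ℝ) *
          (‖SS r1 Y1 n‖ * ‖SS r2 Y2 n‖) ≤
        Cd * (M : ℝ) ^ (-(3/8) : ℝ) *
          ∑ n ∈ Finset.Ioc M (2 * M), ‖SS r1 Y1 n‖ * ‖SS r2 Y2 n‖ := by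
      rw [Finset.mul_sum]
      exact Finset.sum_le_sum fun n hn => mul_le_mul_of_nonneg_right (hcoef n hn) (by positivity)
    have hstep2 := Real.sum_mul_le_sqrt_mul_sqrt (Finset.Ioc M (2 * M))
      (fun n => ‖SS r1 Y1 n‖) (fun n => ‖SS r2 Y2 n‖)
    have hstep3 := f04_cs Ca Cb (Real.log T) T M _ _ hL hT0.le hM0.le hCa.le hCb.le Cc Ce hCc.le
      hCe.le n1 n2 _ _ s1 s2
    have hMr : 0 ≤ (M : ℝ) ^ (-(3/8) : ℝ) := by positivity
    have hpos : 0 ≤ (T + M) * (T * Real.log T ^ 2) := by positivity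
    calc _ ≤ Cd * (M : ℝ) ^ (-(3/8) : ℝ) *
          ∑ n ∈ Finset.Ioc M (2 * M), ‖SS r1 Y1 n‖ * ‖SS r2 Y2 n‖ := hstep1
      _ ≤ Cd * (M : ℝ) ^ (-(3/8) : ℝ) * (Real.sqrt (Ca * Cc) * Real.sqrt (Cb * Ce) *
          ((T + M) * (T * Real.log T ^ 2))) :=
          mul_le_mul_of_nonneg_left (hstep2.trans hstep3) (by positivity)
      _ = (Cd * (Real.sqrt (Ca * Cc) * Real.sqrt (Cb * Ce))) * ((M : ℝ) ^ (-(3/8) : ℝ) *
          ((T + M) * (T * Real.log T ^ 2))) := by ring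
      _ ≤ K * ((M : ℝ) ^ (-(3/8) : ℝ) * ((T + M) * (T * Real.log T ^ 2))) :=
          mul_le_mul_of_nonneg_right (by rw [hK]; linarith) (by positivity)
      _ = _ := by ring

private lemma f04_ratio : (2 : ℝ) ^ (-(3/8) : ℝ) ≤ 4 / 5 := by
  have h1 : ((2 : ℝ) ^ (-(3/8) : ℝ)) ^ 8 ≤ (4 / 5) ^ 8 := by
    rw [← Real.rpow_natCast, ← Real.rpow_mul (by norm_num)]
    have h2 : (-(3/8) : ℝ) * ((8 : ℕ) : ℝ) = -3 := by norm_num
    rw [h2, Real.rpow_neg (by norm_num)]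
    have h3 : (2 : ℝ) ^ (3 : ℝ) = 8 := by
      have := Real.rpow_natCast (2 : ℝ) 3
      norm_num at this ⊢
    rw [h3]
    norm_num
  exact le_of_pow_le_pow_left₀ (by norm_num) (by norm_num) h1

private lemma f04_geom (r : ℝ) (h0 : 0 ≤ r) (h1 : r ≤ 4 / 5) (n : ℕ) :
    ∑ i ∈ Finset.range n, r ^ i ≤ 5 := by
  have h2 := mul_neg_geom_sum r n
  have h3 : 0 ≤ r ^ n := pow_nonneg h0 n
  have h4 : 0 ≤ ∑ i ∈ Finset.range n, r ^ i := Finset.sum_nonneg fun i _ => pow_nonneg h0 i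
  have h5 := mul_le_mul_of_nonneg_right (show 1 / 5 ≤ 1 - r by linarith) h4
  linarith

/-- sum over the dyadic blocks -/
private lemma f04_dyadic (W : ℕ → ℝ) (hW : ∀ n, 0 ≤ W n) (X0 Z : ℕ) (hX0 : 1 ≤ X0) (A B : ℝ)
    (hA : 0 ≤ A) (I : ℕ) (hI : Z ≤ X0 * 2 ^ I)
    (hblock : ∀ i < I, ∑ n ∈ Finset.Ioc (X0 * 2 ^ i) (2 * (X0 * 2 ^ i)), W n ≤
      A * ((X0 * 2 ^ i : ℕ) : ℝ) ^ (-(3/8) : ℝ) + B) :
    ∑ n ∈ Finset.Ioc X0 Z, W n ≤ 5 * A * (X0 : ℝ) ^ (-(3/8) : ℝ) + I * B := by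
  have hX00 : (0 : ℝ) < X0 := by exact_mod_cast hX0
  have hsum : ∀ J : ℕ, ∑ n ∈ Finset.Ioc X0 (X0 * 2 ^ J), W n =
      ∑ i ∈ Finset.range J, ∑ n ∈ Finset.Ioc (X0 * 2 ^ i) (2 * (X0 * 2 ^ i)), W n := by
    intro J
    induction J with
    | zero => simp
    | succ J ih =>
      rw [Finset.sum_range_succ, ← ih]
      have h1 : X0 ≤ X0 * 2 ^ J := Nat.le_mul_of_pos_right _ (by positivity)
      have h2 : X0 * 2 ^ J ≤ X0 * 2 ^ (J + 1) := Nat.mul_le_mul_left _ (Nat.pow_le_pow_right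
        (by norm_num) (by omega))
      have h3 : X0 * 2 ^ (J + 1) = 2 * (X0 * 2 ^ J) := by ring
      rw [← h3]
      exact (Finset.sum_Ioc_consecutive W h1 h2).symm
  have h4 : ∑ n ∈ Finset.Ioc X0 Z, W n ≤ ∑ n ∈ Finset.Ioc X0 (X0 * 2 ^ I), W n :=
    Finset.sum_le_sum_of_subset_of_nonneg (Finset.Ioc_subset_Ioc_right hI) fun n _ _ => hW n
  refine h4.trans ?_
  rw [hsum]
  have h5 : ∑ i ∈ Finset.range I, ∑ n ∈ Finset.Ioc (X0 * 2 ^ i) (2 * (X0 * 2 ^ i)), W n ≤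
      ∑ i ∈ Finset.range I, (A * (X0 : ℝ) ^ (-(3/8) : ℝ) * ((2 : ℝ) ^ (-(3/8) : ℝ)) ^ i + B) := by
    refine Finset.sum_le_sum fun i hi => (hblock i (Finset.mem_range.mp hi)).trans (le_of_eq ?_)
    push_cast
    rw [Real.mul_rpow hX00.le (by positivity), ← Real.rpow_natCast 2 i,
      ← Real.rpow_mul (by norm_num), mul_comm (i : ℝ), Real.rpow_mul (by norm_num),
      Real.rpow_natCast]
    ring
  refine h5.trans ?_
  rw [Finset.sum_add_distrib, Finset.sum_const, Finset.card_range, nsmul_eq_mul,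
    ← Finset.mul_sum]
  have h6 := f04_geom ((2 : ℝ) ^ (-(3/8) : ℝ)) (by positivity) f04_ratio I
  have h7 : 0 ≤ A * (X0 : ℝ) ^ (-(3/8) : ℝ) := mul_nonneg hA (Real.rpow_nonneg hX00.le _)
  refine add_le_add ((mul_le_mul_of_nonneg_left h6 h7).trans (le_of_eq ?_)) le_rfl
  ring

private lemma f04_event (κ K δ : ℝ) (hκ : 0 < κ) (hK : 0 < K) (hδ : 0 < δ) (X0 : ℕ) :
    ∀ᶠ T : ℝ in atTop, 2 ≤ T ∧ 1 ≤ Real.log T ∧ K * (4 * Real.log T * T ^ (19/20 : ℝ)) ≤ κ * T ∧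
      ∀ n ∈ Finset.Ioc 1 X0, |cN ⌊T ^ (3/2 : ℝ)⌋₊ (Real.log T / 1500) n| ≤ δ := by
  have e1 := eventually_ge_atTop (2 : ℝ)
  have e2 := Real.tendsto_log_atTop.eventually_ge_atTop (1 : ℝ)
  have e3 : ∀ᶠ T : ℝ in atTop, K * (4 * Real.log T * T ^ (19/20 : ℝ)) ≤ κ * T := by
    have h := (isLittleO_log_rpow_atTop (show (0 : ℝ) < 1 / 20 by norm_num)).bound
      (show (0 : ℝ) < κ / (4 * K) by positivity)
    filter_upwards [h, e1, e2] with T h1 h2 h3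
    have hT0 : 0 < T := by linarith
    rw [Real.norm_of_nonneg (by linarith), Real.norm_of_nonneg (by positivity)] at h1
    have h4 : T = T ^ (1 / 20 : ℝ) * T ^ (19/20 : ℝ) := by
      rw [← Real.rpow_add hT0]
      norm_num
    have h5 : 0 < T ^ (19/20 : ℝ) := by positivity
    calc K * (4 * Real.log T * T ^ (19/20 : ℝ)) = (4 * K) * Real.log T * T ^ (19/20 : ℝ) := by ring
      _ ≤ (4 * K) * (κ / (4 * K) * T ^ (1 / 20 : ℝ)) * T ^ (19/20 : ℝ) :=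
          mul_le_mul_of_nonneg_right (mul_le_mul_of_nonneg_left h1 (by positivity)) h5.le
      _ = κ * (T ^ (1 / 20 : ℝ) * T ^ (19/20 : ℝ)) := by field_simp
      _ = κ * T := by rw [← h4]
  have e4 : ∀ᶠ T : ℝ in atTop, ∀ n ∈ Finset.Ioc 1 X0,
      |cN ⌊T ^ (3/2 : ℝ)⌋₊ (Real.log T / 1500) n| ≤ δ := by
    rw [Filter.eventually_all_finset]
    intro n hn
    rw [Finset.mem_Ioc] at hn
    obtain ⟨l0, hl0, hl⟩ := cN_facts.2.2.1 n (by omega) δ hδ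
    have f1 := Real.tendsto_log_atTop.eventually_ge_atTop (1500 * l0)
    have f2 := (tendsto_rpow_atTop (show (0 : ℝ) < 3 / 2 by norm_num)).eventually_ge_atTop (n : ℝ)
    filter_upwards [f1, f2] with T g1 g2
    exact hl _ (by linarith) _ (Nat.le_floor g2)
  filter_upwards [e1, e2, e3, e4] with T h1 h2 h3 h4
  exact ⟨h1, h2, h3, h4⟩

/-- the exact formula for the double sum -/
private lemma f04_exact (r1 r2 x l : ℝ) (N : ℕ) (hN : 1 ≤ N) (hl : 0 < l) (Y1 Y2 : Finset ℝ) :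
    ∑ y1 ∈ Y1, ∑ y2 ∈ Y2, ((∑ n ∈ Finset.Icc 1 N,
      (n : ℂ) ^ (-(1/2 + (r1 * y1 + r2 * y2 + x) * I : ℂ))) *
      Mol 1 l (1/2 + (r1 * y1 + r2 * y2 + x) * I)) - (Y1.card : ℂ) * Y2.card =
      ∑ n ∈ Finset.Ioc 1 (N * ⌊Real.exp l⌋₊), (cN N l n : ℂ) * (n : ℂ) ^ (-(1/2 + x * I : ℂ)) *
        (SS r1 Y1 n * SS r2 Y2 n) := by
  have hz : 1 ≤ ⌊Real.exp l⌋₊ := Nat.le_floor (by
    push_cast
    exact Real.one_le_exp hl.le)
  have h1 : ∑ y1 ∈ Y1, ∑ y2 ∈ Y2, ((∑ n ∈ Finset.Icc 1 N,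
      (n : ℂ) ^ (-(1/2 + (r1 * y1 + r2 * y2 + x) * I : ℂ))) *
      Mol 1 l (1/2 + (r1 * y1 + r2 * y2 + x) * I)) =
      ∑ n ∈ Finset.Icc 1 (N * ⌊Real.exp l⌋₊), (cN N l n : ℂ) * (n : ℂ) ^ (-(1/2 + x * I : ℂ)) *
        (SS r1 Y1 n * SS r2 Y2 n) := by
    have h2 : ∀ y1 y2 : ℝ, (∑ n ∈ Finset.Icc 1 N,
      (n : ℂ) ^ (-(1/2 + (r1 * y1 + r2 * y2 + x) * I : ℂ))) *
      Mol 1 l (1/2 + (r1 * y1 + r2 * y2 + x) * I) =
      ∑ n ∈ Finset.Icc 1 (N * ⌊Real.exp l⌋₊), (cN N l n : ℂ) *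
        (n : ℂ) ^ (-(1/2 + (r1 * y1 + r2 * y2 + x) * I : ℂ)) := fun y1 y2 =>
      cN_facts.2.2.2 N l _ hN hl
    simp_rw [h2]
    rw [Finset.sum_congr rfl fun y1 _ => Finset.sum_comm, Finset.sum_comm]
    refine Finset.sum_congr rfl fun n hn => ?_
    have hn1 : 1 ≤ n := (Finset.mem_Icc.mp hn).1
    unfold SS
    rw [Finset.sum_mul_sum, Finset.mul_sum]
    refine Finset.sum_congr rfl fun y1 _ => ?_
    rw [Finset.mul_sum]
    refine Finset.sum_congr rfl fun y2 _ => ?_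
    rw [f04_split r1 r2 x y1 y2 hn1]
    ring
  rw [h1, ← Finset.sum_Ioc_add_eq_sum_Icc (Nat.one_le_iff_ne_zero.mpr
    (Nat.mul_ne_zero (by omega) (by omega)))]
  have h3 : SS r1 Y1 1 = Y1.card := by
    unfold SS
    simp
  have h4 : SS r2 Y2 1 = Y2.card := by
    unfold SS
    simp
  rw [cN_facts.1 N l hN hl, h3, h4]
  simp

private lemma f04_sm (X0 : ℕ) {κ K T L : ℝ} (hκ : 0 < κ) (hK : 0 < K) :
    ((X0 - 1 : ℕ) : ℝ) * (κ / (3 * (X0 + 1) * K ^ 2) * (K * T * L * (K * T * L))) ≤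
      κ / 3 * (T * L) ^ 2 := by
  have h9 : ((X0 - 1 : ℕ) : ℝ) ≤ X0 + 1 := by
    have : X0 - 1 ≤ X0 + 1 := by omega
    exact_mod_cast this
  have h0 : 0 ≤ κ / (3 * (X0 + 1) * K ^ 2) := by positivity
  refine (mul_le_mul_of_nonneg_right h9 (mul_nonneg h0 (mul_self_nonneg _))).trans (le_of_eq ?_)
  field_simp

private lemma f04_m1 {K κ T L y : ℝ} (hK : 0 < K) (hy : y < κ / (15 * K)) :
    5 * (K * (T * (T * L ^ 2))) * y ≤ κ / 3 * (T * L) ^ 2 := by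
  have h4 : 5 * K * y ≤ κ / 3 := by
    refine (mul_le_mul_of_nonneg_left hy.le (by positivity)).trans (le_of_eq ?_)
    field_simp
    ring
  calc 5 * (K * (T * (T * L ^ 2))) * y = (5 * K * y) * (T * L) ^ 2 := by ring
    _ ≤ _ := mul_le_mul_of_nonneg_right h4 (sq_nonneg _)

private lemma f04_m2 {I K κ T L P : ℝ} (hI : I ≤ 4 * L) (h : 0 ≤ K * (P * (T * L ^ 2)))
    (hTK : K * (4 * L * P) ≤ κ / 3 * T) (hTL : 0 ≤ T * L ^ 2) :
    I * (K * (P * (T * L ^ 2))) ≤ κ / 3 * (T * L) ^ 2 := by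
  calc I * (K * (P * (T * L ^ 2))) ≤ (4 * L) * (K * (P * (T * L ^ 2))) :=
        mul_le_mul_of_nonneg_right hI h
    _ = (K * (4 * L * P)) * (T * L ^ 2) := by ring
    _ ≤ (κ / 3 * T) * (T * L ^ 2) := mul_le_mul_of_nonneg_right hTK hTL
    _ = κ / 3 * (T * L) ^ 2 := by ring

private lemma f04_pw {M T : ℝ} (hMpos : 0 < M) (hT0 : 0 < T) (h : M ≤ T ^ (38/25 : ℝ)) :
    M ^ (-(3/8) : ℝ) * M ≤ T ^ (19/20 : ℝ) := by
  have h6 : M ^ (-(3/8) : ℝ) * M = M ^ (5/8 : ℝ) := by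
    conv_lhs => rw [← Real.rpow_one M]
    rw [← Real.rpow_mul hMpos.le, ← Real.rpow_add hMpos]
    norm_num
  rw [h6]
  refine (Real.rpow_le_rpow hMpos.le h (by norm_num)).trans (le_of_eq ?_)
  rw [← Real.rpow_mul hT0.le]
  norm_num

private lemma f04_rng {T : ℝ} (hT : 2 ≤ T) :
    ((⌊T ^ (3/2 : ℝ)⌋₊ * ⌊Real.exp (Real.log T / 1500)⌋₊ : ℕ) : ℝ) ≤ T ^ (38/25 : ℝ) := by
  have hT0 : 0 < T := by linarith
  have hNle : (⌊T ^ (3/2 : ℝ)⌋₊ : ℝ) ≤ T ^ (3/2 : ℝ) := Nat.floor_le (Real.rpow_nonneg hT0.le _)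
  have hzle : (⌊Real.exp (Real.log T / 1500)⌋₊ : ℝ) ≤ T ^ (1/1500 : ℝ) := by
    rw [Real.rpow_def_of_pos hT0, show Real.log T * (1 / 1500) = Real.log T / 1500 by ring]
    exact Nat.floor_le (Real.exp_pos _).le
  push_cast
  calc _ ≤ T ^ (3/2 : ℝ) * T ^ (1/1500 : ℝ) :=
        mul_le_mul hNle hzle (Nat.cast_nonneg _) (Real.rpow_nonneg hT0.le _)
    _ = T ^ (3/2 + 1/1500 : ℝ) := (Real.rpow_add hT0 _ _).symm
    _ ≤ T ^ (38/25 : ℝ) := Real.rpow_le_rpow_of_exponent_le (by linarith) (by norm_num)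

private lemma f04_rng2 {T : ℝ} (hT : 2 ≤ T) : T ^ (38/25 : ℝ) ≤ T ^ 2 := by
  rw [← Real.rpow_natCast T 2]
  exact Real.rpow_le_rpow_of_exponent_le (by linarith) (by norm_num)

private lemma f04_I0 {m : ℕ} {T : ℝ} (hm : 0 < m) (hT : 1 ≤ Real.log T)
    (h : (2 : ℝ) ^ (m - 1) ≤ T ^ 2) : (m : ℝ) ≤ 4 * Real.log T := by
  have h7 := Real.log_le_log (pow_pos two_pos _) h
  rw [Real.log_pow, Real.log_pow, Nat.cast_sub hm] at h7
  push_cast at h7
  have h8 := Real.log_two_gt_d9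
  have h10 : (1 : ℝ) ≤ m := by exact_mod_cast hm
  have h11 : ((m : ℝ) - 1) * (2 / 3) ≤ ((m : ℝ) - 1) * Real.log 2 :=
    mul_le_mul_of_nonneg_left (by linarith) (by linarith)
  linarith

private lemma f04_fin {s b a1 a2 κ Q : ℝ} (h1 : s ≤ κ / 3 * Q) (h2 : b ≤ a1 + a2)
    (h3 : a1 ≤ κ / 3 * Q) (h4 : a2 ≤ κ / 3 * Q) : s + b ≤ κ * Q := by
  linarith

private lemma f04_blk {K P T L M G : ℝ} (hK : 0 ≤ K) (hTL : 0 ≤ T * L ^ 2) (h5 : P * M ≤ G) :
    K * P * ((T + M) * (T * L ^ 2)) ≤ K * (T * (T * L ^ 2)) * P + K * (G * (T * L ^ 2)) := by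
  have h7 : K * P * ((T + M) * (T * L ^ 2)) =
      K * (T * (T * L ^ 2)) * P + K * ((P * M) * (T * L ^ 2)) := by ring
  rw [h7]
  exact add_le_add le_rfl (mul_le_mul_of_nonneg_left (mul_le_mul_of_nonneg_right h5 hTL) hK)

/-- (7.2), polynomial part: N = floor(T^(3/2)), l = log T/1500. n = 1 gives |Y1||Y2|; 2 <= n <= X0: coefficients -> 0;
n > X0: dyadic blocks Ioc M (2M), M = X0 2^i <= T^2, Cauchy-Schwarz and dual_sieve (b y = exp(..) of modulus 1). -/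
theorem poly_sum (r1 r2 d : ℝ) (h1 : r1 ≠ 0) (h2 : r2 ≠ 0) (hd : 0 < d) : ∀ κ : ℝ, 0 < κ → ∃ T0 : ℝ, 2 ≤ T0 ∧
    ∀ T : ℝ, T0 ≤ T → ∀ Y1 Y2 : Finset ℝ, (∀ y ∈ Y1, |y| ≤ T) → (∀ y ∈ Y2, |y| ≤ T) → Sep (d / Real.log T) Y1 →
    Sep (d / Real.log T) Y2 → ∀ x : ℝ,
    ‖∑ y1 ∈ Y1, ∑ y2 ∈ Y2, ((∑ n ∈ Finset.Icc 1 ⌊T ^ (3/2 : ℝ)⌋₊, (n : ℂ) ^ (-(1/2 + (r1 * y1 + r2 * y2 + x) * I))) *
      Mol 1 (Real.log T / 1500) (1/2 + (r1 * y1 + r2 * y2 + x) * I)) - (Y1.card : ℂ) * Y2.card‖ ≤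
      κ * (T * Real.log T) ^ 2 := by
  classical
  intro κ hκ
  obtain ⟨K, T1, hK, hT1, hblk⟩ := f04_block r1 r2 d h1 h2 hd
  -- choice of X0
  have hx := ((tendsto_rpow_neg_atTop (show (0 : ℝ) < 3 / 8 by norm_num)).comp
    tendsto_natCast_atTop_atTop).eventually (gt_mem_nhds (show (0 : ℝ) < κ / (15 * K) by positivity))
  obtain ⟨X0, hX0, hX1⟩ := (hx.and (eventually_ge_atTop 1)).exists
  simp only [Function.comp_apply] at hX0
  set δ : ℝ := κ / (3 * (X0 + 1) * K ^ 2) with hδdef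
  have hδ : 0 < δ := by positivity
  obtain ⟨T2, hT2⟩ := eventually_atTop.mp (f04_event (κ / 3) K δ (by positivity) hK hδ X0)
  refine ⟨max T1 T2, hT1.trans (le_max_left _ _), ?_⟩
  intro T hT Y1 Y2 hY1 hY2 hs1 hs2 x
  obtain ⟨hTt, hL1, hTK, hcsmall⟩ := hT2 T ((le_max_right _ _).trans hT)
  obtain ⟨hn1, hn2, hM⟩ := hblk T ((le_max_left _ _).trans hT) Y1 Y2 hY1 hY2 hs1 hs2
  have hT0 : 0 < T := two_pos.trans_le hTt
  have hT11 : 1 ≤ T := one_le_two.trans hTt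
  have hNz := f04_rng hTt
  set L := Real.log T with hL
  have hL0 : 0 ≤ L := zero_le_one.trans hL1
  set N := ⌊T ^ (3/2 : ℝ)⌋₊ with hN
  have hl : 0 < L / 1500 := div_pos (zero_lt_one.trans_le hL1) (by norm_num)
  have hN1 : 1 ≤ N := Nat.le_floor (by
    rw [Nat.cast_one]
    exact Real.one_le_rpow hT11 (by norm_num))
  rw [f04_exact r1 r2 x (L / 1500) N hN1 hl Y1 Y2]
  set z := ⌊Real.exp (L / 1500)⌋₊ with hz
  set W : ℕ → ℝ := fun n => |cN N (L / 1500) n| * (n : ℝ) ^ (-(1/2) : ℝ) *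
    (‖SS r1 Y1 n‖ * ‖SS r2 Y2 n‖) with hW
  have hW0 : ∀ n, 0 ≤ W n := fun n =>
    mul_nonneg (mul_nonneg (abs_nonneg _) (Real.rpow_nonneg (Nat.cast_nonneg n) _))
      (mul_nonneg (norm_nonneg _) (norm_nonneg _))
  have hnorm : ‖∑ n ∈ Finset.Ioc 1 (N * z), (cN N (L / 1500) n : ℂ) *
      (n : ℂ) ^ (-(1/2 + x * I : ℂ)) * (SS r1 Y1 n * SS r2 Y2 n)‖ ≤
      ∑ n ∈ Finset.Ioc 1 (N * z), W n := by
    refine (norm_sum_le _ _).trans (Finset.sum_le_sum fun n hn => le_of_eq ?_)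
    rw [Finset.mem_Ioc] at hn
    rw [norm_mul, norm_mul, norm_mul, Complex.norm_real, Real.norm_eq_abs,
      Complex.norm_natCast_cpow_of_pos (by omega)]
    have h3 : (-(1/2 + x * I : ℂ)).re = (-(1/2) : ℝ) := by simp
    rw [h3]
  refine hnorm.trans ?_
  -- the range of the sum
  have hNz2 : ((N * z : ℕ) : ℝ) ≤ T ^ 2 := hNz.trans (f04_rng2 hTt)
  -- number of blocks
  have hexI : ∃ I : ℕ, N * z ≤ X0 * 2 ^ I := by
    refine ⟨N * z, ?_⟩
    calc N * z ≤ 2 ^ (N * z) := Nat.lt_two_pow_self.le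
      _ ≤ X0 * 2 ^ (N * z) := Nat.le_mul_of_pos_left _ (by omega)
  set I0 := Nat.find hexI with hI0
  have hI0spec : N * z ≤ X0 * 2 ^ I0 := Nat.find_spec hexI
  have hI0min : ∀ i < I0, X0 * 2 ^ i < N * z := fun i hi => by
    have := Nat.find_min hexI hi
    omega
  have hI0le : (I0 : ℝ) ≤ 4 * L := by
    rcases Nat.eq_zero_or_pos I0 with h0 | hpos
    · rw [h0, Nat.cast_zero]
      exact mul_nonneg (by norm_num) hL0
    · have h3 := hI0min (I0 - 1) (by omega)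
      have h4 : 2 ^ (I0 - 1) ≤ X0 * 2 ^ (I0 - 1) := Nat.le_mul_of_pos_left _ (by omega)
      have h6 : ((2 ^ (I0 - 1) : ℕ) : ℝ) ≤ ((N * z : ℕ) : ℝ) := Nat.cast_le.mpr (h4.trans h3.le)
      rw [Nat.cast_pow] at h6
      exact f04_I0 hpos hL1 (h6.trans hNz2)
  -- blocks
  have hTL : 0 ≤ T * L ^ 2 := mul_nonneg hT0.le (sq_nonneg _)
  have hKG : 0 ≤ K * (T ^ (19/20 : ℝ) * (T * L ^ 2)) :=
    mul_nonneg hK.le (mul_nonneg (Real.rpow_nonneg hT0.le _) hTL)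
  have hdy := f04_dyadic W hW0 X0 (N * z) hX1 (K * (T * (T * L ^ 2)))
    (K * (T ^ (19/20 : ℝ) * (T * L ^ 2))) (mul_nonneg hK.le (mul_nonneg hT0.le hTL)) I0 hI0spec (by
    intro i hi
    have hM1 : 1 ≤ X0 * 2 ^ i := Nat.one_le_iff_ne_zero.mpr (by positivity)
    have h3 := hI0min i hi
    have h4 : ((X0 * 2 ^ i : ℕ) : ℝ) ≤ ((N * z : ℕ) : ℝ) := by exact_mod_cast h3.le
    have hb := hM (X0 * 2 ^ i) hM1 (h4.trans hNz2) (fun n => cN N (L / 1500) n)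
      (fun n => cN_facts.2.1 N (L / 1500) n hl)
    refine hb.trans ?_
    have hMpos : (0 : ℝ) < ((X0 * 2 ^ i : ℕ) : ℝ) := Nat.cast_pos.mpr hM1
    exact f04_blk hK.le hTL (f04_pw hMpos hT0 (h4.trans hNz)))
  -- small n
  have hsmall : ∑ n ∈ Finset.Ioc 1 X0, W n ≤ κ / 3 * (T * L) ^ 2 := by
    have hKTL : 0 ≤ K * T * L := mul_nonneg (mul_nonneg hK.le hT0.le) hL0
    have h3 : ∀ n ∈ Finset.Ioc 1 X0, W n ≤ δ * (K * T * L * (K * T * L)) := by
      intro n hn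
      have hn' := Finset.mem_Ioc.mp hn
      have h4 := hcsmall n hn
      have h5 : (n : ℝ) ^ (-(1/2) : ℝ) ≤ 1 :=
        Real.rpow_le_one_of_one_le_of_nonpos (Nat.one_le_cast.mpr hn'.1.le) (by norm_num)
      have h6 : ‖SS r1 Y1 n‖ ≤ K * T * L := (f04_SS_le r1 Y1 (by omega)).trans hn1
      have h7 : ‖SS r2 Y2 n‖ ≤ K * T * L := (f04_SS_le r2 Y2 (by omega)).trans hn2
      have h8 : |cN N (L / 1500) n| * (n : ℝ) ^ (-(1/2) : ℝ) ≤ δ := by
        have := mul_le_mul h4 h5 (Real.rpow_nonneg (Nat.cast_nonneg n) _) hδ.le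
        rwa [mul_one] at this
      exact mul_le_mul h8 (mul_le_mul h6 h7 (norm_nonneg _) hKTL)
        (mul_nonneg (norm_nonneg _) (norm_nonneg _)) hδ.le
    refine (Finset.sum_le_sum h3).trans ?_
    rw [Finset.sum_const, nsmul_eq_mul, Nat.card_Ioc]
    exact f04_sm X0 hκ hK
  -- splitting
  have hsplit : ∑ n ∈ Finset.Ioc 1 (N * z), W n ≤
      ∑ n ∈ Finset.Ioc 1 X0, W n + ∑ n ∈ Finset.Ioc X0 (N * z), W n := by
    rcases le_total X0 (N * z) with h3 | h3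
    · rw [Finset.sum_Ioc_consecutive W hX1 h3]
    · have h4 : ∑ n ∈ Finset.Ioc 1 (N * z), W n ≤ ∑ n ∈ Finset.Ioc 1 X0, W n :=
        Finset.sum_le_sum_of_subset_of_nonneg (Finset.Ioc_subset_Ioc_right h3) fun n _ _ => hW0 n
      exact h4.trans (le_add_of_nonneg_right (Finset.sum_nonneg fun n _ => hW0 n))
  refine hsplit.trans ?_
  exact f04_fin hsmall hdy (f04_m1 hK hX0) (f04_m2 hI0le hKG hTK hTL)

end LZ

end F_F04

section F_F05

open Complex MeasureTheory Set Filter Topology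
open scoped ComplexConjugate

namespace LZ

/-- the mollifier on the critical line -/
theorem F05_mol {l : ℝ} (hl : 0 < l) (t : ℝ) : ‖Mol 1 l (1/2 + t * I)‖ ≤ Real.exp l := by
  obtain ⟨_, _, h3⟩ := cf_sum 1 l zero_le_one le_rfl hl ⌊Real.exp l⌋₊
  refine le_trans ?_ h3
  unfold Mol
  refine norm_sum_le_of_le _ fun S hS => ?_
  have h1 : 0 < nS S := by
    unfold nS
    refine Finset.prod_pos fun p hp => ?_
    have h2 := Finset.mem_powerset.mp hS hp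
    exact (Finset.mem_filter.mp h2).2.pos
  have h4 : ‖(nS S : ℂ) ^ (-(1/2 + (t : ℂ) * I))‖ ≤ 1 := by
    rw [Complex.norm_natCast_cpow_of_pos h1]
    have h5 : (-(1/2 + (t : ℂ) * I)).re = -(1/2) := by simp
    rw [h5]
    exact Real.rpow_le_one_of_one_le_of_nonpos (by exact_mod_cast h1) (by norm_num)
  calc ‖(cf 1 l S : ℂ) * (nS S : ℂ) ^ (-(1/2 + (t : ℂ) * I))‖
      = |cf 1 l S| * ‖(nS S : ℂ) ^ (-(1/2 + (t : ℂ) * I))‖ := by
        rw [norm_mul, Complex.norm_real, Real.norm_eq_abs]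
    _ ≤ |cf 1 l S| * 1 := mul_le_mul_of_nonneg_left h4 (abs_nonneg _)
    _ = |cf 1 l S| := mul_one _

/-- the distance to the pole -/
theorem F05_pole (t : ℝ) : (1 + |t|) / 3 ≤ ‖(1/2 + (t : ℂ) * I) - 1‖ := by
  have h1 : ‖(1/2 + (t : ℂ) * I) - 1‖ ^ 2 = 1/4 + t ^ 2 := by
    rw [Complex.sq_norm, Complex.normSq_apply]
    simp
    ring
  have h2 : ((1 + |t|) / 3) ^ 2 ≤ ‖(1/2 + (t : ℂ) * I) - 1‖ ^ 2 := by
    rw [h1]
    nlinarith [sq_abs t, abs_nonneg t, sq_nonneg (2 * |t| - 1/2)]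
  exact (sq_le_sq₀ (by positivity) (norm_nonneg _)).mp h2

/-- one value -/
theorem F05_point {Cz : ℝ} (hz : ∀ (t : ℝ) (N : ℕ), 1 ≤ N →
    ‖riemannZeta (1/2 + t * I) - (∑ n ∈ Finset.Icc 1 N, (n : ℂ) ^ (-(1/2 + t * I)) +
      (N : ℂ) ^ (1 - (1/2 + t * I)) / ((1/2 + t * I) - 1) - (N : ℂ) ^ (-(1/2 + t * I)) / 2)‖ ≤
      Cz * (1 + |t|) ^ 2 * (N : ℝ) ^ (-(3/2) : ℝ)) {l : ℝ} (hl : 0 < l) (t : ℝ) {N : ℕ}
    (hN : 1 ≤ N) :
    ‖FF l (1/2 + t * I) - (∑ n ∈ Finset.Icc 1 N, (n : ℂ) ^ (-(1/2 + t * I))) *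
      Mol 1 l (1/2 + t * I)‖ ≤ (3 * (N : ℝ) ^ (1/2 : ℝ) * (1 / (1 + |t|)) +
        (N : ℝ) ^ (-(1/2) : ℝ) / 2 + Cz * (1 + |t|) ^ 2 * (N : ℝ) ^ (-(3/2) : ℝ)) * Real.exp l := by
  have hN0 : 0 < N := hN
  obtain ⟨s, hs⟩ : ∃ s : ℂ, s = 1/2 + t * I := ⟨_, rfl⟩
  obtain ⟨Sm, hSm⟩ : ∃ Sm : ℂ, Sm = ∑ n ∈ Finset.Icc 1 N, (n : ℂ) ^ (-s) := ⟨_, rfl⟩
  have h0 := hz t N hN
  have hmol := F05_mol hl t
  have hpole := F05_pole t
  rw [← hs] at h0 hmol hpole ⊢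
  rw [← hSm] at h0 ⊢
  have h1 : ‖(N : ℂ) ^ (1 - s) / (s - 1)‖ ≤ 3 * (N : ℝ) ^ (1/2 : ℝ) * (1 / (1 + |t|)) := by
    rw [norm_div, Complex.norm_natCast_cpow_of_pos hN0]
    have h2 : (1 - s).re = 1/2 := by
      rw [hs]
      simp
      norm_num
    rw [h2]
    have h3 : 0 < 1 + |t| := by positivity
    rw [div_le_iff₀ (by linarith)]
    have h4 : 0 ≤ (N : ℝ) ^ (1/2 : ℝ) := Real.rpow_nonneg (Nat.cast_nonneg _) _
    calc (N : ℝ) ^ (1/2 : ℝ) = 3 * (N : ℝ) ^ (1/2 : ℝ) * (1 / (1 + |t|)) * ((1 + |t|) / 3) := by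
          field_simp
      _ ≤ 3 * (N : ℝ) ^ (1/2 : ℝ) * (1 / (1 + |t|)) * ‖s - 1‖ :=
          mul_le_mul_of_nonneg_left hpole (by positivity)
  have h5 : ‖(N : ℂ) ^ (-s) / 2‖ = (N : ℝ) ^ (-(1/2) : ℝ) / 2 := by
    rw [norm_div, Complex.norm_natCast_cpow_of_pos hN0]
    have h2 : (-s).re = -(1/2) := by
      rw [hs]
      simp
    rw [h2]
    norm_num
  have h6 : ‖riemannZeta s - Sm‖ ≤ 3 * (N : ℝ) ^ (1/2 : ℝ) * (1 / (1 + |t|)) +
        (N : ℝ) ^ (-(1/2) : ℝ) / 2 + Cz * (1 + |t|) ^ 2 * (N : ℝ) ^ (-(3/2) : ℝ) := by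
    have h7 : riemannZeta s - Sm = (N : ℂ) ^ (1 - s) / (s - 1) - (N : ℂ) ^ (-s) / 2 +
        (riemannZeta s - (Sm + (N : ℂ) ^ (1 - s) / (s - 1) - (N : ℂ) ^ (-s) / 2)) := by ring
    rw [h7]
    refine (norm_add_le _ _).trans (add_le_add ((norm_sub_le _ _).trans ?_) h0)
    exact add_le_add h1 h5.le
  have h8 : FF l s - Sm * Mol 1 l s = (riemannZeta s - Sm) * Mol 1 l s := by
    unfold FF
    ring
  rw [h8, norm_mul]
  exact mul_le_mul h6 hmol (norm_nonneg _) ((norm_nonneg _).trans h6)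

private theorem F05_half {a b : ℝ} (h : a < b + 1) (h1 : 1 ≤ b) : a / 2 ≤ b := by linarith

private theorem F05_lg {L D P : ℝ} (h : D ≤ L) (h1 : L ≤ P) : 3 * L + D ≤ 4 * P := by linarith

private theorem F05_Ta {N T : ℝ} (hN : 0 < N) (hT : 0 < T) (h : N ≤ T ^ (3/2 : ℝ)) :
    N ^ (1/2 : ℝ) ≤ T ^ (3/4 : ℝ) := by
  refine (Real.rpow_le_rpow hN.le h (by norm_num)).trans (le_of_eq ?_)
  rw [← Real.rpow_mul hT.le]
  norm_num

private theorem F05_Tb {N T : ℝ} (hT : 0 < T) (h : T ^ (3/2 : ℝ) / 2 ≤ N) (a : ℝ)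
    (ha : 0 ≤ a) : N ^ (-a) ≤ 2 ^ a * T ^ (-(3/2 * a)) := by
  have h0 : 0 < T ^ (3/2 : ℝ) := Real.rpow_pos_of_pos hT _
  refine (Real.rpow_le_rpow_of_nonpos (half_pos h0) h (neg_nonpos.mpr ha)).trans (le_of_eq ?_)
  rw [Real.div_rpow h0.le (by norm_num), ← Real.rpow_mul hT.le,
    Real.rpow_neg (by norm_num) a, div_inv_eq_mul, mul_comm, mul_neg]

private theorem F05_Tc {N T : ℝ} (hT : 1 ≤ T) (h : T ^ (3/2 : ℝ) / 2 ≤ N) :
    N ^ (-(1/2) : ℝ) / 2 ≤ T ^ (-(1/4) : ℝ) := by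
  have hT0 : 0 < T := zero_lt_one.trans_le hT
  have h3 := F05_Tb hT0 h (1/2) (by norm_num)
  have h4 : (2 : ℝ) ^ (1/2 : ℝ) ≤ 2 := by
    have := Real.rpow_le_rpow_of_exponent_le (x := 2) (y := 1/2) (z := 1) (by norm_num) (by norm_num)
    rwa [Real.rpow_one] at this
  have h5 : T ^ (-(3/2 * (1/2)) : ℝ) ≤ T ^ (-(1/4) : ℝ) :=
    Real.rpow_le_rpow_of_exponent_le hT (by norm_num)
  rw [div_le_iff₀ two_pos, mul_comm]
  exact h3.trans (mul_le_mul h4 h5 (Real.rpow_nonneg hT0.le _) zero_le_two)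

private theorem F05_Td {N T : ℝ} (hT : 0 < T) (h : T ^ (3/2 : ℝ) / 2 ≤ N) :
    N ^ (-(3/2) : ℝ) ≤ 3 * T ^ (-(9/4) : ℝ) := by
  have h3 := F05_Tb hT h (3/2) (by norm_num)
  have h4 : (2 : ℝ) ^ (3/2 : ℝ) ≤ 3 := by
    have h5 : ((2 : ℝ) ^ (3/2 : ℝ)) ^ 2 ≤ 3 ^ 2 := by
      rw [← Real.rpow_natCast, ← Real.rpow_mul (by norm_num)]
      norm_num
    exact (sq_le_sq₀ (Real.rpow_nonneg zero_le_two _) (by norm_num)).mp h5
  rw [show (-(3/2 * (3/2)) : ℝ) = -(9/4) by norm_num] at h3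
  exact h3.trans (mul_le_mul_of_nonneg_right h4 (Real.rpow_nonneg hT.le _))

private theorem F05_q {T Cz B' u n : ℝ} (hT : 0 < T) (hCz : 0 < Cz) (h4 : u ^ 2 ≤ B' ^ 2 * T ^ 2)
    (hn0 : 0 ≤ n) (hn : n ≤ 3 * T ^ (-(9/4) : ℝ)) :
    Cz * u ^ 2 * n ≤ 3 * Cz * B' ^ 2 * T ^ (-(1/4) : ℝ) := by
  calc Cz * u ^ 2 * n
      ≤ Cz * (B' ^ 2 * T ^ 2) * (3 * T ^ (-(9/4) : ℝ)) :=
        mul_le_mul (mul_le_mul_of_nonneg_left h4 hCz.le) hn hn0
          (mul_nonneg hCz.le (mul_nonneg (sq_nonneg _) (sq_nonneg _)))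
    _ = 3 * Cz * B' ^ 2 * (T ^ 2 * T ^ (-(9/4) : ℝ)) := by ring
    _ = 3 * Cz * B' ^ 2 * T ^ (-(1/4) : ℝ) := by
        congr 1
        rw [← Real.rpow_natCast, ← Real.rpow_add hT]
        congr 1
        norm_num

private theorem F05_e {T C D L κ : ℝ} (hT : 1 ≤ T) (h3 : 3 * L + D ≤ 4 * T ^ (1/16 : ℝ))
    (hκ : C ^ 2 * 4 * T ^ (-(1/16) : ℝ) ≤ κ / 2) :
    C ^ 2 * ((3 * L + D) * (T ^ (-(1/4) : ℝ) * T ^ (1/1500 : ℝ))) ≤ κ / 2 := by
  have hT00 : 0 < T := zero_lt_one.trans_le hT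
  have h0 : 0 ≤ T ^ (-(1/4) : ℝ) * T ^ (1/1500 : ℝ) :=
    mul_nonneg (Real.rpow_nonneg hT00.le _) (Real.rpow_nonneg hT00.le _)
  have h4 : T ^ (1/16 : ℝ) * (T ^ (-(1/4) : ℝ) * T ^ (1/1500 : ℝ)) ≤ T ^ (-(1/16) : ℝ) := by
    rw [← Real.rpow_add hT00, ← Real.rpow_add hT00]
    exact Real.rpow_le_rpow_of_exponent_le hT (by norm_num)
  calc C ^ 2 * ((3 * L + D) * (T ^ (-(1/4) : ℝ) * T ^ (1/1500 : ℝ)))
      ≤ C ^ 2 * ((4 * T ^ (1/16 : ℝ)) * (T ^ (-(1/4) : ℝ) * T ^ (1/1500 : ℝ))) :=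
        mul_le_mul_of_nonneg_left (mul_le_mul_of_nonneg_right h3 h0) (sq_nonneg _)
    _ = C ^ 2 * 4 * (T ^ (1/16 : ℝ) * (T ^ (-(1/4) : ℝ) * T ^ (1/1500 : ℝ))) := by ring
    _ ≤ C ^ 2 * 4 * T ^ (-(1/16) : ℝ) :=
        mul_le_mul_of_nonneg_left h4 (mul_nonneg (sq_nonneg _) (by norm_num))
    _ ≤ κ / 2 := hκ

private theorem F05_f {T C D L : ℝ} (hT : 0 < T) :
    (C * T * L) * ((3 * T ^ (3/4 : ℝ) * (C * L ^ 2) +
      (C * T * L) * (D * T ^ (-(1/4) : ℝ))) * T ^ (1/1500 : ℝ)) =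
      C ^ 2 * ((3 * L + D) * (T ^ (-(1/4) : ℝ) * T ^ (1/1500 : ℝ))) * (T * L) ^ 2 := by
  have h3 : T ^ (3/4 : ℝ) = T * T ^ (-(1/4) : ℝ) := by
    nth_rewrite 2 [← Real.rpow_one T]
    rw [← Real.rpow_add hT]
    norm_num
  rw [h3]
  ring

private theorem F05_g {T C D L : ℝ} (hT : 0 < T) (hC : 0 < C) (hD : 0 < D) (hL : 0 < L) :
    0 ≤ (3 * T ^ (3/4 : ℝ) * (C * L ^ 2) +
      (C * T * L) * (D * T ^ (-(1/4) : ℝ))) * T ^ (1/1500 : ℝ) := by
  positivity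

private theorem F05_k {T A B t : ℝ} (hT : 1 ≤ T) (h3 : |t| ≤ A * T) (hB : B = 1 + A) :
    (1 + |t|) ^ 2 ≤ B ^ 2 * T ^ 2 := by
  rw [← mul_pow, hB]
  refine pow_le_pow_left₀ (add_nonneg zero_le_one (abs_nonneg t)) ?_ 2
  linarith

/-- (7.2) complete: zeta_em, |Mol| <= exp(l), pole term with sep_count. -/
theorem main_sum (r1 r2 d B : ℝ) (h1 : r1 ≠ 0) (h2 : r2 ≠ 0) (hd : 0 < d) (hB : 1 ≤ B) : ∀ κ : ℝ, 0 < κ →
    ∃ T0 : ℝ, 2 ≤ T0 ∧
    ∀ T : ℝ, T0 ≤ T → ∀ Y1 Y2 : Finset ℝ, (∀ y ∈ Y1, |y| ≤ T) → (∀ y ∈ Y2, |y| ≤ T) → Sep (d / Real.log T) Y1 →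
    Sep (d / Real.log T) Y2 → ∀ x : ℝ, |x| ≤ B * T →
    ‖∑ y1 ∈ Y1, ∑ y2 ∈ Y2, FF (Real.log T / 1500) (1/2 + (r1 * y1 + r2 * y2 + x) * I) - (Y1.card : ℂ) * Y2.card‖ ≤
      κ * (T * Real.log T) ^ 2 := by
  intro κ hκ
  obtain ⟨Cz, hCz, hz⟩ := zeta_em
  obtain ⟨C, T1, hC, hT1, hsep⟩ := sep_count r2 d h2 hd
  obtain ⟨T2, hT2, hpoly⟩ := poly_sum r1 r2 d h1 h2 hd (κ / 2) (half_pos hκ)
  obtain ⟨B', hB'⟩ : ∃ B', B' = 1 + |r1| + |r2| + B := ⟨_, rfl⟩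
  have hB'0 : 0 < B' := by rw [hB']; positivity
  obtain ⟨D, hD⟩ : ∃ D, D = 1 + 3 * Cz * B' ^ 2 := ⟨_, rfl⟩
  have hD0 : 0 < D := by rw [hD]; positivity
  have hev : ∀ᶠ T : ℝ in atTop, (T1 ≤ T ∧ T2 ≤ T ∧ 2 ≤ T) ∧
      (1 ≤ Real.log T ∧ D ≤ Real.log T) ∧ Real.log T ≤ T ^ (1/16 : ℝ) ∧
      C ^ 2 * 4 * T ^ (-(1/16) : ℝ) ≤ κ / 2 := by
    refine Filter.Eventually.and ?_ (Filter.Eventually.and ?_ (Filter.Eventually.and ?_ ?_))
    · exact (eventually_ge_atTop T1).and ((eventually_ge_atTop _).and (eventually_ge_atTop _))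
    · exact (Real.tendsto_log_atTop.eventually_ge_atTop _).and
        (Real.tendsto_log_atTop.eventually_ge_atTop _)
    · have h1 := (isLittleO_log_rpow_atTop (r := 1/16) (by norm_num)).bound (zero_lt_one)
      filter_upwards [h1, eventually_ge_atTop (1 : ℝ)] with T hT hT1
      have hT0 : 0 < T := by linarith
      rw [one_mul, Real.norm_of_nonneg (Real.log_nonneg hT1),
        Real.norm_of_nonneg (Real.rpow_nonneg hT0.le _)] at hT
      exact hT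
    · have h1 : Tendsto (fun T : ℝ => C ^ 2 * 4 * T ^ (-(1/16) : ℝ)) atTop
          (𝓝 (C ^ 2 * 4 * 0)) := (tendsto_rpow_neg_atTop (by norm_num)).const_mul _
      rw [mul_zero] at h1
      exact (h1.eventually_le_const (by positivity))
  obtain ⟨T0, hT0⟩ := Filter.eventually_atTop.mp hev
  refine ⟨max T0 2, le_max_right _ _, ?_⟩
  intro T hT Y1 Y2 hY1 hY2 hS1 hS2 x hx
  obtain ⟨⟨hTT1, hTT2, hT2'⟩, ⟨hL1, hLD⟩, hLT, hTκ⟩ := hT0 T ((le_max_left _ _).trans hT)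
  have hT00 : 0 < T := two_pos.trans_le hT2'
  have hT11 : 1 ≤ T := one_le_two.trans hT2'
  have hL : 0 < Real.log T := zero_lt_one.trans_le hL1
  obtain ⟨N, hN⟩ : ∃ N, N = ⌊T ^ (3/2 : ℝ)⌋₊ := ⟨_, rfl⟩
  have hTN1 : 1 ≤ T ^ (3/2 : ℝ) := Real.one_le_rpow hT11 (by norm_num)
  have hNle : (N : ℝ) ≤ T ^ (3/2 : ℝ) := by
    rw [hN]
    exact Nat.floor_le (zero_le_one.trans hTN1)
  have hN1 : 1 ≤ N := by
    rw [hN]
    exact Nat.le_floor (by exact_mod_cast hTN1)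
  have hN0 : (0 : ℝ) < N := by exact_mod_cast hN1
  have hNge : T ^ (3/2 : ℝ) / 2 ≤ N := by
    have h3 : T ^ (3/2 : ℝ) < N + 1 := by
      rw [hN]
      exact Nat.lt_floor_add_one _
    exact F05_half h3 (by exact_mod_cast hN1)
  have hNa : (N : ℝ) ^ (1/2 : ℝ) ≤ T ^ (3/4 : ℝ) := F05_Ta hN0 hT00 hNle
  have hNb : (N : ℝ) ^ (-(1/2) : ℝ) / 2 ≤ T ^ (-(1/4) : ℝ) := F05_Tc hT11 hNge
  have hNc : (N : ℝ) ^ (-(3/2) : ℝ) ≤ 3 * T ^ (-(9/4) : ℝ) := F05_Td hT00 hNge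
  have hlpos : 0 < Real.log T / 1500 := div_pos hL (by norm_num)
  have hexp : Real.exp (Real.log T / 1500) = T ^ (1/1500 : ℝ) := by
    rw [Real.rpow_def_of_pos hT00]
    congr 1
    ring
  -- the pointwise bound
  have hpt : ∀ y1 ∈ Y1, ∀ y2 ∈ Y2,
      ‖FF (Real.log T / 1500) (1/2 + (r1 * y1 + r2 * y2 + x) * I) -
        (∑ n ∈ Finset.Icc 1 N, (n : ℂ) ^ (-(1/2 + (r1 * y1 + r2 * y2 + x) * I))) *
          Mol 1 (Real.log T / 1500) (1/2 + (r1 * y1 + r2 * y2 + x) * I)‖ ≤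
      (3 * T ^ (3/4 : ℝ) * (1 / (1 + |r2 * y2 + (r1 * y1 + x)|)) + D * T ^ (-(1/4) : ℝ)) *
        T ^ (1/1500 : ℝ) := by
    intro y1 hy1 y2 hy2
    obtain ⟨t, ht⟩ : ∃ t : ℝ, t = r1 * y1 + r2 * y2 + x := ⟨_, rfl⟩
    have htc : ((r1 : ℂ) * y1 + r2 * y2 + x) = (t : ℂ) := by
      rw [ht]
      push_cast
      ring
    have ht' : r2 * y2 + (r1 * y1 + x) = t := by
      rw [ht]
      ring
    rw [htc, ht', ← hexp]
    refine (F05_point hz hlpos t hN1).trans ?_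
    refine mul_le_mul_of_nonneg_right ?_ (Real.exp_pos _).le
    have h3 : |t| ≤ (|r1| + |r2| + B) * T := by
      rw [ht]
      calc |r1 * y1 + r2 * y2 + x| ≤ |r1 * y1| + |r2 * y2| + |x| := abs_add_three _ _ _
        _ ≤ |r1| * T + |r2| * T + B * T := by
            rw [abs_mul, abs_mul]
            exact add_le_add (add_le_add (mul_le_mul_of_nonneg_left (hY1 y1 hy1) (abs_nonneg _))
              (mul_le_mul_of_nonneg_left (hY2 y2 hy2) (abs_nonneg _))) hx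
        _ = (|r1| + |r2| + B) * T := by ring
    have h4 : (1 + |t|) ^ 2 ≤ B' ^ 2 * T ^ 2 := F05_k hT11 h3 (by rw [hB']; ring)
    have h5 : (3 * (N : ℝ) ^ (1/2 : ℝ)) * (1 / (1 + |t|)) ≤
        3 * T ^ (3/4 : ℝ) * (1 / (1 + |t|)) :=
      mul_le_mul_of_nonneg_right (mul_le_mul_of_nonneg_left hNa zero_le_three)
        (one_div_nonneg.mpr (add_nonneg zero_le_one (abs_nonneg t)))
    have h6 : Cz * (1 + |t|) ^ 2 * (N : ℝ) ^ (-(3/2) : ℝ) ≤
        3 * Cz * B' ^ 2 * T ^ (-(1/4) : ℝ) :=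
      F05_q hT00 hCz h4 (Real.rpow_nonneg hN0.le _) hNc
    have h7 : D * T ^ (-(1/4) : ℝ) = T ^ (-(1/4) : ℝ) + 3 * Cz * B' ^ 2 * T ^ (-(1/4) : ℝ) := by
      rw [hD]
      ring
    rw [h7, ← add_assoc]
    exact add_le_add (add_le_add h5 hNb) h6
  -- counting
  obtain ⟨hc1, _⟩ := hsep T hTT1 Y1 hY1 hS1
  obtain ⟨hc2, hr2⟩ := hsep T hTT1 Y2 hY2 hS2
  have hE0 : 0 < T ^ (1/1500 : ℝ) := Real.rpow_pos_of_pos hT00 _
  have hsum : ‖∑ y1 ∈ Y1, ∑ y2 ∈ Y2,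
      (FF (Real.log T / 1500) (1/2 + (r1 * y1 + r2 * y2 + x) * I) -
        (∑ n ∈ Finset.Icc 1 N, (n : ℂ) ^ (-(1/2 + (r1 * y1 + r2 * y2 + x) * I))) *
          Mol 1 (Real.log T / 1500) (1/2 + (r1 * y1 + r2 * y2 + x) * I))‖ ≤
      κ / 2 * (T * Real.log T) ^ 2 := by
    calc ‖∑ y1 ∈ Y1, ∑ y2 ∈ Y2,
      (FF (Real.log T / 1500) (1/2 + (r1 * y1 + r2 * y2 + x) * I) -
        (∑ n ∈ Finset.Icc 1 N, (n : ℂ) ^ (-(1/2 + (r1 * y1 + r2 * y2 + x) * I))) *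
          Mol 1 (Real.log T / 1500) (1/2 + (r1 * y1 + r2 * y2 + x) * I))‖
        ≤ ∑ y1 ∈ Y1, ∑ y2 ∈ Y2, (3 * T ^ (3/4 : ℝ) * (1 / (1 + |r2 * y2 + (r1 * y1 + x)|)) +
            D * T ^ (-(1/4) : ℝ)) * T ^ (1/1500 : ℝ) :=
          norm_sum_le_of_le _ fun y1 hy1 => norm_sum_le_of_le _ fun y2 hy2 => hpt y1 hy1 y2 hy2
      _ ≤ ∑ y1 ∈ Y1, (3 * T ^ (3/4 : ℝ) * (C * Real.log T ^ 2) +
            (C * T * Real.log T) * (D * T ^ (-(1/4) : ℝ))) * T ^ (1/1500 : ℝ) := by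
          refine Finset.sum_le_sum fun y1 hy1 => ?_
          rw [← Finset.sum_mul]
          refine mul_le_mul_of_nonneg_right ?_ hE0.le
          rw [Finset.sum_add_distrib, ← Finset.mul_sum, Finset.sum_const, nsmul_eq_mul]
          refine add_le_add (mul_le_mul_of_nonneg_left (hr2 _)
            (mul_nonneg zero_le_three (Real.rpow_nonneg hT00.le _))) ?_
          exact mul_le_mul_of_nonneg_right hc2 (mul_nonneg hD0.le (Real.rpow_nonneg hT00.le _))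
      _ = Y1.card * ((3 * T ^ (3/4 : ℝ) * (C * Real.log T ^ 2) +
            (C * T * Real.log T) * (D * T ^ (-(1/4) : ℝ))) * T ^ (1/1500 : ℝ)) := by
          rw [Finset.sum_const, nsmul_eq_mul]
      _ ≤ (C * T * Real.log T) * ((3 * T ^ (3/4 : ℝ) * (C * Real.log T ^ 2) +
            (C * T * Real.log T) * (D * T ^ (-(1/4) : ℝ))) * T ^ (1/1500 : ℝ)) :=
          mul_le_mul_of_nonneg_right hc1 (F05_g hT00 hC hD0 hL)
      _ = C ^ 2 * ((3 * Real.log T + D) * (T ^ (-(1/4) : ℝ) * T ^ (1/1500 : ℝ))) *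
            (T * Real.log T) ^ 2 := by
          exact F05_f hT00
      _ ≤ κ / 2 * (T * Real.log T) ^ 2 :=
          mul_le_mul_of_nonneg_right (F05_e hT11 (F05_lg hLD hLT) hTκ) (sq_nonneg _)
  have hp := hpoly T hTT2 Y1 Y2 hY1 hY2 hS1 hS2 x
  rw [← hN] at hp
  have hsplit : ∑ y1 ∈ Y1, ∑ y2 ∈ Y2,
      FF (Real.log T / 1500) (1/2 + (r1 * y1 + r2 * y2 + x) * I) - (Y1.card : ℂ) * Y2.card =
      (∑ y1 ∈ Y1, ∑ y2 ∈ Y2,
      (FF (Real.log T / 1500) (1/2 + (r1 * y1 + r2 * y2 + x) * I) -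
        (∑ n ∈ Finset.Icc 1 N, (n : ℂ) ^ (-(1/2 + (r1 * y1 + r2 * y2 + x) * I))) *
          Mol 1 (Real.log T / 1500) (1/2 + (r1 * y1 + r2 * y2 + x) * I))) +
      (∑ y1 ∈ Y1, ∑ y2 ∈ Y2,
        ((∑ n ∈ Finset.Icc 1 N, (n : ℂ) ^ (-(1/2 + (r1 * y1 + r2 * y2 + x) * I))) *
          Mol 1 (Real.log T / 1500) (1/2 + (r1 * y1 + r2 * y2 + x) * I)) -
        (Y1.card : ℂ) * Y2.card) := by
    simp only [Finset.sum_sub_distrib]
    ring
  rw [hsplit]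
  calc _ ≤ κ / 2 * (T * Real.log T) ^ 2 + κ / 2 * (T * Real.log T) ^ 2 :=
        (norm_add_le _ _).trans (add_le_add hsum hp)
    _ = κ * (T * Real.log T) ^ 2 := by ring

end LZ

end F_F05

section F_Q16

open Complex MeasureTheory Set Filter Topology
open scoped ComplexConjugate

namespace LZ

private theorem Q16_EP {p : ℕ} (hp : p.Prime) (A : Fin 4 → ℂ) (C : ℂ) :
    EP (fun j => -(((![1, 0, 1, 0] : Fin 4 → ℝ) j : ℝ) : ℂ) * (p : ℂ) ^ (-(A j))) ((p : ℂ) ^ C) =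
      1 - (p : ℂ) ^ (-(A 0)) - (p : ℂ) ^ (-(A 2)) + (p : ℂ) ^ (-(A 0 + A 2 - C)) := by
  have hp0 : (p : ℂ) ≠ 0 := by exact_mod_cast hp.ne_zero
  have e : (p : ℂ) ^ (-(A 0 + A 2 - C)) = (p : ℂ) ^ C * ((p : ℂ) ^ (-(A 0)) * (p : ℂ) ^ (-(A 2))) := by
    rw [← cpow_add _ _ hp0, ← cpow_add _ _ hp0]
    congr 1
    ring
  rw [e]
  unfold EP
  simp
  ring

private theorem Q16_bound : ∃ K : ℝ, 0 < K ∧ ∀ (z : ℕ) (A B C : ℂ), 1 < A.re → 1 < B.re → 1 < (A + B - C).re →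
    |C.re - 1| ≤ 1 →
    ‖∏ p ∈ PP z, (1 - (p : ℂ) ^ (-A) - (p : ℂ) ^ (-B) + (p : ℂ) ^ (-(A + B - C)))‖ ≤
      K * Real.exp (R (A.re : ℂ) + R (B.re : ℂ) + R ((A + B - C).re : ℂ)) := by
  obtain ⟨K, hK, hb⟩ := prod_bound
  obtain ⟨-, -, hRz, -, -⟩ := Rz_facts
  refine ⟨K, hK, ?_⟩
  intro z A B C hA hB hD hC
  have hC' := abs_le.mp hC
  have h1 := hb z ![1, 0, 1, 0] (by intro j; fin_cases j <;> simp) ![A, 3, B, 3] C
    (by intro j; fin_cases j <;> simp <;> linarith)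
    (by simp only [Matrix.cons_val]; linarith)
    (by simp only [Matrix.cons_val, sub_re, add_re]; norm_num; linarith)
    (by simp only [Matrix.cons_val, sub_re, add_re]; norm_num; linarith)
    (by simp only [Matrix.cons_val, sub_re, add_re]; norm_num; linarith)
  have h2 : ∏ p ∈ PP z, (1 - (p : ℂ) ^ (-A) - (p : ℂ) ^ (-B) + (p : ℂ) ^ (-(A + B - C))) =
      ∏ p ∈ PP z, EP (fun j => -(((![1, 0, 1, 0] : Fin 4 → ℝ) j : ℝ) : ℂ) *
        (p : ℂ) ^ (-((![A, 3, B, 3] : Fin 4 → ℂ) j))) ((p : ℂ) ^ C) := by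
    refine Finset.prod_congr rfl (fun p hp => ?_)
    have hp' : p.Prime := (Finset.mem_filter.mp hp).2
    rw [Q16_EP hp']
    simp
  rw [h2]
  refine h1.trans ?_
  refine mul_le_mul_of_nonneg_left ?_ hK.le
  refine Real.exp_le_exp.mpr ?_
  have h3 : SR (Rz z) ![1, 0, 1, 0] ![A, 3, B, 3] C = -(Rz z A + Rz z B) + Rz z (A + B - C) := by
    unfold SR
    simp [Fin.sum_univ_four]
  rw [h3]
  have r1 := abs_le.mp (hRz z A hA)
  have r2 := abs_le.mp (hRz z B hB)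
  have r3 := abs_le.mp (hRz z (A + B - C) hD)
  linarith

/-- limit z to infinity in QQ_integral for lam = (1,0,1,0): EP = 1-p^(-A)-p^(-B)+p^(-D), D = A+B-C; domination as in
QQ_bound. The variables u 1, u 3 do not occur; keep the integral over Fin 4 → ℝ. -/
theorem QQ_mu_integral : ∃ l0 : ℝ, 1 ≤ l0 ∧ ∀ l : ℝ, l0 ≤ l → ∀ (e : Fin 4 → ℂ) (e4 : ℂ),
    |(e 0).re| ≤ 1 / (8 * l) → |(e 2).re| ≤ 1 / (8 * l) → |e4.re| ≤ 1 / (8 * l) →
    QQ ⌊Real.exp l⌋₊ ![1, 0, 1, 0] l e e4 = ∫ u : Fin 4 → ℝ, (∏ j, kk (u j)) *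
      (riemannZeta (Aex l e u 0 + Aex l e u 2 - (1 + e4)) /
        (riemannZeta (Aex l e u 0) * riemannZeta (Aex l e u 2)) *
        R1 (Aex l e u 0) (Aex l e u 2) (Aex l e u 0 + Aex l e u 2 - (1 + e4))) := by
  obtain ⟨K, hK, hb⟩ := Q16_bound
  obtain ⟨hkc, hki⟩ := kk_facts
  refine ⟨1, le_rfl, ?_⟩
  intro l hl e e4 h0 h2 h4
  have hl0 : 0 < l := by linarith
  have h0' := abs_le.mp h0
  have h2' := abs_le.mp h2
  have h4' := abs_le.mp h4
  have h8 : 1 / (8 * l) = 1 / l / 8 := by field_simp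
  have hl1 : 0 < 1 / l := by positivity
  have hl2 : 1 / l ≤ 1 := by rw [div_le_one hl0]; exact hl
  rw [h8] at h0' h2' h4'
  have hAre : ∀ (u : Fin 4 → ℝ) (j : Fin 4), (Aex l e u j).re = 1 + (e j).re + 1 / l := by
    intro u j
    unfold Aex
    rw [add_re, add_re, one_re, div_ofReal_re, add_re, one_re, re_ofReal_mul, I_re]
    ring
  have hDre : ∀ (u : Fin 4 → ℝ), (Aex l e u 0 + Aex l e u 2 - (1 + e4)).re =
      1 + (e 0).re + (e 2).re - e4.re + 2 / l := by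
    intro u
    rw [sub_re, add_re, add_re, one_re, hAre, hAre]
    ring
  have h2l : 2 / l = 2 * (1 / l) := by ring
  set F : ℕ → (Fin 4 → ℝ) → ℂ := fun z u => (∏ j, kk (u j)) *
    ∏ p ∈ PP z, (1 - (p : ℂ) ^ (-(Aex l e u 0)) - (p : ℂ) ^ (-(Aex l e u 2)) +
      (p : ℂ) ^ (-(Aex l e u 0 + Aex l e u 2 - (1 + e4)))) with hF
  have hFQ : ∀ z : ℕ, QQ z ![1, 0, 1, 0] l e e4 = ∫ u, F z u := by
    intro z
    rw [QQ_integral z _ l hl0 e e4]
    refine integral_congr_ae (Eventually.of_forall (fun u => ?_))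
    simp only [hF]
    congr 1
    refine Finset.prod_congr rfl (fun p hp => ?_)
    exact Q16_EP (Finset.mem_filter.mp hp).2 _ _
  have hAc : ∀ j : Fin 4, Continuous (fun u : Fin 4 → ℝ => Aex l e u j) := by
    intro j
    unfold Aex
    fun_prop
  have hFc : ∀ z : ℕ, Continuous (F z) := by
    intro z
    have h1 : Continuous (fun u : Fin 4 → ℝ => ∏ j, kk (u j)) :=
      continuous_finsetProd _ (fun j _ => hkc.comp (continuous_apply j))
    refine h1.mul (continuous_finsetProd _ (fun p hp => ?_))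
    have hp0 : (p : ℂ) ≠ 0 := by exact_mod_cast (Finset.mem_filter.mp hp).2.ne_zero
    have c1 : Continuous (fun u : Fin 4 → ℝ => (p : ℂ) ^ (-(Aex l e u 0))) :=
      Continuous.const_cpow (hAc 0).neg (Or.inl hp0)
    have c2 : Continuous (fun u : Fin 4 → ℝ => (p : ℂ) ^ (-(Aex l e u 2))) :=
      Continuous.const_cpow (hAc 2).neg (Or.inl hp0)
    have c3 : Continuous (fun u : Fin 4 → ℝ => (p : ℂ) ^ (-(Aex l e u 0 + Aex l e u 2 - (1 + e4)))) :=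
      Continuous.const_cpow (((hAc 0).add (hAc 2)).sub continuous_const).neg (Or.inl hp0)
    exact ((continuous_const.sub c1).sub c2).add c3
  set M : ℝ := K * Real.exp (R (((1 + (e 0).re + 1 / l : ℝ)) : ℂ) + R ((1 + (e 2).re + 1 / l : ℝ) : ℂ) +
    R ((1 + (e 0).re + (e 2).re - e4.re + 2 / l : ℝ) : ℂ)) with hM
  have hki2 : Integrable (fun u : ℝ => ‖kk u‖) := by
    refine Integrable.mono' hki hkc.norm.aestronglyMeasurable (Eventually.of_forall (fun u => ?_))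
    rw [norm_norm]
    have : (1:ℝ) ≤ (1 + |u|) ^ 16 := one_le_pow₀ (by linarith [abs_nonneg u])
    nlinarith [norm_nonneg (kk u)]
  have hbi : Integrable (fun u : Fin 4 → ℝ => (∏ j, ‖kk (u j)‖) * M) :=
    (Integrable.fintype_prod (f := fun _ : Fin 4 => fun x : ℝ => ‖kk x‖) (fun _ => hki2)).mul_const M
  have hFb : ∀ z : ℕ, ∀ u : Fin 4 → ℝ, ‖F z u‖ ≤ (∏ j, ‖kk (u j)‖) * M := by
    intro z u
    simp only [hF]
    rw [norm_mul, norm_prod]
    refine mul_le_mul_of_nonneg_left ?_ (Finset.prod_nonneg (fun j _ => norm_nonneg _))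
    have h5 := hb z (Aex l e u 0) (Aex l e u 2) (1 + e4) (by rw [hAre]; linarith) (by rw [hAre]; linarith)
      (by rw [hDre, h2l]; linarith) (by
        rw [add_re, one_re, add_sub_cancel_left]
        rw [abs_le]
        constructor <;> linarith)
    rw [hAre, hAre, hDre] at h5
    exact h5
  have hlim : ∀ u : Fin 4 → ℝ, Tendsto (fun z => F z u) atTop (𝓝 ((∏ j, kk (u j)) *
      (riemannZeta (Aex l e u 0 + Aex l e u 2 - (1 + e4)) /
        (riemannZeta (Aex l e u 0) * riemannZeta (Aex l e u 2)) *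
        R1 (Aex l e u 0) (Aex l e u 2) (Aex l e u 0 + Aex l e u 2 - (1 + e4))))) := by
    intro u
    exact (mu_prod (Aex l e u 0) (Aex l e u 2) (Aex l e u 0 + Aex l e u 2 - (1 + e4))
      (by rw [hAre]; linarith) (by rw [hAre]; linarith) (by rw [hDre, h2l]; linarith)).const_mul _
  have key := tendsto_integral_of_dominated_convergence _ (fun z => (hFc z).aestronglyMeasurable) hbi
    (fun z => Eventually.of_forall (hFb z)) (Eventually.of_forall hlim)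
  have hconst : Tendsto (fun z => ∫ u, F z u) atTop (𝓝 (QQ ⌊Real.exp l⌋₊ ![1, 0, 1, 0] l e e4)) := by
    refine tendsto_const_nhds.congr' ?_
    filter_upwards [eventually_ge_atTop ⌊Real.exp l⌋₊] with z hz
    rw [← hFQ z]
    exact (QQ_stable z _ l hl0 e e4 hz).symm
  exact tendsto_nhds_unique hconst key

end LZ

end F_Q16
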