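import Mathlib.Algebra.Order.Chebyshev
import Mathlib.AlgebraicTopology.FundamentalGroupoid.SimplyConnected
import Mathlib.Analysis.Complex.AbsMax
import Mathlib.Analysis.Complex.MeanValue
import Mathlib.Analysis.MellinInversion
import Mathlib.Analysis.Normed.Group.Tannery
import Mathlib.Analysis.Real.Pi.Bounds
import Mathlib.Analysis.SpecialFunctions.Log.Summable
import Mathlib.Data.Finset.Functor
import Mathlib.Data.FunLike.Fintype
import Mathlib.Data.Int.Star
import Mathlib.NumberTheory.Harmonic.Bounds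
import Mathlib.NumberTheory.LSeries.Nonvanishing
import Mathlib.NumberTheory.LSeries.SumCoeff
import Mathlib.NumberTheory.ZetaValues
import Mathlib.Order.CompletePartialOrder
import Mathlib.Order.SuccPred.IntervalSucc
import Mathlib.RingTheory.SimpleRing.Principal
import Mathlib.Topology.Separation.CompletelyRegular
import Mathlib.Tactic

section F_X2

namespace LZX
open Filter Topology Complex Set
open scoped Nat

/-- a logarithm of `GammaSeq` -/
noncomputable def LG (n : ℕ) (s : ℂ) : ℂ :=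
  s * Real.log n + Real.log (n !) - ∑ j ∈ Finset.range (n + 1), log (s + j)

lemma add_nat_re {s : ℂ} (hs : 0 < s.re) (j : ℕ) : 0 < (s + j).re := by
  simp only [add_re, natCast_re]; positivity

lemma add_nat_ne {s : ℂ} (hs : 0 < s.re) (j : ℕ) : s + j ≠ 0 := by
  intro h
  have := add_nat_re hs j
  rw [h] at this
  simp at this

lemma exp_LG {n : ℕ} (hn : 1 ≤ n) {s : ℂ} (hs : 0 < s.re) : exp (LG n s) = GammaSeq s n := by
  unfold LG GammaSeq
  have hn0 : (n : ℂ) ≠ 0 := by exact_mod_cast (by omega : n ≠ 0)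
  rw [exp_sub, exp_add, exp_sum]
  congr 1
  · congr 1
    · rw [cpow_def_of_ne_zero hn0, ← Complex.natCast_log, mul_comm]
    · rw [← Complex.ofReal_exp, Real.exp_log (by positivity)]
      simp
  · exact Finset.prod_congr rfl fun j _ => exp_log (add_nat_ne hs j)

lemma hasDerivAt_LG (n : ℕ) {s : ℂ} (hs : 0 < s.re) :
    HasDerivAt (LG n) (Real.log n - ∑ j ∈ Finset.range (n + 1), (s + j)⁻¹) s := by
  unfold LG
  have h1 : HasDerivAt (fun s : ℂ => s * (Real.log n : ℂ) + (Real.log (n !) : ℂ)) (Real.log n : ℂ) s := by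
    simpa using ((hasDerivAt_id s).mul_const (Real.log n : ℂ)).add_const (Real.log (n !) : ℂ)
  refine h1.sub ?_
  refine HasDerivAt.fun_sum fun j _ => ?_
  have h2 : HasDerivAt (fun s : ℂ => s + (j : ℂ)) 1 s := (hasDerivAt_id s).add_const _
  have h3 := h2.clog (Or.inl (add_nat_re hs j))
  simpa [one_div] using h3

/-- `log (zw) = log z + log w` when both have positive real part -/
lemma log_mul_pos {z w : ℂ} (hz : 0 < z.re) (hw : 0 < w.re) : log (z * w) = log z + log w := by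
  have hz0 : z ≠ 0 := by rintro rfl; simp at hz
  have hw0 : w ≠ 0 := by rintro rfl; simp at hw
  have a1 := abs_lt.1 (abs_arg_lt_pi_div_two_iff.2 (Or.inl hz))
  have a2 := abs_lt.1 (abs_arg_lt_pi_div_two_iff.2 (Or.inl hw))
  exact log_mul hz0 hw0 ⟨by linarith [a1.1, a2.1], by linarith [a1.2, a2.2]⟩

lemma log_mul_I {z w : ℂ} (hz : 0 < z.im) (hz' : z.re = 0) (hw : 0 < w.re) :
    log (z * w) = log z + log w := by
  have hz0 : z ≠ 0 := by rintro rfl; simp at hz
  have hw0 : w ≠ 0 := by rintro rfl; simp at hw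
  have a1 : arg z = Real.pi / 2 := arg_eq_pi_div_two_iff.2 ⟨hz', hz⟩
  have a2 := abs_lt.1 (abs_arg_lt_pi_div_two_iff.2 (Or.inl hw))
  exact log_mul hz0 hw0 ⟨by rw [a1]; linarith [a2.1, Real.pi_pos], by rw [a1]; linarith [a2.2]⟩

lemma log_mul_negI {z w : ℂ} (hz : z.im < 0) (hz' : z.re = 0) (hw : 0 < w.re) :
    log (z * w) = log z + log w := by
  have hz0 : z ≠ 0 := by rintro rfl; simp at hz
  have hw0 : w ≠ 0 := by rintro rfl; simp at hw
  have a1 : arg z = -(Real.pi / 2) := arg_eq_neg_pi_div_two_iff.2 ⟨hz', hz⟩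
  have a2 := abs_lt.1 (abs_arg_lt_pi_div_two_iff.2 (Or.inl hw))
  exact log_mul hz0 hw0 ⟨by rw [a1]; linarith [a2.1, Real.pi_pos], by rw [a1]; linarith [a2.2, Real.pi_pos]⟩

lemma log_one_add_sub_le {z : ℂ} (hz : ‖z‖ ≤ 3/4) : ‖log (1 + z) - z‖ ≤ 2 * ‖z‖ ^ 2 := by
  have h := norm_log_one_add_sub_self_le (z := z) (by linarith)
  refine h.trans ?_
  have h1 : (1 - ‖z‖)⁻¹ ≤ 4 := by
    rw [inv_le_comm₀ (by linarith) (by norm_num)]; linarith
  have h2 : 0 ≤ ‖z‖ ^ 2 := by positivity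
  calc ‖z‖ ^ 2 * (1 - ‖z‖)⁻¹ / 2 ≤ ‖z‖ ^ 2 * 4 / 2 := by gcongr
    _ = 2 * ‖z‖ ^ 2 := by ring

lemma sum_inv_bound {s : ℂ} (hs : 0 < s.re) (him : 2 ≤ |s.im|) (N : ℕ) :
    ‖(∑ j ∈ Finset.range N, (s + j)⁻¹) - (log (s + N) - log s)‖ ≤
      4 * (1 / (|s.im| - 1) - 1 / (|s.im| - 1 + N)) := by
  set τ := |s.im| with hτ
  induction N with
  | zero => simp
  | succ N ih =>
    have hre := add_nat_re hs N
    have hne := add_nat_ne hs N
    have hN : (0:ℝ) ≤ N := Nat.cast_nonneg N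
    have hnorm : τ ≤ ‖s + N‖ := by
      have := abs_im_le_norm (s + N)
      simpa [hτ] using this
    have hnsq : (N:ℝ) ^ 2 + τ ^ 2 ≤ ‖s + N‖ ^ 2 := by
      have h1 : ‖s + N‖ ^ 2 = (s.re + N) ^ 2 + s.im ^ 2 := by
        rw [Complex.sq_norm, normSq_apply]; simp; ring
      rw [h1, hτ, sq_abs]
      nlinarith
    have hinv : ‖(s + N)⁻¹‖ ≤ 1/2 := by
      rw [norm_inv, inv_le_comm₀ (by linarith) (by norm_num)]; linarith
    have hstep : log (s + (N + 1 : ℕ)) = log (s + N) + log (1 + (s + N)⁻¹) := by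
      rw [← log_mul_pos hre]
      · congr 1
        rw [mul_add, mul_one, mul_inv_cancel₀ hne]; push_cast; ring
      · rw [add_re, one_re]
        have := (abs_le.1 ((abs_re_le_norm (s + N)⁻¹).trans hinv)).1
        linarith
    have h2 : ‖log (1 + (s + N)⁻¹) - (s + N)⁻¹‖ ≤
        4 * (1 / (τ - 1 + N) - 1 / (τ - 1 + (N + 1 : ℕ))) := by
      refine (log_one_add_sub_le (hinv.trans (by norm_num))).trans ?_
      rw [norm_inv, inv_pow]
      have e1 : 1 / (τ - 1 + N) - 1 / (τ - 1 + (N + 1 : ℕ)) = 1 / ((τ - 1 + N) * (τ + N)) := by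
        have : τ - 1 + N ≠ 0 := by linarith
        have : τ + N ≠ 0 := by linarith
        push_cast
        rw [show τ - 1 + ((N:ℝ) + 1) = τ + N by ring]
        field_simp
        ring
      rw [e1]
      have e2 : (‖s + N‖ ^ 2)⁻¹ ≤ 2 * (1 / ((τ - 1 + N) * (τ + N))) := by
        rw [inv_eq_one_div, mul_one_div, div_le_div_iff₀ (by nlinarith) (by nlinarith)]
        nlinarith [sq_nonneg ((N:ℝ) - τ)]
      linarith
    have e3 : (∑ j ∈ Finset.range (N + 1), (s + j)⁻¹) - (log (s + (N + 1 : ℕ)) - log s) =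
        ((∑ j ∈ Finset.range N, (s + j)⁻¹) - (log (s + N) - log s)) -
          (log (1 + (s + N)⁻¹) - (s + N)⁻¹) := by
      rw [Finset.sum_range_succ, hstep]; ring
    rw [e3]
    refine (norm_sub_le _ _).trans ?_
    linarith

lemma sum_inv_bound' {s : ℂ} (hs : 0 < s.re) (him : 2 ≤ |s.im|) (N : ℕ) :
    ‖(∑ j ∈ Finset.range N, (s + j)⁻¹) - (log (s + N) - log s)‖ ≤ 8 / |s.im| := by
  refine (sum_inv_bound hs him N).trans ?_
  have hN : (0:ℝ) ≤ N := Nat.cast_nonneg N
  have h1 : 0 ≤ 1 / (|s.im| - 1 + N) := by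
    apply div_nonneg zero_le_one; linarith
  have h2 : 1 / (|s.im| - 1) ≤ 2 / |s.im| := by
    rw [div_le_div_iff₀ (by linarith) (by linarith)]; linarith
  have h3 : 8 / |s.im| = 4 * (2 / |s.im|) := by ring
  rw [h3]; linarith

/-- the comparison function -/
noncomputable def HG (n : ℕ) (t : ℝ) (w : ℂ) : ℂ :=
  LG n (w + t * I) + LG n (w - t * I) - 2 * w * Real.log t

lemma sum_logs {t : ℝ} (ht : 8 ≤ t) {w : ℂ} (h1 : 0 < w.re) (h2 : w.re ≤ 2) (h3 : 2 * |w.im| ≤ t) :
    ‖log (w + t * I) + log (w - t * I) - 2 * Real.log t‖ ≤ 4 * (2 + |w.im|) ^ 2 / t ^ 2 := by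
  have ht0 : (0:ℝ) < t := by linarith
  have htc : (t : ℂ) ≠ 0 := by exact_mod_cast ht0.ne'
  set z : ℂ := -(I * w / t) with hz
  have hzn : ‖z‖ = ‖w‖ / t := by
    rw [hz, norm_neg, norm_div, norm_mul, norm_I, one_mul, Complex.norm_real, Real.norm_eq_abs,
      abs_of_pos ht0]
  have hw : ‖w‖ ≤ 2 + |w.im| := by
    have := Complex.norm_le_abs_re_add_abs_im w
    rw [abs_of_pos h1] at this
    linarith
  have hz34 : ‖z‖ ≤ 3/4 := by
    rw [hzn, div_le_iff₀ ht0]; linarith
  have hre1 : 0 < (1 + z).re := by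
    have := (abs_le.1 ((abs_re_le_norm z).trans hz34)).1
    rw [add_re, one_re]; linarith
  have hre2 : 0 < (1 + -z).re := by
    have := (abs_le.1 ((abs_re_le_norm z).trans hz34)).2
    rw [add_re, one_re, neg_re]; linarith
  have e1 : w + t * I = (t * I) * (1 + z) := by
    rw [hz]; field_simp
    linear_combination w * I_mul_I
  have e2 : w - t * I = (-(t * I)) * (1 + -z) := by
    rw [hz]; field_simp
    linear_combination w * I_mul_I
  have l1 : log (w + t * I) = log (t * I) + log (1 + z) := by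
    rw [e1]; exact log_mul_I (by simpa using ht0) (by simp) hre1
  have l2 : log (w - t * I) = log (-(t * I)) + log (1 + -z) := by
    rw [e2]; exact log_mul_negI (by simpa using ht0) (by simp) hre2
  have l3 : log (t * I) = Real.log t + Real.pi / 2 * I := by
    rw [log_ofReal_mul ht0 I_ne_zero, log_I]
  have l4 : log (-(t * I)) = Real.log t - Real.pi / 2 * I := by
    rw [show -((t:ℂ) * I) = t * (-I) by ring, log_ofReal_mul ht0 (by simp), log_neg_I]
    ring
  have e3 : log (w + t * I) + log (w - t * I) - 2 * Real.log t =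
      (log (1 + z) - z) + (log (1 + -z) - -z) := by
    rw [l1, l2, l3, l4]; ring
  rw [e3]
  refine (norm_add_le _ _).trans ?_
  have b1 := log_one_add_sub_le hz34
  have b2 := log_one_add_sub_le (z := -z) (by rwa [norm_neg])
  rw [norm_neg] at b2
  have b3 : ‖z‖ ^ 2 ≤ (2 + |w.im|) ^ 2 / t ^ 2 := by
    rw [hzn, div_pow]; gcongr
  calc _ ≤ 4 * ‖z‖ ^ 2 := by linarith
    _ ≤ 4 * ((2 + |w.im|) ^ 2 / t ^ 2) := by gcongr
    _ = _ := by ring

end LZX

end F_X2
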