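import Pool.Agent.Lib.MP_0f5a55_nt.V.V02
import Pool.Agent.Lib.MP_0f5a55_nt.V.V42

section F_E03

open Complex MeasureTheory Set Filter Topology
open scoped ComplexConjugate

namespace LZ

private lemma E03_int (T w : ℝ) (hT : 0 < T) :
    ∫ t : ℝ, cexp (I * (w : ℂ) * t) * cexp (-((Real.pi / T ^ 2 : ℝ) : ℂ) * (t : ℂ) ^ 2) =
      ((T * Real.exp (-(w ^ 2 * T ^ 2 / (4 * Real.pi))) : ℝ) : ℂ) := by
  have hpi := Real.pi_pos
  have hb : 0 < (((Real.pi / T ^ 2 : ℝ) : ℂ)).re := by rw [ofReal_re]; positivity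
  rw [fourierIntegral_gaussian hb]
  have h1 : ((Real.pi : ℂ) / ((Real.pi / T ^ 2 : ℝ) : ℂ)) = ((T ^ 2 : ℝ) : ℂ) := by
    rw [← ofReal_div]; congr 1; field_simp
  rw [h1]
  have h2 : (((T ^ 2 : ℝ) : ℂ)) ^ (1 / 2 : ℂ) = (T : ℂ) := by
    rw [show (1 / 2 : ℂ) = ((1 / 2 : ℝ) : ℂ) by push_cast; ring, ← ofReal_cpow (by positivity)]
    congr 1
    rw [← Real.sqrt_eq_rpow, Real.sqrt_sq hT.le]
  rw [h2, ofReal_mul, ofReal_exp]
  congr 2
  have : (Real.pi : ℂ) ≠ 0 := by exact_mod_cast hpi.ne'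
  have hT' : (T : ℂ) ≠ 0 := by exact_mod_cast hT.ne'
  push_cast
  field_simp

private lemma E03_log {N m n : ℕ} (hm : m ∈ Finset.Ioc N (2 * N)) (hn : n ∈ Finset.Ioc N (2 * N)) :
    |(m : ℝ) - n| / (2 * N) ≤ |Real.log m - Real.log n| := by
  have key : ∀ m n : ℕ, m ∈ Finset.Ioc N (2 * N) → n ∈ Finset.Ioc N (2 * N) → n ≤ m →
      |(m : ℝ) - n| / (2 * N) ≤ |Real.log m - Real.log n| := by
    intro m n hm hn hnm
    rw [Finset.mem_Ioc] at hm hn
    have hm0 : (0 : ℝ) < m := by exact_mod_cast (by omega : 0 < m)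
    have hn0 : (0 : ℝ) < n := by exact_mod_cast (by omega : 0 < n)
    have hmn : (n : ℝ) ≤ m := by exact_mod_cast hnm
    have hm2 : (m : ℝ) ≤ 2 * N := by exact_mod_cast hm.2
    rw [abs_of_nonneg (by linarith)]
    refine le_trans ?_ (le_abs_self _)
    have h1 : Real.log m - Real.log n = -Real.log ((n : ℝ) / m) := by
      rw [Real.log_div hn0.ne' hm0.ne']; ring
    have h2 := Real.log_le_sub_one_of_pos (show 0 < (n : ℝ) / m by positivity)
    have h3 : ((m : ℝ) - n) / (2 * N) ≤ ((m : ℝ) - n) / m :=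
      div_le_div_of_nonneg_left (by linarith) hm0 hm2
    have h4 : ((m : ℝ) - n) / m = 1 - (n : ℝ) / m := by field_simp
    rw [h1]; linarith
  rcases le_total n m with h | h
  · exact key m n hm hn h
  · have := key n m hn hm h
    rw [abs_sub_comm, abs_sub_comm (Real.log m)]
    exact this

private lemma E03_sum (X : ℝ) (hX : 0 < X) (K : ℕ) :
    ∑ k ∈ Finset.range (K + 1), X ^ 2 / (X + k) ^ 2 ≤ 1 + X - X ^ 2 / (X + K) := by
  induction K with
  | zero => simp; field_simp; linarith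
  | succ K ih =>
    rw [Finset.sum_range_succ]
    have h1 : (0 : ℝ) < X + K := by positivity
    have h2 : (0 : ℝ) < X + ((K + 1 : ℕ) : ℝ) := by positivity
    have h3 : X ^ 2 / (X + ((K + 1 : ℕ) : ℝ)) ^ 2 ≤ X ^ 2 / (X + K) - X ^ 2 / (X + ((K + 1 : ℕ) : ℝ)) := by
      have h4 : X ^ 2 / (X + K) - X ^ 2 / (X + ((K + 1 : ℕ) : ℝ)) =
          X ^ 2 / ((X + K) * (X + ((K + 1 : ℕ) : ℝ))) := by
        field_simp; push_cast; ring
      rw [h4]
      apply div_le_div_of_nonneg_left (by positivity) (by positivity)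
      rw [sq]
      apply mul_le_mul_of_nonneg_right _ h2.le
      push_cast; linarith
    linarith

private lemma E03_row (X : ℝ) (hX : 0 < X) {N m : ℕ} (hm : m ∈ Finset.Ioc N (2 * N)) :
    ∑ n ∈ Finset.Ioc N (2 * N), 1 / (1 + (|(m : ℝ) - n| / X) ^ 2) ≤ 4 * (1 + X) := by
  rw [Finset.mem_Ioc] at hm
  set h : ℕ → ℝ := fun k => X ^ 2 / (X + k) ^ 2 with hh
  have hh0 : ∀ k, 0 ≤ h k := fun k => by rw [hh]; positivity
  have hS : ∑ k ∈ Finset.range (N + 1), h k ≤ 1 + X := by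
    have := E03_sum X hX N
    have h2 : 0 ≤ X ^ 2 / (X + N) := by positivity
    linarith
  have hk : ∀ k : ℕ, 1 / (1 + ((k : ℝ) / X) ^ 2) ≤ 2 * h k := by
    intro k
    have hk0 : (0 : ℝ) ≤ k := Nat.cast_nonneg k
    rw [hh]
    have h1 : 1 / (1 + ((k : ℝ) / X) ^ 2) = X ^ 2 / (X ^ 2 + k ^ 2) := by field_simp
    have h2 : 2 * (X ^ 2 / (X + k) ^ 2) = (2 * X ^ 2) / (X + k) ^ 2 := by ring
    rw [h1]
    show _ ≤ 2 * (X ^ 2 / (X + k) ^ 2)
    rw [h2, div_le_div_iff₀ (by positivity) (by positivity)]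
    have h3 : (X + k) ^ 2 ≤ 2 * (X ^ 2 + k ^ 2) := by
      have h3a := sq_nonneg (X - k)
      have h3b : 2 * (X ^ 2 + k ^ 2) = (X + k) ^ 2 + (X - k) ^ 2 := by ring
      linarith
    have h4 := mul_le_mul_of_nonneg_left h3 (sq_nonneg X)
    have h5 : X ^ 2 * (2 * (X ^ 2 + k ^ 2)) = 2 * X ^ 2 * (X ^ 2 + k ^ 2) := by ring
    linarith
  rw [← Finset.sum_filter_add_sum_filter_not (Finset.Ioc N (2 * N)) (fun n => n ≤ m)]
  have hA : ∑ n ∈ (Finset.Ioc N (2 * N)).filter (fun n => n ≤ m), 1 / (1 + (|(m : ℝ) - n| / X) ^ 2) ≤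
      2 * (1 + X) := by
    calc ∑ n ∈ (Finset.Ioc N (2 * N)).filter (fun n => n ≤ m), 1 / (1 + (|(m : ℝ) - n| / X) ^ 2)
        ≤ ∑ n ∈ (Finset.Ioc N (2 * N)).filter (fun n => n ≤ m), 2 * h (m - n) := by
          apply Finset.sum_le_sum
          intro n hn
          rw [Finset.mem_filter] at hn
          have h1 : |(m : ℝ) - n| = ((m - n : ℕ) : ℝ) := by
            rw [Nat.cast_sub hn.2, abs_of_nonneg]
            have : (n : ℝ) ≤ m := by exact_mod_cast hn.2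
            linarith
          rw [h1]
          exact hk _
      _ = 2 * ∑ k ∈ ((Finset.Ioc N (2 * N)).filter (fun n => n ≤ m)).image (fun n => m - n), h k := by
          rw [Finset.sum_image, Finset.mul_sum]
          intro a ha b hb hab
          rw [Finset.mem_coe, Finset.mem_filter] at ha hb
          have hab' : m - a = m - b := hab
          omega
      _ ≤ 2 * ∑ k ∈ Finset.range (N + 1), h k := by
          apply mul_le_mul_of_nonneg_left _ (by norm_num)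
          apply Finset.sum_le_sum_of_subset_of_nonneg
          · intro k hk
            rw [Finset.mem_image] at hk
            obtain ⟨n, hn, rfl⟩ := hk
            rw [Finset.mem_filter, Finset.mem_Ioc] at hn
            rw [Finset.mem_range]
            omega
          · intro k _ _; exact hh0 k
      _ ≤ 2 * (1 + X) := by linarith
  have hB : ∑ n ∈ (Finset.Ioc N (2 * N)).filter (fun n => ¬ n ≤ m), 1 / (1 + (|(m : ℝ) - n| / X) ^ 2) ≤
      2 * (1 + X) := by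
    calc ∑ n ∈ (Finset.Ioc N (2 * N)).filter (fun n => ¬ n ≤ m), 1 / (1 + (|(m : ℝ) - n| / X) ^ 2)
        ≤ ∑ n ∈ (Finset.Ioc N (2 * N)).filter (fun n => ¬ n ≤ m), 2 * h (n - m) := by
          apply Finset.sum_le_sum
          intro n hn
          rw [Finset.mem_filter, not_le] at hn
          have h1 : |(m : ℝ) - n| = ((n - m : ℕ) : ℝ) := by
            rw [Nat.cast_sub hn.2.le, abs_sub_comm, abs_of_nonneg]
            have : (m : ℝ) ≤ n := by exact_mod_cast hn.2.le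
            linarith
          rw [h1]
          exact hk _
      _ = 2 * ∑ k ∈ ((Finset.Ioc N (2 * N)).filter (fun n => ¬ n ≤ m)).image (fun n => n - m), h k := by
          rw [Finset.sum_image, Finset.mul_sum]
          intro a ha b hb hab
          rw [Finset.mem_coe, Finset.mem_filter] at ha hb
          have hab' : a - m = b - m := hab
          omega
      _ ≤ 2 * ∑ k ∈ Finset.range (N + 1), h k := by
          apply mul_le_mul_of_nonneg_left _ (by norm_num)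
          apply Finset.sum_le_sum_of_subset_of_nonneg
          · intro k hk
            rw [Finset.mem_image] at hk
            obtain ⟨n, hn, rfl⟩ := hk
            rw [Finset.mem_filter, Finset.mem_Ioc] at hn
            rw [Finset.mem_range]
            omega
          · intro k _ _; exact hh0 k
      _ ≤ 2 * (1 + X) := by linarith
  linarith

private lemma E03_schur (S : Finset ℕ) (g : ℕ → ℕ → ℝ) (hg : ∀ m n, 0 ≤ g m n) (hs : ∀ m n, g m n = g n m) (B : ℝ)
    (hB : ∀ m ∈ S, ∑ n ∈ S, g m n ≤ B) (a : ℕ → ℝ) :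
    ∑ m ∈ S, ∑ n ∈ S, a m * a n * g m n ≤ B * ∑ m ∈ S, a m ^ 2 := by
  have h1 : ∑ m ∈ S, ∑ n ∈ S, a m * a n * g m n ≤
      ∑ m ∈ S, ∑ n ∈ S, (a m ^ 2 * g m n / 2 + a n ^ 2 * g m n / 2) := by
    apply Finset.sum_le_sum; intro m _
    apply Finset.sum_le_sum; intro n _
    have h0 := mul_nonneg (sq_nonneg (a m - a n)) (hg m n)
    have h00 : (a m - a n) ^ 2 * g m n =
        2 * (a m ^ 2 * g m n / 2 + a n ^ 2 * g m n / 2) - 2 * (a m * a n * g m n) := by ring
    linarith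
  have h2 : ∑ m ∈ S, ∑ n ∈ S, (a m ^ 2 * g m n / 2 + a n ^ 2 * g m n / 2) =
      ∑ m ∈ S, ∑ n ∈ S, a m ^ 2 * g m n := by
    simp only [Finset.sum_add_distrib]
    have h3 : ∑ m ∈ S, ∑ n ∈ S, a n ^ 2 * g m n / 2 = ∑ m ∈ S, ∑ n ∈ S, a m ^ 2 * g m n / 2 := by
      rw [Finset.sum_comm]
      apply Finset.sum_congr rfl; intro m _
      apply Finset.sum_congr rfl; intro n _
      rw [hs]
    rw [h3, ← Finset.sum_add_distrib]
    apply Finset.sum_congr rfl; intro m _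
    rw [← Finset.sum_add_distrib]
    apply Finset.sum_congr rfl; intro n _
    ring
  have h3 : ∑ m ∈ S, ∑ n ∈ S, a m ^ 2 * g m n ≤ B * ∑ m ∈ S, a m ^ 2 := by
    rw [Finset.mul_sum]
    apply Finset.sum_le_sum; intro m hm
    rw [← Finset.mul_sum, mul_comm]
    exact mul_le_mul_of_nonneg_right (hB m hm) (sq_nonneg _)
  linarith

/-- (6.2). Insert exp(pi) exp(-pi t^2/T^2); the diagonal-dominated double sum: |log(m/n)| >= |m-n|/(2N) on (N,2N];
sum over k of exp(-c (T k/N)^2) <= C(1+N/T). -/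
theorem dir_mean (r : ℝ) (hr : r ≠ 0) : ∃ C : ℝ, 0 < C ∧ ∀ (T : ℝ) (N : ℕ), 1 ≤ T → 1 ≤ N → ∀ a : ℕ → ℂ,
    ∫ t in (-T)..T, ‖∑ n ∈ Finset.Ioc N (2 * N), a n * (n : ℂ) ^ (-(r * t * I))‖ ^ 2 ≤
      C * (T + N) * ∑ n ∈ Finset.Ioc N (2 * N), ‖a n‖ ^ 2 := by
  have hpi := Real.pi_pos
  set c₁ : ℝ := r ^ 2 / (16 * Real.pi) with hc₁
  have hr2 : 0 < r ^ 2 := by positivity
  have hc1 : 0 < c₁ := by rw [hc₁]; positivity
  set q : ℝ := Real.sqrt c₁ with hq
  have hq0 : 0 < q := Real.sqrt_pos.mpr hc1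
  have hqq : q ^ 2 = c₁ := Real.sq_sqrt hc1.le
  refine ⟨Real.exp Real.pi * (4 * (1 + 1 / q)), by positivity, ?_⟩
  intro T N hT hN a
  have hT0 : 0 < T := by linarith
  have hN0 : (0 : ℝ) < N := by exact_mod_cast hN
  set S := Finset.Ioc N (2 * N) with hS
  set F : ℝ → ℂ := fun t => ∑ n ∈ S, a n * (n : ℂ) ^ (-(r * t * I)) with hF
  set w : ℕ → ℕ → ℝ := fun m n => -(r * (Real.log m - Real.log n)) with hw
  set E : ℕ → ℕ → ℝ → ℂ := fun m n t => cexp (I * ((w m n : ℝ) : ℂ) * t) *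
    cexp (-((Real.pi / T ^ 2 : ℝ) : ℂ) * (t : ℂ) ^ 2) with hE
  have hFc : Continuous F := by
    rw [hF]
    apply continuous_finsetSum
    intro n hn
    have hn0 : (n : ℂ) ≠ 0 := by
      rw [hS, Finset.mem_Ioc] at hn
      exact_mod_cast (by omega : n ≠ 0)
    apply Continuous.mul continuous_const
    apply Continuous.const_cpow _ (Or.inl hn0)
    fun_prop
  have hexp : ∀ t : ℝ, (((‖F t‖ ^ 2 * Real.exp (-(Real.pi / T ^ 2 * t ^ 2)) : ℝ)) : ℂ) =
      ∑ m ∈ S, ∑ n ∈ S, (a m * conj (a n)) * E m n t := by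
    intro t
    have h1 : ((‖F t‖ ^ 2 : ℝ) : ℂ) = F t * conj (F t) := by
      rw [mul_conj, normSq_eq_norm_sq]
    rw [ofReal_mul, h1, hF]
    simp only []
    rw [map_sum, Finset.sum_mul_sum, Finset.sum_mul]
    apply Finset.sum_congr rfl; intro m hm
    rw [Finset.sum_mul]
    apply Finset.sum_congr rfl; intro n hn
    rw [hE]
    simp only []
    rw [hS, Finset.mem_Ioc] at hm hn
    have hm0 : (m : ℂ) ≠ 0 := by exact_mod_cast (by omega : m ≠ 0)
    have hn0 : (n : ℂ) ≠ 0 := by exact_mod_cast (by omega : n ≠ 0)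
    rw [map_mul, cpow_def_of_ne_zero hm0, cpow_def_of_ne_zero hn0, ← exp_conj]
    have h2 : conj (Complex.log (n : ℂ) * -(r * t * I)) = Complex.log (n : ℂ) * (r * t * I) := by
      rw [← natCast_log]
      simp only [map_mul, map_neg, conj_ofReal, conj_I]
      ring
    rw [h2]
    have h3 : ((Real.exp (-(Real.pi / T ^ 2 * t ^ 2)) : ℝ) : ℂ) =
        cexp (-((Real.pi / T ^ 2 : ℝ) : ℂ) * (t : ℂ) ^ 2) := by
      rw [ofReal_exp]; congr 1; push_cast; ring
    have h4 : cexp (Complex.log (m : ℂ) * -(r * t * I)) * cexp (Complex.log (n : ℂ) * (r * t * I)) =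
        cexp (I * ((w m n : ℝ) : ℂ) * t) := by
      rw [← exp_add]
      congr 1
      rw [hw, ← natCast_log, ← natCast_log]
      push_cast
      ring
    rw [h3, ← h4]
    ring
  have hEint : ∀ m n, Integrable (E m n) := by
    intro m n
    have h1 := integrable_cexp_quadratic (b := ((Real.pi / T ^ 2 : ℝ) : ℂ))
      (by rw [ofReal_re]; positivity) (I * ((w m n : ℝ) : ℂ)) 0
    refine h1.congr (Filter.Eventually.of_forall fun t => ?_)
    rw [hE]
    simp only []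
    rw [← exp_add]
    congr 1
    ring
  have hI : Integrable (fun t : ℝ => (((‖F t‖ ^ 2 * Real.exp (-(Real.pi / T ^ 2 * t ^ 2)) : ℝ)) : ℂ)) := by
    simp_rw [hexp]
    apply integrable_finsetSum; intro m _
    apply integrable_finsetSum; intro n _
    exact (hEint m n).const_mul _
  have hIr : Integrable (fun t : ℝ => ‖F t‖ ^ 2 * Real.exp (-(Real.pi / T ^ 2 * t ^ 2))) := by
    refine hI.re.congr (Filter.Eventually.of_forall fun t => ?_)
    exact ofReal_re _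
  have hval : (((∫ t : ℝ, ‖F t‖ ^ 2 * Real.exp (-(Real.pi / T ^ 2 * t ^ 2))) : ℝ) : ℂ) =
      ∑ m ∈ S, ∑ n ∈ S, (a m * conj (a n)) *
        ((T * Real.exp (-(w m n ^ 2 * T ^ 2 / (4 * Real.pi))) : ℝ) : ℂ) := by
    have h0 : ((∫ t : ℝ, ‖F t‖ ^ 2 * Real.exp (-(Real.pi / T ^ 2 * t ^ 2)) : ℝ) : ℂ) =
        ∫ t : ℝ, (((‖F t‖ ^ 2 * Real.exp (-(Real.pi / T ^ 2 * t ^ 2)) : ℝ)) : ℂ) := integral_ofReal.symm
    rw [h0]
    simp_rw [hexp]
    rw [integral_finsetSum]
    · apply Finset.sum_congr rfl; intro m _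
      rw [integral_finsetSum]
      · apply Finset.sum_congr rfl; intro n _
        rw [integral_const_mul, E03_int T (w m n) hT0]
      · intro n _
        exact (hEint m n).const_mul _
    · intro m _
      apply integrable_finsetSum; intro n _
      exact (hEint m n).const_mul _
  set X : ℝ := N / (T * q) with hX
  have hX0 : 0 < X := by positivity
  have hg : ∀ m ∈ S, ∀ n ∈ S, Real.exp (-(w m n ^ 2 * T ^ 2 / (4 * Real.pi))) ≤
      1 / (1 + (|(m : ℝ) - n| / X) ^ 2) := by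
    intro m hm n hn
    have h1 := E03_log hm hn
    have h2 : (|(m : ℝ) - n| / X) ^ 2 ≤ w m n ^ 2 * T ^ 2 / (4 * Real.pi) := by
      have h3 : (|(m : ℝ) - n| / (2 * N)) ^ 2 ≤ |Real.log m - Real.log n| ^ 2 :=
        pow_le_pow_left₀ (by positivity) h1 2
      have h4 : (|(m : ℝ) - n| / X) ^ 2 = (|(m : ℝ) - n| / (2 * N)) ^ 2 * (r ^ 2 * T ^ 2 / (4 * Real.pi)) := by
        rw [hX]
        have : (|(m : ℝ) - n| / (N / (T * q))) ^ 2 = |(m : ℝ) - n| ^ 2 * T ^ 2 * q ^ 2 / N ^ 2 := by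
          field_simp
        rw [this, hqq, hc₁]
        field_simp
        ring
      have h5 : w m n ^ 2 * T ^ 2 / (4 * Real.pi) = |Real.log m - Real.log n| ^ 2 * (r ^ 2 * T ^ 2 / (4 * Real.pi)) := by
        rw [hw, sq_abs]
        ring
      rw [h4, h5]
      exact mul_le_mul_of_nonneg_right h3 (by positivity)
    have h6 := Real.add_one_le_exp (w m n ^ 2 * T ^ 2 / (4 * Real.pi))
    rw [Real.exp_neg, ← one_div]
    apply one_div_le_one_div_of_le (by positivity)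
    linarith
  have hbound : ∫ t : ℝ, ‖F t‖ ^ 2 * Real.exp (-(Real.pi / T ^ 2 * t ^ 2)) ≤
      T * (4 * (1 + X)) * ∑ n ∈ S, ‖a n‖ ^ 2 := by
    have h0 : 0 ≤ ∫ t : ℝ, ‖F t‖ ^ 2 * Real.exp (-(Real.pi / T ^ 2 * t ^ 2)) :=
      integral_nonneg (fun t => by positivity)
    have h1 : ∫ t : ℝ, ‖F t‖ ^ 2 * Real.exp (-(Real.pi / T ^ 2 * t ^ 2)) =
        ‖(((∫ t : ℝ, ‖F t‖ ^ 2 * Real.exp (-(Real.pi / T ^ 2 * t ^ 2))) : ℝ) : ℂ)‖ := by
      rw [norm_real, Real.norm_of_nonneg h0]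
    rw [h1, hval]
    calc ‖∑ m ∈ S, ∑ n ∈ S, (a m * conj (a n)) *
        ((T * Real.exp (-(w m n ^ 2 * T ^ 2 / (4 * Real.pi))) : ℝ) : ℂ)‖
        ≤ ∑ m ∈ S, ∑ n ∈ S, ‖a m‖ * ‖a n‖ * (T * (1 / (1 + (|(m : ℝ) - n| / X) ^ 2))) := by
          refine (norm_sum_le _ _).trans (Finset.sum_le_sum fun m hm => ?_)
          refine (norm_sum_le _ _).trans (Finset.sum_le_sum fun n hn => ?_)
          rw [norm_mul, norm_mul, RCLike.norm_conj, norm_real, Real.norm_of_nonneg (by positivity)]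
          apply mul_le_mul_of_nonneg_left _ (by positivity)
          exact mul_le_mul_of_nonneg_left (hg m hm n hn) hT0.le
      _ ≤ (T * (4 * (1 + X))) * ∑ n ∈ S, ‖a n‖ ^ 2 := by
          apply E03_schur S (fun m n => T * (1 / (1 + (|(m : ℝ) - n| / X) ^ 2)))
            (fun m n => by positivity) (fun m n => by rw [abs_sub_comm]) (T * (4 * (1 + X)))
            _ (fun n => ‖a n‖)
          intro m hm
          rw [← Finset.mul_sum]
          exact mul_le_mul_of_nonneg_left (E03_row X hX0 hm) hT0.le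
  have hcut : ∫ t in (-T)..T, ‖F t‖ ^ 2 ≤
      Real.exp Real.pi * ∫ t : ℝ, ‖F t‖ ^ 2 * Real.exp (-(Real.pi / T ^ 2 * t ^ 2)) := by
    rw [intervalIntegral.integral_of_le (by linarith), ← integral_const_mul]
    have hI2 := hIr.const_mul (Real.exp Real.pi)
    calc ∫ t in Ioc (-T) T, ‖F t‖ ^ 2
        ≤ ∫ t in Ioc (-T) T, Real.exp Real.pi * (‖F t‖ ^ 2 * Real.exp (-(Real.pi / T ^ 2 * t ^ 2))) := by
          apply setIntegral_mono_on
          · exact ((hFc.norm.pow 2).integrableOn_Icc).mono_set Ioc_subset_Icc_self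
          · exact hI2.integrableOn
          · exact measurableSet_Ioc
          · intro t ht
            have h1 : t ^ 2 ≤ T ^ 2 := by
              rw [sq_le_sq, abs_of_pos hT0, abs_le]
              exact ⟨ht.1.le, ht.2⟩
            have h2 : 1 ≤ Real.exp Real.pi * Real.exp (-(Real.pi / T ^ 2 * t ^ 2)) := by
              rw [← Real.exp_add]
              apply Real.one_le_exp
              have h3 : Real.pi / T ^ 2 * t ^ 2 ≤ Real.pi := by
                rw [div_mul_eq_mul_div, div_le_iff₀ (by positivity)]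
                exact mul_le_mul_of_nonneg_left h1 hpi.le
              linarith
            have h4 := mul_le_mul_of_nonneg_left h2 (sq_nonneg ‖F t‖)
            have h5 : ‖F t‖ ^ 2 * (Real.exp Real.pi * Real.exp (-(Real.pi / T ^ 2 * t ^ 2))) =
              Real.exp Real.pi * (‖F t‖ ^ 2 * Real.exp (-(Real.pi / T ^ 2 * t ^ 2))) := by ring
            rw [h5, mul_one] at h4
            exact h4
      _ ≤ ∫ t : ℝ, Real.exp Real.pi * (‖F t‖ ^ 2 * Real.exp (-(Real.pi / T ^ 2 * t ^ 2))) := by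
          apply setIntegral_le_integral hI2
          exact Filter.Eventually.of_forall fun t => by positivity
  have hs0 : 0 ≤ ∑ n ∈ S, ‖a n‖ ^ 2 := Finset.sum_nonneg fun n _ => by positivity
  have hTX : T * (4 * (1 + X)) ≤ 4 * (1 + 1 / q) * (T + N) := by
    have h1 : T * X = N * (1 / q) := by rw [hX]; field_simp
    have h2 : 0 < 1 / q := by positivity
    have h3 : T * (4 * (1 + X)) = 4 * (T + T * X) := by ring
    rw [h3, h1]
    have h4 := mul_pos h2 hT0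
    have h5 : 4 * (1 + 1 / q) * (T + N) = 4 * (T + N * (1 / q)) + 4 * (1 / q * T) + 4 * N := by ring
    rw [h5]
    linarith
  calc ∫ t in (-T)..T, ‖F t‖ ^ 2 ≤ Real.exp Real.pi * (T * (4 * (1 + X)) * ∑ n ∈ S, ‖a n‖ ^ 2) :=
        hcut.trans (mul_le_mul_of_nonneg_left hbound (Real.exp_pos _).le)
    _ ≤ Real.exp Real.pi * (4 * (1 + 1 / q) * (T + N) * ∑ n ∈ S, ‖a n‖ ^ 2) := by
        gcongr
    _ = Real.exp Real.pi * (4 * (1 + 1 / q)) * (T + N) * ∑ n ∈ S, ‖a n‖ ^ 2 := by ring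

end LZ

end F_E03

section F_M06

open Complex MeasureTheory Set Filter Topology
open scoped ComplexConjugate

namespace LZ

theorem M06_intg {T : ℝ} (hT : 0 < T) :
    IntegrableOn (fun t : ℝ => (1 + |t|) ^ 2 * Real.exp (-t / T)) (Ioi 0) := by
  have hb : 0 < 1 / T := by positivity
  have h0 := integrableOn_rpow_mul_exp_neg_mul_rpow (s := 0) (p := 1) (b := 1 / T) (by norm_num)
    one_pos hb
  have h1 := integrableOn_rpow_mul_exp_neg_mul_rpow (s := 1) (p := 1) (b := 1 / T) (by norm_num)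
    one_pos hb
  have h2 := integrableOn_rpow_mul_exp_neg_mul_rpow (s := 2) (p := 1) (b := 1 / T) (by norm_num)
    one_pos hb
  have h3 := (h0.add (h1.const_mul 2)).add h2
  refine h3.congr_fun (fun t ht => ?_) measurableSet_Ioi
  have ht' : 0 < t := ht
  simp only [Pi.add_apply]
  have h4 : t ^ (2 : ℝ) = t ^ 2 := by norm_cast
  rw [Real.rpow_zero, Real.rpow_one, abs_of_pos ht', h4]
  have h5 : -(1 / T) * t = -t / T := by ring
  rw [h5]
  ring

/-- holomorphy of a parameter integral (Cauchy estimate for the derivative on a small ball, dominated differentiation). -/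
theorem EE_diff {T : ℝ} (hT : 0 < T) {Ω : Set ℂ} (hΩ : IsOpen Ω) {g : ℂ → ℝ → ℂ}
    (hd : ∀ t : ℝ, DifferentiableOn ℂ (fun z => g z t) Ω) (hc : ∀ z ∈ Ω, Continuous (g z)) {C : ℝ}
    (hb : ∀ z ∈ Ω, ∀ t : ℝ, 0 < t → ‖g z t‖ ≤ C * (1 + |t|) ^ 2) :
    DifferentiableOn ℂ (fun z => EE T (g z)) Ω := by
  intro z₀ hz₀
  obtain ⟨ε, hε, hball⟩ := Metric.isOpen_iff.mp hΩ z₀ hz₀
  obtain ⟨r, hr⟩ : ∃ r, r = ε / 3 := ⟨_, rfl⟩
  have hr0 : 0 < r := by rw [hr]; linarith
  have hC0 : 0 ≤ C := by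
    have h1 := (norm_nonneg _).trans (hb z₀ hz₀ 1 one_pos)
    have h2 : (0 : ℝ) < (1 + |(1 : ℝ)|) ^ 2 := by positivity
    exact nonneg_of_mul_nonneg_left h1 h2
  have hmem : ∀ x ∈ Metric.ball z₀ r, Metric.closedBall x r ⊆ Ω := by
    intro x hx y hy
    apply hball
    rw [Metric.mem_ball] at hx ⊢
    rw [Metric.mem_closedBall] at hy
    calc dist y z₀ ≤ dist y x + dist x z₀ := dist_triangle _ _ _
      _ < ε := by rw [hr] at *; linarith
  have hmem' : ∀ x ∈ Metric.ball z₀ r, x ∈ Ω := fun x hx =>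
    hmem x hx (Metric.mem_closedBall_self hr0.le)
  have hda : ∀ x ∈ Metric.ball z₀ r, ∀ t : ℝ, DifferentiableAt ℂ (fun z => g z t) x :=
    fun x hx t => (hd t).differentiableAt (hΩ.mem_nhds (hmem' x hx))
  have hcauchy : ∀ x ∈ Metric.ball z₀ r, ∀ t : ℝ, 0 < t →
      ‖deriv (fun z => g z t) x‖ ≤ C * (1 + |t|) ^ 2 / r := by
    intro x hx t ht
    refine Complex.norm_deriv_le_of_forall_mem_sphere_norm_le hr0 ?_ ?_
    · refine ((hd t).mono ?_).diffContOnCl
      exact (Metric.closure_ball_subset_closedBall).trans (hmem x hx)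
    · intro z hz
      exact hb z (hmem x hx (Metric.sphere_subset_closedBall hz)) t ht
  have hexpc : Continuous (fun t : ℝ => ((Real.exp (-t / T) : ℝ) : ℂ)) := by fun_prop
  have hintb : IntegrableOn (fun t : ℝ => C / r * ((1 + |t|) ^ 2 * Real.exp (-t / T))) (Ioi 0) :=
    (M06_intg hT).const_mul _
  have hintg : IntegrableOn (fun t : ℝ => C * ((1 + |t|) ^ 2 * Real.exp (-t / T))) (Ioi 0) :=
    (M06_intg hT).const_mul _
  have hderiv := hasDerivAt_integral_of_dominated_loc_of_deriv_le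
    (μ := volume.restrict (Ioi (0 : ℝ))) (𝕜 := ℂ) (x₀ := z₀) (s := Metric.ball z₀ r)
    (F := fun z t => g z t * ((Real.exp (-t / T) : ℝ) : ℂ))
    (F' := fun z t => deriv (fun w => g w t) z * ((Real.exp (-t / T) : ℝ) : ℂ))
    (bound := fun t => C / r * ((1 + |t|) ^ 2 * Real.exp (-t / T)))
    (Metric.ball_mem_nhds z₀ hr0) ?_ ?_ ?_ ?_ hintb ?_
  · have h1 : DifferentiableAt ℂ (fun z => EE T (g z)) z₀ := by
      unfold EE
      exact (hderiv.2.const_mul ((T : ℂ)⁻¹)).differentiableAt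
    exact h1.differentiableWithinAt
  · filter_upwards [Metric.ball_mem_nhds z₀ hr0] with x hx
    exact ((hc x (hmem' x hx)).mul hexpc).aestronglyMeasurable
  · refine Integrable.mono' hintg ((hc z₀ hz₀).mul hexpc).aestronglyMeasurable ?_
    refine (ae_restrict_iff' measurableSet_Ioi).mpr (Filter.Eventually.of_forall fun t ht => ?_)
    rw [norm_mul, Complex.norm_real, Real.norm_of_nonneg (Real.exp_pos _).le, ← mul_assoc]
    exact mul_le_mul_of_nonneg_right (hb z₀ hz₀ t ht) (Real.exp_pos _).le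
  · -- measurability of the derivative
    refine AEStronglyMeasurable.mul ?_ hexpc.aestronglyMeasurable
    obtain ⟨h, hh⟩ : ∃ h : ℕ → ℂ, h = fun n : ℕ => ((r / ((n : ℝ) + 2) : ℝ) : ℂ) := ⟨_, rfl⟩
    have hh0 : ∀ n, h n ≠ 0 := by
      intro n
      rw [hh]
      have h5 : (r / ((n : ℝ) + 2) : ℝ) ≠ 0 := by positivity
      show ((r / ((n : ℝ) + 2) : ℝ) : ℂ) ≠ 0
      exact Complex.ofReal_ne_zero.mpr h5
    have hhn : ∀ n, z₀ + h n ∈ Metric.ball z₀ r := by
      intro n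
      rw [Metric.mem_ball, dist_eq_norm, add_sub_cancel_left, hh]
      show ‖((r / ((n : ℝ) + 2) : ℝ) : ℂ)‖ < r
      rw [Complex.norm_real, Real.norm_of_nonneg (by positivity)]
      rw [div_lt_iff₀ (by positivity)]
      nlinarith [Nat.cast_nonneg (α := ℝ) n]
    have hht : Tendsto h atTop (𝓝 0) := by
      rw [hh]
      have h1 : Tendsto (fun n : ℕ => (r / ((n : ℝ) + 2) : ℝ)) atTop (𝓝 0) := by
        have h2 : Tendsto (fun n : ℕ => ((n : ℝ) + 2)) atTop atTop :=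
          tendsto_atTop_add_const_right _ _ tendsto_natCast_atTop_atTop
        exact h2.const_div_atTop r
      have h3 := (Complex.continuous_ofReal.tendsto 0).comp h1
      rw [Complex.ofReal_zero] at h3
      exact h3
    have hht' : Tendsto (fun n => z₀ + h n) atTop (𝓝[≠] z₀) := by
      rw [tendsto_nhdsWithin_iff]
      refine ⟨?_, Filter.Eventually.of_forall fun n => ?_⟩
      · have := hht.const_add z₀
        rwa [add_zero] at this
      · simpa using hh0 n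
    refine aestronglyMeasurable_of_tendsto_ae (u := atTop)
      (f := fun (n : ℕ) (t : ℝ) => slope (fun w => g w t) z₀ (z₀ + h n)) (fun n => ?_)
      (Filter.Eventually.of_forall fun t => ?_)
    · have h1 : (fun t : ℝ => slope (fun w => g w t) z₀ (z₀ + h n)) =
          fun t : ℝ => (h n)⁻¹ * (g (z₀ + h n) t - g z₀ t) := by
        funext t
        rw [slope_def_module, add_sub_cancel_left, smul_eq_mul]
      rw [h1]
      exact (((hc _ (hmem' _ (hhn n))).sub (hc z₀ hz₀)).const_mul _).aestronglyMeasurable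
    · have h1 := (hda z₀ (Metric.mem_ball_self hr0) t).hasDerivAt
      exact (hasDerivAt_iff_tendsto_slope.mp h1).comp hht'
  · refine (ae_restrict_iff' measurableSet_Ioi).mpr (Filter.Eventually.of_forall fun t ht x hx => ?_)
    rw [norm_mul, Complex.norm_real, Real.norm_of_nonneg (Real.exp_pos _).le]
    calc ‖deriv (fun w => g w t) x‖ * Real.exp (-t / T)
        ≤ C * (1 + |t|) ^ 2 / r * Real.exp (-t / T) :=
          mul_le_mul_of_nonneg_right (hcauchy x hx t ht) (Real.exp_pos _).le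
      _ = C / r * ((1 + |t|) ^ 2 * Real.exp (-t / T)) := by ring
  · refine Filter.Eventually.of_forall fun t x hx => ?_
    exact (hda x hx t).hasDerivAt.mul_const _

end LZ

end F_M06

section F_Z01

open Complex MeasureTheory Set Filter Topology
open scoped ComplexConjugate

namespace LZ

theorem Z01_exp_sub_one (z : ℂ) : ‖exp z - 1‖ ≤ ‖z‖ * Real.exp ‖z‖ := by
  have h := Complex.norm_exp_sub_sum_le_norm_mul_exp z 1
  simpa using h

/-- the reference logarithm -/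
noncomputable def Z01_L (t : ℝ) : ℂ := Real.log (t / 2) + (Real.pi / 2) * I

theorem Z01_log_close {t : ℝ} (ht : 8 ≤ t) {s : ℂ} (hre : s.re = 1/4) (h1 : t / 2 ≤ s.im)
    (h2 : s.im ≤ (t + 1) / 2) : ‖log s - Z01_L t‖ ≤ 3 / t := by
  have ht0 : (0:ℝ) < t := by linarith
  have htc : (t : ℂ) ≠ 0 := by exact_mod_cast ht0.ne'
  set z : ℂ := s / ((t / 2 : ℝ) * I) - 1 with hz
  have hden : ((t / 2 : ℝ) : ℂ) * I ≠ 0 := by
    refine mul_ne_zero ?_ I_ne_zero
    exact_mod_cast (by positivity : t / 2 ≠ 0)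
  have e1 : s = ((t / 2 : ℝ) * I) * (1 + z) := by
    rw [hz]
    generalize ((t / 2 : ℝ) : ℂ) * I = D at hden
    field_simp
    ring
  have hnum : ‖s - (t / 2 : ℝ) * I‖ ≤ 3 / 4 := by
    have := Complex.norm_le_abs_re_add_abs_im (s - (t / 2 : ℝ) * I)
    have hr : (s - (t / 2 : ℝ) * I).re = 1 / 4 := by simp [hre]
    have hi : (s - (t / 2 : ℝ) * I).im = s.im - t / 2 := by simp
    rw [hr, hi, abs_of_nonneg (by norm_num : (0:ℝ) ≤ 1 / 4),
      abs_of_nonneg (by linarith : (0:ℝ) ≤ s.im - t / 2)] at this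
    linarith
  have hz1 : ‖z‖ ≤ 3 / (2 * t) := by
    have e2 : z = (s - (t / 2 : ℝ) * I) / ((t / 2 : ℝ) * I) := by
      rw [hz, sub_div, div_self hden]
    rw [e2, norm_div, norm_mul, norm_I, mul_one, Complex.norm_real, Real.norm_eq_abs,
      abs_of_pos (by positivity)]
    rw [div_le_iff₀ (by positivity)]
    have : 3 / (2 * t) * (t / 2) = 3 / 4 := by field_simp; norm_num
    rw [this]
    exact hnum
  have hz2 : 3 / (2 * t) ≤ 3 / 16 := by
    rw [div_le_div_iff₀ (by positivity) (by norm_num)]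
    linarith
  have hz34 : ‖z‖ ≤ 3 / 4 := by linarith
  have hre1 : 0 < (1 + z).re := by
    have := (abs_le.1 ((abs_re_le_norm z).trans hz34)).1
    rw [add_re, one_re]; linarith
  have l1 : log s = log ((t / 2 : ℝ) * I) + log (1 + z) := by
    rw [e1]
    exact LZX.log_mul_I (by simpa using ht0) (by simp) hre1
  have l2 : log (((t / 2 : ℝ) : ℂ) * I) = Z01_L t := by
    rw [log_ofReal_mul (by positivity) I_ne_zero, log_I, Z01_L]
  rw [l1, l2, add_sub_cancel_left]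
  have b1 := LZX.log_one_add_sub_le hz34
  have b2 : ‖log (1 + z)‖ ≤ ‖z‖ + 2 * ‖z‖ ^ 2 := by
    calc ‖log (1 + z)‖ = ‖z + (log (1 + z) - z)‖ := by congr 1; ring
      _ ≤ ‖z‖ + ‖log (1 + z) - z‖ := norm_add_le _ _
      _ ≤ _ := by linarith
  have b3 : 2 * ‖z‖ ^ 2 ≤ ‖z‖ := by nlinarith [norm_nonneg z]
  have b4 : 2 * (3 / (2 * t)) = 3 / t := by field_simp
  linarith

theorem Z01_far {t : ℝ} (ht : 8 ≤ t) {s : ℂ} (hre : s.re = 1/4) (h1 : t / 2 ≤ s.im)
    (h2 : s.im ≤ (t + 1) / 2) {n : ℕ} (hn : 2 * (t + 2) * t ≤ n) :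
    ‖(Real.log n : ℂ) - log (s + (n + 1 : ℕ))‖ ≤ 1 / t := by
  have ht0 : (0:ℝ) < t := by linarith
  have hn0 : (0:ℝ) < n := lt_of_lt_of_le (by positivity) hn
  have hnc : (n : ℂ) ≠ 0 := by exact_mod_cast hn0.ne'
  set z : ℂ := (s + 1) / n with hz
  have e1 : s + (n + 1 : ℕ) = ((n : ℝ) : ℂ) * (1 + z) := by
    rw [hz]
    push_cast
    field_simp
    ring
  have hs1 : ‖s + 1‖ ≤ t + 2 := by
    have := Complex.norm_le_abs_re_add_abs_im (s + 1)
    have hr : (s + 1).re = 5 / 4 := by simp [hre]; norm_num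
    have hi : (s + 1).im = s.im := by simp
    rw [hr, hi, abs_of_nonneg (by norm_num : (0:ℝ) ≤ 5 / 4),
      abs_of_nonneg (by linarith : (0:ℝ) ≤ s.im)] at this
    linarith
  have hz1 : ‖z‖ ≤ 1 / (2 * t) := by
    rw [hz, norm_div, Complex.norm_natCast, div_le_div_iff₀ hn0 (by positivity)]
    nlinarith
  have hz2 : 1 / (2 * t) ≤ 1 / 16 := by
    rw [div_le_div_iff₀ (by positivity) (by norm_num)]
    linarith
  have hz34 : ‖z‖ ≤ 3 / 4 := by linarith
  have hne : 1 + z ≠ 0 := by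
    intro h
    have : z = -1 := by linear_combination h
    rw [this, norm_neg, norm_one] at hz34
    norm_num at hz34
  rw [e1, log_ofReal_mul hn0 hne, sub_add_cancel_left, norm_neg]
  have b1 := LZX.log_one_add_sub_le hz34
  have b2 : ‖log (1 + z)‖ ≤ ‖z‖ + 2 * ‖z‖ ^ 2 := by
    calc ‖log (1 + z)‖ = ‖z + (log (1 + z) - z)‖ := by congr 1; ring
      _ ≤ ‖z‖ + ‖log (1 + z) - z‖ := norm_add_le _ _
      _ ≤ _ := by linarith
  have b3 : 2 * ‖z‖ ^ 2 ≤ ‖z‖ := by nlinarith [norm_nonneg z]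
  have b4 : 2 * (1 / (2 * t)) = 1 / t := by field_simp
  linarith

theorem Z01_LG {t v : ℝ} (ht : 8 ≤ t) (hv0 : 0 ≤ v) (hv1 : v ≤ 1) {n : ℕ}
    (hn : 2 * (t + 2) * t ≤ n) :
    ‖LZX.LG n (1/4 + (((t + v) / 2 : ℝ) : ℂ) * I) - LZX.LG n (1/4 + ((t / 2 : ℝ) : ℂ) * I) -
      ((v / 2 : ℝ) : ℂ) * I * Z01_L t‖ ≤ 10 / t := by
  have ht0 : (0:ℝ) < t := by linarith
  -- along the segment
  have key := (convex_Icc (0:ℝ) (v / 2)).norm_image_sub_le_of_norm_hasDerivWithin_le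
    (f := fun y : ℝ => LZX.LG n (1/4 + ((t / 2 + y : ℝ) : ℂ) * I) -
      ((y : ℝ) : ℂ) * I * Z01_L t)
    (f' := fun y : ℝ => (Real.log n - ∑ j ∈ Finset.range (n + 1),
      (1/4 + ((t / 2 + y : ℝ) : ℂ) * I + j)⁻¹ : ℂ) * I - I * Z01_L t)
    (C := 20 / t) (x := 0) (y := v / 2) ?_ ?_ ?_ ?_
  · simp only [add_zero, ofReal_zero, zero_mul, sub_zero] at key
    have e1 : t / 2 + v / 2 = (t + v) / 2 := by ring
    rw [e1] at key
    have e2 : ‖v / 2‖ = v / 2 := Real.norm_of_nonneg (by linarith)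
    rw [e2] at key
    have e3 : LZX.LG n (1/4 + (((t + v) / 2 : ℝ) : ℂ) * I) - LZX.LG n (1/4 + ((t / 2 : ℝ) : ℂ) * I) -
        ((v / 2 : ℝ) : ℂ) * I * Z01_L t = LZX.LG n (1/4 + (((t + v) / 2 : ℝ) : ℂ) * I) -
        ((v / 2 : ℝ) : ℂ) * I * Z01_L t - LZX.LG n (1/4 + ((t / 2 : ℝ) : ℂ) * I) := by ring
    rw [e3]
    refine key.trans ?_
    have : 20 / t * (v / 2) = 10 / t * v := by ring
    rw [this]
    exact mul_le_of_le_one_right (by positivity) hv1
  · intro y hy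
    have hs : 0 < (1/4 + ((t / 2 + y : ℝ) : ℂ) * I).re := by
      simp
    have h1 := LZX.hasDerivAt_LG n hs
    have h2 : HasDerivAt (fun y : ℝ => (1/4 + ((t / 2 + y : ℝ) : ℂ) * I)) I y := by
      have h3 : HasDerivAt (fun y : ℝ => ((t / 2 + y : ℝ) : ℂ)) 1 y := by
        have := ((hasDerivAt_id y).const_add (t / 2)).ofReal_comp
        simpa using this
      simpa using (h3.mul_const I).const_add (1/4 : ℂ)
    have h4 := h1.comp_of_eq y h2 rfl
    have h5 : HasDerivAt (fun y : ℝ => ((y : ℝ) : ℂ) * I * Z01_L t) (I * Z01_L t) y := by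
      have h6 : HasDerivAt (fun y : ℝ => (y : ℂ)) 1 y := by
        simpa using (hasDerivAt_id y).ofReal_comp
      have := (h6.mul_const I).mul_const (Z01_L t)
      simpa using this
    exact (h4.sub h5).hasDerivWithinAt
  · intro y hy
    set s : ℂ := 1/4 + ((t / 2 + y : ℝ) : ℂ) * I with hs
    have hre : s.re = 1/4 := by simp [hs]
    have him : s.im = t / 2 + y := by simp [hs]
    have hy0 := hy.1
    have hy1 := hy.2
    have h1 : t / 2 ≤ s.im := by rw [him]; linarith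
    have h2 : s.im ≤ (t + 1) / 2 := by rw [him]; linarith
    have him2 : |s.im| = s.im := abs_of_nonneg (by linarith)
    have b1 := LZX.sum_inv_bound' (s := s) (by rw [hre]; norm_num) (by rw [him2]; linarith) (n + 1)
    have b2 := Z01_log_close ht hre h1 h2
    have b3 := Z01_far ht hre h1 h2 hn
    have b4 : 8 / |s.im| ≤ 16 / t := by
      rw [him2, div_le_div_iff₀ (by linarith) ht0]
      linarith
    have e : (Real.log n - ∑ j ∈ Finset.range (n + 1), (s + j)⁻¹ : ℂ) * I - I * Z01_L t =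
        (((Real.log n : ℂ) - log (s + (n + 1 : ℕ))) + (log s - Z01_L t) -
          ((∑ j ∈ Finset.range (n + 1), (s + j)⁻¹) - (log (s + (n + 1 : ℕ)) - log s))) * I := by
      ring
    rw [e, norm_mul, norm_I, mul_one]
    refine (norm_sub_le _ _).trans ?_
    have b5 := norm_add_le ((Real.log n : ℂ) - log (s + (n + 1 : ℕ))) (log s - Z01_L t)
    have b6 : 20 / t = 16 / t + (3 / t + 1 / t) := by ring
    rw [b6]
    linarith
  · exact ⟨le_refl _, by linarith⟩
  · exact ⟨by linarith, le_refl _⟩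

theorem Z01_Gamma {t v : ℝ} (ht : 8 ≤ t) (hv0 : 0 ≤ v) (hv1 : v ≤ 1) :
    ∃ ρ : ℂ, ‖ρ - 1‖ ≤ 40 / t ∧
      Gamma (1/4 + (((t + v) / 2 : ℝ) : ℂ) * I) =
        Gamma (1/4 + ((t / 2 : ℝ) : ℂ) * I) * exp (((v / 2 : ℝ) : ℂ) * I * Z01_L t) * ρ := by
  have ht0 : (0:ℝ) < t := by linarith
  set a : ℂ := 1/4 + ((t / 2 : ℝ) : ℂ) * I with ha
  set b : ℂ := 1/4 + (((t + v) / 2 : ℝ) : ℂ) * I with hb
  set E : ℂ := exp (((v / 2 : ℝ) : ℂ) * I * Z01_L t) with hE
  have hE0 : E ≠ 0 := exp_ne_zero _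
  have hare : 0 < a.re := by simp [ha]
  have hbre : 0 < b.re := by simp [hb]
  have hGa : Gamma a ≠ 0 := Gamma_ne_zero_of_re_pos hare
  refine ⟨Gamma b / (Gamma a * E), ?_, ?_⟩
  · have lim : Tendsto (fun n : ℕ => ‖GammaSeq b n / (GammaSeq a n * E) - 1‖) atTop
        (𝓝 ‖Gamma b / (Gamma a * E) - 1‖) :=
      (((GammaSeq_tendsto_Gamma b).div ((GammaSeq_tendsto_Gamma a).mul_const E)
        (mul_ne_zero hGa hE0)).sub_const 1).norm
    refine le_of_tendsto lim ?_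
    obtain ⟨N, hN⟩ := exists_nat_ge (2 * (t + 2) * t)
    filter_upwards [Filter.eventually_ge_atTop (max N 1)] with n hn
    have hn1 : 1 ≤ n := (le_max_right _ _).trans hn
    have hnN : 2 * (t + 2) * t ≤ n := hN.trans (by exact_mod_cast (le_max_left _ _).trans hn)
    have key := Z01_LG ht hv0 hv1 hnN
    rw [← ha, ← hb] at key
    have e1 : GammaSeq b n / (GammaSeq a n * E) =
        exp (LZX.LG n b - LZX.LG n a - ((v / 2 : ℝ) : ℂ) * I * Z01_L t) := by
      rw [← LZX.exp_LG hn1 hare, ← LZX.exp_LG hn1 hbre, hE, ← exp_add, ← exp_sub]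
      congr 1
      ring
    rw [e1]
    refine (Z01_exp_sub_one _).trans ?_
    have h3 : 10 / t ≤ 10 / 8 := by
      rw [div_le_div_iff₀ ht0 (by norm_num)]
      linarith
    have h4 : Real.exp (10 / 8) ≤ 4 := by
      have h5 : Real.exp 1 < 2.7182818286 := Real.exp_one_lt_d9
      have h6 : Real.exp (10 / 8) = Real.exp 1 * Real.exp (1 / 4) := by
        rw [← Real.exp_add]; norm_num
      have h7 : Real.exp (1 / 4) ≤ 4 / 3 := by
        have := Real.exp_bound_div_one_sub_of_interval (x := 1 / 4) (by norm_num) (by norm_num)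
        refine this.trans ?_
        norm_num
      rw [h6]
      have h8 : 0 < Real.exp (1 / 4) := Real.exp_pos _
      nlinarith
    calc _ ≤ (10 / t) * Real.exp (10 / 8) :=
          mul_le_mul key (Real.exp_le_exp.mpr (key.trans h3)) (Real.exp_pos _).le (by positivity)
      _ ≤ (10 / t) * 4 := by gcongr
      _ = 40 / t := by ring
  · field_simp

/-- digamma estimate integrated: log-derivative of Gamma at s = 1/4+ix/2 is log s + O(1/x) (sum_inv_bound and exp_LG /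
hasDerivAt_LG of X2, namespace LZX; n to infinity as in outputs/live ...MP_069854_nt/Stir2.lean rr_sub_one). Gammaℝ s = pi^(-s/2) Gamma(s/2). -/
theorem Gamma_quot : ∃ C : ℝ, 0 < C ∧ ∀ t v : ℝ, 8 ≤ t → 0 ≤ v → v ≤ 1 → ∃ ρ : ℂ, ‖ρ - 1‖ ≤ C / t ∧
    Gammaℝ (1/2 + (t + v) * I) =
      Gammaℝ (1/2 + t * I) * exp ((v / 2 * Real.log (t / (2 * Real.pi))) * I - Real.pi * v / 4) * ρ := by
  refine ⟨40, by norm_num, fun t v ht hv0 hv1 => ?_⟩
  have ht0 : (0:ℝ) < t := by linarith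
  obtain ⟨ρ, hρ, h⟩ := Z01_Gamma ht hv0 hv1
  refine ⟨ρ, hρ, ?_⟩
  have e1 : ((1/2 : ℂ) + (t + v) * I) / 2 = 1/4 + (((t + v) / 2 : ℝ) : ℂ) * I := by
    push_cast
    ring
  have e2 : ((1/2 : ℂ) + t * I) / 2 = 1/4 + ((t / 2 : ℝ) : ℂ) * I := by
    push_cast
    ring
  rw [Gammaℝ_def, Gammaℝ_def, e1, e2, h]
  have hpi : (Real.pi : ℂ) ≠ 0 := by exact_mod_cast Real.pi_ne_zero
  have e3 : (Real.pi : ℂ) ^ (-(1/2 + (t + v) * I : ℂ) / 2) =
      (Real.pi : ℂ) ^ (-(1/2 + t * I : ℂ) / 2) * exp (-(v / 2 * Real.log Real.pi) * I) := by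
    rw [cpow_def_of_ne_zero hpi, cpow_def_of_ne_zero hpi, ← exp_add, ← ofReal_log Real.pi_pos.le]
    congr 1
    ring
  have e4 : exp (((v / 2 : ℝ) : ℂ) * I * Z01_L t) * exp (-(v / 2 * Real.log Real.pi) * I) =
      exp ((v / 2 * Real.log (t / (2 * Real.pi))) * I - Real.pi * v / 4) := by
    rw [← exp_add]
    congr 1
    have h1 : Real.log (t / (2 * Real.pi)) = Real.log (t / 2) - Real.log Real.pi := by
      rw [← Real.log_div (by positivity) Real.pi_ne_zero]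
      congr 1
      field_simp
    rw [h1, Z01_L]
    push_cast
    linear_combination (v * Real.pi / 4 : ℂ) * I_mul_I
  rw [e3, ← e4]
  ring

end LZ

end F_Z01

section F_Z02

open Complex MeasureTheory Set Filter Topology
open scoped ComplexConjugate

namespace LZ

/-- (5.1). -/
theorem uu_phase : ∃ C : ℝ, 0 < C ∧ ∀ t v : ℝ, 8 ≤ t → 0 ≤ v → v ≤ 1 →
    ‖uu t * conj (uu (t + v)) - exp (-(v / 2 * Real.log (t / (2 * Real.pi)) : ℝ) * I)‖ ≤ C / t := by
  obtain ⟨C, hC, H⟩ := Gamma_quot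
  refine ⟨2 * C, by positivity, fun t v ht hv0 hv1 => ?_⟩
  obtain ⟨ρ, hρ, hq⟩ := H t v ht hv0 hv1
  have hz : ∀ s : ℝ, Gammaℝ (1/2 + s * I) ≠ 0 := by
    intro s
    apply Gammaℝ_ne_zero_of_re_pos
    simp
  have hcast : ((t + v : ℝ) : ℂ) = (t : ℂ) + (v : ℂ) := by push_cast; rfl
  set z := Gammaℝ (1/2 + t * I) with hzdef
  have hz0 : z ≠ 0 := hz t
  have hz' : Gammaℝ (1/2 + ((t + v : ℝ) : ℂ) * I) ≠ 0 := hz (t + v)
  set θ : ℝ := v / 2 * Real.log (t / (2 * Real.pi)) with hθ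
  set r : ℝ := Real.exp (-(Real.pi * v / 4)) with hr
  have hr0 : 0 < r := Real.exp_pos _
  have hexp : exp ((v / 2 * Real.log (t / (2 * Real.pi))) * I - Real.pi * v / 4) =
      exp ((θ : ℂ) * I) * (r : ℂ) := by
    rw [hr, ofReal_exp, ← exp_add]
    congr 1
    rw [hθ]
    push_cast
    ring
  rw [hexp] at hq
  have hq' : Gammaℝ (1/2 + ((t + v : ℝ) : ℂ) * I) = z * (exp ((θ : ℂ) * I) * (r : ℂ)) * ρ := by
    rw [hcast]; exact hq
  have hρ0 : ρ ≠ 0 := by
    rintro rfl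
    rw [hq', mul_zero] at hz'
    exact hz' rfl
  have hnexp : ‖exp ((θ : ℂ) * I)‖ = 1 := Complex.norm_exp_ofReal_mul_I θ
  have hn : ‖Gammaℝ (1/2 + ((t + v : ℝ) : ℂ) * I)‖ = ‖z‖ * r * ‖ρ‖ := by
    rw [hq', norm_mul, norm_mul, norm_mul, hnexp, one_mul, Complex.norm_real, Real.norm_eq_abs,
      abs_of_pos hr0]
  have hzn : (‖z‖ : ℂ) ≠ 0 := by exact_mod_cast (norm_pos_iff.2 hz0).ne'
  have hρn : (‖ρ‖ : ℂ) ≠ 0 := by exact_mod_cast (norm_pos_iff.2 hρ0).ne'
  have hrc : (r : ℂ) ≠ 0 := by exact_mod_cast hr0.ne'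
  have hu' : uu (t + v) = z / ‖z‖ * exp ((θ : ℂ) * I) * (ρ / ‖ρ‖) := by
    unfold uu
    rw [hn, hq']
    push_cast
    field_simp
  have hu : uu t = z / ‖z‖ := rfl
  have hzz : z / ‖z‖ * conj (z / ‖z‖) = 1 := by
    rw [mul_conj, normSq_eq_norm_sq, norm_div, Complex.norm_real, norm_norm,
      div_self (norm_pos_iff.2 hz0).ne']
    simp
  have hce : conj (exp ((θ : ℂ) * I)) = exp (-(θ : ℂ) * I) := by
    rw [← exp_conj]
    congr 1
    simp
  have hmain : uu t * conj (uu (t + v)) = exp (-(θ : ℂ) * I) * conj (ρ / ‖ρ‖) := by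
    rw [hu', hu, map_mul, map_mul, hce]
    calc z / ‖z‖ * (conj (z / ‖z‖) * exp (-(θ : ℂ) * I) * conj (ρ / ‖ρ‖))
        = (z / ‖z‖ * conj (z / ‖z‖)) * (exp (-(θ : ℂ) * I) * conj (ρ / ‖ρ‖)) := by ring
      _ = _ := by rw [hzz, one_mul]
  have hexp2 : exp (-(θ : ℂ) * I) * conj (ρ / ‖ρ‖) - exp (-(θ : ℂ) * I) =
      exp (-(θ : ℂ) * I) * conj (ρ / ‖ρ‖ - 1) := by
    rw [map_sub, map_one]; ring
  have hne : ‖exp (-(θ : ℂ) * I)‖ = 1 := by
    have := Complex.norm_exp_ofReal_mul_I (-θ)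
    rwa [ofReal_neg] at this
  rw [hmain, hexp2, norm_mul, hne, one_mul, RCLike.norm_conj]
  have h1 : ρ / ‖ρ‖ - 1 = (ρ / ‖ρ‖) * (1 - ‖ρ‖) + (ρ - 1) := by
    field_simp
    ring
  have h2 : ‖ρ / (‖ρ‖ : ℂ)‖ = 1 := by
    rw [norm_div, Complex.norm_real, norm_norm, div_self (norm_pos_iff.2 hρ0).ne']
  have h3 : ‖(1 - ‖ρ‖ : ℂ)‖ ≤ ‖ρ - 1‖ := by
    have e : (1 - ‖ρ‖ : ℂ) = ((1 - ‖ρ‖ : ℝ) : ℂ) := by push_cast; rfl
    rw [e, Complex.norm_real, Real.norm_eq_abs]
    have := abs_norm_sub_norm_le (1 : ℂ) ρ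
    rw [norm_one, norm_sub_rev] at this
    exact this
  calc ‖ρ / ‖ρ‖ - 1‖ ≤ ‖(ρ / ‖ρ‖) * (1 - ‖ρ‖)‖ + ‖ρ - 1‖ := by
        rw [h1]; exact norm_add_le _ _
    _ ≤ ‖ρ - 1‖ + ‖ρ - 1‖ := by
        rw [norm_mul, h2, one_mul]
        gcongr
    _ ≤ C / t + C / t := by gcongr
    _ = 2 * C / t := by ring

end LZ

end F_Z02
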