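import Pool.Agent.Lib.MP_0f5a55_nt.V.V04
import Pool.Agent.Lib.MP_0f5a55_nt.V.V56
import Pool.Agent.Lib.MP_0f5a55_nt.V.V94
import Mathlib.Analysis.SpecialFunctions.Complex.Analytic

section F_W_W11

open Complex MeasureTheory Set Filter Topology
open scoped ComplexConjugate

namespace LW

variable {N m : ℕ} [NeZero N]

private theorem W11_fac {z : ℂ} (hz : 0 ≤ z.re) : ‖(z - 1) / (z + 1)‖ ≤ 1 := by
  rw [norm_div]
  refine div_le_one_of_le₀ ?_ (norm_nonneg _)
  have h1 : ‖z - 1‖ ^ 2 ≤ ‖z + 1‖ ^ 2 := by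
    rw [← Complex.normSq_eq_norm_sq, ← Complex.normSq_eq_norm_sq, Complex.normSq_apply, Complex.normSq_apply]
    simp only [sub_re, sub_im, add_re, add_im, one_re, one_im]
    nlinarith
  exact (pow_le_pow_iff_left₀ (norm_nonneg _) (norm_nonneg _) two_ne_zero).1 h1

/-- |z - 1| <= |z + 1| for Re z >= 0 -/
theorem Pf_le (X : Fin m → DirichletCharacter ℂ N × ℝ) {s : ℂ} (hs : 0 ≤ s.re) : ‖Pf X s‖ ≤ 1 := by
  unfold Pf
  rw [norm_prod]
  refine Finset.prod_le_one (fun j _ => norm_nonneg _) fun j _ => ?_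
  exact W11_fac (by simpa using hs)

private theorem W11_tele {ι : Type*} (F : Finset ι) (a : ι → ℂ) (ha : ∀ i ∈ F, ‖a i‖ ≤ 1) :
    ‖∏ i ∈ F, a i - 1‖ ≤ ∑ i ∈ F, ‖a i - 1‖ := by
  classical
  induction F using Finset.induction_on with
  | empty => simp
  | insert i F hi ih =>
    rw [Finset.prod_insert hi, Finset.sum_insert hi]
    have h1 := ih fun j hj => ha j (Finset.mem_insert_of_mem hj)
    have h2 := ha i (Finset.mem_insert_self _ _)
    have e : a i * ∏ j ∈ F, a j - 1 = a i * (∏ j ∈ F, a j - 1) + (a i - 1) := by ring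
    rw [e]
    calc ‖a i * (∏ j ∈ F, a j - 1) + (a i - 1)‖ ≤ ‖a i * (∏ j ∈ F, a j - 1)‖ + ‖a i - 1‖ := norm_add_le _ _
      _ ≤ 1 * ‖∏ j ∈ F, a j - 1‖ + ‖a i - 1‖ := by
          rw [norm_mul]
          gcongr
      _ ≤ _ := by linarith

/-- telescoping: |prod a_j - 1| <= sum |a_j - 1| for |a_j| <= 1; (z-1)/(z+1) - 1 = -2/(z+1) -/
theorem Pf_sub (X : Fin m → DirichletCharacter ℂ N × ℝ) {s : ℂ} (hs : 0 ≤ s.re) :
    ‖Pf X s - 1‖ ≤ ∑ j, 2 / ‖s + (X j).2 * I + 1‖ := by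
  unfold Pf
  refine (W11_tele _ _ fun j _ => W11_fac (by simpa using hs)).trans ?_
  refine Finset.sum_le_sum fun j _ => ?_
  have h0 : s + (X j).2 * I + 1 ≠ 0 := by
    intro h
    have := congrArg Complex.re h
    simp at this
    linarith
  have e : (s + (X j).2 * I - 1) / (s + (X j).2 * I + 1) - 1 = -2 / (s + (X j).2 * I + 1) := by
    field_simp
    ring
  rw [e, norm_div, norm_neg]
  simp

private theorem W11_term {σ : ℝ} (hσ : 3 ≤ σ) (n : ℕ) :
    ((n : ℝ) + 2) ^ (-σ) ≤ 4 * (2 : ℝ) ^ (-σ) * (1 / ((n : ℝ) + 1) - 1 / ((n : ℝ) + 2)) := by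
  have h1 : ((n : ℝ) + 2) ^ (-σ) = (2 : ℝ) ^ (-σ) * (((n : ℝ) + 2) / 2) ^ (-σ) := by
    rw [← Real.mul_rpow (by norm_num) (by positivity)]
    congr 1
    ring
  have h2 : (((n : ℝ) + 2) / 2) ^ (-σ) ≤ (((n : ℝ) + 2) / 2) ^ (-2 : ℝ) :=
    Real.rpow_le_rpow_of_exponent_le (by have : (0 : ℝ) ≤ n := Nat.cast_nonneg n; linarith) (by linarith)
  have h3 : (((n : ℝ) + 2) / 2) ^ (-2 : ℝ) = 4 / ((n : ℝ) + 2) ^ 2 := by
    rw [Real.rpow_neg (by positivity)]
    have : (((n : ℝ) + 2) / 2) ^ (2 : ℝ) = (((n : ℝ) + 2) / 2) ^ 2 := by norm_cast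
    rw [this]
    field_simp
    norm_num
  have h4 : 4 / ((n : ℝ) + 2) ^ 2 ≤ 4 * (1 / ((n : ℝ) + 1) - 1 / ((n : ℝ) + 2)) := by
    have : 1 / ((n : ℝ) + 1) - 1 / ((n : ℝ) + 2) = 1 / (((n : ℝ) + 1) * ((n : ℝ) + 2)) := by
      field_simp
      ring
    rw [this, mul_one_div]
    gcongr
    nlinarith [(Nat.cast_nonneg n : (0 : ℝ) ≤ n)]
  rw [h1]
  calc (2 : ℝ) ^ (-σ) * (((n : ℝ) + 2) / 2) ^ (-σ) ≤ (2 : ℝ) ^ (-σ) * (4 * (1 / ((n : ℝ) + 1) - 1 / ((n : ℝ) + 2))) := by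
        gcongr
        exact h2.trans (h3.le.trans h4)
    _ = _ := by ring

private theorem W11_range {σ : ℝ} (hσ : 3 ≤ σ) (M : ℕ) :
    ∑ n ∈ Finset.range M, ((n : ℝ) + 2) ^ (-σ) ≤ 4 * (2 : ℝ) ^ (-σ) := by
  refine (Finset.sum_le_sum fun n _ => W11_term hσ n).trans ?_
  rw [← Finset.mul_sum]
  have h : ∑ n ∈ Finset.range M, (1 / ((n : ℝ) + 1) - 1 / ((n : ℝ) + 2)) = 1 - 1 / ((M : ℝ) + 1) := by
    induction M with
    | zero => simp
    | succ k ih =>
      rw [Finset.sum_range_succ, ih]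
      push_cast
      ring
  rw [h]
  have h2 : 0 ≤ 1 / ((M : ℝ) + 1) := by positivity
  have h3 : 0 < (2 : ℝ) ^ (-σ) := by positivity
  nlinarith

private theorem W11_summable {σ : ℝ} (hσ : 3 ≤ σ) : Summable fun n : ℕ => ((n : ℝ) + 2) ^ (-σ) :=
  summable_of_sum_range_le (fun n => by positivity) (W11_range hσ)

private theorem W11_tsum {σ : ℝ} (hσ : 3 ≤ σ) : ∑' n : ℕ, ((n : ℝ) + 2) ^ (-σ) ≤ 4 * (2 : ℝ) ^ (-σ) :=
  Real.tsum_le_of_sum_range_le (fun n => by positivity) (W11_range hσ)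

private theorem W11_Lf (χ : DirichletCharacter ℂ N) {s : ℂ} (hs : 3 ≤ s.re) :
    ‖LX.Lf χ s - 1‖ ≤ 4 * (2 : ℝ) ^ (-s.re) := by
  unfold LX.Lf
  have hs1 : 1 < s.re := by linarith
  rw [DirichletCharacter.LFunction_eq_LSeries χ hs1]
  have hsum : Summable (LSeries.term (fun n : ℕ => χ n) s) := DirichletCharacter.LSeriesSummable_of_one_lt_re χ hs1
  have h1 := hsum.sum_add_tsum_nat_add 2
  unfold LSeries
  rw [← h1]
  have h2 : ∑ i ∈ Finset.range 2, LSeries.term (fun n : ℕ => χ n) s i = 1 := by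
    simp [Finset.sum_range_succ, LSeries.term]
  rw [h2]
  have h3 : ∀ n : ℕ, ‖LSeries.term (fun n : ℕ => χ n) s (n + 2)‖ ≤ ((n : ℝ) + 2) ^ (-s.re) := by
    intro n
    rw [LSeries.norm_term_eq, if_neg (by omega)]
    have h4 : ‖χ ((n + 2 : ℕ) : ZMod N)‖ ≤ 1 := DirichletCharacter.norm_le_one χ _
    have h5 : ((n : ℝ) + 2) ^ (-s.re) = 1 / (((n + 2 : ℕ) : ℝ) ^ s.re) := by
      rw [Real.rpow_neg (by positivity), one_div]
      push_cast
      rfl
    rw [h5]
    gcongr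
  have h6 : ‖∑' n : ℕ, LSeries.term (fun n : ℕ => χ n) s (n + 2)‖ ≤ ∑' n : ℕ, ((n : ℝ) + 2) ^ (-s.re) :=
    tsum_of_norm_bounded (W11_summable hs).hasSum h3
  have e : (1 : ℂ) + ∑' n : ℕ, LSeries.term (fun n : ℕ => χ n) s (n + 2) - 1 =
      ∑' n : ℕ, LSeries.term (fun n : ℕ => χ n) s (n + 2) := by ring
  rw [e]
  exact h6.trans (W11_tsum hs)

private theorem W11_prime {q z : ℕ} {S : Finset ℕ} (hS : S ∈ (LX.PQ q z).powerset) : ∀ p ∈ S, p.Prime := by
  intro p hp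
  have := Finset.mem_powerset.1 hS hp
  unfold LX.PQ LZ.PP at this
  exact (Finset.mem_filter.1 (Finset.mem_filter.1 this).1).2

private theorem W11_inj {q z : ℕ} {S S' : Finset ℕ} (hS : S ∈ (LX.PQ q z).powerset)
    (hS' : S' ∈ (LX.PQ q z).powerset) (h : LZ.nS S = LZ.nS S') : S = S' := by
  have h1 := Nat.primeFactors_prod (W11_prime hS)
  have h2 := Nat.primeFactors_prod (W11_prime hS')
  unfold LZ.nS at h
  rw [← h1, ← h2, h]

private theorem W11_ge {q z : ℕ} {S : Finset ℕ} (hS : S ∈ (LX.PQ q z).powerset) (h0 : S ≠ ∅) : 2 ≤ LZ.nS S := by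
  obtain ⟨p, hp⟩ := Finset.nonempty_iff_ne_empty.2 h0
  have h1 : p ∣ LZ.nS S := Finset.dvd_prod_of_mem _ hp
  have h2 : 0 < LZ.nS S := Finset.prod_pos fun r hr => (W11_prime hS r hr).pos
  exact (W11_prime hS p hp).two_le.trans (Nat.le_of_dvd h2 h1)

private theorem W11_cf {l : ℝ} (hl : 0 < l) (S : Finset ℕ) : |LZ.cf 1 l S| ≤ 1 := by
  unfold LZ.cf LZ.wt
  rw [abs_mul, abs_pow, abs_neg, abs_one, one_pow, one_mul, abs_pow, abs_of_nonneg (le_max_left _ _)]
  refine pow_le_one₀ (le_max_left _ _) (max_le zero_le_one ?_)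
  have : 0 ≤ Real.log (LZ.nS S) / l := div_nonneg (Real.log_natCast_nonneg _) hl.le
  linarith

private theorem W11_Mol {l : ℝ} (hl : 0 < l) (χ : DirichletCharacter ℂ N) {s : ℂ} (hs : 3 ≤ s.re) :
    ‖LX.Mol χ 1 l s - 1‖ ≤ 4 * (2 : ℝ) ^ (-s.re) := by
  classical
  unfold LX.Mol
  set P := (LX.PQ N ⌊Real.exp l⌋₊).powerset with hP
  have h0 : (∅ : Finset ℕ) ∈ P := Finset.empty_mem_powerset _
  rw [← Finset.add_sum_erase P _ h0]
  have h1 : (LZ.cf 1 l ∅ : ℂ) * χ ((LZ.nS ∅ : ℕ) : ZMod N) * ((LZ.nS ∅ : ℕ) : ℂ) ^ (-s) = 1 := by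
    simp [LZ.cf, LZ.nS, LZ.wt]
  rw [h1, add_sub_cancel_left]
  refine (norm_sum_le _ _).trans ?_
  have h2 : ∀ S ∈ P.erase ∅, ‖(LZ.cf 1 l S : ℂ) * χ ((LZ.nS S : ℕ) : ZMod N) * ((LZ.nS S : ℕ) : ℂ) ^ (-s)‖ ≤
      (((LZ.nS S - 2 : ℕ) : ℝ) + 2) ^ (-s.re) := by
    intro S hS
    have hS1 := Finset.mem_erase.1 hS
    have h3 := W11_ge hS1.2 hS1.1
    have h4 : ((LZ.nS S - 2 : ℕ) : ℝ) + 2 = (LZ.nS S : ℝ) := by
      rw [Nat.cast_sub h3]
      push_cast
      ring
    rw [h4, norm_mul, norm_mul, Complex.norm_natCast_cpow_of_pos (by omega), neg_re]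
    have h5 : ‖(LZ.cf 1 l S : ℂ)‖ ≤ 1 := by
      rw [Complex.norm_real]
      exact W11_cf hl S
    have h6 : ‖χ ((LZ.nS S : ℕ) : ZMod N)‖ ≤ 1 := DirichletCharacter.norm_le_one χ _
    have h7 : 0 ≤ (LZ.nS S : ℝ) ^ (-s.re) := by positivity
    calc _ ≤ 1 * 1 * (LZ.nS S : ℝ) ^ (-s.re) := by gcongr
      _ = _ := by ring
  refine (Finset.sum_le_sum h2).trans ?_
  have h8 : ∑ S ∈ P.erase ∅, (((LZ.nS S - 2 : ℕ) : ℝ) + 2) ^ (-s.re) =
      ∑ n ∈ (P.erase ∅).image (fun S => LZ.nS S - 2), ((n : ℝ) + 2) ^ (-s.re) := by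
    rw [Finset.sum_image]
    intro S hS S' hS' h
    have hS1 := Finset.mem_erase.1 (Finset.mem_coe.1 hS)
    have hS2 := Finset.mem_erase.1 (Finset.mem_coe.1 hS')
    have h3 := W11_ge hS1.2 hS1.1
    have h4 := W11_ge hS2.2 hS2.1
    refine W11_inj hS1.2 hS2.2 ?_
    simp only at h
    omega
  rw [h8]
  exact ((W11_summable hs).sum_le_tsum _ (fun n _ => by positivity)).trans (W11_tsum hs)

/-- both factors are 1 + O(2^(-Re s)): absolutely convergent Dirichlet series with coefficients at most 1 in absolute value,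
|cf 1 l S| <= 1, the numbers nS S are distinct; sum over n >= 2 of n^(-sigma) <= 4 * 2^(-sigma) for sigma >= 3 -/
theorem FF_right {l : ℝ} (hl : 0 < l) (χ : DirichletCharacter ℂ N) {s : ℂ} (hs : 3 ≤ s.re) :
    ‖LX.FF χ l s - 1‖ ≤ 24 * (2 : ℝ) ^ (-s.re) := by
  unfold LX.FF
  have h1 := W11_Lf χ hs
  have h2 := W11_Mol hl χ hs
  have h3 : (2 : ℝ) ^ (-s.re) ≤ 1 / 8 := by
    calc (2 : ℝ) ^ (-s.re) ≤ (2 : ℝ) ^ (-3 : ℝ) := Real.rpow_le_rpow_of_exponent_le (by norm_num) (by linarith)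
      _ = 1 / 8 := by
        rw [Real.rpow_neg (by norm_num)]
        norm_num
  have h4 : 0 < (2 : ℝ) ^ (-s.re) := by positivity
  have e : LX.Lf χ s * LX.Mol χ 1 l s - 1 = (LX.Lf χ s - 1) * (LX.Mol χ 1 l s - 1) + (LX.Lf χ s - 1) +
      (LX.Mol χ 1 l s - 1) := by ring
  rw [e]
  refine (norm_add₃_le).trans ?_
  rw [norm_mul]
  have h5 : ‖LX.Lf χ s - 1‖ * ‖LX.Mol χ 1 l s - 1‖ ≤ (4 * (2 : ℝ) ^ (-s.re)) * (4 * (2 : ℝ) ^ (-s.re)) := by
    gcongr
  nlinarith

theorem Mn_right {l : ℝ} (hl : 0 < l) (hm : 1 ≤ m) (X : Fin m → DirichletCharacter ℂ N × ℝ) {s : ℂ} (hs : 3 ≤ s.re) :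
    ‖Mn X l s - 1‖ ≤ 24 * (2 : ℝ) ^ (-s.re) := by
  unfold Mn
  have hm0 : (m : ℂ) ≠ 0 := by
    have : m ≠ 0 := by omega
    exact_mod_cast this
  have e : (m : ℂ)⁻¹ * ∑ j, LX.FF (X j).1 l (s + (X j).2 * I) - 1 =
      (m : ℂ)⁻¹ * ∑ j, (LX.FF (X j).1 l (s + (X j).2 * I) - 1) := by
    rw [Finset.sum_sub_distrib]
    simp only [Finset.sum_const, Finset.card_univ, Fintype.card_fin, nsmul_eq_mul, mul_one]
    rw [mul_sub, inv_mul_cancel₀ hm0]
  rw [e, norm_mul, norm_inv, Complex.norm_natCast]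
  have h1 : ‖∑ j, (LX.FF (X j).1 l (s + (X j).2 * I) - 1)‖ ≤ m * (24 * (2 : ℝ) ^ (-s.re)) := by
    refine (norm_sum_le _ _).trans ?_
    have h2 : ∀ j ∈ (Finset.univ : Finset (Fin m)), ‖LX.FF (X j).1 l (s + (X j).2 * I) - 1‖ ≤ 24 * (2 : ℝ) ^ (-s.re) := by
      intro j _
      have h3 : (s + (X j).2 * I).re = s.re := by simp
      have h4 := FF_right hl (X j).1 (s := s + (X j).2 * I) (by rw [h3]; exact hs)
      rwa [h3] at h4
    refine (Finset.sum_le_sum h2).trans ?_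
    simp
  have hm1 : (0 : ℝ) < m := by exact_mod_cast hm
  calc (m : ℝ)⁻¹ * ‖∑ j, (LX.FF (X j).1 l (s + (X j).2 * I) - 1)‖ ≤ (m : ℝ)⁻¹ * (m * (24 * (2 : ℝ) ^ (-s.re))) := by
        gcongr
    _ = _ := by field_simp

end LW

end F_W_W11

section F_W_W15

open Complex MeasureTheory Set Filter Topology
open scoped ComplexConjugate

namespace LW

/-- order is invariant under change of level: DirichletCharacter.LFunction_changeLevel, the Euler factors
1 - chi(p) p^(-s) do not vanish for Re s > 0 -/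
theorem order_level {M N : ℕ} [NeZero M] [NeZero N] (hMN : M ∣ N) (χ : DirichletCharacter ℂ M) {s : ℂ}
    (h0 : 0 < s.re) (h1 : s.re < 1) :
    analyticOrderAt (LX.Lf (DirichletCharacter.changeLevel hMN χ)) s = analyticOrderAt (LX.Lf χ) s := by
  have hs1 : s ≠ 1 := by
    rintro rfl
    simp at h1
  set E : ℂ → ℂ := fun z => ∏ p ∈ N.primeFactors, (1 - χ p * (p : ℂ) ^ (-z)) with hE
  have hp0 : ∀ p ∈ N.primeFactors, (p : ℂ) ≠ 0 := fun p hp =>
    Nat.cast_ne_zero.2 (Nat.prime_of_mem_primeFactors hp).ne_zero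
  have hEa : AnalyticAt ℂ E s := by
    refine Finset.analyticAt_fun_prod _ fun p hp => ?_
    have h2 : Differentiable ℂ (fun z : ℂ => 1 - χ p * (p : ℂ) ^ (-z)) := by
      refine Differentiable.sub (differentiable_const _) (Differentiable.const_mul ?_ _)
      exact differentiable_neg.const_cpow (Or.inl (hp0 p hp))
    exact h2.analyticAt s
  have hE0 : E s ≠ 0 := by
    rw [hE]
    simp only
    rw [Finset.prod_ne_zero_iff]
    intro p hp h2
    have hpp := Nat.prime_of_mem_primeFactors hp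
    have h3 : χ p * (p : ℂ) ^ (-s) = 1 := (sub_eq_zero.1 h2).symm
    have h4 : ‖χ p * (p : ℂ) ^ (-s)‖ < 1 := by
      rw [norm_mul]
      have h5 : ‖χ p‖ ≤ 1 := χ.norm_le_one _
      have h6 : ‖(p : ℂ) ^ (-s)‖ < 1 := by
        rw [Complex.norm_natCast_cpow_of_pos hpp.pos]
        apply Real.rpow_lt_one_of_one_lt_of_neg
        · exact_mod_cast hpp.one_lt
        · simpa using h0
      calc ‖χ p‖ * ‖(p : ℂ) ^ (-s)‖ ≤ 1 * ‖(p : ℂ) ^ (-s)‖ :=
            mul_le_mul_of_nonneg_right h5 (norm_nonneg _)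
        _ < 1 := by rw [one_mul]; exact h6
    rw [h3, norm_one] at h4
    exact lt_irrefl _ h4
  have hLa : AnalyticAt ℂ (LX.Lf χ) s := by
    have h2 : DifferentiableOn ℂ (LX.Lf χ) {1}ᶜ := fun z hz =>
      (DirichletCharacter.differentiableAt_LFunction χ z (Or.inl hz)).differentiableWithinAt
    exact h2.analyticAt (isOpen_compl_singleton.mem_nhds hs1)
  have hcong : LX.Lf (DirichletCharacter.changeLevel hMN χ) =ᶠ[𝓝 s] (LX.Lf χ * E) := by
    filter_upwards [isOpen_compl_singleton.mem_nhds hs1] with z hz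
    exact DirichletCharacter.LFunction_changeLevel hMN χ (Or.inr hz)
  rw [analyticOrderAt_congr hcong, analyticOrderAt_mul hLa hEa, hEa.analyticOrderAt_eq_zero.2 hE0,
    add_zero]

private theorem W15_analytic {f : ℂ → ℂ} {s : ℂ} (hf : AnalyticAt ℂ f s) :
    AnalyticAt ℂ (fun w => conj (f (conj w))) (conj s) := by
  have h1 : ∀ᶠ z in 𝓝 s, DifferentiableAt ℂ f z := by
    filter_upwards [hf.eventually_analyticAt] with z hz
    exact hz.differentiableAt
  have hc : Tendsto (fun w : ℂ => conj w) (𝓝 (conj s)) (𝓝 s) := by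
    have := (continuous_conj.tendsto (conj s))
    rwa [conj_conj] at this
  have h2 : ∀ᶠ w in 𝓝 (conj s), DifferentiableAt ℂ (fun w => conj (f (conj w))) w := by
    filter_upwards [hc.eventually h1] with w hw
    have h3 := hw.conj_conj
    rw [conj_conj] at h3
    exact h3
  exact analyticAt_iff_eventually_differentiableAt.2 h2

private theorem W15_le {f : ℂ → ℂ} {s : ℂ} (hf : AnalyticAt ℂ f s) :
    analyticOrderAt f s ≤ analyticOrderAt (fun w => conj (f (conj w))) (conj s) := by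
  refine ENat.forall_natCast_le_iff_le.1 fun n hn => ?_
  obtain ⟨h, hh, hfh⟩ := (natCast_le_analyticOrderAt hf).1 hn
  rw [natCast_le_analyticOrderAt (W15_analytic hf)]
  refine ⟨fun w => conj (h (conj w)), W15_analytic hh, ?_⟩
  have hc : Tendsto (fun w : ℂ => conj w) (𝓝 (conj s)) (𝓝 s) := by
    have := (continuous_conj.tendsto (conj s))
    rwa [conj_conj] at this
  filter_upwards [hc.eventually hfh] with w hw
  rw [hw, smul_eq_mul, smul_eq_mul, map_mul, map_pow, map_sub, conj_conj]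

/-- order at the conjugate point (for a function analytic near s) -/
theorem order_conj {f g : ℂ → ℂ} {s : ℂ} (hf : AnalyticAt ℂ f s) (hg : ∀ᶠ z in 𝓝 s, g (conj z) = conj (f z)) :
    analyticOrderAt g (conj s) = analyticOrderAt f s := by
  have hc : Tendsto (fun w : ℂ => conj w) (𝓝 (conj s)) (𝓝 s) := by
    have := (continuous_conj.tendsto (conj s))
    rwa [conj_conj] at this
  have hcong : g =ᶠ[𝓝 (conj s)] (fun w => conj (f (conj w))) := by
    filter_upwards [hc.eventually hg] with w hw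
    rwa [conj_conj] at hw
  rw [analyticOrderAt_congr hcong]
  refine le_antisymm ?_ (W15_le hf)
  have h1 := W15_le (W15_analytic hf)
  rw [conj_conj] at h1
  refine h1.trans (le_of_eq ?_)
  congr 1
  funext w
  rw [conj_conj, conj_conj]

end LW

end F_W_W15

section F_W_W16

open Complex MeasureTheory Set Filter Topology
open scoped ComplexConjugate

namespace LW

private theorem W16_gammaR {s : ℂ} (hs : 0 < s.re) :
    AnalyticAt ℂ Gammaℝ s ∧ Gammaℝ s ≠ 0 := by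
  have h0 : Gammaℝ s ≠ 0 := Gammaℝ_ne_zero_of_re_pos hs
  have h1 : AnalyticAt ℂ (fun z => (Gammaℝ z)⁻¹) s := differentiable_Gammaℝ_inv.analyticAt s
  have h2 := h1.inv (inv_ne_zero h0)
  refine ⟨?_, h0⟩
  have h3 : (fun z => (Gammaℝ z)⁻¹)⁻¹ = Gammaℝ := by
    funext z
    simp
  rw [h3] at h2
  exact h2

private theorem W16_gamma {N : ℕ} [NeZero N] (χ : DirichletCharacter ℂ N) {s : ℂ} (hs : 0 < s.re) :
    AnalyticAt ℂ (DirichletCharacter.gammaFactor χ) s ∧ DirichletCharacter.gammaFactor χ s ≠ 0 := by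
  rcases χ.even_or_odd with hχ | hχ
  · have h1 : DirichletCharacter.gammaFactor χ = Gammaℝ := funext fun z => hχ.gammaFactor_def z
    rw [h1]
    exact W16_gammaR hs
  · have h1 : DirichletCharacter.gammaFactor χ = fun z => Gammaℝ (z + 1) :=
      funext fun z => hχ.gammaFactor_def z
    have hs' : 0 < (s + 1).re := by rw [add_re, one_re]; linarith
    obtain ⟨h2, h3⟩ := W16_gammaR hs'
    rw [h1]
    refine ⟨?_, h3⟩
    exact AnalyticAt.fun_comp (g := Gammaℝ) h2 (analyticAt_id.add analyticAt_const)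

private theorem W16_analytic {N : ℕ} [NeZero N] (χ : DirichletCharacter ℂ N) {s : ℂ} (hs : s ≠ 1) :
    AnalyticAt ℂ (LX.Lf χ) s := by
  have h : DifferentiableOn ℂ (LX.Lf χ) {1}ᶜ := fun z hz =>
    (DirichletCharacter.differentiableAt_LFunction χ z (Or.inl hz)).differentiableWithinAt
  exact h.analyticAt (isOpen_compl_singleton.mem_nhds hs)

private theorem W16_root {N : ℕ} [NeZero N] {χ : DirichletCharacter ℂ N} (hχ : χ.IsPrimitive) :
    DirichletCharacter.rootNumber χ ≠ 0 := by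
  intro h0
  have h1 := hχ.completedLFunction_one_sub (-1)
  rw [h0, mul_zero, zero_mul] at h1
  have h2 : (1 - (-1) : ℂ) = 2 := by norm_num
  rw [h2] at h1
  have h3 := DirichletCharacter.LFunction_eq_completed_div_gammaFactor χ 2 (Or.inl two_ne_zero)
  rw [h1, zero_div] at h3
  exact DirichletCharacter.LFunction_ne_zero_of_one_le_re χ (s := 2) (Or.inr (by norm_num))
    (by norm_num) h3

/-- functional equation: the orders at s and 1 - conj s agree (primitive character, any modulus including 1). -/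
theorem order_reflect {N : ℕ} [NeZero N] {χ : DirichletCharacter ℂ N} (hχ : χ.IsPrimitive) {s : ℂ}
    (h0 : 0 < s.re) (h1 : s.re < 1) :
    analyticOrderAt (LX.Lf χ) (1 - conj s) = analyticOrderAt (LX.Lf χ) s := by
  have hs1 : s ≠ 1 := by
    rintro rfl
    rw [one_re] at h1
    exact lt_irrefl _ h1
  set z₀ : ℂ := conj s with hz₀
  have hz0 : 0 < z₀.re := by rw [hz₀, conj_re]; exact h0
  have hz1 : z₀.re < 1 := by rw [hz₀, conj_re]; exact h1
  have hz01 : z₀ ≠ 1 := by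
    intro h
    rw [h, one_re] at hz1
    exact lt_irrefl _ hz1
  -- the unit
  set U : ℂ → ℂ := fun z => (N : ℂ) ^ (z - 1 / 2) * DirichletCharacter.rootNumber χ *
    DirichletCharacter.gammaFactor χ⁻¹ z / DirichletCharacter.gammaFactor χ (1 - z) with hU
  have hN0 : (N : ℂ) ≠ 0 := Nat.cast_ne_zero.2 (NeZero.ne N)
  have hz1' : 0 < (1 - z₀).re := by rw [sub_re, one_re]; linarith
  have hUan : AnalyticAt ℂ U z₀ := by
    have e1 : AnalyticAt ℂ (fun z : ℂ => (N : ℂ) ^ (z - 1 / 2)) z₀ := by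
      refine AnalyticAt.cpow analyticAt_const (analyticAt_id.sub analyticAt_const) ?_
      exact natCast_mem_slitPlane.2 (NeZero.ne N)
    have e2 : AnalyticAt ℂ (fun z : ℂ => DirichletCharacter.gammaFactor χ (1 - z)) z₀ :=
      AnalyticAt.fun_comp (g := DirichletCharacter.gammaFactor χ) (W16_gamma χ hz1').1
        (analyticAt_const.sub analyticAt_id)
    exact ((e1.mul analyticAt_const).mul (W16_gamma χ⁻¹ hz0).1).div e2 (W16_gamma χ hz1').2
  have hU0 : U z₀ ≠ 0 := by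
    refine div_ne_zero (mul_ne_zero (mul_ne_zero ?_ (W16_root hχ)) (W16_gamma χ⁻¹ hz0).2)
      (W16_gamma χ hz1').2
    exact (cpow_ne_zero_iff).2 (Or.inl hN0)
  -- the functional equation near `z₀`
  have hev : ∀ᶠ z : ℂ in 𝓝 z₀, 0 < z.re ∧ z.re < 1 :=
    ((isOpen_lt continuous_const Complex.continuous_re).inter
      (isOpen_lt Complex.continuous_re continuous_const)).mem_nhds ⟨hz0, hz1⟩
  have hfe : (LX.Lf χ ∘ fun z => 1 - z) =ᶠ[𝓝 z₀] U * LX.Lf χ⁻¹ := by
    filter_upwards [hev] with z hz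
    have hz' : 0 < (1 - z).re := by rw [sub_re, one_re]; linarith [hz.2]
    have hne : z ≠ 0 := by
      rintro rfl
      rw [zero_re] at hz
      exact lt_irrefl _ hz.1
    have hne' : 1 - z ≠ 0 := by
      intro h
      rw [h, zero_re] at hz'
      exact lt_irrefl _ hz'
    have e1 := DirichletCharacter.LFunction_eq_completed_div_gammaFactor χ (1 - z) (Or.inl hne')
    have e2 := DirichletCharacter.LFunction_eq_completed_div_gammaFactor χ⁻¹ z (Or.inl hne)
    have e3 := (W16_gamma χ⁻¹ hz.1).2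
    change DirichletCharacter.LFunction χ (1 - z) = U z * DirichletCharacter.LFunction χ⁻¹ z
    rw [e1, e2, hχ.completedLFunction_one_sub, hU]
    simp only
    field_simp
  have hcomp : analyticOrderAt (LX.Lf χ ∘ fun z => 1 - z) z₀ =
      analyticOrderAt (LX.Lf χ) (1 - z₀) := by
    refine analyticOrderAt_comp_of_deriv_ne_zero (analyticAt_const.sub analyticAt_id) ?_
    have : deriv (fun z : ℂ => 1 - z) z₀ = -1 := by
      simp
    rw [this]
    norm_num
  have hconj : analyticOrderAt (LX.Lf χ⁻¹) z₀ = analyticOrderAt (LX.Lf χ) s := by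
    refine order_conj (W16_analytic χ hs1) ?_
    have hev' : ∀ᶠ z : ℂ in 𝓝 s, z ≠ 1 := isOpen_compl_singleton.mem_nhds hs1
    filter_upwards [hev'] with z hz
    exact (LP.conj_facts χ χ).1 z hz
  rw [← hcomp, analyticOrderAt_congr hfe, analyticOrderAt_mul hUan (W16_analytic χ⁻¹ hz01),
    hUan.analyticOrderAt_eq_zero.2 hU0, zero_add, hconj]

end LW

end F_W_W16
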