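import Pool.Agent.Lib.MP_0f5a55_nt.V.V05
import Pool.Agent.Lib.MP_0f5a55_nt.V.V12
import Pool.Agent.Lib.MP_0f5a55_nt.V.V15
import Pool.Agent.Lib.MP_0f5a55_nt.V.V17

section F_Y_XB2

open Complex MeasureTheory Set Filter Topology
open scoped ComplexConjugate

namespace LP

open LZ (kk nS cf EE ER PP wt Sep)

theorem XB2_sum_le {N : ℕ} [NeZero N] (f : ZMod N → ℂ) (hf : ∑ a, f a = 0) (n : ℕ) :
    ‖∑ m ∈ Finset.Icc 1 n, f (m : ZMod N)‖ ≤ 1 + ∑ a, ‖f a‖ := by
  have hN : 0 < N := Nat.pos_of_ne_zero (NeZero.ne N)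
  rw [LX.w06_range (fun n => f (n : ZMod N)) n]
  induction n using Nat.strong_induction_on with
  | _ n ih =>
    rcases Nat.lt_or_ge n N with h | h
    · have h1 : ‖∑ m ∈ Finset.range n, f ((m + 1 : ℕ) : ZMod N)‖ ≤
          ∑ m ∈ Finset.range N, ‖f ((m + 1 : ℕ) : ZMod N)‖ :=
        (norm_sum_le _ _).trans (Finset.sum_le_sum_of_subset_of_nonneg
          (Finset.range_mono h.le) fun _ _ _ => norm_nonneg _)
      have h2 : ∑ m ∈ Finset.range N, ‖f ((m + 1 : ℕ) : ZMod N)‖ = ∑ a, ‖f a‖ := by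
        have h3 := LX.w06_shift N (fun a => (‖f a‖ : ℂ)) 0
        simp only [zero_add] at h3
        exact_mod_cast h3
      rw [h2] at h1
      linarith
    · obtain ⟨M, rfl⟩ := Nat.exists_eq_add_of_le' h
      have h1 := ih M (by omega)
      rw [Finset.sum_range_add, LX.w06_shift N f M, hf, add_zero]
      exact h1

/-- the partial sums, cut off below `1` -/
noncomputable def XB2_A {N : ℕ} (f : ZMod N → ℂ) (t : ℝ) : ℂ :=
  Set.indicator (Set.Ioi (1 : ℝ)) (fun t => ∑ k ∈ Finset.Icc 1 ⌊t⌋₊, f (k : ZMod N)) t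

theorem XB2_A_le {N : ℕ} [NeZero N] (f : ZMod N → ℂ) (hf : ∑ a, f a = 0) (t : ℝ) :
    ‖XB2_A f t‖ ≤ 1 + ∑ a, ‖f a‖ := by
  have h0 : (0 : ℝ) ≤ ∑ a, ‖f a‖ := Finset.sum_nonneg fun _ _ => norm_nonneg _
  unfold XB2_A
  rw [Set.indicator_apply]
  split_ifs
  · exact XB2_sum_le f hf _
  · rw [norm_zero]; positivity

theorem XB2_A_meas {N : ℕ} (f : ZMod N → ℂ) : Measurable (XB2_A f) := by
  unfold XB2_A
  apply Measurable.indicator _ measurableSet_Ioi
  exact (measurable_from_nat (f := fun n : ℕ => ∑ k ∈ Finset.Icc 1 n, f (k : ZMod N))).comp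
    Nat.measurable_floor

theorem XB2_diff {N : ℕ} [NeZero N] (f : ZMod N → ℂ) (hf : ∑ a, f a = 0) (s : ℂ)
    (hs : 0 < s.re) : DifferentiableAt ℂ (fun s => mellin (XB2_A f) (-s)) s := by
  have h1 : DifferentiableAt ℂ (mellin (XB2_A f)) (-s) := by
    refine mellin_differentiableAt_of_isBigO_rpow (a := 0) (b := (-s).re - 1) ?_ ?_ ?_ ?_ ?_
    · apply LocallyIntegrable.locallyIntegrableOn
      intro x
      refine ⟨Set.Icc (x - 1) (x + 1), Icc_mem_nhds (by linarith) (by linarith), ?_⟩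
      refine Measure.integrableOn_of_bounded (M := 1 + ∑ a, ‖f a‖) (by simp)
        (XB2_A_meas f).aestronglyMeasurable ?_
      exact Filter.Eventually.of_forall fun t => XB2_A_le f hf t
    · simp only [neg_zero, Real.rpow_zero]
      exact Asymptotics.isBigO_of_le' (c := 1 + ∑ a, ‖f a‖) _ fun t => by
        simpa using XB2_A_le f hf t
    · simp only [Complex.neg_re]; linarith
    · refine Filter.EventuallyEq.trans_isBigO (f₂ := fun _ : ℝ => (0 : ℂ)) ?_
        (Asymptotics.isBigO_zero _ _)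
      have h2 : ∀ᶠ t in 𝓝[>] (0 : ℝ), t < 1 := by
        filter_upwards [Ioo_mem_nhdsGT (zero_lt_one (α := ℝ))] with t ht
        exact ht.2
      filter_upwards [h2] with t ht
      unfold XB2_A
      rw [Set.indicator_of_notMem]
      exact not_lt.2 ht.le
    · linarith
  exact h1.comp s differentiableAt_id.neg

theorem XB2_mellin {N : ℕ} (f : ZMod N → ℂ) (s : ℂ) :
    mellin (XB2_A f) (-s) = ∫ t in Set.Ioi (1 : ℝ), (∑ k ∈ Finset.Icc 1 ⌊t⌋₊, f (k : ZMod N)) *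
      (t : ℂ) ^ (-(s + 1)) := by
  unfold mellin
  have e : ∀ t : ℝ, (t : ℂ) ^ (-s - 1) • XB2_A f t =
      Set.indicator (Set.Ioi (1 : ℝ)) (fun t : ℝ => (∑ k ∈ Finset.Icc 1 ⌊t⌋₊, f (k : ZMod N)) *
      (t : ℂ) ^ (-(s + 1))) t := by
    intro t
    unfold XB2_A
    rw [Set.indicator_apply, Set.indicator_apply]
    split_ifs
    · rw [smul_eq_mul, mul_comm]
      congr 2
      ring
    · rw [smul_zero]
  simp_rw [e]
  rw [setIntegral_indicator measurableSet_Ioi]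
  congr 2
  rw [Set.Ioi_inter_Ioi]
  simp

theorem XB2_eq {N : ℕ} [NeZero N] (f : ZMod N → ℂ) (hf : ∑ a, f a = 0) (s : ℂ)
    (hs : 0 < s.re) : ZMod.LFunction f s = s * mellin (XB2_A f) (-s) := by
  have hU : IsOpen {s : ℂ | 0 < s.re} := isOpen_lt continuous_const Complex.continuous_re
  have hf1 : AnalyticOnNhd ℂ (ZMod.LFunction f) {s : ℂ | 0 < s.re} := fun z _ =>
    (ZMod.differentiable_LFunction_of_sum_zero hf).analyticAt z
  have hg : AnalyticOnNhd ℂ (fun s => s * mellin (XB2_A f) (-s)) {s : ℂ | 0 < s.re} := by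
    apply DifferentiableOn.analyticOnNhd _ hU
    intro z hz
    exact (differentiableAt_id.mul (XB2_diff f hf z hz)).differentiableWithinAt
  have hpre : IsPreconnected {s : ℂ | 0 < s.re} := (convex_halfSpace_re_gt 0).isPreconnected
  have h2 : (2 : ℂ) ∈ {s : ℂ | 0 < s.re} := by simp
  refine hf1.eqOn_of_preconnected_of_eventuallyEq hg hpre h2 ?_ hs
  have hev : ∀ᶠ z : ℂ in 𝓝 (2 : ℂ), 1 < z.re :=
    (isOpen_lt continuous_const Complex.continuous_re).mem_nhds (by simp)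
  filter_upwards [hev] with z hz
  rw [ZMod.LFunction_eq_LSeries f hz, XB2_mellin]
  refine LSeries_eq_mul_integral (fun n : ℕ => f (n : ZMod N)) le_rfl (by linarith)
    (ZMod.LSeriesSummable_of_one_lt_re f hz) ?_
  simp only [Real.rpow_zero]
  exact Asymptotics.isBigO_of_le' (c := 1 + ∑ a, ‖f a‖) _ fun n => by
    simpa using XB2_sum_le f hf n

variable {N : ℕ} [NeZero N]

/-- mean value zero: bounded partial sums, L(s,f) = s * integral of S(x) x^(-s-1), hence the bound.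
Copy X/LB.lean (there for characters): w10_*, with sum f = 0 in place of chi <> 1. -/
theorem per_mean (f : ZMod N → ℂ) (hf : ∑ a, f a = 0) : ∃ C : ℝ, 0 < C ∧
    (∀ n : ℕ, ‖∑ m ∈ Finset.Icc 1 n, f (m : ZMod N)‖ ≤ C) ∧
    ∀ s : ℂ, 0 < s.re → ‖ZMod.LFunction f s‖ ≤ C * ‖s‖ / s.re := by
  have h0 : (0 : ℝ) ≤ ∑ a, ‖f a‖ := Finset.sum_nonneg fun _ _ => norm_nonneg _
  refine ⟨1 + ∑ a, ‖f a‖, by positivity, XB2_sum_le f hf, fun s hs => ?_⟩
  rw [XB2_eq f hf s hs, norm_mul, XB2_mellin]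
  have h1 : ‖∫ t in Set.Ioi (1 : ℝ), (∑ k ∈ Finset.Icc 1 ⌊t⌋₊, f (k : ZMod N)) *
      (t : ℂ) ^ (-(s + 1))‖ ≤ ∫ t in Set.Ioi (1 : ℝ), (1 + ∑ a, ‖f a‖) * t ^ (-(s.re + 1)) := by
    apply MeasureTheory.norm_integral_le_of_norm_le
    · exact (integrableOn_Ioi_rpow_of_lt (by linarith) zero_lt_one).const_mul _
    · refine (MeasureTheory.ae_restrict_iff' measurableSet_Ioi).2 (Filter.Eventually.of_forall ?_)
      intro t ht
      have ht0 : (0 : ℝ) < t := zero_lt_one.trans ht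
      rw [norm_mul, Complex.norm_cpow_eq_rpow_re_of_pos ht0]
      have e : (-(s + 1)).re = -(s.re + 1) := by simp
      rw [e]
      exact mul_le_mul_of_nonneg_right (XB2_sum_le f hf _) (Real.rpow_nonneg ht0.le _)
  rw [MeasureTheory.integral_const_mul, integral_Ioi_rpow_of_lt (by linarith) zero_lt_one,
    Real.one_rpow] at h1
  have e2 : (1 + ∑ a, ‖f a‖) * (-1 / (-(s.re + 1) + 1)) = (1 + ∑ a, ‖f a‖) / s.re := by
    have : -(s.re + 1) + 1 = -s.re := by ring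
    rw [this, neg_div_neg_eq]
    ring
  rw [e2] at h1
  calc ‖s‖ * _ ≤ ‖s‖ * ((1 + ∑ a, ‖f a‖) / s.re) := mul_le_mul_of_nonneg_left h1 (norm_nonneg _)
    _ = (1 + ∑ a, ‖f a‖) * ‖s‖ / s.re := by ring

end LP

end F_Y_XB2

section F_Y_XB3

open Complex MeasureTheory Set Filter Topology
open scoped ComplexConjugate

namespace LP

open LZ (kk nS cf EE ER PP wt Sep)

variable {N : ℕ} [NeZero N]

/-- polynomial growth for every periodic function: f = mean + mean zero part, LZ.zeta_pol (A03) and per_mean. -/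
theorem per_pol (f : ZMod N → ℂ) : ∃ C : ℝ, 0 < C ∧ ∀ s : ℂ, 5/16 ≤ s.re → 1/4 ≤ ‖s - 1‖ →
    ‖ZMod.LFunction f s‖ ≤ C * (1 + |s.im|) := by
  have hN : (N : ℂ) ≠ 0 := Nat.cast_ne_zero.2 (NeZero.ne N)
  set m : ℂ := (∑ a, f a) / N with hm
  have hg : ∑ a : ZMod N, (f a - m) = 0 := by
    rw [Finset.sum_sub_distrib, Finset.sum_const, Finset.card_univ, ZMod.card, hm, nsmul_eq_mul]
    field_simp
    ring
  obtain ⟨Cg, hCg, -, hb⟩ := per_mean (fun a => f a - m) hg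
  obtain ⟨Cz, hCz, hz⟩ := LZ.zeta_pol
  refine ⟨‖m‖ * Cz + 16 / 5 * Cg, by positivity, ?_⟩
  intro s hs hs1
  have hne : s ≠ 1 := by
    rintro rfl
    norm_num at hs1
  have hpos : 0 < s.re := by linarith
  obtain ⟨-, hlin, hone⟩ := per_basic (N := N)
  have e1 : ZMod.LFunction f s = m * riemannZeta s + ZMod.LFunction (fun a => f a - m) s := by
    have h := hlin (fun _ => (1 : ℂ)) (fun a => f a - m) m 1 s
    rw [hone s hne, one_mul] at h
    rw [← h]
    congr 1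
    funext x
    ring
  have h1 : ‖m * riemannZeta s‖ ≤ ‖m‖ * (Cz * (1 + |s.im|)) := by
    rw [norm_mul]
    exact mul_le_mul_of_nonneg_left (hz s hs hs1) (norm_nonneg _)
  have h2 : ‖s‖ / s.re ≤ 16 / 5 * (1 + |s.im|) := by
    rw [div_le_iff₀ hpos]
    have h3 : ‖s‖ ≤ s.re + |s.im| := by
      refine (Complex.norm_le_abs_re_add_abs_im s).trans ?_
      rw [abs_of_pos hpos]
    have h4 : 0 ≤ |s.im| := abs_nonneg _
    nlinarith
  have h5 : ‖ZMod.LFunction (fun a => f a - m) s‖ ≤ Cg * (16 / 5 * (1 + |s.im|)) := by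
    refine (hb s hpos).trans ?_
    rw [mul_div_assoc]
    exact mul_le_mul_of_nonneg_left h2 hCg.le
  rw [e1]
  refine (norm_add_le _ _).trans ?_
  calc _ ≤ ‖m‖ * (Cz * (1 + |s.im|)) + Cg * (16 / 5 * (1 + |s.im|)) := add_le_add h1 h5
    _ = _ := by ring

end LP

end F_Y_XB3
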