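import Pool.Agent.Lib.MP_0f5a55_nt.V.V06
import Pool.Agent.Lib.MP_0f5a55_nt.V.V07
import Pool.Agent.Lib.MP_0f5a55_nt.V.V11
import Pool.Agent.Lib.MP_0f5a55_nt.V.V12
import Pool.Agent.Lib.MP_0f5a55_nt.V.V18
import Pool.Agent.Lib.MP_0f5a55_nt.V.V30
import Pool.Agent.Lib.MP_0f5a55_nt.V.V38
import Pool.Agent.Lib.MP_0f5a55_nt.V.V39

section F_X_A15

open Complex MeasureTheory Set Filter Topology

namespace LX

open LZ

theorem A15_gamma (V : ℝ) (hV : 0 ≤ V) : ∃ C : ℝ, 0 < C ∧ ∀ η : ℂ, |η.re| ≤ 1/8 → |η.im| ≤ V →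
    ‖Gamma (1 - η)‖ ≤ C := by
  have hK : IsCompact (Icc (-(1/8) : ℝ) (1/8) ×ℂ Icc (-V) V) := isCompact_Icc.reProdIm isCompact_Icc
  have hc : ContinuousOn (fun η : ℂ => Gamma (1 - η)) (Icc (-(1/8) : ℝ) (1/8) ×ℂ Icc (-V) V) := by
    intro η hη
    have h1 : η.re ≤ 1/8 := (Complex.mem_reProdIm.mp hη).1.2
    apply ContinuousAt.continuousWithinAt
    have h2 : DifferentiableAt ℂ Gamma (1 - η) := by
      apply differentiableAt_Gamma
      intro m h
      have h3 := congrArg Complex.re h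
      simp only [Complex.sub_re, Complex.one_re, Complex.neg_re, Complex.natCast_re] at h3
      have : (0 : ℝ) ≤ m := Nat.cast_nonneg m
      linarith
    exact ContinuousAt.comp (f := fun η : ℂ => 1 - η) (g := Gamma) h2.continuousAt (by fun_prop)
  obtain ⟨C, hC⟩ := hK.exists_bound_of_continuousOn hc
  refine ⟨|C| + 1, by positivity, fun η h1 h2 => ?_⟩
  have := hC η (Complex.mem_reProdIm.mpr ⟨abs_le.mp h1, abs_le.mp h2⟩)
  linarith [le_abs_self C]

theorem A15_euler (q : ℕ) : ∃ ρ : ℝ, 0 < ρ ∧ ∀ η : ℂ, ‖η‖ ≤ ρ →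
    ‖∏ p ∈ q.primeFactors, (1 - (p : ℂ) ^ (-(1 + η)))‖ ≤ 2 * rq q := by
  have hc : ContinuousAt (fun η : ℂ => ‖∏ p ∈ q.primeFactors, (1 - (p : ℂ) ^ (-(1 + η)))‖) 0 := by
    refine ContinuousAt.norm ?_
    refine Continuous.continuousAt ?_
    refine continuous_finsetProd _ fun p hp => ?_
    have hp0 : (p : ℂ) ≠ 0 := by exact_mod_cast (Nat.prime_of_mem_primeFactors hp).ne_zero
    refine continuous_const.sub ?_
    exact Continuous.const_cpow (by fun_prop) (Or.inl hp0)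
  have h0 : ‖∏ p ∈ q.primeFactors, (1 - (p : ℂ) ^ (-(1 + (0 : ℂ))))‖ = rq q := by
    have e : ∏ p ∈ q.primeFactors, (1 - (p : ℂ) ^ (-(1 + (0 : ℂ)))) = ((rq q : ℝ) : ℂ) := by
      unfold rq
      push_cast
      refine Finset.prod_congr rfl fun p hp => ?_
      rw [add_zero, Complex.cpow_neg_one]
    rw [e, Complex.norm_real, Real.norm_of_nonneg (rq_pos q).le]
  have hlt : ‖∏ p ∈ q.primeFactors, (1 - (p : ℂ) ^ (-(1 + (0 : ℂ))))‖ < 2 * rq q := by
    rw [h0]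
    linarith [rq_pos q]
  have hev := hc.eventually (gt_mem_nhds hlt)
  obtain ⟨ρ, hρ, h⟩ := Metric.eventually_nhds_iff.mp hev
  refine ⟨ρ / 2, by positivity, fun η hη => ?_⟩
  exact (h (by rw [dist_zero_right]; linarith)).le

theorem A15_Sf {q : ℕ} [NeZero q] (χ : DirichletCharacter ℂ q) : LP.Sf χ (χ⁻¹ : DirichletCharacter ℂ q) = (q.totient : ℂ) := by
  classical
  unfold LP.Sf
  have h1 : ∀ a : ZMod q, χ a * χ⁻¹ a = if IsUnit a then 1 else 0 := by
    intro a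
    rw [inv_apply, Complex.mul_conj, Complex.normSq_eq_norm_sq]
    split_ifs with ha
    · obtain ⟨u, rfl⟩ := ha
      rw [DirichletCharacter.unit_norm_eq_one χ u]
      norm_num
    · rw [MulChar.map_nonunit χ ha, norm_zero]
      norm_num
  rw [Finset.sum_congr rfl (fun a _ => h1 a), Finset.sum_boole]
  congr 1
  rw [← ZMod.card_units_eq_totient, ← Finset.card_univ,
    ← Finset.card_map (⟨Units.val, Units.val_injective⟩ : (ZMod q)ˣ ↪ ZMod q)]
  congr 1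
  ext a
  simp only [Finset.mem_filter, Finset.mem_univ, true_and, Finset.mem_map, Function.Embedding.coeFn_mk]
  exact Iff.rfl

/-- bounds near the pole with absolute constant -/
theorem zA_abs : ∃ C : ℝ, 0 < C ∧ ∀ (q : ℕ) [NeZero q] (χ : DirichletCharacter ℂ q), ∃ ρ : ℝ, 0 < ρ ∧
    ∀ η : ℂ, η ≠ 0 → ‖η‖ ≤ ρ → ‖zq q (1 + η)‖ ≤ C * rq q / ‖η‖ ∧ ‖Aq χ η‖ ≤ C * rq q / ‖η‖ := by
  obtain ⟨C1, hC1, h1⟩ := LZ.zA_bounds 1 zero_le_one
  obtain ⟨C2, hC2, h2⟩ := A15_gamma 1 zero_le_one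
  refine ⟨4 * C1 + C2 + 1, by positivity, fun q _ χ => ?_⟩
  have hrq := rq_pos q
  have hq0 : (0 : ℝ) < q := by exact_mod_cast Nat.pos_of_ne_zero (NeZero.ne q)
  obtain ⟨ρ1, hρ1, he⟩ := A15_euler q
  obtain ⟨C3, hC3, -, h3⟩ := LP.JF_bound (N := q) χ (χ⁻¹ : DirichletCharacter ℂ q)
  refine ⟨min (min ρ1 (1/8)) (q * rq q / C3), by positivity, fun η hη hn => ?_⟩
  have hnρ : ‖η‖ ≤ ρ1 := hn.trans ((min_le_left _ _).trans (min_le_left _ _))
  have hn8 : ‖η‖ ≤ 1/8 := hn.trans ((min_le_left _ _).trans (min_le_right _ _))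
  have hn3 : ‖η‖ ≤ q * rq q / C3 := hn.trans (min_le_right _ _)
  have hpos : 0 < ‖η‖ := norm_pos_iff.mpr hη
  have hre : |η.re| ≤ 1/8 := (Complex.abs_re_le_norm _).trans hn8
  have him : |η.im| ≤ 1 := (Complex.abs_im_le_norm _).trans (by linarith)
  have hinv : 1 + 1 / ‖η‖ ≤ 2 / ‖η‖ := by
    have : 1 ≤ 1 / ‖η‖ := by
      rw [le_div_iff₀ hpos]
      linarith
    calc 1 + 1 / ‖η‖ ≤ 1 / ‖η‖ + 1 / ‖η‖ := by linarith
      _ = 2 / ‖η‖ := by ring
  constructor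
  · unfold zq
    rw [norm_mul]
    calc ‖riemannZeta (1 + η)‖ * ‖∏ p ∈ q.primeFactors, (1 - (p : ℂ) ^ (-(1 + η)))‖
        ≤ (C1 * (2 / ‖η‖)) * (2 * rq q) := by
          refine mul_le_mul ((h1 η hre him hη).1.trans ?_) (he η hnρ) (norm_nonneg _) (by positivity)
          exact mul_le_mul_of_nonneg_left hinv hC1.le
      _ = 4 * C1 * rq q / ‖η‖ := by ring
      _ ≤ (4 * C1 + C2 + 1) * rq q / ‖η‖ := by gcongr; linarith
  · unfold Aq LP.AC
    rw [A15_Sf, norm_mul, norm_inv, Complex.norm_natCast]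
    have hA : ‖-((q.totient : ℂ) * Gamma (1 - η)) / η + LP.JF χ (χ⁻¹ : DirichletCharacter ℂ q) η‖ ≤
        q * rq q * C2 / ‖η‖ + C3 := by
      refine (norm_add_le _ _).trans (add_le_add ?_ (h3 η hre))
      rw [norm_div, norm_neg, norm_mul, Complex.norm_natCast,
        rq_eq (Nat.one_le_iff_ne_zero.mpr (NeZero.ne q))]
      gcongr
      exact h2 η hre him
    have hC3' : C3 ≤ q * rq q / ‖η‖ := by
      rw [le_div_iff₀ hpos]
      rw [le_div_iff₀ hC3] at hn3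
      linarith
    calc (q : ℝ)⁻¹ * ‖-((q.totient : ℂ) * Gamma (1 - η)) / η + LP.JF χ (χ⁻¹ : DirichletCharacter ℂ q) η‖
        ≤ (q : ℝ)⁻¹ * (q * rq q * C2 / ‖η‖ + q * rq q / ‖η‖) := by
          apply mul_le_mul_of_nonneg_left _ (by positivity)
          linarith
      _ = (C2 + 1) * rq q / ‖η‖ := by field_simp
      _ ≤ (4 * C1 + C2 + 1) * rq q / ‖η‖ := by gcongr; linarith

end LX

end F_X_A15

section F_Y_A15

open Complex MeasureTheory Set Filter Topology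
open scoped ComplexConjugate

namespace LP

open LZ (kk nS cf EE ER PP wt Sep)

variable {N : ℕ} [NeZero N]

private lemma A15_off {a b : ZMod N} (hab : a ≠ b) {y : ℝ} (hy : 0 ≤ y) :
    ‖(exp ((y : ℂ) + 2 * Real.pi * I * ((a.val : ℂ) - b.val) / N) - 1)⁻¹‖ ≤
      4 * (N : ℝ) ^ 2 * Real.exp (-y / 2) := by
  have hN : N ≠ 0 := NeZero.ne N
  have hNC : (N : ℂ) ≠ 0 := by exact_mod_cast hN
  have hc1 : 1 ≤ (a - b).val := by
    have h1 : (a - b).val ≠ 0 := by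
      rw [Ne, ZMod.val_eq_zero, sub_eq_zero]
      exact hab
    omega
  have hc2 : (a - b).val < N := ZMod.val_lt _
  have hdvd : (N : ℤ) ∣ ((a.val : ℤ) - b.val - (a - b).val) := by
    rw [← ZMod.intCast_zmod_eq_zero_iff_dvd]
    push_cast
    rw [ZMod.natCast_zmod_val, ZMod.natCast_zmod_val, ZMod.natCast_zmod_val]
    ring
  obtain ⟨k, hk⟩ := hdvd
  have hkC : (a.val : ℂ) - b.val = ((a - b).val : ℂ) + N * k := by
    have h2 : ((((a.val : ℤ) - b.val - (a - b).val : ℤ)) : ℂ) = (((N : ℤ) * k : ℤ) : ℂ) := by rw [hk]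
    push_cast at h2
    linear_combination h2
  have hexp : exp ((y : ℂ) + 2 * Real.pi * I * ((a.val : ℂ) - b.val) / N) =
      exp ((y : ℂ) + 2 * Real.pi * I * ((a - b).val : ℂ) / N) := by
    rw [hkC]
    have h3 : (y : ℂ) + 2 * Real.pi * I * (((a - b).val : ℂ) + N * k) / N =
        ((y : ℂ) + 2 * Real.pi * I * ((a - b).val : ℂ) / N) + k * (2 * Real.pi * I) := by
      field_simp
      ring
    rw [h3, Complex.exp_add, Complex.exp_int_mul_two_pi_mul_I, mul_one]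
  rw [hexp]
  exact (LZ.fz_off hc1 hc2 hy).2.1

private lemma A15_PF {f g : ZMod N → ℂ} (hf : ∀ a, ‖f a‖ ≤ 1) (hg : ∀ a, ‖g a‖ ≤ 1) {y : ℝ} (hy : 0 < y) :
    ‖PF f g y - Sf f g * ((Real.exp (-y) / y : ℝ) : ℂ)‖ ≤ (N + 4 * (N : ℝ) ^ 4) * Real.exp (-y / 2) := by
  have hN : (0:ℝ) < N := by exact_mod_cast Nat.pos_of_ne_zero (NeZero.ne N)
  have hkey : PF f g y - Sf f g * ((Real.exp (-y) / y : ℝ) : ℂ) =
      ∑ a : ZMod N, ∑ b : ZMod N, (if a = b then f a * g a * (LZ.f1 y : ℂ) else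
        f a * g b * (exp ((y : ℂ) + 2 * Real.pi * I * ((a.val : ℂ) - b.val) / N) - 1)⁻¹) := by
    unfold PF Sf
    rw [Finset.sum_mul, ← Finset.sum_sub_distrib]
    refine Finset.sum_congr rfl fun a _ => ?_
    have h1 : f a * g a * ((Real.exp (-y) / y : ℝ) : ℂ) =
        ∑ b : ZMod N, (if a = b then f a * g a * ((Real.exp (-y) / y : ℝ) : ℂ) else 0) := by
      rw [Finset.sum_ite_eq]
      simp
    rw [h1, ← Finset.sum_sub_distrib]
    refine Finset.sum_congr rfl fun b _ => ?_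
    by_cases hab : a = b
    · subst hab
      rw [if_pos rfl, if_pos rfl]
      have h2 : (exp ((y : ℂ) + 2 * Real.pi * I * ((a.val : ℂ) - a.val) / N) - 1)⁻¹ =
          ((1 / (Real.exp y - 1) : ℝ) : ℂ) := by
        rw [sub_self, mul_zero, zero_div, add_zero, one_div]
        push_cast
        rfl
      rw [h2]
      unfold LZ.f1
      push_cast
      ring
    · rw [if_neg hab, if_neg hab, sub_zero]
  rw [hkey]
  obtain ⟨hf1, hf2⟩ := LZ.A15_f1 hy
  have hexp : Real.exp (-y) ≤ Real.exp (-y / 2) := Real.exp_le_exp.mpr (by linarith)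
  have hterm : ∀ a b : ZMod N, ‖(if a = b then f a * g a * (LZ.f1 y : ℂ) else
        f a * g b * (exp ((y : ℂ) + 2 * Real.pi * I * ((a.val : ℂ) - b.val) / N) - 1)⁻¹)‖ ≤
      (if a = b then Real.exp (-y / 2) else 0) + 4 * (N : ℝ) ^ 2 * Real.exp (-y / 2) := by
    intro a b
    have h0 : (0:ℝ) ≤ 4 * (N : ℝ) ^ 2 * Real.exp (-y / 2) := by positivity
    by_cases hab : a = b
    · rw [if_pos hab, if_pos hab, norm_mul, norm_mul, Complex.norm_real, Real.norm_eq_abs,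
        abs_of_nonneg hf1]
      have h3 : ‖f a‖ * ‖g a‖ * LZ.f1 y ≤ 1 * 1 * Real.exp (-y / 2) := by
        have := hf a
        have := hg a
        have := hf2.trans hexp
        gcongr
      linarith
    · rw [if_neg hab, if_neg hab, norm_mul, norm_mul, zero_add]
      have h3 := A15_off hab hy.le
      calc ‖f a‖ * ‖g b‖ * ‖(exp ((y : ℂ) + 2 * Real.pi * I * ((a.val : ℂ) - b.val) / N) - 1)⁻¹‖
          ≤ 1 * 1 * (4 * (N : ℝ) ^ 2 * Real.exp (-y / 2)) := by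
            have := hf a
            have := hg b
            gcongr
        _ = _ := by ring
  calc ‖∑ a : ZMod N, ∑ b : ZMod N, (if a = b then f a * g a * (LZ.f1 y : ℂ) else
        f a * g b * (exp ((y : ℂ) + 2 * Real.pi * I * ((a.val : ℂ) - b.val) / N) - 1)⁻¹)‖
      ≤ ∑ a : ZMod N, ∑ b : ZMod N, ((if a = b then Real.exp (-y / 2) else 0) +
          4 * (N : ℝ) ^ 2 * Real.exp (-y / 2)) := by
        refine (norm_sum_le _ _).trans (Finset.sum_le_sum fun a _ => ?_)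
        exact (norm_sum_le _ _).trans (Finset.sum_le_sum fun b _ => hterm a b)
    _ = (N + 4 * (N : ℝ) ^ 4) * Real.exp (-y / 2) := by
        simp only [Finset.sum_add_distrib, Finset.sum_ite_eq, Finset.mem_univ, if_true,
          Finset.sum_const, Finset.card_univ, ZMod.card, nsmul_eq_mul]
        ring

private lemma A15_J {f g : ZMod N → ℂ} (hf : ∀ a, ‖f a‖ ≤ 1) (hg : ∀ a, ‖g a‖ ≤ 1) :
    ∃ C : ℝ, 0 < C ∧ ∀ η : ℂ, |η.re| ≤ 1/8 → ‖JF f g η‖ ≤ C := by
  have hN : (0:ℝ) < N := by exact_mod_cast Nat.pos_of_ne_zero (NeZero.ne N)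
  set G : ℝ → ℝ := fun y => (N + 4 * (N : ℝ) ^ 4) * (y ^ (-(1/8 : ℝ)) * Real.exp (-y / 2) +
    y ^ (1/8 : ℝ) * Real.exp (-y / 2)) with hG
  have hgi : IntegrableOn G (Ioi 0) := by
    refine Integrable.const_mul (Integrable.add ?_ ?_) _
    · have h := integrableOn_rpow_mul_exp_neg_mul_rpow (s := -(1/8 : ℝ)) (p := 1) (b := 1/2)
        (by norm_num) one_pos (by norm_num)
      refine h.congr_fun (fun t _ => ?_) measurableSet_Ioi
      simp only [Real.rpow_one]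
      congr 2
      ring
    · have h := integrableOn_rpow_mul_exp_neg_mul_rpow (s := (1/8 : ℝ)) (p := 1) (b := 1/2)
        (by norm_num) one_pos (by norm_num)
      refine h.congr_fun (fun t _ => ?_) measurableSet_Ioi
      simp only [Real.rpow_one]
      congr 2
      ring
  have hint : ∀ η : ℂ, |η.re| ≤ 1/8 → ‖JF f g η‖ ≤ ∫ y in Ioi (0 : ℝ), G y := by
    intro η hη
    refine norm_integral_le_of_norm_le hgi ?_
    refine (ae_restrict_iff' measurableSet_Ioi).2 (Eventually.of_forall fun y hy => ?_)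
    have hy0 : (0 : ℝ) < y := hy
    obtain ⟨h3, h4⟩ := abs_le.1 hη
    rw [norm_mul, Complex.norm_cpow_eq_rpow_re_of_pos hy0, neg_re]
    have h2 := A15_PF hf hg hy0
    have h5 : y ^ (-η.re) ≤ y ^ (-(1/8 : ℝ)) + y ^ (1/8 : ℝ) := by
      rcases le_total 1 y with h | h
      · have := Real.rpow_le_rpow_of_exponent_le h (by linarith : -η.re ≤ 1/8)
        have h6 : 0 ≤ y ^ (-(1/8 : ℝ)) := by positivity
        linarith
      · have := Real.rpow_le_rpow_of_exponent_ge hy0 h (by linarith : -(1/8) ≤ -η.re)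
        have h6 : 0 ≤ y ^ (1/8 : ℝ) := by positivity
        linarith
    calc y ^ (-η.re) * ‖PF f g y - Sf f g * ((Real.exp (-y) / y : ℝ) : ℂ)‖
        ≤ (y ^ (-(1/8 : ℝ)) + y ^ (1/8 : ℝ)) * ((N + 4 * (N : ℝ) ^ 4) * Real.exp (-y / 2)) := by
          gcongr
      _ = G y := by rw [hG]; ring
  have h0 : 0 ≤ ∫ y in Ioi (0 : ℝ), G y := (norm_nonneg _).trans (hint 0 (by simp))
  exact ⟨(∫ y in Ioi (0 : ℝ), G y) + 1, by linarith, fun η hη => (hint η hη).trans (by linarith)⟩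

private lemma A15_L (χ : DirichletCharacter ℂ N) (V : ℝ) (_hV : 0 ≤ V) : ∃ C : ℝ, 0 < C ∧ ∀ η : ℂ,
    |η.re| ≤ 1/8 → |η.im| ≤ V → η ≠ 0 → ‖LX.Lf χ (1 + η)‖ ≤ C * (1 + 1 / ‖η‖) := by
  set S : Set ℂ := Icc (-(1/8 : ℝ)) (1/8) ×ℂ Icc (-V) V with hS
  have hSc : IsCompact S := isCompact_Icc.reProdIm isCompact_Icc
  have hmem : ∀ η : ℂ, |η.re| ≤ 1/8 → |η.im| ≤ V → η ∈ S := by
    intro η h1 h2
    rw [hS, mem_reProdIm]
    exact ⟨abs_le.1 h1, abs_le.1 h2⟩
  by_cases hχ : χ = 1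
  · obtain ⟨C, hC⟩ := hSc.exists_bound_of_continuousOn
      (f := fun η : ℂ => DirichletCharacter.LFunctionTrivChar₁ N (1 + η)) (by
        refine Continuous.continuousOn ?_
        exact (DirichletCharacter.differentiable_LFunctionTrivChar₁ N).continuous.comp (by fun_prop))
    refine ⟨|C| + 1, by positivity, fun η h1 h2 h0 => ?_⟩
    have hn : 0 < ‖η‖ := norm_pos_iff.2 h0
    have h3 := hC η (hmem η h1 h2)
    have h4 : DirichletCharacter.LFunctionTrivChar₁ N (1 + η) = η * LX.Lf χ (1 + η) := by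
      have h6 : (1 : ℂ) + η ≠ 1 := by
        intro h
        exact h0 (by simpa using h)
      rw [hχ]
      unfold DirichletCharacter.LFunctionTrivChar₁ LX.Lf
      rw [Function.update_of_ne h6, add_sub_cancel_left]
    simp only [h4] at h3
    rw [norm_mul] at h3
    have h5 : ‖LX.Lf χ (1 + η)‖ ≤ C * (1 / ‖η‖) := by
      rw [mul_one_div, le_div_iff₀ hn]
      linarith
    have h6 : C * (1 / ‖η‖) ≤ (|C| + 1) * (1 / ‖η‖) := by
      have := le_abs_self C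
      gcongr
      linarith
    have h7 : 0 ≤ |C| + 1 := by positivity
    linarith [mul_comm (|C| + 1) 1, mul_add (|C| + 1) 1 (1 / ‖η‖)]
  · obtain ⟨C, hC⟩ := hSc.exists_bound_of_continuousOn (f := fun η : ℂ => LX.Lf χ (1 + η)) (by
        refine Continuous.continuousOn ?_
        exact (LX.Lf_diff hχ).continuous.comp (by fun_prop))
    refine ⟨|C| + 1, by positivity, fun η h1 h2 h0 => ?_⟩
    have hn : 0 < ‖η‖ := norm_pos_iff.2 h0
    have h3 := hC η (hmem η h1 h2)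
    have h4 := le_abs_self C
    have h5 : 0 ≤ (|C| + 1) * (1 / ‖η‖) := by positivity
    have h6 : (|C| + 1) * (1 + 1 / ‖η‖) = (|C| + 1) + (|C| + 1) * (1 / ‖η‖) := by ring
    rw [h6]
    linarith

private lemma A15_Sf (χ ψ : DirichletCharacter ℂ N) : Sf (fun a => χ a) (fun a => ψ a) = ∑ a, (χ * ψ) a := by
  unfold Sf
  rfl

private lemma A15_totient (χ : DirichletCharacter ℂ N) :
    Sf (fun a => χ a) (fun a => χ⁻¹ a) = (N.totient : ℂ) := by
  rw [A15_Sf, mul_inv_cancel, MulChar.sum_one_eq_card_units, ZMod.card_units_eq_totient]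

private lemma A15_eulerval : (∏ p ∈ N.primeFactors, (1 - (p : ℂ)⁻¹)) = ((N.totient : ℝ) / N : ℝ) := by
  have hN : (N : ℝ) ≠ 0 := by exact_mod_cast NeZero.ne N
  have h := Nat.totient_eq_mul_prod_factors N
  have h2 : (N.totient : ℝ) = N * ∏ p ∈ N.primeFactors, (1 - (p : ℝ)⁻¹) := by
    have := congrArg (fun x : ℚ => (x : ℝ)) h
    push_cast at this
    exact this
  rw [h2, mul_div_cancel_left₀ _ hN]
  push_cast
  rfl

/-- bounds for the two constants. (i) general; (ii) bounded when chi*psi <> 1. Adapt LZ.A15; |PF - Sf e^(-y)/y| <= C e^(-y/2) for y > 0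
(diagonal terms a = b: Sf/(e^y-1); off-diagonal terms: LZ.A12 fz_off; use pairs with a.val - b.val mod N), so |JF| <= C.
(iii) near 0 with the sharp constant: Lf 1 (1+eta) = zeta(1+eta) prod (1-p^(-1-eta)) (LFunctionTrivChar_residue_one),
Sf chi chi^-1 = totient N. -/
theorem AC_bounds : (∀ (χ ψ : DirichletCharacter ℂ N) (V : ℝ), 0 ≤ V → ∃ C : ℝ, 0 < C ∧ ∀ η : ℂ, |η.re| ≤ 1/8 →
      |η.im| ≤ V → η ≠ 0 → ‖LX.Lf (χ * ψ) (1 + η)‖ ≤ C * (1 + 1 / ‖η‖) ∧ ‖AC χ ψ η‖ ≤ C * (1 + 1 / ‖η‖)) ∧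
    (∀ (χ ψ : DirichletCharacter ℂ N) (V : ℝ), χ * ψ ≠ 1 → 0 ≤ V → ∃ C : ℝ, 0 < C ∧ ∀ η : ℂ, |η.re| ≤ 1/8 →
      |η.im| ≤ V → ‖AC χ ψ η‖ ≤ C) ∧
    (∀ χ : DirichletCharacter ℂ N, ∃ δ : ℝ, 0 < δ ∧ ∀ η : ℂ, η ≠ 0 → ‖η‖ ≤ δ →
      ‖LX.Lf (χ * χ⁻¹) (1 + η)‖ ≤ 3 * ((N.totient : ℝ) / N) / ‖η‖ ∧
      ‖(N : ℂ)⁻¹ * AC χ χ⁻¹ η‖ ≤ 3 * ((N.totient : ℝ) / N) / ‖η‖) := by
  refine ⟨?_, ?_, ?_⟩
  · intro χ ψ V hV
    obtain ⟨C1, hC1, h1⟩ := A15_L (χ * ψ) V hV
    obtain ⟨C2, hC2, h2⟩ := LX.A15_gamma V hV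
    obtain ⟨C3, hC3, h3⟩ := A15_J (N := N) (f := fun a => χ a) (g := fun a => ψ a)
      (fun a => LX.norm_char_le χ a) (fun a => LX.norm_char_le ψ a)
    set s : ℝ := ‖Sf (fun a => χ a) (fun a => ψ a)‖ with hs
    have hs0 : 0 ≤ s := norm_nonneg _
    refine ⟨C1 + s * C2 + C3, by positivity, fun η ha hb h0 => ?_⟩
    have hn : 0 < ‖η‖ := norm_pos_iff.2 h0
    have hi : 0 < 1 / ‖η‖ := by positivity
    constructor
    · refine (h1 η ha hb h0).trans ?_
      have : C1 ≤ C1 + s * C2 + C3 := by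
        have : 0 ≤ s * C2 := by positivity
        linarith
      gcongr
    · unfold AC
      refine (norm_add_le _ _).trans ?_
      rw [norm_div, norm_neg, norm_mul]
      have e1 : ‖Sf (fun a => χ a) (fun a => ψ a)‖ * ‖Gamma (1 - η)‖ / ‖η‖ ≤ s * C2 * (1 / ‖η‖) := by
        rw [div_eq_mul_one_div]
        have := h2 η ha hb
        gcongr
      have e2 := h3 η ha
      have e3 : 0 ≤ C1 * (1 + 1 / ‖η‖) := by positivity
      have e4 : 0 ≤ s * C2 := by positivity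
      have e5 : 0 ≤ C3 * (1 / ‖η‖) := by positivity
      calc _ ≤ s * C2 * (1 / ‖η‖) + C3 := add_le_add e1 e2
        _ ≤ (C1 + s * C2 + C3) * (1 + 1 / ‖η‖) := by
          have : (C1 + s * C2 + C3) * (1 + 1 / ‖η‖) = C1 * (1 + 1 / ‖η‖) + s * C2 +
            s * C2 * (1 / ‖η‖) + C3 + C3 * (1 / ‖η‖) := by ring
          rw [this]
          linarith
  · intro χ ψ V hne hV
    obtain ⟨C3, hC3, h3⟩ := A15_J (N := N) (f := fun a => χ a) (g := fun a => ψ a)
      (fun a => LX.norm_char_le χ a) (fun a => LX.norm_char_le ψ a)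
    refine ⟨C3, hC3, fun η ha hb => ?_⟩
    have hS0 : Sf (fun a => χ a) (fun a => ψ a) = 0 := by
      rw [A15_Sf]
      exact MulChar.sum_eq_zero_of_ne_one hne
    unfold AC
    rw [hS0, zero_mul, neg_zero, zero_div, zero_add]
    exact h3 η ha
  · intro χ
    have hNpos : 0 < N := Nat.pos_of_ne_zero (NeZero.ne N)
    have hN : (0:ℝ) < N := by exact_mod_cast hNpos
    have hφ : (0:ℝ) < N.totient := by exact_mod_cast Nat.totient_pos.mpr hNpos
    set c : ℝ := (N.totient : ℝ) / N with hc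
    have hc0 : 0 < c := by positivity
    -- first function
    have hcont1 : Continuous (fun η : ℂ => DirichletCharacter.LFunctionTrivChar₁ N (1 + η)) :=
      (DirichletCharacter.differentiable_LFunctionTrivChar₁ N).continuous.comp (by fun_prop)
    have hval1 : DirichletCharacter.LFunctionTrivChar₁ N (1 + 0) = (c : ℂ) := by
      rw [add_zero]
      unfold DirichletCharacter.LFunctionTrivChar₁
      rw [Function.update_self, A15_eulerval]
    have ht1 := hcont1.tendsto 0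
    simp only [hval1] at ht1
    have hev1 : ∀ᶠ η : ℂ in 𝓝 0, ‖DirichletCharacter.LFunctionTrivChar₁ N (1 + η)‖ < 3 * c := by
      have := ht1.norm
      rw [Complex.norm_real, Real.norm_of_nonneg hc0.le] at this
      exact this.eventually_lt_const (by linarith)
    obtain ⟨δ1, hδ1, hd1⟩ := Metric.eventually_nhds_iff.mp hev1
    -- second function
    obtain ⟨C3, hC3, h3⟩ := A15_J (N := N) (f := fun a => χ a) (g := fun a => χ⁻¹ a)
      (fun a => LX.norm_char_le χ a) (fun a => LX.norm_char_le χ⁻¹ a)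
    have hcont2 : Tendsto (fun η : ℂ => Gamma (1 - η)) (𝓝 0) (𝓝 (Gamma (1 - 0))) := by
      refine ContinuousAt.tendsto ?_
      refine ContinuousAt.comp (g := Gamma) (f := fun η : ℂ => 1 - η) ?_ (by fun_prop)
      refine (differentiableAt_Gamma _ ?_).continuousAt
      intro m h
      have h2 := congrArg Complex.re h
      simp only [sub_zero, one_re, neg_re, natCast_re] at h2
      have h3 : (0 : ℝ) ≤ m := Nat.cast_nonneg m
      linarith
    have hev2 : ∀ᶠ η : ℂ in 𝓝 0, ‖Gamma (1 - η)‖ < 2 := by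
      have := hcont2.norm
      rw [sub_zero, Complex.Gamma_one, norm_one] at this
      exact this.eventually_lt_const (by norm_num)
    obtain ⟨δ2, hδ2, hd2⟩ := Metric.eventually_nhds_iff.mp hev2
    refine ⟨min (min (δ1 / 2) (δ2 / 2)) (min (1/8) (c / C3)), by positivity, fun η h0 hη => ?_⟩
    have hn : 0 < ‖η‖ := norm_pos_iff.2 h0
    have g1 : ‖η‖ < δ1 := by
      have : ‖η‖ ≤ δ1 / 2 := hη.trans ((min_le_left _ _).trans (min_le_left _ _))
      linarith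
    have g2 : ‖η‖ < δ2 := by
      have : ‖η‖ ≤ δ2 / 2 := hη.trans ((min_le_left _ _).trans (min_le_right _ _))
      linarith
    have g3 : ‖η‖ ≤ 1/8 := hη.trans ((min_le_right _ _).trans (min_le_left _ _))
    have g4 : ‖η‖ ≤ c / C3 := hη.trans ((min_le_right _ _).trans (min_le_right _ _))
    have hre : |η.re| ≤ 1/8 := (Complex.abs_re_le_norm η).trans g3
    have e1 := hd1 (y := η) (by rwa [dist_zero_right])
    have e2 := hd2 (y := η) (by rwa [dist_zero_right])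
    constructor
    · rw [mul_inv_cancel]
      have h6 : (1 : ℂ) + η ≠ 1 := by
        intro h
        exact h0 (by simpa using h)
      have h4 : DirichletCharacter.LFunctionTrivChar₁ N (1 + η) = η * LX.Lf (1 : DirichletCharacter ℂ N) (1 + η) := by
        unfold DirichletCharacter.LFunctionTrivChar₁ LX.Lf
        rw [Function.update_of_ne h6, add_sub_cancel_left]
      rw [h4, norm_mul] at e1
      rw [le_div_iff₀ hn]
      linarith
    · have hinv : (⇑χ)⁻¹ = (fun a => χ⁻¹ a) := by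
        funext a
        rw [Pi.inv_apply, MulChar.inv_apply_eq_inv']
      rw [hinv]
      unfold AC
      rw [A15_totient, le_div_iff₀ hn, ← norm_mul]
      have hNC : (N : ℂ) ≠ 0 := by exact_mod_cast NeZero.ne N
      have h7 : (N : ℂ)⁻¹ * (-((N.totient : ℂ) * Gamma (1 - η)) / η + JF (fun a => χ a) (fun a => χ⁻¹ a) η) * η =
          -((c : ℂ) * Gamma (1 - η)) + (N : ℂ)⁻¹ * JF (fun a => χ a) (fun a => χ⁻¹ a) η * η := by
        rw [hc]
        push_cast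
        field_simp
      rw [h7]
      refine (norm_add_le _ _).trans ?_
      rw [norm_neg, norm_mul, norm_mul, norm_mul, Complex.norm_real, Real.norm_of_nonneg hc0.le, norm_inv,
        Complex.norm_natCast]
      have h8 := h3 η hre
      have h9 : (N : ℝ)⁻¹ ≤ 1 := by
        rw [inv_le_one₀ hN]
        exact_mod_cast hNpos
      have h10 : (N : ℝ)⁻¹ * ‖JF (fun a => χ a) (fun a => χ⁻¹ a) η‖ * ‖η‖ ≤ 1 * C3 * (c / C3) := by
        gcongr
      have h11 : 1 * C3 * (c / C3) = c := by field_simp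
      have h12 : c * ‖Gamma (1 - η)‖ ≤ c * 2 := by gcongr
      linarith

end LP

end F_Y_A15

section F_X_M02

open Complex MeasureTheory Set Filter Topology
open scoped ComplexConjugate

namespace LX

open LZ

/-- the term of one quadruple -/
theorem M02_term {q : ℕ} [NeZero q] (χ : DirichletCharacter ℂ q) (T : ℝ) (c : Fin 4 → ℂ) (n : Fin 4 → ℕ) (hn : ∀ j, 0 < n j) (α β : ℂ)
    (τ : Fin 4 → ℂ) :
    (∏ j, c j * (n j : ℂ) ^ (-(1/2) - τ j)) * mainT χ T α β (n 0 * n 1) (n 2 * n 3) =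
      zq q (1 + (α + β)) * ((∏ j, c j * (n j : ℂ) ^
          (-1 - (![τ 0 + β, τ 1 + β, τ 2 + α, τ 3 + α] : Fin 4 → ℂ) j)) *
        ((Nat.gcd (n 0 * n 1) (n 2 * n 3) : ℕ) : ℂ) ^ (1 + (α + β))) +
      ((2 * Real.pi / (q * T) : ℝ) : ℂ) ^ (α + β) * Aq χ (α + β) * ((∏ j, c j * (n j : ℂ) ^
          (-1 - (![τ 0 - α, τ 1 - α, τ 2 - β, τ 3 - β] : Fin 4 → ℂ) j)) *
        ((Nat.gcd (n 0 * n 1) (n 2 * n 3) : ℕ) : ℂ) ^ (1 + (-(α + β)))) := by
  set g := Nat.gcd (n 0 * n 1) (n 2 * n 3) with hg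
  have hh : 0 < n 0 * n 1 := Nat.mul_pos (hn 0) (hn 1)
  have hk : 0 < n 2 * n 3 := Nat.mul_pos (hn 2) (hn 3)
  have hg0 : 0 < g := Nat.gcd_pos_of_pos_left _ hh
  have hgh : g ∣ n 0 * n 1 := Nat.gcd_dvd_left _ _
  have hgk : g ∣ n 2 * n 3 := Nat.gcd_dvd_right _ _
  have hhg : 0 < n 0 * n 1 / g := Nat.div_pos (Nat.le_of_dvd hh hgh) hg0
  have hkg : 0 < n 2 * n 3 / g := Nat.div_pos (Nat.le_of_dvd hk hgk) hg0
  have hgR : (g : ℝ) ≠ 0 := by exact_mod_cast hg0.ne'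
  have hnR : ∀ j, (n j : ℝ) ≠ 0 := fun j => by exact_mod_cast (hn j).ne'
  have l1 : Real.log ((n 0 * n 1 / g : ℕ) : ℝ) = Real.log (n 0) + Real.log (n 1) - Real.log g := by
    rw [Nat.cast_div hgh hgR, Real.log_div (by exact_mod_cast hh.ne') hgR, Nat.cast_mul,
      Real.log_mul (hnR 0) (hnR 1)]
  have l2 : Real.log ((n 2 * n 3 / g : ℕ) : ℝ) = Real.log (n 2) + Real.log (n 3) - Real.log g := by
    rw [Nat.cast_div hgk hgR, Real.log_div (by exact_mod_cast hk.ne') hgR, Nat.cast_mul,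
      Real.log_mul (hnR 2) (hnR 3)]
  rw [mainT, ← hg]
  simp only [Fin.prod_univ_four, M02_nat (hn 0), M02_nat (hn 1), M02_nat (hn 2), M02_nat (hn 3),
    M02_nat hg0, M02_nat hhg, M02_nat hkg, l1, l2]
  simp only [Matrix.cons_val_zero, Matrix.cons_val_one, Matrix.cons_val, ofReal_add, ofReal_sub]
  set L0 : ℂ := (Real.log (n 0) : ℂ)
  set L1 : ℂ := (Real.log (n 1) : ℂ)
  set L2 : ℂ := (Real.log (n 2) : ℂ)
  set L3 : ℂ := (Real.log (n 3) : ℂ)
  set G : ℂ := (Real.log g : ℂ)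
  have i1 : exp (L0 * (-(1/2) - τ 0)) * exp (L1 * (-(1/2) - τ 1)) * exp (L2 * (-(1/2) - τ 2)) *
      exp (L3 * (-(1/2) - τ 3)) * (exp ((L0 + L1 - G) * (-1/2 - β)) *
        exp ((L2 + L3 - G) * (-1/2 - α))) =
      exp (L0 * (-1 - (τ 0 + β))) * exp (L1 * (-1 - (τ 1 + β))) * exp (L2 * (-1 - (τ 2 + α))) *
        exp (L3 * (-1 - (τ 3 + α))) * exp (G * (1 + (α + β))) := by
    simp only [← exp_add]
    congr 1
    ring
  have i2 : exp (L0 * (-(1/2) - τ 0)) * exp (L1 * (-(1/2) - τ 1)) * exp (L2 * (-(1/2) - τ 2)) *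
      exp (L3 * (-(1/2) - τ 3)) * (exp ((L0 + L1 - G) * (-1/2 + α)) *
        exp ((L2 + L3 - G) * (-1/2 + β))) =
      exp (L0 * (-1 - (τ 0 - α))) * exp (L1 * (-1 - (τ 1 - α))) * exp (L2 * (-1 - (τ 2 - β))) *
        exp (L3 * (-1 - (τ 3 - β))) * exp (G * (1 + -(α + β))) := by
    simp only [← exp_add]
    congr 1
    ring
  linear_combination (zq q (1 + (α + β)) * (c 0 * c 1 * c 2 * c 3)) * i1 +
    (((2 * Real.pi / (q * T) : ℝ) : ℂ) ^ (α + β) * Aq χ (α + β) * (c 0 * c 1 * c 2 * c 3)) * i2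

/-- algebra of the main terms: h = n0 n1, k = n2 n3, g = gcd; (h/g)^(-1/2-beta) = h^(-1/2-beta) g^(1/2+beta) etc. -/
theorem main_alg {q : ℕ} [NeZero q] (χ : DirichletCharacter ℂ q) (T : ℝ) (lam : Fin 4 → ℝ) (l : ℝ) (α β : ℂ) (τ : Fin 4 → ℂ) (z : ℕ) :
    ∑ S ∈ Fintype.piFinset (fun _ : Fin 4 => (PQ q z).powerset),
      (∏ j, (cf (lam j) l (S j) : ℂ) * (nS (S j) : ℂ) ^ (-(1/2) - τ j)) *
        mainT χ T α β (nS (S 0) * nS (S 1)) (nS (S 2) * nS (S 3)) =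
    zq q (1 + (α + β)) * QQ q z lam l ![τ 0 + β, τ 1 + β, τ 2 + α, τ 3 + α] (α + β) +
      ((2 * Real.pi / (q * T) : ℝ) : ℂ) ^ (α + β) * Aq χ (α + β) *
        QQ q z lam l ![τ 0 - α, τ 1 - α, τ 2 - β, τ 3 - β] (-(α + β)) := by
  unfold QQ
  rw [Finset.mul_sum, Finset.mul_sum, ← Finset.sum_add_distrib]
  refine Finset.sum_congr rfl fun S hS => ?_
  rw [Fintype.mem_piFinset] at hS
  exact M02_term χ T (fun j => (cf (lam j) l (S j) : ℂ)) (fun j => nS (S j))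
    (fun j => nS_pos' (hS j)) α β τ

end LX

end F_X_M02
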