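import Pool.Agent.Lib.MP_0f5a55_nt.V.V18
import Pool.Agent.Lib.MP_0f5a55_nt.V.V19

section F_Y_A05

open Complex MeasureTheory Set Filter Topology
open scoped ComplexConjugate

namespace LP

open LZ (kk nS cf EE ER PP wt Sep)

theorem A05_polar (N : ℕ) (ε : ℝ) (h k : ℕ) : WW N ε h k =
    ((2 * Real.pi * (h / (k * N)) : ℝ) : ℂ) *
      (Complex.cos ((Real.pi / 2 - ε : ℝ) : ℂ) + Complex.sin ((Real.pi / 2 - ε : ℝ) : ℂ) * I) := by
  have h1 : exp (-((ε : ℂ) * I)) = (Real.cos ε : ℂ) - (Real.sin ε : ℂ) * I := by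
    have h2 : -((ε : ℂ) * I) = ((-ε : ℝ) : ℂ) * I := by push_cast; ring
    rw [h2, Complex.exp_mul_I, ← Complex.ofReal_cos, ← Complex.ofReal_sin, Real.cos_neg,
      Real.sin_neg]
    push_cast; ring
  have h3 : Complex.cos ((Real.pi / 2 - ε : ℝ) : ℂ) = (Real.sin ε : ℂ) := by
    rw [← Complex.ofReal_cos, Real.cos_pi_div_two_sub]
  have h4 : Complex.sin ((Real.pi / 2 - ε : ℝ) : ℂ) = (Real.cos ε : ℂ) := by
    rw [← Complex.ofReal_sin, Real.sin_pi_div_two_sub]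
  unfold WW
  rw [h1, h3, h4]
  push_cast
  linear_combination (-(2 * (Real.pi : ℂ) * (h / (k * N)) * Complex.sin ε)) * Complex.I_mul_I

theorem A05_polar_neg (N : ℕ) (ε : ℝ) (h k : ℕ) : -(WW N ε h k) =
    ((2 * Real.pi * (h / (k * N)) : ℝ) : ℂ) *
      (Complex.cos ((-(Real.pi / 2 + ε) : ℝ) : ℂ) + Complex.sin ((-(Real.pi / 2 + ε) : ℝ) : ℂ) * I) := by
  have h3 : Complex.cos ((-(Real.pi / 2 + ε) : ℝ) : ℂ) = -(Real.sin ε : ℂ) := by
    rw [← Complex.ofReal_cos, Real.cos_neg, add_comm, Real.cos_add_pi_div_two]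
    push_cast; rfl
  have h4 : Complex.sin ((-(Real.pi / 2 + ε) : ℝ) : ℂ) = -(Real.cos ε : ℂ) := by
    rw [← Complex.ofReal_sin, Real.sin_neg, add_comm, Real.sin_add_pi_div_two]
    push_cast; rfl
  have h5 : Complex.cos ((Real.pi / 2 - ε : ℝ) : ℂ) = (Real.sin ε : ℂ) := by
    rw [← Complex.ofReal_cos, Real.cos_pi_div_two_sub]
  have h6 : Complex.sin ((Real.pi / 2 - ε : ℝ) : ℂ) = (Real.cos ε : ℂ) := by
    rw [← Complex.ofReal_sin, Real.sin_pi_div_two_sub]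
  rw [A05_polar, h3, h4, h5, h6]
  ring

/-- `r^(-s)` in polar form -/
theorem A05_norm_aux {r θ : ℝ} (hr : 0 < r) (hθ : -Real.pi < θ) (hθ' : θ ≤ Real.pi) {W : ℂ}
    (hW : W = (r : ℂ) * (Complex.cos (θ : ℂ) + Complex.sin (θ : ℂ) * I)) (s : ℂ) :
    ‖W ^ (-s)‖ = r ^ (-s.re) * Real.exp (θ * s.im) := by
  have harg : W.arg = θ := by
    rw [hW]
    exact Complex.arg_mul_cos_add_sin_mul_I hr ⟨hθ, hθ'⟩
  have hnorm : ‖W‖ = r := by
    rw [hW, norm_mul, Complex.norm_real, Complex.norm_cos_add_sin_mul_I, mul_one,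
      Real.norm_of_nonneg hr.le]
  have hne : W ≠ 0 := by
    intro h0
    rw [h0, norm_zero] at hnorm
    exact hr.ne hnorm
  rw [Complex.norm_cpow_of_ne_zero hne, harg, hnorm, neg_re, neg_im, div_eq_mul_inv, ← Real.exp_neg]
  congr 2
  ring

/-- for `0 ≤ Re s ≤ 2` -/
theorem A05_rpow_le {N h k : ℕ} (hN : 1 ≤ N) (hh : 1 ≤ h) (hk : 1 ≤ k) {x : ℝ}
    (hs0 : 0 ≤ x) (hs2 : x ≤ 2) :
    (2 * Real.pi * ((h : ℝ) / (k * N))) ^ (-x) ≤ (N : ℝ) ^ 2 * ((h : ℝ) * k) ^ 2 := by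
  have h4 : (1 : ℝ) ≤ h := by exact_mod_cast hh
  have h5 : (1 : ℝ) ≤ k := by exact_mod_cast hk
  have h6' : (1 : ℝ) ≤ N := by exact_mod_cast hN
  have hpi := Real.pi_gt_three
  have h40 : (0 : ℝ) < h := one_pos.trans_le h4
  have h50 : (0 : ℝ) < k := one_pos.trans_le h5
  have h60 : (0 : ℝ) < N := one_pos.trans_le h6'
  have hr : 0 < 2 * Real.pi * ((h : ℝ) / (k * N)) :=
    mul_pos Real.two_pi_pos (div_pos h40 (mul_pos h50 h60))
  rw [Real.rpow_neg hr.le, ← Real.inv_rpow hr.le]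
  have h6 : (2 * Real.pi * ((h : ℝ) / (k * N)))⁻¹ ≤ (N : ℝ) * ((h : ℝ) * k) := by
    rw [inv_le_iff_one_le_mul₀ hr]
    have h7 : (N : ℝ) * ((h : ℝ) * k) * (2 * Real.pi * ((h : ℝ) / (k * N))) =
        2 * Real.pi * ((h : ℝ) * h) := by
      field_simp
    rw [h7]
    exact one_le_mul_of_one_le_of_one_le (by linarith only [hpi])
      (one_le_mul_of_one_le_of_one_le h4 h4)
  have hhk : (1 : ℝ) ≤ (h : ℝ) * k := one_le_mul_of_one_le_of_one_le h4 h5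
  have hNhk : (1 : ℝ) ≤ (N : ℝ) * ((h : ℝ) * k) := one_le_mul_of_one_le_of_one_le h6' hhk
  calc ((2 * Real.pi * ((h : ℝ) / (k * N)))⁻¹) ^ x ≤ ((N : ℝ) * ((h : ℝ) * k)) ^ x :=
        Real.rpow_le_rpow (inv_nonneg.mpr hr.le) h6 hs0
    _ ≤ ((N : ℝ) * ((h : ℝ) * k)) ^ (2 : ℝ) := Real.rpow_le_rpow_of_exponent_le hNhk hs2
    _ = (N : ℝ) ^ 2 * ((h : ℝ) * k) ^ 2 := by rw [Real.rpow_two]; ring

theorem A05_pow_le {t : ℝ} (ht : 0 ≤ t) : (1 + t) ^ 5 ≤ (5 / 2) ^ 5 * Real.exp (2 * t) := by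
  have h1 := Real.add_one_le_exp (2 * t / 5)
  have h2 : 1 + t ≤ 5 / 2 * Real.exp (2 * t / 5) := by linarith only [h1, ht]
  calc (1 + t) ^ 5 ≤ (5 / 2 * Real.exp (2 * t / 5)) ^ 5 :=
        pow_le_pow_left₀ (by linarith only [ht]) h2 5
    _ = (5 / 2) ^ 5 * Real.exp (2 * t) := by
        rw [mul_pow, ← Real.exp_nat_mul]
        congr 2
        push_cast
        ring

variable {N : ℕ} [NeZero N]

/-- bounds of the two kernels. -/
theorem G_bound (f g : ZMod N → ℂ) (U : ℝ) (hU : 0 ≤ U) : ∃ C : ℝ, 0 < C ∧ ∀ ε : ℝ, 0 < ε → ε ≤ 1/2 → ∀ h k : ℕ,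
    1 ≤ h → 1 ≤ k → ∀ η : ℂ, |η.re| ≤ 1/8 → |η.im| ≤ 2 * U → ∀ s : ℂ, 7/16 ≤ s.re → s.re ≤ 2 → 2 * U + 2 ≤ s.im →
    ‖ZMod.LFunction f (s + η) * ZMod.LFunction g s * Gamma s * (WW N ε h k) ^ (-s)‖ ≤
      C * ((h : ℝ) * k) ^ 2 * (1 + s.im) ^ 5 * Real.exp (-(ε * s.im)) ∧
    ‖ZMod.LFunction f (s + η) * ZMod.LFunction g s * Gamma s * (-(WW N ε h k)) ^ (-s)‖ ≤
      C * ((h : ℝ) * k) ^ 2 * Real.exp (-s.im) := by
  obtain ⟨C1, hC1, hz1⟩ := per_pol f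
  obtain ⟨C2, hC2, hz2⟩ := per_pol g
  obtain ⟨C4, hC4, hG⟩ := LZ.Gamma_strip
  have hN1 : 1 ≤ N := NeZero.one_le
  have hN0 : (0 : ℝ) < N := by exact_mod_cast hN1
  have hCC : 0 < 2 * C1 * C2 * C4 * (N : ℝ) ^ 2 :=
    mul_pos (mul_pos (mul_pos (mul_pos two_pos hC1) hC2) hC4) (pow_pos hN0 2)
  refine ⟨2 * C1 * C2 * C4 * (N : ℝ) ^ 2 * (5 / 2) ^ 5, mul_pos hCC (by norm_num), ?_⟩
  intro ε hε hε1 h k hh hk η hηre hηim s hs1 hs2 hs3
  have hη1 := abs_le.mp hηre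
  have hη2 := abs_le.mp hηim
  have hy0 : 0 ≤ s.im := by linarith only [hs3, hU]
  have hpi := Real.pi_gt_three
  have h4 : (0 : ℝ) < h := by exact_mod_cast hh
  have h5 : (0 : ℝ) < k := by exact_mod_cast hk
  have hr : 0 < 2 * Real.pi * ((h : ℝ) / (k * N)) :=
    mul_pos Real.two_pi_pos (div_pos h4 (mul_pos h5 hN0))
  have h1y : 0 ≤ 1 + s.im := add_nonneg zero_le_one hy0
  have a1 : ‖ZMod.LFunction f (s + η)‖ ≤ C1 * (2 * (1 + s.im)) := by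
    have hi0 : 0 ≤ s.im + η.im := by linarith only [hs3, hη2.1]
    refine (hz1 (s + η) (by rw [add_re]; linarith only [hs1, hη1.1]) ?_).trans ?_
    · have h1 := Complex.abs_im_le_norm (s + η - 1)
      rw [sub_im, add_im, one_im, sub_zero, abs_of_nonneg hi0] at h1
      linarith only [h1, hs3, hη2.1]
    · rw [add_im, abs_of_nonneg hi0]
      apply mul_le_mul_of_nonneg_left _ hC1.le
      linarith only [hs3, hη2.2, hU]
  have a2 : ‖ZMod.LFunction g s‖ ≤ C2 * (1 + s.im) := by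
    refine (hz2 s (by linarith only [hs1]) ?_).trans ?_
    · have h1 := Complex.abs_im_le_norm (s - 1)
      rw [sub_im, one_im, sub_zero, abs_of_nonneg hy0] at h1
      linarith only [h1, hs3, hU]
    · rw [abs_of_nonneg hy0]
  have a3 : ‖Gamma s‖ ≤ C4 * (1 + s.im) ^ 3 * Real.exp (-(Real.pi / 2 * s.im)) := by
    have h1 := hG s.re s.im (by linarith only [hs1]) (by linarith only [hs2])
    rw [Complex.re_add_im, abs_of_nonneg hy0] at h1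
    exact h1
  have a5 := A05_rpow_le hN1 hh hk (x := s.re) (by linarith only [hs1]) hs2
  have a4 : ‖(WW N ε h k) ^ (-s)‖ ≤
      (N : ℝ) ^ 2 * ((h : ℝ) * k) ^ 2 * Real.exp ((Real.pi / 2 - ε) * s.im) := by
    rw [A05_norm_aux hr (by linarith only [hpi, hε1]) (by linarith only [hpi, hε])
      (A05_polar N ε h k) s]
    exact mul_le_mul_of_nonneg_right a5 (Real.exp_nonneg _)
  have a6 : ‖(-(WW N ε h k)) ^ (-s)‖ ≤
      (N : ℝ) ^ 2 * ((h : ℝ) * k) ^ 2 * Real.exp (-(Real.pi / 2 + ε) * s.im) := by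
    rw [A05_norm_aux hr (by linarith only [hpi, hε1]) (by linarith only [hpi, hε])
      (A05_polar_neg N ε h k) s]
    exact mul_le_mul_of_nonneg_right a5 (Real.exp_nonneg _)
  have hone : (1 : ℝ) ≤ (5 / 2) ^ 5 := by norm_num
  have p1 : 0 ≤ C1 * (2 * (1 + s.im)) := mul_nonneg hC1.le (mul_nonneg zero_le_two h1y)
  have p2 : 0 ≤ C2 * (1 + s.im) := mul_nonneg hC2.le h1y
  have p3 : 0 ≤ C4 * (1 + s.im) ^ 3 * Real.exp (-(Real.pi / 2 * s.im)) :=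
    mul_nonneg (mul_nonneg hC4.le (pow_nonneg h1y 3)) (Real.exp_nonneg _)
  have a123 := mul_le_mul (mul_le_mul a1 a2 (norm_nonneg _) p1) a3 (norm_nonneg _)
    (mul_nonneg p1 p2)
  have p123 := mul_nonneg (mul_nonneg p1 p2) p3
  have q1 : 0 ≤ 2 * C1 * C2 * C4 * (N : ℝ) ^ 2 * ((h : ℝ) * k) ^ 2 :=
    mul_nonneg hCC.le (sq_nonneg _)
  have q2 : 0 ≤ 2 * C1 * C2 * C4 * (N : ℝ) ^ 2 * (5 / 2) ^ 5 * ((h : ℝ) * k) ^ 2 :=
    mul_nonneg (mul_nonneg hCC.le (by norm_num)) (sq_nonneg _)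
  constructor
  · rw [norm_mul, norm_mul, norm_mul]
    calc ‖ZMod.LFunction f (s + η)‖ * ‖ZMod.LFunction g s‖ * ‖Gamma s‖ * ‖(WW N ε h k) ^ (-s)‖
        ≤ (C1 * (2 * (1 + s.im))) * (C2 * (1 + s.im)) *
          (C4 * (1 + s.im) ^ 3 * Real.exp (-(Real.pi / 2 * s.im))) *
          ((N : ℝ) ^ 2 * ((h : ℝ) * k) ^ 2 * Real.exp ((Real.pi / 2 - ε) * s.im)) :=
          mul_le_mul a123 a4 (norm_nonneg _) p123
      _ = (2 * C1 * C2 * C4 * (N : ℝ) ^ 2 * ((h : ℝ) * k) ^ 2 * (1 + s.im) ^ 5 *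
          (Real.exp (-(Real.pi / 2 * s.im)) * Real.exp ((Real.pi / 2 - ε) * s.im))) * 1 := by ring
      _ ≤ (2 * C1 * C2 * C4 * (N : ℝ) ^ 2 * ((h : ℝ) * k) ^ 2 * (1 + s.im) ^ 5 *
          (Real.exp (-(Real.pi / 2 * s.im)) * Real.exp ((Real.pi / 2 - ε) * s.im))) * (5 / 2) ^ 5 :=
          mul_le_mul_of_nonneg_left hone (mul_nonneg (mul_nonneg q1 (pow_nonneg h1y 5))
            (mul_nonneg (Real.exp_nonneg _) (Real.exp_nonneg _)))
      _ = _ := by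
          rw [← Real.exp_add, show -(Real.pi / 2 * s.im) + (Real.pi / 2 - ε) * s.im =
            -(ε * s.im) by ring]
          ring
  · rw [norm_mul, norm_mul, norm_mul]
    calc ‖ZMod.LFunction f (s + η)‖ * ‖ZMod.LFunction g s‖ * ‖Gamma s‖ * ‖(-(WW N ε h k)) ^ (-s)‖
        ≤ (C1 * (2 * (1 + s.im))) * (C2 * (1 + s.im)) *
          (C4 * (1 + s.im) ^ 3 * Real.exp (-(Real.pi / 2 * s.im))) *
          ((N : ℝ) ^ 2 * ((h : ℝ) * k) ^ 2 * Real.exp (-(Real.pi / 2 + ε) * s.im)) :=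
          mul_le_mul a123 a6 (norm_nonneg _) p123
      _ = 2 * C1 * C2 * C4 * (N : ℝ) ^ 2 * ((h : ℝ) * k) ^ 2 *
          (Real.exp (-(Real.pi / 2 * s.im)) * Real.exp (-(Real.pi / 2 + ε) * s.im)) *
            (1 + s.im) ^ 5 := by ring
      _ ≤ 2 * C1 * C2 * C4 * (N : ℝ) ^ 2 * ((h : ℝ) * k) ^ 2 *
          (Real.exp (-(Real.pi / 2 * s.im)) * Real.exp (-(Real.pi / 2 + ε) * s.im)) *
            ((5 / 2) ^ 5 * Real.exp (2 * s.im)) :=
          mul_le_mul_of_nonneg_left (A05_pow_le hy0)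
            (mul_nonneg q1 (mul_nonneg (Real.exp_nonneg _) (Real.exp_nonneg _)))
      _ = 2 * C1 * C2 * C4 * (N : ℝ) ^ 2 * (5 / 2) ^ 5 * ((h : ℝ) * k) ^ 2 *
          (Real.exp (-(Real.pi / 2 * s.im)) * Real.exp (-(Real.pi / 2 + ε) * s.im) *
            Real.exp (2 * s.im)) := by ring
      _ ≤ _ := by
          refine mul_le_mul_of_nonneg_left ?_ q2
          rw [← Real.exp_add, ← Real.exp_add]
          apply Real.exp_le_exp.mpr
          have h9 : 0 ≤ (Real.pi + ε - 3) * s.im :=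
            mul_nonneg (by linarith only [hpi, hε]) hy0
          linarith only [h9]

end LP

end F_Y_A05
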