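import Pool.Agent.Lib.MP_0f5a55_nt.V.V07
import Pool.Agent.Lib.MP_0f5a55_nt.V.V20

section F_Y_A07

open Complex MeasureTheory Set Filter Topology
open scoped ComplexConjugate

namespace LP

open LZ (kk nS cf EE ER PP wt Sep)

variable {N : ℕ} [NeZero N]

/-- contour shift. Adapt LZ.A07 (G_shift), LZ.A06 (half_shift) is reused. -/
theorem G_shift (f g : ZMod N → ℂ) (U : ℝ) (hU : 0 ≤ U) : ∃ C : ℝ, 0 < C ∧ ∀ ε : ℝ, 0 < ε → ε ≤ 1/2 → ∀ h k : ℕ,
    1 ≤ h → 1 ≤ k → ∀ η : ℂ, |η.re| ≤ 1/8 → |η.im| ≤ 2 * U → ∀ σ : ℝ, 7/16 ≤ σ → σ ≤ 2 →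
    ‖(∫ y in Ioi (2 * U + 2), ZMod.LFunction f (σ + y * I + η) * ZMod.LFunction g (σ + y * I) * Gamma (σ + y * I) *
        (WW N ε h k) ^ (-(σ + y * I : ℂ))) -
      ∫ y in Ioi (2 * U + 2), ZMod.LFunction f (2 + y * I + η) * ZMod.LFunction g (2 + y * I) * Gamma (2 + y * I) *
        (WW N ε h k) ^ (-(2 + y * I : ℂ))‖ ≤ C * ((h : ℝ) * k) ^ 2 := by
  obtain ⟨C, hC, hG⟩ := G_bound f g U hU
  refine ⟨2 * (C * (2 * U + 3) ^ 5), by positivity, ?_⟩
  intro ε hε hε1 h k hh hk η hηre hηim σ hσ1 hσ2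
  have hη2 := abs_le.mp hηim
  have hW : WW N ε h k ≠ 0 := by
    have h4 : (0 : ℝ) < h := by exact_mod_cast hh
    have h5 : (0 : ℝ) < k := by exact_mod_cast hk
    unfold WW
    have h6 : (h : ℂ) ≠ 0 := by exact_mod_cast h4.ne'
    have h7 : (k : ℂ) ≠ 0 := by exact_mod_cast h5.ne'
    have h8 : (Real.pi : ℂ) ≠ 0 := by exact_mod_cast Real.pi_ne_zero
    have h9 : (N : ℂ) ≠ 0 := Nat.cast_ne_zero.2 (NeZero.ne N)
    exact div_ne_zero (mul_ne_zero (mul_ne_zero (mul_ne_zero (mul_ne_zero two_ne_zero h8) I_ne_zero)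
      (exp_ne_zero _)) h6) (mul_ne_zero h7 h9)
  have hmain := LZ.half_shift (a := σ) (b := 2) (Y := 2 * U + 2) hσ2
    (F := fun s => ZMod.LFunction f (s + η) * ZMod.LFunction g s * Gamma s * (WW N ε h k) ^ (-s))
    (C := C * ((h : ℝ) * k) ^ 2) (ε := ε) (D := C * ((h : ℝ) * k) ^ 2 * (2 * U + 3) ^ 5) ?_ hε ?_ ?_
  · simp only [Complex.ofReal_ofNat] at hmain
    refine hmain.trans ?_
    have h1 : 0 ≤ C * ((h : ℝ) * k) ^ 2 * (2 * U + 3) ^ 5 := by positivity
    calc (2 - σ) * (C * ((h : ℝ) * k) ^ 2 * (2 * U + 3) ^ 5)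
        ≤ 2 * (C * ((h : ℝ) * k) ^ 2 * (2 * U + 3) ^ 5) :=
          mul_le_mul_of_nonneg_right (by linarith) h1
      _ = _ := by ring
  · intro s hs1 hs2 hs3
    have h1 : s + η ≠ 1 := by
      intro h0
      have := congrArg Complex.im h0
      rw [add_im, one_im] at this
      linarith [hη2.1]
    have h2 : s ≠ 1 := by
      intro h0
      have := congrArg Complex.im h0
      rw [one_im] at this
      linarith
    have h3 : ∀ m : ℕ, s ≠ -m := by
      intro m h0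
      have := congrArg Complex.im h0
      simp at this
      linarith
    have d1 : DifferentiableAt ℂ (fun s => ZMod.LFunction f (s + η)) s :=
      DifferentiableAt.comp (f := fun s : ℂ => s + η) (g := ZMod.LFunction f) s
        (ZMod.differentiableAt_LFunction f _ (Or.inl h1)) (by fun_prop)
    have d4 : DifferentiableAt ℂ (fun s => (WW N ε h k) ^ (-s)) s :=
      DifferentiableAt.const_cpow (by fun_prop) (Or.inl hW)
    exact ((d1.mul (ZMod.differentiableAt_LFunction g _ (Or.inl h2))).mul (differentiableAt_Gamma s h3)).mul d4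
  · intro s hs1 hs2 hs3
    have h0 : 0 ≤ s.im := by linarith
    rw [abs_of_nonneg h0]
    exact (hG ε hε hε1 h k hh hk η hηre hηim s (by linarith) hs2 hs3).1
  · intro x hx
    have hre : ((x : ℂ) + ((2 * U + 2 : ℝ) : ℂ) * I).re = x := by simp
    have him : ((x : ℂ) + ((2 * U + 2 : ℝ) : ℂ) * I).im = 2 * U + 2 := by simp
    have h1 := (hG ε hε hε1 h k hh hk η hηre hηim (x + ((2 * U + 2 : ℝ) : ℂ) * I)
      (by rw [hre]; linarith [hx.1]) (by rw [hre]; exact hx.2) (by rw [him])).1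
    rw [him] at h1
    refine h1.trans ?_
    have h2 : Real.exp (-(ε * (2 * U + 2))) ≤ 1 := by
      rw [Real.exp_le_one_iff]
      have : 0 ≤ ε * (2 * U + 2) := by positivity
      linarith
    calc C * ((h : ℝ) * k) ^ 2 * (1 + (2 * U + 2)) ^ 5 * Real.exp (-(ε * (2 * U + 2)))
        ≤ C * ((h : ℝ) * k) ^ 2 * (1 + (2 * U + 2)) ^ 5 * 1 :=
          mul_le_mul_of_nonneg_left h2 (by positivity)
      _ = _ := by ring

end LP

end F_Y_A07
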