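import Pool.Agent.Lib.MP_0f5a55_nt.V.V12
import Pool.Agent.Lib.MP_0f5a55_nt.V.V23

section F_Y_A08

open Complex MeasureTheory Set Filter Topology
open scoped ComplexConjugate

namespace LP

open LZ (kk nS cf EE ER PP wt Sep)

variable {N : ℕ} [NeZero N]

/-- a periodic L-function is bounded for `Re s ≥ 3/2` -/
private theorem A08_bd (f : ZMod N → ℂ) :
    ∃ C : ℝ, 0 ≤ C ∧ ∀ s : ℂ, 3/2 ≤ s.re → ‖ZMod.LFunction f s‖ ≤ C := by
  have hsum := LZX.rpow_summable (show (0:ℝ) < 1/2 by norm_num)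
  set B : ℝ := ∑ x : ZMod N, ‖f x‖ with hB
  have hB0 : 0 ≤ B := Finset.sum_nonneg fun x _ => norm_nonneg _
  have hfB : ∀ x, ‖f x‖ ≤ B := fun x =>
    Finset.single_le_sum (f := fun x => ‖f x‖) (fun x _ => norm_nonneg _) (Finset.mem_univ x)
  refine ⟨∑' n : ℕ, B * ((n : ℝ) + 1) ^ (-(1/2 : ℝ) - 1), tsum_nonneg (fun n => by positivity), ?_⟩
  intro s hs
  rw [← ((per_basic (N := N)).1 f s (by linarith)).tsum_eq]
  refine tsum_of_norm_bounded (hsum.mul_left B).hasSum ?_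
  intro n
  have hc : ((n : ℂ) + 1) = (((n : ℝ) + 1 : ℝ) : ℂ) := by push_cast; ring
  rw [norm_mul, hc, Complex.norm_cpow_eq_rpow_re_of_pos (by positivity), neg_re]
  refine mul_le_mul (hfB _) ?_ (by positivity) hB0
  apply Real.rpow_le_rpow_of_exponent_le (by linarith [Nat.cast_nonneg (α := ℝ) n])
  linarith

omit [NeZero N] in
private theorem A08_WW (ε : ℝ) (h k : ℕ) : WW N ε h k = LZ.WW ε h (k * N) := by
  unfold WW LZ.WW
  push_cast
  rfl

/-- the part below height 2U+2. Adapt LZ.A08 (G_low). -/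
theorem G_low (f g : ZMod N → ℂ) (U : ℝ) (hU : 0 ≤ U) : ∃ C : ℝ, 0 < C ∧ ∀ ε : ℝ, 0 < ε → ε ≤ 1/2 → ∀ h k : ℕ,
    1 ≤ h → 1 ≤ k → ∀ η : ℂ, |η.re| ≤ 1/8 →
    ‖∫ y in Iic (2 * U + 2), ZMod.LFunction f (2 + y * I + η) * ZMod.LFunction g (2 + y * I) * Gamma (2 + y * I) *
        (WW N ε h k) ^ (-(2 + y * I : ℂ))‖ ≤ C * ((h : ℝ) * k) ^ 2 := by
  obtain ⟨Cf, hCf, hzf⟩ := A08_bd f
  obtain ⟨Cg, hCg, hzg⟩ := A08_bd g
  obtain ⟨C4, hC4, hG⟩ := LZ.Gamma_strip
  set K : ℝ := 216 * Real.exp (1 / 2) + (3 + 2 * U) ^ 3 with hK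
  have hK0 : 0 < K := by positivity
  have hN : 1 ≤ N := Nat.one_le_iff_ne_zero.2 (NeZero.ne N)
  have hN0 : (0 : ℝ) < N := by exact_mod_cast hN
  refine ⟨(Cf * Cg + 1) * C4 * K * (N : ℝ) ^ 2 * Real.exp (2 * U + 2), by positivity, ?_⟩
  intro ε hε hε1 h k hh hk η hηre
  have hη1 := abs_le.mp hηre
  have hpi := Real.pi_gt_three
  have hkN : 1 ≤ k * N := Nat.one_le_iff_ne_zero.2 (by positivity)
  have hb : ∀ y : ℝ, y ≤ 2 * U + 2 →
      ‖ZMod.LFunction f (2 + y * I + η) * ZMod.LFunction g (2 + y * I) * Gamma (2 + y * I) *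
        (WW N ε h k) ^ (-(2 + y * I : ℂ))‖ ≤
        (Cf * Cg + 1) * C4 * K * (N : ℝ) ^ 2 * ((h : ℝ) * k) ^ 2 * Real.exp y := by
    intro y hy
    have hre : ((2 : ℂ) + y * I).re = 2 := by simp
    have him : ((2 : ℂ) + y * I).im = y := by simp
    have a1 : ‖ZMod.LFunction f (2 + y * I + η)‖ ≤ Cf := hzf _ (by rw [add_re, hre]; linarith)
    have a2 : ‖ZMod.LFunction g (2 + y * I)‖ ≤ Cg := hzg _ (by rw [hre]; norm_num)
    have a3 : ‖Gamma (2 + y * I)‖ ≤ C4 * (1 + |y|) ^ 3 * Real.exp (-(Real.pi / 2 * |y|)) := by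
      have h1 := hG 2 y (by norm_num) (by norm_num)
      rw [Complex.ofReal_ofNat] at h1
      exact h1
    have a4 := LZ.A05_norm_le hε hε1 hh hkN (2 + y * I) (by rw [hre]; norm_num) (by rw [hre])
    rw [him] at a4
    rw [Nat.cast_mul] at a4
    have hkey : (1 + |y|) ^ 3 * (Real.exp (-(Real.pi / 2 * |y|)) * Real.exp ((Real.pi / 2 - ε) * y)) ≤
        K * Real.exp y := by
      rw [← Real.exp_add]
      rcases le_or_gt 0 y with h0 | h0
      · rw [abs_of_nonneg h0]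
        have e1 : -(Real.pi / 2 * y) + (Real.pi / 2 - ε) * y = -(ε * y) := by ring
        rw [e1]
        have e2 : Real.exp (-(ε * y)) ≤ 1 := by
          rw [Real.exp_le_one_iff]
          have : 0 ≤ ε * y := by positivity
          linarith
        have e3 : 1 ≤ Real.exp y := Real.one_le_exp h0
        have e4 : (1 + y) ^ 3 ≤ (3 + 2 * U) ^ 3 := pow_le_pow_left₀ (by linarith) (by linarith) 3
        calc (1 + y) ^ 3 * Real.exp (-(ε * y)) ≤ (3 + 2 * U) ^ 3 * 1 := by gcongr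
          _ ≤ K * Real.exp y := by
            have e5 : (3 + 2 * U) ^ 3 ≤ K := by
              rw [hK]; linarith [Real.exp_pos (1 / 2)]
            exact mul_le_mul e5 e3 zero_le_one hK0.le
      · rw [abs_of_neg h0]
        have e1 : -(Real.pi / 2 * -y) + (Real.pi / 2 - ε) * y ≤ Real.pi / 2 * y := by
          have w1 : 0 ≤ (Real.pi / 2 - ε) * (-y) :=
            mul_nonneg (by linarith only [hpi, hε1]) (by linarith only [h0])
          linarith only [w1]
        have e2 := LZ.A08_pow (-y) (by linarith)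
        calc (1 + -y) ^ 3 * Real.exp (-(Real.pi / 2 * -y) + (Real.pi / 2 - ε) * y)
            ≤ (216 * Real.exp ((1 + -y) / 2)) * Real.exp (Real.pi / 2 * y) := by
              apply mul_le_mul e2 (Real.exp_le_exp.mpr e1) (Real.exp_nonneg _) (by positivity)
          _ = 216 * Real.exp ((1 + -y) / 2 + Real.pi / 2 * y) := by rw [mul_assoc, ← Real.exp_add]
          _ ≤ 216 * Real.exp (1 / 2 + y) := by
              apply mul_le_mul_of_nonneg_left _ (by norm_num)
              rw [Real.exp_le_exp]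
              have w1 : 0 ≤ (Real.pi / 2 - 3 / 2) * (-y) :=
                mul_nonneg (by linarith only [hpi]) (by linarith only [h0])
              linarith only [w1]
          _ = 216 * Real.exp (1 / 2) * Real.exp y := by rw [Real.exp_add, mul_assoc]
          _ ≤ K * Real.exp y := by
              apply mul_le_mul_of_nonneg_right _ (Real.exp_nonneg _)
              rw [hK]
              have : 0 ≤ (3 + 2 * U) ^ 3 := by positivity
              linarith
    rw [norm_mul, norm_mul, norm_mul, A08_WW]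
    calc ‖ZMod.LFunction f (2 + y * I + η)‖ * ‖ZMod.LFunction g (2 + y * I)‖ *
          ‖Gamma (2 + y * I)‖ * ‖(LZ.WW ε h (k * N)) ^ (-(2 + y * I : ℂ))‖
        ≤ Cf * Cg * (C4 * (1 + |y|) ^ 3 * Real.exp (-(Real.pi / 2 * |y|))) *
          (((h : ℝ) * (k * N)) ^ 2 * Real.exp ((Real.pi / 2 - ε) * y)) := by
          gcongr
      _ = Cf * Cg * C4 * (N : ℝ) ^ 2 * ((h : ℝ) * k) ^ 2 * ((1 + |y|) ^ 3 *
          (Real.exp (-(Real.pi / 2 * |y|)) * Real.exp ((Real.pi / 2 - ε) * y))) := by ring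
      _ ≤ Cf * Cg * C4 * (N : ℝ) ^ 2 * ((h : ℝ) * k) ^ 2 * (K * Real.exp y) :=
          mul_le_mul_of_nonneg_left hkey (by positivity)
      _ ≤ (Cf * Cg + 1) * C4 * (N : ℝ) ^ 2 * ((h : ℝ) * k) ^ 2 * (K * Real.exp y) := by
          gcongr
          linarith
      _ = _ := by ring
  have hexp : IntegrableOn (fun y : ℝ => (Cf * Cg + 1) * C4 * K * (N : ℝ) ^ 2 * ((h : ℝ) * k) ^ 2 *
      Real.exp y) (Iic (2 * U + 2)) := (integrableOn_exp_Iic (2 * U + 2)).const_mul _
  refine (norm_integral_le_of_norm_le hexp ?_).trans ?_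
  · rw [ae_restrict_iff' measurableSet_Iic]
    exact Filter.Eventually.of_forall (fun y hy => hb y hy)
  · rw [integral_const_mul, integral_exp_Iic]
    exact le_of_eq (by ring)

end LP

end F_Y_A08
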