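import Pool.Agent.Lib.MP_0f5a55_nt.V.V09
import Pool.Agent.Lib.MP_0f5a55_nt.V.V17

section F_Y_A19

open Complex MeasureTheory Set Filter Topology
open scoped ComplexConjugate

namespace LP

open LZ (kk nS cf EE ER PP wt Sep)

variable {N : ℕ} [NeZero N]

theorem A19_cab_cast (h k : ℕ) (hk : 1 ≤ k) (m b : ℕ) :
    ((cab N h k m b : ℕ) : ℤ) = (((m * h : ℕ) : ℤ) - ((b * k : ℕ) : ℤ)) % ((k * N : ℕ) : ℤ) := by
  unfold cab
  apply Int.toNat_of_nonneg
  apply Int.emod_nonneg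
  have hN : 0 < N := Nat.pos_of_ne_zero (NeZero.ne N)
  have : 0 < k * N := Nat.mul_pos hk hN
  exact_mod_cast this.ne'

theorem A19_cab_lt (h k : ℕ) (hk : 1 ≤ k) (m b : ℕ) : cab N h k m b < k * N := by
  have hN : 0 < N := Nat.pos_of_ne_zero (NeZero.ne N)
  have hK : 0 < k * N := Nat.mul_pos hk hN
  have h1 := A19_cab_cast (N := N) h k hk m b
  have h2 := Int.emod_lt_of_pos (((m * h : ℕ) : ℤ) - ((b * k : ℕ) : ℤ))
    (show (0 : ℤ) < ((k * N : ℕ) : ℤ) by exact_mod_cast hK)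
  rw [← h1] at h2
  exact_mod_cast h2

theorem A19_cab_add (h k : ℕ) (a j b : ℕ) :
    cab N h k (a + j * (k * N)) b = cab N h k a b := by
  unfold cab
  congr 1
  have e : (((a + j * (k * N)) * h : ℕ) : ℤ) - ((b * k : ℕ) : ℤ) =
      (((a * h : ℕ) : ℤ) - ((b * k : ℕ) : ℤ)) + ((j * h : ℕ) : ℤ) * ((k * N : ℕ) : ℤ) := by
    push_cast
    ring
  rw [e, Int.add_mul_emod_self_right]

/-- the exponential in terms of the residue -/
theorem A19_exp_cab (h k : ℕ) (hk : 1 ≤ k) (Y : ℝ) (m b : ℕ) :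
    exp ((m : ℂ) * ((Y : ℂ) + 2 * Real.pi * I * h / (k * N)) - 2 * Real.pi * I * b / N) =
      exp (((m * Y : ℝ) : ℂ) + 2 * Real.pi * I * (cab N h k m b : ℕ) / ((k * N : ℕ) : ℂ)) := by
  have hN : 0 < N := Nat.pos_of_ne_zero (NeZero.ne N)
  have hK : 0 < k * N := Nat.mul_pos hk hN
  rw [Complex.exp_eq_exp_iff_exists_int]
  obtain ⟨x, hx⟩ : ∃ x : ℤ, x = ((m * h : ℕ) : ℤ) - ((b * k : ℕ) : ℤ) := ⟨_, rfl⟩
  have h1 : ((cab N h k m b : ℕ) : ℤ) = x % ((k * N : ℕ) : ℤ) := by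
    rw [hx]; exact A19_cab_cast h k hk m b
  have h2 : x % ((k * N : ℕ) : ℤ) + ((k * N : ℕ) : ℤ) * (x / ((k * N : ℕ) : ℤ)) = x :=
    Int.emod_add_mul_ediv _ _
  refine ⟨x / ((k * N : ℕ) : ℤ), ?_⟩
  rw [← h1] at h2
  obtain ⟨q, hq⟩ : ∃ q : ℤ, q = x / ((k * N : ℕ) : ℤ) := ⟨_, rfl⟩
  rw [← hq] at h2 ⊢
  rw [hx] at h2
  have h3 : ((cab N h k m b : ℕ) : ℂ) + (k * N : ℂ) * (q : ℂ) = (m : ℂ) * h - b * k := by
    exact_mod_cast congrArg (fun z : ℤ => (z : ℂ)) h2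
  have hkC : (k : ℂ) ≠ 0 := by
    have : k ≠ 0 := by omega
    exact_mod_cast this
  have hNC : (N : ℂ) ≠ 0 := by exact_mod_cast (NeZero.ne N)
  have h4 : ((cab N h k m b : ℕ) : ℂ) = (m : ℂ) * h - b * k - (k * N : ℂ) * (q : ℂ) := by
    linear_combination h3
  rw [h4]
  push_cast
  have key : ∀ (m' Y' P h' k' n' b' q' : ℂ), k' ≠ 0 → n' ≠ 0 →
      m' * (Y' + P * h' / (k' * n')) - P * b' / n' =
        m' * Y' + P * (m' * h' - b' * k' - k' * n' * q') / (k' * n') + q' * P := by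
    intro m' Y' P h' k' n' b' q' e1 e2
    field_simp
    ring
  exact key _ _ _ _ _ _ _ _ hkC hNC

theorem A19_cab_zero (h k : ℕ) (hk : 1 ≤ k) (m b : ℕ) :
    cab N h k m b = 0 ↔ ((k * N : ℕ) : ℤ) ∣ ((m * h : ℕ) : ℤ) - ((b * k : ℕ) : ℤ) := by
  rw [Int.dvd_iff_emod_eq_zero, ← A19_cab_cast h k hk m b]
  exact (Int.natCast_eq_zero).symm

theorem A19_cab_dvd (h k : ℕ) (hk : 1 ≤ k) (hc : Nat.Coprime h k) (m b : ℕ)
    (h0 : cab N h k m b = 0) : k ∣ m := by
  rw [A19_cab_zero h k hk] at h0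
  have h1 : (k : ℤ) ∣ ((m * h : ℕ) : ℤ) - ((b * k : ℕ) : ℤ) :=
    (Dvd.intro (N : ℤ) (by push_cast; ring)).trans h0
  have h2 : (k : ℤ) ∣ ((m * h : ℕ) : ℤ) := by
    have h3 : (k : ℤ) ∣ ((b * k : ℕ) : ℤ) := Dvd.intro (b : ℤ) (by push_cast; ring)
    have := dvd_add h1 h3
    rwa [sub_add_cancel] at this
  have h3 : k ∣ m * h := by exact_mod_cast h2
  exact (Nat.Coprime.dvd_mul_right hc.symm).1 h3

theorem A19_cab_mul (h k : ℕ) (hk : 1 ≤ k) (n : ℕ) (b : ZMod N) :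
    cab N h k (k * n) b.val = 0 ↔ b = ((n * h : ℕ) : ZMod N) := by
  rw [A19_cab_zero h k hk]
  have e : (((k * n) * h : ℕ) : ℤ) - ((b.val * k : ℕ) : ℤ) =
      (k : ℤ) * (((n * h : ℕ) : ℤ) - (b.val : ℤ)) := by
    push_cast; ring
  have e2 : ((k * N : ℕ) : ℤ) = (k : ℤ) * (N : ℤ) := by push_cast; rfl
  have hk0 : (k : ℤ) ≠ 0 := by
    have : k ≠ 0 := by omega
    exact_mod_cast this
  rw [e, e2, mul_dvd_mul_iff_left hk0]
  have h1 : (N : ℤ) ∣ ((n * h : ℕ) : ℤ) - (b.val : ℤ) ↔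
      (((b.val : ℕ) : ℤ) : ZMod N) = (((n * h : ℕ) : ℤ) : ZMod N) :=
    (ZMod.intCast_eq_intCast_iff_dvd_sub _ _ N).symm
  rw [h1, Int.cast_natCast, Int.cast_natCast, ZMod.natCast_zmod_val]

/-- the summand in terms of ph -/
theorem A19_ph (k K c : ℕ) (x : ℝ) :
    (exp ((x : ℂ) + 2 * Real.pi * I * (c : ℕ) / (K : ℂ)) - 1)⁻¹ =
      ph k K c x + (if c = 0 then ((Real.exp (-(k * x)) / x : ℝ) : ℂ) else 0) := by
  unfold ph
  by_cases hc : c = 0
  · rw [if_pos hc, if_pos hc, hc]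
    rw [Nat.cast_zero, mul_zero, zero_div, add_zero, ← ofReal_exp]
    push_cast
    rw [one_div]
    ring
  · rw [if_neg hc, if_neg hc, add_zero]

/-- splitting in residue classes mod kN; adapt LZ.A19 (DD_split). m = a + j kN, exp(m W - 2 pi i b/N) = exp(m Y + 2 pi i cab/(kN)).
For cab = 0: 1/(e^x-1) = ph + e^(-kx)/x, x = m Y; the last parts sum to the last line (a = k a', b = a' h mod N, m = k m'). -/
theorem DD_split (χ ψ : DirichletCharacter ℂ N) (η : ℂ) (hη : |η.re| ≤ 1/8) (h k : ℕ) (hh : 1 ≤ h) (hk : 1 ≤ k)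
    (hc : Nat.Coprime h k) (hhN : Nat.Coprime h N) (hkN : Nat.Coprime k N) (Y : ℝ) (hY : 0 < Y) :
    DD χ ψ η ((Y : ℂ) + 2 * Real.pi * I * h / (k * N)) =
      (∑ a ∈ Finset.Icc 1 (k * N), ∑ b : ZMod N, χ (a : ZMod N) * ψ b *
        ∑' j : ℕ, ((a : ℂ) + j * ((k * N : ℕ) : ℂ)) ^ (-η) *
          ph k (k * N) (cab N h k a b.val) (((a : ℝ) + j * ((k * N : ℕ) : ℝ)) * Y)) +
      χ (k : ZMod N) * ψ (h : ZMod N) * ((k : ℂ) ^ (-1 - η) / Y) * ∑' n : ℕ, (χ * ψ) ((n + 1 : ℕ) : ZMod N) *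
        ((n : ℂ) + 1) ^ (-(1 + η)) * (Real.exp (-(((n : ℝ) + 1) * ((k : ℝ) ^ 2 * Y))) : ℂ) := by
  have hN : 0 < N := Nat.pos_of_ne_zero (NeZero.ne N)
  have hK : 0 < k * N := Nat.mul_pos hk hN
  have hKne : NeZero (k * N) := ⟨hK.ne'⟩
  have hk0 : (0 : ℝ) < k := by exact_mod_cast hk
  have hk1 : (1 : ℝ) ≤ k := by exact_mod_cast hk
  have hkC : (k : ℂ) ≠ 0 := by exact_mod_cast hk0.ne'
  have hY0 : (Y : ℂ) ≠ 0 := by exact_mod_cast hY.ne'
  have hkK : k ≤ k * N := Nat.le_mul_of_pos_right k hN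
  obtain ⟨C, hC, hph⟩ := ph_bounds
  -- cpow bound
  have hcp : ∀ m : ℕ, ‖((m : ℂ) + 1) ^ (-η)‖ ≤ (m : ℝ) + 1 := by
    intro m
    have hm1 : (1 : ℝ) ≤ (m : ℝ) + 1 := by
      have : (0 : ℝ) ≤ m := Nat.cast_nonneg m
      linarith
    have := LZ.A19_cpow_norm η hη ((m : ℝ) + 1) hm1
    push_cast at this
    exact this
  -- the first part
  set Gb : ZMod N → ℕ → ℂ := fun b m => χ ((m + 1 : ℕ) : ZMod N) * ψ b * (((m : ℂ) + 1) ^ (-η) *
    ph k (k * N) (cab N h k (m + 1) b.val) (((m : ℝ) + 1) * Y)) with hGb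
  have hGsum : ∀ b, Summable (Gb b) := by
    intro b
    refine Summable.of_norm_bounded (LZ.A19_summable_maj (Y / 2) (by linarith)
      (C * ((k * N : ℕ) : ℝ) ^ 2)) fun m => ?_
    rw [hGb]
    simp only
    rw [norm_mul, norm_mul, norm_mul]
    have h1 : ‖χ ((m + 1 : ℕ) : ZMod N)‖ ≤ 1 := DirichletCharacter.norm_le_one χ _
    have h2 : ‖ψ b‖ ≤ 1 := DirichletCharacter.norm_le_one ψ _
    have h3 := hcp m
    obtain ⟨φ', -, h4, -⟩ := hph k (k * N) (cab N h k (m + 1) b.val) hk hkK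
      (A19_cab_lt h k hk _ _)
    have hm0 : (0 : ℝ) < ((m : ℝ) + 1) * Y := by positivity
    have h5 := h4 _ hm0
    have h6 : -(((m : ℝ) + 1) * Y) / 2 = -(((m : ℝ) + 1) * (Y / 2)) := by ring
    rw [h6] at h5
    calc ‖χ ((m + 1 : ℕ) : ZMod N)‖ * ‖ψ b‖ * (‖((m : ℂ) + 1) ^ (-η)‖ *
          ‖ph k (k * N) (cab N h k (m + 1) b.val) (((m : ℝ) + 1) * Y)‖)
        ≤ 1 * 1 * ((((m : ℝ) + 1)) * (C * ((k * N : ℕ) : ℝ) ^ 2 * Real.exp (-(((m : ℝ) + 1) * (Y / 2))))) := by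
          gcongr
      _ = _ := by ring
  -- the second part
  set E : ℕ → ℂ := fun m => χ ((m + 1 : ℕ) : ZMod N) * ((m : ℂ) + 1) ^ (-η) *
    ∑ b : ZMod N, ψ b * (if cab N h k (m + 1) b.val = 0 then
      ((Real.exp (-(k * (((m : ℝ) + 1) * Y))) / (((m : ℝ) + 1) * Y) : ℝ) : ℂ) else 0) with hE
  have hEsum : Summable E := by
    refine Summable.of_norm_bounded (LZ.A19_summable_maj Y hY ((N : ℝ) * (1 / Y))) fun m => ?_
    rw [hE]
    simp only
    rw [norm_mul, norm_mul]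
    have h1 : ‖χ ((m + 1 : ℕ) : ZMod N)‖ ≤ 1 := DirichletCharacter.norm_le_one χ _
    have h3 := hcp m
    have hm0 : (0 : ℝ) ≤ m := Nat.cast_nonneg m
    have h4 : ‖∑ b : ZMod N, ψ b * (if cab N h k (m + 1) b.val = 0 then
      ((Real.exp (-(k * (((m : ℝ) + 1) * Y))) / (((m : ℝ) + 1) * Y) : ℝ) : ℂ) else 0)‖ ≤
        (N : ℝ) * ((1 / Y) * Real.exp (-(((m : ℝ) + 1) * Y))) := by
      have h5 : ∀ b ∈ (Finset.univ : Finset (ZMod N)), ‖ψ b * (if cab N h k (m + 1) b.val = 0 then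
        ((Real.exp (-(k * (((m : ℝ) + 1) * Y))) / (((m : ℝ) + 1) * Y) : ℝ) : ℂ) else 0)‖ ≤
          (1 / Y) * Real.exp (-(((m : ℝ) + 1) * Y)) := by
        intro b _
        rw [norm_mul]
        have h2 : ‖ψ b‖ ≤ 1 := DirichletCharacter.norm_le_one ψ _
        have h6 : ‖(if cab N h k (m + 1) b.val = 0 then
          ((Real.exp (-(k * (((m : ℝ) + 1) * Y))) / (((m : ℝ) + 1) * Y) : ℝ) : ℂ) else 0)‖ ≤
            (1 / Y) * Real.exp (-(((m : ℝ) + 1) * Y)) := by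
          split_ifs
          · rw [norm_real, Real.norm_eq_abs, abs_of_pos (by positivity)]
            have h7 : Real.exp (-(k * (((m : ℝ) + 1) * Y))) ≤ Real.exp (-(((m : ℝ) + 1) * Y)) := by
              apply Real.exp_le_exp.2
              have h8 : 0 ≤ ((m : ℝ) + 1) * Y := by positivity
              exact neg_le_neg (le_mul_of_one_le_left h8 (by exact_mod_cast hk))
            have h9 : Y ≤ ((m : ℝ) + 1) * Y :=
              le_mul_of_one_le_left hY.le (le_add_of_nonneg_left (Nat.cast_nonneg m))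
            calc Real.exp (-(k * (((m : ℝ) + 1) * Y))) / (((m : ℝ) + 1) * Y)
                ≤ Real.exp (-(((m : ℝ) + 1) * Y)) / Y := by gcongr
              _ = _ := by ring
          · rw [norm_zero]; positivity
        calc ‖ψ b‖ * _ ≤ 1 * ((1 / Y) * Real.exp (-(((m : ℝ) + 1) * Y))) := by gcongr
          _ = _ := one_mul _
      refine (norm_sum_le_of_le _ h5).trans (le_of_eq ?_)
      rw [Finset.sum_const, Finset.card_univ, ZMod.card, nsmul_eq_mul]
    calc ‖χ ((m + 1 : ℕ) : ZMod N)‖ * ‖((m : ℂ) + 1) ^ (-η)‖ * _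
        ≤ 1 * ((m : ℝ) + 1) * ((N : ℝ) * ((1 / Y) * Real.exp (-(((m : ℝ) + 1) * Y)))) := by
          gcongr
      _ = _ := by ring
  -- decomposition
  have hdec : DD χ ψ η ((Y : ℂ) + 2 * Real.pi * I * h / (k * N)) =
      ∑' m : ℕ, ((∑ b : ZMod N, Gb b m) + E m) := by
    unfold DD
    apply tsum_congr
    intro m
    have h1 : ∀ b : ZMod N, (exp (((m : ℂ) + 1) * ((Y : ℂ) + 2 * Real.pi * I * h / (k * N)) -
        2 * Real.pi * I * b.val / N) - 1)⁻¹ =
        ph k (k * N) (cab N h k (m + 1) b.val) (((m : ℝ) + 1) * Y) +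
        (if cab N h k (m + 1) b.val = 0 then
          ((Real.exp (-(k * (((m : ℝ) + 1) * Y))) / (((m : ℝ) + 1) * Y) : ℝ) : ℂ) else 0) := by
      intro b
      rw [← A19_ph]
      have h2 := A19_exp_cab (N := N) h k hk Y (m + 1) b.val
      push_cast at h2 ⊢
      rw [h2]
    rw [Finset.sum_congr rfl fun b _ => by rw [h1 b, mul_add]]
    rw [Finset.sum_add_distrib, mul_add, hE, hGb]
    simp only
    congr 1
    rw [Finset.mul_sum]
    apply Finset.sum_congr rfl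
    intro b _
    ring
  rw [hdec, (summable_sum (fun b _ => hGsum b)).tsum_add hEsum,
    Summable.tsum_finsetSum (fun b _ => hGsum b)]
  congr 1
  · -- residue classes
    rw [Finset.sum_comm]
    apply Finset.sum_congr rfl
    intro b _
    rw [Nat.sumByResidueClasses (hGsum b) (k * N)]
    have hzmod : ∀ G : ℕ → ℂ, ∑ j : ZMod (k * N), G j.val = ∑ a ∈ Finset.range (k * N), G a := by
      intro G
      apply Finset.sum_bij (fun (j : ZMod (k * N)) _ => j.val)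
      · intro j _; exact Finset.mem_range.2 (ZMod.val_lt j)
      · intro a _ b _ hab; exact ZMod.val_injective (k * N) hab
      · intro a ha
        exact ⟨(a : ZMod (k * N)), Finset.mem_univ _, ZMod.val_cast_of_lt (Finset.mem_range.1 ha)⟩
      · intro j _; rfl
    rw [hzmod (fun v => ∑' m : ℕ, Gb b (v + k * N * m))]
    have hrange : ∀ G : ℕ → ℂ, ∑ a ∈ Finset.range (k * N), G (a + 1) =
        ∑ a ∈ Finset.Icc 1 (k * N), G a := by
      intro G
      rw [Finset.range_eq_Ico, Finset.sum_Ico_add' G 0 (k * N) 1]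
      rfl
    rw [← hrange]
    apply Finset.sum_congr rfl
    intro a _
    rw [← tsum_mul_left]
    apply tsum_congr
    intro j
    rw [hGb]
    simp only
    have e1 : a + k * N * j + 1 = (a + 1) + j * (k * N) := by ring
    have e2 : ((a + k * N * j + 1 : ℕ) : ZMod N) = ((a + 1 : ℕ) : ZMod N) := by
      rw [e1]
      push_cast
      rw [ZMod.natCast_self]
      ring
    rw [e2, e1, A19_cab_add]
    have e3 : (((a + k * N * j : ℕ) : ℂ) + 1) = ((a + 1 : ℕ) : ℂ) + j * ((k * N : ℕ) : ℂ) := by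
      push_cast; ring
    have e4 : (((a + k * N * j : ℕ) : ℝ) + 1) = ((a + 1 : ℕ) : ℝ) + j * ((k * N : ℕ) : ℝ) := by
      push_cast; ring
    rw [e3, e4]
  · -- the poles
    have hinj : Function.Injective (fun n : ℕ => (k - 1) + k * n) := by
      intro a b hab
      simp only at hab
      have : k * a = k * b := by omega
      exact Nat.eq_of_mul_eq_mul_left (by omega) this
    have hkm : ∀ n : ℕ, (k - 1) + k * n + 1 = k * (n + 1) := by
      intro n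
      have : k * (n + 1) = k * n + k := by ring
      omega
    have hsupp : Function.support E ⊆ Set.range (fun n : ℕ => (k - 1) + k * n) := by
      intro m hm
      rw [Function.mem_support] at hm
      by_contra hcon
      apply hm
      rw [hE]
      simp only
      rw [Finset.sum_eq_zero, mul_zero]
      intro b _
      rw [if_neg, mul_zero]
      intro h0
      have h1 := A19_cab_dvd h k hk hc (m + 1) b.val h0
      obtain ⟨n, hn⟩ := h1
      apply hcon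
      have hn0 : n ≠ 0 := by
        rintro rfl
        omega
      obtain ⟨n', rfl⟩ := Nat.exists_eq_succ_of_ne_zero hn0
      refine ⟨n', ?_⟩
      simp only
      have := hkm n'
      rw [Nat.succ_eq_add_one] at hn
      omega
    rw [← hinj.tsum_eq hsupp, ← tsum_mul_left]
    apply tsum_congr
    intro n
    rw [hE]
    simp only
    rw [hkm n]
    have h1 : ∀ b : ZMod N, ψ b * (if cab N h k (k * (n + 1)) b.val = 0 then
        ((Real.exp (-(k * ((((k - 1 + k * n : ℕ) : ℝ) + 1) * Y))) /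
          ((((k - 1 + k * n : ℕ) : ℝ) + 1) * Y) : ℝ) : ℂ) else 0) =
        if b = (((n + 1) * h : ℕ) : ZMod N) then ψ b *
          ((Real.exp (-(k * ((((k - 1 + k * n : ℕ) : ℝ) + 1) * Y))) /
          ((((k - 1 + k * n : ℕ) : ℝ) + 1) * Y) : ℝ) : ℂ) else 0 := by
      intro b
      simp only [A19_cab_mul h k hk (n + 1) b]
      split_ifs <;> simp
    rw [Finset.sum_congr rfl fun b _ => h1 b, Finset.sum_ite_eq' Finset.univ, if_pos (Finset.mem_univ _)]
    have e3 : (((k - 1 + k * n : ℕ) : ℝ) + 1) = (k : ℝ) * ((n : ℝ) + 1) := by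
      have := hkm n
      exact_mod_cast this
    have e4 : (((k - 1 + k * n : ℕ) : ℂ) + 1) = (k : ℂ) * ((n : ℂ) + 1) := by
      have := hkm n
      exact_mod_cast this
    rw [e3, e4]
    have hn0 : (0 : ℝ) ≤ n := Nat.cast_nonneg n
    have hn1 : ((n : ℂ) + 1) ≠ 0 := by
      have : ((n : ℝ) + 1) ≠ 0 := by positivity
      exact_mod_cast this
    have h3 : ((k : ℂ) * ((n : ℂ) + 1)) ^ (-η) = (k : ℂ) ^ (-η) * ((n : ℂ) + 1) ^ (-η) := by
      have := Complex.mul_cpow_ofReal_nonneg hk0.le (show (0 : ℝ) ≤ (n : ℝ) + 1 by positivity) (-η)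
      push_cast at this
      exact this
    have h4 : (k : ℂ) ^ (-1 - η) = (k : ℂ)⁻¹ * (k : ℂ) ^ (-η) := by
      rw [show -1 - η = -1 + -η by ring, Complex.cpow_add _ _ hkC, Complex.cpow_neg_one]
    have h5 : ((n : ℂ) + 1) ^ (-(1 + η)) = ((n : ℂ) + 1)⁻¹ * ((n : ℂ) + 1) ^ (-η) := by
      rw [show -(1 + η) = -1 + -η by ring, Complex.cpow_add _ _ hn1, Complex.cpow_neg_one]
    have h6 : Real.exp (-(k * ((k : ℝ) * ((n : ℝ) + 1) * Y))) =
        Real.exp (-(((n : ℝ) + 1) * ((k : ℝ) ^ 2 * Y))) := by congr 1; ring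
    rw [h3, h4, h5, h6]
    have h7 : χ ((k * (n + 1) : ℕ) : ZMod N) = χ (k : ZMod N) * χ ((n + 1 : ℕ) : ZMod N) := by
      rw [Nat.cast_mul, map_mul]
    have h8 : ψ (((n + 1) * h : ℕ) : ZMod N) = ψ ((n + 1 : ℕ) : ZMod N) * ψ (h : ZMod N) := by
      rw [Nat.cast_mul, map_mul]
    rw [h7, h8, MulChar.mul_apply]
    push_cast
    generalize cexp (-(((n : ℂ) + 1) * ((k : ℂ) ^ 2 * Y))) = e
    generalize ((n : ℂ) + 1) ^ (-η) = zη
    generalize (k : ℂ) ^ (-η) = kη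
    generalize χ (k : ZMod N) = c1
    generalize ψ (h : ZMod N) = c2
    generalize χ ((n : ZMod N) + 1) = c3
    generalize ψ ((n : ZMod N) + 1) = c4
    generalize (n : ℂ) + 1 = z at *
    field_simp

end LP

end F_Y_A19
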