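import Pool.Agent.Lib.MP_0f5a55_nt.V.V09

section F_Y_A19d

open Complex MeasureTheory Set Filter Topology
open scoped ComplexConjugate

namespace LP

open LZ (kk nS cf EE ER PP wt Sep)

variable {N : ℕ} [NeZero N]

theorem A19d_int (η : ℂ) (hη : |η.re| ≤ 1/8) (φ φ' : ℝ → ℂ) (B : ℝ)
    (hd : ∀ y : ℝ, 0 < y → HasDerivAt φ (φ' y) y)
    (hb : ∀ y : ℝ, 0 < y → ‖φ y‖ ≤ B * Real.exp (-y / 2)) :
    IntegrableOn (fun y : ℝ => (y : ℂ) ^ (-η) * φ y) (Ioi 0) := by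
  have hre := abs_le.mp hη
  have hi : IntegrableOn (fun y : ℝ => y ^ (-η.re) * Real.exp (-y / 2)) (Ioi 0) := by
    have := integrableOn_rpow_mul_exp_neg_mul_rpow (p := 1) (s := -η.re) (b := 1/2)
      (by linarith [hre.2]) (by norm_num) (by norm_num)
    refine this.congr_fun (fun y _ => ?_) measurableSet_Ioi
    simp only [Real.rpow_one]
    congr 2
    ring
  refine Integrable.mono' (hi.const_mul B) ?_ ?_
  · apply ContinuousOn.aestronglyMeasurable _ measurableSet_Ioi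
    intro y hy
    have hy0 : (0:ℝ) < y := hy
    apply ContinuousAt.continuousWithinAt
    refine ContinuousAt.mul ?_ (hd y hy0).continuousAt
    exact (continuousAt_ofReal_cpow_const y (-η) (Or.inr hy0.ne'))
  · refine (ae_restrict_iff' measurableSet_Ioi).mpr (Filter.Eventually.of_forall fun y hy => ?_)
    have hy0 : (0:ℝ) < y := hy
    rw [norm_mul, Complex.norm_cpow_eq_rpow_re_of_pos hy0, neg_re]
    have h1 := hb y hy0
    have h2 : 0 ≤ y ^ (-η.re) := Real.rpow_nonneg hy0.le _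
    calc y ^ (-η.re) * ‖φ y‖ ≤ y ^ (-η.re) * (B * Real.exp (-y / 2)) := mul_le_mul_of_nonneg_left h1 h2
      _ = _ := by ring

/-- integrate ph_sum: substitution x = k y. -/
theorem ph_int (χ ψ : DirichletCharacter ℂ N) (h k : ℕ) (hh : 1 ≤ h) (hk : 1 ≤ k) (hc : Nat.Coprime h k)
    (hhN : Nat.Coprime h N) (hkN : Nat.Coprime k N) (η : ℂ) (hη : |η.re| ≤ 1/8) :
    ∑ a ∈ Finset.Icc 1 (k * N), ∑ b : ZMod N, χ (a : ZMod N) * ψ b *
        ∫ y in Ioi (0:ℝ), (y : ℂ) ^ (-η) * ph k (k * N) (cab N h k a b.val) y =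
      χ⁻¹ (h : ZMod N) * ψ⁻¹ (k : ZMod N) * (k : ℂ) ^ η * JF χ ψ η := by
  have hN : 0 < N := Nat.pos_of_ne_zero (NeZero.ne N)
  have hkN0 : 0 < k * N := Nat.mul_pos hk hN
  obtain ⟨C, hC, hph⟩ := ph_bounds
  have hcab : ∀ a b : ℕ, cab N h k a b < k * N := by
    intro a b
    have hK : (0 : ℤ) < ((k * N : ℕ) : ℤ) := by exact_mod_cast hkN0
    have h1 : ((cab N h k a b : ℕ) : ℤ) = ((a * h : ℕ) - (b * k : ℕ) : ℤ) % ((k * N : ℕ) : ℤ) := by
      unfold cab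
      exact Int.toNat_of_nonneg (Int.emod_nonneg _ hK.ne')
    have h2 := Int.emod_lt_of_pos ((a * h : ℕ) - (b * k : ℕ) : ℤ) hK
    rw [← h1] at h2
    exact_mod_cast h2
  have hint : ∀ a b : ℕ, IntegrableOn (fun y : ℝ => (y : ℂ) ^ (-η) * ph k (k * N) (cab N h k a b) y) (Ioi 0) := by
    intro a b
    obtain ⟨φ', h1, h2, -⟩ := hph k (k * N) (cab N h k a b) hk (Nat.le_mul_of_pos_right k hN) (hcab a b)
    exact A19d_int η hη _ φ' _ h1 h2
  have hsum : ∑ a ∈ Finset.Icc 1 (k * N), ∑ b : ZMod N, χ (a : ZMod N) * ψ b *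
        ∫ y in Ioi (0:ℝ), (y : ℂ) ^ (-η) * ph k (k * N) (cab N h k a b.val) y =
      ∫ y in Ioi (0:ℝ), ∑ a ∈ Finset.Icc 1 (k * N), ∑ b : ZMod N, χ (a : ZMod N) * ψ b *
        ((y : ℂ) ^ (-η) * ph k (k * N) (cab N h k a b.val) y) := by
    rw [integral_finsetSum]
    · refine Finset.sum_congr rfl fun a _ => ?_
      rw [integral_finsetSum]
      · refine Finset.sum_congr rfl fun b _ => ?_
        rw [integral_const_mul]
      · intro b _
        exact (hint a b.val).const_mul _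
    · intro a _
      exact integrable_finsetSum _ fun b _ => (hint a b.val).const_mul _
  rw [hsum]
  have hk0 : (0 : ℝ) < k := by exact_mod_cast hk
  have hkc : (k : ℂ) ≠ 0 := by exact_mod_cast hk0.ne'
  have hcong : ∫ y in Ioi (0:ℝ), ∑ a ∈ Finset.Icc 1 (k * N), ∑ b : ZMod N, χ (a : ZMod N) * ψ b *
        ((y : ℂ) ^ (-η) * ph k (k * N) (cab N h k a b.val) y) =
      ∫ y in Ioi (0:ℝ), (χ⁻¹ (h : ZMod N) * ψ⁻¹ (k : ZMod N) * (k : ℂ) ^ η * k) *
        (fun x : ℝ => (x : ℂ) ^ (-η) * (PF χ ψ x - Sf χ ψ * ((Real.exp (-x) / x : ℝ) : ℂ))) (k * y) := by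
    refine setIntegral_congr_fun measurableSet_Ioi fun y hy => ?_
    have hy0 : (0:ℝ) < y := hy
    have h1 := (ph_sum χ ψ h k hh hk hc hhN hkN y hy0).1
    have h2 : ∑ a ∈ Finset.Icc 1 (k * N), ∑ b : ZMod N, χ (a : ZMod N) * ψ b *
        ((y : ℂ) ^ (-η) * ph k (k * N) (cab N h k a b.val) y) =
        (y : ℂ) ^ (-η) * ∑ a ∈ Finset.Icc 1 (k * N), ∑ b : ZMod N, χ (a : ZMod N) * ψ b *
          ph k (k * N) (cab N h k a b.val) y := by
      rw [Finset.mul_sum]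
      refine Finset.sum_congr rfl fun a _ => ?_
      rw [Finset.mul_sum]
      refine Finset.sum_congr rfl fun b _ => ?_
      ring
    simp only
    rw [h2, h1]
    have h3 : (((k * y : ℝ)) : ℂ) ^ (-η) = (k : ℂ) ^ (-η) * (y : ℂ) ^ (-η) := by
      rw [ofReal_mul, mul_cpow_ofReal_nonneg hk0.le hy0.le, ofReal_natCast]
    have h4 : (k : ℂ) ^ η * (k : ℂ) ^ (-η) = 1 := by
      rw [← cpow_add _ _ hkc, add_neg_cancel, cpow_zero]
    rw [h3]
    push_cast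
    calc (y : ℂ) ^ (-η) * (k * (χ⁻¹ (h : ZMod N) * ψ⁻¹ (k : ZMod N)) *
          (PF χ ψ ((k : ℂ) * y) - Sf χ ψ * (exp (-(k * y)) / (k * y))))
        = (χ⁻¹ (h : ZMod N) * ψ⁻¹ (k : ZMod N)) * ((k : ℂ) ^ η * (k : ℂ) ^ (-η)) * k * ((y : ℂ) ^ (-η) *
          (PF χ ψ ((k : ℂ) * y) - Sf χ ψ * (exp (-(k * y)) / (k * y)))) := by rw [h4]; ring
      _ = _ := by ring
  have hsub := integral_comp_mul_left_Ioi
    (fun x : ℝ => (x : ℂ) ^ (-η) * (PF χ ψ x - Sf χ ψ * ((Real.exp (-x) / x : ℝ) : ℂ))) 0 hk0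
  rw [mul_zero] at hsub
  rw [hcong, integral_const_mul]
  have e1 : (χ⁻¹ (h : ZMod N) * ψ⁻¹ (k : ZMod N) * (k : ℂ) ^ η * k) * ((k : ℝ)⁻¹ • JF χ ψ η) =
      χ⁻¹ (h : ZMod N) * ψ⁻¹ (k : ZMod N) * (k : ℂ) ^ η * JF χ ψ η := by
    rw [Complex.real_smul]
    push_cast
    field_simp
  rw [← e1]
  congr 1

end LP

end F_Y_A19d
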