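import Pool.Agent.Lib.MP_0f5a55_nt.V.V18

section F_Y_XB4

open Complex MeasureTheory Set Filter Topology
open scoped ComplexConjugate

namespace LP

open LZ (kk nS cf EE ER PP wt Sep)

private theorem XB4_a {y : ℝ} (hy : 0 < y) : 1 - Real.exp (-y) ≤ y ^ (3/4 : ℝ) := by
  rcases le_or_gt y 1 with h | h
  · have h1 : 1 - Real.exp (-y) ≤ y := by
      have := Real.add_one_le_exp (-y)
      linarith
    refine h1.trans ?_
    calc y = y ^ (1 : ℝ) := (Real.rpow_one y).symm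
      _ ≤ y ^ (3/4 : ℝ) := Real.rpow_le_rpow_of_exponent_ge hy h (by norm_num)
  · have h1 : (1 : ℝ) ≤ y ^ (3/4 : ℝ) := Real.one_le_rpow h.le (by norm_num)
    have := Real.exp_pos (-y)
    linarith

private theorem XB4_b {y : ℝ} (hy : 0 < y) : y ^ (1/4 : ℝ) * Real.exp (-y) ≤ 1 := by
  have h1 : y ^ (1/4 : ℝ) ≤ Real.exp y := by
    rcases le_or_gt y 1 with h | h
    · exact (Real.rpow_le_one hy.le h (by norm_num)).trans (Real.one_le_exp hy.le)
    · calc y ^ (1/4 : ℝ) ≤ y ^ (1 : ℝ) := Real.rpow_le_rpow_of_exponent_le h.le (by norm_num)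
        _ = y := Real.rpow_one y
        _ ≤ Real.exp y := by linarith [Real.add_one_le_exp y]
  calc y ^ (1/4 : ℝ) * Real.exp (-y) ≤ Real.exp y * Real.exp (-y) :=
        mul_le_mul_of_nonneg_right h1 (Real.exp_pos _).le
    _ = 1 := by rw [← Real.exp_add, add_neg_cancel, Real.exp_zero]

private theorem XB4_c {t X σ : ℝ} (ht : 1 < t) (hX : 0 < X) (hσ : |σ| ≤ 1/8) :
    t ^ (-(1 + σ)) * (X * Real.exp (-(t * X))) ≤ X ^ (3/4 : ℝ) * t ^ (-(9/8) : ℝ) := by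
  have ht0 : 0 < t := by linarith
  have hσ' := abs_le.1 hσ
  have hy : 0 < t * X := by positivity
  have h1 : X * Real.exp (-(t * X)) = X ^ (3/4 : ℝ) * t ^ (-(1/4) : ℝ) *
      ((t * X) ^ (1/4 : ℝ) * Real.exp (-(t * X))) := by
    have e1 : X = X ^ (3/4 : ℝ) * X ^ (1/4 : ℝ) := by
      rw [← Real.rpow_add hX]; norm_num
    have e2 : (t * X) ^ (1/4 : ℝ) = t ^ (1/4 : ℝ) * X ^ (1/4 : ℝ) := Real.mul_rpow ht0.le hX.le
    have e3 : t ^ (-(1/4) : ℝ) * t ^ (1/4 : ℝ) = 1 := by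
      rw [← Real.rpow_add ht0]; norm_num
    rw [e2]
    calc X * Real.exp (-(t * X)) = X ^ (3/4 : ℝ) * X ^ (1/4 : ℝ) * Real.exp (-(t * X)) := by rw [← e1]
      _ = X ^ (3/4 : ℝ) * (t ^ (-(1/4) : ℝ) * t ^ (1/4 : ℝ)) * X ^ (1/4 : ℝ) *
          Real.exp (-(t * X)) := by rw [e3, mul_one]
      _ = _ := by ring
  rw [h1]
  have h2 : X ^ (3/4 : ℝ) * t ^ (-(1/4) : ℝ) * ((t * X) ^ (1/4 : ℝ) * Real.exp (-(t * X))) ≤
      X ^ (3/4 : ℝ) * t ^ (-(1/4) : ℝ) * 1 :=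
    mul_le_mul_of_nonneg_left (XB4_b hy) (by positivity)
  calc t ^ (-(1 + σ)) * _ ≤ t ^ (-(1 + σ)) * (X ^ (3/4 : ℝ) * t ^ (-(1/4) : ℝ) * 1) :=
        mul_le_mul_of_nonneg_left h2 (by positivity)
    _ = X ^ (3/4 : ℝ) * (t ^ (-(1 + σ)) * t ^ (-(1/4) : ℝ)) := by ring
    _ = X ^ (3/4 : ℝ) * t ^ (-(1 + σ) + -(1/4) : ℝ) := by rw [Real.rpow_add ht0]
    _ ≤ X ^ (3/4 : ℝ) * t ^ (-(9/8) : ℝ) := by
        refine mul_le_mul_of_nonneg_left ?_ (by positivity)
        exact Real.rpow_le_rpow_of_exponent_le ht.le (by linarith)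

private theorem XB4_d {t X σ : ℝ} (ht : 1 < t) (hX : 0 < X) (hσ : |σ| ≤ 1/8) :
    t ^ (-((1 + σ) + 1)) * (1 - Real.exp (-(t * X))) ≤ X ^ (3/4 : ℝ) * t ^ (-(9/8) : ℝ) := by
  have ht0 : 0 < t := by linarith
  have hσ' := abs_le.1 hσ
  have hy : 0 < t * X := by positivity
  calc t ^ (-((1 + σ) + 1)) * (1 - Real.exp (-(t * X))) ≤
        t ^ (-((1 + σ) + 1)) * (t * X) ^ (3/4 : ℝ) :=
        mul_le_mul_of_nonneg_left (XB4_a hy) (by positivity)
    _ = X ^ (3/4 : ℝ) * (t ^ (-((1 + σ) + 1)) * t ^ (3/4 : ℝ)) := by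
        rw [Real.mul_rpow ht0.le hX.le]; ring
    _ = X ^ (3/4 : ℝ) * t ^ (-((1 + σ) + 1) + 3/4 : ℝ) := by rw [Real.rpow_add ht0]
    _ ≤ X ^ (3/4 : ℝ) * t ^ (-(9/8) : ℝ) := by
        refine mul_le_mul_of_nonneg_left ?_ (by positivity)
        exact Real.rpow_le_rpow_of_exponent_le ht.le (by linarith)

private noncomputable def XB4_g (η : ℂ) (X : ℝ) (t : ℝ) : ℂ :=
  (t : ℂ) ^ (-(1 + η)) * (Real.exp (-(t * X)) : ℂ)

private noncomputable def XB4_G (η : ℂ) (X : ℝ) (t : ℝ) : ℂ :=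
  -(1 + η) * (t : ℂ) ^ (-((1 + η) + 1)) * (Real.exp (-(t * X)) : ℂ) +
    (t : ℂ) ^ (-(1 + η)) * (-(X : ℂ) * (Real.exp (-(t * X)) : ℂ))

private theorem XB4_deriv (η : ℂ) (X : ℝ) {t : ℝ} (ht : 0 < t) (hη : 1 + η ≠ 0) :
    HasDerivAt (XB4_g η X) (XB4_G η X t) t := by
  have h1 : HasDerivAt (fun t : ℝ => (t : ℂ) ^ (-(1 + η))) (-(1 + η) * (t : ℂ) ^ (-(1 + η) - 1)) t :=
    hasDerivAt_ofReal_cpow_const ht.ne' (neg_ne_zero.2 hη)
  have h2 : HasDerivAt (fun t : ℝ => Real.exp (-(t * X))) (Real.exp (-(t * X)) * (-(1 * X))) t :=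
    (((hasDerivAt_id t).mul_const X).neg).exp
  have h3 := h2.ofReal_comp
  have h4 := h1.mul h3
  refine h4.congr_deriv ?_
  unfold XB4_G
  have e : -(1 + η) - 1 = -((1 + η) + 1) := by ring
  rw [e]
  push_cast
  ring

private theorem XB4_cont (η : ℂ) (X : ℝ) : ContinuousOn (XB4_G η X) (Set.Ioi 0) := by
  intro t ht
  have ht0 : (t : ℝ) ≠ 0 := (Set.mem_Ioi.1 ht).ne'
  have h1 : ∀ w : ℂ, ContinuousAt (fun t : ℝ => (t : ℂ) ^ w) t := by
    intro w
    refine ContinuousAt.cpow (by fun_prop) (by fun_prop) ?_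
    exact Complex.ofReal_mem_slitPlane.2 ht
  have h2 : ContinuousAt (fun t : ℝ => (Real.exp (-(t * X)) : ℂ)) t := by fun_prop
  unfold XB4_G
  exact (((h1 _).const_mul _).mul h2 |>.add ((h1 _).mul (h2.const_mul _))).continuousWithinAt

private theorem XB4_Gle {η : ℂ} {X t : ℝ} (ht : 1 < t) (hX : 0 < X) (hη : |η.re| ≤ 1/8) :
    ‖XB4_G η X t‖ ≤ (‖1 + η‖ + X ^ (3/4 : ℝ)) * t ^ (-(9/8) : ℝ) := by
  have ht0 : 0 < t := by linarith
  have hη' := abs_le.1 hη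
  unfold XB4_G
  refine (norm_add_le _ _).trans ?_
  rw [norm_mul, norm_mul, norm_neg, norm_mul, norm_mul, norm_neg,
    Complex.norm_cpow_eq_rpow_re_of_pos ht0, Complex.norm_cpow_eq_rpow_re_of_pos ht0,
    Complex.norm_real, Complex.norm_real, Real.norm_of_nonneg (Real.exp_pos _).le,
    Real.norm_of_nonneg hX.le]
  have e1 : (-((1 + η) + 1)).re = -((1 + η.re) + 1) := by simp
  have e2 : (-(1 + η)).re = -(1 + η.re) := by rw [Complex.neg_re, Complex.add_re, Complex.one_re]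
  rw [e1, e2, add_mul]
  have h1 := XB4_c (σ := η.re) ht hX hη
  have h2 : t ^ (-((1 + η.re) + 1)) * Real.exp (-(t * X)) ≤ t ^ (-(9/8) : ℝ) := by
    have h3 : Real.exp (-(t * X)) ≤ 1 := Real.exp_le_one_iff.2 (by
      have := mul_pos ht0 hX
      linarith)
    calc t ^ (-((1 + η.re) + 1)) * Real.exp (-(t * X)) ≤ t ^ (-((1 + η.re) + 1)) * 1 :=
          mul_le_mul_of_nonneg_left h3 (by positivity)
      _ = t ^ (-((1 + η.re) + 1)) := mul_one _
      _ ≤ t ^ (-(9/8) : ℝ) := Real.rpow_le_rpow_of_exponent_le ht.le (by linarith)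
  have h4 := mul_le_mul_of_nonneg_left h2 (norm_nonneg (1 + η))
  have e3 : ‖1 + η‖ * t ^ (-((1 + η.re) + 1)) * Real.exp (-(t * X)) =
      ‖1 + η‖ * (t ^ (-((1 + η.re) + 1)) * Real.exp (-(t * X))) := by ring
  rw [e3]
  linarith

variable {N : ℕ} [NeZero N]

private theorem XB4_sum (f : ZMod N → ℂ) (hf : ∑ a, f a = 0) {η : ℂ} {X : ℝ} (hX : 0 < X)
    (hη : |η.re| ≤ 1/8) :
    ∑' n : ℕ, f ((n + 1 : ℕ) : ZMod N) * ((n : ℂ) + 1) ^ (-(1 + η)) *
      (Real.exp (-(((n : ℝ) + 1) * X)) : ℂ) =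
    -∫ t in Set.Ioi (1 : ℝ), XB4_G η X t * ∑ k ∈ Finset.Icc 1 ⌊t⌋₊, f (k : ZMod N) := by
  have hη' := abs_le.1 hη
  have hη0 : 1 + η ≠ 0 := by
    intro h
    have := congrArg Complex.re h
    simp at this
    linarith
  set C₀ : ℝ := 1 + ∑ a, ‖f a‖ with hC₀
  have hC₀0 : 0 < C₀ := by
    have : (0 : ℝ) ≤ ∑ a, ‖f a‖ := Finset.sum_nonneg fun _ _ => norm_nonneg _
    rw [hC₀]; linarith
  have hfa : ∀ a, ‖f a‖ ≤ C₀ := by
    intro a
    have h1 : ‖f a‖ ≤ ∑ a, ‖f a‖ :=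
      Finset.single_le_sum (f := fun a => ‖f a‖) (fun _ _ => norm_nonneg _) (Finset.mem_univ a)
    rw [hC₀]; linarith
  set c : ℕ → ℂ := fun k => if k = 0 then 0 else f (k : ZMod N) with hc
  have hcs : ∀ n, ∑ k ∈ Finset.Icc 0 n, c k = ∑ k ∈ Finset.Icc 1 n, f (k : ZMod N) := by
    intro n
    have h1 : Finset.Icc 1 n ⊆ Finset.Icc 0 n := Finset.Icc_subset_Icc_left (by omega)
    rw [← Finset.sum_subset h1]
    · refine Finset.sum_congr rfl fun k hk => ?_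
      have := (Finset.mem_Icc.1 hk).1
      rw [hc]
      exact if_neg (by omega)
    · intro k hk hk'
      have h2 : k = 0 := by
        simp only [Finset.mem_Icc] at hk hk'
        omega
      rw [hc]
      exact if_pos h2
  have hgs : ∀ n : ℕ, ∑ k ∈ Finset.Icc 0 n, XB4_g η X k * c k =
      ∑ k ∈ Finset.range n, f ((k + 1 : ℕ) : ZMod N) * ((k : ℂ) + 1) ^ (-(1 + η)) *
      (Real.exp (-(((k : ℝ) + 1) * X)) : ℂ) := by
    intro n
    have h1 : Finset.Icc 1 n ⊆ Finset.Icc 0 n := Finset.Icc_subset_Icc_left (by omega)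
    rw [← Finset.sum_subset h1, LX.w06_range (fun k => XB4_g η X k * c k)]
    · refine Finset.sum_congr rfl fun k hk => ?_
      have h2 : c (k + 1) = f ((k + 1 : ℕ) : ZMod N) := by
        rw [hc]
        exact if_neg (by omega)
      simp only [XB4_g]
      rw [h2]
      push_cast
      ring
    · intro k hk hk'
      have h2 : k = 0 := by
        simp only [Finset.mem_Icc] at hk hk'
        omega
      have h3 : c k = 0 := by
        rw [hc]
        exact if_pos h2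
      rw [h3, mul_zero]
  have hderiv : ∀ t ∈ Set.Ioi (0 : ℝ), deriv (XB4_g η X) t = XB4_G η X t := fun t ht =>
    (XB4_deriv η X ht hη0).deriv
  have hsub : Set.Ici (1 : ℝ) ⊆ Set.Ioi 0 := fun t ht => Set.mem_Ioi.2 (lt_of_lt_of_le one_pos (Set.mem_Ici.1 ht))
  have hmain := tendsto_sum_mul_atTop_nhds_one_sub_integral₀ c (f := XB4_g η X) (if_pos rfl)
    (fun t ht => (XB4_deriv η X (hsub ht) hη0).differentiableAt)
    (by
      have h1 : LocallyIntegrableOn (XB4_G η X) (Set.Ici 1) :=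
        ((XB4_cont η X).mono hsub).locallyIntegrableOn measurableSet_Ici
      refine h1.congr ?_
      refine (ae_restrict_iff' measurableSet_Ici).2 (Filter.Eventually.of_forall ?_)
      intro t ht
      exact (hderiv t (hsub ht)).symm)
    (l := 0)
    (by
      have h1 : Tendsto (fun n : ℕ => C₀ * ((n : ℝ) ^ (-(7/8) : ℝ))) atTop (𝓝 0) := by
        have h2 := (tendsto_rpow_neg_atTop (y := 7/8) (by norm_num)).comp
          (tendsto_natCast_atTop_atTop (R := ℝ))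
        have h3 := h2.const_mul C₀
        rw [mul_zero] at h3
        exact h3
      refine squeeze_zero_norm' ?_ h1
      filter_upwards [eventually_gt_atTop 0] with n hn
      have hn0 : (0 : ℝ) < n := by exact_mod_cast hn
      have hn1 : (1 : ℝ) ≤ n := by exact_mod_cast hn
      rw [hcs, norm_mul, mul_comm]
      refine mul_le_mul (XB2_sum_le f hf n) ?_ (norm_nonneg _) hC₀0.le
      unfold XB4_g
      rw [norm_mul, Complex.norm_real, Real.norm_of_nonneg (Real.exp_pos _).le]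
      have e0 : (((n : ℝ)) : ℂ) ^ (-(1 + η)) = ((n : ℝ) : ℂ) ^ (-(1 + η)) := rfl
      rw [Complex.norm_cpow_eq_rpow_re_of_pos hn0]
      have e2 : (-(1 + η)).re = -(1 + η.re) := by rw [Complex.neg_re, Complex.add_re, Complex.one_re]
      rw [e2]
      have h3 : Real.exp (-((n : ℝ) * X)) ≤ 1 := Real.exp_le_one_iff.2 (by
        have := mul_pos hn0 hX
        linarith)
      calc (n : ℝ) ^ (-(1 + η.re)) * Real.exp (-((n : ℝ) * X)) ≤ (n : ℝ) ^ (-(1 + η.re)) * 1 :=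
            mul_le_mul_of_nonneg_left h3 (by positivity)
        _ = (n : ℝ) ^ (-(1 + η.re)) := mul_one _
        _ ≤ (n : ℝ) ^ (-(7/8) : ℝ) := Real.rpow_le_rpow_of_exponent_le hn1 (by linarith))
    (g := fun t => t ^ (-(9/8) : ℝ))
    (by
      refine Asymptotics.IsBigO.of_bound ((‖1 + η‖ + X ^ (3/4 : ℝ)) * C₀) ?_
      filter_upwards [eventually_gt_atTop (1 : ℝ)] with t ht
      have ht0 : 0 < t := by linarith
      rw [hcs, hderiv t ht0, norm_mul, Real.norm_of_nonneg (by positivity)]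
      calc ‖XB4_G η X t‖ * ‖∑ k ∈ Finset.Icc 1 ⌊t⌋₊, f (k : ZMod N)‖ ≤
            ((‖1 + η‖ + X ^ (3/4 : ℝ)) * t ^ (-(9/8) : ℝ)) * C₀ :=
            mul_le_mul (XB4_Gle ht hX hη) (XB2_sum_le f hf _) (norm_nonneg _) (by positivity)
        _ = _ := by ring)
    ⟨Set.Ioi 1, Ioi_mem_atTop 1, integrableOn_Ioi_rpow_of_lt (by norm_num) one_pos⟩
  have hsummable : Summable fun n : ℕ => f ((n + 1 : ℕ) : ZMod N) * ((n : ℂ) + 1) ^ (-(1 + η)) *
      (Real.exp (-(((n : ℝ) + 1) * X)) : ℂ) := by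
    have h1 : Summable fun n : ℕ => C₀ * Real.exp (-X) ^ n :=
      (summable_geometric_of_lt_one (Real.exp_pos _).le
        (by rw [← Real.exp_zero]; exact Real.exp_lt_exp.2 (by linarith))).mul_left _
    refine Summable.of_norm_bounded h1 fun n => ?_
    have hn0 : (0 : ℝ) < (n : ℝ) + 1 := by positivity
    have hn1 : (1 : ℝ) ≤ (n : ℝ) + 1 := by
      have : (0 : ℝ) ≤ n := Nat.cast_nonneg n
      linarith
    rw [norm_mul, norm_mul, Complex.norm_real, Real.norm_of_nonneg (Real.exp_pos _).le]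
    have e1 : ((n : ℂ) + 1) = (((n : ℝ) + 1 : ℝ) : ℂ) := by push_cast; ring
    rw [e1, Complex.norm_cpow_eq_rpow_re_of_pos hn0]
    have e2 : (-(1 + η)).re = -(1 + η.re) := by rw [Complex.neg_re, Complex.add_re, Complex.one_re]
    rw [e2]
    have h2 : ((n : ℝ) + 1) ^ (-(1 + η.re)) ≤ 1 :=
      Real.rpow_le_one_of_one_le_of_nonpos hn1 (by linarith)
    have h3 : Real.exp (-(((n : ℝ) + 1) * X)) ≤ Real.exp (-X) ^ n := by
      rw [← Real.exp_nat_mul]
      apply Real.exp_le_exp.2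
      nlinarith
    calc ‖f ((n + 1 : ℕ) : ZMod N)‖ * ((n : ℝ) + 1) ^ (-(1 + η.re)) *
          Real.exp (-(((n : ℝ) + 1) * X)) ≤ C₀ * 1 * Real.exp (-X) ^ n := by
          refine mul_le_mul (mul_le_mul (hfa _) h2 (by positivity) hC₀0.le) h3 (Real.exp_pos _).le
            (by linarith)
      _ = C₀ * Real.exp (-X) ^ n := by ring
  have hlim := hsummable.hasSum.tendsto_sum_nat
  have hlim2 : Tendsto (fun n : ℕ => ∑ k ∈ Finset.Icc 0 n, XB4_g η X k * c k) atTop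
      (𝓝 (∑' n : ℕ, f ((n + 1 : ℕ) : ZMod N) * ((n : ℂ) + 1) ^ (-(1 + η)) *
      (Real.exp (-(((n : ℝ) + 1) * X)) : ℂ))) := by
    simp_rw [hgs]
    exact hlim
  have huniq := tendsto_nhds_unique hlim2 hmain
  rw [huniq, zero_sub]
  congr 1
  refine setIntegral_congr_fun measurableSet_Ioi fun t ht => ?_
  change deriv (XB4_g η X) t * ∑ k ∈ Finset.Icc 0 ⌊t⌋₊, c k = _
  rw [hcs, hderiv t (one_pos.trans (Set.mem_Ioi.1 ht))]

/-- Laplace transform, mean value zero. -/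
theorem lap_mean (f : ZMod N → ℂ) (hf : ∑ a, f a = 0) (V : ℝ) (hV : 0 ≤ V) : ∃ C : ℝ, 0 < C ∧
    ∀ η : ℂ, |η.re| ≤ 1/8 → |η.im| ≤ V → ∀ X : ℝ, 0 < X →
    ‖∑' n : ℕ, f ((n + 1 : ℕ) : ZMod N) * ((n : ℂ) + 1) ^ (-(1 + η)) * (Real.exp (-(((n : ℝ) + 1) * X)) : ℂ) -
      ZMod.LFunction f (1 + η)‖ ≤ C * X ^ (3/4 : ℝ) := by
  set C₀ : ℝ := 1 + ∑ a, ‖f a‖ with hC₀
  have hC₀0 : 0 < C₀ := by
    have : (0 : ℝ) ≤ ∑ a, ‖f a‖ := Finset.sum_nonneg fun _ _ => norm_nonneg _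
    rw [hC₀]; linarith
  refine ⟨8 * C₀ * (3 + V), by positivity, ?_⟩
  intro η hη1 hη2 X hX
  have hη' := abs_le.1 hη1
  have hre : 0 < (1 + η).re := by simp; linarith
  set S : ℝ → ℂ := fun t => ∑ k ∈ Finset.Icc 1 ⌊t⌋₊, f (k : ZMod N) with hS
  have hSm : Measurable S := (measurable_from_nat
    (f := fun n : ℕ => ∑ k ∈ Finset.Icc 1 n, f (k : ZMod N))).comp Nat.measurable_floor
  have hSle : ∀ t, ‖S t‖ ≤ C₀ := fun t => XB2_sum_le f hf _
  have hsub : Set.Ioi (1 : ℝ) ⊆ Set.Ioi 0 := fun t ht => Set.mem_Ioi.2 (lt_trans one_pos (Set.mem_Ioi.1 ht))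
  have hI : IntegrableOn (fun t : ℝ => t ^ (-(9/8) : ℝ)) (Set.Ioi 1) :=
    integrableOn_Ioi_rpow_of_lt (by norm_num) one_pos
  have hint1 : IntegrableOn (fun t => XB4_G η X t * S t) (Set.Ioi 1) := by
    refine Integrable.mono' (hI.const_mul ((‖1 + η‖ + X ^ (3/4 : ℝ)) * C₀)) ?_ ?_
    · exact (((XB4_cont η X).mono hsub).aestronglyMeasurable measurableSet_Ioi).mul
        hSm.aestronglyMeasurable
    · refine (ae_restrict_iff' measurableSet_Ioi).2 (Filter.Eventually.of_forall ?_)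
      intro t ht
      have ht0 : 0 < t := hsub ht
      rw [norm_mul]
      calc ‖XB4_G η X t‖ * ‖S t‖ ≤ ((‖1 + η‖ + X ^ (3/4 : ℝ)) * t ^ (-(9/8) : ℝ)) * C₀ :=
            mul_le_mul (XB4_Gle ht hX hη1) (hSle t) (norm_nonneg _) (by positivity)
        _ = _ := by ring
  have hcc : ContinuousOn (fun t : ℝ => (t : ℂ) ^ (-((1 + η) + 1))) (Set.Ioi 1) := by
    intro t ht
    refine (ContinuousAt.cpow (by fun_prop) (by fun_prop) ?_).continuousWithinAt
    exact Complex.ofReal_mem_slitPlane.2 (hsub ht)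
  have hint2 : IntegrableOn (fun t : ℝ => S t * (t : ℂ) ^ (-((1 + η) + 1))) (Set.Ioi 1) := by
    refine Integrable.mono' (hI.const_mul C₀) ?_ ?_
    · exact hSm.aestronglyMeasurable.mul (hcc.aestronglyMeasurable measurableSet_Ioi)
    · refine (ae_restrict_iff' measurableSet_Ioi).2 (Filter.Eventually.of_forall ?_)
      intro t ht
      have ht0 : 0 < t := hsub ht
      rw [norm_mul, Complex.norm_cpow_eq_rpow_re_of_pos ht0]
      have e1 : (-((1 + η) + 1)).re = -((1 + η.re) + 1) := by simp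
      rw [e1]
      refine mul_le_mul (hSle t) ?_ (by positivity) hC₀0.le
      exact Real.rpow_le_rpow_of_exponent_le (le_of_lt ht) (by linarith)
  have hL : ZMod.LFunction f (1 + η) =
      ∫ t in Set.Ioi (1 : ℝ), (1 + η) * (S t * (t : ℂ) ^ (-((1 + η) + 1))) := by
    rw [XB2_eq f hf (1 + η) hre, XB2_mellin, integral_const_mul]
  have hint1' : IntegrableOn (fun t => -(XB4_G η X t * S t)) (Set.Ioi 1) := hint1.neg
  have hL1 : -∫ t in Set.Ioi (1 : ℝ), XB4_G η X t * ∑ k ∈ Finset.Icc 1 ⌊t⌋₊, f (k : ZMod N) =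
      ∫ t in Set.Ioi (1 : ℝ), -(XB4_G η X t * S t) := (integral_neg _).symm
  rw [XB4_sum f hf hX hη1, hL, hL1, ← integral_sub hint1' (hint2.const_mul _)]
  have hbound : ∀ t ∈ Set.Ioi (1 : ℝ), ‖-(XB4_G η X t * S t) -
      (1 + η) * (S t * (t : ℂ) ^ (-((1 + η) + 1)))‖ ≤
      (C₀ * (3 + V) * X ^ (3/4 : ℝ)) * t ^ (-(9/8) : ℝ) := by
    intro t ht
    have ht1 : 1 < t := ht
    have ht0 : 0 < t := hsub ht
    have e0 : -(XB4_G η X t * S t) - (1 + η) * (S t * (t : ℂ) ^ (-((1 + η) + 1))) =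
        S t * (-((1 + η) * (t : ℂ) ^ (-((1 + η) + 1)) * ((1 - Real.exp (-(t * X)) : ℝ) : ℂ)) +
          (t : ℂ) ^ (-(1 + η)) * ((X : ℂ) * (Real.exp (-(t * X)) : ℂ))) := by
      unfold XB4_G
      push_cast
      ring
    rw [e0, norm_mul]
    have h1 : ‖-((1 + η) * (t : ℂ) ^ (-((1 + η) + 1)) * ((1 - Real.exp (-(t * X)) : ℝ) : ℂ)) +
          (t : ℂ) ^ (-(1 + η)) * ((X : ℂ) * (Real.exp (-(t * X)) : ℂ))‖ ≤
          (3 + V) * X ^ (3/4 : ℝ) * t ^ (-(9/8) : ℝ) := by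
      refine (norm_add_le _ _).trans ?_
      have h3 : 0 ≤ 1 - Real.exp (-(t * X)) := by
        have : Real.exp (-(t * X)) ≤ 1 := Real.exp_le_one_iff.2 (by
          have := mul_pos ht0 hX
          linarith)
        linarith
      rw [norm_neg, norm_mul, norm_mul, norm_mul, norm_mul,
        Complex.norm_cpow_eq_rpow_re_of_pos ht0, Complex.norm_cpow_eq_rpow_re_of_pos ht0,
        Complex.norm_real, Complex.norm_real, Complex.norm_real, Real.norm_of_nonneg h3,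
        Real.norm_of_nonneg (Real.exp_pos _).le, Real.norm_of_nonneg hX.le]
      have e1 : (-((1 + η) + 1)).re = -((1 + η.re) + 1) := by simp
      have e2 : (-(1 + η)).re = -(1 + η.re) := by rw [Complex.neg_re, Complex.add_re, Complex.one_re]
      rw [e1, e2]
      have h4 := XB4_c (σ := η.re) ht1 hX hη1
      have h5 := XB4_d (σ := η.re) ht1 hX hη1
      have h6 : ‖1 + η‖ ≤ 2 + V := by
        have h7 := norm_add_le (1 : ℂ) η
        have h8 := Complex.norm_le_abs_re_add_abs_im η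
        rw [norm_one] at h7
        linarith
      have h9 : 0 ≤ X ^ (3/4 : ℝ) * t ^ (-(9/8) : ℝ) := by positivity
      have h10 : ‖1 + η‖ * (t ^ (-((1 + η.re) + 1)) * (1 - Real.exp (-(t * X)))) ≤
          (2 + V) * (X ^ (3/4 : ℝ) * t ^ (-(9/8) : ℝ)) :=
        mul_le_mul h6 h5 (by positivity) (by positivity)
      calc ‖1 + η‖ * t ^ (-((1 + η.re) + 1)) * (1 - Real.exp (-(t * X))) +
            t ^ (-(1 + η.re)) * (X * Real.exp (-(t * X))) ≤
            (2 + V) * (X ^ (3/4 : ℝ) * t ^ (-(9/8) : ℝ)) + X ^ (3/4 : ℝ) * t ^ (-(9/8) : ℝ) := by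
            rw [mul_assoc]
            linarith
        _ = _ := by ring
    calc ‖S t‖ * _ ≤ C₀ * ((3 + V) * X ^ (3/4 : ℝ) * t ^ (-(9/8) : ℝ)) :=
          mul_le_mul (hSle t) h1 (norm_nonneg _) hC₀0.le
      _ = _ := by ring
  have h1 := norm_integral_le_of_norm_le
    (f := fun t => -(XB4_G η X t * S t) - (1 + η) * (S t * (t : ℂ) ^ (-((1 + η) + 1))))
    (hI.const_mul (C₀ * (3 + V) * X ^ (3/4 : ℝ)))
    ((ae_restrict_iff' measurableSet_Ioi).2 (Filter.Eventually.of_forall hbound))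
  rw [integral_const_mul, integral_Ioi_rpow_of_lt (by norm_num) one_pos, Real.one_rpow] at h1
  refine h1.trans (le_of_eq ?_)
  norm_num
  ring

end LP

end F_Y_XB4
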