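import Pool.Agent.Lib.MP_0f5a55_nt.V.V02
import Pool.Agent.Lib.MP_0f5a55_nt.V.V13
import Pool.Agent.Lib.MP_0f5a55_nt.V.V30
import Pool.Agent.Lib.MP_0f5a55_nt.V.V31

section F_A17

open Complex MeasureTheory Set Filter Topology
open scoped ComplexConjugate

namespace LZ

theorem A17_fract_meas {g : ℝ → ℂ} (hg : IntegrableOn g (Ioi 1)) :
    IntegrableOn (fun x : ℝ => ((Int.fract x : ℝ) : ℂ) * g x) (Ioi 1) := by
  refine Integrable.mono hg ?_ ?_
  · exact (Complex.measurable_ofReal.comp measurable_fract).aestronglyMeasurable.mul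
      hg.aestronglyMeasurable
  · refine Eventually.of_forall fun x => ?_
    rw [norm_mul, norm_real, Real.norm_of_nonneg (Int.fract_nonneg x)]
    exact mul_le_of_le_one_left (norm_nonneg _) (Int.fract_lt_one x).le

/-- Euler summation -/
theorem A17_em {g g' : ℝ → ℂ} (hg : ∀ x : ℝ, 1 ≤ x → HasDerivAt g (g' x) x)
    (hi : IntegrableOn g (Ioi 1)) (hi' : IntegrableOn g' (Ioi 1))
    (hs : Summable (fun n : ℕ => g ((n : ℝ) + 1))) :
    ∑' n : ℕ, g ((n : ℝ) + 1) = g 1 + ∫ x in Ioi (1 : ℝ), (g x + ((Int.fract x : ℝ) : ℂ) * g' x) := by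
  have hint : IntegrableOn (fun x : ℝ => g x + ((Int.fract x : ℝ) : ℂ) * g' x) (Ioi 1) :=
    hi.add (A17_fract_meas hi')
  have hii : ∀ a b : ℝ, 1 ≤ a → a ≤ b →
      IntervalIntegrable (fun x : ℝ => g x + ((Int.fract x : ℝ) : ℂ) * g' x) volume a b := by
    intro a b ha hab
    rw [intervalIntegrable_iff_integrableOn_Ioc_of_le hab]
    exact hint.mono_set (Ioc_subset_Ioi_self.trans (Ioi_subset_Ioi ha))
  have hii' : ∀ a b : ℝ, 1 ≤ a → a ≤ b → IntervalIntegrable g' volume a b := by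
    intro a b ha hab
    rw [intervalIntegrable_iff_integrableOn_Ioc_of_le hab]
    exact hi'.mono_set (Ioc_subset_Ioi_self.trans (Ioi_subset_Ioi ha))
  have hstep : ∀ m : ℕ, ∫ x in ((m : ℝ) + 1)..((m : ℝ) + 1 + 1),
      (g x + ((Int.fract x : ℝ) : ℂ) * g' x) = g ((m : ℝ) + 1 + 1) := by
    intro m
    have hm1 : (1 : ℝ) ≤ (m : ℝ) + 1 := by
      have : (0 : ℝ) ≤ m := Nat.cast_nonneg m
      linarith
    have hder : ∀ x ∈ uIcc ((m : ℝ) + 1) ((m : ℝ) + 1 + 1),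
        HasDerivAt (fun x : ℝ => ((x - ((m : ℝ) + 1) : ℝ) : ℂ) * g x)
          (g x + ((x - ((m : ℝ) + 1) : ℝ) : ℂ) * g' x) x := by
      intro x hx
      rw [uIcc_of_le (by linarith)] at hx
      have h1 : HasDerivAt (fun x : ℝ => ((x - ((m : ℝ) + 1) : ℝ) : ℂ)) 1 x := by
        have := ((hasDerivAt_id x).sub_const ((m : ℝ) + 1)).ofReal_comp
        simpa using this
      have h2 := h1.mul (hg x (hm1.trans hx.1))
      rw [one_mul] at h2
      exact h2
    have hi2 : IntervalIntegrable (fun x : ℝ => g x + ((x - ((m : ℝ) + 1) : ℝ) : ℂ) * g' x) volume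
        ((m : ℝ) + 1) ((m : ℝ) + 1 + 1) := by
      refine IntervalIntegrable.add ?_ ?_
      · refine ContinuousOn.intervalIntegrable fun x hx => ?_
        rw [uIcc_of_le (by linarith)] at hx
        exact (hg x (hm1.trans hx.1)).continuousAt.continuousWithinAt
      · exact (hii' _ _ hm1 (by linarith)).continuousOn_mul (by fun_prop)
    have h3 := intervalIntegral.integral_eq_sub_of_hasDerivAt hder hi2
    have h4 : ∫ x in ((m : ℝ) + 1)..((m : ℝ) + 1 + 1), (g x + ((Int.fract x : ℝ) : ℂ) * g' x) =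
        ∫ x in ((m : ℝ) + 1)..((m : ℝ) + 1 + 1),
          (g x + ((x - ((m : ℝ) + 1) : ℝ) : ℂ) * g' x) := by
      rw [intervalIntegral.integral_of_le (by linarith), intervalIntegral.integral_of_le (by linarith),
        integral_Ioc_eq_integral_Ioo, integral_Ioc_eq_integral_Ioo]
      refine setIntegral_congr_fun measurableSet_Ioo fun x hx => ?_
      have hfr : Int.fract x = x - ((m : ℝ) + 1) := by
        rw [Int.fract_eq_iff]
        refine ⟨by linarith [hx.1], by linarith [hx.2], (m : ℤ) + 1, ?_⟩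
        push_cast
        ring
      simp only [hfr]
    rw [h4, h3]
    simp
  have hpart : ∀ N : ℕ, ∑ n ∈ Finset.range (N + 1), g ((n : ℝ) + 1) =
      g 1 + ∫ x in (1 : ℝ)..((N : ℝ) + 1), (g x + ((Int.fract x : ℝ) : ℂ) * g' x) := by
    intro N
    induction N with
    | zero => simp
    | succ N ih =>
      have hN : (0 : ℝ) ≤ N := Nat.cast_nonneg N
      rw [Finset.sum_range_succ, ih, add_assoc]
      congr 1
      push_cast
      rw [← hstep N, intervalIntegral.integral_add_adjacent_intervals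
        (hii _ _ le_rfl (by linarith)) (hii _ _ (by linarith) (by linarith))]
  have h1 : Tendsto (fun N : ℕ => ∑ n ∈ Finset.range (N + 1), g ((n : ℝ) + 1)) atTop
      (𝓝 (∑' n : ℕ, g ((n : ℝ) + 1))) :=
    (hs.hasSum.tendsto_sum_nat).comp (tendsto_add_atTop_nat 1)
  have h2 : Tendsto (fun N : ℕ => g 1 + ∫ x in (1 : ℝ)..((N : ℝ) + 1),
      (g x + ((Int.fract x : ℝ) : ℂ) * g' x)) atTop
      (𝓝 (g 1 + ∫ x in Ioi (1 : ℝ), (g x + ((Int.fract x : ℝ) : ℂ) * g' x))) :=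
    (intervalIntegral_tendsto_integral_Ioi 1 hint
      (tendsto_atTop_add_const_right _ _ tendsto_natCast_atTop_atTop)).const_add _
  simp only [hpart] at h1
  exact tendsto_nhds_unique h1 h2

theorem A17_cpow_deriv (c : ℂ) {x : ℝ} (hx : 0 < x) :
    HasDerivAt (fun x : ℝ => (x : ℂ) ^ c) (c * (x : ℂ) ^ (c - 1)) x := by
  have h2 : HasDerivAt (fun z : ℂ => z ^ c) (c * (x : ℂ) ^ (c - 1) * 1) (x : ℂ) :=
    (hasDerivAt_id (x : ℂ)).cpow_const (Or.inl (by simpa using hx))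
  rw [mul_one] at h2
  exact h2.comp_ofReal

theorem A17_exp_deriv (X x : ℝ) :
    HasDerivAt (fun x : ℝ => (Real.exp (-(x * X)) : ℂ)) (-(X : ℂ) * (Real.exp (-(x * X)) : ℂ)) x := by
  have h1 : HasDerivAt (fun x : ℝ => -(x * X)) (-(1 * X)) x :=
    ((hasDerivAt_id x).mul_const X).neg
  have h2 := (h1.exp).ofReal_comp
  convert h2 using 1
  push_cast
  ring

theorem A17_cont (c : ℂ) (X : ℝ) :
    ContinuousOn (fun x : ℝ => (x : ℂ) ^ c * (Real.exp (-(x * X)) : ℂ)) (Ioi 0) := by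
  intro x hx
  exact ((A17_cpow_deriv c hx).continuousAt.mul (A17_exp_deriv X x).continuousAt).continuousWithinAt

/-- integrability of x^c exp(-xX) over (1,oo) for Re c <= 0 -/
theorem A17_int1 {c : ℂ} (hc : c.re ≤ 0) {X : ℝ} (hX : 0 < X) :
    IntegrableOn (fun x : ℝ => (x : ℂ) ^ c * (Real.exp (-(x * X)) : ℂ)) (Ioi 1) := by
  have h1 : IntegrableOn (fun x : ℝ => Real.exp (-X * x)) (Ioi 1) :=
    integrableOn_exp_mul_Ioi (by linarith) 1
  refine Integrable.mono' h1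
    (((A17_cont c X).mono (Ioi_subset_Ioi zero_le_one)).aestronglyMeasurable measurableSet_Ioi) ?_
  filter_upwards [ae_restrict_mem measurableSet_Ioi] with x hx
  have hx1 : 1 ≤ x := le_of_lt hx
  rw [norm_mul, norm_cpow_eq_rpow_re_of_pos (by linarith), norm_real,
    Real.norm_of_nonneg (Real.exp_pos _).le]
  have h2 : x ^ c.re ≤ 1 := Real.rpow_le_one_of_one_le_of_nonpos hx1 hc
  have h3 : -(x * X) = -X * x := by ring
  rw [h3]
  exact mul_le_of_le_one_left (Real.exp_pos _).le h2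

/-- the integral over (1,oo) of x^(-1-eta) exp(-xX) -/
theorem A17_I1 {η : ℂ} (hη : |η.re| ≤ 1/8) (h0 : η ≠ 0) {X : ℝ} (hX : 0 < X) :
    ‖(∫ x in Ioi (1 : ℝ), (x : ℂ) ^ (-(1 + η)) * (Real.exp (-(x * X)) : ℂ)) - 1 / η +
      Gamma (1 - η) / η * (X : ℂ) ^ η‖ ≤ 3 * X / ‖η‖ := by
  have hηr := abs_le.1 hη
  have hXc : (X : ℂ) ≠ 0 := by exact_mod_cast hX.ne'
  -- the integral over (0,oo)
  have hs : 0 < (1 - η).re := by
    simp only [sub_re, one_re]
    linarith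
  have hW : 0 < (X : ℂ).re := by simpa using hX
  have e0 : ∀ x : ℝ, (x : ℂ) ^ ((1 - η) - 1) * cexp (-((X : ℂ) * x)) =
      (x : ℂ) ^ (-η) * (Real.exp (-(x * X)) : ℂ) := by
    intro x
    have h1 : (1 - η) - 1 = -η := by ring
    rw [h1, ofReal_exp]
    push_cast
    ring_nf
  have hJi := LZX.exp_int_intg hs hW
  have hJ := LZX.exp_int hs hW
  simp only [e0] at hJi hJ
  have hJi0 : IntegrableOn (fun x : ℝ => (x : ℂ) ^ (-η) * (Real.exp (-(x * X)) : ℂ)) (Ioc 0 1) :=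
    hJi.mono_set Ioc_subset_Ioi_self
  have hJi1 : IntegrableOn (fun x : ℝ => (x : ℂ) ^ (-η) * (Real.exp (-(x * X)) : ℂ)) (Ioi 1) :=
    hJi.mono_set (Ioi_subset_Ioi zero_le_one)
  have hsplit : (∫ x in Ioi (0 : ℝ), (x : ℂ) ^ (-η) * (Real.exp (-(x * X)) : ℂ)) =
      (∫ x in Ioc (0 : ℝ) 1, (x : ℂ) ^ (-η) * (Real.exp (-(x * X)) : ℂ)) +
        ∫ x in Ioi (1 : ℝ), (x : ℂ) ^ (-η) * (Real.exp (-(x * X)) : ℂ) := by
    rw [← setIntegral_union Ioc_disjoint_Ioi_same measurableSet_Ioi hJi0 hJi1,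
      Ioc_union_Ioi_eq_Ioi zero_le_one]
  -- integration by parts
  have hg1 : IntegrableOn (fun x : ℝ => (x : ℂ) ^ (-(1 + η)) * (Real.exp (-(x * X)) : ℂ)) (Ioi 1) :=
    A17_int1 (by simp only [neg_re, add_re, one_re]; linarith) hX
  have hder : ∀ x ∈ Ioi (1 : ℝ), HasDerivAt (fun x : ℝ => (x : ℂ) ^ (-η) *
      (Real.exp (-(x * X)) : ℂ)) (-η * ((x : ℂ) ^ (-(1 + η)) * (Real.exp (-(x * X)) : ℂ)) +
        -(X : ℂ) * ((x : ℂ) ^ (-η) * (Real.exp (-(x * X)) : ℂ))) x := by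
    intro x hx
    have hx0 : (0 : ℝ) < x := lt_trans zero_lt_one hx
    have h1 := (A17_cpow_deriv (-η) hx0).mul (A17_exp_deriv X x)
    refine h1.congr_deriv ?_
    have h2 : -η - 1 = -(1 + η) := by ring
    rw [h2]
    ring
  have hlim : Tendsto (fun x : ℝ => (x : ℂ) ^ (-η) * (Real.exp (-(x * X)) : ℂ)) atTop (𝓝 0) := by
    rw [tendsto_zero_iff_norm_tendsto_zero]
    have h1 : Tendsto (fun x : ℝ => x ^ (1 : ℝ) * Real.exp (-X * x)) atTop (𝓝 0) :=
      tendsto_rpow_mul_exp_neg_mul_atTop_nhds_zero 1 X hX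
    refine squeeze_zero' (Eventually.of_forall fun x => norm_nonneg _) ?_ h1
    filter_upwards [eventually_ge_atTop (1 : ℝ)] with x hx
    rw [norm_mul, norm_cpow_eq_rpow_re_of_pos (by linarith), norm_real,
      Real.norm_of_nonneg (Real.exp_pos _).le]
    have h2 : x ^ (-η).re ≤ x ^ (1 : ℝ) :=
      Real.rpow_le_rpow_of_exponent_le hx (by simp only [neg_re]; linarith)
    have h3 : -(x * X) = -X * x := by ring
    rw [h3]
    gcongr
  have hparts := integral_Ioi_of_hasDerivAt_of_tendsto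
    ((A17_cont (-η) X).continuousAt (Ioi_mem_nhds zero_lt_one)).continuousWithinAt hder
    ((hg1.const_mul (-η)).add (hJi1.const_mul (-(X : ℂ)))) hlim
  rw [integral_add (hg1.const_mul (-η)) (hJi1.const_mul (-(X : ℂ))), integral_const_mul,
    integral_const_mul] at hparts
  simp only [ofReal_one, one_cpow, one_mul, zero_sub] at hparts
  have hJ0 : ‖∫ x in Ioc (0 : ℝ) 1, (x : ℂ) ^ (-η) * (Real.exp (-(x * X)) : ℂ)‖ ≤ 2 := by
    have hj : IntegrableOn (fun x : ℝ => x ^ (-(1/8) : ℝ)) (Ioc (0 : ℝ) 1) := by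
      rw [← intervalIntegrable_iff_integrableOn_Ioc_of_le zero_le_one]
      exact intervalIntegral.intervalIntegrable_rpow' (by norm_num)
    calc ‖∫ x in Ioc (0 : ℝ) 1, (x : ℂ) ^ (-η) * (Real.exp (-(x * X)) : ℂ)‖
        ≤ ∫ x in Ioc (0 : ℝ) 1, x ^ (-(1/8) : ℝ) := by
          refine norm_integral_le_of_norm_le hj ?_
          filter_upwards [ae_restrict_mem measurableSet_Ioc] with x hx
          rw [norm_mul, norm_cpow_eq_rpow_re_of_pos hx.1, norm_real,
            Real.norm_of_nonneg (Real.exp_pos _).le]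
          have h1 : Real.exp (-(x * X)) ≤ 1 := by
            rw [Real.exp_le_one_iff]
            have := mul_pos hx.1 hX
            linarith
          have h2 : x ^ (-η).re ≤ x ^ (-(1/8) : ℝ) :=
            Real.rpow_le_rpow_of_exponent_ge hx.1 hx.2 (by simp only [neg_re]; linarith)
          calc x ^ (-η).re * Real.exp (-(x * X)) ≤ x ^ (-η).re * 1 := by
                have := hx.1
                gcongr
            _ ≤ _ := by rw [mul_one]; exact h2
      _ = ∫ x in (0 : ℝ)..1, x ^ (-(1/8) : ℝ) := by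
          rw [intervalIntegral.integral_of_le zero_le_one]
      _ ≤ 2 := by
          rw [integral_rpow (Or.inl (by norm_num)), Real.one_rpow, Real.zero_rpow (by norm_num)]
          norm_num
  have hXη : (X : ℂ) * (X : ℂ) ^ (-(1 - η)) = (X : ℂ) ^ η := by
    nth_rewrite 1 [← cpow_one (X : ℂ)]
    rw [← cpow_add _ _ hXc]
    congr 1
    ring
  obtain ⟨I1, hI1⟩ : ∃ I1, I1 = ∫ x in Ioi (1 : ℝ), (x : ℂ) ^ (-(1 + η)) *
    (Real.exp (-(x * X)) : ℂ) := ⟨_, rfl⟩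
  obtain ⟨J1, hJ1⟩ : ∃ J1, J1 = ∫ x in Ioi (1 : ℝ), (x : ℂ) ^ (-η) *
    (Real.exp (-(x * X)) : ℂ) := ⟨_, rfl⟩
  obtain ⟨J0, hJ0'⟩ : ∃ J0, J0 = ∫ x in Ioc (0 : ℝ) 1, (x : ℂ) ^ (-η) *
    (Real.exp (-(x * X)) : ℂ) := ⟨_, rfl⟩
  rw [← hI1, ← hJ1] at hparts
  rw [← hJ0'] at hJ0
  rw [← hI1]
  rw [hJ, ← hJ0', ← hJ1] at hsplit
  have hfin : I1 - 1 / η + Gamma (1 - η) / η * (X : ℂ) ^ η =
      (((Real.exp (-X) : ℝ) : ℂ) - 1 + X * J0) / η := by
    have h1 : η * I1 = ((Real.exp (-X) : ℝ) : ℂ) - X * J1 := by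
      linear_combination (-1 : ℂ) * hparts
    have h2 : (X : ℂ) * J1 = (X : ℂ) ^ η * Gamma (1 - η) - X * J0 := by
      rw [← hXη]
      linear_combination (-(X : ℂ)) * hsplit
    rw [h2] at h1
    field_simp
    linear_combination h1
  rw [hfin, norm_div]
  have hη0 : 0 < ‖η‖ := norm_pos_iff.2 h0
  gcongr
  calc ‖((Real.exp (-X) : ℝ) : ℂ) - 1 + X * J0‖
      ≤ ‖((Real.exp (-X) : ℝ) : ℂ) - 1‖ + ‖X * J0‖ := norm_add_le _ _
    _ ≤ X + X * 2 := by
        refine add_le_add ?_ ?_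
        · rw [← ofReal_one, ← ofReal_sub, norm_real, Real.norm_eq_abs, abs_sub_comm,
            abs_of_nonneg]
          · have := Real.add_one_le_exp (-X)
            linarith
          · have : Real.exp (-X) ≤ 1 := by
              rw [Real.exp_le_one_iff]
              linarith
            linarith
        · rw [norm_mul, norm_real, Real.norm_of_nonneg hX.le]
          gcongr
    _ = 3 * X := by ring

/-- 1 - exp(-y) <= y^(3/4) -/
theorem A17_one_sub_exp {y : ℝ} (hy : 0 < y) : 1 - Real.exp (-y) ≤ y ^ (3/4 : ℝ) := by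
  rcases le_total y 1 with h1 | h1
  · have h2 : y ^ (1 : ℝ) ≤ y ^ (3/4 : ℝ) :=
      Real.rpow_le_rpow_of_exponent_ge hy h1 (by norm_num)
    rw [Real.rpow_one] at h2
    have := Real.add_one_le_exp (-y)
    linarith
  · have h2 : 1 ≤ y ^ (3/4 : ℝ) := Real.one_le_rpow h1 (by norm_num)
    have := Real.exp_pos (-y)
    linarith

/-- the fractional part terms -/
theorem A17_frac {η : ℂ} (hη : |η.re| ≤ 1/8) {X : ℝ} (hX : 0 < X) (hX1 : X ≤ 1) :
    ‖∫ x in Ioi (1 : ℝ), ((Int.fract x : ℝ) : ℂ) *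
      ((1 + η) * (x : ℂ) ^ (-2 - η) + (-(1 + η) * ((x : ℂ) ^ (-2 - η) * (Real.exp (-(x * X)) : ℂ)) +
        -(X : ℂ) * ((x : ℂ) ^ (-(1 + η)) * (Real.exp (-(x * X)) : ℂ))))‖ ≤
      (8 * ‖1 + η‖ + Real.Gamma (1/8)) * X ^ (3/4 : ℝ) := by
  have hηr := abs_le.1 hη
  have hg := Real.integral_rpow_mul_exp_neg_mul_Ioi (a := 1/8) (r := X) (by norm_num) hX
  have hG : 0 < Real.Gamma (1/8) := Real.Gamma_pos_of_pos (by norm_num)
  have hgi : IntegrableOn (fun x : ℝ => x ^ (1/8 - 1 : ℝ) * Real.exp (-(X * x))) (Ioi 0) := by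
    refine Integrable.of_integral_ne_zero ?_
    rw [hg]
    positivity
  have hri : IntegrableOn (fun x : ℝ => x ^ (-(9/8) : ℝ)) (Ioi 1) :=
    integrableOn_Ioi_rpow_of_lt (by norm_num) zero_lt_one
  have hbd : IntegrableOn (fun x : ℝ => (‖1 + η‖ * X ^ (3/4 : ℝ)) * x ^ (-(9/8) : ℝ) +
      X * (x ^ (1/8 - 1 : ℝ) * Real.exp (-(X * x)))) (Ioi 1) :=
    (hri.const_mul _).add ((hgi.mono_set (Ioi_subset_Ioi zero_le_one)).const_mul _)
  refine (norm_integral_le_of_norm_le hbd ?_).trans ?_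
  · filter_upwards [ae_restrict_mem measurableSet_Ioi] with x hx
    have hx1 : 1 ≤ x := le_of_lt hx
    have hx0 : 0 < x := by linarith
    have e1 : (1 + η) * (x : ℂ) ^ (-2 - η) + (-(1 + η) * ((x : ℂ) ^ (-2 - η) *
        (Real.exp (-(x * X)) : ℂ)) + -(X : ℂ) * ((x : ℂ) ^ (-(1 + η)) *
        (Real.exp (-(x * X)) : ℂ))) = (1 + η) * (x : ℂ) ^ (-2 - η) *
        ((1 - Real.exp (-(x * X)) : ℝ) : ℂ) - (X : ℂ) * ((x : ℂ) ^ (-(1 + η)) *
        (Real.exp (-(x * X)) : ℂ)) := by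
      push_cast
      ring
    rw [e1, norm_mul, norm_real, Real.norm_of_nonneg (Int.fract_nonneg x)]
    refine (mul_le_of_le_one_left (norm_nonneg _) (Int.fract_lt_one x).le).trans ?_
    refine (norm_sub_le _ _).trans (add_le_add ?_ ?_)
    · have hpos : 0 ≤ 1 - Real.exp (-(x * X)) := by
        have : Real.exp (-(x * X)) ≤ 1 := by
          rw [Real.exp_le_one_iff]
          have := mul_pos hx0 hX
          linarith
        linarith
      rw [norm_mul, norm_mul, norm_real, Real.norm_of_nonneg hpos,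
        norm_cpow_eq_rpow_re_of_pos hx0]
      have h2 : x ^ (-2 - η).re ≤ x ^ (-(15/8) : ℝ) :=
        Real.rpow_le_rpow_of_exponent_le hx1 (by simp; linarith)
      have h3 := A17_one_sub_exp (mul_pos hx0 hX)
      rw [Real.mul_rpow hx0.le hX.le] at h3
      have h4 : x ^ (-(15/8) : ℝ) * x ^ (3/4 : ℝ) = x ^ (-(9/8) : ℝ) := by
        rw [← Real.rpow_add hx0]
        norm_num
      calc ‖1 + η‖ * x ^ (-2 - η).re * (1 - Real.exp (-(x * X)))
          ≤ ‖1 + η‖ * x ^ (-(15/8) : ℝ) * (x ^ (3/4 : ℝ) * X ^ (3/4 : ℝ)) := by gcongr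
        _ = (‖1 + η‖ * X ^ (3/4 : ℝ)) * (x ^ (-(15/8) : ℝ) * x ^ (3/4 : ℝ)) := by ring
        _ = _ := by rw [h4]
    · rw [norm_mul, norm_mul, norm_real, Real.norm_of_nonneg hX.le, norm_real,
        Real.norm_of_nonneg (Real.exp_pos _).le, norm_cpow_eq_rpow_re_of_pos hx0]
      have h2 : x ^ (-(1 + η)).re ≤ x ^ (1/8 - 1 : ℝ) :=
        Real.rpow_le_rpow_of_exponent_le hx1 (by simp; linarith)
      rw [mul_comm x X]
      gcongr
  · rw [integral_add (hri.const_mul _) ((hgi.mono_set (Ioi_subset_Ioi zero_le_one)).const_mul _),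
      integral_const_mul, integral_const_mul, integral_Ioi_rpow_of_lt (by norm_num) zero_lt_one]
    have h1 : ∫ x in Ioi (1 : ℝ), x ^ (1/8 - 1 : ℝ) * Real.exp (-(X * x)) ≤
        (1 / X) ^ (1/8 : ℝ) * Real.Gamma (1/8) := by
      rw [← hg]
      refine setIntegral_mono_set hgi ?_ (Eventually.of_forall (Ioi_subset_Ioi zero_le_one))
      filter_upwards [ae_restrict_mem measurableSet_Ioi] with x hx
      have hx : 0 < x := hx
      simp only [Pi.zero_apply]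
      positivity
    have h2 : X * (1 / X) ^ (1/8 : ℝ) ≤ X ^ (3/4 : ℝ) := by
      rw [one_div, Real.inv_rpow hX.le, ← Real.rpow_neg hX.le]
      nth_rewrite 1 [← Real.rpow_one X]
      rw [← Real.rpow_add hX]
      exact Real.rpow_le_rpow_of_exponent_ge hX hX1 (by norm_num)
    have h3 : -(1 : ℝ) ^ (-(9/8) + 1 : ℝ) / (-(9/8) + 1) = 8 := by
      rw [Real.one_rpow]
      norm_num
    rw [h3]
    calc ‖1 + η‖ * X ^ (3/4 : ℝ) * 8 + X * ∫ x in Ioi (1 : ℝ), x ^ (1/8 - 1 : ℝ) *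
          Real.exp (-(X * x))
        ≤ ‖1 + η‖ * X ^ (3/4 : ℝ) * 8 + X * ((1 / X) ^ (1/8 : ℝ) * Real.Gamma (1/8)) := by
          gcongr
      _ = ‖1 + η‖ * X ^ (3/4 : ℝ) * 8 + (X * (1 / X) ^ (1/8 : ℝ)) * Real.Gamma (1/8) := by ring
      _ ≤ ‖1 + η‖ * X ^ (3/4 : ℝ) * 8 + X ^ (3/4 : ℝ) * Real.Gamma (1/8) := by gcongr
      _ = _ := by ring

theorem A17_term {η : ℂ} (hη : |η.re| ≤ 1/8) {X : ℝ} (n : ℕ) :
    ‖((n : ℂ) + 1) ^ (-(1 + η)) * (Real.exp (-(((n : ℝ) + 1) * X)) : ℂ)‖ ≤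
      Real.exp (-(((n : ℝ) + 1) * X)) := by
  have hn : (0 : ℝ) ≤ n := Nat.cast_nonneg n
  have e : ((n : ℂ) + 1) = (((n : ℝ) + 1 : ℝ) : ℂ) := by push_cast; ring
  rw [norm_mul, norm_real, Real.norm_of_nonneg (Real.exp_pos _).le, e,
    norm_cpow_eq_rpow_re_of_pos (by linarith)]
  refine mul_le_of_le_one_left (Real.exp_pos _).le ?_
  refine Real.rpow_le_one_of_one_le_of_nonpos (by linarith) ?_
  have := abs_le.1 hη
  simp only [neg_re, add_re, one_re]
  linarith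

theorem A17_summable {η : ℂ} (hη : |η.re| ≤ 1/8) {X : ℝ} (hX : 0 < X) :
    Summable (fun n : ℕ => ((n : ℂ) + 1) ^ (-(1 + η)) * (Real.exp (-(((n : ℝ) + 1) * X)) : ℂ)) := by
  refine Summable.of_norm_bounded (g := fun n : ℕ => Real.exp (-X) * (Real.exp (-X)) ^ n)
    ((summable_geometric_of_lt_one (Real.exp_pos _).le ?_).mul_left _) ?_
  · rw [Real.exp_lt_one_iff]
    linarith
  · intro n
    refine (A17_term hη n).trans (le_of_eq ?_)
    rw [← Real.exp_nat_mul, ← Real.exp_add]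
    congr 1
    ring

/-- (3.6). Sum_{n>=1} g(n) = int_1^oo g + g(1) + int_1^oo {x} g'(x) dx with g(x) = x^(-1-eta) exp(-xX); subtract zeta_frac;
int_1^oo x^(-1-eta)exp(-xX) dx = exp(-X)/eta - (X/eta)(Gamma(1-eta)X^(eta-1) - int_0^1 x^(-eta)exp(-xX)dx).
For X >= 1 everything is bounded by C(1+1/|eta|) X^(3/4). -/
theorem lap_zeta (V : ℝ) (hV : 0 ≤ V) : ∃ C : ℝ, 0 < C ∧ ∀ η : ℂ, |η.re| ≤ 1/8 → |η.im| ≤ V → η ≠ 0 →
    ∀ X : ℝ, 0 < X →
    ‖∑' n : ℕ, ((n : ℂ) + 1) ^ (-(1 + η)) * (Real.exp (-(((n : ℝ) + 1) * X)) : ℂ) -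
      (riemannZeta (1 + η) - Gamma (1 - η) / η * (X : ℂ) ^ η)‖ ≤ C * (1 + 1 / ‖η‖) * X ^ (3/4 : ℝ) := by
  obtain ⟨C1, hC1, hz⟩ := zA_bounds V hV
  obtain ⟨C2, hC2⟩ := LZX.Gamma_decay (θ := 1) one_pos
    (by have := Real.pi_gt_three; linarith) (a := 7/8) (b := 9/8) (by norm_num)
  have hG : 0 < Real.Gamma (1/8) := Real.Gamma_pos_of_pos (by norm_num)
  refine ⟨30 + 8 * V + Real.Gamma (1/8) + C1 + |C2|, by positivity, ?_⟩
  intro η hη1 hη2 h0 X hX
  have hηr := abs_le.1 hη1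
  have hη0 : 0 < ‖η‖ := norm_pos_iff.2 h0
  have hinv : 0 < 1 / ‖η‖ := by positivity
  obtain ⟨q, hq⟩ : ∃ q : ℝ, q = 1 / ‖η‖ := ⟨_, rfl⟩
  have hq0 : 0 < q := hq ▸ hinv
  have hX34 : 0 < X ^ (3/4 : ℝ) := by positivity
  rcases le_total X 1 with hX1 | hX1
  · -- small X
    have hterm : ∀ n : ℕ, ((n : ℂ) + 1) ^ (-(1 + η)) * (Real.exp (-(((n : ℝ) + 1) * X)) : ℂ) =
        (fun x : ℝ => (x : ℂ) ^ (-(1 + η)) * (Real.exp (-(x * X)) : ℂ)) ((n : ℝ) + 1) := by
      intro n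
      simp only
      push_cast
      ring_nf
    have hS := A17_summable hη1 hX
    simp only [hterm] at hS
    have i1 : IntegrableOn (fun x : ℝ => (x : ℂ) ^ (-(1 + η)) * (Real.exp (-(x * X)) : ℂ))
        (Ioi 1) := A17_int1 (by simp only [neg_re, add_re, one_re]; linarith) hX
    have i2 : IntegrableOn (fun x : ℝ => (x : ℂ) ^ (-2 - η) * (Real.exp (-(x * X)) : ℂ))
        (Ioi 1) := A17_int1 (by simp; linarith) hX
    have i3 : IntegrableOn (fun x : ℝ => -(1 + η) * ((x : ℂ) ^ (-2 - η) *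
        (Real.exp (-(x * X)) : ℂ)) + -(X : ℂ) * ((x : ℂ) ^ (-(1 + η)) *
        (Real.exp (-(x * X)) : ℂ))) (Ioi 1) := (i2.const_mul _).add (i1.const_mul _)
    have hem := A17_em (g := fun x : ℝ => (x : ℂ) ^ (-(1 + η)) * (Real.exp (-(x * X)) : ℂ))
      (g' := fun x : ℝ => -(1 + η) * ((x : ℂ) ^ (-2 - η) *
        (Real.exp (-(x * X)) : ℂ)) + -(X : ℂ) * ((x : ℂ) ^ (-(1 + η)) *
        (Real.exp (-(x * X)) : ℂ))) (fun x hx => by
          have hx0 : (0 : ℝ) < x := by linarith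
          have h1 := (A17_cpow_deriv (-(1 + η)) hx0).mul (A17_exp_deriv X x)
          refine h1.congr_deriv ?_
          have h2 : -(1 + η) - 1 = -2 - η := by ring
          rw [h2]
          ring) i1 i3 hS
    simp only [hterm]
    rw [hem]
    have i4 : IntegrableOn (fun x : ℝ => (x : ℂ) ^ (-2 - η)) (Ioi 1) := by
      refine integrableOn_Ioi_cpow_of_lt ?_ zero_lt_one
      simp
      linarith
    have i4' := A17_fract_meas i4
    have i3' := A17_fract_meas i3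
    have hzf := zeta_frac η (by linarith) h0
    have hI1 := A17_I1 hη1 h0 hX
    have hfr := A17_frac hη1 hX hX1
    have hcomb : ∫ x in Ioi (1 : ℝ), ((Int.fract x : ℝ) : ℂ) *
      ((1 + η) * (x : ℂ) ^ (-2 - η) + (-(1 + η) * ((x : ℂ) ^ (-2 - η) *
        (Real.exp (-(x * X)) : ℂ)) +
        -(X : ℂ) * ((x : ℂ) ^ (-(1 + η)) * (Real.exp (-(x * X)) : ℂ)))) =
        (1 + η) * (∫ x in Ioi (1 : ℝ), ((Int.fract x : ℝ) : ℂ) * (x : ℂ) ^ (-2 - η)) +
        ∫ x in Ioi (1 : ℝ), ((Int.fract x : ℝ) : ℂ) * (-(1 + η) * ((x : ℂ) ^ (-2 - η) *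
        (Real.exp (-(x * X)) : ℂ)) +
        -(X : ℂ) * ((x : ℂ) ^ (-(1 + η)) * (Real.exp (-(x * X)) : ℂ))) := by
      rw [← integral_const_mul, ← integral_add (i4'.const_mul _) i3']
      refine integral_congr_ae (Eventually.of_forall fun x => ?_)
      simp only
      ring
    rw [integral_add i1 i3']
    rw [hcomb] at hfr
    rw [hzf]
    simp only [ofReal_one, one_cpow, one_mul]
    have hX34' : X ≤ X ^ (3/4 : ℝ) := by
      have := Real.rpow_le_rpow_of_exponent_ge hX hX1 (by norm_num : (3/4 : ℝ) ≤ 1)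
      rwa [Real.rpow_one] at this
    have he1 : ‖((Real.exp (-X) : ℝ) : ℂ) - 1‖ ≤ X := by
      rw [← ofReal_one, ← ofReal_sub, norm_real, Real.norm_eq_abs, abs_sub_comm, abs_of_nonneg]
      · have := Real.add_one_le_exp (-X)
        linarith
      · have : Real.exp (-X) ≤ 1 := by
          rw [Real.exp_le_one_iff]
          linarith
        linarith
    have hn1 : ‖1 + η‖ ≤ 2 + V := by
      calc ‖1 + η‖ ≤ ‖(1 : ℂ)‖ + ‖η‖ := norm_add_le _ _
        _ ≤ 1 + (1 / 8 + V) := by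
            rw [norm_one]
            have := (Complex.norm_le_abs_re_add_abs_im η).trans (add_le_add hη1 hη2)
            linarith
        _ ≤ 2 + V := by linarith
    obtain ⟨a1, ha1⟩ : ∃ a1, a1 = ∫ x in Ioi (1 : ℝ), (x : ℂ) ^ (-(1 + η)) *
      (Real.exp (-(x * X)) : ℂ) := ⟨_, rfl⟩
    obtain ⟨a2, ha2⟩ : ∃ a2, a2 = ∫ x in Ioi (1 : ℝ), ((Int.fract x : ℝ) : ℂ) *
      (-(1 + η) * ((x : ℂ) ^ (-2 - η) * (Real.exp (-(x * X)) : ℂ)) +
        -(X : ℂ) * ((x : ℂ) ^ (-(1 + η)) * (Real.exp (-(x * X)) : ℂ))) := ⟨_, rfl⟩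
    obtain ⟨a3, ha3⟩ : ∃ a3, a3 = ∫ x in Ioi (1 : ℝ), ((Int.fract x : ℝ) : ℂ) *
      (x : ℂ) ^ (-2 - η) := ⟨_, rfl⟩
    rw [← ha1] at hI1
    rw [← ha2, ← ha3] at hfr
    rw [← ha1, ← ha2, ← ha3]
    have hdec : ((Real.exp (-X) : ℝ) : ℂ) + (a1 + a2) - (1 / η + 1 - (1 + η) * a3 -
        Gamma (1 - η) / η * (X : ℂ) ^ η) = (((Real.exp (-X) : ℝ) : ℂ) - 1) +
        (a1 - 1 / η + Gamma (1 - η) / η * (X : ℂ) ^ η) + ((1 + η) * a3 + a2) := by ring
    rw [hdec]
    calc ‖(((Real.exp (-X) : ℝ) : ℂ) - 1) +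
        (a1 - 1 / η + Gamma (1 - η) / η * (X : ℂ) ^ η) + ((1 + η) * a3 + a2)‖
        ≤ X + 3 * X / ‖η‖ + (8 * ‖1 + η‖ + Real.Gamma (1/8)) * X ^ (3/4 : ℝ) :=
          (norm_add_le _ _).trans (add_le_add ((norm_add_le _ _).trans (add_le_add he1 hI1)) hfr)
      _ ≤ X ^ (3/4 : ℝ) + 3 * X ^ (3/4 : ℝ) * q +
          (8 * (2 + V) + Real.Gamma (1/8)) * X ^ (3/4 : ℝ) := by
          have : 3 * X / ‖η‖ = 3 * X * q := by rw [hq]; ring
          rw [this]
          gcongr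
      _ = (1 + 3 * q + 8 * (2 + V) + Real.Gamma (1/8)) * X ^ (3/4 : ℝ) := by ring
      _ ≤ _ := by
          rw [← hq]
          refine mul_le_mul_of_nonneg_right ?_ hX34.le
          have e1 : 0 ≤ (8 * V) * q := by positivity
          have e2 : 0 ≤ Real.Gamma (1/8) * q := by positivity
          have e3 : 0 ≤ C1 * (1 + q) := by positivity
          have e4 : 0 ≤ |C2| * (1 + q) := by positivity
          linarith
  · -- large X
    have hX34' : 1 ≤ X ^ (3/4 : ℝ) := Real.one_le_rpow hX1 (by norm_num)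
    have hS : ‖∑' n : ℕ, ((n : ℂ) + 1) ^ (-(1 + η)) *
        (Real.exp (-(((n : ℝ) + 1) * X)) : ℂ)‖ ≤ 2 := by
      refine tsum_of_norm_bounded hasSum_geometric_two fun n => (A17_term hη1 n).trans ?_
      have hn : (0 : ℝ) ≤ n := Nat.cast_nonneg n
      have h1 : Real.exp (-(((n : ℝ) + 1) * X)) ≤ Real.exp (n * (-1)) := by
        refine Real.exp_le_exp.2 ?_
        have h0 : (n : ℝ) * 1 ≤ ((n : ℝ) + 1) * X :=
          mul_le_mul (by linarith) hX1 zero_le_one (by linarith)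
        linarith
      refine h1.trans ?_
      rw [Real.exp_nat_mul]
      refine pow_le_pow_left₀ (Real.exp_pos _).le ?_ n
      rw [Real.exp_neg, inv_eq_one_div]
      have := Real.add_one_le_exp (1 : ℝ)
      exact one_div_le_one_div_of_le (by norm_num) (by linarith)
    have hz1 := (hz η hη1 hη2 h0).1
    have hg2 : ‖Gamma (1 - η)‖ ≤ |C2| := by
      have h1 := hC2 (1 - η) (by simp only [sub_re, one_re]; linarith)
        (by simp only [sub_re, one_re]; linarith)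
      have h2 : Real.exp (-(1 * |(1 - η).im|)) ≤ 1 := by
        rw [Real.exp_le_one_iff]
        have := abs_nonneg (1 - η).im
        linarith
      calc ‖Gamma (1 - η)‖ ≤ C2 * Real.exp (-(1 * |(1 - η).im|)) := h1
        _ ≤ |C2| * Real.exp (-(1 * |(1 - η).im|)) := by
            gcongr
            exact le_abs_self _
        _ ≤ |C2| * 1 := by gcongr
        _ = |C2| := mul_one _
    have hXη : ‖(X : ℂ) ^ η‖ ≤ X ^ (3/4 : ℝ) := by
      rw [norm_cpow_eq_rpow_re_of_pos hX]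
      exact Real.rpow_le_rpow_of_exponent_le hX1 (by linarith)
    calc ‖(∑' n : ℕ, ((n : ℂ) + 1) ^ (-(1 + η)) * (Real.exp (-(((n : ℝ) + 1) * X)) : ℂ)) -
          (riemannZeta (1 + η) - Gamma (1 - η) / η * (X : ℂ) ^ η)‖
        ≤ 2 + (C1 * (1 + q) + |C2| * q * X ^ (3/4 : ℝ)) := by
          refine (norm_sub_le _ _).trans (add_le_add hS ((norm_sub_le _ _).trans
            (add_le_add (by rw [hq]; exact hz1) ?_)))
          rw [norm_mul, norm_div, div_eq_mul_one_div, ← hq]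
          gcongr
      _ ≤ 2 * X ^ (3/4 : ℝ) + (C1 * (1 + q) * X ^ (3/4 : ℝ) + |C2| * q * X ^ (3/4 : ℝ)) := by
          have e1 : C1 * (1 + q) ≤ C1 * (1 + q) * X ^ (3/4 : ℝ) :=
            le_mul_of_one_le_right (by positivity) hX34'
          linarith
      _ = (2 + C1 * (1 + q) + |C2| * q) * X ^ (3/4 : ℝ) := by ring
      _ ≤ _ := by
          rw [← hq]
          refine mul_le_mul_of_nonneg_right ?_ hX34.le
          have e1 : 0 ≤ (8 * V) * (1 + q) := by positivity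
          have e2 : 0 ≤ Real.Gamma (1/8) * (1 + q) := by positivity
          have e3 : 0 ≤ |C2| := abs_nonneg _
          linarith

end LZ

end F_A17
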