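import Pool.Agent.Lib.MP_0f5a55_nt.V.V12
import Pool.Agent.Lib.MP_0f5a55_nt.V.V27
import Pool.Agent.Lib.MP_0f5a55_nt.V.V28
import Pool.Agent.Lib.MP_0f5a55_nt.V.V29
import Pool.Agent.Lib.MP_0f5a55_nt.V.V32
import Pool.Agent.Lib.MP_0f5a55_nt.V.V33

section F_Y_XB5

open Complex MeasureTheory Set Filter Topology
open scoped ComplexConjugate

namespace LP

open LZ (kk nS cf EE ER PP wt Sep)

variable {N : ℕ} [NeZero N]

private theorem XB5_summable (f : ZMod N → ℂ) {η : ℂ} {X : ℝ} (hX : 0 < X) (hη : |η.re| ≤ 1/8) :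
    Summable fun n : ℕ => f ((n + 1 : ℕ) : ZMod N) * ((n : ℂ) + 1) ^ (-(1 + η)) *
      (Real.exp (-(((n : ℝ) + 1) * X)) : ℂ) := by
  have hη' := abs_le.1 hη
  set C₀ : ℝ := ∑ a, ‖f a‖ with hC₀
  have hC₀0 : 0 ≤ C₀ := Finset.sum_nonneg fun _ _ => norm_nonneg _
  have hfa : ∀ a, ‖f a‖ ≤ C₀ := fun a =>
    Finset.single_le_sum (f := fun a => ‖f a‖) (fun _ _ => norm_nonneg _) (Finset.mem_univ a)
  have h1 : Summable fun n : ℕ => C₀ * Real.exp (-X) ^ n :=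
    (summable_geometric_of_lt_one (Real.exp_pos _).le
      (by rw [← Real.exp_zero]; exact Real.exp_lt_exp.2 (by linarith))).mul_left _
  refine Summable.of_norm_bounded h1 fun n => ?_
  have hn0 : (0 : ℝ) < (n : ℝ) + 1 := by positivity
  have hn1 : (1 : ℝ) ≤ (n : ℝ) + 1 := by
    have : (0 : ℝ) ≤ n := Nat.cast_nonneg n
    linarith
  rw [norm_mul, norm_mul, Complex.norm_real, Real.norm_of_nonneg (Real.exp_pos _).le]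
  have e1 : ((n : ℂ) + 1) = (((n : ℝ) + 1 : ℝ) : ℂ) := by push_cast; ring
  rw [e1, Complex.norm_cpow_eq_rpow_re_of_pos hn0]
  have e2 : (-(1 + η)).re = -(1 + η.re) := by rw [Complex.neg_re, Complex.add_re, Complex.one_re]
  rw [e2]
  have h2 : ((n : ℝ) + 1) ^ (-(1 + η.re)) ≤ 1 :=
    Real.rpow_le_one_of_one_le_of_nonpos hn1 (by linarith)
  have h3 : Real.exp (-(((n : ℝ) + 1) * X)) ≤ Real.exp (-X) ^ n := by
    rw [← Real.exp_nat_mul]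
    apply Real.exp_le_exp.2
    nlinarith
  calc ‖f ((n + 1 : ℕ) : ZMod N)‖ * ((n : ℝ) + 1) ^ (-(1 + η.re)) *
        Real.exp (-(((n : ℝ) + 1) * X)) ≤ C₀ * 1 * Real.exp (-X) ^ n := by
        refine mul_le_mul (mul_le_mul (hfa _) h2 (by positivity) hC₀0) h3 (Real.exp_pos _).le
          (by linarith)
    _ = C₀ * Real.exp (-X) ^ n := by ring

/-- Laplace transform for every periodic f: f = mean + mean zero part, LZ.lap_zeta (A17), lap_mean. -/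
theorem lap_per (f : ZMod N → ℂ) (V : ℝ) (hV : 0 ≤ V) : ∃ C : ℝ, 0 < C ∧
    ∀ η : ℂ, |η.re| ≤ 1/8 → |η.im| ≤ V → η ≠ 0 → ∀ X : ℝ, 0 < X →
    ‖∑' n : ℕ, f ((n + 1 : ℕ) : ZMod N) * ((n : ℂ) + 1) ^ (-(1 + η)) * (Real.exp (-(((n : ℝ) + 1) * X)) : ℂ) -
      (ZMod.LFunction f (1 + η) - (∑ a, f a) / N * (Gamma (1 - η) / η) * (X : ℂ) ^ η)‖ ≤
      C * (1 + 1 / ‖η‖) * X ^ (3/4 : ℝ) := by
  have hN : (N : ℂ) ≠ 0 := by exact_mod_cast NeZero.ne N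
  set μ : ℂ := (∑ a, f a) / N with hμ
  set g : ZMod N → ℂ := fun a => f a - μ with hg
  have hgs : ∑ a, g a = 0 := by
    rw [hg, Finset.sum_sub_distrib, Finset.sum_const, Finset.card_univ, ZMod.card, nsmul_eq_mul,
      hμ, mul_div_cancel₀ _ hN, sub_self]
  obtain ⟨C₁, hC₁, h₁⟩ := lap_mean g hgs V hV
  obtain ⟨C₂, hC₂, h₂⟩ := LZ.lap_zeta V hV
  refine ⟨C₁ + ‖μ‖ * C₂, by positivity, ?_⟩
  intro η hη1 hη2 hη0 X hX
  obtain ⟨-, hlin, hzeta⟩ := per_basic (N := N)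
  have hne : 1 + η ≠ 1 := by
    intro h
    exact hη0 (by linear_combination h)
  have hL : ZMod.LFunction f (1 + η) = ZMod.LFunction g (1 + η) + μ * riemannZeta (1 + η) := by
    have e1 : f = fun x => 1 * g x + μ * 1 := by
      funext x
      rw [hg]
      ring
    conv_lhs => rw [e1]
    rw [hlin g (fun _ => 1) 1 μ (1 + η), hzeta _ hne, one_mul]
  have hs1 := XB5_summable g (η := η) hX hη1
  have hs2 := (XB5_summable (fun _ : ZMod N => (1 : ℂ)) (η := η) hX hη1).mul_left μ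
  have hT : ∑' n : ℕ, f ((n + 1 : ℕ) : ZMod N) * ((n : ℂ) + 1) ^ (-(1 + η)) *
      (Real.exp (-(((n : ℝ) + 1) * X)) : ℂ) =
      ∑' n : ℕ, g ((n + 1 : ℕ) : ZMod N) * ((n : ℂ) + 1) ^ (-(1 + η)) *
      (Real.exp (-(((n : ℝ) + 1) * X)) : ℂ) +
      μ * ∑' n : ℕ, ((n : ℂ) + 1) ^ (-(1 + η)) * (Real.exp (-(((n : ℝ) + 1) * X)) : ℂ) := by
    have e1 : μ * ∑' n : ℕ, ((n : ℂ) + 1) ^ (-(1 + η)) * (Real.exp (-(((n : ℝ) + 1) * X)) : ℂ) =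
        ∑' n : ℕ, μ * ((1 : ℂ) * ((n : ℂ) + 1) ^ (-(1 + η)) *
          (Real.exp (-(((n : ℝ) + 1) * X)) : ℂ)) := by
      rw [← tsum_mul_left]
      refine tsum_congr fun n => ?_
      rw [one_mul]
    rw [e1, ← hs1.tsum_add hs2]
    refine tsum_congr fun n => ?_
    rw [hg]
    ring
  rw [hT, hL]
  have hb1 := h₁ η hη1 hη2 X hX
  have hb2 := h₂ η hη1 hη2 hη0 X hX
  set A := ∑' n : ℕ, g ((n + 1 : ℕ) : ZMod N) * ((n : ℂ) + 1) ^ (-(1 + η)) *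
      (Real.exp (-(((n : ℝ) + 1) * X)) : ℂ) with hA
  set B := ∑' n : ℕ, ((n : ℂ) + 1) ^ (-(1 + η)) * (Real.exp (-(((n : ℝ) + 1) * X)) : ℂ) with hB
  have e2 : A + μ * B - (ZMod.LFunction g (1 + η) + μ * riemannZeta (1 + η) -
      μ * (Gamma (1 - η) / η) * (X : ℂ) ^ η) =
      (A - ZMod.LFunction g (1 + η)) +
        μ * (B - (riemannZeta (1 + η) - Gamma (1 - η) / η * (X : ℂ) ^ η)) := by ring
  rw [e2]
  refine (norm_add_le _ _).trans ?_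
  rw [norm_mul]
  have hX0 : 0 ≤ X ^ (3/4 : ℝ) := by positivity
  have hinv : 0 ≤ 1 / ‖η‖ := by positivity
  have h3 : C₁ * X ^ (3/4 : ℝ) ≤ C₁ * (1 + 1 / ‖η‖) * X ^ (3/4 : ℝ) := by
    refine mul_le_mul_of_nonneg_right ?_ hX0
    nlinarith
  have h4 := mul_le_mul_of_nonneg_left hb2 (norm_nonneg μ)
  calc ‖A - ZMod.LFunction g (1 + η)‖ + ‖μ‖ * _ ≤ C₁ * (1 + 1 / ‖η‖) * X ^ (3/4 : ℝ) +
        ‖μ‖ * (C₂ * (1 + 1 / ‖η‖) * X ^ (3/4 : ℝ)) := add_le_add (hb1.trans h3) h4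
    _ = _ := by ring

end LP

end F_Y_XB5

section F_Y_A20

open Complex MeasureTheory Set Filter Topology
open scoped ComplexConjugate

namespace LP

open LZ (kk nS cf EE ER PP wt Sep)

variable {N : ℕ} [NeZero N]

theorem A20_cab_lt (h k : ℕ) (hk : 1 ≤ k) (m b : ℕ) : cab N h k m b < k * N := by
  have hN : 0 < N := Nat.pos_of_ne_zero (NeZero.ne N)
  have hK : 0 < k * N := Nat.mul_pos hk hN
  have hK' : (0 : ℤ) < ((k * N : ℕ) : ℤ) := by exact_mod_cast hK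
  have h0 := Int.emod_nonneg (((m * h : ℕ) : ℤ) - ((b * k : ℕ) : ℤ)) hK'.ne'
  have h2 := Int.emod_lt_of_pos (((m * h : ℕ) : ℤ) - ((b * k : ℕ) : ℤ)) hK'
  unfold cab
  have h3 := Int.toNat_of_nonneg h0
  rw [← h3] at h2
  exact_mod_cast h2

theorem A20_mul_le {a b c d : ℝ} (ha : a ≤ 1) (hb : b ≤ 1) (hb0 : 0 ≤ b)
    (hc : 0 ≤ c) (h : c ≤ d) : a * b * c ≤ d :=
  (mul_le_of_le_one_left hc (mul_le_one₀ ha hb0 hb)).trans h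

theorem A20_re {x : ℝ} (h : |x| ≤ 1/8) : -1 - x ≤ 0 := by
  have := (abs_le.1 h).1
  linarith

theorem A20_alg1 (x S n G η K k Y y : ℂ) (hK : K ≠ 0) :
    x * (k⁻¹ / K / Y) * (S / n * (G / η) * (K * K * y)) =
      (x * S) * (n⁻¹ * (G / η) * ((K / k) * (y / Y))) := by
  linear_combination (x * S * n⁻¹ * G * η⁻¹ * k⁻¹ * Y⁻¹ * y * K) * (mul_inv_cancel₀ hK)

theorem A20_n1 (C1 C0 n E k Z : ℝ) (hC1 : 0 < C1) (hC0 : 0 < C0) (hn : 0 < n) (hE : 1 ≤ E)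
    (hk : 1 ≤ k) (hZ : 0 ≤ Z) :
    k * n * (n * (C1 * (C0 * (k * n) ^ 2) * (k * n) ^ 2 * Z)) ≤ C1 * C0 * n ^ 6 * E * k ^ 6 * Z := by
  have hk5 : k ^ 5 ≤ E * k ^ 6 := by
    have h1 : k ^ 5 ≤ k ^ 6 := pow_le_pow_right₀ hk (by norm_num)
    have h2 : 0 ≤ k ^ 6 := pow_nonneg (zero_le_one.trans hk) 6
    exact h1.trans (le_mul_of_one_le_left h2 hE)
  have h3 : 0 ≤ C1 * C0 * n ^ 6 * Z := mul_nonneg (by positivity) hZ
  have h4 := mul_le_mul_of_nonneg_left hk5 h3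
  calc k * n * (n * (C1 * (C0 * (k * n) ^ 2) * (k * n) ^ 2 * Z))
      = C1 * C0 * n ^ 6 * Z * k ^ 5 := by ring
    _ ≤ C1 * C0 * n ^ 6 * Z * (E * k ^ 6) := h4
    _ = C1 * C0 * n ^ 6 * E * k ^ 6 * Z := by ring

theorem A20_n3 (a b c D C2 E k Y w Y34 Z : ℝ) (ha : a ≤ 1) (hb : b ≤ 1)
    (hb0 : 0 ≤ b) (hc : c ≤ 1) (hc0 : 0 ≤ c) (hY : 0 < Y) (hC2 : 0 < C2) (hE : 1 ≤ E)
    (hk : 1 ≤ k) (hD : D ≤ C2 * E * w) (hD0 : 0 ≤ D) (hw : w ≤ k ^ 2 * Y34) (hZ0 : 0 ≤ Z)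
    (hZY : Y34 / Y = Z) :
    a * b * (c / Y) * D ≤ C2 * E * k ^ 6 * Z := by
  have h1 : D ≤ C2 * E * (k ^ 2 * Y34) :=
    hD.trans (mul_le_mul_of_nonneg_left hw (mul_nonneg hC2.le (zero_le_one.trans hE)))
  have h2 : a * b * (c / Y) * D ≤ D / Y := by
    have h3 : a * b * c ≤ 1 := by
      have := A20_mul_le ha hb hb0 hc0 hc
      exact this
    have h4 : a * b * (c / Y) * D = (a * b * c) * (D / Y) := by ring
    rw [h4]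
    exact mul_le_of_le_one_left (div_nonneg hD0 hY.le) h3
  have h5 : D / Y ≤ C2 * E * (k ^ 2 * Y34) / Y := div_le_div_of_nonneg_right h1 hY.le
  have h6 : C2 * E * (k ^ 2 * Y34) / Y = C2 * E * Z * k ^ 2 := by
    rw [← hZY]; ring
  have h7 : C2 * E * Z * k ^ 2 ≤ C2 * E * Z * k ^ 6 :=
    mul_le_mul_of_nonneg_left (pow_le_pow_right₀ hk (by norm_num))
      (mul_nonneg (mul_nonneg hC2.le (zero_le_one.trans hE)) hZ0)
  calc a * b * (c / Y) * D ≤ D / Y := h2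
    _ ≤ C2 * E * (k ^ 2 * Y34) / Y := h5
    _ = C2 * E * Z * k ^ 2 := h6
    _ ≤ C2 * E * Z * k ^ 6 := h7
    _ = C2 * E * k ^ 6 * Z := by ring

/-- Adapt LZ.A20: DD_split, LZ.A18 (class_sum with k replaced by kN, a in 1..kN, K = C (kN)^2 from ph_bounds), ph_int, lap_per with
X = k^2 Y and f = chi*psi (sum = Sf chi psi), ph_sum second part. -/
theorem DD_asymp (χ ψ : DirichletCharacter ℂ N) (V : ℝ) (hV : 0 ≤ V) : ∃ C : ℝ, 0 < C ∧ ∀ η : ℂ, |η.re| ≤ 1/8 →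
    |η.im| ≤ V → η ≠ 0 → ∀ h k : ℕ, 1 ≤ h → 1 ≤ k → Nat.Coprime h k → Nat.Coprime h N → Nat.Coprime k N →
    ∀ Y : ℝ, 0 < Y → Y ≤ 1 →
    ‖DD χ ψ η ((Y : ℂ) + 2 * Real.pi * I * h / (k * N)) -
      (χ (k : ZMod N) * ψ (h : ZMod N) * ((k : ℂ) ^ (-1 - η) * LX.Lf (χ * ψ) (1 + η) / Y) +
        χ⁻¹ (h : ZMod N) * ψ⁻¹ (k : ZMod N) *
          ((N : ℂ)⁻¹ * AC χ ψ η * (k : ℂ) ^ (η - 1) * (Y : ℂ) ^ (η - 1)))‖ ≤
      C * (1 + 1 / ‖η‖) * (k : ℝ) ^ 6 * Y ^ (-(1/4) : ℝ) := by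
  obtain ⟨C0, hC0, h0⟩ := ph_bounds
  obtain ⟨C1, hC1, h1⟩ := LZ.class_sum V hV
  obtain ⟨C2, hC2, h2⟩ := lap_per (fun a : ZMod N => (χ * ψ) a) V hV
  have hN : 0 < N := Nat.pos_of_ne_zero (NeZero.ne N)
  have hNR : (0 : ℝ) < N := by exact_mod_cast hN
  refine ⟨C1 * C0 * (N : ℝ) ^ 6 + C2, by positivity, ?_⟩
  intro η hη hηi hη0 h k hh hk hc hhN hkN Y hY hY1
  rw [DD_split χ ψ η hη h k hh hk hc hhN hkN Y hY]
  have hK : 0 < k * N := Nat.mul_pos hk hN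
  have hkK : k ≤ k * N := Nat.le_mul_of_pos_right k hN
  have hk0 : (k : ℂ) ≠ 0 := by
    have : k ≠ 0 := by omega
    exact_mod_cast this
  have hN0 : (N : ℂ) ≠ 0 := by exact_mod_cast hN.ne'
  have hkR : (0:ℝ) < k := by
    have : 0 < k := by omega
    exact_mod_cast this
  have hk1 : (1:ℝ) ≤ k := by exact_mod_cast hk
  have hY0 : (Y : ℂ) ≠ 0 := by exact_mod_cast hY.ne'
  set S : ℕ → ZMod N → ℂ := fun a b => ∑' j : ℕ, ((a : ℂ) + j * ((k * N : ℕ) : ℂ)) ^ (-η) *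
          ph k (k * N) (cab N h k a b.val) (((a : ℝ) + j * ((k * N : ℕ) : ℝ)) * Y) with hS
  set J : ℕ → ZMod N → ℂ := fun a b => ∫ y in Ioi (0:ℝ), (y : ℂ) ^ (-η) *
    ph k (k * N) (cab N h k a b.val) y with hJ
  set L : ℂ := ∑' n : ℕ, (χ * ψ) ((n + 1 : ℕ) : ZMod N) *
        ((n : ℂ) + 1) ^ (-(1 + η)) * (Real.exp (-(((n : ℝ) + 1) * ((k : ℝ) ^ 2 * Y))) : ℂ) with hL
  set Z : ℝ := Y ^ (-(1/4) : ℝ) with hZ
  have hZ0 : 0 ≤ Z := Real.rpow_nonneg hY.le _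
  -- the classes
  have hcl : ∀ a ∈ Finset.Icc 1 (k * N), ∀ b : ZMod N,
      ‖χ (a : ZMod N) * ψ b * (S a b - (1 / ((k * N : ℕ) : ℂ)) * (Y : ℂ) ^ (η - 1) * J a b)‖ ≤
      C1 * (C0 * ((k * N : ℕ) : ℝ) ^ 2) * ((k * N : ℕ) : ℝ) ^ 2 * Z := by
    intro a ha b
    rw [Finset.mem_Icc] at ha
    obtain ⟨φ', hd, hb, hb'⟩ := h0 k (k * N) (cab N h k a b.val) hk hkK (A20_cab_lt h k hk _ _)
    have h5 := (h1 η hη hηi (ph k (k * N) (cab N h k a b.val)) φ' (C0 * ((k * N : ℕ) : ℝ) ^ 2)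
      (by positivity) hd hb hb' (k * N) a ha.1 ha.2 Y hY hY1).2
    rw [norm_mul, norm_mul]
    have h6 : ‖χ (a : ZMod N)‖ ≤ 1 := DirichletCharacter.norm_le_one χ _
    have h7 : ‖ψ b‖ ≤ 1 := DirichletCharacter.norm_le_one ψ _
    exact A20_mul_le h6 h7 (norm_nonneg _) (norm_nonneg _) h5
  -- total main part
  have hmain := ph_int χ ψ h k hh hk hc hhN hkN η hη
  have hSf : ∑ a : ZMod N, (χ * ψ) a = Sf χ ψ := by
    unfold Sf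
    exact Finset.sum_congr rfl fun a _ => MulChar.mul_apply _ _ _
  have hsf2 := (ph_sum χ ψ h k hh hk hc hhN hkN 1 one_pos).2
  -- last part
  have hX : (0:ℝ) < (k : ℝ) ^ 2 * Y := by positivity
  have hlap := h2 η hη hηi hη0 ((k : ℝ) ^ 2 * Y) hX
  rw [hSf] at hlap
  have hpow : (((k : ℝ) ^ 2 * Y : ℝ) : ℂ) ^ η = (k : ℂ) ^ η * (k : ℂ) ^ η * (Y : ℂ) ^ η := by
    rw [ofReal_mul, mul_cpow_ofReal_nonneg (by positivity) hY.le]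
    congr 1
    have : (((k : ℝ) ^ 2 : ℝ) : ℂ) = ((k : ℝ) : ℂ) * ((k : ℝ) : ℂ) := by
      push_cast; ring
    rw [this, mul_cpow_ofReal_nonneg hkR.le hkR.le]
    simp
  have hkη : (k : ℂ) ^ η ≠ 0 := by
    rw [Ne, cpow_eq_zero_iff]
    exact fun h => hk0 h.1
  have e1 : (k : ℂ) ^ (-1 - η) = (k : ℂ)⁻¹ / (k : ℂ) ^ η := by
    rw [cpow_sub _ _ hk0, cpow_neg_one]
  have e2 : (k : ℂ) ^ (η - 1) = (k : ℂ) ^ η / k := by
    rw [cpow_sub _ _ hk0, cpow_one]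
  have e3 : (Y : ℂ) ^ (η - 1) = (Y : ℂ) ^ η / Y := by
    rw [cpow_sub _ _ hY0, cpow_one]
  have hLf : LX.Lf (χ * ψ) (1 + η) = ZMod.LFunction (fun a : ZMod N => (χ * ψ) a) (1 + η) := rfl
  rw [hLf]
  set LF : ℂ := ZMod.LFunction (fun a : ZMod N => (χ * ψ) a) (1 + η) with hLF
  have hid : (∑ a ∈ Finset.Icc 1 (k * N), ∑ b : ZMod N, χ (a : ZMod N) * ψ b * S a b) +
      χ (k : ZMod N) * ψ (h : ZMod N) * ((k : ℂ) ^ (-1 - η) / Y) * L -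
      (χ (k : ZMod N) * ψ (h : ZMod N) * ((k : ℂ) ^ (-1 - η) * LF / Y) +
        χ⁻¹ (h : ZMod N) * ψ⁻¹ (k : ZMod N) *
          ((N : ℂ)⁻¹ * AC χ ψ η * (k : ℂ) ^ (η - 1) * (Y : ℂ) ^ (η - 1))) =
      (∑ a ∈ Finset.Icc 1 (k * N), ∑ b : ZMod N,
        χ (a : ZMod N) * ψ b * (S a b - (1 / ((k * N : ℕ) : ℂ)) * (Y : ℂ) ^ (η - 1) * J a b)) +
      χ (k : ZMod N) * ψ (h : ZMod N) * ((k : ℂ) ^ (-1 - η) / Y) * (L - (LF -
        (Sf χ ψ) / N * (Gamma (1 - η) / η) * (((k : ℝ) ^ 2 * Y : ℝ) : ℂ) ^ η)) := by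
    have hsplit : (∑ a ∈ Finset.Icc 1 (k * N), ∑ b : ZMod N,
        χ (a : ZMod N) * ψ b * (S a b - (1 / ((k * N : ℕ) : ℂ)) * (Y : ℂ) ^ (η - 1) * J a b)) =
        (∑ a ∈ Finset.Icc 1 (k * N), ∑ b : ZMod N, χ (a : ZMod N) * ψ b * S a b) -
        (1 / ((k * N : ℕ) : ℂ)) * (Y : ℂ) ^ (η - 1) *
          (∑ a ∈ Finset.Icc 1 (k * N), ∑ b : ZMod N, χ (a : ZMod N) * ψ b * J a b) := by
      rw [Finset.mul_sum, ← Finset.sum_sub_distrib]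
      apply Finset.sum_congr rfl
      intro a _
      rw [Finset.mul_sum, ← Finset.sum_sub_distrib]
      apply Finset.sum_congr rfl
      intro b _
      ring
    rw [hsplit, hmain, hpow]
    unfold AC
    have hm3 : χ (k : ZMod N) * ψ (h : ZMod N) * ((k : ℂ) ^ (-1 - η) / Y) *
        ((Sf χ ψ) / N * (Gamma (1 - η) / η) * ((k : ℂ) ^ η * (k : ℂ) ^ η * (Y : ℂ) ^ η)) =
        (χ (k : ZMod N) * ψ (h : ZMod N) * Sf χ ψ) * ((N : ℂ)⁻¹ * (Gamma (1 - η) / η) *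
          ((k : ℂ) ^ (η - 1) * (Y : ℂ) ^ (η - 1))) := by
      rw [e1, e2, e3]
      exact A20_alg1 _ _ _ _ _ _ _ _ _ hkη
    have hm4 : (1 / ((k * N : ℕ) : ℂ)) * (Y : ℂ) ^ (η - 1) *
        (χ⁻¹ (h : ZMod N) * ψ⁻¹ (k : ZMod N) * (k : ℂ) ^ η * JF χ ψ η) =
        χ⁻¹ (h : ZMod N) * ψ⁻¹ (k : ZMod N) *
          ((N : ℂ)⁻¹ * JF χ ψ η * (k : ℂ) ^ (η - 1) * (Y : ℂ) ^ (η - 1)) := by
      rw [e2, Nat.cast_mul]
      ring
    rw [hm4]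
    rw [hsf2] at hm3
    linear_combination (-1) * hm3
  rw [hid]
  have hE : 1 ≤ 1 + 1 / ‖η‖ :=
    le_add_of_nonneg_right (div_nonneg zero_le_one (norm_nonneg _))
  have n1 : ‖∑ a ∈ Finset.Icc 1 (k * N), ∑ b : ZMod N,
        χ (a : ZMod N) * ψ b * (S a b - (1 / ((k * N : ℕ) : ℂ)) * (Y : ℂ) ^ (η - 1) * J a b)‖ ≤
      C1 * C0 * (N : ℝ) ^ 6 * (1 + 1 / ‖η‖) * (k : ℝ) ^ 6 * Z := by
    have hin : ∀ a ∈ Finset.Icc 1 (k * N), ‖∑ b : ZMod N,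
        χ (a : ZMod N) * ψ b * (S a b - (1 / ((k * N : ℕ) : ℂ)) * (Y : ℂ) ^ (η - 1) * J a b)‖ ≤
        (N : ℝ) * (C1 * (C0 * ((k * N : ℕ) : ℝ) ^ 2) * ((k * N : ℕ) : ℝ) ^ 2 * Z) := by
      intro a ha
      refine (norm_sum_le_of_le _ fun b _ => hcl a ha b).trans (le_of_eq ?_)
      rw [Finset.sum_const, Finset.card_univ, ZMod.card, nsmul_eq_mul]
    refine (norm_sum_le_of_le _ hin).trans ?_
    rw [Finset.sum_const, Nat.card_Icc, nsmul_eq_mul, Nat.add_sub_cancel]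
    rw [Nat.cast_mul]
    exact A20_n1 C1 C0 N _ k Z hC1 hC0 hNR hE hk1 hZ0
  have n3 : ‖χ (k : ZMod N) * ψ (h : ZMod N) * ((k : ℂ) ^ (-1 - η) / Y) * (L - (LF -
        (Sf χ ψ) / N * (Gamma (1 - η) / η) * (((k : ℝ) ^ 2 * Y : ℝ) : ℂ) ^ η))‖ ≤
      C2 * (1 + 1 / ‖η‖) * (k : ℝ) ^ 6 * Z := by
    rw [norm_mul, norm_mul, norm_mul, norm_div, norm_real, Real.norm_eq_abs, abs_of_pos hY]
    have h6 : ‖χ (k : ZMod N)‖ ≤ 1 := DirichletCharacter.norm_le_one χ _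
    have h7 : ‖ψ (h : ZMod N)‖ ≤ 1 := DirichletCharacter.norm_le_one ψ _
    have hkn : ‖(k : ℂ) ^ (-1 - η)‖ ≤ 1 := by
      have : (k : ℂ) = ((k : ℝ) : ℂ) := by simp
      rw [this, norm_cpow_eq_rpow_re_of_pos hkR]
      apply Real.rpow_le_one_of_one_le_of_nonpos hk1
      simp only [sub_re, neg_re, one_re]
      exact A20_re hη
    have hk34 : ((k : ℝ) ^ 2 * Y) ^ (3/4 : ℝ) ≤ (k : ℝ) ^ 2 * Y ^ (3/4 : ℝ) := by
      rw [Real.mul_rpow (by positivity) hY.le]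
      apply mul_le_mul_of_nonneg_right _ (Real.rpow_nonneg hY.le _)
      calc ((k : ℝ) ^ 2) ^ (3/4 : ℝ) ≤ ((k : ℝ) ^ 2) ^ (1 : ℝ) :=
            Real.rpow_le_rpow_of_exponent_le (one_le_pow₀ hk1) (by norm_num)
        _ = (k : ℝ) ^ 2 := Real.rpow_one _
    have hZY : Y ^ (3/4 : ℝ) / Y = Z := by
      rw [hZ]
      have : Y ^ (3/4 : ℝ) / Y = Y ^ (3/4 : ℝ) / Y ^ (1 : ℝ) := by rw [Real.rpow_one]
      rw [this, ← Real.rpow_sub hY]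
      norm_num
    exact A20_n3 _ _ _ _ C2 _ k Y _ _ Z h6 h7 (norm_nonneg _) hkn (norm_nonneg _)
      hY hC2 hE hk1 hlap (norm_nonneg _) hk34 hZ0 hZY
  refine (norm_add_le _ _).trans ?_
  calc _ ≤ C1 * C0 * (N : ℝ) ^ 6 * (1 + 1 / ‖η‖) * (k : ℝ) ^ 6 * Z +
        C2 * (1 + 1 / ‖η‖) * (k : ℝ) ^ 6 * Z := add_le_add n1 n3
    _ = (C1 * C0 * (N : ℝ) ^ 6 + C2) * (1 + 1 / ‖η‖) * (k : ℝ) ^ 6 * Z := by ring

end LP

end F_Y_A20
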