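import Pool.Agent.Lib.MP_0f5a55_nt.V.V18
import Pool.Agent.Lib.MP_0f5a55_nt.V.V25
import Pool.Agent.Lib.MP_0f5a55_nt.V.V26
import Pool.Agent.Lib.MP_0f5a55_nt.V.V34
import Pool.Agent.Lib.MP_0f5a55_nt.V.V40

section F_Y_A21

open Complex MeasureTheory Set Filter Topology
open scoped ComplexConjugate

namespace LP

open LZ (kk nS cf EE ER PP wt Sep)

variable {N : ℕ} [NeZero N]

theorem A21_cpow {x : ℝ} (hx : 0 < x) (a : ℂ) : (x : ℂ) ^ a = exp ((Real.log x : ℂ) * a) := by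
  rw [cpow_def_of_ne_zero (by exact_mod_cast hx.ne'), ofReal_log hx.le]

theorem A21_cpow_nat {n : ℕ} (hn : 1 ≤ n) (a : ℂ) :
    (n : ℂ) ^ a = exp ((Real.log n : ℂ) * a) := by
  have h := A21_cpow (x := (n : ℝ)) (by exact_mod_cast hn) a
  simpa using h

/-- the main terms agree -/
theorem A21_ident (χ ψ : DirichletCharacter ℂ N) {T : ℝ} (hT : 0 < T) {h k : ℕ} (hh : 1 ≤ h) (hk : 1 ≤ k)
    (hc : Nat.Coprime h k) (α β : ℂ) :
    (T : ℂ)⁻¹ * (2 * Real.pi / N * (χ (k : ZMod N) * ψ (h : ZMod N) * ((k : ℂ) ^ (-1 - (α + β)) *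
          LX.Lf (χ * ψ) (1 + (α + β)) / ((2 * Real.pi * (1 / T) * h / (k * N) : ℝ) : ℂ)) +
        χ⁻¹ (h : ZMod N) * ψ⁻¹ (k : ZMod N) *
          ((N : ℂ)⁻¹ * AC χ ψ (α + β) * (k : ℂ) ^ ((α + β) - 1) *
            ((2 * Real.pi * (1 / T) * h / (k * N) : ℝ) : ℂ) ^ ((α + β) - 1)))) =
      mainT χ ψ T α β h k * ((h : ℂ) ^ (-(1/2 - β)) * (k : ℂ) ^ (1/2 - β)) := by
  have hh0 : (0:ℝ) < h := by exact_mod_cast hh
  have hk0 : (0:ℝ) < k := by exact_mod_cast hk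
  have hN0 : (0:ℝ) < N := by exact_mod_cast Nat.pos_of_ne_zero (NeZero.ne N)
  have hpi := Real.pi_pos
  have hle : (0:ℝ) < 2 * Real.pi / (N * T) := by positivity
  have hY : (0:ℝ) < 2 * Real.pi * (1 / T) * h / (k * N) := by positivity
  have hlY : Real.log (2 * Real.pi * (1 / T) * h / (k * N)) =
      Real.log (2 * Real.pi / (N * T)) + Real.log h - Real.log k := by
    have e : 2 * Real.pi * (1 / T) * h / (k * N) = 2 * Real.pi / (N * T) * h / k := by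
      field_simp
    rw [e, Real.log_div (by positivity) hk0.ne', Real.log_mul (by positivity) hh0.ne']
  have e0 : (T : ℂ)⁻¹ * (2 * Real.pi / N) = exp (Real.log (2 * Real.pi / (N * T))) := by
    rw [← ofReal_exp, Real.exp_log hle]
    push_cast
    rw [div_eq_mul_inv, div_eq_mul_inv, mul_inv]
    ring
  have e1 : (((2 * Real.pi * (1 / T) * h / (k * N) : ℝ) : ℂ))⁻¹ =
      exp (-(Real.log (2 * Real.pi / (N * T)) + Real.log h - Real.log k : ℂ)) := by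
    rw [exp_neg]
    congr 1
    have : (Real.log (2 * Real.pi / (N * T)) + Real.log h - Real.log k : ℂ) =
        ((Real.log (2 * Real.pi / (N * T)) + Real.log h - Real.log k : ℝ) : ℂ) := by push_cast; ring
    rw [this, ← hlY, ← ofReal_exp, Real.exp_log hY]
  have e2 : ((2 * Real.pi * (1 / T) * h / (k * N) : ℝ) : ℂ) ^ ((α + β) - 1) =
      exp ((Real.log (2 * Real.pi / (N * T)) + Real.log h - Real.log k : ℂ) * ((α + β) - 1)) := by
    rw [A21_cpow hY, hlY]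
    push_cast
    ring_nf
  have e1' : ∀ z : ℂ, z / ((2 * Real.pi * (1 / T) * h / (k * N) : ℝ) : ℂ) =
      z * exp (-(Real.log (2 * Real.pi / (N * T)) + Real.log h - Real.log k : ℂ)) := fun z => by
    rw [div_eq_mul_inv z, e1]
  rw [← mul_assoc, e0, e1', e2, mainT, Nat.Coprime.gcd_eq_one hc, Nat.div_one,
    Nat.div_one]
  simp only [A21_cpow_nat hh, A21_cpow_nat hk, A21_cpow hle]
  set le : ℂ := (Real.log (2 * Real.pi / (N * T)) : ℂ)
  set lh : ℂ := (Real.log h : ℂ)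
  set lk : ℂ := (Real.log k : ℂ)
  have i1 : exp le * (exp (lk * (-1 - (α + β))) * exp (-(le + lh - lk))) =
      exp (lh * (-1/2 - β)) * exp (lk * (-1/2 - α)) *
        (exp (lh * (-(1/2 - β))) * exp (lk * (1/2 - β))) := by
    simp only [← exp_add]
    congr 1
    ring
  have i2 : exp le * (exp (lk * ((α + β) - 1)) * exp ((le + lh - lk) * ((α + β) - 1))) =
      exp (le * (α + β)) * (exp (lh * (-1/2 + α)) * exp (lk * (-1/2 + β)) *
        (exp (lh * (-(1/2 - β))) * exp (lk * (1/2 - β)))) := by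
    simp only [← exp_add]
    congr 1
    ring
  linear_combination χ (k : ZMod N) * ψ (h : ZMod N) * LX.Lf (χ * ψ) (1 + (α + β)) * i1 +
    χ⁻¹ (h : ZMod N) * ψ⁻¹ (k : ZMod N) * (N : ℂ)⁻¹ * AC χ ψ (α + β) * i2

theorem A21_main_bound (χ ψ : DirichletCharacter ℂ N) (U : ℝ) (hU : 0 ≤ U) : ∃ C : ℝ, 0 < C ∧ ∀ T : ℝ, 7 ≤ T → ∀ h k : ℕ, 1 ≤ h →
    1 ≤ k → Nat.Coprime h k → ∀ α β : ℂ, |α.re| ≤ 1/16 → |β.re| ≤ 1/16 → |α.im| ≤ U → |β.im| ≤ U →
    α + β ≠ 0 → ‖mainT χ ψ T α β h k‖ ≤ C * (1 + 1 / ‖α + β‖) * T ^ (1/8 : ℝ) := by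
  obtain ⟨C, hC, hz⟩ := AC_bounds.1 χ ψ (2 * U) (by linarith only [hU])
  refine ⟨2 * C, by positivity, fun T hT h k hh hk hc α β ha hb ha' hb' hne => ?_⟩
  have hT0 : (0:ℝ) < T := by linarith only [hT]
  have hre : |(α + β).re| ≤ 1/8 := by
    rw [add_re]
    refine (abs_add_le _ _).trans ?_
    linarith only [ha, hb]
  have him : |(α + β).im| ≤ 2 * U := by
    rw [add_im]
    refine (abs_add_le _ _).trans ?_
    linarith only [ha', hb']
  obtain ⟨h1, h2⟩ := hz (α + β) hre him hne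
  have hpow : ∀ (n : ℕ), 1 ≤ n → ∀ a : ℂ, a.re ≤ 0 → ‖(n : ℂ) ^ a‖ ≤ 1 := by
    intro n hn a ha
    rw [norm_natCast_cpow_of_pos hn]
    exact Real.rpow_le_one_of_one_le_of_nonpos (by exact_mod_cast hn) ha
  have ha2 := abs_le.mp ha
  have hb2 := abs_le.mp hb
  have hT1 : (1:ℝ) ≤ T ^ (1/8 : ℝ) := Real.one_le_rpow (by linarith only [hT]) (by norm_num)
  have hpi : Real.pi < 3.15 := Real.pi_lt_d2
  have hN1 : (1:ℝ) ≤ N := by exact_mod_cast Nat.one_le_iff_ne_zero.2 (NeZero.ne N)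
  have hN0 : (0:ℝ) < N := by linarith only [hN1]
  have hle0 : (0:ℝ) < 2 * Real.pi / (N * T) := by have := Real.pi_pos; positivity
  have hNT : T ≤ N * T := le_mul_of_one_le_left hT0.le hN1
  have hle1 : 2 * Real.pi / (N * T) ≤ 1 := by
    rw [div_le_one (by positivity)]
    linarith only [hpi, hNT, hT]
  have hle2 : ‖(N : ℂ)⁻¹ * ((2 * Real.pi / (N * T) : ℝ) : ℂ) ^ (α + β)‖ ≤ T ^ (1/8 : ℝ) := by
    rw [norm_mul, norm_cpow_eq_rpow_re_of_pos hle0, norm_inv, Complex.norm_natCast]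
    calc (N : ℝ)⁻¹ * (2 * Real.pi / (N * T)) ^ (α + β).re ≤
          (N : ℝ)⁻¹ * (2 * Real.pi / (N * T)) ^ (-(1/8) : ℝ) :=
          mul_le_mul_of_nonneg_left
            (Real.rpow_le_rpow_of_exponent_ge hle0 hle1 (abs_le.mp hre).1) (by positivity)
      _ ≤ (N : ℝ)⁻¹ * (1 / (N * T)) ^ (-(1/8) : ℝ) := by
          refine mul_le_mul_of_nonneg_left ?_ (by positivity)
          refine Real.rpow_le_rpow_of_nonpos (by positivity) ?_ (by norm_num)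
          gcongr
          linarith only [Real.pi_gt_three]
      _ = (N : ℝ)⁻¹ * (N ^ (1/8 : ℝ) * T ^ (1/8 : ℝ)) := by
          rw [one_div, Real.inv_rpow (by positivity), ← Real.rpow_neg (by positivity), neg_neg,
            Real.mul_rpow hN0.le hT0.le]
      _ ≤ (N : ℝ)⁻¹ * (N * T ^ (1/8 : ℝ)) := by
          have : (N : ℝ) ^ (1/8 : ℝ) ≤ N := by
            calc (N : ℝ) ^ (1/8 : ℝ) ≤ (N : ℝ) ^ (1 : ℝ) :=
                  Real.rpow_le_rpow_of_exponent_le hN1 (by norm_num)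
              _ = N := Real.rpow_one _
          gcongr
      _ = T ^ (1/8 : ℝ) := by
          rw [← mul_assoc, inv_mul_cancel₀ hN0.ne', one_mul]
  have hb3 : 0 ≤ 1 / ‖α + β‖ := by positivity
  rw [mainT, Nat.Coprime.gcd_eq_one hc, Nat.div_one, Nat.div_one]
  refine (norm_add_le _ _).trans ?_
  have hχ : ∀ (ρ : DirichletCharacter ℂ N) (a : ZMod N), ‖ρ a‖ ≤ 1 := fun ρ a => ρ.norm_le_one a
  have hcc : ∀ (ρ σ : DirichletCharacter ℂ N) (a b : ZMod N) (z : ℂ), ‖ρ a * σ b * z‖ ≤ ‖z‖ := by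
    intro ρ σ a b z
    rw [norm_mul, norm_mul]
    have h1 : ‖ρ a‖ * ‖σ b‖ ≤ 1 := by
      calc ‖ρ a‖ * ‖σ b‖ ≤ 1 * 1 := mul_le_mul (hχ ρ a) (hχ σ b) (norm_nonneg _) zero_le_one
        _ = 1 := one_mul 1
    exact mul_le_of_le_one_left (norm_nonneg _) h1
  refine (add_le_add (hcc _ _ _ _ _) (hcc _ _ _ _ _)).trans ?_
  rw [norm_mul, norm_mul, norm_mul, norm_mul, norm_mul]
  have p1 := hpow h hh (-1/2 - β) (by
    rw [sub_re]
    norm_num
    linarith only [hb2.1, hb2.2])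
  have p2 := hpow k hk (-1/2 - α) (by
    rw [sub_re]
    norm_num
    linarith only [ha2.1, ha2.2])
  have p3 := hpow h hh (-1/2 + α) (by
    rw [add_re]
    norm_num
    linarith only [ha2.1, ha2.2])
  have p4 := hpow k hk (-1/2 + β) (by
    rw [add_re]
    norm_num
    linarith only [hb2.1, hb2.2])
  set B : ℝ := C * (1 + 1 / ‖α + β‖) with hB
  have hB0 : 0 ≤ B := by positivity
  have q1 : ‖LX.Lf (χ * ψ) (1 + (α + β))‖ * ‖(h : ℂ) ^ (-1/2 - β)‖ * ‖(k : ℂ) ^ (-1/2 - α)‖ ≤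
      B * 1 * 1 := by gcongr
  have q2 : ‖(N : ℂ)⁻¹ * ((2 * Real.pi / (N * T) : ℝ) : ℂ) ^ (α + β)‖ * ‖AC χ ψ (α + β)‖ * ‖(h : ℂ) ^ (-1/2 + α)‖ *
      ‖(k : ℂ) ^ (-1/2 + β)‖ ≤ T ^ (1/8 : ℝ) * B * 1 * 1 := by gcongr
  have q3 : B * 1 * 1 ≤ B * T ^ (1/8 : ℝ) := by
    rw [mul_one, mul_one]
    exact le_mul_of_one_le_right hB0 hT1
  calc _ ≤ B * 1 * 1 + T ^ (1/8 : ℝ) * B * 1 * 1 := add_le_add q1 q2
    _ ≤ 2 * C * (1 + 1 / ‖α + β‖) * T ^ (1/8 : ℝ) := by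
        have : 2 * C * (1 + 1 / ‖α + β‖) * T ^ (1/8 : ℝ) = B * T ^ (1/8 : ℝ) + T ^ (1/8 : ℝ) * B := by
          rw [hB]; ring
        rw [this]
        linarith only [q3]

theorem A21_trivial (χ ψ : DirichletCharacter ℂ N) (U : ℝ) (hU : 0 ≤ U) : ∃ C : ℝ, 0 < C ∧ ∀ T : ℝ, 1 ≤ T → ∀ h k : ℕ, 1 ≤ h →
    1 ≤ k → ∀ α β : ℂ, |α.re| ≤ 1/16 → |β.re| ≤ 1/16 → |α.im| ≤ U → |β.im| ≤ U →
    ‖EE T (fun t => LX.Lf χ (1/2 + α + t * I) * LX.Lf ψ (1/2 + β - t * I) *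
        ((h : ℂ) ^ (-(t * I)) * (k : ℂ) ^ (t * I)))‖ ≤ C * T ^ 2 := by
  obtain ⟨Cχ, hCχ, hzχ⟩ := per_pol (N := N) χ
  obtain ⟨Cψ, hCψ, hzψ⟩ := per_pol (N := N) ψ
  set C : ℝ := Cχ + Cψ with hCdef
  have hC : 0 < C := by positivity
  have hzpol : ∀ ρ : DirichletCharacter ℂ N, (ρ = χ ∨ ρ = ψ) → ∀ s : ℂ, 5/16 ≤ s.re → 1/4 ≤ ‖s - 1‖ →
      ‖LX.Lf ρ s‖ ≤ C * (1 + |s.im|) := by
    intro ρ hρ s hs1 hs2
    have h0 : 0 ≤ 1 + |s.im| := by positivity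
    rcases hρ with rfl | rfl
    · refine (hzχ s hs1 hs2).trans ?_
      refine mul_le_mul_of_nonneg_right ?_ h0
      linarith only [hCdef, hCψ]
    · refine (hzψ s hs1 hs2).trans ?_
      refine mul_le_mul_of_nonneg_right ?_ h0
      linarith only [hCdef, hCχ]
  refine ⟨36 * (C * (1 + U)) ^ 2, by positivity, fun T hT h k hh hk α β ha hb ha' hb' => ?_⟩
  have hT0 : (0:ℝ) < T := by linarith only [hT]
  have ha2 := abs_le.mp ha
  have hb2 := abs_le.mp hb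
  have hzb : ∀ (ρ : DirichletCharacter ℂ N), (ρ = χ ∨ ρ = ψ) → ∀ (a : ℂ) (t : ℝ), |a.re| ≤ 1/16 → |a.im| ≤ U → 0 ≤ t →
      ∀ b : ℝ, |b| = t → ‖LX.Lf ρ (1/2 + a + b * I)‖ ≤ C * (1 + U) * (1 + t) := by
    intro ρ hρ a t h1 h2 ht b hb
    have hz := hzpol ρ hρ
    have h1' := abs_le.mp h1
    have hr : (1/2 + a + b * I).re = 1/2 + a.re := by simp
    have hi : (1/2 + a + b * I).im = a.im + b := by simp
    have hq := hz (1/2 + a + b * I) (by rw [hr]; linarith only [h1'.1]) (by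
      have := abs_re_le_norm (1/2 + a + b * I - 1)
      rw [sub_re, hr, one_re] at this
      have h3 : 1/4 ≤ |1/2 + a.re - 1| := by
        rw [abs_of_neg (by linarith only [h1'.2])]
        linarith only [h1'.2]
      linarith only [this, h3])
    refine hq.trans ?_
    rw [hi]
    have h4 : |a.im + b| ≤ U + t := (abs_add_le _ _).trans (by rw [hb]; linarith only [h2])
    have h5 : 1 + |a.im + b| ≤ (1 + U) * (1 + t) := by
      have e : (1 + U) * (1 + t) = 1 + (U + t) + U * t := by ring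
      rw [e]
      have e' : 0 ≤ U * t := mul_nonneg hU ht
      linarith only [h4, e']
    calc C * (1 + |a.im + b|) ≤ C * ((1 + U) * (1 + t)) := by gcongr
      _ = _ := by ring
  have hunit : ∀ (n : ℕ), 1 ≤ n → ∀ a : ℂ, a.re = 0 → ‖(n : ℂ) ^ a‖ = 1 := by
    intro n hn a ha
    rw [norm_natCast_cpow_of_pos hn, ha, Real.rpow_zero]
  have hint : ‖∫ t in Ioi (0:ℝ), (LX.Lf χ (1/2 + α + t * I) * LX.Lf ψ (1/2 + β - t * I) *
        ((h : ℂ) ^ (-(t * I)) * (k : ℂ) ^ (t * I))) * (Real.exp (-t / T) : ℂ)‖ ≤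
      ∫ t in Ioi (0:ℝ), (C * (1 + U)) ^ 2 * (18 * T ^ 2) * Real.exp (-(1 / (2 * T)) * t) := by
    refine norm_integral_le_of_norm_le ?_ ?_
    · exact (integrableOn_exp_mul_Ioi (by
        have : 0 < 1 / (2 * T) := by positivity
        linarith only [this]) 0).const_mul _
    · refine (ae_restrict_mem measurableSet_Ioi).mono fun t ht => ?_
      have ht0 : (0:ℝ) < t := ht
      have z1 := hzb χ (Or.inl rfl) α t ha ha' ht0.le t (abs_of_pos ht0)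
      have z2 := hzb ψ (Or.inr rfl) β t hb hb' ht0.le (-t) (by rw [abs_neg]; exact abs_of_pos ht0)
      have e2 : (1/2 + β + ((-t : ℝ) : ℂ) * I) = 1/2 + β - t * I := by push_cast; ring
      rw [e2] at z2
      have u1 := hunit h hh (-(t * I)) (by simp)
      have u2 := hunit k hk (t * I) (by simp)
      rw [norm_mul, norm_mul, norm_mul, norm_mul, u1, u2, mul_one, mul_one, Complex.norm_real,
        Real.norm_of_nonneg (Real.exp_pos _).le]
      have e3 : Real.exp (-t / T) = Real.exp (-(1 / (2 * T)) * t) * Real.exp (-(1 / (2 * T)) * t) := by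
        rw [← Real.exp_add]
        congr 1
        field_simp
        ring
      have e4 : (1 + t) ^ 2 * Real.exp (-(1 / (2 * T)) * t) ≤ 18 * T ^ 2 := by
        have h1 : Real.exp (-(1 / (2 * T)) * t) = (Real.exp (t / (2 * T)))⁻¹ := by
          rw [← Real.exp_neg]
          congr 1
          ring
        rw [h1, mul_inv_le_iff₀ (Real.exp_pos _)]
        have h2 := Real.quadratic_le_exp_of_nonneg (x := t / (2 * T)) (by positivity)
        have h3 : (1 + t) ^ 2 ≤ 2 + 2 * t ^ 2 := by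
          have e : (2 + 2 * t ^ 2) - (1 + t) ^ 2 = (1 - t) ^ 2 := by ring
          have e' : 0 ≤ (1 - t) ^ 2 := sq_nonneg _
          linarith only [e, e']
        have h4 : t ^ 2 ≤ 8 * T ^ 2 * Real.exp (t / (2 * T)) := by
          have h5 : (t / (2 * T)) ^ 2 / 2 ≤ Real.exp (t / (2 * T)) := by
            have : 0 ≤ t / (2 * T) := by positivity
            linarith only [h2, this]
          have h6 : t ^ 2 = 8 * T ^ 2 * ((t / (2 * T)) ^ 2 / 2) := by field_simp; norm_num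
          rw [h6]
          gcongr
        have h7 : 1 ≤ Real.exp (t / (2 * T)) := Real.one_le_exp (by positivity)
        have h8 : 2 ≤ 2 * T ^ 2 * Real.exp (t / (2 * T)) := by
          have h9 : 1 ≤ T ^ 2 := one_le_pow₀ hT
          have h10 : 1 ≤ T ^ 2 * Real.exp (t / (2 * T)) := one_le_mul_of_one_le_of_one_le h9 h7
          linarith only [h10]
        linarith only [h3, h4, h8]
      calc ‖LX.Lf χ (1/2 + α + t * I)‖ * ‖LX.Lf ψ (1/2 + β - t * I)‖ * Real.exp (-t / T)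
          ≤ (C * (1 + U) * (1 + t)) * (C * (1 + U) * (1 + t)) * Real.exp (-t / T) := by
            gcongr
        _ = (C * (1 + U)) ^ 2 * ((1 + t) ^ 2 * Real.exp (-(1 / (2 * T)) * t)) *
            Real.exp (-(1 / (2 * T)) * t) := by rw [e3]; ring
        _ ≤ (C * (1 + U)) ^ 2 * (18 * T ^ 2) * Real.exp (-(1 / (2 * T)) * t) := by gcongr
  rw [EE, norm_mul, norm_inv, Complex.norm_real, Real.norm_of_nonneg hT0.le]
  have hI : ∫ t in Ioi (0:ℝ), (C * (1 + U)) ^ 2 * (18 * T ^ 2) * Real.exp (-(1 / (2 * T)) * t) =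
      (C * (1 + U)) ^ 2 * (18 * T ^ 2) * (2 * T) := by
    rw [integral_const_mul, integral_exp_mul_Ioi (by
        have : 0 < 1 / (2 * T) := by positivity
        linarith only [this])]
    congr 1
    rw [mul_zero, Real.exp_zero]
    field_simp
  rw [hI] at hint
  calc T⁻¹ * _ ≤ T⁻¹ * ((C * (1 + U)) ^ 2 * (18 * T ^ 2) * (2 * T)) := by gcongr
    _ = 36 * (C * (1 + U)) ^ 2 * T ^ 2 := by field_simp; ring

private theorem A21_b1 {C1 C2 C3 X M S E h k : ℝ} (hC1 : 0 ≤ C1) (hC2 : 0 ≤ C2) (hC3 : 0 ≤ C3)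
    (hX1 : 1 ≤ X) (hM1 : 1 ≤ M) (hS0 : 0 ≤ S) (hE : 0 ≤ E) (hh0 : 0 ≤ h) (hk0 : 0 ≤ k)
    (hhM : h ≤ M) (hkM : k ≤ M) :
    ((C1 * M ^ 2 + 7 * C2 * M ^ 4 + 7 * C3 * X * k ^ 7) * S) * (h * E) ≤
      E * (C1 + 7 * C2 + 7 * C3) * (X * (M ^ 8 * S)) := by
  have hX0 : 0 ≤ X := zero_le_one.trans hX1
  have hM0 : 0 ≤ M := zero_le_one.trans hM1
  have hpw : ∀ n : ℕ, n ≤ 8 → M ^ n ≤ M ^ 8 := fun n hn => pow_le_pow_right₀ hM1 hn
  have hP : 0 ≤ M ^ 8 := pow_nonneg hM0 8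
  have c0 : M ^ 8 ≤ X * M ^ 8 := le_mul_of_one_le_left hP hX1
  have c1 : M ^ 2 * h ≤ X * M ^ 8 := by
    calc M ^ 2 * h ≤ M ^ 2 * M := mul_le_mul_of_nonneg_left hhM (pow_nonneg hM0 2)
      _ = M ^ 3 := by ring
      _ ≤ M ^ 8 := hpw 3 (by norm_num)
      _ ≤ X * M ^ 8 := c0
  have c2 : M ^ 4 * h ≤ X * M ^ 8 := by
    calc M ^ 4 * h ≤ M ^ 4 * M := mul_le_mul_of_nonneg_left hhM (pow_nonneg hM0 4)
      _ = M ^ 5 := by ring
      _ ≤ M ^ 8 := hpw 5 (by norm_num)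
      _ ≤ X * M ^ 8 := c0
  have c3 : k ^ 7 * h ≤ M ^ 8 := by
    calc k ^ 7 * h ≤ M ^ 7 * M := mul_le_mul (pow_le_pow_left₀ hk0 hkM 7) hhM hh0 (pow_nonneg hM0 7)
      _ = M ^ 8 := by ring
  have d1 := mul_le_mul_of_nonneg_left c1 hC1
  have d2 := mul_le_mul_of_nonneg_left c2 hC2
  have d3 := mul_le_mul_of_nonneg_left c3 (mul_nonneg hC3 hX0)
  have d4 : C1 * (M ^ 2 * h) + 7 * (C2 * (M ^ 4 * h)) + 7 * (C3 * X * (k ^ 7 * h)) ≤
      C1 * (X * M ^ 8) + 7 * (C2 * (X * M ^ 8)) + 7 * (C3 * X * M ^ 8) := by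
    linarith only [d1, d2, d3]
  calc _ = E * S * (C1 * (M ^ 2 * h) + 7 * (C2 * (M ^ 4 * h)) + 7 * (C3 * X * (k ^ 7 * h))) := by
        ring
    _ ≤ E * S * (C1 * (X * M ^ 8) + 7 * (C2 * (X * M ^ 8)) + 7 * (C3 * X * M ^ 8)) :=
        mul_le_mul_of_nonneg_left d4 (mul_nonneg hE hS0)
    _ = _ := by ring

private theorem A21_e1 {C1 C2 C3 X M k N Ti T4 Y4 S : ℝ} (hC1 : 0 ≤ C1) (hC2 : 0 ≤ C2) (hC3 : 0 ≤ C3)
    (hX0 : 0 ≤ X) (hM0 : 0 ≤ M) (hk0 : 0 ≤ k) (hN0 : 0 ≤ N) (hTi : 0 ≤ Ti)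
    (hY : Y4 ≤ T4 * (k * N)) (h1 : Ti ≤ S) (h2 : Ti * T4 ≤ S) :
    Ti * (C1 * M ^ 2 + 7 * (C2 * M ^ 4 * T4) + 7 * (C3 * X * k ^ 6 * Y4)) ≤
      (C1 * M ^ 2 + 7 * C2 * M ^ 4 + 7 * (C3 * N) * X * k ^ 7) * S := by
  have a1 : C1 * M ^ 2 * Ti ≤ C1 * M ^ 2 * S :=
    mul_le_mul_of_nonneg_left h1 (mul_nonneg hC1 (pow_nonneg hM0 2))
  have a2 : C2 * M ^ 4 * (Ti * T4) ≤ C2 * M ^ 4 * S :=
    mul_le_mul_of_nonneg_left h2 (mul_nonneg hC2 (pow_nonneg hM0 4))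
  have a3 : C3 * X * k ^ 6 * Ti * Y4 ≤ C3 * X * k ^ 6 * Ti * (T4 * (k * N)) :=
    mul_le_mul_of_nonneg_left hY
      (mul_nonneg (mul_nonneg (mul_nonneg hC3 hX0) (pow_nonneg hk0 6)) hTi)
  have a4 : C3 * N * X * k ^ 7 * (Ti * T4) ≤ C3 * N * X * k ^ 7 * S :=
    mul_le_mul_of_nonneg_left h2
      (mul_nonneg (mul_nonneg (mul_nonneg hC3 hN0) hX0) (pow_nonneg hk0 7))
  have a5 : C3 * X * k ^ 6 * Ti * (T4 * (k * N)) = C3 * N * X * k ^ 7 * (Ti * T4) := by ring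
  rw [a5] at a3
  calc _ = C1 * M ^ 2 * Ti + 7 * (C2 * M ^ 4 * (Ti * T4)) + 7 * (C3 * X * k ^ 6 * Ti * Y4) := by ring
    _ ≤ C1 * M ^ 2 * S + 7 * (C2 * M ^ 4 * S) + 7 * (C3 * N * X * k ^ 7 * S) := by
        linarith only [a1, a2, a3, a4]
    _ = _ := by ring

set_option maxHeartbeats 1000000 in
/-- Adapt LZ.A21 (tsm_coprime): Y = 2 pi eps h/(k N), eps = 1/T, f = chi, g = psi. -/
theorem tsm_coprime (χ ψ : DirichletCharacter ℂ N) (U : ℝ) (hU : 0 ≤ U) : ∃ C T0 : ℝ, 0 < C ∧ 2 ≤ T0 ∧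
    ∀ T : ℝ, T0 ≤ T → ∀ h k : ℕ, 1 ≤ h → 1 ≤ k → Nat.Coprime h k → Nat.Coprime h N → Nat.Coprime k N →
    ∀ α β : ℂ, |α.re| ≤ 1/16 → |β.re| ≤ 1/16 → |α.im| ≤ U → |β.im| ≤ U → α + β ≠ 0 →
    ‖EE T (fun t => LX.Lf χ (1/2 + α + t * I) * LX.Lf ψ (1/2 + β - t * I) *
        ((h : ℂ) ^ (-(t * I)) * (k : ℂ) ^ (t * I))) - mainT χ ψ T α β h k‖ ≤
      C * (1 + 1 / ‖α + β‖) * ((h : ℝ) * k) ^ 8 * T ^ (-(1/2) : ℝ) := by
  have hN1 : (1:ℝ) ≤ N := by exact_mod_cast Nat.one_le_iff_ne_zero.2 (NeZero.ne N)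
  have hN0 : (0:ℝ) < N := by linarith only [hN1]
  obtain ⟨C1, hC1, h1⟩ := tsm_exact (N := N) χ ψ U hU
  obtain ⟨C2, hC2, h2⟩ := DD_real (N := N) χ ψ
  obtain ⟨C3', hC3', h3⟩ := DD_asymp χ ψ (2 * U) (by linarith only [hU])
  obtain ⟨C4, hC4, h4⟩ := A21_main_bound χ ψ U hU
  obtain ⟨C5, hC5, h5⟩ := A21_trivial χ ψ U hU
  obtain ⟨C3, hC3, hC3N⟩ : ∃ C3 : ℝ, 0 < C3 ∧ C3 = C3' * N := ⟨C3' * N, by positivity, rfl⟩
  refine ⟨Real.exp U * (C1 + 7 * C2 + 7 * C3) + C4 * ((1 + U) * Real.exp (1 + U)) +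
    (C5 + C4) * 7 ^ 8, 8, by positivity, by norm_num,
    fun T hT h k hh hk hc hhN hkN α β ha hb ha' hb' hne => ?_⟩
  have hT0 : (0:ℝ) < T := by linarith only [hT]
  have hT1 : (1:ℝ) ≤ T := by linarith only [hT]
  have hh1 : (1:ℝ) ≤ h := by exact_mod_cast hh
  have hk1 : (1:ℝ) ≤ k := by exact_mod_cast hk
  have hpi0 := Real.pi_pos
  have hpi : Real.pi < 3.15 := Real.pi_lt_d2
  set M : ℝ := (h : ℝ) * k with hM
  have hM1 : 1 ≤ M := one_le_mul_of_one_le_of_one_le hh1 hk1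
  have hhM : (h : ℝ) ≤ M := le_mul_of_one_le_right (by linarith only [hh1]) hk1
  have hkM : (k : ℝ) ≤ M := le_mul_of_one_le_left (by linarith only [hk1]) hh1
  set X : ℝ := 1 + 1 / ‖α + β‖ with hX
  have hX1 : 1 ≤ X := by
    have : 0 ≤ 1 / ‖α + β‖ := by positivity
    linarith only [hX, this]
  set S : ℝ := T ^ (-(1/2) : ℝ) with hS
  have hS0 : 0 < S := Real.rpow_pos_of_pos hT0 _
  have hre : |(α + β).re| ≤ 1/8 := by
    rw [add_re]
    refine (abs_add_le _ _).trans ?_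
    linarith only [ha, hb]
  have him : |(α + β).im| ≤ 2 * U := by
    rw [add_im]
    refine (abs_add_le _ _).trans ?_
    linarith only [ha', hb']
  have hmain := h4 T (by linarith only [hT]) h k hh hk hc α β ha hb ha' hb' hne
  set P : ℂ := EE T (fun t => LX.Lf χ (1/2 + α + t * I) * LX.Lf ψ (1/2 + β - t * I) *
        ((h : ℂ) ^ (-(t * I)) * (k : ℂ) ^ (t * I))) with hP
  have hE1 : 0 < Real.exp U := Real.exp_pos _
  have hE2 : 0 < (1 + U) * Real.exp (1 + U) := by positivity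
  by_cases hY : 2 * Real.pi * (1 / T) * h / (k * N) ≤ 1
  swap
  · -- `h` is large
    rw [not_le] at hY
    have hTM : T ≤ 7 * M := by
      have hk0 : (0:ℝ) < k := by linarith only [hk1]
      rw [lt_div_iff₀ (by positivity), one_mul] at hY
      have e : 2 * Real.pi * (1 / T) * h * T = 2 * Real.pi * h := by field_simp
      have : (k : ℝ) * N * T < 2 * Real.pi * h := by
        rw [← e]
        gcongr
      have e3 : T ≤ (k : ℝ) * N * T :=
        le_mul_of_one_le_left hT0.le (one_le_mul_of_one_le_of_one_le hk1 hN1)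
      have e4 : 2 * Real.pi * h ≤ 7 * h := by
        have : 2 * Real.pi ≤ 7 := by linarith only [hpi]
        exact mul_le_mul_of_nonneg_right this (by linarith only [hh1])
      linarith only [e3, this, e4, hhM]
    have hbig : T ^ 2 ≤ 7 ^ 8 * (M ^ 8 * S) := by
      have e1 : T ^ 8 ≤ (7 * M) ^ 8 := by gcongr
      have e2 : T ^ 2 ≤ T ^ 8 * S := by
        have : T ^ 8 * S = T ^ (15/2 : ℝ) := by
          rw [hS, ← Real.rpow_natCast, ← Real.rpow_add hT0]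
          norm_num
        rw [this, ← Real.rpow_natCast]
        exact Real.rpow_le_rpow_of_exponent_le hT1 (by norm_num)
      calc T ^ 2 ≤ T ^ 8 * S := e2
        _ ≤ (7 * M) ^ 8 * S := by gcongr
        _ = _ := by ring
    have hT2 : T ^ (1/8 : ℝ) ≤ T ^ 2 := by
      rw [← Real.rpow_natCast]
      exact Real.rpow_le_rpow_of_exponent_le hT1 (by norm_num)
    have hP' := h5 T hT1 h k hh hk α β ha hb ha' hb'
    calc ‖P - mainT χ ψ T α β h k‖ ≤ ‖P‖ + ‖mainT χ ψ T α β h k‖ := norm_sub_le _ _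
      _ ≤ C5 * T ^ 2 + C4 * X * T ^ (1/8 : ℝ) := add_le_add hP' hmain
      _ ≤ C5 * X * T ^ 2 + C4 * X * T ^ 2 := by
          have : C5 * T ^ 2 ≤ C5 * X * T ^ 2 := by
            calc C5 * T ^ 2 ≤ X * (C5 * T ^ 2) :=
                  le_mul_of_one_le_left (by positivity) hX1
              _ = C5 * X * T ^ 2 := by ring
          gcongr
      _ = (C5 + C4) * X * T ^ 2 := by ring
      _ ≤ (C5 + C4) * X * (7 ^ 8 * (M ^ 8 * S)) := by gcongr
      _ = (C5 + C4) * 7 ^ 8 * (X * (M ^ 8 * S)) := by ring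
      _ ≤ (Real.exp U * (C1 + 7 * C2 + 7 * C3) + C4 * ((1 + U) * Real.exp (1 + U)) +
            (C5 + C4) * 7 ^ 8) * (X * (M ^ 8 * S)) := by
          have h0 : 0 ≤ X * (M ^ 8 * S) := by positivity
          refine mul_le_mul_of_nonneg_right ?_ h0
          have : 0 ≤ Real.exp U * (C1 + 7 * C2 + 7 * C3) + C4 * ((1 + U) * Real.exp (1 + U)) := by
            positivity
          linarith only [this]
      _ = _ := by ring
  -- the main case
  set ε : ℝ := 1 / T with hε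
  have hε0 : 0 < ε := by positivity
  have hε1 : ε ≤ 1 / 2 := by
    rw [hε]
    gcongr
    linarith only [hT]
  set Y : ℝ := 2 * Real.pi * ε * h / (k * N) with hYd
  have hY0 : 0 < Y := by positivity
  have t1 := h1 ε hε0 hε1 h k hh hk α β ha hb ha' hb'
  have t2 := h2 ε hε0 hε1 h k hh hk (α + β) hre
  have t3 := h3 (α + β) hre him hne h k hh hk hc hhN hkN Y hY0 hY
  have hid := A21_ident χ ψ hT0 hh hk hc α β
  rw [← hε, ← hYd] at hid
  rw [← hYd] at t2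
  set J : ℂ := ∫ t in Ioi (0:ℝ), LX.Lf χ (1/2 + α + t * I) * LX.Lf ψ (1/2 + β - t * I) *
          ((h : ℂ) ^ (-(t * I)) * (k : ℂ) ^ (t * I)) * (Real.exp (-(ε * t)) : ℂ) with hJ
  have hPJ : P = (T : ℂ)⁻¹ * J := by
    rw [hP, EE, hJ]
    congr 1
    refine setIntegral_congr_fun measurableSet_Ioi fun t _ => ?_
    have : -t / T = -(ε * t) := by
      rw [hε]
      ring
    rw [this]
  set D : ℂ := DD χ ψ (α + β) (WW N ε h k)
  set D' : ℂ := DD χ ψ (α + β) ((Y : ℂ) + 2 * Real.pi * I * h / (k * N))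
  set m' : ℂ := χ (k : ZMod N) * ψ (h : ZMod N) * ((k : ℂ) ^ (-1 - (α + β)) *
          LX.Lf (χ * ψ) (1 + (α + β)) / (Y : ℂ)) +
        χ⁻¹ (h : ZMod N) * ψ⁻¹ (k : ZMod N) *
          ((N : ℂ)⁻¹ * AC χ ψ (α + β) * (k : ℂ) ^ ((α + β) - 1) * (Y : ℂ) ^ ((α + β) - 1)) with hm'
  set mT : ℂ := mainT χ ψ T α β h k
  set G : ℂ := (h : ℂ) ^ (-(1/2 - β)) * (k : ℂ) ^ (1/2 - β) with hG
  set z : ℂ := ε * (1/2 - β) * I with hz
  have hG0 : G ≠ 0 := by
    refine mul_ne_zero ?_ ?_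
    · rw [A21_cpow_nat hh]
      exact exp_ne_zero _
    · rw [A21_cpow_nat hk]
      exact exp_ne_zero _
  have hez : exp z ≠ 0 := exp_ne_zero _
  have hb2 := abs_le.mp hb
  have hb3 := abs_le.mp hb'
  have hGinv : ‖G⁻¹‖ ≤ h := by
    rw [hG, mul_inv, norm_mul, norm_inv, norm_inv, norm_natCast_cpow_of_pos hh,
      norm_natCast_cpow_of_pos hk, ← Real.rpow_neg (by positivity), ← Real.rpow_neg (by positivity)]
    have r1 : (-(1/2 - β) : ℂ).re = -(1/2 - β.re) := by simp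
    have r2 : (1/2 - β : ℂ).re = 1/2 - β.re := by simp
    rw [r1, r2, neg_neg]
    have s1 : (h : ℝ) ^ (1/2 - β.re) ≤ (h : ℝ) ^ (1 : ℝ) :=
      Real.rpow_le_rpow_of_exponent_le hh1 (by linarith only [hb2.1])
    have s2 : (k : ℝ) ^ (-(1/2 - β.re)) ≤ 1 :=
      Real.rpow_le_one_of_one_le_of_nonpos hk1 (by linarith only [hb2.2])
    rw [Real.rpow_one] at s1
    calc _ ≤ (h : ℝ) * 1 := by gcongr
      _ = h := mul_one _
  have hzre : z.re = ε * β.im := by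
    rw [hz]
    simp
  have hEinv : ‖(exp z)⁻¹‖ ≤ Real.exp U := by
    rw [norm_inv, norm_exp, ← Real.exp_neg, hzre]
    refine Real.exp_le_exp.mpr ?_
    have e1 : -(ε * β.im) ≤ ε * U := by
      have := mul_le_mul_of_nonneg_left hb3.1 hε0.le
      linarith only [this]
    have e2 : ε * U ≤ 1 * U := mul_le_mul_of_nonneg_right (by linarith only [hε1]) hU
    linarith only [e1, e2]
  have hzn : ‖z‖ ≤ ε * (1 + U) := by
    rw [hz, norm_mul, norm_mul, norm_I, mul_one, Complex.norm_real, Real.norm_of_nonneg hε0.le]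
    gcongr
    have := Complex.norm_le_abs_re_add_abs_im (1/2 - β)
    have r2 : (1/2 - β : ℂ).re = 1/2 - β.re := by simp
    have r3 : (1/2 - β : ℂ).im = -β.im := by simp
    rw [r2, r3, abs_neg, abs_of_pos (by linarith only [hb2.2])] at this
    linarith only [this, hb2.1, hb']
  have hE1' : ‖(exp z)⁻¹ - 1‖ ≤ ε * ((1 + U) * Real.exp (1 + U)) := by
    rw [← exp_neg]
    have h := Complex.norm_exp_sub_sum_le_norm_mul_exp (-z) 1
    have h' : ‖exp (-z) - 1‖ ≤ ‖z‖ * Real.exp ‖z‖ := by simpa using h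
    refine h'.trans ?_
    have h6 : ‖z‖ ≤ 1 + U := hzn.trans (mul_le_of_le_one_left (by linarith only [hU]) (by linarith only [hε1]))
    calc ‖z‖ * Real.exp ‖z‖ ≤ (ε * (1 + U)) * Real.exp (1 + U) :=
          mul_le_mul hzn (Real.exp_le_exp.mpr h6) (Real.exp_pos _).le
            (mul_nonneg hε0.le (by linarith only [hU]))
      _ = _ := by ring
  -- powers of `T`
  have hTinv : T⁻¹ ≤ S := by
    rw [hS, ← Real.rpow_neg_one]
    exact Real.rpow_le_rpow_of_exponent_le hT1 (by norm_num)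
  have hεp : ε ^ (-(1/4) : ℝ) = T ^ (1/4 : ℝ) := by
    rw [hε, one_div, Real.inv_rpow hT0.le, ← Real.rpow_neg hT0.le, neg_neg]
  have hT34 : T⁻¹ * T ^ (1/4 : ℝ) ≤ S := by
    rw [hS, ← Real.rpow_neg_one, ← Real.rpow_add hT0]
    exact Real.rpow_le_rpow_of_exponent_le hT1 (by norm_num)
  have hT18 : T⁻¹ * T ^ (1/8 : ℝ) ≤ S := by
    rw [hS, ← Real.rpow_neg_one, ← Real.rpow_add hT0]
    exact Real.rpow_le_rpow_of_exponent_le hT1 (by norm_num)
  have hYp : Y ^ (-(1/4) : ℝ) ≤ T ^ (1/4 : ℝ) * (k * N) := by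
    have hk0 : (0:ℝ) < k := by linarith only [hk1]
    have hkN1 : (1:ℝ) ≤ k * N := one_le_mul_of_one_le_of_one_le hk1 hN1
    have hkN0 : (0:ℝ) < k * N := by linarith only [hkN1]
    have q0 : ε / (k * N) ≤ Y := by
      rw [hYd]
      gcongr
      have : 2 * Real.pi * ε * h = ε * (2 * Real.pi * h) := by ring
      rw [this]
      have e3 : 1 ≤ 2 * Real.pi * h :=
        one_le_mul_of_one_le_of_one_le (by linarith only [Real.pi_gt_three]) hh1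
      exact le_mul_of_one_le_right hε0.le e3
    calc Y ^ (-(1/4) : ℝ) ≤ (ε / (k * N)) ^ (-(1/4) : ℝ) :=
          Real.rpow_le_rpow_of_nonpos (by positivity) q0 (by norm_num)
      _ = ε ^ (-(1/4) : ℝ) * ((k : ℝ) * N) ^ (1/4 : ℝ) := by
          rw [div_eq_mul_inv, Real.mul_rpow hε0.le (by positivity), Real.inv_rpow hkN0.le,
            ← Real.rpow_neg hkN0.le, neg_neg]
      _ ≤ T ^ (1/4 : ℝ) * (k * N) := by
          rw [hεp]
          refine mul_le_mul_of_nonneg_left ?_ (by positivity)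
          calc ((k : ℝ) * N) ^ (1/4 : ℝ) ≤ ((k : ℝ) * N) ^ (1 : ℝ) :=
                Real.rpow_le_rpow_of_exponent_le hkN1 (by norm_num)
            _ = k * N := Real.rpow_one _
  -- the error
  have herr : ‖P * (G * exp z) - mT * G‖ ≤
      (C1 * M ^ 2 + 7 * C2 * M ^ 4 + 7 * C3 * X * (k : ℝ) ^ 7) * S := by
    have e1 : P * (G * exp z) - mT * G = (T : ℂ)⁻¹ * ((J * (G * exp z) - 2 * Real.pi / N * D) +
        2 * Real.pi / N * (D - D') + 2 * Real.pi / N * (D' - m')) := by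
      rw [← hid, hPJ]
      ring
    have hn2pi : ‖(2 * Real.pi / N : ℂ)‖ ≤ 7 := by
      rw [norm_div, norm_mul, Complex.norm_real, Real.norm_of_nonneg hpi0.le, Complex.norm_natCast]
      simp only [Complex.norm_ofNat]
      rw [div_le_iff₀ hN0]
      linarith only [hpi, hN1]
    rw [e1, norm_mul, norm_inv, Complex.norm_real, Real.norm_of_nonneg hT0.le]
    have e2 : ‖(J * (G * exp z) - 2 * Real.pi / N * D) + 2 * Real.pi / N * (D - D') +
        2 * Real.pi / N * (D' - m')‖ ≤ C1 * M ^ 2 + 7 * (C2 * M ^ 4 * ε ^ (-(1/4) : ℝ)) +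
          7 * (C3' * X * (k : ℝ) ^ 6 * Y ^ (-(1/4) : ℝ)) := by
      refine (norm_add_le _ _).trans (add_le_add ((norm_add_le _ _).trans (add_le_add t1 ?_)) ?_)
      · rw [norm_mul]
        exact mul_le_mul hn2pi t2 (norm_nonneg _) (by norm_num)
      · rw [norm_mul]
        exact mul_le_mul hn2pi t3 (norm_nonneg _) (by norm_num)
    rw [hεp] at e2
    rw [hC3N]
    exact (mul_le_mul_of_nonneg_left e2 (inv_pos.2 hT0).le).trans
      (A21_e1 hC1.le hC2.le hC3'.le (zero_le_one.trans hX1) (zero_le_one.trans hM1)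
        (Nat.cast_nonneg k) hN0.le (inv_pos.2 hT0).le hYp hTinv hT34)
  have hdiff : P - mT = (P * (G * exp z) - mT * G) * (G⁻¹ * (exp z)⁻¹) + mT * ((exp z)⁻¹ - 1) := by
    field_simp
    ring
  have b1 : ‖(P * (G * exp z) - mT * G) * (G⁻¹ * (exp z)⁻¹)‖ ≤
      Real.exp U * (C1 + 7 * C2 + 7 * C3) * (X * (M ^ 8 * S)) := by
    rw [norm_mul, norm_mul]
    have hD : 0 ≤ (C1 * M ^ 2 + 7 * C2 * M ^ 4 + 7 * C3 * X * (k : ℝ) ^ 7) * S :=
      (norm_nonneg _).trans herr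
    exact (mul_le_mul herr (mul_le_mul hGinv hEinv (norm_nonneg _) (Nat.cast_nonneg h))
      (mul_nonneg (norm_nonneg _) (norm_nonneg _)) hD).trans
      (A21_b1 hC1.le hC2.le hC3.le hX1 hM1 hS0.le hE1.le (Nat.cast_nonneg h) (Nat.cast_nonneg k)
        hhM hkM)
  have b2 : ‖mT * ((exp z)⁻¹ - 1)‖ ≤ C4 * ((1 + U) * Real.exp (1 + U)) * (X * (M ^ 8 * S)) := by
    rw [norm_mul]
    calc _ ≤ (C4 * X * T ^ (1/8 : ℝ)) * (ε * ((1 + U) * Real.exp (1 + U))) := by gcongr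
      _ = C4 * ((1 + U) * Real.exp (1 + U)) * (X * (T⁻¹ * T ^ (1/8 : ℝ))) := by
          rw [hε]
          ring
      _ ≤ C4 * ((1 + U) * Real.exp (1 + U)) * (X * (M ^ 8 * S)) := by
          have : T⁻¹ * T ^ (1/8 : ℝ) ≤ M ^ 8 * S :=
            hT18.trans (le_mul_of_one_le_left hS0.le (one_le_pow₀ hM1))
          gcongr
  rw [hdiff]
  calc _ ≤ Real.exp U * (C1 + 7 * C2 + 7 * C3) * (X * (M ^ 8 * S)) +
        C4 * ((1 + U) * Real.exp (1 + U)) * (X * (M ^ 8 * S)) := (norm_add_le _ _).trans (add_le_add b1 b2)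
    _ ≤ (Real.exp U * (C1 + 7 * C2 + 7 * C3) + C4 * ((1 + U) * Real.exp (1 + U)) +
            (C5 + C4) * 7 ^ 8) * (X * (M ^ 8 * S)) := by
        have h0 : 0 ≤ (C5 + C4) * 7 ^ 8 * (X * (M ^ 8 * S)) := by positivity
        linarith only [h0]
    _ = _ := by ring

end LP

end F_Y_A21

section F_Y_A22

open Complex MeasureTheory Set Filter Topology
open scoped ComplexConjugate

namespace LP

open LZ (kk nS cf EE ER PP wt Sep)

variable {N : ℕ} [NeZero N]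

/-- remove the common factor; LZ.A22. -/
theorem tsm (χ ψ : DirichletCharacter ℂ N) (U : ℝ) (hU : 0 ≤ U) : ∃ C T0 : ℝ, 0 < C ∧ 2 ≤ T0 ∧
    ∀ T : ℝ, T0 ≤ T → ∀ h k : ℕ, 1 ≤ h → 1 ≤ k → Nat.Coprime h N → Nat.Coprime k N →
    ∀ α β : ℂ, |α.re| ≤ 1/16 → |β.re| ≤ 1/16 → |α.im| ≤ U → |β.im| ≤ U → α + β ≠ 0 →
    ‖EE T (fun t => LX.Lf χ (1/2 + α + t * I) * LX.Lf ψ (1/2 + β - t * I) *
        ((h : ℂ) ^ (-(t * I)) * (k : ℂ) ^ (t * I))) - mainT χ ψ T α β h k‖ ≤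
      C * (1 + 1 / ‖α + β‖) * ((h : ℝ) * k) ^ 8 * T ^ (-(1/2) : ℝ) := by
  obtain ⟨C, T0, hC, hT0, H⟩ := tsm_coprime χ ψ U hU
  refine ⟨C, T0, hC, hT0, fun T hT h k hh hk hhN hkN α β h1 h2 h3 h4 h5 => ?_⟩
  obtain ⟨g, h', k', hg0, hcop, rfl, rfl⟩ : ∃ g h' k' : ℕ, 0 < g ∧ Nat.Coprime h' k' ∧
      h = h' * g ∧ k = k' * g :=
    ⟨Nat.gcd h k, h / Nat.gcd h k, k / Nat.gcd h k, Nat.gcd_pos_of_pos_left _ hh,
      Nat.coprime_div_gcd_div_gcd (Nat.gcd_pos_of_pos_left _ hh),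
      (Nat.div_mul_cancel (Nat.gcd_dvd_left h k)).symm,
      (Nat.div_mul_cancel (Nat.gcd_dvd_right h k)).symm⟩
  have hh' : 1 ≤ h' := Nat.pos_of_mul_pos_right hh
  have hk' : 1 ≤ k' := Nat.pos_of_mul_pos_right hk
  have hhN' : Nat.Coprime h' N := Nat.Coprime.coprime_dvd_left (Dvd.intro _ rfl) hhN
  have hkN' : Nat.Coprime k' N := Nat.Coprime.coprime_dvd_left (Dvd.intro _ rfl) hkN
  have hgcd : Nat.gcd (h' * g) (k' * g) = g := by
    rw [Nat.gcd_mul_right, hcop, one_mul]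
  have hmain : mainT χ ψ T α β (h' * g) (k' * g) = mainT χ ψ T α β h' k' := by
    unfold mainT
    rw [hgcd, hcop, Nat.mul_div_cancel _ hg0, Nat.mul_div_cancel _ hg0, Nat.div_one, Nat.div_one]
  have hf : (fun t : ℝ => LX.Lf χ (1/2 + α + t * I) * LX.Lf ψ (1/2 + β - t * I) *
        (((h' * g : ℕ) : ℂ) ^ (-(t * I)) * ((k' * g : ℕ) : ℂ) ^ (t * I))) =
      fun t : ℝ => LX.Lf χ (1/2 + α + t * I) * LX.Lf ψ (1/2 + β - t * I) *
        ((h' : ℂ) ^ (-(t * I)) * (k' : ℂ) ^ (t * I)) := by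
    funext t
    have hgc : (g : ℂ) ≠ 0 := by exact_mod_cast hg0.ne'
    have e1 : ((h' * g : ℕ) : ℂ) ^ (-(t * I)) = (h' : ℂ) ^ (-(t * I)) * (g : ℂ) ^ (-(t * I)) := by
      rw [Nat.cast_mul, natCast_mul_natCast_cpow]
    have e2 : ((k' * g : ℕ) : ℂ) ^ (t * I) = (k' : ℂ) ^ (t * I) * (g : ℂ) ^ (t * I) := by
      rw [Nat.cast_mul, natCast_mul_natCast_cpow]
    have e3 : (g : ℂ) ^ (-(t * I)) * (g : ℂ) ^ (t * I) = 1 := by
      rw [← cpow_add _ _ hgc, neg_add_cancel, cpow_zero]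
    rw [e1, e2]
    linear_combination (LX.Lf χ (1/2 + α + t * I) * LX.Lf ψ (1/2 + β - t * I) *
      (h' : ℂ) ^ (-(t * I)) * (k' : ℂ) ^ (t * I)) * e3
  rw [hf, hmain]
  refine (H T hT h' k' hh' hk' hcop hhN' hkN' α β h1 h2 h3 h4 h5).trans ?_
  have hT0' : 0 < T := by linarith
  have hle : ((h' : ℝ) * k') ^ 8 ≤ (((h' * g : ℕ) : ℝ) * ((k' * g : ℕ) : ℝ)) ^ 8 := by
    have hg1 : (1 : ℝ) ≤ g := by exact_mod_cast hg0
    have a1 : (h' : ℝ) ≤ ((h' * g : ℕ) : ℝ) := by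
      push_cast
      exact le_mul_of_one_le_right (by positivity) hg1
    have a2 : (k' : ℝ) ≤ ((k' * g : ℕ) : ℝ) := by
      push_cast
      exact le_mul_of_one_le_right (by positivity) hg1
    gcongr
  have hn : 0 ≤ 1 / ‖α + β‖ := by positivity
  have hp : 0 ≤ T ^ (-(1/2) : ℝ) := Real.rpow_nonneg hT0'.le _
  gcongr

end LP

end F_Y_A22
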