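import Pool.Agent.Lib.MP_0f5a55_nt.V.V08
import Pool.Agent.Lib.MP_0f5a55_nt.V.V12
import Pool.Agent.Lib.MP_0f5a55_nt.V.V18
import Pool.Agent.Lib.MP_0f5a55_nt.V.V26
import Pool.Agent.Lib.MP_0f5a55_nt.V.V36
import Pool.Agent.Lib.MP_0f5a55_nt.V.V41
import Pool.Agent.Lib.MP_0f5a55_nt.V.V45

section F_Y_C04

open Complex MeasureTheory Set Filter Topology
open scoped ComplexConjugate

namespace LP

open LZ (kk nS cf EE ER PP wt Sep)

variable {N : ℕ} [NeZero N]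

theorem C04_cont_plus (χ : DirichletCharacter ℂ N) (α : ℂ) (hα : |α.re| ≤ 1/16) :
    Continuous (fun t : ℝ => LX.Lf χ (1/2 + α + t * I)) := by
  rw [continuous_iff_continuousAt]
  intro t
  have hne : (1/2 + α + t * I : ℂ) ≠ 1 := by
    intro h
    have := congrArg Complex.re h
    simp at this
    have h2 := (abs_le.mp hα).2
    linarith
  have h1 : ContinuousAt (LX.Lf χ) (1/2 + α + t * I : ℂ) :=
    (DirichletCharacter.differentiableAt_LFunction χ _ (Or.inl hne)).continuousAt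
  have h2 : Continuous (fun t : ℝ => (1/2 + α + t * I : ℂ)) := by fun_prop
  exact ContinuousAt.comp (f := fun t : ℝ => (1/2 + α + t * I : ℂ)) (g := LX.Lf χ) h1 h2.continuousAt

theorem C04_cont_minus (χ : DirichletCharacter ℂ N) (β : ℂ) (hβ : |β.re| ≤ 1/16) :
    Continuous (fun t : ℝ => LX.Lf χ (1/2 + β - t * I)) := by
  have h := (C04_cont_plus χ β hβ).comp (continuous_neg (G := ℝ))
  refine h.congr ?_
  intro t
  simp only [Function.comp]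
  congr 1
  push_cast
  ring

theorem C04_bound (χ : DirichletCharacter ℂ N) (C : ℝ) (hC : ∀ s : ℂ, 5/16 ≤ s.re → 1/4 ≤ ‖s - 1‖ →
    ‖LX.Lf χ s‖ ≤ C * (1 + |s.im|)) (hC0 : 0 < C) (U : ℝ) (α : ℂ) (hα : |α.re| ≤ 1/16)
    (hαi : |α.im| ≤ U) (t : ℝ) :
    ‖LX.Lf χ (1/2 + α + t * I)‖ ≤ C * (1 + U + |t|) := by
  have hre : (1/2 + α + t * I : ℂ).re = 1/2 + α.re := by simp
  have him : (1/2 + α + t * I : ℂ).im = α.im + t := by simp
  have h1 := (abs_le.mp hα).1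
  have h2 := (abs_le.mp hα).2
  have hb := hC (1/2 + α + t * I) (by rw [hre]; linarith) (by
    have h3 : |((1/2 + α + t * I : ℂ) - 1).re| ≤ ‖(1/2 + α + t * I : ℂ) - 1‖ := Complex.abs_re_le_norm _
    have h4 : ((1/2 + α + t * I : ℂ) - 1).re = α.re - 1/2 := by
      rw [Complex.sub_re, hre, Complex.one_re]; ring
    rw [h4] at h3
    have h5 : 1/4 ≤ |α.re - 1/2| := by
      rw [abs_of_nonpos (by linarith)]
      linarith
    linarith)
  rw [him] at hb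
  refine hb.trans (mul_le_mul_of_nonneg_left ?_ hC0.le)
  have := abs_add_le α.im t
  linarith

theorem C04_integrable (χ ψ : DirichletCharacter ℂ N) (C : ℝ)
    (hC : ∀ s : ℂ, 5/16 ≤ s.re → 1/4 ≤ ‖s - 1‖ → ‖LX.Lf χ s‖ ≤ C * (1 + |s.im|))
    (hC' : ∀ s : ℂ, 5/16 ≤ s.re → 1/4 ≤ ‖s - 1‖ → ‖LX.Lf ψ s‖ ≤ C * (1 + |s.im|))
    (hC0 : 0 < C) (U : ℝ) (hU : 0 ≤ U) (α β : ℂ)
    (hα : |α.re| ≤ 1/16) (hβ : |β.re| ≤ 1/16)
    (hαi : |α.im| ≤ U) (hβi : |β.im| ≤ U) (h k : ℕ) (hh : 1 ≤ h) (hk : 1 ≤ k) (T : ℝ) (hT : 0 < T) :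
    IntegrableOn (fun t : ℝ => (LX.Lf χ (1/2 + α + t * I) * LX.Lf ψ (1/2 + β - t * I) *
        ((h : ℂ) ^ (-(t * I)) * (k : ℂ) ^ (t * I))) * (Real.exp (-t / T) : ℂ)) (Ioi (0:ℝ)) := by
  have hh0 : (h : ℂ) ≠ 0 := by exact_mod_cast (by omega : h ≠ 0)
  have hk0 : (k : ℂ) ≠ 0 := by exact_mod_cast (by omega : k ≠ 0)
  have hcont : Continuous (fun t : ℝ => (LX.Lf χ (1/2 + α + t * I) * LX.Lf ψ (1/2 + β - t * I) *
        ((h : ℂ) ^ (-(t * I)) * (k : ℂ) ^ (t * I))) * (Real.exp (-t / T) : ℂ)) := by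
    have c1 := C04_cont_plus χ α hα
    have c2 := C04_cont_minus ψ β hβ
    have c3 : Continuous (fun t : ℝ => (h : ℂ) ^ (-(t * I))) :=
      Continuous.const_cpow (by fun_prop) (Or.inl hh0)
    have c4 : Continuous (fun t : ℝ => (k : ℂ) ^ (t * I)) :=
      Continuous.const_cpow (by fun_prop) (Or.inl hk0)
    have c5 : Continuous (fun t : ℝ => (Real.exp (-t / T) : ℂ)) := by fun_prop
    exact ((c1.mul c2).mul (c3.mul c4)).mul c5
  have hdom : IntegrableOn (fun t : ℝ => (C * (1 + U + 4 * T)) ^ 2 * Real.exp (-(1 / (2 * T)) * t))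
      (Ioi (0:ℝ)) :=
    (exp_neg_integrableOn_Ioi 0 (by positivity)).const_mul _
  refine Integrable.mono' hdom hcont.aestronglyMeasurable ?_
  filter_upwards [ae_restrict_mem measurableSet_Ioi] with t ht
  have ht0 : (0:ℝ) < t := ht
  have hb1 := C04_bound χ C hC hC0 U α hα hαi t
  have hb2 := C04_bound ψ C hC' hC0 U β hβ hβi (-t)
  have e2 : (1/2 + β + ((-t : ℝ) : ℂ) * I) = 1/2 + β - t * I := by push_cast; ring
  rw [e2, abs_neg] at hb2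
  rw [abs_of_pos ht0] at hb1 hb2
  have n1 : ‖(h : ℂ) ^ (-(t * I : ℂ))‖ = 1 := by
    rw [Complex.norm_natCast_cpow_of_pos (by omega)]
    simp
  have n2 : ‖(k : ℂ) ^ ((t * I : ℂ))‖ = 1 := by
    rw [Complex.norm_natCast_cpow_of_pos (by omega)]
    simp
  rw [norm_mul, norm_mul, norm_mul, norm_mul, n1, n2, mul_one, mul_one]
  have n3 : ‖((Real.exp (-t / T) : ℝ) : ℂ)‖ = Real.exp (-t / T) := by
    rw [Complex.norm_real, Real.norm_eq_abs, abs_of_pos (Real.exp_pos _)]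
  rw [n3]
  have hlin : 1 + U + t ≤ (1 + U + 4 * T) * Real.exp (t / (4 * T)) := by
    have h1 : t / (4 * T) + 1 ≤ Real.exp (t / (4 * T)) := Real.add_one_le_exp _
    have h2 : (1 + U + 4 * T) * (t / (4 * T) + 1) ≤ (1 + U + 4 * T) * Real.exp (t / (4 * T)) :=
      mul_le_mul_of_nonneg_left h1 (by positivity)
    have h3 : 1 + U + t ≤ (1 + U + 4 * T) * (t / (4 * T) + 1) := by
      have h4 : (1 + U + 4 * T) * (t / (4 * T) + 1) =
          1 + U + 4 * T + (1 + U) * (t / (4 * T)) + t := by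
        field_simp
        ring
      rw [h4]
      have : 0 ≤ (1 + U) * (t / (4 * T)) := by positivity
      linarith
    linarith
  have hz : ‖LX.Lf χ (1/2 + α + t * I)‖ * ‖LX.Lf ψ (1/2 + β - t * I)‖ ≤
      (C * (1 + U + 4 * T)) ^ 2 * (Real.exp (t / (4 * T)) * Real.exp (t / (4 * T))) := by
    have h1 : ‖LX.Lf χ (1/2 + α + t * I)‖ ≤ C * ((1 + U + 4 * T) * Real.exp (t / (4 * T))) :=
      hb1.trans (mul_le_mul_of_nonneg_left hlin hC0.le)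
    have h2 : ‖LX.Lf ψ (1/2 + β - t * I)‖ ≤ C * ((1 + U + 4 * T) * Real.exp (t / (4 * T))) :=
      hb2.trans (mul_le_mul_of_nonneg_left hlin hC0.le)
    calc ‖LX.Lf χ (1/2 + α + t * I)‖ * ‖LX.Lf ψ (1/2 + β - t * I)‖
        ≤ (C * ((1 + U + 4 * T) * Real.exp (t / (4 * T)))) *
          (C * ((1 + U + 4 * T) * Real.exp (t / (4 * T)))) :=
          mul_le_mul h1 h2 (norm_nonneg _) (by positivity)
      _ = _ := by ring
  calc ‖LX.Lf χ (1/2 + α + t * I)‖ * ‖LX.Lf ψ (1/2 + β - t * I)‖ * Real.exp (-t / T)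
      ≤ (C * (1 + U + 4 * T)) ^ 2 * (Real.exp (t / (4 * T)) * Real.exp (t / (4 * T))) *
        Real.exp (-t / T) := mul_le_mul_of_nonneg_right hz (Real.exp_pos _).le
    _ = (C * (1 + U + 4 * T)) ^ 2 * Real.exp (-(1 / (2 * T)) * t) := by
      rw [mul_assoc, ← Real.exp_add, ← Real.exp_add]
      congr 2
      field_simp
      ring

theorem C04_cpow_le (n : ℕ) (hn : 1 ≤ n) (τ : ℂ) (hτ : |τ.re| ≤ 1/16) :
    ‖(n : ℂ) ^ (-(1/2) - τ)‖ ≤ 1 := by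
  rw [Complex.norm_natCast_cpow_of_pos (by omega)]
  apply Real.rpow_le_one_of_one_le_of_nonpos
  · exact_mod_cast hn
  · have h1 := (abs_le.mp hτ).1
    have : (-(1/2) - τ : ℂ).re = -(1/2) - τ.re := by simp
    rw [this]
    linarith

/-- adapt LZ.M04 (master): tsm for every pair, sum of |coefficients| <= exp(2l), (hk)^8 <= exp(16 l), l <= log T/1000. -/
theorem master (χ ψ : DirichletCharacter ℂ N) (U : ℝ) (hU : 0 ≤ U) : ∃ C T0 : ℝ, 0 < C ∧ 2 ≤ T0 ∧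
    ∀ T : ℝ, T0 ≤ T → ∀ l : ℝ, 0 < l → l ≤ Real.log T / 1000 →
    ∀ (α β : ℂ), |α.re| ≤ 1/16 → |β.re| ≤ 1/16 → |α.im| ≤ U → |β.im| ≤ U → α + β ≠ 0 →
    ‖EE T (XP χ ψ l α β) -
      (LX.Lf (χ * ψ) (1 + (α + β)) * Q2 (χ * ψ) (χ * ψ)⁻¹ ⌊Real.exp l⌋₊ l (α + β) (α + β) +
      (N : ℂ)⁻¹ * ((2 * Real.pi / (N * T) : ℝ) : ℂ) ^ (α + β) * AC χ ψ (α + β) *
        Q2 1 (χ * ψ) ⌊Real.exp l⌋₊ l 0 (-(α + β)))‖ ≤
      C * (1 + 1 / ‖α + β‖) * T ^ (-(1/4) : ℝ) := by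
  obtain ⟨C, T0, hC, hT0, htsm⟩ := tsm χ ψ U hU
  obtain ⟨C1, hC10, hC1⟩ := per_pol (fun a : ZMod N => χ a)
  obtain ⟨C2, hC20, hC2⟩ := per_pol (fun a : ZMod N => ψ a)
  have hCz1 : ∀ s : ℂ, 5/16 ≤ s.re → 1/4 ≤ ‖s - 1‖ → ‖LX.Lf χ s‖ ≤ (C1 + C2) * (1 + |s.im|) := by
    intro s h1 h2
    refine (hC1 s h1 h2).trans ?_
    exact mul_le_mul_of_nonneg_right (by linarith) (by positivity)
  have hCz2 : ∀ s : ℂ, 5/16 ≤ s.re → 1/4 ≤ ‖s - 1‖ → ‖LX.Lf ψ s‖ ≤ (C1 + C2) * (1 + |s.im|) := by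
    intro s h1 h2
    refine (hC2 s h1 h2).trans ?_
    exact mul_le_mul_of_nonneg_right (by linarith) (by positivity)
  refine ⟨C, T0, hC, hT0, ?_⟩
  intro T hT l hl hlT α β hα hβ hαi hβi hαβ
  have hTpos : 0 < T := by linarith
  set z : ℕ := ⌊Real.exp l⌋₊ with hz
  set P := (LX.PQ N z).powerset ×ˢ (LX.PQ N z).powerset with hP
  set a : Finset ℕ × Finset ℕ → ℂ := fun S =>
    (cf 1 l S.1 : ℂ) * (cf 1 l S.2 : ℂ) * (χ (nS S.1 : ℕ) * ψ (nS S.2 : ℕ)) *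
        ((nS S.1 : ℂ) ^ (-(1/2) - α) * (nS S.2 : ℂ) ^ (-(1/2) - β)) with ha
  set f : Finset ℕ × Finset ℕ → ℝ → ℂ := fun S t =>
    LX.Lf χ (1/2 + α + t * I) * LX.Lf ψ (1/2 + β - t * I) *
      ((nS S.1 : ℂ) ^ (-(t * I)) * (nS S.2 : ℂ) ^ (t * I)) with hf
  have hmem : ∀ S ∈ P, S.1 ∈ (LX.PQ N z).powerset ∧ S.2 ∈ (LX.PQ N z).powerset := by
    intro S hS
    exact Finset.mem_product.mp hS
  have hnpos : ∀ S ∈ P, 1 ≤ nS S.1 ∧ 1 ≤ nS S.2 := fun S hS =>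
    ⟨LX.nS_pos' (hmem S hS).1, LX.nS_pos' (hmem S hS).2⟩
  have hX : XP χ ψ l α β = fun t => ∑ S ∈ P, a S * f S t := by
    funext t
    exact XP_expand χ ψ l α β t
  have hint : ∀ S ∈ P, IntegrableOn (fun t : ℝ => f S t * (Real.exp (-t / T) : ℂ)) (Ioi (0:ℝ)) := by
    intro S hS
    exact C04_integrable χ ψ (C1 + C2) hCz1 hCz2 (by linarith) U hU α β hα hβ hαi hβi _ _
      (hnpos S hS).1 (hnpos S hS).2 T hTpos
  have hEE : EE T (XP χ ψ l α β) = ∑ S ∈ P, a S * EE T (f S) := by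
    rw [hX]
    unfold LZ.EE
    have h1 : ∀ t : ℝ, (∑ S ∈ P, a S * f S t) * (Real.exp (-t / T) : ℂ) =
        ∑ S ∈ P, a S * (f S t * (Real.exp (-t / T) : ℂ)) := by
      intro t
      rw [Finset.sum_mul]
      refine Finset.sum_congr rfl fun S _ => by ring
    simp_rw [h1]
    rw [integral_finsetSum]
    · rw [Finset.mul_sum]
      refine Finset.sum_congr rfl fun S _ => ?_
      rw [integral_const_mul]
      ring
    · intro S hS
      exact (hint S hS).const_mul _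
  have hmain := main_alg χ ψ T hTpos l α β z
  rw [hEE, ← hmain, ← Finset.sum_sub_distrib]
  -- each term
  have hexp2 : Real.exp l ^ 2 = Real.exp (2 * l) := by
    rw [← Real.exp_nat_mul]; norm_num
  have hterm : ∀ S ∈ P, ‖a S * EE T (f S) -
      ((cf 1 l S.1 : ℂ) * (cf 1 l S.2 : ℂ) * (χ (nS S.1 : ℕ) * ψ (nS S.2 : ℕ)) *
        ((nS S.1 : ℂ) ^ (-(1/2) - α) * (nS S.2 : ℂ) ^ (-(1/2) - β))) * mainT χ ψ T α β (nS S.1) (nS S.2)‖ ≤
      (|cf 1 l S.1| * |cf 1 l S.2|) *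
        (C * (1 + 1 / ‖α + β‖) * (Real.exp (2 * l)) ^ 8 * T ^ (-(1/2) : ℝ)) := by
    intro S hS
    have e1 : a S * EE T (f S) -
      ((cf 1 l S.1 : ℂ) * (cf 1 l S.2 : ℂ) * (χ (nS S.1 : ℕ) * ψ (nS S.2 : ℕ)) *
        ((nS S.1 : ℂ) ^ (-(1/2) - α) * (nS S.2 : ℂ) ^ (-(1/2) - β))) * mainT χ ψ T α β (nS S.1) (nS S.2) =
        a S * (EE T (f S) - mainT χ ψ T α β (nS S.1) (nS S.2)) := by
      rw [mul_sub]
    rw [e1, norm_mul]
    have hna : ‖a S‖ ≤ |cf 1 l S.1| * |cf 1 l S.2| := by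
      rw [ha]
      simp only
      rw [norm_mul, norm_mul, norm_mul, norm_mul, norm_mul, Complex.norm_real, Complex.norm_real,
        Real.norm_eq_abs, Real.norm_eq_abs]
      have t1 := C04_cpow_le (nS S.1) (hnpos S hS).1 α hα
      have t2 := C04_cpow_le (nS S.2) (hnpos S hS).2 β hβ
      have t3 : ‖χ (nS S.1 : ℕ)‖ ≤ 1 := χ.norm_le_one _
      have t4 : ‖ψ (nS S.2 : ℕ)‖ ≤ 1 := ψ.norm_le_one _
      have t5 : ‖χ (nS S.1 : ℕ)‖ * ‖ψ (nS S.2 : ℕ)‖ ≤ 1 := mul_le_one₀ t3 (norm_nonneg _) t4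
      have t6 : ‖(nS S.1 : ℂ) ^ (-(1/2) - α)‖ * ‖(nS S.2 : ℂ) ^ (-(1/2) - β)‖ ≤ 1 :=
        mul_le_one₀ t1 (norm_nonneg _) t2
      have t7 : 0 ≤ |cf 1 l S.1| * |cf 1 l S.2| := by positivity
      calc |cf 1 l S.1| * |cf 1 l S.2| * (‖χ (nS S.1 : ℕ)‖ * ‖ψ (nS S.2 : ℕ)‖) *
            (‖(nS S.1 : ℂ) ^ (-(1/2) - α)‖ * ‖(nS S.2 : ℂ) ^ (-(1/2) - β)‖)
          ≤ |cf 1 l S.1| * |cf 1 l S.2| * 1 * 1 := by
            apply mul_le_mul _ t6 (by positivity) (by positivity)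
            exact mul_le_mul_of_nonneg_left t5 t7
        _ = _ := by ring
    by_cases hzero : |cf 1 l S.1| * |cf 1 l S.2| = 0
    · have h0 : ‖a S‖ = 0 := le_antisymm (hna.trans hzero.le) (norm_nonneg _)
      rw [h0, hzero, zero_mul, zero_mul]
    · have hne1 : cf 1 l S.1 ≠ 0 := fun h => hzero (by rw [h]; simp)
      have hne2 : cf 1 l S.2 ≠ 0 := fun h => hzero (by rw [h]; simp)
      have hle1 : (nS S.1 : ℝ) ≤ Real.exp l :=
        ((LZ.cf_sum 1 l (by norm_num) le_rfl hl z).2.1 S.1 (LX.PQ_pow_sub N z (hmem S hS).1) hne1).2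
      have hle2 : (nS S.2 : ℝ) ≤ Real.exp l :=
        ((LZ.cf_sum 1 l (by norm_num) le_rfl hl z).2.1 S.2 (LX.PQ_pow_sub N z (hmem S hS).2) hne2).2
      have hprod : ((nS S.1 : ℝ) * (nS S.2 : ℝ)) ≤ Real.exp (2 * l) := by
        rw [← hexp2]
        have q : (0:ℝ) ≤ Real.exp l := (Real.exp_pos l).le
        calc (nS S.1 : ℝ) * nS S.2 ≤ Real.exp l * Real.exp l :=
              mul_le_mul hle1 hle2 (Nat.cast_nonneg _) q
          _ = _ := by ring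
      have ht := htsm T hT (nS S.1) (nS S.2) (hnpos S hS).1 (hnpos S hS).2
        (LX.nS_coprime (hmem S hS).1) (LX.nS_coprime (hmem S hS).2)
        α β hα hβ hαi hβi hαβ
      have ht' : ‖EE T (f S) - mainT χ ψ T α β (nS S.1) (nS S.2)‖ ≤
          C * (1 + 1 / ‖α + β‖) * (Real.exp (2 * l)) ^ 8 * T ^ (-(1/2) : ℝ) := by
        refine ht.trans ?_
        apply mul_le_mul_of_nonneg_right _ (Real.rpow_nonneg hTpos.le _)
        apply mul_le_mul_of_nonneg_left _ (by positivity)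
        exact pow_le_pow_left₀ (by positivity) hprod 8
      exact mul_le_mul hna ht' (norm_nonneg _) (by positivity)
  have hsumcf : ∑ S ∈ P, |cf 1 l S.1| * |cf 1 l S.2| ≤ Real.exp (2 * l) := by
    have h1 : ∑ S ∈ P, |cf 1 l S.1| * |cf 1 l S.2| =
        (∑ S ∈ (LX.PQ N z).powerset, |cf 1 l S|) * ∑ S ∈ (LX.PQ N z).powerset, |cf 1 l S| := by
      rw [Finset.sum_mul_sum, hP, Finset.sum_product]
    have h2 : ∑ S ∈ (LX.PQ N z).powerset, |cf 1 l S| ≤ Real.exp l := by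
      refine le_trans ?_ (LZ.cf_sum 1 l (by norm_num) le_rfl hl z).2.2
      exact Finset.sum_le_sum_of_subset_of_nonneg (LX.PQ_pow_sub N z) fun _ _ _ => abs_nonneg _
    have h3 : 0 ≤ ∑ S ∈ (LX.PQ N z).powerset, |cf 1 l S| := Finset.sum_nonneg fun _ _ => abs_nonneg _
    rw [h1, ← hexp2, pow_two]
    exact mul_le_mul h2 h2 h3 (Real.exp_pos l).le
  have hK : 0 ≤ C * (1 + 1 / ‖α + β‖) * (Real.exp (2 * l)) ^ 8 * T ^ (-(1/2) : ℝ) := by
    have := Real.rpow_nonneg hTpos.le (-(1/2) : ℝ)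
    positivity
  refine (norm_sum_le _ _).trans ((Finset.sum_le_sum hterm).trans ?_)
  rw [← Finset.sum_mul]
  refine (mul_le_mul_of_nonneg_right hsumcf hK).trans ?_
  -- exp(18 l) T^(-1/2) <= T^(-1/4)
  have hlog : 0 ≤ Real.log T := Real.log_nonneg (by linarith)
  have hfin : Real.exp (2 * l) * (Real.exp (2 * l)) ^ 8 * T ^ (-(1/2) : ℝ) ≤ T ^ (-(1/4) : ℝ) := by
    rw [Real.rpow_def_of_pos hTpos, Real.rpow_def_of_pos hTpos, ← Real.exp_nat_mul, ← Real.exp_add,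
      ← Real.exp_add]
    apply Real.exp_le_exp.mpr
    push_cast
    nlinarith
  have e3 : Real.exp (2 * l) * (C * (1 + 1 / ‖α + β‖) * (Real.exp (2 * l)) ^ 8 * T ^ (-(1/2) : ℝ)) =
      C * (1 + 1 / ‖α + β‖) * (Real.exp (2 * l) * (Real.exp (2 * l)) ^ 8 * T ^ (-(1/2) : ℝ)) := by ring
  rw [e3]
  exact mul_le_mul_of_nonneg_left hfin (by positivity)

end LP

end F_Y_C04

section F_Y_B12

open Complex MeasureTheory Set Filter Topology
open scoped ComplexConjugate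

namespace LP

open LZ (kk nS cf EE ER PP wt Sep)

variable {N : ℕ} [NeZero N]

private lemma B12_alg {a b L A B R C C₂ K₁ l X Y ga gb : ℝ} (ha : 0 ≤ a) (hb : 0 ≤ b)
    (hL : L ≤ C₂ * l) (hA0 : 0 ≤ A) (hA : A ≤ C * X / l) (hB0 : 0 ≤ B) (hB : B ≤ C * Y / l)
    (hR0 : 0 ≤ R) (hR : R ≤ K₁) (hC : 0 ≤ C) (hC₂ : 0 ≤ C₂) (hK : 0 ≤ K₁) (hl : 0 < l)
    (hX : 0 ≤ X) (hY : 0 ≤ Y) (hga : a * X ≤ ga) (hgb : b * Y ≤ gb) :
    a * b * (L * (A * B) * R) ≤ C₂ * C ^ 2 * K₁ / l * (ga * gb) := by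
  have e0 : 0 ≤ C * X / l := div_nonneg (mul_nonneg hC hX) hl.le
  have e1 : 0 ≤ C * Y / l := div_nonneg (mul_nonneg hC hY) hl.le
  have h1 : A * B ≤ (C * X / l) * (C * Y / l) := mul_le_mul hA hB hB0 e0
  have h2 : L * (A * B) ≤ (C₂ * l) * ((C * X / l) * (C * Y / l)) :=
    mul_le_mul hL h1 (mul_nonneg hA0 hB0) (mul_nonneg hC₂ hl.le)
  have h3 : L * (A * B) * R ≤ (C₂ * l) * ((C * X / l) * (C * Y / l)) * K₁ :=
    mul_le_mul h2 hR hR0 (mul_nonneg (mul_nonneg hC₂ hl.le) (mul_nonneg e0 e1))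
  have h4 : (C₂ * l) * ((C * X / l) * (C * Y / l)) * K₁ = C₂ * C ^ 2 * K₁ / l * (X * Y) := by
    field_simp
  rw [h4] at h3
  have hk : 0 ≤ C₂ * C ^ 2 * K₁ / l :=
    div_nonneg (mul_nonneg (mul_nonneg hC₂ (sq_nonneg C)) hK) hl.le
  have h5 : (a * X) * (b * Y) ≤ ga * gb :=
    mul_le_mul hga hgb (mul_nonneg hb hY) ((mul_nonneg ha hX).trans hga)
  calc a * b * (L * (A * B) * R) ≤ a * b * (C₂ * C ^ 2 * K₁ / l * (X * Y)) :=
        mul_le_mul_of_nonneg_left h3 (mul_nonneg ha hb)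
    _ = C₂ * C ^ 2 * K₁ / l * ((a * X) * (b * Y)) := by ring
    _ ≤ C₂ * C ^ 2 * K₁ / l * (ga * gb) := mul_le_mul_of_nonneg_left h5 hk

/-- one factor 1/L(1+w, 1), w = e + (1+iu)/l -/
theorem B12_inv : ∃ C : ℝ, 0 < C ∧ ∀ l : ℝ, 3 ≤ l → ∀ e : ℂ, ‖e‖ ≤ 1 / (8 * l) → ∀ u : ℝ,
    ‖LX.Lf (1 : DirichletCharacter ℂ N) (1 + e + (1 + u * I) / l)‖⁻¹ ≤ C * (1 + |u|) ^ 2 / l := by
  obtain ⟨C₁, hC₁, h1⟩ := triv_near
  obtain ⟨δ, hδ, h1⟩ := h1 N
  obtain ⟨C₂, hC₂, h2⟩ := L_trivial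
  have hNt : 0 ≤ (N : ℝ) / N.totient := by positivity
  set q : ℝ := (N : ℝ) / N.totient with hq
  have hD : 0 < 8 * C₂ / δ ^ 2 := by positivity
  have hE : 0 ≤ 2 * C₁ * q := by positivity
  refine ⟨2 * C₁ * q + 8 * C₂ / δ ^ 2, by positivity, ?_⟩
  intro l hl e he u
  have hl0 : 0 < l := by linarith only [hl]
  set w : ℂ := e + (1 + u * I) / l with hw
  have e1 : 1 + e + (1 + u * I) / l = 1 + w := by rw [hw]; ring
  rw [e1]
  have hre : w.re = e.re + 1 / l := by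
    rw [hw, add_re]
    congr 1
    rw [div_ofReal_re]
    simp
  have h8 : 1 / (8 * l) = (1 / l) / 8 := by field_simp
  have her : |e.re| ≤ (1 / l) / 8 := by
    rw [← h8]; exact (Complex.abs_re_le_norm e).trans he
  have her' := abs_le.1 her
  have hinv : 0 < 1 / l := by positivity
  have hinv2 : 1 / l ≤ 1 / 3 := one_div_le_one_div_of_le (by norm_num) hl
  have hwpos : 7 / 8 * (1 / l) ≤ w.re := by rw [hre]; linarith only [her']
  have hwpos' : 0 < w.re := lt_of_lt_of_le (by positivity) hwpos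
  have hw1 : w.re ≤ 1 := by rw [hre]; linarith only [her', hinv2]
  have hnum : ‖(1 + u * I : ℂ)‖ ≤ 1 + |u| := by
    refine (norm_add_le _ _).trans ?_
    simp
  have hdiv : ‖(1 + u * I : ℂ) / l‖ ≤ (1 + |u|) / l := by
    rw [norm_div, Complex.norm_real, Real.norm_eq_abs, abs_of_pos hl0]
    exact div_le_div_of_nonneg_right hnum hl0.le
  have hu : 0 ≤ |u| := abs_nonneg u
  have hwn : ‖w‖ ≤ 2 * (1 + |u|) / l := by
    refine (norm_add_le _ _).trans ((add_le_add he hdiv).trans ?_)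
    rw [h8]
    have : (1 / l) / 8 ≤ (1 + |u|) / l := by
      have k1 : (1 / l) / 8 ≤ 1 / l := by linarith only [hinv]
      have k2 : 1 / l ≤ (1 + |u|) / l := div_le_div_of_nonneg_right (by linarith only [hu]) hl0.le
      exact k1.trans k2
    have e2 : 2 * (1 + |u|) / l = (1 + |u|) / l + (1 + |u|) / l := by ring
    rw [e2]
    linarith only [this]
  have hsq : 1 + |u| ≤ (1 + |u|) ^ 2 := le_self_pow₀ (by linarith only [hu]) two_ne_zero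
  rcases le_or_gt ‖w‖ δ with h | h
  · refine (h1 w hwpos' h).1.trans ?_
    calc C₁ * q * ‖w‖ ≤ C₁ * q * (2 * (1 + |u|) / l) :=
          mul_le_mul_of_nonneg_left hwn (mul_nonneg hC₁.le hNt)
      _ = 2 * C₁ * q * (1 + |u|) / l := by ring
      _ ≤ 2 * C₁ * q * (1 + |u|) ^ 2 / l :=
          div_le_div_of_nonneg_right (mul_le_mul_of_nonneg_left hsq hE) hl0.le
      _ ≤ (2 * C₁ * q + 8 * C₂ / δ ^ 2) * (1 + |u|) ^ 2 / l :=
          div_le_div_of_nonneg_right (mul_le_mul_of_nonneg_right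
            (le_add_of_nonneg_right hD.le) (sq_nonneg _)) hl0.le
  · have h5 : l * δ ≤ 2 * (1 + |u|) := by
      have h6 : δ < 2 * (1 + |u|) / l := lt_of_lt_of_le h hwn
      rw [lt_div_iff₀ hl0] at h6
      linarith only [h6]
    have h6 : (l * δ) ^ 2 ≤ (2 * (1 + |u|)) ^ 2 :=
      pow_le_pow_left₀ (mul_nonneg hl0.le hδ.le) h5 2
    have hs : (1 + w).re = 1 + w.re := by simp
    refine (h2 N (1 : DirichletCharacter ℂ N) (1 + w) (by rw [hs]; linarith only [hwpos']) (by rw [hs]; linarith only [hw1])).2.trans ?_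
    rw [hs, add_sub_cancel_left]
    have h7 : C₂ / w.re ≤ C₂ * (2 * l) := by
      rw [div_le_iff₀ hwpos']
      have h9 : 1 ≤ 2 * l * w.re := by
        have h10 : 2 * l * (7 / 8 * (1 / l)) ≤ 2 * l * w.re :=
          mul_le_mul_of_nonneg_left hwpos (mul_nonneg zero_le_two hl0.le)
        have h11 : 2 * l * (7 / 8 * (1 / l)) = 7 / 4 := by field_simp; norm_num
        linarith only [h10, h11]
      calc C₂ = C₂ * 1 := by ring
        _ ≤ C₂ * (2 * l * w.re) := mul_le_mul_of_nonneg_left h9 hC₂.le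
        _ = C₂ * (2 * l) * w.re := by ring
    refine h7.trans ?_
    rw [le_div_iff₀ hl0]
    have h8' : C₂ * (2 * l) * l = 2 * C₂ / δ ^ 2 * (l * δ) ^ 2 := by field_simp
    rw [h8']
    calc 2 * C₂ / δ ^ 2 * (l * δ) ^ 2 ≤ 2 * C₂ / δ ^ 2 * (2 * (1 + |u|)) ^ 2 :=
          mul_le_mul_of_nonneg_left h6 (div_nonneg (mul_nonneg zero_le_two hC₂.le) (sq_nonneg δ))
      _ = 8 * C₂ / δ ^ 2 * (1 + |u|) ^ 2 := by ring
      _ ≤ (2 * C₁ * q + 8 * C₂ / δ ^ 2) * (1 + |u|) ^ 2 :=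
          mul_le_mul_of_nonneg_right (le_add_of_nonneg_left hE) (sq_nonneg _)

/-- rho = 1, kappa arbitrary: |1/L(A,1)| <= C (1+|u|)^2/l (triv_near for |w| <= delta, L_trivial and l <= C(1+|u|) otherwise; w = e + (1+iu)/l,
|w| <= 2(1+|u|)/l), |L(D,om)| <= C l (L_trivial, Re D - 1 >= 1/l). LZ.Q10 (QQ_mu), LZ.P05. -/
theorem Q2_small (κ : DirichletCharacter ℂ N) : ∃ K l0 : ℝ, 0 < K ∧ 1 ≤ l0 ∧ ∀ l : ℝ, l0 ≤ l → ∀ e e4 : ℂ,
    ‖e‖ ≤ 1 / (8 * l) → |e4.re| ≤ 1 / (8 * l) →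
    ‖Q2 (1 : DirichletCharacter ℂ N) κ ⌊Real.exp l⌋₊ l e e4‖ ≤ K / l := by
  obtain ⟨l1, hl1, hQ⟩ := Q2_mu_integral (1 : DirichletCharacter ℂ N) κ
  obtain ⟨C, hC, hinv⟩ := B12_inv (N := N)
  obtain ⟨C₂, hC₂, h2⟩ := L_trivial
  obtain ⟨K₁, hK₁, hR⟩ := R1_facts
  obtain ⟨hRb, -, -⟩ := hR N
  obtain ⟨hkc, hki⟩ := LZ.kk_facts
  set g : ℝ → ℝ := fun u => ‖kk u‖ * (1 + |u|) ^ 16 with hg
  have hG : 0 ≤ ∫ u, g u := integral_nonneg (fun u => by simp only [hg, Pi.zero_apply]; positivity)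
  set G : ℝ := ∫ u, g u with hGdef
  refine ⟨C₂ * C ^ 2 * K₁ * G ^ 2 + 1, max l1 3, by positivity, hl1.trans (le_max_left _ _), ?_⟩
  intro l hl e e4 he he4
  have hll1 : l1 ≤ l := (le_max_left _ _).trans hl
  have hl3 : (3 : ℝ) ≤ l := (le_max_right _ _).trans hl
  have hlpos : 0 < l := by linarith only [hl3]
  have her : |e.re| ≤ 1 / (8 * l) := (Complex.abs_re_le_norm e).trans he
  rw [hQ l hll1 e e4 her he4]
  have hli : 0 < 1 / l := by positivity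
  have hli3 : 1 / l ≤ 1 / 3 := one_div_le_one_div_of_le (by norm_num) hl3
  have h8 : 1 / (8 * l) = (1 / 8) * (1 / l) := by field_simp
  have a0 := abs_le.1 her
  have a4 := abs_le.1 he4
  rw [h8] at a0 a4
  have hA : ∀ u : ℝ, (1 + e + (1 + u * I) / l : ℂ).re = 1 + e.re + 1 / l := by
    intro u
    simp [Complex.div_ofReal_re]
  have hDr : ∀ x y : ℝ, (1 + 2 * e - e4 + (2 + (x + y) * I) / l : ℂ).re
      = 1 + 2 * e.re - e4.re + 2 * (1 / l) := by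
    intro x y
    simp [Complex.div_ofReal_re]
    ring
  have hA1 : ∀ u : ℝ, 1 ≤ (1 + e + (1 + u * I) / l : ℂ).re := by
    intro u
    rw [hA]; linarith only [hli, a0.1]
  have hD1 : ∀ x y : ℝ, 1 + 1 / l ≤ (1 + 2 * e - e4 + (2 + (x + y) * I) / l : ℂ).re := by
    intro x y
    rw [hDr]; linarith only [hli, a0.1, a4.2]
  have hD2 : ∀ x y : ℝ, (1 + 2 * e - e4 + (2 + (x + y) * I) / l : ℂ).re ≤ 2 := by
    intro x y
    rw [hDr]; linarith only [hli3, a0.2, a4.1]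
  have hLD : ∀ x y : ℝ, ‖LX.Lf ((1 : DirichletCharacter ℂ N) ^ 2 * κ)
      (1 + 2 * e - e4 + (2 + (x + y) * I) / l)‖ ≤ C₂ * l := by
    intro x y
    have h3 := hD1 x y
    refine (h2 N _ _ (by linarith only [hli, h3]) (hD2 x y)).1.trans ?_
    rw [div_le_iff₀ (by linarith only [hli, h3])]
    have h5 : C₂ = C₂ * l * (1 / l) := by field_simp
    calc C₂ = C₂ * l * (1 / l) := h5
      _ ≤ C₂ * l * ((1 + 2 * e - e4 + (2 + (x + y) * I) / l : ℂ).re - 1) :=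
          mul_le_mul_of_nonneg_left (le_sub_iff_add_le'.mpr h3) (mul_nonneg hC₂.le hlpos.le)
  have hg0 : ∀ x, 0 ≤ g x := fun x => by simp only [hg]; positivity
  have hkg2 : ∀ x : ℝ, ‖kk x‖ * (1 + |x|) ^ 2 ≤ g x := by
    intro x
    have h1 : (1 + |x|) ^ 2 ≤ (1 + |x|) ^ 16 :=
      pow_le_pow_right₀ (by linarith only [abs_nonneg x]) (by norm_num)
    exact mul_le_mul_of_nonneg_left h1 (norm_nonneg (kk x))
  have hint : Integrable (fun u : ℝ × ℝ => C₂ * C ^ 2 * K₁ / l * (g u.1 * g u.2)) :=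
    (Integrable.mul_prod hki hki).const_mul _
  have hval : ∫ u : ℝ × ℝ, C₂ * C ^ 2 * K₁ / l * (g u.1 * g u.2) = C₂ * C ^ 2 * K₁ / l * G ^ 2 := by
    rw [integral_const_mul]
    have h3 : ∫ u : ℝ × ℝ, g u.1 * g u.2 = G * G := integral_prod_mul g g
    rw [h3]
    ring
  refine (norm_integral_le_of_norm_le hint (Eventually.of_forall fun u => ?_)).trans ?_
  · obtain ⟨x, y⟩ := u
    simp only
    rw [norm_mul, norm_mul, norm_mul, norm_div, norm_mul]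
    have b1 := hinv l hl3 e he x
    have b2 := hinv l hl3 e he y
    have b3 := hLD x y
    have b4 := hRb (1 : DirichletCharacter ℂ N) ((1 : DirichletCharacter ℂ N) ^ 2 * κ)
      (1 + e + (1 + x * I) / l) (1 + e + (1 + y * I) / l)
      (1 + 2 * e - e4 + (2 + (x + y) * I) / l) (hA1 x) (hA1 y) (le_trans (le_add_of_nonneg_right hli.le) (hD1 x y))
    rw [div_eq_mul_inv, mul_inv]
    exact B12_alg (norm_nonneg _) (norm_nonneg _) b3 (inv_nonneg.mpr (norm_nonneg _)) b1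
      (inv_nonneg.mpr (norm_nonneg _)) b2 (norm_nonneg _) b4 hC.le hC₂.le hK₁.le hlpos
      (sq_nonneg _) (sq_nonneg _) (hkg2 x) (hkg2 y)
  · rw [hval]
    have : C₂ * C ^ 2 * K₁ / l * G ^ 2 = C₂ * C ^ 2 * K₁ * G ^ 2 / l := by ring
    rw [this, div_le_div_iff_of_pos_right hlpos]
    linarith only []

end LP

end F_Y_B12
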