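import Pool.Agent.Lib.MP_0f5a55_nt.V.V02
import Pool.Agent.Lib.MP_0f5a55_nt.V.V41

section F_A22

open Complex MeasureTheory Set Filter Topology
open scoped ComplexConjugate

namespace LZ

theorem A22_Lf : LX.Lf (1 : DirichletCharacter ℂ 1) = riemannZeta := by
  funext s
  unfold LX.Lf
  rw [DirichletCharacter.LFunction_modOne_eq]

theorem A22_Sf : LP.Sf (1 : DirichletCharacter ℂ 1) (1 : DirichletCharacter ℂ 1) = 1 := by
  unfold LP.Sf
  rw [Fintype.sum_eq_single (0 : ZMod 1) (fun x hx => absurd (Subsingleton.elim x 0) hx)]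
  have h : (1 : DirichletCharacter ℂ 1) (0 : ZMod 1) = 1 := by
    rw [Subsingleton.elim (0 : ZMod 1) 1, map_one]
  rw [h, mul_one]

theorem A22_PF (x : ℂ) : LP.PF (1 : DirichletCharacter ℂ 1) (1 : DirichletCharacter ℂ 1) x = (exp x - 1)⁻¹ := by
  unfold LP.PF
  have h : ∀ a : ZMod 1, (1 : DirichletCharacter ℂ 1) a = 1 := by
    intro a
    rw [Subsingleton.elim a 1, map_one]
  rw [Fintype.sum_eq_single (0 : ZMod 1) (fun x hx => absurd (Subsingleton.elim x 0) hx),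
    Fintype.sum_eq_single (0 : ZMod 1) (fun x hx => absurd (Subsingleton.elim x 0) hx), h, sub_self, mul_zero,
    zero_div, add_zero, mul_one, one_mul]

theorem A22_AC (η : ℂ) : LP.AC (1 : DirichletCharacter ℂ 1) (1 : DirichletCharacter ℂ 1) η = Ac η := by
  unfold LP.AC LP.JF Ac
  rw [A22_Sf, one_mul]
  congr 1
  · refine setIntegral_congr_fun measurableSet_Ioi fun y hy => ?_
    rw [A22_PF, one_mul]
    unfold f1
    push_cast
    rw [one_div]

/-- the case of the trivial character modulo 1 of the general moment -/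
theorem tsm (U : ℝ) (hU : 0 ≤ U) : ∃ C T0 : ℝ, 0 < C ∧ 2 ≤ T0 ∧ ∀ T : ℝ, T0 ≤ T → ∀ h k : ℕ, 1 ≤ h → 1 ≤ k →
    ∀ α β : ℂ, |α.re| ≤ 1/16 → |β.re| ≤ 1/16 → |α.im| ≤ U → |β.im| ≤ U → α + β ≠ 0 →
    ‖EE T (fun t => riemannZeta (1/2 + α + t * I) * riemannZeta (1/2 + β - t * I) *
        ((h : ℂ) ^ (-(t * I)) * (k : ℂ) ^ (t * I))) - mainT T α β h k‖ ≤
      C * (1 + 1 / ‖α + β‖) * ((h : ℝ) * k) ^ 8 * T ^ (-(1/2) : ℝ) := by
  obtain ⟨C, T0, hC, hT0, H⟩ := LP.tsm (1 : DirichletCharacter ℂ 1) 1 U hU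
  refine ⟨C, T0, hC, hT0, fun T hT h k hh hk α β h1 h2 h3 h4 h5 => ?_⟩
  have h6 := H T hT h k hh hk (Nat.coprime_one_right h) (Nat.coprime_one_right k) α β h1 h2 h3 h4 h5
  have hone : ∀ a : ZMod 1, (1 : DirichletCharacter ℂ 1) a = 1 := by
    intro a
    rw [Subsingleton.elim a 1, map_one]
  have e : LP.mainT (1 : DirichletCharacter ℂ 1) 1 T α β h k = mainT T α β h k := by
    unfold LP.mainT mainT
    have e2 : (2 * Real.pi / (((1 : ℕ) : ℝ) * T) : ℝ) = 2 * Real.pi / T := by rw [Nat.cast_one, one_mul]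
    rw [mul_one, A22_Lf, A22_AC, inv_one]
    simp only [hone]
    rw [e2]
    push_cast
    ring
  rw [A22_Lf, e] at h6
  exact h6

end LZ

end F_A22
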