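import Pool.Agent.Lib.MP_0f5a55_nt.V.V11
import Pool.Agent.Lib.MP_0f5a55_nt.V.V18
import Pool.Agent.Lib.MP_0f5a55_nt.V.V94

section F_W_W08

open Complex MeasureTheory Set Filter Topology
open scoped ComplexConjugate

namespace LW

variable {N m : ℕ} [NeZero N]

private theorem W08_nS {N z : ℕ} {S : Finset ℕ} (hS : S ∈ (LX.PQ N z).powerset) : LZ.nS S ≠ 0 := by
  rw [Finset.mem_powerset] at hS
  refine Finset.prod_ne_zero_iff.2 fun p hp => ?_
  exact (Finset.mem_filter.1 (Finset.mem_filter.1 (hS hp)).1).2.ne_zero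

private theorem W08_Mol_diff {N : ℕ} (χ : DirichletCharacter ℂ N) (lam l : ℝ) :
    Differentiable ℂ (LX.Mol χ lam l) := by
  unfold LX.Mol
  refine Differentiable.fun_sum fun S hS => ?_
  refine (differentiable_const _).mul fun s => ?_
  refine DifferentiableAt.const_cpow (by fun_prop) (Or.inl ?_)
  exact_mod_cast W08_nS hS

/-- DirichletCharacter.differentiable_LFunctionTrivChar₁, DirichletCharacter.differentiable_LFunction -/
theorem El_diff (χ : DirichletCharacter ℂ N) : Differentiable ℂ (El χ) := by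
  by_cases h : χ = 1
  · have h1 : El χ = DirichletCharacter.LFunctionTrivChar₁ N := by
      funext s
      simp only [El, if_pos h]
    rw [h1]
    exact DirichletCharacter.differentiable_LFunctionTrivChar₁ N
  · have h1 : El χ = fun s => (s - 1) * LX.Lf χ s := by
      funext s
      simp only [El, if_neg h]
    rw [h1]
    have h2 : Differentiable ℂ (LX.Lf χ) := DirichletCharacter.differentiable_LFunction h
    fun_prop

theorem El_eq (χ : DirichletCharacter ℂ N) {s : ℂ} (hs : s ≠ 1) : El χ s = (s - 1) * LX.Lf χ s := by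
  by_cases h : χ = 1
  · rw [El, if_pos h, DirichletCharacter.LFunctionTrivChar₁, Function.update_of_ne hs, LX.Lf, h,
      DirichletCharacter.LFunctionTrivChar]
  · rw [El, if_neg h]

private theorem W08_den (x : ℝ) {s : ℂ} (hs : -1 < s.re) : s + x * I + 1 ≠ 0 := by
  intro h
  have h1 := congrArg Complex.re h
  simp at h1
  linarith

theorem Gt_diff (X : Fin m → DirichletCharacter ℂ N × ℝ) (l : ℝ) {s : ℂ} (hs : -1 < s.re) :
    DifferentiableAt ℂ (Gt X l) s := by
  unfold Gt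
  refine (differentiableAt_const _).mul (DifferentiableAt.fun_sum fun j _ => ?_)
  refine DifferentiableAt.mul ?_ ?_
  · refine DifferentiableAt.fun_finsetProd fun i _ => ?_
    exact DifferentiableAt.div (by fun_prop) (by fun_prop) (W08_den _ hs)
  · refine DifferentiableAt.div ?_ (by fun_prop) (W08_den _ hs)
    refine DifferentiableAt.mul ?_ ?_
    · exact DifferentiableAt.comp s (g := El (X j).1) (El_diff _ _) (by fun_prop)
    · exact DifferentiableAt.comp s (g := LX.Mol (X j).1 1 l) (W08_Mol_diff _ _ _ _) (by fun_prop)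

theorem Gt_eq (X : Fin m → DirichletCharacter ℂ N × ℝ) (l : ℝ) {s : ℂ} (hs : -1 < s.re)
    (h1 : ∀ j, s + (X j).2 * I ≠ 1) : Gt X l s = Pf X s * Mn X l s := by
  unfold Gt Mn Pf
  rw [mul_left_comm]
  refine congrArg _ ?_
  rw [Finset.mul_sum]
  refine Finset.sum_congr rfl fun j _ => ?_
  rw [← Finset.prod_erase_mul Finset.univ _ (Finset.mem_univ j), El_eq _ (h1 j), LX.FF]
  generalize (∏ x ∈ Finset.univ.erase j, (s + ((X x).2 : ℂ) * I - 1) / (s + ((X x).2 : ℂ) * I + 1)) = Q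
  ring

end LW

end F_W_W08

section F_W_W09

open Complex MeasureTheory Set Filter Topology
open scoped ComplexConjugate

namespace LW

variable {N m : ℕ} [NeZero N]

private theorem W09_nS {N z : ℕ} {S : Finset ℕ} (hS : S ∈ (LX.PQ N z).powerset) : 1 ≤ LZ.nS S := by
  rw [Finset.mem_powerset] at hS
  refine Nat.one_le_iff_ne_zero.2 (Finset.prod_ne_zero_iff.2 fun p hp => ?_)
  exact (Finset.mem_filter.1 (Finset.mem_filter.1 (hS hp)).1).2.ne_zero

private theorem W09_Mol_bound {N : ℕ} (χ : DirichletCharacter ℂ N) (lam l : ℝ) :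
    ∃ M : ℝ, 0 ≤ M ∧ ∀ s : ℂ, 0 ≤ s.re → ‖LX.Mol χ lam l s‖ ≤ M := by
  refine ⟨∑ S ∈ (LX.PQ N ⌊Real.exp l⌋₊).powerset, |LZ.cf lam l S|, Finset.sum_nonneg fun _ _ => abs_nonneg _,
    fun s hs => ?_⟩
  unfold LX.Mol
  refine (norm_sum_le _ _).trans (Finset.sum_le_sum fun S hS => ?_)
  have h1 := W09_nS hS
  rw [norm_mul, norm_mul, Complex.norm_real, Real.norm_eq_abs]
  have h2 : ‖((LZ.nS S : ℕ) : ℂ) ^ (-s)‖ ≤ 1 := by
    rw [Complex.norm_natCast_cpow_of_pos (by omega), neg_re]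
    exact Real.rpow_le_one_of_one_le_of_nonpos (by exact_mod_cast h1) (by linarith)
  have h3 : ‖χ ((LZ.nS S : ℕ) : ZMod N)‖ ≤ 1 := DirichletCharacter.norm_le_one χ _
  calc |LZ.cf lam l S| * ‖χ ((LZ.nS S : ℕ) : ZMod N)‖ * ‖((LZ.nS S : ℕ) : ℂ) ^ (-s)‖
      ≤ |LZ.cf lam l S| * 1 * 1 := by gcongr
    _ = |LZ.cf lam l S| := by ring

private theorem W09_quot {w : ℂ} (hw : 0 ≤ w.re) : ‖(w - 1) / (w + 1)‖ ≤ 1 := by
  have h1 : 0 < ‖w + 1‖ := by
    have h2 : (w + 1).re ≤ ‖w + 1‖ := Complex.re_le_norm _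
    rw [add_re, one_re] at h2
    linarith
  rw [norm_div, div_le_one h1]
  have h2 : ‖w - 1‖ ^ 2 ≤ ‖w + 1‖ ^ 2 := by
    rw [← Complex.normSq_eq_norm_sq, ← Complex.normSq_eq_norm_sq, Complex.normSq_apply, Complex.normSq_apply]
    simp only [sub_re, one_re, sub_im, one_im, sub_zero, add_re, add_im, add_zero]
    nlinarith
  exact le_of_sq_le_sq h2 h1.le

private theorem W09_El (χ : DirichletCharacter ℂ N) : ∃ C : ℝ, 0 < C ∧ ∀ w : ℂ, 3/8 ≤ w.re →
    ‖El χ w / (w + 1)‖ ≤ C * (1 + |w.im|) := by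
  obtain ⟨C, hC, hz⟩ := LP.per_pol (N := N) (fun a => χ a)
  have hK : IsCompact (Metric.closedBall (1 : ℂ) (1/4)) := isCompact_closedBall _ _
  obtain ⟨B, hB⟩ := hK.exists_bound_of_continuousOn (El_diff χ).continuous.continuousOn
  refine ⟨C + |B|, by positivity, fun w hw => ?_⟩
  have hone : (1 : ℝ) ≤ 1 + |w.im| := by linarith [abs_nonneg w.im]
  have hnn : (0 : ℝ) ≤ 1 + |w.im| := by linarith
  have h1 : 1 ≤ ‖w + 1‖ := by
    have h2 : (w + 1).re ≤ ‖w + 1‖ := Complex.re_le_norm _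
    rw [add_re, one_re] at h2
    linarith
  by_cases h : 1/4 ≤ ‖w - 1‖
  · have hw1 : w ≠ 1 := by
      rintro rfl
      rw [sub_self, norm_zero] at h
      norm_num at h
    have e : El χ w / (w + 1) = ((w - 1) / (w + 1)) * LX.Lf χ w := by
      rw [El_eq χ hw1]
      ring
    rw [e, norm_mul]
    have h2 : ‖LX.Lf χ w‖ ≤ C * (1 + |w.im|) := hz w (by linarith) h
    calc ‖(w - 1) / (w + 1)‖ * ‖LX.Lf χ w‖ ≤ 1 * (C * (1 + |w.im|)) :=
          mul_le_mul (W09_quot (by linarith)) h2 (norm_nonneg _) zero_le_one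
      _ ≤ (C + |B|) * (1 + |w.im|) := by
          rw [one_mul]
          exact mul_le_mul_of_nonneg_right (by linarith [abs_nonneg B]) hnn
  · push Not at h
    have h2 : ‖El χ w‖ ≤ B := hB w (by rw [Metric.mem_closedBall, dist_eq_norm]; exact h.le)
    rw [norm_div]
    calc ‖El χ w‖ / ‖w + 1‖ ≤ ‖El χ w‖ := div_le_self (norm_nonneg _) h1
      _ ≤ |B| := h2.trans (le_abs_self B)
      _ ≤ C + |B| := by linarith
      _ ≤ (C + |B|) * (1 + |w.im|) := le_mul_of_one_le_right (by positivity) hone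

/-- polynomial growth of Gt for fixed X and l: LP.per_pol away from the points 1 - i x_j, compactness near them;
G04_Mol_bound in Y/G04 is the bound for the mollifier -/
theorem Gt_growth (X : Fin m → DirichletCharacter ℂ N × ℝ) (l : ℝ) : ∃ K : ℝ, 0 < K ∧ ∀ s : ℂ, 3/8 ≤ s.re →
    ‖Gt X l s‖ ≤ K * (1 + |s.im|) := by
  choose C hC hz using fun j : Fin m => W09_El (N := N) (X j).1
  choose M hM hMol using fun j : Fin m => W09_Mol_bound (X j).1 1 l
  refine ⟨(∑ j, C j * (1 + |(X j).2|) * M j) + 1, ?_, fun s hs => ?_⟩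
  · have : 0 ≤ ∑ j, C j * (1 + |(X j).2|) * M j := Finset.sum_nonneg fun j _ => by
      have := (hC j).le
      have := hM j
      positivity
    linarith
  have hre : ∀ x : ℝ, (s + x * I).re = s.re := fun x => by
    rw [add_re, re_ofReal_mul, I_re, mul_zero, add_zero]
  have him : ∀ x : ℝ, (s + x * I).im = s.im + x := fun x => by
    rw [add_im, im_ofReal_mul, I_im, mul_one]
  have hj : ∀ j ∈ (Finset.univ : Finset (Fin m)),
      ‖(∏ i ∈ Finset.univ.erase j, ((s + (X i).2 * I - 1) / (s + (X i).2 * I + 1))) *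
        (El (X j).1 (s + (X j).2 * I) * LX.Mol (X j).1 1 l (s + (X j).2 * I) / (s + (X j).2 * I + 1))‖ ≤
      C j * (1 + |(X j).2|) * M j * (1 + |s.im|) := by
    intro j _
    have hCj := (hC j).le
    have hMj := hM j
    rw [norm_mul]
    have a0 : ‖∏ i ∈ Finset.univ.erase j, ((s + (X i).2 * I - 1) / (s + (X i).2 * I + 1))‖ ≤ 1 := by
      rw [norm_prod]
      exact Finset.prod_le_one (fun _ _ => norm_nonneg _) fun i _ => W09_quot (by rw [hre]; linarith)
    have e : El (X j).1 (s + (X j).2 * I) * LX.Mol (X j).1 1 l (s + (X j).2 * I) / (s + (X j).2 * I + 1) =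
        El (X j).1 (s + (X j).2 * I) / (s + (X j).2 * I + 1) * LX.Mol (X j).1 1 l (s + (X j).2 * I) := by ring
    rw [e, norm_mul]
    have a1 : ‖El (X j).1 (s + (X j).2 * I) / (s + (X j).2 * I + 1)‖ ≤ C j * ((1 + |(X j).2|) * (1 + |s.im|)) := by
      refine (hz j _ (by rw [hre]; exact hs)).trans ?_
      refine mul_le_mul_of_nonneg_left ?_ hCj
      rw [him]
      have b1 : |s.im + (X j).2| ≤ |s.im| + |(X j).2| := abs_add_le _ _
      have b2 : 0 ≤ |(X j).2| * |s.im| := by positivity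
      nlinarith
    have a2 : ‖LX.Mol (X j).1 1 l (s + (X j).2 * I)‖ ≤ M j := hMol j _ (by rw [hre]; linarith)
    calc ‖∏ i ∈ Finset.univ.erase j, ((s + (X i).2 * I - 1) / (s + (X i).2 * I + 1))‖ *
          (‖El (X j).1 (s + (X j).2 * I) / (s + (X j).2 * I + 1)‖ * ‖LX.Mol (X j).1 1 l (s + (X j).2 * I)‖)
        ≤ 1 * ((C j * ((1 + |(X j).2|) * (1 + |s.im|))) * M j) := by gcongr
      _ = C j * (1 + |(X j).2|) * M j * (1 + |s.im|) := by ring
  have hnn : (0 : ℝ) ≤ 1 + |s.im| := by positivity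
  have hS0 : 0 ≤ (∑ j, C j * (1 + |(X j).2|) * M j) := Finset.sum_nonneg fun j _ => by
    have := (hC j).le
    have := hM j
    positivity
  have hm : ‖(m : ℂ)⁻¹‖ ≤ 1 := by
    rw [norm_inv, Complex.norm_natCast]
    rcases Nat.eq_zero_or_pos m with h | h
    · rw [h]
      simp
    · exact inv_le_one_of_one_le₀ (by exact_mod_cast h)
  unfold Gt
  rw [norm_mul]
  calc ‖(m : ℂ)⁻¹‖ * ‖∑ j, (∏ i ∈ Finset.univ.erase j, ((s + (X i).2 * I - 1) / (s + (X i).2 * I + 1))) *
        (El (X j).1 (s + (X j).2 * I) * LX.Mol (X j).1 1 l (s + (X j).2 * I) / (s + (X j).2 * I + 1))‖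
      ≤ 1 * ((∑ j, C j * (1 + |(X j).2|) * M j) * (1 + |s.im|)) := by
        refine mul_le_mul hm ?_ (norm_nonneg _) zero_le_one
        refine (norm_sum_le _ _).trans ((Finset.sum_le_sum hj).trans ?_)
        rw [Finset.sum_mul]
    _ ≤ ((∑ j, C j * (1 + |(X j).2|) * M j) + 1) * (1 + |s.im|) := by
        rw [one_mul]
        exact mul_le_mul_of_nonneg_right (by linarith) hnn

end LW

end F_W_W09

section F_W_W10

open Complex MeasureTheory Set Filter Topology
open scoped ComplexConjugate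

namespace LW

variable {N m : ℕ} [NeZero N]

private theorem W10_Lf_analytic (χ : DirichletCharacter ℂ N) {s : ℂ} (hs : s ≠ 1) :
    AnalyticAt ℂ (LX.Lf χ) s := by
  have h1 : DifferentiableOn ℂ (LX.Lf χ) {1}ᶜ := fun z hz =>
    (DirichletCharacter.differentiableAt_LFunction χ z (Or.inl hz)).differentiableWithinAt
  exact h1.analyticAt (isOpen_compl_singleton.mem_nhds hs)

private theorem W10_Gt_analytic (X : Fin m → DirichletCharacter ℂ N × ℝ) (l : ℝ) {s : ℂ}
    (hs : -1 < s.re) : AnalyticAt ℂ (Gt X l) s := by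
  have ho : IsOpen {z : ℂ | -1 < z.re} := isOpen_lt continuous_const continuous_re
  have h1 : DifferentiableOn ℂ (Gt X l) {z : ℂ | -1 < z.re} := fun z hz =>
    (Gt_diff X l hz).differentiableWithinAt
  exact h1.analyticAt (ho.mem_nhds hs)

/-- order under an affine change of variable with a > 0 -/
theorem order_affine {f : ℂ → ℂ} {a : ℝ} (ha : 0 < a) (b : ℂ) (z : ℂ) {k : ℕ} (hf : AnalyticAt ℂ f (b + a * z))
    (hk : (k : ℕ∞) ≤ analyticOrderAt f (b + a * z)) :
    (k : ℕ∞) ≤ analyticOrderAt (fun w : ℂ => f (b + a * w)) z := by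
  have haff : AnalyticAt ℂ (fun w : ℂ => b + a * w) z := by fun_prop
  have hF : AnalyticAt ℂ (fun w : ℂ => f (b + a * w)) z := AnalyticAt.fun_comp hf haff
  obtain ⟨g, hg, hfg⟩ := (natCast_le_analyticOrderAt hf).1 hk
  rw [natCast_le_analyticOrderAt hF]
  refine ⟨fun w => (a : ℂ) ^ k * g (b + a * w), ?_, ?_⟩
  · exact analyticAt_const.mul (AnalyticAt.fun_comp hg haff)
  · have h1 : ∀ᶠ w in 𝓝 z, f (b + a * w) = (b + a * w - (b + a * z)) ^ k • g (b + a * w) :=
      haff.continuousAt.eventually hfg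
    filter_upwards [h1] with w hw
    rw [hw, show b + a * w - (b + a * z) = (a : ℂ) * (w - z) by ring, mul_pow, smul_eq_mul,
      smul_eq_mul]
    ring

/-- the coefficient of the j-th L-function in Gt -/
private noncomputable def W10_B (X : Fin m → DirichletCharacter ℂ N × ℝ) (l : ℝ) (j : Fin m)
    (s : ℂ) : ℂ :=
  (m : ℂ)⁻¹ * ((∏ i ∈ Finset.univ.erase j, ((s + (X i).2 * I - 1) / (s + (X i).2 * I + 1))) *
    ((s + (X j).2 * I - 1) * LX.Mol (X j).1 1 l (s + (X j).2 * I) / (s + (X j).2 * I + 1)))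

private theorem W10_ne {s : ℂ} (x : ℝ) (hs : 0 < s.re) : s + x * I + 1 ≠ 0 := by
  intro h
  have := congrArg Complex.re h
  simp at this
  linarith

private theorem W10_ne1 {s : ℂ} (x : ℝ) (hs : s.re < 1) : s + x * I ≠ 1 := by
  intro h
  have := congrArg Complex.re h
  simp at this
  linarith

private theorem W10_B_analytic (X : Fin m → DirichletCharacter ℂ N × ℝ) (l : ℝ) (j : Fin m)
    {s : ℂ} (hs : 0 < s.re) : AnalyticAt ℂ (W10_B X l j) s := by
  unfold W10_B
  refine analyticAt_const.mul (AnalyticAt.mul ?_ ?_)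
  · refine Finset.analyticAt_fun_prod _ fun i _ => ?_
    refine AnalyticAt.div (by fun_prop) (by fun_prop) (W10_ne _ hs)
  · refine AnalyticAt.div (AnalyticAt.mul (by fun_prop) ?_) (by fun_prop) (W10_ne _ hs)
    have h1 : Differentiable ℂ (fun s : ℂ => LX.Mol (X j).1 1 l (s + (X j).2 * I)) :=
      (LX.Mol_diff (X j).1 1 l).comp (by fun_prop)
    exact h1.analyticAt s

/-- zeros common to the L-functions are zeros of Gt with at least the same order: near rho Gt is (1/m) times the sum of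
(analytic) * Lf chi_j (s + i x_j); AnalyticAt.analyticOrderAt_mul, le_analyticOrderAt_add (induction over the sum) -/
theorem Gt_order (X : Fin m → DirichletCharacter ℂ N × ℝ) (l : ℝ) {ρ : ℂ} (h0 : 0 < ρ.re) (h1 : ρ.re < 1) (k : ℕ)
    (hk : ∀ j, (k : ℕ∞) ≤ analyticOrderAt (LX.Lf (X j).1) (ρ + (X j).2 * I)) :
    (k : ℕ∞) ≤ analyticOrderAt (Gt X l) ρ := by
  rw [natCast_le_analyticOrderAt (W10_Gt_analytic X l (by linarith))]
  have hex : ∀ j, ∃ g, AnalyticAt ℂ g (ρ + (X j).2 * I) ∧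
      ∀ᶠ z in 𝓝 (ρ + (X j).2 * I), LX.Lf (X j).1 z = (z - (ρ + (X j).2 * I)) ^ k • g z := fun j =>
    (natCast_le_analyticOrderAt (W10_Lf_analytic _ (W10_ne1 _ h1))).1 (hk j)
  choose g hg hLg using hex
  refine ⟨fun s => ∑ j, W10_B X l j s * g j (s + (X j).2 * I), ?_, ?_⟩
  · refine Finset.analyticAt_fun_sum _ fun j _ => ?_
    refine (W10_B_analytic X l j h0).mul ?_
    exact AnalyticAt.fun_comp (g := g j) (f := fun s : ℂ => s + (X j).2 * I) (hg j) (by fun_prop)
  · have h2 : ∀ᶠ s in 𝓝 ρ, ∀ j, LX.Lf (X j).1 (s + (X j).2 * I) =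
        (s - ρ) ^ k * g j (s + (X j).2 * I) := by
      rw [eventually_all]
      intro j
      have h3 : ContinuousAt (fun s : ℂ => s + (X j).2 * I) ρ := by fun_prop
      filter_upwards [h3.eventually (hLg j)] with s hs
      rw [hs, smul_eq_mul]
      congr 2
      ring
    have h3 : ∀ᶠ s : ℂ in 𝓝 ρ, s.re < 1 :=
      (isOpen_lt continuous_re continuous_const).mem_nhds h1
    filter_upwards [h2, h3] with s hs hs1
    rw [smul_eq_mul, Finset.mul_sum]
    unfold Gt
    rw [Finset.mul_sum]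
    refine Finset.sum_congr rfl fun j _ => ?_
    rw [El_eq _ (W10_ne1 _ hs1), hs j]
    unfold W10_B
    ring

end LW

end F_W_W10
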