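import Mathlib.Algebra.Order.Chebyshev
import Mathlib.AlgebraicTopology.FundamentalGroupoid.SimplyConnected
import Mathlib.Analysis.Complex.AbsMax
import Mathlib.Analysis.Complex.MeanValue
import Mathlib.Analysis.MellinInversion
import Mathlib.Analysis.Normed.Group.Tannery
import Mathlib.Analysis.Real.Pi.Bounds
import Mathlib.Analysis.SpecialFunctions.Log.Summable
import Mathlib.Data.Finset.Functor
import Mathlib.Data.FunLike.Fintype
import Mathlib.Data.Int.Star
import Mathlib.NumberTheory.Harmonic.Bounds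
import Mathlib.NumberTheory.LSeries.Nonvanishing
import Mathlib.NumberTheory.LSeries.SumCoeff
import Mathlib.NumberTheory.ZetaValues
import Mathlib.Order.CompletePartialOrder
import Mathlib.Order.SuccPred.IntervalSucc
import Mathlib.RingTheory.SimpleRing.Principal
import Mathlib.Topology.Separation.CompletelyRegular
import Mathlib.Tactic

section F_Y_DA

open Complex MeasureTheory Set Filter Topology

namespace LP

/-- sum of f g over a period -/
noncomputable def Sf {N : ℕ} [NeZero N] (f g : ZMod N → ℂ) : ℂ := ∑ a : ZMod N, f a * g a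

/-- the periodic Lambert function -/
noncomputable def PF {N : ℕ} [NeZero N] (f g : ZMod N → ℂ) (x : ℂ) : ℂ :=
  ∑ a : ZMod N, ∑ b : ZMod N,
    f a * g b * (exp (x + 2 * Real.pi * I * ((a.val : ℂ) - b.val) / N) - 1)⁻¹

/-- regularised integral of PF -/
noncomputable def JF {N : ℕ} [NeZero N] (f g : ZMod N → ℂ) (η : ℂ) : ℂ :=
  ∫ y in Ioi (0:ℝ), (y : ℂ) ^ (-η) * (PF f g y - Sf f g * ((Real.exp (-y) / y : ℝ) : ℂ))

/-- dual constant -/
noncomputable def AC {N : ℕ} [NeZero N] (f g : ZMod N → ℂ) (η : ℂ) : ℂ :=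
  -(Sf f g * Gamma (1 - η)) / η + JF f g η

end LP

end F_Y_DA
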