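import Pool.Agent.Lib.MP_0f5a55_nt.V.V07

section F_Y_B09

open Complex MeasureTheory Set Filter Topology
open scoped ComplexConjugate

namespace LP

open LZ (kk nS cf EE ER PP wt Sep)

/-- the principal character near s = 1: Lf 1 s = zeta(s) prod_{p|N}(1-p^-s). (i) |1/L(1+w)| <= C |w| N/phi(N) (absolute C) for |w| <= delta(N)
(the finite product tends to phi(N)/N as w -> 0; LZ.zeta_one (P02)); (ii) |L(1+w)| <= C (phi(N)/N)/|w| for |w| <= delta(N). -/
theorem triv_near : ∃ C : ℝ, 0 < C ∧ ∀ (N : ℕ) [NeZero N], ∃ δ : ℝ, 0 < δ ∧ ∀ w : ℂ, 0 < w.re → ‖w‖ ≤ δ →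
    ‖LX.Lf (1 : DirichletCharacter ℂ N) (1 + w)‖⁻¹ ≤ C * ((N : ℝ) / N.totient) * ‖w‖ ∧
    ‖LX.Lf (1 : DirichletCharacter ℂ N) (1 + w)‖ ≤ C * ((N.totient : ℝ) / N) / ‖w‖ := by
  refine ⟨2, by norm_num, fun N _ => ?_⟩
  have hN : 0 < N := Nat.pos_of_ne_zero (NeZero.ne N)
  set r : ℝ := (N.totient : ℝ) / N with hr
  have hφ : (0 : ℝ) < N.totient := by exact_mod_cast Nat.totient_pos.mpr hN
  have hN0 : (0 : ℝ) < N := by exact_mod_cast hN
  have hr0 : 0 < r := div_pos hφ hN0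
  have hprod : ‖∏ p ∈ N.primeFactors, (1 - (p : ℂ)⁻¹)‖ = r := by
    have h1 := Nat.totient_eq_mul_prod_factors N
    have h2 : ((N.totient : ℚ) : ℂ) = ((N * ∏ p ∈ N.primeFactors, (1 - (p : ℚ)⁻¹) : ℚ) : ℂ) := by
      exact_mod_cast congrArg (Rat.cast : ℚ → ℂ) h1
    push_cast at h2
    have h3 : ∏ p ∈ N.primeFactors, (1 - (p : ℂ)⁻¹) = ((r : ℝ) : ℂ) := by
      rw [hr]
      push_cast
      rw [h2, mul_div_cancel_left₀]
      exact_mod_cast hN.ne'
    rw [h3, Complex.norm_real, Real.norm_of_nonneg hr0.le]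
  have hlim := DirichletCharacter.LFunctionTrivChar_residue_one (N := N)
  have hnorm := hlim.norm
  rw [hprod] at hnorm
  have hev : ∀ᶠ s in 𝓝[≠] (1 : ℂ), r / 2 < ‖(s - 1) * DirichletCharacter.LFunctionTrivChar N s‖ ∧
      ‖(s - 1) * DirichletCharacter.LFunctionTrivChar N s‖ < 2 * r :=
    (hnorm.eventually (lt_mem_nhds (by linarith))).and (hnorm.eventually (gt_mem_nhds (by linarith)))
  rw [eventually_nhdsWithin_iff, Metric.eventually_nhds_iff] at hev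
  obtain ⟨ε, hε, hball⟩ := hev
  refine ⟨ε / 2, by linarith, fun w hw hwδ => ?_⟩
  have hw0 : w ≠ 0 := by
    rintro rfl
    simp at hw
  have hwn : 0 < ‖w‖ := norm_pos_iff.mpr hw0
  obtain ⟨h1, h2⟩ := hball (y := 1 + w) (by rw [dist_eq_norm, add_sub_cancel_left]; linarith) (by
    simpa using hw0)
  rw [add_sub_cancel_left, norm_mul] at h1 h2
  have hL : LX.Lf (1 : DirichletCharacter ℂ N) (1 + w) =
      DirichletCharacter.LFunctionTrivChar N (1 + w) := rfl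
  rw [hL]
  set L : ℝ := ‖DirichletCharacter.LFunctionTrivChar N (1 + w)‖ with hLdef
  have hL0 : 0 < L := by
    by_contra hcon
    push Not at hcon
    have : ‖w‖ * L ≤ 0 := mul_nonpos_of_nonneg_of_nonpos hwn.le hcon
    linarith
  constructor
  · have h3 : (N : ℝ) / N.totient = r⁻¹ := by rw [hr, inv_div]
    rw [h3, inv_le_comm₀ hL0 (by positivity)]
    have h4 : (2 * r⁻¹ * ‖w‖)⁻¹ = (r / 2) / ‖w‖ := by
      field_simp
    rw [h4, div_le_iff₀ hwn]
    linarith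
  · rw [le_div_iff₀ hwn]
    linarith

end LP

end F_Y_B09
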