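import Pool.Agent.Lib.MP_0f5a55_nt.V.V03
import Pool.Agent.Lib.MP_0f5a55_nt.V.V05
import Pool.Agent.Lib.MP_0f5a55_nt.V.V06

section F_Y_A01

open Complex MeasureTheory Set Filter Topology
open scoped ComplexConjugate

namespace LP

open LZ (kk nS cf EE ER PP wt Sep)

variable {N : ℕ} [NeZero N]

private theorem A01_cpow_eq (x : ℝ) (hx : 0 < x) (w : ℂ) :
    (x : ℂ) ^ w = exp ((Real.log x : ℂ) * w) := by
  rw [cpow_def_of_ne_zero (by exact_mod_cast hx.ne'), ofReal_log hx.le]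

private theorem A01_WW (ε : ℝ) (h k : ℕ) (hh : 1 ≤ h) (hk : 1 ≤ k) :
    WW N ε h k = exp ((Real.log (2 * Real.pi) + Real.log h - Real.log k - Real.log N : ℝ) +
      ((Real.pi / 2 - ε : ℝ) : ℂ) * I) := by
  have hp : (0:ℝ) < 2 * Real.pi := by positivity
  have hh' : (0:ℝ) < h := by exact_mod_cast hh
  have hk' : (0:ℝ) < k := by exact_mod_cast hk
  have hN' : (0:ℝ) < N := by exact_mod_cast Nat.pos_of_ne_zero (NeZero.ne N)
  have e1 : exp ((Real.log (2 * Real.pi) + Real.log h - Real.log k - Real.log N : ℝ) : ℂ) =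
      2 * Real.pi * h / k / N := by
    rw [← ofReal_exp, Real.exp_sub, Real.exp_sub, Real.exp_add, Real.exp_log hp, Real.exp_log hh',
      Real.exp_log hk', Real.exp_log hN']
    push_cast
    ring
  have e2 : exp (((Real.pi / 2 - ε : ℝ) : ℂ) * I) = I * exp (-(ε * I)) := by
    have : ((Real.pi / 2 - ε : ℝ) : ℂ) * I = Real.pi / 2 * I + -(ε * I) := by
      push_cast
      ring
    rw [this, exp_add, exp_pi_div_two_mul_I]
  rw [exp_add, e1, e2]
  unfold WW
  rw [div_div]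
  ring

private theorem A01_WWneg (ε : ℝ) (h k : ℕ) (hh : 1 ≤ h) (hk : 1 ≤ k) :
    -(WW N ε h k) = exp ((Real.log (2 * Real.pi) + Real.log h - Real.log k - Real.log N : ℝ) +
      ((-(Real.pi / 2) - ε : ℝ) : ℂ) * I) := by
  rw [A01_WW ε h k hh hk]
  have : ((Real.log (2 * Real.pi) + Real.log h - Real.log k - Real.log N : ℝ) : ℂ) +
      ((Real.pi / 2 - ε : ℝ) : ℂ) * I = (((Real.log (2 * Real.pi) + Real.log h - Real.log k - Real.log N : ℝ) : ℂ) +
      ((-(Real.pi / 2) - ε : ℝ) : ℂ) * I) + Real.pi * I := by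
    push_cast
    ring
  rw [this, exp_add, exp_pi_mul_I]
  ring

private theorem A01_cpow (L θ : ℝ) (hθ : -Real.pi < θ) (hθ' : θ ≤ Real.pi) (s : ℂ) :
    (exp ((L : ℂ) + (θ : ℂ) * I)) ^ (-s) = exp (-(L : ℂ) * s) * exp (-((θ : ℂ) * I * s)) := by
  have him : ((L : ℂ) + (θ : ℂ) * I).im = θ := by
    simp only [add_im, ofReal_im, zero_add, mul_im, ofReal_re, I_im, mul_one, I_re, mul_zero,
      add_zero]
  rw [cpow_def_of_ne_zero (exp_ne_zero _), log_exp (by rw [him]; exact hθ) (by rw [him]; exact hθ'),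
    ← exp_add]
  congr 1
  ring

/-- functional equation (ZMod.LFunction_one_sub) in the form used here. Adapt LZ.A01 (kernel_id). WW = (2 pi h/(kN)) e^(i(pi/2-eps)),
-WW = (2 pi h/(kN)) e^(-i(pi/2+eps)). -/
theorem kernel_id (g : ZMod N → ℂ) (ε : ℝ) (hε : 0 < ε) (hε1 : ε ≤ 1/2) (h k : ℕ) (hh : 1 ≤ h) (hk : 1 ≤ k) (s : ℂ)
    (hs : 1 ≤ s.im) :
    ZMod.LFunction g (1 - s) * ((h : ℂ) ^ (-s) * (k : ℂ) ^ s) * exp (ε * s * I) =
      (N : ℂ)⁻¹ * (ZMod.LFunction (FT g) s * Gamma s * (WW N ε h k) ^ (-s) +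
        ZMod.LFunction (FT' g) s * Gamma s * (-(WW N ε h k)) ^ (-s)) := by
  have hpi := Real.pi_gt_three
  have hp : (0:ℝ) < 2 * Real.pi := by positivity
  have hh' : (0:ℝ) < h := by exact_mod_cast hh
  have hk' : (0:ℝ) < k := by exact_mod_cast hk
  have hN' : (0:ℝ) < N := by exact_mod_cast Nat.pos_of_ne_zero (NeZero.ne N)
  have hNc : (N : ℂ) ≠ 0 := by exact_mod_cast NeZero.ne N
  have hs1 : ∀ n : ℕ, s ≠ -n := by
    intro n hn
    rw [hn] at hs
    simp only [neg_im, natCast_im, neg_zero] at hs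
    linarith
  have hs2 : s ≠ 1 := by
    intro hn
    rw [hn] at hs
    simp only [one_im] at hs
    linarith
  have q1 := A01_cpow_eq (2 * Real.pi) hp (-s)
  have q2 := A01_cpow_eq h hh' (-s)
  have q3 := A01_cpow_eq k hk' s
  have q4 := A01_cpow_eq N hN' s
  rw [ofReal_natCast] at q2 q3 q4
  rw [show ((2 * Real.pi : ℝ) : ℂ) = 2 * Real.pi by push_cast; ring] at q1
  have hE : exp (-((Real.log (2 * Real.pi) + Real.log h - Real.log k - Real.log N : ℝ) : ℂ) * s) =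
      (2 * Real.pi : ℂ) ^ (-s) * ((h : ℂ) ^ (-s) * (k : ℂ) ^ s) * (N : ℂ) ^ s := by
    rw [q1, q2, q3, q4, ← exp_add, ← exp_add, ← exp_add]
    congr 1
    push_cast
    ring
  have hW1 : (WW N ε h k) ^ (-s) = (2 * Real.pi : ℂ) ^ (-s) * ((h : ℂ) ^ (-s) * (k : ℂ) ^ s) *
      (N : ℂ) ^ s * (exp (-Real.pi * I * s / 2) * exp (ε * s * I)) := by
    rw [A01_WW ε h k hh hk, A01_cpow _ _ (by linarith) (by linarith), hE, ← exp_add]
    congr 2
    push_cast
    ring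
  have hW2 : (-(WW N ε h k)) ^ (-s) = (2 * Real.pi : ℂ) ^ (-s) * ((h : ℂ) ^ (-s) * (k : ℂ) ^ s) *
      (N : ℂ) ^ s * (exp (Real.pi * I * s / 2) * exp (ε * s * I)) := by
    rw [A01_WWneg ε h k hh hk, A01_cpow _ _ (by linarith) (by linarith), hE, ← exp_add]
    congr 2
    push_cast
    ring
  have hNs : (N : ℂ) ^ (s - 1) = (N : ℂ) ^ s * (N : ℂ)⁻¹ := by
    rw [cpow_sub _ _ hNc, cpow_one, div_eq_mul_inv]
  rw [ZMod.LFunction_one_sub g hs1 (Or.inr hs2), hW1, hW2, hNs]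
  unfold FT FT'
  ring

end LP

end F_Y_A01

section F_Y_A13

open Complex MeasureTheory Set Filter Topology
open scoped ComplexConjugate

namespace LP

open LZ (kk nS cf EE ER PP wt Sep)

variable {N : ℕ} [NeZero N]

/-- bounds for the functions ph. Take ph' the derivative; LZ.A12 (fz_off, k replaced by K) and LZ.A13 (phi0_bounds). -/
theorem ph_bounds : ∃ C : ℝ, 0 < C ∧ ∀ k K c : ℕ, 1 ≤ k → k ≤ K → c < K → ∃ φ' : ℝ → ℂ,
    (∀ y : ℝ, 0 < y → HasDerivAt (ph k K c) (φ' y) y) ∧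
    (∀ y : ℝ, 0 < y → ‖ph k K c y‖ ≤ C * (K : ℝ) ^ 2 * Real.exp (-y / 2)) ∧
    (∀ y : ℝ, 0 < y → ‖φ' y‖ ≤ C * (K : ℝ) ^ 2 * Real.exp (-y / 2)) := by
  obtain ⟨C, hC, hb⟩ := LZ.phi0_bounds
  refine ⟨C + 4, by linarith, ?_⟩
  intro k K c hk hkK hcK
  have hkK' : (k : ℝ) ^ 2 ≤ (K : ℝ) ^ 2 :=
    pow_le_pow_left₀ (Nat.cast_nonneg k) (by exact_mod_cast hkK) 2
  rcases Nat.eq_zero_or_pos c with rfl | hc
  · have hph : ph k K 0 = fun y : ℝ => ((1 / (Real.exp y - 1) - Real.exp (-(k * y)) / y : ℝ) : ℂ) := by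
      funext y
      unfold ph
      rw [if_pos rfl]
    refine ⟨fun y => ((-Real.exp y / (Real.exp y - 1) ^ 2 + k * Real.exp (-(k * y)) / y +
      Real.exp (-(k * y)) / y ^ 2 : ℝ) : ℂ), ?_, ?_, ?_⟩
    · intro y hy
      rw [hph]
      exact (hb k hk y hy).1.ofReal_comp
    · intro y hy
      rw [hph]
      simp only [Complex.norm_real, Real.norm_eq_abs]
      refine (hb k hk y hy).2.1.trans ?_
      have h1 : 0 < Real.exp (-y / 2) := Real.exp_pos _
      refine mul_le_mul_of_nonneg_right ?_ h1.le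
      nlinarith [sq_nonneg (K : ℝ)]
    · intro y hy
      rw [Complex.norm_real, Real.norm_eq_abs]
      refine (hb k hk y hy).2.2.trans ?_
      have h1 : 0 < Real.exp (-y / 2) := Real.exp_pos _
      refine mul_le_mul_of_nonneg_right ?_ h1.le
      nlinarith [sq_nonneg (K : ℝ)]
  · have hph : ph k K c = fun y : ℝ => (exp ((y : ℂ) + 2 * Real.pi * I * c / K) - 1)⁻¹ := by
      funext y
      unfold ph
      rw [if_neg hc.ne']
    refine ⟨fun y => -(exp ((y : ℂ) + 2 * Real.pi * I * c / K) /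
      (exp ((y : ℂ) + 2 * Real.pi * I * c / K) - 1) ^ 2), ?_, ?_, ?_⟩
    · intro y hy
      rw [hph]
      have hne := (LZ.fz_off hc hcK hy.le).1
      have h1 : HasDerivAt (fun z : ℂ => z + 2 * Real.pi * I * c / K) 1 (y : ℂ) :=
        (hasDerivAt_id (y : ℂ)).add_const _
      have h2 := (h1.cexp.sub_const 1).inv hne
      have h3 := h2.comp_ofReal
      refine h3.congr_deriv ?_
      rw [mul_one, neg_div]
    · intro y hy
      rw [hph]
      refine (LZ.fz_off hc hcK hy.le).2.1.trans ?_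
      have h1 : 0 < Real.exp (-y / 2) := Real.exp_pos _
      refine mul_le_mul_of_nonneg_right ?_ h1.le
      nlinarith [sq_nonneg (K : ℝ)]
    · intro y hy
      rw [norm_neg]
      refine (LZ.fz_off hc hcK hy.le).2.2.trans ?_
      have h1 : 0 < Real.exp (-y / 2) := Real.exp_pos _
      refine mul_le_mul_of_nonneg_right ?_ h1.le
      nlinarith [sq_nonneg (K : ℝ)]

end LP

end F_Y_A13

section F_Y_A14

open Complex MeasureTheory Set Filter Topology
open scoped ComplexConjugate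

namespace LP

open LZ (kk nS cf EE ER PP wt Sep)

/-- sum of the powers of the roots of unity -/
private lemma A14_sum {k : ℕ} {ζ : ℂ} (hζ : IsPrimitiveRoot ζ k) {j : ℕ} (hj : j < k) :
    ∑ a ∈ Finset.range k, (ζ ^ a) ^ j = if j = 0 then (k : ℂ) else 0 := by
  split_ifs with h
  · rw [h]
    simp
  · have h1 : ζ ^ j ≠ 1 := hζ.pow_ne_one_of_pos_of_lt h hj
    have h2 : ∑ a ∈ Finset.range k, (ζ ^ a) ^ j = ∑ a ∈ Finset.range k, (ζ ^ j) ^ a := by
      refine Finset.sum_congr rfl fun a _ => ?_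
      rw [← pow_mul, ← pow_mul, mul_comm]
    rw [h2, geom_sum_eq h1, ← pow_mul, mul_comm, pow_mul, hζ.pow_eq_one, one_pow, sub_self, zero_div]

/-- partial fractions; adapt LZ.A14 (roots_sum); j -> j h permutes the residues mod k; sum_j sum_n exp(-n z) exp(-2 pi i n j h/k). -/
theorem roots_sum (h k : ℕ) (hk : 1 ≤ k) (hc : Nat.Coprime h k) (z : ℂ) (hz : 0 < z.re) :
    ∑ j ∈ Finset.range k, (exp (z + 2 * Real.pi * I * ((j * h : ℕ) : ℂ) / k) - 1)⁻¹ = k * (exp (k * z) - 1)⁻¹ := by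
  have hk0 : k ≠ 0 := by omega
  have hζ₀ := Complex.isPrimitiveRoot_exp k hk0
  have hζ : IsPrimitiveRoot (exp (2 * Real.pi * I / k) ^ h) k := hζ₀.pow_of_coprime h hc
  set ζ : ℂ := exp (2 * Real.pi * I / k) ^ h with hζdef
  set w : ℂ := exp z with hw0
  have hzn : ‖w‖ = Real.exp z.re := by rw [hw0, Complex.norm_exp]
  have hz1 : 1 < ‖w‖ := by
    rw [hzn]
    exact Real.one_lt_exp_iff.mpr hz
  have hW : exp ((k : ℂ) * z) = w ^ k := by
    rw [hw0, ← Complex.exp_nat_mul]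
  have hW1 : w ^ k - 1 ≠ 0 := by
    intro h
    have h1 : w ^ k = 1 := sub_eq_zero.mp h
    have h2 := congrArg norm h1
    rw [norm_pow, norm_one] at h2
    exact absurd h2 (one_lt_pow₀ hz1 hk0).ne'
  have hw : ∀ a : ℕ, exp (z + 2 * Real.pi * I * ((a * h : ℕ) : ℂ) / k) = w * ζ ^ a := by
    intro a
    rw [Complex.exp_add, hζdef, ← pow_mul, ← Complex.exp_nat_mul]
    congr 2
    push_cast
    ring
  have hζn : ‖ζ‖ = 1 := hζ.norm'_eq_one hk0
  have hinv : ∀ a : ℕ, (w * ζ ^ a - 1)⁻¹ = (∑ j ∈ Finset.range k, w ^ j * (ζ ^ a) ^ j) * (w ^ k - 1)⁻¹ := by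
    intro a
    have h1 : w * ζ ^ a ≠ 1 := by
      intro h
      have h2 := congrArg norm h
      rw [norm_mul, norm_pow, hζn, one_pow, mul_one, norm_one] at h2
      exact absurd h2 hz1.ne'
    have h3 : w * ζ ^ a - 1 ≠ 0 := sub_ne_zero.mpr h1
    have h4 : ∑ j ∈ Finset.range k, w ^ j * (ζ ^ a) ^ j = ((w * ζ ^ a) ^ k - 1) / (w * ζ ^ a - 1) := by
      rw [← geom_sum_eq h1]
      refine Finset.sum_congr rfl fun j _ => ?_
      rw [mul_pow]
    have h5 : (w * ζ ^ a) ^ k = w ^ k := by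
      rw [mul_pow, ← pow_mul, mul_comm a k, pow_mul, hζ.pow_eq_one, one_pow, mul_one]
    rw [h4, h5]
    field_simp
  rw [hW]
  have h6 : ∑ j ∈ Finset.range k, (exp (z + 2 * Real.pi * I * ((j * h : ℕ) : ℂ) / k) - 1)⁻¹
      = ∑ a ∈ Finset.range k, (∑ j ∈ Finset.range k, w ^ j * (ζ ^ a) ^ j) * (w ^ k - 1)⁻¹ := by
    refine Finset.sum_congr rfl fun a _ => ?_
    rw [hw, hinv]
  rw [h6, ← Finset.sum_mul, Finset.sum_comm]
  congr 1
  have h7 : ∀ j ∈ Finset.range k, ∑ a ∈ Finset.range k, w ^ j * (ζ ^ a) ^ j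
      = if j = 0 then (k : ℂ) else 0 := by
    intro j hj
    rw [← Finset.mul_sum, A14_sum hζ (Finset.mem_range.mp hj)]
    split_ifs with h
    · rw [h, pow_zero, one_mul]
    · rw [mul_zero]
  rw [Finset.sum_congr rfl h7, Finset.sum_ite_eq' (Finset.range k) 0 (fun _ => (k : ℂ)),
    if_pos (Finset.mem_range.mpr (by omega))]

end LP

end F_Y_A14

section F_Y_A14b

open Complex MeasureTheory Set Filter Topology
open scoped ComplexConjugate

namespace LP

open LZ (kk nS cf EE ER PP wt Sep)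

variable {N : ℕ} [NeZero N]

private lemma A14b_range (k N : ℕ) (F : ℕ → ℂ) :
    ∑ a ∈ Finset.range (k * N), F a = ∑ j ∈ Finset.range k, ∑ a ∈ Finset.range N, F (a + N * j) := by
  induction k with
  | zero => simp
  | succ k ih =>
    rw [Finset.sum_range_succ, ← ih, add_mul, one_mul, Finset.sum_range_add]
    congr 1
    refine Finset.sum_congr rfl fun a _ => ?_
    congr 1
    ring

private lemma A14b_zmod (G : ℕ → ℂ) :
    ∑ a ∈ Finset.range N, G a = ∑ a : ZMod N, G a.val := by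
  refine Finset.sum_nbij' (fun n => (n : ZMod N)) (fun a => a.val) ?_ ?_ ?_ ?_ ?_
  · intro a _
    exact Finset.mem_univ _
  · intro a _
    exact Finset.mem_range.mpr a.val_lt
  · intro a ha
    exact ZMod.val_cast_of_lt (Finset.mem_range.mp ha)
  · intro a _
    exact ZMod.natCast_zmod_val a
  · intro a ha
    rw [ZMod.val_cast_of_lt (Finset.mem_range.mp ha)]

/-- the exponential depends only on the class -/
private lemma A14b_exp (x : ℂ) {m n : ℤ} (h : (m : ZMod N) = (n : ZMod N)) :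
    exp (x + 2 * Real.pi * I * (m : ℂ) / N) = exp (x + 2 * Real.pi * I * (n : ℂ) / N) := by
  have h1 : (N : ℤ) ∣ n - m := by
    rw [← ZMod.intCast_zmod_eq_zero_iff_dvd]
    push_cast
    rw [h, sub_self]
  obtain ⟨t, ht⟩ := h1
  have h2 : (n : ℂ) = m + N * t := by
    have h3 : (n : ℤ) = m + N * t := by linarith
    exact_mod_cast congrArg (Int.cast : ℤ → ℂ) h3
  have hN : (N : ℂ) ≠ 0 := by exact_mod_cast NeZero.ne N
  rw [Complex.exp_eq_exp_iff_exists_int]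
  refine ⟨-t, ?_⟩
  rw [h2]
  push_cast
  field_simp
  ring

private lemma A14b_icc {M : ℕ} (hM : 1 ≤ M) (F : ℕ → ℂ) (hF : F M = F 0) :
    ∑ a ∈ Finset.Icc 1 M, F a = ∑ a ∈ Finset.range M, F a := by
  obtain ⟨m, rfl⟩ : ∃ m, M = m + 1 := ⟨M - 1, by omega⟩
  have h1 : Finset.Icc 1 (m + 1) = (Finset.range (m + 1)).image (fun a => a + 1) := by
    ext a
    simp only [Finset.mem_Icc, Finset.mem_image, Finset.mem_range]
    constructor
    · rintro ⟨h1, h2⟩
      exact ⟨a - 1, by omega, by omega⟩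
    · rintro ⟨b, hb, rfl⟩
      omega
  rw [h1, Finset.sum_image (fun a _ b _ h => by simpa using h), Finset.sum_range_succ, hF,
    Finset.sum_range_succ']

/-- sum over all pairs. a = a0 + N j (a0 in 1..N, j < k): by roots_sum with z = y + 2 pi i (a0 h - b k)/(k N) the sum over j is
k (exp(k y + 2 pi i (a0 h - b k)/N) - 1)^(-1); then substitute a = a0 h, b' = b k in ZMod N (units), chi(a0) = chi(a) chi^-1(h),
psi(b) = psi(b') psi^-1(k); exp(2 pi i m/N) depends only on m mod N. -/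
theorem PF_sum (χ ψ : DirichletCharacter ℂ N) (h k : ℕ) (hh : 1 ≤ h) (hk : 1 ≤ k) (hc : Nat.Coprime h k)
    (hhN : Nat.Coprime h N) (hkN : Nat.Coprime k N) (y : ℝ) (hy : 0 < y) :
    ∑ a ∈ Finset.Icc 1 (k * N), ∑ b : ZMod N, χ (a : ZMod N) * ψ b *
        (exp ((y : ℂ) + 2 * Real.pi * I * ((a : ℂ) * h - b.val * k) / (k * N)) - 1)⁻¹ =
      k * (χ⁻¹ (h : ZMod N) * ψ⁻¹ (k : ZMod N)) * PF χ ψ ((k : ℂ) * y) := by
  have hN : (N : ℂ) ≠ 0 := by exact_mod_cast NeZero.ne N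
  have hk0 : (k : ℂ) ≠ 0 := by exact_mod_cast (show k ≠ 0 by omega)
  have hN1 : 1 ≤ N := Nat.one_le_iff_ne_zero.mpr (NeZero.ne N)
  rw [A14b_icc (Nat.mul_pos hk hN1)]
  swap
  · refine Finset.sum_congr rfl fun b _ => ?_
    have e1 : ((k * N : ℕ) : ZMod N) = ((0 : ℕ) : ZMod N) := by
      push_cast
      simp
    have e2 : exp ((y : ℂ) + 2 * Real.pi * I * (((k * N : ℕ) : ℂ) * h - b.val * k) / (k * N)) =
        exp ((y : ℂ) + 2 * Real.pi * I * (((0 : ℕ) : ℂ) * h - b.val * k) / (k * N)) := by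
      rw [Complex.exp_eq_exp_iff_exists_int]
      refine ⟨h, ?_⟩
      push_cast
      field_simp
      ring
    rw [e1, e2]
  rw [A14b_range]
  -- the sum over `j`
  have step : ∑ j ∈ Finset.range k, ∑ a ∈ Finset.range N, ∑ b : ZMod N,
      χ ((a + N * j : ℕ) : ZMod N) * ψ b *
        (exp ((y : ℂ) + 2 * Real.pi * I * (((a + N * j : ℕ) : ℂ) * h - b.val * k) / (k * N)) - 1)⁻¹ =
      ∑ a : ZMod N, ∑ b : ZMod N, χ a * ψ b *
        (k * (exp ((k : ℂ) * y + 2 * Real.pi * I * (((a.val * h - b.val * k : ℤ)) : ℂ) / N) - 1)⁻¹) := by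
    rw [Finset.sum_comm]
    refine Eq.trans ?_ ((A14b_zmod (N := N) (fun a : ℕ => ∑ b : ZMod N, χ (a : ZMod N) * ψ b *
        (k * (exp ((k : ℂ) * y + 2 * Real.pi * I * (((a * h - b.val * k : ℤ)) : ℂ) / N) - 1)⁻¹))).trans ?_)
    · refine Finset.sum_congr rfl fun a _ => ?_
      rw [Finset.sum_comm]
      refine Finset.sum_congr rfl fun b _ => ?_
      have h1 := roots_sum h k hk hc ((y : ℂ) + 2 * Real.pi * I * ((a : ℂ) * h - b.val * k) / (k * N)) (by
        have h2 : ((y : ℂ) + 2 * Real.pi * I * ((a : ℂ) * h - b.val * k) / (k * N)) =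
            (y : ℂ) + ((2 * Real.pi * ((a : ℝ) * h - b.val * k) / (k * N) : ℝ) : ℂ) * I := by
          push_cast
          ring
        rw [h2, Complex.add_re, Complex.ofReal_re, Complex.re_ofReal_mul, Complex.I_re, mul_zero,
          add_zero]
        exact hy)
      have h3 : ∀ j : ℕ, χ ((a + N * j : ℕ) : ZMod N) = χ (a : ZMod N) := by
        intro j
        congr 1
        push_cast
        simp
      have h4 : (k : ℂ) * ((y : ℂ) + 2 * Real.pi * I * ((a : ℂ) * h - b.val * k) / (k * N)) =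
          (k : ℂ) * y + 2 * Real.pi * I * (((a * h - b.val * k : ℤ)) : ℂ) / N := by
        push_cast
        field_simp
      rw [h4] at h1
      rw [← h1, Finset.mul_sum]
      refine Finset.sum_congr rfl fun j _ => ?_
      rw [h3 j]
      congr 4
      push_cast
      field_simp
      ring
    · refine Finset.sum_congr rfl fun a _ => Finset.sum_congr rfl fun b _ => ?_
      rw [ZMod.natCast_zmod_val]
  rw [step]
  -- the substitution
  have huh := (ZMod.isUnit_iff_coprime h N).mpr hhN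
  have huk := (ZMod.isUnit_iff_coprime k N).mpr hkN
  obtain ⟨u, hu⟩ := huh
  obtain ⟨v, hv⟩ := huk
  unfold PF
  rw [← Equiv.sum_comp (Units.mulRight u) (fun a => ∑ b : ZMod N, χ a * ψ b *
    (exp ((k : ℂ) * y + 2 * Real.pi * I * ((a.val : ℂ) - b.val) / N) - 1)⁻¹), Finset.mul_sum]
  refine Finset.sum_congr rfl fun a _ => ?_
  rw [← Equiv.sum_comp (Units.mulRight v) (fun b => χ (Units.mulRight u a) * ψ b *
    (exp ((k : ℂ) * y + 2 * Real.pi * I * (((Units.mulRight u a : ZMod N).val : ℂ) - b.val) / N) - 1)⁻¹),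
    Finset.mul_sum]
  refine Finset.sum_congr rfl fun b _ => ?_
  simp only [Units.mulRight_apply, hu, hv]
  have hexp : exp ((k : ℂ) * y + 2 * Real.pi * I * (((a.val * h - b.val * k : ℤ)) : ℂ) / N) =
      exp ((k : ℂ) * y + 2 * Real.pi * I * (((a * (h : ZMod N)).val : ℂ) - (b * (k : ZMod N)).val) / N) := by
    have h5 := A14b_exp (N := N) ((k : ℂ) * y) (m := a.val * h - b.val * k)
      (n := ((a * (h : ZMod N)).val : ℤ) - (b * (k : ZMod N)).val) (by
        push_cast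
        rw [ZMod.natCast_zmod_val, ZMod.natCast_zmod_val, ZMod.natCast_zmod_val,
          ZMod.natCast_zmod_val])
    rw [h5]
    push_cast
    rfl
  have c1 : χ (h : ZMod N) * χ⁻¹ (h : ZMod N) = 1 := by
    rw [← MulChar.mul_apply, mul_inv_cancel, MulChar.one_apply (hu ▸ u.isUnit)]
  have c2 : ψ (k : ZMod N) * ψ⁻¹ (k : ZMod N) = 1 := by
    rw [← MulChar.mul_apply, mul_inv_cancel, MulChar.one_apply (hv ▸ v.isUnit)]
  rw [hexp, map_mul, map_mul]
  linear_combination (-(χ a * ψ b * k * (exp ((k : ℂ) * y + 2 * Real.pi * I *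
    (((a * (h : ZMod N)).val : ℂ) - (b * (k : ZMod N)).val) / N) - 1)⁻¹)) *
    (χ (h : ZMod N) * χ⁻¹ (h : ZMod N)) * c2 - (χ a * ψ b * k * (exp ((k : ℂ) * y + 2 * Real.pi * I *
    (((a * (h : ZMod N)).val : ℂ) - (b * (k : ZMod N)).val) / N) - 1)⁻¹) * c1

end LP

end F_Y_A14b

section F_Y_A19c

open Complex MeasureTheory Set Filter Topology
open scoped ComplexConjugate

namespace LP

open LZ (kk nS cf EE ER PP wt Sep)

variable {N : ℕ} [NeZero N]

theorem A19c_total (f : ZMod N → ℂ) : ∑ n ∈ Finset.Icc 1 N, f (n : ZMod N) = ∑ a, f a := by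
  have hN : 0 < N := Nat.pos_of_ne_zero (NeZero.ne N)
  refine Finset.sum_bij (fun n _ => (n : ZMod N)) (fun _ _ => Finset.mem_univ _) ?_ ?_ (fun _ _ => rfl)
  · intro a ha b hb hab
    rw [ZMod.natCast_eq_natCast_iff'] at hab
    rw [Finset.mem_Icc] at ha hb
    rcases eq_or_lt_of_le ha.2 with h1 | h1 <;> rcases eq_or_lt_of_le hb.2 with h2 | h2
    · rw [h1, h2]
    · rw [h1, Nat.mod_self, Nat.mod_eq_of_lt h2] at hab
      omega
    · rw [h2, Nat.mod_self, Nat.mod_eq_of_lt h1] at hab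
      omega
    · rwa [Nat.mod_eq_of_lt h1, Nat.mod_eq_of_lt h2] at hab
  · intro b _
    by_cases hb : b.val = 0
    · refine ⟨N, Finset.mem_Icc.mpr ⟨hN, le_rfl⟩, ?_⟩
      rw [ZMod.natCast_self]
      exact ((ZMod.val_eq_zero b).mp hb).symm
    · refine ⟨b.val, Finset.mem_Icc.mpr ⟨Nat.pos_of_ne_zero hb, (ZMod.val_lt b).le⟩, ?_⟩
      exact ZMod.natCast_zmod_val b

omit [NeZero N] in
theorem A19c_exp (h k : ℕ) (hk : 1 ≤ k) (hN : 0 < N) (a b : ℕ) (y : ℝ) :
    exp ((y : ℂ) + 2 * Real.pi * I * ((a : ℂ) * h - b * k) / (k * N)) =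
      exp ((y : ℂ) + 2 * Real.pi * I * (cab N h k a b : ℂ) / ((k * N : ℕ) : ℂ)) := by
  have hK : (0 : ℤ) < ((k * N : ℕ) : ℤ) := by
    have : 0 < k * N := Nat.mul_pos hk hN
    exact_mod_cast this
  set m : ℤ := ((a * h : ℕ) - (b * k : ℕ) : ℤ) with hm
  have h1 : ((cab N h k a b : ℕ) : ℤ) = m % ((k * N : ℕ) : ℤ) := by
    unfold cab
    exact Int.toNat_of_nonneg (Int.emod_nonneg _ hK.ne')
  have h2 : m = ((k * N : ℕ) : ℤ) * (m / ((k * N : ℕ) : ℤ)) + ((cab N h k a b : ℕ) : ℤ) := by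
    rw [h1]
    exact (Int.mul_ediv_add_emod m _).symm
  have h3 : ((a : ℂ) * h - b * k) = ((k * N : ℕ) : ℂ) * ((m / ((k * N : ℕ) : ℤ) : ℤ) : ℂ) +
      (cab N h k a b : ℂ) := by
    have h4 : ((m : ℤ) : ℂ) = (((k * N : ℕ) : ℤ) * (m / ((k * N : ℕ) : ℤ)) + ((cab N h k a b : ℕ) : ℤ) : ℤ) := by
      rw [← h2]
    rw [Int.cast_add, Int.cast_mul, Int.cast_natCast, Int.cast_natCast] at h4
    rw [← h4, hm]
    push_cast
    ring
  have hK0 : ((k * N : ℕ) : ℂ) ≠ 0 := by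
    have : k * N ≠ 0 := (Nat.mul_pos hk hN).ne'
    exact_mod_cast this
  rw [Complex.exp_eq_exp_iff_exists_int]
  refine ⟨m / ((k * N : ℕ) : ℤ), ?_⟩
  rw [h3]
  have e1 : ((k : ℂ) * N) = ((k * N : ℕ) : ℂ) := by push_cast; ring
  rw [e1]
  field_simp
  ring

omit [NeZero N] in
theorem A19c_zero {h k : ℕ} (hk : 1 ≤ k) (hN : 0 < N) (a b : ℕ) :
    cab N h k a b = 0 ↔ ((k * N : ℕ) : ℤ) ∣ ((a * h : ℕ) - (b * k : ℕ) : ℤ) := by
  have hK : (0 : ℤ) < ((k * N : ℕ) : ℤ) := by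
    have : 0 < k * N := Nat.mul_pos hk hN
    exact_mod_cast this
  unfold cab
  rw [Int.toNat_eq_zero, Int.dvd_iff_emod_eq_zero]
  constructor
  · intro h1
    exact le_antisymm h1 (Int.emod_nonneg _ hK.ne')
  · intro h1
    rw [h1]

theorem A19c_inner (ψ : DirichletCharacter ℂ N) {h k : ℕ} (hk : 1 ≤ k) (a' : ℕ) :
    ∑ b : ZMod N, (if cab N h k (k * a') b.val = 0 then ψ b else 0) = ψ ((a' * h : ℕ) : ZMod N) := by
  have hN : 0 < N := Nat.pos_of_ne_zero (NeZero.ne N)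
  have key : ∀ b : ZMod N, cab N h k (k * a') b.val = 0 ↔ b = ((a' * h : ℕ) : ZMod N) := by
    intro b
    rw [A19c_zero hk hN]
    have hk0 : (k : ℤ) ≠ 0 := by exact_mod_cast (by omega : k ≠ 0)
    have e1 : ((k * a' * h : ℕ) - (b.val * k : ℕ) : ℤ) = (k : ℤ) * (((a' * h : ℕ) : ℤ) - (b.val : ℤ)) := by
      push_cast
      ring
    have e2 : ((k * N : ℕ) : ℤ) = (k : ℤ) * (N : ℤ) := by push_cast; ring
    rw [e1, e2, mul_dvd_mul_iff_left hk0]
    rw [← ZMod.intCast_zmod_eq_zero_iff_dvd]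
    push_cast
    rw [ZMod.natCast_zmod_val, sub_eq_zero]
    constructor
    · intro h1
      exact h1.symm
    · intro h1
      exact h1.symm
  simp_rw [key]
  rw [Finset.sum_ite_eq' Finset.univ]
  simp

theorem A19c_count (χ ψ : DirichletCharacter ℂ N) (h k : ℕ) (hk : 1 ≤ k) (hc : Nat.Coprime h k) :
    ∑ a ∈ Finset.Icc 1 (k * N), ∑ b : ZMod N,
      (if cab N h k a b.val = 0 then χ (a : ZMod N) * ψ b else 0) =
      χ (k : ZMod N) * ψ (h : ZMod N) * Sf χ ψ := by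
  have hN : 0 < N := Nat.pos_of_ne_zero (NeZero.ne N)
  have hsub : (Finset.Icc 1 N).image (fun a' => k * a') ⊆ Finset.Icc 1 (k * N) := by
    intro a ha
    obtain ⟨a', ha', rfl⟩ := Finset.mem_image.mp ha
    rw [Finset.mem_Icc] at ha' ⊢
    exact ⟨Nat.mul_pos hk ha'.1, Nat.mul_le_mul_left _ ha'.2⟩
  rw [← Finset.sum_subset hsub]
  · rw [Finset.sum_image (fun a _ b _ hab => Nat.eq_of_mul_eq_mul_left hk hab)]
    have h1 : ∀ a' : ℕ, ∑ b : ZMod N, (if cab N h k (k * a') b.val = 0 then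
        χ ((k * a' : ℕ) : ZMod N) * ψ b else 0) =
        χ (k : ZMod N) * ψ (h : ZMod N) * (χ (a' : ZMod N) * ψ (a' : ZMod N)) := by
      intro a'
      have h2 : ∀ b : ZMod N, (if cab N h k (k * a') b.val = 0 then
          χ ((k * a' : ℕ) : ZMod N) * ψ b else 0) =
          χ ((k * a' : ℕ) : ZMod N) * (if cab N h k (k * a') b.val = 0 then ψ b else 0) := by
        intro b
        split_ifs
        · rfl
        · rw [mul_zero]
      rw [Finset.sum_congr rfl (fun b _ => h2 b), ← Finset.mul_sum, A19c_inner ψ hk a']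
      push_cast
      rw [map_mul, map_mul]
      ring
    rw [Finset.sum_congr rfl (fun a' _ => h1 a'), ← Finset.mul_sum]
    congr 1
    exact A19c_total (fun a => χ a * ψ a)
  · intro a ha ha2
    refine Finset.sum_eq_zero fun b _ => ?_
    rw [if_neg]
    intro h0
    rw [A19c_zero hk hN] at h0
    apply ha2
    have hk1 : (k : ℤ) ∣ ((a * h : ℕ) : ℤ) := by
      have h3 : (k : ℤ) ∣ ((k * N : ℕ) : ℤ) := by
        push_cast
        exact Dvd.intro _ rfl
      have h4 := h3.trans h0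
      have h5 : (k : ℤ) ∣ ((b.val * k : ℕ) : ℤ) := by
        push_cast
        exact Dvd.intro_left _ rfl
      have := dvd_add h4 h5
      rwa [sub_add_cancel] at this
    have hk2 : k ∣ a * h := by exact_mod_cast hk1
    have hk3 : k ∣ a := (Nat.Coprime.dvd_of_dvd_mul_right hc.symm hk2)
    obtain ⟨a', rfl⟩ := hk3
    rw [Finset.mem_Icc] at ha
    refine Finset.mem_image.mpr ⟨a', Finset.mem_Icc.mpr ⟨?_, ?_⟩, rfl⟩
    · rcases Nat.eq_zero_or_pos a' with h5 | h5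
      · rw [h5, mul_zero] at ha
        omega
      · exact h5
    · exact Nat.le_of_mul_le_mul_left ha.2 hk

theorem A19c_swap (χ ψ : DirichletCharacter ℂ N) (h k : ZMod N) :
    χ k * ψ h * Sf χ ψ = χ⁻¹ h * ψ⁻¹ k * Sf χ ψ := by
  by_cases h0 : χ * ψ = 1
  · have h1 : ψ = χ⁻¹ := (inv_eq_of_mul_eq_one_right h0).symm
    rw [h1, inv_inv]
    ring
  · have h1 : Sf χ ψ = 0 := by
      unfold Sf
      have h2 := MulChar.sum_eq_zero_of_ne_one h0
      rw [← h2]
      exact Finset.sum_congr rfl fun a _ => (MulChar.mul_apply χ ψ a).symm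
    rw [h1, mul_zero, mul_zero]

theorem A19c_ph (h k : ℕ) (hk : 1 ≤ k) (a b : ℕ) (y : ℝ) :
    ph k (k * N) (cab N h k a b) y =
      (exp ((y : ℂ) + 2 * Real.pi * I * ((a : ℂ) * h - b * k) / (k * N)) - 1)⁻¹ -
        (if cab N h k a b = 0 then ((Real.exp (-(k * y)) / y : ℝ) : ℂ) else 0) := by
  have hN : 0 < N := Nat.pos_of_ne_zero (NeZero.ne N)
  rw [A19c_exp h k hk hN a b y]
  unfold ph
  split_ifs with h0
  · rw [h0]
    push_cast
    simp
  · rw [sub_zero]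

/-- sum over the pairs of the functions ph: exp(y + 2 pi i (a h - b k)/(kN)) = exp(y + 2 pi i cab/(kN)); cab = 0 iff a = k a', a' h = b
mod N (a' in 1..N, b determined): the sum of chi(a) psi(b) over these pairs is sum_{a'} chi(k a') psi(h a') = chi(k) psi(h) Sf.
If Sf <> 0 then chi*psi = 1 (MulChar.sum_eq_zero_of_ne_one) and chi(k) psi(h) = chi^-1(h) psi^-1(k). -/
theorem ph_sum (χ ψ : DirichletCharacter ℂ N) (h k : ℕ) (hh : 1 ≤ h) (hk : 1 ≤ k) (hc : Nat.Coprime h k)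
    (hhN : Nat.Coprime h N) (hkN : Nat.Coprime k N) (y : ℝ) (hy : 0 < y) :
    ∑ a ∈ Finset.Icc 1 (k * N), ∑ b : ZMod N, χ (a : ZMod N) * ψ b * ph k (k * N) (cab N h k a b.val) y =
      k * (χ⁻¹ (h : ZMod N) * ψ⁻¹ (k : ZMod N)) *
        (PF χ ψ ((k : ℂ) * y) - Sf χ ψ * ((Real.exp (-(k * y)) / (k * y) : ℝ) : ℂ)) ∧
    χ (k : ZMod N) * ψ (h : ZMod N) * Sf χ ψ = χ⁻¹ (h : ZMod N) * ψ⁻¹ (k : ZMod N) * Sf χ ψ := by
  have hswap := A19c_swap χ ψ (h : ZMod N) (k : ZMod N)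
  refine ⟨?_, hswap⟩
  have hk0 : (k : ℂ) ≠ 0 := by exact_mod_cast (by omega : k ≠ 0)
  have hy0 : (y : ℂ) ≠ 0 := by exact_mod_cast hy.ne'
  have h1 : ∀ (a : ℕ) (b : ZMod N), χ (a : ZMod N) * ψ b * ph k (k * N) (cab N h k a b.val) y =
      χ (a : ZMod N) * ψ b *
        (exp ((y : ℂ) + 2 * Real.pi * I * ((a : ℂ) * h - b.val * k) / (k * N)) - 1)⁻¹ -
      (if cab N h k a b.val = 0 then χ (a : ZMod N) * ψ b else 0) *
        ((Real.exp (-(k * y)) / y : ℝ) : ℂ) := by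
    intro a b
    rw [A19c_ph h k hk a b.val y]
    split_ifs
    · ring
    · ring
  have h2 : ∑ a ∈ Finset.Icc 1 (k * N), ∑ b : ZMod N, χ (a : ZMod N) * ψ b *
      ph k (k * N) (cab N h k a b.val) y =
      (∑ a ∈ Finset.Icc 1 (k * N), ∑ b : ZMod N, χ (a : ZMod N) * ψ b *
        (exp ((y : ℂ) + 2 * Real.pi * I * ((a : ℂ) * h - b.val * k) / (k * N)) - 1)⁻¹) -
      (∑ a ∈ Finset.Icc 1 (k * N), ∑ b : ZMod N,
        (if cab N h k a b.val = 0 then χ (a : ZMod N) * ψ b else 0)) *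
        ((Real.exp (-(k * y)) / y : ℝ) : ℂ) := by
    rw [Finset.sum_mul, ← Finset.sum_sub_distrib]
    refine Finset.sum_congr rfl fun a _ => ?_
    rw [Finset.sum_mul, ← Finset.sum_sub_distrib]
    exact Finset.sum_congr rfl fun b _ => h1 a b
  rw [h2, PF_sum χ ψ h k hh hk hc hhN hkN y hy, A19c_count χ ψ h k hk hc, hswap]
  push_cast
  field_simp

end LP

end F_Y_A19c
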