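import Pool.Agent.Lib.MP_0f5a55_nt.V.V02
import Pool.Agent.Lib.MP_0f5a55_nt.V.V22
import Pool.Agent.Lib.MP_0f5a55_nt.V.V43

section F_E04

open Complex MeasureTheory Set Filter Topology
open scoped ComplexConjugate

namespace LZ

private theorem E04_log (x : ℝ) (hx : 4 ≤ x) : 1 ≤ Real.log x := by
  have h1 : Real.exp 1 ≤ x := by
    have := Real.exp_one_lt_d9
    linarith
  have := Real.log_le_log (Real.exp_pos 1) h1
  rwa [Real.log_exp] at this

/-- (6.3) primal: f(s) = sum a_n n^(-r(s-1/2)), sum_sep with 2 rad = min(d,1)/log T, dir_mean for every sigma;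
n^(-r sigma) <= exp(3|r|) as N <= T^2. -/
theorem primal_sieve (r d : ℝ) (hr : r ≠ 0) (hd : 0 < d) : ∃ C T0 : ℝ, 0 < C ∧ 2 ≤ T0 ∧ ∀ T : ℝ, T0 ≤ T →
    ∀ Y : Finset ℝ, (∀ y ∈ Y, |y| ≤ T) → Sep (d / Real.log T) Y → ∀ (N : ℕ), 1 ≤ N → (N : ℝ) ≤ T ^ 2 →
    ∀ a : ℕ → ℂ, ∑ y ∈ Y, ‖∑ n ∈ Finset.Ioc N (2 * N), a n * (n : ℂ) ^ (-(r * y * I))‖ ^ 2 ≤
      C * Real.log T * (T + N) * ∑ n ∈ Finset.Ioc N (2 * N), ‖a n‖ ^ 2 := by
  obtain ⟨C0, hC0, HC⟩ := dir_mean r hr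
  set m : ℝ := min d 1 with hm
  have hm0 : 0 < m := lt_min hd one_pos
  have hm1 : m ≤ 1 := min_le_right _ _
  have hmd : m ≤ d := min_le_left _ _
  refine ⟨8 * C0 * Real.exp (3 * |r|) / (Real.pi * m), 4, by positivity, by norm_num,
    fun T hT Y hY hS N hN hNT a => ?_⟩
  have hL1 : 1 ≤ Real.log T := E04_log T hT
  have hL0 : 0 < Real.log T := by linarith
  have hT0 : 0 < T := by linarith
  set ρ : ℝ := m / (2 * Real.log T) with hρ
  have hρ0 : 0 < ρ := by positivity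
  have hρ1 : ρ ≤ 1 / 2 := by
    rw [hρ, div_le_div_iff₀ (by linarith) two_pos]
    linarith
  have h2ρ : 2 * ρ = m / Real.log T := by
    rw [hρ, mul_comm 2 (Real.log T), ← div_div]; ring
  have hSep : Sep (2 * ρ) Y := by
    intro x hx y hy hxy
    refine le_trans ?_ (hS x hx y hy hxy)
    rw [h2ρ]
    gcongr
  set f : ℂ → ℂ := fun s => ∑ n ∈ Finset.Ioc N (2 * N), a n * (n : ℂ) ^ (-(r * (s - 1/2))) with hf
  have hne : ∀ n ∈ Finset.Ioc N (2 * N), (n : ℂ) ≠ 0 := fun n hn => by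
    rw [Finset.mem_Ioc] at hn
    exact_mod_cast (by omega : n ≠ 0)
  have hfd : ∀ z : ℂ, DifferentiableAt ℂ f z := by
    intro z
    rw [hf]
    refine DifferentiableAt.fun_sum fun n hn => ?_
    have h1 : DifferentiableAt ℂ (fun s : ℂ => -(r * (s - 1/2))) z := by fun_prop
    exact (h1.const_cpow (Or.inl (hne n hn))).const_mul (a n)
  have key := sum_sep (f := f) (r := ρ) (a := -T) (b := T) hρ0 (by linarith) Y
    (fun y hy => abs_le.1 (hY y hy)) hSep (fun z _ _ _ => hfd z)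
  have e1 : ∀ y : ℝ, f (1/2 + y * I) = ∑ n ∈ Finset.Ioc N (2 * N), a n * (n : ℂ) ^ (-(r * y * I)) := by
    intro y
    rw [hf]
    refine Finset.sum_congr rfl fun n _ => ?_
    congr 2
    ring
  simp only [e1] at key
  set Sa : ℝ := ∑ n ∈ Finset.Ioc N (2 * N), ‖a n‖ ^ 2 with hSa
  have hSa0 : 0 ≤ Sa := Finset.sum_nonneg fun n _ => by positivity
  set K : ℝ := C0 * (2 * T + N) * (Real.exp (3 * |r|) * Sa) with hK
  have hK0 : 0 ≤ K := by positivity
  have inner : ∀ σ : ℝ, |σ| ≤ ρ → ∫ t in (-T - ρ)..(T + ρ), ‖f (1/2 + σ + t * I)‖ ^ 2 ≤ K := by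
    intro σ hσ
    have e2 : ∀ t : ℝ, f (1/2 + σ + t * I) =
        ∑ n ∈ Finset.Ioc N (2 * N), (a n * (n : ℂ) ^ (-(r * σ : ℂ))) * (n : ℂ) ^ (-(r * t * I)) := by
      intro t
      rw [hf]
      refine Finset.sum_congr rfl fun n hn => ?_
      rw [mul_assoc, ← cpow_add _ _ (hne n hn)]
      congr 2
      ring
    simp only [e2]
    have hneg : -T - ρ = -(T + ρ) := by ring
    rw [hneg]
    refine (HC (T + ρ) N (by linarith) hN _).trans ?_
    rw [hK]
    have hsum : ∑ n ∈ Finset.Ioc N (2 * N), ‖a n * (n : ℂ) ^ (-(r * σ : ℂ))‖ ^ 2 ≤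
        Real.exp (3 * |r|) * Sa := by
      rw [hSa, Finset.mul_sum]
      refine Finset.sum_le_sum fun n hn => ?_
      have hn' := Finset.mem_Ioc.1 hn
      have hn1 : (1 : ℝ) ≤ n := by exact_mod_cast (by omega : 1 ≤ n)
      have hn0 : (0 : ℝ) < n := by linarith
      have hn2 : (n : ℝ) ≤ 2 * N := by exact_mod_cast hn'.2
      rw [norm_mul, mul_pow, mul_comm]
      refine mul_le_mul_of_nonneg_right ?_ (by positivity)
      have e3 : ‖(n : ℂ) ^ (-(r * σ : ℂ))‖ = (n : ℝ) ^ (-(r * σ)) := by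
        have h4 : (-(r * σ : ℂ)) = ((-(r * σ) : ℝ) : ℂ) := by push_cast; ring
        rw [h4, show ((n : ℕ) : ℂ) = ((n : ℝ) : ℂ) by push_cast; rfl, ← ofReal_cpow hn0.le,
          Complex.norm_real, Real.norm_of_nonneg (by positivity)]
      rw [e3, ← Real.rpow_natCast, ← Real.rpow_mul hn0.le, Real.rpow_def_of_pos hn0]
      refine Real.exp_le_exp.2 ?_
      have hlogn0 : 0 ≤ Real.log n := Real.log_nonneg hn1
      have hlogn : Real.log n ≤ 3 * Real.log T := by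
        have h5 : (n : ℝ) ≤ T ^ 3 := by
          have h5a : 2 * T ^ 2 ≤ T * T ^ 2 :=
            mul_le_mul_of_nonneg_right (by linarith) (sq_nonneg T)
          have h5b : T * T ^ 2 = T ^ 3 := by ring
          linarith
        calc Real.log n ≤ Real.log (T ^ 3) := Real.log_le_log hn0 h5
          _ = 3 * Real.log T := by rw [Real.log_pow]; norm_num
      have h6 : |r * σ| ≤ |r| * ρ := by
        rw [abs_mul]; gcongr
      have h7 : -(r * σ) ≤ |r| * ρ := (neg_le_abs _).trans h6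
      push_cast
      calc Real.log n * (-(r * σ) * 2) ≤ Real.log n * (|r| * ρ * 2) := by gcongr
        _ ≤ (3 * Real.log T) * (|r| * ρ * 2) := by gcongr
        _ = 3 * |r| * (Real.log T * (2 * ρ)) := by ring
        _ = 3 * |r| * m := by rw [h2ρ, mul_div_cancel₀ _ hL0.ne']
        _ ≤ 3 * |r| * 1 := by gcongr
        _ = 3 * |r| := by ring
    have h8 : T + ρ + N ≤ 2 * T + N := by linarith
    calc C0 * (T + ρ + N) * ∑ n ∈ Finset.Ioc N (2 * N), ‖a n * (n : ℂ) ^ (-(r * σ : ℂ))‖ ^ 2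
        ≤ C0 * (T + ρ + N) * (Real.exp (3 * |r|) * Sa) := by gcongr
      _ ≤ C0 * (2 * T + N) * (Real.exp (3 * |r|) * Sa) := by gcongr
  have outer : ∫ σ in (-ρ)..ρ, ∫ t in (-T - ρ)..(T + ρ), ‖f (1/2 + σ + t * I)‖ ^ 2 ≤ K * (2 * ρ) := by
    have h9 := intervalIntegral.norm_integral_le_of_norm_le_const (a := -ρ) (b := ρ) (C := K)
      (f := fun σ : ℝ => ∫ t in (-T - ρ)..(T + ρ), ‖f (1/2 + σ + t * I)‖ ^ 2) (fun σ hσ => by
        rw [uIoc_of_le (by linarith)] at hσ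
        have h10 : 0 ≤ ∫ t in (-T - ρ)..(T + ρ), ‖f (1/2 + σ + t * I)‖ ^ 2 :=
          intervalIntegral.integral_nonneg (by linarith) fun t _ => by positivity
        rw [Real.norm_of_nonneg h10]
        exact inner σ (abs_le.2 ⟨hσ.1.le, hσ.2⟩))
    have h11 : |ρ - -ρ| = 2 * ρ := by rw [abs_of_pos (by linarith)]; ring
    rw [h11] at h9
    exact (le_abs_self _).trans h9
  refine key.trans ?_
  calc (Real.pi * ρ ^ 2)⁻¹ * ∫ σ in (-ρ)..ρ, ∫ t in (-T - ρ)..(T + ρ), ‖f (1/2 + σ + t * I)‖ ^ 2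
      ≤ (Real.pi * ρ ^ 2)⁻¹ * (K * (2 * ρ)) := by gcongr
    _ = 4 * C0 * Real.exp (3 * |r|) / (Real.pi * m) * Real.log T * (2 * T + N) * Sa := by
        rw [hK, hρ]
        have hpi := Real.pi_ne_zero
        field_simp
        ring
    _ ≤ 4 * C0 * Real.exp (3 * |r|) / (Real.pi * m) * Real.log T * (2 * (T + N)) * Sa := by
        gcongr
        have : (0:ℝ) ≤ N := Nat.cast_nonneg N
        linarith
    _ = 8 * C0 * Real.exp (3 * |r|) / (Real.pi * m) * Real.log T * (T + N) * Sa := by ring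

end LZ

end F_E04
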