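import Pool.Agent.Lib.MP_0f5a55_nt.V.V02
import Pool.Agent.Lib.MP_0f5a55_nt.V.V06
import Pool.Agent.Lib.MP_0f5a55_nt.V.V10
import Pool.Agent.Lib.MP_0f5a55_nt.V.V17
import Pool.Agent.Lib.MP_0f5a55_nt.V.V30
import Pool.Agent.Lib.MP_0f5a55_nt.V.V33
import Pool.Agent.Lib.MP_0f5a55_nt.V.V39

section F_M05

open Complex MeasureTheory Set Filter Topology
open scoped ComplexConjugate

namespace LZ

theorem M05_nS_pos {z : ℕ} {S : Finset ℕ} (hS : S ∈ (PP z).powerset) : 1 ≤ nS S := by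
  unfold nS
  refine Finset.one_le_prod' fun p hp => ?_
  have h1 := Finset.mem_powerset.mp hS hp
  have h2 := (Finset.mem_filter.mp h1).2
  exact h2.one_lt.le

theorem M05_mol {lam l : ℝ} (h0 : 0 ≤ lam) (h1 : lam ≤ 1) (hl : 0 < l) :
    ∃ M : ℝ, 0 < M ∧ ∀ s : ℂ, 0 ≤ s.re → ‖Mol lam l s‖ ≤ M := by
  refine ⟨Real.exp l + 1, by positivity, fun s hs => ?_⟩
  have hc := (cf_sum lam l h0 h1 hl ⌊Real.exp l⌋₊).2.2
  unfold Mol
  refine (norm_sum_le _ _).trans ?_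
  have h2 : ∑ S ∈ (PP ⌊Real.exp l⌋₊).powerset, ‖(cf lam l S : ℂ) * (nS S : ℂ) ^ (-s)‖ ≤
      ∑ S ∈ (PP ⌊Real.exp l⌋₊).powerset, |cf lam l S| := by
    refine Finset.sum_le_sum fun S hS => ?_
    rw [norm_mul, Complex.norm_real, Real.norm_eq_abs]
    have h3 := M05_nS_pos hS
    have h4 : ‖(nS S : ℂ) ^ (-s)‖ ≤ 1 := by
      rw [Complex.norm_natCast_cpow_of_pos (by omega)]
      apply Real.rpow_le_one_of_one_le_of_nonpos
      · exact_mod_cast h3
      · simpa using hs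
    exact mul_le_of_le_one_right (abs_nonneg _) h4
  linarith

theorem M05_mol_cont (lam l : ℝ) : Continuous fun s : ℂ => Mol lam l s := by
  unfold Mol
  refine continuous_finsetSum _ fun S hS => ?_
  refine continuous_const.mul ?_
  have h3 := M05_nS_pos hS
  have h4 : (nS S : ℂ) ≠ 0 := by
    have : nS S ≠ 0 := by omega
    exact_mod_cast this
  exact (continuous_neg).const_cpow (Or.inl h4)

/-- crude bound of XX uniformly in the parameters (zeta_pol, finite sums). -/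
theorem XX_bound (lam : Fin 4 → ℝ) (hl : ∀ j, 0 ≤ lam j ∧ lam j ≤ 1) (l U : ℝ) (hl0 : 0 < l) (hU : 0 ≤ U) :
    ∃ C : ℝ, 0 < C ∧
    ∀ (α β : ℂ) (τ : Fin 4 → ℂ), |α.re| ≤ 1/16 → |β.re| ≤ 1/16 → |α.im| ≤ U → |β.im| ≤ U →
    (∀ j, |(τ j).re| ≤ 1/16) → Continuous (XX lam l α β τ) ∧
    ∀ t : ℝ, ‖XX lam l α β τ t‖ ≤ C * (1 + |t|) ^ 2 := by
  obtain ⟨Z, hZ, hZb⟩ := zeta_pol
  choose M hM hMb using fun j => M05_mol (hl j).1 (hl j).2 hl0
  refine ⟨(Z * (1 + U)) ^ 2 * (M 0 * M 1 * M 2 * M 3), ?_, ?_⟩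
  · have h0 := hM 0
    have h1 := hM 1
    have h2 := hM 2
    have h3 := hM 3
    positivity
  intro α β τ hα hβ hαU hβU hτ
  have hτre : ∀ j, -(1/16) ≤ (τ j).re := fun j => (abs_le.mp (hτ j)).1
  have hzeta : ∀ (γ : ℂ) (ε : ℝ) (t : ℝ), |γ.re| ≤ 1/16 → |ε| = 1 →
      5/16 ≤ (1/2 + γ + ε * t * I).re ∧ 1/4 ≤ ‖(1/2 + γ + ε * t * I) - 1‖ ∧
      (1/2 + γ + ε * t * I) ≠ 1 := by
    intro γ ε t hγ hε
    have h1 : (1/2 + γ + ε * t * I : ℂ).re = 1/2 + γ.re := by simp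
    have h2 := abs_le.mp hγ
    have h3 : ((1/2 + γ + ε * t * I : ℂ) - 1).re = γ.re - 1/2 := by
      rw [Complex.sub_re, h1, Complex.one_re]
      ring
    have h4 : |((1/2 + γ + ε * t * I : ℂ) - 1).re| ≤ ‖(1/2 + γ + ε * t * I : ℂ) - 1‖ :=
      Complex.abs_re_le_norm _
    have h5 : 1/4 ≤ ‖(1/2 + γ + ε * t * I : ℂ) - 1‖ := by
      refine le_trans ?_ h4
      rw [h3, abs_of_nonpos (by linarith [h2.2])]
      linarith [h2.2]
    refine ⟨by rw [h1]; linarith [h2.1], h5, ?_⟩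
    intro h6
    rw [h6, sub_self, norm_zero] at h5
    linarith
  have ha : ∀ t : ℝ, (1/2 + α + t * I : ℂ) = 1/2 + α + ((1 : ℝ) : ℂ) * t * I := by
    intro t
    push_cast
    ring
  have hb : ∀ t : ℝ, (1/2 + β - t * I : ℂ) = 1/2 + β + ((-1 : ℝ) : ℂ) * t * I := by
    intro t
    push_cast
    ring
  have hcα : Continuous fun t : ℝ => riemannZeta (1/2 + α + t * I) := by
    rw [continuous_iff_continuousAt]
    intro t
    have h1 := (hzeta α 1 t hα (by norm_num)).2.2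
    rw [← ha] at h1
    exact (differentiableAt_riemannZeta h1).continuousAt.comp
      (f := fun t : ℝ => (1/2 + α + t * I : ℂ)) (by fun_prop)
  have hcβ : Continuous fun t : ℝ => riemannZeta (1/2 + β - t * I) := by
    rw [continuous_iff_continuousAt]
    intro t
    have h1 := (hzeta β (-1) t hβ (by norm_num)).2.2
    rw [← hb] at h1
    exact (differentiableAt_riemannZeta h1).continuousAt.comp
      (f := fun t : ℝ => (1/2 + β - t * I : ℂ)) (by fun_prop)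
  constructor
  · unfold XX
    refine (hcα.mul hcβ).mul ?_
    refine ((Continuous.mul ?_ ?_).mul ?_).mul ?_
    · exact (M05_mol_cont _ _).comp (by fun_prop)
    · exact (M05_mol_cont _ _).comp (by fun_prop)
    · exact (M05_mol_cont _ _).comp (by fun_prop)
    · exact (M05_mol_cont _ _).comp (by fun_prop)
  · intro t
    unfold XX
    have hz1 : ‖riemannZeta (1/2 + α + t * I)‖ ≤ Z * (1 + U) * (1 + |t|) := by
      have h1 := hzeta α 1 t hα (by norm_num)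
      rw [← ha] at h1
      refine (hZb _ h1.1 h1.2.1).trans ?_
      have h2 : |(1/2 + α + t * I : ℂ).im| ≤ U + |t| := by
        have h3 : (1/2 + α + t * I : ℂ).im = α.im + t := by simp
        rw [h3]
        exact (abs_add_le _ _).trans (add_le_add hαU le_rfl)
      have h4 : 0 ≤ |t| := abs_nonneg t
      have h5 : 1 + |(1/2 + α + t * I : ℂ).im| ≤ (1 + U) * (1 + |t|) := by
        have h6 := mul_nonneg ((abs_nonneg _).trans hαU) h4
        linarith only [h2, h6, (show (1 + U) * (1 + |t|) = 1 + U + |t| + U * |t| by ring)]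
      calc Z * (1 + |(1/2 + α + t * I : ℂ).im|) ≤ Z * ((1 + U) * (1 + |t|)) :=
            mul_le_mul_of_nonneg_left h5 hZ.le
        _ = _ := by ring
    have hz2 : ‖riemannZeta (1/2 + β - t * I)‖ ≤ Z * (1 + U) * (1 + |t|) := by
      have h1 := hzeta β (-1) t hβ (by norm_num)
      rw [← hb] at h1
      refine (hZb _ h1.1 h1.2.1).trans ?_
      have h2 : |(1/2 + β - t * I : ℂ).im| ≤ U + |t| := by
        have h3 : (1/2 + β - t * I : ℂ).im = β.im + -t := by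
          simp
          ring
        rw [h3]
        refine (abs_add_le _ _).trans ?_
        rw [abs_neg]
        exact add_le_add hβU le_rfl
      have h4 : 0 ≤ |t| := abs_nonneg t
      have h5 : 1 + |(1/2 + β - t * I : ℂ).im| ≤ (1 + U) * (1 + |t|) := by
        have h6 := mul_nonneg ((abs_nonneg _).trans hαU) h4
        linarith only [h2, h6, (show (1 + U) * (1 + |t|) = 1 + U + |t| + U * |t| by ring)]
      calc Z * (1 + |(1/2 + β - t * I : ℂ).im|) ≤ Z * ((1 + U) * (1 + |t|)) :=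
            mul_le_mul_of_nonneg_left h5 hZ.le
        _ = _ := by ring
    have hm : ∀ (j : Fin 4) (ε : ℝ), ‖Mol (lam j) l (1/2 + τ j + ε * t * I)‖ ≤ M j := by
      intro j ε
      apply hMb j
      have h1 : (1/2 + τ j + ε * t * I : ℂ).re = 1/2 + (τ j).re := by simp
      rw [h1]
      linarith [hτre j]
    have hm0 := hm 0 1
    have hm1 := hm 1 1
    have hm2 := hm 2 (-1)
    have hm3 := hm 3 (-1)
    have hm0' : (1/2 + τ 0 + t * I : ℂ) = 1/2 + τ 0 + ((1 : ℝ) : ℂ) * t * I := by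
      push_cast
      ring
    have hm1' : (1/2 + τ 1 + t * I : ℂ) = 1/2 + τ 1 + ((1 : ℝ) : ℂ) * t * I := by
      push_cast
      ring
    have hm2' : (1/2 + τ 2 - t * I : ℂ) = 1/2 + τ 2 + ((-1 : ℝ) : ℂ) * t * I := by
      push_cast
      ring
    have hm3' : (1/2 + τ 3 - t * I : ℂ) = 1/2 + τ 3 + ((-1 : ℝ) : ℂ) * t * I := by
      push_cast
      ring
    rw [← hm0'] at hm0
    rw [← hm1'] at hm1
    rw [← hm2'] at hm2
    rw [← hm3'] at hm3
    have p0 := hM 0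
    have p1 := hM 1
    have p2 := hM 2
    have p3 := hM 3
    have hZU : 0 ≤ Z * (1 + U) * (1 + |t|) := by positivity
    rw [norm_mul, norm_mul, norm_mul, norm_mul, norm_mul]
    calc _ ≤ (Z * (1 + U) * (1 + |t|)) * (Z * (1 + U) * (1 + |t|)) * (M 0 * M 1 * M 2 * M 3) := by
          gcongr
      _ = _ := by ring

end LZ

end F_M05

section F_Q11

open Complex MeasureTheory Set Filter Topology
open scoped ComplexConjugate

namespace LZ

theorem Q11_g : Integrable (fun u : ℝ => ‖kk u‖ * (1 + |u|) ^ 2) := by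
  obtain ⟨hc, hi⟩ := kk_facts
  refine hi.mono' ?_ (Eventually.of_forall fun u => ?_)
  · exact (hc.norm.mul ((continuous_const.add continuous_abs).pow 2)).aestronglyMeasurable
  · have h1 : (1 : ℝ) ≤ 1 + |u| := by linarith [abs_nonneg u]
    rw [Real.norm_of_nonneg (by positivity)]
    exact mul_le_mul_of_nonneg_left (pow_le_pow_right₀ h1 (by norm_num)) (norm_nonneg _)

theorem Q11_q (a b : ℝ) : 1 + |a + b| ≤ (1 + |a|) * (1 + |b|) := by
  have h1 := abs_add_le a b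
  have h2 := mul_nonneg (abs_nonneg a) (abs_nonneg b)
  nlinarith

private theorem Q11_ml {a b c d : ℝ} (h : 0 ≤ a ∧ a ≤ b) (hc : 0 ≤ c ∧ c ≤ d) :
    0 ≤ a * c ∧ a * c ≤ b * d :=
  ⟨mul_nonneg h.1 hc.1, mul_le_mul h.2 hc.2 hc.1 (h.1.trans h.2)⟩

theorem Q11_alg {C₁ C₂ l x : ℝ} (h1 : 0 < C₁) (h2 : 0 < C₂) (hl : 0 < l) (hx : 1 ≤ x)
    (p0 p1 p2 p3 q02 q03 q12 q13 : ℝ) (hp0 : 1 ≤ p0) (hp1 : 1 ≤ p1) (hp2 : 1 ≤ p2)
    (hp3 : 1 ≤ p3) (g02 : 0 ≤ q02) (g03 : 0 ≤ q03) (g12 : 0 ≤ q12) (g13 : 0 ≤ q13)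
    (k02 : q02 ≤ p0 * p2) (k03 : q03 ≤ p0 * p3) (k12 : q12 ≤ p1 * p2) (k13 : q13 ≤ p1 * p3) :
    (C₁ * x * p0 ^ 2 / l) * (C₁ * x * p0 ^ 2 / l) * (C₁ * p1 ^ 2 / l) * (C₁ * p1 ^ 2 / l) *
      (C₁ * p2 ^ 2 / l) * (C₁ * p2 ^ 2 / l) * (C₁ * x * p3 ^ 2 / l) * (C₁ * x * p3 ^ 2 / l) *
      (C₂ * l * q02) * (C₂ * l * q03 / x) * (C₂ * l * q12 / x) * (C₂ * l * q13) ≤
    (C₁ ^ 2 * C₂ * (Real.sqrt x / l) * (p0 ^ 2 * p1 ^ 2 * p2 ^ 2 * p3 ^ 2)) ^ 4 := by
  have hx0 : 0 < x := by linarith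
  have hs : Real.sqrt x ^ 4 = x ^ 2 := by
    have : Real.sqrt x ^ 4 = (Real.sqrt x ^ 2) ^ 2 := by ring
    rw [this, Real.sq_sqrt hx0.le]
  have e1 : (C₁ * x * p0 ^ 2 / l) * (C₁ * x * p0 ^ 2 / l) * (C₁ * p1 ^ 2 / l) *
      (C₁ * p1 ^ 2 / l) *
      (C₁ * p2 ^ 2 / l) * (C₁ * p2 ^ 2 / l) * (C₁ * x * p3 ^ 2 / l) * (C₁ * x * p3 ^ 2 / l) *
      (C₂ * l * q02) * (C₂ * l * q03 / x) * (C₂ * l * q12 / x) * (C₂ * l * q13) =
      (C₁ ^ 8 * C₂ ^ 4 * x ^ 2 / l ^ 4 * (p0 * p1 * p2 * p3) ^ 4) * (q02 * q03 * q12 * q13) := by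
    field_simp
  have e2 : (C₁ ^ 2 * C₂ * (Real.sqrt x / l) * (p0 ^ 2 * p1 ^ 2 * p2 ^ 2 * p3 ^ 2)) ^ 4 =
      (C₁ ^ 8 * C₂ ^ 4 * x ^ 2 / l ^ 4 * (p0 * p1 * p2 * p3) ^ 4) *
        (p0 * p1 * p2 * p3) ^ 4 := by
    rw [← hs]
    field_simp
  rw [e1, e2]
  refine mul_le_mul_of_nonneg_left ?_ (by positivity)
  have h0 : 0 ≤ p0 := by linarith
  have h1' : 0 ≤ p1 := by linarith
  have h2' : 0 ≤ p2 := by linarith
  have h3' : 0 ≤ p3 := by linarith
  have hP : 1 ≤ p0 * p1 * p2 * p3 := by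
    have a1 : 1 ≤ p0 * p1 := one_le_mul_of_one_le_of_one_le hp0 hp1
    have a2 : 1 ≤ p0 * p1 * p2 := one_le_mul_of_one_le_of_one_le a1 hp2
    exact one_le_mul_of_one_le_of_one_le a2 hp3
  calc q02 * q03 * q12 * q13 ≤ (p0 * p2) * (p0 * p3) * (p1 * p2) * (p1 * p3) :=
        (Q11_ml (Q11_ml (Q11_ml ⟨g02, k02⟩ ⟨g03, k03⟩) ⟨g12, k12⟩) ⟨g13, k13⟩).2
    _ = (p0 * p1 * p2 * p3) ^ 2 := by ring
    _ ≤ (p0 * p1 * p2 * p3) ^ 4 := pow_le_pow_right₀ hP (by norm_num)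

/-- (2.5): exponents: A0,A3 carry eta; pairs 02: 0, 03: eta, 12: -eta, 13: 0. Use R_neg to the power 1/2 and
R_pos to the power 1/4. (1+l|eta|)^(1-1/2) l^(-2+1). -/
theorem QQ_half : ∃ K l0 : ℝ, 0 < K ∧ 1 ≤ l0 ∧ ∀ l : ℝ, l0 ≤ l → ∀ η : ℂ, |η.re| ≤ 1 / (8 * l) → ‖η‖ ≤ 1/4 →
    ‖QQ ⌊Real.exp l⌋₊ (fun _ => 1/2) l ![η, 0, 0, η] η‖ ≤ K * Real.sqrt (1 + l * ‖η‖) / l := by
  obtain ⟨K, l0, hK, hl0, hQ⟩ := QQ_bound
  obtain ⟨C₁, l1, hC₁, hl1, hN⟩ := R_neg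
  obtain ⟨C₂, l2, hC₂, hl2, hP⟩ := R_pos
  set J : ℝ := ∫ u : ℝ, ‖kk u‖ * (1 + |u|) ^ 2 with hJ
  have hJ0 : 0 ≤ J := integral_nonneg fun u => by positivity
  refine ⟨K * (C₁ ^ 2 * C₂ * J ^ 4) + 1, max l0 (max l1 l2), by positivity,
    hl0.trans (le_max_left _ _), fun l hl η hη hη4 => ?_⟩
  have hll0 : l0 ≤ l := (le_max_left _ _).trans hl
  have hll1 : l1 ≤ l := (le_max_left _ _).trans ((le_max_right _ _).trans hl)
  have hll2 : l2 ≤ l := (le_max_right _ _).trans ((le_max_right _ _).trans hl)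
  have hl1' : 1 ≤ l := hl0.trans hll0
  have hlpos : 0 < l := by linarith
  have h8 : 1 / (8 * l) ≤ 1 / l := by
    apply one_div_le_one_div_of_le hlpos
    linarith
  set x : ℝ := 1 + l * ‖η‖ with hx
  have hx1 : 1 ≤ x := by
    have : 0 ≤ l * ‖η‖ := by positivity
    rw [hx]; linarith
  obtain ⟨hint, hle⟩ := hQ l hll0 (fun _ => 1/2) (fun _ => by norm_num) ![η, 0, 0, η] η
    (fun j => by
      fin_cases j
      · exact hη
      · simp only [Fin.mk_one, Matrix.cons_val_one, Matrix.cons_val_zero, zero_re, abs_zero]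
        positivity
      · simp only [Fin.reduceFinMk, Matrix.cons_val, zero_re, abs_zero]
        positivity
      · exact hη) hη
  -- pointwise bound
  have hpt : ∀ u : Fin 4 → ℝ,
      (∏ j, ‖kk (u j)‖) * Real.exp (SR R (fun _ => 1/2) (Aex l ![η, 0, 0, η] u) (1 + η)) ≤
      (C₁ ^ 2 * C₂ * (Real.sqrt x / l)) * ∏ j, (‖kk (u j)‖ * (1 + |u j|) ^ 2) := by
    intro u
    have hexp : Real.exp (SR R (fun _ => 1/2) (Aex l ![η, 0, 0, η] u) (1 + η)) ≤
        C₁ ^ 2 * C₂ * (Real.sqrt x / l) *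
          ((1 + |u 0|) ^ 2 * (1 + |u 1|) ^ 2 * (1 + |u 2|) ^ 2 * (1 + |u 3|) ^ 2) := by
      have n0 := hN l hll1 η hη hη4 (u 0)
      have n3 := hN l hll1 η hη hη4 (u 3)
      have z8 : |(0 : ℂ).re| ≤ 1 / (8 * l) := by
        rw [zero_re, abs_zero]; positivity
      have z4 : ‖(0 : ℂ)‖ ≤ 1 / 4 := by rw [norm_zero]; norm_num
      have n1 := hN l hll1 0 z8 z4 (u 1)
      have n2 := hN l hll1 0 z8 z4 (u 2)
      have b02 := hP l hll2 0 (z8.trans h8) z4 (u 0 + u 2)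
      have b03 := hP l hll2 η (hη.trans h8) hη4 (u 0 + u 3)
      have b12 := hP l hll2 (-η) (by rw [neg_re, abs_neg]; exact hη.trans h8)
        (by rw [norm_neg]; exact hη4) (u 1 + u 2)
      have b13 := hP l hll2 0 (z8.trans h8) z4 (u 1 + u 3)
      have hz : (1 : ℝ) + l * ‖(0 : ℂ)‖ = 1 := by simp
      rw [hz, div_one] at b02 b13
      rw [norm_neg] at b12
      rw [hz, mul_one] at n1 n2
      rw [← hx] at n0 n3 b03 b12
      have a0 : Aex l ![η, 0, 0, η] u 0 = 1 + η + (1 + u 0 * I) / l := by simp [Aex]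
      have a1 : Aex l ![η, 0, 0, η] u 1 = 1 + 0 + (1 + u 1 * I) / l := by simp [Aex]
      have a2 : Aex l ![η, 0, 0, η] u 2 = 1 + 0 + (1 + u 2 * I) / l := by simp [Aex]
      have a3 : Aex l ![η, 0, 0, η] u 3 = 1 + η + (1 + u 3 * I) / l := by simp [Aex]
      have c02 : Aex l ![η, 0, 0, η] u 0 + Aex l ![η, 0, 0, η] u 2 - (1 + η) =
          1 + 0 + (2 + ((u 0 + u 2 : ℝ) : ℂ) * I) / l := by
        rw [a0, a2]; push_cast; ring
      have c03 : Aex l ![η, 0, 0, η] u 0 + Aex l ![η, 0, 0, η] u 3 - (1 + η) =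
          1 + η + (2 + ((u 0 + u 3 : ℝ) : ℂ) * I) / l := by
        rw [a0, a3]; push_cast; ring
      have c12 : Aex l ![η, 0, 0, η] u 1 + Aex l ![η, 0, 0, η] u 2 - (1 + η) =
          1 + -η + (2 + ((u 1 + u 2 : ℝ) : ℂ) * I) / l := by
        rw [a1, a2]; push_cast; ring
      have c13 : Aex l ![η, 0, 0, η] u 1 + Aex l ![η, 0, 0, η] u 3 - (1 + η) =
          1 + 0 + (2 + ((u 1 + u 3 : ℝ) : ℂ) * I) / l := by
        rw [a1, a3]; push_cast; ring
      have hSR : SR R (fun _ => 1/2) (Aex l ![η, 0, 0, η] u) (1 + η) * 4 =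
          -R (1 + η + (1 + u 0 * I) / l) + -R (1 + η + (1 + u 0 * I) / l) +
          -R (1 + 0 + (1 + u 1 * I) / l) + -R (1 + 0 + (1 + u 1 * I) / l) +
          -R (1 + 0 + (1 + u 2 * I) / l) + -R (1 + 0 + (1 + u 2 * I) / l) +
          -R (1 + η + (1 + u 3 * I) / l) + -R (1 + η + (1 + u 3 * I) / l) +
          R (1 + 0 + (2 + ((u 0 + u 2 : ℝ) : ℂ) * I) / l) +
          R (1 + η + (2 + ((u 0 + u 3 : ℝ) : ℂ) * I) / l) +
          R (1 + -η + (2 + ((u 1 + u 2 : ℝ) : ℂ) * I) / l) +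
          R (1 + 0 + (2 + ((u 1 + u 3 : ℝ) : ℂ) * I) / l) := by
        unfold SR
        rw [Fin.sum_univ_four, c02, c03, c12, c13, a0, a1, a2, a3]
        ring
      have hpow : Real.exp (SR R (fun _ => 1/2) (Aex l ![η, 0, 0, η] u) (1 + η)) ^ 4 ≤
          (C₁ ^ 2 * C₂ * (Real.sqrt x / l) *
          ((1 + |u 0|) ^ 2 * (1 + |u 1|) ^ 2 * (1 + |u 2|) ^ 2 * (1 + |u 3|) ^ 2)) ^ 4 := by
        rw [← Real.exp_nat_mul, mul_comm]
        have h4 : ((4 : ℕ) : ℝ) = 4 := by norm_num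
        rw [h4, hSR]
        simp only [Real.exp_add]
        refine le_trans ?_ (Q11_alg hC₁ hC₂ hlpos hx1 (1 + |u 0|) (1 + |u 1|) (1 + |u 2|)
          (1 + |u 3|) (1 + |u 0 + u 2|) (1 + |u 0 + u 3|) (1 + |u 1 + u 2|) (1 + |u 1 + u 3|)
          (by linarith [abs_nonneg (u 0)]) (by linarith [abs_nonneg (u 1)])
          (by linarith [abs_nonneg (u 2)]) (by linarith [abs_nonneg (u 3)])
          (by positivity) (by positivity) (by positivity) (by positivity)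
          (Q11_q _ _) (Q11_q _ _) (Q11_q _ _) (Q11_q _ _))
        have E : ∀ {t c : ℝ}, Real.exp t ≤ c → 0 ≤ Real.exp t ∧ Real.exp t ≤ c :=
          fun h => ⟨(Real.exp_pos _).le, h⟩
        exact (Q11_ml (Q11_ml (Q11_ml (Q11_ml (Q11_ml (Q11_ml (Q11_ml (Q11_ml (Q11_ml (Q11_ml
          (Q11_ml (E n0) (E n0)) (E n1)) (E n1)) (E n2)) (E n2)) (E n3)) (E n3))
          (E b02)) (E b03)) (E b12)) (E b13)).2
      exact le_of_pow_le_pow_left₀ (by norm_num) (by positivity) hpow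
    rw [Finset.prod_mul_distrib]
    have hprod : ∏ j : Fin 4, (1 + |u j|) ^ 2 =
        (1 + |u 0|) ^ 2 * (1 + |u 1|) ^ 2 * (1 + |u 2|) ^ 2 * (1 + |u 3|) ^ 2 := by
      rw [Fin.prod_univ_four]
    rw [hprod]
    calc (∏ j, ‖kk (u j)‖) * Real.exp (SR R (fun _ => 1/2) (Aex l ![η, 0, 0, η] u) (1 + η))
        ≤ (∏ j, ‖kk (u j)‖) * (C₁ ^ 2 * C₂ * (Real.sqrt x / l) *
          ((1 + |u 0|) ^ 2 * (1 + |u 1|) ^ 2 * (1 + |u 2|) ^ 2 * (1 + |u 3|) ^ 2)) :=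
          mul_le_mul_of_nonneg_left hexp (Finset.prod_nonneg fun _ _ => norm_nonneg _)
      _ = _ := by ring
  have hgi : Integrable (fun u : Fin 4 → ℝ => ∏ j, (‖kk (u j)‖ * (1 + |u j|) ^ 2)) :=
    Integrable.fintype_prod (fun _ => Q11_g)
  have hgJ : ∫ u : Fin 4 → ℝ, ∏ j, (‖kk (u j)‖ * (1 + |u j|) ^ 2) = J ^ 4 := by
    have h1 := integral_fintype_prod_eq_prod (𝕜 := ℝ) (ι := Fin 4) (E := fun _ => ℝ)
      (μ := fun _ => volume)
      (fun _ : Fin 4 => fun u : ℝ => ‖kk u‖ * (1 + |u|) ^ 2)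
    rw [Finset.prod_const, Finset.card_univ, Fintype.card_fin] at h1
    exact h1
  calc ‖QQ ⌊Real.exp l⌋₊ (fun _ => 1/2) l ![η, 0, 0, η] η‖
      ≤ K * ∫ u : Fin 4 → ℝ, (∏ j, ‖kk (u j)‖) *
        Real.exp (SR R (fun _ => 1/2) (Aex l ![η, 0, 0, η] u) (1 + η)) := hle
    _ ≤ K * ∫ u : Fin 4 → ℝ, (C₁ ^ 2 * C₂ * (Real.sqrt x / l)) *
        ∏ j, (‖kk (u j)‖ * (1 + |u j|) ^ 2) :=
        mul_le_mul_of_nonneg_left (integral_mono hint (hgi.const_mul _) hpt) hK.le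
    _ = K * (C₁ ^ 2 * C₂ * J ^ 4) * (Real.sqrt x / l) := by
        rw [integral_const_mul, hgJ]; ring
    _ ≤ (K * (C₁ ^ 2 * C₂ * J ^ 4) + 1) * (Real.sqrt x / l) :=
        mul_le_mul_of_nonneg_right (by linarith) (by positivity)
    _ = _ := by ring

end LZ

end F_Q11

section F_Z04

open Complex MeasureTheory Set Filter Topology
open scoped ComplexConjugate

namespace LZ

private theorem z04_nS_pos {z : ℕ} {S : Finset ℕ} (hS : S ∈ (PP z).powerset) : 0 < nS S := by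
  unfold nS
  refine Finset.prod_pos (fun p hp => ?_)
  have h1 := Finset.mem_powerset.1 hS hp
  exact (Finset.mem_filter.1 h1).2.pos

private theorem z04_mol_cont (lam l : ℝ) : Continuous (fun t : ℝ => Mol lam l (1/2 + t * I)) := by
  unfold Mol
  refine continuous_finsetSum _ (fun S hS => ?_)
  have h0 : ((nS S : ℕ) : ℂ) ≠ 0 := by
    exact_mod_cast (z04_nS_pos hS).ne'
  refine continuous_const.mul ?_
  refine Continuous.const_cpow ?_ (Or.inl h0)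
  fun_prop

private theorem z04_ne_one (t : ℝ) : (1/2 + t * I : ℂ) ≠ 1 := by
  intro h
  have := congrArg Complex.re h
  simp at this

private theorem z04_zeta_cont : Continuous (fun t : ℝ => riemannZeta (1/2 + t * I)) := by
  rw [continuous_iff_continuousAt]
  intro t
  have h1 : ContinuousAt riemannZeta (1/2 + t * I) :=
    (differentiableAt_riemannZeta (z04_ne_one t)).continuousAt
  have h2 : ContinuousAt (fun t : ℝ => (1/2 + t * I : ℂ)) t := by fun_prop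
  exact ContinuousAt.comp (f := fun t : ℝ => (1/2 + t * I : ℂ)) h1 h2

private theorem z04_mol_norm {l : ℝ} (hl : 0 < l) (t : ℝ) :
    ‖Mol (1/2) l (1/2 + t * I)‖ ≤ Real.exp l := by
  have h := (cf_sum (1/2) l (by norm_num) (by norm_num) hl ⌊Real.exp l⌋₊).2.2
  refine le_trans ?_ h
  unfold Mol
  refine (norm_sum_le _ _).trans (Finset.sum_le_sum (fun S hS => ?_))
  have hpos : 0 < nS S := z04_nS_pos hS
  have h1 : ‖((nS S : ℕ) : ℂ) ^ (-(1/2 + t * I : ℂ))‖ ≤ 1 := by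
    rw [norm_natCast_cpow_of_pos hpos]
    have hre : (-(1/2 + t * I : ℂ)).re = -(1/2) := by simp
    rw [hre]
    refine Real.rpow_le_one_of_one_le_of_nonpos ?_ (by norm_num)
    exact_mod_cast hpos
  rw [norm_mul]
  have h2 : ‖((cf (1/2) l S : ℝ) : ℂ)‖ = |cf (1/2) l S| := by
    rw [norm_real, Real.norm_eq_abs]
  rw [h2]
  exact mul_le_of_le_one_right (abs_nonneg _) h1

private theorem z04_real (l t : ℝ) : ((GG l t : ℝ) : ℂ) =
    uu t * riemannZeta (1/2 + t * I) *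
      (Mol (1/2) l (1/2 + t * I) * conj (Mol (1/2) l (1/2 + t * I))) := by
  have him := uu_facts.2.2 t
  have h1 : (((uu t * riemannZeta (1/2 + t * I)).re : ℝ) : ℂ) = uu t * riemannZeta (1/2 + t * I) := by
    apply Complex.ext
    · simp
    · rw [him]; simp
  unfold GG
  rw [ofReal_mul, h1, mul_conj, normSq_eq_norm_sq]

/-- facts on GG: continuity, absolute value, growth, product formula with XX (v real). -/
theorem GG_facts : (∀ l : ℝ, Continuous (GG l)) ∧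
    (∀ l t : ℝ, |GG l t| = ‖riemannZeta (1/2 + t * I) * Mol (1/2) l (1/2 + t * I) ^ 2‖) ∧
    (∀ l t v : ℝ, ((GG l t * GG l (t + v) : ℝ) : ℂ) = uu t * conj (uu (t + v)) *
      XX (fun _ => 1/2) l 0 (-(v * I)) ![0, v * I, 0, -(v * I)] t) ∧
    (∃ C : ℝ, 0 < C ∧ ∀ l t : ℝ, 0 < l → 0 ≤ t → |GG l t| ≤ C * Real.exp (2 * l) * (1 + t)) := by
  have habs : ∀ l t : ℝ, |GG l t| = ‖riemannZeta (1/2 + t * I) * Mol (1/2) l (1/2 + t * I) ^ 2‖ := by
    intro l t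
    have h1 : |GG l t| = ‖((GG l t : ℝ) : ℂ)‖ := by rw [norm_real, Real.norm_eq_abs]
    rw [h1, z04_real, norm_mul, norm_mul, norm_mul, norm_mul, norm_pow, uu_facts.1 t, one_mul,
      norm_conj, pow_two]
  refine ⟨?_, habs, ?_, ?_⟩
  · intro l
    unfold GG
    refine Continuous.mul ?_ ?_
    · exact continuous_re.comp (uu_facts.2.1.mul z04_zeta_cont)
    · exact (z04_mol_cont (1/2) l).norm.pow 2
  · intro l t v
    have h1 : ((GG l (t + v) : ℝ) : ℂ) = conj ((GG l (t + v) : ℝ) : ℂ) := (conj_ofReal _).symm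
    rw [ofReal_mul, z04_real l t, h1, z04_real l (t + v)]
    simp only [map_mul, conj_conj]
    unfold XX
    have e1 : (1/2 + 0 + (t : ℂ) * I) = 1/2 + t * I := by ring
    have e2 : (1/2 + -((v : ℂ) * I) - (t : ℂ) * I) = conj (1/2 + ((t + v : ℝ) : ℂ) * I) := by
      simp only [map_add, map_mul, conj_ofReal, conj_I, map_div₀, map_one, map_ofNat, ofReal_add]
      ring
    have e3 : (1/2 + (v : ℂ) * I + (t : ℂ) * I) = 1/2 + ((t + v : ℝ) : ℂ) * I := by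
      push_cast; ring
    have e4 : (1/2 + 0 - (t : ℂ) * I) = conj (1/2 + (t : ℂ) * I) := by
      simp only [map_add, map_mul, conj_ofReal, conj_I, map_div₀, map_one, map_ofNat]
      ring
    have v0 : (![(0 : ℂ), v * I, 0, -(v * I)] : Fin 4 → ℂ) 0 = 0 := rfl
    have v1 : (![(0 : ℂ), v * I, 0, -(v * I)] : Fin 4 → ℂ) 1 = v * I := rfl
    have v2 : (![(0 : ℂ), v * I, 0, -(v * I)] : Fin 4 → ℂ) 2 = 0 := rfl
    have v3 : (![(0 : ℂ), v * I, 0, -(v * I)] : Fin 4 → ℂ) 3 = -(v * I) := rfl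
    rw [v0, v1, v2, v3, e1, e2, e3, e4, conj_facts.1, conj_facts.2.1, conj_facts.2.1]
    ring
  · obtain ⟨C, hC, hz⟩ := zeta_pol
    refine ⟨C, hC, fun l t hl ht => ?_⟩
    rw [habs, norm_mul, norm_pow]
    have h1 : ‖riemannZeta (1/2 + t * I)‖ ≤ C * (1 + t) := by
      have h2 := hz (1/2 + t * I) (by simp; norm_num) (by
        have h3 : |(1/2 + t * I - 1 : ℂ).re| ≤ ‖(1/2 + t * I - 1 : ℂ)‖ := abs_re_le_norm _
        have h4 : (1/2 + t * I - 1 : ℂ).re = -(1/2) := by simp; norm_num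
        rw [h4] at h3
        rw [abs_neg, abs_of_pos (by norm_num : (0:ℝ) < 1/2)] at h3
        linarith)
      have h5 : (1/2 + t * I : ℂ).im = t := by simp
      rw [h5, abs_of_nonneg ht] at h2
      exact h2
    have h6 := z04_mol_norm hl t
    have h7 : ‖Mol (1/2) l (1/2 + t * I)‖ ^ 2 ≤ Real.exp (2 * l) := by
      have h8 : Real.exp (2 * l) = Real.exp l ^ 2 := by
        rw [← Real.exp_nat_mul]; norm_num
      rw [h8]
      exact pow_le_pow_left₀ (norm_nonneg _) h6 2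
    calc ‖riemannZeta (1/2 + t * I)‖ * ‖Mol (1/2) l (1/2 + t * I)‖ ^ 2
        ≤ (C * (1 + t)) * Real.exp (2 * l) :=
          mul_le_mul h1 h7 (by positivity) (by positivity)
      _ = C * Real.exp (2 * l) * (1 + t) := by ring

end LZ

end F_Z04
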