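import Pool.Agent.Lib.MP_0f5a55_nt.V.V02
import Pool.Agent.Lib.MP_0f5a55_nt.V.V10
import Pool.Agent.Lib.MP_0f5a55_nt.V.V17
import Pool.Agent.Lib.MP_0f5a55_nt.V.V30
import Pool.Agent.Lib.MP_0f5a55_nt.V.V31
import Pool.Agent.Lib.MP_0f5a55_nt.V.V38
import Pool.Agent.Lib.MP_0f5a55_nt.V.V43
import Pool.Agent.Lib.MP_0f5a55_nt.V.V49
import Pool.Agent.Lib.MP_0f5a55_nt.V.V50

section F_M04

open Complex MeasureTheory Set Filter Topology
open scoped ComplexConjugate

namespace LZ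

private lemma M04_nS_pos (z : ℕ) (S : Finset ℕ) (hS : S ∈ (PP z).powerset) : 1 ≤ nS S := by
  unfold nS
  apply Nat.one_le_iff_ne_zero.mpr
  rw [Finset.prod_ne_zero_iff]
  intro p hp
  have h1 := Finset.mem_powerset.mp hS hp
  unfold PP at h1
  rw [Finset.mem_filter] at h1
  exact h1.2.pos.ne'

private lemma M04_cont_plus (α : ℂ) (hα : |α.re| ≤ 1/16) :
    Continuous (fun t : ℝ => riemannZeta (1/2 + α + t * I)) := by
  rw [continuous_iff_continuousAt]
  intro t
  have hne : (1/2 + α + t * I : ℂ) ≠ 1 := by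
    intro h
    have := congrArg Complex.re h
    simp at this
    have h2 := (abs_le.mp hα).2
    linarith
  have h1 : ContinuousAt riemannZeta (1/2 + α + t * I : ℂ) :=
    (differentiableAt_riemannZeta hne).continuousAt
  have h2 : Continuous (fun t : ℝ => (1/2 + α + t * I : ℂ)) := by fun_prop
  exact ContinuousAt.comp (f := fun t : ℝ => (1/2 + α + t * I : ℂ)) (g := riemannZeta) h1 h2.continuousAt

private lemma M04_cont_minus (β : ℂ) (hβ : |β.re| ≤ 1/16) :
    Continuous (fun t : ℝ => riemannZeta (1/2 + β - t * I)) := by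
  have h := (M04_cont_plus β hβ).comp (continuous_neg (G := ℝ))
  refine h.congr ?_
  intro t
  simp only [Function.comp]
  congr 1
  push_cast
  ring

private lemma M04_zeta_bound (C : ℝ) (hC : ∀ s : ℂ, 5/16 ≤ s.re → 1/4 ≤ ‖s - 1‖ →
    ‖riemannZeta s‖ ≤ C * (1 + |s.im|)) (hC0 : 0 < C) (U : ℝ) (α : ℂ) (hα : |α.re| ≤ 1/16)
    (hαi : |α.im| ≤ U) (t : ℝ) :
    ‖riemannZeta (1/2 + α + t * I)‖ ≤ C * (1 + U + |t|) := by
  have hre : (1/2 + α + t * I : ℂ).re = 1/2 + α.re := by simp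
  have him : (1/2 + α + t * I : ℂ).im = α.im + t := by simp
  have h1 := (abs_le.mp hα).1
  have h2 := (abs_le.mp hα).2
  have hb := hC (1/2 + α + t * I) (by rw [hre]; linarith) (by
    have h3 : |((1/2 + α + t * I : ℂ) - 1).re| ≤ ‖(1/2 + α + t * I : ℂ) - 1‖ := Complex.abs_re_le_norm _
    have h4 : ((1/2 + α + t * I : ℂ) - 1).re = α.re - 1/2 := by
      rw [Complex.sub_re, hre, Complex.one_re]; ring
    rw [h4] at h3
    have h5 : 1/4 ≤ |α.re - 1/2| := by
      rw [abs_of_nonpos (by linarith)]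
      linarith
    linarith)
  rw [him] at hb
  refine hb.trans (mul_le_mul_of_nonneg_left ?_ hC0.le)
  have := abs_add_le α.im t
  linarith

private lemma M04_integrable (C : ℝ) (hC : ∀ s : ℂ, 5/16 ≤ s.re → 1/4 ≤ ‖s - 1‖ →
    ‖riemannZeta s‖ ≤ C * (1 + |s.im|)) (hC0 : 0 < C) (U : ℝ) (hU : 0 ≤ U) (α β : ℂ)
    (hα : |α.re| ≤ 1/16) (hβ : |β.re| ≤ 1/16)
    (hαi : |α.im| ≤ U) (hβi : |β.im| ≤ U) (h k : ℕ) (hh : 1 ≤ h) (hk : 1 ≤ k) (T : ℝ) (hT : 0 < T) :
    IntegrableOn (fun t : ℝ => (riemannZeta (1/2 + α + t * I) * riemannZeta (1/2 + β - t * I) *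
        ((h : ℂ) ^ (-(t * I)) * (k : ℂ) ^ (t * I))) * (Real.exp (-t / T) : ℂ)) (Ioi (0:ℝ)) := by
  have hh0 : (h : ℂ) ≠ 0 := by exact_mod_cast (by omega : h ≠ 0)
  have hk0 : (k : ℂ) ≠ 0 := by exact_mod_cast (by omega : k ≠ 0)
  have hcont : Continuous (fun t : ℝ => (riemannZeta (1/2 + α + t * I) * riemannZeta (1/2 + β - t * I) *
        ((h : ℂ) ^ (-(t * I)) * (k : ℂ) ^ (t * I))) * (Real.exp (-t / T) : ℂ)) := by
    have c1 := M04_cont_plus α hα
    have c2 := M04_cont_minus β hβ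
    have c3 : Continuous (fun t : ℝ => (h : ℂ) ^ (-(t * I))) :=
      Continuous.const_cpow (by fun_prop) (Or.inl hh0)
    have c4 : Continuous (fun t : ℝ => (k : ℂ) ^ (t * I)) :=
      Continuous.const_cpow (by fun_prop) (Or.inl hk0)
    have c5 : Continuous (fun t : ℝ => (Real.exp (-t / T) : ℂ)) := by fun_prop
    exact ((c1.mul c2).mul (c3.mul c4)).mul c5
  have hdom : IntegrableOn (fun t : ℝ => (C * (1 + U + 4 * T)) ^ 2 * Real.exp (-(1 / (2 * T)) * t))
      (Ioi (0:ℝ)) :=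
    (exp_neg_integrableOn_Ioi 0 (by positivity)).const_mul _
  refine Integrable.mono' hdom hcont.aestronglyMeasurable ?_
  filter_upwards [ae_restrict_mem measurableSet_Ioi] with t ht
  have ht0 : (0:ℝ) < t := ht
  have hb1 := M04_zeta_bound C hC hC0 U α hα hαi t
  have hb2 := M04_zeta_bound C hC hC0 U β hβ hβi (-t)
  have e2 : (1/2 + β + ((-t : ℝ) : ℂ) * I) = 1/2 + β - t * I := by push_cast; ring
  rw [e2, abs_neg] at hb2
  rw [abs_of_pos ht0] at hb1 hb2
  have n1 : ‖(h : ℂ) ^ (-(t * I : ℂ))‖ = 1 := by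
    rw [Complex.norm_natCast_cpow_of_pos (by omega)]
    simp
  have n2 : ‖(k : ℂ) ^ ((t * I : ℂ))‖ = 1 := by
    rw [Complex.norm_natCast_cpow_of_pos (by omega)]
    simp
  rw [norm_mul, norm_mul, norm_mul, norm_mul, n1, n2, mul_one, mul_one]
  have n3 : ‖((Real.exp (-t / T) : ℝ) : ℂ)‖ = Real.exp (-t / T) := by
    rw [Complex.norm_real, Real.norm_eq_abs, abs_of_pos (Real.exp_pos _)]
  rw [n3]
  have hlin : 1 + U + t ≤ (1 + U + 4 * T) * Real.exp (t / (4 * T)) := by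
    have h1 : t / (4 * T) + 1 ≤ Real.exp (t / (4 * T)) := Real.add_one_le_exp _
    have h2 : (1 + U + 4 * T) * (t / (4 * T) + 1) ≤ (1 + U + 4 * T) * Real.exp (t / (4 * T)) :=
      mul_le_mul_of_nonneg_left h1 (by positivity)
    have h3 : 1 + U + t ≤ (1 + U + 4 * T) * (t / (4 * T) + 1) := by
      have h4 : (1 + U + 4 * T) * (t / (4 * T) + 1) =
          1 + U + 4 * T + (1 + U) * (t / (4 * T)) + t := by
        field_simp
        ring
      rw [h4]
      have : 0 ≤ (1 + U) * (t / (4 * T)) := by positivity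
      linarith
    linarith
  have hz : ‖riemannZeta (1/2 + α + t * I)‖ * ‖riemannZeta (1/2 + β - t * I)‖ ≤
      (C * (1 + U + 4 * T)) ^ 2 * (Real.exp (t / (4 * T)) * Real.exp (t / (4 * T))) := by
    have h1 : ‖riemannZeta (1/2 + α + t * I)‖ ≤ C * ((1 + U + 4 * T) * Real.exp (t / (4 * T))) :=
      hb1.trans (mul_le_mul_of_nonneg_left hlin hC0.le)
    have h2 : ‖riemannZeta (1/2 + β - t * I)‖ ≤ C * ((1 + U + 4 * T) * Real.exp (t / (4 * T))) :=
      hb2.trans (mul_le_mul_of_nonneg_left hlin hC0.le)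
    calc ‖riemannZeta (1/2 + α + t * I)‖ * ‖riemannZeta (1/2 + β - t * I)‖
        ≤ (C * ((1 + U + 4 * T) * Real.exp (t / (4 * T)))) *
          (C * ((1 + U + 4 * T) * Real.exp (t / (4 * T)))) :=
          mul_le_mul h1 h2 (norm_nonneg _) (by positivity)
      _ = _ := by ring
  calc ‖riemannZeta (1/2 + α + t * I)‖ * ‖riemannZeta (1/2 + β - t * I)‖ * Real.exp (-t / T)
      ≤ (C * (1 + U + 4 * T)) ^ 2 * (Real.exp (t / (4 * T)) * Real.exp (t / (4 * T))) *
        Real.exp (-t / T) := mul_le_mul_of_nonneg_right hz (Real.exp_pos _).le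
    _ = (C * (1 + U + 4 * T)) ^ 2 * Real.exp (-(1 / (2 * T)) * t) := by
      rw [mul_assoc, ← Real.exp_add, ← Real.exp_add]
      congr 2
      field_simp
      ring

private lemma M04_cpow_le (n : ℕ) (hn : 1 ≤ n) (τ : ℂ) (hτ : |τ.re| ≤ 1/16) :
    ‖(n : ℂ) ^ (-(1/2) - τ)‖ ≤ 1 := by
  rw [Complex.norm_natCast_cpow_of_pos (by omega)]
  apply Real.rpow_le_one_of_one_le_of_nonpos
  · exact_mod_cast hn
  · have h1 := (abs_le.mp hτ).1
    have : (-(1/2) - τ : ℂ).re = -(1/2) - τ.re := by simp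
    rw [this]
    linarith

/-- section 4: EE of XX_expand term by term (integrable by zeta_pol), tsm with h = n0 n1, k = n2 n3 <= exp(2l) for the nonzero
terms; total error exp(4l) exp(32 l) T^(-1/2) <= T^(-1/4). -/
theorem master (U : ℝ) (hU : 0 ≤ U) : ∃ C T0 : ℝ, 0 < C ∧ 2 ≤ T0 ∧ ∀ T : ℝ, T0 ≤ T → ∀ l : ℝ, 0 < l →
    l ≤ Real.log T / 1000 → ∀ lam : Fin 4 → ℝ, (∀ j, 0 ≤ lam j ∧ lam j ≤ 1) →
    ∀ (α β : ℂ) (τ : Fin 4 → ℂ), |α.re| ≤ 1/16 → |β.re| ≤ 1/16 → |α.im| ≤ U → |β.im| ≤ U →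
    (∀ j, |(τ j).re| ≤ 1/16) → α + β ≠ 0 →
    ‖EE T (XX lam l α β τ) -
      (riemannZeta (1 + (α + β)) * QQ ⌊Real.exp l⌋₊ lam l ![τ 0 + β, τ 1 + β, τ 2 + α, τ 3 + α] (α + β) +
      ((2 * Real.pi / T : ℝ) : ℂ) ^ (α + β) * Ac (α + β) *
        QQ ⌊Real.exp l⌋₊ lam l ![τ 0 - α, τ 1 - α, τ 2 - β, τ 3 - β] (-(α + β)))‖ ≤
      C * (1 + 1 / ‖α + β‖) * T ^ (-(1/4) : ℝ) := by
  obtain ⟨C, T0, hC, hT0, htsm⟩ := tsm U hU
  obtain ⟨Cz, hCz0, hCz⟩ := zeta_pol
  refine ⟨C, T0, hC, hT0, ?_⟩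
  intro T hT l hl hlT lam hlam α β τ hα hβ hαi hβi hτ hαβ
  have hTpos : 0 < T := by linarith
  set z : ℕ := ⌊Real.exp l⌋₊ with hz
  set P := Fintype.piFinset (fun _ : Fin 4 => (PP z).powerset) with hP
  set a : (Fin 4 → Finset ℕ) → ℂ := fun S =>
    ∏ j, (cf (lam j) l (S j) : ℂ) * (nS (S j) : ℂ) ^ (-(1/2) - τ j) with ha
  set f : (Fin 4 → Finset ℕ) → ℝ → ℂ := fun S t =>
    riemannZeta (1/2 + α + t * I) * riemannZeta (1/2 + β - t * I) *
      (((nS (S 0) * nS (S 1) : ℕ) : ℂ) ^ (-(t * I)) * ((nS (S 2) * nS (S 3) : ℕ) : ℂ) ^ (t * I)) with hf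
  have hmem : ∀ S ∈ P, ∀ j, S j ∈ (PP z).powerset := by
    intro S hS j
    exact (Fintype.mem_piFinset.mp hS) j
  have hnpos : ∀ S ∈ P, ∀ j, 1 ≤ nS (S j) := fun S hS j => M04_nS_pos z _ (hmem S hS j)
  have hX : XX lam l α β τ = fun t => ∑ S ∈ P, a S * f S t := by
    funext t
    exact XX_expand lam l α β τ t
  have hint : ∀ S ∈ P, IntegrableOn (fun t : ℝ => f S t * (Real.exp (-t / T) : ℂ)) (Ioi (0:ℝ)) := by
    intro S hS
    exact M04_integrable Cz hCz hCz0 U hU α β hα hβ hαi hβi _ _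
      (Nat.mul_le_mul (hnpos S hS 0) (hnpos S hS 1)) (Nat.mul_le_mul (hnpos S hS 2) (hnpos S hS 3)) T hTpos
  have hEE : EE T (XX lam l α β τ) = ∑ S ∈ P, a S * EE T (f S) := by
    rw [hX]
    unfold EE
    have h1 : ∀ t : ℝ, (∑ S ∈ P, a S * f S t) * (Real.exp (-t / T) : ℂ) =
        ∑ S ∈ P, a S * (f S t * (Real.exp (-t / T) : ℂ)) := by
      intro t
      rw [Finset.sum_mul]
      refine Finset.sum_congr rfl fun S _ => by ring
    simp_rw [h1]
    rw [integral_finsetSum]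
    · rw [Finset.mul_sum]
      refine Finset.sum_congr rfl fun S _ => ?_
      rw [integral_const_mul]
      ring
    · intro S hS
      exact (hint S hS).const_mul _
  have hmain := main_alg T hTpos lam l α β τ z
  rw [hEE, ← hmain, ← Finset.sum_sub_distrib]
  -- each term
  have hexp32 : Real.exp l ^ 4 = Real.exp (4 * l) := by
    rw [← Real.exp_nat_mul]; norm_num
  have hterm : ∀ S ∈ P, ‖a S * EE T (f S) - (∏ j, (cf (lam j) l (S j) : ℂ) * (nS (S j) : ℂ) ^ (-(1/2) - τ j)) *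
        mainT T α β (nS (S 0) * nS (S 1)) (nS (S 2) * nS (S 3))‖ ≤
      (∏ j, |cf (lam j) l (S j)|) * (C * (1 + 1 / ‖α + β‖) * (Real.exp (4 * l)) ^ 8 * T ^ (-(1/2) : ℝ)) := by
    intro S hS
    have e1 : a S * EE T (f S) - (∏ j, (cf (lam j) l (S j) : ℂ) * (nS (S j) : ℂ) ^ (-(1/2) - τ j)) *
        mainT T α β (nS (S 0) * nS (S 1)) (nS (S 2) * nS (S 3)) =
        a S * (EE T (f S) - mainT T α β (nS (S 0) * nS (S 1)) (nS (S 2) * nS (S 3))) := by
      rw [mul_sub]
    rw [e1, norm_mul]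
    have hna : ‖a S‖ ≤ ∏ j, |cf (lam j) l (S j)| := by
      rw [ha]
      simp only
      rw [norm_prod]
      apply Finset.prod_le_prod
      · intro j _
        exact norm_nonneg _
      · intro j _
        rw [norm_mul, Complex.norm_real, Real.norm_eq_abs]
        have := M04_cpow_le (nS (S j)) (hnpos S hS j) (τ j) (hτ j)
        calc |cf (lam j) l (S j)| * ‖(nS (S j) : ℂ) ^ (-(1/2) - τ j)‖
            ≤ |cf (lam j) l (S j)| * 1 := mul_le_mul_of_nonneg_left this (abs_nonneg _)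
          _ = _ := mul_one _
    by_cases hzero : ∏ j, |cf (lam j) l (S j)| = 0
    · have h0 : ‖a S‖ = 0 := le_antisymm (hna.trans hzero.le) (norm_nonneg _)
      rw [h0, hzero, zero_mul, zero_mul]
    · have hne : ∀ j, cf (lam j) l (S j) ≠ 0 := by
        intro j
        have := (Finset.prod_ne_zero_iff.mp hzero) j (Finset.mem_univ j)
        exact abs_ne_zero.mp this
      have hle : ∀ j, (nS (S j) : ℝ) ≤ Real.exp l := by
        intro j
        exact ((cf_sum (lam j) l (hlam j).1 (hlam j).2 hl z).2.1 (S j) (hmem S hS j) (hne j)).2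
      have hprod : (((nS (S 0) * nS (S 1) : ℕ) : ℝ) * ((nS (S 2) * nS (S 3) : ℕ) : ℝ)) ≤ Real.exp (4 * l) := by
        push_cast
        rw [← hexp32]
        have p : ∀ j, (0:ℝ) ≤ (nS (S j) : ℝ) := fun j => Nat.cast_nonneg _
        have q : (0:ℝ) ≤ Real.exp l := (Real.exp_pos l).le
        calc (nS (S 0) : ℝ) * nS (S 1) * (nS (S 2) * nS (S 3))
            ≤ Real.exp l * Real.exp l * (Real.exp l * Real.exp l) :=
              mul_le_mul (mul_le_mul (hle 0) (hle 1) (p 1) q) (mul_le_mul (hle 2) (hle 3) (p 3) q)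
                (mul_nonneg (p 2) (p 3)) (mul_nonneg q q)
          _ = _ := by ring
      have ht := htsm T hT (nS (S 0) * nS (S 1)) (nS (S 2) * nS (S 3))
        (Nat.mul_le_mul (hnpos S hS 0) (hnpos S hS 1)) (Nat.mul_le_mul (hnpos S hS 2) (hnpos S hS 3))
        α β hα hβ hαi hβi hαβ
      have ht' : ‖EE T (f S) - mainT T α β (nS (S 0) * nS (S 1)) (nS (S 2) * nS (S 3))‖ ≤
          C * (1 + 1 / ‖α + β‖) * (Real.exp (4 * l)) ^ 8 * T ^ (-(1/2) : ℝ) := by
        refine ht.trans ?_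
        apply mul_le_mul_of_nonneg_right _ (Real.rpow_nonneg hTpos.le _)
        apply mul_le_mul_of_nonneg_left _ (by positivity)
        exact pow_le_pow_left₀ (by positivity) hprod 8
      exact mul_le_mul hna ht' (norm_nonneg _) (Finset.prod_nonneg fun j _ => abs_nonneg _)
  have hsumcf : ∑ S ∈ P, ∏ j, |cf (lam j) l (S j)| ≤ Real.exp (4 * l) := by
    have h1 : ∑ S ∈ P, ∏ j, |cf (lam j) l (S j)| = ∏ j, ∑ S ∈ (PP z).powerset, |cf (lam j) l S| := by
      rw [Finset.prod_univ_sum]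
    rw [h1]
    calc ∏ j, ∑ S ∈ (PP z).powerset, |cf (lam j) l S| ≤ ∏ j : Fin 4, Real.exp l := by
          apply Finset.prod_le_prod
          · intro j _
            exact Finset.sum_nonneg fun S _ => abs_nonneg _
          · intro j _
            exact (cf_sum (lam j) l (hlam j).1 (hlam j).2 hl z).2.2
      _ = Real.exp (4 * l) := by
          rw [Finset.prod_const, Finset.card_univ, Fintype.card_fin, hexp32]
  have hK : 0 ≤ C * (1 + 1 / ‖α + β‖) * (Real.exp (4 * l)) ^ 8 * T ^ (-(1/2) : ℝ) := by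
    have := Real.rpow_nonneg hTpos.le (-(1/2) : ℝ)
    positivity
  refine (norm_sum_le _ _).trans ((Finset.sum_le_sum hterm).trans ?_)
  rw [← Finset.sum_mul]
  refine (mul_le_mul_of_nonneg_right hsumcf hK).trans ?_
  -- exp(36 l) T^(-1/2) <= T^(-1/4)
  have hlog : 0 ≤ Real.log T := Real.log_nonneg (by linarith)
  have hfin : Real.exp (4 * l) * (Real.exp (4 * l)) ^ 8 * T ^ (-(1/2) : ℝ) ≤ T ^ (-(1/4) : ℝ) := by
    rw [Real.rpow_def_of_pos hTpos, Real.rpow_def_of_pos hTpos, ← Real.exp_nat_mul, ← Real.exp_add,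
      ← Real.exp_add]
    apply Real.exp_le_exp.mpr
    push_cast
    nlinarith
  have e3 : Real.exp (4 * l) * (C * (1 + 1 / ‖α + β‖) * (Real.exp (4 * l)) ^ 8 * T ^ (-(1/2) : ℝ)) =
      C * (1 + 1 / ‖α + β‖) * (Real.exp (4 * l) * (Real.exp (4 * l)) ^ 8 * T ^ (-(1/2) : ℝ)) := by ring
  rw [e3]
  exact mul_le_mul_of_nonneg_left hfin (by positivity)

end LZ

end F_M04

section F_M13

open Complex MeasureTheory Set Filter Topology
open scoped ComplexConjugate

namespace LZ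

private theorem M13_pow (T : ℝ) (hT : 7 ≤ T) (η : ℂ) (h : |η.re| ≤ 1 / Real.log T) :
    ‖((2 * Real.pi / T : ℝ) : ℂ) ^ η‖ ≤ Real.exp 1 := by
  have hT0 : (0:ℝ) < T := by linarith
  have hpi : 0 < 2 * Real.pi / T := by positivity
  rw [Complex.norm_cpow_eq_rpow_re_of_pos hpi, Real.rpow_def_of_pos hpi]
  apply Real.exp_le_exp.2
  have hlogT : 0 < Real.log T := Real.log_pos (by linarith)
  have h2pi : 1 ≤ 2 * Real.pi := by linarith [Real.pi_gt_three]
  have e1 : Real.log (2 * Real.pi / T) = Real.log (2 * Real.pi) - Real.log T := by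
    rw [Real.log_div (by positivity) (by positivity)]
  have h0 : 0 ≤ Real.log (2 * Real.pi) := Real.log_nonneg h2pi
  have h1 : Real.log (2 * Real.pi) ≤ Real.log T :=
    Real.log_le_log (by positivity) (by linarith [Real.pi_lt_d2])
  have habs : |Real.log (2 * Real.pi / T)| ≤ Real.log T := by
    rw [e1, abs_le]
    constructor <;> linarith
  calc Real.log (2 * Real.pi / T) * η.re ≤ |Real.log (2 * Real.pi / T) * η.re| := le_abs_self _
    _ = |Real.log (2 * Real.pi / T)| * |η.re| := abs_mul _ _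
    _ ≤ Real.log T * (1 / Real.log T) := mul_le_mul habs h (abs_nonneg _) hlogT.le
    _ = 1 := by field_simp

private theorem M13_alg (L l n C1 K E : ℝ) (hL : 0 < L) (hl : L / 2000 ≤ l) (hl' : l ≤ L / 1000)
    (hn : 0 < n) (hn1 : n ≤ 1) (hLn : 1 ≤ L * n) (hC1 : 0 < C1) (hK : 0 < K) (hE : 0 ≤ E) :
    C1 * (1 + 1 / n) * (K * Real.sqrt (1 + l * n) / l) * E ≤
      (C1 * K * 8000 * E) / Real.sqrt (L * n) := by
  have hlpos : 0 < l := by linarith
  have hs : Real.sqrt (1 + l * n) ≤ 2 * Real.sqrt (L * n) := by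
    have h4 : 2 * Real.sqrt (L * n) = Real.sqrt (4 * (L * n)) := by
      rw [Real.sqrt_mul (by norm_num : (0:ℝ) ≤ 4) (L * n)]
      congr 1
      rw [show (4:ℝ) = 2 ^ 2 by norm_num, Real.sqrt_sq (by norm_num)]
    rw [h4]
    apply Real.sqrt_le_sqrt
    nlinarith
  have h1n : 1 + 1 / n ≤ 2 / n := by
    rw [show (2:ℝ) / n = 1 / n + 1 / n by ring]
    have : 1 ≤ 1 / n := by rw [le_div_iff₀ hn]; linarith
    linarith
  have hil : 1 / l ≤ 2000 / L := by
    rw [div_le_div_iff₀ hlpos hL]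
    linarith
  have hLn0 : 0 < L * n := by positivity
  have hsq : Real.sqrt (L * n) * Real.sqrt (L * n) = L * n := Real.mul_self_sqrt hLn0.le
  have hspos : 0 < Real.sqrt (L * n) := Real.sqrt_pos.2 hLn0
  have key : (1 + 1 / n) * (Real.sqrt (1 + l * n) / l) ≤ 8000 / Real.sqrt (L * n) := by
    calc (1 + 1 / n) * (Real.sqrt (1 + l * n) / l)
        = (1 + 1 / n) * (Real.sqrt (1 + l * n) * (1 / l)) := by ring
      _ ≤ (2 / n) * ((2 * Real.sqrt (L * n)) * (2000 / L)) := by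
        apply mul_le_mul h1n _ (by positivity) (by positivity)
        exact mul_le_mul hs hil (by positivity) (by positivity)
      _ = 8000 * Real.sqrt (L * n) / (L * n) := by field_simp; ring
      _ = 8000 * Real.sqrt (L * n) / (Real.sqrt (L * n) * Real.sqrt (L * n)) := by rw [hsq]
      _ = 8000 / Real.sqrt (L * n) := by field_simp
  calc C1 * (1 + 1 / n) * (K * Real.sqrt (1 + l * n) / l) * E
      = (C1 * K * E) * ((1 + 1 / n) * (Real.sqrt (1 + l * n) / l)) := by ring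
    _ ≤ (C1 * K * E) * (8000 / Real.sqrt (L * n)) :=
        mul_le_mul_of_nonneg_left key (by positivity)
    _ = (C1 * K * 8000 * E) / Real.sqrt (L * n) := by ring

/-- (4.3): master with alpha = 0, beta = -iv = eta, tau = (0,iv,0,-iv): first vector (eta,0,0,eta), second (0,-eta,-eta,0)
(QQ_swap, QQ_half with -eta). 1+l|eta| <= 2 log T |v|, l >= log T/2000. -/
theorem K_large : ∃ C : ℝ, 0 < C ∧ ∀ Λ : ℝ, 1 ≤ Λ → ∃ T0 : ℝ, 2 ≤ T0 ∧ ∀ T : ℝ, T0 ≤ T → ∀ l : ℝ,
    Real.log T / 2000 ≤ l → l ≤ Real.log T / 1000 → ∀ v : ℂ, |v.im| ≤ 1 / Real.log T →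
    1 / Real.log T ≤ ‖v‖ → ‖v‖ ≤ Λ / Real.log T →
    ‖KK T l v‖ ≤ C / Real.sqrt (Real.log T * ‖v‖) := by
  obtain ⟨Cm, Tm, hCm, hTm, hmaster⟩ := master 1 zero_le_one
  obtain ⟨K, l0, hK, hl0, hQ⟩ := QQ_half
  obtain ⟨C1, hC1, hzA⟩ := zA_bounds 1 zero_le_one
  refine ⟨C1 * K * 8000 * (1 + Real.exp 1) + 1, by positivity, ?_⟩
  intro Λ hΛ
  have hc : 0 < 1 / (2 * Cm * Real.sqrt Λ) := by positivity
  have hev1 := (isLittleO_log_rpow_atTop (by norm_num : (0:ℝ) < 1/4)).def hc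
  have hev2 : ∀ᶠ T : ℝ in atTop, 2000 * l0 + 16 * Λ + 16 ≤ Real.log T :=
    Real.tendsto_log_atTop.eventually_ge_atTop _
  have hev := ((hev1.and hev2).and (eventually_ge_atTop (max Tm 7)))
  rw [Filter.eventually_atTop] at hev
  obtain ⟨T1, hT1⟩ := hev
  refine ⟨max T1 2, le_max_right _ _, ?_⟩
  intro T hT l hl hl' v hv1 hv2 hv3
  obtain ⟨⟨hlogle, hlogbig⟩, hTmax⟩ := hT1 T (le_trans (le_max_left _ _) hT)
  have hTm' : Tm ≤ T := le_trans (le_max_left _ _) hTmax
  have hT7 : 7 ≤ T := le_trans (le_max_right _ _) hTmax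
  have hT0 : (0:ℝ) < T := by linarith
  set L := Real.log T with hLdef
  have hL16 : 16 ≤ L := by linarith
  have hL0 : 0 < L := by linarith
  have hll0 : l0 ≤ l := by linarith
  have hlpos : 0 < l := by linarith
  have hn0 : 0 < ‖v‖ := lt_of_lt_of_le (by positivity) hv2
  have hLn : 1 ≤ L * ‖v‖ := by
    rw [div_le_iff₀ hL0] at hv2
    linarith
  have hLnΛ : L * ‖v‖ ≤ Λ := by
    rw [le_div_iff₀ hL0] at hv3
    linarith
  have h16 : 1 / L ≤ 1 / 16 := one_div_le_one_div_of_le (by norm_num) hL16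
  have hn16 : ‖v‖ ≤ 1 / 16 := by
    refine le_trans hv3 ?_
    rw [div_le_div_iff₀ hL0 (by norm_num)]
    linarith
  -- eta
  set η : ℂ := -(v * I) with hη
  have hηre : η.re = v.im := by simp [hη]
  have hηim : η.im = -v.re := by simp [hη]
  have hηn : ‖η‖ = ‖v‖ := by simp [hη]
  have hη0 : η ≠ 0 := by
    intro h
    rw [h, norm_zero] at hηn
    linarith
  have hvre : |v.re| ≤ ‖v‖ := Complex.abs_re_le_norm v
  have hηre' : |η.re| ≤ 1 / L := by rw [hηre]; exact hv1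
  have hηre8 : |η.re| ≤ 1 / (8 * l) := by
    refine le_trans hηre' (one_div_le_one_div_of_le (by positivity) ?_)
    linarith
  have hηim1 : |η.im| ≤ 1 := by rw [hηim, abs_neg]; linarith
  have hM := hmaster T hTm' l hlpos hl' (fun _ => 1/2) (fun _ => by norm_num) 0 η
    ![0, v * I, 0, -(v * I)] (by norm_num) (by linarith) (by norm_num) hηim1
    (by
      intro j
      fin_cases j
      · norm_num
      · simp only [Fin.mk_one, Matrix.cons_val_one, Matrix.cons_val_zero]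
        have : (v * I).re = -v.im := by simp
        rw [this, abs_neg]; linarith
      · norm_num
      · show |(-(v * I)).re| ≤ 1/16
        rw [← hη, hηre]; linarith) (by rw [zero_add]; exact hη0)
  have hv1' : (![(![0, v * I, 0, -(v * I)] : Fin 4 → ℂ) 0 + η, (![0, v * I, 0, -(v * I)] : Fin 4 → ℂ) 1 + η,
      (![0, v * I, 0, -(v * I)] : Fin 4 → ℂ) 2 + 0, (![0, v * I, 0, -(v * I)] : Fin 4 → ℂ) 3 + 0] : Fin 4 → ℂ)
      = ![η, 0, 0, η] := by
    funext j
    fin_cases j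
    · show (0:ℂ) + η = η
      rw [zero_add]
    · show v * I + η = 0
      rw [hη]; ring
    · show (0:ℂ) + 0 = 0
      rw [zero_add]
    · show -(v * I) + 0 = η
      rw [hη, add_zero]
  have hv2' : (![(![0, v * I, 0, -(v * I)] : Fin 4 → ℂ) 0 - 0, (![0, v * I, 0, -(v * I)] : Fin 4 → ℂ) 1 - 0,
      (![0, v * I, 0, -(v * I)] : Fin 4 → ℂ) 2 - η, (![0, v * I, 0, -(v * I)] : Fin 4 → ℂ) 3 - η] : Fin 4 → ℂ)
      = ![0, -η, -η, 0] := by
    funext j
    fin_cases j
    · show (0:ℂ) - 0 = 0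
      rw [sub_zero]
    · show v * I - 0 = -η
      rw [hη]; ring
    · show (0:ℂ) - η = -η
      rw [zero_sub]
    · show -(v * I) - η = 0
      rw [hη]; ring
  rw [hv1', hv2', zero_add, QQ_swap ⌊Real.exp l⌋₊ (1/2) l 0 (-η) (-η) 0 (-η)] at hM
  have hQ1 := hQ l hll0 η hηre8 (by rw [hηn]; linarith)
  have hQ2 := hQ l hll0 (-η) (by rw [neg_re, abs_neg]; exact hηre8) (by rw [norm_neg, hηn]; linarith)
  rw [norm_neg] at hQ2
  obtain ⟨hz, hA⟩ := hzA η (by linarith) hηim1 hη0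
  have hpow := M13_pow T hT7 η hηre'
  rw [hηn] at hM hQ1 hQ2 hz hA
  have hKK : KK T l v = EE T (XX (fun _ => 1/2) l 0 η ![0, v * I, 0, -(v * I)]) := rfl
  rw [← hKK] at hM
  have hn1 : ‖v‖ ≤ 1 := by linarith
  have hQb : 0 ≤ K * Real.sqrt (1 + l * ‖v‖) / l := by positivity
  have hzb : 0 ≤ C1 * (1 + 1 / ‖v‖) := by positivity
  -- first term
  have t1 : ‖riemannZeta (1 + η) * QQ ⌊Real.exp l⌋₊ (fun _ => 1/2) l ![η, 0, 0, η] η‖ ≤
      C1 * (1 + 1 / ‖v‖) * (K * Real.sqrt (1 + l * ‖v‖) / l) := by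
    rw [norm_mul]
    exact mul_le_mul hz hQ1 (norm_nonneg _) hzb
  have t2 : ‖((2 * Real.pi / T : ℝ) : ℂ) ^ η * Ac η *
      QQ ⌊Real.exp l⌋₊ (fun _ => 1/2) l ![-η, 0, 0, -η] (-η)‖ ≤
      Real.exp 1 * (C1 * (1 + 1 / ‖v‖)) * (K * Real.sqrt (1 + l * ‖v‖) / l) := by
    rw [norm_mul, norm_mul]
    refine mul_le_mul ?_ hQ2 (norm_nonneg _) (by positivity)
    exact mul_le_mul hpow hA (norm_nonneg _) (Real.exp_pos _).le
  -- error term
  have t3 : Cm * (1 + 1 / ‖v‖) * T ^ (-(1/4) : ℝ) ≤ 1 / Real.sqrt (L * ‖v‖) := by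
    have hTp : 0 < T ^ ((1:ℝ)/4) := Real.rpow_pos_of_pos hT0 _
    rw [Real.norm_of_nonneg hL0.le, Real.norm_of_nonneg hTp.le] at hlogle
    have h1n : 1 + 1 / ‖v‖ ≤ 2 * L := by
      have : 1 / ‖v‖ ≤ L := by
        rw [div_le_iff₀ hn0]; exact hLn
      linarith
    have hneg : T ^ (-(1/4) : ℝ) = 1 / T ^ ((1:ℝ)/4) := by
      rw [Real.rpow_neg hT0.le, inv_eq_one_div]
    rw [hneg]
    have hΛ0 : 0 < Real.sqrt Λ := Real.sqrt_pos.2 (by linarith)
    calc Cm * (1 + 1 / ‖v‖) * (1 / T ^ ((1:ℝ)/4))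
        ≤ Cm * (2 * L) * (1 / T ^ ((1:ℝ)/4)) := by
          apply mul_le_mul_of_nonneg_right _ (by positivity)
          exact mul_le_mul_of_nonneg_left h1n hCm.le
      _ ≤ Cm * (2 * (1 / (2 * Cm * Real.sqrt Λ) * T ^ ((1:ℝ)/4))) * (1 / T ^ ((1:ℝ)/4)) := by
          apply mul_le_mul_of_nonneg_right _ (by positivity)
          apply mul_le_mul_of_nonneg_left _ hCm.le
          linarith
      _ = 1 / Real.sqrt Λ := by
          generalize Real.sqrt Λ = x at hΛ0
          generalize T ^ ((1:ℝ)/4) = y at hTp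
          have hx : x ≠ 0 := hΛ0.ne'
          have hy : y ≠ 0 := hTp.ne'
          have hC : Cm ≠ 0 := hCm.ne'
          field_simp
      _ ≤ 1 / Real.sqrt (L * ‖v‖) := by
          apply one_div_le_one_div_of_le
          · exact Real.sqrt_pos.2 (by positivity)
          · exact Real.sqrt_le_sqrt hLnΛ
  have hsum := M13_alg L l ‖v‖ C1 K (1 + Real.exp 1) hL0 hl hl' hn0 hn1 hLn hC1 hK (by positivity)
  have htri : ‖KK T l v‖ ≤ ‖KK T l v -
      (riemannZeta (1 + η) * QQ ⌊Real.exp l⌋₊ (fun _ => 1/2) l ![η, 0, 0, η] η +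
      ((2 * Real.pi / T : ℝ) : ℂ) ^ η * Ac η *
        QQ ⌊Real.exp l⌋₊ (fun _ => 1/2) l ![-η, 0, 0, -η] (-η))‖ +
      (‖riemannZeta (1 + η) * QQ ⌊Real.exp l⌋₊ (fun _ => 1/2) l ![η, 0, 0, η] η‖ +
      ‖((2 * Real.pi / T : ℝ) : ℂ) ^ η * Ac η *
        QQ ⌊Real.exp l⌋₊ (fun _ => 1/2) l ![-η, 0, 0, -η] (-η)‖) := by
    refine le_trans ?_ (add_le_add_right (norm_add_le _ _) _)
    refine le_trans ?_ (norm_add_le _ _)
    rw [sub_add_cancel]
  calc ‖KK T l v‖ ≤ _ := htri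
    _ ≤ 1 / Real.sqrt (L * ‖v‖) + (C1 * (1 + 1 / ‖v‖) * (K * Real.sqrt (1 + l * ‖v‖) / l) +
        Real.exp 1 * (C1 * (1 + 1 / ‖v‖)) * (K * Real.sqrt (1 + l * ‖v‖) / l)) := by
        exact add_le_add (le_trans hM t3) (add_le_add t1 t2)
    _ = C1 * (1 + 1 / ‖v‖) * (K * Real.sqrt (1 + l * ‖v‖) / l) * (1 + Real.exp 1)
        + 1 / Real.sqrt (L * ‖v‖) := by ring
    _ ≤ C1 * K * 8000 * (1 + Real.exp 1) / Real.sqrt (L * ‖v‖) + 1 / Real.sqrt (L * ‖v‖) :=
        add_le_add_left hsum _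
    _ = (C1 * K * 8000 * (1 + Real.exp 1) + 1) / Real.sqrt (L * ‖v‖) := by ring

end LZ

end F_M13

section F_M14

open Complex MeasureTheory Set Filter Topology Metric
open scoped ComplexConjugate

namespace LZ

theorem M14_nS {z : ℕ} {S : Finset ℕ} (hS : S ∈ (PP z).powerset) : (nS S : ℂ) ≠ 0 := by
  have h : nS S ≠ 0 := by
    unfold nS
    refine Finset.prod_ne_zero_iff.2 fun p hp => ?_
    have h1 := Finset.mem_powerset.1 hS hp
    unfold PP at h1
    exact (Finset.mem_filter.1 h1).2.ne_zero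
  exact_mod_cast h

theorem M14_mol (lam l : ℝ) : Differentiable ℂ (Mol lam l) := by
  intro s
  unfold Mol
  refine DifferentiableAt.fun_sum fun S hS => ?_
  exact (differentiableAt_id.neg.const_cpow (Or.inl (M14_nS hS))).const_mul _

theorem M14_zeta (t : ℝ) (v : ℂ) (hv : |v.im| ≤ 1 / 16) :
    DifferentiableAt ℂ (fun v : ℂ => riemannZeta (1 / 2 + -(v * I) - t * I)) v := by
  have h1 : (1 / 2 + -(v * I) - t * I : ℂ) ≠ 1 := by
    intro h
    have h2 := congrArg Complex.re h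
    simp at h2
    have h3 := abs_le.1 hv
    linarith [h3.1, h3.2]
  have h2 : DifferentiableAt ℂ (fun v : ℂ => (1 / 2 + -(v * I) - t * I : ℂ)) v := by fun_prop
  exact DifferentiableAt.comp v (differentiableAt_riemannZeta h1) h2

theorem M14_diff (l : ℝ) (t : ℝ) (v : ℂ) (hv : |v.im| ≤ 1 / 16) :
    DifferentiableAt ℂ (fun v : ℂ => XX (fun _ => 1/2) l 0 (-(v * I)) ![0, v * I, 0, -(v * I)] t) v := by
  have h1 : DifferentiableAt ℂ (fun v : ℂ => Mol (1 / 2) l (1 / 2 + v * I + t * I)) v :=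
    DifferentiableAt.comp (g := Mol (1 / 2) l) (f := fun v : ℂ => 1 / 2 + v * I + t * I) v (M14_mol _ _ _) (by fun_prop)
  have h2 : DifferentiableAt ℂ (fun v : ℂ => Mol (1 / 2) l (1 / 2 + -(v * I) - t * I)) v :=
    DifferentiableAt.comp (g := Mol (1 / 2) l) (f := fun v : ℂ => 1 / 2 + -(v * I) - t * I) v (M14_mol _ _ _) (by fun_prop)
  have h3 := M14_zeta t v hv
  exact (h3.const_mul (riemannZeta (1 / 2 + 0 + t * I))).mul
    ((((h1.const_mul (Mol (1 / 2) l (1 / 2 + 0 + t * I)))).mul_const (Mol (1 / 2) l (1 / 2 + 0 - t * I))).mul h2)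

/-- maximum modulus on |v| <= 1/log T. -/
theorem K_small : ∃ C T0 : ℝ, 0 < C ∧ 2 ≤ T0 ∧ ∀ T : ℝ, T0 ≤ T → ∀ l : ℝ,
    Real.log T / 2000 ≤ l → l ≤ Real.log T / 1000 → ∀ v : ℂ, ‖v‖ ≤ 1 / Real.log T → ‖KK T l v‖ ≤ C := by
  obtain ⟨C, hC, hK⟩ := K_large
  obtain ⟨T1, hT1, hK1⟩ := hK 1 le_rfl
  refine ⟨C, max T1 (Real.exp 32), hC, hT1.trans (le_max_left _ _), ?_⟩
  intro T hT l hl1 hl2 v hv
  have hTT1 : T1 ≤ T := (le_max_left _ _).trans hT
  have hT0 : 0 < T := by linarith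
  have hlog : 32 ≤ Real.log T := by
    rw [Real.le_log_iff_exp_le hT0]
    exact (le_max_right _ _).trans hT
  have hL0 : 0 < Real.log T := by linarith
  have hρ0 : 0 < 1 / Real.log T := by positivity
  have hρ : 1 / Real.log T ≤ 1 / 32 := one_div_le_one_div_of_le (by norm_num) hlog
  have hl0 : 0 < l := by linarith
  have hsub : ∀ z ∈ ball (0 : ℂ) (1 / 16), ‖z‖ < 1 / 16 := fun z hz => by simpa using hz
  obtain ⟨C2, hC2, hX⟩ := XX_bound (fun _ => 1 / 2) (fun _ => by norm_num) l 1 hl0 zero_le_one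
  have hX' : ∀ z ∈ ball (0 : ℂ) (1 / 16), Continuous (XX (fun _ => 1/2) l 0 (-(z * I)) ![0, z * I, 0, -(z * I)]) ∧
      ∀ t : ℝ, ‖XX (fun _ => 1/2) l 0 (-(z * I)) ![0, z * I, 0, -(z * I)] t‖ ≤ C2 * (1 + |t|) ^ 2 := by
    intro z hz
    have h1 := hsub z hz
    have hre := Complex.abs_re_le_norm z
    have him := Complex.abs_im_le_norm z
    refine hX 0 (-(z * I)) ![0, z * I, 0, -(z * I)] ?_ ?_ ?_ ?_ ?_
    · simp
    · simp; linarith
    · simp
    · simp; linarith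
    · intro j
      fin_cases j
      · simp
      · simp; linarith
      · simp
      · simp; linarith
  have hdiff : DifferentiableOn ℂ (fun z => EE T (XX (fun _ => 1/2) l 0 (-(z * I)) ![0, z * I, 0, -(z * I)]))
      (ball (0 : ℂ) (1 / 16)) := by
    refine EE_diff hT0 isOpen_ball (g := fun z => XX (fun _ => 1/2) l 0 (-(z * I)) ![0, z * I, 0, -(z * I)])
      (C := C2) ?_ ?_ ?_
    · intro t z hz
      have h1 := hsub z hz
      exact (M14_diff l t z ((Complex.abs_im_le_norm z).trans h1.le)).differentiableWithinAt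
    · exact fun z hz => (hX' z hz).1
    · exact fun z hz t _ => (hX' z hz).2 t
  have hcl : closure (ball (0 : ℂ) (1 / Real.log T)) ⊆ ball 0 (1 / 16) := by
    rw [closure_ball _ hρ0.ne']
    exact closedBall_subset_ball (by linarith)
  refine Complex.norm_le_of_forall_mem_frontier_norm_le (f := fun z => KK T l z) (U := ball (0 : ℂ) (1 / Real.log T))
    isBounded_ball (hdiff.mono hcl).diffContOnCl ?_ ?_
  · intro z hz
    rw [frontier_ball _ hρ0.ne'] at hz
    have hz1 : ‖z‖ = 1 / Real.log T := by simpa using hz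
    have h1 := hK1 T hTT1 l hl1 hl2 z ((Complex.abs_im_le_norm z).trans hz1.le) hz1.ge hz1.le
    rw [hz1, mul_one_div_cancel hL0.ne', Real.sqrt_one, div_one] at h1
    exact h1
  · rw [closure_ball _ hρ0.ne']
    simpa using hv

end LZ

end F_M14

section F_Z05

open Complex MeasureTheory Set Filter Topology
open scoped ComplexConjugate

namespace LZ

private theorem Z05_uu (t : ℝ) : uu t * conj (uu t) = 1 := by
  have h1 : Gammaℝ (1/2 + t * I) ≠ 0 := Gammaℝ_ne_zero_of_re_pos (by simp)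
  have h2 : ‖uu t‖ = 1 := by
    unfold uu
    rw [norm_div, Complex.norm_real, norm_norm]
    exact div_self (norm_ne_zero_iff.2 h1)
  rw [Complex.mul_conj, Complex.normSq_eq_norm_sq, h2]
  norm_num

/-- second moment of GG (K_small, v = 0). -/
theorem G_sq : ∃ C T0 : ℝ, 0 < C ∧ 2 ≤ T0 ∧ ∀ T : ℝ, T0 ≤ T → ∀ l : ℝ,
    Real.log T / 2000 ≤ l → l ≤ Real.log T / 1000 → ER T (fun t => GG l t ^ 2) ≤ C := by
  obtain ⟨C, T0, hC, hT0, h⟩ := K_small
  refine ⟨C, T0, hC, hT0, fun T hT l hl1 hl2 => ?_⟩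
  have hlog : 0 ≤ Real.log T := Real.log_nonneg (by linarith)
  have h1 := h T hT l hl1 hl2 0 (by
    rw [norm_zero]
    positivity)
  obtain ⟨-, -, h3, -⟩ := GG_facts
  have h4 : KK T l 0 = ((ER T (fun t => GG l t ^ 2) : ℝ) : ℂ) := by
    unfold KK EE ER
    push_cast
    congr 1
    rw [← integral_complex_ofReal]
    refine integral_congr_ae (Eventually.of_forall fun t => ?_)
    have h5 := h3 l t 0
    simp only [add_zero, Complex.ofReal_zero] at h5
    rw [Z05_uu t, one_mul] at h5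
    simp only
    rw [← h5]
    push_cast
    ring
  rw [h4, Complex.norm_real] at h1
  exact (le_abs_self _).trans h1

end LZ

end F_Z05

section F_Z06

open Complex MeasureTheory Set Filter Topology
open scoped ComplexConjugate

namespace LZ

theorem Z06_int {f : ℝ → ℝ} (hf : Continuous f) {C : ℝ}
    (hb : ∀ t : ℝ, 0 ≤ t → |f t| ≤ C * (1 + t) ^ 2) {b : ℝ} (hb0 : 0 < b) :
    IntegrableOn (fun t => f t * Real.exp (-t / b)) (Ioi 0) := by
  set c : ℝ := max 1 (4 * b) with hc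
  have hc1 : 1 ≤ c := le_max_left _ _
  have hc2 : 4 * b ≤ c := le_max_right _ _
  have hC : 0 ≤ C := by
    have := (abs_nonneg _).trans (hb 0 le_rfl)
    simpa using this
  have hexp : IntegrableOn (fun t => C * c ^ 2 * Real.exp (-(1 / (2 * b)) * t)) (Ioi 0) :=
    (exp_neg_integrableOn_Ioi 0 (by positivity)).const_mul _
  refine Integrable.mono' hexp ?_ ?_
  · exact (hf.mul (by fun_prop)).aestronglyMeasurable
  · rw [ae_restrict_iff' measurableSet_Ioi]
    refine Filter.Eventually.of_forall fun t ht => ?_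
    have ht0 : 0 ≤ t := le_of_lt ht
    rw [Real.norm_eq_abs, abs_mul, abs_of_pos (Real.exp_pos _)]
    have h1 : 1 + t ≤ c * Real.exp (t / (4 * b)) := by
      have h2 := Real.add_one_le_exp (t / (4 * b))
      have h3 : t ≤ c * (t / (4 * b)) := by
        rw [mul_div_assoc', le_div_iff₀ (by positivity)]
        nlinarith
      nlinarith
    have h4 : (1 + t) ^ 2 ≤ c ^ 2 * Real.exp (t / (2 * b)) := by
      have h5 := pow_le_pow_left₀ (by positivity) h1 2
      have h6 : (c * Real.exp (t / (4 * b))) ^ 2 = c ^ 2 * Real.exp (t / (2 * b)) := by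
        rw [mul_pow, ← Real.exp_nat_mul]
        congr 2
        push_cast
        field_simp
        ring
      rwa [h6] at h5
    calc |f t| * Real.exp (-t / b) ≤ C * (1 + t) ^ 2 * Real.exp (-t / b) :=
          mul_le_mul_of_nonneg_right (hb t ht0) (Real.exp_pos _).le
      _ ≤ C * (c ^ 2 * Real.exp (t / (2 * b))) * Real.exp (-t / b) := by
          gcongr
      _ = C * c ^ 2 * Real.exp (-(1 / (2 * b)) * t) := by
          rw [mul_assoc, mul_assoc, ← Real.exp_add, ← mul_assoc]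
          congr 2
          field_simp
          ring

theorem Z06_GG_int {l b : ℝ} (hl : 0 < l) (hb : 0 < b) :
    IntegrableOn (fun t => GG l t ^ 2 * Real.exp (-t / b)) (Ioi 0) := by
  obtain ⟨hc, -, -, C, hC, hg⟩ := GG_facts
  refine Z06_int ((hc l).pow 2) (C := (C * Real.exp (2 * l)) ^ 2) ?_ hb
  intro t ht
  have h1 := hg l t hl ht
  rw [Pi.pow_apply, abs_pow]
  calc |GG l t| ^ 2 ≤ (C * Real.exp (2 * l) * (1 + t)) ^ 2 :=
        pow_le_pow_left₀ (abs_nonneg _) h1 2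
    _ = _ := by ring

/-- (5.2) truncations: G_sq with T replaced by eta T and 2T and l = log T/1500. -/
theorem G_trunc : ∃ C : ℝ, 0 < C ∧ ∀ η B : ℝ, 0 < η → η ≤ 1 → 1 ≤ B → ∃ T0 : ℝ, 2 ≤ T0 ∧ ∀ T : ℝ, T0 ≤ T →
    T⁻¹ * ∫ t in Ioc 0 (η * T), GG (Real.log T / 1500) t ^ 2 * Real.exp (-t / T) ≤ C * η ∧
    T⁻¹ * ∫ t in Ioi (B * T), GG (Real.log T / 1500) t ^ 2 * Real.exp (-t / T) ≤ C * Real.exp (-B / 2) := by
  obtain ⟨C0, T0, hC0, hT0, hG⟩ := G_sq
  refine ⟨3 * C0, by positivity, fun η B hη hη1 hB => ?_⟩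
  refine ⟨max 8 (max (T0 / η) (1 / η ^ 3)), (by norm_num : (2 : ℝ) ≤ 8).trans (le_max_left _ _),
    fun T hT => ?_⟩
  have hT8 : 8 ≤ T := (le_max_left _ _).trans hT
  have hTη : T0 / η ≤ T := ((le_max_left _ _).trans (le_max_right _ _)).trans hT
  have hTη3 : 1 / η ^ 3 ≤ T := ((le_max_right _ _).trans (le_max_right _ _)).trans hT
  have hTpos : 0 < T := by linarith
  have hηT : T0 ≤ η * T := by
    rw [div_le_iff₀ hη] at hTη
    linarith [mul_comm T η]
  have hηTpos : 0 < η * T := by positivity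
  set l := Real.log T / 1500 with hl
  have hlogT : 0 < Real.log T := Real.log_pos (by linarith)
  have hl0 : 0 < l := by positivity
  have hlogη : Real.log (η * T) = Real.log η + Real.log T := Real.log_mul hη.ne' hTpos.ne'
  have hlogη0 : Real.log η ≤ 0 := Real.log_nonpos hη.le hη1
  have hlog3 : -(3 * Real.log η) ≤ Real.log T := by
    have h1 := Real.log_le_log (by positivity) hTη3
    rw [one_div, Real.log_inv, Real.log_pow] at h1
    push_cast at h1
    exact h1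
  have hlog8 : 3 * Real.log 2 ≤ Real.log T := by
    have h1 := Real.log_le_log (by norm_num) hT8
    have h2 : Real.log 8 = 3 * Real.log 2 := by
      rw [show (8 : ℝ) = 2 ^ 3 by norm_num, Real.log_pow]
      norm_num
    linarith
  have hlog2 : Real.log (2 * T) = Real.log 2 + Real.log T := Real.log_mul two_ne_zero hTpos.ne'
  have hlog2pos : 0 < Real.log 2 := Real.log_pos (by norm_num)
  have hA := hG (η * T) hηT l (by rw [hlogη, hl]; linarith) (by rw [hlogη, hl]; linarith)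
  have hηT' : T0 ≤ 2 * T := by nlinarith
  have hB' := hG (2 * T) hηT' l (by rw [hlog2, hl]; linarith) (by rw [hlog2, hl]; linarith)
  unfold ER at hA hB'
  have hi1 := Z06_GG_int hl0 hηTpos
  have hi2 := Z06_GG_int hl0 (show 0 < 2 * T by positivity)
  have hiT := Z06_GG_int hl0 hTpos
  constructor
  · have h1 : ∫ t in Ioc 0 (η * T), GG l t ^ 2 * Real.exp (-t / T) ≤
        ∫ t in Ioc 0 (η * T), Real.exp 1 * (GG l t ^ 2 * Real.exp (-t / (η * T))) := by
      refine setIntegral_mono_on (hiT.mono_set Ioc_subset_Ioi_self)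
        ((hi1.mono_set Ioc_subset_Ioi_self).const_mul _) measurableSet_Ioc fun t ht => ?_
      have h2 : Real.exp (-t / T) ≤ Real.exp 1 * Real.exp (-t / (η * T)) := by
        rw [← Real.exp_add]
        apply Real.exp_le_exp.mpr
        have h3 : t / (η * T) ≤ 1 := by
          rw [div_le_one hηTpos]
          exact ht.2
        have h4 : 0 ≤ t / T := div_nonneg ht.1.le hTpos.le
        rw [neg_div, neg_div]
        linarith
      calc GG l t ^ 2 * Real.exp (-t / T) ≤ GG l t ^ 2 * (Real.exp 1 * Real.exp (-t / (η * T))) :=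
            mul_le_mul_of_nonneg_left h2 (sq_nonneg _)
        _ = _ := by ring
    have h5 : ∫ t in Ioc 0 (η * T), Real.exp 1 * (GG l t ^ 2 * Real.exp (-t / (η * T))) ≤
        ∫ t in Ioi 0, Real.exp 1 * (GG l t ^ 2 * Real.exp (-t / (η * T))) := by
      refine setIntegral_mono_set (hi1.const_mul _) ?_
        (Filter.Eventually.of_forall fun t ht => (Ioc_subset_Ioi_self ht : t ∈ Ioi 0))
      exact Filter.Eventually.of_forall fun t => by positivity
    have h6 := h1.trans h5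
    rw [integral_const_mul] at h6
    have h7 : ∫ t in Ioi 0, GG l t ^ 2 * Real.exp (-t / (η * T)) ≤ C0 * (η * T) := by
      rw [inv_mul_le_iff₀ hηTpos] at hA
      linarith [mul_comm C0 (η * T)]
    have h8 : Real.exp 1 < 3 := lt_trans Real.exp_one_lt_d9 (by norm_num)
    rw [inv_mul_le_iff₀ hTpos]
    have h9 : 0 ≤ C0 * (η * T) := by positivity
    calc _ ≤ Real.exp 1 * ∫ t in Ioi 0, GG l t ^ 2 * Real.exp (-t / (η * T)) := h6
      _ ≤ Real.exp 1 * (C0 * (η * T)) := mul_le_mul_of_nonneg_left h7 (Real.exp_pos _).le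
      _ ≤ 3 * (C0 * (η * T)) := mul_le_mul_of_nonneg_right h8.le h9
      _ = T * (3 * C0 * η) := by ring
  · have hBT : 0 ≤ B * T := by positivity
    have hsub : Ioi (B * T) ⊆ Ioi 0 := Ioi_subset_Ioi hBT
    have h1 : ∫ t in Ioi (B * T), GG l t ^ 2 * Real.exp (-t / T) ≤
        ∫ t in Ioi (B * T), Real.exp (-B / 2) * (GG l t ^ 2 * Real.exp (-t / (2 * T))) := by
      refine setIntegral_mono_on (hiT.mono_set hsub)
        ((hi2.mono_set hsub).const_mul _) measurableSet_Ioi fun t ht => ?_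
      have h2 : Real.exp (-t / T) ≤ Real.exp (-B / 2) * Real.exp (-t / (2 * T)) := by
        rw [← Real.exp_add]
        apply Real.exp_le_exp.mpr
        have h3 : B ≤ t / T := by
          rw [le_div_iff₀ hTpos]
          exact le_of_lt ht
        have h4 : t / (2 * T) = t / T / 2 := by
          field_simp
        rw [neg_div, neg_div, neg_div, h4]
        linarith
      calc GG l t ^ 2 * Real.exp (-t / T) ≤
            GG l t ^ 2 * (Real.exp (-B / 2) * Real.exp (-t / (2 * T))) :=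
            mul_le_mul_of_nonneg_left h2 (sq_nonneg _)
        _ = _ := by ring
    have h5 : ∫ t in Ioi (B * T), Real.exp (-B / 2) * (GG l t ^ 2 * Real.exp (-t / (2 * T))) ≤
        ∫ t in Ioi 0, Real.exp (-B / 2) * (GG l t ^ 2 * Real.exp (-t / (2 * T))) := by
      refine setIntegral_mono_set (hi2.const_mul _) ?_
        (Filter.Eventually.of_forall fun t ht => hsub ht)
      exact Filter.Eventually.of_forall fun t => by positivity
    have h6 := h1.trans h5
    rw [integral_const_mul] at h6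
    have h7 : ∫ t in Ioi 0, GG l t ^ 2 * Real.exp (-t / (2 * T)) ≤ C0 * (2 * T) := by
      rw [inv_mul_le_iff₀ (show 0 < 2 * T by positivity)] at hB'
      linarith [mul_comm C0 (2 * T)]
    rw [inv_mul_le_iff₀ hTpos]
    have h9 : 0 ≤ C0 * T * Real.exp (-B / 2) := by positivity
    calc _ ≤ Real.exp (-B / 2) * ∫ t in Ioi 0, GG l t ^ 2 * Real.exp (-t / (2 * T)) := h6
      _ ≤ Real.exp (-B / 2) * (C0 * (2 * T)) :=
          mul_le_mul_of_nonneg_left h7 (Real.exp_pos _).le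
      _ ≤ T * (3 * C0 * Real.exp (-B / 2)) := by nlinarith

end LZ

end F_Z06
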