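import Pool.Agent.Lib.MP_0f5a55_nt.V.V02
import Pool.Agent.Lib.MP_0f5a55_nt.V.V06
import Pool.Agent.Lib.MP_0f5a55_nt.V.V07
import Pool.Agent.Lib.MP_0f5a55_nt.V.V31
import Pool.Agent.Lib.MP_0f5a55_nt.V.V36
import Pool.Agent.Lib.MP_0f5a55_nt.V.V37
import Pool.Agent.Lib.MP_0f5a55_nt.V.V48
import Pool.Agent.Lib.MP_0f5a55_nt.V.V52

section F_M09

open Complex MeasureTheory Set Filter Topology
open scoped ComplexConjugate

namespace LZ

/-- second moment of the mollified zeta. -/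
theorem F_second (U : ℝ) (hU : 0 ≤ U) : ∃ C T0 : ℝ, 0 < C ∧ 2 ≤ T0 ∧ ∀ T : ℝ, T0 ≤ T → ∀ l : ℝ,
    Real.log T / 2000 ≤ l → l ≤ Real.log T / 1000 → ∀ σ u : ℝ, |σ| ≤ 1 / Real.log T → |u| ≤ U →
    ER T (fun t => ‖FF l (1/2 + σ + (t + u) * I)‖ ^ 2) ≤ C := by
  obtain ⟨C, T0, hC, hT0, h⟩ := XX_mu_bound U hU
  refine ⟨C, T0, hC, hT0, ?_⟩
  intro T hT l hl1 hl2 σ u hσ hu
  have hlog : 0 < Real.log T := Real.log_pos (by linarith)
  have hl0 : 0 < l := lt_of_lt_of_le (by positivity) hl1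
  have h1 := h T hT l hl1 hl2 (σ + u * I) (σ - u * I) (by simpa using hσ) (by simpa using hu) (by
    have e1 : (σ : ℂ) + u * I + (σ - u * I) = ((2 * σ : ℝ) : ℂ) := by push_cast; ring
    rw [e1, Complex.norm_real, Real.norm_eq_abs, abs_mul, abs_two]
    have e2 : 2 * |σ| ≤ 2 * (1 / Real.log T) := by linarith
    have e3 : 2 * (1 / Real.log T) ≤ 3 / Real.log T := by
      rw [mul_one_div]
      exact div_le_div_of_nonneg_right (by norm_num) hlog.le
    linarith)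
  have hEE : EE T (XX ![1, 0, 1, 0] l (σ + u * I) (σ - u * I) ![σ + u * I, 0, σ - u * I, 0]) =
      ((ER T (fun t => ‖FF l (1/2 + σ + (t + u) * I)‖ ^ 2) : ℝ) : ℂ) := by
    unfold EE ER
    rw [Complex.ofReal_mul, Complex.ofReal_inv, ← integral_complex_ofReal]
    congr 1
    apply integral_congr_ae
    refine Filter.Eventually.of_forall (fun t => ?_)
    simp only
    rw [conj_facts.2.2.2 l hl0 σ u u t, Complex.mul_conj']
    push_cast
    ring
  rw [hEE, Complex.norm_real] at h1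
  exact (le_abs_self _).trans h1

end LZ

end F_M09

section F_Y_B08

open Complex MeasureTheory Set Filter Topology
open scoped ComplexConjugate

namespace LP

open LZ (kk nS cf EE ER PP wt Sep)

variable {N : ℕ} [NeZero N]

theorem B08_compact (θ : DirichletCharacter ℂ N) (u0 d : ℝ) (hd : 0 < d) (hu : θ ≠ 1 ∨ d < |u0|) :
    ∃ M : ℝ, 0 < M ∧ ∀ w : ℂ, 0 ≤ w.re → w.re ≤ 1 →
    |w.im - u0| ≤ d → ‖LX.Lf θ (1 + w)‖ ≤ M ∧ ‖LX.Lf θ (1 + w)‖⁻¹ ≤ M := by
  set S : Set ℂ := {w : ℂ | 0 ≤ w.re ∧ w.re ≤ 1 ∧ |w.im - u0| ≤ d} with hS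
  have hScomp : IsCompact S := by
    rw [Metric.isCompact_iff_isClosed_bounded]
    constructor
    · have h1 : IsClosed {w : ℂ | 0 ≤ w.re} := isClosed_le continuous_const Complex.continuous_re
      have h2 : IsClosed {w : ℂ | w.re ≤ 1} := isClosed_le Complex.continuous_re continuous_const
      have h3 : IsClosed {w : ℂ | |w.im - u0| ≤ d} :=
        isClosed_le ((Complex.continuous_im.sub continuous_const).abs) continuous_const
      exact h1.inter (h2.inter h3)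
    · rw [isBounded_iff_forall_norm_le]
      refine ⟨1 + (d + |u0|), fun w hw => ?_⟩
      obtain ⟨h1, h2, h3⟩ := hw
      refine (Complex.norm_le_abs_re_add_abs_im w).trans ?_
      rw [abs_of_nonneg h1]
      have h4 : |w.im| ≤ |w.im - u0| + |u0| := by
        have := abs_add_le (w.im - u0) u0
        rwa [sub_add_cancel] at this
      linarith
  have hne : ∀ w ∈ S, θ ≠ 1 ∨ (1 + w) ≠ 1 := by
    rintro w ⟨h1, h2, h3⟩
    rcases hu with h | h
    · exact Or.inl h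
    · refine Or.inr fun h4 => ?_
      have h5 : w = 0 := add_eq_left.mp h4
      rw [h5, Complex.zero_im, zero_sub, abs_neg] at h3
      exact absurd h3 (not_le.mpr h)
  have hne0 : ∀ w ∈ S, LX.Lf θ (1 + w) ≠ 0 := by
    intro w hw
    have h := hne w hw
    obtain ⟨h1, h2, h3⟩ := hw
    unfold LX.Lf
    refine DirichletCharacter.LFunction_ne_zero_of_one_le_re θ h ?_
    rw [Complex.add_re, Complex.one_re]
    linarith
  have hcont : ContinuousOn (fun w : ℂ => LX.Lf θ (1 + w)) S := by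
    intro w hw
    apply ContinuousAt.continuousWithinAt
    unfold LX.Lf
    exact ContinuousAt.comp (f := fun w : ℂ => 1 + w)
      (DirichletCharacter.differentiableAt_LFunction θ (1 + w) (hne w hw).symm).continuousAt
      (continuousAt_const.add continuousAt_id)
  obtain ⟨M1, hM1⟩ := hScomp.exists_bound_of_continuousOn hcont
  obtain ⟨M2, hM2⟩ := hScomp.exists_bound_of_continuousOn (hcont.inv₀ hne0)
  refine ⟨max 1 (max M1 M2), lt_of_lt_of_le one_pos (le_max_left _ _), ?_⟩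
  intro w h1 h2 h3
  have hw : w ∈ S := ⟨h1, h2, h3⟩
  constructor
  · exact (hM1 w hw).trans ((le_max_left _ _).trans (le_max_right _ _))
  · have := hM2 w hw
    rw [Pi.inv_apply, norm_inv] at this
    exact this.trans ((le_max_right _ _).trans (le_max_right _ _))

private lemma B08_re (l c x : ℝ) (hl : 3 ≤ l) (hc1 : 1 ≤ c) (hc2 : c ≤ 2) (hx : |x| ≤ 1 / (8 * l)) :
    1 / l / 2 ≤ x + c / l ∧ x + c / l ≤ 1 := by
  have hl0 : 0 < l := by linarith
  have h1 := abs_le.1 hx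
  have h8 : 1 / (8 * l) = (1 / l) / 8 := by rw [div_div, mul_comm]
  have hil : 0 < 1 / l := one_div_pos.mpr hl0
  have hil3 : 1 / l ≤ 1 / 3 := one_div_le_one_div_of_le (by norm_num) hl
  have hcl1 : 1 / l ≤ c / l := div_le_div_of_nonneg_right hc1 hl0.le
  have hcl2 : c / l ≤ 2 / l := div_le_div_of_nonneg_right hc2 hl0.le
  have h2l : 2 / l = 2 * (1 / l) := by ring
  rw [h8] at h1
  constructor
  · linarith [h1.1]
  · linarith [h1.2]

private lemma B08_M (M K a : ℝ) (hM : 0 ≤ M) (hK : 0 ≤ K) (ha : 0 ≤ a) : M ≤ (M + K) * (1 + a) :=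
  (le_mul_of_one_le_right hM (le_add_of_nonneg_right ha)).trans
    (mul_le_mul_of_nonneg_right (le_add_of_nonneg_right hK) (by linarith))

private lemma B08_far (C0 M d l x y u v : ℝ) (hC0 : 0 < C0) (hM : 0 < M) (hd : 0 < d) (hl : 0 < l) (hld : 1 / d ≤ l)
    (hy : |y - u| ≤ 1 / (8 * l)) (hv : d < |y + v / l - u|) (hx : 1 / l / 2 ≤ x) :
    C0 / x ≤ (M + C0 * 4 / d) * (1 + |v|) := by
  have hil : 0 < 1 / l := one_div_pos.mpr hl
  have hx0 : 0 < x := by linarith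
  have hdl : 1 / l ≤ d := by
    rw [div_le_iff₀ hl]
    rw [div_le_iff₀ hd] at hld
    linarith
  have h8 : 1 / (8 * l) = (1 / l) / 8 := by rw [div_div, mul_comm]
  have h3 : d / 2 < |v| / l := by
    have h4 : |y + v / l - u| ≤ |y - u| + |v / l| := by
      have := abs_add_le (y - u) (v / l)
      rwa [show y + v / l - u = y - u + v / l by ring]
    rw [abs_div, abs_of_pos hl] at h4
    linarith
  have h5 : l ≤ 2 * |v| / d := by
    rw [lt_div_iff₀ hl] at h3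
    rw [le_div_iff₀ hd]
    linarith
  have g4 : C0 / x ≤ C0 * (2 * l) := by
    rw [div_le_iff₀ hx0, mul_assoc]
    refine le_mul_of_one_le_right hC0.le ?_
    have h6 := mul_le_mul_of_nonneg_left hx (show 0 ≤ 2 * l by linarith)
    rwa [show 2 * l * (1 / l / 2) = 1 by field_simp] at h6
  have g6 : C0 * (2 * l) ≤ C0 * 4 / d * |v| := by
    refine (mul_le_mul_of_nonneg_left (mul_le_mul_of_nonneg_left h5 zero_le_two) hC0.le).trans (le_of_eq ?_)
    ring
  have g7 : 0 ≤ C0 * 4 / d := div_nonneg (mul_nonneg hC0.le (by norm_num)) hd.le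
  refine g4.trans (g6.trans (mul_le_mul ?_ ?_ (abs_nonneg v) ?_)) <;> linarith

/-- (theta,u0) <> (1,0): near 1 + i u0 the function L(s,theta) is continuous and <> 0 (DirichletCharacter.LFunction_ne_zero_of_one_le_re),
so |L|^(+-1) <= C for |v| <= delta l; for |v| > delta l use L_trivial: Re s - 1 >= 7/(8l), so |L|^(+-1) <= C l <= C |v|. LZ.P07. -/
theorem L_near (θ : DirichletCharacter ℂ N) (u0 : ℝ) (hu : θ ≠ 1 ∨ u0 ≠ 0) : ∃ C l0 : ℝ, 0 < C ∧ 1 ≤ l0 ∧
    ∀ l : ℝ, l0 ≤ l → ∀ η : ℂ, ‖η - u0 * I‖ ≤ 1 / (8 * l) → ∀ c v : ℝ, 1 ≤ c → c ≤ 2 →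
    ‖LX.Lf θ (1 + η + (c + v * I) / l)‖ ≤ C * (1 + |v|) ∧
    ‖LX.Lf θ (1 + η + (c + v * I) / l)‖⁻¹ ≤ C * (1 + |v|) := by
  obtain ⟨C0, hC0, hT⟩ := L_trivial
  obtain ⟨d, hd, hdu⟩ : ∃ d : ℝ, 0 < d ∧ (θ ≠ 1 ∨ d < |u0|) := by
    rcases hu with h | h
    · exact ⟨1, one_pos, Or.inl h⟩
    · exact ⟨|u0| / 2, half_pos (abs_pos.2 h), Or.inr (half_lt_self (abs_pos.2 h))⟩
  obtain ⟨M, hM, hMz⟩ := B08_compact θ u0 d hd hdu
  have g7 : 0 ≤ C0 * 4 / d := div_nonneg (mul_nonneg hC0.le (by norm_num)) hd.le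
  refine ⟨M + C0 * 4 / d, max 3 (1 / d), add_pos_of_pos_of_nonneg hM g7, le_trans (by norm_num) (le_max_left _ _), ?_⟩
  intro l hl η hη c v hc1 hc2
  have hl3 : (3 : ℝ) ≤ l := (le_max_left _ _).trans hl
  have hld : 1 / d ≤ l := (le_max_right _ _).trans hl
  have hl0 : 0 < l := lt_of_lt_of_le three_pos hl3
  have hη1 : |η.re| ≤ 1 / (8 * l) := by
    have h := (Complex.abs_re_le_norm (η - u0 * I)).trans hη
    rwa [Complex.sub_re, Complex.re_ofReal_mul, Complex.I_re, mul_zero, sub_zero] at h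
  have hη2 : |η.im - u0| ≤ 1 / (8 * l) := by
    have h := (Complex.abs_im_le_norm (η - u0 * I)).trans hη
    rwa [Complex.sub_im, Complex.im_ofReal_mul, Complex.I_im, mul_one] at h
  have hwre : (η + (c + v * I) / l).re = η.re + c / l := by
    rw [Complex.add_re, Complex.div_ofReal_re, Complex.add_re, Complex.ofReal_re, Complex.re_ofReal_mul,
      Complex.I_re, mul_zero, add_zero]
  have hwim : (η + (c + v * I) / l).im = η.im + v / l := by
    rw [Complex.add_im, Complex.div_ofReal_im, Complex.add_im, Complex.ofReal_im, Complex.im_ofReal_mul,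
      Complex.I_im, mul_one, zero_add]
  obtain ⟨hre0, hre1⟩ := B08_re l c η.re hl3 hc1 hc2 hη1
  rw [← hwre] at hre0 hre1
  rw [add_assoc]
  obtain ⟨w, hw⟩ : ∃ w, w = η + (c + v * I) / l := ⟨_, rfl⟩
  rw [← hw] at hre0 hre1 hwre hwim ⊢
  have hrepos : 0 < w.re := lt_of_lt_of_le (half_pos (one_div_pos.mpr hl0)) hre0
  have e1 : (1 + w).re = 1 + w.re := by rw [Complex.add_re, Complex.one_re]
  by_cases hv : |w.im - u0| ≤ d
  · obtain ⟨g1, g2⟩ := hMz w hrepos.le hre1 hv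
    have g8 := B08_M M _ |v| hM.le g7 (abs_nonneg v)
    exact ⟨g1.trans g8, g2.trans g8⟩
  · obtain ⟨g1, g2⟩ := hT N θ (1 + w) (by rw [e1]; linarith only [hrepos]) (by rw [e1]; linarith only [hre1])
    rw [hwim] at hv
    have g3 := B08_far C0 M d l w.re η.im u0 v hC0 hM hd hl0 hld hη2 (not_le.mp hv) hre0
    have e2 : (1 + w).re - 1 = w.re := by rw [e1, add_sub_cancel_left]
    rw [e2] at g1 g2
    exact ⟨g1.trans g3, g2.trans g3⟩

end LP

end F_Y_B08

section F_Q17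

open Complex MeasureTheory Set Filter Topology
open scoped ComplexConjugate

namespace LZ

theorem Q17_kk_one : ∫ u : ℝ, kk u = 1 := by
  have h := wt_eq 0
  have h1 : ∀ u : ℝ, kk u * exp (-((1 + u * I) * ((0 : ℝ) : ℂ))) = kk u := by
    intro u
    rw [Complex.ofReal_zero, mul_zero, neg_zero, Complex.exp_zero, mul_one]
  simp_rw [h1] at h
  rw [← h]
  unfold wt
  norm_num

theorem Q17_zeta_cont (s : ℂ) (hs : s ≠ 1) : ContinuousAt riemannZeta s :=
  (differentiableAt_riemannZeta hs).continuousAt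

theorem Q17_re_ne (s : ℂ) (hs : 1 < s.re) : s ≠ 1 := by
  rintro rfl
  simp at hs

/-- bounds from `R_log` -/
theorem Q17_zeta_bd (C : ℝ) (hC : ∀ s : ℂ, 1 < s.re → |R s - Real.log ‖riemannZeta s‖| ≤ C)
    (s : ℂ) (hs : 1 < s.re) : ‖riemannZeta s‖ ≤ Real.exp C * Real.exp |R s| ∧
      ‖riemannZeta s‖⁻¹ ≤ Real.exp C * Real.exp |R s| := by
  have hne : riemannZeta s ≠ 0 := riemannZeta_ne_zero_of_one_le_re hs.le
  have hpos : 0 < ‖riemannZeta s‖ := norm_pos_iff.2 hne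
  have h1 := abs_le.1 (hC s hs)
  have h2 := abs_le.1 (le_refl |R s|)
  constructor
  · rw [← Real.exp_add]
    calc ‖riemannZeta s‖ = Real.exp (Real.log ‖riemannZeta s‖) := (Real.exp_log hpos).symm
      _ ≤ Real.exp (C + |R s|) := Real.exp_le_exp.2 (by linarith [h1.1, h2.2])
  · rw [← Real.exp_add]
    calc ‖riemannZeta s‖⁻¹ = Real.exp (-Real.log ‖riemannZeta s‖) := by
          rw [Real.exp_neg, Real.exp_log hpos]
      _ ≤ Real.exp (C + |R s|) := Real.exp_le_exp.2 (by linarith [h1.2, h2.1])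

/-- the exponents -/
noncomputable def Q17_A (l : ℝ) (η : ℂ) (c v : ℝ) : ℂ := 1 + η + ((c : ℂ) + v * I) / l

theorem Q17_A_re (l : ℝ) (η : ℂ) (c v : ℝ) : (Q17_A l η c v).re = 1 + η.re + c / l := by
  unfold Q17_A
  have : ((c : ℂ) + v * I) / l = ((c / l : ℝ) : ℂ) + ((v / l : ℝ) : ℂ) * I := by
    push_cast; ring
  rw [this]
  simp

theorem Q17_A_lt (l : ℝ) (hl : 1 ≤ l) (η : ℂ) (hη : |η.re| ≤ 1 / (8 * l)) (c v : ℝ) (hc : 1 ≤ c) :
    1 < (Q17_A l η c v).re := by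
  rw [Q17_A_re]
  have h1 := (abs_le.1 hη).1
  have h2 : 1 / l ≤ c / l := div_le_div_of_nonneg_right hc (by linarith)
  have h3 : 1 / (8 * l) = (1 / l) / 8 := by field_simp
  have h4 : 0 < 1 / l := by positivity
  linarith

theorem Q17_A_cont (l : ℝ) (η : ℂ) (c : ℝ) : Continuous fun v : ℝ => Q17_A l η c v := by
  unfold Q17_A
  fun_prop

theorem Q17_A_tendsto (u0 : ℝ) (l : ℕ → ℝ) (η : ℕ → ℂ) (hl : ∀ n : ℕ, (n : ℝ) + 1 ≤ l n)
    (hη : ∀ n, |(η n).re| ≤ 1 / (8 * l n)) (hη2 : ∀ n, (η n).im = u0) (c v : ℝ) :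
    Tendsto (fun n => Q17_A (l n) (η n) c v) atTop (𝓝 (1 + u0 * I)) := by
  have hlt : Tendsto l atTop atTop := by
    apply tendsto_atTop_mono hl
    exact tendsto_atTop_add_const_right _ _ tendsto_natCast_atTop_atTop
  have hli : Tendsto (fun n => (l n)⁻¹) atTop (𝓝 0) := tendsto_inv_atTop_zero.comp hlt
  have hliC : Tendsto (fun n => (((l n)⁻¹ : ℝ) : ℂ)) atTop (𝓝 ((0 : ℝ) : ℂ)) :=
    (Complex.continuous_ofReal.tendsto 0).comp hli
  have hre : Tendsto (fun n => (η n).re) atTop (𝓝 0) := by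
    apply squeeze_zero_norm (a := fun n => (l n)⁻¹) _ hli
    intro n
    rw [Real.norm_eq_abs]
    refine (hη n).trans ?_
    have h0 : 0 < l n := lt_of_lt_of_le (by positivity) (hl n)
    rw [one_div]
    apply inv_anti₀ h0
    linarith
  have hηt : Tendsto η atTop (𝓝 (u0 * I)) := by
    have h1 : ∀ n, η n = (((η n).re : ℝ) : ℂ) + u0 * I := by
      intro n
      rw [← hη2 n]
      exact (Complex.re_add_im _).symm
    have h2 : Tendsto (fun n => (((η n).re : ℝ) : ℂ) + u0 * I) atTop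
        (𝓝 (((0 : ℝ) : ℂ) + u0 * I)) :=
      ((Complex.continuous_ofReal.tendsto 0).comp hre).add_const _
    rw [Complex.ofReal_zero, zero_add] at h2
    exact h2.congr fun n => (h1 n).symm
  have h3 : Tendsto (fun n => (1 + η n) + ((c : ℂ) + v * I) * (((l n)⁻¹ : ℝ) : ℂ)) atTop
      (𝓝 ((1 + u0 * I) + ((c : ℂ) + v * I) * ((0 : ℝ) : ℂ))) :=
    (hηt.const_add 1).add (hliC.const_mul _)
  rw [Complex.ofReal_zero, mul_zero, add_zero] at h3
  refine h3.congr fun n => ?_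
  unfold Q17_A
  push_cast
  rw [div_eq_mul_inv]

/-- the integrand -/
noncomputable def Q17_F (l : ℝ) (η : ℂ) (u : Fin 4 → ℝ) : ℂ :=
  riemannZeta (Q17_A l η 2 (u 0 + u 2)) /
    (riemannZeta (Q17_A l η 1 (u 0)) * riemannZeta (Q17_A l η 1 (u 2))) *
    R1 (Q17_A l η 1 (u 0)) (Q17_A l η 1 (u 2)) (Q17_A l η 2 (u 0 + u 2))

theorem Q17_F_meas (l : ℝ) (hl : 1 ≤ l) (η : ℂ) (hη : |η.re| ≤ 1 / (8 * l)) :
    Measurable (Q17_F l η) := by
  obtain ⟨K, hK, hR1b, hR1t, hR1l⟩ := R1_facts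
  have hc : ∀ (c : ℝ) (w : (Fin 4 → ℝ) → ℝ), Continuous w → Continuous fun u => Q17_A l η c (w u) :=
    fun c w hw => (Q17_A_cont l η c).comp hw
  have hz : ∀ (c : ℝ) (w : (Fin 4 → ℝ) → ℝ), 1 ≤ c → Continuous w →
      Continuous fun u => riemannZeta (Q17_A l η c (w u)) := by
    intro c w h1 hw
    rw [continuous_iff_continuousAt]
    intro u
    exact ContinuousAt.comp (Q17_zeta_cont _ (Q17_re_ne _ (Q17_A_lt l hl η hη c (w u) h1)))
      (hc c w hw).continuousAt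
  have hw0 : Continuous fun u : Fin 4 → ℝ => u 0 := continuous_apply 0
  have hw2 : Continuous fun u : Fin 4 → ℝ => u 2 := continuous_apply 2
  have hw02 : Continuous fun u : Fin 4 → ℝ => u 0 + u 2 := hw0.add hw2
  unfold Q17_F
  apply Measurable.mul
  · apply Measurable.div
    · exact (hz 2 _ (by norm_num) hw02).measurable
    · exact ((hz 1 _ le_rfl hw0).mul (hz 1 _ le_rfl hw2)).measurable
  · apply measurable_of_tendsto_metrizable (f := fun (z : ℕ) (u : Fin 4 → ℝ) =>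
      ∏ p ∈ PP z, ((1 - (p : ℂ) ^ (-(Q17_A l η 1 (u 0))) - (p : ℂ) ^ (-(Q17_A l η 1 (u 2))) +
        (p : ℂ) ^ (-(Q17_A l η 2 (u 0 + u 2)))) * (1 - (p : ℂ) ^ (-(Q17_A l η 2 (u 0 + u 2)))) /
        ((1 - (p : ℂ) ^ (-(Q17_A l η 1 (u 0)))) * (1 - (p : ℂ) ^ (-(Q17_A l η 1 (u 2)))))))
    · intro z
      apply Finset.measurable_prod
      intro p hp
      have hp0 : (p : ℂ) ≠ 0 := by
        have : p.Prime := by
          unfold PP at hp
          exact (Finset.mem_filter.1 hp).2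
        exact_mod_cast this.ne_zero
      have hpw : ∀ (c : ℝ) (w : (Fin 4 → ℝ) → ℝ), Continuous w →
          Measurable fun u => (p : ℂ) ^ (-(Q17_A l η c (w u))) := by
        intro c w hw
        apply Continuous.measurable
        exact ((hc c w hw).neg).const_cpow (Or.inl hp0)
      have m0 := hpw 1 _ hw0
      have m2 := hpw 1 _ hw2
      have m02 := hpw 2 _ hw02
      exact (((((measurable_const.sub m0).sub m2).add m02).mul (measurable_const.sub m02))).div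
        ((measurable_const.sub m0).mul (measurable_const.sub m2))
    · rw [tendsto_pi_nhds]
      intro u
      exact hR1t _ _ _ (Q17_A_lt l hl η hη 1 _ le_rfl).le (Q17_A_lt l hl η hη 1 _ le_rfl).le
        (Q17_A_lt l hl η hη 2 _ (by norm_num)).le

/-- (2.6). A = 1+eta+(1+iu0)/l, B = 1+eta+(1+iu2)/l, D = 1+eta+(2+i(u0+u2))/l. The integrand times zeta(1+eta) tends to
prod kk(u j) pointwise and is dominated by C prod |kk(u j)|(1+|u j|)^3 (R_off, R_log, R1_facts); the integral of kk is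
wt 0 = 1. Use sequences / a filter argument (contradiction) for uniformity in eta. -/
theorem QQ_lim (u0 : ℝ) (hu : u0 ≠ 0) : ∀ δ : ℝ, 0 < δ → ∃ l0 : ℝ, 1 ≤ l0 ∧ ∀ l : ℝ, l0 ≤ l → ∀ η : ℂ,
    |η.re| ≤ 1 / (8 * l) → η.im = u0 → ∀ e : Fin 4 → ℂ, e 0 = η → e 2 = η →
    ‖riemannZeta (1 + η) * QQ ⌊Real.exp l⌋₊ ![1, 0, 1, 0] l e η - 1‖ ≤ δ := by
  intro δ hδ
  by_contra hcon
  push Not at hcon
  obtain ⟨lq, hlq, hQ⟩ := QQ_mu_integral
  obtain ⟨Cr, lr, hCr, hlr, hR⟩ := R_off u0 hu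
  obtain ⟨Cl, hCl, hLog⟩ := R_log
  obtain ⟨K, hK, hR1b, hR1t, hR1l⟩ := R1_facts
  have hseq : ∀ n : ℕ, ∃ (l : ℝ) (η : ℂ) (e : Fin 4 → ℂ), lq ≤ l ∧ lr ≤ l ∧ (n : ℝ) + 1 ≤ l ∧
      |η.re| ≤ 1 / (8 * l) ∧ η.im = u0 ∧ e 0 = η ∧ e 2 = η ∧
      δ < ‖riemannZeta (1 + η) * QQ ⌊Real.exp l⌋₊ ![1, 0, 1, 0] l e η - 1‖ := by
    intro n
    obtain ⟨l, h1, η, h2, h3, e, h4, h5, h6⟩ := hcon (max lq (max lr ((n : ℝ) + 1)))
      (hlq.trans (le_max_left _ _))
    exact ⟨l, η, e, (le_max_left _ _).trans h1,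
      ((le_max_left _ _).trans (le_max_right _ _)).trans h1,
      ((le_max_right _ _).trans (le_max_right _ _)).trans h1, h2, h3, h4, h5, h6⟩
  choose l η e h1 h2 h3 h4 h5 h6 h7 h8 using hseq
  have hl1 : ∀ n, 1 ≤ l n := fun n => hlq.trans (h1 n)
  -- the integral formula
  have hform : ∀ n, QQ ⌊Real.exp (l n)⌋₊ ![1, 0, 1, 0] (l n) (e n) (η n) =
      ∫ u : Fin 4 → ℝ, (∏ j, kk (u j)) * Q17_F (l n) (η n) u := by
    intro n
    rw [hQ (l n) (h1 n) (e n) (η n) (by rw [h6]; exact h4 n) (by rw [h7]; exact h4 n) (h4 n)]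
    congr 1
    funext u
    have e0 : Aex (l n) (e n) u 0 = Q17_A (l n) (η n) 1 (u 0) := by
      unfold Aex Q17_A
      rw [h6]; push_cast; rfl
    have e2 : Aex (l n) (e n) u 2 = Q17_A (l n) (η n) 1 (u 2) := by
      unfold Aex Q17_A
      rw [h7]; push_cast; rfl
    have e4 : Aex (l n) (e n) u 0 + Aex (l n) (e n) u 2 - (1 + η n) =
        Q17_A (l n) (η n) 2 (u 0 + u 2) := by
      rw [e0, e2]
      unfold Q17_A
      push_cast
      ring
    rw [e4, e0, e2]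
    rfl
  set w : ℂ := 1 + u0 * I with hw
  have hw1 : w ≠ 1 := by
    intro h
    have := congrArg Complex.im h
    rw [hw] at this
    simp at this
    exact hu this
  have hwz : riemannZeta w ≠ 0 := riemannZeta_ne_zero_of_one_le_re (by rw [hw]; simp)
  -- pointwise limit
  have hAt : ∀ c v : ℝ, Tendsto (fun n => Q17_A (l n) (η n) c v) atTop (𝓝 w) :=
    fun c v => Q17_A_tendsto u0 l η h3 h4 h5 c v
  have hzt : ∀ c v : ℝ, Tendsto (fun n => riemannZeta (Q17_A (l n) (η n) c v)) atTop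
      (𝓝 (riemannZeta w)) := fun c v => (Q17_zeta_cont w hw1).tendsto.comp (hAt c v)
  have hlim : ∀ u : Fin 4 → ℝ, Tendsto (fun n => (∏ j, kk (u j)) * Q17_F (l n) (η n) u) atTop
      (𝓝 ((∏ j, kk (u j)) * (riemannZeta w)⁻¹)) := by
    intro u
    apply Tendsto.const_mul
    have hR1 : Tendsto (fun n => R1 (Q17_A (l n) (η n) 1 (u 0)) (Q17_A (l n) (η n) 1 (u 2))
        (Q17_A (l n) (η n) 2 (u 0 + u 2))) atTop (𝓝 1) := by
      rw [Metric.tendsto_atTop]
      intro ε hε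
      obtain ⟨ρ, hρ, hρ2⟩ := hR1l w (by rw [hw]; simp) (ε / 2) (by positivity)
      have a1 := (Metric.tendsto_atTop.1 (hAt 1 (u 0))) ρ hρ
      have a2 := (Metric.tendsto_atTop.1 (hAt 1 (u 2))) ρ hρ
      have a3 := (Metric.tendsto_atTop.1 (hAt 2 (u 0 + u 2))) ρ hρ
      obtain ⟨N1, hN1⟩ := a1
      obtain ⟨N2, hN2⟩ := a2
      obtain ⟨N3, hN3⟩ := a3
      refine ⟨max N1 (max N2 N3), fun n hn => ?_⟩
      have b1 := hN1 n ((le_max_left _ _).trans hn)
      have b2 := hN2 n (((le_max_left _ _).trans (le_max_right _ _)).trans hn)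
      have b3 := hN3 n (((le_max_right _ _).trans (le_max_right _ _)).trans hn)
      rw [dist_eq_norm] at b1 b2 b3 ⊢
      have := hρ2 _ _ _ (Q17_A_lt _ (hl1 n) _ (h4 n) 1 (u 0) le_rfl).le
        (Q17_A_lt _ (hl1 n) _ (h4 n) 1 (u 2) le_rfl).le
        (Q17_A_lt _ (hl1 n) _ (h4 n) 2 (u 0 + u 2) (by norm_num)).le b1.le b2.le b3.le
      linarith
    have hq : Tendsto (fun n => riemannZeta (Q17_A (l n) (η n) 2 (u 0 + u 2)) /
        (riemannZeta (Q17_A (l n) (η n) 1 (u 0)) * riemannZeta (Q17_A (l n) (η n) 1 (u 2)))) atTop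
        (𝓝 (riemannZeta w / (riemannZeta w * riemannZeta w))) :=
      (hzt 2 _).div ((hzt 1 _).mul (hzt 1 _)) (mul_ne_zero hwz hwz)
    have := hq.mul hR1
    have e1 : riemannZeta w / (riemannZeta w * riemannZeta w) * 1 = (riemannZeta w)⁻¹ := by
      field_simp
    rw [e1] at this
    exact this
  -- domination
  set E : ℝ := Real.exp Cl with hE
  have hE0 : 0 < E := Real.exp_pos _
  have hbd : ∀ n (u : Fin 4 → ℝ), ‖(∏ j, kk (u j)) * Q17_F (l n) (η n) u‖ ≤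
      (E * Cr) ^ 3 * K * ∏ j, (‖kk (u j)‖ * (1 + |u j|) ^ 16) := by
    intro n u
    have hz : ∀ c v : ℝ, 1 ≤ c → c ≤ 2 → ‖riemannZeta (Q17_A (l n) (η n) c v)‖ ≤ E * (Cr * (1 + |v|)) ∧
        ‖riemannZeta (Q17_A (l n) (η n) c v)‖⁻¹ ≤ E * (Cr * (1 + |v|)) := by
      intro c v hc1 hc2
      obtain ⟨g1, g2⟩ := Q17_zeta_bd Cl hLog _ (Q17_A_lt _ (hl1 n) _ (h4 n) c v hc1)
      have g3 := hR (l n) (h2 n) (η n) (h4 n) (h5 n) c v hc1 hc2
      have g4 : Real.exp |R (Q17_A (l n) (η n) c v)| ≤ Cr * (1 + |v|) := g3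
      exact ⟨g1.trans (mul_le_mul_of_nonneg_left g4 hE0.le),
        g2.trans (mul_le_mul_of_nonneg_left g4 hE0.le)⟩
    have g0 := (hz 1 (u 0) le_rfl (by norm_num)).2
    have g2 := (hz 1 (u 2) le_rfl (by norm_num)).2
    have g3 := (hz 2 (u 0 + u 2) (by norm_num) le_rfl).1
    have g4 := hR1b (Q17_A (l n) (η n) 1 (u 0)) (Q17_A (l n) (η n) 1 (u 2))
      (Q17_A (l n) (η n) 2 (u 0 + u 2)) (Q17_A_lt _ (hl1 n) _ (h4 n) 1 (u 0) le_rfl).le
        (Q17_A_lt _ (hl1 n) _ (h4 n) 1 (u 2) le_rfl).le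
        (Q17_A_lt _ (hl1 n) _ (h4 n) 2 (u 0 + u 2) (by norm_num)).le
    have a0 : 1 ≤ 1 + |u 0| := by linarith [abs_nonneg (u 0)]
    have a1 : 1 ≤ 1 + |u 1| := by linarith [abs_nonneg (u 1)]
    have a2 : 1 ≤ 1 + |u 2| := by linarith [abs_nonneg (u 2)]
    have a3 : 1 ≤ 1 + |u 3| := by linarith [abs_nonneg (u 3)]
    have g5 : 1 + |u 0 + u 2| ≤ (1 + |u 0|) * (1 + |u 2|) := by
      have := abs_add_le (u 0) (u 2)
      nlinarith [abs_nonneg (u 0), abs_nonneg (u 2), mul_nonneg (abs_nonneg (u 0)) (abs_nonneg (u 2))]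
    have g6 : ‖riemannZeta (Q17_A (l n) (η n) 2 (u 0 + u 2))‖ ≤
        E * (Cr * ((1 + |u 0|) * (1 + |u 2|))) :=
      g3.trans (mul_le_mul_of_nonneg_left (mul_le_mul_of_nonneg_left g5 hCr.le) hE0.le)
    have hF : ‖Q17_F (l n) (η n) u‖ ≤ (E * Cr) ^ 3 * K * ((1 + |u 0|) ^ 2 * (1 + |u 2|) ^ 2) := by
      unfold Q17_F
      rw [norm_mul, norm_div, norm_mul, div_eq_mul_inv, mul_inv]
      calc _ ≤ (E * (Cr * ((1 + |u 0|) * (1 + |u 2|)))) * ((E * (Cr * (1 + |u 0|))) *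
            (E * (Cr * (1 + |u 2|)))) * K := by
            apply mul_le_mul _ g4 (norm_nonneg _) (by positivity)
            apply mul_le_mul g6 _ (by positivity) (by positivity)
            exact mul_le_mul g0 g2 (by positivity) (by positivity)
        _ = _ := by ring
    rw [norm_mul, norm_prod]
    have hprod : ∏ j, (‖kk (u j)‖ * (1 + |u j|) ^ 16) = (∏ j, ‖kk (u j)‖) * ∏ j, (1 + |u j|) ^ 16 :=
      Finset.prod_mul_distrib
    rw [hprod]
    have hpow : (1 + |u 0|) ^ 2 * (1 + |u 2|) ^ 2 ≤ ∏ j : Fin 4, (1 + |u j|) ^ 16 := by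
      rw [Fin.prod_univ_four]
      have b0 : (1 + |u 0|) ^ 2 ≤ (1 + |u 0|) ^ 16 := pow_le_pow_right₀ a0 (by norm_num)
      have b2 : (1 + |u 2|) ^ 2 ≤ (1 + |u 2|) ^ 16 := pow_le_pow_right₀ a2 (by norm_num)
      have b1 : 1 ≤ (1 + |u 1|) ^ 16 := one_le_pow₀ a1
      have b3 : 1 ≤ (1 + |u 3|) ^ 16 := one_le_pow₀ a3
      calc (1 + |u 0|) ^ 2 * (1 + |u 2|) ^ 2 = (1 + |u 0|) ^ 2 * 1 * (1 + |u 2|) ^ 2 * 1 := by ring
        _ ≤ (1 + |u 0|) ^ 16 * (1 + |u 1|) ^ 16 * (1 + |u 2|) ^ 16 * (1 + |u 3|) ^ 16 := by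
            apply mul_le_mul _ b3 (by norm_num) (by positivity)
            apply mul_le_mul _ b2 (by positivity) (by positivity)
            exact mul_le_mul b0 b1 (by norm_num) (by positivity)
    have hk0 : 0 ≤ ∏ j, ‖kk (u j)‖ := Finset.prod_nonneg fun _ _ => norm_nonneg _
    calc (∏ j, ‖kk (u j)‖) * ‖Q17_F (l n) (η n) u‖ ≤
        (∏ j, ‖kk (u j)‖) * ((E * Cr) ^ 3 * K * ∏ j : Fin 4, (1 + |u j|) ^ 16) := by
          apply mul_le_mul_of_nonneg_left _ hk0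
          exact hF.trans (mul_le_mul_of_nonneg_left hpow (by positivity))
      _ = _ := by ring
  have hint : Integrable (fun u : Fin 4 → ℝ => (E * Cr) ^ 3 * K *
      ∏ j, (‖kk (u j)‖ * (1 + |u j|) ^ 16)) := by
    apply Integrable.const_mul
    exact Integrable.fintype_prod (f := fun (_ : Fin 4) (v : ℝ) => ‖kk v‖ * (1 + |v|) ^ 16)
      (fun _ => kk_facts.2)
  have hkm : Measurable fun u : Fin 4 → ℝ => ∏ j, kk (u j) := by
    apply Finset.measurable_prod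
    intro j _
    exact kk_facts.1.measurable.comp (measurable_pi_apply j)
  have hmeas : ∀ n, AEStronglyMeasurable (fun u : Fin 4 → ℝ =>
      (∏ j, kk (u j)) * Q17_F (l n) (η n) u) volume := by
    intro n
    exact (hkm.mul (Q17_F_meas (l n) (hl1 n) (η n) (h4 n))).aestronglyMeasurable
  have hDCT := tendsto_integral_of_dominated_convergence _ hmeas hint
    (fun n => Eventually.of_forall fun u => hbd n u) (Eventually.of_forall hlim)
  have hval : ∫ u : Fin 4 → ℝ, (∏ j, kk (u j)) * (riemannZeta w)⁻¹ = (riemannZeta w)⁻¹ := by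
    rw [integral_mul_const]
    have : ∫ u : Fin 4 → ℝ, ∏ j, kk (u j) = ∏ j : Fin 4, ∫ v : ℝ, kk v :=
      integral_fintype_prod_volume_eq_prod (fun _ : Fin 4 => kk)
    rw [this, Q17_kk_one]
    simp
  rw [hval] at hDCT
  have hz1 : Tendsto (fun n => riemannZeta (1 + η n)) atTop (𝓝 (riemannZeta w)) := by
    have h := hzt 0 0
    refine h.congr fun n => ?_
    congr 1
    unfold Q17_A
    simp
  have hfin := hz1.mul hDCT
  rw [mul_inv_cancel₀ hwz] at hfin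
  have hfin2 := (hfin.sub_const 1).norm
  rw [sub_self, norm_zero] at hfin2
  obtain ⟨n, hn⟩ := ((tendsto_order.1 hfin2).2 δ hδ).exists
  have := h8 n
  rw [hform n] at this
  linarith

end LZ

end F_Q17
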