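import Pool.Agent.Lib.MP_0f5a55_nt.V.V11
import Pool.Agent.Lib.MP_0f5a55_nt.V.V18
import Pool.Agent.Lib.MP_0f5a55_nt.V.V45
import Pool.Agent.Lib.MP_0f5a55_nt.V.V53

section F_Y_C05

open Complex MeasureTheory Set Filter Topology
open scoped ComplexConjugate

namespace LP

open LZ (kk nS cf EE ER PP wt Sep)

variable {N : ℕ} [NeZero N]

/-- facts on a point w = 1/2 + gamma + v with |Re gamma| <= 1/16, Re v = 0 -/
private theorem C05_pt {γ v : ℂ} (hγ : |γ.re| ≤ 1/16) (hv : v.re = 0) :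
    5/16 ≤ (1/2 + γ + v).re ∧ 1/4 ≤ ‖(1/2 + γ + v) - 1‖ ∧ (1/2 + γ + v) ≠ 1 := by
  have h1 : (1/2 + γ + v : ℂ).re = 1/2 + γ.re := by simp [hv]
  have h2 := abs_le.mp hγ
  have h3 : ((1/2 + γ + v : ℂ) - 1).re = γ.re - 1/2 := by
    rw [Complex.sub_re, h1, Complex.one_re]
    ring
  have h4 : |((1/2 + γ + v : ℂ) - 1).re| ≤ ‖(1/2 + γ + v : ℂ) - 1‖ := Complex.abs_re_le_norm _
  have h5 : 1/4 ≤ ‖(1/2 + γ + v : ℂ) - 1‖ := by
    refine le_trans ?_ h4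
    rw [h3, abs_of_nonpos (by linarith [h2.2])]
    linarith [h2.2]
  refine ⟨by rw [h1]; linarith [h2.1], h5, ?_⟩
  intro h6
  rw [h6, sub_self, norm_zero] at h5
  linarith

/-- one factor: continuity and growth along a vertical line -/
private theorem C05_FF (χ : DirichletCharacter ℂ N) (l U : ℝ) (hl0 : 0 < l) (hU : 0 ≤ U) :
    ∃ C : ℝ, 0 < C ∧ ∀ (γ : ℂ), |γ.re| ≤ 1/16 → |γ.im| ≤ U → ∀ (v : ℝ → ℂ), Continuous v →
      (∀ t, (v t).re = 0) → (∀ t, |(v t).im| = |t|) →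
      (Continuous fun t => LX.FF χ l (1/2 + γ + v t)) ∧
      ∀ t, ‖LX.FF χ l (1/2 + γ + v t)‖ ≤ C * (1 + |t|) := by
  obtain ⟨Z, hZ, hZb⟩ := per_pol (N := N) (fun x => χ x)
  have hM0 : 0 < Real.exp l := Real.exp_pos l
  refine ⟨Z * (1 + U) * Real.exp l, by positivity, ?_⟩
  intro γ hγ hγU v hv hvre hvim
  constructor
  · unfold LX.FF
    refine Continuous.mul ?_ ((LX.Mol_cont χ 1 l).comp (by fun_prop))
    rw [continuous_iff_continuousAt]
    intro t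
    have h1 := (C05_pt (v := v t) hγ (hvre t)).2.2
    have h2 : ContinuousAt (fun t : ℝ => (1/2 + γ + v t : ℂ)) t := by fun_prop
    have h3 : ContinuousAt (LX.Lf χ) (1/2 + γ + v t) :=
      (DirichletCharacter.differentiableAt_LFunction χ _ (Or.inl h1)).continuousAt
    exact ContinuousAt.comp (f := fun t : ℝ => (1/2 + γ + v t : ℂ)) (x := t) h3 h2
  · intro t
    have h1 := C05_pt (v := v t) hγ (hvre t)
    have h4 : 0 ≤ |t| := abs_nonneg t
    have hz1 : ‖LX.Lf χ (1/2 + γ + v t)‖ ≤ Z * (1 + U) * (1 + |t|) := by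
      refine (hZb _ h1.1 h1.2.1).trans ?_
      have h2 : |(1/2 + γ + v t : ℂ).im| ≤ U + |t| := by
        have h3 : (1/2 + γ + v t : ℂ).im = γ.im + (v t).im := by simp
        rw [h3, ← hvim t]
        exact (abs_add_le _ _).trans (add_le_add hγU le_rfl)
      have h5 : 1 + |(1/2 + γ + v t : ℂ).im| ≤ (1 + U) * (1 + |t|) := by nlinarith
      calc Z * (1 + |(1/2 + γ + v t : ℂ).im|) ≤ Z * ((1 + U) * (1 + |t|)) :=
            mul_le_mul_of_nonneg_left h5 hZ.le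
        _ = _ := by ring
    have hm : ‖LX.Mol χ 1 l (1/2 + γ + v t)‖ ≤ Real.exp l :=
      LX.Mol_bound χ zero_le_one le_rfl hl0 (by linarith [h1.1])
    unfold LX.FF
    rw [norm_mul]
    calc _ ≤ (Z * (1 + U) * (1 + |t|)) * Real.exp l := by
          gcongr
      _ = _ := by ring

/-- continuity and growth of the integrand; adapt LZ.M05 / LX.M05 (no pole on the lines Re = 1/2 + alpha, |Re alpha| <= 1/16). -/
theorem XP_bound (χ ψ : DirichletCharacter ℂ N) (l U : ℝ) (hl0 : 0 < l) (hU : 0 ≤ U) :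
    ∃ C : ℝ, 0 < C ∧ ∀ (α β : ℂ), |α.re| ≤ 1/16 → |β.re| ≤ 1/16 → |α.im| ≤ U → |β.im| ≤ U →
    Continuous (XP χ ψ l α β) ∧ ∀ t : ℝ, ‖XP χ ψ l α β t‖ ≤ C * (1 + |t|) ^ 2 := by
  obtain ⟨C1, hC1, hb1⟩ := C05_FF χ l U hl0 hU
  obtain ⟨C2, hC2, hb2⟩ := C05_FF ψ l U hl0 hU
  refine ⟨C1 * C2, by positivity, ?_⟩
  intro α β hα hβ hαU hβU
  obtain ⟨c1, b1⟩ := hb1 α hα hαU (fun t => t * I) (by fun_prop) (fun t => by simp)
    (fun t => by simp)
  obtain ⟨c2, b2⟩ := hb2 β hβ hβU (fun t => -(t * I)) (by fun_prop) (fun t => by simp)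
    (fun t => by simp)
  simp only [← sub_eq_add_neg] at c2 b2
  constructor
  · unfold XP
    exact c1.mul c2
  · intro t
    unfold XP
    rw [norm_mul]
    have h4 : 0 ≤ |t| := abs_nonneg t
    calc _ ≤ (C1 * (1 + |t|)) * (C2 * (1 + |t|)) := by
          gcongr
          · exact b1 t
          · exact b2 t
      _ = _ := by ring

end LP

end F_Y_C05

section F_Y_B11

open Complex MeasureTheory Set Filter Topology
open scoped ComplexConjugate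

namespace LP

open LZ (kk nS cf EE ER PP wt Sep)

variable {N : ℕ} [NeZero N]

theorem B11_tendsto (u0 : ℝ) (l : ℕ → ℝ) (η : ℕ → ℂ) (hl : ∀ n : ℕ, (n : ℝ) + 1 ≤ l n)
    (hη : ∀ n, ‖η n - u0 * I‖ ≤ 1 / (8 * l n)) (c v : ℝ) :
    Tendsto (fun n => LZ.Q17_A (l n) (η n) c v) atTop (𝓝 (1 + u0 * I)) := by
  have hlt : Tendsto l atTop atTop := by
    apply tendsto_atTop_mono hl
    exact tendsto_atTop_add_const_right _ _ tendsto_natCast_atTop_atTop
  have hli : Tendsto (fun n => (l n)⁻¹) atTop (𝓝 0) := tendsto_inv_atTop_zero.comp hlt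
  rw [tendsto_iff_norm_sub_tendsto_zero]
  have hup : Tendsto (fun n => (1 + ‖(c : ℂ) + v * I‖) * (l n)⁻¹) atTop (𝓝 0) := by
    have := hli.const_mul (1 + ‖(c : ℂ) + v * I‖)
    rwa [mul_zero] at this
  refine squeeze_zero (fun n => norm_nonneg _) (fun n => ?_) hup
  have h0 : 0 < l n := lt_of_lt_of_le (by positivity) (hl n)
  have e : LZ.Q17_A (l n) (η n) c v - (1 + u0 * I) = (η n - u0 * I) + ((c : ℂ) + v * I) / (l n : ℂ) := by
    unfold LZ.Q17_A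
    ring
  rw [e]
  refine (norm_add_le _ _).trans ?_
  rw [norm_div, Complex.norm_real, Real.norm_of_nonneg h0.le, add_mul, one_mul, div_eq_mul_inv]
  have h1 : 1 / (8 * l n) ≤ (l n)⁻¹ := by
    rw [one_div]
    apply inv_anti₀ h0
    linarith
  have := hη n
  linarith

theorem B11_re (u0 l : ℝ) (η : ℂ) (hη : ‖η - u0 * I‖ ≤ 1 / (8 * l)) : |η.re| ≤ 1 / (8 * l) := by
  have h1 := Complex.abs_re_le_norm (η - u0 * I)
  have h2 : (η - u0 * I).re = η.re := by simp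
  rw [h2] at h1
  exact h1.trans hη

/-- the integrand -/
noncomputable def B11_F (θ : DirichletCharacter ℂ N) (l : ℝ) (η : ℂ) (u : ℝ × ℝ) : ℂ :=
  LX.Lf θ (LZ.Q17_A l η 2 (u.1 + u.2)) /
    (LX.Lf θ (LZ.Q17_A l η 1 u.1) * LX.Lf θ (LZ.Q17_A l η 1 u.2)) *
    R1 θ θ (LZ.Q17_A l η 1 u.1) (LZ.Q17_A l η 1 u.2) (LZ.Q17_A l η 2 (u.1 + u.2))

theorem B11_Lf_cont (θ : DirichletCharacter ℂ N) (s : ℂ) (h : s ≠ 1 ∨ θ ≠ 1) : ContinuousAt (LX.Lf θ) s :=
  (DirichletCharacter.differentiableAt_LFunction θ s h).continuousAt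

theorem B11_F_meas (θ : DirichletCharacter ℂ N) (l : ℝ) (hl : 1 ≤ l) (η : ℂ) (hη : |η.re| ≤ 1 / (8 * l)) :
    Measurable (B11_F θ l η) := by
  obtain ⟨K, hK, hfacts⟩ := R1_facts
  obtain ⟨hR1b, hR1t, hR1l⟩ := hfacts N
  have hc : ∀ (c : ℝ) (w : ℝ × ℝ → ℝ), Continuous w → Continuous fun u => LZ.Q17_A l η c (w u) :=
    fun c w hw => (LZ.Q17_A_cont l η c).comp hw
  have hz : ∀ (c : ℝ) (w : ℝ × ℝ → ℝ), 1 ≤ c → Continuous w →
      Continuous fun u => LX.Lf θ (LZ.Q17_A l η c (w u)) := by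
    intro c w h1 hw
    rw [continuous_iff_continuousAt]
    intro u
    exact ContinuousAt.comp (B11_Lf_cont θ _ (Or.inl (LZ.Q17_re_ne _ (LZ.Q17_A_lt l hl η hη c (w u) h1))))
      (hc c w hw).continuousAt
  have hw0 : Continuous fun u : ℝ × ℝ => u.1 := continuous_fst
  have hw2 : Continuous fun u : ℝ × ℝ => u.2 := continuous_snd
  have hw02 : Continuous fun u : ℝ × ℝ => u.1 + u.2 := hw0.add hw2
  unfold B11_F
  apply Measurable.mul
  · apply Measurable.div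
    · exact (hz 2 _ (by norm_num) hw02).measurable
    · exact ((hz 1 _ le_rfl hw0).mul (hz 1 _ le_rfl hw2)).measurable
  · apply measurable_of_tendsto_metrizable (f := fun (z : ℕ) (u : ℝ × ℝ) =>
      ∏ p ∈ PP z, cor θ θ (LZ.Q17_A l η 1 u.1) (LZ.Q17_A l η 1 u.2) (LZ.Q17_A l η 2 (u.1 + u.2)) p)
    · intro z
      apply Finset.measurable_prod
      intro p hp
      have hp0 : (p : ℂ) ≠ 0 := by
        have : p.Prime := by
          unfold LZ.PP at hp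
          exact (Finset.mem_filter.1 hp).2
        exact_mod_cast this.ne_zero
      have hpw : ∀ (c : ℝ) (w : ℝ × ℝ → ℝ), Continuous w →
          Measurable fun u => (p : ℂ) ^ (-(LZ.Q17_A l η c (w u))) := by
        intro c w hw
        apply Continuous.measurable
        exact ((hc c w hw).neg).const_cpow (Or.inl hp0)
      have m0 := (hpw 1 _ hw0).const_mul (θ (p : ZMod N))
      have m2 := (hpw 1 _ hw2).const_mul (θ (p : ZMod N))
      have m02 := (hpw 2 _ hw02).const_mul (θ (p : ZMod N))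
      unfold cor loc
      exact (((((measurable_const.sub m0).sub m2).add m02).mul (measurable_const.sub m02))).div
        ((measurable_const.sub m0).mul (measurable_const.sub m2))
    · rw [tendsto_pi_nhds]
      intro u
      exact hR1t θ θ _ _ _ (LZ.Q17_A_lt l hl η hη 1 _ le_rfl).le (LZ.Q17_A_lt l hl η hη 1 _ le_rfl).le
        (LZ.Q17_A_lt l hl η hη 2 _ (by norm_num)).le

/-- adapt LZ.Q17 (QQ_lim): rho = theta, kappa = theta^-1, rho^2 kappa = theta; the integrand tends pointwise to kk kk /L(1+eta,theta) ... use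
|L(1+eta) * integrand/(kk kk) - 1| -> 0 uniformly for |u|,|v| <= U', and domination C (1+|u|)^3(1+|v|)^3 from L_near, R1_facts;
int kk = wt 0 = 1 (LZ.Q04, Q05). -/
theorem Q2_lim (θ : DirichletCharacter ℂ N) (u0 : ℝ) (hu : θ ≠ 1 ∨ u0 ≠ 0) : ∀ δ : ℝ, 0 < δ → ∃ l0 : ℝ, 1 ≤ l0 ∧
    ∀ l : ℝ, l0 ≤ l → ∀ η : ℂ, ‖η - u0 * I‖ ≤ 1 / (8 * l) →
    ‖LX.Lf θ (1 + η) * Q2 θ θ⁻¹ ⌊Real.exp l⌋₊ l η η - 1‖ ≤ δ := by
  intro δ hδ
  by_contra hcon
  push Not at hcon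
  obtain ⟨lq, hlq, hQ⟩ := Q2_mu_integral θ θ⁻¹
  obtain ⟨Cr, lr, hCr, hlr, hR⟩ := L_near θ u0 hu
  obtain ⟨K, hK, hfacts⟩ := R1_facts
  obtain ⟨hR1b, hR1t, hR1l⟩ := hfacts N
  have hseq : ∀ n : ℕ, ∃ (l : ℝ) (η : ℂ), lq ≤ l ∧ lr ≤ l ∧ (n : ℝ) + 1 ≤ l ∧
      ‖η - u0 * I‖ ≤ 1 / (8 * l) ∧
      δ < ‖LX.Lf θ (1 + η) * Q2 θ θ⁻¹ ⌊Real.exp l⌋₊ l η η - 1‖ := by
    intro n
    obtain ⟨l, h1, η, h2, h3⟩ := hcon (max lq (max lr ((n : ℝ) + 1)))
      (hlq.trans (le_max_left _ _))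
    exact ⟨l, η, (le_max_left _ _).trans h1,
      ((le_max_left _ _).trans (le_max_right _ _)).trans h1,
      ((le_max_right _ _).trans (le_max_right _ _)).trans h1, h2, h3⟩
  choose l η h1 h2 h3 h4' h8 using hseq
  have hl1 : ∀ n, 1 ≤ l n := fun n => hlq.trans (h1 n)
  have h4 : ∀ n, |(η n).re| ≤ 1 / (8 * l n) := fun n => B11_re u0 (l n) (η n) (h4' n)
  have hθ : θ ^ 2 * θ⁻¹ = θ := by
    rw [pow_two, mul_inv_cancel_right]
  -- the integral formula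
  have hform : ∀ n, Q2 θ θ⁻¹ ⌊Real.exp (l n)⌋₊ (l n) (η n) (η n) =
      ∫ u : ℝ × ℝ, (kk u.1 * kk u.2) * B11_F θ (l n) (η n) u := by
    intro n
    rw [hQ (l n) (h1 n) (η n) (η n) (h4 n) (h4 n)]
    congr 1
    funext u
    have e0 : ∀ v : ℝ, 1 + η n + (1 + v * I) / (l n : ℂ) = LZ.Q17_A (l n) (η n) 1 v := by
      intro v
      unfold LZ.Q17_A
      push_cast; rfl
    have e4 : 1 + 2 * η n - η n + (2 + ((u.1 : ℂ) + u.2) * I) / (l n : ℂ) =
        LZ.Q17_A (l n) (η n) 2 (u.1 + u.2) := by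
      unfold LZ.Q17_A
      push_cast
      ring
    rw [e4, e0, e0, hθ]
    rfl
  set w : ℂ := 1 + u0 * I with hw
  have hw1 : w ≠ 1 ∨ θ ≠ 1 := by
    rcases hu with hu | hu
    · exact Or.inr hu
    · left
      intro h
      have := congrArg Complex.im h
      rw [hw] at this
      simp at this
      exact hu this
  have hwz : LX.Lf θ w ≠ 0 := by
    unfold LX.Lf
    exact DirichletCharacter.LFunction_ne_zero_of_one_le_re θ hw1.symm (by rw [hw]; simp)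
  -- pointwise limit
  have hAt : ∀ c v : ℝ, Tendsto (fun n => LZ.Q17_A (l n) (η n) c v) atTop (𝓝 w) :=
    fun c v => B11_tendsto u0 l η h3 h4' c v
  have hzt : ∀ c v : ℝ, Tendsto (fun n => LX.Lf θ (LZ.Q17_A (l n) (η n) c v)) atTop
      (𝓝 (LX.Lf θ w)) := fun c v => (B11_Lf_cont θ w hw1).tendsto.comp (hAt c v)
  have hlim : ∀ u : ℝ × ℝ, Tendsto (fun n => (kk u.1 * kk u.2) * B11_F θ (l n) (η n) u) atTop
      (𝓝 ((kk u.1 * kk u.2) * (LX.Lf θ w)⁻¹)) := by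
    intro u
    apply Tendsto.const_mul
    have hR1 : Tendsto (fun n => R1 θ θ (LZ.Q17_A (l n) (η n) 1 u.1) (LZ.Q17_A (l n) (η n) 1 u.2)
        (LZ.Q17_A (l n) (η n) 2 (u.1 + u.2))) atTop (𝓝 1) := by
      rw [Metric.tendsto_atTop]
      intro ε hε
      obtain ⟨ρ, hρ, hρ2⟩ := hR1l θ w (by rw [hw]; simp) (ε / 2) (by positivity)
      have a1 := (Metric.tendsto_atTop.1 (hAt 1 u.1)) ρ hρ
      have a2 := (Metric.tendsto_atTop.1 (hAt 1 u.2)) ρ hρ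
      have a3 := (Metric.tendsto_atTop.1 (hAt 2 (u.1 + u.2))) ρ hρ
      obtain ⟨N1, hN1⟩ := a1
      obtain ⟨N2, hN2⟩ := a2
      obtain ⟨N3, hN3⟩ := a3
      refine ⟨max N1 (max N2 N3), fun n hn => ?_⟩
      have b1 := hN1 n ((le_max_left _ _).trans hn)
      have b2 := hN2 n (((le_max_left _ _).trans (le_max_right _ _)).trans hn)
      have b3 := hN3 n (((le_max_right _ _).trans (le_max_right _ _)).trans hn)
      rw [dist_eq_norm] at b1 b2 b3 ⊢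
      have := hρ2 _ _ _ (LZ.Q17_A_lt _ (hl1 n) _ (h4 n) 1 u.1 le_rfl).le
        (LZ.Q17_A_lt _ (hl1 n) _ (h4 n) 1 u.2 le_rfl).le
        (LZ.Q17_A_lt _ (hl1 n) _ (h4 n) 2 (u.1 + u.2) (by norm_num)).le b1.le b2.le b3.le
      linarith
    have hq : Tendsto (fun n => LX.Lf θ (LZ.Q17_A (l n) (η n) 2 (u.1 + u.2)) /
        (LX.Lf θ (LZ.Q17_A (l n) (η n) 1 u.1) * LX.Lf θ (LZ.Q17_A (l n) (η n) 1 u.2))) atTop
        (𝓝 (LX.Lf θ w / (LX.Lf θ w * LX.Lf θ w))) :=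
      (hzt 2 _).div ((hzt 1 _).mul (hzt 1 _)) (mul_ne_zero hwz hwz)
    have := hq.mul hR1
    have e1 : LX.Lf θ w / (LX.Lf θ w * LX.Lf θ w) * 1 = (LX.Lf θ w)⁻¹ := by
      field_simp
    rw [e1] at this
    exact this
  -- domination
  have hbd : ∀ n (u : ℝ × ℝ), ‖(kk u.1 * kk u.2) * B11_F θ (l n) (η n) u‖ ≤
      Cr ^ 3 * K * ((‖kk u.1‖ * (1 + |u.1|) ^ 16) * (‖kk u.2‖ * (1 + |u.2|) ^ 16)) := by
    intro n u
    have hz : ∀ c v : ℝ, 1 ≤ c → c ≤ 2 → ‖LX.Lf θ (LZ.Q17_A (l n) (η n) c v)‖ ≤ Cr * (1 + |v|) ∧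
        ‖LX.Lf θ (LZ.Q17_A (l n) (η n) c v)‖⁻¹ ≤ Cr * (1 + |v|) := by
      intro c v hc1 hc2
      exact hR (l n) (h2 n) (η n) (h4' n) c v hc1 hc2
    have g0 := (hz 1 u.1 le_rfl (by norm_num)).2
    have g2 := (hz 1 u.2 le_rfl (by norm_num)).2
    have g3 := (hz 2 (u.1 + u.2) (by norm_num) le_rfl).1
    have g4 := hR1b θ θ (LZ.Q17_A (l n) (η n) 1 u.1) (LZ.Q17_A (l n) (η n) 1 u.2)
      (LZ.Q17_A (l n) (η n) 2 (u.1 + u.2)) (LZ.Q17_A_lt _ (hl1 n) _ (h4 n) 1 u.1 le_rfl).le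
        (LZ.Q17_A_lt _ (hl1 n) _ (h4 n) 1 u.2 le_rfl).le
        (LZ.Q17_A_lt _ (hl1 n) _ (h4 n) 2 (u.1 + u.2) (by norm_num)).le
    have a0 : 1 ≤ 1 + |u.1| := by linarith [abs_nonneg u.1]
    have a2 : 1 ≤ 1 + |u.2| := by linarith [abs_nonneg u.2]
    have g5 : 1 + |u.1 + u.2| ≤ (1 + |u.1|) * (1 + |u.2|) := by
      have := abs_add_le u.1 u.2
      nlinarith [abs_nonneg u.1, abs_nonneg u.2, mul_nonneg (abs_nonneg u.1) (abs_nonneg u.2)]
    have g6 : ‖LX.Lf θ (LZ.Q17_A (l n) (η n) 2 (u.1 + u.2))‖ ≤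
        Cr * ((1 + |u.1|) * (1 + |u.2|)) :=
      g3.trans (mul_le_mul_of_nonneg_left g5 hCr.le)
    have hF : ‖B11_F θ (l n) (η n) u‖ ≤ Cr ^ 3 * K * ((1 + |u.1|) ^ 2 * (1 + |u.2|) ^ 2) := by
      unfold B11_F
      rw [norm_mul, norm_div, norm_mul, div_eq_mul_inv, mul_inv]
      calc _ ≤ (Cr * ((1 + |u.1|) * (1 + |u.2|))) * ((Cr * (1 + |u.1|)) *
            (Cr * (1 + |u.2|))) * K := by
            apply mul_le_mul _ g4 (norm_nonneg _) (by positivity)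
            apply mul_le_mul g6 _ (by positivity) (by positivity)
            exact mul_le_mul g0 g2 (by positivity) (by positivity)
        _ = _ := by ring
    rw [norm_mul, norm_mul]
    have hpow : (1 + |u.1|) ^ 2 * (1 + |u.2|) ^ 2 ≤ (1 + |u.1|) ^ 16 * (1 + |u.2|) ^ 16 := by
      have b0 : (1 + |u.1|) ^ 2 ≤ (1 + |u.1|) ^ 16 := pow_le_pow_right₀ a0 (by norm_num)
      have b2 : (1 + |u.2|) ^ 2 ≤ (1 + |u.2|) ^ 16 := pow_le_pow_right₀ a2 (by norm_num)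
      exact mul_le_mul b0 b2 (by positivity) (by positivity)
    calc ‖kk u.1‖ * ‖kk u.2‖ * ‖B11_F θ (l n) (η n) u‖ ≤
        ‖kk u.1‖ * ‖kk u.2‖ * (Cr ^ 3 * K * ((1 + |u.1|) ^ 16 * (1 + |u.2|) ^ 16)) := by
          apply mul_le_mul_of_nonneg_left _ (by positivity)
          exact hF.trans (mul_le_mul_of_nonneg_left hpow (by positivity))
      _ = _ := by ring
  have hint : Integrable (fun u : ℝ × ℝ => Cr ^ 3 * K *
      ((‖kk u.1‖ * (1 + |u.1|) ^ 16) * (‖kk u.2‖ * (1 + |u.2|) ^ 16))) := by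
    apply Integrable.const_mul
    exact Integrable.mul_prod LZ.kk_facts.2 LZ.kk_facts.2
  have hkm : Measurable fun u : ℝ × ℝ => kk u.1 * kk u.2 :=
    (LZ.kk_facts.1.measurable.comp measurable_fst).mul (LZ.kk_facts.1.measurable.comp measurable_snd)
  have hmeas : ∀ n, AEStronglyMeasurable (fun u : ℝ × ℝ =>
      (kk u.1 * kk u.2) * B11_F θ (l n) (η n) u) volume := by
    intro n
    exact (hkm.mul (B11_F_meas θ (l n) (hl1 n) (η n) (h4 n))).aestronglyMeasurable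
  have hDCT := tendsto_integral_of_dominated_convergence _ hmeas hint
    (fun n => Eventually.of_forall fun u => hbd n u) (Eventually.of_forall hlim)
  have hval : ∫ u : ℝ × ℝ, (kk u.1 * kk u.2) * (LX.Lf θ w)⁻¹ = (LX.Lf θ w)⁻¹ := by
    rw [integral_mul_const]
    have : ∫ u : ℝ × ℝ, kk u.1 * kk u.2 = (∫ v : ℝ, kk v) * ∫ v : ℝ, kk v :=
      integral_prod_mul kk kk
    rw [this, LZ.Q17_kk_one]
    simp
  rw [hval] at hDCT
  have hz1 : Tendsto (fun n => LX.Lf θ (1 + η n)) atTop (𝓝 (LX.Lf θ w)) := by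
    have h := hzt 0 0
    refine h.congr fun n => ?_
    congr 1
    unfold LZ.Q17_A
    simp
  have hfin := hz1.mul hDCT
  rw [mul_inv_cancel₀ hwz] at hfin
  have hfin2 := (hfin.sub_const 1).norm
  rw [sub_self, norm_zero] at hfin2
  obtain ⟨n, hn⟩ := ((tendsto_order.1 hfin2).2 δ hδ).exists
  have := h8 n
  rw [hform n] at this
  linarith

end LP

end F_Y_B11
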