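import Pool.Agent.Lib.MP_0f5a55_nt.V.V08
import Pool.Agent.Lib.MP_0f5a55_nt.V.V36
import Pool.Agent.Lib.MP_0f5a55_nt.V.V40
import Pool.Agent.Lib.MP_0f5a55_nt.V.V43
import Pool.Agent.Lib.MP_0f5a55_nt.V.V45
import Pool.Agent.Lib.MP_0f5a55_nt.V.V46
import Pool.Agent.Lib.MP_0f5a55_nt.V.V54

section F_Y_B13

open Complex MeasureTheory Set Filter Topology
open scoped ComplexConjugate

namespace LP

open LZ (kk nS cf EE ER PP wt Sep)

private theorem B13_wA (l : ℝ) (hl : 1 ≤ l) (e : ℂ) (he : ‖e‖ ≤ 1 / (8 * l)) (u : ℝ) :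
    7 / (8 * l) ≤ (e + (1 + u * I) / l).re ∧ (e + (1 + u * I) / l).re ≤ 9 / (8 * l) ∧
      ‖e + (1 + u * I) / l‖ ≤ 2 * (1 + |u|) / l := by
  have hl0 : 0 < l := by linarith
  have hre : (e + (1 + u * I) / l).re = e.re + 1 / l := by
    simp [Complex.div_ofReal_re]
  have h1 := abs_le.1 ((Complex.abs_re_le_norm e).trans he)
  have hq : 1 / (8 * l) = (1 / 8) * (1 / l) := by field_simp
  have hq7 : 7 / (8 * l) = (7 / 8) * (1 / l) := by field_simp
  have hq9 : 9 / (8 * l) = (9 / 8) * (1 / l) := by field_simp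
  refine ⟨?_, ?_, ?_⟩
  · rw [hre, hq7]
    rw [hq] at h1
    linarith [h1.1]
  · rw [hre, hq9]
    rw [hq] at h1
    linarith [h1.2]
  · have h2 : ‖(1 + (u : ℂ) * I) / (l : ℂ)‖ ≤ (1 + |u|) / l := by
      rw [norm_div, Complex.norm_real, Real.norm_eq_abs, abs_of_pos hl0]
      apply div_le_div_of_nonneg_right _ hl0.le
      refine (norm_add_le _ _).trans ?_
      simp
    refine (norm_add_le _ _).trans ?_
    have h3 : 1 / (8 * l) ≤ (1 + |u|) / l := by
      rw [hq]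
      have h4 : (1 + |u|) / l = (1 + |u|) * (1 / l) := by field_simp
      rw [h4]
      have h5 : 0 < 1 / l := by positivity
      exact mul_le_mul_of_nonneg_right (by linarith [abs_nonneg u]) h5.le
    calc ‖e‖ + ‖(1 + (u : ℂ) * I) / (l : ℂ)‖ ≤ (1 + |u|) / l + (1 + |u|) / l :=
          add_le_add (he.trans h3) h2
      _ = 2 * (1 + |u|) / l := by ring

private theorem B13_wD (l : ℝ) (hl : 3 ≤ l) (e e4 : ℂ) (he : ‖e‖ ≤ 1 / (8 * l))
    (he4 : ‖e4‖ ≤ 1 / (8 * l)) (u v : ℝ) :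
    1 / l ≤ (2 * e - e4 + (2 + (u + v) * I) / l).re ∧ (2 * e - e4 + (2 + (u + v) * I) / l).re ≤ 1 ∧
      ‖2 * e - e4 + (2 + (u + v) * I) / l‖ ≤ 3 * ((1 + |u|) * (1 + |v|)) / l := by
  have hl0 : 0 < l := by linarith
  have hre : (2 * e - e4 + (2 + (u + v) * I) / l).re = 2 * e.re - e4.re + 2 / l := by
    simp [Complex.div_ofReal_re]
  have h1 := abs_le.1 ((Complex.abs_re_le_norm e).trans he)
  have h2 := abs_le.1 ((Complex.abs_re_le_norm e4).trans he4)
  have hq : 1 / (8 * l) = (1 / 8) * (1 / l) := by field_simp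
  have hq2 : 2 / l = 2 * (1 / l) := by ring
  have hli : 0 < 1 / l := by positivity
  have hli3 : 1 / l ≤ 1 / 3 := one_div_le_one_div_of_le (by norm_num) hl
  refine ⟨?_, ?_, ?_⟩
  · rw [hre, hq2]
    rw [hq] at h1 h2
    linarith [h1.1, h2.2]
  · rw [hre, hq2]
    rw [hq] at h1 h2
    linarith [h1.2, h2.1]
  · have h3 : ‖(2 + ((u : ℂ) + v) * I) / (l : ℂ)‖ ≤ (2 + |u| + |v|) * (1 / l) := by
      rw [norm_div, Complex.norm_real, Real.norm_eq_abs, abs_of_pos hl0, mul_one_div]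
      apply div_le_div_of_nonneg_right _ hl0.le
      refine (norm_add_le _ _).trans ?_
      have h5 : ‖((u : ℂ) + v) * I‖ ≤ |u| + |v| := by
        rw [norm_mul, Complex.norm_I, mul_one]
        refine (norm_add_le _ _).trans ?_
        simp
      have h6 : ‖(2 : ℂ)‖ = 2 := by simp
      rw [h6]
      linarith
    have h4 : ‖2 * e - e4‖ ≤ (3 / 8) * (1 / l) := by
      refine (norm_sub_le _ _).trans ?_
      rw [norm_mul]
      have h6 : ‖(2 : ℂ)‖ = 2 := by simp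
      rw [h6]
      rw [hq] at he he4
      linarith
    have h7 : 3 * ((1 + |u|) * (1 + |v|)) / l = 3 * ((1 + |u|) * (1 + |v|)) * (1 / l) := by ring
    rw [h7]
    refine (norm_add_le _ _).trans ((add_le_add h4 h3).trans ?_)
    have h8 : 0 ≤ |u| * |v| := mul_nonneg (abs_nonneg _) (abs_nonneg _)
    rw [← add_mul]
    refine mul_le_mul_of_nonneg_right ?_ hli.le
    have h9 : (1 + |u|) * (1 + |v|) = 1 + |u| + |v| + |u| * |v| := by ring
    rw [h9]
    linarith [abs_nonneg u, abs_nonneg v]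

private theorem B13_far (C' KR δ q l U W a b d r M : ℝ) (hC' : 0 < C') (hKR : 0 < KR) (hδ : 0 < δ) (hq : 1 ≤ q)
    (hl : 0 < l) (hU : 1 ≤ U) (hW : 1 ≤ W) (hM : 0 ≤ M) (ha0 : 0 ≤ a) (hb0 : 0 ≤ b) (hd0 : 0 ≤ d) (hr0 : 0 ≤ r)
    (ha : a ≤ 2 * C' * l) (hb : b ≤ 2 * C' * l) (hd : d ≤ C' * l) (hr : r ≤ KR)
    (hfar : δ < 3 * (U * W) / l) (hlC : 4 * C' ^ 3 * KR * (3 / δ) ^ 5 ≤ l) :
    d * (a * b) * r ≤ ((M + 1) * q / l) * (U ^ 16 * W ^ 16) := by
  have hlUW : l ≤ (3 / δ) * (U * W) := by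
    rw [lt_div_iff₀ hl] at hfar
    rw [div_mul_eq_mul_div, le_div_iff₀ hδ]
    linarith
  have h5 : l ^ 5 ≤ (3 / δ) ^ 5 * (U ^ 5 * W ^ 5) := by
    calc l ^ 5 ≤ ((3 / δ) * (U * W)) ^ 5 := pow_le_pow_left₀ hl.le hlUW 5
      _ = _ := by ring
  have h6 : U ^ 5 * W ^ 5 ≤ U ^ 16 * W ^ 16 :=
    mul_le_mul (pow_le_pow_right₀ hU (by norm_num)) (pow_le_pow_right₀ hW (by norm_num))
      (by positivity) (by positivity)
  set CN : ℝ := 4 * C' ^ 3 * KR * (3 / δ) ^ 5 with hCN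
  have hCN0 : 0 ≤ CN := by positivity
  have hq0 : 0 < q := by linarith
  calc d * (a * b) * r ≤ (C' * l) * ((2 * C' * l) * (2 * C' * l)) * KR := by gcongr
    _ = 4 * C' ^ 3 * KR * l ^ 5 / l ^ 2 := by field_simp; ring
    _ ≤ 4 * C' ^ 3 * KR * ((3 / δ) ^ 5 * (U ^ 5 * W ^ 5)) / l ^ 2 := by gcongr
    _ = CN / l ^ 2 * (U ^ 5 * W ^ 5) := by rw [hCN]; ring
    _ ≤ (q / l) * (U ^ 16 * W ^ 16) := by
        apply mul_le_mul _ h6 (by positivity) (by positivity)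
        rw [div_le_div_iff₀ (by positivity) hl]
        have h7 : CN * l ≤ l * l := mul_le_mul_of_nonneg_right hlC hl.le
        have h8 : 1 * l ^ 2 ≤ q * l ^ 2 := mul_le_mul_of_nonneg_right hq (by positivity)
        linarith
    _ ≤ ((M + 1) * q / l) * (U ^ 16 * W ^ 16) := by
        apply mul_le_mul_of_nonneg_right _ (by positivity)
        apply div_le_div_of_nonneg_right _ hl.le
        have : 0 ≤ M * q := by positivity
        linarith

private theorem B13_near (C KR q l U W a b d r : ℝ) (hC : 0 < C) (hKR : 0 < KR) (hq : 0 < q)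
    (hl : 0 < l) (hU : 1 ≤ U) (hW : 1 ≤ W) (ha0 : 0 ≤ a) (hb0 : 0 ≤ b) (hd0 : 0 ≤ d) (hr0 : 0 ≤ r)
    (ha : a ≤ C * q * (2 * U / l)) (hb : b ≤ C * q * (2 * W / l)) (hd : d ≤ C * q⁻¹ * l) (hr : r ≤ KR) :
    d * (a * b) * r ≤ ((4 * C ^ 3 * KR + 1) * q / l) * (U ^ 16 * W ^ 16) := by
  have h6 : U * W ≤ U ^ 16 * W ^ 16 := by
    have hU16 : U ≤ U ^ 16 := by
      calc U = U ^ 1 := (pow_one U).symm
        _ ≤ U ^ 16 := pow_le_pow_right₀ hU (by norm_num)
    have hW16 : W ≤ W ^ 16 := by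
      calc W = W ^ 1 := (pow_one W).symm
        _ ≤ W ^ 16 := pow_le_pow_right₀ hW (by norm_num)
    exact mul_le_mul hU16 hW16 (by positivity) (by positivity)
  calc d * (a * b) * r ≤ (C * q⁻¹ * l) * ((C * q * (2 * U / l)) * (C * q * (2 * W / l))) * KR := by gcongr
    _ = (4 * C ^ 3 * KR * q / l) * (U * W) := by field_simp; ring
    _ ≤ (4 * C ^ 3 * KR * q / l) * (U ^ 16 * W ^ 16) :=
        mul_le_mul_of_nonneg_left h6 (by positivity)
    _ ≤ ((4 * C ^ 3 * KR + 1) * q / l) * (U ^ 16 * W ^ 16) := by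
        apply mul_le_mul_of_nonneg_right _ (by positivity)
        apply div_le_div_of_nonneg_right _ hl.le
        linarith

private theorem B13_tr (C' l x y : ℝ) (hC' : 0 < C') (hl : 0 < l) (hx : 7 / (8 * l) ≤ x) (hy : y ≤ C' / x) :
    y ≤ 2 * C' * l := by
  have h78 : 0 < 7 / (8 * l) := by positivity
  refine hy.trans ?_
  rw [div_le_iff₀ (lt_of_lt_of_le h78 hx)]
  have h1 : 2 * C' * l * (7 / (8 * l)) = C' * (7 / 4) := by field_simp; ring
  have h2 : 2 * C' * l * (7 / (8 * l)) ≤ 2 * C' * l * x := mul_le_mul_of_nonneg_left hx (by positivity)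
  linarith

private theorem B13_tr1 (C' l x y : ℝ) (hC' : 0 < C') (hl : 0 < l) (hx : 1 / l ≤ x) (hy : y ≤ C' / x) :
    y ≤ C' * l := by
  have h78 : 0 < 1 / l := by positivity
  refine hy.trans ?_
  rw [div_le_iff₀ (lt_of_lt_of_le h78 hx)]
  have h1 : C' * l * (1 / l) = C' := by field_simp
  have h2 : C' * l * (1 / l) ≤ C' * l * x := mul_le_mul_of_nonneg_left hx (by positivity)
  linarith

/-- pointwise bound -/
private theorem B13_pt (N : ℕ) [NeZero N] (C C' KR δ q l : ℝ) (hC : 0 < C) (hC' : 0 < C') (hKR : 0 < KR)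
    (hδ : 0 < δ) (hq : 1 ≤ q) (hl3 : 3 ≤ l) (hlCN : 4 * C' ^ 3 * KR * (3 / δ) ^ 5 ≤ l)
    (hn : ∀ w : ℂ, 0 < w.re → ‖w‖ ≤ δ →
      ‖LX.Lf (1 : DirichletCharacter ℂ N) (1 + w)‖⁻¹ ≤ C * q * ‖w‖ ∧
      ‖LX.Lf (1 : DirichletCharacter ℂ N) (1 + w)‖ ≤ C * q⁻¹ / ‖w‖)
    (htriv : ∀ s : ℂ, 1 < s.re → s.re ≤ 2 → ‖LX.Lf (1 : DirichletCharacter ℂ N) s‖ ≤ C' / (s.re - 1) ∧
      ‖LX.Lf (1 : DirichletCharacter ℂ N) s‖⁻¹ ≤ C' / (s.re - 1))
    (hR : ∀ A B D : ℂ, 1 ≤ A.re → 1 ≤ B.re → 1 ≤ D.re → ‖R1 (1 : DirichletCharacter ℂ N) 1 A B D‖ ≤ KR)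
    (e e4 : ℂ) (he : ‖e‖ ≤ 1 / (8 * l)) (he4 : ‖e4‖ ≤ 1 / (8 * l)) (u v : ℝ) :
    ‖LX.Lf (1 : DirichletCharacter ℂ N) (1 + (2 * e - e4 + (2 + ((u : ℂ) + v) * I) / l))‖ *
      (‖LX.Lf (1 : DirichletCharacter ℂ N) (1 + (e + (1 + (u : ℂ) * I) / l))‖⁻¹ *
        ‖LX.Lf (1 : DirichletCharacter ℂ N) (1 + (e + (1 + (v : ℂ) * I) / l))‖⁻¹) *
      ‖R1 (1 : DirichletCharacter ℂ N) 1 (1 + (e + (1 + (u : ℂ) * I) / l)) (1 + (e + (1 + (v : ℂ) * I) / l))
        (1 + (2 * e - e4 + (2 + ((u : ℂ) + v) * I) / l))‖ ≤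
      ((4 * C ^ 3 * KR + 1) * q / l) * ((1 + |u|) ^ 16 * (1 + |v|) ^ 16) := by
  have hl0 : 0 < l := by linarith
  obtain ⟨a1, a2, a3⟩ := B13_wA l (by linarith) e he u
  obtain ⟨b1, b2, b3⟩ := B13_wA l (by linarith) e he v
  obtain ⟨d1, d2, d3⟩ := B13_wD l hl3 e e4 he he4 u v
  generalize hwA : e + (1 + (u : ℂ) * I) / l = wA at *
  generalize hwB : e + (1 + (v : ℂ) * I) / l = wB at *
  generalize hwD : 2 * e - e4 + (2 + ((u : ℂ) + v) * I) / l = wD at *
  have h78 : 0 < 7 / (8 * l) := by positivity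
  have h98 : 9 / (8 * l) ≤ 1 := by
    rw [div_le_one (by positivity)]
    linarith
  have hli : 0 < 1 / l := by positivity
  have rA : (1 + wA).re = 1 + wA.re := by simp
  have rB : (1 + wB).re = 1 + wB.re := by simp
  have rD : (1 + wD).re = 1 + wD.re := by simp
  have hRb : ‖R1 (1 : DirichletCharacter ℂ N) 1 (1 + wA) (1 + wB) (1 + wD)‖ ≤ KR :=
    hR _ _ _ (by rw [rA]; linarith) (by rw [rB]; linarith) (by rw [rD]; linarith)
  have hU1 : 1 ≤ 1 + |u| := by linarith [abs_nonneg u]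
  have hW1 : 1 ≤ 1 + |v| := by linarith [abs_nonneg v]
  generalize 1 + |u| = U at *
  generalize 1 + |v| = W at *
  by_cases hfar : δ < 3 * (U * W) / l
  · have hA := (htriv (1 + wA) (by rw [rA]; linarith) (by rw [rA]; linarith)).2
    have hB := (htriv (1 + wB) (by rw [rB]; linarith) (by rw [rB]; linarith)).2
    have hD := (htriv (1 + wD) (by rw [rD]; linarith) (by rw [rD]; linarith)).1
    have eA : (1 + wA).re - 1 = wA.re := by rw [rA]; ring
    have eB : (1 + wB).re - 1 = wB.re := by rw [rB]; ring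
    have eD : (1 + wD).re - 1 = wD.re := by rw [rD]; ring
    rw [eA] at hA
    rw [eB] at hB
    rw [eD] at hD
    exact B13_far C' KR δ q l U W _ _ _ _ (4 * C ^ 3 * KR) hC' hKR hδ hq hl0 hU1 hW1 (by positivity)
      (by positivity) (by positivity) (norm_nonneg _) (norm_nonneg _)
      (B13_tr C' l _ _ hC' hl0 a1 hA) (B13_tr C' l _ _ hC' hl0 b1 hB) (B13_tr1 C' l _ _ hC' hl0 d1 hD)
      hRb hfar hlCN
  · push Not at hfar
    have hUW : U ≤ U * W := le_mul_of_one_le_right (zero_le_one.trans hU1) hW1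
    have hWU : W ≤ U * W := le_mul_of_one_le_left (zero_le_one.trans hW1) hU1
    have nA : ‖wA‖ ≤ δ := by
      refine a3.trans (le_trans ?_ hfar)
      apply div_le_div_of_nonneg_right _ hl0.le
      clear hn htriv hR hlCN
      linarith only [hUW, hU1]
    have nB : ‖wB‖ ≤ δ := by
      refine b3.trans (le_trans ?_ hfar)
      apply div_le_div_of_nonneg_right _ hl0.le
      clear hn htriv hR hlCN
      linarith only [hWU, hW1]
    have nD : ‖wD‖ ≤ δ := d3.trans hfar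
    have hA := (hn wA (by linarith) nA).1
    have hB := (hn wB (by linarith) nB).1
    have hD := (hn wD (by linarith) nD).2
    have hq0 : 0 < q := by linarith
    have hwDn : 1 / l ≤ ‖wD‖ := d1.trans ((le_abs_self _).trans (Complex.abs_re_le_norm wD))
    exact B13_near C KR q l U W _ _ _ _ hC hKR hq0 hl0 hU1 hW1
      (by positivity) (by positivity) (norm_nonneg _) (norm_nonneg _)
      (hA.trans (mul_le_mul_of_nonneg_left a3 (by positivity)))
      (hB.trans (mul_le_mul_of_nonneg_left b3 (by positivity)))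
      (B13_tr1 (C * q⁻¹) l _ _ (by positivity) hl0 hwDn hD) hRb

/-- absolute constant: rho = kappa = 1. As B12, but for |u|,|v| <= delta(N) l all three factors by triv_near: the product is
<= C (N/phi(N))^2 (phi(N)/N) (1+|u|)^2(1+|v|)^2/l  (|w_D| >= 1/l); the range |u| > delta l or |v| > delta l contributes
C_N l^(-2) because of the factor |kk(u)| (1+|u|)^16 integrable (LZ.Q05) and trivial bounds C_N l^3. -/
theorem Q2_abs : ∃ K : ℝ, 0 < K ∧ ∀ (N : ℕ) [NeZero N], ∃ l0 : ℝ, 1 ≤ l0 ∧ ∀ l : ℝ, l0 ≤ l → ∀ e e4 : ℂ,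
    ‖e‖ ≤ 1 / (8 * l) → ‖e4‖ ≤ 1 / (8 * l) →
    ‖Q2 (1 : DirichletCharacter ℂ N) 1 ⌊Real.exp l⌋₊ l e e4‖ ≤ K * ((N : ℝ) / N.totient) / l := by
  obtain ⟨C, hC, hnear⟩ := triv_near
  obtain ⟨C', hC', htriv⟩ := L_trivial
  obtain ⟨KR, hKR, hR⟩ := R1_facts
  obtain ⟨hkc, hki⟩ := LZ.kk_facts
  set g : ℝ → ℝ := fun u => ‖kk u‖ * (1 + |u|) ^ 16 with hg
  have hG : 0 ≤ ∫ u, g u := integral_nonneg (fun u => by simp only [hg, Pi.zero_apply]; positivity)
  set G : ℝ := ∫ u, g u with hGdef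
  refine ⟨(4 * C ^ 3 * KR + 1) * G ^ 2 + 1, by positivity, ?_⟩
  intro N hN
  obtain ⟨δ, hδ, hn⟩ := hnear N
  obtain ⟨l1, hl1, hmu⟩ := Q2_mu_integral (1 : DirichletCharacter ℂ N) 1
  refine ⟨max (max l1 (4 * C' ^ 3 * KR * (3 / δ) ^ 5)) 3,
    hl1.trans ((le_max_left l1 _).trans (le_max_left _ 3)), ?_⟩
  intro l hl e e4 he he4
  have hll1 : l1 ≤ l := ((le_max_left l1 _).trans (le_max_left _ 3)).trans hl
  have hlCN : 4 * C' ^ 3 * KR * (3 / δ) ^ 5 ≤ l := ((le_max_right l1 _).trans (le_max_left _ 3)).trans hl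
  have hl3 : (3 : ℝ) ≤ l := (le_max_right _ _).trans hl
  have hl0 : 0 < l := by linarith
  have hNpos : 0 < N := Nat.pos_of_ne_zero (NeZero.ne N)
  have hphi : 0 < N.totient := Nat.totient_pos.2 hNpos
  have hphiR : (0 : ℝ) < N.totient := by exact_mod_cast hphi
  have hNR : (0 : ℝ) < N := by exact_mod_cast hNpos
  have hq1 : (1 : ℝ) ≤ (N : ℝ) / N.totient := by
    rw [le_div_iff₀ hphiR, one_mul]
    exact_mod_cast Nat.totient_le N
  have hqinv : (N.totient : ℝ) / N = ((N : ℝ) / N.totient)⁻¹ := by rw [inv_div]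
  rw [hqinv] at hn
  generalize (N : ℝ) / N.totient = q at *
  have hq0 : 0 < q := by linarith
  rw [hmu l hll1 e e4 ((Complex.abs_re_le_norm e).trans he) ((Complex.abs_re_le_norm e4).trans he4)]
  have h11 : ((1 : DirichletCharacter ℂ N) ^ 2 * 1) = 1 := by simp
  rw [h11]
  have hpt : ∀ u : ℝ × ℝ, ‖kk u.1 * kk u.2 *
      (LX.Lf (1 : DirichletCharacter ℂ N) (1 + 2 * e - e4 + (2 + (u.1 + u.2) * I) / l) /
        (LX.Lf (1 : DirichletCharacter ℂ N) (1 + e + (1 + u.1 * I) / l) *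
          LX.Lf (1 : DirichletCharacter ℂ N) (1 + e + (1 + u.2 * I) / l)) *
        R1 (1 : DirichletCharacter ℂ N) 1 (1 + e + (1 + u.1 * I) / l) (1 + e + (1 + u.2 * I) / l)
          (1 + 2 * e - e4 + (2 + (u.1 + u.2) * I) / l))‖ ≤
      ((4 * C ^ 3 * KR + 1) * q / l) * (g u.1 * g u.2) := by
    rintro ⟨u, v⟩
    simp only
    have eA : 1 + e + (1 + (u : ℂ) * I) / l = 1 + (e + (1 + (u : ℂ) * I) / l) := by ring
    have eB : 1 + e + (1 + (v : ℂ) * I) / l = 1 + (e + (1 + (v : ℂ) * I) / l) := by ring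
    have eD : 1 + 2 * e - e4 + (2 + ((u : ℂ) + v) * I) / l =
        1 + (2 * e - e4 + (2 + ((u : ℂ) + v) * I) / l) := by ring
    rw [eA, eB, eD]
    have key := B13_pt N C C' KR δ q l hC hC' hKR hδ hq1 hl3 hlCN hn (fun s => htriv N 1 s)
      (fun A B D => (hR N).1 1 1 A B D) e e4 he he4 u v
    rw [norm_mul, norm_mul, norm_mul, norm_div, norm_mul, div_eq_mul_inv, mul_inv]
    calc ‖kk u‖ * ‖kk v‖ * _
        ≤ ‖kk u‖ * ‖kk v‖ * (((4 * C ^ 3 * KR + 1) * q / l) * ((1 + |u|) ^ 16 * (1 + |v|) ^ 16)) :=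
          mul_le_mul_of_nonneg_left key (by positivity)
      _ = ((4 * C ^ 3 * KR + 1) * q / l) * (g u * g v) := by
          simp only [hg]
          ring
  have hint : Integrable (fun u : ℝ × ℝ => ((4 * C ^ 3 * KR + 1) * q / l) * (g u.1 * g u.2)) :=
    (hki.mul_prod hki).const_mul _
  have hval : ∫ u : ℝ × ℝ, ((4 * C ^ 3 * KR + 1) * q / l) * (g u.1 * g u.2) =
      ((4 * C ^ 3 * KR + 1) * q / l) * G ^ 2 := by
    rw [integral_const_mul]
    congr 1
    have := MeasureTheory.integral_prod_mul (μ := (volume : Measure ℝ)) (ν := (volume : Measure ℝ)) g g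
    rw [← Measure.volume_eq_prod] at this
    rw [this, hGdef]
    ring
  refine (norm_integral_le_of_norm_le hint (Filter.Eventually.of_forall hpt)).trans ?_
  rw [hval]
  have h1 : ((4 * C ^ 3 * KR + 1) * q / l) * G ^ 2 = ((4 * C ^ 3 * KR + 1) * G ^ 2) * q / l := by ring
  rw [h1]
  apply div_le_div_of_nonneg_right _ hl0.le
  apply mul_le_mul_of_nonneg_right _ hq0.le
  linarith

end LP

end F_Y_B13

section F_Y_C07

open Complex MeasureTheory Set Filter Topology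
open scoped ComplexConjugate

namespace LP

open LZ (kk nS cf EE ER PP wt Sep)

/-- a power of a small number with a small exponent -/
private theorem C07_pow {N : ℕ} (hN : 0 < N) {T : ℝ} (hT : 2 * Real.pi ≤ T)
    (hNT : 3 * Real.log N ≤ Real.log T) {η : ℂ} (h : |η.re| ≤ 3 / Real.log T) :
    ‖((2 * Real.pi / (N * T) : ℝ) : ℂ) ^ η‖ ≤ Real.exp 4 := by
  have hpi : (0 : ℝ) < 2 * Real.pi := Real.two_pi_pos
  have hT0 : 0 < T := hpi.trans_le hT
  have hpi1 : (1 : ℝ) < 2 * Real.pi := by linarith [Real.pi_gt_three]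
  have hL : 0 < Real.log T := Real.log_pos (hpi1.trans_le hT)
  have hN1 : (1 : ℝ) ≤ N := by exact_mod_cast hN
  have hN0 : (0 : ℝ) < N := one_pos.trans_le hN1
  have hNT0 : 0 < (N : ℝ) * T := mul_pos hN0 hT0
  rw [Complex.norm_cpow_eq_rpow_re_of_pos (div_pos hpi hNT0), Real.rpow_def_of_pos (div_pos hpi hNT0),
    Real.exp_le_exp]
  have h1 : |Real.log (2 * Real.pi / (N * T))| ≤ 4 / 3 * Real.log T := by
    rw [Real.log_div hpi.ne' hNT0.ne', Real.log_mul hN0.ne' hT0.ne', abs_le]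
    have h2 : 0 < Real.log (2 * Real.pi) := Real.log_pos hpi1
    have h3 : Real.log (2 * Real.pi) ≤ Real.log T := Real.log_le_log hpi hT
    have h4 : 0 ≤ Real.log N := Real.log_nonneg hN1
    constructor
    · linarith only [h2, h3, h4, hNT, hL]
    · linarith only [h2, h3, h4, hNT, hL]
  calc Real.log (2 * Real.pi / (N * T)) * η.re ≤ |Real.log (2 * Real.pi / (N * T)) * η.re| :=
        le_abs_self _
    _ = |Real.log (2 * Real.pi / (N * T))| * |η.re| := abs_mul _ _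
    _ ≤ (4 / 3 * Real.log T) * (3 / Real.log T) :=
        mul_le_mul h1 h (abs_nonneg _) (mul_nonneg (by norm_num) hL.le)
    _ = 4 := by field_simp

/-- the integrand is holomorphic in the first shift -/
private theorem C07_diff {N : ℕ} [NeZero N] (χ ψ : DirichletCharacter ℂ N) (l : ℝ) (β : ℂ) (t : ℝ)
    {Ω : Set ℂ} (hΩ : ∀ z ∈ Ω, z.re ≤ 1 / 16) :
    DifferentiableOn ℂ (fun z => XP χ ψ l z β t) Ω := by
  intro z hz
  have h1 : DifferentiableAt ℂ (fun z : ℂ => LX.Lf χ (1/2 + z + t * I)) z := by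
    refine DifferentiableAt.comp z (g := LX.Lf χ)
      (DirichletCharacter.differentiableAt_LFunction χ _ (Or.inl ?_)) (by fun_prop)
    intro h2
    have h3 := congrArg Complex.re h2
    simp at h3
    have h4 := hΩ z hz
    norm_num at h3
    linarith only [h3, h4]
  have h2 : DifferentiableAt ℂ (fun z : ℂ => LX.Mol χ 1 l (1/2 + z + t * I)) z :=
    DifferentiableAt.comp z (g := LX.Mol χ 1 l) (LX.Mol_diff χ 1 l _) (by fun_prop)
  have h3 : (fun z => XP χ ψ l z β t) = fun z : ℂ =>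
      LX.Lf χ (1/2 + z + t * I) * LX.Mol χ 1 l (1/2 + z + t * I) *
      LX.FF ψ l (1/2 + β - t * I) := by
    funext z
    rfl
  rw [h3]
  exact ((h1.mul h2).mul_const _).differentiableWithinAt

private theorem C07_hc (a b K L : ℝ) (ha : a ≠ 0) (hb : b ≠ 0) (hL : L ≠ 0) :
    ((a / b) * L) * (K * (b / a) * 2000 / L) = K * 2000 := by
  field_simp

/-- ABSOLUTE constant. -/
theorem XP_mu_bound : ∃ C : ℝ, 0 < C ∧ ∀ (N : ℕ) [NeZero N] (χ : DirichletCharacter ℂ N) (U : ℝ), 0 ≤ U →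
    ∃ T0 : ℝ, 2 ≤ T0 ∧ ∀ T : ℝ, T0 ≤ T → ∀ l : ℝ,
    Real.log T / 2000 ≤ l → l ≤ Real.log T / 1000 → ∀ α β : ℂ, |β.re| ≤ 1 / Real.log T → |β.im| ≤ U →
    ‖α + β‖ ≤ 3 / Real.log T → ‖EE T (XP χ χ⁻¹ l α β)‖ ≤ C := by
  obtain ⟨K, hK, hmu⟩ := Q2_abs
  obtain ⟨C', hC'⟩ : ∃ C' : ℝ, C' = K * 2000 + Real.exp 4 * K * 2000 + 1 := ⟨_, rfl⟩
  refine ⟨C', by rw [hC']; positivity, ?_⟩
  intro N _ χ U hU
  have hNpos : 0 < N := Nat.pos_of_ne_zero (NeZero.ne N)
  have hN0 : (0 : ℝ) < N := by exact_mod_cast hNpos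
  have hφ0 : (0 : ℝ) < N.totient := by exact_mod_cast Nat.totient_pos.mpr hNpos
  obtain ⟨C, T1, hC, hT1, hmaster⟩ := master χ χ⁻¹ (U + 1) (by linarith only [hU])
  obtain ⟨l1, hl1, hmuN⟩ := hmu N
  obtain ⟨δ, hδ, hzA⟩ := (AC_bounds (N := N)).2.2 χ
  have hev : ∀ᶠ T : ℝ in atTop, (T1 ≤ T ∧ 2 * Real.pi ≤ T) ∧
      ((128 ≤ Real.log T ∧ 2000 * l1 ≤ Real.log T) ∧ (3 * Real.log N ≤ Real.log T ∧
      3 / δ ≤ Real.log T)) ∧
      C * (Real.log T * T ^ (-(1/4) : ℝ)) ≤ 1 := by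
    refine Filter.Eventually.and ?_ (Filter.Eventually.and ?_ ?_)
    · exact (eventually_ge_atTop T1).and (eventually_ge_atTop _)
    · exact ((Real.tendsto_log_atTop.eventually_ge_atTop _).and
        (Real.tendsto_log_atTop.eventually_ge_atTop _)).and
        ((Real.tendsto_log_atTop.eventually_ge_atTop _).and
        (Real.tendsto_log_atTop.eventually_ge_atTop _))
    · have h1 := (isLittleO_log_rpow_atTop (r := 1/4) (by norm_num)).bound (inv_pos.mpr hC)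
      filter_upwards [h1, eventually_ge_atTop (1 : ℝ)] with T hT hT1
      have hT0 : 0 < T := one_pos.trans_le hT1
      rw [Real.norm_of_nonneg (Real.log_nonneg hT1),
        Real.norm_of_nonneg (Real.rpow_nonneg hT0.le _)] at hT
      calc C * (Real.log T * T ^ (-(1/4) : ℝ))
          ≤ C * (C⁻¹ * T ^ (1/4 : ℝ) * T ^ (-(1/4) : ℝ)) :=
            mul_le_mul_of_nonneg_left
              (mul_le_mul_of_nonneg_right hT (Real.rpow_nonneg hT0.le _)) hC.le
        _ = (C * C⁻¹) * (T ^ (1/4 : ℝ) * T ^ (-(1/4) : ℝ)) := by ring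
        _ = 1 := by rw [← Real.rpow_add hT0, mul_inv_cancel₀ hC.ne']; norm_num
  obtain ⟨T0, hT0⟩ := Filter.eventually_atTop.mp hev
  refine ⟨max T0 2, le_max_right _ _, ?_⟩
  intro T hT l hl hl' α β hβre hβim hαβ
  obtain ⟨⟨hT1', hTpi⟩, ⟨⟨hL16, hLl1⟩, hLN, hLδ⟩, hTC⟩ := hT0 T ((le_max_left _ _).trans hT)
  have hL : 0 < Real.log T := by linarith only [hL16]
  have hl00 : 0 < l := by linarith only [hL, hl]
  have hT00 : 0 < T := Real.two_pi_pos.trans_le hTpi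
  have h3L : 3 / Real.log T ≤ 1 / 32 := by
    rw [div_le_div_iff₀ hL (by norm_num)]
    linarith only [hL16]
  have h1L : 1 / Real.log T ≤ 1 / 64 := by
    rw [div_le_div_iff₀ hL (by norm_num)]
    linarith only [hL16]
  have h3L8 : 3 / Real.log T ≤ 1 / (8 * l) := by
    rw [div_le_div_iff₀ hL (mul_pos (by norm_num) hl00)]
    linarith only [hL, hl']
  have h3Lδ : 3 / Real.log T ≤ δ := by
    rw [div_le_iff₀ hδ] at hLδ
    rw [div_le_iff₀ hL, mul_comm]
    exact hLδ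
  -- shifts in the disc
  have hdisc : ∀ z : ℂ, ‖z + β‖ < 4 / Real.log T → |z.re| ≤ 1 / 16 ∧ |z.im| ≤ U + 1 := by
    intro z hz
    have h4L : 4 / Real.log T ≤ 1 / 32 := by
      rw [div_le_div_iff₀ hL (by norm_num)]
      linarith only [hL16]
    have h1 : |(z + β).re| ≤ 1 / 32 := (Complex.abs_re_le_norm _).trans (hz.le.trans h4L)
    have h2 : |(z + β).im| ≤ 1 / 32 := (Complex.abs_im_le_norm _).trans (hz.le.trans h4L)
    rw [Complex.add_re] at h1
    rw [Complex.add_im] at h2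
    have h3 := hβre.trans h1L
    rw [abs_le] at h1 h2 h3 hβim ⊢
    rw [abs_le]
    obtain ⟨h1a, h1b⟩ := h1
    obtain ⟨h2a, h2b⟩ := h2
    obtain ⟨h3a, h3b⟩ := h3
    obtain ⟨hia, hib⟩ := hβim
    constructor
    · constructor
      · linarith only [h1a, h3b]
      · linarith only [h1b, h3a]
    · constructor
      · linarith only [h2a, hib]
      · linarith only [h2b, hia]
  have hβ16 : |β.re| ≤ 1 / 16 := (hβre.trans h1L).trans (by norm_num)
  have hβU : |β.im| ≤ U + 1 := hβim.trans (le_add_of_nonneg_right zero_le_one)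
  -- the bound on the circle
  have hcircle : ∀ z : ℂ, ‖z + β‖ = 3 / Real.log T →
      ‖EE T (XP χ χ⁻¹ l z β)‖ ≤ C' := by
    intro z hz
    have hz4 : ‖z + β‖ < 4 / Real.log T := by
      rw [hz]
      exact div_lt_div_of_pos_right (by norm_num) hL
    obtain ⟨hzre, hzim⟩ := hdisc z hz4
    have hη0 : z + β ≠ 0 := by
      intro h0
      rw [h0, norm_zero] at hz
      exact (div_pos three_pos hL).ne hz
    have hm := hmaster T hT1' l hl00 hl' z β hzre hβ16 hzim hβU hη0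
    obtain ⟨h3, h4⟩ := hzA (z + β) hη0 (by rw [hz]; exact h3Lδ)
    rw [mul_inv_cancel, inv_one] at hm
    rw [mul_inv_cancel] at h3
    have hinv : (χ : ZMod N → ℂ)⁻¹ = ((χ⁻¹ : DirichletCharacter ℂ N) : ZMod N → ℂ) := by
      funext a
      rw [Pi.inv_apply, MulChar.inv_apply_eq_inv']
    rw [hinv] at h4
    have hre : |(z + β).re| ≤ 3 / Real.log T := (Complex.abs_re_le_norm _).trans hz.le
    have hl1l : l1 ≤ l := by linarith only [hl, hLl1]
    have h1 := hmuN l hl1l (z + β) (z + β) (by rw [hz]; exact h3L8)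
      (by rw [hz]; exact h3L8)
    have h2 := hmuN l hl1l 0 (-(z + β)) (by rw [norm_zero]; exact ((div_pos three_pos hL).trans_le h3L8).le)
      (by rw [norm_neg, hz]; exact h3L8)
    have hD : 1 + 1 / ‖z + β‖ ≤ Real.log T := by
      rw [hz, one_div_div]
      linarith only [hL16]
    have hD3 : ∀ x : ℝ, 3 * x / ‖z + β‖ = x * Real.log T := by
      intro x
      rw [hz, div_div_eq_mul_div, mul_comm 3 x, mul_assoc, mul_comm (3 : ℝ), ← mul_assoc,
        mul_div_assoc, div_self three_ne_zero, mul_one]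
    rw [hD3] at h3 h4
    have h5 : ‖((2 * Real.pi / (N * T) : ℝ) : ℂ) ^ (z + β)‖ ≤ Real.exp 4 :=
      C07_pow hNpos hTpi hLN hre
    have h7 : K * ((N : ℝ) / N.totient) / l ≤ K * ((N : ℝ) / N.totient) * 2000 / Real.log T := by
      rw [div_le_div_iff₀ hl00 hL]
      have h70 : 0 < K * ((N : ℝ) / N.totient) := mul_pos hK (div_pos hN0 hφ0)
      have h71 : Real.log T ≤ 2000 * l := by
        rw [div_le_iff₀ (by norm_num : (0 : ℝ) < 2000), mul_comm] at hl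
        exact hl
      calc K * ((N : ℝ) / N.totient) * Real.log T ≤ K * ((N : ℝ) / N.totient) * (2000 * l) :=
            mul_le_mul_of_nonneg_left h71 h70.le
        _ = K * ((N : ℝ) / N.totient) * 2000 * l := (mul_assoc _ _ _).symm
    obtain ⟨Q1, hQ1⟩ : ∃ Q1, Q1 = Q2 (1 : DirichletCharacter ℂ N) 1 ⌊Real.exp l⌋₊ l (z + β) (z + β) :=
      ⟨_, rfl⟩
    obtain ⟨Q2', hQ2⟩ : ∃ Q2', Q2' = Q2 (1 : DirichletCharacter ℂ N) 1 ⌊Real.exp l⌋₊ l 0 (-(z + β)) :=
      ⟨_, rfl⟩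
    rw [← hQ1] at h1 hm
    rw [← hQ2] at h2 hm
    have hc : (((N.totient : ℝ) / N) * Real.log T) * (K * ((N : ℝ) / N.totient) * 2000 / Real.log T) =
        K * 2000 := C07_hc _ _ _ _ hφ0.ne' hN0.ne' hL.ne'
    have hpos1 : 0 ≤ ((N.totient : ℝ) / N) * Real.log T :=
      mul_nonneg (div_nonneg hφ0.le hN0.le) hL.le
    have hpos2 : 0 ≤ K * ((N : ℝ) / N.totient) * 2000 / Real.log T :=
      div_nonneg (mul_nonneg (mul_nonneg hK.le (div_nonneg hN0.le hφ0.le)) (by norm_num)) hL.le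
    have h8 : ‖LX.Lf (1 : DirichletCharacter ℂ N) (1 + (z + β)) * Q1‖ ≤ K * 2000 := by
      rw [norm_mul, ← hc]
      exact mul_le_mul h3 (h1.trans h7) (norm_nonneg _) hpos1
    have h9 : ‖(N : ℂ)⁻¹ * ((2 * Real.pi / (N * T) : ℝ) : ℂ) ^ (z + β) * AC χ (χ⁻¹ : DirichletCharacter ℂ N) (z + β) * Q2'‖ ≤
        Real.exp 4 * K * 2000 := by
      have e : (N : ℂ)⁻¹ * ((2 * Real.pi / (N * T) : ℝ) : ℂ) ^ (z + β) * AC χ (χ⁻¹ : DirichletCharacter ℂ N) (z + β) * Q2' =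
          ((2 * Real.pi / (N * T) : ℝ) : ℂ) ^ (z + β) * (((N : ℂ)⁻¹ * AC χ (χ⁻¹ : DirichletCharacter ℂ N) (z + β)) * Q2') := by
        ring
      rw [e, norm_mul, norm_mul, mul_assoc (Real.exp 4), ← hc]
      exact mul_le_mul h5 (mul_le_mul h4 (h2.trans h7) (norm_nonneg _) hpos1)
        (mul_nonneg (norm_nonneg _) (norm_nonneg _)) (Real.exp_pos 4).le
    have h10 : C * (1 + 1 / ‖z + β‖) * T ^ (-(1/4) : ℝ) ≤ 1 := by
      calc C * (1 + 1 / ‖z + β‖) * T ^ (-(1/4) : ℝ) ≤ C * Real.log T * T ^ (-(1/4) : ℝ) :=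
            mul_le_mul_of_nonneg_right (mul_le_mul_of_nonneg_left hD hC.le)
              (Real.rpow_nonneg hT00.le _)
        _ = C * (Real.log T * T ^ (-(1/4) : ℝ)) := by ring
        _ ≤ 1 := hTC
    have h11 := hm.trans h10
    obtain ⟨E, hE⟩ : ∃ E, E = EE T (XP χ χ⁻¹ l z β) := ⟨_, rfl⟩
    rw [← hE] at h11 ⊢
    obtain ⟨R, hR⟩ : ∃ R, R = LX.Lf (1 : DirichletCharacter ℂ N) (1 + (z + β)) * Q1 := ⟨_, rfl⟩
    obtain ⟨R', hR'⟩ : ∃ R', R' = (N : ℂ)⁻¹ * ((2 * Real.pi / (N * T) : ℝ) : ℂ) ^ (z + β) *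
      AC χ (χ⁻¹ : DirichletCharacter ℂ N) (z + β) * Q2' := ⟨_, rfl⟩
    rw [← hR] at h11 h8
    rw [← hR'] at h11 h9
    calc ‖E‖ = ‖(E - (R + R')) + R + R'‖ := by
          congr 1
          ring
      _ ≤ ‖(E - (R + R')) + R‖ + ‖R'‖ := norm_add_le _ _
      _ ≤ ‖E - (R + R')‖ + ‖R‖ + ‖R'‖ := add_le_add (norm_add_le _ _) le_rfl
      _ ≤ 1 + K * 2000 + Real.exp 4 * K * 2000 := add_le_add (add_le_add h11 h8) h9
      _ = C' := by rw [hC']; ring
  -- holomorphy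
  obtain ⟨CX, hCX, hXX⟩ := XP_bound χ χ⁻¹ l (U + 1) hl00 (by linarith only [hU])
  have hball : ∀ z ∈ Metric.ball (-β) (4 / Real.log T), ‖z + β‖ < 4 / Real.log T := by
    intro z hz
    rw [Metric.mem_ball, dist_eq_norm, sub_neg_eq_add] at hz
    exact hz
  have hhol : DifferentiableOn ℂ (fun z => EE T (XP χ χ⁻¹ l z β))
      (Metric.ball (-β) (4 / Real.log T)) := by
    refine LZ.EE_diff hT00 Metric.isOpen_ball (g := fun z t => XP χ χ⁻¹ l z β t)
      (C := CX) ?_ ?_ ?_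
    · intro t
      exact C07_diff χ χ⁻¹ l β t fun z hz => (le_abs_self _).trans (hdisc z (hball z hz)).1
    · intro z hz
      obtain ⟨h1, h2⟩ := hdisc z (hball z hz)
      exact (hXX z β h1 hβ16 h2 hβU).1
    · intro z hz t _
      obtain ⟨h1, h2⟩ := hdisc z (hball z hz)
      exact (hXX z β h1 hβ16 h2 hβU).2 t
  have h3pos : (3 / Real.log T) ≠ 0 := (div_pos three_pos hL).ne'
  have hsub : closure (Metric.ball (-β) (3 / Real.log T)) ⊆ Metric.ball (-β) (4 / Real.log T) := by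
    rw [closure_ball _ h3pos]
    exact Metric.closedBall_subset_ball (div_lt_div_of_pos_right (by norm_num) hL)
  refine Complex.norm_le_of_forall_mem_frontier_norm_le (U := Metric.ball (-β) (3 / Real.log T))
    (f := fun z => EE T (XP χ χ⁻¹ l z β))
    Metric.isBounded_ball (hhol.mono hsub).diffContOnCl ?_ ?_
  · intro z hz
    rw [frontier_ball _ h3pos, Metric.mem_sphere, dist_eq_norm, sub_neg_eq_add] at hz
    exact hcircle z hz
  · rw [closure_ball _ h3pos, Metric.mem_closedBall, dist_eq_norm, sub_neg_eq_add]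
    exact hαβ

end LP

end F_Y_C07
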