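import Pool.Agent.Lib.MP_0f5a55_nt.V.V55
import Pool.Agent.Lib.MP_0f5a55_nt.V.V56

section F_Y_C09

open Complex MeasureTheory Set Filter Topology
open scoped ComplexConjugate

namespace LP

open LZ (kk nS cf EE ER PP wt Sep)

/-- from XP_mu_bound with psi = chi^-1, u1 = u2 = u. LZ.M09. -/
theorem F_second : ∃ C : ℝ, 0 < C ∧ ∀ (N : ℕ) [NeZero N] (χ : DirichletCharacter ℂ N) (U : ℝ), 0 ≤ U →
    ∃ T0 : ℝ, 2 ≤ T0 ∧ ∀ T : ℝ, T0 ≤ T → ∀ l : ℝ,
    Real.log T / 2000 ≤ l → l ≤ Real.log T / 1000 → ∀ σ u : ℝ, |σ| ≤ 1 / Real.log T → |u| ≤ U →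
    ER T (fun t => ‖LX.FF χ l (1/2 + σ + (t + u) * I)‖ ^ 2) ≤ C := by
  obtain ⟨C, hC, h⟩ := XP_mu_bound
  refine ⟨C, hC, ?_⟩
  intro N _ χ U hU
  obtain ⟨T1, hT1, h'⟩ := h N χ U hU
  refine ⟨max T1 (Real.exp 4), hT1.trans (le_max_left _ _), ?_⟩
  intro T hT l hl1 hl2 σ u hσ hu
  have hT1' : T1 ≤ T := (le_max_left _ _).trans hT
  have hT4 : Real.exp 4 ≤ T := (le_max_right _ _).trans hT
  have hlog4 : 4 ≤ Real.log T := by
    rw [← Real.log_exp 4]
    exact Real.log_le_log (Real.exp_pos 4) hT4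
  have hlog : 0 < Real.log T := by linarith
  have hl0 : 0 < l := lt_of_lt_of_le (by positivity) hl1
  have hσ4 : |σ| ≤ 1 / 4 := hσ.trans (one_div_le_one_div_of_le (by norm_num) hlog4)
  have h1 := h' T hT1' l hl1 hl2 (σ + u * I) (σ - u * I) (by simpa using hσ) (by simpa using hu) (by
    have e1 : (σ : ℂ) + u * I + (σ - u * I) = ((2 * σ : ℝ) : ℂ) := by push_cast; ring
    rw [e1, Complex.norm_real, Real.norm_eq_abs, abs_mul, abs_two]
    have e2 : 2 * |σ| ≤ 2 * (1 / Real.log T) := by linarith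
    have e3 : 2 * (1 / Real.log T) ≤ 3 / Real.log T := by
      rw [mul_one_div]
      exact div_le_div_of_nonneg_right (by norm_num) hlog.le
    linarith)
  have hEE : EE T (XP χ χ⁻¹ l (σ + u * I) (σ - u * I)) =
      ((ER T (fun t => ‖LX.FF χ l (1/2 + σ + (t + u) * I)‖ ^ 2) : ℝ) : ℂ) := by
    unfold EE ER
    rw [Complex.ofReal_mul, Complex.ofReal_inv, ← integral_complex_ofReal]
    congr 1
    apply integral_congr_ae
    refine Filter.Eventually.of_forall (fun t => ?_)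
    simp only
    rw [(conj_facts χ χ).2.2 l hl0 σ u u t hσ4, Complex.mul_conj']
    push_cast
    ring
  rw [hEE, Complex.norm_real] at h1
  exact (le_abs_self _).trans h1

end LP

end F_Y_C09
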