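import Pool.Agent.Lib.MP_0f5a55_nt.V.V40
import Pool.Agent.Lib.MP_0f5a55_nt.V.V43
import Pool.Agent.Lib.MP_0f5a55_nt.V.V46
import Pool.Agent.Lib.MP_0f5a55_nt.V.V54
import Pool.Agent.Lib.MP_0f5a55_nt.V.V56

section F_Y_C10

open Complex MeasureTheory Set Filter Topology
open scoped ComplexConjugate

namespace LP

open LZ (kk nS cf EE ER PP wt Sep)

variable {N : ℕ} [NeZero N]

/-- a power of a small number with a small exponent -/
private theorem C10_pow {q : ℕ} (hq : 1 ≤ q) {T : ℝ} (hT : 2 * Real.pi ≤ T) (hqT : (q : ℝ) ≤ T) {η : ℂ} {B : ℝ}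
    (h : |η.re| ≤ B / Real.log T) :
    ‖((2 * Real.pi / (q * T) : ℝ) : ℂ) ^ η‖ ≤ Real.exp (2 * B) := by
  have hpi : (0 : ℝ) < 2 * Real.pi := Real.two_pi_pos
  have hT0 : 0 < T := hpi.trans_le hT
  have hq0 : (0 : ℝ) < q := by exact_mod_cast hq
  have hq1 : (1 : ℝ) ≤ q := by exact_mod_cast hq
  have hqT0 : 0 < (q : ℝ) * T := mul_pos hq0 hT0
  have hpi1 : (1 : ℝ) < 2 * Real.pi := by linarith [Real.pi_gt_three]
  have hL : 0 < Real.log T := Real.log_pos (hpi1.trans_le hT)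
  rw [Complex.norm_cpow_eq_rpow_re_of_pos (div_pos hpi hqT0), Real.rpow_def_of_pos (div_pos hpi hqT0),
    Real.exp_le_exp]
  have h1 : |Real.log (2 * Real.pi / (q * T))| ≤ 2 * Real.log T := by
    rw [Real.log_div hpi.ne' hqT0.ne', Real.log_mul hq0.ne' hT0.ne', abs_le]
    have h2 : 0 < Real.log (2 * Real.pi) := Real.log_pos hpi1
    have h3 : Real.log (2 * Real.pi) ≤ Real.log T := Real.log_le_log hpi hT
    have h4 : Real.log q ≤ Real.log T := Real.log_le_log hq0 hqT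
    have h5 : 0 ≤ Real.log q := Real.log_nonneg hq1
    constructor
    · linarith
    · linarith
  calc Real.log (2 * Real.pi / (q * T)) * η.re ≤ |Real.log (2 * Real.pi / (q * T)) * η.re| := le_abs_self _
    _ = |Real.log (2 * Real.pi / (q * T))| * |η.re| := abs_mul _ _
    _ ≤ (2 * Real.log T) * (B / Real.log T) := mul_le_mul h1 h (abs_nonneg _) (by positivity)
    _ = 2 * B := by field_simp

/-- the integrand is holomorphic in the first shift -/
private theorem C10_diff (χ ψ : DirichletCharacter ℂ N) (l : ℝ) (β : ℂ) (t : ℝ) {Ω : Set ℂ}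
    (hΩ : ∀ z ∈ Ω, z.re ≤ 1 / 16) :
    DifferentiableOn ℂ (fun z => XP χ ψ l z β t) Ω := by
  intro z hz
  have h1 : DifferentiableAt ℂ (fun z : ℂ => LX.Lf χ (1/2 + z + t * I)) z := by
    refine DifferentiableAt.comp z (g := LX.Lf χ) ?_ (by fun_prop)
    refine DirichletCharacter.differentiableAt_LFunction χ _ (Or.inl ?_)
    intro h2
    have h3 := congrArg Complex.re h2
    simp at h3
    have := hΩ z hz
    norm_num at h3
    linarith
  have h2 : DifferentiableAt ℂ (fun z : ℂ => LX.Mol χ 1 l (1/2 + z + t * I)) z :=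
    DifferentiableAt.comp z (g := LX.Mol χ 1 l) (LX.Mol_diff χ 1 l _) (by fun_prop)
  have h3 : (fun z => XP χ ψ l z β t) = fun z : ℂ =>
      (LX.Lf χ (1/2 + z + t * I) * LX.Mol χ 1 l (1/2 + z + t * I)) * LX.FF ψ l (1/2 + β - t * I) := by
    funext z
    rfl
  rw [h3]
  exact ((h1.mul h2).mul_const _).differentiableWithinAt

/-- the moment is near one as soon as the dual constant is bounded -/
private theorem C10_core (χ ψ : DirichletCharacter ℂ N) (u0 U DA : ℝ) (hU : 0 ≤ U) (hDA : 0 < DA)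
    (hu : χ * ψ ≠ 1 ∨ u0 ≠ 0) : ∀ δ : ℝ, 0 < δ →
    ∃ T0 : ℝ, 2 ≤ T0 ∧ ∀ T : ℝ, T0 ≤ T → ∀ l : ℝ,
    Real.log T / 2000 ≤ l → l ≤ Real.log T / 1000 → ∀ z β : ℂ, |z.re| ≤ 1/16 → |β.re| ≤ 1/16 →
    |z.im| ≤ U → |β.im| ≤ U → ‖z + β - u0 * I‖ ≤ 3 / Real.log T → z + β ≠ 0 →
    1 + 1 / ‖z + β‖ ≤ Real.log T → ‖AC χ ψ (z + β)‖ ≤ DA →
    ‖EE T (XP χ ψ l z β) - 1‖ ≤ δ := by
  intro δ hδ
  obtain ⟨C, T1, hC, hT1, hmaster⟩ := master χ ψ U hU
  obtain ⟨l0, hl0, hlim⟩ := Q2_lim (χ * ψ) u0 hu (δ / 3) (by linarith)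
  obtain ⟨K, l1, hK, hl1, hmu⟩ := Q2_small (χ * ψ)
  have hN1 : 1 ≤ N := Nat.one_le_iff_ne_zero.mpr (NeZero.ne N)
  have hev : ∀ᶠ T : ℝ in atTop, (T1 ≤ T ∧ 2 * Real.pi ≤ T ∧ (N : ℝ) ≤ T) ∧
      (16 ≤ Real.log T ∧ 2000 * l0 ≤ Real.log T ∧ 2000 * l1 ≤ Real.log T) ∧
      (Real.exp 6 * DA * K * 2000 ≤ δ / 3 * Real.log T) ∧
      C * (Real.log T * T ^ (-(1/4) : ℝ)) ≤ δ / 3 := by
    refine Filter.Eventually.and ?_ (Filter.Eventually.and ?_ (Filter.Eventually.and ?_ ?_))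
    · exact (eventually_ge_atTop T1).and ((eventually_ge_atTop _).and (eventually_ge_atTop _))
    · exact (Real.tendsto_log_atTop.eventually_ge_atTop _).and
        ((Real.tendsto_log_atTop.eventually_ge_atTop _).and
          (Real.tendsto_log_atTop.eventually_ge_atTop _))
    · filter_upwards [Real.tendsto_log_atTop.eventually_ge_atTop
        ((Real.exp 6 * DA * K * 2000) / (δ / 3))] with T hT
      rw [div_le_iff₀ (by positivity)] at hT
      linarith
    · have h1 := (isLittleO_log_rpow_atTop (r := 1/4) (by norm_num)).bound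
        (show (0:ℝ) < δ / (3 * C) by positivity)
      filter_upwards [h1, eventually_ge_atTop (1 : ℝ)] with T hT hT1
      have hT0 : 0 < T := by linarith
      rw [Real.norm_of_nonneg (Real.log_nonneg hT1),
        Real.norm_of_nonneg (Real.rpow_nonneg hT0.le _)] at hT
      have h2 : Real.log T * T ^ (-(1/4) : ℝ) ≤ δ / (3 * C) := by
        calc Real.log T * T ^ (-(1/4) : ℝ) ≤ (δ / (3 * C) * T ^ (1/4 : ℝ)) * T ^ (-(1/4) : ℝ) :=
              mul_le_mul_of_nonneg_right hT (Real.rpow_nonneg hT0.le _)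
          _ = δ / (3 * C) * (T ^ (1/4 : ℝ) * T ^ (-(1/4) : ℝ)) := by ring
          _ = δ / (3 * C) := by rw [← Real.rpow_add hT0]; norm_num
      calc C * (Real.log T * T ^ (-(1/4) : ℝ)) ≤ C * (δ / (3 * C)) :=
            mul_le_mul_of_nonneg_left h2 hC.le
        _ = δ / 3 := by field_simp
  obtain ⟨T0, hT0⟩ := Filter.eventually_atTop.mp hev
  refine ⟨max T0 2, le_max_right _ _, ?_⟩
  intro T hT l hl hl' z β hzre hβre hzim hβim hz0 hη0 hD hA
  obtain ⟨⟨hT1', hTpi, hNT⟩, ⟨hL16, hLl0, hLl1⟩, hLK, hTC⟩ := hT0 T ((le_max_left _ _).trans hT)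
  have hL : 0 < Real.log T := by linarith
  have hl00 : 0 < l := by linarith
  have hT00 : 0 < T := by linarith [Real.pi_pos]
  have h3L8 : 3 / Real.log T ≤ 1 / (8 * l) := by
    rw [div_le_div_iff₀ hL (by positivity)]
    linarith
  have hre : |(z + β).re| ≤ 3 / Real.log T := by
    have h1 := (Complex.abs_re_le_norm (z + β - u0 * I)).trans hz0
    simpa using h1
  have hm := hmaster T hT1' l hl00 hl' z β hzre hβre hzim hβim hη0
  have h1 := hlim l (by linarith) (z + β) (hz0.trans h3L8)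
  have h2 := hmu l (by linarith) 0 (-(z + β)) (by
    rw [norm_zero]
    positivity) (by
    rw [Complex.neg_re, abs_neg]
    exact hre.trans h3L8)
  have h5 : ‖((2 * Real.pi / (N * T) : ℝ) : ℂ) ^ (z + β)‖ ≤ Real.exp 6 := by
    have := C10_pow hN1 hTpi hNT hre
    rwa [show (2 * 3 : ℝ) = 6 by norm_num] at this
  have h7 : K / l ≤ K * 2000 / Real.log T := by
    rw [div_le_div_iff₀ hl00 hL]
    nlinarith
  have hNi : ‖(N : ℂ)⁻¹‖ ≤ 1 := by
    rw [norm_inv, Complex.norm_natCast]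
    exact inv_le_one_of_one_le₀ (by exact_mod_cast hN1)
  have h6 : ‖(N : ℂ)⁻¹ * ((2 * Real.pi / (N * T) : ℝ) : ℂ) ^ (z + β) * AC χ ψ (z + β) *
      Q2 1 (χ * ψ) ⌊Real.exp l⌋₊ l 0 (-(z + β))‖ ≤ δ / 3 := by
    rw [norm_mul, norm_mul, norm_mul]
    calc ‖(N : ℂ)⁻¹‖ * ‖((2 * Real.pi / (N * T) : ℝ) : ℂ) ^ (z + β)‖ * ‖AC χ ψ (z + β)‖ *
          ‖Q2 1 (χ * ψ) ⌊Real.exp l⌋₊ l 0 (-(z + β))‖
        ≤ 1 * Real.exp 6 * DA * (K * 2000 / Real.log T) := by
          refine mul_le_mul (mul_le_mul (mul_le_mul hNi h5 (norm_nonneg _) zero_le_one) hA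
            (norm_nonneg _) (by positivity)) (h2.trans h7) (norm_nonneg _) (by positivity)
      _ = (Real.exp 6 * DA * K * 2000) / Real.log T := by ring
      _ ≤ δ / 3 := by
          rw [div_le_iff₀ hL]
          exact hLK
  have h8 : C * (1 + 1 / ‖z + β‖) * T ^ (-(1/4) : ℝ) ≤ δ / 3 := by
    refine le_trans ?_ hTC
    rw [mul_assoc]
    exact mul_le_mul_of_nonneg_left (mul_le_mul_of_nonneg_right hD
      (Real.rpow_nonneg hT00.le _)) hC.le
  have h9 := hm.trans h8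
  obtain ⟨E, hE⟩ : ∃ E, E = EE T (XP χ ψ l z β) := ⟨_, rfl⟩
  rw [← hE] at h9 ⊢
  obtain ⟨Q1, hQ1⟩ : ∃ Q1, Q1 = LX.Lf (χ * ψ) (1 + (z + β)) *
      Q2 (χ * ψ) (χ * ψ)⁻¹ ⌊Real.exp l⌋₊ l (z + β) (z + β) := ⟨_, rfl⟩
  rw [← hQ1] at h1 h9
  obtain ⟨R, hR⟩ : ∃ R, R = (N : ℂ)⁻¹ * ((2 * Real.pi / (N * T) : ℝ) : ℂ) ^ (z + β) *
      AC χ ψ (z + β) * Q2 1 (χ * ψ) ⌊Real.exp l⌋₊ l 0 (-(z + β)) := ⟨_, rfl⟩
  rw [← hR] at h9 h6
  calc ‖E - 1‖ = ‖(E - (Q1 + R)) + (Q1 - 1) + R‖ := by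
        congr 1
        ring
    _ ≤ ‖(E - (Q1 + R)) + (Q1 - 1)‖ + ‖R‖ := norm_add_le _ _
    _ ≤ ‖E - (Q1 + R)‖ + ‖Q1 - 1‖ + ‖R‖ := add_le_add (norm_add_le _ _) le_rfl
    _ ≤ δ / 3 + δ / 3 + δ / 3 := add_le_add (add_le_add h9 h1) h6
    _ = δ := by ring

/-- cross moments. eta = 2 sigma + i(u1-u2), theta = chi1 chi2^-1. First main term: Q2_lim; second: |(2 pi/(NT))^eta| <= C, AC bounded
(theta <> 1: A15 (ii); theta = 1: |eta| >= |u1-u2|, A15 (i)), Q2_small: O(1/l). If u1 = u2 (then theta <> 1) |eta| may be tiny or 0: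
use the maximum modulus principle in alpha as in C07/LZ.M07: on the circle |alpha + beta| = 3/log T both main terms are
controlled (Q2_lim with u0 = 0: |eta| = 3/log T <= 1/(8 l)), so |EE T (XP) - 1| <= delta there, hence inside. Cf. LZ.M10. -/
theorem F_cross (χ1 χ2 : DirichletCharacter ℂ N) (u1 u2 : ℝ) (h : χ1 ≠ χ2 ∨ u1 ≠ u2) : ∀ δ : ℝ, 0 < δ →
    ∃ T0 : ℝ, 2 ≤ T0 ∧ ∀ T : ℝ, T0 ≤ T → ∀ l : ℝ,
    Real.log T / 2000 ≤ l → l ≤ Real.log T / 1000 → ∀ σ : ℝ, |σ| ≤ 1 / Real.log T →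
    ‖EE T (fun t => LX.FF χ1 l (1/2 + σ + (t + u1) * I) * conj (LX.FF χ2 l (1/2 + σ + (t + u2) * I))) - 1‖ ≤ δ := by
  intro δ hδ
  obtain ⟨ψ, hψ⟩ : ∃ ψ : DirichletCharacter ℂ N, ψ = χ2⁻¹ := ⟨_, rfl⟩
  obtain ⟨U, hUd⟩ : ∃ U : ℝ, U = max |u1| |u2| + 1 := ⟨_, rfl⟩
  have hU0 : 0 ≤ max |u1| |u2| := le_max_of_le_left (abs_nonneg _)
  have hU : 0 ≤ U := by rw [hUd]; linarith
  have hfun : ∀ (l : ℝ), 0 < l → ∀ σ : ℝ, |σ| ≤ 1/4 →
      (fun t : ℝ => LX.FF χ1 l (1/2 + σ + (t + u1) * I) * conj (LX.FF χ2 l (1/2 + σ + (t + u2) * I))) =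
      XP χ1 ψ l (σ + u1 * I) (σ - u2 * I) := by
    intro l hl σ hσ
    funext t
    rw [hψ]
    exact ((conj_facts χ1 χ2).2.2 l hl σ u1 u2 t hσ).symm
  by_cases hu : u1 = u2
  · -- equal shifts, different characters
    have hχ : χ1 ≠ χ2 := by
      rcases h with h | h
      · exact h
      · exact absurd hu h
    have hθ : χ1 * ψ ≠ 1 := by
      intro h1
      rw [hψ, mul_inv_eq_one] at h1
      exact hχ h1
    obtain ⟨DA, hDA, hA⟩ := AC_bounds.2.1 χ1 ψ 1 hθ zero_le_one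
    obtain ⟨T1, hT1, hcore⟩ := C10_core χ1 ψ 0 U DA hU hDA (Or.inl hθ) δ hδ
    have hev : ∀ᶠ T : ℝ in atTop, (T1 ≤ T) ∧ (128 ≤ Real.log T) := by
      exact (eventually_ge_atTop T1).and (Real.tendsto_log_atTop.eventually_ge_atTop _)
    obtain ⟨T0, hT0⟩ := Filter.eventually_atTop.mp hev
    refine ⟨max T0 2, le_max_right _ _, ?_⟩
    intro T hT l hl hl' σ hσ
    obtain ⟨hT1', hL16⟩ := hT0 T ((le_max_left _ _).trans hT)
    have hL : 0 < Real.log T := by linarith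
    have hl00 : 0 < l := by linarith
    have hT00 : 0 < T := by linarith
    have h3L : 3 / Real.log T ≤ 1 / 32 := by
      rw [div_le_div_iff₀ hL (by norm_num)]
      linarith
    have h1L : 1 / Real.log T ≤ 1 / 64 := by
      rw [div_le_div_iff₀ hL (by norm_num)]
      linarith
    have hσ64 : |σ| ≤ 1 / 64 := hσ.trans h1L
    rw [hfun l hl00 σ (hσ64.trans (by norm_num))]
    obtain ⟨α, hα⟩ : ∃ α : ℂ, α = (σ : ℂ) + u1 * I := ⟨_, rfl⟩
    obtain ⟨β, hβ⟩ : ∃ β : ℂ, β = (σ : ℂ) - u2 * I := ⟨_, rfl⟩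
    rw [← hα, ← hβ]
    have hβre : β.re = σ := by rw [hβ]; simp
    have hβim : β.im = -u2 := by rw [hβ]; simp
    have hαβ : ‖α + β‖ ≤ 3 / Real.log T := by
      have h1 : α + β = ((2 * σ : ℝ) : ℂ) := by
        rw [hα, hβ, hu]
        push_cast
        ring
      rw [h1, Complex.norm_real, Real.norm_eq_abs, abs_mul, abs_two]
      calc 2 * |σ| ≤ 2 * (1 / Real.log T) := by linarith
        _ ≤ 3 / Real.log T := by
          rw [mul_one_div, div_le_div_iff₀ hL hL]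
          linarith
    have hβ16 : |β.re| ≤ 1 / 16 := by rw [hβre]; linarith
    have hβU : |β.im| ≤ U := by
      rw [hβim, abs_neg, hUd]
      linarith [le_max_right |u1| |u2|]
    have hβU' : |β.im| ≤ max |u1| |u2| := by
      rw [hβim, abs_neg]
      exact le_max_right _ _
    -- shifts in the disc
    have hdisc : ∀ z : ℂ, ‖z + β‖ < 4 / Real.log T → |z.re| ≤ 1 / 16 ∧ |z.im| ≤ U := by
      intro z hz
      have h4L : 4 / Real.log T ≤ 1 / 32 := by
        rw [div_le_div_iff₀ hL (by norm_num)]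
        linarith
      have h1 : |(z + β).re| ≤ 1 / 32 := (Complex.abs_re_le_norm _).trans (hz.le.trans h4L)
      have h2 : |(z + β).im| ≤ 1 / 32 := (Complex.abs_im_le_norm _).trans (hz.le.trans h4L)
      rw [Complex.add_re, hβre] at h1
      rw [Complex.add_im] at h2
      rw [hUd]
      rw [abs_le] at h1 h2 hσ64 hβU' ⊢
      rw [abs_le]
      constructor
      · constructor <;> linarith
      · constructor <;> linarith
    -- the bound on the circle
    have hcircle : ∀ z : ℂ, ‖z + β‖ = 3 / Real.log T → ‖EE T (XP χ1 ψ l z β) - 1‖ ≤ δ := by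
      intro z hz
      have hz4 : ‖z + β‖ < 4 / Real.log T := by
        rw [hz]
        exact div_lt_div_of_pos_right (by norm_num) hL
      obtain ⟨hzre, hzim⟩ := hdisc z hz4
      have hη0 : z + β ≠ 0 := by
        intro h0
        rw [h0, norm_zero] at hz
        have : 0 < 3 / Real.log T := by positivity
        linarith
      have hre : |(z + β).re| ≤ 1 / 32 := (Complex.abs_re_le_norm _).trans (hz.le.trans h3L)
      have him : |(z + β).im| ≤ 1 / 32 := (Complex.abs_im_le_norm _).trans (hz.le.trans h3L)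
      refine hcore T hT1' l hl hl' z β hzre hβ16 hzim hβU ?_ hη0 ?_ ?_
      · rw [Complex.ofReal_zero, zero_mul, sub_zero]
        exact hz.le
      · rw [hz, one_div_div]
        linarith
      · exact hA (z + β) (by linarith) (by linarith)
    -- holomorphy
    obtain ⟨CX, hCX, hXX⟩ := XP_bound χ1 ψ l U hl00 hU
    have hball : ∀ z ∈ Metric.ball (-β) (4 / Real.log T), ‖z + β‖ < 4 / Real.log T := by
      intro z hz
      rw [Metric.mem_ball, dist_eq_norm, sub_neg_eq_add] at hz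
      exact hz
    have hhol : DifferentiableOn ℂ (fun z => EE T (XP χ1 ψ l z β) - 1)
        (Metric.ball (-β) (4 / Real.log T)) := by
      refine DifferentiableOn.sub_const ?_ _
      refine LZ.EE_diff hT00 Metric.isOpen_ball (g := fun z t => XP χ1 ψ l z β t)
        (C := CX) ?_ ?_ ?_
      · intro t
        exact C10_diff χ1 ψ l β t fun z hz => (le_abs_self _).trans (hdisc z (hball z hz)).1
      · intro z hz
        obtain ⟨h1, h2⟩ := hdisc z (hball z hz)
        exact (hXX z β h1 hβ16 h2 hβU).1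
      · intro z hz t _
        obtain ⟨h1, h2⟩ := hdisc z (hball z hz)
        exact (hXX z β h1 hβ16 h2 hβU).2 t
    have h3pos : (3 / Real.log T) ≠ 0 := by positivity
    have hsub : closure (Metric.ball (-β) (3 / Real.log T)) ⊆ Metric.ball (-β) (4 / Real.log T) := by
      rw [closure_ball _ h3pos]
      exact Metric.closedBall_subset_ball (div_lt_div_of_pos_right (by norm_num) hL)
    refine Complex.norm_le_of_forall_mem_frontier_norm_le (U := Metric.ball (-β) (3 / Real.log T))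
      (f := fun z => EE T (XP χ1 ψ l z β) - 1)
      Metric.isBounded_ball (hhol.mono hsub).diffContOnCl ?_ ?_
    · intro z hz
      rw [frontier_ball _ h3pos, Metric.mem_sphere, dist_eq_norm, sub_neg_eq_add] at hz
      exact hcircle z hz
    · rw [closure_ball _ h3pos, Metric.mem_closedBall, dist_eq_norm, sub_neg_eq_add]
      exact hαβ
  · -- different shifts
    have hu0 : u1 - u2 ≠ 0 := sub_ne_zero.mpr hu
    have huabs : 0 < |u1 - u2| := abs_pos.mpr hu0
    obtain ⟨CA, hCA, hA⟩ := AC_bounds.1 χ1 ψ |u1 - u2| (abs_nonneg _)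
    obtain ⟨D, hD⟩ : ∃ D, D = 1 + 1 / |u1 - u2| := ⟨_, rfl⟩
    have hD0 : 0 < D := by rw [hD]; positivity
    obtain ⟨T1, hT1, hcore⟩ := C10_core χ1 ψ (u1 - u2) U (CA * D) hU (by positivity) (Or.inr hu0) δ hδ
    have hev : ∀ᶠ T : ℝ in atTop, (T1 ≤ T) ∧ (16 ≤ Real.log T) ∧ (D ≤ Real.log T) := by
      exact (eventually_ge_atTop T1).and ((Real.tendsto_log_atTop.eventually_ge_atTop _).and
        (Real.tendsto_log_atTop.eventually_ge_atTop _))
    obtain ⟨T0, hT0⟩ := Filter.eventually_atTop.mp hev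
    refine ⟨max T0 2, le_max_right _ _, ?_⟩
    intro T hT l hl hl' σ hσ
    obtain ⟨hT1', hL16, hLD⟩ := hT0 T ((le_max_left _ _).trans hT)
    have hL : 0 < Real.log T := by linarith
    have hl00 : 0 < l := by linarith
    have hσ16 : |σ| ≤ 1 / 16 := hσ.trans (by
      rw [div_le_div_iff₀ hL (by norm_num)]
      linarith)
    rw [hfun l hl00 σ (hσ16.trans (by norm_num))]
    obtain ⟨α, hα⟩ : ∃ α : ℂ, α = (σ : ℂ) + u1 * I := ⟨_, rfl⟩
    obtain ⟨β, hβ⟩ : ∃ β : ℂ, β = (σ : ℂ) - u2 * I := ⟨_, rfl⟩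
    rw [← hα, ← hβ]
    have hαre : α.re = σ := by rw [hα]; simp
    have hαim : α.im = u1 := by rw [hα]; simp
    have hβre : β.re = σ := by rw [hβ]; simp
    have hβim : β.im = -u2 := by rw [hβ]; simp
    have hηre : (α + β).re = 2 * σ := by rw [Complex.add_re, hαre, hβre]; ring
    have hηim : (α + β).im = u1 - u2 := by rw [Complex.add_im, hαim, hβim]; ring
    have hη0 : α + β ≠ 0 := by
      intro h0
      rw [h0, Complex.zero_im] at hηim
      exact hu0 hηim.symm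
    have hnorm : |u1 - u2| ≤ ‖α + β‖ := by
      rw [← hηim]
      exact Complex.abs_im_le_norm _
    have hDη : 1 + 1 / ‖α + β‖ ≤ D := by
      rw [hD]
      have := one_div_le_one_div_of_le huabs hnorm
      linarith
    refine hcore T hT1' l hl hl' α β ?_ ?_ ?_ ?_ ?_ hη0 (hDη.trans hLD) ?_
    · rw [hαre]; exact hσ16
    · rw [hβre]; exact hσ16
    · rw [hαim, hUd]
      linarith [le_max_left |u1| |u2|]
    · rw [hβim, abs_neg, hUd]
      linarith [le_max_right |u1| |u2|]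
    · have h1 : α + β - ((u1 - u2 : ℝ) : ℂ) * I = ((2 * σ : ℝ) : ℂ) := by
        rw [hα, hβ]
        push_cast
        ring
      rw [h1, Complex.norm_real, Real.norm_eq_abs, abs_mul, abs_two]
      calc 2 * |σ| ≤ 2 * (1 / Real.log T) := by linarith
        _ ≤ 3 / Real.log T := by
          rw [mul_one_div, div_le_div_iff₀ hL hL]
          linarith
    · have h3 := (hA (α + β) (by
        rw [hηre, abs_mul, abs_two]
        linarith) (by rw [hηim]) hη0).2
      exact h3.trans (mul_le_mul_of_nonneg_left hDη hCA.le)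

end LP

end F_Y_C10
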