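import Pool.Agent.Lib.MP_0f5a55_nt.V.V07
import Pool.Agent.Lib.MP_0f5a55_nt.V.V12
import Pool.Agent.Lib.MP_0f5a55_nt.V.V18

section F_Y_A23

open Complex MeasureTheory Set Filter Topology
open scoped ComplexConjugate

namespace LP

open LZ (kk nS cf EE ER PP wt Sep)

variable {N : ℕ} [NeZero N]

private noncomputable def A23_F (χ : DirichletCharacter ℂ N) (T : ℝ) (h : ℕ) (α s : ℂ) : ℂ :=
  LX.Lf χ (s + α) * (h : ℂ) ^ (-(s - 1/2)) * exp (I * (s - 1/2) / T)

private theorem A23_line (χ : DirichletCharacter ℂ N) (T : ℝ) (h : ℕ) (α : ℂ) (t : ℝ) :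
    A23_F χ T h α (((1/2 : ℝ) : ℂ) + t * I) = LX.Lf χ (1/2 + α + t * I) * (h : ℂ) ^ (-(t * I)) *
      (Real.exp (-t / T) : ℂ) := by
  unfold A23_F
  have e1 : (((1/2 : ℝ) : ℂ) + t * I) + α = 1/2 + α + t * I := by push_cast; ring
  have e2 : -((((1/2 : ℝ) : ℂ) + t * I) - 1/2) = -(t * I) := by push_cast; ring
  have e3 : I * ((((1/2 : ℝ) : ℂ) + t * I) - 1/2) / T = ((-t / T : ℝ) : ℂ) := by
    push_cast
    have : I * (1 / 2 + (t : ℂ) * I - 1 / 2) = (I * I) * t := by ring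
    rw [this, I_mul_I]
    ring
  rw [e1, e2, e3, ofReal_exp]

private theorem A23_norm (χ : DirichletCharacter ℂ N) {T : ℝ} {h : ℕ} (hh : 1 ≤ h) (α : ℂ) {s : ℂ} (hs : 1/2 ≤ s.re) :
    ‖A23_F χ T h α s‖ ≤ ‖LX.Lf χ (s + α)‖ * Real.exp (-(1 / T * s.im)) := by
  unfold A23_F
  rw [norm_mul, norm_mul]
  have h1 : ‖(h : ℂ) ^ (-(s - 1/2))‖ ≤ 1 := by
    rw [norm_natCast_cpow_of_pos (by omega)]
    refine Real.rpow_le_one_of_one_le_of_nonpos (by exact_mod_cast hh) ?_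
    have e : (1 / 2 : ℂ).re = 1/2 := by norm_num
    rw [neg_re, sub_re, e]
    linarith
  have h2 : ‖exp (I * (s - 1/2) / T)‖ = Real.exp (-(1 / T * s.im)) := by
    rw [norm_exp]
    congr 1
    rw [div_ofReal_re, I_mul_re, sub_im]
    have e : (1 / 2 : ℂ).im = 0 := by norm_num
    rw [e]
    ring
  rw [h2]
  refine mul_le_mul_of_nonneg_right ?_ (Real.exp_pos _).le
  calc ‖LX.Lf χ (s + α)‖ * ‖(h : ℂ) ^ (-(s - 1/2))‖ ≤ ‖LX.Lf χ (s + α)‖ * 1 :=
        mul_le_mul_of_nonneg_left h1 (norm_nonneg _)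
    _ = _ := mul_one _

private theorem A23_diff (χ : DirichletCharacter ℂ N) (T : ℝ) {h : ℕ} (hh : 1 ≤ h) (α : ℂ) {s : ℂ} (hs : s + α ≠ 1) :
    DifferentiableAt ℂ (A23_F χ T h α) s := by
  unfold A23_F
  have h0 : (h : ℂ) ≠ 0 := by exact_mod_cast (by omega : h ≠ 0)
  have h1 : DifferentiableAt ℂ (fun s : ℂ => LX.Lf χ (s + α)) s :=
    DifferentiableAt.comp (g := LX.Lf χ) (f := fun s : ℂ => s + α) s
      (DirichletCharacter.differentiableAt_LFunction χ (s + α) (Or.inl hs)) (by fun_prop)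
  have h2 : DifferentiableAt ℂ (fun s : ℂ => (h : ℂ) ^ (-(s - 1/2))) s :=
    DifferentiableAt.const_cpow (by fun_prop) (Or.inl h0)
  have h3 : DifferentiableAt ℂ (fun s : ℂ => exp (I * (s - 1/2) / T)) s := by fun_prop
  exact (h1.mul h2).mul h3

private theorem A23_sum (a : ℝ) (ha : 1 < a) : Summable (fun n : ℕ => ((n : ℝ) + 1) ^ (-a)) := by
  have h := (Real.summable_nat_rpow (p := -a)).mpr (by linarith)
  have h2 := (summable_nat_add_iff 1).mpr h
  simpa using h2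

/-- the n-th term on the line Re s = 2 -/
private noncomputable def A23_c0 (T : ℝ) (h : ℕ) (α : ℂ) (n : ℕ) : ℂ :=
  ((n : ℂ) + 1) ^ (-(2 + α)) * (h : ℂ) ^ (-(3/2) : ℂ) * exp (3 / 2 * I / T)

private noncomputable def A23_c (χ : DirichletCharacter ℂ N) (T : ℝ) (h : ℕ) (α : ℂ) (n : ℕ) : ℂ :=
  χ ((n + 1 : ℕ) : ZMod N) * A23_c0 T h α n

private noncomputable def A23_b (T : ℝ) (h : ℕ) (n : ℕ) : ℂ :=
  -(((1 / T : ℝ) : ℂ)) - (Real.log (((n : ℝ) + 1) * h) : ℝ) * I

private theorem A23_term {T : ℝ} {h : ℕ} (hh : 1 ≤ h) (α : ℂ) (n : ℕ) (y : ℝ) :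
    ((n : ℂ) + 1) ^ (-(2 + y * I + α)) * (h : ℂ) ^ (-((2 : ℂ) + y * I - 1/2)) *
      exp (I * (2 + y * I - 1/2) / T) = A23_c0 T h α n * exp (A23_b T h n * y) := by
  have hn0 : ((n : ℂ) + 1) ≠ 0 := by exact_mod_cast (Nat.succ_ne_zero n)
  have hh0 : (h : ℂ) ≠ 0 := by exact_mod_cast (by omega : h ≠ 0)
  have l1 : log ((n : ℂ) + 1) = (Real.log ((n : ℝ) + 1) : ℝ) := by
    rw [ofReal_log (by positivity)]
    push_cast
    rfl
  have l2 : log (h : ℂ) = (Real.log (h : ℝ) : ℝ) := by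
    rw [ofReal_log (by positivity)]
    push_cast
    rfl
  have l3 : Real.log (((n : ℝ) + 1) * h) = Real.log ((n : ℝ) + 1) + Real.log h :=
    Real.log_mul (by positivity) (by exact_mod_cast (by omega : h ≠ 0))
  unfold A23_c0 A23_b
  rw [cpow_def_of_ne_zero hn0, cpow_def_of_ne_zero hn0, cpow_def_of_ne_zero hh0, cpow_def_of_ne_zero hh0,
    l1, l2, l3, ← exp_add, ← exp_add, ← exp_add, ← exp_add, ← exp_add]
  congr 1
  push_cast
  have hI : I * (y * I : ℂ) = -y := by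
    have : I * (y * I : ℂ) = (I * I) * y := by ring
    rw [this, I_mul_I]; ring
  have h3 : I * (2 + (y : ℂ) * I - 1/2) / T = 3 / 2 * I / T - 1 / T * y := by
    have : I * (2 + (y : ℂ) * I - 1/2) = 3 / 2 * I + I * (y * I) := by ring
    rw [this, hI]
    ring
  rw [h3]
  ring

private theorem A23_cnorm0 {T : ℝ} {h : ℕ} (hh : 1 ≤ h) {α : ℂ} (hα : |α.re| ≤ 1/16) (n : ℕ) :
    ‖A23_c0 T h α n‖ ≤ ((n : ℝ) + 1) ^ (-(31/16) : ℝ) := by
  have hα' := abs_le.mp hα
  unfold A23_c0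
  rw [norm_mul, norm_mul]
  have h1 : ‖((n : ℂ) + 1) ^ (-(2 + α))‖ ≤ ((n : ℝ) + 1) ^ (-(31/16) : ℝ) := by
    have e : ((n : ℂ) + 1) = (((n : ℝ) + 1 : ℝ) : ℂ) := by push_cast; ring
    rw [e, norm_cpow_eq_rpow_re_of_pos (by positivity)]
    refine Real.rpow_le_rpow_of_exponent_le (by have : (0:ℝ) ≤ n := by positivity
                                                linarith) ?_
    have e2 : (2 : ℂ).re = 2 := by norm_num
    rw [neg_re, add_re, e2]
    linarith
  have h2 : ‖(h : ℂ) ^ (-(3/2) : ℂ)‖ ≤ 1 := by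
    rw [norm_natCast_cpow_of_pos (by omega)]
    refine Real.rpow_le_one_of_one_le_of_nonpos (by exact_mod_cast hh) ?_
    norm_num
  have h3 : ‖exp (3 / 2 * I / T)‖ = 1 := by
    have e : (3 / 2 * I / T : ℂ) = ((3 / 2 / T : ℝ) : ℂ) * I := by push_cast; ring
    rw [e, norm_exp_ofReal_mul_I]
  rw [h3, mul_one]
  calc _ ≤ ((n : ℝ) + 1) ^ (-(31/16) : ℝ) * 1 := mul_le_mul h1 h2 (norm_nonneg _) (by positivity)
    _ = _ := mul_one _

omit [NeZero N] in
private theorem A23_cnorm (χ : DirichletCharacter ℂ N) {T : ℝ} {h : ℕ} (hh : 1 ≤ h) {α : ℂ}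
    (hα : |α.re| ≤ 1/16) (n : ℕ) : ‖A23_c χ T h α n‖ ≤ ((n : ℝ) + 1) ^ (-(31/16) : ℝ) := by
  unfold A23_c
  rw [norm_mul]
  have h1 := χ.norm_le_one ((n + 1 : ℕ) : ZMod N)
  have h2 := A23_cnorm0 (T := T) hh hα n
  calc ‖χ ((n + 1 : ℕ) : ZMod N)‖ * ‖A23_c0 T h α n‖ ≤ 1 * ‖A23_c0 T h α n‖ :=
        mul_le_mul_of_nonneg_right h1 (norm_nonneg _)
    _ ≤ _ := by rw [one_mul]; exact h2

private theorem A23_tail (χ : DirichletCharacter ℂ N) (Y : ℝ) (hY : 0 ≤ Y) : ∃ C : ℝ, 0 < C ∧ ∀ T : ℝ, Y + 4 ≤ T → ∀ h : ℕ, 1 ≤ h →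
    ∀ α : ℂ, |α.re| ≤ 1/16 →
    ‖(T : ℂ)⁻¹ * (∫ y in Ioi Y, A23_F χ T h α (((2 : ℝ) : ℂ) + y * I)) - (if h = 1 then 1 else 0)‖ ≤ C / T := by
  set S : ℝ := ∑' n : ℕ, ((n : ℝ) + 1) ^ (-(31/16) : ℝ) with hS
  have hSs : Summable (fun n : ℕ => ((n : ℝ) + 1) ^ (-(31/16) : ℝ)) := A23_sum _ (by norm_num)
  have hS0 : 0 ≤ S := tsum_nonneg (fun n => by positivity)
  set K : ℝ := 1 / Real.log 2 + (3 + 2 * Y) with hK
  have hl2 : 0 < Real.log 2 := Real.log_pos (by norm_num)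
  have hK0 : 0 < K := by positivity
  refine ⟨K * S + 1, by positivity, ?_⟩
  intro T hT h hh α hα
  have hT0 : 0 < T := by linarith
  have hα' := abs_le.mp hα
  set c := A23_c χ T h α with hc
  set b := A23_b T h with hb
  have hbre : ∀ n, (b n).re = -(1 / T) := by
    intro n
    rw [hb]
    unfold A23_b
    simp
  have hbim : ∀ n, (b n).im = -Real.log (((n : ℝ) + 1) * h) := by
    intro n
    rw [hb]
    unfold A23_b
    rw [sub_im, neg_im, ofReal_im, im_ofReal_mul, I_im]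
    ring
  have hbneg : ∀ n, (b n).re < 0 := by
    intro n
    rw [hbre]
    have : 0 < 1 / T := by positivity
    linarith
  have hb0 : ∀ n, b n ≠ 0 := by
    intro n h0
    have := hbneg n
    rw [h0] at this
    simp at this
  -- expand
  have hexp : ∀ y : ℝ, A23_F χ T h α (((2 : ℝ) : ℂ) + y * I) = ∑' n : ℕ, c n * exp (b n * y) := by
    intro y
    unfold A23_F
    have e0 : ((2 : ℝ) : ℂ) = 2 := by norm_num
    have hre : 1 < ((2 : ℂ) + y * I + α).re := by simp; linarith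
    have hL : LX.Lf χ ((2 : ℂ) + y * I + α) = ∑' n : ℕ, χ ((n + 1 : ℕ) : ZMod N) *
        ((n : ℂ) + 1) ^ (-((2 : ℂ) + y * I + α)) :=
      ((per_basic (N := N)).1 χ _ hre).tsum_eq.symm
    rw [e0, hL, mul_assoc, ← tsum_mul_right]
    refine tsum_congr (fun n => ?_)
    have h9 := A23_term (T := T) hh α n y
    rw [hc, hb]
    unfold A23_c
    rw [mul_assoc (χ ((n + 1 : ℕ) : ZMod N)), mul_assoc (χ ((n + 1 : ℕ) : ZMod N)), ← h9]
    ring
  set J : ℝ := ∫ y in Ioi Y, Real.exp (-(1 / T) * y) with hJ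
  have hint : ∀ n : ℕ, Integrable (fun y : ℝ => c n * exp (b n * y)) (volume.restrict (Ioi Y)) := fun n =>
    (integrableOn_exp_mul_complex_Ioi (hbneg n) Y).const_mul _
  have hnorm : ∀ n : ℕ, ∫ y in Ioi Y, ‖c n * exp (b n * y)‖ = ‖c n‖ * J := by
    intro n
    rw [hJ, ← integral_const_mul]
    refine integral_congr_ae (Eventually.of_forall (fun y => ?_))
    simp only
    rw [norm_mul, norm_exp, re_mul_ofReal, hbre]
  have hcs : Summable (fun n : ℕ => ‖c n‖) :=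
    Summable.of_nonneg_of_le (fun n => norm_nonneg _) (fun n => A23_cnorm χ hh hα n) hSs
  have hsum : Summable (fun n : ℕ => ∫ y in Ioi Y, ‖c n * exp (b n * y)‖) := by
    simp_rw [hnorm]
    exact hcs.mul_right _
  have key := hasSum_integral_of_summable_integral_norm hint hsum
  have hval : ∀ n : ℕ, ∫ y in Ioi Y, c n * exp (b n * y) = c n * (-exp (b n * Y) / b n) := by
    intro n
    rw [integral_const_mul, integral_exp_mul_complex_Ioi (hbneg n)]
  simp_rw [hval] at key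
  have hI : (∫ y in Ioi Y, A23_F χ T h α (((2 : ℝ) : ℂ) + y * I)) = ∫ y in Ioi Y, ∑' n : ℕ, c n * exp (b n * y) :=
    integral_congr_ae (Eventually.of_forall hexp)
  rw [hI]
  have key2 := key.mul_left ((T : ℂ)⁻¹)
  set a : ℂ := if h = 1 then 1 else 0 with ha
  have hδ : HasSum (fun n : ℕ => if n = 0 then a else 0) a := hasSum_ite_eq 0 a
  have key3 := key2.sub hδ
  rw [← key3.tsum_eq]
  have hterm : ∀ n : ℕ, ‖(T : ℂ)⁻¹ * (c n * (-exp (b n * Y) / b n)) - (if n = 0 then a else 0)‖ ≤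
      K / T * ((n : ℝ) + 1) ^ (-(31/16) : ℝ) := by
    intro n
    have hen : ‖exp (b n * Y)‖ ≤ 1 := by
      rw [norm_exp, re_mul_ofReal]
      exact Real.exp_le_one_iff.mpr (mul_nonpos_of_nonpos_of_nonneg (hbneg n).le hY)
    by_cases hn : n = 0 ∧ h = 1
    · obtain ⟨rfl, rfl⟩ := hn
      have ec : c 0 = exp (3 / 2 * I / T) := by
        rw [hc]
        unfold A23_c A23_c0
        simp
      have eb : b 0 = -((1 / T : ℝ) : ℂ) := by
        rw [hb]
        unfold A23_b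
        simp
      have ea : a = 1 := by rw [ha]; simp
      have hT1 : (T : ℂ) ≠ 0 := ofReal_ne_zero.mpr hT0.ne'
      have e1 : (T : ℂ)⁻¹ * (c 0 * (-exp (b 0 * Y) / b 0)) = exp ((3 / 2 * I - Y) / T) := by
        rw [ec, eb]
        have : (3 / 2 * I - Y : ℂ) / T = 3 / 2 * I / T + -((1 / T : ℝ) : ℂ) * Y := by
          push_cast; ring
        rw [this, exp_add]
        push_cast
        field_simp
      rw [e1]
      simp only [if_true]
      rw [ea]
      have hz : ‖(3 / 2 * I - Y : ℂ) / T‖ ≤ (3 / 2 + Y) / T := by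
        rw [norm_div, norm_real, Real.norm_eq_abs, abs_of_pos hT0]
        refine div_le_div_of_nonneg_right ?_ hT0.le
        refine (norm_sub_le _ _).trans ?_
        rw [norm_real, Real.norm_eq_abs, abs_of_nonneg hY]
        have : ‖(3 / 2 * I : ℂ)‖ = 3 / 2 := by
          rw [norm_mul, norm_I, mul_one]
          norm_num
        rw [this]
      have hz1 : ‖(3 / 2 * I - Y : ℂ) / T‖ ≤ 1 := by
        refine hz.trans ?_
        rw [div_le_one hT0]
        linarith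
      refine (norm_exp_sub_one_le hz1).trans ?_
      have e5 : (((0:ℕ) : ℝ) + 1) ^ (-(31/16) : ℝ) = 1 := by simp
      rw [e5, mul_one]
      calc 2 * ‖(3 / 2 * I - Y : ℂ) / T‖ ≤ 2 * ((3 / 2 + Y) / T) := by linarith
        _ = (3 + 2 * Y) / T := by ring
        _ ≤ K / T := by
          refine div_le_div_of_nonneg_right ?_ hT0.le
          rw [hK]
          have : 0 < 1 / Real.log 2 := by positivity
          linarith
    · have h0 : (if n = 0 then a else 0) = (0 : ℂ) := by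
        by_cases h1 : n = 0
        · have h2 : h ≠ 1 := fun h2 => hn ⟨h1, h2⟩
          rw [if_pos h1, ha, if_neg h2]
        · rw [if_neg h1]
      rw [h0, sub_zero, norm_mul, norm_mul, norm_div, norm_neg, norm_inv, norm_real, Real.norm_eq_abs,
        abs_of_pos hT0]
      have h2 : (2 : ℝ) ≤ ((n : ℝ) + 1) * h := by
        have h3 : 2 ≤ (n + 1) * h := by
          rcases Nat.eq_zero_or_pos n with h4 | h4
          · have : h ≠ 1 := fun h2 => hn ⟨h4, h2⟩
            rw [h4]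
            omega
          · nlinarith
        exact_mod_cast h3
      have hlog : Real.log 2 ≤ ‖b n‖ := by
        calc Real.log 2 ≤ Real.log (((n : ℝ) + 1) * h) := Real.log_le_log (by norm_num) h2
          _ ≤ |Real.log (((n : ℝ) + 1) * h)| := le_abs_self _
          _ = |(b n).im| := by rw [hbim, abs_neg]
          _ ≤ _ := abs_im_le_norm _
      have h4 : ‖exp (b n * Y)‖ / ‖b n‖ ≤ 1 / Real.log 2 := by
        exact div_le_div₀ zero_le_one hen hl2 hlog
      have h5 : ‖c n‖ ≤ ((n : ℝ) + 1) ^ (-(31/16) : ℝ) := A23_cnorm χ hh hα n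
      have h6 : 1 / Real.log 2 ≤ K := by
        rw [hK]; linarith
      calc T⁻¹ * (‖c n‖ * (‖exp (b n * Y)‖ / ‖b n‖)) ≤
          T⁻¹ * (((n : ℝ) + 1) ^ (-(31/16) : ℝ) * K) := by
            refine mul_le_mul_of_nonneg_left ?_ (by positivity)
            exact mul_le_mul h5 (h4.trans h6) (by positivity) (by positivity)
        _ = _ := by ring
  have hsr : Summable (fun n : ℕ => K / T * ((n : ℝ) + 1) ^ (-(31/16) : ℝ)) := hSs.mul_left _
  calc _ ≤ ∑' n : ℕ, K / T * ((n : ℝ) + 1) ^ (-(31/16) : ℝ) := by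
        refine tsum_of_norm_bounded hsr.hasSum hterm
    _ = K * S / T := by rw [tsum_mul_left, hS]; ring
    _ ≤ (K * S + 1) / T := by
      refine div_le_div_of_nonneg_right ?_ hT0.le
      linarith

/-- first moment; adapt LZ.A23 (first_mom); chi = 1 allowed (pole at s = 1, at height 0 only). -/
theorem first_mom (χ : DirichletCharacter ℂ N) (U : ℝ) (hU : 0 ≤ U) : ∃ C T0 : ℝ, 0 < C ∧ 2 ≤ T0 ∧
    ∀ T : ℝ, T0 ≤ T → ∀ h : ℕ, 1 ≤ h → ∀ α : ℂ, |α.re| ≤ 1/16 → |α.im| ≤ U →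
    ‖EE T (fun t => LX.Lf χ (1/2 + α + t * I) * (h : ℂ) ^ (-(t * I))) - (if h = 1 then 1 else 0)‖ ≤ C / T := by
  obtain ⟨Cz, hCz, hz⟩ := per_pol (N := N) χ
  set Y : ℝ := U + 2 with hYd
  have hY : 0 ≤ Y := by linarith
  obtain ⟨Ct, hCt, htail⟩ := A23_tail χ Y hY
  set C1 : ℝ := Cz * (1 + U) with hC1
  have hC10 : 0 < C1 := by positivity
  refine ⟨C1 * (1 + Y) * Y + 3 / 2 * (C1 * (1 + Y)) + Ct, Y + 4, by positivity, by linarith, ?_⟩
  intro T hT h hh α hα hαi
  have hT0 : 0 < T := by linarith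
  have hα' := abs_le.mp hα
  have hαi' := abs_le.mp hαi
  -- bounds
  have hb : ∀ s : ℂ, 1/2 ≤ s.re → 1/4 ≤ ‖s + α - 1‖ → ‖A23_F χ T h α s‖ ≤
      C1 * (1 + |s.im|) * Real.exp (-(1 / T * s.im)) := by
    intro s hs hs1
    refine (A23_norm χ hh α hs).trans ?_
    refine mul_le_mul_of_nonneg_right ?_ (Real.exp_pos _).le
    refine (hz (s + α) (by rw [add_re]; linarith) hs1).trans ?_
    have h1 : |(s + α).im| ≤ |s.im| + U := by
      rw [add_im]
      exact (abs_add_le _ _).trans (by linarith)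
    have h2 : (1 + |(s + α).im|) ≤ (1 + U) * (1 + |s.im|) := by
      nlinarith [abs_nonneg s.im, mul_nonneg hU (abs_nonneg s.im)]
    calc Cz * (1 + |(s + α).im|) ≤ Cz * ((1 + U) * (1 + |s.im|)) := by gcongr
      _ = _ := by rw [hC1]; ring
  have hne1 : ∀ t : ℝ, 1/4 ≤ ‖(((1/2 : ℝ) : ℂ) + t * I) + α - 1‖ := by
    intro t
    have e : ((((1/2 : ℝ) : ℂ) + t * I) + α - 1).re = α.re - 1/2 := by simp; ring
    have := abs_re_le_norm ((((1/2 : ℝ) : ℂ) + t * I) + α - 1)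
    rw [e] at this
    refine le_trans ?_ this
    rw [abs_of_neg (by linarith)]
    linarith
  have hneY : ∀ s : ℂ, Y ≤ s.im → 1/4 ≤ ‖s + α - 1‖ := by
    intro s hs
    have := abs_im_le_norm (s + α - 1)
    refine le_trans ?_ this
    have e : (s + α - 1).im = s.im + α.im := by simp
    rw [e, abs_of_pos (by linarith)]
    linarith
  -- the line Re = 1/2
  set f : ℝ → ℂ := fun t => A23_F χ T h α (((1/2 : ℝ) : ℂ) + t * I) with hf
  have hfb : ∀ t : ℝ, 0 ≤ t → ‖f t‖ ≤ C1 * (1 + t) * Real.exp (-(1 / T * t)) := by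
    intro t ht
    have h1 := hb (((1/2 : ℝ) : ℂ) + t * I) (by simp) (hne1 t)
    have e : ((((1/2 : ℝ) : ℂ) + t * I)).im = t := by simp
    rw [e, abs_of_nonneg ht] at h1
    exact h1
  have hfc : Continuous f := by
    rw [continuous_iff_continuousAt]
    intro t
    have hne : (((1/2 : ℝ) : ℂ) + t * I) + α ≠ 1 := by
      intro h0
      have := hne1 t
      rw [h0, sub_self, norm_zero] at this
      linarith
    have h1 := (A23_diff χ T hh α hne).continuousAt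
    have h2 : ContinuousAt (fun t : ℝ => ((1/2 : ℝ) : ℂ) + (t : ℂ) * I) t := by fun_prop
    exact ContinuousAt.comp (f := fun t : ℝ => ((1/2 : ℝ) : ℂ) + (t : ℂ) * I) h1 h2
  have hfi : IntegrableOn f (Ioi 0) := by
    have hg : IntegrableOn (fun t : ℝ => C1 * (1 + 2 * T) * Real.exp (-(1 / (2 * T)) * t)) (Ioi 0) := by
      have h9 := (exp_neg_integrableOn_Ioi (b := 1 / (2 * T)) 0 (by positivity)).const_mul
        (C1 * (1 + 2 * T))
      exact h9
    refine Integrable.mono' hg hfc.aestronglyMeasurable ?_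
    refine (ae_restrict_mem measurableSet_Ioi).mono (fun t ht => ?_)
    have ht0 : 0 ≤ t := le_of_lt ht
    refine (hfb t ht0).trans ?_
    have e1 : Real.exp (-(1 / T * t)) = Real.exp (-(1 / (2 * T)) * t) * Real.exp (-(1 / (2 * T)) * t) := by
      rw [← Real.exp_add]
      congr 1
      field_simp
      ring
    have e2 : (1 + t) * Real.exp (-(1 / (2 * T)) * t) ≤ 1 + 2 * T := by
      have h3 : 1 / (2 * T) * t ≤ Real.exp (1 / (2 * T) * t) := by
        have := Real.add_one_le_exp (1 / (2 * T) * t)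
        linarith
      have h4 : Real.exp (-(1 / (2 * T)) * t) * Real.exp (1 / (2 * T) * t) = 1 := by
        rw [← Real.exp_add]
        simp
      have h5 : Real.exp (-(1 / (2 * T)) * t) ≤ 1 := by
        rw [Real.exp_le_one_iff]
        have : 0 ≤ 1 / (2 * T) * t := by positivity
        linarith
      have h6 : t = 2 * T * (1 / (2 * T) * t) := by field_simp
      have h7 : t * Real.exp (-(1 / (2 * T)) * t) ≤ 2 * T := by
        calc t * Real.exp (-(1 / (2 * T)) * t) = 2 * T * (1 / (2 * T) * t) * Real.exp (-(1 / (2 * T)) * t) := by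
              rw [← h6]
          _ ≤ 2 * T * Real.exp (1 / (2 * T) * t) * Real.exp (-(1 / (2 * T)) * t) := by gcongr
          _ = 2 * T * (Real.exp (-(1 / (2 * T)) * t) * Real.exp (1 / (2 * T) * t)) := by ring
          _ = 2 * T := by rw [h4, mul_one]
      linarith
    rw [e1]
    calc C1 * (1 + t) * (Real.exp (-(1 / (2 * T)) * t) * Real.exp (-(1 / (2 * T)) * t)) =
        C1 * ((1 + t) * Real.exp (-(1 / (2 * T)) * t)) * Real.exp (-(1 / (2 * T)) * t) := by ring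
      _ ≤ C1 * (1 + 2 * T) * Real.exp (-(1 / (2 * T)) * t) := by gcongr
  have hEE : EE T (fun t => LX.Lf χ (1/2 + α + t * I) * (h : ℂ) ^ (-(t * I))) =
      (T : ℂ)⁻¹ * ∫ t in Ioi (0:ℝ), f t := by
    unfold EE
    congr 1
    refine integral_congr_ae (Eventually.of_forall (fun t => ?_))
    exact (A23_line χ T h α t).symm
  have hsplit : ∫ t in Ioi (0:ℝ), f t = (∫ t in Ioc 0 Y, f t) + ∫ t in Ioi Y, f t := by
    rw [← Ioc_union_Ioi_eq_Ioi hY]
    exact setIntegral_union (Ioc_disjoint_Ioi le_rfl) measurableSet_Ioi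
      (hfi.mono_set Ioc_subset_Ioi_self) (hfi.mono_set (Ioi_subset_Ioi hY))
  have hlow : ‖∫ t in Ioc 0 Y, f t‖ ≤ C1 * (1 + Y) * Y := by
    have h1 : ∀ t ∈ Ioc 0 Y, ‖f t‖ ≤ C1 * (1 + Y) := by
      intro t ht
      refine (hfb t ht.1.le).trans ?_
      have h2 : Real.exp (-(1 / T * t)) ≤ 1 := by
        rw [Real.exp_le_one_iff]
        have : 0 ≤ 1 / T * t := mul_nonneg (by positivity) ht.1.le
        linarith
      calc C1 * (1 + t) * Real.exp (-(1 / T * t)) ≤ C1 * (1 + t) * 1 :=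
            mul_le_mul_of_nonneg_left h2 (mul_nonneg hC10.le (by linarith [ht.1]))
        _ ≤ C1 * (1 + Y) := by
            rw [mul_one]
            exact mul_le_mul_of_nonneg_left (by linarith [ht.2]) hC10.le
    refine (norm_setIntegral_le_of_norm_le_const (by simp) h1).trans ?_
    rw [Real.volume_real_Ioc_of_le hY, sub_zero]
  have hD : ∀ x ∈ Icc (1/2 : ℝ) 2, ‖A23_F χ T h α (x + Y * I)‖ ≤ C1 * (1 + Y) := by
    intro x hx
    have e1 : ((x : ℂ) + Y * I).im = Y := by simp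
    have e2 : ((x : ℂ) + Y * I).re = x := by simp
    have h1 := hb (x + Y * I) (by rw [e2]; exact hx.1) (hneY _ (by rw [e1]))
    rw [e1, abs_of_nonneg hY] at h1
    refine h1.trans ?_
    have h2 : Real.exp (-(1 / T * Y)) ≤ 1 := by
      rw [Real.exp_le_one_iff]
      have : 0 ≤ 1 / T * Y := by positivity
      linarith
    calc C1 * (1 + Y) * Real.exp (-(1 / T * Y)) ≤ C1 * (1 + Y) * 1 :=
          mul_le_mul_of_nonneg_left h2 (by positivity)
      _ = _ := mul_one _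
  have hshift := LZ.half_shift (a := 1/2) (b := 2) (Y := Y) (by norm_num) (F := A23_F χ T h α)
    (fun s _ _ hs => A23_diff χ T hh α (fun h0 => by
      have := hneY s hs
      rw [h0, sub_self, norm_zero] at this
      linarith)) (C := C1) (ε := 1 / T) (by positivity)
    (fun s hs1 _ hs3 => by
      refine (hb s hs1 (hneY s hs3)).trans ?_
      refine mul_le_mul_of_nonneg_right ?_ (Real.exp_pos _).le
      refine mul_le_mul_of_nonneg_left ?_ hC10.le
      exact le_self_pow₀ (by linarith [abs_nonneg s.im]) (by norm_num)) hD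
  have ht := htail T hT h hh α hα
  rw [hEE, hsplit]
  have hrew : (T : ℂ)⁻¹ * ((∫ t in Ioc 0 Y, f t) + ∫ t in Ioi Y, f t) - (if h = 1 then 1 else 0) =
      (T : ℂ)⁻¹ * (∫ t in Ioc 0 Y, f t) +
      (T : ℂ)⁻¹ * ((∫ t in Ioi Y, f t) - ∫ y in Ioi Y, A23_F χ T h α (((2 : ℝ) : ℂ) + y * I)) +
      ((T : ℂ)⁻¹ * (∫ y in Ioi Y, A23_F χ T h α (((2 : ℝ) : ℂ) + y * I)) - (if h = 1 then 1 else 0)) := by
    ring
  rw [hrew]
  have hTn : ‖(T : ℂ)⁻¹‖ = 1 / T := by
    rw [norm_inv, norm_real, Real.norm_eq_abs, abs_of_pos hT0, one_div]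
  have n1 : ‖(T : ℂ)⁻¹ * (∫ t in Ioc 0 Y, f t)‖ ≤ C1 * (1 + Y) * Y / T := by
    rw [norm_mul, hTn]
    calc 1 / T * ‖∫ t in Ioc 0 Y, f t‖ ≤ 1 / T * (C1 * (1 + Y) * Y) := by gcongr
      _ = _ := by ring
  have n2 : ‖(T : ℂ)⁻¹ * ((∫ t in Ioi Y, f t) - ∫ y in Ioi Y, A23_F χ T h α (((2 : ℝ) : ℂ) + y * I))‖ ≤
      3 / 2 * (C1 * (1 + Y)) / T := by
    rw [norm_mul, hTn]
    calc _ ≤ 1 / T * ((2 - 1/2) * (C1 * (1 + Y))) := by gcongr
      _ = _ := by ring
  calc _ ≤ C1 * (1 + Y) * Y / T + 3 / 2 * (C1 * (1 + Y)) / T + Ct / T :=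
        (norm_add_le _ _).trans (add_le_add ((norm_add_le _ _).trans (add_le_add n1 n2)) ht)
    _ = _ := by ring

end LP

end F_Y_A23
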