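import Pool.Agent.Lib.MP_0f5a55_nt.V.V11
import Pool.Agent.Lib.MP_0f5a55_nt.V.V54
import Pool.Agent.Lib.MP_0f5a55_nt.V.V59

section F_Y_C11

open Complex MeasureTheory Set Filter Topology
open scoped ComplexConjugate

namespace LP

open LZ (kk nS cf EE ER PP wt Sep)

variable {N : ℕ} [NeZero N]

private lemma C11_intg (χ : DirichletCharacter ℂ N) {T : ℝ} (hT : 2 ≤ T) {Cz : ℝ} (hCz : 0 < Cz)
    (hz : ∀ s : ℂ, 5/16 ≤ s.re → 1/4 ≤ ‖s - 1‖ → ‖LX.Lf χ s‖ ≤ Cz * (1 + |s.im|))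
    (u σ : ℝ) (hσ : |σ| ≤ 1/16) (n : ℕ) (hn : 1 ≤ n) :
    IntegrableOn (fun t : ℝ => (LX.Lf χ (1/2 + ((σ : ℂ) + u * I) + t * I) * (n : ℂ) ^ (-(t * I)))
      * (Real.exp (-t / T) : ℂ)) (Ioi 0) := by
  have hTpos : 0 < T := by linarith
  have hσ' := abs_le.1 hσ
  have hre : ∀ t : ℝ, (1/2 + ((σ : ℂ) + u * I) + t * I).re = 1/2 + σ := by
    intro t; simp
  have him : ∀ t : ℝ, (1/2 + ((σ : ℂ) + u * I) + t * I).im = u + t := by
    intro t; simp
  have hne : ∀ t : ℝ, (1/2 + ((σ : ℂ) + u * I) + t * I) ≠ 1 := by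
    intro t h
    have := congrArg Complex.re h
    rw [hre t, one_re] at this
    linarith [hσ'.2]
  have hn0 : (n : ℂ) ≠ 0 := by
    have : n ≠ 0 := by omega
    exact_mod_cast this
  have hcont : Continuous (fun t : ℝ => (LX.Lf χ (1/2 + ((σ : ℂ) + u * I) + t * I) *
      (n : ℂ) ^ (-(t * I))) * (Real.exp (-t / T) : ℂ)) := by
    apply Continuous.mul
    · apply Continuous.mul
      · rw [continuous_iff_continuousAt]
        intro t
        have h1 : ContinuousAt (LX.Lf χ) (1/2 + ((σ : ℂ) + u * I) + t * I) :=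
          (DirichletCharacter.differentiableAt_LFunction χ _ (Or.inl (hne t))).continuousAt
        exact ContinuousAt.comp (f := fun t : ℝ => (1/2 + ((σ : ℂ) + u * I) + t * I)) h1
          (by fun_prop)
      · apply Continuous.const_cpow (by fun_prop) (Or.inl hn0)
    · fun_prop
  have hg : IntegrableOn (fun t : ℝ => (Cz * (1 + |u| + 2 * T)) * Real.exp (-(1 / (2 * T)) * t))
      (Ioi 0) := (exp_neg_integrableOn_Ioi 0 (by positivity)).const_mul _
  refine Integrable.mono' hg hcont.aestronglyMeasurable ?_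
  filter_upwards [ae_restrict_mem measurableSet_Ioi] with t ht
  have ht0 : (0 : ℝ) < t := ht
  have h1 : ‖LX.Lf χ (1/2 + ((σ : ℂ) + u * I) + t * I)‖ ≤ Cz * (1 + |u| + t) := by
    have h2 := hz (1/2 + ((σ : ℂ) + u * I) + t * I) (by rw [hre t]; linarith [hσ'.1]) (by
      have h3 := Complex.abs_re_le_norm ((1/2 + ((σ : ℂ) + u * I) + t * I) - 1)
      rw [sub_re, hre t, one_re] at h3
      have h4 : 1/4 ≤ |1/2 + σ - 1| := by
        rw [abs_of_nonpos (by linarith [hσ'.2])]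
        linarith [hσ'.2]
      linarith)
    refine h2.trans ?_
    rw [him t]
    have h5 : |u + t| ≤ |u| + t := by
      refine (abs_add_le u t).trans ?_
      rw [abs_of_pos ht0]
    have := mul_le_mul_of_nonneg_left (add_le_add_right h5 1) hCz.le
    linarith
  have h2 : ‖(n : ℂ) ^ (-((t : ℂ) * I))‖ = 1 := by
    rw [Complex.norm_natCast_cpow_of_pos (by omega)]
    simp
  have h3 : ‖((Real.exp (-t / T) : ℝ) : ℂ)‖ = Real.exp (-t / T) := by
    rw [Complex.norm_real, Real.norm_eq_abs, abs_of_pos (Real.exp_pos _)]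
  rw [norm_mul, norm_mul, h2, h3, mul_one]
  have hx : 0 < 1 / (2 * T) * t := by positivity
  have h6 : 1 + |u| + t ≤ (1 + |u| + 2 * T) * Real.exp (1 / (2 * T) * t) := by
    have e1 : 1 ≤ Real.exp (1 / (2 * T) * t) := Real.one_le_exp hx.le
    have e2 : 1 / (2 * T) * t ≤ Real.exp (1 / (2 * T) * t) := by
      linarith [Real.add_one_le_exp (1 / (2 * T) * t)]
    have e3 : t = 2 * T * (1 / (2 * T) * t) := by field_simp
    have e4 : 2 * T * (1 / (2 * T) * t) ≤ 2 * T * Real.exp (1 / (2 * T) * t) :=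
      mul_le_mul_of_nonneg_left e2 (by positivity)
    have e5 : (1 + |u|) * 1 ≤ (1 + |u|) * Real.exp (1 / (2 * T) * t) :=
      mul_le_mul_of_nonneg_left e1 (by positivity)
    linarith
  have h7 : Real.exp (-t / T) = Real.exp (-(1 / (2 * T)) * t) * Real.exp (-(1 / (2 * T)) * t) := by
    rw [← Real.exp_add]
    congr 1
    field_simp
    ring
  have h8 : Real.exp (1 / (2 * T) * t) * Real.exp (-(1 / (2 * T)) * t) = 1 := by
    rw [← Real.exp_add]
    simp
  calc ‖LX.Lf χ (1/2 + ((σ : ℂ) + u * I) + t * I)‖ * Real.exp (-t / T)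
      ≤ (Cz * (1 + |u| + t)) * Real.exp (-t / T) := by gcongr
    _ ≤ (Cz * ((1 + |u| + 2 * T) * Real.exp (1 / (2 * T) * t))) * Real.exp (-t / T) := by gcongr
    _ = (Cz * (1 + |u| + 2 * T)) * (Real.exp (1 / (2 * T) * t) *
          Real.exp (-(1 / (2 * T)) * t)) * Real.exp (-(1 / (2 * T)) * t) := by
        rw [h7]; ring
    _ = (Cz * (1 + |u| + 2 * T)) * Real.exp (-(1 / (2 * T)) * t) := by
        rw [h8, mul_one]

private lemma C11_nS_pos {z : ℕ} {S : Finset ℕ} (hS : S ∈ (PP z).powerset) : 1 ≤ nS S := by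
  have h : 0 < nS S := by
    unfold nS
    apply Finset.prod_pos
    intro p hp
    have := Finset.mem_powerset.1 hS hp
    exact (Finset.mem_filter.1 this).2.pos
  omega

private lemma C11_nS_one {z : ℕ} {S : Finset ℕ} (hS : S ∈ (PP z).powerset) (h : nS S = 1) :
    S = ∅ := by
  by_contra hne
  obtain ⟨p, hp⟩ := Finset.nonempty_iff_ne_empty.2 hne
  have h1 : p ∣ nS S := Finset.dvd_prod_of_mem (fun p => p) hp
  rw [h] at h1
  have h2 := (Finset.mem_filter.1 (Finset.mem_powerset.1 hS hp)).2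
  exact h2.one_lt.ne' (Nat.dvd_one.1 h1)

/-- first moment; adapt LZ.M11 (F_first). -/
theorem F_first (χ : DirichletCharacter ℂ N) (u : ℝ) : ∀ δ : ℝ, 0 < δ → ∃ T0 : ℝ, 2 ≤ T0 ∧ ∀ T : ℝ, T0 ≤ T → ∀ l : ℝ,
    0 < l → l ≤ Real.log T / 1000 → ∀ σ : ℝ, |σ| ≤ 1 / Real.log T →
    ‖EE T (fun t => LX.FF χ l (1/2 + σ + (t + u) * I)) - 1‖ ≤ δ := by
  intro δ hδ
  obtain ⟨C, T1, hC, hT1, hfm⟩ := first_mom χ |u| (abs_nonneg u)
  obtain ⟨Cz, hCz, hz⟩ := per_pol (N := N) (fun a => χ a)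
  refine ⟨max (max T1 (Real.exp 16)) ((C / δ) ^ 2), hT1.trans ((le_max_left _ _).trans
    (le_max_left _ _)), ?_⟩
  intro T hT l hl hlT σ hσ
  have hTT1 : T1 ≤ T := ((le_max_left _ _).trans (le_max_left _ _)).trans hT
  have hTe : Real.exp 16 ≤ T := ((le_max_right _ _).trans (le_max_left _ _)).trans hT
  have hTC : (C / δ) ^ 2 ≤ T := (le_max_right _ _).trans hT
  have hT2 : 2 ≤ T := hT1.trans hTT1
  have hTpos : 0 < T := by linarith
  have hlog : 16 ≤ Real.log T := by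
    rw [← Real.log_exp 16]
    exact Real.log_le_log (Real.exp_pos _) hTe
  have hσ16 : |σ| ≤ 1/16 := hσ.trans (one_div_le_one_div_of_le (by norm_num) hlog)
  have hσ' := abs_le.1 hσ16
  set P := (LX.PQ N ⌊Real.exp l⌋₊).powerset with hP
  set α : ℂ := (σ : ℂ) + u * I with hα
  set a : Finset ℕ → ℂ := fun S => (cf 1 l S : ℂ) * χ (nS S) * (nS S : ℂ) ^ (-(1/2 + α)) with ha
  set h : Finset ℕ → ℝ → ℂ := fun S t =>
    LX.Lf χ (1/2 + α + t * I) * (nS S : ℂ) ^ (-(t * I)) with hh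
  have hpt : (fun t : ℝ => LX.FF χ l (1/2 + σ + (t + u) * I)) = fun t => ∑ S ∈ P, a S * h S t := by
    funext t
    have e1 : (1/2 + (σ : ℂ) + ((t : ℂ) + u) * I) = 1/2 + α + t * I := by
      rw [hα]; ring
    rw [e1]
    unfold LX.FF LX.Mol
    rw [Finset.mul_sum]
    apply Finset.sum_congr rfl
    intro S hS
    have hn : (nS S : ℂ) ≠ 0 := by
      have := C11_nS_pos (LX.PQ_pow_sub N _ hS)
      have h0 : nS S ≠ 0 := by omega
      exact_mod_cast h0
    have e2 : (nS S : ℂ) ^ (-(1/2 + α + t * I)) =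
        (nS S : ℂ) ^ (-(1/2 + α)) * (nS S : ℂ) ^ (-(t * I)) := by
      rw [← Complex.cpow_add _ _ hn]
      congr 1
      ring
    rw [e2, ha, hh]
    ring
  have hintg : ∀ S ∈ P, IntegrableOn (fun t : ℝ => h S t * (Real.exp (-t / T) : ℂ)) (Ioi 0) := by
    intro S hS
    exact C11_intg χ hT2 hCz hz u σ hσ16 (nS S) (C11_nS_pos (LX.PQ_pow_sub N _ hS))
  have hEE : EE T (fun t : ℝ => LX.FF χ l (1/2 + σ + (t + u) * I)) = ∑ S ∈ P, a S * EE T (h S) := by
    rw [hpt]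
    unfold EE
    have e1 : ∀ t : ℝ, (∑ S ∈ P, a S * h S t) * (Real.exp (-t / T) : ℂ) =
        ∑ S ∈ P, a S * (h S t * (Real.exp (-t / T) : ℂ)) := by
      intro t
      rw [Finset.sum_mul]
      apply Finset.sum_congr rfl
      intro S _
      ring
    simp_rw [e1]
    rw [integral_finsetSum _ (fun S hS => (hintg S hS).const_mul (a S)), Finset.mul_sum]
    apply Finset.sum_congr rfl
    intro S _
    rw [integral_const_mul]
    ring
  have hmain : ∑ S ∈ P, a S * (if nS S = 1 then (1 : ℂ) else 0) = 1 := by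
    rw [Finset.sum_eq_single ∅]
    · have h1 : nS ∅ = 1 := by simp [nS]
      rw [if_pos h1, ha]
      simp [cf, wt, h1]
    · intro S hS hne
      rw [if_neg (fun h1 => hne (C11_nS_one (LX.PQ_pow_sub N _ hS) h1)), mul_zero]
    · intro hnot
      exact absurd (Finset.empty_mem_powerset _) hnot
  have hanorm : ∀ S ∈ P, ‖a S‖ ≤ |cf 1 l S| := by
    intro S hS
    have hn1 := C11_nS_pos (LX.PQ_pow_sub N _ hS)
    have hn1p : 0 < nS S := by omega
    rw [ha]
    simp only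
    rw [norm_mul, norm_mul, Complex.norm_real, Real.norm_eq_abs, Complex.norm_natCast_cpow_of_pos hn1p]
    have h1 : (-(1/2 + α)).re = -(1/2 + σ) := by
      rw [hα]; simp
    rw [h1]
    have h2 : ((nS S : ℕ) : ℝ) ^ (-(1/2 + σ)) ≤ 1 := by
      apply Real.rpow_le_one_of_one_le_of_nonpos
      · exact_mod_cast hn1
      · linarith [hσ'.1]
    have h3 : ‖χ ((nS S : ℕ) : ZMod N)‖ ≤ 1 := LX.norm_char_le χ _
    have h4 : 0 ≤ |cf 1 l S| := abs_nonneg _
    calc |cf 1 l S| * ‖χ ((nS S : ℕ) : ZMod N)‖ * ((nS S : ℕ) : ℝ) ^ (-(1/2 + σ)) ≤ |cf 1 l S| * 1 * 1 := by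
          gcongr
      _ = |cf 1 l S| := by ring
  have hcf := (LX.cf_sum (q := N) 1 l (by norm_num) le_rfl hl ⌊Real.exp l⌋₊).2.2
  have hdiff : EE T (fun t : ℝ => LX.FF χ l (1/2 + σ + (t + u) * I)) - 1 =
      ∑ S ∈ P, a S * (EE T (h S) - (if nS S = 1 then (1 : ℂ) else 0)) := by
    have e0 : ∑ S ∈ P, a S * (EE T (h S) - (if nS S = 1 then (1 : ℂ) else 0)) =
        ∑ S ∈ P, a S * EE T (h S) - ∑ S ∈ P, a S * (if nS S = 1 then (1 : ℂ) else 0) := by
      rw [← Finset.sum_sub_distrib]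
      exact Finset.sum_congr rfl (fun S _ => mul_sub _ _ _)
    rw [e0, hmain, hEE]
  rw [hdiff]
  refine (norm_sum_le _ _).trans ?_
  have hterm : ∀ S ∈ P, ‖a S * (EE T (h S) - (if nS S = 1 then (1 : ℂ) else 0))‖ ≤
      |cf 1 l S| * (C / T) := by
    intro S hS
    rw [norm_mul]
    have h1 := hfm T hTT1 (nS S) (C11_nS_pos (LX.PQ_pow_sub N _ hS)) α (by rw [hα]; simpa using hσ16)
      (by rw [hα]; simp)
    exact mul_le_mul (hanorm S hS) h1 (norm_nonneg _) (abs_nonneg _)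
  refine (Finset.sum_le_sum hterm).trans ?_
  rw [← Finset.sum_mul]
  refine (mul_le_mul_of_nonneg_right hcf (by positivity)).trans ?_
  have hexp : Real.exp l ≤ Real.sqrt T := by
    rw [Real.sqrt_eq_rpow, Real.rpow_def_of_pos hTpos]
    apply Real.exp_le_exp.2
    linarith
  have hsq : C / δ ≤ Real.sqrt T := Real.le_sqrt_of_sq_le hTC
  have hsqpos : 0 < Real.sqrt T := Real.sqrt_pos.2 hTpos
  have hTsq : T = Real.sqrt T * Real.sqrt T := (Real.mul_self_sqrt hTpos.le).symm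
  calc Real.exp l * (C / T) ≤ Real.sqrt T * (C / T) := by gcongr
    _ = C / Real.sqrt T := by
        rw [hTsq, Real.sqrt_mul_self hsqpos.le]
        field_simp
    _ ≤ δ := by
        rw [div_le_iff₀ hsqpos]
        rw [div_le_iff₀ hδ] at hsq
        linarith


end LP

end F_Y_C11
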