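import Pool.Agent.Lib.MP_0f5a55_nt.V.V18
import Pool.Agent.Lib.MP_0f5a55_nt.V.V22
import Pool.Agent.Lib.MP_0f5a55_nt.V.V54
import Pool.Agent.Lib.MP_0f5a55_nt.V.V57
import Pool.Agent.Lib.MP_0f5a55_nt.V.V58
import Pool.Agent.Lib.MP_0f5a55_nt.V.V60

section F_Y_G03

open Complex MeasureTheory Set Filter Topology
open scoped ComplexConjugate

namespace LP

open LZ (kk nS cf EE ER PP wt Sep)

/-! ### integrability -/

private theorem G03_exp (T : ℝ) (hT : 0 < T) (t : ℝ) (ht : 0 ≤ t) :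
    (1 + t) ^ 2 * Real.exp (-t / T) ≤ (4 * (1 + T)) ^ 2 * Real.exp (-(1 / (2 * T)) * t) := by
  have e1 : Real.exp (-t / T) = Real.exp (-(1 / (4 * T)) * t) ^ 2 * Real.exp (-(1 / (2 * T)) * t) := by
    rw [← Real.exp_nat_mul, ← Real.exp_add]
    congr 1
    push_cast
    field_simp
    ring
  have e2 : (1 + t) * Real.exp (-(1 / (4 * T)) * t) ≤ 4 * (1 + T) := by
    have h1 : 1 + t ≤ 4 * (1 + T) * Real.exp (1 / (4 * T) * t) := by
      have := Real.add_one_le_exp (1 / (4 * T) * t)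
      have h2 : 4 * (1 + T) * (1 / (4 * T) * t + 1) ≤ 4 * (1 + T) * Real.exp (1 / (4 * T) * t) := by
        gcongr
      have h3 : 4 * (1 + T) * (1 / (4 * T) * t + 1) = t / T + t + 4 * (1 + T) := by
        field_simp
      have h4 : 0 ≤ t / T := by positivity
      linarith
    calc (1 + t) * Real.exp (-(1 / (4 * T)) * t)
        ≤ (4 * (1 + T) * Real.exp (1 / (4 * T) * t)) * Real.exp (-(1 / (4 * T)) * t) := by
          gcongr
      _ = 4 * (1 + T) := by
          rw [mul_assoc, ← Real.exp_add]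
          have : 1 / (4 * T) * t + -(1 / (4 * T)) * t = 0 := by ring
          rw [this, Real.exp_zero, mul_one]
  calc (1 + t) ^ 2 * Real.exp (-t / T)
      = ((1 + t) * Real.exp (-(1 / (4 * T)) * t)) ^ 2 * Real.exp (-(1 / (2 * T)) * t) := by
        rw [e1]; ring
    _ ≤ _ := by
        have : 0 ≤ (1 + t) * Real.exp (-(1 / (4 * T)) * t) := by positivity
        gcongr

/-- integrability against the exponential weight -/
private def IE (T : ℝ) (f : ℝ → ℂ) : Prop :=
  IntegrableOn (fun t : ℝ => f t * (Real.exp (-t / T) : ℂ)) (Ioi 0)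

private theorem G03_IE (T : ℝ) (hT : 0 < T) (f : ℝ → ℂ) (hf : Continuous f) (K : ℝ)
    (hb : ∀ t : ℝ, ‖f t‖ ≤ K * (1 + |t|) ^ 2) : IE T f := by
  have hK : 0 ≤ K := by
    have := hb 0
    simp at this
    exact le_trans (norm_nonneg _) this
  unfold IE
  refine Integrable.mono' ((exp_neg_integrableOn_Ioi 0 (by positivity :
    (0 : ℝ) < 1 / (2 * T))).const_mul (K * (4 * (1 + T)) ^ 2)) ?_ ?_
  · exact (by fun_prop : Continuous (fun t : ℝ =>
      f t * (Real.exp (-t / T) : ℂ))).aestronglyMeasurable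
  · refine ae_restrict_of_forall_mem measurableSet_Ioi ?_
    intro t ht
    have ht' : (0 : ℝ) < t := ht
    rw [norm_mul, Complex.norm_real, Real.norm_eq_abs, abs_of_pos (Real.exp_pos _)]
    have h1 := hb t
    rw [abs_of_pos ht'] at h1
    calc ‖f t‖ * Real.exp (-t / T) ≤ (K * (1 + t) ^ 2) * Real.exp (-t / T) := by gcongr
      _ = K * ((1 + t) ^ 2 * Real.exp (-t / T)) := by ring
      _ ≤ K * ((4 * (1 + T)) ^ 2 * Real.exp (-(1 / (2 * T)) * t)) := by
          gcongr K * ?_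
          exact G03_exp T hT t ht'.le
      _ = _ := by ring

private theorem G03_EE_add (T : ℝ) (f g : ℝ → ℂ) (hf : IE T f) (hg : IE T g) :
    EE T (fun t => f t + g t) = EE T f + EE T g ∧ IE T (fun t => f t + g t) := by
  have e : (fun t : ℝ => (f t + g t) * (Real.exp (-t / T) : ℂ)) =
      fun t : ℝ => f t * (Real.exp (-t / T) : ℂ) + g t * (Real.exp (-t / T) : ℂ) := by
    funext t; ring
  constructor
  · unfold EE
    rw [e, integral_add hf hg, mul_add]
  · unfold IE
    rw [e]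
    exact hf.add hg

private theorem G03_EE_sub (T : ℝ) (f g : ℝ → ℂ) (hf : IE T f) (hg : IE T g) :
    EE T (fun t => f t - g t) = EE T f - EE T g ∧ IE T (fun t => f t - g t) := by
  have e : (fun t : ℝ => (f t - g t) * (Real.exp (-t / T) : ℂ)) =
      fun t : ℝ => f t * (Real.exp (-t / T) : ℂ) - g t * (Real.exp (-t / T) : ℂ) := by
    funext t; ring
  constructor
  · unfold EE
    rw [e, integral_sub hf hg, mul_sub]
  · unfold IE
    rw [e]
    exact hf.sub hg

private theorem G03_EE_sum {ι : Type} (T : ℝ) (s : Finset ι) (f : ι → ℝ → ℂ)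
    (hf : ∀ i ∈ s, IE T (f i)) :
    EE T (fun t => ∑ i ∈ s, f i t) = ∑ i ∈ s, EE T (f i) := by
  have e : (fun t : ℝ => (∑ i ∈ s, f i t) * (Real.exp (-t / T) : ℂ)) =
      fun t : ℝ => ∑ i ∈ s, f i t * (Real.exp (-t / T) : ℂ) := by
    funext t; rw [Finset.sum_mul]
  unfold EE
  rw [e, integral_finsetSum s hf, Finset.mul_sum]

private theorem G03_EE_conj (T : ℝ) (f : ℝ → ℂ) :
    EE T (fun t => conj (f t)) = conj (EE T f) := by
  unfold EE
  rw [map_mul, ← integral_conj]
  congr 1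
  · simp
  · refine integral_congr_ae (Filter.Eventually.of_forall ?_)
    intro t
    simp only
    rw [map_mul, Complex.conj_ofReal]

private theorem G03_ER_EE (T : ℝ) (f : ℝ → ℝ) : ((ER T f : ℝ) : ℂ) = EE T (fun t => (f t : ℂ)) := by
  unfold ER EE
  rw [Complex.ofReal_mul, Complex.ofReal_inv, ← integral_complex_ofReal]
  congr 1
  refine integral_congr_ae (Filter.Eventually.of_forall ?_)
  intro t
  simp

private theorem G03_one (T : ℝ) (hT : 0 < T) : EE T (fun _ => 1) = 1 := by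
  have h := G03_ER_EE T (fun _ => 1)
  simp only [Complex.ofReal_one] at h
  rw [← h]
  have h2 : ER T (fun _ => 1) = 1 := by
    unfold ER
    have h3 := integral_exp_mul_Ioi (a := -(1 / T)) (by
      have : 0 < 1 / T := by positivity
      linarith) 0
    have h4 : ∫ t in Ioi (0 : ℝ), (1 : ℝ) * Real.exp (-t / T) =
        ∫ t in Ioi (0 : ℝ), Real.exp (-(1 / T) * t) := by
      refine integral_congr_ae (Filter.Eventually.of_forall ?_)
      intro t
      simp only [one_mul]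
      congr 1
      ring
    rw [h4, h3]
    simp
    field_simp
  rw [h2]
  simp

/-! ### the mollified L-function -/

private theorem G03_FF {N : ℕ} [NeZero N] (χ : DirichletCharacter ℂ N) (l σ : ℝ) (hσ : |σ| ≤ 1 / 8) (u : ℝ) :
    Continuous (fun t : ℝ => LX.FF χ l (1/2 + σ + (t + u) * I)) := by
  unfold LX.FF
  have hσ' := abs_le.1 hσ
  have hre : ∀ t : ℝ, ((1/2 : ℂ) + σ + (t + u) * I).re = 1 / 2 + σ := by
    intro t
    simp
  have hc : Continuous (fun t : ℝ => (1/2 : ℂ) + σ + (t + u) * I) := by fun_prop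
  refine Continuous.mul ?_ ((LX.Mol_cont χ 1 l).comp hc)
  rw [continuous_iff_continuousAt]
  intro t
  have hne : (1/2 : ℂ) + σ + (t + u) * I ≠ 1 := by
    intro h
    have := congrArg Complex.re h
    rw [hre] at this
    simp at this
    linarith
  exact ContinuousAt.comp (f := fun t : ℝ => (1/2 : ℂ) + σ + (t + u) * I) (g := LX.Lf χ)
    (DirichletCharacter.differentiableAt_LFunction χ _ (Or.inl hne)).continuousAt hc.continuousAt

private theorem G03_FFb {N : ℕ} [NeZero N] (χ : DirichletCharacter ℂ N) (Cz : ℝ)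
    (hz : ∀ s : ℂ, 5/16 ≤ s.re → 1/4 ≤ ‖s - 1‖ → ‖ZMod.LFunction (fun x => χ x) s‖ ≤ Cz * (1 + |s.im|))
    (l : ℝ) (hl : 0 < l) (σ : ℝ) (hσ : |σ| ≤ 1 / 8) (u : ℝ) (t : ℝ) :
    ‖LX.FF χ l (1/2 + σ + (t + u) * I)‖ ≤ Cz * Real.exp l * (1 + |t + u|) := by
  unfold LX.FF
  have hσ' := abs_le.1 hσ
  have hre : ((1/2 : ℂ) + σ + (t + u) * I).re = 1 / 2 + σ := by
    simp
  have him : ((1/2 : ℂ) + σ + (t + u) * I).im = t + u := by
    simp
  rw [norm_mul]
  have h1 : ‖LX.Lf χ ((1/2 : ℂ) + σ + (t + u) * I)‖ ≤ Cz * (1 + |((1/2 : ℂ) + σ + (t + u) * I).im|) :=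
    hz ((1/2 : ℂ) + σ + (t + u) * I) (by rw [hre]; linarith) (by
    have h := Complex.abs_re_le_norm ((1/2 : ℂ) + σ + (t + u) * I - 1)
    rw [Complex.sub_re, hre, Complex.one_re] at h
    refine le_trans ?_ h
    rw [abs_of_neg (by linarith)]
    linarith)
  rw [him] at h1
  have h2 := LX.Mol_bound χ (lam := 1) (by norm_num) le_rfl hl (s := (1/2 : ℂ) + σ + (t + u) * I)
    (by rw [hre]; linarith)
  have h3 : 0 ≤ Cz * (1 + |t + u|) := le_trans (norm_nonneg _) h1
  calc _ ≤ (Cz * (1 + |t + u|)) * Real.exp l := by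
        apply mul_le_mul h1 h2 (norm_nonneg _) h3
    _ = _ := by ring

private theorem G03_growth (K : ℝ) (hK : 0 ≤ K) (u t : ℝ) :
    K * (1 + |t + u|) ≤ K * (1 + |u|) * (1 + |t|) := by
  have := abs_add_le t u
  have h2 : 1 + |t + u| ≤ (1 + |u|) * (1 + |t|) := by
    nlinarith [abs_nonneg t, abs_nonneg u, mul_nonneg (abs_nonneg t) (abs_nonneg u)]
  calc K * (1 + |t + u|) ≤ K * ((1 + |u|) * (1 + |t|)) := by gcongr
    _ = _ := by ring

/-! ### abstract second moment -/

/-- abstract form: functions of linear growth -/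
private theorem G03_abstract (T : ℝ) (hT : 0 < T) (m : ℕ) (f : ℕ → ℝ → ℂ) (K : ℝ)
    (hf : ∀ j, j < m → Continuous (f j)) (hK : ∀ j, j < m → ∀ t : ℝ, ‖f j t‖ ≤ K * (1 + |t|))
    (δ D : ℝ) (hδ : 0 ≤ δ)
    (hcross : ∀ j, j < m → ∀ k, k < m → j ≠ k → ‖EE T (fun t => f j t * conj (f k t)) - 1‖ ≤ δ)
    (hfirst : ∀ j, j < m → ‖EE T (f j) - 1‖ ≤ δ)
    (hsec : ∀ j, j < m → ER T (fun t => ‖f j t‖ ^ 2) ≤ D) :
    ER T (fun t => ‖(∑ j ∈ Finset.range m, f j t) - m‖ ^ 2) ≤ m ^ 2 * (3 * δ) + m * (D + 1) := by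
  have hIf : ∀ j, j < m → IE T (f j) := by
    intro j hj
    refine G03_IE T hT (f j) (hf j hj) K (fun t => ?_)
    have h1 := hK j hj t
    have hK0 : 0 ≤ K := by
      have := hK j hj 0
      simp at this
      exact le_trans (norm_nonneg _) this
    calc ‖f j t‖ ≤ K * (1 + |t|) := h1
      _ ≤ K * (1 + |t|) ^ 2 := by
          have : 1 ≤ 1 + |t| := by linarith [abs_nonneg t]
          gcongr
          nlinarith
  have hIfc : ∀ j, j < m → IE T (fun t => conj (f j t)) := by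
    intro j hj
    refine G03_IE T hT _ (continuous_conj.comp (hf j hj)) K (fun t => ?_)
    have h1 := hK j hj t
    have hK0 : 0 ≤ K := by
      have := hK j hj 0
      simp at this
      exact le_trans (norm_nonneg _) this
    rw [RCLike.norm_conj]
    calc ‖f j t‖ ≤ K * (1 + |t|) := h1
      _ ≤ K * (1 + |t|) ^ 2 := by
          have : 1 ≤ 1 + |t| := by linarith [abs_nonneg t]
          gcongr
          nlinarith
  have hIff : ∀ j, j < m → ∀ k, k < m → IE T (fun t => f j t * conj (f k t)) := by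
    intro j hj k hk
    refine G03_IE T hT _ ((hf j hj).mul (continuous_conj.comp (hf k hk))) (K * K) (fun t => ?_)
    have h1 := hK j hj t
    have h2 := hK k hk t
    rw [norm_mul, RCLike.norm_conj]
    calc ‖f j t‖ * ‖f k t‖ ≤ (K * (1 + |t|)) * (K * (1 + |t|)) :=
          mul_le_mul h1 h2 (norm_nonneg _) (le_trans (norm_nonneg _) h1)
      _ = _ := by ring
  have hI1 : IE T (fun _ => 1) := by
    refine G03_IE T hT _ continuous_const 1 (fun t => ?_)
    rw [norm_one, one_mul]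
    have : 1 ≤ 1 + |t| := by linarith [abs_nonneg t]
    nlinarith
  -- centred products
  have hg : ∀ j, j < m → ∀ k, k < m →
      EE T (fun t => (f j t - 1) * conj (f k t - 1)) =
        (EE T (fun t => f j t * conj (f k t)) - 1) - (EE T (f j) - 1) - conj (EE T (f k) - 1) ∧
      IE T (fun t => (f j t - 1) * conj (f k t - 1)) := by
    intro j hj k hk
    have e : (fun t => (f j t - 1) * conj (f k t - 1)) =
        fun t => (f j t * conj (f k t) - f j t) - (conj (f k t) - 1) := by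
      funext t
      rw [map_sub, map_one]
      ring
    have a1 := G03_EE_sub T _ _ (hIff j hj k hk) (hIf j hj)
    have a2 := G03_EE_sub T _ _ (hIfc k hk) hI1
    have a3 := G03_EE_sub T _ _ a1.2 a2.2
    rw [e]
    refine ⟨?_, a3.2⟩
    rw [a3.1, a1.1, a2.1, G03_EE_conj, G03_one T hT, map_sub, map_one]
    ring
  have hexp : ∀ t : ℝ, ((‖(∑ j ∈ Finset.range m, f j t) - m‖ ^ 2 : ℝ) : ℂ) =
      ∑ p ∈ (Finset.range m) ×ˢ (Finset.range m), (f p.1 t - 1) * conj (f p.2 t - 1) := by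
    intro t
    have e1 : (∑ j ∈ Finset.range m, f j t) - m = ∑ j ∈ Finset.range m, (f j t - 1) := by
      rw [Finset.sum_sub_distrib]
      simp
    rw [e1, Finset.sum_product, Complex.ofReal_pow, ← Complex.mul_conj', map_sum, Finset.sum_mul_sum]
  have hC : ((ER T (fun t => ‖(∑ j ∈ Finset.range m, f j t) - m‖ ^ 2) : ℝ) : ℂ) =
      ∑ p ∈ (Finset.range m) ×ˢ (Finset.range m),
        EE T (fun t => (f p.1 t - 1) * conj (f p.2 t - 1)) := by
    rw [G03_ER_EE, ← G03_EE_sum]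
    · congr 1
      funext t
      exact hexp t
    · intro p hp
      rw [Finset.mem_product, Finset.mem_range, Finset.mem_range] at hp
      exact (hg p.1 hp.1 p.2 hp.2).2
  -- bounds of the terms
  have hterm : ∀ p ∈ (Finset.range m) ×ˢ (Finset.range m),
      ‖EE T (fun t => (f p.1 t - 1) * conj (f p.2 t - 1))‖ ≤
        3 * δ + (if p.1 = p.2 then D + 1 else 0) := by
    intro p hp
    rw [Finset.mem_product, Finset.mem_range, Finset.mem_range] at hp
    have h := (hg p.1 hp.1 p.2 hp.2).1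
    have hf1 := hfirst p.1 hp.1
    have hf2 := hfirst p.2 hp.2
    have hcj : ‖conj (EE T (f p.2) - 1)‖ ≤ δ := by
      rw [RCLike.norm_conj]
      exact hf2
    by_cases hjk : p.1 = p.2
    · rw [if_pos hjk, h]
      have hD : ‖EE T (fun t => f p.1 t * conj (f p.2 t))‖ ≤ D := by
        have e1 : EE T (fun t => f p.1 t * conj (f p.2 t)) =
            ((ER T (fun t => ‖f p.1 t‖ ^ 2) : ℝ) : ℂ) := by
          rw [G03_ER_EE]
          congr 1
          funext t
          rw [← hjk, Complex.ofReal_pow, Complex.mul_conj']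
        rw [e1, Complex.norm_real, Real.norm_eq_abs, abs_of_nonneg]
        · exact hsec p.1 hp.1
        · unfold ER
          refine mul_nonneg (inv_nonneg.2 hT.le) (integral_nonneg (fun t => ?_))
          exact mul_nonneg (sq_nonneg _) (Real.exp_pos _).le
      calc _ ≤ ‖EE T (fun t => f p.1 t * conj (f p.2 t)) - 1 - (EE T (f p.1) - 1)‖ +
            ‖conj (EE T (f p.2) - 1)‖ := norm_sub_le _ _
        _ ≤ (‖EE T (fun t => f p.1 t * conj (f p.2 t)) - 1‖ + ‖EE T (f p.1) - 1‖) +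
            ‖conj (EE T (f p.2) - 1)‖ := by
            gcongr
            exact norm_sub_le _ _
        _ ≤ ((‖EE T (fun t => f p.1 t * conj (f p.2 t))‖ + ‖(1 : ℂ)‖) + ‖EE T (f p.1) - 1‖) +
            ‖conj (EE T (f p.2) - 1)‖ := by
            gcongr
            exact norm_sub_le _ _
        _ ≤ 3 * δ + (D + 1) := by
            rw [norm_one]
            linarith
    · rw [if_neg hjk, h, add_zero]
      have hc := hcross p.1 hp.1 p.2 hp.2 hjk
      calc _ ≤ ‖EE T (fun t => f p.1 t * conj (f p.2 t)) - 1 - (EE T (f p.1) - 1)‖ +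
            ‖conj (EE T (f p.2) - 1)‖ := norm_sub_le _ _
        _ ≤ (‖EE T (fun t => f p.1 t * conj (f p.2 t)) - 1‖ + ‖EE T (f p.1) - 1‖) +
            ‖conj (EE T (f p.2) - 1)‖ := by
            gcongr
            exact norm_sub_le _ _
        _ ≤ 3 * δ := by linarith
  have hnn : 0 ≤ ER T (fun t => ‖(∑ j ∈ Finset.range m, f j t) - m‖ ^ 2) := by
    unfold ER
    refine mul_nonneg (inv_nonneg.2 hT.le) (integral_nonneg (fun t => ?_))
    exact mul_nonneg (sq_nonneg _) (Real.exp_pos _).le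
  have hE : ER T (fun t => ‖(∑ j ∈ Finset.range m, f j t) - m‖ ^ 2) =
      ‖((ER T (fun t => ‖(∑ j ∈ Finset.range m, f j t) - m‖ ^ 2) : ℝ) : ℂ)‖ := by
    rw [Complex.norm_real, Real.norm_eq_abs, abs_of_nonneg hnn]
  rw [hE, hC]
  calc _ ≤ ∑ p ∈ (Finset.range m) ×ˢ (Finset.range m),
        ‖EE T (fun t => (f p.1 t - 1) * conj (f p.2 t - 1))‖ := norm_sum_le _ _
    _ ≤ ∑ p ∈ (Finset.range m) ×ˢ (Finset.range m),
        (3 * δ + (if p.1 = p.2 then D + 1 else 0)) := Finset.sum_le_sum hterm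
    _ = m ^ 2 * (3 * δ) + m * (D + 1) := by
        rw [Finset.sum_add_distrib, Finset.sum_const, Finset.card_product, Finset.card_range,
          Finset.sum_product]
        congr 1
        · rw [nsmul_eq_mul]
          push_cast
          ring
        · have : ∀ x ∈ Finset.range m, (∑ y ∈ Finset.range m, if x = y then D + 1 else 0) = D + 1 := by
            intro x hx
            rw [Finset.sum_ite_eq, if_pos hx]
          rw [Finset.sum_congr rfl this, Finset.sum_const, Finset.card_range, nsmul_eq_mul]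

/-- adapt LZ.G03 (H_mean): expand the square; C absolute. -/
theorem H_mean : ∃ C : ℝ, 0 < C ∧ ∀ (N : ℕ) [NeZero N] (m : ℕ) (X : Fin m → DirichletCharacter ℂ N × ℝ),
    1 ≤ m → Function.Injective X → ∃ T0 : ℝ, 2 ≤ T0 ∧ ∀ T : ℝ, T0 ≤ T → ∀ σ : ℝ, |σ| ≤ 1 / Real.log T →
    ER T (fun t => ‖(∑ j, LX.FF (X j).1 (Real.log T / 1500) (1/2 + σ + (t + (X j).2) * I)) - m‖ ^ 2) ≤ C * m := by
  obtain ⟨C0, hC0, hsec⟩ := F_second
  refine ⟨3 + (C0 + 1), by positivity, ?_⟩
  intro N _ m X hm hX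
  have hm0 : (0 : ℝ) < m := by exact_mod_cast hm
  have hδ : (0 : ℝ) < 1 / m := by positivity
  -- growth constants
  have hpol : ∀ j : Fin m, ∃ C : ℝ, 0 < C ∧ ∀ s : ℂ, 5/16 ≤ s.re → 1/4 ≤ ‖s - 1‖ →
      ‖ZMod.LFunction (fun x => (X j).1 x) s‖ ≤ C * (1 + |s.im|) := fun j => per_pol _
  choose Cz hCz hz using hpol
  set CC : ℝ := ∑ j, Cz j with hCC
  have hCC0 : ∀ j, Cz j ≤ CC := fun j =>
    Finset.single_le_sum (f := Cz) (fun i _ => (hCz i).le) (Finset.mem_univ j)
  have hCCn : 0 ≤ CC := Finset.sum_nonneg (fun i _ => (hCz i).le)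
  -- shifts
  set U : ℝ := ∑ j, |(X j).2| with hU
  have hU0 : 0 ≤ U := Finset.sum_nonneg (fun i _ => abs_nonneg _)
  have hub : ∀ j, |(X j).2| ≤ U := fun j =>
    Finset.single_le_sum (f := fun j => |(X j).2|) (fun i _ => abs_nonneg _) (Finset.mem_univ j)
  have ev1 : ∀ᶠ T : ℝ in atTop, ∀ j ∈ (Finset.univ : Finset (Fin m)), ∀ k ∈ (Finset.univ : Finset (Fin m)),
      j ≠ k → ∀ σ : ℝ, |σ| ≤ 1 / Real.log T →
      ‖EE T (fun t => LX.FF (X j).1 (Real.log T / 1500) (1/2 + σ + (t + (X j).2) * I) *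
        conj (LX.FF (X k).1 (Real.log T / 1500) (1/2 + σ + (t + (X k).2) * I))) - 1‖ ≤ 1 / m := by
    rw [Filter.eventually_all_finset]
    intro j _
    rw [Filter.eventually_all_finset]
    intro k _
    by_cases hjk : j = k
    · exact Filter.Eventually.of_forall (fun T h => absurd hjk h)
    · have hne : (X j).1 ≠ (X k).1 ∨ (X j).2 ≠ (X k).2 := by
        by_contra hc
        push Not at hc
        exact hjk (hX (Prod.ext hc.1 hc.2))
      obtain ⟨T0, hT0, h⟩ := F_cross (X j).1 (X k).1 (X j).2 (X k).2 hne (1 / m) hδ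
      filter_upwards [eventually_ge_atTop T0] with T hT _ σ hσ
      have hL : 0 < Real.log T := Real.log_pos (by linarith)
      exact h T hT (Real.log T / 1500) (by linarith) (by linarith) σ hσ
  have ev2 : ∀ᶠ T : ℝ in atTop, ∀ j ∈ (Finset.univ : Finset (Fin m)), ∀ σ : ℝ, |σ| ≤ 1 / Real.log T →
      ‖EE T (fun t => LX.FF (X j).1 (Real.log T / 1500) (1/2 + σ + (t + (X j).2) * I)) - 1‖ ≤ 1 / m := by
    rw [Filter.eventually_all_finset]
    intro j _
    obtain ⟨T0, hT0, h⟩ := F_first (X j).1 (X j).2 (1 / m) hδ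
    filter_upwards [eventually_ge_atTop T0] with T hT σ hσ
    have hL : 0 < Real.log T := Real.log_pos (by linarith)
    exact h T hT (Real.log T / 1500) (by positivity) (by linarith) σ hσ
  have ev3 : ∀ᶠ T : ℝ in atTop, ∀ j ∈ (Finset.univ : Finset (Fin m)), ∀ σ : ℝ, |σ| ≤ 1 / Real.log T →
      ER T (fun t => ‖LX.FF (X j).1 (Real.log T / 1500) (1/2 + σ + (t + (X j).2) * I)‖ ^ 2) ≤ C0 := by
    rw [Filter.eventually_all_finset]
    intro j _
    obtain ⟨T0, hT0, h⟩ := hsec N (X j).1 U hU0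
    filter_upwards [eventually_ge_atTop T0] with T hT σ hσ
    have hL : 0 < Real.log T := Real.log_pos (by linarith)
    exact h T hT (Real.log T / 1500) (by linarith) (by linarith) σ (X j).2 hσ (hub j)
  obtain ⟨T1, hT1⟩ := Filter.eventually_atTop.1 ((ev1.and ev2).and ev3)
  refine ⟨max T1 (max (Real.exp 8) 2), ?_, ?_⟩
  · exact le_trans (le_max_right _ _) (le_max_right _ _)
  intro T hT σ hσ
  have hTa : T1 ≤ T := le_trans (le_max_left _ _) hT
  have hTc : Real.exp 8 ≤ T := le_trans (le_trans (le_max_left _ _) (le_max_right _ _)) hT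
  have hTe : 2 ≤ T := le_trans (le_trans (le_max_right _ _) (le_max_right _ _)) hT
  have hT0 : 0 < T := by linarith
  have hL : 8 ≤ Real.log T := by
    rw [Real.le_log_iff_exp_le hT0]
    exact hTc
  have hL0 : 0 < Real.log T := by linarith
  have hσ8 : |σ| ≤ 1 / 8 := by
    refine le_trans hσ ?_
    exact one_div_le_one_div_of_le (by norm_num) hL
  obtain ⟨⟨h1, h2⟩, h3⟩ := hT1 T hTa
  set l : ℝ := Real.log T / 1500 with hl
  have hl0 : 0 < l := by positivity
  -- the family indexed by natural numbers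
  set f : ℕ → ℝ → ℂ := fun j t => if h : j < m then
    LX.FF (X ⟨j, h⟩).1 l (1/2 + σ + (t + (X ⟨j, h⟩).2) * I) else 0 with hf
  have hfv : ∀ (j : ℕ) (h : j < m), f j = fun t : ℝ =>
      LX.FF (X ⟨j, h⟩).1 l (1/2 + σ + (t + (X ⟨j, h⟩).2) * I) := by
    intro j h
    funext t
    rw [hf]
    simp only
    rw [dif_pos h]
  have habs := G03_abstract T hT0 m f (CC * Real.exp l * (1 + U))
    (fun j hj => by rw [hfv j hj]; exact G03_FF _ l σ hσ8 _)
    (fun j hj t => by
      rw [hfv j hj]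
      refine le_trans (G03_FFb _ (Cz ⟨j, hj⟩) (hz ⟨j, hj⟩) l hl0 σ hσ8 _ t) ?_
      refine le_trans (G03_growth _ (mul_nonneg (hCz ⟨j, hj⟩).le (Real.exp_pos _).le) _ _) ?_
      have e1 := hub ⟨j, hj⟩
      have e2 := hCC0 ⟨j, hj⟩
      gcongr)
    (1 / m) C0 hδ.le
    (fun j hj k hk hjk => by
      rw [hfv j hj, hfv k hk]
      exact h1 ⟨j, hj⟩ (Finset.mem_univ _) ⟨k, hk⟩ (Finset.mem_univ _)
        (fun h => hjk (congrArg Fin.val h)) σ hσ)
    (fun j hj => by
      rw [hfv j hj]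
      exact h2 ⟨j, hj⟩ (Finset.mem_univ _) σ hσ)
    (fun j hj => by
      rw [hfv j hj]
      exact h3 ⟨j, hj⟩ (Finset.mem_univ _) σ hσ)
  have hsum : ∀ t : ℝ, ∑ j ∈ Finset.range m, f j t =
      ∑ j : Fin m, LX.FF (X j).1 l (1/2 + σ + (t + (X j).2) * I) := by
    intro t
    rw [Finset.sum_range]
    refine Finset.sum_congr rfl (fun j _ => ?_)
    rw [hfv j j.2]
  simp only [hsum] at habs
  refine le_trans habs (le_of_eq ?_)
  field_simp

end LP

end F_Y_G03

section F_Y_G04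

open Complex MeasureTheory Set Filter Topology
open scoped ComplexConjugate

namespace LP

open LZ (kk nS cf EE ER PP wt Sep)

private theorem G04_nS {N z : ℕ} {S : Finset ℕ} (hS : S ∈ (LX.PQ N z).powerset) : 1 ≤ nS S := by
  rw [Finset.mem_powerset] at hS
  refine Nat.one_le_iff_ne_zero.2 (Finset.prod_ne_zero_iff.2 fun p hp => ?_)
  exact (Finset.mem_filter.1 (Finset.mem_filter.1 (hS hp)).1).2.ne_zero

private theorem G04_Mol_diff {N : ℕ} (χ : DirichletCharacter ℂ N) (lam l : ℝ) :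
    Differentiable ℂ (LX.Mol χ lam l) := by
  unfold LX.Mol
  refine Differentiable.fun_sum fun S hS => ?_
  refine (differentiable_const _).mul fun s => ?_
  refine DifferentiableAt.const_cpow (by fun_prop) (Or.inl ?_)
  have := G04_nS hS
  exact_mod_cast (by omega : nS S ≠ 0)

private theorem G04_Mol_bound {N : ℕ} (χ : DirichletCharacter ℂ N) (lam l : ℝ) :
    ∃ M : ℝ, 0 ≤ M ∧ ∀ s : ℂ, 0 ≤ s.re → ‖LX.Mol χ lam l s‖ ≤ M := by
  refine ⟨∑ S ∈ (LX.PQ N ⌊Real.exp l⌋₊).powerset, |cf lam l S|, Finset.sum_nonneg fun _ _ => abs_nonneg _,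
    fun s hs => ?_⟩
  unfold LX.Mol
  refine (norm_sum_le _ _).trans (Finset.sum_le_sum fun S hS => ?_)
  have h1 := G04_nS hS
  rw [norm_mul, norm_mul, Complex.norm_real, Real.norm_eq_abs]
  have h2 : ‖((nS S : ℕ) : ℂ) ^ (-s)‖ ≤ 1 := by
    rw [Complex.norm_natCast_cpow_of_pos (by omega), neg_re]
    exact Real.rpow_le_one_of_one_le_of_nonpos (by exact_mod_cast h1) (by linarith)
  have h3 : ‖χ ((nS S : ℕ) : ZMod N)‖ ≤ 1 := DirichletCharacter.norm_le_one χ _
  calc |cf lam l S| * ‖χ ((nS S : ℕ) : ZMod N)‖ * ‖((nS S : ℕ) : ℂ) ^ (-s)‖ ≤ |cf lam l S| * 1 * 1 := by gcongr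
    _ = |cf lam l S| := by ring

/-- the function of the argument -/
private noncomputable def G04_f {N : ℕ} [NeZero N] {m : ℕ} (X : Fin m → DirichletCharacter ℂ N × ℝ) (l : ℝ)
    (s : ℂ) : ℂ := (∑ j, LX.FF (X j).1 l (s + (X j).2 * I)) - m

private theorem G04_re (x : ℝ) (s : ℂ) : (s + x * I).re = s.re := by
  rw [add_re, re_ofReal_mul, I_re, mul_zero, add_zero]

private theorem G04_im (x : ℝ) (s : ℂ) : (s + x * I).im = s.im + x := by
  rw [add_im, im_ofReal_mul, I_im, mul_one]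

private theorem G04_diff {N : ℕ} [NeZero N] {m : ℕ} (X : Fin m → DirichletCharacter ℂ N × ℝ) (l : ℝ) {s : ℂ}
    (hs : s.re < 1) : DifferentiableAt ℂ (G04_f X l) s := by
  unfold G04_f
  refine DifferentiableAt.sub_const (DifferentiableAt.fun_sum fun j _ => ?_) _
  have h1 : s + (X j).2 * I ≠ 1 := by
    intro h
    have h2 := congrArg Complex.re h
    rw [G04_re, one_re] at h2
    linarith
  have h2 : DifferentiableAt ℂ (LX.FF (X j).1 l) (s + (X j).2 * I) := by
    unfold LX.FF LX.Lf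
    exact (DirichletCharacter.differentiableAt_LFunction (X j).1 _ (Or.inl h1)).mul (G04_Mol_diff (X j).1 1 l _)
  exact DifferentiableAt.comp (g := LX.FF (X j).1 l) (f := fun s : ℂ => s + (X j).2 * I) s h2 (by fun_prop)

private theorem G04_bound {N : ℕ} [NeZero N] {m : ℕ} (X : Fin m → DirichletCharacter ℂ N × ℝ) (l : ℝ) :
    ∃ K : ℝ, 0 ≤ K ∧ ∀ s : ℂ, 5/16 ≤ s.re → s.re ≤ 3/4 → ‖G04_f X l s‖ ≤ K * (1 + |s.im|) := by
  choose C hC hz using fun j : Fin m => per_pol (N := N) (fun a => (X j).1 a)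
  choose M hM hMol using fun j : Fin m => G04_Mol_bound (X j).1 1 l
  refine ⟨(∑ j, C j * (1 + |(X j).2|) * M j) + m, ?_, fun s h1 h2 => ?_⟩
  · refine add_nonneg (Finset.sum_nonneg fun j _ => ?_) (Nat.cast_nonneg m)
    have := (hC j).le
    have := hM j
    positivity
  have hone : (1 : ℝ) ≤ 1 + |s.im| := by linarith [abs_nonneg s.im]
  have hj : ∀ j ∈ (Finset.univ : Finset (Fin m)), ‖LX.FF (X j).1 l (s + (X j).2 * I)‖ ≤
      C j * (1 + |(X j).2|) * M j * (1 + |s.im|) := by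
    intro j _
    have hCj := (hC j).le
    have hMj := hM j
    unfold LX.FF
    rw [norm_mul]
    have a1 : ‖LX.Lf (X j).1 (s + (X j).2 * I)‖ ≤ C j * ((1 + |(X j).2|) * (1 + |s.im|)) := by
      refine (hz j _ (by rw [G04_re]; exact h1) ?_).trans ?_
      · have b1 : |(s + (X j).2 * I - 1).re| ≤ ‖s + (X j).2 * I - 1‖ := Complex.abs_re_le_norm _
        rw [sub_re, G04_re, one_re] at b1
        have b2 : 1 - s.re ≤ |s.re - 1| := by rw [abs_sub_comm]; exact le_abs_self _
        linarith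
      · refine mul_le_mul_of_nonneg_left ?_ hCj
        rw [G04_im]
        have b1 : |s.im + (X j).2| ≤ |s.im| + |(X j).2| := abs_add_le _ _
        have b2 : 0 ≤ |(X j).2| * |s.im| := by positivity
        nlinarith
    have a2 : ‖LX.Mol (X j).1 1 l (s + (X j).2 * I)‖ ≤ M j := hMol j _ (by rw [G04_re]; linarith)
    calc ‖LX.Lf (X j).1 (s + (X j).2 * I)‖ * ‖LX.Mol (X j).1 1 l (s + (X j).2 * I)‖
        ≤ (C j * ((1 + |(X j).2|) * (1 + |s.im|))) * M j := by gcongr
      _ = C j * (1 + |(X j).2|) * M j * (1 + |s.im|) := by ring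
  unfold G04_f
  refine (norm_sub_le _ _).trans ?_
  have h3 : ‖∑ j, LX.FF (X j).1 l (s + (X j).2 * I)‖ ≤ (∑ j, C j * (1 + |(X j).2|) * M j) * (1 + |s.im|) := by
    refine (norm_sum_le _ _).trans ((Finset.sum_le_sum hj).trans ?_)
    rw [Finset.sum_mul]
  have h4 : ‖(m : ℂ)‖ = m := by simp
  rw [h4]
  have h5 : (m : ℝ) ≤ m * (1 + |s.im|) := le_mul_of_one_le_right (by positivity) hone
  calc ‖∑ j, LX.FF (X j).1 l (s + (X j).2 * I)‖ + m
      ≤ (∑ j, C j * (1 + |(X j).2|) * M j) * (1 + |s.im|) + m * (1 + |s.im|) := add_le_add h3 h5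
    _ = ((∑ j, C j * (1 + |(X j).2|) * M j) + m) * (1 + |s.im|) := by ring

private theorem G04_intg {N : ℕ} [NeZero N] {m : ℕ} (X : Fin m → DirichletCharacter ℂ N × ℝ) (l T : ℝ)
    (hT : 0 < T) (σ : ℝ) (hσ : |σ| ≤ 3 / 16) :
    IntegrableOn (fun t : ℝ => ‖G04_f X l (1/2 + σ + t * I)‖ ^ 2 * Real.exp (-t / T)) (Ioi 0) := by
  obtain ⟨K, hK, hb⟩ := G04_bound X l
  have hσ' := abs_le.1 hσ
  have hre : ∀ t : ℝ, ((1/2 : ℂ) + σ + t * I).re = 1/2 + σ := fun t => by simp
  have him : ∀ t : ℝ, ((1/2 : ℂ) + σ + t * I).im = t := fun t => by simp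
  have hcont : Continuous (fun t : ℝ => ‖G04_f X l (1/2 + σ + t * I)‖ ^ 2 * Real.exp (-t / T)) := by
    refine Continuous.mul (Continuous.pow (Continuous.norm ?_) 2) (by fun_prop)
    rw [continuous_iff_continuousAt]
    intro t
    have h1 : ContinuousAt (G04_f X l) (1/2 + σ + t * I) := (G04_diff X l (by rw [hre]; linarith)).continuousAt
    exact ContinuousAt.comp (g := G04_f X l) (f := fun t : ℝ => (1/2 + σ + t * I : ℂ)) h1 (by fun_prop)
  have hmaj : IntegrableOn (fun t : ℝ => 2 * K ^ 2 * (Real.exp (-(1 / T) * t) + t ^ (2 : ℝ) * Real.exp (-(1 / T) * t))) (Ioi 0) := by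
    refine Integrable.const_mul (Integrable.add ?_ ?_) _
    · exact integrableOn_exp_mul_Ioi (by simpa using hT) 0
    · have h := integrableOn_rpow_mul_exp_neg_mul_rpow (s := 2) (p := 1) (b := 1 / T) (by norm_num) one_pos (by positivity)
      refine h.congr_fun (fun t _ => ?_) measurableSet_Ioi
      simp only [Real.rpow_one]
  refine Integrable.mono' hmaj hcont.aestronglyMeasurable ?_
  refine (ae_restrict_iff' measurableSet_Ioi).2 (Eventually.of_forall fun t ht => ?_)
  have ht0 : (0 : ℝ) < t := ht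
  have h1 := hb (1/2 + σ + t * I) (by rw [hre]; linarith) (by rw [hre]; linarith)
  rw [him, abs_of_pos ht0] at h1
  rw [Real.norm_of_nonneg (by positivity)]
  have h2 : ‖G04_f X l (1/2 + σ + t * I)‖ ^ 2 ≤ 2 * K ^ 2 * (1 + t ^ 2) := by
    calc ‖G04_f X l (1/2 + σ + t * I)‖ ^ 2 ≤ (K * (1 + t)) ^ 2 := by gcongr
      _ = K ^ 2 * (1 + t) ^ 2 := by ring
      _ ≤ K ^ 2 * (2 * (1 + t ^ 2)) := by
          refine mul_le_mul_of_nonneg_left ?_ (sq_nonneg K)
          nlinarith [sq_nonneg (1 - t)]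
      _ = 2 * K ^ 2 * (1 + t ^ 2) := by ring
  have h3 : -t / T = -(1 / T) * t := by ring
  rw [h3]
  calc ‖G04_f X l (1/2 + σ + t * I)‖ ^ 2 * Real.exp (-(1 / T) * t)
      ≤ 2 * K ^ 2 * (1 + t ^ 2) * Real.exp (-(1 / T) * t) := by gcongr
    _ = 2 * K ^ 2 * (Real.exp (-(1 / T) * t) + t ^ (2 : ℝ) * Real.exp (-(1 / T) * t)) := by
        rw [Real.rpow_two]; ring

/-- adapt LZ.G04 (chain_bound): sub mean value (LZ.E02 sum_sep), H = sum_j FF - m equals -m at the points of Y. No poles near the line Re = 1/2.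
C depends on d only. -/
theorem common_bound (d : ℝ) (hd : 0 < d) : ∃ C : ℝ, 0 < C ∧ ∀ (N : ℕ) [NeZero N] (m : ℕ)
    (X : Fin m → DirichletCharacter ℂ N × ℝ), 1 ≤ m → Function.Injective X → ∃ T0 : ℝ, 2 ≤ T0 ∧
    ∀ T : ℝ, T0 ≤ T → ∀ Y : Finset ℝ, (∀ y ∈ Y, 2 ≤ y ∧ y ≤ T) → Sep (d / Real.log T) Y →
    (∀ y ∈ Y, ∀ j, (y + (X j).2) ∈ LX.Gam (X j).1) → (Y.card : ℝ) * m ≤ C * T * Real.log T := by
  obtain ⟨C0, hC0, hmean⟩ := H_mean
  have hd1 : 0 < min d 1 := lt_min hd one_pos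
  have hpi := Real.pi_pos
  refine ⟨4 * Real.exp 2 * C0 / (Real.pi * min d 1), by positivity, fun N hN m X hm hX => ?_⟩
  obtain ⟨T1, hT1, hT1'⟩ := hmean N m X hm hX
  refine ⟨max T1 (Real.exp 12), le_max_of_le_left hT1, fun T hT Y hY hsep hG => ?_⟩
  have hTa : T1 ≤ T := (le_max_left _ _).trans hT
  have hTb : Real.exp 12 ≤ T := (le_max_right _ _).trans hT
  have hT2 : 2 ≤ T := hT1.trans hTa
  have hT0 : 0 < T := by linarith
  have hL : 12 ≤ Real.log T := (Real.le_log_iff_exp_le hT0).2 hTb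
  have hL0 : 0 < Real.log T := by linarith
  set L : ℝ := Real.log T with hLdef
  set l : ℝ := L / 1500 with hl
  set r : ℝ := min d 1 / (2 * L) with hr
  have hr0 : 0 < r := by positivity
  have hr1 : r ≤ 1 / (2 * L) := by
    rw [hr]; gcongr; exact min_le_right _ _
  have hr2 : r ≤ 1 / 24 := hr1.trans (by
    rw [div_le_div_iff₀ (by positivity) (by norm_num)]; linarith)
  have hrL : r ≤ 1 / L := hr1.trans (by
    rw [div_le_div_iff₀ (by positivity) (by positivity)]; linarith)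
  have hre : ∀ σ t : ℝ, ((1/2 : ℂ) + σ + t * I).re = 1/2 + σ := fun σ t => by simp
  -- the value at the points
  have hval : ∀ y ∈ Y, ‖G04_f X l (1/2 + y * I)‖ ^ 2 = (m : ℝ) ^ 2 := by
    intro y hy
    have h1 : G04_f X l (1/2 + y * I) = -m := by
      unfold G04_f
      rw [Finset.sum_eq_zero, zero_sub]
      intro j hj
      have h2 := hG y hy j
      unfold LX.Gam at h2
      change LX.Lf _ _ = 0 at h2
      have h3 : (1/2 : ℂ) + y * I + (X j).2 * I = 1/2 + ((y + (X j).2 : ℝ) : ℂ) * I := by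
        push_cast; ring
      unfold LX.FF
      rw [h3, h2, zero_mul]
    rw [h1, norm_neg]
    simp
  have hsep' : LZ.Sep (2 * r) Y := by
    intro a ha b hb hab
    refine le_trans ?_ (hsep a ha b hb hab)
    rw [hr]
    have : 2 * (min d 1 / (2 * L)) = min d 1 / L := by field_simp
    rw [this]
    gcongr
    exact min_le_left _ _
  have key := LZ.sum_sep (f := G04_f X l) hr0 hT2 Y hY hsep' (fun z hz _ _ => by
    have h1 := (abs_le.1 hz).2
    exact G04_diff X l (by linarith))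
  rw [Finset.sum_congr rfl hval, Finset.sum_const, nsmul_eq_mul] at key
  -- the inner integral
  have hin : ∀ σ : ℝ, |σ| ≤ r → ∫ t in (2 - r)..(T + r), ‖G04_f X l (1/2 + σ + t * I)‖ ^ 2 ≤
      Real.exp 2 * T * (C0 * m) := by
    intro σ hσ
    have hI := G04_intg X l T hT0 σ (hσ.trans (by linarith))
    have h1 := hT1' T hTa σ (hσ.trans hrL)
    unfold ER at h1
    have h2 : ∀ t : ℝ, (∑ j, LX.FF (X j).1 (Real.log T / 1500) (1/2 + σ + (t + (X j).2) * I)) - m =
        G04_f X l (1/2 + σ + t * I) := by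
      intro t
      unfold G04_f
      congr 1
      refine Finset.sum_congr rfl fun j _ => ?_
      congr 1
      ring
    simp only [h2] at h1
    rw [inv_mul_le_iff₀ hT0] at h1
    have hcont : Continuous (fun t : ℝ => ‖G04_f X l (1/2 + σ + t * I)‖ ^ 2) := by
      refine Continuous.pow (Continuous.norm ?_) 2
      rw [continuous_iff_continuousAt]
      intro t
      have hσ' := (abs_le.1 hσ).2
      have h1 : ContinuousAt (G04_f X l) (1/2 + σ + t * I) := (G04_diff X l (by rw [hre]; linarith)).continuousAt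
      exact ContinuousAt.comp (g := G04_f X l) (f := fun t : ℝ => (1/2 + σ + t * I : ℂ)) h1 (by fun_prop)
    have hab : 2 - r ≤ T + r := by linarith
    rw [intervalIntegral.integral_of_le hab]
    have h3 : ∫ t in Ioc (2 - r) (T + r), ‖G04_f X l (1/2 + σ + t * I)‖ ^ 2 ≤
        ∫ t in Ioc (2 - r) (T + r), Real.exp 2 * (‖G04_f X l (1/2 + σ + t * I)‖ ^ 2 * Real.exp (-t / T)) := by
      refine setIntegral_mono_on ?_ ?_ measurableSet_Ioc ?_
      · exact (hcont.integrableOn_Icc).mono_set Ioc_subset_Icc_self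
      · have hc2 : Continuous (fun t : ℝ => Real.exp 2 * (‖G04_f X l (1/2 + σ + t * I)‖ ^ 2 * Real.exp (-t / T))) :=
          continuous_const.mul (hcont.mul (by fun_prop))
        exact (hc2.integrableOn_Icc).mono_set Ioc_subset_Icc_self
      · intro t ht
        have h4 : 1 ≤ Real.exp 2 * Real.exp (-t / T) := by
          rw [← Real.exp_add]
          refine Real.one_le_exp ?_
          have h5 : t / T ≤ 2 := by
            rw [div_le_iff₀ hT0]; linarith [ht.2]
          rw [neg_div]; linarith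
        have h6 : 0 ≤ ‖G04_f X l (1/2 + σ + t * I)‖ ^ 2 := by positivity
        calc ‖G04_f X l (1/2 + σ + t * I)‖ ^ 2 = ‖G04_f X l (1/2 + σ + t * I)‖ ^ 2 * 1 := (mul_one _).symm
          _ ≤ ‖G04_f X l (1/2 + σ + t * I)‖ ^ 2 * (Real.exp 2 * Real.exp (-t / T)) := by gcongr
          _ = _ := by ring
    refine h3.trans ?_
    rw [integral_const_mul]
    have h7 : ∫ t in Ioc (2 - r) (T + r), ‖G04_f X l (1/2 + σ + t * I)‖ ^ 2 * Real.exp (-t / T) ≤
        ∫ t in Ioi (0 : ℝ), ‖G04_f X l (1/2 + σ + t * I)‖ ^ 2 * Real.exp (-t / T) := by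
      refine setIntegral_mono_set hI ?_ ?_
      · exact Eventually.of_forall fun t => by positivity
      · exact Filter.Eventually.of_forall fun t ht => lt_of_lt_of_le (by linarith) ht.1.le
    calc Real.exp 2 * ∫ t in Ioc (2 - r) (T + r), ‖G04_f X l (1/2 + σ + t * I)‖ ^ 2 * Real.exp (-t / T)
        ≤ Real.exp 2 * (T * (C0 * m)) := by gcongr; exact h7.trans h1
      _ = Real.exp 2 * T * (C0 * m) := by ring
  have hout : ∫ σ in (-r)..r, ∫ t in (2 - r)..(T + r), ‖G04_f X l (1/2 + σ + t * I)‖ ^ 2 ≤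
      Real.exp 2 * T * (C0 * m) * (2 * r) := by
    have h1 := intervalIntegral.norm_integral_le_of_norm_le_const (a := -r) (b := r)
      (f := fun σ : ℝ => ∫ t in (2 - r)..(T + r), ‖G04_f X l (1/2 + σ + t * I)‖ ^ 2) (C := Real.exp 2 * T * (C0 * m)) (by
        intro σ hσ
        rw [uIoc_of_le (by linarith)] at hσ
        rw [Real.norm_of_nonneg (intervalIntegral.integral_nonneg (by linarith) fun t _ => by positivity)]
        exact hin σ (abs_le.2 ⟨hσ.1.le, hσ.2⟩))
    have h2 : |r - -r| = 2 * r := by rw [abs_of_nonneg (by linarith)]; ring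
    rw [h2] at h1
    exact (le_abs_self _).trans h1
  have hfin : (Y.card : ℝ) * m ^ 2 ≤ (Real.pi * r ^ 2)⁻¹ * (Real.exp 2 * T * (C0 * m) * (2 * r)) :=
    key.trans (mul_le_mul_of_nonneg_left hout (by positivity))
  have hm0 : (0 : ℝ) < m := by exact_mod_cast hm
  have e1 : (Real.pi * r ^ 2)⁻¹ * (Real.exp 2 * T * (C0 * m) * (2 * r)) =
      (4 * Real.exp 2 * C0 / (Real.pi * min d 1) * T * L) * m := by
    rw [hr]
    field_simp
    ring
  rw [e1] at hfin
  have e2 : (Y.card : ℝ) * m ^ 2 = ((Y.card : ℝ) * m) * m := by ring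
  rw [e2] at hfin
  exact le_of_mul_le_mul_right hfin hm0

end LP

end F_Y_G04
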