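import Pool.Agent.Lib.MP_0f5a55_nt.V.V02
import Pool.Agent.Lib.MP_0f5a55_nt.V.V06
import Pool.Agent.Lib.MP_0f5a55_nt.V.V17
import Pool.Agent.Lib.MP_0f5a55_nt.V.V53

section F_E07

open Complex MeasureTheory Set Filter Topology
open scoped ComplexConjugate

namespace LZ

theorem E07_pos {z : ℕ} {S : Finset ℕ} (h : S ∈ (PP z).powerset) : 0 < nS S := by
  unfold nS
  refine Finset.prod_pos fun p hp => ?_
  have := Finset.mem_powerset.mp h hp
  exact (Finset.mem_filter.mp this).2.pos

theorem E07_Mol_cont (lam l : ℝ) : Continuous (Mol lam l) := by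
  unfold Mol
  refine continuous_finsetSum _ fun S hS => ?_
  have hn : (nS S : ℂ) ≠ 0 := by exact_mod_cast (E07_pos hS).ne'
  exact continuous_const.mul (Continuous.const_cpow (by fun_prop) (Or.inl hn))

theorem E07_Mol_bound (lam l : ℝ) (σ : ℝ) : ∃ K : ℝ, 0 ≤ K ∧ ∀ s : ℂ, s.re = σ → ‖Mol lam l s‖ ≤ K := by
  refine ⟨∑ S ∈ (PP ⌊Real.exp l⌋₊).powerset, |cf lam l S| * (nS S : ℝ) ^ (-σ),
    Finset.sum_nonneg fun S _ => by positivity, fun s hs => ?_⟩
  unfold Mol
  refine (norm_sum_le _ _).trans (Finset.sum_le_sum fun S hS => ?_)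
  rw [norm_mul, norm_natCast_cpow_of_pos (E07_pos hS), Complex.norm_real, Real.norm_eq_abs, neg_re, hs]

theorem E07_sq_exp {T : ℝ} (hT : 1 ≤ T) {t : ℝ} (ht : 0 ≤ t) :
    (1 + t) ^ 2 * Real.exp (-t / T) ≤ 18 * T ^ 2 * Real.exp (-(1 / (2 * T)) * t) := by
  have hT0 : (0:ℝ) < T := by linarith
  have e3 : Real.exp (-t / T) = Real.exp (-(1 / (2 * T)) * t) * Real.exp (-(1 / (2 * T)) * t) := by
    rw [← Real.exp_add]
    congr 1
    field_simp
    ring
  have e4 : (1 + t) ^ 2 * Real.exp (-(1 / (2 * T)) * t) ≤ 18 * T ^ 2 := by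
    have h1 : Real.exp (-(1 / (2 * T)) * t) = (Real.exp (t / (2 * T)))⁻¹ := by
      rw [← Real.exp_neg]
      congr 1
      ring
    rw [h1, mul_inv_le_iff₀ (Real.exp_pos _)]
    have h2 := Real.quadratic_le_exp_of_nonneg (x := t / (2 * T)) (by positivity)
    have h3 : (1 + t) ^ 2 ≤ 2 + 2 * t ^ 2 := by nlinarith [sq_nonneg (1 - t)]
    have h4 : t ^ 2 ≤ 8 * T ^ 2 * Real.exp (t / (2 * T)) := by
      have h5 : (t / (2 * T)) ^ 2 / 2 ≤ Real.exp (t / (2 * T)) := by
        have : 0 ≤ t / (2 * T) := by positivity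
        linarith
      have h6 : t ^ 2 = 8 * T ^ 2 * ((t / (2 * T)) ^ 2 / 2) := by field_simp; norm_num
      rw [h6]
      gcongr
    have h7 : 1 ≤ Real.exp (t / (2 * T)) := Real.one_le_exp (by positivity)
    have h8 : 2 ≤ 2 * T ^ 2 * Real.exp (t / (2 * T)) := by
      have : 1 ≤ T ^ 2 := by nlinarith
      nlinarith
    nlinarith
  rw [e3, ← mul_assoc]
  gcongr

/-- second moment on [-BT,BT]: F_second with T replaced by BT (l = log T/1500 stays in the window), conj symmetry for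
negative t. -/
theorem F_sym (B : ℝ) (hB : 1 ≤ B) : ∃ C T0 : ℝ, 0 < C ∧ 2 ≤ T0 ∧ ∀ T : ℝ, T0 ≤ T → ∀ σ : ℝ,
    |σ| ≤ 1 / (2 * Real.log T) →
    ∫ t in (-(B * T))..(B * T), ‖FF (Real.log T / 1500) (1/2 + σ + t * I)‖ ^ 2 ≤ C * T := by
  obtain ⟨C0, T00, hC0, hT00, hF⟩ := F_second 0 le_rfl
  obtain ⟨Cz, hCz, hz⟩ := zeta_pol
  obtain ⟨hconjz, hconjM, -, -⟩ := conj_facts
  refine ⟨2 * (Real.exp 1 * (B * C0)), max T00 (max (Real.exp 8) (B ^ 3)), by positivity,
    hT00.trans (le_max_left _ _), fun T hT σ hσ => ?_⟩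
  have hTa : T00 ≤ T := (le_max_left _ _).trans hT
  have hTb : Real.exp 8 ≤ T := ((le_max_left _ _).trans (le_max_right _ _)).trans hT
  have hTc : B ^ 3 ≤ T := ((le_max_right _ _).trans (le_max_right _ _)).trans hT
  have hT0 : (0:ℝ) < T := (Real.exp_pos 8).trans_le hTb
  have hB0 : (0:ℝ) < B := by linarith
  have hL8 : 8 ≤ Real.log T := (Real.le_log_iff_exp_le hT0).mpr hTb
  have hLB0 : 0 ≤ Real.log B := Real.log_nonneg hB
  have hLB : 3 * Real.log B ≤ Real.log T := by
    have := Real.log_le_log (by positivity) hTc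
    rw [Real.log_pow] at this
    exact_mod_cast this
  have hBT : 0 < B * T := by positivity
  have hTBT : T ≤ B * T := le_mul_of_one_le_left hT0.le hB
  have hLBT : Real.log (B * T) = Real.log B + Real.log T := Real.log_mul hB0.ne' hT0.ne'
  have hσ16 : |σ| ≤ 1/16 := by
    refine hσ.trans ?_
    rw [div_le_div_iff₀ (by linarith) (by norm_num)]
    linarith
  have hσ2 := abs_le.mp hσ16
  set l : ℝ := Real.log T / 1500 with hl
  set F : ℝ → ℝ := fun t => ‖FF l (1/2 + σ + t * I)‖ ^ 2 with hFd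
  have hre : ∀ t : ℝ, (1/2 + σ + t * I : ℂ).re = 1/2 + σ := fun t => by simp
  have him : ∀ t : ℝ, (1/2 + σ + t * I : ℂ).im = t := fun t => by simp
  have hne1 : ∀ t : ℝ, 1/4 ≤ ‖(1/2 + σ + t * I : ℂ) - 1‖ := fun t => by
    have := abs_re_le_norm ((1/2 + σ + t * I : ℂ) - 1)
    rw [sub_re, hre, one_re] at this
    have h3 : 1/4 ≤ |1/2 + σ - 1| := by
      rw [abs_of_neg (by linarith)]
      linarith
    linarith
  have hFc : Continuous F := by
    refine Continuous.pow (Continuous.norm ?_) 2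
    unfold FF
    refine Continuous.mul ?_ ((E07_Mol_cont 1 l).comp (by fun_prop))
    refine continuous_iff_continuousAt.mpr fun t => ?_
    have h1 : ContinuousAt riemannZeta (1/2 + σ + t * I : ℂ) := by
      refine (differentiableAt_riemannZeta ?_).continuousAt
      intro h
      have := hne1 t
      rw [h, sub_self, norm_zero] at this
      norm_num at this
    exact ContinuousAt.comp (f := fun t : ℝ => (1/2 + σ + t * I : ℂ)) (g := riemannZeta) h1
      (by fun_prop)
  have hF0 : ∀ t, 0 ≤ F t := fun t => by positivity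
  have hFeven : ∀ t, F (-t) = F t := by
    intro t
    have e : (1/2 + σ + ((-t : ℝ) : ℂ) * I : ℂ) = conj (1/2 + σ + t * I : ℂ) := by
      apply Complex.ext
      · simp
      · simp
    simp only [hFd]
    rw [e, FF, hconjz, hconjM, ← map_mul, RCLike.norm_conj, FF]
  obtain ⟨K, hK0, hK⟩ := E07_Mol_bound 1 l (1/2 + σ)
  have hFb : ∀ t, 0 ≤ t → F t ≤ (Cz * K) ^ 2 * (1 + t) ^ 2 := by
    intro t ht
    have h1 := hz (1/2 + σ + t * I) (by rw [hre]; linarith) (hne1 t)
    rw [him, abs_of_nonneg ht] at h1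
    have h2 := hK (1/2 + σ + t * I) (hre t)
    simp only [hFd]
    rw [FF, norm_mul]
    calc (‖riemannZeta (1/2 + σ + t * I)‖ * ‖Mol 1 l (1/2 + σ + t * I)‖) ^ 2
        ≤ (Cz * (1 + t) * K) ^ 2 := by gcongr
      _ = _ := by ring
  have hint : IntegrableOn (fun t => F t * Real.exp (-t / (B * T))) (Ioi 0) := by
    have hg : IntegrableOn (fun t : ℝ => (Cz * K) ^ 2 * (18 * (B * T) ^ 2) *
        Real.exp (-(1 / (2 * (B * T))) * t)) (Ioi 0) :=
      (integrableOn_exp_mul_Ioi (by
        have : 0 < 1 / (2 * (B * T)) := by positivity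
        linarith) 0).const_mul _
    refine Integrable.mono' hg ?_ ?_
    · exact (hFc.mul (by fun_prop)).aestronglyMeasurable
    · refine (ae_restrict_mem measurableSet_Ioi).mono fun t ht => ?_
      have ht0 : (0:ℝ) < t := ht
      rw [Real.norm_of_nonneg (mul_nonneg (hF0 t) (Real.exp_pos _).le)]
      have h1 := E07_sq_exp (T := B * T) (by
        have : 1 ≤ T := (Real.one_le_exp (by norm_num)).trans hTb
        linarith) ht0.le
      calc F t * Real.exp (-t / (B * T)) ≤
          ((Cz * K) ^ 2 * (1 + t) ^ 2) * Real.exp (-t / (B * T)) :=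
            mul_le_mul_of_nonneg_right (hFb t ht0.le) (Real.exp_pos _).le
        _ = (Cz * K) ^ 2 * ((1 + t) ^ 2 * Real.exp (-t / (B * T))) := by ring
        _ ≤ (Cz * K) ^ 2 * (18 * (B * T) ^ 2 * Real.exp (-(1 / (2 * (B * T))) * t)) := by gcongr
        _ = _ := by ring
  have hER := hF (B * T) (hTa.trans hTBT) l (by
      rw [hLBT, hl]
      linarith) (by
      rw [hLBT, hl]
      linarith) σ 0 (by
      refine hσ.trans ?_
      rw [hLBT, div_le_div_iff₀ (by linarith) (by linarith)]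
      linarith) (by simp)
  have hER2 : (B * T)⁻¹ * ∫ t in Ioi (0:ℝ), F t * Real.exp (-t / (B * T)) ≤ C0 := by
    have e : ER (B * T) (fun t => ‖FF l (1/2 + σ + (t + (0:ℝ)) * I)‖ ^ 2) =
        (B * T)⁻¹ * ∫ t in Ioi (0:ℝ), F t * Real.exp (-t / (B * T)) := by
      rw [ER]
      simp only [ofReal_zero, add_zero, hFd]
    rw [← e]
    exact hER
  have hmain : ∫ t in (0:ℝ)..(B * T), F t ≤ Real.exp 1 * (B * T * C0) := by
    rw [intervalIntegral.integral_of_le hBT.le]
    have h1 : ∫ t in Ioc (0:ℝ) (B * T), F t ≤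
        ∫ t in Ioc (0:ℝ) (B * T), Real.exp 1 * (F t * Real.exp (-t / (B * T))) := by
      refine setIntegral_mono_on ?_ ?_ measurableSet_Ioc fun t ht => ?_
      · exact (hFc.integrableOn_Icc).mono_set Ioc_subset_Icc_self
      · exact ((hint.mono_set Ioc_subset_Ioi_self).const_mul _)
      · have h2 : 1 ≤ Real.exp 1 * Real.exp (-t / (B * T)) := by
          rw [← Real.exp_add]
          refine Real.one_le_exp ?_
          have : t / (B * T) ≤ 1 := (div_le_one hBT).mpr ht.2
          have e : -t / (B * T) = -(t / (B * T)) := by ring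
          rw [e]
          linarith
        calc F t = F t * 1 := (mul_one _).symm
          _ ≤ F t * (Real.exp 1 * Real.exp (-t / (B * T))) := mul_le_mul_of_nonneg_left h2 (hF0 t)
          _ = _ := by ring
    refine h1.trans ?_
    rw [integral_const_mul]
    refine mul_le_mul_of_nonneg_left ?_ (Real.exp_pos _).le
    have h3 : ∫ t in Ioc (0:ℝ) (B * T), F t * Real.exp (-t / (B * T)) ≤
        ∫ t in Ioi (0:ℝ), F t * Real.exp (-t / (B * T)) :=
      setIntegral_mono_set hint
        (Eventually.of_forall fun t => mul_nonneg (hF0 t) (Real.exp_pos _).le)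
        (HasSubset.Subset.eventuallyLE Ioc_subset_Ioi_self)
    refine h3.trans ?_
    rw [inv_mul_le_iff₀ hBT] at hER2
    exact hER2
  have hii : ∀ a b, IntervalIntegrable F volume a b := fun a b => hFc.intervalIntegrable a b
  have hsplit : ∫ t in (-(B * T))..(B * T), F t = 2 * ∫ t in (0:ℝ)..(B * T), F t := by
    rw [← intervalIntegral.integral_add_adjacent_intervals (hii (-(B * T)) 0) (hii 0 (B * T))]
    have h1 : ∫ t in (-(B * T))..(0:ℝ), F t = ∫ t in (0:ℝ)..(B * T), F t := by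
      have h2 := intervalIntegral.integral_comp_neg (a := 0) (b := B * T) F
      rw [neg_zero] at h2
      rw [← h2]
      exact intervalIntegral.integral_congr fun t _ => hFeven t
    rw [h1]
    ring
  have hgoal : ∫ t in (-(B * T))..(B * T), ‖FF l (1/2 + σ + t * I)‖ ^ 2 =
      ∫ t in (-(B * T))..(B * T), F t := rfl
  rw [hgoal, hsplit]
  calc 2 * ∫ t in (0:ℝ)..(B * T), F t ≤ 2 * (Real.exp 1 * (B * T * C0)) := by linarith
    _ = _ := by ring

end LZ

end F_E07
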