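import Pool.Agent.Lib.MP_0f5a55_nt.V.V02
import Pool.Agent.Lib.MP_0f5a55_nt.V.V15
import Pool.Agent.Lib.MP_0f5a55_nt.V.V22
import Pool.Agent.Lib.MP_0f5a55_nt.V.V35
import Pool.Agent.Lib.MP_0f5a55_nt.V.V48
import Pool.Agent.Lib.MP_0f5a55_nt.V.V62

section F_X_G01

open Complex MeasureTheory Set Filter Topology
open scoped ComplexConjugate

namespace LX

open LZ

/-- growth in the half plane Re s >= 1/8 -/
lemma G01_growth {q : ℕ} [NeZero q] {χ : DirichletCharacter ℂ q} (hχ : χ ≠ 1) {s : ℂ}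
    (hs : 1/8 ≤ s.re) : ‖Lf χ s‖ ≤ 16 * q * ‖s‖ := by
  have hs0 : 0 < s.re := by linarith
  refine (Lf_le hχ hs0).trans ?_
  rw [div_le_iff₀ hs0]
  have h1 : 0 ≤ (q : ℝ) * ‖s‖ := by positivity
  nlinarith

/-- lower bound on the line Re s = 2 -/
lemma G01_lower {q : ℕ} [NeZero q] (χ : DirichletCharacter ℂ q) (t : ℝ) :
    1 / 4 ≤ ‖Lf χ (2 + t * I)‖ := by
  have hre : (2 + t * I : ℂ).re = 2 := by simp
  have hs : 1 < (2 + t * I : ℂ).re := by rw [hre]; norm_num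
  set s : ℂ := 2 + t * I with hsd
  have hL : Lf χ s = ∑' n, LSeries.term (fun n => χ (n : ZMod q)) s n := by
    unfold Lf
    rw [DirichletCharacter.LFunction_eq_LSeries χ hs, LSeries]
  have hnorm : ∀ n : ℕ, ‖LSeries.term (fun n => χ (n : ZMod q)) s n‖ ≤ 1 / (n : ℝ) ^ 2 := by
    intro n
    rcases Nat.eq_zero_or_pos n with rfl | hn
    · simp [LSeries.term_zero]
    · rw [LSeries.term_of_ne_zero hn.ne', norm_div, Complex.norm_natCast_cpow_of_pos hn, hre]
      have e : ((n : ℝ)) ^ (2 : ℝ) = (n : ℝ) ^ 2 := by norm_cast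
      rw [e]
      exact div_le_div_of_nonneg_right (χ.norm_le_one _) (by positivity)
  have hz2 := hasSum_zeta_two
  have hsumm : Summable (fun n : ℕ => LSeries.term (fun n => χ (n : ZMod q)) s n) :=
    Summable.of_norm_bounded hz2.summable hnorm
  have hs1 : Summable (fun n : ℕ => LSeries.term (fun n => χ (n : ZMod q)) s (n + 1)) :=
    (summable_nat_add_iff 1).2 hsumm
  have hr1 : Summable (fun n : ℕ => 1 / ((n + 1 : ℕ) : ℝ) ^ 2) :=
    (summable_nat_add_iff (f := fun n : ℕ => 1 / (n : ℝ) ^ 2) 1).2 hz2.summable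
  have hr2 : Summable (fun n : ℕ => 1 / ((n + 2 : ℕ) : ℝ) ^ 2) :=
    (summable_nat_add_iff (f := fun n : ℕ => 1 / (n : ℝ) ^ 2) 2).2 hz2.summable
  have htot : ∑' n : ℕ, 1 / ((n + 2 : ℕ) : ℝ) ^ 2 = Real.pi ^ 2 / 6 - 1 := by
    have h5 := hz2.tsum_eq
    rw [Summable.tsum_eq_zero_add hz2.summable, Summable.tsum_eq_zero_add hr1] at h5
    have e0 : 1 / (((0 : ℕ) : ℝ)) ^ 2 = 0 := by norm_num
    have e1 : 1 / (((0 + 1 : ℕ) : ℝ)) ^ 2 = 1 := by norm_num
    rw [e0, e1] at h5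
    have e2 : ∑' n : ℕ, 1 / ((n + 1 + 1 : ℕ) : ℝ) ^ 2 = ∑' n : ℕ, 1 / ((n + 2 : ℕ) : ℝ) ^ 2 := rfl
    rw [e2] at h5
    linarith
  have hLe : Lf χ s = 1 + ∑' n : ℕ, LSeries.term (fun n => χ (n : ZMod q)) s (n + 2) := by
    rw [hL, Summable.tsum_eq_zero_add hsumm, Summable.tsum_eq_zero_add hs1, LSeries.term_zero,
      zero_add, LSeries.term_of_ne_zero (by norm_num)]
    congr 1
    simp
  have h7 : ‖Lf χ s - 1‖ ≤ 3 / 4 := by
    rw [hLe, add_sub_cancel_left]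
    have hpi : Real.pi ^ 2 / 6 - 1 ≤ 3 / 4 := by
      have := Real.pi_lt_d2
      have h6 := Real.pi_pos
      nlinarith
    refine le_trans ?_ hpi
    rw [← htot]
    exact tsum_of_norm_bounded hr2.hasSum fun n => hnorm (n + 2)
  have h9 := norm_sub_norm_le (1 : ℂ) (1 - Lf χ s)
  rw [norm_one, sub_sub_cancel, norm_sub_rev] at h9
  linarith

/-- zeros near one integer -/
lemma G01_local : ∃ K : ℝ, 0 < K ∧ ∀ (q : ℕ) [NeZero q] (χ : DirichletCharacter ℂ q), χ ≠ 1 →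
    ∀ T : ℝ, 256 * q ≤ T → ∀ n : ℤ, |(n : ℝ)| ≤ T + 1 → ∀ A : Finset ℝ,
    (∀ g ∈ A, g ∈ Gam χ ∧ |g - n| ≤ 1 / 2) → (A.card : ℝ) ≤ K * Real.log T := by
  classical
  have hq : 0 < Real.log ((15 / 8) / (8 / 5)) := Real.log_pos (by norm_num)
  refine ⟨2 / Real.log ((15 / 8) / (8 / 5)), by positivity, ?_⟩
  intro q _ χ hχ T hT n hn A hA
  have hq0 : (1 : ℝ) ≤ q := by exact_mod_cast Nat.pos_of_ne_zero (NeZero.ne q)
  have hT2 : 2 ≤ T := by linarith
  have hT0 : 0 < T := by linarith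
  have hinj : Function.Injective (fun g : ℝ => (1 / 2 + g * I : ℂ)) := by
    intro a b hab
    have := congrArg Complex.im hab
    simpa using this
  set B : Finset ℂ := A.image (fun g : ℝ => (1 / 2 + g * I : ℂ)) with hB
  have hBc : B.card = A.card := Finset.card_image_of_injective _ hinj
  have hzero : ∀ a ∈ B, Lf χ a = 0 ∧ ‖a - (2 + (n : ℝ) * I)‖ ≤ 8 / 5 := by
    intro a ha
    rw [hB, Finset.mem_image] at ha
    obtain ⟨g, hg, rfl⟩ := ha
    obtain ⟨hg1, hg2⟩ := hA g hg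
    refine ⟨hg1, ?_⟩
    rw [Complex.norm_eq_sqrt_sq_add_sq]
    apply Real.sqrt_le_iff.mpr
    constructor
    · norm_num
    · have e1 : ((1 / 2 + g * I : ℂ) - (2 + (n : ℝ) * I)).re = -(3 / 2) := by
        simp
        norm_num
      have e2 : ((1 / 2 + g * I : ℂ) - (2 + (n : ℝ) * I)).im = g - n := by
        simp
      rw [e1, e2]
      have := abs_le.mp hg2
      nlinarith
  set M : ℝ := 16 * q * (|(n : ℝ)| + 4) with hM
  have hMb : ∀ z : ℂ, ‖z - (2 + (n : ℝ) * I)‖ = 15 / 8 → ‖Lf χ z‖ ≤ M := by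
    intro z hz
    have h1 := Complex.abs_re_le_norm (z - (2 + (n : ℝ) * I))
    have e1 : (z - (2 + (n : ℝ) * I)).re = z.re - 2 := by simp
    rw [e1, hz] at h1
    have h2 : 1 / 8 ≤ z.re := by
      have := (abs_le.mp h1).1
      linarith
    have h3 : ‖(2 + (n : ℝ) * I : ℂ)‖ ≤ 2 + |(n : ℝ)| := by
      refine (norm_add_le _ _).trans ?_
      rw [norm_mul, Complex.norm_real, Complex.norm_I, mul_one, Real.norm_eq_abs]
      norm_num
    have h4 : ‖z‖ ≤ |(n : ℝ)| + 4 := by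
      have : ‖z‖ ≤ ‖z - (2 + (n : ℝ) * I)‖ + ‖(2 + (n : ℝ) * I : ℂ)‖ := by
        have h5 := norm_add_le (z - (2 + (n : ℝ) * I)) (2 + (n : ℝ) * I)
        rwa [sub_add_cancel] at h5
      rw [hz] at this
      linarith
    refine (G01_growth hχ h2).trans ?_
    rw [hM]
    exact mul_le_mul_of_nonneg_left h4 (by positivity)
  have hmain := G01_bl (15 / 8) (8 / 5) M (2 + (n : ℝ) * I) (by norm_num) (by norm_num) B (Lf χ)
    (Lf_diff hχ).differentiableOn hMb hzero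
  have hlow := G01_lower χ n
  rw [hBc] at hmain
  have hM0 : 0 < M := by
    have := abs_nonneg (n : ℝ)
    positivity
  have hlow' : (1 : ℝ) / 4 ≤ ‖Lf χ (2 + (n : ℝ) * I)‖ := hlow
  have h1 : 1 / 4 ≤ M * ((8 / 5 : ℝ) / (15 / 8)) ^ A.card := hlow'.trans hmain
  have h2 : ((15 / 8 : ℝ) / (8 / 5)) ^ A.card ≤ 4 * M := by
    have e : ((8 / 5 : ℝ) / (15 / 8)) ^ A.card * ((15 / 8 : ℝ) / (8 / 5)) ^ A.card = 1 := by
      rw [← mul_pow]
      norm_num
    have hp : 0 < ((15 / 8 : ℝ) / (8 / 5)) ^ A.card := by positivity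
    have := mul_le_mul_of_nonneg_right h1 hp.le
    rw [mul_assoc, e, mul_one] at this
    linarith
  have h3 : (A.card : ℝ) * Real.log ((15 / 8) / (8 / 5)) ≤ Real.log (4 * M) := by
    rw [← Real.log_pow]
    exact Real.log_le_log (by positivity) h2
  have h4 : 4 * M ≤ 256 * q * T := by
    have h5 : |(n : ℝ)| + 4 ≤ 4 * T := by linarith
    rw [hM]
    calc 4 * (16 * (q : ℝ) * (|(n : ℝ)| + 4)) ≤ 4 * (16 * (q : ℝ) * (4 * T)) := by gcongr
      _ = _ := by ring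
  have h5 : Real.log (4 * M) ≤ Real.log (256 * q) + Real.log T := by
    have h6 := Real.log_le_log (by positivity) h4
    have e : Real.log (256 * (q : ℝ) * T) = Real.log (256 * q) + Real.log T :=
      Real.log_mul (by positivity) (by positivity)
    rwa [e] at h6
  have h6 : Real.log (256 * q) ≤ Real.log T := Real.log_le_log (by positivity) hT
  have h7 : (A.card : ℝ) * Real.log ((15 / 8) / (8 / 5)) ≤ 2 * Real.log T := by
    linarith
  rw [div_mul_eq_mul_div, le_div_iff₀ hq]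
  exact h7

/-- number of critical ordinates up to T is O(T log T), and finiteness. -/
theorem Gam_count : ∃ C : ℝ, 0 < C ∧ ∀ (q : ℕ) [NeZero q] (χ : DirichletCharacter ℂ q), χ ≠ 1 →
    ∃ T0 : ℝ, 2 ≤ T0 ∧ ∀ T : ℝ, T0 ≤ T → (Gam χ ∩ Icc (-T) T).Finite ∧
    ((Gam χ ∩ Icc (-T) T).ncard : ℝ) ≤ C * T * Real.log T := by
  classical
  obtain ⟨K, hK, hloc⟩ := G01_local
  refine ⟨3 * K, by positivity, fun q _ χ hχ => ?_⟩
  have hq0 : (1 : ℝ) ≤ q := by exact_mod_cast Nat.pos_of_ne_zero (NeZero.ne q)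
  have key : ∀ T : ℝ, 256 * q ≤ T → ∀ A : Finset ℝ, ((A : Set ℝ) ⊆ Gam χ ∩ Icc (-T) T) →
      (A.card : ℝ) ≤ 3 * K * T * Real.log T := by
    intro T hT A hA
    have hT2 : 2 ≤ T := by linarith
    have hT0 : 0 < T := by linarith
    have hlog : 0 ≤ Real.log T := Real.log_nonneg (by linarith)
    have hround : ∀ g ∈ A, |g - (round g : ℝ)| ≤ 1 / 2 := fun g _ => abs_sub_round g
    have hfib : ∀ m ∈ A.image (fun g => round g), (A.filter (fun g => round g = m)).card ≤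
        ⌊K * Real.log T⌋₊ := by
      intro m hm
      rw [Finset.mem_image] at hm
      obtain ⟨g0, hg0, rfl⟩ := hm
      apply Nat.le_floor
      apply hloc q χ hχ T hT (round g0)
      · have h1 := (hA hg0).2
        have h2 := hround g0 hg0
        have h3 := abs_le.mp h2
        rw [abs_le]
        constructor <;> linarith [h1.1, h1.2, h3.1, h3.2]
      · intro g hg
        rw [Finset.mem_filter] at hg
        refine ⟨(hA hg.1).1, ?_⟩
        rw [← hg.2]
        exact hround g hg.1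
    have hcard := Finset.card_le_mul_card_image A _ hfib
    have himg : (A.image (fun g => round g)) ⊆ Finset.Icc (-⌊T + 1 / 2⌋) ⌊T + 1 / 2⌋ := by
      intro m hm
      rw [Finset.mem_image] at hm
      obtain ⟨g, hg, rfl⟩ := hm
      have h1 := (hA hg).2
      have h3 := abs_le.mp (hround g hg)
      rw [Finset.mem_Icc]
      constructor
      · rw [neg_le, Int.le_floor]
        push_cast
        linarith [h1.1, h3.2]
      · rw [Int.le_floor]
        linarith [h1.2, h3.1]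
    have hic : ((A.image (fun g => round g)).card : ℝ) ≤ 3 * T := by
      have h1 : ((A.image (fun g => round g)).card : ℤ) ≤ 2 * ⌊T + 1 / 2⌋ + 1 := by
        have h2 := Finset.card_le_card himg
        rw [Int.card_Icc] at h2
        have h3 : 0 ≤ ⌊T + 1 / 2⌋ := Int.floor_nonneg.mpr (by linarith)
        omega
      have h2 : (⌊T + 1 / 2⌋ : ℝ) ≤ T + 1 / 2 := Int.floor_le _
      have h3 : ((A.image (fun g => round g)).card : ℝ) ≤ 2 * (⌊T + 1 / 2⌋ : ℝ) + 1 := by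
        exact_mod_cast h1
      linarith
    have hfl : ((⌊K * Real.log T⌋₊ : ℕ) : ℝ) ≤ K * Real.log T := Nat.floor_le (by positivity)
    calc (A.card : ℝ) ≤ ((⌊K * Real.log T⌋₊ * (A.image (fun g => round g)).card : ℕ) : ℝ) := by
          exact_mod_cast hcard
      _ = (⌊K * Real.log T⌋₊ : ℝ) * ((A.image (fun g => round g)).card : ℝ) := by push_cast; rfl
      _ ≤ (K * Real.log T) * (3 * T) := mul_le_mul hfl hic (by positivity) (by positivity)
      _ = 3 * K * T * Real.log T := by ring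
  refine ⟨256 * q, by linarith, fun T hT => ?_⟩
  have hfin : (Gam χ ∩ Icc (-T) T).Finite := by
    by_contra h
    obtain ⟨A, hA, hc⟩ := Set.Infinite.exists_subset_card_eq h (⌊3 * K * T * Real.log T⌋₊ + 1)
    have h1 := key T hT A hA
    rw [hc] at h1
    have h2 := Nat.lt_floor_add_one (3 * K * T * Real.log T)
    push_cast at h1
    linarith
  refine ⟨hfin, ?_⟩
  rw [Set.ncard_eq_toFinset_card _ hfin]
  exact key T hT _ (by simp)

end LX

end F_X_G01

section F_E08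

open Complex MeasureTheory Set Filter Topology
open scoped ComplexConjugate

namespace LZ

theorem E08_Mol (l : ℝ) : Differentiable ℂ (Mol 1 l) := by
  unfold Mol
  refine Differentiable.fun_sum (fun S hS => ?_)
  refine (differentiable_const _).mul ?_
  have hne : ((nS S : ℕ) : ℂ) ≠ 0 := by
    have h1 : nS S ≠ 0 := by
      unfold nS
      refine Finset.prod_ne_zero_iff.2 (fun p hp => ?_)
      have h2 := Finset.mem_powerset.1 hS hp
      unfold PP at h2
      exact (Finset.mem_filter.1 h2).2.ne_zero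
    exact_mod_cast h1
  exact differentiable_id.neg.const_cpow (Or.inl hne)

theorem E08_FF {l : ℝ} {s : ℂ} (hs : s ≠ 1) : DifferentiableAt ℂ (FF l) s := by
  unfold FF
  exact (differentiableAt_riemannZeta hs).mul (E08_Mol l s)

/-- f(s) = FF(l, s), points ry+c, separated by |r|d/log T. -/
theorem F_points (r d B : ℝ) (hr : r ≠ 0) (hd : 0 < d) (hB : 1 ≤ B) : ∃ C T0 : ℝ, 0 < C ∧ 2 ≤ T0 ∧
    ∀ T : ℝ, T0 ≤ T → ∀ Y : Finset ℝ, (∀ y ∈ Y, |y| ≤ T) → Sep (d / Real.log T) Y → ∀ c : ℝ, |c| ≤ B * T →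
    ∑ y ∈ Y, ‖FF (Real.log T / 1500) (1/2 + (r * y + c) * I)‖ ^ 2 ≤ C * T * Real.log T := by
  have hr' : 0 < |r| := abs_pos.2 hr
  set κ : ℝ := min (|r| * d / 2) (1 / 2) with hκ
  have hκ0 : 0 < κ := lt_min (by positivity) (by norm_num)
  have hκ1 : κ ≤ |r| * d / 2 := min_le_left _ _
  have hκ2 : κ ≤ 1 / 2 := min_le_right _ _
  obtain ⟨C, T0, hC, hT0, hF⟩ := F_sym (|r| + B + 1) (by linarith)
  refine ⟨2 * C / (Real.pi * κ), max T0 3, by positivity, hT0.trans (le_max_left _ _), ?_⟩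
  intro T hT Y hY hsep c hc
  have hTT0 : T0 ≤ T := (le_max_left _ _).trans hT
  have hT3 : 3 ≤ T := (le_max_right _ _).trans hT
  have hTpos : 0 < T := by linarith
  set L : ℝ := Real.log T with hL
  have hL1 : 1 < L := by
    rw [hL, Real.lt_log_iff_exp_lt hTpos]
    have := Real.exp_one_lt_d9
    linarith
  have hL0 : 0 < L := by linarith
  set ρ : ℝ := κ / L with hρ
  have hρ0 : 0 < ρ := by positivity
  have hρ1 : ρ ≤ 1 / (2 * L) := by
    have h1 : κ * 2 ≤ 1 := by linarith only [hκ2]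
    calc κ / L = κ * 2 / (2 * L) := by rw [mul_comm κ 2, mul_div_mul_left _ _ two_ne_zero]
      _ ≤ 1 / (2 * L) := div_le_div_of_nonneg_right h1 (by linarith only [hL0])
  have hρ2 : ρ < 1 / 2 := by
    refine lt_of_le_of_lt hρ1 ?_
    rw [div_lt_div_iff₀ (by positivity) (by norm_num)]
    linarith
  set f : ℂ → ℂ := FF (L / 1500) with hf
  have hfd : ∀ z : ℂ, |z.re - 1 / 2| ≤ ρ → DifferentiableAt ℂ f z := by
    intro z hz
    apply E08_FF
    rintro rfl
    rw [Complex.one_re] at hz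
    norm_num at hz
    linarith
  set b : ℝ := (|r| + B) * T with hb
  have hb0 : 0 ≤ b := by positivity
  set Y' : Finset ℝ := Y.image (fun y => r * y + c) with hY'
  have hY'b : ∀ y ∈ Y', -b ≤ y ∧ y ≤ b := by
    intro x hx
    obtain ⟨y, hy, rfl⟩ := Finset.mem_image.1 hx
    have h1 : |r * y + c| ≤ b := by
      calc |r * y + c| ≤ |r * y| + |c| := abs_add_le _ _
        _ = |r| * |y| + |c| := by rw [abs_mul]
        _ ≤ |r| * T + B * T := add_le_add (mul_le_mul_of_nonneg_left (hY y hy) hr'.le) hc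
        _ = b := by rw [hb]; ring
    exact abs_le.1 h1
  have hsep' : Sep (2 * ρ) Y' := by
    intro x hx x' hx' hne
    obtain ⟨y, hy, rfl⟩ := Finset.mem_image.1 hx
    obtain ⟨y', hy', rfl⟩ := Finset.mem_image.1 hx'
    have hyy : y ≠ y' := by
      rintro rfl
      exact hne rfl
    have h1 := hsep y hy y' hy' hyy
    have h2 : |r * y + c - (r * y' + c)| = |r| * |y - y'| := by
      rw [← abs_mul]; congr 1; ring
    rw [h2]
    calc 2 * ρ = 2 * κ / L := by rw [hρ]; ring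
      _ ≤ |r| * d / L := by
          apply div_le_div_of_nonneg_right _ hL0.le
          linarith
      _ = |r| * (d / L) := by ring
      _ ≤ |r| * |y - y'| := mul_le_mul_of_nonneg_left h1 hr'.le
  have hmain := sum_sep (f := f) hρ0 (by linarith : -b ≤ b) Y' hY'b hsep'
    (fun z hz _ _ => hfd z hz)
  have hinj : Set.InjOn (fun y : ℝ => r * y + c) (Y : Set ℝ) := by
    intro y _ y' _ h
    have h1 : r * y + c = r * y' + c := h
    exact mul_left_cancel₀ hr (by linarith)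
  have hsum : ∑ y ∈ Y, ‖f (1/2 + (r * y + c) * I)‖ ^ 2 =
      ∑ y ∈ Y', ‖f (1/2 + y * I)‖ ^ 2 := by
    rw [hY', Finset.sum_image hinj]
    refine Finset.sum_congr rfl (fun y _ => ?_)
    push_cast
    rfl
  have hinner : ∀ σ : ℝ, |σ| ≤ ρ →
      ‖∫ t in (-b - ρ)..(b + ρ), ‖f (1/2 + σ + t * I)‖ ^ 2‖ ≤ C * T := by
    intro σ hσ
    have hcont : Continuous (fun t : ℝ => ‖f (1/2 + σ + t * I)‖ ^ 2) := by
      have h1 : Continuous (fun t : ℝ => f (1/2 + σ + t * I)) := by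
        rw [continuous_iff_continuousAt]
        intro t
        have h2 : ContinuousAt f (1/2 + σ + t * I) := by
          apply (hfd _ _).continuousAt
          have h3 : ((1/2 : ℂ) + σ + t * I).re - 1/2 = σ := by simp
          rw [h3]
          exact hσ
        have h4 : ContinuousAt (fun t : ℝ => (1/2 : ℂ) + σ + t * I) t := by fun_prop
        exact Filter.Tendsto.comp (g := f) (f := fun t : ℝ => (1/2 : ℂ) + σ + t * I) h2 h4
      exact h1.norm.pow 2
    have hle : -b - ρ ≤ b + ρ := by linarith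
    have hnn : 0 ≤ ∫ t in (-b - ρ)..(b + ρ), ‖f (1/2 + σ + t * I)‖ ^ 2 :=
      intervalIntegral.integral_nonneg hle (fun t _ => by positivity)
    rw [Real.norm_of_nonneg hnn]
    have h1 : ∫ t in (-b - ρ)..(b + ρ), ‖f (1/2 + σ + t * I)‖ ^ 2 ≤
        ∫ t in (-((|r| + B + 1) * T))..((|r| + B + 1) * T), ‖f (1/2 + σ + t * I)‖ ^ 2 := by
      have hρT : ρ ≤ T := by linarith
      have hexp : (|r| + B + 1) * T = b + T := by rw [hb]; ring
      refine intervalIntegral.integral_mono_interval ?_ hle ?_ ?_ (hcont.intervalIntegrable _ _)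
      · rw [hexp]; linarith
      · rw [hexp]; linarith
      · exact Eventually.of_forall (fun t => by positivity)
    exact h1.trans (hF T hTT0 σ (hσ.trans hρ1))
  have houter : ∫ σ in (-ρ)..ρ, ∫ t in (-b - ρ)..(b + ρ), ‖f (1/2 + σ + t * I)‖ ^ 2 ≤
      C * T * (2 * ρ) := by
    have h1 := intervalIntegral.norm_integral_le_of_norm_le_const (a := -ρ) (b := ρ) (C := C * T)
      (f := fun σ : ℝ => ∫ t in (-b - ρ)..(b + ρ), ‖f (1/2 + σ + t * I)‖ ^ 2) (by
        intro σ hσ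
        rw [Set.uIoc_of_le (by linarith)] at hσ
        apply hinner
        rw [abs_le]
        exact ⟨hσ.1.le, hσ.2⟩)
    have h2 : |ρ - -ρ| = 2 * ρ := by
      rw [abs_of_nonneg (by linarith)]; ring
    rw [h2] at h1
    exact (le_abs_self _).trans h1
  rw [hsum]
  calc ∑ y ∈ Y', ‖f (1/2 + y * I)‖ ^ 2 ≤ (Real.pi * ρ ^ 2)⁻¹ *
        ∫ σ in (-ρ)..ρ, ∫ t in (-b - ρ)..(b + ρ), ‖f (1/2 + σ + t * I)‖ ^ 2 := hmain
    _ ≤ (Real.pi * ρ ^ 2)⁻¹ * (C * T * (2 * ρ)) :=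
        mul_le_mul_of_nonneg_left houter (by positivity)
    _ = 2 * C / (Real.pi * κ) * T * L := by
        rw [hρ]
        field_simp

end LZ

end F_E08

section F_F06

open Complex MeasureTheory Set Filter Topology
open scoped ComplexConjugate

namespace LZ

/-- robust form of Theorem I (Cauchy-Schwarz, 7.3). -/
theorem robust (r1 r2 d δ B : ℝ) (h1 : r1 ≠ 0) (h2 : r2 ≠ 0) (hd : 0 < d) (hδ : 0 < δ) (hB : 1 ≤ B) :
    ∃ c T0 : ℝ, 0 < c ∧ 2 ≤ T0 ∧ ∀ T : ℝ, T0 ≤ T → ∀ Y1 Y2 : Finset ℝ, (∀ y ∈ Y1, |y| ≤ T) → (∀ y ∈ Y2, |y| ≤ T) →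
    Sep (d / Real.log T) Y1 → Sep (d / Real.log T) Y2 → δ * T * Real.log T ≤ Y1.card → δ * T * Real.log T ≤ Y2.card →
    ∀ x : ℝ, |x| ≤ B * T →
    c * (T * Real.log T) ^ 2 ≤
      ((Y1 ×ˢ Y2).filter (fun y => riemannZeta (1/2 + (r1 * y.1 + r2 * y.2 + x) * I) ≠ 0)).card := by
  have hB' : 1 ≤ B + |r1| := by linarith [abs_nonneg r1]
  obtain ⟨TA, hTA, HA⟩ := main_sum r1 r2 d B h1 h2 hd hB (δ ^ 2 / 2) (by positivity)
  obtain ⟨C1, TB, hC1, hTB, HB⟩ := F_points r2 d (B + |r1|) h2 hd hB'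
  obtain ⟨C2, TC, hC2, hTC, HC⟩ := sep_count r1 d h1 hd
  refine ⟨(δ ^ 2 / 2) ^ 2 / (C1 * C2), max TA (max TB TC), by positivity, hTA.trans (le_max_left _ _),
    fun T hT Y1 Y2 hY1 hY2 hS1 hS2 hc1 hc2 x hx => ?_⟩
  have hTA' : TA ≤ T := (le_max_left _ _).trans hT
  have hTB' : TB ≤ T := ((le_max_left _ _).trans (le_max_right _ _)).trans hT
  have hTC' : TC ≤ T := ((le_max_right _ _).trans (le_max_right _ _)).trans hT
  have hT2 : 2 ≤ T := hTA.trans hTA'
  have hL0 : 0 < Real.log T := Real.log_pos (by linarith)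
  have hT0 : 0 < T := by linarith
  set P : ℝ := T * Real.log T with hP
  have hP0 : 0 < P := by positivity
  have hmain := HA T hTA' Y1 Y2 hY1 hY2 hS1 hS2 x hx
  have hcard := (HC T hTC' Y1 hY1 hS1).1
  set F : ℝ × ℝ → ℂ := fun y => FF (Real.log T / 1500) (1/2 + (r1 * y.1 + r2 * y.2 + x) * I) with hF
  set Z := (Y1 ×ˢ Y2).filter (fun y => riemannZeta (1/2 + (r1 * y.1 + r2 * y.2 + x) * I) ≠ 0) with hZ
  -- total sum equals the sum over Z
  have hsum : ∑ y1 ∈ Y1, ∑ y2 ∈ Y2, FF (Real.log T / 1500) (1/2 + (r1 * y1 + r2 * y2 + x) * I) =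
      ∑ y ∈ Z, F y := by
    rw [hZ, Finset.sum_filter_of_ne, Finset.sum_product]
    intro y _ hy hz
    apply hy
    rw [hF]
    simp only [FF]
    rw [hz, zero_mul]
  rw [hsum] at hmain
  -- second moment
  have hsq : ∑ y ∈ Z, ‖F y‖ ^ 2 ≤ C1 * C2 * P ^ 2 := by
    calc ∑ y ∈ Z, ‖F y‖ ^ 2 ≤ ∑ y ∈ Y1 ×ˢ Y2, ‖F y‖ ^ 2 :=
          Finset.sum_le_sum_of_subset_of_nonneg (Finset.filter_subset _ _) fun _ _ _ => by positivity
      _ = ∑ y1 ∈ Y1, ∑ y2 ∈ Y2, ‖F (y1, y2)‖ ^ 2 := by rw [Finset.sum_product]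
      _ ≤ ∑ y1 ∈ Y1, C1 * T * Real.log T := by
          refine Finset.sum_le_sum fun y1 hy1 => ?_
          have hc : |r1 * y1 + x| ≤ (B + |r1|) * T := by
            calc |r1 * y1 + x| ≤ |r1 * y1| + |x| := abs_add_le _ _
              _ ≤ |r1| * T + B * T := by
                  rw [abs_mul]
                  gcongr
                  exact hY1 y1 hy1
              _ = (B + |r1|) * T := by ring
          have := HB T hTB' Y2 hY2 hS2 (r1 * y1 + x) hc
          refine le_trans (le_of_eq ?_) this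
          refine Finset.sum_congr rfl fun y2 _ => ?_
          have e3 : (1/2 + ((r1:ℂ) * y1 + r2 * y2 + x) * I) =
              1/2 + ((r2:ℂ) * y2 + ((r1 * y1 + x : ℝ) : ℂ)) * I := by
            push_cast
            ring
          simp only [hF]
          rw [e3]
      _ = Y1.card * (C1 * T * Real.log T) := by rw [Finset.sum_const, nsmul_eq_mul]
      _ ≤ (C2 * T * Real.log T) * (C1 * T * Real.log T) := by gcongr
      _ = C1 * C2 * P ^ 2 := by rw [hP]; ring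
  -- Cauchy-Schwarz
  have hCS : ‖∑ y ∈ Z, F y‖ ^ 2 ≤ (Z.card : ℝ) * ∑ y ∈ Z, ‖F y‖ ^ 2 := by
    calc ‖∑ y ∈ Z, F y‖ ^ 2 ≤ (∑ y ∈ Z, ‖F y‖) ^ 2 :=
          pow_le_pow_left₀ (norm_nonneg _) (norm_sum_le _ _) 2
      _ ≤ _ := sq_sum_le_card_mul_sum_sq
  have hlow : δ ^ 2 / 2 * P ^ 2 ≤ ‖∑ y ∈ Z, F y‖ := by
    have h3 : (δ * P) ^ 2 ≤ (Y1.card : ℝ) * Y2.card := by
      have e1 : δ * P ≤ Y1.card := by rw [hP, ← mul_assoc]; exact hc1
      have e2 : δ * P ≤ Y2.card := by rw [hP, ← mul_assoc]; exact hc2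
      rw [sq]
      exact mul_le_mul e1 e2 (by positivity) (Nat.cast_nonneg _)
    have h4 : ‖(Y1.card : ℂ) * Y2.card‖ = (Y1.card : ℝ) * Y2.card := by
      rw [norm_mul, Complex.norm_natCast, Complex.norm_natCast]
    have h5 := norm_sub_norm_le ((Y1.card : ℂ) * Y2.card) (∑ y ∈ Z, F y)
    rw [norm_sub_rev, h4] at h5
    nlinarith
  have hlow2 : (δ ^ 2 / 2 * P ^ 2) ^ 2 ≤ (Z.card : ℝ) * (C1 * C2 * P ^ 2) :=
    (pow_le_pow_left₀ (by positivity) hlow 2).trans
      (hCS.trans (mul_le_mul_of_nonneg_left hsq (Nat.cast_nonneg _)))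
  have hfin : (δ ^ 2 / 2) ^ 2 * P ^ 2 ≤ (Z.card : ℝ) * (C1 * C2) := by
    have hP2 : 0 < P ^ 2 := by positivity
    have : ((δ ^ 2 / 2) ^ 2 * P ^ 2) * P ^ 2 ≤ ((Z.card : ℝ) * (C1 * C2)) * P ^ 2 := by
      calc ((δ ^ 2 / 2) ^ 2 * P ^ 2) * P ^ 2 = (δ ^ 2 / 2 * P ^ 2) ^ 2 := by ring
        _ ≤ (Z.card : ℝ) * (C1 * C2 * P ^ 2) := hlow2
        _ = ((Z.card : ℝ) * (C1 * C2)) * P ^ 2 := by ring
    exact le_of_mul_le_mul_right this hP2
  rw [div_mul_eq_mul_div, div_le_iff₀ (by positivity)]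
  exact hfin

end LZ

end F_F06
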