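import Pool.Agent.Lib.MP_0f5a55_nt.V.V30

section F_X_Z03

open Complex MeasureTheory Set Filter Topology
open scoped ComplexConjugate

namespace LX

open LZ

variable {q : ℕ} [NeZero q]

theorem Z03_inv_even {χ : DirichletCharacter ℂ q} : χ⁻¹.Even ↔ χ.Even := by
  unfold DirichletCharacter.Even
  rw [inv_apply]
  constructor
  · intro h
    have := congrArg conj h
    rwa [Complex.conj_conj, map_one] at this
  · intro h
    rw [h, map_one]

theorem Z03_gamma_inv (χ : DirichletCharacter ℂ q) (s : ℂ) : χ⁻¹.gammaFactor s = χ.gammaFactor s := by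
  rcases χ.even_or_odd with h | h
  · rw [h.gammaFactor_def, (Z03_inv_even.mpr h).gammaFactor_def]
  · have h' : χ⁻¹.Odd := by
      rcases χ⁻¹.even_or_odd with h1 | h1
      · exact absurd (Z03_inv_even.mp h1) h.not_even
      · exact h1
    rw [h.gammaFactor_def, h'.gammaFactor_def]

theorem Z03_gamma_conj (χ : DirichletCharacter ℂ q) (s : ℂ) :
    χ.gammaFactor (conj s) = conj (χ.gammaFactor s) := by
  rcases χ.even_or_odd with h | h
  · rw [h.gammaFactor_def, h.gammaFactor_def, Z03_Gammaℝ_conj]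
  · rw [h.gammaFactor_def, h.gammaFactor_def, ← Z03_Gammaℝ_conj, map_add, map_one]

theorem Z03_gne (χ : DirichletCharacter ℂ q) (t : ℝ) : χ.gammaFactor (1/2 + t * I) ≠ 0 := by
  rcases χ.even_or_odd with h | h
  · rw [h.gammaFactor_def]
    exact Z03_ne t
  · rw [h.gammaFactor_def]
    apply Gammaℝ_ne_zero_of_re_pos
    rw [add_re, Z03_re, one_re]
    norm_num

theorem Z03_gcont (χ : DirichletCharacter ℂ q) :
    Continuous (fun t : ℝ => χ.gammaFactor (1/2 + t * I)) := by
  rcases χ.even_or_odd with h | h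
  · simp only [h.gammaFactor_def]
    exact Z03_cont
  · simp only [h.gammaFactor_def]
    have h1 : Continuous (fun t : ℝ => (Gammaℝ (1/2 + t * I + 1))⁻¹) :=
      differentiable_Gammaℝ_inv.continuous.comp (by fun_prop)
    have hne : ∀ t : ℝ, Gammaℝ (1/2 + t * I + 1) ≠ 0 := fun t => by
      apply Gammaℝ_ne_zero_of_re_pos
      rw [add_re, Z03_re, one_re]
      norm_num
    have h2 := h1.inv₀ (fun t => inv_ne_zero (hne t))
    refine h2.congr (fun t => ?_)
    exact inv_inv _

theorem Z03_comp {χ : DirichletCharacter ℂ q} (t : ℝ) :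
    χ.completedLFunction (1/2 + t * I) = Lf χ (1/2 + t * I) * χ.gammaFactor (1/2 + t * I) := by
  have hne : ((1:ℂ)/2 + t * I) ≠ 0 := by
    intro h
    have := congrArg Complex.re h
    rw [Z03_re, zero_re] at this
    norm_num at this
  unfold Lf
  rw [DirichletCharacter.LFunction_eq_completed_div_gammaFactor χ _ (Or.inl hne),
    div_mul_cancel₀ _ (Z03_gne χ t)]

/-- the functional equation on the critical line -/
theorem Z03_fe {χ : DirichletCharacter ℂ q} (hχ : χ.IsPrimitive) (hq : 1 < q) (t : ℝ) :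
    conj (χ.completedLFunction (1/2 + t * I)) =
      (q : ℂ) ^ (t * I) * DirichletCharacter.rootNumber χ⁻¹ * χ.completedLFunction (1/2 + t * I) := by
  have hc : conj ((1:ℂ)/2 + t * I) = 1 - (1/2 + t * I) := by
    simp only [map_add, map_mul, conj_ofReal, conj_I, map_div₀, map_one]
    rw [Complex.conj_ofNat]
    ring
  have hc' : 1 - (1/2 + t * I) = 1/2 + ((-t : ℝ) : ℂ) * I := by push_cast; ring
  rw [Z03_comp, map_mul, ← Lf_conj (ne_one hχ hq), ← Z03_gamma_conj, ← Z03_gamma_inv χ, hc, hc',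
    ← Z03_comp, ← hc', DirichletCharacter.IsPrimitive.completedLFunction_one_sub (prim_inv hχ), inv_inv,
    ← Z03_comp]
  congr 3
  ring

theorem Z03_exists {χ : DirichletCharacter ℂ q} (hχ : χ ≠ 1) : ∃ t : ℝ, Lf χ (1/2 + t * I) ≠ 0 := by
  by_contra hcon
  push Not at hcon
  have hf : AnalyticOnNhd ℂ (Lf χ) univ := fun z _ => (Lf_diff hχ).analyticAt z
  have h0 : EqOn (Lf χ) 0 univ := by
    refine hf.eqOn_zero_of_preconnected_of_frequently_eq_zero isPreconnected_univ
      (mem_univ (1/2 : ℂ)) ?_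
    have ht : Tendsto (fun n : ℕ => (1/2 : ℂ) + (((1 : ℝ) / ((n : ℝ) + 1) : ℝ) : ℂ) * I) atTop
        (𝓝[≠] (1/2 : ℂ)) := by
      apply tendsto_nhdsWithin_of_tendsto_nhds_of_eventually_within
      · have h1 : Tendsto (fun n : ℕ => ((1 : ℝ) / ((n : ℝ) + 1))) atTop (𝓝 0) :=
          tendsto_one_div_add_atTop_nhds_zero_nat
        have h2 : Tendsto (fun x : ℝ => (1/2 : ℂ) + (x : ℂ) * I) (𝓝 0) (𝓝 (1/2 + ((0 : ℝ) : ℂ) * I)) :=
          Continuous.tendsto (by fun_prop) 0
        have h3 := h2.comp h1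
        have e : (1/2 : ℂ) + ((0 : ℝ) : ℂ) * I = 1/2 := by simp
        rw [e] at h3
        exact h3
      · refine Eventually.of_forall fun n => ?_
        have h4 : (0 : ℝ) < 1 / ((n : ℝ) + 1) := by positivity
        intro h
        have h5 : (1/2 : ℂ) + (((1 : ℝ) / ((n : ℝ) + 1) : ℝ) : ℂ) * I = 1/2 := h
        have h6 := congrArg Complex.im h5
        simp only [add_im, mul_im, ofReal_re, ofReal_im, I_re, I_im, mul_one, mul_zero, add_zero] at h6
        norm_num at h6
        have : (n : ℝ) + 1 ≠ 0 := by positivity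
        exact this h6
    exact ht.frequently (Frequently.of_forall fun n => hcon _)
  have h2 := h0 (mem_univ (2 : ℂ))
  have h3 : DirichletCharacter.LFunction χ 2 ≠ 0 :=
    DirichletCharacter.LFunction_ne_zero_of_one_le_re χ (Or.inl hχ) (by norm_num)
  exact h3 h2

theorem Z03_norm_cpow (t : ℝ) : ‖(q : ℂ) ^ (t * I)‖ = 1 := by
  rw [Complex.norm_natCast_cpow_of_pos (Nat.pos_of_ne_zero (NeZero.ne q))]
  simp

theorem Z03_root {χ : DirichletCharacter ℂ q} (hχ : χ.IsPrimitive) (hq : 1 < q) :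
    ‖DirichletCharacter.rootNumber χ⁻¹‖ = 1 := by
  obtain ⟨t, ht⟩ := Z03_exists (ne_one hχ hq)
  have h1 := congrArg norm (Z03_fe hχ hq t)
  rw [norm_mul, norm_mul, RCLike.norm_conj, Z03_norm_cpow, one_mul] at h1
  have h2 : ‖χ.completedLFunction (1/2 + t * I)‖ ≠ 0 := by
    rw [norm_ne_zero_iff, Z03_comp]
    exact mul_ne_zero ht (Z03_gne χ t)
  have h3 : (‖DirichletCharacter.rootNumber χ⁻¹‖ - 1) * ‖χ.completedLFunction (1/2 + t * I)‖ = 0 := by
    linarith
  rcases mul_eq_zero.mp h3 with h | h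
  · linarith
  · exact absurd h h2

theorem cc_sq {χ : DirichletCharacter ℂ q} (hχ : χ.IsPrimitive) (hq : 1 < q) :
    cc χ ^ 2 = DirichletCharacter.rootNumber χ⁻¹ := by
  have h0 : DirichletCharacter.rootNumber χ⁻¹ ≠ 0 := by
    rw [← norm_ne_zero_iff, Z03_root hχ hq]
    exact one_ne_zero
  unfold cc
  rw [sq, ← cpow_add _ _ h0]
  norm_num

theorem cc_norm {χ : DirichletCharacter ℂ q} (hχ : χ.IsPrimitive) (hq : 1 < q) : ‖cc χ‖ = 1 := by
  have h1 := congrArg norm (cc_sq hχ hq)
  rw [norm_pow, Z03_root hχ hq] at h1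
  have h2 := norm_nonneg (cc χ)
  nlinarith

theorem uu_facts {χ : DirichletCharacter ℂ q} (hχ : χ.IsPrimitive) (hq : 1 < q) :
    (∀ t : ℝ, ‖uu χ t‖ = 1) ∧ Continuous (uu χ) ∧
      (∀ t : ℝ, (uu χ t * Lf χ (1/2 + t * I)).im = 0) := by
  refine ⟨fun t => ?_, ?_, fun t => ?_⟩
  · unfold uu
    rw [norm_mul, norm_mul, cc_norm hχ hq, Complex.norm_exp_ofReal_mul_I, norm_div, norm_real, norm_norm,
      div_self (norm_ne_zero_iff.2 (Z03_gne χ t))]
    norm_num
  · unfold uu
    refine (continuous_const.mul (by fun_prop)).mul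
      ((Z03_gcont χ).div (continuous_ofReal.comp (Z03_gcont χ).norm) (fun t => ?_))
    exact_mod_cast norm_ne_zero_iff.2 (Z03_gne χ t)
  · rw [← conj_eq_iff_im]
    have hfe := Z03_fe hχ hq t
    rw [Z03_comp, ← cc_sq hχ hq] at hfe
    set c := cc χ with hc
    set Lv := Lf χ (1/2 + t * I) with hLv
    set g := χ.gammaFactor (1/2 + t * I) with hg
    have hcc : conj c * c = 1 := by
      rw [mul_comm, mul_conj, normSq_eq_norm_sq, hc, cc_norm hχ hq]
      norm_num
    have hq0 : (0 : ℝ) < q := by exact_mod_cast (by omega : 0 < q)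
    have hqt : (q : ℂ) ^ (t * I) = exp ((t / 2 * Real.log q : ℝ) * I) * exp ((t / 2 * Real.log q : ℝ) * I) := by
      rw [← exp_add, cpow_def_of_ne_zero (by exact_mod_cast hq0.ne'), ← natCast_log]
      congr 1
      push_cast
      ring
    set e := exp ((t / 2 * Real.log q : ℝ) * I) with he
    have hee : conj e * e = 1 := by
      rw [mul_comm, mul_conj, normSq_eq_norm_sq, he, Complex.norm_exp_ofReal_mul_I]
      norm_num
    have hgn : (‖g‖ : ℂ) ≠ 0 := by exact_mod_cast norm_ne_zero_iff.2 (Z03_gne χ t)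
    have hu : uu χ t = c * e * (g / (‖g‖ : ℂ)) := rfl
    rw [hqt] at hfe
    rw [hu]
    have h1 : conj (c * e * (g / (‖g‖ : ℂ)) * Lv) = conj c * conj e * (conj (Lv * g) / (‖g‖ : ℂ)) := by
      simp only [map_mul, map_div₀, conj_ofReal]
      ring
    rw [h1, hfe]
    calc conj c * conj e * (e * e * c ^ 2 * (Lv * g) / (‖g‖ : ℂ))
        = (conj c * c) * (conj e * e) * (c * e * (g / (‖g‖ : ℂ)) * Lv) := by ring
      _ = _ := by rw [hcc, hee, one_mul, one_mul]

end LX

end F_X_Z03
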