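import Pool.Agent.Lib.MP_0f5a55_nt.V.V43
import Pool.Agent.Lib.MP_0f5a55_nt.V.V65

section F_X_Z02

open Complex MeasureTheory Set Filter Topology
open scoped ComplexConjugate

namespace LX

open LZ

variable {q : ℕ} [NeZero q]

theorem Z02_unit {ρ : ℂ} (hρ : ρ ≠ 0) : ‖ρ / (‖ρ‖ : ℂ) - 1‖ ≤ 2 * ‖ρ - 1‖ := by
  have hρn : (‖ρ‖ : ℂ) ≠ 0 := by exact_mod_cast (norm_pos_iff.2 hρ).ne'
  have h1 : ρ / ‖ρ‖ - 1 = (ρ / ‖ρ‖) * (1 - ‖ρ‖) + (ρ - 1) := by
    field_simp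
    ring
  have h2 : ‖ρ / (‖ρ‖ : ℂ)‖ = 1 := by
    rw [norm_div, Complex.norm_real, norm_norm, div_self (norm_pos_iff.2 hρ).ne']
  have h3 : ‖(1 - ‖ρ‖ : ℂ)‖ ≤ ‖ρ - 1‖ := by
    have e : (1 - ‖ρ‖ : ℂ) = ((1 - ‖ρ‖ : ℝ) : ℂ) := by push_cast; rfl
    rw [e, Complex.norm_real, Real.norm_eq_abs]
    have := abs_norm_sub_norm_le (1 : ℂ) ρ
    rw [norm_one, norm_sub_rev] at this
    exact this
  calc ‖ρ / ‖ρ‖ - 1‖ ≤ ‖(ρ / ‖ρ‖) * (1 - ‖ρ‖)‖ + ‖ρ - 1‖ := by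
        rw [h1]; exact norm_add_le _ _
    _ ≤ ‖ρ - 1‖ + ‖ρ - 1‖ := by
        rw [norm_mul, h2, one_mul]
        gcongr
    _ = 2 * ‖ρ - 1‖ := by ring

/-- the cosine in the duplication of the gamma factors -/
noncomputable def Z02_c (t : ℝ) : ℂ := Complex.cos (Real.pi * (1/2 + t * I) / 2)

theorem Z02_c_eq (t : ℝ) : Z02_c t = ((Real.exp (Real.pi * t / 2) / 2 : ℝ) : ℂ) *
    (exp ((-(Real.pi / 4) : ℝ) * I) * (1 + I * (Real.exp (-(Real.pi * t)) : ℂ))) := by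
  unfold Z02_c Complex.cos
  have e1 : (Real.pi : ℂ) * (1/2 + t * I) / 2 * I = ((-(Real.pi * t / 2) : ℝ) : ℂ) + ((Real.pi / 4 : ℝ) : ℂ) * I := by
    push_cast
    linear_combination (Real.pi * t / 2 : ℂ) * I_sq
  have e2 : -((Real.pi : ℂ) * (1/2 + t * I) / 2) * I = ((Real.pi * t / 2 : ℝ) : ℂ) + ((-(Real.pi / 4) : ℝ) : ℂ) * I := by
    push_cast
    linear_combination (-(Real.pi * t / 2) : ℂ) * I_sq
  have e3 : exp ((Real.pi / 4 : ℝ) * I) = I * exp ((-(Real.pi / 4) : ℝ) * I) := by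
    have : I = exp (Real.pi / 2 * I) := (Complex.exp_pi_div_two_mul_I).symm
    rw [this, ← exp_add]
    congr 1
    rw [← this]
    push_cast
    ring
  have e4 : exp ((-(Real.pi * t / 2) : ℝ) : ℂ) = exp ((Real.pi * t / 2 : ℝ) : ℂ) *
      (Real.exp (-(Real.pi * t)) : ℂ) := by
    rw [ofReal_exp, ← exp_add]
    congr 1
    push_cast
    ring
  rw [e1, e2, exp_add, exp_add, e3, e4]
  push_cast
  ring

/-- its phase -/
noncomputable def Z02_p (t : ℝ) : ℂ := Z02_c t / (‖Z02_c t‖ : ℂ)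

theorem Z02_exp_le {t : ℝ} (ht : 8 ≤ t) : Real.exp (-(Real.pi * t)) ≤ 1 / t := by
  have h0 : 0 < t := by linarith
  rw [Real.exp_neg, ← one_div]
  apply one_div_le_one_div_of_le h0
  have h1 := Real.add_one_le_exp (Real.pi * t)
  have h2 := Real.pi_gt_three
  nlinarith

theorem Z02_one_ne {t : ℝ} : (1 + I * ((Real.exp (-(Real.pi * t)) : ℝ) : ℂ)) ≠ 0 := by
  intro h
  have := congrArg Complex.re h
  have h2 : (I * ((Real.exp (-(Real.pi * t)) : ℝ) : ℂ)).re = 0 := by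
    rw [mul_re, I_re, I_im, ofReal_im, zero_mul, mul_zero, sub_zero]
  rw [add_re, one_re, h2, zero_re] at this
  norm_num at this

theorem Z02_p_near {t : ℝ} (ht : 8 ≤ t) : ‖Z02_p t - exp ((-(Real.pi / 4) : ℝ) * I)‖ ≤ 2 / t := by
  set r : ℝ := Real.exp (Real.pi * t / 2) / 2 with hr
  have hr0 : 0 < r := by positivity
  set w : ℂ := exp ((-(Real.pi / 4) : ℝ) * I) with hw
  set ρ : ℂ := 1 + I * (Real.exp (-(Real.pi * t)) : ℂ) with hρ
  have hρ0 : ρ ≠ 0 := Z02_one_ne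
  have hwn : ‖w‖ = 1 := Complex.norm_exp_ofReal_mul_I _
  have hc : Z02_c t = (r : ℂ) * (w * ρ) := Z02_c_eq t
  have hn : ‖Z02_c t‖ = r * ‖ρ‖ := by
    rw [hc, norm_mul, norm_mul, hwn, one_mul, norm_real, Real.norm_of_nonneg hr0.le]
  have hp : Z02_p t = w * (ρ / (‖ρ‖ : ℂ)) := by
    have h1 : (r : ℂ) ≠ 0 := by exact_mod_cast hr0.ne'
    have h2 : (‖ρ‖ : ℂ) ≠ 0 := by exact_mod_cast (norm_pos_iff.2 hρ0).ne'
    unfold Z02_p
    rw [hn, hc]
    push_cast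
    field_simp
  have e : Z02_p t - w = w * (ρ / (‖ρ‖ : ℂ) - 1) := by rw [hp]; ring
  rw [e, norm_mul, hwn, one_mul]
  refine (Z02_unit hρ0).trans ?_
  have h3 : ‖ρ - 1‖ ≤ 1 / t := by
    rw [hρ, add_sub_cancel_left, norm_mul, norm_I, one_mul, norm_real,
      Real.norm_of_nonneg (Real.exp_pos _).le]
    exact Z02_exp_le ht
  calc 2 * ‖ρ - 1‖ ≤ 2 * (1 / t) := by gcongr
    _ = 2 / t := by ring

theorem Z02_c_ne {t : ℝ} (ht : 8 ≤ t) : Z02_c t ≠ 0 := by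
  intro h
  have h1 := Z02_p_near ht
  unfold Z02_p at h1
  rw [h, norm_zero, ofReal_zero, div_zero, zero_sub, norm_neg, Complex.norm_exp_ofReal_mul_I,
    le_div_iff₀ (by linarith)] at h1
  linarith

theorem Z02_p_norm {t : ℝ} (ht : 8 ≤ t) : ‖Z02_p t‖ = 1 := by
  unfold Z02_p
  rw [norm_div, norm_real, norm_norm, div_self (norm_ne_zero_iff.2 (Z02_c_ne ht))]

/-- the phase of the odd gamma factor -/
theorem Z02_odd {t : ℝ} (ht : 8 ≤ t) :
    Gammaℝ (1/2 + t * I + 1) / (‖Gammaℝ (1/2 + t * I + 1)‖ : ℂ) = LZ.uu t * conj (Z02_p t) := by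
  have h1 := Complex.Gammaℝ_one_sub_mul_Gammaℝ_one_add (1/2 + t * I)
  have hc : 1 - ((1:ℂ)/2 + t * I) = conj (1/2 + t * I) := by
    simp only [map_add, map_mul, conj_ofReal, conj_I, map_div₀, map_one]
    rw [Complex.conj_ofNat]
    ring
  rw [hc, Z03_Gammaℝ_conj, add_comm (1 : ℂ) (1/2 + t * I)] at h1
  have hcd : Complex.cos (Real.pi * (1/2 + t * I) / 2) = Z02_c t := rfl
  rw [hcd] at h1
  set G := Gammaℝ (1/2 + t * I) with hG
  set O := Gammaℝ (1/2 + t * I + 1) with hO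
  set c := Z02_c t with hcc
  have hG0 : G ≠ 0 := Z03_ne t
  have hc0 : c ≠ 0 := Z02_c_ne ht
  have hGc0 : conj G ≠ 0 := by rwa [Ne, map_eq_zero]
  have hOe : O = (conj G)⁻¹ * c⁻¹ := by
    rw [← h1, ← mul_assoc, inv_mul_cancel₀ hGc0, one_mul]
  have hOn : ‖O‖ = ‖G‖⁻¹ * ‖c‖⁻¹ := by
    rw [hOe, norm_mul, norm_inv, norm_inv, RCLike.norm_conj]
  have hGn : (‖G‖ : ℂ) ≠ 0 := by exact_mod_cast norm_ne_zero_iff.2 hG0
  have hcn : (‖c‖ : ℂ) ≠ 0 := by exact_mod_cast norm_ne_zero_iff.2 hc0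
  have hGG : G * conj G = (‖G‖ : ℂ) ^ 2 := by rw [mul_conj, normSq_eq_norm_sq]; push_cast; rfl
  have hCC : c * conj c = (‖c‖ : ℂ) ^ 2 := by rw [mul_conj, normSq_eq_norm_sq]; push_cast; rfl
  have hu : LZ.uu t = G / (‖G‖ : ℂ) := rfl
  have hp : conj (Z02_p t) = conj c / (‖c‖ : ℂ) := by
    unfold Z02_p
    rw [map_div₀, conj_ofReal]
  have hGi : (conj G)⁻¹ = G / (‖G‖ : ℂ) ^ 2 := by
    rw [← hGG]
    field_simp
  have hci : conj c = (‖c‖ : ℂ) ^ 2 * c⁻¹ := by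
    rw [← hCC]
    field_simp
  rw [hOn, hOe, hu, hp, hGi, hci]
  push_cast
  field_simp

theorem Z02_phase {χ : DirichletCharacter ℂ q} : ∃ C : ℝ, 0 < C ∧ ∀ t v : ℝ, 8 ≤ t → 0 ≤ v → v ≤ 1 →
    ‖(χ.gammaFactor (1/2 + t * I) / (‖χ.gammaFactor (1/2 + t * I)‖ : ℂ)) *
      conj (χ.gammaFactor (1/2 + (t + v : ℝ) * I) / (‖χ.gammaFactor (1/2 + (t + v : ℝ) * I)‖ : ℂ)) -
      exp (-(v / 2 * Real.log (t / (2 * Real.pi)) : ℝ) * I)‖ ≤ C / t := by
  obtain ⟨C, hC, H⟩ := LZ.uu_phase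
  rcases χ.even_or_odd with h | h
  · refine ⟨C, hC, fun t v ht hv0 hv1 => ?_⟩
    rw [h.gammaFactor_def, h.gammaFactor_def]
    exact H t v ht hv0 hv1
  · refine ⟨C + 4, by linarith, fun t v ht hv0 hv1 => ?_⟩
    rw [h.gammaFactor_def, h.gammaFactor_def, Z02_odd ht, Z02_odd (by linarith : 8 ≤ t + v)]
    have h1 := H t v ht hv0 hv1
    set A := LZ.uu t * conj (LZ.uu (t + v)) with hA
    set E := exp (-(v / 2 * Real.log (t / (2 * Real.pi)) : ℝ) * I) with hE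
    have hAn : ‖A‖ = 1 := by
      rw [hA, norm_mul, RCLike.norm_conj, LZ.uu_facts.1, LZ.uu_facts.1, one_mul]
    have hpn := Z02_p_norm ht
    have e1 : LZ.uu t * conj (Z02_p t) * conj (LZ.uu (t + v) * conj (Z02_p (t + v))) - E =
        A * (conj (Z02_p t) * (Z02_p (t + v) - Z02_p t)) + (A - E) +
          A * (conj (Z02_p t) * Z02_p t - 1) := by
      simp only [map_mul, Complex.conj_conj]
      rw [hA]
      ring
    have e2 : conj (Z02_p t) * Z02_p t - 1 = 0 := by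
      rw [mul_comm, mul_conj, normSq_eq_norm_sq, hpn]
      norm_num
    rw [e1, e2, mul_zero, add_zero]
    have h2 : ‖Z02_p (t + v) - Z02_p t‖ ≤ 4 / t := by
      set w : ℂ := exp ((-(Real.pi / 4) : ℝ) * I) with hw
      have h3 := Z02_p_near ht
      have h4 := Z02_p_near (by linarith : 8 ≤ t + v)
      have h5 : 2 / (t + v) ≤ 2 / t := div_le_div_of_nonneg_left (by norm_num) (by linarith) (by linarith)
      calc ‖Z02_p (t + v) - Z02_p t‖ = ‖(Z02_p (t + v) - w) - (Z02_p t - w)‖ := by congr 1; ring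
        _ ≤ ‖Z02_p (t + v) - w‖ + ‖Z02_p t - w‖ := norm_sub_le _ _
        _ ≤ 2 / t + 2 / t := add_le_add (h4.trans h5) h3
        _ = 4 / t := by ring
    refine (norm_add_le _ _).trans ?_
    clear_value A E
    have e3 : ‖A * (conj (Z02_p t) * (Z02_p (t + v) - Z02_p t))‖ = ‖Z02_p (t + v) - Z02_p t‖ := by
      rw [norm_mul, norm_mul, hAn, RCLike.norm_conj, hpn, one_mul, one_mul]
    rw [e3]
    calc ‖Z02_p (t + v) - Z02_p t‖ + ‖A - E‖ ≤ 4 / t + C / t := add_le_add h2 h1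
      _ = (C + 4) / t := by ring

theorem uu_phase {χ : DirichletCharacter ℂ q} (hχ : χ.IsPrimitive) (hq : 1 < q) :
    ∃ C : ℝ, 0 < C ∧ ∀ t v : ℝ, 8 ≤ t → 0 ≤ v → v ≤ 1 →
    ‖uu χ t * conj (uu χ (t + v)) - exp (-(v / 2 * Real.log (q * t / (2 * Real.pi)) : ℝ) * I)‖ ≤ C / t := by
  obtain ⟨C, hC, H⟩ := Z02_phase (χ := χ)
  refine ⟨C, hC, fun t v ht hv0 hv1 => ?_⟩
  have h1 := H t v ht hv0 hv1
  have hq0 : (0 : ℝ) < q := by exact_mod_cast (by omega : 0 < q)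
  have ht0 : 0 < t := by linarith
  set P := χ.gammaFactor (1/2 + t * I) / (‖χ.gammaFactor (1/2 + t * I)‖ : ℂ) with hP
  set P' := χ.gammaFactor (1/2 + (t + v : ℝ) * I) / (‖χ.gammaFactor (1/2 + (t + v : ℝ) * I)‖ : ℂ) with hP'
  have hcc : cc χ * conj (cc χ) = 1 := by
    rw [mul_conj, normSq_eq_norm_sq, cc_norm hχ hq]
    norm_num
  have he : exp ((t / 2 * Real.log q : ℝ) * I) * conj (exp (((t + v) / 2 * Real.log q : ℝ) * I)) =
      exp ((-(v / 2 * Real.log q) : ℝ) * I) := by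
    rw [← exp_conj, map_mul, conj_ofReal, conj_I, ← exp_add]
    congr 1
    push_cast
    ring
  have hE : exp (-(v / 2 * Real.log (q * t / (2 * Real.pi)) : ℝ) * I) =
      exp ((-(v / 2 * Real.log q) : ℝ) * I) * exp (-(v / 2 * Real.log (t / (2 * Real.pi)) : ℝ) * I) := by
    rw [← exp_add]
    congr 1
    have : Real.log (q * t / (2 * Real.pi)) = Real.log q + Real.log (t / (2 * Real.pi)) := by
      rw [mul_div_assoc, Real.log_mul hq0.ne' (by positivity)]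
    rw [this]
    push_cast
    ring
  have hu : uu χ t * conj (uu χ (t + v)) = exp ((-(v / 2 * Real.log q) : ℝ) * I) * (P * conj P') := by
    have a1 : uu χ t = cc χ * exp ((t / 2 * Real.log q : ℝ) * I) * P := rfl
    have a2 : uu χ (t + v) = cc χ * exp (((t + v) / 2 * Real.log q : ℝ) * I) * P' := rfl
    rw [a1, a2, map_mul, map_mul]
    calc cc χ * exp ((t / 2 * Real.log q : ℝ) * I) * P *
          (conj (cc χ) * conj (exp (((t + v) / 2 * Real.log q : ℝ) * I)) * conj P')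
        = (cc χ * conj (cc χ)) * (exp ((t / 2 * Real.log q : ℝ) * I) *
          conj (exp (((t + v) / 2 * Real.log q : ℝ) * I))) * (P * conj P') := by ring
      _ = _ := by rw [hcc, he, one_mul]
  rw [hu, hE, ← mul_sub, norm_mul, Complex.norm_exp_ofReal_mul_I, one_mul]
  exact h1

end LX

end F_X_Z02

section F_X_Z04

open Complex MeasureTheory Set Filter Topology
open scoped ComplexConjugate

namespace LX

open LZ

variable {q : ℕ} [NeZero q]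

theorem z04_mol_cont (χ : DirichletCharacter ℂ q) (lam l : ℝ) : Continuous (fun t : ℝ => Mol χ lam l (1/2 + t * I)) :=
  (Mol_cont χ lam l).comp (by fun_prop)

theorem z04_zeta_cont {χ : DirichletCharacter ℂ q} (hχ : χ ≠ 1) : Continuous (fun t : ℝ => Lf χ (1/2 + t * I)) :=
  (Lf_diff hχ).continuous.comp (by fun_prop)

theorem z04_mol_norm (χ : DirichletCharacter ℂ q) {l : ℝ} (hl : 0 < l) (t : ℝ) :
    ‖Mol χ (1/2) l (1/2 + t * I)‖ ≤ Real.exp l :=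
  Mol_bound χ (by norm_num) (by norm_num) hl (by simp)

theorem z04_real {χ : DirichletCharacter ℂ q} (hχ : χ.IsPrimitive) (hq : 1 < q) (l t : ℝ) : ((GG χ l t : ℝ) : ℂ) =
    uu χ t * Lf χ (1/2 + t * I) *
      (Mol χ (1/2) l (1/2 + t * I) * conj (Mol χ (1/2) l (1/2 + t * I))) := by
  have him := (uu_facts hχ hq).2.2 t
  have h1 : (((uu χ t * Lf χ (1/2 + t * I)).re : ℝ) : ℂ) = uu χ t * Lf χ (1/2 + t * I) := by
    apply Complex.ext
    · simp
    · rw [him]; simp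
  unfold GG
  rw [ofReal_mul, h1, mul_conj, normSq_eq_norm_sq]

/-- facts on GG: continuity, absolute value, growth, product formula with XX (v real). -/
theorem GG_facts {χ : DirichletCharacter ℂ q} (hχ : χ.IsPrimitive) (hq : 1 < q) : (∀ l : ℝ, Continuous (GG χ l)) ∧
    (∀ l t : ℝ, |GG χ l t| = ‖Lf χ (1/2 + t * I) * Mol χ (1/2) l (1/2 + t * I) ^ 2‖) ∧
    (∀ l t v : ℝ, ((GG χ l t * GG χ l (t + v) : ℝ) : ℂ) = uu χ t * conj (uu χ (t + v)) *
      XX χ (fun _ => 1/2) l 0 (-(v * I)) ![0, v * I, 0, -(v * I)] t) ∧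
    (∃ C : ℝ, 0 < C ∧ ∀ l t : ℝ, 0 < l → 0 ≤ t → |GG χ l t| ≤ C * Real.exp (2 * l) * (1 + t)) := by
  have habs : ∀ l t : ℝ, |GG χ l t| = ‖Lf χ (1/2 + t * I) * Mol χ (1/2) l (1/2 + t * I) ^ 2‖ := by
    intro l t
    have h1 : |GG χ l t| = ‖((GG χ l t : ℝ) : ℂ)‖ := by rw [norm_real, Real.norm_eq_abs]
    rw [h1, z04_real hχ hq, norm_mul, norm_mul, norm_mul, norm_mul, norm_pow, (uu_facts hχ hq).1 t, one_mul,
      norm_conj, pow_two]
  refine ⟨?_, habs, ?_, ?_⟩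
  · intro l
    unfold GG
    refine Continuous.mul ?_ ?_
    · exact continuous_re.comp ((uu_facts hχ hq).2.1.mul (z04_zeta_cont (ne_one hχ hq)))
    · exact (z04_mol_cont χ (1/2) l).norm.pow 2
  · intro l t v
    have h1 : ((GG χ l (t + v) : ℝ) : ℂ) = conj ((GG χ l (t + v) : ℝ) : ℂ) := (conj_ofReal _).symm
    rw [ofReal_mul, z04_real hχ hq l t, h1, z04_real hχ hq l (t + v)]
    simp only [map_mul, conj_conj]
    unfold XX
    have e1 : (1/2 + 0 + (t : ℂ) * I) = 1/2 + t * I := by ring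
    have e2 : (1/2 + -((v : ℂ) * I) - (t : ℂ) * I) = conj (1/2 + ((t + v : ℝ) : ℂ) * I) := by
      simp only [map_add, map_mul, conj_ofReal, conj_I, map_div₀, map_one, map_ofNat, ofReal_add]
      ring
    have e3 : (1/2 + (v : ℂ) * I + (t : ℂ) * I) = 1/2 + ((t + v : ℝ) : ℂ) * I := by
      push_cast; ring
    have e4 : (1/2 + 0 - (t : ℂ) * I) = conj (1/2 + (t : ℂ) * I) := by
      simp only [map_add, map_mul, conj_ofReal, conj_I, map_div₀, map_one, map_ofNat]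
      ring
    have v0 : (![(0 : ℂ), v * I, 0, -(v * I)] : Fin 4 → ℂ) 0 = 0 := rfl
    have v1 : (![(0 : ℂ), v * I, 0, -(v * I)] : Fin 4 → ℂ) 1 = v * I := rfl
    have v2 : (![(0 : ℂ), v * I, 0, -(v * I)] : Fin 4 → ℂ) 2 = 0 := rfl
    have v3 : (![(0 : ℂ), v * I, 0, -(v * I)] : Fin 4 → ℂ) 3 = -(v * I) := rfl
    rw [v0, v1, v2, v3, e1, e2, e3, e4, Lf_conj (ne_one hχ hq), Mol_conj, Mol_conj]
    ring
  · obtain ⟨C, hC, hz⟩ := L_pol (ne_one hχ hq)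
    refine ⟨C, hC, fun l t hl ht => ?_⟩
    rw [habs, norm_mul, norm_pow]
    have h1 : ‖Lf χ (1/2 + t * I)‖ ≤ C * (1 + t) := by
      have h2 := hz (1/2 + t * I) (by simp; norm_num)
      have h5 : (1/2 + t * I : ℂ).im = t := by simp
      rw [h5, abs_of_nonneg ht] at h2
      exact h2
    have h6 := z04_mol_norm χ hl t
    have h7 : ‖Mol χ (1/2) l (1/2 + t * I)‖ ^ 2 ≤ Real.exp (2 * l) := by
      have h8 : Real.exp (2 * l) = Real.exp l ^ 2 := by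
        rw [← Real.exp_nat_mul]; norm_num
      rw [h8]
      exact pow_le_pow_left₀ (norm_nonneg _) h6 2
    calc ‖Lf χ (1/2 + t * I)‖ * ‖Mol χ (1/2) l (1/2 + t * I)‖ ^ 2
        ≤ (C * (1 + t)) * Real.exp (2 * l) :=
          mul_le_mul h1 h7 (by positivity) (by positivity)
      _ = C * Real.exp (2 * l) * (1 + t) := by ring

end LX

end F_X_Z04
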