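import Pool.Agent.Lib.MP_0f5a55_nt.V.V30

section F_X_M05

open Complex MeasureTheory Set Filter Topology
open scoped ComplexConjugate

namespace LX

open LZ

variable {q : ℕ} [NeZero q]

/-- crude bound of XX uniformly in the parameters -/
theorem XX_bound {χ : DirichletCharacter ℂ q} (hχ : χ ≠ 1) (lam : Fin 4 → ℝ)
    (hl : ∀ j, 0 ≤ lam j ∧ lam j ≤ 1) (l U : ℝ) (hl0 : 0 < l) (hU : 0 ≤ U) :
    ∃ C : ℝ, 0 < C ∧
    ∀ (α β : ℂ) (τ : Fin 4 → ℂ), |α.re| ≤ 1/16 → |β.re| ≤ 1/16 → |α.im| ≤ U → |β.im| ≤ U →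
    (∀ j, |(τ j).re| ≤ 1/16) → Continuous (XX χ lam l α β τ) ∧
    ∀ t : ℝ, ‖XX χ lam l α β τ t‖ ≤ C * (1 + |t|) ^ 2 := by
  have hχ' : χ⁻¹ ≠ 1 := inv_ne_one.mpr hχ
  obtain ⟨Z1, hZ1, hZb1⟩ := L_pol hχ
  obtain ⟨Z2, hZ2, hZb2⟩ := L_pol hχ'
  set M : ℝ := Real.exp l with hM
  have hM0 : 0 < M := Real.exp_pos l
  refine ⟨(Z1 * (1 + U)) * (Z2 * (1 + U)) * (M * M * M * M), by positivity, ?_⟩
  intro α β τ hα hβ hαU hβU hτ
  have hτre : ∀ j, -(1/16) ≤ (τ j).re := fun j => (abs_le.mp (hτ j)).1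
  constructor
  · unfold XX
    refine Continuous.mul (Continuous.mul ?_ ?_) (((Continuous.mul ?_ ?_).mul ?_).mul ?_)
    · exact (Lf_diff hχ).continuous.comp (by fun_prop)
    · exact (Lf_diff hχ').continuous.comp (by fun_prop)
    · exact (Mol_cont _ _ _).comp (by fun_prop)
    · exact (Mol_cont _ _ _).comp (by fun_prop)
    · exact (Mol_cont _ _ _).comp (by fun_prop)
    · exact (Mol_cont _ _ _).comp (by fun_prop)
  · intro t
    have hα' := abs_le.mp hα
    have hβ' := abs_le.mp hβ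
    have h4 : 0 ≤ |t| := abs_nonneg t
    have hz1 : ‖Lf χ (1/2 + α + t * I)‖ ≤ Z1 * (1 + U) * (1 + |t|) := by
      refine (hZb1 _ (by simp; linarith [hα'.1])).trans ?_
      have h2 : |(1/2 + α + t * I : ℂ).im| ≤ U + |t| := by
        have h3 : (1/2 + α + t * I : ℂ).im = α.im + t := by simp
        rw [h3]
        exact (abs_add_le _ _).trans (add_le_add hαU le_rfl)
      have h5 : 1 + |(1/2 + α + t * I : ℂ).im| ≤ (1 + U) * (1 + |t|) := by nlinarith
      calc Z1 * (1 + |(1/2 + α + t * I : ℂ).im|) ≤ Z1 * ((1 + U) * (1 + |t|)) :=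
            mul_le_mul_of_nonneg_left h5 hZ1.le
        _ = _ := by ring
    have hz2 : ‖Lf χ⁻¹ (1/2 + β - t * I)‖ ≤ Z2 * (1 + U) * (1 + |t|) := by
      refine (hZb2 _ (by simp; linarith [hβ'.1])).trans ?_
      have h2 : |(1/2 + β - t * I : ℂ).im| ≤ U + |t| := by
        have h3 : (1/2 + β - t * I : ℂ).im = β.im + -t := by
          simp
          ring
        rw [h3]
        refine (abs_add_le _ _).trans ?_
        rw [abs_neg]
        exact add_le_add hβU le_rfl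
      have h5 : 1 + |(1/2 + β - t * I : ℂ).im| ≤ (1 + U) * (1 + |t|) := by nlinarith
      calc Z2 * (1 + |(1/2 + β - t * I : ℂ).im|) ≤ Z2 * ((1 + U) * (1 + |t|)) :=
            mul_le_mul_of_nonneg_left h5 hZ2.le
        _ = _ := by ring
    have hm : ∀ (ψ : DirichletCharacter ℂ q) (j : Fin 4) (w : ℂ), w.re = 0 →
        ‖Mol ψ (lam j) l (1/2 + τ j + w)‖ ≤ M := by
      intro ψ j w hw
      apply Mol_bound ψ (hl j).1 (hl j).2 hl0
      simp only [Complex.add_re, hw]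
      have := hτre j
      norm_num
      linarith
    have hm0 := hm χ 0 (t * I) (by simp)
    have hm1 := hm χ 1 (t * I) (by simp)
    have hm2 := hm χ⁻¹ 2 (-(t * I)) (by simp)
    have hm3 := hm χ⁻¹ 3 (-(t * I)) (by simp)
    rw [← sub_eq_add_neg] at hm2 hm3
    unfold XX
    rw [norm_mul, norm_mul, norm_mul, norm_mul, norm_mul]
    calc _ ≤ (Z1 * (1 + U) * (1 + |t|)) * (Z2 * (1 + U) * (1 + |t|)) * (M * M * M * M) := by
          gcongr
      _ = _ := by ring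

end LX

end F_X_M05
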