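import Pool.Agent.Lib.MP_0f5a55_nt.V.V06
import Pool.Agent.Lib.MP_0f5a55_nt.V.V33
import Pool.Agent.Lib.MP_0f5a55_nt.V.V47
import Pool.Agent.Lib.MP_0f5a55_nt.V.V50

section F_X_QI

open Complex MeasureTheory Set Filter Topology
open scoped ComplexConjugate

namespace LX

open LZ

private theorem QIm2 {a b c d : ℝ} (h : 0 ≤ a ∧ a ≤ b) (h' : 0 ≤ c ∧ c ≤ d) :
    0 ≤ a * c ∧ a * c ≤ b * d :=
  ⟨mul_nonneg h.1 h'.1, mul_le_mul h.2 h'.2 h'.1 (h.1.trans h.2)⟩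

private theorem QIring (k0 k1 k2 k3 a0 a1 a2 a3 : ℝ) :
    k0 * a0 ^ 3 * (k1 * a1 ^ 3) * (k2 * a2 ^ 3) * (k3 * a3 ^ 3) =
      k0 * a0 ^ 1 * (k1 * a1 ^ 1) * (k2 * a2 ^ 1) * (k3 * a3 ^ 1) *
        (a0 ^ 2 * a1 ^ 2 * a2 ^ 2 * a3 ^ 2) := by ring

private theorem QImu {C5 C4 l K0 K1 K2 K3 E0 E2 E4 s0 s2 g0 g1 g2 g3 : ℝ} (hl : 0 < l)
    (hC5 : 0 < C5) (hC4 : 0 < C4) (k0 : 0 ≤ K0) (k1 : 0 ≤ K1) (k2 : 0 ≤ K2) (k3 : 0 ≤ K3)
    (e0 : 0 ≤ E0) (e2 : 0 ≤ E2) (e4 : 0 ≤ E4) (b0 : E0 ≤ 2 * C5 * s0 / l)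
    (b2 : E2 ≤ 2 * C5 * s2 / l) (b4 : E4 ≤ C4 * l) (hs0 : 0 ≤ s0) (hs2 : 0 ≤ s2)
    (h0 : K0 * s0 ≤ g0) (h1 : K1 ≤ g1) (h2 : K2 * s2 ≤ g2) (h3 : K3 ≤ g3) :
    K0 * K1 * K2 * K3 * (E0 * E2 * E4) ≤ (4 * C5 ^ 2 * C4 / l) * (g0 * g1 * g2 * g3) := by
  have a1 : E0 * E2 * E4 ≤ (2 * C5 * s0 / l) * (2 * C5 * s2 / l) * (C4 * l) :=
    (QIm2 (QIm2 ⟨e0, b0⟩ ⟨e2, b2⟩) ⟨e4, b4⟩).2
  have a2 : (K0 * s0) * K1 * (K2 * s2) * K3 ≤ g0 * g1 * g2 * g3 :=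
    (QIm2 (QIm2 (QIm2 ⟨mul_nonneg k0 hs0, h0⟩ ⟨k1, h1⟩) ⟨mul_nonneg k2 hs2, h2⟩) ⟨k3, h3⟩).2
  have a3 : 0 ≤ K0 * K1 * K2 * K3 := mul_nonneg (mul_nonneg (mul_nonneg k0 k1) k2) k3
  have a4 : 0 ≤ 4 * C5 ^ 2 * C4 / l := by positivity
  refine (mul_le_mul_of_nonneg_left a1 a3).trans (le_trans (le_of_eq ?_)
    (mul_le_mul_of_nonneg_left a2 a4))
  field_simp
  ring

/-- (2.4). Replace e 1, e 3 by 0 (QQ_congr). SR = -R(A0)-R(A2)+R(A0+A2-C); R_neg (with |eta| <= 1/(8l)) twice,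
and exp R <= C l by R_exp (Re w >= 1/l). Integrate the product (integral_fintype_prod_eq_prod). -/
theorem QQ_mu : ∃ K : ℝ, 0 < K ∧ ∀ q : ℕ, 1 ≤ q → ∃ l0 : ℝ, 1 ≤ l0 ∧ ∀ l : ℝ, l0 ≤ l →
    ∀ (e : Fin 4 → ℂ) (e4 : ℂ), ‖e 0‖ ≤ 1 / (8 * l) → ‖e 2‖ ≤ 1 / (8 * l) → ‖e4‖ ≤ 1 / (8 * l) →
    ‖QQ q ⌊Real.exp l⌋₊ ![1, 0, 1, 0] l e e4‖ ≤ K / (rq q * l) := by
  obtain ⟨K1, hK1, hQ⟩ := QQ_boundq
  obtain ⟨C5, l5, hC5, hl5, hneg⟩ := R_neg
  obtain ⟨C4, hC4, hexp⟩ := R_exp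
  obtain ⟨hkc, hki⟩ := kk_facts
  set g : ℝ → ℝ := fun u => ‖kk u‖ * (1 + |u|) ^ 16 with hg
  have hG : 0 ≤ ∫ u, g u := integral_nonneg (fun u => by simp only [hg, Pi.zero_apply]; positivity)
  set G : ℝ := ∫ u, g u with hGdef
  refine ⟨K1 * (4 * C5 ^ 2 * C4) * G ^ 4 + 1, by positivity, fun q hq => ?_⟩
  obtain ⟨ρ, l1, hρ, hl1, hQ⟩ := hQ q hq
  have hrq := rq_pos q
  refine ⟨max (max l1 l5) (max 3 (1 / ρ)),
    (by linarith : (1 : ℝ) ≤ l1).trans ((le_max_left l1 l5).trans (le_max_left _ _)), ?_⟩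
  intro l hl e e4 h0 h2 h4n
  have h4 : |e4.re| ≤ 1 / (8 * l) := (Complex.abs_re_le_norm _).trans h4n
  have hll1 : l1 ≤ l := ((le_max_left l1 l5).trans (le_max_left _ _)).trans hl
  have hll5 : l5 ≤ l := ((le_max_right l1 l5).trans (le_max_left _ _)).trans hl
  have hl3 : (3 : ℝ) ≤ l := ((le_max_left _ _).trans (le_max_right _ _)).trans hl
  have hlρ : 1 / ρ ≤ l := ((le_max_right _ _).trans (le_max_right _ _)).trans hl
  have hlpos : 0 < l := by linarith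
  have hcongr := QQ_congr q ⌊Real.exp l⌋₊ ![1, 0, 1, 0] l e ![e 0, 0, e 2, 0] e4
    (by intro j; fin_cases j <;> simp)
  rw [hcongr]
  have h18 : (0 : ℝ) ≤ 1 / (8 * l) := by positivity
  have h8ρ : 1 / (8 * l) ≤ ρ := by
    rw [div_le_iff₀ hρ] at hlρ
    rw [div_le_iff₀ (by positivity)]
    linarith [mul_pos hlpos hρ]
  have hB := hQ l hll1 ![1, 0, 1, 0] (by intro j; fin_cases j <;> simp)
    (by simp [Fin.sum_univ_four]) ![e 0, 0, e 2, 0] e4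
    (by
      intro j
      fin_cases j
      · exact (Complex.abs_re_le_norm _).trans h0
      · simpa using h18
      · exact (Complex.abs_re_le_norm _).trans h2
      · simpa using h18) h4
    (by
      intro j
      fin_cases j
      · exact h0.trans h8ρ
      · simpa using hρ.le
      · exact h2.trans h8ρ
      · simpa using hρ.le) (h4n.trans h8ρ)
  refine hB.2.trans ?_
  have hsmall : 1 / (8 * l) ≤ 1 / 4 := by
    apply one_div_le_one_div_of_le <;> linarith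
  have hone : ∀ η : ℂ, ‖η‖ ≤ 1 / (8 * l) → ∀ u : ℝ,
      Real.exp (-R (1 + η + (1 + u * I) / l)) ≤ 2 * C5 * (1 + |u|) ^ 2 / l := by
    intro η hη u
    refine (hneg l hll5 η ((Complex.abs_re_le_norm _).trans hη) (hη.trans hsmall) u).trans ?_
    have h1 : 1 + l * ‖η‖ ≤ 2 := by
      have : l * ‖η‖ ≤ l * (1 / (8 * l)) := mul_le_mul_of_nonneg_left hη hlpos.le
      have h2 : l * (1 / (8 * l)) = 1 / 8 := by field_simp
      linarith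
    have h3 : (0 : ℝ) ≤ (1 + |u|) ^ 2 := by positivity
    rw [div_le_div_iff_of_pos_right hlpos]
    refine (mul_le_mul_of_nonneg_right (mul_le_mul_of_nonneg_left h1 hC5.le) h3).trans
      (le_of_eq ?_)
    rw [mul_comm C5 2]
  have hw : ∀ x y : ℝ, Real.exp (R (1 + e 0 + (1 + x * I) / l + (1 + e 2 + (1 + y * I) / l)
      - (1 + e4))) ≤ C4 * l := by
    intro x y
    set w : ℂ := e 0 + e 2 - e4 + (2 + (x + y) * I) / l with hwdef
    have hwe : 1 + e 0 + (1 + x * I) / l + (1 + e 2 + (1 + y * I) / l) - (1 + e4) = 1 + w := by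
      rw [hwdef]
      field_simp
      ring
    rw [hwe]
    have hre : w.re = (e 0).re + (e 2).re - e4.re + 2 / l := by
      rw [hwdef]
      simp [Complex.div_ofReal_re]
    have a0 := abs_le.1 ((Complex.abs_re_le_norm (e 0)).trans h0)
    have a2 := abs_le.1 ((Complex.abs_re_le_norm (e 2)).trans h2)
    have a4 := abs_le.1 h4
    have hq : 1 / (8 * l) = (1 / 8) * (1 / l) := by field_simp
    have hq2 : 2 / l = 2 * (1 / l) := by ring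
    have hli : 0 < 1 / l := by positivity
    have hli3 : 1 / l ≤ 1 / 3 := one_div_le_one_div_of_le (by norm_num) hl3
    have hlow : 1 / l ≤ w.re := by
      rw [hre, hq2]
      rw [hq] at a0 a2 a4
      linarith [a0.1, a2.1, a4.2]
    have hup : w.re ≤ 1 := by
      rw [hre, hq2]
      rw [hq] at a0 a2 a4
      linarith [a0.2, a2.2, a4.1]
    refine (hexp w (lt_of_lt_of_le hli hlow) hup).1.trans ?_
    rw [div_le_iff₀ (lt_of_lt_of_le hli hlow)]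
    have : C4 * l * (1 / l) ≤ C4 * l * w.re := mul_le_mul_of_nonneg_left hlow (by positivity)
    have h5 : C4 * l * (1 / l) = C4 := by field_simp
    linarith
  have hkg : ∀ x : ℝ, ‖kk x‖ * (1 + |x|) ^ 1 ≤ g x := by
    intro x
    have h1 : (1 + |x|) ^ 1 ≤ (1 + |x|) ^ 16 :=
      pow_le_pow_right₀ (by linarith [abs_nonneg x]) (by norm_num)
    exact mul_le_mul_of_nonneg_left h1 (norm_nonneg (kk x))
  have hkg2 : ∀ x : ℝ, ‖kk x‖ * (1 + |x|) ^ 1 * (1 + |x|) ^ 2 ≤ g x := by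
    intro x
    have h1 : (1 + |x|) ^ 3 ≤ (1 + |x|) ^ 16 :=
      pow_le_pow_right₀ (by linarith [abs_nonneg x]) (by norm_num)
    have h2 := mul_le_mul_of_nonneg_left h1 (norm_nonneg (kk x))
    calc ‖kk x‖ * (1 + |x|) ^ 1 * (1 + |x|) ^ 2 = ‖kk x‖ * (1 + |x|) ^ 3 := by ring
      _ ≤ g x := h2
  have hg0 : ∀ x, 0 ≤ g x := fun x => by
    have : 0 ≤ ‖kk x‖ * (1 + |x|) ^ 1 := by positivity
    exact this.trans (hkg x)
  have hpt : ∀ u : Fin 4 → ℝ, (∏ j, (‖kk (u j)‖ * (1 + |u j|) ^ 1)) * Real.exp (SR R ![1, 0, 1, 0]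
      (Aex l ![e 0, 0, e 2, 0] u) (1 + e4)) ≤ (4 * C5 ^ 2 * C4 / l) * ∏ j, g (u j) := by
    intro u
    have hSR : SR R ![1, 0, 1, 0] (Aex l ![e 0, 0, e 2, 0] u) (1 + e4) =
        -R (1 + e 0 + (1 + u 0 * I) / l) + -R (1 + e 2 + (1 + u 2 * I) / l)
        + R (1 + e 0 + (1 + u 0 * I) / l + (1 + e 2 + (1 + u 2 * I) / l) - (1 + e4)) := by
      simp only [SR, Fin.sum_univ_four, Aex, Matrix.cons_val_zero, Matrix.cons_val_one,
        Matrix.cons_val]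
      ring
    rw [hSR, Real.exp_add, Real.exp_add, Fin.prod_univ_four, Fin.prod_univ_four]
    have b0 := hone (e 0) h0 (u 0)
    have b2 := hone (e 2) h2 (u 2)
    have b4 := hw (u 0) (u 2)
    have k0 : 0 ≤ ‖kk (u 0)‖ * (1 + |u 0|) ^ 1 := by positivity
    have k1 : 0 ≤ ‖kk (u 1)‖ * (1 + |u 1|) ^ 1 := by positivity
    have k2 : 0 ≤ ‖kk (u 2)‖ * (1 + |u 2|) ^ 1 := by positivity
    have k3 : 0 ≤ ‖kk (u 3)‖ * (1 + |u 3|) ^ 1 := by positivity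
    exact QImu hlpos hC5 hC4 k0 k1 k2 k3 (Real.exp_pos _).le (Real.exp_pos _).le
      (Real.exp_pos _).le b0 b2 b4 (sq_nonneg _) (sq_nonneg _) (hkg2 (u 0)) (hkg (u 1))
      (hkg2 (u 2)) (hkg (u 3))
  have hint : Integrable (fun u : Fin 4 → ℝ => ∏ j, g (u j)) :=
    Integrable.fintype_prod (f := fun _ : Fin 4 => g) (fun _ => hki)
  have hval : ∫ u : Fin 4 → ℝ, ∏ j, g (u j) = G ^ 4 := by
    have := MeasureTheory.integral_fintype_prod_volume_eq_prod (ι := Fin 4) (fun _ : Fin 4 => g)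
    rw [this]
    simp [hGdef]
  calc K1 / rq q * ∫ u : Fin 4 → ℝ, (∏ j, (‖kk (u j)‖ * (1 + |u j|) ^ 1)) * Real.exp (SR R ![1, 0, 1, 0]
        (Aex l ![e 0, 0, e 2, 0] u) (1 + e4))
      ≤ K1 / rq q * ∫ u : Fin 4 → ℝ, (4 * C5 ^ 2 * C4 / l) * ∏ j, g (u j) := by
        apply mul_le_mul_of_nonneg_left _ (by positivity)
        exact integral_mono hB.1 (hint.const_mul _) hpt
    _ = K1 * (4 * C5 ^ 2 * C4) * G ^ 4 / (rq q * l) := by
        rw [integral_const_mul, hval]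
        field_simp
    _ ≤ (K1 * (4 * C5 ^ 2 * C4) * G ^ 4 + 1) / (rq q * l) := by
        rw [div_le_div_iff_of_pos_right (by positivity)]
        linarith

/-- (2.5): exponents: A0,A3 carry eta; pairs 02: 0, 03: eta, 12: -eta, 13: 0. Use R_neg to the power 1/2 and
R_pos to the power 1/4. (1+l|eta|)^(1-1/2) l^(-2+1). -/
theorem QQ_half : ∃ K : ℝ, 0 < K ∧ ∀ q : ℕ, 1 ≤ q → ∃ ρ l0 : ℝ, 0 < ρ ∧ ρ ≤ 1/4 ∧ 1 ≤ l0 ∧ ∀ l : ℝ, l0 ≤ l →
    ∀ η : ℂ, |η.re| ≤ 1 / (8 * l) → ‖η‖ ≤ ρ →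
    ‖QQ q ⌊Real.exp l⌋₊ (fun _ => 1/2) l ![η, 0, 0, η] η‖ ≤ K * Real.sqrt (1 + l * ‖η‖) / (rq q * l) := by
  obtain ⟨K, hK, hQ⟩ := QQ_boundq
  obtain ⟨C₁, l1, hC₁, hl1, hN⟩ := R_neg
  obtain ⟨C₂, l2, hC₂, hl2, hP⟩ := R_pos
  set J : ℝ := ∫ u : ℝ, ‖kk u‖ * (1 + |u|) ^ 3 with hJ
  have hJ0 : 0 ≤ J := integral_nonneg fun u => by positivity
  refine ⟨K * (C₁ ^ 2 * C₂ * J ^ 4) + 1, by positivity, fun q hq => ?_⟩
  obtain ⟨ρ, l0, hρ, hl0, hQ⟩ := hQ q hq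
  have hrq := rq_pos q
  refine ⟨min ρ (1/4), max l0 (max l1 l2), lt_min hρ (by norm_num), min_le_right _ _,
    (by linarith : (1 : ℝ) ≤ l0).trans (le_max_left _ _), fun l hl η hη hη4' => ?_⟩
  have hηρ : ‖η‖ ≤ ρ := hη4'.trans (min_le_left _ _)
  have hη4 : ‖η‖ ≤ 1/4 := hη4'.trans (min_le_right _ _)
  have hll0 : l0 ≤ l := (le_max_left _ _).trans hl
  have hll1 : l1 ≤ l := (le_max_left _ _).trans ((le_max_right _ _).trans hl)
  have hll2 : l2 ≤ l := (le_max_right _ _).trans ((le_max_right _ _).trans hl)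
  have hl1' : 1 ≤ l := by linarith
  have hlpos : 0 < l := by linarith
  have h8 : 1 / (8 * l) ≤ 1 / l := by
    apply one_div_le_one_div_of_le hlpos
    linarith
  set x : ℝ := 1 + l * ‖η‖ with hx
  have hx1 : 1 ≤ x := by
    have : 0 ≤ l * ‖η‖ := by positivity
    rw [hx]; linarith
  obtain ⟨hint, hle⟩ := hQ l hll0 (fun _ => 1/2) (fun _ => by norm_num)
    (by norm_num) ![η, 0, 0, η] η
    (fun j => by
      fin_cases j
      · exact hη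
      · simp only [Fin.mk_one, Matrix.cons_val_one, Matrix.cons_val_zero, zero_re, abs_zero]
        positivity
      · simp only [Fin.reduceFinMk, Matrix.cons_val, zero_re, abs_zero]
        positivity
      · exact hη) hη
    (fun j => by
      fin_cases j
      · exact hηρ
      · simpa using hρ.le
      · simpa using hρ.le
      · exact hηρ) hηρ
  -- pointwise bound
  have hpt : ∀ u : Fin 4 → ℝ,
      (∏ j, (‖kk (u j)‖ * (1 + |u j|) ^ 1)) * Real.exp (SR R (fun _ => 1/2) (Aex l ![η, 0, 0, η] u) (1 + η)) ≤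
      (C₁ ^ 2 * C₂ * (Real.sqrt x / l)) * ∏ j, (‖kk (u j)‖ * (1 + |u j|) ^ 3) := by
    intro u
    have hexp : Real.exp (SR R (fun _ => 1/2) (Aex l ![η, 0, 0, η] u) (1 + η)) ≤
        C₁ ^ 2 * C₂ * (Real.sqrt x / l) *
          ((1 + |u 0|) ^ 2 * (1 + |u 1|) ^ 2 * (1 + |u 2|) ^ 2 * (1 + |u 3|) ^ 2) := by
      have n0 := hN l hll1 η hη hη4 (u 0)
      have n3 := hN l hll1 η hη hη4 (u 3)
      have z8 : |(0 : ℂ).re| ≤ 1 / (8 * l) := by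
        rw [zero_re, abs_zero]; positivity
      have z4 : ‖(0 : ℂ)‖ ≤ 1 / 4 := by rw [norm_zero]; norm_num
      have n1 := hN l hll1 0 z8 z4 (u 1)
      have n2 := hN l hll1 0 z8 z4 (u 2)
      have b02 := hP l hll2 0 (z8.trans h8) z4 (u 0 + u 2)
      have b03 := hP l hll2 η (hη.trans h8) hη4 (u 0 + u 3)
      have b12 := hP l hll2 (-η) (by rw [neg_re, abs_neg]; exact hη.trans h8)
        (by rw [norm_neg]; exact hη4) (u 1 + u 2)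
      have b13 := hP l hll2 0 (z8.trans h8) z4 (u 1 + u 3)
      have hz : (1 : ℝ) + l * ‖(0 : ℂ)‖ = 1 := by simp
      rw [hz, div_one] at b02 b13
      rw [norm_neg] at b12
      rw [hz, mul_one] at n1 n2
      rw [← hx] at n0 n3 b03 b12
      have a0 : Aex l ![η, 0, 0, η] u 0 = 1 + η + (1 + u 0 * I) / l := by simp [Aex]
      have a1 : Aex l ![η, 0, 0, η] u 1 = 1 + 0 + (1 + u 1 * I) / l := by simp [Aex]
      have a2 : Aex l ![η, 0, 0, η] u 2 = 1 + 0 + (1 + u 2 * I) / l := by simp [Aex]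
      have a3 : Aex l ![η, 0, 0, η] u 3 = 1 + η + (1 + u 3 * I) / l := by simp [Aex]
      have c02 : Aex l ![η, 0, 0, η] u 0 + Aex l ![η, 0, 0, η] u 2 - (1 + η) =
          1 + 0 + (2 + ((u 0 + u 2 : ℝ) : ℂ) * I) / l := by
        rw [a0, a2]; push_cast; ring
      have c03 : Aex l ![η, 0, 0, η] u 0 + Aex l ![η, 0, 0, η] u 3 - (1 + η) =
          1 + η + (2 + ((u 0 + u 3 : ℝ) : ℂ) * I) / l := by
        rw [a0, a3]; push_cast; ring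
      have c12 : Aex l ![η, 0, 0, η] u 1 + Aex l ![η, 0, 0, η] u 2 - (1 + η) =
          1 + -η + (2 + ((u 1 + u 2 : ℝ) : ℂ) * I) / l := by
        rw [a1, a2]; push_cast; ring
      have c13 : Aex l ![η, 0, 0, η] u 1 + Aex l ![η, 0, 0, η] u 3 - (1 + η) =
          1 + 0 + (2 + ((u 1 + u 3 : ℝ) : ℂ) * I) / l := by
        rw [a1, a3]; push_cast; ring
      have hSR : SR R (fun _ => 1/2) (Aex l ![η, 0, 0, η] u) (1 + η) * 4 =
          -R (1 + η + (1 + u 0 * I) / l) + -R (1 + η + (1 + u 0 * I) / l) +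
          -R (1 + 0 + (1 + u 1 * I) / l) + -R (1 + 0 + (1 + u 1 * I) / l) +
          -R (1 + 0 + (1 + u 2 * I) / l) + -R (1 + 0 + (1 + u 2 * I) / l) +
          -R (1 + η + (1 + u 3 * I) / l) + -R (1 + η + (1 + u 3 * I) / l) +
          R (1 + 0 + (2 + ((u 0 + u 2 : ℝ) : ℂ) * I) / l) +
          R (1 + η + (2 + ((u 0 + u 3 : ℝ) : ℂ) * I) / l) +
          R (1 + -η + (2 + ((u 1 + u 2 : ℝ) : ℂ) * I) / l) +
          R (1 + 0 + (2 + ((u 1 + u 3 : ℝ) : ℂ) * I) / l) := by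
        unfold SR
        rw [Fin.sum_univ_four, c02, c03, c12, c13, a0, a1, a2, a3]
        ring
      have hpow : Real.exp (SR R (fun _ => 1/2) (Aex l ![η, 0, 0, η] u) (1 + η)) ^ 4 ≤
          (C₁ ^ 2 * C₂ * (Real.sqrt x / l) *
          ((1 + |u 0|) ^ 2 * (1 + |u 1|) ^ 2 * (1 + |u 2|) ^ 2 * (1 + |u 3|) ^ 2)) ^ 4 := by
        rw [← Real.exp_nat_mul, mul_comm]
        have h4 : ((4 : ℕ) : ℝ) = 4 := by norm_num
        rw [h4, hSR]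
        simp only [Real.exp_add]
        refine le_trans ?_ (Q11_alg hC₁ hC₂ hlpos hx1 (1 + |u 0|) (1 + |u 1|) (1 + |u 2|)
          (1 + |u 3|) (1 + |u 0 + u 2|) (1 + |u 0 + u 3|) (1 + |u 1 + u 2|) (1 + |u 1 + u 3|)
          (le_add_of_nonneg_right (abs_nonneg _)) (le_add_of_nonneg_right (abs_nonneg _))
          (le_add_of_nonneg_right (abs_nonneg _)) (le_add_of_nonneg_right (abs_nonneg _))
          (add_nonneg zero_le_one (abs_nonneg _)) (add_nonneg zero_le_one (abs_nonneg _))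
          (add_nonneg zero_le_one (abs_nonneg _)) (add_nonneg zero_le_one (abs_nonneg _))
          (Q11_q _ _) (Q11_q _ _) (Q11_q _ _) (Q11_q _ _))
        exact (QIm2 (QIm2 (QIm2 (QIm2 (QIm2 (QIm2 (QIm2 (QIm2 (QIm2 (QIm2 (QIm2
          ⟨(Real.exp_pos _).le, n0⟩ ⟨(Real.exp_pos _).le, n0⟩)
          ⟨(Real.exp_pos _).le, n1⟩) ⟨(Real.exp_pos _).le, n1⟩)
          ⟨(Real.exp_pos _).le, n2⟩) ⟨(Real.exp_pos _).le, n2⟩)
          ⟨(Real.exp_pos _).le, n3⟩) ⟨(Real.exp_pos _).le, n3⟩)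
          ⟨(Real.exp_pos _).le, b02⟩) ⟨(Real.exp_pos _).le, b03⟩)
          ⟨(Real.exp_pos _).le, b12⟩) ⟨(Real.exp_pos _).le, b13⟩).2
      exact le_of_pow_le_pow_left₀ (by norm_num) (by positivity) hpow
    have hprod : ∏ j : Fin 4, (‖kk (u j)‖ * (1 + |u j|) ^ 3) = (∏ j, (‖kk (u j)‖ * (1 + |u j|) ^ 1)) *
        ((1 + |u 0|) ^ 2 * (1 + |u 1|) ^ 2 * (1 + |u 2|) ^ 2 * (1 + |u 3|) ^ 2) := by
      rw [Fin.prod_univ_four, Fin.prod_univ_four]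
      exact QIring _ _ _ _ _ _ _ _
    rw [hprod]
    calc (∏ j, (‖kk (u j)‖ * (1 + |u j|) ^ 1)) * Real.exp (SR R (fun _ => 1/2) (Aex l ![η, 0, 0, η] u) (1 + η))
        ≤ (∏ j, (‖kk (u j)‖ * (1 + |u j|) ^ 1)) * (C₁ ^ 2 * C₂ * (Real.sqrt x / l) *
          ((1 + |u 0|) ^ 2 * (1 + |u 1|) ^ 2 * (1 + |u 2|) ^ 2 * (1 + |u 3|) ^ 2)) :=
          mul_le_mul_of_nonneg_left hexp (Finset.prod_nonneg fun _ _ => by positivity)
      _ = _ := mul_left_comm _ _ _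
  have hgi : Integrable (fun u : Fin 4 → ℝ => ∏ j, (‖kk (u j)‖ * (1 + |u j|) ^ 3)) :=
    Integrable.fintype_prod (fun _ => QA3_kk 3 (by norm_num))
  have hgJ : ∫ u : Fin 4 → ℝ, ∏ j, (‖kk (u j)‖ * (1 + |u j|) ^ 3) = J ^ 4 := by
    have h1 := integral_fintype_prod_eq_prod (𝕜 := ℝ) (ι := Fin 4) (E := fun _ => ℝ)
      (μ := fun _ => volume)
      (fun _ : Fin 4 => fun u : ℝ => ‖kk u‖ * (1 + |u|) ^ 3)
    rw [Finset.prod_const, Finset.card_univ, Fintype.card_fin] at h1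
    exact h1
  calc ‖QQ q ⌊Real.exp l⌋₊ (fun _ => 1/2) l ![η, 0, 0, η] η‖
      ≤ K / rq q * ∫ u : Fin 4 → ℝ, (∏ j, (‖kk (u j)‖ * (1 + |u j|) ^ 1)) *
        Real.exp (SR R (fun _ => 1/2) (Aex l ![η, 0, 0, η] u) (1 + η)) := hle
    _ ≤ K / rq q * ∫ u : Fin 4 → ℝ, (C₁ ^ 2 * C₂ * (Real.sqrt x / l)) *
        ∏ j, (‖kk (u j)‖ * (1 + |u j|) ^ 3) :=
        mul_le_mul_of_nonneg_left (integral_mono hint (hgi.const_mul _) hpt) (by positivity)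
    _ = K * (C₁ ^ 2 * C₂ * J ^ 4) * (Real.sqrt x / (rq q * l)) := by
        rw [integral_const_mul, hgJ]
        field_simp
    _ ≤ (K * (C₁ ^ 2 * C₂ * J ^ 4) + 1) * (Real.sqrt x / (rq q * l)) :=
        mul_le_mul_of_nonneg_right (by linarith) (by positivity)
    _ = _ := by ring

end LX

end F_X_QI
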