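import Pool.Agent.Lib.MP_0f5a55_nt.V.V11

section F_X_M01

open Complex MeasureTheory Set Filter Topology
open scoped ComplexConjugate

namespace LX

open LZ

/-- expand the four mollifiers. -/
theorem XX_expand {q : ℕ} [NeZero q] (χ : DirichletCharacter ℂ q) (lam : Fin 4 → ℝ) (l : ℝ) (α β : ℂ)
    (τ : Fin 4 → ℂ) (t : ℝ) :
    XX χ lam l α β τ t = ∑ S ∈ Fintype.piFinset (fun _ : Fin 4 => (PQ q ⌊Real.exp l⌋₊).powerset),
      ((∏ j, (cf (lam j) l (S j) : ℂ) * (nS (S j) : ℂ) ^ (-(1/2) - τ j)) *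
        (χ ((nS (S 0) * nS (S 1) : ℕ) : ZMod q) * χ⁻¹ ((nS (S 2) * nS (S 3) : ℕ) : ZMod q))) *
        (Lf χ (1/2 + α + t * I) * Lf χ⁻¹ (1/2 + β - t * I) *
          (((nS (S 0) * nS (S 1) : ℕ) : ℂ) ^ (-(t * I)) * ((nS (S 2) * nS (S 3) : ℕ) : ℂ) ^ (t * I))) := by
  set σ : Fin 4 → ℂ := ![t * I, t * I, -(t * I), -(t * I)] with hσ
  set ψ : Fin 4 → DirichletCharacter ℂ q := ![χ, χ, χ⁻¹, χ⁻¹] with hψ
  have h1 : XX χ lam l α β τ t = Lf χ (1/2 + α + t * I) * Lf χ⁻¹ (1/2 + β - t * I) *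
      ∏ j : Fin 4, ∑ S ∈ (PQ q ⌊Real.exp l⌋₊).powerset,
        (cf (lam j) l S : ℂ) * ψ j (nS S) * (nS S : ℂ) ^ (-(1/2 + τ j + σ j)) := by
    rw [Fin.prod_univ_four]
    unfold XX Mol
    rw [hσ, hψ]
    simp only [Matrix.cons_val, sub_eq_add_neg]
  rw [h1, Finset.prod_univ_sum, Finset.mul_sum]
  refine Finset.sum_congr rfl fun S hS => ?_
  rw [Fintype.mem_piFinset] at hS
  have hne : ∀ j : Fin 4, (nS (S j) : ℂ) ≠ 0 := fun j => by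
    exact_mod_cast (nS_pos' (hS j)).ne'
  have h2 : ∀ j : Fin 4, (cf (lam j) l (S j) : ℂ) * ψ j (nS (S j)) * (nS (S j) : ℂ) ^ (-(1/2 + τ j + σ j)) =
      ((cf (lam j) l (S j) : ℂ) * (nS (S j) : ℂ) ^ (-(1/2) - τ j)) *
        (ψ j (nS (S j)) * (nS (S j) : ℂ) ^ (-(σ j))) := by
    intro j
    have : -(1/2 + τ j + σ j) = (-(1/2) - τ j) + -(σ j) := by ring
    rw [this, cpow_add _ _ (hne j)]
    ring
  rw [Finset.prod_congr rfl (fun j _ => h2 j), Finset.prod_mul_distrib]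
  have h3 : ∏ j : Fin 4, (ψ j (nS (S j)) * (nS (S j) : ℂ) ^ (-(σ j))) =
      (χ ((nS (S 0) * nS (S 1) : ℕ) : ZMod q) * χ⁻¹ ((nS (S 2) * nS (S 3) : ℕ) : ZMod q)) *
      (((nS (S 0) * nS (S 1) : ℕ) : ℂ) ^ (-(t * I)) * ((nS (S 2) * nS (S 3) : ℕ) : ℂ) ^ (t * I)) := by
    rw [Fin.prod_univ_four]
    push_cast
    rw [natCast_mul_natCast_cpow, natCast_mul_natCast_cpow, hσ, hψ, map_mul, map_mul]
    simp only [Matrix.cons_val, neg_neg]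
    ring
  rw [h3]
  ring

end LX

end F_X_M01
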