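import Pool.Agent.Lib.MP_0f5a55_nt.V.V15
import Pool.Agent.Lib.MP_0f5a55_nt.V.V40
import Pool.Agent.Lib.MP_0f5a55_nt.V.V41
import Pool.Agent.Lib.MP_0f5a55_nt.V.V69

section F_X_A22

open Complex MeasureTheory Set Filter Topology

namespace LX

open LZ

theorem A22_L {q : ℕ} [NeZero q] (χ : DirichletCharacter ℂ q) {s : ℂ} (hs : s ≠ 1) :
    Lf (χ * χ⁻¹) s = zq q s := by
  rw [mul_inv_cancel]
  unfold Lf zq
  rw [mul_comm]
  exact DirichletCharacter.LFunctionTrivChar_eq_mul_riemannZeta hs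

/-- twisted second moment of a primitive Dirichlet L-function -/
theorem tsm {q : ℕ} [NeZero q] {χ : DirichletCharacter ℂ q} (_hχ : χ.IsPrimitive) (_hq : 1 < q)
    (U : ℝ) (hU : 0 ≤ U) : ∃ C T0 : ℝ, 0 < C ∧ 2 ≤ T0 ∧ ∀ T : ℝ, T0 ≤ T → ∀ h k : ℕ, 1 ≤ h → 1 ≤ k →
    h.Coprime q → k.Coprime q →
    ∀ α β : ℂ, |α.re| ≤ 1/16 → |β.re| ≤ 1/16 → |α.im| ≤ U → |β.im| ≤ U → α + β ≠ 0 →
    ‖EE T (fun t => Lf χ (1/2 + α + t * I) * Lf χ⁻¹ (1/2 + β - t * I) *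
        ((h : ℂ) ^ (-(t * I)) * (k : ℂ) ^ (t * I))) -
      χ ((k / Nat.gcd h k : ℕ) : ZMod q) * χ⁻¹ ((h / Nat.gcd h k : ℕ) : ZMod q) * mainT χ T α β h k‖ ≤
      C * (1 + 1 / ‖α + β‖) * ((h : ℝ) * k) ^ 8 * T ^ (-(1/2) : ℝ) := by
  obtain ⟨C, T0, hC, hT0, h⟩ := LP.tsm χ χ⁻¹ U hU
  refine ⟨C, T0, hC, hT0, fun T hT a b ha hb haq hbq α β h1 h2 h3 h4 h5 => ?_⟩
  have h6 := h T hT a b ha hb haq hbq α β h1 h2 h3 h4 h5
  have e : LP.mainT χ χ⁻¹ T α β a b =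
      χ ((b / Nat.gcd a b : ℕ) : ZMod q) * χ⁻¹ ((a / Nat.gcd a b : ℕ) : ZMod q) * mainT χ T α β a b := by
    unfold LP.mainT mainT Aq
    rw [A22_L χ (by
      intro h0
      apply h5
      have := congrArg (fun z => z - 1) h0
      simpa using this), inv_inv]
    ring
  rw [← e]
  exact h6

end LX

end F_X_A22

section F_X_M04

open Complex MeasureTheory Set Filter Topology
open scoped ComplexConjugate

namespace LX

open LZ

variable {q : ℕ} [NeZero q]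

theorem M04_cont_plus {χ : DirichletCharacter ℂ q} (hχ : χ ≠ 1) (α : ℂ) :
    Continuous (fun t : ℝ => Lf χ (1/2 + α + t * I)) :=
  (Lf_diff hχ).continuous.comp (by fun_prop)

theorem M04_cont_minus {χ : DirichletCharacter ℂ q} (hχ : χ ≠ 1) (β : ℂ) :
    Continuous (fun t : ℝ => Lf χ (1/2 + β - t * I)) :=
  (Lf_diff hχ).continuous.comp (by fun_prop)

theorem M04_L_bound {χ : DirichletCharacter ℂ q} (C : ℝ) (hC : ∀ s : ℂ, 5/16 ≤ s.re →
    ‖Lf χ s‖ ≤ C * (1 + |s.im|)) (hC0 : 0 < C) (U : ℝ) (α : ℂ) (hα : |α.re| ≤ 1/16)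
    (hαi : |α.im| ≤ U) (t : ℝ) :
    ‖Lf χ (1/2 + α + t * I)‖ ≤ C * (1 + U + |t|) := by
  have hre : (1/2 + α + t * I : ℂ).re = 1/2 + α.re := by simp
  have him : (1/2 + α + t * I : ℂ).im = α.im + t := by simp
  have h1 := (abs_le.mp hα).1
  have hb := hC (1/2 + α + t * I) (by rw [hre]; linarith)
  rw [him] at hb
  refine hb.trans (mul_le_mul_of_nonneg_left ?_ hC0.le)
  have := abs_add_le α.im t
  linarith

theorem M04_integrable {χ ψ : DirichletCharacter ℂ q} (hχ : χ ≠ 1) (hψ : ψ ≠ 1) (C : ℝ)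
    (hC : ∀ s : ℂ, 5/16 ≤ s.re → ‖Lf χ s‖ ≤ C * (1 + |s.im|))
    (hC' : ∀ s : ℂ, 5/16 ≤ s.re → ‖Lf ψ s‖ ≤ C * (1 + |s.im|)) (hC0 : 0 < C) (U : ℝ) (hU : 0 ≤ U) (α β : ℂ)
    (hα : |α.re| ≤ 1/16) (hβ : |β.re| ≤ 1/16)
    (hαi : |α.im| ≤ U) (hβi : |β.im| ≤ U) (h k : ℕ) (hh : 1 ≤ h) (hk : 1 ≤ k) (T : ℝ) (hT : 0 < T) :
    IntegrableOn (fun t : ℝ => (Lf χ (1/2 + α + t * I) * Lf ψ (1/2 + β - t * I) *
        ((h : ℂ) ^ (-(t * I)) * (k : ℂ) ^ (t * I))) * (Real.exp (-t / T) : ℂ)) (Ioi (0:ℝ)) := by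
  have hh0 : (h : ℂ) ≠ 0 := by exact_mod_cast (by omega : h ≠ 0)
  have hk0 : (k : ℂ) ≠ 0 := by exact_mod_cast (by omega : k ≠ 0)
  have hcont : Continuous (fun t : ℝ => (Lf χ (1/2 + α + t * I) * Lf ψ (1/2 + β - t * I) *
        ((h : ℂ) ^ (-(t * I)) * (k : ℂ) ^ (t * I))) * (Real.exp (-t / T) : ℂ)) := by
    have c1 := M04_cont_plus hχ α
    have c2 := M04_cont_minus hψ β
    have c3 : Continuous (fun t : ℝ => (h : ℂ) ^ (-(t * I))) :=
      Continuous.const_cpow (by fun_prop) (Or.inl hh0)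
    have c4 : Continuous (fun t : ℝ => (k : ℂ) ^ (t * I)) :=
      Continuous.const_cpow (by fun_prop) (Or.inl hk0)
    have c5 : Continuous (fun t : ℝ => (Real.exp (-t / T) : ℂ)) := by fun_prop
    exact ((c1.mul c2).mul (c3.mul c4)).mul c5
  have hdom : IntegrableOn (fun t : ℝ => (C * (1 + U + 4 * T)) ^ 2 * Real.exp (-(1 / (2 * T)) * t))
      (Ioi (0:ℝ)) :=
    (exp_neg_integrableOn_Ioi 0 (by positivity)).const_mul _
  refine Integrable.mono' hdom hcont.aestronglyMeasurable ?_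
  filter_upwards [ae_restrict_mem measurableSet_Ioi] with t ht
  have ht0 : (0:ℝ) < t := ht
  have hb1 := M04_L_bound C hC hC0 U α hα hαi t
  have hb2 := M04_L_bound C hC' hC0 U β hβ hβi (-t)
  have e2 : (1/2 + β + ((-t : ℝ) : ℂ) * I) = 1/2 + β - t * I := by push_cast; ring
  rw [e2, abs_neg] at hb2
  rw [abs_of_pos ht0] at hb1 hb2
  have n1 : ‖(h : ℂ) ^ (-(t * I : ℂ))‖ = 1 := by
    rw [Complex.norm_natCast_cpow_of_pos (by omega)]
    simp
  have n2 : ‖(k : ℂ) ^ ((t * I : ℂ))‖ = 1 := by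
    rw [Complex.norm_natCast_cpow_of_pos (by omega)]
    simp
  rw [norm_mul, norm_mul, norm_mul, norm_mul, n1, n2, mul_one, mul_one]
  have n3 : ‖((Real.exp (-t / T) : ℝ) : ℂ)‖ = Real.exp (-t / T) := by
    rw [Complex.norm_real, Real.norm_eq_abs, abs_of_pos (Real.exp_pos _)]
  rw [n3]
  have hlin : 1 + U + t ≤ (1 + U + 4 * T) * Real.exp (t / (4 * T)) := by
    have h1 : t / (4 * T) + 1 ≤ Real.exp (t / (4 * T)) := Real.add_one_le_exp _
    have h2 : (1 + U + 4 * T) * (t / (4 * T) + 1) ≤ (1 + U + 4 * T) * Real.exp (t / (4 * T)) :=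
      mul_le_mul_of_nonneg_left h1 (by positivity)
    have h3 : 1 + U + t ≤ (1 + U + 4 * T) * (t / (4 * T) + 1) := by
      have h4 : (1 + U + 4 * T) * (t / (4 * T) + 1) =
          1 + U + 4 * T + (1 + U) * (t / (4 * T)) + t := by
        field_simp
        ring
      rw [h4]
      have : 0 ≤ (1 + U) * (t / (4 * T)) := by positivity
      linarith
    linarith
  have hz : ‖Lf χ (1/2 + α + t * I)‖ * ‖Lf ψ (1/2 + β - t * I)‖ ≤
      (C * (1 + U + 4 * T)) ^ 2 * (Real.exp (t / (4 * T)) * Real.exp (t / (4 * T))) := by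
    have h1 : ‖Lf χ (1/2 + α + t * I)‖ ≤ C * ((1 + U + 4 * T) * Real.exp (t / (4 * T))) :=
      hb1.trans (mul_le_mul_of_nonneg_left hlin hC0.le)
    have h2 : ‖Lf ψ (1/2 + β - t * I)‖ ≤ C * ((1 + U + 4 * T) * Real.exp (t / (4 * T))) :=
      hb2.trans (mul_le_mul_of_nonneg_left hlin hC0.le)
    calc ‖Lf χ (1/2 + α + t * I)‖ * ‖Lf ψ (1/2 + β - t * I)‖
        ≤ (C * ((1 + U + 4 * T) * Real.exp (t / (4 * T)))) *
          (C * ((1 + U + 4 * T) * Real.exp (t / (4 * T)))) :=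
          mul_le_mul h1 h2 (norm_nonneg _) (by positivity)
      _ = _ := by ring
  calc ‖Lf χ (1/2 + α + t * I)‖ * ‖Lf ψ (1/2 + β - t * I)‖ * Real.exp (-t / T)
      ≤ (C * (1 + U + 4 * T)) ^ 2 * (Real.exp (t / (4 * T)) * Real.exp (t / (4 * T))) *
        Real.exp (-t / T) := mul_le_mul_of_nonneg_right hz (Real.exp_pos _).le
    _ = (C * (1 + U + 4 * T)) ^ 2 * Real.exp (-(1 / (2 * T)) * t) := by
      rw [mul_assoc, ← Real.exp_add, ← Real.exp_add]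
      congr 2
      field_simp
      ring

private lemma M04_cpow_le (n : ℕ) (hn : 1 ≤ n) (τ : ℂ) (hτ : |τ.re| ≤ 1/16) :
    ‖(n : ℂ) ^ (-(1/2) - τ)‖ ≤ 1 := by
  rw [Complex.norm_natCast_cpow_of_pos (by omega)]
  apply Real.rpow_le_one_of_one_le_of_nonpos
  · exact_mod_cast hn
  · have h1 := (abs_le.mp hτ).1
    have : (-(1/2) - τ : ℂ).re = -(1/2) - τ.re := by simp
    rw [this]
    linarith

/-- section 4: EE of XX_expand term by term (integrable by zeta_pol), tsm with h = n0 n1, k = n2 n3 <= exp(2l) for the nonzero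
terms; total error exp(4l) exp(32 l) T^(-1/2) <= T^(-1/4). -/
theorem master {χ : DirichletCharacter ℂ q} (hχ : χ.IsPrimitive) (hq : 1 < q) (U : ℝ) (hU : 0 ≤ U) : ∃ C T0 : ℝ, 0 < C ∧ 2 ≤ T0 ∧ ∀ T : ℝ, T0 ≤ T → ∀ l : ℝ, 0 < l →
    l ≤ Real.log T / 1000 → ∀ lam : Fin 4 → ℝ, (∀ j, 0 ≤ lam j ∧ lam j ≤ 1) →
    ∀ (α β : ℂ) (τ : Fin 4 → ℂ), |α.re| ≤ 1/16 → |β.re| ≤ 1/16 → |α.im| ≤ U → |β.im| ≤ U →
    (∀ j, |(τ j).re| ≤ 1/16) → α + β ≠ 0 →
    ‖EE T (XX χ lam l α β τ) -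
      (zq q (1 + (α + β)) * QQ q ⌊Real.exp l⌋₊ lam l ![τ 0 + β, τ 1 + β, τ 2 + α, τ 3 + α] (α + β) +
      ((2 * Real.pi / (q * T) : ℝ) : ℂ) ^ (α + β) * Aq χ (α + β) *
        QQ q ⌊Real.exp l⌋₊ lam l ![τ 0 - α, τ 1 - α, τ 2 - β, τ 3 - β] (-(α + β)))‖ ≤
      C * (1 + 1 / ‖α + β‖) * T ^ (-(1/4) : ℝ) := by
  have h1 : χ ≠ 1 := ne_one hχ hq
  have h1' : χ⁻¹ ≠ 1 := inv_ne_one.mpr h1
  obtain ⟨C, T0, hC, hT0, htsm⟩ := tsm hχ hq U hU
  obtain ⟨Cz1, hCz10, hCz1⟩ := L_pol h1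
  obtain ⟨Cz2, hCz20, hCz2⟩ := L_pol h1'
  set Cz : ℝ := max Cz1 Cz2 with hCzd
  have hCz0 : 0 < Cz := lt_of_lt_of_le hCz10 (le_max_left _ _)
  have hCz : ∀ s : ℂ, 5/16 ≤ s.re → ‖Lf χ s‖ ≤ Cz * (1 + |s.im|) := fun s hs =>
    (hCz1 s hs).trans (mul_le_mul_of_nonneg_right (le_max_left _ _) (by positivity))
  have hCz' : ∀ s : ℂ, 5/16 ≤ s.re → ‖Lf χ⁻¹ s‖ ≤ Cz * (1 + |s.im|) := fun s hs =>
    (hCz2 s hs).trans (mul_le_mul_of_nonneg_right (le_max_right _ _) (by positivity))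
  refine ⟨C, T0, hC, hT0, ?_⟩
  intro T hT l hl hlT lam hlam α β τ hα hβ hαi hβi hτ hαβ
  have hTpos : 0 < T := by linarith
  set z : ℕ := ⌊Real.exp l⌋₊ with hz
  set P := Fintype.piFinset (fun _ : Fin 4 => (PQ q z).powerset) with hP
  set a : (Fin 4 → Finset ℕ) → ℂ := fun S =>
    (∏ j, (cf (lam j) l (S j) : ℂ) * (nS (S j) : ℂ) ^ (-(1/2) - τ j)) *
      (χ ((nS (S 0) * nS (S 1) : ℕ) : ZMod q) * χ⁻¹ ((nS (S 2) * nS (S 3) : ℕ) : ZMod q)) with ha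
  set f : (Fin 4 → Finset ℕ) → ℝ → ℂ := fun S t =>
    Lf χ (1/2 + α + t * I) * Lf χ⁻¹ (1/2 + β - t * I) *
      (((nS (S 0) * nS (S 1) : ℕ) : ℂ) ^ (-(t * I)) * ((nS (S 2) * nS (S 3) : ℕ) : ℂ) ^ (t * I)) with hf
  have hmem : ∀ S ∈ P, ∀ j, S j ∈ (PQ q z).powerset := by
    intro S hS j
    exact (Fintype.mem_piFinset.mp hS) j
  have hnpos : ∀ S ∈ P, ∀ j, 1 ≤ nS (S j) := fun S hS j => nS_pos' (hmem S hS j)
  have hX : XX χ lam l α β τ = fun t => ∑ S ∈ P, a S * f S t := by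
    funext t
    exact XX_expand χ lam l α β τ t
  have hint : ∀ S ∈ P, IntegrableOn (fun t : ℝ => f S t * (Real.exp (-t / T) : ℂ)) (Ioi (0:ℝ)) := by
    intro S hS
    exact M04_integrable h1 h1' Cz hCz hCz' hCz0 U hU α β hα hβ hαi hβi _ _
      (Nat.mul_le_mul (hnpos S hS 0) (hnpos S hS 1)) (Nat.mul_le_mul (hnpos S hS 2) (hnpos S hS 3)) T hTpos
  have hEE : EE T (XX χ lam l α β τ) = ∑ S ∈ P, a S * EE T (f S) := by
    rw [hX]
    unfold EE
    have h1 : ∀ t : ℝ, (∑ S ∈ P, a S * f S t) * (Real.exp (-t / T) : ℂ) =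
        ∑ S ∈ P, a S * (f S t * (Real.exp (-t / T) : ℂ)) := by
      intro t
      rw [Finset.sum_mul]
      refine Finset.sum_congr rfl fun S _ => by ring
    simp_rw [h1]
    rw [integral_finsetSum]
    · rw [Finset.mul_sum]
      refine Finset.sum_congr rfl fun S _ => ?_
      rw [integral_const_mul]
      ring
    · intro S hS
      exact (hint S hS).const_mul _
  have hmain := main_alg χ T lam l α β τ z
  rw [hEE, ← hmain, ← Finset.sum_sub_distrib]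
  -- each term
  have hexp32 : Real.exp l ^ 4 = Real.exp (4 * l) := by
    rw [← Real.exp_nat_mul]; norm_num
  have hterm : ∀ S ∈ P, ‖a S * EE T (f S) - (∏ j, (cf (lam j) l (S j) : ℂ) * (nS (S j) : ℂ) ^ (-(1/2) - τ j)) *
        mainT χ T α β (nS (S 0) * nS (S 1)) (nS (S 2) * nS (S 3))‖ ≤
      (∏ j, |cf (lam j) l (S j)|) * (C * (1 + 1 / ‖α + β‖) * (Real.exp (4 * l)) ^ 8 * T ^ (-(1/2) : ℝ)) := by
    intro S hS
    have hcop : ∀ j, (nS (S j)).Coprime q := fun j => nS_coprime (hmem S hS j)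
    have hcan := char_cancel χ (h := nS (S 0) * nS (S 1)) (k := nS (S 2) * nS (S 3))
      (Nat.Coprime.mul_left (hcop 0) (hcop 1)) (Nat.Coprime.mul_left (hcop 2) (hcop 3))
    set ch : ℂ := χ (((nS (S 2) * nS (S 3)) / Nat.gcd (nS (S 0) * nS (S 1)) (nS (S 2) * nS (S 3)) : ℕ) : ZMod q) *
      χ⁻¹ (((nS (S 0) * nS (S 1)) / Nat.gcd (nS (S 0) * nS (S 1)) (nS (S 2) * nS (S 3)) : ℕ) : ZMod q) with hch
    have e1 : a S * EE T (f S) - (∏ j, (cf (lam j) l (S j) : ℂ) * (nS (S j) : ℂ) ^ (-(1/2) - τ j)) *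
        mainT χ T α β (nS (S 0) * nS (S 1)) (nS (S 2) * nS (S 3)) =
        a S * (EE T (f S) - ch * mainT χ T α β (nS (S 0) * nS (S 1)) (nS (S 2) * nS (S 3))) := by
      rw [ha]
      simp only
      linear_combination ((∏ j, (cf (lam j) l (S j) : ℂ) * (nS (S j) : ℂ) ^ (-(1/2) - τ j)) *
        mainT χ T α β (nS (S 0) * nS (S 1)) (nS (S 2) * nS (S 3))) * hcan
    rw [e1, norm_mul]
    have hna : ‖a S‖ ≤ ∏ j, |cf (lam j) l (S j)| := by
      rw [ha]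
      simp only
      have hch1 : ‖χ ((nS (S 0) * nS (S 1) : ℕ) : ZMod q) * χ⁻¹ ((nS (S 2) * nS (S 3) : ℕ) : ZMod q)‖ ≤ 1 := by
        rw [norm_mul]
        exact mul_le_one₀ (norm_char_le χ _) (norm_nonneg _) (norm_char_le χ⁻¹ _)
      rw [norm_mul]
      refine (mul_le_of_le_one_right (norm_nonneg _) hch1).trans ?_
      rw [norm_prod]
      apply Finset.prod_le_prod
      · intro j _
        exact norm_nonneg _
      · intro j _
        rw [norm_mul, Complex.norm_real, Real.norm_eq_abs]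
        have := M04_cpow_le (nS (S j)) (hnpos S hS j) (τ j) (hτ j)
        calc |cf (lam j) l (S j)| * ‖(nS (S j) : ℂ) ^ (-(1/2) - τ j)‖
            ≤ |cf (lam j) l (S j)| * 1 := mul_le_mul_of_nonneg_left this (abs_nonneg _)
          _ = _ := mul_one _
    by_cases hzero : ∏ j, |cf (lam j) l (S j)| = 0
    · have h0 : ‖a S‖ = 0 := le_antisymm (hna.trans hzero.le) (norm_nonneg _)
      rw [h0, hzero, zero_mul, zero_mul]
    · have hne : ∀ j, cf (lam j) l (S j) ≠ 0 := by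
        intro j
        have := (Finset.prod_ne_zero_iff.mp hzero) j (Finset.mem_univ j)
        exact abs_ne_zero.mp this
      have hle : ∀ j, (nS (S j) : ℝ) ≤ Real.exp l := by
        intro j
        exact ((cf_sum (lam j) l (hlam j).1 (hlam j).2 hl z).2.1 (S j) (hmem S hS j) (hne j)).2
      have hprod : (((nS (S 0) * nS (S 1) : ℕ) : ℝ) * ((nS (S 2) * nS (S 3) : ℕ) : ℝ)) ≤ Real.exp (4 * l) := by
        push_cast
        rw [← hexp32]
        have p : ∀ j, (0:ℝ) ≤ (nS (S j) : ℝ) := fun j => Nat.cast_nonneg _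
        have qq : (0:ℝ) ≤ Real.exp l := (Real.exp_pos l).le
        calc (nS (S 0) : ℝ) * nS (S 1) * (nS (S 2) * nS (S 3))
            ≤ Real.exp l * Real.exp l * (Real.exp l * Real.exp l) :=
              mul_le_mul (mul_le_mul (hle 0) (hle 1) (p 1) qq) (mul_le_mul (hle 2) (hle 3) (p 3) qq)
                (mul_nonneg (p 2) (p 3)) (mul_nonneg qq qq)
          _ = _ := by ring
      have ht := htsm T hT (nS (S 0) * nS (S 1)) (nS (S 2) * nS (S 3))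
        (Nat.mul_le_mul (hnpos S hS 0) (hnpos S hS 1)) (Nat.mul_le_mul (hnpos S hS 2) (hnpos S hS 3))
        (Nat.Coprime.mul_left (hcop 0) (hcop 1)) (Nat.Coprime.mul_left (hcop 2) (hcop 3))
        α β hα hβ hαi hβi hαβ
      have ht' : ‖EE T (f S) - ch * mainT χ T α β (nS (S 0) * nS (S 1)) (nS (S 2) * nS (S 3))‖ ≤
          C * (1 + 1 / ‖α + β‖) * (Real.exp (4 * l)) ^ 8 * T ^ (-(1/2) : ℝ) := by
        refine ht.trans ?_
        apply mul_le_mul_of_nonneg_right _ (Real.rpow_nonneg hTpos.le _)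
        apply mul_le_mul_of_nonneg_left _ (by positivity)
        exact pow_le_pow_left₀ (by positivity) hprod 8
      exact mul_le_mul hna ht' (norm_nonneg _) (Finset.prod_nonneg fun j _ => abs_nonneg _)
  have hsumcf : ∑ S ∈ P, ∏ j, |cf (lam j) l (S j)| ≤ Real.exp (4 * l) := by
    have h1 : ∑ S ∈ P, ∏ j, |cf (lam j) l (S j)| = ∏ j, ∑ S ∈ (PQ q z).powerset, |cf (lam j) l S| := by
      rw [Finset.prod_univ_sum]
    rw [h1]
    calc ∏ j, ∑ S ∈ (PQ q z).powerset, |cf (lam j) l S| ≤ ∏ j : Fin 4, Real.exp l := by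
          apply Finset.prod_le_prod
          · intro j _
            exact Finset.sum_nonneg fun S _ => abs_nonneg _
          · intro j _
            exact (cf_sum (lam j) l (hlam j).1 (hlam j).2 hl z).2.2
      _ = Real.exp (4 * l) := by
          rw [Finset.prod_const, Finset.card_univ, Fintype.card_fin, hexp32]
  have hK : 0 ≤ C * (1 + 1 / ‖α + β‖) * (Real.exp (4 * l)) ^ 8 * T ^ (-(1/2) : ℝ) := by
    have := Real.rpow_nonneg hTpos.le (-(1/2) : ℝ)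
    positivity
  refine (norm_sum_le _ _).trans ((Finset.sum_le_sum hterm).trans ?_)
  rw [← Finset.sum_mul]
  refine (mul_le_mul_of_nonneg_right hsumcf hK).trans ?_
  -- exp(36 l) T^(-1/2) <= T^(-1/4)
  have hlog : 0 ≤ Real.log T := Real.log_nonneg (by linarith)
  have hfin : Real.exp (4 * l) * (Real.exp (4 * l)) ^ 8 * T ^ (-(1/2) : ℝ) ≤ T ^ (-(1/4) : ℝ) := by
    rw [Real.rpow_def_of_pos hTpos, Real.rpow_def_of_pos hTpos, ← Real.exp_nat_mul, ← Real.exp_add,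
      ← Real.exp_add]
    apply Real.exp_le_exp.mpr
    push_cast
    nlinarith
  have e3 : Real.exp (4 * l) * (C * (1 + 1 / ‖α + β‖) * (Real.exp (4 * l)) ^ 8 * T ^ (-(1/2) : ℝ)) =
      C * (1 + 1 / ‖α + β‖) * (Real.exp (4 * l) * (Real.exp (4 * l)) ^ 8 * T ^ (-(1/2) : ℝ)) := by ring
  rw [e3]
  exact mul_le_mul_of_nonneg_left hfin (by positivity)

end LX

end F_X_M04
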