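import Pool.Agent.Lib.MP_0f5a55_nt.V.V40
import Pool.Agent.Lib.MP_0f5a55_nt.V.V43
import Pool.Agent.Lib.MP_0f5a55_nt.V.V67
import Pool.Agent.Lib.MP_0f5a55_nt.V.V68
import Pool.Agent.Lib.MP_0f5a55_nt.V.V70

section F_X_M07

open Complex MeasureTheory Set Filter Topology
open scoped ComplexConjugate

namespace LX

open LZ

/-- a power of a small number with a small exponent -/
theorem M07_pow {q : ℕ} (hq : 1 ≤ q) {T : ℝ} (hT : 2 * Real.pi ≤ T) (hqT : (q : ℝ) ≤ T) {η : ℂ} {B : ℝ}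
    (h : |η.re| ≤ B / Real.log T) :
    ‖((2 * Real.pi / (q * T) : ℝ) : ℂ) ^ η‖ ≤ Real.exp (2 * B) := by
  have hpi : (0 : ℝ) < 2 * Real.pi := Real.two_pi_pos
  have hT0 : 0 < T := hpi.trans_le hT
  have hq0 : (0 : ℝ) < q := by exact_mod_cast hq
  have hq1 : (1 : ℝ) ≤ q := by exact_mod_cast hq
  have hqT0 : 0 < (q : ℝ) * T := mul_pos hq0 hT0
  have hpi1 : (1 : ℝ) < 2 * Real.pi := by linarith [Real.pi_gt_three]
  have hL : 0 < Real.log T := Real.log_pos (hpi1.trans_le hT)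
  rw [Complex.norm_cpow_eq_rpow_re_of_pos (div_pos hpi hqT0), Real.rpow_def_of_pos (div_pos hpi hqT0),
    Real.exp_le_exp]
  have h1 : |Real.log (2 * Real.pi / (q * T))| ≤ 2 * Real.log T := by
    rw [Real.log_div hpi.ne' hqT0.ne', Real.log_mul hq0.ne' hT0.ne', abs_le]
    have h2 : 0 < Real.log (2 * Real.pi) := Real.log_pos hpi1
    have h3 : Real.log (2 * Real.pi) ≤ Real.log T := Real.log_le_log hpi hT
    have h4 : Real.log q ≤ Real.log T := Real.log_le_log hq0 hqT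
    have h5 : 0 ≤ Real.log q := Real.log_nonneg hq1
    constructor
    · linarith
    · linarith
  calc Real.log (2 * Real.pi / (q * T)) * η.re ≤ |Real.log (2 * Real.pi / (q * T)) * η.re| := le_abs_self _
    _ = |Real.log (2 * Real.pi / (q * T))| * |η.re| := abs_mul _ _
    _ ≤ (2 * Real.log T) * (B / Real.log T) := mul_le_mul h1 h (abs_nonneg _) (by positivity)
    _ = 2 * B := by field_simp

variable {q : ℕ} [NeZero q]

/-- the integrand is holomorphic in the first shift -/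
theorem M07_diff {χ : DirichletCharacter ℂ q} (hχ : χ ≠ 1) (l : ℝ) (β : ℂ) (t : ℝ) (Ω : Set ℂ) :
    DifferentiableOn ℂ (fun z => XX χ ![1, 0, 1, 0] l z β ![z, 0, β, 0] t) Ω := by
  intro z _
  have h1 : DifferentiableAt ℂ (fun z : ℂ => Lf χ (1/2 + z + t * I)) z :=
    DifferentiableAt.comp z (g := Lf χ) (Lf_diff hχ _) (by fun_prop)
  have h2 : DifferentiableAt ℂ (fun z : ℂ => Mol χ 1 l (1/2 + z + t * I)) z :=
    DifferentiableAt.comp z (g := Mol χ 1 l) (Mol_diff χ 1 l _) (by fun_prop)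
  have h3 : (fun z => XX χ ![1, 0, 1, 0] l z β ![z, 0, β, 0] t) = fun z : ℂ =>
      Lf χ (1/2 + z + t * I) * Lf χ⁻¹ (1/2 + β - t * I) *
      (Mol χ 1 l (1/2 + z + t * I) * Mol χ 0 l (1/2 + 0 + t * I) *
      Mol χ⁻¹ 1 l (1/2 + β - t * I) * Mol χ⁻¹ 0 l (1/2 + 0 - t * I)) := by
    funext z
    rfl
  rw [h3]
  exact ((h1.mul_const _).mul (((h2.mul_const _).mul_const _).mul_const _)).differentiableWithinAt

/-- (4.1). First for |alpha+beta| = 3/log T: master with tau = (alpha,0,beta,0), QQ_mu for both terms, zA_bounds,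
|(2pi/T)^eta| <= e^4. Then maximum modulus in alpha on the disc |alpha+beta| <= 3/log T (EE_diff, XX_bound). -/
theorem XX_mu_bound : ∃ C : ℝ, 0 < C ∧ ∀ (q : ℕ) [NeZero q] (χ : DirichletCharacter ℂ q), χ.IsPrimitive →
    1 < q → ∀ U : ℝ, 0 ≤ U → ∃ T0 : ℝ, 2 ≤ T0 ∧ ∀ T : ℝ, T0 ≤ T → ∀ l : ℝ,
    Real.log T / 2000 ≤ l → l ≤ Real.log T / 1000 → ∀ α β : ℂ, |β.re| ≤ 1 / Real.log T → |β.im| ≤ U →
    ‖α + β‖ ≤ 3 / Real.log T → ‖EE T (XX χ ![1, 0, 1, 0] l α β ![α, 0, β, 0])‖ ≤ C := by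
  obtain ⟨K, hK, hmu⟩ := QQ_mu
  obtain ⟨CA, hCA, hzA⟩ := zA_abs
  obtain ⟨C', hC'⟩ : ∃ C', C' = CA * K * 2000 + Real.exp 6 * CA * K * 2000 + 1 := ⟨_, rfl⟩
  refine ⟨C', by rw [hC']; positivity, ?_⟩
  intro q _ χ hχ hq U hU
  have hq1 : 1 ≤ q := hq.le
  have hne : χ ≠ 1 := ne_one hχ hq
  have hrq := rq_pos q
  obtain ⟨C, T1, hC, hT1, hmaster⟩ := master hχ hq (U + 1) (by linarith)
  obtain ⟨l1, hl1, hmu⟩ := hmu q hq1
  obtain ⟨ρ, hρ, hzA⟩ := hzA q χ
  have hev : ∀ᶠ T : ℝ in atTop, (T1 ≤ T ∧ 2 * Real.pi ≤ T ∧ (q : ℝ) ≤ T) ∧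
      (128 ≤ Real.log T ∧ 2000 * l1 ≤ Real.log T ∧ 3 / ρ ≤ Real.log T) ∧
      C * (Real.log T * T ^ (-(1/4) : ℝ)) ≤ 1 := by
    refine Filter.Eventually.and ?_ (Filter.Eventually.and ?_ ?_)
    · exact (eventually_ge_atTop T1).and ((eventually_ge_atTop _).and (eventually_ge_atTop _))
    · exact (Real.tendsto_log_atTop.eventually_ge_atTop _).and
        ((Real.tendsto_log_atTop.eventually_ge_atTop _).and (Real.tendsto_log_atTop.eventually_ge_atTop _))
    · have h1 := (isLittleO_log_rpow_atTop (r := 1/4) (by norm_num)).bound (inv_pos.mpr hC)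
      filter_upwards [h1, eventually_ge_atTop (1 : ℝ)] with T hT hT1
      have hT0 : 0 < T := by linarith
      rw [Real.norm_of_nonneg (Real.log_nonneg hT1),
        Real.norm_of_nonneg (Real.rpow_nonneg hT0.le _)] at hT
      calc C * (Real.log T * T ^ (-(1/4) : ℝ)) ≤ C * (C⁻¹ * T ^ (1/4 : ℝ) * T ^ (-(1/4) : ℝ)) := by
            apply mul_le_mul_of_nonneg_left _ hC.le
            exact mul_le_mul_of_nonneg_right hT (Real.rpow_nonneg hT0.le _)
        _ = T ^ (1/4 : ℝ) * T ^ (-(1/4) : ℝ) := by field_simp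
        _ = 1 := by rw [← Real.rpow_add hT0]; norm_num
  obtain ⟨T0, hT0⟩ := Filter.eventually_atTop.mp hev
  refine ⟨max T0 2, le_max_right _ _, ?_⟩
  intro T hT l hl hl' α β hβre hβim hαβ
  obtain ⟨⟨hT1', hTpi, hqT⟩, ⟨hL16, hLl1, hLρ⟩, hTC⟩ := hT0 T ((le_max_left _ _).trans hT)
  have hL : 0 < Real.log T := by linarith
  have hl00 : 0 < l := by linarith
  have hT00 : 0 < T := by linarith [Real.pi_pos]
  have h3L : 3 / Real.log T ≤ 1 / 32 := by
    rw [div_le_div_iff₀ hL (by norm_num)]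
    linarith
  have h1L : 1 / Real.log T ≤ 1 / 64 := by
    rw [div_le_div_iff₀ hL (by norm_num)]
    linarith
  have h3L8 : 3 / Real.log T ≤ 1 / (8 * l) := by
    rw [div_le_div_iff₀ hL (by positivity)]
    linarith
  have hlamj : ∀ j, 0 ≤ (![1, 0, 1, 0] : Fin 4 → ℝ) j ∧ (![1, 0, 1, 0] : Fin 4 → ℝ) j ≤ 1 := by
    intro j
    fin_cases j <;> simp
  -- shifts in the disc
  have hdisc : ∀ z : ℂ, ‖z + β‖ < 4 / Real.log T → |z.re| ≤ 1 / 16 ∧ |z.im| ≤ U + 1 := by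
    intro z hz
    have h4L : 4 / Real.log T ≤ 1 / 32 := by
      rw [div_le_div_iff₀ hL (by norm_num)]
      linarith
    have h1 : |(z + β).re| ≤ 1 / 32 := (Complex.abs_re_le_norm _).trans (hz.le.trans h4L)
    have h2 : |(z + β).im| ≤ 1 / 32 := (Complex.abs_im_le_norm _).trans (hz.le.trans h4L)
    rw [Complex.add_re] at h1
    rw [Complex.add_im] at h2
    have h3 := hβre.trans h1L
    rw [abs_le] at h1 h2 h3 hβim ⊢
    rw [abs_le]
    constructor
    · constructor <;> linarith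
    · constructor <;> linarith
  have hβ16 : |β.re| ≤ 1 / 16 := by linarith [hβre.trans h1L]
  have hβU : |β.im| ≤ U + 1 := by linarith
  have hτ : ∀ z : ℂ, |z.re| ≤ 1 / 16 → ∀ j, |((![z, 0, β, 0] : Fin 4 → ℂ) j).re| ≤ 1 / 16 := by
    intro z hz j
    fin_cases j
    · exact hz
    · show |(0 : ℂ).re| ≤ 1 / 16
      norm_num
    · exact hβ16
    · show |(0 : ℂ).re| ≤ 1 / 16
      norm_num
  -- the bound on the circle
  have hcircle : ∀ z : ℂ, ‖z + β‖ = 3 / Real.log T →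
      ‖EE T (XX χ ![1, 0, 1, 0] l z β ![z, 0, β, 0])‖ ≤ C' := by
    intro z hz
    have hz4 : ‖z + β‖ < 4 / Real.log T := by
      rw [hz]
      exact div_lt_div_of_pos_right (by norm_num) hL
    obtain ⟨hzre, hzim⟩ := hdisc z hz4
    have hη0 : z + β ≠ 0 := by
      intro h0
      rw [h0, norm_zero] at hz
      have : 0 < 3 / Real.log T := by positivity
      linarith
    have hm := hmaster T hT1' l hl00 hl' ![1, 0, 1, 0] hlamj z β ![z, 0, β, 0] hzre hβ16 hzim hβU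
      (hτ z hzre) hη0
    have hre : |(z + β).re| ≤ 3 / Real.log T := (Complex.abs_re_le_norm _).trans hz.le
    have him : |(z + β).im| ≤ 3 / Real.log T := (Complex.abs_im_le_norm _).trans hz.le
    have h1 := hmu l (by linarith)
      ![(![z, 0, β, 0] : Fin 4 → ℂ) 0 + β, (![z, 0, β, 0] : Fin 4 → ℂ) 1 + β,
        (![z, 0, β, 0] : Fin 4 → ℂ) 2 + z, (![z, 0, β, 0] : Fin 4 → ℂ) 3 + z] (z + β) (by
        show ‖z + β‖ ≤ _
        rw [hz]
        exact h3L8) (by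
        show ‖β + z‖ ≤ _
        rw [add_comm, hz]
        exact h3L8) (by rw [hz]; exact h3L8)
    have h2 := hmu l (by linarith)
      ![(![z, 0, β, 0] : Fin 4 → ℂ) 0 - z, (![z, 0, β, 0] : Fin 4 → ℂ) 1 - z,
        (![z, 0, β, 0] : Fin 4 → ℂ) 2 - β, (![z, 0, β, 0] : Fin 4 → ℂ) 3 - β] (-(z + β)) (by
        show ‖z - z‖ ≤ _
        rw [sub_self, norm_zero]
        positivity) (by
        show ‖β - β‖ ≤ _
        rw [sub_self, norm_zero]
        positivity) (by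
        rw [norm_neg, hz]
        exact h3L8)
    obtain ⟨h3, h4⟩ := hzA (z + β) hη0 (by
      rw [hz, div_le_iff₀ hL]
      rw [div_le_iff₀ hρ] at hLρ
      linarith)
    have hzL : CA * rq q / ‖z + β‖ ≤ CA * rq q * Real.log T := by
      rw [hz, div_div_eq_mul_div]
      have : 0 ≤ CA * rq q * Real.log T := by positivity
      linarith
    have hD : 1 + 1 / ‖z + β‖ ≤ Real.log T := by
      rw [hz, one_div_div]
      linarith
    have h5 : ‖((2 * Real.pi / (q * T) : ℝ) : ℂ) ^ (z + β)‖ ≤ Real.exp 6 := by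
      have := M07_pow hq1 hTpi hqT hre
      rwa [show (2 * 3 : ℝ) = 6 by norm_num] at this
    have h7 : K / (rq q * l) ≤ K * 2000 / (rq q * Real.log T) := by
      rw [div_le_div_iff₀ (by positivity) (by positivity)]
      have : K * rq q * Real.log T ≤ K * rq q * (2000 * l) := by
        apply mul_le_mul_of_nonneg_left _ (by positivity)
        linarith
      linarith
    obtain ⟨Q1, hQ1⟩ : ∃ Q1, Q1 = QQ q ⌊Real.exp l⌋₊ ![1, 0, 1, 0] l
      ![(![z, 0, β, 0] : Fin 4 → ℂ) 0 + β, (![z, 0, β, 0] : Fin 4 → ℂ) 1 + β,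
        (![z, 0, β, 0] : Fin 4 → ℂ) 2 + z, (![z, 0, β, 0] : Fin 4 → ℂ) 3 + z] (z + β) := ⟨_, rfl⟩
    obtain ⟨Q2, hQ2⟩ : ∃ Q2, Q2 = QQ q ⌊Real.exp l⌋₊ ![1, 0, 1, 0] l
      ![(![z, 0, β, 0] : Fin 4 → ℂ) 0 - z, (![z, 0, β, 0] : Fin 4 → ℂ) 1 - z,
        (![z, 0, β, 0] : Fin 4 → ℂ) 2 - β, (![z, 0, β, 0] : Fin 4 → ℂ) 3 - β] (-(z + β)) :=
      ⟨_, rfl⟩
    rw [← hQ1] at h1 hm
    rw [← hQ2] at h2 hm
    have h8 : ‖zq q (1 + (z + β)) * Q1‖ ≤ CA * K * 2000 := by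
      rw [norm_mul]
      calc ‖zq q (1 + (z + β))‖ * ‖Q1‖ ≤ (CA * rq q * Real.log T) * (K * 2000 / (rq q * Real.log T)) :=
            mul_le_mul (h3.trans hzL) (h1.trans h7)
              (norm_nonneg _) (by positivity)
        _ = CA * K * 2000 := by field_simp
    have h9 : ‖((2 * Real.pi / (q * T) : ℝ) : ℂ) ^ (z + β) * Aq χ (z + β) * Q2‖ ≤
        Real.exp 6 * CA * K * 2000 := by
      rw [norm_mul, norm_mul]
      calc ‖((2 * Real.pi / (q * T) : ℝ) : ℂ) ^ (z + β)‖ * ‖Aq χ (z + β)‖ * ‖Q2‖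
          ≤ Real.exp 6 * (CA * rq q * Real.log T) * (K * 2000 / (rq q * Real.log T)) :=
            mul_le_mul (mul_le_mul h5 (h4.trans hzL)
              (norm_nonneg _) (Real.exp_pos 6).le) (h2.trans h7) (norm_nonneg _) (by positivity)
        _ = Real.exp 6 * CA * K * 2000 := by field_simp
    have h10 : C * (1 + 1 / ‖z + β‖) * T ^ (-(1/4) : ℝ) ≤ 1 := by
      calc C * (1 + 1 / ‖z + β‖) * T ^ (-(1/4) : ℝ) ≤ C * Real.log T * T ^ (-(1/4) : ℝ) :=
            mul_le_mul_of_nonneg_right (mul_le_mul_of_nonneg_left hD hC.le)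
              (Real.rpow_nonneg hT00.le _)
        _ = C * (Real.log T * T ^ (-(1/4) : ℝ)) := by ring
        _ ≤ 1 := hTC
    have h11 := hm.trans h10
    obtain ⟨E, hE⟩ : ∃ E, E = EE T (XX χ ![1, 0, 1, 0] l z β ![z, 0, β, 0]) := ⟨_, rfl⟩
    rw [← hE] at h11 ⊢
    obtain ⟨R, hR⟩ : ∃ R, R = zq q (1 + (z + β)) * Q1 := ⟨_, rfl⟩
    obtain ⟨R', hR'⟩ : ∃ R', R' = ((2 * Real.pi / (q * T) : ℝ) : ℂ) ^ (z + β) * Aq χ (z + β) * Q2 :=
      ⟨_, rfl⟩
    rw [← hR] at h11 h8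
    rw [← hR'] at h11 h9
    calc ‖E‖ = ‖(E - (R + R')) + R + R'‖ := by
          congr 1
          ring
      _ ≤ ‖(E - (R + R')) + R‖ + ‖R'‖ := norm_add_le _ _
      _ ≤ ‖E - (R + R')‖ + ‖R‖ + ‖R'‖ := add_le_add (norm_add_le _ _) le_rfl
      _ ≤ 1 + CA * K * 2000 + Real.exp 6 * CA * K * 2000 := add_le_add (add_le_add h11 h8) h9
      _ = C' := by rw [hC']; ring
  -- holomorphy
  obtain ⟨CX, hCX, hXX⟩ := XX_bound hne ![1, 0, 1, 0] hlamj l (U + 1) hl00 (by linarith)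
  have hball : ∀ z ∈ Metric.ball (-β) (4 / Real.log T), ‖z + β‖ < 4 / Real.log T := by
    intro z hz
    rw [Metric.mem_ball, dist_eq_norm, sub_neg_eq_add] at hz
    exact hz
  have hhol : DifferentiableOn ℂ (fun z => EE T (XX χ ![1, 0, 1, 0] l z β ![z, 0, β, 0]))
      (Metric.ball (-β) (4 / Real.log T)) := by
    refine EE_diff hT00 Metric.isOpen_ball (g := fun z t => XX χ ![1, 0, 1, 0] l z β ![z, 0, β, 0] t)
      (C := CX) ?_ ?_ ?_
    · intro t
      exact M07_diff hne l β t _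
    · intro z hz
      obtain ⟨h1, h2⟩ := hdisc z (hball z hz)
      exact (hXX z β ![z, 0, β, 0] h1 hβ16 h2 hβU (hτ z h1)).1
    · intro z hz t _
      obtain ⟨h1, h2⟩ := hdisc z (hball z hz)
      exact (hXX z β ![z, 0, β, 0] h1 hβ16 h2 hβU (hτ z h1)).2 t
  have h3pos : (3 / Real.log T) ≠ 0 := by positivity
  have hsub : closure (Metric.ball (-β) (3 / Real.log T)) ⊆ Metric.ball (-β) (4 / Real.log T) := by
    rw [closure_ball _ h3pos]
    exact Metric.closedBall_subset_ball (div_lt_div_of_pos_right (by norm_num) hL)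
  refine Complex.norm_le_of_forall_mem_frontier_norm_le (U := Metric.ball (-β) (3 / Real.log T))
    (f := fun z => EE T (XX χ ![1, 0, 1, 0] l z β ![z, 0, β, 0]))
    Metric.isBounded_ball (hhol.mono hsub).diffContOnCl ?_ ?_
  · intro z hz
    rw [frontier_ball _ h3pos, Metric.mem_sphere, dist_eq_norm, sub_neg_eq_add] at hz
    exact hcircle z hz
  · rw [closure_ball _ h3pos, Metric.mem_closedBall, dist_eq_norm, sub_neg_eq_add]
    exact hαβ

end LX

end F_X_M07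

section F_X_M09

open Complex MeasureTheory Set Filter Topology
open scoped ComplexConjugate

namespace LX

open LZ

/-- second moment of the mollified zeta. -/
theorem F_second : ∃ C : ℝ, 0 < C ∧ ∀ (q : ℕ) [NeZero q] (χ : DirichletCharacter ℂ q), χ.IsPrimitive → 1 < q →
    ∀ U : ℝ, 0 ≤ U → ∃ T0 : ℝ, 2 ≤ T0 ∧ ∀ T : ℝ, T0 ≤ T → ∀ l : ℝ,
    Real.log T / 2000 ≤ l → l ≤ Real.log T / 1000 → ∀ σ u : ℝ, |σ| ≤ 1 / Real.log T → |u| ≤ U →
    ER T (fun t => ‖FF χ l (1/2 + σ + (t + u) * I)‖ ^ 2) ≤ C := by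
  obtain ⟨C, hC, h⟩ := XX_mu_bound
  refine ⟨C, hC, fun q _ χ hχ hq U hU => ?_⟩
  obtain ⟨T0, hT0, h⟩ := h q χ hχ hq U hU
  refine ⟨T0, hT0, ?_⟩
  intro T hT l hl1 hl2 σ u hσ hu
  have hlog : 0 < Real.log T := Real.log_pos (by linarith)
  have hl0 : 0 < l := lt_of_lt_of_le (by positivity) hl1
  have h1 := h T hT l hl1 hl2 (σ + u * I) (σ - u * I) (by simpa using hσ) (by simpa using hu) (by
    have e1 : (σ : ℂ) + u * I + (σ - u * I) = ((2 * σ : ℝ) : ℂ) := by push_cast; ring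
    rw [e1, Complex.norm_real, Real.norm_eq_abs, abs_mul, abs_two]
    have e2 : 2 * |σ| ≤ 2 * (1 / Real.log T) := by linarith
    have e3 : 2 * (1 / Real.log T) ≤ 3 / Real.log T := by
      rw [mul_one_div]
      exact div_le_div_of_nonneg_right (by norm_num) hlog.le
    linarith)
  have hEE : EE T (XX χ ![1, 0, 1, 0] l (σ + u * I) (σ - u * I) ![σ + u * I, 0, σ - u * I, 0]) =
      ((ER T (fun t => ‖FF χ l (1/2 + σ + (t + u) * I)‖ ^ 2) : ℝ) : ℂ) := by
    unfold EE ER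
    rw [Complex.ofReal_mul, Complex.ofReal_inv, ← integral_complex_ofReal]
    congr 1
    apply integral_congr_ae
    refine Filter.Eventually.of_forall (fun t => ?_)
    simp only
    rw [XX_mu_eq (ne_one hχ hq) l σ u u t, Complex.mul_conj']
    push_cast
    ring
  rw [hEE, Complex.norm_real] at h1
  exact (le_abs_self _).trans h1

end LX

end F_X_M09
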