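import Pool.Agent.Lib.MP_0f5a55_nt.V.V66
import Pool.Agent.Lib.MP_0f5a55_nt.V.V71

section F_X_M13

open Complex MeasureTheory Set Filter Topology
open scoped ComplexConjugate

namespace LX

open LZ

variable {q : ℕ} [NeZero q]

private theorem M13_alg (L l n C1 K E : ℝ) (hL : 0 < L) (hl : L / 2000 ≤ l) (hl' : l ≤ L / 1000)
    (hn : 0 < n) (hn1 : n ≤ 1) (hLn : 1 ≤ L * n) (hC1 : 0 < C1) (hK : 0 < K) (hE : 0 ≤ E) :
    C1 * (1 + 1 / n) * (K * Real.sqrt (1 + l * n) / l) * E ≤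
      (C1 * K * 8000 * E) / Real.sqrt (L * n) := by
  have hlpos : 0 < l := by linarith
  have hs : Real.sqrt (1 + l * n) ≤ 2 * Real.sqrt (L * n) := by
    have h4 : 2 * Real.sqrt (L * n) = Real.sqrt (4 * (L * n)) := by
      rw [Real.sqrt_mul (by norm_num : (0:ℝ) ≤ 4) (L * n)]
      congr 1
      rw [show (4:ℝ) = 2 ^ 2 by norm_num, Real.sqrt_sq (by norm_num)]
    rw [h4]
    apply Real.sqrt_le_sqrt
    nlinarith
  have h1n : 1 + 1 / n ≤ 2 / n := by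
    rw [show (2:ℝ) / n = 1 / n + 1 / n by ring]
    have : 1 ≤ 1 / n := by rw [le_div_iff₀ hn]; linarith
    linarith
  have hil : 1 / l ≤ 2000 / L := by
    rw [div_le_div_iff₀ hlpos hL]
    linarith
  have hLn0 : 0 < L * n := by positivity
  have hsq : Real.sqrt (L * n) * Real.sqrt (L * n) = L * n := Real.mul_self_sqrt hLn0.le
  have hspos : 0 < Real.sqrt (L * n) := Real.sqrt_pos.2 hLn0
  have key : (1 + 1 / n) * (Real.sqrt (1 + l * n) / l) ≤ 8000 / Real.sqrt (L * n) := by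
    calc (1 + 1 / n) * (Real.sqrt (1 + l * n) / l)
        = (1 + 1 / n) * (Real.sqrt (1 + l * n) * (1 / l)) := by ring
      _ ≤ (2 / n) * ((2 * Real.sqrt (L * n)) * (2000 / L)) := by
        apply mul_le_mul h1n _ (by positivity) (by positivity)
        exact mul_le_mul hs hil (by positivity) (by positivity)
      _ = 8000 * Real.sqrt (L * n) / (L * n) := by field_simp; ring
      _ = 8000 * Real.sqrt (L * n) / (Real.sqrt (L * n) * Real.sqrt (L * n)) := by rw [hsq]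
      _ = 8000 / Real.sqrt (L * n) := by field_simp
  calc C1 * (1 + 1 / n) * (K * Real.sqrt (1 + l * n) / l) * E
      = (C1 * K * E) * ((1 + 1 / n) * (Real.sqrt (1 + l * n) / l)) := by ring
    _ ≤ (C1 * K * E) * (8000 / Real.sqrt (L * n)) :=
        mul_le_mul_of_nonneg_left key (by positivity)
    _ = (C1 * K * 8000 * E) / Real.sqrt (L * n) := by ring

private theorem M13_num (L l l0 Λ ρ1 ρ2 n : ℝ) (hΛ : 1 ≤ Λ) (hl0 : 1 ≤ l0) (hρ1 : 0 < ρ1)
    (hρ2 : 0 < ρ2) (hbig : 2000 * l0 + 16 * Λ + 16 + Λ / ρ1 + Λ / ρ2 ≤ L) (hl : L / 2000 ≤ l)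
    (hl' : l ≤ L / 1000) (hv2 : 1 / L ≤ n) (hv3 : n ≤ Λ / L) :
    16 ≤ L ∧ 0 < L ∧ l0 ≤ l ∧ 0 < l ∧ 0 < n ∧ 1 ≤ L * n ∧ L * n ≤ Λ ∧ 1 / L ≤ 1 / 16 ∧
      n ≤ 1 / 16 ∧ n ≤ ρ1 ∧ n ≤ ρ2 ∧ 1 / L ≤ 1 / (8 * l) := by
  have h1 : 0 ≤ Λ / ρ1 := div_nonneg (zero_le_one.trans hΛ) hρ1.le
  have h2 : 0 ≤ Λ / ρ2 := div_nonneg (zero_le_one.trans hΛ) hρ2.le
  have hL16 : 16 ≤ L := by linarith
  have hL0 : 0 < L := by linarith
  have hll0 : l0 ≤ l := by linarith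
  have hlpos : 0 < l := by linarith
  have hn0 : 0 < n := lt_of_lt_of_le (one_div_pos.2 hL0) hv2
  have hq1 : Λ / L ≤ ρ1 := by
    rw [div_le_iff₀ hL0]
    have h3 : Λ / ρ1 ≤ L := by linarith
    rw [div_le_iff₀ hρ1] at h3
    linarith
  have hq2 : Λ / L ≤ ρ2 := by
    rw [div_le_iff₀ hL0]
    have h3 : Λ / ρ2 ≤ L := by linarith
    rw [div_le_iff₀ hρ2] at h3
    linarith
  refine ⟨hL16, hL0, hll0, hlpos, hn0, ?_, ?_, ?_, ?_, hv3.trans hq1, hv3.trans hq2, ?_⟩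
  · rw [div_le_iff₀ hL0] at hv2
    linarith
  · rw [le_div_iff₀ hL0] at hv3
    linarith
  · exact one_div_le_one_div_of_le (by norm_num) hL16
  · refine le_trans hv3 ?_
    rw [div_le_div_iff₀ hL0 (by norm_num)]
    linarith
  · exact one_div_le_one_div_of_le (by linarith) (by linarith)

private theorem M13_T {T : ℝ} (h : 7 ≤ T) : 0 < T ∧ 2 * Real.pi ≤ T := by
  constructor
  · linarith
  · linarith [Real.pi_lt_d2]

private theorem M13_zq (C1 r n K s l : ℝ) (hC1 : 0 < C1) (hr : 0 < r) (hn : 0 < n) (hK : 0 < K)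
    (hs : 0 ≤ s) (hl : 0 < l) :
    (C1 * r / n) * (K * s / (r * l)) ≤ C1 * (1 + 1 / n) * (K * s / l) := by
  have h1 : (C1 * r / n) * (K * s / (r * l)) = C1 * (1 / n) * (K * s / l) := by
    have hr0 := hr.ne'
    field_simp
  rw [h1]
  refine mul_le_mul_of_nonneg_right ?_ (div_nonneg (mul_nonneg hK.le hs) hl.le)
  exact mul_le_mul_of_nonneg_left (le_add_of_nonneg_left zero_le_one) hC1.le

private theorem M13_t3 (Cm n L y Λ : ℝ) (hCm : 0 < Cm) (hn : 0 < n) (hL : 16 ≤ L) (hy : 0 < y)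
    (hΛ : 1 ≤ Λ) (h1 : L ≤ 1 / (2 * Cm * Real.sqrt Λ) * y) (h2 : 1 ≤ L * n) (h3 : L * n ≤ Λ) :
    Cm * (1 + 1 / n) * (1 / y) ≤ 1 / Real.sqrt (L * n) := by
  have h1n : 1 + 1 / n ≤ 2 * L := by
    have : 1 / n ≤ L := by
      rw [div_le_iff₀ hn]; exact h2
    linarith
  have hΛ0 : 0 < Real.sqrt Λ := Real.sqrt_pos.2 (zero_lt_one.trans_le hΛ)
  have hy1 : 0 ≤ 1 / y := (one_div_pos.2 hy).le
  calc Cm * (1 + 1 / n) * (1 / y)
      ≤ Cm * (2 * L) * (1 / y) :=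
        mul_le_mul_of_nonneg_right (mul_le_mul_of_nonneg_left h1n hCm.le) hy1
    _ ≤ Cm * (2 * (1 / (2 * Cm * Real.sqrt Λ) * y)) * (1 / y) :=
        mul_le_mul_of_nonneg_right (mul_le_mul_of_nonneg_left
          (mul_le_mul_of_nonneg_left h1 zero_le_two) hCm.le) hy1
    _ = 1 / Real.sqrt Λ := by
        generalize Real.sqrt Λ = x at hΛ0
        have hx : x ≠ 0 := hΛ0.ne'
        have hy : y ≠ 0 := hy.ne'
        have hC : Cm ≠ 0 := hCm.ne'
        field_simp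
    _ ≤ 1 / Real.sqrt (L * n) :=
        one_div_le_one_div_of_le (Real.sqrt_pos.2 (zero_lt_one.trans_le h2)) (Real.sqrt_le_sqrt h3)

private theorem M13_fin (S W P Q Ee : ℝ) (h : P * Q * (1 + Ee) ≤ W / S) :
    1 / S + (P * Q + Ee * P * Q) ≤ (W + 1) / S := by
  calc 1 / S + (P * Q + Ee * P * Q) = P * Q * (1 + Ee) + 1 / S := by ring
    _ ≤ W / S + 1 / S := add_le_add_left h _
    _ = (W + 1) / S := by ring

/-- (4.3): master with alpha = 0, beta = -iv = eta, tau = (0,iv,0,-iv): first vector (eta,0,0,eta), second (0,-eta,-eta,0)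
(QQ_swap, QQ_half with -eta). 1+l|eta| <= 2 log T |v|, l >= log T/2000. -/
theorem K_large : ∃ C : ℝ, 0 < C ∧ ∀ (q : ℕ) [NeZero q] (χ : DirichletCharacter ℂ q), χ.IsPrimitive → 1 < q →
    ∀ Λ : ℝ, 1 ≤ Λ → ∃ T0 : ℝ, 2 ≤ T0 ∧ ∀ T : ℝ, T0 ≤ T → ∀ l : ℝ,
    Real.log T / 2000 ≤ l → l ≤ Real.log T / 1000 → ∀ v : ℂ, |v.im| ≤ 1 / Real.log T →
    1 / Real.log T ≤ ‖v‖ → ‖v‖ ≤ Λ / Real.log T →
    ‖KK χ T l v‖ ≤ C / Real.sqrt (Real.log T * ‖v‖) := by
  obtain ⟨K, hK, hQ⟩ := QQ_half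
  obtain ⟨C1, hC1, hzA⟩ := zA_abs
  refine ⟨C1 * K * 8000 * (1 + Real.exp 2) + 1, by positivity, ?_⟩
  intro q _ χ hχ hq
  have hrq := rq_pos q
  obtain ⟨Cm, Tm, hCm, hTm, hmaster⟩ := master hχ hq 1 zero_le_one
  obtain ⟨ρ1, l0, hρ1, hρ14, hl0, hQ⟩ := hQ q hq.le
  obtain ⟨ρ2, hρ2, hzA⟩ := hzA q χ
  intro Λ hΛ
  have hc : 0 < 1 / (2 * Cm * Real.sqrt Λ) := by positivity
  have hev1 := (isLittleO_log_rpow_atTop (by norm_num : (0:ℝ) < 1/4)).def hc
  have hev2 : ∀ᶠ T : ℝ in atTop, 2000 * l0 + 16 * Λ + 16 + Λ / ρ1 + Λ / ρ2 ≤ Real.log T :=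
    Real.tendsto_log_atTop.eventually_ge_atTop _
  have hev := ((hev1.and hev2).and ((eventually_ge_atTop (max Tm 7)).and (eventually_ge_atTop (q : ℝ))))
  rw [Filter.eventually_atTop] at hev
  obtain ⟨T1, hT1⟩ := hev
  refine ⟨max T1 2, le_max_right _ _, ?_⟩
  intro T hT l hl hl' v hv1 hv2 hv3
  obtain ⟨⟨hlogle, hlogbig⟩, hTmax, hqT⟩ := hT1 T (le_trans (le_max_left _ _) hT)
  have hTm' : Tm ≤ T := le_trans (le_max_left _ _) hTmax
  have hT7 : 7 ≤ T := le_trans (le_max_right _ _) hTmax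
  obtain ⟨hT0, hT2π⟩ := M13_T hT7
  set L := Real.log T with hLdef
  obtain ⟨hL16, hL0, hll0, hlpos, hn0, hLn, hLnΛ, h16, hn16, hnρ1, hnρ2, hL8⟩ :=
    M13_num L l l0 Λ ρ1 ρ2 ‖v‖ hΛ hl0 hρ1 hρ2 hlogbig hl hl' hv2 hv3
  -- eta
  set η : ℂ := -(v * I) with hη
  have hηre : η.re = v.im := by simp [hη]
  have hηim : η.im = -v.re := by simp [hη]
  have hηn : ‖η‖ = ‖v‖ := by simp [hη]
  have hη0 : η ≠ 0 := by
    intro h
    rw [h, norm_zero] at hηn
    exact hn0.ne hηn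
  have hvre : |v.re| ≤ ‖v‖ := Complex.abs_re_le_norm v
  have hηre' : |η.re| ≤ 1 / L := by rw [hηre]; exact hv1
  have hηre8 : |η.re| ≤ 1 / (8 * l) := hηre'.trans hL8
  have hn1 : ‖v‖ ≤ 1 := hn16.trans (by norm_num)
  have hηre16 : |η.re| ≤ 1 / 16 := hηre'.trans h16
  have hηim1 : |η.im| ≤ 1 := by rw [hηim, abs_neg]; exact hvre.trans hn1
  have hM := hmaster T hTm' l hlpos hl' (fun _ => 1/2) (fun _ => by norm_num) 0 η
    ![0, v * I, 0, -(v * I)] (by norm_num) hηre16 (by norm_num) hηim1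
    (by
      intro j
      fin_cases j
      · norm_num
      · simp only [Fin.mk_one, Matrix.cons_val_one, Matrix.cons_val_zero]
        have : (v * I).re = -v.im := by simp
        rw [this, abs_neg]; exact hv1.trans h16
      · norm_num
      · show |(-(v * I)).re| ≤ 1/16
        rw [← hη]; exact hηre16) (by rw [zero_add]; exact hη0)
  have hv1' : (![(![0, v * I, 0, -(v * I)] : Fin 4 → ℂ) 0 + η, (![0, v * I, 0, -(v * I)] : Fin 4 → ℂ) 1 + η,
      (![0, v * I, 0, -(v * I)] : Fin 4 → ℂ) 2 + 0, (![0, v * I, 0, -(v * I)] : Fin 4 → ℂ) 3 + 0] : Fin 4 → ℂ)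
      = ![η, 0, 0, η] := by
    funext j
    fin_cases j
    · show (0:ℂ) + η = η
      rw [zero_add]
    · show v * I + η = 0
      rw [hη]; ring
    · show (0:ℂ) + 0 = 0
      rw [zero_add]
    · show -(v * I) + 0 = η
      rw [hη, add_zero]
  have hv2' : (![(![0, v * I, 0, -(v * I)] : Fin 4 → ℂ) 0 - 0, (![0, v * I, 0, -(v * I)] : Fin 4 → ℂ) 1 - 0,
      (![0, v * I, 0, -(v * I)] : Fin 4 → ℂ) 2 - η, (![0, v * I, 0, -(v * I)] : Fin 4 → ℂ) 3 - η] : Fin 4 → ℂ)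
      = ![0, -η, -η, 0] := by
    funext j
    fin_cases j
    · show (0:ℂ) - 0 = 0
      rw [sub_zero]
    · show v * I - 0 = -η
      rw [hη]; ring
    · show (0:ℂ) - η = -η
      rw [zero_sub]
    · show -(v * I) - η = 0
      rw [hη]; ring
  rw [hv1', hv2', zero_add, QQ_swap q ⌊Real.exp l⌋₊ (1/2) l 0 (-η) (-η) 0 (-η)] at hM
  have hQ1 := hQ l hll0 η hηre8 (by rw [hηn]; exact hnρ1)
  have hQ2 := hQ l hll0 (-η) (by rw [neg_re, abs_neg]; exact hηre8) (by rw [norm_neg, hηn]; exact hnρ1)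
  rw [norm_neg] at hQ2
  obtain ⟨hz, hA⟩ := hzA η hη0 (by rw [hηn]; exact hnρ2)
  have hpow : ‖((2 * Real.pi / (q * T) : ℝ) : ℂ) ^ η‖ ≤ Real.exp 2 := by
    have := M07_pow hq.le hT2π hqT hηre'
    rwa [mul_one] at this
  rw [hηn] at hM hQ1 hQ2 hz hA
  have hKK : KK χ T l v = EE T (XX χ (fun _ => 1/2) l 0 η ![0, v * I, 0, -(v * I)]) := rfl
  rw [← hKK] at hM
  have hzq := M13_zq C1 (rq q) ‖v‖ K (Real.sqrt (1 + l * ‖v‖)) l hC1 hrq hn0 hK (Real.sqrt_nonneg _)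
    hlpos
  have hCr : 0 ≤ C1 * rq q / ‖v‖ := div_nonneg (mul_nonneg hC1.le hrq.le) hn0.le
  -- first term
  have t1 : ‖zq q (1 + η) * QQ q ⌊Real.exp l⌋₊ (fun _ => 1/2) l ![η, 0, 0, η] η‖ ≤
      C1 * (1 + 1 / ‖v‖) * (K * Real.sqrt (1 + l * ‖v‖) / l) := by
    rw [norm_mul]
    exact (mul_le_mul hz hQ1 (norm_nonneg _) hCr).trans hzq
  have t2 : ‖((2 * Real.pi / (q * T) : ℝ) : ℂ) ^ η * Aq χ η *
      QQ q ⌊Real.exp l⌋₊ (fun _ => 1/2) l ![-η, 0, 0, -η] (-η)‖ ≤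
      Real.exp 2 * (C1 * (1 + 1 / ‖v‖)) * (K * Real.sqrt (1 + l * ‖v‖) / l) := by
    rw [norm_mul, norm_mul, mul_assoc, mul_assoc (Real.exp 2)]
    exact mul_le_mul hpow ((mul_le_mul hA hQ2 (norm_nonneg _) hCr).trans hzq)
      (mul_nonneg (norm_nonneg _) (norm_nonneg _)) (Real.exp_pos _).le
  -- error term
  have t3 : Cm * (1 + 1 / ‖v‖) * T ^ (-(1/4) : ℝ) ≤ 1 / Real.sqrt (L * ‖v‖) := by
    have hTp : 0 < T ^ ((1:ℝ)/4) := Real.rpow_pos_of_pos hT0 _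
    rw [Real.norm_of_nonneg hL0.le, Real.norm_of_nonneg hTp.le] at hlogle
    have hneg : T ^ (-(1/4) : ℝ) = 1 / T ^ ((1:ℝ)/4) := by
      rw [Real.rpow_neg hT0.le, inv_eq_one_div]
    rw [hneg]
    exact M13_t3 Cm ‖v‖ L _ Λ hCm hn0 hL16 hTp hΛ hlogle hLn hLnΛ
  have hsum := M13_alg L l ‖v‖ C1 K (1 + Real.exp 2) hL0 hl hl' hn0 hn1 hLn hC1 hK
    (add_nonneg zero_le_one (Real.exp_pos _).le)
  have htri : ‖KK χ T l v‖ ≤ ‖KK χ T l v -
      (zq q (1 + η) * QQ q ⌊Real.exp l⌋₊ (fun _ => 1/2) l ![η, 0, 0, η] η +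
      ((2 * Real.pi / (q * T) : ℝ) : ℂ) ^ η * Aq χ η *
        QQ q ⌊Real.exp l⌋₊ (fun _ => 1/2) l ![-η, 0, 0, -η] (-η))‖ +
      (‖zq q (1 + η) * QQ q ⌊Real.exp l⌋₊ (fun _ => 1/2) l ![η, 0, 0, η] η‖ +
      ‖((2 * Real.pi / (q * T) : ℝ) : ℂ) ^ η * Aq χ η *
        QQ q ⌊Real.exp l⌋₊ (fun _ => 1/2) l ![-η, 0, 0, -η] (-η)‖) := by
    refine le_trans ?_ (add_le_add_right (norm_add_le _ _) _)
    refine le_trans ?_ (norm_add_le _ _)
    rw [sub_add_cancel]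
  refine htri.trans ((add_le_add (le_trans hM t3) (add_le_add t1 t2)).trans ?_)
  have h9 := M13_fin (Real.sqrt (L * ‖v‖)) (C1 * K * 8000 * (1 + Real.exp 2)) _ _ (Real.exp 2) hsum
  exact h9

end LX

end F_X_M13

section F_X_M14

open Complex MeasureTheory Set Filter Topology Metric
open scoped ComplexConjugate

namespace LX

open LZ

variable {q : ℕ} [NeZero q]

theorem M14_diff {χ : DirichletCharacter ℂ q} (hχ : χ ≠ 1) (l : ℝ) (t : ℝ) (v : ℂ) :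
    DifferentiableAt ℂ (fun v : ℂ => XX χ (fun _ => 1/2) l 0 (-(v * I)) ![0, v * I, 0, -(v * I)] t) v := by
  have h1 : DifferentiableAt ℂ (fun v : ℂ => Mol χ (1 / 2) l (1 / 2 + v * I + t * I)) v :=
    DifferentiableAt.comp (g := Mol χ (1 / 2) l) (f := fun v : ℂ => 1 / 2 + v * I + t * I) v (Mol_diff _ _ _ _) (by fun_prop)
  have h2 : DifferentiableAt ℂ (fun v : ℂ => Mol χ⁻¹ (1 / 2) l (1 / 2 + -(v * I) - t * I)) v :=
    DifferentiableAt.comp (g := Mol χ⁻¹ (1 / 2) l) (f := fun v : ℂ => 1 / 2 + -(v * I) - t * I) v (Mol_diff _ _ _ _) (by fun_prop)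
  have h3 : DifferentiableAt ℂ (fun v : ℂ => Lf χ⁻¹ (1 / 2 + -(v * I) - t * I)) v :=
    DifferentiableAt.comp (g := Lf χ⁻¹) (f := fun v : ℂ => 1 / 2 + -(v * I) - t * I) v
      (Lf_diff (inv_ne_one.mpr hχ) _) (by fun_prop)
  exact (h3.const_mul (Lf χ (1 / 2 + 0 + t * I))).mul
    ((((h1.const_mul (Mol χ (1 / 2) l (1 / 2 + 0 + t * I)))).mul_const (Mol χ⁻¹ (1 / 2) l (1 / 2 + 0 - t * I))).mul h2)

/-- maximum modulus on |v| <= 1/log T. -/
theorem K_small : ∃ C : ℝ, 0 < C ∧ ∀ (q : ℕ) [NeZero q] (χ : DirichletCharacter ℂ q), χ.IsPrimitive → 1 < q →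
    ∃ T0 : ℝ, 2 ≤ T0 ∧ ∀ T : ℝ, T0 ≤ T → ∀ l : ℝ,
    Real.log T / 2000 ≤ l → l ≤ Real.log T / 1000 → ∀ v : ℂ, ‖v‖ ≤ 1 / Real.log T → ‖KK χ T l v‖ ≤ C := by
  obtain ⟨C, hC, hK⟩ := K_large
  refine ⟨C, hC, fun q _ χ hχ hq => ?_⟩
  obtain ⟨T1, hT1, hK1⟩ := hK q χ hχ hq 1 le_rfl
  refine ⟨max T1 (Real.exp 32), hT1.trans (le_max_left _ _), ?_⟩
  intro T hT l hl1 hl2 v hv
  have hTT1 : T1 ≤ T := (le_max_left _ _).trans hT
  have hT0 : 0 < T := by linarith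
  have hlog : 32 ≤ Real.log T := by
    rw [Real.le_log_iff_exp_le hT0]
    exact (le_max_right _ _).trans hT
  have hL0 : 0 < Real.log T := by linarith
  have hρ0 : 0 < 1 / Real.log T := by positivity
  have hρ : 1 / Real.log T ≤ 1 / 32 := one_div_le_one_div_of_le (by norm_num) hlog
  have hl0 : 0 < l := by linarith
  have hsub : ∀ z ∈ ball (0 : ℂ) (1 / 16), ‖z‖ < 1 / 16 := fun z hz => by simpa using hz
  obtain ⟨C2, hC2, hX⟩ := XX_bound (ne_one hχ hq) (fun _ => 1 / 2) (fun _ => by norm_num) l 1 hl0 zero_le_one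
  have hX' : ∀ z ∈ ball (0 : ℂ) (1 / 16), Continuous (XX χ (fun _ => 1/2) l 0 (-(z * I)) ![0, z * I, 0, -(z * I)]) ∧
      ∀ t : ℝ, ‖XX χ (fun _ => 1/2) l 0 (-(z * I)) ![0, z * I, 0, -(z * I)] t‖ ≤ C2 * (1 + |t|) ^ 2 := by
    intro z hz
    have h1 := hsub z hz
    have hre := Complex.abs_re_le_norm z
    have him := Complex.abs_im_le_norm z
    refine hX 0 (-(z * I)) ![0, z * I, 0, -(z * I)] ?_ ?_ ?_ ?_ ?_
    · simp
    · simp; linarith
    · simp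
    · simp; linarith
    · intro j
      fin_cases j
      · simp
      · simp; linarith
      · simp
      · simp; linarith
  have hdiff : DifferentiableOn ℂ (fun z => EE T (XX χ (fun _ => 1/2) l 0 (-(z * I)) ![0, z * I, 0, -(z * I)]))
      (ball (0 : ℂ) (1 / 16)) := by
    refine EE_diff hT0 isOpen_ball (g := fun z => XX χ (fun _ => 1/2) l 0 (-(z * I)) ![0, z * I, 0, -(z * I)])
      (C := C2) ?_ ?_ ?_
    · intro t z hz
      exact (M14_diff (ne_one hχ hq) l t z).differentiableWithinAt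
    · exact fun z hz => (hX' z hz).1
    · exact fun z hz t _ => (hX' z hz).2 t
  have hcl : closure (ball (0 : ℂ) (1 / Real.log T)) ⊆ ball 0 (1 / 16) := by
    rw [closure_ball _ hρ0.ne']
    exact closedBall_subset_ball (by linarith)
  refine Complex.norm_le_of_forall_mem_frontier_norm_le (f := fun z => KK χ T l z) (U := ball (0 : ℂ) (1 / Real.log T))
    isBounded_ball (hdiff.mono hcl).diffContOnCl ?_ ?_
  · intro z hz
    rw [frontier_ball _ hρ0.ne'] at hz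
    have hz1 : ‖z‖ = 1 / Real.log T := by simpa using hz
    have h1 := hK1 T hTT1 l hl1 hl2 z ((Complex.abs_im_le_norm z).trans hz1.le) hz1.ge hz1.le
    rw [hz1, mul_one_div_cancel hL0.ne', Real.sqrt_one, div_one] at h1
    exact h1
  · rw [closure_ball _ hρ0.ne']
    simpa using hv

end LX

end F_X_M14

section F_X_Z05

open Complex MeasureTheory Set Filter Topology
open scoped ComplexConjugate

namespace LX

open LZ

variable {q : ℕ} [NeZero q]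

theorem Z05_uu {χ : DirichletCharacter ℂ q} (hχ : χ.IsPrimitive) (hq : 1 < q) (t : ℝ) :
    uu χ t * conj (uu χ t) = 1 := by
  rw [Complex.mul_conj, Complex.normSq_eq_norm_sq, (uu_facts hχ hq).1]
  norm_num

/-- second moment of GG (K_small, v = 0). -/
theorem G_sq : ∃ C : ℝ, 0 < C ∧ ∀ (q : ℕ) [NeZero q] (χ : DirichletCharacter ℂ q), χ.IsPrimitive → 1 < q →
    ∃ T0 : ℝ, 2 ≤ T0 ∧ ∀ T : ℝ, T0 ≤ T → ∀ l : ℝ,
    Real.log T / 2000 ≤ l → l ≤ Real.log T / 1000 → ER T (fun t => GG χ l t ^ 2) ≤ C := by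
  obtain ⟨C, hC, h⟩ := K_small
  refine ⟨C, hC, fun q _ χ hχ hq => ?_⟩
  obtain ⟨T0, hT0, h⟩ := h q χ hχ hq
  refine ⟨T0, hT0, fun T hT l hl1 hl2 => ?_⟩
  have hlog : 0 ≤ Real.log T := Real.log_nonneg (by linarith)
  have h1 := h T hT l hl1 hl2 0 (by
    rw [norm_zero]
    positivity)
  obtain ⟨-, -, h3, -⟩ := GG_facts hχ hq
  have h4 : KK χ T l 0 = ((ER T (fun t => GG χ l t ^ 2) : ℝ) : ℂ) := by
    unfold KK EE ER
    push_cast
    congr 1
    rw [← integral_complex_ofReal]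
    refine integral_congr_ae (Eventually.of_forall fun t => ?_)
    have h5 := h3 l t 0
    simp only [add_zero, Complex.ofReal_zero] at h5
    rw [Z05_uu hχ hq t, one_mul] at h5
    simp only
    rw [← h5]
    push_cast
    ring
  rw [h4, Complex.norm_real] at h1
  exact (le_abs_self _).trans h1

end LX

end F_X_Z05

section F_X_Z13

open Complex MeasureTheory Set Filter Topology
open scoped ComplexConjugate

namespace LX

open LZ

variable {q : ℕ} [NeZero q]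

omit [NeZero q] in
theorem Z13_Mol (χ : DirichletCharacter ℂ q) (s : ℂ) : Mol χ (1/2) 0 s = 1 := by
  have h1 : PQ q ⌊Real.exp 0⌋₊ = ∅ := by
    rw [Real.exp_zero, Nat.floor_one]
    ext p
    simp only [PQ, PP, Finset.mem_filter, Finset.mem_range, Finset.notMem_empty, iff_false]
    rintro ⟨⟨h, hp⟩, -⟩
    have := hp.two_le
    omega
  rw [Mol, h1]
  simp [cf, nS, wt]

theorem Z13_GG (χ : DirichletCharacter ℂ q) (l x : ℝ) : GG χ l x = GG χ 0 x * ‖Mol χ (1/2) l (1/2 + x * I)‖ ^ 2 := by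
  rw [GG, GG, Z13_Mol]
  simp

/-- a strict inequality forces a sign change of GG, hence a zero of uu t * zeta(1/2+it) (if there were none in the closed
interval, by continuity uu*zeta is real of constant sign there and GG >= 0 or <= 0). -/
theorem zero_in {χ : DirichletCharacter ℂ q} (hχ : χ.IsPrimitive) (hq : 1 < q) (l t h : ℝ) (hh : 0 ≤ h)
    (hlt : |∫ x in t..(t + h), GG χ l x| < ∫ x in t..(t + h), |GG χ l x|) : ∃ g ∈ Gam χ, g ∈ Icc t (t + h) := by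
  by_contra hcon
  push Not at hcon
  obtain ⟨hc, habs, -, -⟩ := GG_facts hχ hq
  have hth : t ≤ t + h := by linarith
  have hne : ∀ x ∈ Icc t (t + h), GG χ 0 x ≠ 0 := by
    intro x hx h0
    have h1 := habs 0 x
    rw [h0, abs_zero, Z13_Mol, one_pow, mul_one] at h1
    exact hcon x (norm_eq_zero.mp h1.symm) hx
  have ht : t ∈ Icc t (t + h) := ⟨le_refl _, hth⟩
  have huIcc : uIcc t (t + h) = Icc t (t + h) := uIcc_of_le hth
  rcases lt_or_gt_of_ne (hne t ht) with hneg | hpos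
  · have hall : ∀ x ∈ Icc t (t + h), GG χ 0 x < 0 := by
      intro x hx
      by_contra hx0
      have hx1 : 0 ≤ GG χ 0 x := not_lt.mp hx0
      obtain ⟨z, hz, hz0⟩ := intermediate_value_Icc hx.1 (hc 0).continuousOn ⟨hneg.le, hx1⟩
      exact hne z ⟨hz.1, hz.2.trans hx.2⟩ hz0
    have h1 : ∀ x ∈ Icc t (t + h), GG χ l x ≤ 0 := by
      intro x hx
      rw [Z13_GG]
      exact mul_nonpos_of_nonpos_of_nonneg (hall x hx).le (by positivity)
    have h2 : ∫ x in t..(t + h), |GG χ l x| = ∫ x in t..(t + h), -GG χ l x := by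
      refine intervalIntegral.integral_congr fun x hx => ?_
      rw [huIcc] at hx
      exact abs_of_nonpos (h1 x hx)
    rw [h2, intervalIntegral.integral_neg] at hlt
    have := neg_abs_le (∫ x in t..(t + h), GG χ l x)
    linarith [neg_abs_le (∫ x in t..(t + h), GG χ l x), le_abs_self (∫ x in t..(t + h), GG χ l x)]
  · have hall : ∀ x ∈ Icc t (t + h), 0 < GG χ 0 x := by
      intro x hx
      by_contra hx0
      have hx1 : GG χ 0 x ≤ 0 := not_lt.mp hx0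
      obtain ⟨z, hz, hz0⟩ := intermediate_value_Icc' hx.1 (hc 0).continuousOn ⟨hx1, hpos.le⟩
      exact hne z ⟨hz.1, hz.2.trans hx.2⟩ hz0
    have h1 : ∀ x ∈ Icc t (t + h), 0 ≤ GG χ l x := by
      intro x hx
      rw [Z13_GG]
      exact mul_nonneg (hall x hx).le (by positivity)
    have h2 : ∫ x in t..(t + h), |GG χ l x| = ∫ x in t..(t + h), GG χ l x := by
      refine intervalIntegral.integral_congr fun x hx => ?_
      rw [huIcc] at hx
      exact abs_of_nonneg (h1 x hx)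
    rw [h2] at hlt
    linarith [le_abs_self (∫ x in t..(t + h), GG χ l x)]

end LX

end F_X_Z13
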