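import Pool.Agent.Lib.MP_0f5a55_nt.V.V66
import Pool.Agent.Lib.MP_0f5a55_nt.V.V72
import Pool.Agent.Lib.MP_0f5a55_nt.V.V73
import Pool.Agent.Lib.MP_0f5a55_nt.V.V74

section F_X_Z08

open Complex MeasureTheory Set Filter Topology
open scoped ComplexConjugate

namespace LX

open LZ

variable {q : ℕ} [NeZero q]

lemma Z08_K {χ : DirichletCharacter ℂ q} {T l L C1 C2 v Λ : ℝ} (hL : 0 < L) (hC1 : 0 ≤ C1) (hC2 : 0 ≤ C2) (hv0 : 0 ≤ v)
    (hv : v ≤ Λ / L)
    (h1 : 1 / L ≤ v → v ≤ Λ / L → ‖KK χ T l v‖ ≤ C1 / Real.sqrt (L * v))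
    (h2 : v ≤ 1 / L → ‖KK χ T l v‖ ≤ C2) :
    ‖KK χ T l v‖ ≤ Real.sqrt 2 * (C1 + C2) / Real.sqrt (1 + v * L) := by
  have hq0 : 0 < Real.sqrt (1 + v * L) := Real.sqrt_pos.mpr (by positivity)
  have h20 : 0 < Real.sqrt 2 := Real.sqrt_pos.mpr (by norm_num)
  rcases le_total (1 / L) v with h | h
  · have hvL : 1 ≤ v * L := by
      rw [div_le_iff₀ hL] at h
      exact h
    have h3 := h1 h hv
    have h4 : Real.sqrt (1 + v * L) ≤ Real.sqrt 2 * Real.sqrt (L * v) := by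
      rw [← Real.sqrt_mul (by norm_num)]
      apply Real.sqrt_le_sqrt
      linarith
    have h5 : 0 < Real.sqrt (L * v) := Real.sqrt_pos.mpr (by linarith)
    refine h3.trans ?_
    rw [div_le_div_iff₀ h5 hq0]
    calc C1 * Real.sqrt (1 + v * L) ≤ C1 * (Real.sqrt 2 * Real.sqrt (L * v)) := by gcongr
      _ ≤ (C1 + C2) * (Real.sqrt 2 * Real.sqrt (L * v)) := by
          apply mul_le_mul_of_nonneg_right _ (by positivity)
          linarith
      _ = _ := by ring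
  · have hvL : v * L ≤ 1 := by
      rw [le_div_iff₀ hL] at h
      exact h
    refine (h2 h).trans ?_
    rw [le_div_iff₀ hq0]
    have h4 : Real.sqrt (1 + v * L) ≤ Real.sqrt 2 := by
      apply Real.sqrt_le_sqrt
      linarith
    calc C2 * Real.sqrt (1 + v * L) ≤ C2 * Real.sqrt 2 := by gcongr
      _ ≤ (C1 + C2) * Real.sqrt 2 := by
          apply mul_le_mul_of_nonneg_right _ (by positivity)
          linarith
      _ = _ := by ring

/-- the phase on the middle range -/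
lemma Z08_phase {χ : DirichletCharacter ℂ q} (hq : 1 < q) {C3 : ℝ} (hC3 : 0 < C3)
    (hph : ∀ t v : ℝ, 8 ≤ t → 0 ≤ v → v ≤ 1 →
      ‖uu χ t * conj (uu χ (t + v)) - exp (-(v / 2 * Real.log (q * t / (2 * Real.pi)) : ℝ) * I)‖ ≤ C3 / t)
    {T v s Λ D : ℝ} (hT : 0 < T) (hs : 0 < s) (hΛ : 0 < Λ) (hD : 0 < D) (hv0 : 0 ≤ v) (hv1 : v ≤ 1)
    (hL : 0 < Real.log T) (hv : v ≤ Λ / Real.log T) (h8 : 8 ≤ s ^ 2 * T)
    (hc : 4 * D * Λ * C3 ≤ s ^ 2 * T)
    (hM : 2 * Λ ^ 2 * D * (|Real.log (s ^ 2)| + |Real.log (4 / s)| + |Real.log (2 * Real.pi / q)|)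
      ≤ Real.log T) :
    ∀ t ∈ Ioc (s ^ 2 * T) (4 / s * T),
      ‖uu χ t * conj (uu χ (t + v)) - exp (-((v / 2 * Real.log T : ℝ) : ℂ) * I)‖ ≤ 1 / (2 * D * Λ) := by
  intro t ht
  have ht8 : 8 ≤ t := h8.trans ht.1.le
  have ht0 : 0 < t := by linarith
  set M := |Real.log (s ^ 2)| + |Real.log (4 / s)| + |Real.log (2 * Real.pi / q)| with hMdef
  have hM0 : 0 ≤ M := by positivity
  have h1 := hph t v ht8 hv0 hv1
  have h2 := Z08_exp (v / 2 * Real.log (q * t / (2 * Real.pi))) (v / 2 * Real.log T)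
  have h3 : C3 / t ≤ 1 / (4 * D * Λ) := by
    rw [div_le_div_iff₀ ht0 (by positivity)]
    have := ht.1
    linarith
  have hr1 : s ^ 2 ≤ t / T := by
    rw [le_div_iff₀ hT]
    exact ht.1.le
  have hr2 : t / T ≤ 4 / s := by
    rw [div_le_iff₀ hT]
    exact ht.2
  have h4 : |Real.log (t / T)| ≤ |Real.log (s ^ 2)| + |Real.log (4 / s)| := by
    have k1 : Real.log (s ^ 2) ≤ Real.log (t / T) := Real.log_le_log (by positivity) hr1
    have k2 : Real.log (t / T) ≤ Real.log (4 / s) := Real.log_le_log (by positivity) hr2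
    rw [abs_le]
    constructor
    · have := neg_abs_le (Real.log (s ^ 2))
      have := abs_nonneg (Real.log (4 / s))
      linarith
    · have := le_abs_self (Real.log (4 / s))
      have := abs_nonneg (Real.log (s ^ 2))
      linarith
  have hq0 : (0 : ℝ) < q := by exact_mod_cast (by omega : 0 < q)
  have h5 : Real.log (q * t / (2 * Real.pi)) - Real.log T = Real.log (t / T) - Real.log (2 * Real.pi / q) := by
    rw [Real.log_div (by positivity) (by positivity), Real.log_div ht0.ne' hT.ne',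
      Real.log_div (by positivity) hq0.ne', Real.log_mul hq0.ne' ht0.ne']
    ring
  have h6 : |v / 2 * Real.log (q * t / (2 * Real.pi)) - v / 2 * Real.log T| ≤ v / 2 * M := by
    rw [← mul_sub, h5, abs_mul, abs_of_nonneg (by positivity)]
    apply mul_le_mul_of_nonneg_left _ (by positivity)
    refine (abs_sub _ _).trans ?_
    rw [hMdef]
    linarith
  have h7 : v / 2 * M ≤ 1 / (4 * D * Λ) := by
    have k1 : v / 2 * M ≤ Λ / Real.log T / 2 * M := by gcongr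
    refine k1.trans ?_
    rw [div_div, div_mul_eq_mul_div, div_le_div_iff₀ (by positivity) (by positivity)]
    linarith
  calc ‖uu χ t * conj (uu χ (t + v)) - exp (-((v / 2 * Real.log T : ℝ) : ℂ) * I)‖
      ≤ ‖uu χ t * conj (uu χ (t + v)) - exp (-(v / 2 * Real.log (q * t / (2 * Real.pi)) : ℝ) * I)‖
        + ‖exp (-(v / 2 * Real.log (q * t / (2 * Real.pi)) : ℝ) * I)
          - exp (-((v / 2 * Real.log T : ℝ) : ℂ) * I)‖ := norm_sub_le_norm_sub_add_norm_sub _ _ _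
    _ ≤ 1 / (4 * D * Λ) + 1 / (4 * D * Λ) :=
        add_le_add (h1.trans h3) (h2.trans (h6.trans h7))
    _ = 1 / (2 * D * Λ) := by
        field_simp
        norm_num

private lemma Z08_sum (a b c d e f g h T : ℝ) (ha : 2 ≤ a) (hb : 2 ≤ b) (hc : 2 ≤ c) (hd : 2 ≤ d) (he : 0 < e)
    (hf : 0 ≤ f) (hg : 0 ≤ g) (hh : 0 < h) (hT : a + b + c + d + e + f + g + h ≤ T) :
    a ≤ T ∧ b ≤ T ∧ c ≤ T ∧ d ≤ T ∧ e ≤ T ∧ f ≤ T ∧ g ≤ T ∧ h ≤ T ∧ 2 ≤ T := by
  refine ⟨?_, ?_, ?_, ?_, ?_, ?_, ?_, ?_, ?_⟩ <;> linarith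

private lemma Z08_s (D Λ : ℝ) (hD : 0 < D) (hΛ : 1 ≤ Λ) :
    ∃ s, 0 < s ∧ s ≤ 1 ∧ 4 * D * s ≤ 1 / (2 * Λ) ∧ s ^ 2 ≤ 1 ∧ 1 ≤ 4 / s := by
  have hΛ0 : 0 < Λ := lt_of_lt_of_le one_pos hΛ
  have h8 : 0 < 8 * D * Λ := by positivity
  have h9 : 0 < 8 * D * Λ + 1 := by linarith
  have hs0 : 0 < 1 / (8 * D * Λ + 1) := one_div_pos.mpr h9
  have hs1 : 1 / (8 * D * Λ + 1) ≤ 1 := by
    rw [div_le_one h9]
    linarith
  refine ⟨1 / (8 * D * Λ + 1), hs0, hs1, ?_, pow_le_one₀ hs0.le hs1, ?_⟩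
  · rw [mul_one_div, div_le_div_iff₀ h9 (mul_pos two_pos hΛ0)]
    linarith
  · rw [le_div_iff₀ hs0]
    linarith

private lemma Z08_D (C4 C5 : ℝ) (hC4 : 0 < C4) (hC5 : 0 < C5) :
    ∃ D, 0 < D ∧ C5 ≤ D ∧ Real.exp 1 * C4 ≤ D ∧ C4 ≤ D := by
  have he1 : 1 ≤ Real.exp 1 := Real.one_le_exp zero_le_one
  have h1 : 0 < Real.exp 1 * C4 := mul_pos (Real.exp_pos _) hC4
  refine ⟨C5 + Real.exp 1 * C4, ?_, ?_, ?_, (le_mul_of_one_le_left hC4.le he1).trans ?_⟩ <;> linarith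

private lemma Z08_exps (s C D x : ℝ) (hs0 : 0 < s) (hC : C ≤ D) (hD : 0 < D)
    (hx : x ≤ C * Real.exp (-(4 / s) / 2)) : x ≤ D * s ^ 2 := by
  refine hx.trans ?_
  have j2 : 1 / s ≤ Real.exp (1 / s) := by
    have := Real.add_one_le_exp (1 / s)
    linarith
  have j3 : Real.exp (-(1 / s)) ≤ s := by
    rw [Real.exp_neg, inv_le_comm₀ (Real.exp_pos _) hs0, ← one_div]
    exact j2
  have j4 : Real.exp (-(4 / s) / 2) = Real.exp (-(1 / s)) ^ 2 := by
    rw [← Real.exp_nat_mul]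
    congr 1
    push_cast
    ring
  rw [j4]
  exact mul_le_mul hC (pow_le_pow_left₀ (Real.exp_pos _).le j3 2) (by positivity) hD.le

private lemma Z08_shift {T v D C4 C : ℝ} {f : ℝ → ℝ} (hT : 2 ≤ T) (hv0 : 0 ≤ v) (hv1 : v ≤ 1) (hf : Continuous f)
    (hb : ∀ t : ℝ, 0 ≤ t → |f t| ≤ C * (1 + t)) (hsq : ER T (fun t => f t ^ 2) ≤ C4)
    (hD : Real.exp 1 * C4 ≤ D) : ER T (fun t => f (t + v) ^ 2) ≤ D := by
  have hTpos : 0 < T := lt_of_lt_of_le two_pos hT
  have j1 := ER_shift hTpos (f := fun t => f t ^ 2) (hf.pow 2)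
      (C := C ^ 2) (fun t ht => by
        rw [abs_pow, ← mul_pow]
        exact pow_le_pow_left₀ (abs_nonneg _) (hb t ht) 2) hv0
  rw [j1]
  have j2 : 0 ≤ ∫ t in (0:ℝ)..v, f t ^ 2 * Real.exp (-t / T) :=
    intervalIntegral.integral_nonneg hv0 (fun t _ => mul_nonneg (sq_nonneg _) (Real.exp_pos _).le)
  have j3 : Real.exp (v / T) ≤ Real.exp 1 := by
    apply Real.exp_le_exp.mpr
    rw [div_le_one hTpos]
    linarith
  have j4 : 0 ≤ T⁻¹ * ∫ t in (0:ℝ)..v, f t ^ 2 * Real.exp (-t / T) :=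
    mul_nonneg (inv_nonneg.mpr hTpos.le) j2
  have j5 : 0 ≤ ER T (fun t => f t ^ 2) := by
    unfold ER
    exact mul_nonneg (inv_nonneg.mpr hTpos.le)
      (setIntegral_nonneg measurableSet_Ioi (fun t _ => mul_nonneg (sq_nonneg _) (Real.exp_pos _).le))
  exact ((mul_le_mul_of_nonneg_left (sub_le_self _ j4) (Real.exp_pos _).le).trans
    (mul_le_mul j3 hsq j5 (Real.exp_pos _).le)).trans hD

private lemma Z08_fin (Λ D a b c x : ℝ) (hΛ : 0 < Λ) (hD : 0 < D) (h1 : a ≤ b + (x + 1 / (2 * D * Λ) * D))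
    (h2 : x ≤ 1 / (2 * Λ)) (h3 : b ≤ c) : a ≤ c + 1 / Λ := by
  have hfin : 1 / (2 * D * Λ) * D = 1 / (2 * Λ) := by
    field_simp
  have hfin2 : 1 / (2 * Λ) + 1 / (2 * Λ) = 1 / Λ := by
    field_simp
    norm_num
  rw [hfin] at h1
  linarith

private lemma Z08_KK {χ : DirichletCharacter ℂ q} {T C1 C2 v Λ : ℝ} (hL : 0 < Real.log T) (hC1 : 0 < C1) (hC2 : 0 < C2)
    (hv0 : 0 ≤ v) (hv : v ≤ Λ / Real.log T)
    (hK1 : ∀ l : ℝ, Real.log T / 2000 ≤ l → l ≤ Real.log T / 1000 → ∀ v : ℂ, |v.im| ≤ 1 / Real.log T →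
      1 / Real.log T ≤ ‖v‖ → ‖v‖ ≤ Λ / Real.log T → ‖KK χ T l v‖ ≤ C1 / Real.sqrt (Real.log T * ‖v‖))
    (hK2 : ∀ l : ℝ, Real.log T / 2000 ≤ l → l ≤ Real.log T / 1000 → ∀ v : ℂ,
      ‖v‖ ≤ 1 / Real.log T → ‖KK χ T l v‖ ≤ C2) :
    ‖KK χ T (Real.log T / 1500) v‖ ≤ Real.sqrt 2 * (C1 + C2) / Real.sqrt (1 + v * Real.log T) := by
  have hn : ‖(v : ℂ)‖ = v := by
    rw [Complex.norm_real, Real.norm_eq_abs, abs_of_nonneg hv0]
  have l1 : Real.log T / 2000 ≤ Real.log T / 1500 := by linarith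
  have l2 : Real.log T / 1500 ≤ Real.log T / 1000 := by linarith
  refine Z08_K (T := T) (l := Real.log T / 1500) hL hC1.le hC2.le hv0 hv (fun h1 h2 => ?_) (fun h1 => ?_)
  · have := hK1 (Real.log T / 1500) l1 l2 (v : ℂ)
      (by rw [Complex.ofReal_im, abs_zero]; exact (one_div_pos.mpr hL).le) (hn.symm ▸ h1) (hn.symm ▸ h2)
    rwa [hn] at this
  · exact hK2 (Real.log T / 1500) l1 l2 (v : ℂ) (hn.symm ▸ h1)

private lemma Z08_step {χ : DirichletCharacter ℂ q} (hχ : χ.IsPrimitive) (hq : 1 < q) {C4 D T v s Λ : ℝ}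
    (hD : 0 < D) (hD4 : C4 ≤ D) (hD4e : Real.exp 1 * C4 ≤ D) (hΛ0 : 0 < Λ) (hs0 : 0 < s) (hT : 2 ≤ T)
    (hL0 : 0 < Real.log T) (hab : s ^ 2 * T ≤ 4 / s * T)
    (hsqT : ER T (fun t => GG χ (Real.log T / 1500) t ^ 2) ≤ C4) (hv0 : 0 ≤ v) (hv1 : v ≤ 1)
    (hph : ∀ t ∈ Ioc (s ^ 2 * T) (4 / s * T),
      ‖uu χ t * conj (uu χ (t + v)) - exp (-((v / 2 * Real.log T : ℝ) : ℂ) * I)‖ ≤ 1 / (2 * D * Λ))
    (h1 : T⁻¹ * ∫ t in Ioc 0 (s ^ 2 * T), GG χ (Real.log T / 1500) t ^ 2 * Real.exp (-t / T) ≤ D * s ^ 2)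
    (h2 : T⁻¹ * ∫ t in Ioi (4 / s * T), GG χ (Real.log T / 1500) t ^ 2 * Real.exp (-t / T) ≤ D * s ^ 2) :
    |ER T (fun t => GG χ (Real.log T / 1500) t * GG χ (Real.log T / 1500) (t + v))| ≤
      ‖KK χ T (Real.log T / 1500) v‖ + (4 * D * s + 1 / (2 * D * Λ) * D) := by
  obtain ⟨hGc, hGabs, hGX, C6, hC6, hGgr⟩ := GG_facts hχ hq
  obtain ⟨hu1, huc, -⟩ := uu_facts hχ hq
  have hTpos : 0 < T := lt_of_lt_of_le two_pos hT
  have hl0 : 0 < Real.log T / 1500 := div_pos hL0 (by norm_num)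
  have hgr : ∀ t : ℝ, 0 ≤ t → |GG χ (Real.log T / 1500) t| ≤
      C6 * Real.exp (2 * (Real.log T / 1500)) * (1 + t) := fun t ht => hGgr _ t hl0 ht
  have hP0 : ‖exp (-((v / 2 * Real.log T : ℝ) : ℂ) * I)‖ = 1 := by
    rw [← Complex.ofReal_neg, Complex.norm_exp_ofReal_mul_I]
  exact Z08_main hTpos (hGc (Real.log T / 1500)) hgr hv0 hv1
    (P := fun t => uu χ t * conj (uu χ (t + v)))
    (huc.mul (Complex.continuous_conj.comp (huc.comp (continuous_id.add continuous_const))))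
    (fun t => by rw [norm_mul, hu1, RCLike.norm_conj, hu1, one_mul])
    (X := XX χ (fun _ => 1/2) (Real.log T / 1500) 0 (-(v * I)) ![0, v * I, 0, -(v * I)])
    (fun t => hGX (Real.log T / 1500) t v)
    (P₀ := exp (-((v / 2 * Real.log T : ℝ) : ℂ) * I)) hP0 hs0 (a := s ^ 2 * T) (b := 4 / s * T)
    (δ := 1 / (2 * D * Λ)) (D := D) (mul_nonneg (sq_nonneg s) hTpos.le) hab
    (one_div_nonneg.mpr (mul_nonneg (mul_nonneg zero_le_two hD.le) hΛ0.le)) hph
    h1 h2 (hsqT.trans hD4) (Z08_shift hT hv0 hv1 (hGc _) hgr hsqT hD4e)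

/-- (5.3). EE T of XX is KK (K_large for v log T >= 1, K_small below). On [eta T, B T] the phase is exp(-i(v/2)log T) +
O(Lambda(|log eta| + log B + 2)/log T) + O(1/(eta T)) (uu_phase); outside Cauchy-Schwarz with G_trunc, G_sq and ER_shift;
choose eta and B depending on Lambda. -/
theorem G_corr : ∃ C : ℝ, 0 < C ∧ ∀ (q : ℕ) [NeZero q] (χ : DirichletCharacter ℂ q), χ.IsPrimitive → 1 < q →
    ∀ Λ : ℝ, 1 ≤ Λ → ∃ T0 : ℝ, 2 ≤ T0 ∧ ∀ T : ℝ, T0 ≤ T → ∀ v : ℝ, 0 ≤ v →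
    v ≤ Λ / Real.log T →
    |ER T (fun t => GG χ (Real.log T / 1500) t * GG χ (Real.log T / 1500) (t + v))| ≤
      C / Real.sqrt (1 + v * Real.log T) + 1 / Λ := by
  obtain ⟨C1, hC1, hK1⟩ := K_large
  obtain ⟨C2, hC2, hK2⟩ := K_small
  obtain ⟨C4, hC4, hsq⟩ := G_sq
  obtain ⟨C5, hC5, htr⟩ := G_trunc
  obtain ⟨D, hD, hD5, hD4e, hD4⟩ := Z08_D C4 C5 hC4 hC5
  refine ⟨Real.sqrt 2 * (C1 + C2), mul_pos (Real.sqrt_pos.mpr two_pos) (add_pos hC1 hC2),
    fun q _ χ hχ hq Λ hΛ => ?_⟩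
  obtain ⟨T2, hT2, hK2⟩ := hK2 q χ hχ hq
  obtain ⟨C3, hC3, hph⟩ := uu_phase hχ hq
  obtain ⟨T4, hT4, hsq⟩ := hsq q χ hχ hq
  have hΛ0 : 0 < Λ := lt_of_lt_of_le one_pos hΛ
  obtain ⟨T1, hT1, hK1⟩ := hK1 q χ hχ hq Λ hΛ
  obtain ⟨s, hs0, hs1, hsb, hs2, h4s⟩ := Z08_s D Λ hD hΛ
  have hss : 0 < s ^ 2 := pow_pos hs0 2
  obtain ⟨T5, hT5, htr⟩ := htr q χ hχ hq (s ^ 2) (4 / s) hss hs2 h4s
  obtain ⟨M, hMdef⟩ : ∃ M, M = |Real.log (s ^ 2)| + |Real.log (4 / s)| + |Real.log (2 * Real.pi / q)| :=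
    ⟨_, rfl⟩
  have k1 : 0 < Real.exp Λ := Real.exp_pos _
  have k2 : 0 ≤ 8 / s ^ 2 := div_nonneg (by norm_num) hss.le
  have k3 : 0 ≤ 4 * D * Λ * C3 / s ^ 2 :=
    div_nonneg (mul_nonneg (mul_nonneg (mul_nonneg (by norm_num) hD.le) hΛ0.le) hC3.le) hss.le
  have k4 : 0 < Real.exp (2 * Λ ^ 2 * D * M) := Real.exp_pos _
  refine ⟨T1 + T2 + T4 + T5 + Real.exp Λ + 8 / s ^ 2 + 4 * D * Λ * C3 / s ^ 2 +
    Real.exp (2 * Λ ^ 2 * D * M),
    (Z08_sum T1 T2 T4 T5 _ _ _ _ _ hT1 hT2 hT4 hT5 k1 k2 k3 k4 le_rfl).2.2.2.2.2.2.2.2, fun T hT v hv0 hv => ?_⟩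
  obtain ⟨hTT1, hTT2, hTT4, hTT5, hTe, hT8, hTc, hTM, hT2'⟩ :=
    Z08_sum T1 T2 T4 T5 _ _ _ _ _ hT1 hT2 hT4 hT5 k1 k2 k3 k4 hT
  have hTpos : 0 < T := lt_of_lt_of_le two_pos hT2'
  have hLΛ : Λ ≤ Real.log T := (Real.le_log_iff_exp_le hTpos).mpr hTe
  have hLM : 2 * Λ ^ 2 * D * M ≤ Real.log T := (Real.le_log_iff_exp_le hTpos).mpr hTM
  have hL0 : 0 < Real.log T := lt_of_lt_of_le hΛ0 hLΛ
  have h8 : 8 ≤ s ^ 2 * T := (div_le_iff₀' hss).mp hT8
  have hc : 4 * D * Λ * C3 ≤ s ^ 2 * T := (div_le_iff₀' hss).mp hTc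
  have hv1 : v ≤ 1 := hv.trans ((div_le_one hL0).mpr hLΛ)
  obtain ⟨htr1, htr2⟩ := htr T hTT5
  have l1 : Real.log T / 2000 ≤ Real.log T / 1500 :=
    div_le_div_of_nonneg_left hL0.le (by norm_num) (by norm_num)
  have l2 : Real.log T / 1500 ≤ Real.log T / 1000 :=
    div_le_div_of_nonneg_left hL0.le (by norm_num) (by norm_num)
  have hsqT := hsq T hTT4 (Real.log T / 1500) l1 l2
  rw [hMdef] at hLM
  exact Z08_fin Λ D _ _ _ _ hΛ0 hD
    (Z08_step hχ hq hD hD4 hD4e hΛ0 hs0 hT2' hL0 (mul_le_mul_of_nonneg_right (hs2.trans h4s) hTpos.le) hsqT hv0 hv1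
      (Z08_phase hq hC3 hph hTpos hs0 hΛ0 hD hv0 hv1 hL0 hv h8 hc hLM)
      (htr1.trans (mul_le_mul_of_nonneg_right hD5 hss.le)) (Z08_exps s C5 D _ hs0 hD5 hD htr2)) hsb
    (Z08_KK hL0 hC1 hC2 hv0 hv (hK1 T hTT1) (hK2 T hTT2))

end LX

end F_X_Z08

section F_X_Z09

open Complex MeasureTheory Set Filter Topology
open scoped ComplexConjugate

namespace LX

open LZ

/-- Fubini for the second moment of the short integral -/
private theorem Z09_fubini {T : ℝ} (hT : 0 < T) {G : ℝ → ℝ} (hG : Continuous G) {K : ℝ}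
    (hb : ∀ t : ℝ, 0 ≤ t → |G t| ≤ K * (1 + t)) {h : ℝ} (hh : 0 ≤ h) {Φ : ℝ × ℝ → ℝ}
    (hΦi : Integrable Φ ((volume.restrict (Ioc 0 h)).prod (volume.restrict (Ioc 0 h))))
    (hΦ : ∀ a ∈ Ioc 0 h, ∀ b ∈ Ioc 0 h, |ER T (fun t => G (t + a) * G (t + b))| ≤ Φ (a, b)) :
    ER T (fun t => (∫ x in t..(t + h), G x) ^ 2) ≤
      ∫ z, Φ z ∂((volume.restrict (Ioc 0 h)).prod (volume.restrict (Ioc 0 h))) := by
  set μ : Measure ℝ := volume.restrict (Ioc 0 h) with hμ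
  have hK : 0 ≤ K := by
    have := hb 0 le_rfl
    have h2 := abs_nonneg (G 0)
    nlinarith
  have h1 : ∀ t : ℝ, (∫ x in t..(t + h), G x) ^ 2 = ∫ z, G (t + z.1) * G (t + z.2) ∂(μ.prod μ) := by
    intro t
    rw [integral_prod_mul (fun a => G (t + a)) (fun a => G (t + a)), ← sq]
    congr 1
    rw [hμ, ← intervalIntegral.integral_of_le hh, intervalIntegral.integral_comp_add_left, add_zero]
  have hint : Integrable (fun p : ℝ × (ℝ × ℝ) => G (p.1 + p.2.1) * G (p.1 + p.2.2) * Real.exp (-p.1 / T))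
      ((volume.restrict (Ioi (0:ℝ))).prod (μ.prod μ)) := by
    have hg : Integrable (fun t : ℝ => (K * (1 + h) * (1 + 4 * T)) ^ 2 * Real.exp (-(1 / (2 * T)) * t))
        (volume.restrict (Ioi (0:ℝ))) :=
      (exp_neg_integrableOn_Ioi 0 (by positivity)).const_mul _
    have hg2 := hg.comp_fst (μ.prod μ)
    refine Integrable.mono' hg2 (Continuous.aestronglyMeasurable (by fun_prop)) ?_
    have hae : ∀ᵐ p : ℝ × (ℝ × ℝ) ∂((volume.restrict (Ioi (0:ℝ))).prod (μ.prod μ)),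
        0 < p.1 ∧ p.2.1 ∈ Ioc 0 h ∧ p.2.2 ∈ Ioc 0 h := by
      rw [hμ, Measure.prod_restrict, Measure.prod_restrict]
      refine (ae_restrict_mem (by measurability)).mono (fun p hp => ?_)
      exact ⟨hp.1, hp.2.1, hp.2.2⟩
    refine hae.mono (fun p hp => ?_)
    obtain ⟨hp1, hp2, hp3⟩ := hp
    have q1 : ∀ c ∈ Ioc 0 h, |G (p.1 + c)| ≤ K * (1 + h) * (1 + p.1) := by
      intro c hc
      refine (hb _ (by linarith [hc.1])).trans ?_
      have : 1 + (p.1 + c) ≤ (1 + h) * (1 + p.1) := by nlinarith [hc.2, mul_nonneg hh hp1.le]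
      calc K * (1 + (p.1 + c)) ≤ K * ((1 + h) * (1 + p.1)) := by gcongr
        _ = _ := by ring
    have e1 : Real.exp (-p.1 / T) = Real.exp (-(1 / (2 * T)) * p.1) * (Real.exp (-(1 / (4 * T)) * p.1)) ^ 2 := by
      rw [← Real.exp_nat_mul, ← Real.exp_add]
      congr 1
      push_cast
      field_simp
      ring
    have e2 : (1 + p.1) * Real.exp (-(1 / (4 * T)) * p.1) ≤ 1 + 4 * T := by
      have h3 : 1 / (4 * T) * p.1 ≤ Real.exp (1 / (4 * T) * p.1) := by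
        have := Real.add_one_le_exp (1 / (4 * T) * p.1)
        linarith
      have h4 : Real.exp (-(1 / (4 * T)) * p.1) * Real.exp (1 / (4 * T) * p.1) = 1 := by
        rw [← Real.exp_add]
        simp
      have h5 : Real.exp (-(1 / (4 * T)) * p.1) ≤ 1 := by
        rw [Real.exp_le_one_iff]
        have : 0 ≤ 1 / (4 * T) * p.1 := by positivity
        linarith
      have h6 : p.1 = 4 * T * (1 / (4 * T) * p.1) := by field_simp
      have h7 : p.1 * Real.exp (-(1 / (4 * T)) * p.1) ≤ 4 * T := by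
        calc p.1 * Real.exp (-(1 / (4 * T)) * p.1) = 4 * T * (1 / (4 * T) * p.1) * Real.exp (-(1 / (4 * T)) * p.1) := by
              rw [← h6]
          _ ≤ 4 * T * Real.exp (1 / (4 * T) * p.1) * Real.exp (-(1 / (4 * T)) * p.1) := by gcongr
          _ = 4 * T * (Real.exp (-(1 / (4 * T)) * p.1) * Real.exp (1 / (4 * T) * p.1)) := by ring
          _ = 4 * T := by rw [h4, mul_one]
      linarith
    have e3 : 0 ≤ (1 + p.1) * Real.exp (-(1 / (4 * T)) * p.1) := by positivity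
    rw [norm_mul, norm_mul, Real.norm_eq_abs, Real.norm_eq_abs, Real.norm_eq_abs,
      abs_of_pos (Real.exp_pos (-p.1 / T)), e1]
    have hKh : 0 ≤ K * (1 + h) := by positivity
    calc |G (p.1 + p.2.1)| * |G (p.1 + p.2.2)| *
          (Real.exp (-(1 / (2 * T)) * p.1) * (Real.exp (-(1 / (4 * T)) * p.1)) ^ 2) ≤
        (K * (1 + h) * (1 + p.1)) * (K * (1 + h) * (1 + p.1)) *
          (Real.exp (-(1 / (2 * T)) * p.1) * (Real.exp (-(1 / (4 * T)) * p.1)) ^ 2) := by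
          refine mul_le_mul_of_nonneg_right ?_ (by positivity)
          exact mul_le_mul (q1 _ hp2) (q1 _ hp3) (abs_nonneg _) (by positivity)
      _ = (K * (1 + h) * ((1 + p.1) * Real.exp (-(1 / (4 * T)) * p.1))) ^ 2 * Real.exp (-(1 / (2 * T)) * p.1) := by
          ring
      _ ≤ (K * (1 + h) * (1 + 4 * T)) ^ 2 * Real.exp (-(1 / (2 * T)) * p.1) := by
          gcongr
  have h2 : ER T (fun t => (∫ x in t..(t + h), G x) ^ 2) =
      ∫ z, ER T (fun t => G (t + z.1) * G (t + z.2)) ∂(μ.prod μ) := by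
    unfold ER
    rw [integral_const_mul]
    congr 1
    have h3 : ∀ t : ℝ, (∫ x in t..(t + h), G x) ^ 2 * Real.exp (-t / T) =
        ∫ z, G (t + z.1) * G (t + z.2) * Real.exp (-t / T) ∂(μ.prod μ) := by
      intro t
      rw [h1 t, integral_mul_const]
    simp_rw [h3]
    exact integral_integral_swap hint
  rw [h2]
  refine (le_abs_self _).trans ?_
  rw [← Real.norm_eq_abs]
  refine norm_integral_le_of_norm_le hΦi ?_
  have hae : ∀ᵐ p : ℝ × ℝ ∂(μ.prod μ), p.1 ∈ Ioc 0 h ∧ p.2 ∈ Ioc 0 h := by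
    rw [hμ, Measure.prod_restrict]
    refine (ae_restrict_mem (by measurability)).mono (fun p hp => ?_)
    exact ⟨hp.1, hp.2⟩
  exact hae.mono (fun p hp => by
    rw [Real.norm_eq_abs]
    exact hΦ p.1 hp.1 p.2 hp.2)

private theorem Z09_one {L c : ℝ} (hL : 0 < L) (hc : 0 ≤ c) :
    ∫ x in (0:ℝ)..c, 1 / Real.sqrt (1 + x * L) ≤ 2 / L * Real.sqrt (c * L) := by
  have hd : ∀ x ∈ uIcc (0:ℝ) c, HasDerivAt (fun x => 2 / L * Real.sqrt (1 + x * L)) (1 / Real.sqrt (1 + x * L)) x := by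
    intro x hx
    rw [uIcc_of_le hc] at hx
    have hp : 0 < 1 + x * L := by
      have := mul_nonneg hx.1 hL.le
      linarith
    have h1 : HasDerivAt (fun x : ℝ => 1 + x * L) L x := by
      simpa using ((hasDerivAt_id x).mul_const L).const_add 1
    have h2 := (h1.sqrt hp.ne').const_mul (2 / L)
    refine h2.congr_deriv ?_
    have h3 : Real.sqrt (1 + x * L) ≠ 0 := (Real.sqrt_pos.mpr hp).ne'
    field_simp
  have hcont : ContinuousOn (fun x : ℝ => 1 / Real.sqrt (1 + x * L)) (uIcc 0 c) := by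
    rw [uIcc_of_le hc]
    intro x hx
    have hp : 0 < 1 + x * L := by
      have := mul_nonneg hx.1 hL.le
      linarith
    refine ContinuousAt.continuousWithinAt ?_
    refine ContinuousAt.div continuousAt_const (by fun_prop) (Real.sqrt_pos.mpr hp).ne'
  rw [intervalIntegral.integral_eq_sub_of_hasDerivAt hd hcont.intervalIntegrable]
  have h4 : Real.sqrt (1 + c * L) ≤ 1 + Real.sqrt (c * L) := by
    have hcl : 0 ≤ c * L := mul_nonneg hc hL.le
    rw [Real.sqrt_le_left (by positivity)]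
    nlinarith [Real.sq_sqrt hcl, Real.sqrt_nonneg (c * L)]
  have h5 : Real.sqrt (1 + 0 * L) = 1 := by simp
  rw [h5]
  have h6 : 0 < 2 / L := by positivity
  nlinarith

private theorem Z09_inner {L h a : ℝ} (hL : 0 < L) (ha : 0 ≤ a) (hah : a ≤ h) :
    ∫ b in Ioc 0 h, 1 / Real.sqrt (1 + |b - a| * L) ≤ 4 / L * Real.sqrt (h * L) := by
  have hh : 0 ≤ h := ha.trans hah
  have hcont : Continuous (fun b : ℝ => 1 / Real.sqrt (1 + |b - a| * L)) := by
    refine Continuous.div continuous_const (by fun_prop) (fun b => ?_)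
    have : 0 < 1 + |b - a| * L := by positivity
    exact (Real.sqrt_pos.mpr this).ne'
  rw [← intervalIntegral.integral_of_le hh,
    ← intervalIntegral.integral_add_adjacent_intervals (hcont.intervalIntegrable 0 a) (hcont.intervalIntegrable a h)]
  have e1 : ∫ b in (0:ℝ)..a, 1 / Real.sqrt (1 + |b - a| * L) = ∫ x in (0:ℝ)..a, 1 / Real.sqrt (1 + x * L) := by
    have h1 : ∫ b in (0:ℝ)..a, 1 / Real.sqrt (1 + |b - a| * L) =
        ∫ b in (0:ℝ)..a, 1 / Real.sqrt (1 + (a - b) * L) := by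
      refine intervalIntegral.integral_congr (fun b hb => ?_)
      rw [uIcc_of_le ha] at hb
      rw [abs_of_nonpos (by linarith [hb.2]), neg_sub]
    rw [h1, intervalIntegral.integral_comp_sub_left (fun x => 1 / Real.sqrt (1 + x * L)) a, sub_self, sub_zero]
  have e2 : ∫ b in a..h, 1 / Real.sqrt (1 + |b - a| * L) = ∫ x in (0:ℝ)..(h - a), 1 / Real.sqrt (1 + x * L) := by
    have h1 : ∫ b in a..h, 1 / Real.sqrt (1 + |b - a| * L) =
        ∫ b in a..h, 1 / Real.sqrt (1 + (b - a) * L) := by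
      refine intervalIntegral.integral_congr (fun b hb => ?_)
      rw [uIcc_of_le hah] at hb
      rw [abs_of_nonneg (by linarith [hb.1])]
    rw [h1, intervalIntegral.integral_comp_sub_right (fun x => 1 / Real.sqrt (1 + x * L)) a, sub_self]
  rw [e1, e2]
  have b1 := Z09_one hL ha
  have b2 := Z09_one hL (sub_nonneg.mpr hah)
  have s1 : Real.sqrt (a * L) ≤ Real.sqrt (h * L) := Real.sqrt_le_sqrt (by gcongr)
  have s2 : Real.sqrt ((h - a) * L) ≤ Real.sqrt (h * L) := Real.sqrt_le_sqrt (by gcongr; linarith)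
  have h6 : 0 < 2 / L := by positivity
  calc _ ≤ 2 / L * Real.sqrt (a * L) + 2 / L * Real.sqrt ((h - a) * L) := add_le_add b1 b2
    _ ≤ 2 / L * Real.sqrt (h * L) + 2 / L * Real.sqrt (h * L) := by gcongr
    _ = _ := by ring

variable {q : ℕ} [NeZero q]

/-- E[I^2] (5.4): Fubini, ER_shift, G_corr; int_0^h int_0^h (1+|b-a|L)^(-1/2) <= 4 h^2/sqrt(Lambda). -/
theorem I_sq : ∃ C : ℝ, 0 < C ∧ ∀ (q : ℕ) [NeZero q] (χ : DirichletCharacter ℂ q), χ.IsPrimitive → 1 < q →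
    ∀ Λ : ℝ, 1 ≤ Λ → ∃ T0 : ℝ, 2 ≤ T0 ∧ ∀ T : ℝ, T0 ≤ T →
    ER T (fun t => (∫ x in t..(t + Λ / Real.log T), GG χ (Real.log T / 1500) x) ^ 2) ≤
      C / Real.sqrt Λ * (Λ / Real.log T) ^ 2 := by
  obtain ⟨C, hC, hcorr⟩ := G_corr
  refine ⟨12 * C + 6, by positivity, ?_⟩
  intro q _ χ hχ hq Λ hΛ
  have hcorr := hcorr q χ hχ hq
  obtain ⟨hGc, -, -, Cg, hCg, hgrow⟩ := GG_facts hχ hq
  obtain ⟨T1, hT1, hc⟩ := hcorr Λ hΛ
  refine ⟨max T1 (Real.exp (18 * Cg ^ 2 * Λ + Λ + 1)), le_max_of_le_left hT1, ?_⟩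
  intro T hT
  have hT1' : T1 ≤ T := (le_max_left _ _).trans hT
  have hT2 : Real.exp (18 * Cg ^ 2 * Λ + Λ + 1) ≤ T := (le_max_right _ _).trans hT
  have hT0 : 0 < T := by linarith
  set L : ℝ := Real.log T with hL
  have hLb : 18 * Cg ^ 2 * Λ + Λ + 1 ≤ L := by
    rw [hL, Real.le_log_iff_exp_le hT0]
    exact hT2
  have hCgΛ : 0 ≤ 18 * Cg ^ 2 * Λ := by positivity
  have hLΛ : Λ ≤ L := by linarith
  have hL1 : 1 ≤ L := by linarith
  have hL0 : 0 < L := by linarith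
  have hTe : T = Real.exp L := by rw [hL, Real.exp_log hT0]
  set h : ℝ := Λ / L with hh
  have hh0 : 0 < h := by positivity
  have hh1 : h ≤ 1 := by rw [hh, div_le_one hL0]; exact hLΛ
  have hhL : h * L = Λ := by rw [hh]; field_simp
  set G : ℝ → ℝ := GG χ (L / 1500) with hG
  have hGcont : Continuous G := hGc _
  set K : ℝ := Cg * Real.exp (2 * (L / 1500)) with hK
  have hK0 : 0 < K := by positivity
  have hGb : ∀ t : ℝ, 0 ≤ t → |G t| ≤ K * (1 + t) := fun t ht => hgrow (L / 1500) t (by positivity) ht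
  -- the error term
  have herr : 9 * K ^ 2 / T ≤ 1 / Λ := by
    have h1 : Λ * (9 * Cg ^ 2) ≤ Real.exp (L / 2) := by
      have := Real.add_one_le_exp (L / 2)
      nlinarith
    have h2 : K ^ 2 = Cg ^ 2 * Real.exp (4 * (L / 1500)) := by
      rw [hK, mul_pow, ← Real.exp_nat_mul]
      congr 2
      push_cast
      ring
    rw [div_le_div_iff₀ hT0 (by positivity), one_mul, h2]
    calc 9 * (Cg ^ 2 * Real.exp (4 * (L / 1500))) * Λ = Λ * (9 * Cg ^ 2) * Real.exp (4 * (L / 1500)) := by ring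
      _ ≤ Real.exp (L / 2) * Real.exp (L / 2) := by
        refine mul_le_mul h1 ?_ (Real.exp_pos _).le (Real.exp_pos _).le
        exact Real.exp_le_exp.mpr (by linarith)
      _ = T := by
        rw [← Real.exp_add, hTe]
        congr 1
        ring
  -- one ordered pair
  have hpair : ∀ a b : ℝ, 0 ≤ a → a ≤ b → b ≤ h → |ER T (fun t => G (t + a) * G (t + b))| ≤
      3 * (C * (1 / Real.sqrt (1 + (b - a) * L)) + 2 / Λ) := by
    intro a b ha hab hbh
    set v : ℝ := b - a with hv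
    have hv0 : 0 ≤ v := by linarith
    have hvh : v ≤ h := by linarith
    have hf : Continuous (fun t : ℝ => G t * G (t + v)) := by fun_prop
    have hfb : ∀ t : ℝ, 0 ≤ t → |G t * G (t + v)| ≤ (K ^ 2 * 2) * (1 + t) ^ 2 := by
      intro t ht
      rw [abs_mul]
      have h1 := hGb t ht
      have h2 := hGb (t + v) (by linarith)
      have h3 : K * (1 + (t + v)) ≤ K * (2 * (1 + t)) := by
        refine mul_le_mul_of_nonneg_left ?_ hK0.le
        linarith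
      calc |G t| * |G (t + v)| ≤ (K * (1 + t)) * (K * (2 * (1 + t))) :=
            mul_le_mul h1 (h2.trans h3) (abs_nonneg _) (by positivity)
        _ = _ := by ring
    have hs := ER_shift hT0 hf hfb ha
    have e1 : (fun t => G (t + a) * G (t + a + v)) = fun t => G (t + a) * G (t + b) := by
      funext t
      congr 2
      rw [hv]
      ring
    rw [e1] at hs
    rw [hs, abs_mul, abs_of_pos (Real.exp_pos _)]
    have hT1'' : 1 ≤ T := by linarith
    have h3 : Real.exp (a / T) ≤ 3 := by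
      have h4 : a / T ≤ 1 := by
        rw [div_le_one hT0]
        linarith
      exact ((Real.exp_le_exp.mpr h4).trans Real.exp_one_lt_d9.le).trans (by norm_num)
    have h5 : |ER T (fun t => G t * G (t + v))| ≤ C / Real.sqrt (1 + v * L) + 1 / Λ := hc T hT1' v hv0 (by
      rw [← hL, ← hh]; exact hvh)
    have h6 : |T⁻¹ * ∫ t in (0:ℝ)..a, G t * G (t + v) * Real.exp (-t / T)| ≤ 1 / Λ := by
      have h7 : ‖∫ t in (0:ℝ)..a, G t * G (t + v) * Real.exp (-t / T)‖ ≤ (9 * K ^ 2) * |a - 0| := by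
        refine intervalIntegral.norm_integral_le_of_norm_le_const (fun t ht => ?_)
        rw [uIoc_of_le ha] at ht
        have ht0 : 0 ≤ t := ht.1.le
        have ht1 : t ≤ 1 := by linarith [ht.2]
        rw [norm_mul, Real.norm_eq_abs, Real.norm_eq_abs, abs_of_pos (Real.exp_pos _)]
        have h8 : Real.exp (-t / T) ≤ 1 := by
          rw [Real.exp_le_one_iff]
          exact div_nonpos_of_nonpos_of_nonneg (by linarith) hT0.le
        have h9 := hfb t ht0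
        calc |G t * G (t + v)| * Real.exp (-t / T) ≤ (K ^ 2 * 2) * (1 + t) ^ 2 * 1 :=
              mul_le_mul h9 h8 (Real.exp_pos _).le (by positivity)
          _ ≤ 9 * K ^ 2 := by
              have : (1 + t) ^ 2 ≤ 4 := by nlinarith
              nlinarith [sq_nonneg K]
      rw [Real.norm_eq_abs, sub_zero, abs_of_nonneg ha] at h7
      rw [abs_mul, abs_of_pos (inv_pos.mpr hT0)]
      calc T⁻¹ * |∫ t in (0:ℝ)..a, G t * G (t + v) * Real.exp (-t / T)| ≤ T⁻¹ * (9 * K ^ 2 * a) := by gcongr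
        _ ≤ T⁻¹ * (9 * K ^ 2 * 1) := by
          have : a ≤ 1 := by linarith
          gcongr
        _ = 9 * K ^ 2 / T := by ring
        _ ≤ 1 / Λ := herr
    have h10 : |ER T (fun t => G t * G (t + v)) - T⁻¹ * ∫ t in (0:ℝ)..a, G t * G (t + v) * Real.exp (-t / T)| ≤
        C * (1 / Real.sqrt (1 + v * L)) + 2 / Λ := by
      refine (abs_sub _ _).trans ?_
      have e9 : C * (1 / Real.sqrt (1 + v * L)) + 2 / Λ = (C / Real.sqrt (1 + v * L) + 1 / Λ) + 1 / Λ := by ring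
      rw [e9]
      exact add_le_add h5 h6
    exact mul_le_mul h3 h10 (abs_nonneg _) (by norm_num)
  set Φ : ℝ × ℝ → ℝ := fun z => 3 * (C * (1 / Real.sqrt (1 + |z.2 - z.1| * L)) + 2 / Λ) with hΦ
  have hΦc : Continuous Φ := by
    have h1 : Continuous (fun z : ℝ × ℝ => 1 / Real.sqrt (1 + |z.2 - z.1| * L)) := by
      refine Continuous.div continuous_const (by fun_prop) (fun z => ?_)
      have : 0 < 1 + |z.2 - z.1| * L := by positivity
      exact (Real.sqrt_pos.mpr this).ne'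
    exact ((h1.const_mul C).add continuous_const).const_mul 3
  have hΦp : ∀ z, 0 ≤ Φ z := fun z => by
    rw [hΦ]; positivity
  have hΦb : ∀ z, Φ z ≤ 3 * (C * 1 + 2 / Λ) := by
    intro z
    rw [hΦ]
    simp only
    have h1 : 1 ≤ Real.sqrt (1 + |z.2 - z.1| * L) := by
      rw [Real.one_le_sqrt]
      have : 0 ≤ |z.2 - z.1| * L := by positivity
      linarith
    have h2 : 1 / Real.sqrt (1 + |z.2 - z.1| * L) ≤ 1 := by
      rw [div_le_one (by linarith)]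
      exact h1
    gcongr
  have hΦi : Integrable Φ ((volume.restrict (Ioc 0 h)).prod (volume.restrict (Ioc 0 h))) := by
    refine Integrable.of_bound hΦc.aestronglyMeasurable (3 * (C * 1 + 2 / Λ)) (Eventually.of_forall (fun z => ?_))
    rw [Real.norm_eq_abs, abs_of_nonneg (hΦp z)]
    exact hΦb z
  have hΦpair : ∀ a ∈ Ioc 0 h, ∀ b ∈ Ioc 0 h, |ER T (fun t => G (t + a) * G (t + b))| ≤ Φ (a, b) := by
    intro a ha b hb
    rcases le_total a b with hab | hab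
    · have := hpair a b ha.1.le hab hb.2
      rw [hΦ]
      simp only
      rw [abs_of_nonneg (by linarith : 0 ≤ b - a)]
      exact this
    · have := hpair b a hb.1.le hab ha.2
      have e : (fun t => G (t + a) * G (t + b)) = fun t => G (t + b) * G (t + a) := by
        funext t; ring
      rw [e, hΦ]
      simp only
      rw [abs_of_nonpos (by linarith : b - a ≤ 0), neg_sub]
      exact this
  refine (Z09_fubini hT0 hGcont hGb hh0.le hΦi hΦpair).trans ?_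
  rw [integral_prod _ hΦi]
  have hin : ∀ a ∈ Ioc 0 h, ∫ b in Ioc 0 h, Φ (a, b) ≤ (12 * C + 6) / Real.sqrt Λ * h := by
    intro a ha
    rw [hΦ]
    simp only
    have hi1 : IntegrableOn (fun b : ℝ => 1 / Real.sqrt (1 + |b - a| * L)) (Ioc 0 h) := by
      have hcont : Continuous (fun b : ℝ => 1 / Real.sqrt (1 + |b - a| * L)) := by
        refine Continuous.div continuous_const (by fun_prop) (fun b => ?_)
        have : 0 < 1 + |b - a| * L := by positivity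
        exact (Real.sqrt_pos.mpr this).ne'
      exact (hcont.integrableOn_Icc).mono_set Ioc_subset_Icc_self
    rw [integral_const_mul, integral_add (hi1.const_mul C) (integrable_const _), integral_const_mul]
    have h1 := Z09_inner hL0 ha.1.le ha.2
    have h2 : ∫ b in Ioc 0 h, (2 / Λ : ℝ) = h * (2 / Λ) := by
      rw [setIntegral_const, Real.volume_real_Ioc_of_le hh0.le, sub_zero, smul_eq_mul]
    rw [h2]
    rw [hhL] at h1
    have hΛ0 : 0 < Λ := by linarith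
    have hs0 : 0 < Real.sqrt Λ := Real.sqrt_pos.mpr hΛ0
    have hs2 : Real.sqrt Λ * Real.sqrt Λ = Λ := Real.mul_self_sqrt hΛ0.le
    have e3 : 4 / L * Real.sqrt Λ = 4 * h / Real.sqrt Λ := by
      rw [hh, eq_div_iff hs0.ne', mul_assoc, hs2]
      ring
    have e4 : h * (2 / Λ) ≤ 2 * h / Real.sqrt Λ := by
      have h5 : 1 / Λ ≤ 1 / Real.sqrt Λ := by
        refine one_div_le_one_div_of_le hs0 ?_
        have : 1 ≤ Real.sqrt Λ := Real.one_le_sqrt.mpr hΛ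
        nlinarith
      calc h * (2 / Λ) = 2 * h * (1 / Λ) := by ring
        _ ≤ 2 * h * (1 / Real.sqrt Λ) := by gcongr
        _ = _ := by ring
    rw [e3] at h1
    calc 3 * (C * (∫ b in Ioc 0 h, 1 / Real.sqrt (1 + |b - a| * L)) + h * (2 / Λ)) ≤
        3 * (C * (4 * h / Real.sqrt Λ) + 2 * h / Real.sqrt Λ) := by gcongr
      _ = _ := by ring
  calc ∫ a in Ioc 0 h, ∫ b in Ioc 0 h, Φ (a, b) ≤ ∫ a in Ioc 0 h, (12 * C + 6) / Real.sqrt Λ * h := by
        refine setIntegral_mono_on hΦi.integral_prod_left (integrable_const _) measurableSet_Ioc hin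
    _ = (12 * C + 6) / Real.sqrt Λ * h ^ 2 := by
        rw [setIntegral_const, Real.volume_real_Ioc_of_le hh0.le, sub_zero, smul_eq_mul]
        ring

end LX

end F_X_Z09
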