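import Pool.Agent.Lib.MP_0f5a55_nt.V.V02
import Pool.Agent.Lib.MP_0f5a55_nt.V.V48
import Pool.Agent.Lib.MP_0f5a55_nt.V.V50
import Pool.Agent.Lib.MP_0f5a55_nt.V.V51
import Pool.Agent.Lib.MP_0f5a55_nt.V.V73

section F_Z10

open Complex MeasureTheory Set Filter Topology
open scoped ComplexConjugate

namespace LZ

/-- Cauchy-Schwarz on an interval -/
theorem Z10_cs {g : ℝ → ℝ} (hg : Continuous g) (a : ℝ) {h : ℝ} (hh : 0 < h) :
    (∫ x in a..(a + h), |g x|) ^ 2 ≤ h * ∫ x in a..(a + h), g x ^ 2 := by
  set J := ∫ x in a..(a + h), |g x| with hJ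
  have hi1 : IntervalIntegrable (fun x => |g x|) volume a (a + h) :=
    (hg.abs).intervalIntegrable _ _
  have hi2 : IntervalIntegrable (fun x => g x ^ 2) volume a (a + h) :=
    (hg.pow 2).intervalIntegrable _ _
  have h1 : 0 ≤ ∫ x in a..(a + h), (|g x| - J / h) ^ 2 :=
    intervalIntegral.integral_nonneg (by linarith) fun x _ => sq_nonneg _
  have h2 : ∫ x in a..(a + h), (|g x| - J / h) ^ 2 =
      (∫ x in a..(a + h), g x ^ 2) - 2 * (J / h) * J + (J / h) ^ 2 * h := by
    have h3 : (fun x => (|g x| - J / h) ^ 2) =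
        fun x => (g x ^ 2 - 2 * (J / h) * |g x|) + (J / h) ^ 2 := by
      funext x
      have := sq_abs (g x)
      linear_combination this
    rw [h3, intervalIntegral.integral_add (hi2.sub (hi1.const_mul _)) intervalIntegrable_const,
      intervalIntegral.integral_sub hi2 (hi1.const_mul _), intervalIntegral.integral_const_mul,
      intervalIntegral.integral_const, smul_eq_mul]
    ring
  rw [h2] at h1
  have h4 : (J / h) ^ 2 * h = J ^ 2 / h := by
    field_simp
  have h5 : 2 * (J / h) * J = 2 * (J ^ 2 / h) := by ring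
  rw [h4, h5] at h1
  have h6 : J ^ 2 / h ≤ ∫ x in a..(a + h), g x ^ 2 := by linarith
  rw [div_le_iff₀ hh] at h6
  linarith [mul_comm h (∫ x in a..(a + h), g x ^ 2)]

/-- the mean of a window integral -/
theorem Z10_window {q : ℝ → ℝ} (hq : Continuous q) (hq0 : ∀ x, 0 ≤ q x)
    (hint : IntegrableOn q (Ioi 0)) {h R : ℝ} (hh : 0 ≤ h) (hR : 0 ≤ R) :
    ∫ t in (0:ℝ)..R, (∫ x in t..(t + h), q x) ≤ h * ∫ x in Ioi 0, q x := by
  set P : ℝ → ℝ := fun t => ∫ x in (0:ℝ)..t, q x with hP
  have hii : ∀ a b, IntervalIntegrable q volume a b := fun a b => hq.intervalIntegrable _ _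
  have hPc : Continuous P := intervalIntegral.continuous_primitive hii 0
  have hPi : ∀ a b, IntervalIntegrable P volume a b := fun a b => hPc.intervalIntegrable _ _
  have h1 : ∀ t, ∫ x in t..(t + h), q x = P (t + h) - P t := by
    intro t
    rw [hP]
    simp only
    rw [intervalIntegral.integral_interval_sub_left (hii _ _) (hii _ _)]
  simp only [h1]
  have h2 : IntervalIntegrable (fun t => P (t + h)) volume 0 R :=
    (hPc.comp (by fun_prop)).intervalIntegrable _ _
  rw [intervalIntegral.integral_sub h2 (hPi _ _), intervalIntegral.integral_comp_add_right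
    (fun t => P t) h, zero_add]
  have h3 : (∫ x in h..(R + h), P x) - ∫ x in (0:ℝ)..R, P x =
      (∫ x in R..(R + h), P x) - ∫ x in (0:ℝ)..h, P x := by
    have e1 := intervalIntegral.integral_add_adjacent_intervals (hPi 0 R) (hPi R (R + h))
    have e2 := intervalIntegral.integral_add_adjacent_intervals (hPi 0 h) (hPi h (R + h))
    linarith
  rw [h3]
  have hP0 : ∀ t, 0 ≤ t → 0 ≤ P t := fun t ht =>
    intervalIntegral.integral_nonneg ht fun x _ => hq0 x
  have hPle : ∀ t, 0 ≤ t → P t ≤ ∫ x in Ioi 0, q x := by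
    intro t ht
    rw [hP]
    simp only
    rw [intervalIntegral.integral_of_le ht]
    exact setIntegral_mono_set hint (Filter.Eventually.of_forall fun x => hq0 x)
      (Filter.Eventually.of_forall fun x hx => (Ioc_subset_Ioi_self hx : x ∈ Ioi 0))
  have h4 : 0 ≤ ∫ x in (0:ℝ)..h, P x :=
    intervalIntegral.integral_nonneg hh fun x hx => hP0 x hx.1
  have h5 : ∫ x in R..(R + h), P x ≤ ∫ _x in R..(R + h), (∫ x in Ioi 0, q x) := by
    refine intervalIntegral.integral_mono_on (by linarith) (hPi _ _) intervalIntegrable_const ?_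
    intro x hx
    exact hPle x (hR.trans hx.1)
  rw [intervalIntegral.integral_const, smul_eq_mul, add_sub_cancel_left] at h5
  linarith

/-- E[J^2] (5.4): Cauchy-Schwarz and Fubini. -/
theorem J_sq : ∃ C : ℝ, 0 < C ∧ ∀ Λ : ℝ, 1 ≤ Λ → ∃ T0 : ℝ, 2 ≤ T0 ∧ ∀ T : ℝ, T0 ≤ T →
    ER T (fun t => (∫ x in t..(t + Λ / Real.log T), |GG (Real.log T / 1500) x|) ^ 2) ≤
      C * (Λ / Real.log T) ^ 2 := by
  obtain ⟨C0, T0, hC0, hT0, hG⟩ := G_sq
  obtain ⟨hGc, -, -, Cg, hCg, hgg⟩ := GG_facts
  refine ⟨3 * C0, by positivity, fun Λ hΛ => ?_⟩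
  refine ⟨max T0 (Real.exp Λ), hT0.trans (le_max_left _ _), fun T hT => ?_⟩
  have hT1 : T0 ≤ T := (le_max_left _ _).trans hT
  have hT2 : Real.exp Λ ≤ T := (le_max_right _ _).trans hT
  have hTpos : 0 < T := by linarith
  have hT1' : 1 ≤ T := by linarith
  have hlog : Λ ≤ Real.log T := (Real.le_log_iff_exp_le hTpos).mpr hT2
  have hlogpos : 0 < Real.log T := by linarith
  set h := Λ / Real.log T with hh
  have hh0 : 0 < h := by positivity
  have hh1 : h ≤ 1 := (div_le_one hlogpos).mpr hlog
  set l := Real.log T / 1500 with hl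
  have hl0 : 0 < l := by positivity
  have hA := hG T hT1 l (by rw [hl]; linarith) (by rw [hl]; linarith)
  unfold ER at hA ⊢
  set q : ℝ → ℝ := fun x => GG l x ^ 2 * Real.exp (-x / T) with hq
  have hqc : Continuous q := ((hGc l).pow 2).mul (by fun_prop)
  have hq0 : ∀ x, 0 ≤ q x := fun x => by positivity
  have hqi : IntegrableOn q (Ioi 0) := Z06_GG_int hl0 hTpos
  have hqle : ∫ x in Ioi 0, q x ≤ C0 * T := by
    rw [inv_mul_le_iff₀ hTpos] at hA
    linarith [mul_comm C0 T]
  have hexp : Real.exp (h / T) ≤ 3 := by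
    have h1 : h / T ≤ 1 := by
      rw [div_le_one hTpos]
      linarith
    exact (Real.exp_le_exp.mpr h1).trans (lt_trans Real.exp_one_lt_d9 (by norm_num)).le
  set J : ℝ → ℝ := fun t => ∫ x in t..(t + h), |GG l x| with hJ
  have hJc : Continuous J := by
    have hPc : Continuous fun t : ℝ => ∫ x in (0:ℝ)..t, |GG l x| :=
      intervalIntegral.continuous_primitive (fun a b => (hGc l).abs.intervalIntegrable _ _) 0
    have h1 : J = fun t => (∫ x in (0:ℝ)..(t + h), |GG l x|) - ∫ x in (0:ℝ)..t, |GG l x| := by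
      funext t
      rw [intervalIntegral.integral_interval_sub_left ((hGc l).abs.intervalIntegrable _ _)
        ((hGc l).abs.intervalIntegrable _ _)]
    rw [h1]
    exact (hPc.comp (by fun_prop)).sub hPc
  have hpoint : ∀ t, 0 ≤ t → J t ^ 2 * Real.exp (-t / T) ≤ 3 * h * ∫ x in t..(t + h), q x := by
    intro t ht
    have h1 := Z10_cs (hGc l) t hh0
    have h2 : (∫ x in t..(t + h), GG l x ^ 2) * Real.exp (-t / T) ≤
        3 * ∫ x in t..(t + h), q x := by
      rw [← intervalIntegral.integral_mul_const, ← intervalIntegral.integral_const_mul]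
      refine intervalIntegral.integral_mono_on (by linarith) ?_ ?_ ?_
      · exact (((hGc l).pow 2).mul continuous_const).intervalIntegrable _ _
      · exact (continuous_const.mul hqc).intervalIntegrable _ _
      · intro x hx
        have h3 : Real.exp (-t / T) ≤ 3 * Real.exp (-x / T) := by
          calc Real.exp (-t / T) ≤ Real.exp (h / T + -x / T) := by
                apply Real.exp_le_exp.mpr
                rw [← add_div, div_le_div_iff_of_pos_right hTpos]
                linarith [hx.2]
            _ = Real.exp (h / T) * Real.exp (-x / T) := Real.exp_add _ _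
            _ ≤ 3 * Real.exp (-x / T) := mul_le_mul_of_nonneg_right hexp (Real.exp_pos _).le
        calc GG l x ^ 2 * Real.exp (-t / T) ≤ GG l x ^ 2 * (3 * Real.exp (-x / T)) :=
              mul_le_mul_of_nonneg_left h3 (sq_nonneg _)
          _ = 3 * q x := by rw [hq]; ring
    calc J t ^ 2 * Real.exp (-t / T) ≤ (h * ∫ x in t..(t + h), GG l x ^ 2) * Real.exp (-t / T) :=
          mul_le_mul_of_nonneg_right h1 (Real.exp_pos _).le
      _ = h * ((∫ x in t..(t + h), GG l x ^ 2) * Real.exp (-t / T)) := by ring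
      _ ≤ h * (3 * ∫ x in t..(t + h), q x) := mul_le_mul_of_nonneg_left h2 hh0.le
      _ = _ := by ring
  -- integrability of the left hand side
  have hJi : IntegrableOn (fun t => J t ^ 2 * Real.exp (-t / T)) (Ioi 0) := by
    refine Z06_int (hJc.pow 2) (C := (Cg * Real.exp (2 * l) * 2) ^ 2) ?_ hTpos
    intro t ht
    have h1 : |J t| ≤ Cg * Real.exp (2 * l) * 2 * (1 + t) := by
      have h2 : ‖∫ x in t..(t + h), |GG l x|‖ ≤ (Cg * Real.exp (2 * l) * 2 * (1 + t)) * |t + h - t| := by
        refine intervalIntegral.norm_integral_le_of_norm_le_const fun x hx => ?_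
        rw [uIoc_of_le (by linarith)] at hx
        rw [Real.norm_eq_abs, abs_abs]
        refine (hgg l x hl0 (ht.trans hx.1.le)).trans ?_
        have h3 : 1 + x ≤ 2 * (1 + t) := by linarith [hx.2]
        have h4 : 0 ≤ Cg * Real.exp (2 * l) := by positivity
        calc Cg * Real.exp (2 * l) * (1 + x) ≤ Cg * Real.exp (2 * l) * (2 * (1 + t)) :=
              mul_le_mul_of_nonneg_left h3 h4
          _ = _ := by ring
      rw [add_sub_cancel_left, abs_of_pos hh0] at h2
      rw [Real.norm_eq_abs] at h2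
      refine h2.trans ?_
      have h4 : 0 ≤ Cg * Real.exp (2 * l) * 2 * (1 + t) := by positivity
      exact mul_le_of_le_one_right h4 hh1
    rw [Pi.pow_apply, abs_pow]
    calc |J t| ^ 2 ≤ (Cg * Real.exp (2 * l) * 2 * (1 + t)) ^ 2 :=
          pow_le_pow_left₀ (abs_nonneg _) h1 2
      _ = _ := by ring
  have hlim := intervalIntegral_tendsto_integral_Ioi 0 hJi tendsto_id
  have hbound : ∫ t in Ioi (0:ℝ), J t ^ 2 * Real.exp (-t / T) ≤ 3 * h * (h * (C0 * T)) := by
    refine le_of_tendsto hlim ?_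
    filter_upwards [Filter.eventually_ge_atTop (0:ℝ)] with R hR
    have h1 : ∫ t in (0:ℝ)..R, J t ^ 2 * Real.exp (-t / T) ≤
        ∫ t in (0:ℝ)..R, 3 * h * ∫ x in t..(t + h), q x := by
      refine intervalIntegral.integral_mono_on hR ?_ ?_ fun t ht => hpoint t ht.1
      · exact ((hJc.pow 2).mul (by fun_prop)).intervalIntegrable _ _
      · have hPc : Continuous fun t : ℝ => ∫ x in (0:ℝ)..t, q x :=
          intervalIntegral.continuous_primitive (fun a b => hqc.intervalIntegrable _ _) 0
        have h2 : (fun t => ∫ x in t..(t + h), q x) =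
            fun t => (∫ x in (0:ℝ)..(t + h), q x) - ∫ x in (0:ℝ)..t, q x := by
          funext t
          rw [intervalIntegral.integral_interval_sub_left (hqc.intervalIntegrable _ _)
            (hqc.intervalIntegrable _ _)]
        have h3 : Continuous fun t => ∫ x in t..(t + h), q x := by
          rw [h2]
          exact (hPc.comp (by fun_prop)).sub hPc
        exact (continuous_const.mul h3).intervalIntegrable _ _
    rw [intervalIntegral.integral_const_mul] at h1
    have h4 := Z10_window hqc hq0 hqi hh0.le hR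
    have h5 : h * ∫ x in Ioi 0, q x ≤ h * (C0 * T) := mul_le_mul_of_nonneg_left hqle hh0.le
    have h6 : 0 ≤ 3 * h := by positivity
    exact h1.trans (mul_le_mul_of_nonneg_left (h4.trans h5) h6)
  rw [inv_mul_le_iff₀ hTpos]
  refine hbound.trans (le_of_eq ?_)
  ring

end LZ

end F_Z10

section F_X_Z10

open Complex MeasureTheory Set Filter Topology
open scoped ComplexConjugate

namespace LX

open LZ

variable {q : ℕ} [NeZero q]

/-- E[J^2] (5.4): Cauchy-Schwarz and Fubini. -/
theorem J_sq : ∃ C : ℝ, 0 < C ∧ ∀ (q : ℕ) [NeZero q] (χ : DirichletCharacter ℂ q), χ.IsPrimitive → 1 < q →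
    ∀ Λ : ℝ, 1 ≤ Λ → ∃ T0 : ℝ, 2 ≤ T0 ∧ ∀ T : ℝ, T0 ≤ T →
    ER T (fun t => (∫ x in t..(t + Λ / Real.log T), |GG χ (Real.log T / 1500) x|) ^ 2) ≤
      C * (Λ / Real.log T) ^ 2 := by
  obtain ⟨C0, hC0, hG⟩ := G_sq
  refine ⟨3 * C0, by positivity, fun q _ χ hχ hq Λ hΛ => ?_⟩
  obtain ⟨T0, hT0, hG⟩ := hG q χ hχ hq
  obtain ⟨hGc, -, -, Cg, hCg, hgg⟩ := GG_facts hχ hq
  refine ⟨max T0 (Real.exp Λ), hT0.trans (le_max_left _ _), fun T hT => ?_⟩
  have hT1 : T0 ≤ T := (le_max_left _ _).trans hT
  have hT2 : Real.exp Λ ≤ T := (le_max_right _ _).trans hT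
  have hTpos : 0 < T := by linarith
  have hT1' : 1 ≤ T := by linarith
  have hlog : Λ ≤ Real.log T := (Real.le_log_iff_exp_le hTpos).mpr hT2
  have hlogpos : 0 < Real.log T := by linarith
  set h := Λ / Real.log T with hh
  have hh0 : 0 < h := by positivity
  have hh1 : h ≤ 1 := (div_le_one hlogpos).mpr hlog
  set l := Real.log T / 1500 with hl
  have hl0 : 0 < l := by positivity
  have hA := hG T hT1 l (by rw [hl]; linarith) (by rw [hl]; linarith)
  unfold ER at hA ⊢
  set qq : ℝ → ℝ := fun x => GG χ l x ^ 2 * Real.exp (-x / T) with hqq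
  have hqc : Continuous qq := ((hGc l).pow 2).mul (by fun_prop)
  have hq0 : ∀ x, 0 ≤ qq x := fun x => by positivity
  have hqi : IntegrableOn qq (Ioi 0) := Z06_GG_int hχ hq hl0 hTpos
  have hqle : ∫ x in Ioi 0, qq x ≤ C0 * T := by
    rw [inv_mul_le_iff₀ hTpos] at hA
    linarith [mul_comm C0 T]
  have hexp : Real.exp (h / T) ≤ 3 := by
    have h1 : h / T ≤ 1 := by
      rw [div_le_one hTpos]
      linarith
    exact (Real.exp_le_exp.mpr h1).trans (lt_trans Real.exp_one_lt_d9 (by norm_num)).le
  set J : ℝ → ℝ := fun t => ∫ x in t..(t + h), |GG χ l x| with hJ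
  have hJc : Continuous J := by
    have hPc : Continuous fun t : ℝ => ∫ x in (0:ℝ)..t, |GG χ l x| :=
      intervalIntegral.continuous_primitive (fun a b => (hGc l).abs.intervalIntegrable _ _) 0
    have h1 : J = fun t => (∫ x in (0:ℝ)..(t + h), |GG χ l x|) - ∫ x in (0:ℝ)..t, |GG χ l x| := by
      funext t
      rw [intervalIntegral.integral_interval_sub_left ((hGc l).abs.intervalIntegrable _ _)
        ((hGc l).abs.intervalIntegrable _ _)]
    rw [h1]
    exact (hPc.comp (by fun_prop)).sub hPc
  have hpoint : ∀ t, 0 ≤ t → J t ^ 2 * Real.exp (-t / T) ≤ 3 * h * ∫ x in t..(t + h), qq x := by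
    intro t ht
    have h1 := Z10_cs (hGc l) t hh0
    have h2 : (∫ x in t..(t + h), GG χ l x ^ 2) * Real.exp (-t / T) ≤
        3 * ∫ x in t..(t + h), qq x := by
      rw [← intervalIntegral.integral_mul_const, ← intervalIntegral.integral_const_mul]
      refine intervalIntegral.integral_mono_on (by linarith) ?_ ?_ ?_
      · exact (((hGc l).pow 2).mul continuous_const).intervalIntegrable _ _
      · exact (continuous_const.mul hqc).intervalIntegrable _ _
      · intro x hx
        have h3 : Real.exp (-t / T) ≤ 3 * Real.exp (-x / T) := by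
          calc Real.exp (-t / T) ≤ Real.exp (h / T + -x / T) := by
                apply Real.exp_le_exp.mpr
                rw [← add_div, div_le_div_iff_of_pos_right hTpos]
                linarith [hx.2]
            _ = Real.exp (h / T) * Real.exp (-x / T) := Real.exp_add _ _
            _ ≤ 3 * Real.exp (-x / T) := mul_le_mul_of_nonneg_right hexp (Real.exp_pos _).le
        calc GG χ l x ^ 2 * Real.exp (-t / T) ≤ GG χ l x ^ 2 * (3 * Real.exp (-x / T)) :=
              mul_le_mul_of_nonneg_left h3 (sq_nonneg _)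
          _ = 3 * qq x := by rw [hqq]; ring
    calc J t ^ 2 * Real.exp (-t / T) ≤ (h * ∫ x in t..(t + h), GG χ l x ^ 2) * Real.exp (-t / T) :=
          mul_le_mul_of_nonneg_right h1 (Real.exp_pos _).le
      _ = h * ((∫ x in t..(t + h), GG χ l x ^ 2) * Real.exp (-t / T)) := by ring
      _ ≤ h * (3 * ∫ x in t..(t + h), qq x) := mul_le_mul_of_nonneg_left h2 hh0.le
      _ = _ := by ring
  -- integrability of the left hand side
  have hJi : IntegrableOn (fun t => J t ^ 2 * Real.exp (-t / T)) (Ioi 0) := by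
    refine Z06_int (hJc.pow 2) (C := (Cg * Real.exp (2 * l) * 2) ^ 2) ?_ hTpos
    intro t ht
    have h1 : |J t| ≤ Cg * Real.exp (2 * l) * 2 * (1 + t) := by
      have h2 : ‖∫ x in t..(t + h), |GG χ l x|‖ ≤ (Cg * Real.exp (2 * l) * 2 * (1 + t)) * |t + h - t| := by
        refine intervalIntegral.norm_integral_le_of_norm_le_const fun x hx => ?_
        rw [uIoc_of_le (by linarith)] at hx
        rw [Real.norm_eq_abs, abs_abs]
        refine (hgg l x hl0 (ht.trans hx.1.le)).trans ?_
        have h3 : 1 + x ≤ 2 * (1 + t) := by linarith [hx.2]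
        have h4 : 0 ≤ Cg * Real.exp (2 * l) := by positivity
        calc Cg * Real.exp (2 * l) * (1 + x) ≤ Cg * Real.exp (2 * l) * (2 * (1 + t)) :=
              mul_le_mul_of_nonneg_left h3 h4
          _ = _ := by ring
      rw [add_sub_cancel_left, abs_of_pos hh0] at h2
      rw [Real.norm_eq_abs] at h2
      refine h2.trans ?_
      have h4 : 0 ≤ Cg * Real.exp (2 * l) * 2 * (1 + t) := by positivity
      exact mul_le_of_le_one_right h4 hh1
    rw [Pi.pow_apply, abs_pow]
    calc |J t| ^ 2 ≤ (Cg * Real.exp (2 * l) * 2 * (1 + t)) ^ 2 :=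
          pow_le_pow_left₀ (abs_nonneg _) h1 2
      _ = _ := by ring
  have hlim := intervalIntegral_tendsto_integral_Ioi 0 hJi tendsto_id
  have hbound : ∫ t in Ioi (0:ℝ), J t ^ 2 * Real.exp (-t / T) ≤ 3 * h * (h * (C0 * T)) := by
    refine le_of_tendsto hlim ?_
    filter_upwards [Filter.eventually_ge_atTop (0:ℝ)] with R hR
    have h1 : ∫ t in (0:ℝ)..R, J t ^ 2 * Real.exp (-t / T) ≤
        ∫ t in (0:ℝ)..R, 3 * h * ∫ x in t..(t + h), qq x := by
      refine intervalIntegral.integral_mono_on hR ?_ ?_ fun t ht => hpoint t ht.1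
      · exact ((hJc.pow 2).mul (by fun_prop)).intervalIntegrable _ _
      · have hPc : Continuous fun t : ℝ => ∫ x in (0:ℝ)..t, qq x :=
          intervalIntegral.continuous_primitive (fun a b => hqc.intervalIntegrable _ _) 0
        have h2 : (fun t => ∫ x in t..(t + h), qq x) =
            fun t => (∫ x in (0:ℝ)..(t + h), qq x) - ∫ x in (0:ℝ)..t, qq x := by
          funext t
          rw [intervalIntegral.integral_interval_sub_left (hqc.intervalIntegrable _ _)
            (hqc.intervalIntegrable _ _)]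
        have h3 : Continuous fun t => ∫ x in t..(t + h), qq x := by
          rw [h2]
          exact (hPc.comp (by fun_prop)).sub hPc
        exact (continuous_const.mul h3).intervalIntegrable _ _
    rw [intervalIntegral.integral_const_mul] at h1
    have h4 := Z10_window hqc hq0 hqi hh0.le hR
    have h5 : h * ∫ x in Ioi 0, qq x ≤ h * (C0 * T) := mul_le_mul_of_nonneg_left hqle hh0.le
    have h6 : 0 ≤ 3 * h := by positivity
    exact h1.trans (mul_le_mul_of_nonneg_left (h4.trans h5) h6)
  rw [inv_mul_le_iff₀ hTpos]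
  refine hbound.trans (le_of_eq ?_)
  ring

end LX

end F_X_Z10
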