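import Pool.Agent.Lib.MP_0f5a55_nt.V.V02
import Pool.Agent.Lib.MP_0f5a55_nt.V.V49
import Pool.Agent.Lib.MP_0f5a55_nt.V.V59

section F_A23

open Complex MeasureTheory Set Filter Topology
open scoped ComplexConjugate

namespace LZ

theorem first_mom (U : ℝ) (hU : 0 ≤ U) : ∃ C T0 : ℝ, 0 < C ∧ 2 ≤ T0 ∧ ∀ T : ℝ, T0 ≤ T → ∀ h : ℕ, 1 ≤ h →
    ∀ α : ℂ, |α.re| ≤ 1/16 → |α.im| ≤ U →
    ‖EE T (fun t => riemannZeta (1/2 + α + t * I) * (h : ℂ) ^ (-(t * I))) - (if h = 1 then 1 else 0)‖ ≤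
      C / T := by
  have h := LP.first_mom (1 : DirichletCharacter ℂ 1) U hU
  rw [A22_Lf] at h
  exact h

end LZ

end F_A23
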