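import Pool.Agent.Lib.MP_0f5a55_nt.V.V02
import Pool.Agent.Lib.MP_0f5a55_nt.V.V10
import Pool.Agent.Lib.MP_0f5a55_nt.V.V15
import Pool.Agent.Lib.MP_0f5a55_nt.V.V17
import Pool.Agent.Lib.MP_0f5a55_nt.V.V59
import Pool.Agent.Lib.MP_0f5a55_nt.V.V77

section F_X_A23

open Complex MeasureTheory Set Filter Topology

namespace LX

open LZ

/-- twisted first moment of a Dirichlet L-function -/
theorem first_mom {q : ℕ} [NeZero q] {χ : DirichletCharacter ℂ q} (_hχ : χ ≠ 1)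
    (U : ℝ) (hU : 0 ≤ U) : ∃ C T0 : ℝ, 0 < C ∧ 2 ≤ T0 ∧ ∀ T : ℝ, T0 ≤ T → ∀ h : ℕ, 1 ≤ h →
    ∀ α : ℂ, |α.re| ≤ 1/16 → |α.im| ≤ U →
    ‖EE T (fun t => Lf χ (1/2 + α + t * I) * (h : ℂ) ^ (-(t * I))) - (if h = 1 then 1 else 0)‖ ≤
      C / T :=
  LP.first_mom χ U hU

end LX

end F_X_A23

section F_M12

open Complex MeasureTheory Set Filter Topology
open scoped ComplexConjugate

namespace LZ

theorem M12_intg {T : ℝ} (hT : 0 < T) :
    IntegrableOn (fun t : ℝ => (1 + |t|) * Real.exp (-t / T)) (Ioi 0) := by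
  have hb : 0 < 1 / T := by positivity
  have h0 := integrableOn_rpow_mul_exp_neg_mul_rpow (s := 0) (p := 1) (b := 1 / T) (by norm_num)
    one_pos hb
  have h1 := integrableOn_rpow_mul_exp_neg_mul_rpow (s := 1) (p := 1) (b := 1 / T) (by norm_num)
    one_pos hb
  refine (h0.add h1).congr_fun (fun t ht => ?_) measurableSet_Ioi
  have ht' : 0 < t := ht
  simp only [Pi.add_apply]
  rw [Real.rpow_zero, Real.rpow_one, abs_of_pos ht']
  have h5 : -(1 / T) * t = -t / T := by ring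
  rw [h5]
  ring

/-- one term is integrable -/
theorem M12_term {T : ℝ} (hT : 0 < T) {h : ℕ} (hh : 1 ≤ h) :
    IntegrableOn (fun t : ℝ => (riemannZeta (1/2 + t * I) * (h : ℂ) ^ (-(t * I))) *
      ((Real.exp (-t / T) : ℝ) : ℂ)) (Ioi 0) := by
  obtain ⟨C, hC, hz⟩ := zeta_pol
  have hh0 : (h : ℂ) ≠ 0 := by
    have : h ≠ 0 := by omega
    exact_mod_cast this
  have hne : ∀ t : ℝ, (1/2 + (t : ℂ) * I) ≠ 1 := by
    intro t h1
    have h2 := congrArg Complex.re h1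
    simp at h2
  have hc1 : Continuous (fun t : ℝ => riemannZeta (1/2 + t * I)) := by
    rw [continuous_iff_continuousAt]
    intro t
    have h1 : ContinuousAt (fun t : ℝ => (1/2 + (t : ℂ) * I)) t := by fun_prop
    exact ContinuousAt.comp (g := riemannZeta)
      (differentiableAt_riemannZeta (hne t)).continuousAt h1
  have hc2 : Continuous (fun t : ℝ => (h : ℂ) ^ (-((t : ℂ) * I))) := by
    refine Continuous.const_cpow (by fun_prop) (Or.inl hh0)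
  have hc3 : Continuous (fun t : ℝ => ((Real.exp (-t / T) : ℝ) : ℂ)) := by fun_prop
  have hint : IntegrableOn (fun t : ℝ => C * ((1 + |t|) * Real.exp (-t / T))) (Ioi 0) :=
    (M12_intg hT).const_mul _
  refine Integrable.mono' hint ((hc1.mul hc2).mul hc3).aestronglyMeasurable ?_
  refine Filter.Eventually.of_forall fun t => ?_
  rw [norm_mul, norm_mul, Complex.norm_real, Real.norm_of_nonneg (Real.exp_pos _).le,
    Complex.norm_natCast_cpow_of_pos hh, ← mul_assoc]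
  refine mul_le_mul_of_nonneg_right ?_ (Real.exp_pos _).le
  have h1 : (-((t : ℂ) * I)).re = 0 := by simp
  rw [h1, Real.rpow_zero, mul_one]
  have h2 := hz (1/2 + t * I) (by simp; norm_num) (by
    have h3 : |((1/2 + (t : ℂ) * I) - 1).re| ≤ ‖(1/2 + (t : ℂ) * I) - 1‖ :=
      Complex.abs_re_le_norm _
    have h4 : ((1/2 + (t : ℂ) * I) - 1).re = -(1/2) := by
      simp
      norm_num
    rw [h4] at h3
    norm_num at h3
    linarith)
  have h5 : (1/2 + (t : ℂ) * I).im = t := by simp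
  rw [h5] at h2
  exact h2

theorem M12_sum {ι : Type} (T : ℝ) (s : Finset ι) (a : ι → ℂ) (f : ι → ℝ → ℂ)
    (hf : ∀ i ∈ s, IntegrableOn (fun t : ℝ => f i t * ((Real.exp (-t / T) : ℝ) : ℂ)) (Ioi 0)) :
    EE T (fun t => ∑ i ∈ s, a i * f i t) = ∑ i ∈ s, a i * EE T (f i) := by
  unfold EE
  have h1 : (fun t : ℝ => (∑ i ∈ s, a i * f i t) * ((Real.exp (-t / T) : ℝ) : ℂ)) =
      fun t : ℝ => ∑ i ∈ s, a i * (f i t * ((Real.exp (-t / T) : ℝ) : ℂ)) := by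
    funext t
    rw [Finset.sum_mul]
    exact Finset.sum_congr rfl fun i _ => by ring
  rw [h1, integral_finsetSum _ (fun i hi => (hf i hi).const_mul _), Finset.mul_sum]
  refine Finset.sum_congr rfl fun i _ => ?_
  rw [integral_const_mul]
  ring

theorem M12_nS {z : ℕ} {S : Finset ℕ} (hS : S ∈ (PP z).powerset) :
    1 ≤ nS S ∧ (nS S = 1 → S = ∅) := by
  have hp : ∀ p ∈ S, 2 ≤ p := fun p hp =>
    (Finset.mem_filter.mp (Finset.mem_powerset.mp hS hp)).2.two_le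
  have hpos : 0 < nS S := by
    unfold nS
    exact Finset.prod_pos fun p h => by
      have := hp p h
      omega
  refine ⟨hpos, fun h1 => ?_⟩
  rw [Finset.eq_empty_iff_forall_notMem]
  intro p hpS
  have h2 : p ∣ nS S := by
    unfold nS
    exact Finset.dvd_prod_of_mem (fun p => p) hpS
  rw [h1, Nat.dvd_one] at h2
  have := hp p hpS
  omega

/-- the expansion of the integrand -/
theorem M12_expand (l t : ℝ) :
    riemannZeta (1/2 + t * I) * Mol (1/2) l (1/2 + t * I) ^ 2 =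
      ∑ x ∈ (PP ⌊Real.exp l⌋₊).powerset ×ˢ (PP ⌊Real.exp l⌋₊).powerset,
        ((cf (1/2) l x.1 : ℂ) * (cf (1/2) l x.2 : ℂ) *
          ((nS x.1 * nS x.2 : ℕ) : ℂ) ^ (-(1/2) : ℂ)) *
        (riemannZeta (1/2 + t * I) * ((nS x.1 * nS x.2 : ℕ) : ℂ) ^ (-(t * I))) := by
  unfold Mol
  rw [sq, Finset.sum_mul_sum, ← Finset.sum_product', Finset.mul_sum]
  refine Finset.sum_congr rfl fun x hx => ?_
  rw [Finset.mem_product] at hx
  have h1 := (M12_nS hx.1).1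
  have h2 := (M12_nS hx.2).1
  have h3 : ((nS x.1 * nS x.2 : ℕ) : ℂ) ≠ 0 := by
    have : nS x.1 * nS x.2 ≠ 0 := by positivity
    exact_mod_cast this
  have h4 : ((nS x.1 * nS x.2 : ℕ) : ℂ) ^ (-(1/2) : ℂ) *
      ((nS x.1 * nS x.2 : ℕ) : ℂ) ^ (-((t : ℂ) * I)) =
      (nS x.1 : ℂ) ^ (-(1/2 + (t : ℂ) * I)) * (nS x.2 : ℂ) ^ (-(1/2 + (t : ℂ) * I)) := by
    rw [← Complex.cpow_add _ _ h3]
    have h5 : (-(1/2) : ℂ) + -((t : ℂ) * I) = -(1/2 + (t : ℂ) * I) := by ring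
    rw [h5, Nat.cast_mul, Complex.natCast_mul_natCast_cpow]
  calc riemannZeta (1/2 + t * I) * ((cf (1/2) l x.1 : ℂ) * (nS x.1 : ℂ) ^ (-(1/2 + (t : ℂ) * I)) *
        ((cf (1/2) l x.2 : ℂ) * (nS x.2 : ℂ) ^ (-(1/2 + (t : ℂ) * I))))
      = (cf (1/2) l x.1 : ℂ) * (cf (1/2) l x.2 : ℂ) * riemannZeta (1/2 + t * I) *
        ((nS x.1 : ℂ) ^ (-(1/2 + (t : ℂ) * I)) * (nS x.2 : ℂ) ^ (-(1/2 + (t : ℂ) * I))) := by ring
    _ = _ := by
        rw [← h4]
        ring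

/-- first moment with the square of the Selberg mollifier. -/
theorem phi_first : ∀ δ : ℝ, 0 < δ → ∃ T0 : ℝ, 2 ≤ T0 ∧ ∀ T : ℝ, T0 ≤ T → ∀ l : ℝ,
    0 < l → l ≤ Real.log T / 1000 →
    ‖EE T (fun t => riemannZeta (1/2 + t * I) * Mol (1/2) l (1/2 + t * I) ^ 2) - 1‖ ≤ δ := by
  intro δ hδ
  obtain ⟨C, T1, hC, hT1, hfm⟩ := first_mom 0 le_rfl
  have hev : ∀ᶠ T : ℝ in atTop, (T1 ≤ T ∧ 2 ≤ T) ∧ C * T ^ (-(1/2) : ℝ) ≤ δ := by
    refine Filter.Eventually.and ((eventually_ge_atTop T1).and (eventually_ge_atTop _)) ?_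
    have h1 : Tendsto (fun T : ℝ => C * T ^ (-(1/2) : ℝ)) atTop (𝓝 (C * 0)) :=
      (tendsto_rpow_neg_atTop (by norm_num)).const_mul _
    rw [mul_zero] at h1
    exact (h1.eventually_le_const hδ)
  obtain ⟨T0, hT0⟩ := Filter.eventually_atTop.mp hev
  refine ⟨max T0 2, le_max_right _ _, ?_⟩
  intro T hT l hl hl'
  obtain ⟨⟨hT1', hT2⟩, hTδ⟩ := hT0 T ((le_max_left _ _).trans hT)
  have hT00 : 0 < T := by linarith
  obtain ⟨P, hP⟩ : ∃ P, P = (PP ⌊Real.exp l⌋₊).powerset := ⟨_, rfl⟩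
  have hfun : (fun t : ℝ => riemannZeta (1/2 + t * I) * Mol (1/2) l (1/2 + t * I) ^ 2) =
      fun t : ℝ => ∑ x ∈ P ×ˢ P, ((cf (1/2) l x.1 : ℂ) * (cf (1/2) l x.2 : ℂ) *
          ((nS x.1 * nS x.2 : ℕ) : ℂ) ^ (-(1/2) : ℂ)) *
        (riemannZeta (1/2 + t * I) * ((nS x.1 * nS x.2 : ℕ) : ℂ) ^ (-(t * I))) := by
    funext t
    rw [hP]
    exact M12_expand l t
  rw [hfun]
  have hpos : ∀ x ∈ P ×ˢ P, 1 ≤ nS x.1 * nS x.2 := by
    intro x hx
    rw [hP, Finset.mem_product] at hx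
    exact Nat.mul_pos (M12_nS hx.1).1 (M12_nS hx.2).1
  rw [M12_sum T (P ×ˢ P) (fun x => (cf (1/2) l x.1 : ℂ) * (cf (1/2) l x.2 : ℂ) *
          ((nS x.1 * nS x.2 : ℕ) : ℂ) ^ (-(1/2) : ℂ))
    (fun x t => riemannZeta (1/2 + t * I) * ((nS x.1 * nS x.2 : ℕ) : ℂ) ^ (-(t * I)))
    (fun x hx => M12_term hT00 (hpos x hx))]
  have hmain : ∑ x ∈ P ×ˢ P, ((cf (1/2) l x.1 : ℂ) * (cf (1/2) l x.2 : ℂ) *
      ((nS x.1 * nS x.2 : ℕ) : ℂ) ^ (-(1/2) : ℂ)) *
      (if nS x.1 * nS x.2 = 1 then 1 else 0) = 1 := by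
    rw [Finset.sum_eq_single (∅, ∅)]
    · have h1 : nS ∅ = 1 := by simp [nS]
      have h2 : cf (1/2) l ∅ = 1 := by
        simp [cf, h1, wt]
      simp only [h1, h2]
      simp
    · intro x hx hne
      rw [if_neg, mul_zero]
      intro h1
      apply hne
      rw [hP, Finset.mem_product] at hx
      exact Prod.ext ((M12_nS hx.1).2 (Nat.eq_one_of_mul_eq_one_right h1))
        ((M12_nS hx.2).2 (Nat.eq_one_of_mul_eq_one_left h1))
    · intro h1
      exfalso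
      apply h1
      rw [hP]
      simp
  have hdiff : (∑ x ∈ P ×ˢ P, ((cf (1/2) l x.1 : ℂ) * (cf (1/2) l x.2 : ℂ) *
      ((nS x.1 * nS x.2 : ℕ) : ℂ) ^ (-(1/2) : ℂ)) *
      EE T (fun t => riemannZeta (1/2 + t * I) * ((nS x.1 * nS x.2 : ℕ) : ℂ) ^ (-(t * I)))) - 1 =
      ∑ x ∈ P ×ˢ P, ((cf (1/2) l x.1 : ℂ) * (cf (1/2) l x.2 : ℂ) *
      ((nS x.1 * nS x.2 : ℕ) : ℂ) ^ (-(1/2) : ℂ)) *
      (EE T (fun t => riemannZeta (1/2 + t * I) * ((nS x.1 * nS x.2 : ℕ) : ℂ) ^ (-(t * I))) -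
        (if nS x.1 * nS x.2 = 1 then 1 else 0)) := by
    simp only [mul_sub]
    rw [Finset.sum_sub_distrib, hmain]
  rw [hdiff]
  obtain ⟨_, _, hcf⟩ := cf_sum (1/2) l (by norm_num) (by norm_num) hl ⌊Real.exp l⌋₊
  rw [← hP] at hcf
  have hexp : Real.exp l * Real.exp l ≤ T ^ (1/2 : ℝ) := by
    rw [← Real.exp_add, Real.rpow_def_of_pos hT00, Real.exp_le_exp]
    have : 0 ≤ Real.log T := Real.log_nonneg (by linarith)
    linarith
  calc ‖∑ x ∈ P ×ˢ P, ((cf (1/2) l x.1 : ℂ) * (cf (1/2) l x.2 : ℂ) *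
      ((nS x.1 * nS x.2 : ℕ) : ℂ) ^ (-(1/2) : ℂ)) *
      (EE T (fun t => riemannZeta (1/2 + t * I) * ((nS x.1 * nS x.2 : ℕ) : ℂ) ^ (-(t * I))) -
        (if nS x.1 * nS x.2 = 1 then 1 else 0))‖
      ≤ ∑ x ∈ P ×ˢ P, (|cf (1/2) l x.1| * |cf (1/2) l x.2|) * (C / T) := by
        refine norm_sum_le_of_le _ fun x hx => ?_
        have h1 : ‖EE T (fun t => riemannZeta (1/2 + t * I) *
            ((nS x.1 * nS x.2 : ℕ) : ℂ) ^ (-(t * I))) -
            (if nS x.1 * nS x.2 = 1 then 1 else 0)‖ ≤ C / T := by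
          have h2 := hfm T hT1' (nS x.1 * nS x.2) (hpos x hx) 0 (by simp) (by simp)
          simp only [add_zero] at h2
          exact h2
        have h3 : ‖(cf (1/2) l x.1 : ℂ) * (cf (1/2) l x.2 : ℂ) *
            ((nS x.1 * nS x.2 : ℕ) : ℂ) ^ (-(1/2) : ℂ)‖ ≤
            |cf (1/2) l x.1| * |cf (1/2) l x.2| := by
          rw [norm_mul, norm_mul, Complex.norm_real, Complex.norm_real, Real.norm_eq_abs,
            Real.norm_eq_abs, Complex.norm_natCast_cpow_of_pos (hpos x hx)]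
          have h4 : (-(1/2) : ℂ).re = -(1/2) := by simp
          rw [h4]
          refine mul_le_of_le_one_right (by positivity) ?_
          exact Real.rpow_le_one_of_one_le_of_nonpos (by exact_mod_cast hpos x hx) (by norm_num)
        rw [norm_mul]
        exact mul_le_mul h3 h1 (norm_nonneg _) (by positivity)
    _ = (∑ S ∈ P, |cf (1/2) l S|) * (∑ S ∈ P, |cf (1/2) l S|) * (C / T) := by
        rw [← Finset.sum_mul, Finset.sum_mul_sum, Finset.sum_product]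
    _ ≤ T ^ (1/2 : ℝ) * (C / T) := by
        refine mul_le_mul_of_nonneg_right ?_ (by positivity)
        refine le_trans (mul_le_mul hcf hcf ?_ (Real.exp_pos _).le) hexp
        exact Finset.sum_nonneg fun S _ => abs_nonneg _
    _ = C * T ^ (-(1/2) : ℝ) := by
        have h1 : T ^ (-(1/2) : ℝ) = T ^ (1/2 : ℝ) * T⁻¹ := by
          rw [← Real.rpow_neg_one T, ← Real.rpow_add hT00]
          norm_num
        rw [h1]
        ring
    _ ≤ δ := hTδ

end LZ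

end F_M12
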