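import Pool.Agent.Lib.MP_0f5a55_nt.V.V66
import Pool.Agent.Lib.MP_0f5a55_nt.V.V78

section F_X_M12

open Complex MeasureTheory Set Filter Topology
open scoped ComplexConjugate

namespace LX

open LZ

variable {q : ℕ} [NeZero q]

/-- one term is integrable -/
theorem M12_term {χ : DirichletCharacter ℂ q} (hχ : χ ≠ 1) {T : ℝ} (hT : 0 < T) {h : ℕ} (hh : 1 ≤ h) :
    IntegrableOn (fun t : ℝ => (Lf χ (1/2 + t * I) * (h : ℂ) ^ (-(t * I))) *
      ((Real.exp (-t / T) : ℝ) : ℂ)) (Ioi 0) := by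
  obtain ⟨C, hC, hz⟩ := L_pol hχ
  have hh0 : (h : ℂ) ≠ 0 := by
    have : h ≠ 0 := by omega
    exact_mod_cast this
  have hc1 : Continuous (fun t : ℝ => Lf χ (1/2 + t * I)) :=
    (Lf_diff hχ).continuous.comp (by fun_prop)
  have hc2 : Continuous (fun t : ℝ => (h : ℂ) ^ (-((t : ℂ) * I))) := by
    refine Continuous.const_cpow (by fun_prop) (Or.inl hh0)
  have hc3 : Continuous (fun t : ℝ => ((Real.exp (-t / T) : ℝ) : ℂ)) := by fun_prop
  have hint : IntegrableOn (fun t : ℝ => C * ((1 + |t|) * Real.exp (-t / T))) (Ioi 0) :=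
    (M12_intg hT).const_mul _
  refine Integrable.mono' hint ((hc1.mul hc2).mul hc3).aestronglyMeasurable ?_
  refine Filter.Eventually.of_forall fun t => ?_
  rw [norm_mul, norm_mul, Complex.norm_real, Real.norm_of_nonneg (Real.exp_pos _).le,
    Complex.norm_natCast_cpow_of_pos hh, ← mul_assoc]
  refine mul_le_mul_of_nonneg_right ?_ (Real.exp_pos _).le
  have h1 : (-((t : ℂ) * I)).re = 0 := by simp
  rw [h1, Real.rpow_zero, mul_one]
  have h2 := hz (1/2 + t * I) (by simp; norm_num)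
  have h5 : (1/2 + (t : ℂ) * I).im = t := by simp
  rw [h5] at h2
  exact h2

/-- the expansion of the integrand -/
theorem M12_expand (χ : DirichletCharacter ℂ q) (l t : ℝ) :
    Lf χ (1/2 + t * I) * Mol χ (1/2) l (1/2 + t * I) ^ 2 =
      ∑ x ∈ (PQ q ⌊Real.exp l⌋₊).powerset ×ˢ (PQ q ⌊Real.exp l⌋₊).powerset,
        ((cf (1/2) l x.1 * cf (1/2) l x.2 : ℂ) * (χ (nS x.1) * χ (nS x.2)) *
          ((nS x.1 * nS x.2 : ℕ) : ℂ) ^ (-(1/2) : ℂ)) *
        (Lf χ (1/2 + t * I) * ((nS x.1 * nS x.2 : ℕ) : ℂ) ^ (-(t * I))) := by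
  unfold Mol
  rw [sq, Finset.sum_mul_sum, ← Finset.sum_product', Finset.mul_sum]
  refine Finset.sum_congr rfl fun x hx => ?_
  rw [Finset.mem_product] at hx
  have h1 := (M12_nS (PQ_pow_sub q _ hx.1)).1
  have h2 := (M12_nS (PQ_pow_sub q _ hx.2)).1
  have h3 : ((nS x.1 * nS x.2 : ℕ) : ℂ) ≠ 0 := by
    have : nS x.1 * nS x.2 ≠ 0 := by positivity
    exact_mod_cast this
  have h4 : ((nS x.1 * nS x.2 : ℕ) : ℂ) ^ (-(1/2) : ℂ) *
      ((nS x.1 * nS x.2 : ℕ) : ℂ) ^ (-((t : ℂ) * I)) =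
      (nS x.1 : ℂ) ^ (-(1/2 + (t : ℂ) * I)) * (nS x.2 : ℂ) ^ (-(1/2 + (t : ℂ) * I)) := by
    rw [← Complex.cpow_add _ _ h3]
    have h5 : (-(1/2) : ℂ) + -((t : ℂ) * I) = -(1/2 + (t : ℂ) * I) := by ring
    rw [h5, Nat.cast_mul, Complex.natCast_mul_natCast_cpow]
  calc Lf χ (1/2 + t * I) * ((cf (1/2) l x.1 : ℂ) * χ (nS x.1) * (nS x.1 : ℂ) ^ (-(1/2 + (t : ℂ) * I)) *
        ((cf (1/2) l x.2 : ℂ) * χ (nS x.2) * (nS x.2 : ℂ) ^ (-(1/2 + (t : ℂ) * I))))
      = (cf (1/2) l x.1 * cf (1/2) l x.2 : ℂ) * (χ (nS x.1) * χ (nS x.2)) * Lf χ (1/2 + t * I) *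
        ((nS x.1 : ℂ) ^ (-(1/2 + (t : ℂ) * I)) * (nS x.2 : ℂ) ^ (-(1/2 + (t : ℂ) * I))) := by ring
    _ = _ := by
        rw [← h4]
        ring

/-- first moment with the square of the Selberg mollifier. -/
theorem phi_first {χ : DirichletCharacter ℂ q} (hχ : χ ≠ 1) : ∀ δ : ℝ, 0 < δ → ∃ T0 : ℝ, 2 ≤ T0 ∧ ∀ T : ℝ, T0 ≤ T → ∀ l : ℝ,
    0 < l → l ≤ Real.log T / 1000 →
    ‖EE T (fun t => Lf χ (1/2 + t * I) * Mol χ (1/2) l (1/2 + t * I) ^ 2) - 1‖ ≤ δ := by
  intro δ hδ
  obtain ⟨C, T1, hC, hT1, hfm⟩ := first_mom hχ 0 le_rfl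
  have hev : ∀ᶠ T : ℝ in atTop, (T1 ≤ T ∧ 2 ≤ T) ∧ C * T ^ (-(1/2) : ℝ) ≤ δ := by
    refine Filter.Eventually.and ((eventually_ge_atTop T1).and (eventually_ge_atTop _)) ?_
    have h1 : Tendsto (fun T : ℝ => C * T ^ (-(1/2) : ℝ)) atTop (𝓝 (C * 0)) :=
      (tendsto_rpow_neg_atTop (by norm_num)).const_mul _
    rw [mul_zero] at h1
    exact (h1.eventually_le_const hδ)
  obtain ⟨T0, hT0⟩ := Filter.eventually_atTop.mp hev
  refine ⟨max T0 2, le_max_right _ _, ?_⟩
  intro T hT l hl hl'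
  obtain ⟨⟨hT1', hT2⟩, hTδ⟩ := hT0 T ((le_max_left _ _).trans hT)
  have hT00 : 0 < T := by linarith
  obtain ⟨P, hP⟩ : ∃ P, P = (PQ q ⌊Real.exp l⌋₊).powerset := ⟨_, rfl⟩
  have hfun : (fun t : ℝ => Lf χ (1/2 + t * I) * Mol χ (1/2) l (1/2 + t * I) ^ 2) =
      fun t : ℝ => ∑ x ∈ P ×ˢ P, ((cf (1/2) l x.1 * cf (1/2) l x.2 : ℂ) * (χ (nS x.1) * χ (nS x.2)) *
          ((nS x.1 * nS x.2 : ℕ) : ℂ) ^ (-(1/2) : ℂ)) *
        (Lf χ (1/2 + t * I) * ((nS x.1 * nS x.2 : ℕ) : ℂ) ^ (-(t * I))) := by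
    funext t
    rw [hP]
    exact M12_expand χ l t
  rw [hfun]
  have hpos : ∀ x ∈ P ×ˢ P, 1 ≤ nS x.1 * nS x.2 := by
    intro x hx
    rw [hP, Finset.mem_product] at hx
    exact Nat.mul_pos (M12_nS (PQ_pow_sub q _ hx.1)).1 (M12_nS (PQ_pow_sub q _ hx.2)).1
  rw [M12_sum T (P ×ˢ P) (fun x => (cf (1/2) l x.1 * cf (1/2) l x.2 : ℂ) * (χ (nS x.1) * χ (nS x.2)) *
          ((nS x.1 * nS x.2 : ℕ) : ℂ) ^ (-(1/2) : ℂ))
    (fun x t => Lf χ (1/2 + t * I) * ((nS x.1 * nS x.2 : ℕ) : ℂ) ^ (-(t * I)))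
    (fun x hx => M12_term hχ hT00 (hpos x hx))]
  have hmain : ∑ x ∈ P ×ˢ P, ((cf (1/2) l x.1 * cf (1/2) l x.2 : ℂ) * (χ (nS x.1) * χ (nS x.2)) *
      ((nS x.1 * nS x.2 : ℕ) : ℂ) ^ (-(1/2) : ℂ)) *
      (if nS x.1 * nS x.2 = 1 then 1 else 0) = 1 := by
    rw [Finset.sum_eq_single (∅, ∅)]
    · have h1 : nS ∅ = 1 := by simp [nS]
      have h2 : cf (1/2) l ∅ = 1 := by
        simp [cf, h1, wt]
      simp only [h1, h2]
      simp
    · intro x hx hne
      rw [if_neg, mul_zero]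
      intro h1
      apply hne
      rw [hP, Finset.mem_product] at hx
      exact Prod.ext ((M12_nS (PQ_pow_sub q _ hx.1)).2 (Nat.eq_one_of_mul_eq_one_right h1))
        ((M12_nS (PQ_pow_sub q _ hx.2)).2 (Nat.eq_one_of_mul_eq_one_left h1))
    · intro h1
      exfalso
      apply h1
      rw [hP]
      simp
  have hdiff : (∑ x ∈ P ×ˢ P, ((cf (1/2) l x.1 * cf (1/2) l x.2 : ℂ) * (χ (nS x.1) * χ (nS x.2)) *
      ((nS x.1 * nS x.2 : ℕ) : ℂ) ^ (-(1/2) : ℂ)) *
      EE T (fun t => Lf χ (1/2 + t * I) * ((nS x.1 * nS x.2 : ℕ) : ℂ) ^ (-(t * I)))) - 1 =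
      ∑ x ∈ P ×ˢ P, ((cf (1/2) l x.1 * cf (1/2) l x.2 : ℂ) * (χ (nS x.1) * χ (nS x.2)) *
      ((nS x.1 * nS x.2 : ℕ) : ℂ) ^ (-(1/2) : ℂ)) *
      (EE T (fun t => Lf χ (1/2 + t * I) * ((nS x.1 * nS x.2 : ℕ) : ℂ) ^ (-(t * I))) -
        (if nS x.1 * nS x.2 = 1 then 1 else 0)) := by
    simp only [mul_sub]
    rw [Finset.sum_sub_distrib, hmain]
  rw [hdiff]
  obtain ⟨_, _, hcf⟩ := cf_sum (q := q) (1/2) l (by norm_num) (by norm_num) hl ⌊Real.exp l⌋₊
  rw [← hP] at hcf
  have hexp : Real.exp l * Real.exp l ≤ T ^ (1/2 : ℝ) := by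
    rw [← Real.exp_add, Real.rpow_def_of_pos hT00, Real.exp_le_exp]
    have : 0 ≤ Real.log T := Real.log_nonneg (by linarith)
    linarith
  calc ‖∑ x ∈ P ×ˢ P, ((cf (1/2) l x.1 * cf (1/2) l x.2 : ℂ) * (χ (nS x.1) * χ (nS x.2)) *
      ((nS x.1 * nS x.2 : ℕ) : ℂ) ^ (-(1/2) : ℂ)) *
      (EE T (fun t => Lf χ (1/2 + t * I) * ((nS x.1 * nS x.2 : ℕ) : ℂ) ^ (-(t * I))) -
        (if nS x.1 * nS x.2 = 1 then 1 else 0))‖
      ≤ ∑ x ∈ P ×ˢ P, (|cf (1/2) l x.1| * |cf (1/2) l x.2|) * (C / T) := by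
        refine norm_sum_le_of_le _ fun x hx => ?_
        have h1 : ‖EE T (fun t => Lf χ (1/2 + t * I) *
            ((nS x.1 * nS x.2 : ℕ) : ℂ) ^ (-(t * I))) -
            (if nS x.1 * nS x.2 = 1 then 1 else 0)‖ ≤ C / T := by
          have h2 := hfm T hT1' (nS x.1 * nS x.2) (hpos x hx) 0 (by simp) (by simp)
          simp only [add_zero] at h2
          exact h2
        have h3 : ‖(cf (1/2) l x.1 * cf (1/2) l x.2 : ℂ) * (χ (nS x.1) * χ (nS x.2)) *
            ((nS x.1 * nS x.2 : ℕ) : ℂ) ^ (-(1/2) : ℂ)‖ ≤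
            |cf (1/2) l x.1| * |cf (1/2) l x.2| := by
          rw [norm_mul, norm_mul, norm_mul, norm_mul, Complex.norm_real, Complex.norm_real,
            Real.norm_eq_abs, Real.norm_eq_abs, Complex.norm_natCast_cpow_of_pos (hpos x hx)]
          have h4 : (-(1/2) : ℂ).re = -(1/2) := by simp
          rw [h4]
          have h5 : ((nS x.1 * nS x.2 : ℕ) : ℝ) ^ (-(1/2) : ℝ) ≤ 1 :=
            Real.rpow_le_one_of_one_le_of_nonpos (by exact_mod_cast hpos x hx) (by norm_num)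
          have h6 : ‖χ (nS x.1)‖ * ‖χ (nS x.2)‖ ≤ 1 :=
            mul_le_one₀ (norm_char_le χ _) (norm_nonneg _) (norm_char_le χ _)
          calc |cf (1/2) l x.1| * |cf (1/2) l x.2| * (‖χ (nS x.1)‖ * ‖χ (nS x.2)‖) *
                ((nS x.1 * nS x.2 : ℕ) : ℝ) ^ (-(1/2) : ℝ)
              ≤ |cf (1/2) l x.1| * |cf (1/2) l x.2| * 1 * 1 := by
                apply mul_le_mul _ h5 (by positivity) (by positivity)
                exact mul_le_mul_of_nonneg_left h6 (by positivity)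
            _ = _ := by ring
        rw [norm_mul]
        exact mul_le_mul h3 h1 (norm_nonneg _) (by positivity)
    _ = (∑ S ∈ P, |cf (1/2) l S|) * (∑ S ∈ P, |cf (1/2) l S|) * (C / T) := by
        rw [← Finset.sum_mul, Finset.sum_mul_sum, Finset.sum_product]
    _ ≤ T ^ (1/2 : ℝ) * (C / T) := by
        refine mul_le_mul_of_nonneg_right ?_ (by positivity)
        refine le_trans (mul_le_mul hcf hcf ?_ (Real.exp_pos _).le) hexp
        exact Finset.sum_nonneg fun S _ => abs_nonneg _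
    _ = C * T ^ (-(1/2) : ℝ) := by
        have h1 : T ^ (-(1/2) : ℝ) = T ^ (1/2 : ℝ) * T⁻¹ := by
          rw [← Real.rpow_neg_one T, ← Real.rpow_add hT00]
          norm_num
        rw [h1]
        ring
    _ ≤ δ := hTδ

end LX

end F_X_M12

section F_X_Z11

open Complex MeasureTheory Set Filter Topology
open scoped ComplexConjugate

namespace LX

open LZ

private theorem Z11_shift (f : ℝ → ℝ) (v : ℝ) :
    ∫ t in Ioi (0 : ℝ), f (t + v) = ∫ t in Ioi v, f t := by
  have h := (measurePreserving_add_right (volume : Measure ℝ) v).setIntegral_preimage_emb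
    (measurableEmbedding_addRight v) f (Ioi v)
  have h2 : (fun x : ℝ => x + v) ⁻¹' (Ioi v) = Ioi 0 := by
    ext x
    simp
  rw [h2] at h
  exact h

private theorem Z11_dom (T K : ℝ) (hT : 0 < T) (t h : ℝ) (ht : 0 ≤ t) (hh : 0 ≤ h) (hK : 0 ≤ K)
    (y v : ℝ) (hv0 : 0 ≤ v) (hv : v ≤ h) (hy : |y| ≤ K * (1 + (t + v))) :
    |y| * Real.exp (-t / T) ≤ K * (1 + h + 2 * T) * Real.exp (-(1 / (2 * T)) * t) := by
  have e1 : Real.exp (-t / T) = Real.exp (-(1 / (2 * T)) * t) * Real.exp (-(1 / (2 * T)) * t) := by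
    rw [← Real.exp_add]
    congr 1
    field_simp
    ring
  have e2 : (1 + h + t) * Real.exp (-(1 / (2 * T)) * t) ≤ 1 + h + 2 * T := by
    have h1 : Real.exp (-(1 / (2 * T)) * t) ≤ 1 := by
      apply Real.exp_le_one_iff.2
      have : 0 ≤ 1 / (2 * T) * t := by positivity
      linarith
    have h2 : t / (2 * T) ≤ Real.exp (t / (2 * T)) := by
      have := Real.add_one_le_exp (t / (2 * T))
      linarith
    have h3 : t / (2 * T) * Real.exp (-(1 / (2 * T)) * t) ≤ 1 := by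
      calc _ ≤ Real.exp (t / (2 * T)) * Real.exp (-(1 / (2 * T)) * t) := by
            gcongr
        _ = 1 := by
            rw [← Real.exp_add]
            have : t / (2 * T) + -(1 / (2 * T)) * t = 0 := by ring
            rw [this, Real.exp_zero]
    have h4 : t * Real.exp (-(1 / (2 * T)) * t) ≤ 2 * T := by
      have : t * Real.exp (-(1 / (2 * T)) * t) =
          2 * T * (t / (2 * T) * Real.exp (-(1 / (2 * T)) * t)) := by
        field_simp
      rw [this]
      nlinarith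
    have h5 : (1 + h) * Real.exp (-(1 / (2 * T)) * t) ≤ 1 + h := by nlinarith
    nlinarith
  rw [e1]
  have hp := Real.exp_pos (-(1 / (2 * T)) * t)
  calc |y| * (Real.exp (-(1 / (2 * T)) * t) * Real.exp (-(1 / (2 * T)) * t))
      ≤ (K * (1 + h + t)) * (Real.exp (-(1 / (2 * T)) * t) * Real.exp (-(1 / (2 * T)) * t)) := by
        refine mul_le_mul_of_nonneg_right (le_trans hy ?_) (by positivity)
        refine mul_le_mul_of_nonneg_left ?_ hK
        linarith
    _ = K * ((1 + h + t) * Real.exp (-(1 / (2 * T)) * t)) * Real.exp (-(1 / (2 * T)) * t) := by ring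
    _ ≤ K * (1 + h + 2 * T) * Real.exp (-(1 / (2 * T)) * t) := by
        gcongr

private theorem Z11_expint (T : ℝ) (hT : 0 < T) :
    IntegrableOn (fun t : ℝ => Real.exp (-(1 / (2 * T)) * t)) (Ioi 0) :=
  exp_neg_integrableOn_Ioi 0 (by positivity)

/-- lower bound of the mean of the short averages of a nonnegative function -/
private theorem Z11_mean (A : ℝ → ℝ) (hA : Continuous A) (hA0 : ∀ x, 0 ≤ A x) (T K h : ℝ)
    (hT : 0 < T) (hK : 0 ≤ K) (hh : 0 < h) (hh1 : h ≤ 1)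
    (hb : ∀ x : ℝ, 0 ≤ x → A x ≤ K * (1 + x)) :
    h * (ER T A - T⁻¹ * (2 * K)) ≤ ER T (fun t => ∫ x in t..(t + h), A x) := by
  have hAi : IntegrableOn (fun t : ℝ => A t * Real.exp (-t / T)) (Ioi 0) := by
    refine Integrable.mono' ((Z11_expint T hT).const_mul (K * (1 + h + 2 * T))) ?_ ?_
    · exact (by fun_prop : Continuous (fun t : ℝ => A t * Real.exp (-t / T))).aestronglyMeasurable
    · refine ae_restrict_of_forall_mem measurableSet_Ioi ?_
      intro t ht
      have ht' : (0 : ℝ) < t := ht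
      rw [Real.norm_eq_abs, abs_mul, abs_of_pos (Real.exp_pos _)]
      refine Z11_dom T K hT t h ht'.le hh.le hK (A t) 0 le_rfl hh.le ?_
      rw [abs_of_nonneg (hA0 t), add_zero]
      exact hb t ht'.le
  -- the product function
  have hprod : Integrable (Function.uncurry (fun (t v : ℝ) => A (t + v) * Real.exp (-t / T)))
      ((volume.restrict (Ioi (0 : ℝ))).prod (volume.restrict (Ioc (0 : ℝ) h))) := by
    have hone : Integrable (fun _ : ℝ => (1 : ℝ)) (volume.restrict (Ioc (0 : ℝ) h)) := by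
      exact integrable_const _
    have hdom := ((Z11_expint T hT).const_mul (K * (1 + h + 2 * T))).mul_prod hone
    refine Integrable.mono' hdom ?_ ?_
    · exact (by unfold Function.uncurry; fun_prop : Continuous (Function.uncurry (fun (t v : ℝ) =>
        A (t + v) * Real.exp (-t / T)))).aestronglyMeasurable
    · rw [Measure.prod_restrict]
      refine ae_restrict_of_forall_mem (measurableSet_Ioi.prod measurableSet_Ioc) ?_
      rintro ⟨t, v⟩ ⟨ht, hv⟩
      have ht' : (0 : ℝ) < t := ht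
      have hv' : 0 < v ∧ v ≤ h := hv
      simp only [Function.uncurry]
      rw [Real.norm_eq_abs, abs_mul, abs_of_pos (Real.exp_pos _), mul_one]
      refine Z11_dom T K hT t h ht'.le hh.le hK (A (t + v)) v hv'.1.le hv'.2 ?_
      rw [abs_of_nonneg (hA0 _)]
      exact hb (t + v) (by linarith [hv'.1])
  have hswap := integral_integral_swap hprod
  have e1 : ER T (fun t => ∫ x in t..(t + h), A x) =
      T⁻¹ * ∫ t in Ioi (0 : ℝ), ∫ v in Ioc (0 : ℝ) h, A (t + v) * Real.exp (-t / T) := by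
    unfold ER
    congr 1
    refine integral_congr_ae (Filter.Eventually.of_forall ?_)
    intro t
    simp only
    rw [integral_mul_const]
    congr 1
    rw [← intervalIntegral.integral_of_le hh.le, intervalIntegral.integral_comp_add_left]
    simp
  rw [e1, hswap]
  have hKi : ∀ v ∈ Ioc (0 : ℝ) h, T * ER T A - 2 * K ≤
      ∫ t in Ioi (0 : ℝ), A (t + v) * Real.exp (-t / T) := by
    intro v hv
    have h1 : T * ER T A = ∫ t in Ioi (0 : ℝ), A t * Real.exp (-t / T) := by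
      unfold ER
      rw [← mul_assoc, mul_inv_cancel₀ hT.ne', one_mul]
    have h2 : ∫ t in Ioi (0 : ℝ), A (t + v) * Real.exp (-(t + v) / T) =
        ∫ t in Ioi v, A t * Real.exp (-t / T) :=
      Z11_shift (fun t => A t * Real.exp (-t / T)) v
    have hsub : Ioi v ⊆ Ioi (0 : ℝ) := Ioi_subset_Ioi hv.1.le
    have h3 : ∫ t in Ioi (0 : ℝ), A t * Real.exp (-t / T) =
        (∫ t in Ioc (0 : ℝ) v, A t * Real.exp (-t / T)) + ∫ t in Ioi v, A t * Real.exp (-t / T) := by
      rw [← setIntegral_union (Ioc_disjoint_Ioi le_rfl) measurableSet_Ioi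
        (hAi.mono_set Ioc_subset_Ioi_self) (hAi.mono_set hsub), Ioc_union_Ioi_eq_Ioi hv.1.le]
    have h4 : ∫ t in Ioc (0 : ℝ) v, A t * Real.exp (-t / T) ≤ 2 * K := by
      calc ∫ t in Ioc (0 : ℝ) v, A t * Real.exp (-t / T) ≤ ∫ t in Ioc (0 : ℝ) v, 2 * K := by
            refine setIntegral_mono_on (hAi.mono_set Ioc_subset_Ioi_self)
              (integrableOn_const (by simp)) measurableSet_Ioc ?_
            intro t ht
            have he : Real.exp (-t / T) ≤ 1 := by
              apply Real.exp_le_one_iff.2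
              have : 0 ≤ t / T := div_nonneg ht.1.le hT.le
              rw [neg_div]
              linarith
            have ht1 : t ≤ 1 := le_trans ht.2 (le_trans hv.2 hh1)
            calc A t * Real.exp (-t / T) ≤ (K * (1 + t)) * 1 := by
                  refine mul_le_mul (hb t ht.1.le) he (Real.exp_pos _).le ?_
                  exact mul_nonneg hK (by linarith [ht.1])
              _ ≤ 2 * K := by nlinarith
        _ = v * (2 * K) := by
            rw [setIntegral_const]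
            simp [hv.1.le]
        _ ≤ 2 * K := by
            have : v ≤ 1 := le_trans hv.2 hh1
            nlinarith
    -- integrability of the shifted functions
    have hi1 : IntegrableOn (fun t : ℝ => A (t + v) * Real.exp (-t / T)) (Ioi 0) := by
      refine Integrable.mono' ((Z11_expint T hT).const_mul (K * (1 + h + 2 * T))) ?_ ?_
      · exact (by fun_prop : Continuous (fun t : ℝ =>
          A (t + v) * Real.exp (-t / T))).aestronglyMeasurable
      · refine ae_restrict_of_forall_mem measurableSet_Ioi ?_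
        intro t ht
        have ht' : (0 : ℝ) < t := ht
        rw [Real.norm_eq_abs, abs_mul, abs_of_pos (Real.exp_pos _)]
        refine Z11_dom T K hT t h ht'.le hh.le hK (A (t + v)) v hv.1.le hv.2 ?_
        rw [abs_of_nonneg (hA0 _)]
        exact hb (t + v) (by linarith [hv.1])
    have hi2 : IntegrableOn (fun t : ℝ => A (t + v) * Real.exp (-(t + v) / T)) (Ioi 0) := by
      refine Integrable.mono' hi1 ?_ ?_
      · exact (by fun_prop : Continuous (fun t : ℝ =>
          A (t + v) * Real.exp (-(t + v) / T))).aestronglyMeasurable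
      · refine Filter.Eventually.of_forall ?_
        intro t
        rw [Real.norm_eq_abs, abs_mul, abs_of_pos (Real.exp_pos _), abs_of_nonneg (hA0 _)]
        refine mul_le_mul_of_nonneg_left ?_ (hA0 _)
        apply Real.exp_le_exp.2
        gcongr
        linarith [hv.1]
    have h5 : ∫ t in Ioi (0 : ℝ), A (t + v) * Real.exp (-(t + v) / T) ≤
        ∫ t in Ioi (0 : ℝ), A (t + v) * Real.exp (-t / T) := by
      refine setIntegral_mono hi2 hi1 ?_
      intro t
      refine mul_le_mul_of_nonneg_left ?_ (hA0 _)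
      apply Real.exp_le_exp.2
      gcongr
      linarith [hv.1]
    linarith
  have hint : IntegrableOn (fun v : ℝ => ∫ t in Ioi (0 : ℝ), A (t + v) * Real.exp (-t / T))
      (Ioc 0 h) := hprod.integral_prod_right
  have hfin : h * (T * ER T A - 2 * K) ≤
      ∫ v in Ioc (0 : ℝ) h, ∫ t in Ioi (0 : ℝ), A (t + v) * Real.exp (-t / T) := by
    calc h * (T * ER T A - 2 * K) = ∫ v in Ioc (0 : ℝ) h, (T * ER T A - 2 * K) := by
          rw [setIntegral_const]
          simp [hh.le]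
      _ ≤ _ := by
          refine setIntegral_mono_on (integrableOn_const (by simp)) hint measurableSet_Ioc hKi
  calc h * (ER T A - T⁻¹ * (2 * K)) = T⁻¹ * (h * (T * ER T A - 2 * K)) := by
        field_simp
    _ ≤ _ := by
        gcongr

variable {q : ℕ} [NeZero q]

/-- E[J] from below (5.4): J >= |int zeta phi^2|, Fubini, shift of the mean as in ER_shift (complex version), phi_first. -/
theorem J_low {χ : DirichletCharacter ℂ q} (hχ : χ.IsPrimitive) (hq : 1 < q) : ∀ Λ : ℝ, 1 ≤ Λ → ∃ T0 : ℝ, 2 ≤ T0 ∧ ∀ T : ℝ, T0 ≤ T →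
    1/2 * (Λ / Real.log T) ≤ ER T (fun t => ∫ x in t..(t + Λ / Real.log T), |GG χ (Real.log T / 1500) x|) := by
  intro Λ hΛ
  obtain ⟨hcont, habs, -, C, hC, hgrow⟩ := GG_facts hχ hq
  obtain ⟨T1, hT1, hfirst⟩ := phi_first (ne_one hχ hq) (1 / 4) (by norm_num)
  refine ⟨max T1 (max (Real.exp Λ) (max 2 ((8 * C) ^ 2))), ?_, ?_⟩
  · exact le_trans hT1 (le_max_left _ _)
  intro T hT
  have hTa : T1 ≤ T := le_trans (le_max_left _ _) hT
  have hTb : Real.exp Λ ≤ T := le_trans (le_max_left _ _) (le_trans (le_max_right _ _) hT)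
  have hTc : 2 ≤ T := le_trans (le_max_left _ _)
    (le_trans (le_max_right _ _) (le_trans (le_max_right _ _) hT))
  have hTd : (8 * C) ^ 2 ≤ T := le_trans (le_max_right _ _)
    (le_trans (le_max_right _ _) (le_trans (le_max_right _ _) hT))
  have hT0 : 0 < T := by linarith
  have hL : Λ ≤ Real.log T := by
    rw [Real.le_log_iff_exp_le hT0]
    exact hTb
  have hL0 : 0 < Real.log T := by linarith
  set l : ℝ := Real.log T / 1500 with hl
  have hl0 : 0 < l := by positivity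
  have hf := hfirst T hTa l hl0 (by rw [hl]; linarith)
  set h : ℝ := Λ / Real.log T with hh
  have hh0 : 0 < h := by positivity
  have hh1 : h ≤ 1 := by
    rw [hh, div_le_one hL0]
    exact hL
  have hmain := Z11_mean (fun x => |GG χ l x|) (hcont l).abs (fun x => abs_nonneg _) T
    (C * Real.exp (2 * l)) h hT0 (by positivity) hh0 hh1 (fun x hx => hgrow l x hl0 hx)
  refine le_trans ?_ hmain
  -- first moment
  have hE : 3 / 4 ≤ ER T (fun x => |GG χ l x|) := by
    have h1 : ‖EE T (fun t => Lf χ (1/2 + t * I) * Mol χ (1/2) l (1/2 + t * I) ^ 2)‖ ≤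
        ER T (fun x => |GG χ l x|) := by
      unfold EE ER
      rw [norm_mul, norm_inv, Complex.norm_real, Real.norm_eq_abs, abs_of_pos hT0]
      gcongr
      refine le_trans (norm_integral_le_integral_norm _) (le_of_eq ?_)
      refine integral_congr_ae (Filter.Eventually.of_forall ?_)
      intro t
      simp only
      rw [norm_mul, Complex.norm_real, Real.norm_eq_abs, abs_of_pos (Real.exp_pos _), habs]
    have h2 : ‖(1 : ℂ)‖ ≤ ‖EE T (fun t => Lf χ (1/2 + t * I) * Mol χ (1/2) l (1/2 + t * I) ^ 2)‖ +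
        ‖EE T (fun t => Lf χ (1/2 + t * I) * Mol χ (1/2) l (1/2 + t * I) ^ 2) - 1‖ := by
      have := norm_sub_le (EE T (fun t => Lf χ (1/2 + t * I) * Mol χ (1/2) l (1/2 + t * I) ^ 2))
        (EE T (fun t => Lf χ (1/2 + t * I) * Mol χ (1/2) l (1/2 + t * I) ^ 2) - 1)
      simpa using this
    rw [norm_one] at h2
    linarith
  have hs : T⁻¹ * (2 * (C * Real.exp (2 * l))) ≤ 1 / 4 := by
    have e1 : Real.exp (2 * l) ≤ Real.sqrt T := by
      rw [Real.sqrt_eq_rpow, Real.rpow_def_of_pos hT0]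
      apply Real.exp_le_exp.2
      rw [hl]
      linarith
    have e2 : 8 * C ≤ Real.sqrt T := Real.le_sqrt_of_sq_le hTd
    have e3 : Real.sqrt T * Real.sqrt T = T := Real.mul_self_sqrt hT0.le
    rw [inv_mul_le_iff₀ hT0]
    have e4 : 0 ≤ Real.sqrt T := Real.sqrt_nonneg _
    have e5 : 2 * (C * Real.exp (2 * l)) ≤ 2 * (C * Real.sqrt T) := by gcongr
    nlinarith
  have : 1 / 2 * h ≤ h * (3 / 4 - 1 / 4) := by
    linarith
  refine le_trans this ?_
  gcongr

end LX

end F_X_Z11
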