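import Pool.Agent.Lib.MP_0f5a55_nt.V.V02
import Pool.Agent.Lib.MP_0f5a55_nt.V.V50
import Pool.Agent.Lib.MP_0f5a55_nt.V.V78

section F_Z11

open Complex MeasureTheory Set Filter Topology
open scoped ComplexConjugate

namespace LZ

private theorem Z11_shift (f : ℝ → ℝ) (v : ℝ) :
    ∫ t in Ioi (0 : ℝ), f (t + v) = ∫ t in Ioi v, f t := by
  have h := (measurePreserving_add_right (volume : Measure ℝ) v).setIntegral_preimage_emb
    (measurableEmbedding_addRight v) f (Ioi v)
  have h2 : (fun x : ℝ => x + v) ⁻¹' (Ioi v) = Ioi 0 := by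
    ext x
    simp
  rw [h2] at h
  exact h

private theorem Z11_dom (T K : ℝ) (hT : 0 < T) (t h : ℝ) (ht : 0 ≤ t) (hh : 0 ≤ h) (hK : 0 ≤ K)
    (y v : ℝ) (hv0 : 0 ≤ v) (hv : v ≤ h) (hy : |y| ≤ K * (1 + (t + v))) :
    |y| * Real.exp (-t / T) ≤ K * (1 + h + 2 * T) * Real.exp (-(1 / (2 * T)) * t) := by
  have e1 : Real.exp (-t / T) = Real.exp (-(1 / (2 * T)) * t) * Real.exp (-(1 / (2 * T)) * t) := by
    rw [← Real.exp_add]
    congr 1
    field_simp
    ring
  have e2 : (1 + h + t) * Real.exp (-(1 / (2 * T)) * t) ≤ 1 + h + 2 * T := by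
    have h1 : Real.exp (-(1 / (2 * T)) * t) ≤ 1 := by
      apply Real.exp_le_one_iff.2
      have : 0 ≤ 1 / (2 * T) * t := by positivity
      linarith
    have h2 : t / (2 * T) ≤ Real.exp (t / (2 * T)) := by
      have := Real.add_one_le_exp (t / (2 * T))
      linarith
    have h3 : t / (2 * T) * Real.exp (-(1 / (2 * T)) * t) ≤ 1 := by
      calc _ ≤ Real.exp (t / (2 * T)) * Real.exp (-(1 / (2 * T)) * t) := by
            gcongr
        _ = 1 := by
            rw [← Real.exp_add]
            have : t / (2 * T) + -(1 / (2 * T)) * t = 0 := by ring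
            rw [this, Real.exp_zero]
    have h4 : t * Real.exp (-(1 / (2 * T)) * t) ≤ 2 * T := by
      have : t * Real.exp (-(1 / (2 * T)) * t) =
          2 * T * (t / (2 * T) * Real.exp (-(1 / (2 * T)) * t)) := by
        field_simp
      rw [this]
      nlinarith
    have h5 : (1 + h) * Real.exp (-(1 / (2 * T)) * t) ≤ 1 + h := by nlinarith
    nlinarith
  rw [e1]
  have hp := Real.exp_pos (-(1 / (2 * T)) * t)
  calc |y| * (Real.exp (-(1 / (2 * T)) * t) * Real.exp (-(1 / (2 * T)) * t))
      ≤ (K * (1 + h + t)) * (Real.exp (-(1 / (2 * T)) * t) * Real.exp (-(1 / (2 * T)) * t)) := by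
        refine mul_le_mul_of_nonneg_right (le_trans hy ?_) (by positivity)
        refine mul_le_mul_of_nonneg_left ?_ hK
        linarith
    _ = K * ((1 + h + t) * Real.exp (-(1 / (2 * T)) * t)) * Real.exp (-(1 / (2 * T)) * t) := by ring
    _ ≤ K * (1 + h + 2 * T) * Real.exp (-(1 / (2 * T)) * t) := by
        gcongr

private theorem Z11_expint (T : ℝ) (hT : 0 < T) :
    IntegrableOn (fun t : ℝ => Real.exp (-(1 / (2 * T)) * t)) (Ioi 0) :=
  exp_neg_integrableOn_Ioi 0 (by positivity)

/-- lower bound of the mean of the short averages of a nonnegative function -/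
private theorem Z11_mean (A : ℝ → ℝ) (hA : Continuous A) (hA0 : ∀ x, 0 ≤ A x) (T K h : ℝ)
    (hT : 0 < T) (hK : 0 ≤ K) (hh : 0 < h) (hh1 : h ≤ 1)
    (hb : ∀ x : ℝ, 0 ≤ x → A x ≤ K * (1 + x)) :
    h * (ER T A - T⁻¹ * (2 * K)) ≤ ER T (fun t => ∫ x in t..(t + h), A x) := by
  have hAi : IntegrableOn (fun t : ℝ => A t * Real.exp (-t / T)) (Ioi 0) := by
    refine Integrable.mono' ((Z11_expint T hT).const_mul (K * (1 + h + 2 * T))) ?_ ?_
    · exact (by fun_prop : Continuous (fun t : ℝ => A t * Real.exp (-t / T))).aestronglyMeasurable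
    · refine ae_restrict_of_forall_mem measurableSet_Ioi ?_
      intro t ht
      have ht' : (0 : ℝ) < t := ht
      rw [Real.norm_eq_abs, abs_mul, abs_of_pos (Real.exp_pos _)]
      refine Z11_dom T K hT t h ht'.le hh.le hK (A t) 0 le_rfl hh.le ?_
      rw [abs_of_nonneg (hA0 t), add_zero]
      exact hb t ht'.le
  -- the product function
  have hprod : Integrable (Function.uncurry (fun (t v : ℝ) => A (t + v) * Real.exp (-t / T)))
      ((volume.restrict (Ioi (0 : ℝ))).prod (volume.restrict (Ioc (0 : ℝ) h))) := by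
    have hone : Integrable (fun _ : ℝ => (1 : ℝ)) (volume.restrict (Ioc (0 : ℝ) h)) := by
      exact integrable_const _
    have hdom := ((Z11_expint T hT).const_mul (K * (1 + h + 2 * T))).mul_prod hone
    refine Integrable.mono' hdom ?_ ?_
    · exact (by unfold Function.uncurry; fun_prop : Continuous (Function.uncurry (fun (t v : ℝ) =>
        A (t + v) * Real.exp (-t / T)))).aestronglyMeasurable
    · rw [Measure.prod_restrict]
      refine ae_restrict_of_forall_mem (measurableSet_Ioi.prod measurableSet_Ioc) ?_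
      rintro ⟨t, v⟩ ⟨ht, hv⟩
      have ht' : (0 : ℝ) < t := ht
      have hv' : 0 < v ∧ v ≤ h := hv
      simp only [Function.uncurry]
      rw [Real.norm_eq_abs, abs_mul, abs_of_pos (Real.exp_pos _), mul_one]
      refine Z11_dom T K hT t h ht'.le hh.le hK (A (t + v)) v hv'.1.le hv'.2 ?_
      rw [abs_of_nonneg (hA0 _)]
      exact hb (t + v) (by linarith [hv'.1])
  have hswap := integral_integral_swap hprod
  have e1 : ER T (fun t => ∫ x in t..(t + h), A x) =
      T⁻¹ * ∫ t in Ioi (0 : ℝ), ∫ v in Ioc (0 : ℝ) h, A (t + v) * Real.exp (-t / T) := by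
    unfold ER
    congr 1
    refine integral_congr_ae (Filter.Eventually.of_forall ?_)
    intro t
    simp only
    rw [integral_mul_const]
    congr 1
    rw [← intervalIntegral.integral_of_le hh.le, intervalIntegral.integral_comp_add_left]
    simp
  rw [e1, hswap]
  have hKi : ∀ v ∈ Ioc (0 : ℝ) h, T * ER T A - 2 * K ≤
      ∫ t in Ioi (0 : ℝ), A (t + v) * Real.exp (-t / T) := by
    intro v hv
    have h1 : T * ER T A = ∫ t in Ioi (0 : ℝ), A t * Real.exp (-t / T) := by
      unfold ER
      rw [← mul_assoc, mul_inv_cancel₀ hT.ne', one_mul]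
    have h2 : ∫ t in Ioi (0 : ℝ), A (t + v) * Real.exp (-(t + v) / T) =
        ∫ t in Ioi v, A t * Real.exp (-t / T) :=
      Z11_shift (fun t => A t * Real.exp (-t / T)) v
    have hsub : Ioi v ⊆ Ioi (0 : ℝ) := Ioi_subset_Ioi hv.1.le
    have h3 : ∫ t in Ioi (0 : ℝ), A t * Real.exp (-t / T) =
        (∫ t in Ioc (0 : ℝ) v, A t * Real.exp (-t / T)) + ∫ t in Ioi v, A t * Real.exp (-t / T) := by
      rw [← setIntegral_union (Ioc_disjoint_Ioi le_rfl) measurableSet_Ioi
        (hAi.mono_set Ioc_subset_Ioi_self) (hAi.mono_set hsub), Ioc_union_Ioi_eq_Ioi hv.1.le]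
    have h4 : ∫ t in Ioc (0 : ℝ) v, A t * Real.exp (-t / T) ≤ 2 * K := by
      calc ∫ t in Ioc (0 : ℝ) v, A t * Real.exp (-t / T) ≤ ∫ t in Ioc (0 : ℝ) v, 2 * K := by
            refine setIntegral_mono_on (hAi.mono_set Ioc_subset_Ioi_self)
              (integrableOn_const (by simp)) measurableSet_Ioc ?_
            intro t ht
            have he : Real.exp (-t / T) ≤ 1 := by
              apply Real.exp_le_one_iff.2
              have : 0 ≤ t / T := div_nonneg ht.1.le hT.le
              rw [neg_div]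
              linarith
            have ht1 : t ≤ 1 := le_trans ht.2 (le_trans hv.2 hh1)
            calc A t * Real.exp (-t / T) ≤ (K * (1 + t)) * 1 := by
                  refine mul_le_mul (hb t ht.1.le) he (Real.exp_pos _).le ?_
                  exact mul_nonneg hK (by linarith [ht.1])
              _ ≤ 2 * K := by nlinarith
        _ = v * (2 * K) := by
            rw [setIntegral_const]
            simp [hv.1.le]
        _ ≤ 2 * K := by
            have : v ≤ 1 := le_trans hv.2 hh1
            nlinarith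
    -- integrability of the shifted functions
    have hi1 : IntegrableOn (fun t : ℝ => A (t + v) * Real.exp (-t / T)) (Ioi 0) := by
      refine Integrable.mono' ((Z11_expint T hT).const_mul (K * (1 + h + 2 * T))) ?_ ?_
      · exact (by fun_prop : Continuous (fun t : ℝ =>
          A (t + v) * Real.exp (-t / T))).aestronglyMeasurable
      · refine ae_restrict_of_forall_mem measurableSet_Ioi ?_
        intro t ht
        have ht' : (0 : ℝ) < t := ht
        rw [Real.norm_eq_abs, abs_mul, abs_of_pos (Real.exp_pos _)]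
        refine Z11_dom T K hT t h ht'.le hh.le hK (A (t + v)) v hv.1.le hv.2 ?_
        rw [abs_of_nonneg (hA0 _)]
        exact hb (t + v) (by linarith [hv.1])
    have hi2 : IntegrableOn (fun t : ℝ => A (t + v) * Real.exp (-(t + v) / T)) (Ioi 0) := by
      refine Integrable.mono' hi1 ?_ ?_
      · exact (by fun_prop : Continuous (fun t : ℝ =>
          A (t + v) * Real.exp (-(t + v) / T))).aestronglyMeasurable
      · refine Filter.Eventually.of_forall ?_
        intro t
        rw [Real.norm_eq_abs, abs_mul, abs_of_pos (Real.exp_pos _), abs_of_nonneg (hA0 _)]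
        refine mul_le_mul_of_nonneg_left ?_ (hA0 _)
        apply Real.exp_le_exp.2
        gcongr
        linarith [hv.1]
    have h5 : ∫ t in Ioi (0 : ℝ), A (t + v) * Real.exp (-(t + v) / T) ≤
        ∫ t in Ioi (0 : ℝ), A (t + v) * Real.exp (-t / T) := by
      refine setIntegral_mono hi2 hi1 ?_
      intro t
      refine mul_le_mul_of_nonneg_left ?_ (hA0 _)
      apply Real.exp_le_exp.2
      gcongr
      linarith [hv.1]
    linarith
  have hint : IntegrableOn (fun v : ℝ => ∫ t in Ioi (0 : ℝ), A (t + v) * Real.exp (-t / T))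
      (Ioc 0 h) := hprod.integral_prod_right
  have hfin : h * (T * ER T A - 2 * K) ≤
      ∫ v in Ioc (0 : ℝ) h, ∫ t in Ioi (0 : ℝ), A (t + v) * Real.exp (-t / T) := by
    calc h * (T * ER T A - 2 * K) = ∫ v in Ioc (0 : ℝ) h, (T * ER T A - 2 * K) := by
          rw [setIntegral_const]
          simp [hh.le]
      _ ≤ _ := by
          refine setIntegral_mono_on (integrableOn_const (by simp)) hint measurableSet_Ioc hKi
  calc h * (ER T A - T⁻¹ * (2 * K)) = T⁻¹ * (h * (T * ER T A - 2 * K)) := by
        field_simp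
    _ ≤ _ := by
        gcongr

/-- E[J] from below (5.4): J >= |int zeta phi^2|, Fubini, shift of the mean as in ER_shift (complex version), phi_first. -/
theorem J_low : ∀ Λ : ℝ, 1 ≤ Λ → ∃ T0 : ℝ, 2 ≤ T0 ∧ ∀ T : ℝ, T0 ≤ T →
    1/2 * (Λ / Real.log T) ≤ ER T (fun t => ∫ x in t..(t + Λ / Real.log T), |GG (Real.log T / 1500) x|) := by
  intro Λ hΛ
  obtain ⟨hcont, habs, -, C, hC, hgrow⟩ := GG_facts
  obtain ⟨T1, hT1, hfirst⟩ := phi_first (1 / 4) (by norm_num)
  refine ⟨max T1 (max (Real.exp Λ) (max 2 ((8 * C) ^ 2))), ?_, ?_⟩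
  · exact le_trans hT1 (le_max_left _ _)
  intro T hT
  have hTa : T1 ≤ T := le_trans (le_max_left _ _) hT
  have hTb : Real.exp Λ ≤ T := le_trans (le_max_left _ _) (le_trans (le_max_right _ _) hT)
  have hTc : 2 ≤ T := le_trans (le_max_left _ _)
    (le_trans (le_max_right _ _) (le_trans (le_max_right _ _) hT))
  have hTd : (8 * C) ^ 2 ≤ T := le_trans (le_max_right _ _)
    (le_trans (le_max_right _ _) (le_trans (le_max_right _ _) hT))
  have hT0 : 0 < T := by linarith
  have hL : Λ ≤ Real.log T := by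
    rw [Real.le_log_iff_exp_le hT0]
    exact hTb
  have hL0 : 0 < Real.log T := by linarith
  set l : ℝ := Real.log T / 1500 with hl
  have hl0 : 0 < l := by positivity
  have hf := hfirst T hTa l hl0 (by rw [hl]; linarith)
  set h : ℝ := Λ / Real.log T with hh
  have hh0 : 0 < h := by positivity
  have hh1 : h ≤ 1 := by
    rw [hh, div_le_one hL0]
    exact hL
  have hmain := Z11_mean (fun x => |GG l x|) (hcont l).abs (fun x => abs_nonneg _) T
    (C * Real.exp (2 * l)) h hT0 (by positivity) hh0 hh1 (fun x hx => hgrow l x hl0 hx)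
  refine le_trans ?_ hmain
  -- first moment
  have hE : 3 / 4 ≤ ER T (fun x => |GG l x|) := by
    have h1 : ‖EE T (fun t => riemannZeta (1/2 + t * I) * Mol (1/2) l (1/2 + t * I) ^ 2)‖ ≤
        ER T (fun x => |GG l x|) := by
      unfold EE ER
      rw [norm_mul, norm_inv, Complex.norm_real, Real.norm_eq_abs, abs_of_pos hT0]
      gcongr
      refine le_trans (norm_integral_le_integral_norm _) (le_of_eq ?_)
      refine integral_congr_ae (Filter.Eventually.of_forall ?_)
      intro t
      simp only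
      rw [norm_mul, Complex.norm_real, Real.norm_eq_abs, abs_of_pos (Real.exp_pos _), habs]
    have h2 : ‖(1 : ℂ)‖ ≤ ‖EE T (fun t => riemannZeta (1/2 + t * I) * Mol (1/2) l (1/2 + t * I) ^ 2)‖ +
        ‖EE T (fun t => riemannZeta (1/2 + t * I) * Mol (1/2) l (1/2 + t * I) ^ 2) - 1‖ := by
      have := norm_sub_le (EE T (fun t => riemannZeta (1/2 + t * I) * Mol (1/2) l (1/2 + t * I) ^ 2))
        (EE T (fun t => riemannZeta (1/2 + t * I) * Mol (1/2) l (1/2 + t * I) ^ 2) - 1)
      simpa using this
    rw [norm_one] at h2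
    linarith
  have hs : T⁻¹ * (2 * (C * Real.exp (2 * l))) ≤ 1 / 4 := by
    have e1 : Real.exp (2 * l) ≤ Real.sqrt T := by
      rw [Real.sqrt_eq_rpow, Real.rpow_def_of_pos hT0]
      apply Real.exp_le_exp.2
      rw [hl]
      linarith
    have e2 : 8 * C ≤ Real.sqrt T := Real.le_sqrt_of_sq_le hTd
    have e3 : Real.sqrt T * Real.sqrt T = T := Real.mul_self_sqrt hT0.le
    rw [inv_mul_le_iff₀ hT0]
    have e4 : 0 ≤ Real.sqrt T := Real.sqrt_nonneg _
    have e5 : 2 * (C * Real.exp (2 * l)) ≤ 2 * (C * Real.sqrt T) := by gcongr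
    nlinarith
  have : 1 / 2 * h ≤ h * (3 / 4 - 1 / 4) := by
    linarith
  refine le_trans this ?_
  gcongr

end LZ

end F_Z11
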