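import Pool.Agent.Lib.MP_0f5a55_nt.V.V02
import Pool.Agent.Lib.MP_0f5a55_nt.V.V74
import Pool.Agent.Lib.MP_0f5a55_nt.V.V76
import Pool.Agent.Lib.MP_0f5a55_nt.V.V80

section F_Z09

open Complex MeasureTheory Set Filter Topology
open scoped ComplexConjugate

namespace LZ

/-- Fubini for the second moment of the short integral -/
private theorem Z09_fubini {T : ℝ} (hT : 0 < T) {G : ℝ → ℝ} (hG : Continuous G) {K : ℝ}
    (hb : ∀ t : ℝ, 0 ≤ t → |G t| ≤ K * (1 + t)) {h : ℝ} (hh : 0 ≤ h) {Φ : ℝ × ℝ → ℝ}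
    (hΦi : Integrable Φ ((volume.restrict (Ioc 0 h)).prod (volume.restrict (Ioc 0 h))))
    (hΦ : ∀ a ∈ Ioc 0 h, ∀ b ∈ Ioc 0 h, |ER T (fun t => G (t + a) * G (t + b))| ≤ Φ (a, b)) :
    ER T (fun t => (∫ x in t..(t + h), G x) ^ 2) ≤
      ∫ z, Φ z ∂((volume.restrict (Ioc 0 h)).prod (volume.restrict (Ioc 0 h))) := by
  set μ : Measure ℝ := volume.restrict (Ioc 0 h) with hμ
  have hK : 0 ≤ K := by
    have h3 := hb 0 le_rfl
    have h2 := abs_nonneg (G 0)
    rw [add_zero, mul_one] at h3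
    exact h2.trans h3
  have h1 : ∀ t : ℝ, (∫ x in t..(t + h), G x) ^ 2 = ∫ z, G (t + z.1) * G (t + z.2) ∂(μ.prod μ) := by
    intro t
    rw [integral_prod_mul (fun a => G (t + a)) (fun a => G (t + a)), ← sq]
    congr 1
    rw [hμ, ← intervalIntegral.integral_of_le hh, intervalIntegral.integral_comp_add_left, add_zero]
  have hint : Integrable (fun p : ℝ × (ℝ × ℝ) => G (p.1 + p.2.1) * G (p.1 + p.2.2) * Real.exp (-p.1 / T))
      ((volume.restrict (Ioi (0:ℝ))).prod (μ.prod μ)) := by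
    have hg : Integrable (fun t : ℝ => (K * (1 + h) * (1 + 4 * T)) ^ 2 * Real.exp (-(1 / (2 * T)) * t))
        (volume.restrict (Ioi (0:ℝ))) :=
      (exp_neg_integrableOn_Ioi 0 (by positivity)).const_mul _
    have hg2 := hg.comp_fst (μ.prod μ)
    refine Integrable.mono' hg2 (Continuous.aestronglyMeasurable (by fun_prop)) ?_
    have hae : ∀ᵐ p : ℝ × (ℝ × ℝ) ∂((volume.restrict (Ioi (0:ℝ))).prod (μ.prod μ)),
        0 < p.1 ∧ p.2.1 ∈ Ioc 0 h ∧ p.2.2 ∈ Ioc 0 h := by
      rw [hμ, Measure.prod_restrict, Measure.prod_restrict]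
      refine (ae_restrict_mem (by measurability)).mono (fun p hp => ?_)
      exact ⟨hp.1, hp.2.1, hp.2.2⟩
    refine hae.mono (fun p hp => ?_)
    obtain ⟨hp1, hp2, hp3⟩ := hp
    have q1 : ∀ c ∈ Ioc 0 h, |G (p.1 + c)| ≤ K * (1 + h) * (1 + p.1) := by
      intro c hc
      refine (hb _ (by linarith [hc.1])).trans ?_
      have : 1 + (p.1 + c) ≤ (1 + h) * (1 + p.1) := by
        have w1 : (1 + h) * (1 + p.1) = 1 + p.1 + h + h * p.1 := by ring
        have w2 := mul_nonneg hh hp1.le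
        rw [w1]
        linarith only [hc.2, w2]
      calc K * (1 + (p.1 + c)) ≤ K * ((1 + h) * (1 + p.1)) := by gcongr
        _ = _ := by ring
    have e1 : Real.exp (-p.1 / T) = Real.exp (-(1 / (2 * T)) * p.1) * (Real.exp (-(1 / (4 * T)) * p.1)) ^ 2 := by
      rw [← Real.exp_nat_mul, ← Real.exp_add]
      congr 1
      push_cast
      field_simp
      ring
    have e2 : (1 + p.1) * Real.exp (-(1 / (4 * T)) * p.1) ≤ 1 + 4 * T := by
      have h3 : 1 / (4 * T) * p.1 ≤ Real.exp (1 / (4 * T) * p.1) := by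
        have := Real.add_one_le_exp (1 / (4 * T) * p.1)
        linarith
      have h4 : Real.exp (-(1 / (4 * T)) * p.1) * Real.exp (1 / (4 * T) * p.1) = 1 := by
        rw [← Real.exp_add]
        simp
      have h5 : Real.exp (-(1 / (4 * T)) * p.1) ≤ 1 := by
        rw [Real.exp_le_one_iff]
        have : 0 ≤ 1 / (4 * T) * p.1 := by positivity
        linarith
      have h6 : p.1 = 4 * T * (1 / (4 * T) * p.1) := by field_simp
      have h7 : p.1 * Real.exp (-(1 / (4 * T)) * p.1) ≤ 4 * T := by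
        calc p.1 * Real.exp (-(1 / (4 * T)) * p.1) = 4 * T * (1 / (4 * T) * p.1) * Real.exp (-(1 / (4 * T)) * p.1) := by
              rw [← h6]
          _ ≤ 4 * T * Real.exp (1 / (4 * T) * p.1) * Real.exp (-(1 / (4 * T)) * p.1) := by gcongr
          _ = 4 * T * (Real.exp (-(1 / (4 * T)) * p.1) * Real.exp (1 / (4 * T) * p.1)) := by ring
          _ = 4 * T := by rw [h4, mul_one]
      linarith
    have e3 : 0 ≤ (1 + p.1) * Real.exp (-(1 / (4 * T)) * p.1) := by positivity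
    rw [norm_mul, norm_mul, Real.norm_eq_abs, Real.norm_eq_abs, Real.norm_eq_abs,
      abs_of_pos (Real.exp_pos (-p.1 / T)), e1]
    have hKh : 0 ≤ K * (1 + h) := by positivity
    calc |G (p.1 + p.2.1)| * |G (p.1 + p.2.2)| *
          (Real.exp (-(1 / (2 * T)) * p.1) * (Real.exp (-(1 / (4 * T)) * p.1)) ^ 2) ≤
        (K * (1 + h) * (1 + p.1)) * (K * (1 + h) * (1 + p.1)) *
          (Real.exp (-(1 / (2 * T)) * p.1) * (Real.exp (-(1 / (4 * T)) * p.1)) ^ 2) := by
          refine mul_le_mul_of_nonneg_right ?_ (by positivity)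
          exact mul_le_mul (q1 _ hp2) (q1 _ hp3) (abs_nonneg _) (by positivity)
      _ = (K * (1 + h) * ((1 + p.1) * Real.exp (-(1 / (4 * T)) * p.1))) ^ 2 * Real.exp (-(1 / (2 * T)) * p.1) := by
          ring
      _ ≤ (K * (1 + h) * (1 + 4 * T)) ^ 2 * Real.exp (-(1 / (2 * T)) * p.1) := by
          gcongr
  have h2 : ER T (fun t => (∫ x in t..(t + h), G x) ^ 2) =
      ∫ z, ER T (fun t => G (t + z.1) * G (t + z.2)) ∂(μ.prod μ) := by
    unfold ER
    rw [integral_const_mul]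
    congr 1
    have h3 : ∀ t : ℝ, (∫ x in t..(t + h), G x) ^ 2 * Real.exp (-t / T) =
        ∫ z, G (t + z.1) * G (t + z.2) * Real.exp (-t / T) ∂(μ.prod μ) := by
      intro t
      rw [h1 t, integral_mul_const]
    simp_rw [h3]
    exact integral_integral_swap hint
  rw [h2]
  refine (le_abs_self _).trans ?_
  rw [← Real.norm_eq_abs]
  refine norm_integral_le_of_norm_le hΦi ?_
  have hae : ∀ᵐ p : ℝ × ℝ ∂(μ.prod μ), p.1 ∈ Ioc 0 h ∧ p.2 ∈ Ioc 0 h := by
    rw [hμ, Measure.prod_restrict]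
    refine (ae_restrict_mem (by measurability)).mono (fun p hp => ?_)
    exact ⟨hp.1, hp.2⟩
  exact hae.mono (fun p hp => by
    rw [Real.norm_eq_abs]
    exact hΦ p.1 hp.1 p.2 hp.2)

private theorem Z09_one {L c : ℝ} (hL : 0 < L) (hc : 0 ≤ c) :
    ∫ x in (0:ℝ)..c, 1 / Real.sqrt (1 + x * L) ≤ 2 / L * Real.sqrt (c * L) := by
  have hd : ∀ x ∈ uIcc (0:ℝ) c, HasDerivAt (fun x => 2 / L * Real.sqrt (1 + x * L)) (1 / Real.sqrt (1 + x * L)) x := by
    intro x hx
    rw [uIcc_of_le hc] at hx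
    have hp : 0 < 1 + x * L := by
      have := mul_nonneg hx.1 hL.le
      linarith
    have h1 : HasDerivAt (fun x : ℝ => 1 + x * L) L x := by
      simpa using ((hasDerivAt_id x).mul_const L).const_add 1
    have h2 := (h1.sqrt hp.ne').const_mul (2 / L)
    refine h2.congr_deriv ?_
    have h3 : Real.sqrt (1 + x * L) ≠ 0 := (Real.sqrt_pos.mpr hp).ne'
    field_simp
  have hcont : ContinuousOn (fun x : ℝ => 1 / Real.sqrt (1 + x * L)) (uIcc 0 c) := by
    rw [uIcc_of_le hc]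
    intro x hx
    have hp : 0 < 1 + x * L := by
      have := mul_nonneg hx.1 hL.le
      linarith
    refine ContinuousAt.continuousWithinAt ?_
    refine ContinuousAt.div continuousAt_const (by fun_prop) (Real.sqrt_pos.mpr hp).ne'
  rw [intervalIntegral.integral_eq_sub_of_hasDerivAt hd hcont.intervalIntegrable]
  have h4 : Real.sqrt (1 + c * L) ≤ 1 + Real.sqrt (c * L) := by
    have hcl : 0 ≤ c * L := mul_nonneg hc hL.le
    rw [Real.sqrt_le_left (by positivity), add_sq, Real.sq_sqrt hcl]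
    linarith only [Real.sqrt_nonneg (c * L)]
  have h5 : Real.sqrt (1 + 0 * L) = 1 := by simp
  rw [h5]
  have h6 : 0 < 2 / L := by positivity
  have h7 := mul_le_mul_of_nonneg_left h4 h6.le
  rw [mul_add] at h7
  linarith only [h7]

private theorem Z09_inner {L h a : ℝ} (hL : 0 < L) (ha : 0 ≤ a) (hah : a ≤ h) :
    ∫ b in Ioc 0 h, 1 / Real.sqrt (1 + |b - a| * L) ≤ 4 / L * Real.sqrt (h * L) := by
  have hh : 0 ≤ h := ha.trans hah
  have hcont : Continuous (fun b : ℝ => 1 / Real.sqrt (1 + |b - a| * L)) := by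
    refine Continuous.div continuous_const (by fun_prop) (fun b => ?_)
    have : 0 < 1 + |b - a| * L := by positivity
    exact (Real.sqrt_pos.mpr this).ne'
  rw [← intervalIntegral.integral_of_le hh,
    ← intervalIntegral.integral_add_adjacent_intervals (hcont.intervalIntegrable 0 a) (hcont.intervalIntegrable a h)]
  have e1 : ∫ b in (0:ℝ)..a, 1 / Real.sqrt (1 + |b - a| * L) = ∫ x in (0:ℝ)..a, 1 / Real.sqrt (1 + x * L) := by
    have h1 : ∫ b in (0:ℝ)..a, 1 / Real.sqrt (1 + |b - a| * L) =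
        ∫ b in (0:ℝ)..a, 1 / Real.sqrt (1 + (a - b) * L) := by
      refine intervalIntegral.integral_congr (fun b hb => ?_)
      rw [uIcc_of_le ha] at hb
      rw [abs_of_nonpos (by linarith [hb.2]), neg_sub]
    rw [h1, intervalIntegral.integral_comp_sub_left (fun x => 1 / Real.sqrt (1 + x * L)) a, sub_self, sub_zero]
  have e2 : ∫ b in a..h, 1 / Real.sqrt (1 + |b - a| * L) = ∫ x in (0:ℝ)..(h - a), 1 / Real.sqrt (1 + x * L) := by
    have h1 : ∫ b in a..h, 1 / Real.sqrt (1 + |b - a| * L) =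
        ∫ b in a..h, 1 / Real.sqrt (1 + (b - a) * L) := by
      refine intervalIntegral.integral_congr (fun b hb => ?_)
      rw [uIcc_of_le hah] at hb
      rw [abs_of_nonneg (by linarith [hb.1])]
    rw [h1, intervalIntegral.integral_comp_sub_right (fun x => 1 / Real.sqrt (1 + x * L)) a, sub_self]
  rw [e1, e2]
  have b1 := Z09_one hL ha
  have b2 := Z09_one hL (sub_nonneg.mpr hah)
  have s1 : Real.sqrt (a * L) ≤ Real.sqrt (h * L) := Real.sqrt_le_sqrt (by gcongr)
  have s2 : Real.sqrt ((h - a) * L) ≤ Real.sqrt (h * L) := Real.sqrt_le_sqrt (by gcongr; linarith)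
  have h6 : 0 < 2 / L := by positivity
  calc _ ≤ 2 / L * Real.sqrt (a * L) + 2 / L * Real.sqrt ((h - a) * L) := add_le_add b1 b2
    _ ≤ 2 / L * Real.sqrt (h * L) + 2 / L * Real.sqrt (h * L) := by gcongr
    _ = _ := by ring

/-- E[I^2] (5.4): Fubini, ER_shift, G_corr; int_0^h int_0^h (1+|b-a|L)^(-1/2) <= 4 h^2/sqrt(Lambda). -/
theorem I_sq : ∃ C : ℝ, 0 < C ∧ ∀ Λ : ℝ, 1 ≤ Λ → ∃ T0 : ℝ, 2 ≤ T0 ∧ ∀ T : ℝ, T0 ≤ T →
    ER T (fun t => (∫ x in t..(t + Λ / Real.log T), GG (Real.log T / 1500) x) ^ 2) ≤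
      C / Real.sqrt Λ * (Λ / Real.log T) ^ 2 := by
  obtain ⟨C, hC, hcorr⟩ := G_corr
  obtain ⟨hGc, -, -, Cg, hCg, hgrow⟩ := GG_facts
  refine ⟨12 * C + 6, by positivity, ?_⟩
  intro Λ hΛ
  obtain ⟨T1, hT1, hc⟩ := hcorr Λ hΛ
  refine ⟨max T1 (Real.exp (18 * Cg ^ 2 * Λ + Λ + 1)), le_max_of_le_left hT1, ?_⟩
  intro T hT
  have hT1' : T1 ≤ T := (le_max_left _ _).trans hT
  have hT2 : Real.exp (18 * Cg ^ 2 * Λ + Λ + 1) ≤ T := (le_max_right _ _).trans hT
  have hT0 : 0 < T := by linarith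
  set L : ℝ := Real.log T with hL
  have hLb : 18 * Cg ^ 2 * Λ + Λ + 1 ≤ L := by
    rw [hL, Real.le_log_iff_exp_le hT0]
    exact hT2
  have hCgΛ : 0 ≤ 18 * Cg ^ 2 * Λ := by positivity
  have hLΛ : Λ ≤ L := by linarith
  have hL1 : 1 ≤ L := by linarith
  have hL0 : 0 < L := by linarith
  have hTe : T = Real.exp L := by rw [hL, Real.exp_log hT0]
  set h : ℝ := Λ / L with hh
  have hh0 : 0 < h := by positivity
  have hh1 : h ≤ 1 := by rw [hh, div_le_one hL0]; exact hLΛ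
  have hhL : h * L = Λ := by rw [hh]; field_simp
  set G : ℝ → ℝ := GG (L / 1500) with hG
  have hGcont : Continuous G := hGc _
  set K : ℝ := Cg * Real.exp (2 * (L / 1500)) with hK
  have hK0 : 0 < K := by positivity
  have hGb : ∀ t : ℝ, 0 ≤ t → |G t| ≤ K * (1 + t) := fun t ht => hgrow (L / 1500) t (by positivity) ht
  -- the error term
  have herr : 9 * K ^ 2 / T ≤ 1 / Λ := by
    have h1 : Λ * (9 * Cg ^ 2) ≤ Real.exp (L / 2) := by
      have w1 := Real.add_one_le_exp (L / 2)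
      have w2 : Λ * (9 * Cg ^ 2) = (18 * Cg ^ 2 * Λ) / 2 := by ring
      rw [w2]
      linarith only [w1, hLb, hΛ]
    have h2 : K ^ 2 = Cg ^ 2 * Real.exp (4 * (L / 1500)) := by
      rw [hK, mul_pow, ← Real.exp_nat_mul]
      congr 2
      push_cast
      ring
    rw [div_le_div_iff₀ hT0 (by positivity), one_mul, h2]
    calc 9 * (Cg ^ 2 * Real.exp (4 * (L / 1500))) * Λ = Λ * (9 * Cg ^ 2) * Real.exp (4 * (L / 1500)) := by ring
      _ ≤ Real.exp (L / 2) * Real.exp (L / 2) := by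
        refine mul_le_mul h1 ?_ (Real.exp_pos _).le (Real.exp_pos _).le
        exact Real.exp_le_exp.mpr (by linarith)
      _ = T := by
        rw [← Real.exp_add, hTe]
        congr 1
        ring
  -- one ordered pair
  have hpair : ∀ a b : ℝ, 0 ≤ a → a ≤ b → b ≤ h → |ER T (fun t => G (t + a) * G (t + b))| ≤
      3 * (C * (1 / Real.sqrt (1 + (b - a) * L)) + 2 / Λ) := by
    intro a b ha hab hbh
    set v : ℝ := b - a with hv
    have hv0 : 0 ≤ v := by linarith
    have hvh : v ≤ h := by linarith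
    have hf : Continuous (fun t : ℝ => G t * G (t + v)) := by fun_prop
    have hfb : ∀ t : ℝ, 0 ≤ t → |G t * G (t + v)| ≤ (K ^ 2 * 2) * (1 + t) ^ 2 := by
      intro t ht
      rw [abs_mul]
      have h1 := hGb t ht
      have h2 := hGb (t + v) (by linarith)
      have h3 : K * (1 + (t + v)) ≤ K * (2 * (1 + t)) := by
        refine mul_le_mul_of_nonneg_left ?_ hK0.le
        linarith
      calc |G t| * |G (t + v)| ≤ (K * (1 + t)) * (K * (2 * (1 + t))) :=
            mul_le_mul h1 (h2.trans h3) (abs_nonneg _) (by positivity)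
        _ = _ := by ring
    have hs := ER_shift hT0 hf hfb ha
    have e1 : (fun t => G (t + a) * G (t + a + v)) = fun t => G (t + a) * G (t + b) := by
      funext t
      congr 2
      rw [hv]
      ring
    rw [e1] at hs
    rw [hs, abs_mul, abs_of_pos (Real.exp_pos _)]
    have hT1'' : 1 ≤ T := by linarith
    have h3 : Real.exp (a / T) ≤ 3 := by
      have h4 : a / T ≤ 1 := by
        rw [div_le_one hT0]
        linarith
      exact ((Real.exp_le_exp.mpr h4).trans Real.exp_one_lt_d9.le).trans (by norm_num)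
    have h5 : |ER T (fun t => G t * G (t + v))| ≤ C / Real.sqrt (1 + v * L) + 1 / Λ := hc T hT1' v hv0 (by
      rw [← hL, ← hh]; exact hvh)
    have h6 : |T⁻¹ * ∫ t in (0:ℝ)..a, G t * G (t + v) * Real.exp (-t / T)| ≤ 1 / Λ := by
      have h7 : ‖∫ t in (0:ℝ)..a, G t * G (t + v) * Real.exp (-t / T)‖ ≤ (9 * K ^ 2) * |a - 0| := by
        refine intervalIntegral.norm_integral_le_of_norm_le_const (fun t ht => ?_)
        rw [uIoc_of_le ha] at ht
        have ht0 : 0 ≤ t := ht.1.le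
        have ht1 : t ≤ 1 := by linarith [ht.2]
        rw [norm_mul, Real.norm_eq_abs, Real.norm_eq_abs, abs_of_pos (Real.exp_pos _)]
        have h8 : Real.exp (-t / T) ≤ 1 := by
          rw [Real.exp_le_one_iff]
          exact div_nonpos_of_nonpos_of_nonneg (by linarith) hT0.le
        have h9 := hfb t ht0
        calc |G t * G (t + v)| * Real.exp (-t / T) ≤ (K ^ 2 * 2) * (1 + t) ^ 2 * 1 :=
              mul_le_mul h9 h8 (Real.exp_pos _).le (by positivity)
          _ ≤ 9 * K ^ 2 := by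
              have w1 : (1 + t) ^ 2 ≤ 2 ^ 2 := pow_le_pow_left₀ (by linarith only [ht0]) (by linarith only [ht1]) 2
              have w2 : (K ^ 2 * 2) * (1 + t) ^ 2 ≤ (K ^ 2 * 2) * 2 ^ 2 :=
                mul_le_mul_of_nonneg_left w1 (mul_nonneg (sq_nonneg K) zero_le_two)
              have w3 := sq_nonneg K
              linarith only [w2, w3]
      rw [Real.norm_eq_abs, sub_zero, abs_of_nonneg ha] at h7
      rw [abs_mul, abs_of_pos (inv_pos.mpr hT0)]
      calc T⁻¹ * |∫ t in (0:ℝ)..a, G t * G (t + v) * Real.exp (-t / T)| ≤ T⁻¹ * (9 * K ^ 2 * a) := by gcongr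
        _ ≤ T⁻¹ * (9 * K ^ 2 * 1) := by
          have : a ≤ 1 := by linarith
          gcongr
        _ = 9 * K ^ 2 / T := by ring
        _ ≤ 1 / Λ := herr
    have h10 : |ER T (fun t => G t * G (t + v)) - T⁻¹ * ∫ t in (0:ℝ)..a, G t * G (t + v) * Real.exp (-t / T)| ≤
        C * (1 / Real.sqrt (1 + v * L)) + 2 / Λ := by
      refine (abs_sub _ _).trans ?_
      have e9 : C * (1 / Real.sqrt (1 + v * L)) + 2 / Λ = (C / Real.sqrt (1 + v * L) + 1 / Λ) + 1 / Λ := by ring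
      rw [e9]
      exact add_le_add h5 h6
    exact mul_le_mul h3 h10 (abs_nonneg _) (by norm_num)
  set Φ : ℝ × ℝ → ℝ := fun z => 3 * (C * (1 / Real.sqrt (1 + |z.2 - z.1| * L)) + 2 / Λ) with hΦ
  have hΦc : Continuous Φ := by
    have h1 : Continuous (fun z : ℝ × ℝ => 1 / Real.sqrt (1 + |z.2 - z.1| * L)) := by
      refine Continuous.div continuous_const (by fun_prop) (fun z => ?_)
      have : 0 < 1 + |z.2 - z.1| * L := by positivity
      exact (Real.sqrt_pos.mpr this).ne'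
    exact ((h1.const_mul C).add continuous_const).const_mul 3
  have hΦp : ∀ z, 0 ≤ Φ z := fun z => by
    rw [hΦ]; positivity
  have hΦb : ∀ z, Φ z ≤ 3 * (C * 1 + 2 / Λ) := by
    intro z
    rw [hΦ]
    simp only
    have h1 : 1 ≤ Real.sqrt (1 + |z.2 - z.1| * L) := by
      rw [Real.one_le_sqrt]
      have : 0 ≤ |z.2 - z.1| * L := by positivity
      linarith
    have h2 : 1 / Real.sqrt (1 + |z.2 - z.1| * L) ≤ 1 := by
      rw [div_le_one (by linarith)]
      exact h1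
    gcongr
  have hΦi : Integrable Φ ((volume.restrict (Ioc 0 h)).prod (volume.restrict (Ioc 0 h))) := by
    refine Integrable.of_bound hΦc.aestronglyMeasurable (3 * (C * 1 + 2 / Λ)) (Eventually.of_forall (fun z => ?_))
    rw [Real.norm_eq_abs, abs_of_nonneg (hΦp z)]
    exact hΦb z
  have hΦpair : ∀ a ∈ Ioc 0 h, ∀ b ∈ Ioc 0 h, |ER T (fun t => G (t + a) * G (t + b))| ≤ Φ (a, b) := by
    intro a ha b hb
    rcases le_total a b with hab | hab
    · have := hpair a b ha.1.le hab hb.2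
      rw [hΦ]
      simp only
      rw [abs_of_nonneg (by linarith : 0 ≤ b - a)]
      exact this
    · have := hpair b a hb.1.le hab ha.2
      have e : (fun t => G (t + a) * G (t + b)) = fun t => G (t + b) * G (t + a) := by
        funext t; ring
      rw [e, hΦ]
      simp only
      rw [abs_of_nonpos (by linarith : b - a ≤ 0), neg_sub]
      exact this
  refine (Z09_fubini hT0 hGcont hGb hh0.le hΦi hΦpair).trans ?_
  rw [integral_prod _ hΦi]
  have hin : ∀ a ∈ Ioc 0 h, ∫ b in Ioc 0 h, Φ (a, b) ≤ (12 * C + 6) / Real.sqrt Λ * h := by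
    intro a ha
    rw [hΦ]
    simp only
    have hi1 : IntegrableOn (fun b : ℝ => 1 / Real.sqrt (1 + |b - a| * L)) (Ioc 0 h) := by
      have hcont : Continuous (fun b : ℝ => 1 / Real.sqrt (1 + |b - a| * L)) := by
        refine Continuous.div continuous_const (by fun_prop) (fun b => ?_)
        have : 0 < 1 + |b - a| * L := by positivity
        exact (Real.sqrt_pos.mpr this).ne'
      exact (hcont.integrableOn_Icc).mono_set Ioc_subset_Icc_self
    rw [integral_const_mul, integral_add (hi1.const_mul C) (integrable_const _), integral_const_mul]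
    have h1 := Z09_inner hL0 ha.1.le ha.2
    have h2 : ∫ b in Ioc 0 h, (2 / Λ : ℝ) = h * (2 / Λ) := by
      rw [setIntegral_const, Real.volume_real_Ioc_of_le hh0.le, sub_zero, smul_eq_mul]
    rw [h2]
    rw [hhL] at h1
    have hΛ0 : 0 < Λ := by linarith
    have hs0 : 0 < Real.sqrt Λ := Real.sqrt_pos.mpr hΛ0
    have hs2 : Real.sqrt Λ * Real.sqrt Λ = Λ := Real.mul_self_sqrt hΛ0.le
    have e3 : 4 / L * Real.sqrt Λ = 4 * h / Real.sqrt Λ := by
      rw [hh, eq_div_iff hs0.ne', mul_assoc, hs2]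
      ring
    have e4 : h * (2 / Λ) ≤ 2 * h / Real.sqrt Λ := by
      have h5 : 1 / Λ ≤ 1 / Real.sqrt Λ := by
        refine one_div_le_one_div_of_le hs0 ?_
        have w1 : 1 ≤ Real.sqrt Λ := Real.one_le_sqrt.mpr hΛ
        have w2 := mul_le_mul_of_nonneg_left w1 hs0.le
        rw [mul_one, hs2] at w2
        exact w2
      calc h * (2 / Λ) = 2 * h * (1 / Λ) := by ring
        _ ≤ 2 * h * (1 / Real.sqrt Λ) := by gcongr
        _ = _ := by ring
    rw [e3] at h1
    calc 3 * (C * (∫ b in Ioc 0 h, 1 / Real.sqrt (1 + |b - a| * L)) + h * (2 / Λ)) ≤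
        3 * (C * (4 * h / Real.sqrt Λ) + 2 * h / Real.sqrt Λ) := by gcongr
      _ = _ := by ring
  calc ∫ a in Ioc 0 h, ∫ b in Ioc 0 h, Φ (a, b) ≤ ∫ a in Ioc 0 h, (12 * C + 6) / Real.sqrt Λ * h := by
        refine setIntegral_mono_on hΦi.integral_prod_left (integrable_const _) measurableSet_Ioc hin
    _ = (12 * C + 6) / Real.sqrt Λ * h ^ 2 := by
        rw [setIntegral_const, Real.volume_real_Ioc_of_le hh0.le, sub_zero, smul_eq_mul]
        ring

end LZ

end F_Z09

section F_Z12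

open Complex MeasureTheory Set Filter Topology
open scoped ComplexConjugate

namespace LZ


private theorem Z12_poly {T : ℝ} (hT : 0 < T) {t : ℝ} (ht : 0 ≤ t) :
    (1 + t) ^ 2 * Real.exp (-t / T) ≤
      16 * T ^ 2 * Real.exp (1 / (2 * T)) * Real.exp (-(1 / (2 * T)) * t) := by
  have h1 : (1 + t) / (4 * T) ≤ Real.exp ((1 + t) / (4 * T)) := by
    have := Real.add_one_le_exp ((1 + t) / (4 * T))
    linarith
  have h2 : 1 + t ≤ 4 * T * Real.exp ((1 + t) / (4 * T)) := by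
    have h3 : 1 + t = 4 * T * ((1 + t) / (4 * T)) := by
      field_simp
    calc 1 + t = 4 * T * ((1 + t) / (4 * T)) := h3
      _ ≤ _ := mul_le_mul_of_nonneg_left h1 (by positivity)
  have h4 : (1 + t) ^ 2 ≤ (4 * T * Real.exp ((1 + t) / (4 * T))) ^ 2 :=
    pow_le_pow_left₀ (by linarith) h2 2
  have h5 : (4 * T * Real.exp ((1 + t) / (4 * T))) ^ 2 =
      16 * T ^ 2 * Real.exp ((1 + t) / (2 * T)) := by
    rw [mul_pow, ← Real.exp_nat_mul]
    have : ((2 : ℕ) : ℝ) * ((1 + t) / (4 * T)) = (1 + t) / (2 * T) := by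
      push_cast
      field_simp
      ring
    rw [this]
    ring
  rw [h5] at h4
  calc (1 + t) ^ 2 * Real.exp (-t / T) ≤ 16 * T ^ 2 * Real.exp ((1 + t) / (2 * T)) *
        Real.exp (-t / T) := mul_le_mul_of_nonneg_right h4 (Real.exp_pos _).le
    _ = 16 * T ^ 2 * (Real.exp ((1 + t) / (2 * T)) * Real.exp (-t / T)) := by ring
    _ = 16 * T ^ 2 * (Real.exp (1 / (2 * T)) * Real.exp (-(1 / (2 * T)) * t)) := by
        rw [← Real.exp_add, ← Real.exp_add]
        congr 2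
        field_simp
        ring
    _ = _ := by ring

private theorem Z12_int {T : ℝ} (hT : 0 < T) {f : ℝ → ℝ} (hf : AEStronglyMeasurable f
    (volume.restrict (Ioi 0))) {M : ℝ} (hM : 0 ≤ M)
    (hb : ∀ t : ℝ, 0 ≤ t → |f t| ≤ M * (1 + t) ^ 2) :
    IntegrableOn (fun t => f t * Real.exp (-t / T)) (Ioi 0) := by
  have hexp : IntegrableOn (fun t : ℝ => Real.exp (-(1 / (2 * T)) * t)) (Ioi 0) :=
    exp_neg_integrableOn_Ioi 0 (by positivity)
  refine Integrable.mono' (hexp.const_mul (M * (16 * T ^ 2 * Real.exp (1 / (2 * T))))) ?_ ?_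
  · exact hf.mul (by fun_prop : Continuous (fun t : ℝ => Real.exp (-t / T))).aestronglyMeasurable
  · refine ae_restrict_of_forall_mem measurableSet_Ioi ?_
    intro t ht
    have ht' : (0 : ℝ) < t := ht
    rw [Real.norm_eq_abs, abs_mul, abs_of_pos (Real.exp_pos _)]
    calc |f t| * Real.exp (-t / T) ≤ M * (1 + t) ^ 2 * Real.exp (-t / T) :=
          mul_le_mul_of_nonneg_right (hb t ht'.le) (Real.exp_pos _).le
      _ = M * ((1 + t) ^ 2 * Real.exp (-t / T)) := by ring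
      _ ≤ M * (16 * T ^ 2 * Real.exp (1 / (2 * T)) * Real.exp (-(1 / (2 * T)) * t)) :=
          mul_le_mul_of_nonneg_left (Z12_poly hT ht'.le) hM
      _ = _ := by ring

private theorem Z12_cont {g : ℝ → ℝ} (hg : Continuous g) (h : ℝ) :
    Continuous (fun t => ∫ x in t..(t + h), g x) := by
  have h1 : ∀ a b : ℝ, IntervalIntegrable g volume a b := fun a b => hg.intervalIntegrable a b
  have h2 : (fun t => ∫ x in t..(t + h), g x) =
      fun t => (∫ x in (0 : ℝ)..(t + h), g x) - ∫ x in (0 : ℝ)..t, g x := by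
    funext t
    rw [intervalIntegral.integral_interval_sub_left (h1 _ _) (h1 _ _)]
  rw [h2]
  have h3 : Continuous (fun b => ∫ x in (0 : ℝ)..b, g x) :=
    intervalIntegral.continuous_primitive h1 0
  exact (h3.comp (continuous_id.add continuous_const)).sub h3

private theorem Z12_one {T : ℝ} (hT : 0 < T) : T⁻¹ * ∫ t in Ioi (0:ℝ), Real.exp (-t / T) = 1 := by
  have h1 := integral_exp_mul_Ioi (a := -T⁻¹) (by simpa using hT) 0
  have h2 : (fun t : ℝ => Real.exp (-t / T)) = fun t => Real.exp (-T⁻¹ * t) := by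
    funext t
    congr 1
    field_simp
  rw [h2, h1]
  rw [mul_zero, Real.exp_zero]
  field_simp

private theorem Z12_a {t h K : ℝ} (ht : 0 ≤ t) (hh : 0 ≤ h) (hK : 0 ≤ K) :
    h * (K * (1 + (t + h))) ≤ h * (K * (1 + h)) * (1 + t) := by
  have h1 := mul_nonneg ht hh
  have h2 : 1 + (t + h) ≤ (1 + h) * (1 + t) := by linarith
  refine (mul_le_mul_of_nonneg_left (mul_le_mul_of_nonneg_left h2 hK) hh).trans (le_of_eq ?_)
  ring

private theorem Z12_b {t : ℝ} (ht : 0 ≤ t) : 1 + t ≤ (1 + t) ^ 2 :=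
  le_self_pow₀ (by linarith) two_ne_zero

private theorem Z12_c {t : ℝ} (ht : 0 ≤ t) : 1 ≤ 1 * (1 + t) ^ 2 := by
  rw [one_mul]
  exact one_le_pow₀ (by linarith)

private theorem Z12_p1 {J I CJ h : ℝ} (hC : 0 < CJ) (hh : 0 < h) :
    J ≤ 1 / (8 * CJ * h) * J ^ 2 + 2 * CJ * h * 1 + 2 / h * I ^ 2 + h / 8 := by
  have h2 : 0 ≤ 2 / h * I ^ 2 := by positivity
  have h4 : 0 ≤ 1 / (8 * CJ * h) * (J - 4 * CJ * h) ^ 2 := by positivity
  have h5 : 1 / (8 * CJ * h) * (J - 4 * CJ * h) ^ 2 =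
      1 / (8 * CJ * h) * J ^ 2 + 2 * CJ * h * 1 - J := by
    field_simp
    ring
  linarith

private theorem Z12_p2 {J I CJ h : ℝ} (hC : 0 < CJ) (hh : 0 < h) (h2 : J ≤ |I|) :
    J ≤ 1 / (8 * CJ * h) * J ^ 2 + 2 * CJ * h * 0 + 2 / h * I ^ 2 + h / 8 := by
  have h4 : 0 ≤ 2 / h * (|I| - h / 4) ^ 2 := by positivity
  have h5 : 2 / h * (|I| - h / 4) ^ 2 = 2 / h * |I| ^ 2 + h / 8 - |I| := by
    field_simp
    ring
  rw [sq_abs] at h5
  have h6 : 0 ≤ 1 / (8 * CJ * h) * J ^ 2 := by positivity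
  linarith

private theorem Z12_r (a b c d x y z E : ℝ) : (a * x + b * y + c * z + d) * E =
    a * (x * E) + b * (y * E) + c * (z * E) + d * (1 * E) := by ring

private theorem Z12_s (k a b c d X Y Z W : ℝ) : k * (a * X + b * Y + c * Z + d * W) =
    a * (k * X) + b * (k * Y) + c * (k * Z) + d * (k * W) := by ring

private theorem Z12_q {CI Λ : ℝ} (hΛ1 : 1 ≤ Λ) (hΛ2 : (32 * CI) ^ 2 ≤ Λ) :
    CI / Real.sqrt Λ ≤ 1 / 32 := by
  have hsq : 32 * CI ≤ Real.sqrt Λ := Real.le_sqrt_of_sq_le hΛ2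
  have hsq0 : 0 < Real.sqrt Λ := Real.sqrt_pos.mpr (by linarith)
  rw [div_le_iff₀ hsq0]
  linarith

private theorem Z12_end {h CJ q EJ EJ2 Ein EI2 : ℝ} (hh : 0 < h) (hCJ : 0 < CJ) (hq : q ≤ 1 / 32)
    (hJ' : EJ2 ≤ CJ * h ^ 2) (hI' : EI2 ≤ q * h ^ 2) (hL' : 1 / 2 * h ≤ EJ)
    (hfin : EJ ≤ 1 / (8 * CJ * h) * EJ2 + 2 * CJ * h * Ein + 2 / h * EI2 + h / 8) :
    3 / (32 * CJ) ≤ Ein := by
  have a1 : 1 / (8 * CJ * h) * EJ2 ≤ h / 8 := by
    refine (mul_le_mul_of_nonneg_left hJ' (by positivity)).trans (le_of_eq ?_)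
    field_simp
  have a2 : 2 / h * EI2 ≤ h / 16 := by
    refine (mul_le_mul_of_nonneg_left (hI'.trans (mul_le_mul_of_nonneg_right hq (sq_nonneg h)))
      (by positivity)).trans (le_of_eq ?_)
    field_simp
    norm_num
  have a4 : 3 / 16 ≤ 2 * CJ * Ein := by
    have : 3 / 16 * h ≤ (2 * CJ * Ein) * h := by linarith
    exact le_of_mul_le_mul_right this hh
  rw [div_le_iff₀ (by positivity)]
  linarith

/-- E[J 1_{J=|I|}] <= E|I| <= sqrt(E I^2) <= h/4 for Lambda large; Cauchy-Schwarz on {|I|<J}. -/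
theorem P_low : ∃ Λ p T0 : ℝ, 1 ≤ Λ ∧ 0 < p ∧ 2 ≤ T0 ∧ ∀ T : ℝ, T0 ≤ T →
    p ≤ ER T (Set.indicator {t : ℝ | |∫ x in t..(t + Λ / Real.log T), GG (Real.log T / 1500) x| <
      ∫ x in t..(t + Λ / Real.log T), |GG (Real.log T / 1500) x|} (fun _ => 1)) := by
  classical
  obtain ⟨CI, hCI, hI⟩ := I_sq
  obtain ⟨CJ, hCJ, hJ⟩ := J_sq
  obtain ⟨hcont, -, -, C, hC, hgrow⟩ := GG_facts
  set Λ : ℝ := max 1 ((32 * CI) ^ 2) with hΛ
  have hΛ1 : 1 ≤ Λ := le_max_left _ _
  have hΛ2 : (32 * CI) ^ 2 ≤ Λ := le_max_right _ _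
  obtain ⟨TI, hTI, hI⟩ := hI Λ hΛ1
  obtain ⟨TJ, hTJ, hJ⟩ := hJ Λ hΛ1
  obtain ⟨TL, hTL, hL⟩ := J_low Λ hΛ1
  refine ⟨Λ, 3 / (32 * CJ), max TI (max TJ TL), hΛ1, by positivity, hTI.trans (le_max_left _ _), ?_⟩
  intro T hT
  have hTTI : TI ≤ T := (le_max_left _ _).trans hT
  have hTTJ : TJ ≤ T := ((le_max_left _ _).trans (le_max_right _ _)).trans hT
  have hTTL : TL ≤ T := ((le_max_right _ _).trans (le_max_right _ _)).trans hT
  have hT2 : 2 ≤ T := hTI.trans hTTI
  have hT0 : 0 < T := two_pos.trans_le hT2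
  have hlog : 0 < Real.log T := Real.log_pos (one_lt_two.trans_le hT2)
  have hI := hI T hTTI
  have hJ := hJ T hTTJ
  have hL := hL T hTTL
  set l := Real.log T / 1500 with hl
  have hl0 : 0 < l := div_pos hlog (by norm_num)
  set h := Λ / Real.log T with hh
  have hh0 : 0 < h := div_pos (zero_lt_one.trans_le hΛ1) hlog
  set If : ℝ → ℝ := fun t => ∫ x in t..(t + h), GG l x with hIf
  set Jf : ℝ → ℝ := fun t => ∫ x in t..(t + h), |GG l x| with hJf
  have cI : Continuous If := Z12_cont (hcont l) h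
  have cJ : Continuous Jf := Z12_cont (hcont l).abs h
  have hIJ : ∀ t, |If t| ≤ Jf t := fun t =>
    intervalIntegral.abs_integral_le_integral_abs (le_add_of_nonneg_right hh0.le)
  have hJ0 : ∀ t, 0 ≤ Jf t := fun t => (abs_nonneg _).trans (hIJ t)
  set K := C * Real.exp (2 * l) with hK
  have hK0 : 0 ≤ K := mul_nonneg hC.le (Real.exp_pos _).le
  have hJb : ∀ t : ℝ, 0 ≤ t → Jf t ≤ h * (K * (1 + h)) * (1 + t) := by
    intro t ht
    have h1 : Jf t ≤ ∫ _x in t..(t + h), K * (1 + (t + h)) := by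
      refine intervalIntegral.integral_mono_on (le_add_of_nonneg_right hh0.le)
        ((hcont l).abs.intervalIntegrable _ _) (by simp) ?_
      intro x hx
      have hx0 : 0 ≤ x := ht.trans hx.1
      refine (hgrow l x hl0 hx0).trans ?_
      exact mul_le_mul_of_nonneg_left (add_le_add le_rfl hx.2) hK0
    rw [intervalIntegral.integral_const, smul_eq_mul] at h1
    refine h1.trans ?_
    rw [add_sub_cancel_left]
    exact Z12_a ht hh0.le hK0
  set M := (h * (K * (1 + h))) ^ 2 with hM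
  have hM0 : 0 ≤ M := sq_nonneg _
  have hM1 : 0 ≤ h * (K * (1 + h)) :=
    mul_nonneg hh0.le (mul_nonneg hK0 (add_nonneg zero_le_one hh0.le))
  have hJb2 : ∀ t : ℝ, 0 ≤ t → |Jf t ^ 2| ≤ M * (1 + t) ^ 2 := by
    intro t ht
    rw [abs_of_nonneg (sq_nonneg _), hM, ← mul_pow]
    exact pow_le_pow_left₀ (hJ0 t) (hJb t ht) 2
  have hIb2 : ∀ t : ℝ, 0 ≤ t → |If t ^ 2| ≤ M * (1 + t) ^ 2 := by
    intro t ht
    rw [abs_of_nonneg (sq_nonneg _)]
    have h1 : If t ^ 2 ≤ Jf t ^ 2 := by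
      rw [← sq_abs (If t)]
      exact pow_le_pow_left₀ (abs_nonneg _) (hIJ t) 2
    exact h1.trans ((le_abs_self _).trans (hJb2 t ht))
  have hJb1 : ∀ t : ℝ, 0 ≤ t → |Jf t| ≤ (h * (K * (1 + h))) * (1 + t) ^ 2 := by
    intro t ht
    rw [abs_of_nonneg (hJ0 t)]
    refine (hJb t ht).trans ?_
    exact mul_le_mul_of_nonneg_left (Z12_b ht) hM1
  set S : Set ℝ := {t : ℝ | |If t| < Jf t} with hS
  have hSm : MeasurableSet S := measurableSet_lt cI.abs.measurable cJ.measurable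
  set ind : ℝ → ℝ := Set.indicator S (fun _ => 1) with hind
  have hindm : Measurable ind := measurable_const.indicator hSm
  have hindb : ∀ t, 0 ≤ ind t ∧ ind t ≤ 1 := by
    intro t
    rw [hind]
    by_cases ht : t ∈ S
    · rw [Set.indicator_of_mem ht]
      exact ⟨zero_le_one, le_rfl⟩
    · rw [Set.indicator_of_notMem ht]
      exact ⟨le_rfl, zero_le_one⟩
  have iJ := Z12_int hT0 cJ.aestronglyMeasurable hM1 hJb1
  have iJ2 : IntegrableOn (fun t => Jf t ^ 2 * Real.exp (-t / T)) (Ioi 0) :=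
    Z12_int (f := fun t => Jf t ^ 2) hT0 (cJ.pow 2).aestronglyMeasurable hM0 hJb2
  have iI2 : IntegrableOn (fun t => If t ^ 2 * Real.exp (-t / T)) (Ioi 0) :=
    Z12_int (f := fun t => If t ^ 2) hT0 (cI.pow 2).aestronglyMeasurable hM0 hIb2
  have iind := Z12_int (f := ind) hT0 hindm.aestronglyMeasurable zero_le_one (fun t ht => by
    rw [abs_of_nonneg (hindb t).1]
    exact (hindb t).2.trans (Z12_c ht))
  have i1 := Z12_int (f := fun _ => (1 : ℝ)) hT0 aestronglyMeasurable_const zero_le_one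
    (fun t ht => by
      rw [abs_one]
      exact Z12_c ht)
  -- pointwise inequality
  have hpt : ∀ t, Jf t ≤ 1 / (8 * CJ * h) * Jf t ^ 2 + 2 * CJ * h * ind t + 2 / h * If t ^ 2 +
      h / 8 := by
    intro t
    by_cases ht : t ∈ S
    · have h1 : ind t = 1 := by
        rw [hind, Set.indicator_of_mem ht]
      rw [h1]
      exact Z12_p1 hCJ hh0
    · have h1 : ind t = 0 := by
        rw [hind, Set.indicator_of_notMem ht]
      rw [h1]
      exact Z12_p2 hCJ hh0 (not_lt.mp ht)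
  have hint : ∫ t in Ioi (0:ℝ), Jf t * Real.exp (-t / T) ≤
      1 / (8 * CJ * h) * (∫ t in Ioi (0:ℝ), Jf t ^ 2 * Real.exp (-t / T)) +
      2 * CJ * h * (∫ t in Ioi (0:ℝ), ind t * Real.exp (-t / T)) +
      2 / h * (∫ t in Ioi (0:ℝ), If t ^ 2 * Real.exp (-t / T)) +
      h / 8 * (∫ t in Ioi (0:ℝ), 1 * Real.exp (-t / T)) := by
    have g1 : IntegrableOn (fun t => 1 / (8 * CJ * h) * (Jf t ^ 2 * Real.exp (-t / T))) (Ioi 0) :=
      iJ2.const_mul _
    have g2 : IntegrableOn (fun t => 2 * CJ * h * (ind t * Real.exp (-t / T))) (Ioi 0) :=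
      iind.const_mul _
    have g3 : IntegrableOn (fun t => 2 / h * (If t ^ 2 * Real.exp (-t / T))) (Ioi 0) :=
      iI2.const_mul _
    have g4 : IntegrableOn (fun t => h / 8 * (1 * Real.exp (-t / T))) (Ioi 0) :=
      i1.const_mul _
    have g12 : IntegrableOn (fun t => 1 / (8 * CJ * h) * (Jf t ^ 2 * Real.exp (-t / T)) +
      2 * CJ * h * (ind t * Real.exp (-t / T))) (Ioi 0) := g1.add g2
    have g123 : IntegrableOn (fun t => 1 / (8 * CJ * h) * (Jf t ^ 2 * Real.exp (-t / T)) +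
      2 * CJ * h * (ind t * Real.exp (-t / T)) + 2 / h * (If t ^ 2 * Real.exp (-t / T)))
      (Ioi 0) := g12.add g3
    have g1234 : IntegrableOn (fun t => 1 / (8 * CJ * h) * (Jf t ^ 2 * Real.exp (-t / T)) +
      2 * CJ * h * (ind t * Real.exp (-t / T)) + 2 / h * (If t ^ 2 * Real.exp (-t / T)) +
      h / 8 * (1 * Real.exp (-t / T))) (Ioi 0) := g123.add g4
    rw [← integral_const_mul, ← integral_const_mul, ← integral_const_mul, ← integral_const_mul,
      ← integral_add g1 g2, ← integral_add g12 g3, ← integral_add g123 g4]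
    refine integral_mono iJ g1234 ?_
    intro t
    exact (mul_le_mul_of_nonneg_right (hpt t) (Real.exp_pos (-t / T)).le).trans
      (le_of_eq (Z12_r _ _ _ _ _ _ _ _))
  have hTinv : 0 < T⁻¹ := inv_pos.mpr hT0
  have hmul := mul_le_mul_of_nonneg_left hint hTinv.le
  have e1 : T⁻¹ * ∫ t in Ioi (0:ℝ), 1 * Real.exp (-t / T) = 1 := by
    simp only [one_mul]
    exact Z12_one hT0
  have hfin : ER T Jf ≤ 1 / (8 * CJ * h) * ER T (fun t => Jf t ^ 2) + 2 * CJ * h * ER T ind +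
      2 / h * ER T (fun t => If t ^ 2) + h / 8 := by
    rw [Z12_s, e1, mul_one] at hmul
    exact hmul
  exact Z12_end hh0 hCJ (Z12_q hΛ1 hΛ2) hJ hI hL hfin

end LZ

end F_Z12
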