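import Pool.Agent.Lib.MP_0f5a55_nt.V.V48
import Pool.Agent.Lib.MP_0f5a55_nt.V.V72
import Pool.Agent.Lib.MP_0f5a55_nt.V.V75
import Pool.Agent.Lib.MP_0f5a55_nt.V.V76
import Pool.Agent.Lib.MP_0f5a55_nt.V.V79
import Pool.Agent.Lib.MP_0f5a55_nt.V.V81

section F_X_Z12

open Complex MeasureTheory Set Filter Topology
open scoped ComplexConjugate

namespace LX

open LZ

variable {q : ℕ} [NeZero q]

private theorem Z12_poly {T : ℝ} (hT : 0 < T) {t : ℝ} (ht : 0 ≤ t) :
    (1 + t) ^ 2 * Real.exp (-t / T) ≤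
      16 * T ^ 2 * Real.exp (1 / (2 * T)) * Real.exp (-(1 / (2 * T)) * t) := by
  have h1 : (1 + t) / (4 * T) ≤ Real.exp ((1 + t) / (4 * T)) := by
    have := Real.add_one_le_exp ((1 + t) / (4 * T))
    linarith
  have h2 : 1 + t ≤ 4 * T * Real.exp ((1 + t) / (4 * T)) := by
    have h3 : 1 + t = 4 * T * ((1 + t) / (4 * T)) := by
      field_simp
    calc 1 + t = 4 * T * ((1 + t) / (4 * T)) := h3
      _ ≤ _ := mul_le_mul_of_nonneg_left h1 (by positivity)
  have h4 : (1 + t) ^ 2 ≤ (4 * T * Real.exp ((1 + t) / (4 * T))) ^ 2 :=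
    pow_le_pow_left₀ (by linarith) h2 2
  have h5 : (4 * T * Real.exp ((1 + t) / (4 * T))) ^ 2 =
      16 * T ^ 2 * Real.exp ((1 + t) / (2 * T)) := by
    rw [mul_pow, ← Real.exp_nat_mul]
    have : ((2 : ℕ) : ℝ) * ((1 + t) / (4 * T)) = (1 + t) / (2 * T) := by
      push_cast
      field_simp
      ring
    rw [this]
    ring
  rw [h5] at h4
  calc (1 + t) ^ 2 * Real.exp (-t / T) ≤ 16 * T ^ 2 * Real.exp ((1 + t) / (2 * T)) *
        Real.exp (-t / T) := mul_le_mul_of_nonneg_right h4 (Real.exp_pos _).le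
    _ = 16 * T ^ 2 * (Real.exp ((1 + t) / (2 * T)) * Real.exp (-t / T)) := by ring
    _ = 16 * T ^ 2 * (Real.exp (1 / (2 * T)) * Real.exp (-(1 / (2 * T)) * t)) := by
        rw [← Real.exp_add, ← Real.exp_add]
        congr 2
        field_simp
        ring
    _ = _ := by ring

private theorem Z12_int {T : ℝ} (hT : 0 < T) {f : ℝ → ℝ} (hf : AEStronglyMeasurable f
    (volume.restrict (Ioi 0))) {M : ℝ} (hM : 0 ≤ M)
    (hb : ∀ t : ℝ, 0 ≤ t → |f t| ≤ M * (1 + t) ^ 2) :
    IntegrableOn (fun t => f t * Real.exp (-t / T)) (Ioi 0) := by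
  have hexp : IntegrableOn (fun t : ℝ => Real.exp (-(1 / (2 * T)) * t)) (Ioi 0) :=
    exp_neg_integrableOn_Ioi 0 (by positivity)
  refine Integrable.mono' (hexp.const_mul (M * (16 * T ^ 2 * Real.exp (1 / (2 * T))))) ?_ ?_
  · exact hf.mul (by fun_prop : Continuous (fun t : ℝ => Real.exp (-t / T))).aestronglyMeasurable
  · refine ae_restrict_of_forall_mem measurableSet_Ioi ?_
    intro t ht
    have ht' : (0 : ℝ) < t := ht
    rw [Real.norm_eq_abs, abs_mul, abs_of_pos (Real.exp_pos _)]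
    calc |f t| * Real.exp (-t / T) ≤ M * (1 + t) ^ 2 * Real.exp (-t / T) :=
          mul_le_mul_of_nonneg_right (hb t ht'.le) (Real.exp_pos _).le
      _ = M * ((1 + t) ^ 2 * Real.exp (-t / T)) := by ring
      _ ≤ M * (16 * T ^ 2 * Real.exp (1 / (2 * T)) * Real.exp (-(1 / (2 * T)) * t)) :=
          mul_le_mul_of_nonneg_left (Z12_poly hT ht'.le) hM
      _ = _ := by ring

private theorem Z12_cont {g : ℝ → ℝ} (hg : Continuous g) (h : ℝ) :
    Continuous (fun t => ∫ x in t..(t + h), g x) := by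
  have h1 : ∀ a b : ℝ, IntervalIntegrable g volume a b := fun a b => hg.intervalIntegrable a b
  have h2 : (fun t => ∫ x in t..(t + h), g x) =
      fun t => (∫ x in (0 : ℝ)..(t + h), g x) - ∫ x in (0 : ℝ)..t, g x := by
    funext t
    rw [intervalIntegral.integral_interval_sub_left (h1 _ _) (h1 _ _)]
  rw [h2]
  have h3 : Continuous (fun b => ∫ x in (0 : ℝ)..b, g x) :=
    intervalIntegral.continuous_primitive h1 0
  exact (h3.comp (continuous_id.add continuous_const)).sub h3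

private theorem Z12_one {T : ℝ} (hT : 0 < T) : T⁻¹ * ∫ t in Ioi (0:ℝ), Real.exp (-t / T) = 1 := by
  have h1 := integral_exp_mul_Ioi (a := -T⁻¹) (by simpa using hT) 0
  have h2 : (fun t : ℝ => Real.exp (-t / T)) = fun t => Real.exp (-T⁻¹ * t) := by
    funext t
    congr 1
    field_simp
  rw [h2, h1]
  rw [mul_zero, Real.exp_zero]
  field_simp

/-- E[J 1_{J=|I|}] <= E|I| <= sqrt(E I^2) <= h/4 for Lambda large; Cauchy-Schwarz on {|I|<J}. -/
theorem P_low : ∃ Λ p : ℝ, 1 ≤ Λ ∧ 0 < p ∧ ∀ (q : ℕ) [NeZero q] (χ : DirichletCharacter ℂ q), χ.IsPrimitive → 1 < q →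
    ∃ T0 : ℝ, 2 ≤ T0 ∧ ∀ T : ℝ, T0 ≤ T →
    p ≤ ER T (Set.indicator {t : ℝ | |∫ x in t..(t + Λ / Real.log T), GG χ (Real.log T / 1500) x| <
      ∫ x in t..(t + Λ / Real.log T), |GG χ (Real.log T / 1500) x|} (fun _ => 1)) := by
  classical
  obtain ⟨CI, hCI, hI⟩ := I_sq
  obtain ⟨CJ, hCJ, hJ⟩ := J_sq
  set Λ : ℝ := max 1 ((32 * CI) ^ 2) with hΛ
  have hΛ1 : 1 ≤ Λ := le_max_left _ _
  have hΛ2 : (32 * CI) ^ 2 ≤ Λ := le_max_right _ _
  refine ⟨Λ, 3 / (32 * CJ), hΛ1, by positivity, ?_⟩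
  intro q _ χ hχ hq
  obtain ⟨hcont, -, -, C, hC, hgrow⟩ := GG_facts hχ hq
  obtain ⟨TI, hTI, hI⟩ := hI q χ hχ hq Λ hΛ1
  obtain ⟨TJ, hTJ, hJ⟩ := hJ q χ hχ hq Λ hΛ1
  obtain ⟨TL, hTL, hL⟩ := J_low hχ hq Λ hΛ1
  refine ⟨max TI (max TJ TL), hTI.trans (le_max_left _ _), ?_⟩
  intro T hT
  have hTTI : TI ≤ T := (le_max_left _ _).trans hT
  have hTTJ : TJ ≤ T := ((le_max_left _ _).trans (le_max_right _ _)).trans hT
  have hTTL : TL ≤ T := ((le_max_right _ _).trans (le_max_right _ _)).trans hT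
  have hT2 : 2 ≤ T := hTI.trans hTTI
  have hT0 : 0 < T := by linarith
  have hlog : 0 < Real.log T := Real.log_pos (by linarith)
  have hI := hI T hTTI
  have hJ := hJ T hTTJ
  have hL := hL T hTTL
  set l := Real.log T / 1500 with hl
  have hl0 : 0 < l := by positivity
  set h := Λ / Real.log T with hh
  have hh0 : 0 < h := by positivity
  set If : ℝ → ℝ := fun t => ∫ x in t..(t + h), GG χ l x with hIf
  set Jf : ℝ → ℝ := fun t => ∫ x in t..(t + h), |GG χ l x| with hJf
  have cI : Continuous If := Z12_cont (hcont l) h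
  have cJ : Continuous Jf := Z12_cont (hcont l).abs h
  have hIJ : ∀ t, |If t| ≤ Jf t := fun t =>
    intervalIntegral.abs_integral_le_integral_abs (by linarith)
  have hJ0 : ∀ t, 0 ≤ Jf t := fun t => (abs_nonneg _).trans (hIJ t)
  set K := C * Real.exp (2 * l) with hK
  have hK0 : 0 ≤ K := by positivity
  have hJb : ∀ t : ℝ, 0 ≤ t → Jf t ≤ h * (K * (1 + h)) * (1 + t) := by
    intro t ht
    have h1 : Jf t ≤ ∫ _x in t..(t + h), K * (1 + (t + h)) := by
      refine intervalIntegral.integral_mono_on (by linarith)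
        ((hcont l).abs.intervalIntegrable _ _) (by simp) ?_
      intro x hx
      have hx0 : 0 ≤ x := ht.trans hx.1
      refine (hgrow l x hl0 hx0).trans ?_
      refine mul_le_mul_of_nonneg_left ?_ hK0
      linarith [hx.2]
    rw [intervalIntegral.integral_const, smul_eq_mul] at h1
    refine h1.trans ?_
    have h2 : t + h - t = h := by ring
    rw [h2]
    have h3 : 1 + (t + h) ≤ (1 + h) * (1 + t) := by nlinarith
    calc h * (K * (1 + (t + h))) ≤ h * (K * ((1 + h) * (1 + t))) := by gcongr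
      _ = _ := by ring
  set M := (h * (K * (1 + h))) ^ 2 with hM
  have hM0 : 0 ≤ M := by positivity
  have hJb2 : ∀ t : ℝ, 0 ≤ t → |Jf t ^ 2| ≤ M * (1 + t) ^ 2 := by
    intro t ht
    rw [abs_of_nonneg (sq_nonneg _), hM, ← mul_pow]
    exact pow_le_pow_left₀ (hJ0 t) (hJb t ht) 2
  have hIb2 : ∀ t : ℝ, 0 ≤ t → |If t ^ 2| ≤ M * (1 + t) ^ 2 := by
    intro t ht
    rw [abs_of_nonneg (sq_nonneg _)]
    have h1 : If t ^ 2 ≤ Jf t ^ 2 := by
      rw [← sq_abs (If t)]
      exact pow_le_pow_left₀ (abs_nonneg _) (hIJ t) 2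
    exact h1.trans ((le_abs_self _).trans (hJb2 t ht))
  have hJb1 : ∀ t : ℝ, 0 ≤ t → |Jf t| ≤ (h * (K * (1 + h))) * (1 + t) ^ 2 := by
    intro t ht
    rw [abs_of_nonneg (hJ0 t)]
    refine (hJb t ht).trans ?_
    refine mul_le_mul_of_nonneg_left ?_ (by positivity)
    nlinarith
  set S : Set ℝ := {t : ℝ | |If t| < Jf t} with hS
  have hSm : MeasurableSet S := measurableSet_lt cI.abs.measurable cJ.measurable
  set ind : ℝ → ℝ := Set.indicator S (fun _ => 1) with hind
  have hindm : Measurable ind := measurable_const.indicator hSm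
  have hindb : ∀ t, 0 ≤ ind t ∧ ind t ≤ 1 := by
    intro t
    rw [hind]
    by_cases ht : t ∈ S
    · rw [Set.indicator_of_mem ht]
      exact ⟨zero_le_one, le_rfl⟩
    · rw [Set.indicator_of_notMem ht]
      exact ⟨le_rfl, zero_le_one⟩
  have iJ := Z12_int hT0 cJ.aestronglyMeasurable (by positivity) hJb1
  have iJ2 : IntegrableOn (fun t => Jf t ^ 2 * Real.exp (-t / T)) (Ioi 0) :=
    Z12_int (f := fun t => Jf t ^ 2) hT0 (cJ.pow 2).aestronglyMeasurable hM0 hJb2
  have iI2 : IntegrableOn (fun t => If t ^ 2 * Real.exp (-t / T)) (Ioi 0) :=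
    Z12_int (f := fun t => If t ^ 2) hT0 (cI.pow 2).aestronglyMeasurable hM0 hIb2
  have iind := Z12_int (f := ind) hT0 hindm.aestronglyMeasurable zero_le_one (fun t ht => by
    rw [abs_of_nonneg (hindb t).1]
    have := (hindb t).2
    nlinarith)
  have i1 := Z12_int (f := fun _ => (1 : ℝ)) hT0 aestronglyMeasurable_const zero_le_one
    (fun t ht => by
      rw [abs_one]
      nlinarith)
  -- pointwise inequality
  have hpt : ∀ t, Jf t ≤ 1 / (8 * CJ * h) * Jf t ^ 2 + 2 * CJ * h * ind t + 2 / h * If t ^ 2 +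
      h / 8 := by
    intro t
    by_cases ht : t ∈ S
    · have h1 : ind t = 1 := by
        rw [hind, Set.indicator_of_mem ht]
      rw [h1]
      have h2 : 0 ≤ 2 / h * If t ^ 2 := by positivity
      have h3 : Jf t ≤ 1 / (8 * CJ * h) * Jf t ^ 2 + 2 * CJ * h * 1 := by
        have h4 : 0 ≤ 1 / (8 * CJ * h) * (Jf t - 4 * CJ * h) ^ 2 := by positivity
        have h5 : 1 / (8 * CJ * h) * (Jf t - 4 * CJ * h) ^ 2 =
            1 / (8 * CJ * h) * Jf t ^ 2 + 2 * CJ * h * 1 - Jf t := by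
          field_simp
          ring
        linarith
      linarith
    · have h1 : ind t = 0 := by
        rw [hind, Set.indicator_of_notMem ht]
      rw [h1]
      have h2 : Jf t ≤ |If t| := not_lt.mp ht
      have h3 : |If t| ≤ 2 / h * If t ^ 2 + h / 8 := by
        have h4 : 0 ≤ 2 / h * (|If t| - h / 4) ^ 2 := by positivity
        have h5 : 2 / h * (|If t| - h / 4) ^ 2 = 2 / h * |If t| ^ 2 + h / 8 - |If t| := by
          field_simp
          ring
        rw [sq_abs] at h5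
        linarith
      have h6 : 0 ≤ 1 / (8 * CJ * h) * Jf t ^ 2 := by positivity
      linarith
  have hint : ∫ t in Ioi (0:ℝ), Jf t * Real.exp (-t / T) ≤
      1 / (8 * CJ * h) * (∫ t in Ioi (0:ℝ), Jf t ^ 2 * Real.exp (-t / T)) +
      2 * CJ * h * (∫ t in Ioi (0:ℝ), ind t * Real.exp (-t / T)) +
      2 / h * (∫ t in Ioi (0:ℝ), If t ^ 2 * Real.exp (-t / T)) +
      h / 8 * (∫ t in Ioi (0:ℝ), 1 * Real.exp (-t / T)) := by
    have g1 : IntegrableOn (fun t => 1 / (8 * CJ * h) * (Jf t ^ 2 * Real.exp (-t / T))) (Ioi 0) :=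
      iJ2.const_mul _
    have g2 : IntegrableOn (fun t => 2 * CJ * h * (ind t * Real.exp (-t / T))) (Ioi 0) :=
      iind.const_mul _
    have g3 : IntegrableOn (fun t => 2 / h * (If t ^ 2 * Real.exp (-t / T))) (Ioi 0) :=
      iI2.const_mul _
    have g4 : IntegrableOn (fun t => h / 8 * (1 * Real.exp (-t / T))) (Ioi 0) :=
      i1.const_mul _
    have g12 : IntegrableOn (fun t => 1 / (8 * CJ * h) * (Jf t ^ 2 * Real.exp (-t / T)) +
      2 * CJ * h * (ind t * Real.exp (-t / T))) (Ioi 0) := g1.add g2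
    have g123 : IntegrableOn (fun t => 1 / (8 * CJ * h) * (Jf t ^ 2 * Real.exp (-t / T)) +
      2 * CJ * h * (ind t * Real.exp (-t / T)) + 2 / h * (If t ^ 2 * Real.exp (-t / T)))
      (Ioi 0) := g12.add g3
    have g1234 : IntegrableOn (fun t => 1 / (8 * CJ * h) * (Jf t ^ 2 * Real.exp (-t / T)) +
      2 * CJ * h * (ind t * Real.exp (-t / T)) + 2 / h * (If t ^ 2 * Real.exp (-t / T)) +
      h / 8 * (1 * Real.exp (-t / T))) (Ioi 0) := g123.add g4
    rw [← integral_const_mul, ← integral_const_mul, ← integral_const_mul, ← integral_const_mul,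
      ← integral_add g1 g2, ← integral_add g12 g3, ← integral_add g123 g4]
    refine integral_mono iJ g1234 ?_
    intro t
    have h1 := mul_le_mul_of_nonneg_right (hpt t) (Real.exp_pos (-t / T)).le
    simp only
    linarith
  have hTinv : 0 < T⁻¹ := by positivity
  have hmul := mul_le_mul_of_nonneg_left hint hTinv.le
  have e1 : T⁻¹ * ∫ t in Ioi (0:ℝ), 1 * Real.exp (-t / T) = 1 := by
    simp only [one_mul]
    exact Z12_one hT0
  have hfin : ER T Jf ≤ 1 / (8 * CJ * h) * ER T (fun t => Jf t ^ 2) + 2 * CJ * h * ER T ind +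
      2 / h * ER T (fun t => If t ^ 2) + h / 8 := by
    have e2 : h / 8 = h / 8 * (T⁻¹ * ∫ t in Ioi (0:ℝ), 1 * Real.exp (-t / T)) := by
      rw [e1, mul_one]
    rw [e2]
    unfold ER
    linarith
  have hJ' : ER T (fun t => Jf t ^ 2) ≤ CJ * h ^ 2 := hJ
  have hI' : ER T (fun t => If t ^ 2) ≤ CI / Real.sqrt Λ * h ^ 2 := hI
  have hL' : 1 / 2 * h ≤ ER T Jf := hL
  have hsq : 32 * CI ≤ Real.sqrt Λ := Real.le_sqrt_of_sq_le hΛ2
  have hsq0 : 0 < Real.sqrt Λ := Real.sqrt_pos.mpr (by linarith)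
  have hCIs : CI / Real.sqrt Λ ≤ 1 / 32 := by
    rw [div_le_iff₀ hsq0]
    linarith
  have a1 : 1 / (8 * CJ * h) * ER T (fun t => Jf t ^ 2) ≤ h / 8 := by
    calc _ ≤ 1 / (8 * CJ * h) * (CJ * h ^ 2) := mul_le_mul_of_nonneg_left hJ' (by positivity)
      _ = h / 8 := by
          field_simp
  have a2 : 2 / h * ER T (fun t => If t ^ 2) ≤ h / 16 := by
    calc _ ≤ 2 / h * (1 / 32 * h ^ 2) := by
          refine mul_le_mul_of_nonneg_left (hI'.trans ?_) (by positivity)
          exact mul_le_mul_of_nonneg_right hCIs (by positivity)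
      _ = h / 16 := by
          field_simp
          norm_num
  have a3 : 3 / 16 * h ≤ 2 * CJ * h * ER T ind := by linarith
  have a4 : 3 / 16 ≤ 2 * CJ * ER T ind := by
    have : 3 / 16 * h ≤ (2 * CJ * ER T ind) * h := by linarith
    exact le_of_mul_le_mul_right this hh0
  show 3 / (32 * CJ) ≤ ER T ind
  rw [div_le_iff₀ (by positivity)]
  linarith

end LX

end F_X_Z12

section F_X_Z15

open Complex MeasureTheory Set Filter Topology
open scoped ComplexConjugate

namespace LX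

open LZ

variable {q : ℕ} [NeZero q]

private theorem Z15_cont {f : ℝ → ℝ} (hf : Continuous f) (h : ℝ) :
    Continuous (fun t : ℝ => ∫ x in t..(t + h), f x) := by
  have e : (fun t : ℝ => ∫ x in t..(t + h), f x) =
      fun t : ℝ => (∫ x in (0:ℝ)..(t + h), f x) - ∫ x in (0:ℝ)..t, f x := by
    funext t
    rw [intervalIntegral.integral_interval_sub_left (hf.intervalIntegrable _ _)
      (hf.intervalIntegrable _ _)]
  rw [e]
  have h1 : Continuous fun t : ℝ => ∫ x in (0:ℝ)..t, f x :=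
    intervalIntegral.continuous_primitive (fun a b => hf.intervalIntegrable a b) 0
  exact (h1.comp (continuous_id.add continuous_const)).sub h1

/-- Theorem S (Selberg): rescale T by 1/B. -/
theorem selberg_sep : ∃ c d η : ℝ, 0 < c ∧ 0 < d ∧ 0 < η ∧ η ≤ 1/2 ∧
    ∀ (q : ℕ) [NeZero q] (χ : DirichletCharacter ℂ q), χ.IsPrimitive → 1 < q → ∃ T0 : ℝ, 2 ≤ T0 ∧ ∀ T : ℝ, T0 ≤ T → ∃ Y : Finset ℝ,
    (∀ y ∈ Y, y ∈ Gam χ ∧ η * T ≤ y ∧ y ≤ T) ∧ Sep (d / Real.log T) Y ∧ c * T * Real.log T ≤ Y.card := by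
  obtain ⟨Λ, p0, hΛ, hp0, hP⟩ := P_low
  set p : ℝ := min p0 1 with hp
  have hpp : 0 < p := lt_min hp0 one_pos
  have hp1 : p ≤ 1 := min_le_right _ _
  have hp2 : p ≤ p0 := min_le_left _ _
  obtain ⟨c, B, hc, hB, hE⟩ := extract p hpp hp1
  have hBpos : 0 < B := by linarith
  have hΛpos : 0 < Λ := by linarith
  refine ⟨c / (2 * B * Λ), Λ, p / (4 * B), by positivity, hΛpos, by positivity, ?_, ?_⟩
  · rw [div_le_iff₀ (by positivity)]
    nlinarith
  intro q _ χ hχ hq
  obtain ⟨T1, hT1, hP⟩ := hP q χ hχ hq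
  -- the threshold
  set T2 : ℝ := max (max T1 (Real.exp Λ)) (max (Real.exp 1) (Λ / c)) with hT2
  refine ⟨max (B * T2) (max (B ^ 2) 2), ?_, ?_⟩
  · exact le_trans (le_max_right _ _) (le_max_right _ _)
  intro T hT
  have hT2' : B * T2 ≤ T := le_trans (le_max_left _ _) hT
  have hTB : B ^ 2 ≤ T := le_trans (le_trans (le_max_left _ _) (le_max_right _ _)) hT
  set T' : ℝ := T / B with hT'
  have hT'2 : T2 ≤ T' := by rw [hT', le_div_iff₀ hBpos]; linarith
  have hT'1 : T1 ≤ T' := le_trans (le_trans (le_max_left _ _) (le_max_left _ _)) hT'2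
  have hT'Λ : Real.exp Λ ≤ T' := le_trans (le_trans (le_max_right _ _) (le_max_left _ _)) hT'2
  have hT'e : Real.exp 1 ≤ T' := le_trans (le_trans (le_max_left _ _) (le_max_right _ _)) hT'2
  have hT'c : Λ / c ≤ T' := le_trans (le_trans (le_max_right _ _) (le_max_right _ _)) hT'2
  have hT'pos : 0 < T' := by linarith
  have hlogΛ : Λ ≤ Real.log T' := (Real.le_log_iff_exp_le hT'pos).2 hT'Λ
  have hlog1 : 1 ≤ Real.log T' := (Real.le_log_iff_exp_le hT'pos).2 hT'e
  have hlogpos : 0 < Real.log T' := by linarith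
  have hTT' : T = B * T' := by rw [hT']; field_simp
  have hT'T : T' ≤ T := by rw [hTT']; nlinarith
  have hTpos : 0 < T := by linarith
  have hlogle : Real.log T' ≤ Real.log T := Real.log_le_log hT'pos hT'T
  have hlogT : 0 < Real.log T := by linarith
  set h : ℝ := Λ / Real.log T' with hh
  have hhpos : 0 < h := by positivity
  have hh1 : h ≤ 1 := by rw [hh, div_le_one hlogpos]; exact hlogΛ
  set l : ℝ := Real.log T' / 1500 with hl
  set S : Set ℝ := {t : ℝ | |∫ x in t..(t + h), GG χ l x| < ∫ x in t..(t + h), |GG χ l x|} with hS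
  have hcont : Continuous (GG χ l) := (GG_facts hχ hq).1 l
  have hSm : MeasurableSet S := by
    apply IsOpen.measurableSet
    exact isOpen_lt (continuous_abs.comp (Z15_cont hcont h)) (Z15_cont (continuous_abs.comp hcont) h)
  have hPT := hP T' hT'1
  obtain ⟨Y, hY1, hY2, hY3⟩ := hE T' h (by linarith [Real.add_one_le_exp (1:ℝ)]) hhpos hh1 S (Gam χ) hSm
    (le_trans hp2 hPT)
    (fun t ht _ => zero_in hχ hq l t h hhpos.le ht) (by
      rw [ge_iff_le, le_div_iff₀ hhpos, one_mul]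
      have e1 : Λ ≤ c * T' := by rw [div_le_iff₀ hc] at hT'c; linarith
      have e2 : h ≤ Λ := by rw [hh]; exact div_le_self hΛpos.le hlog1
      linarith)
  refine ⟨Y, ?_, ?_, ?_⟩
  · intro y hy
    obtain ⟨h1, h2, h3⟩ := hY1 y hy
    refine ⟨h1, ?_, ?_⟩
    · have : p / (4 * B) * T = p / 4 * T' := by rw [hTT']; field_simp
      rw [this]; exact h2
    · rw [hTT']; exact h3
  · intro a ha b hb hab
    have := hY2 a ha b hb hab
    refine le_trans ?_ this
    rw [hh]
    exact div_le_div_of_nonneg_left hΛpos.le hlogpos hlogle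
  · refine le_trans ?_ hY3
    have e1 : c * T' / h = c * T' * Real.log T' / Λ := by
      rw [hh]; field_simp
    have e2 : c / (2 * B * Λ) * T * Real.log T = c * T' * (Real.log T / 2) / Λ := by
      rw [hTT']; field_simp
    rw [e1, e2]
    have e3 : Real.log T / 2 ≤ Real.log T' := by
      have h1 : Real.log T = Real.log B + Real.log T' := by
        rw [hTT', Real.log_mul hBpos.ne' hT'pos.ne']
      have h2 : Real.log B ≤ Real.log T' := by
        apply Real.log_le_log hBpos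
        rw [hT', le_div_iff₀ hBpos]
        nlinarith
      linarith
    have : c * T' * (Real.log T / 2) ≤ c * T' * Real.log T' :=
      mul_le_mul_of_nonneg_left e3 (by positivity)
    exact div_le_div_of_nonneg_right this hΛpos.le

end LX

end F_X_Z15
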