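import Pool.Agent.Lib.MP_0f5a55_nt.V.V02
import Pool.Agent.Lib.MP_0f5a55_nt.V.V48
import Pool.Agent.Lib.MP_0f5a55_nt.V.V50
import Pool.Agent.Lib.MP_0f5a55_nt.V.V81

section F_Z13

open Complex MeasureTheory Set Filter Topology
open scoped ComplexConjugate

namespace LZ

theorem Z13_Mol (s : ℂ) : Mol (1/2) 0 s = 1 := by
  have h1 : PP ⌊Real.exp 0⌋₊ = ∅ := by
    rw [Real.exp_zero, Nat.floor_one]
    ext p
    simp only [PP, Finset.mem_filter, Finset.mem_range, Finset.notMem_empty, iff_false, not_and]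
    intro h hp
    have := hp.two_le
    omega
  rw [Mol, h1]
  simp [cf, nS, wt]

theorem Z13_GG (l x : ℝ) : GG l x = GG 0 x * ‖Mol (1/2) l (1/2 + x * I)‖ ^ 2 := by
  rw [GG, GG, Z13_Mol]
  simp

/-- a strict inequality forces a sign change of GG, hence a zero of uu t * zeta(1/2+it) (if there were none in the closed
interval, by continuity uu*zeta is real of constant sign there and GG >= 0 or <= 0). -/
theorem zero_in (l t h : ℝ) (hh : 0 ≤ h)
    (hlt : |∫ x in t..(t + h), GG l x| < ∫ x in t..(t + h), |GG l x|) : ∃ g ∈ Gam, g ∈ Icc t (t + h) := by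
  by_contra hcon
  push Not at hcon
  obtain ⟨hc, habs, -, -⟩ := GG_facts
  have hth : t ≤ t + h := by linarith
  have hne : ∀ x ∈ Icc t (t + h), GG 0 x ≠ 0 := by
    intro x hx h0
    have h1 := habs 0 x
    rw [h0, abs_zero, Z13_Mol, one_pow, mul_one] at h1
    exact hcon x (norm_eq_zero.mp h1.symm) hx
  have ht : t ∈ Icc t (t + h) := ⟨le_refl _, hth⟩
  have huIcc : uIcc t (t + h) = Icc t (t + h) := uIcc_of_le hth
  rcases lt_or_gt_of_ne (hne t ht) with hneg | hpos
  · have hall : ∀ x ∈ Icc t (t + h), GG 0 x < 0 := by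
      intro x hx
      by_contra hx0
      have hx1 : 0 ≤ GG 0 x := not_lt.mp hx0
      obtain ⟨z, hz, hz0⟩ := intermediate_value_Icc hx.1 (hc 0).continuousOn ⟨hneg.le, hx1⟩
      exact hne z ⟨hz.1, hz.2.trans hx.2⟩ hz0
    have h1 : ∀ x ∈ Icc t (t + h), GG l x ≤ 0 := by
      intro x hx
      rw [Z13_GG]
      exact mul_nonpos_of_nonpos_of_nonneg (hall x hx).le (by positivity)
    have h2 : ∫ x in t..(t + h), |GG l x| = ∫ x in t..(t + h), -GG l x := by
      refine intervalIntegral.integral_congr fun x hx => ?_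
      rw [huIcc] at hx
      exact abs_of_nonpos (h1 x hx)
    rw [h2, intervalIntegral.integral_neg] at hlt
    have := neg_abs_le (∫ x in t..(t + h), GG l x)
    linarith [neg_abs_le (∫ x in t..(t + h), GG l x), le_abs_self (∫ x in t..(t + h), GG l x)]
  · have hall : ∀ x ∈ Icc t (t + h), 0 < GG 0 x := by
      intro x hx
      by_contra hx0
      have hx1 : GG 0 x ≤ 0 := not_lt.mp hx0
      obtain ⟨z, hz, hz0⟩ := intermediate_value_Icc' hx.1 (hc 0).continuousOn ⟨hx1, hpos.le⟩
      exact hne z ⟨hz.1, hz.2.trans hx.2⟩ hz0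
    have h1 : ∀ x ∈ Icc t (t + h), 0 ≤ GG l x := by
      intro x hx
      rw [Z13_GG]
      exact mul_nonneg (hall x hx).le (by positivity)
    have h2 : ∫ x in t..(t + h), |GG l x| = ∫ x in t..(t + h), GG l x := by
      refine intervalIntegral.integral_congr fun x hx => ?_
      rw [huIcc] at hx
      exact abs_of_nonneg (h1 x hx)
    rw [h2] at hlt
    linarith [le_abs_self (∫ x in t..(t + h), GG l x)]

end LZ

end F_Z13

section F_Z15

open Complex MeasureTheory Set Filter Topology
open scoped ComplexConjugate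

namespace LZ

private theorem Z15_cont {f : ℝ → ℝ} (hf : Continuous f) (h : ℝ) :
    Continuous (fun t : ℝ => ∫ x in t..(t + h), f x) := by
  have e : (fun t : ℝ => ∫ x in t..(t + h), f x) =
      fun t : ℝ => (∫ x in (0:ℝ)..(t + h), f x) - ∫ x in (0:ℝ)..t, f x := by
    funext t
    rw [intervalIntegral.integral_interval_sub_left (hf.intervalIntegrable _ _)
      (hf.intervalIntegrable _ _)]
  rw [e]
  have h1 : Continuous fun t : ℝ => ∫ x in (0:ℝ)..t, f x :=
    intervalIntegral.continuous_primitive (fun a b => hf.intervalIntegrable a b) 0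
  exact (h1.comp (continuous_id.add continuous_const)).sub h1

/-- Theorem S (Selberg): rescale T by 1/B. -/
theorem selberg_sep : ∃ c d η T0 : ℝ, 0 < c ∧ 0 < d ∧ 0 < η ∧ η ≤ 1/2 ∧ 2 ≤ T0 ∧ ∀ T : ℝ, T0 ≤ T → ∃ Y : Finset ℝ,
    (∀ y ∈ Y, y ∈ Gam ∧ η * T ≤ y ∧ y ≤ T) ∧ Sep (d / Real.log T) Y ∧ c * T * Real.log T ≤ Y.card := by
  obtain ⟨Λ, p0, T1, hΛ, hp0, hT1, hP⟩ := P_low
  set p : ℝ := min p0 1 with hp
  have hpp : 0 < p := lt_min hp0 one_pos
  have hp1 : p ≤ 1 := min_le_right _ _
  have hp2 : p ≤ p0 := min_le_left _ _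
  obtain ⟨c, B, hc, hB, hE⟩ := extract p hpp hp1
  have hBpos : 0 < B := by linarith
  have hΛpos : 0 < Λ := by linarith
  -- the threshold
  set T2 : ℝ := max (max T1 (Real.exp Λ)) (max (Real.exp 1) (Λ / c)) with hT2
  refine ⟨c / (2 * B * Λ), Λ, p / (4 * B), max (B * T2) (max (B ^ 2) 2), by positivity, hΛpos,
    by positivity, ?_, ?_, ?_⟩
  · rw [div_le_iff₀ (by positivity)]
    nlinarith
  · exact le_trans (le_max_right _ _) (le_max_right _ _)
  intro T hT
  have hT2' : B * T2 ≤ T := le_trans (le_max_left _ _) hT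
  have hTB : B ^ 2 ≤ T := le_trans (le_trans (le_max_left _ _) (le_max_right _ _)) hT
  set T' : ℝ := T / B with hT'
  have hT'2 : T2 ≤ T' := by rw [hT', le_div_iff₀ hBpos]; linarith
  have hT'1 : T1 ≤ T' := le_trans (le_trans (le_max_left _ _) (le_max_left _ _)) hT'2
  have hT'Λ : Real.exp Λ ≤ T' := le_trans (le_trans (le_max_right _ _) (le_max_left _ _)) hT'2
  have hT'e : Real.exp 1 ≤ T' := le_trans (le_trans (le_max_left _ _) (le_max_right _ _)) hT'2
  have hT'c : Λ / c ≤ T' := le_trans (le_trans (le_max_right _ _) (le_max_right _ _)) hT'2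
  have hT'pos : 0 < T' := by linarith
  have hlogΛ : Λ ≤ Real.log T' := (Real.le_log_iff_exp_le hT'pos).2 hT'Λ
  have hlog1 : 1 ≤ Real.log T' := (Real.le_log_iff_exp_le hT'pos).2 hT'e
  have hlogpos : 0 < Real.log T' := by linarith
  have hTT' : T = B * T' := by rw [hT']; field_simp
  have hT'T : T' ≤ T := by rw [hTT']; nlinarith
  have hTpos : 0 < T := by linarith
  have hlogle : Real.log T' ≤ Real.log T := Real.log_le_log hT'pos hT'T
  have hlogT : 0 < Real.log T := by linarith
  set h : ℝ := Λ / Real.log T' with hh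
  have hhpos : 0 < h := by positivity
  have hh1 : h ≤ 1 := by rw [hh, div_le_one hlogpos]; exact hlogΛ
  set l : ℝ := Real.log T' / 1500 with hl
  set S : Set ℝ := {t : ℝ | |∫ x in t..(t + h), GG l x| < ∫ x in t..(t + h), |GG l x|} with hS
  have hcont : Continuous (GG l) := GG_facts.1 l
  have hSm : MeasurableSet S := by
    apply IsOpen.measurableSet
    exact isOpen_lt (continuous_abs.comp (Z15_cont hcont h)) (Z15_cont (continuous_abs.comp hcont) h)
  have hPT := hP T' hT'1
  obtain ⟨Y, hY1, hY2, hY3⟩ := hE T' h (by linarith [Real.add_one_le_exp (1:ℝ)]) hhpos hh1 S Gam hSm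
    (le_trans hp2 hPT)
    (fun t ht _ => zero_in l t h hhpos.le ht) (by
      rw [ge_iff_le, le_div_iff₀ hhpos, one_mul]
      have e1 : Λ ≤ c * T' := by rw [div_le_iff₀ hc] at hT'c; linarith
      have e2 : h ≤ Λ := by rw [hh]; exact div_le_self hΛpos.le hlog1
      linarith)
  refine ⟨Y, ?_, ?_, ?_⟩
  · intro y hy
    obtain ⟨h1, h2, h3⟩ := hY1 y hy
    refine ⟨h1, ?_, ?_⟩
    · have : p / (4 * B) * T = p / 4 * T' := by rw [hTT']; field_simp
      rw [this]; exact h2
    · rw [hTT']; exact h3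
  · intro a ha b hb hab
    have := hY2 a ha b hb hab
    refine le_trans ?_ this
    rw [hh]
    exact div_le_div_of_nonneg_left hΛpos.le hlogpos hlogle
  · refine le_trans ?_ hY3
    have e1 : c * T' / h = c * T' * Real.log T' / Λ := by
      rw [hh]; field_simp
    have e2 : c / (2 * B * Λ) * T * Real.log T = c * T' * (Real.log T / 2) / Λ := by
      rw [hTT']; field_simp
    rw [e1, e2]
    have e3 : Real.log T / 2 ≤ Real.log T' := by
      have h1 : Real.log T = Real.log B + Real.log T' := by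
        rw [hTT', Real.log_mul hBpos.ne' hT'pos.ne']
      have h2 : Real.log B ≤ Real.log T' := by
        apply Real.log_le_log hBpos
        rw [hT', le_div_iff₀ hBpos]
        nlinarith
      linarith
    have : c * T' * (Real.log T / 2) ≤ c * T' * Real.log T' :=
      mul_le_mul_of_nonneg_left e3 (by positivity)
    exact div_le_div_of_nonneg_right this hΛpos.le

end LZ

end F_Z15
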