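import Pool.Agent.Lib.MP_0f5a55_nt.V.V30
import Pool.Agent.Lib.MP_0f5a55_nt.V.V35
import Pool.Agent.Lib.MP_0f5a55_nt.V.V45
import Pool.Agent.Lib.MP_0f5a55_nt.V.V48
import Pool.Agent.Lib.MP_0f5a55_nt.V.V62
import Pool.Agent.Lib.MP_0f5a55_nt.V.V71

section F_X_F05

open Complex MeasureTheory Set Filter Topology
open scoped ComplexConjugate

namespace LX

open LZ

/-- one value -/
theorem F05_point {q : ℕ} [NeZero q] {χ : DirichletCharacter ℂ q} {Cz : ℝ}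
    (hz : ∀ (t : ℝ) (N : ℕ), 1 ≤ N →
    ‖Lf χ (1/2 + t * I) - ∑ n ∈ Finset.Icc 1 N, χ (n : ZMod q) * (n : ℂ) ^ (-(1/2 + t * I))‖ ≤
      Cz * ((N : ℝ) ^ (-(1/2) : ℝ) + (1 + |t|) ^ 2 * (N : ℝ) ^ (-(3/2) : ℝ))) {l : ℝ} (hl : 0 < l)
    (t : ℝ) {N : ℕ} (hN : 1 ≤ N) :
    ‖FF χ l (1/2 + t * I) - (∑ n ∈ Finset.Icc 1 N, χ (n : ZMod q) * (n : ℂ) ^ (-(1/2 + t * I))) *
      Mol χ 1 l (1/2 + t * I)‖ ≤
      Cz * ((N : ℝ) ^ (-(1/2) : ℝ) + (1 + |t|) ^ 2 * (N : ℝ) ^ (-(3/2) : ℝ)) * Real.exp l := by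
  have h0 := hz t N hN
  have hmol : ‖Mol χ 1 l (1/2 + t * I)‖ ≤ Real.exp l :=
    Mol_bound χ zero_le_one le_rfl hl (by simp)
  have h8 : FF χ l (1/2 + t * I) - (∑ n ∈ Finset.Icc 1 N, χ (n : ZMod q) * (n : ℂ) ^ (-(1/2 + t * I))) *
      Mol χ 1 l (1/2 + t * I) =
      (Lf χ (1/2 + t * I) - ∑ n ∈ Finset.Icc 1 N, χ (n : ZMod q) * (n : ℂ) ^ (-(1/2 + t * I))) *
        Mol χ 1 l (1/2 + t * I) := by
    unfold FF
    ring
  rw [h8, norm_mul]
  exact mul_le_mul h0 hmol (norm_nonneg _) ((norm_nonneg _).trans h0)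

/-- (7.2) complete: L_em, |Mol| <= exp(l). -/
theorem main_sum {q : ℕ} [NeZero q] {χ : DirichletCharacter ℂ q} (hχ : χ ≠ 1)
    (r1 r2 d B : ℝ) (h1 : r1 ≠ 0) (h2 : r2 ≠ 0) (hd : 0 < d) (hB : 1 ≤ B) : ∀ κ : ℝ, 0 < κ →
    ∃ T0 : ℝ, 2 ≤ T0 ∧
    ∀ T : ℝ, T0 ≤ T → ∀ Y1 Y2 : Finset ℝ, (∀ y ∈ Y1, |y| ≤ T) → (∀ y ∈ Y2, |y| ≤ T) →
    LZ.Sep (d / Real.log T) Y1 → LZ.Sep (d / Real.log T) Y2 → ∀ x : ℝ, |x| ≤ B * T →
    ‖∑ y1 ∈ Y1, ∑ y2 ∈ Y2, FF χ (Real.log T / 1500) (1/2 + (r1 * y1 + r2 * y2 + x) * I) -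
      (Y1.card : ℂ) * Y2.card‖ ≤ κ * (T * Real.log T) ^ 2 := by
  intro κ hκ
  obtain ⟨Cz, hCz, hz⟩ := L_em hχ
  obtain ⟨C, T1, hC, hT1, hsep⟩ := sep_count r2 d h2 hd
  obtain ⟨T2, hT2, hpoly⟩ := poly_sum χ r1 r2 d h1 h2 hd (κ / 2) (by linarith)
  obtain ⟨B', hB'⟩ : ∃ B', B' = 1 + |r1| + |r2| + B := ⟨_, rfl⟩
  have hB'0 : 0 < B' := by rw [hB']; positivity
  obtain ⟨D, hD⟩ : ∃ D, D = Cz * (2 + 3 * B' ^ 2) := ⟨_, rfl⟩
  have hD0 : 0 < D := by rw [hD]; positivity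
  have hev : ∀ᶠ T : ℝ in atTop, (T1 ≤ T ∧ T2 ≤ T ∧ 2 ≤ T) ∧ 1 ≤ Real.log T ∧
      C ^ 2 * D * T ^ (-(1/16) : ℝ) ≤ κ / 2 := by
    refine Filter.Eventually.and ?_ (Filter.Eventually.and ?_ ?_)
    · exact (eventually_ge_atTop T1).and ((eventually_ge_atTop _).and (eventually_ge_atTop _))
    · exact Real.tendsto_log_atTop.eventually_ge_atTop _
    · have h1 : Tendsto (fun T : ℝ => C ^ 2 * D * T ^ (-(1/16) : ℝ)) atTop
          (𝓝 (C ^ 2 * D * 0)) := (tendsto_rpow_neg_atTop (by norm_num)).const_mul _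
      rw [mul_zero] at h1
      exact (h1.eventually_le_const (by positivity))
  obtain ⟨T0, hT0⟩ := Filter.eventually_atTop.mp hev
  refine ⟨max T0 2, le_max_right _ _, ?_⟩
  intro T hT Y1 Y2 hY1 hY2 hS1 hS2 x hx
  obtain ⟨⟨hTT1, hTT2, hT2'⟩, hL1, hTκ⟩ := hT0 T ((le_max_left _ _).trans hT)
  have hT00 : 0 < T := by linarith
  have hT11 : 1 ≤ T := by linarith
  have hL : 0 < Real.log T := by linarith
  obtain ⟨N, hN⟩ : ∃ N, N = ⌊T ^ (3/2 : ℝ)⌋₊ := ⟨_, rfl⟩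
  have hTN1 : 1 ≤ T ^ (3/2 : ℝ) := Real.one_le_rpow hT11 (by norm_num)
  have hN1 : 1 ≤ N := by
    rw [hN]
    exact Nat.le_floor (by exact_mod_cast hTN1)
  have hN0 : (0 : ℝ) < N := by exact_mod_cast hN1
  have hNge : T ^ (3/2 : ℝ) / 2 ≤ N := by
    have h3 : T ^ (3/2 : ℝ) < N + 1 := by
      rw [hN]
      exact Nat.lt_floor_add_one _
    have h4 : (1 : ℝ) ≤ N := by exact_mod_cast hN1
    linarith
  -- powers of N
  have h2p : ∀ a : ℝ, 0 ≤ a → (N : ℝ) ^ (-a) ≤ 2 ^ a * T ^ (-(3/2 * a)) := by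
    intro a ha
    calc (N : ℝ) ^ (-a) ≤ (T ^ (3/2 : ℝ) / 2) ^ (-a) :=
          Real.rpow_le_rpow_of_nonpos (by positivity) hNge (by linarith)
      _ = 2 ^ a * T ^ (-(3/2 * a)) := by
          rw [Real.div_rpow (by positivity) (by norm_num), ← Real.rpow_mul hT00.le,
            Real.rpow_neg (by norm_num) a, div_inv_eq_mul, mul_comm]
          congr 2
          ring
  have hNb : (N : ℝ) ^ (-(1/2) : ℝ) ≤ 2 * T ^ (-(1/4) : ℝ) := by
    have h3 := h2p (1/2) (by norm_num)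
    have h4 : (2 : ℝ) ^ (1/2 : ℝ) ≤ 2 := by
      calc (2 : ℝ) ^ (1/2 : ℝ) ≤ 2 ^ (1 : ℝ) :=
            Real.rpow_le_rpow_of_exponent_le (by norm_num) (by norm_num)
        _ = 2 := Real.rpow_one 2
    have h5 : T ^ (-(3/2 * (1/2)) : ℝ) ≤ T ^ (-(1/4) : ℝ) :=
      Real.rpow_le_rpow_of_exponent_le hT11 (by norm_num)
    have h6 : (2 : ℝ) ^ (1/2 : ℝ) * T ^ (-(3/2 * (1/2)) : ℝ) ≤ 2 * T ^ (-(1/4) : ℝ) :=
      mul_le_mul h4 h5 (by positivity) (by norm_num)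
    linarith
  have hNc : (N : ℝ) ^ (-(3/2) : ℝ) ≤ 3 * T ^ (-(9/4) : ℝ) := by
    have h3 := h2p (3/2) (by norm_num)
    have h4 : (2 : ℝ) ^ (3/2 : ℝ) ≤ 3 := by
      have h5 : ((2 : ℝ) ^ (3/2 : ℝ)) ^ 2 ≤ 3 ^ 2 := by
        rw [← Real.rpow_natCast, ← Real.rpow_mul (by norm_num)]
        norm_num
      exact (sq_le_sq₀ (by positivity) (by norm_num)).mp h5
    have h5 : T ^ (-(3/2 * (3/2)) : ℝ) = T ^ (-(9/4) : ℝ) := by
      congr 1
      norm_num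
    rw [h5] at h3
    exact h3.trans (mul_le_mul_of_nonneg_right h4 (by positivity))
  have hlpos : 0 < Real.log T / 1500 := by positivity
  have hexp : Real.exp (Real.log T / 1500) = T ^ (1/1500 : ℝ) := by
    rw [Real.rpow_def_of_pos hT00]
    congr 1
    ring
  -- the pointwise bound
  have hpt : ∀ y1 ∈ Y1, ∀ y2 ∈ Y2,
      ‖FF χ (Real.log T / 1500) (1/2 + (r1 * y1 + r2 * y2 + x) * I) -
        (∑ n ∈ Finset.Icc 1 N, χ (n : ZMod q) * (n : ℂ) ^ (-(1/2 + (r1 * y1 + r2 * y2 + x) * I))) *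
          Mol χ 1 (Real.log T / 1500) (1/2 + (r1 * y1 + r2 * y2 + x) * I)‖ ≤
      D * T ^ (-(1/4) : ℝ) * T ^ (1/1500 : ℝ) := by
    intro y1 hy1 y2 hy2
    obtain ⟨t, ht⟩ : ∃ t : ℝ, t = r1 * y1 + r2 * y2 + x := ⟨_, rfl⟩
    have htc : ((r1 : ℂ) * y1 + r2 * y2 + x) = (t : ℂ) := by
      rw [ht]
      push_cast
      ring
    rw [htc, ← hexp]
    refine (F05_point hz hlpos t hN1).trans ?_
    refine mul_le_mul_of_nonneg_right ?_ (Real.exp_pos _).le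
    have h3 : |t| ≤ (|r1| + |r2| + B) * T := by
      rw [ht]
      calc |r1 * y1 + r2 * y2 + x| ≤ |r1 * y1| + |r2 * y2| + |x| := abs_add_three _ _ _
        _ ≤ |r1| * T + |r2| * T + B * T := by
            rw [abs_mul, abs_mul]
            exact add_le_add (add_le_add (mul_le_mul_of_nonneg_left (hY1 y1 hy1) (abs_nonneg _))
              (mul_le_mul_of_nonneg_left (hY2 y2 hy2) (abs_nonneg _))) hx
        _ = (|r1| + |r2| + B) * T := by ring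
    have h4 : (1 + |t|) ^ 2 ≤ B' ^ 2 * T ^ 2 := by
      rw [← mul_pow]
      refine pow_le_pow_left₀ (by positivity) ?_ 2
      rw [hB']
      linarith
    have h6 : (1 + |t|) ^ 2 * (N : ℝ) ^ (-(3/2) : ℝ) ≤ 3 * B' ^ 2 * T ^ (-(1/4) : ℝ) := by
      calc (1 + |t|) ^ 2 * (N : ℝ) ^ (-(3/2) : ℝ)
          ≤ (B' ^ 2 * T ^ 2) * (3 * T ^ (-(9/4) : ℝ)) :=
            mul_le_mul h4 hNc (by positivity) (by positivity)
        _ = 3 * B' ^ 2 * (T ^ 2 * T ^ (-(9/4) : ℝ)) := by ring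
        _ = 3 * B' ^ 2 * T ^ (-(1/4) : ℝ) := by
            congr 1
            rw [← Real.rpow_natCast, ← Real.rpow_add hT00]
            congr 1
            norm_num
    calc Cz * ((N : ℝ) ^ (-(1/2) : ℝ) + (1 + |t|) ^ 2 * (N : ℝ) ^ (-(3/2) : ℝ)) ≤
        Cz * (2 * T ^ (-(1/4) : ℝ) + 3 * B' ^ 2 * T ^ (-(1/4) : ℝ)) :=
          mul_le_mul_of_nonneg_left (add_le_add hNb h6) hCz.le
      _ = D * T ^ (-(1/4) : ℝ) := by rw [hD]; ring
  -- counting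
  obtain ⟨hc1, _⟩ := hsep T hTT1 Y1 hY1 hS1
  obtain ⟨hc2, hr2⟩ := hsep T hTT1 Y2 hY2 hS2
  have hE0 : 0 < T ^ (1/1500 : ℝ) := Real.rpow_pos_of_pos hT00 _
  have hsum : ‖∑ y1 ∈ Y1, ∑ y2 ∈ Y2,
      (FF χ (Real.log T / 1500) (1/2 + (r1 * y1 + r2 * y2 + x) * I) -
        (∑ n ∈ Finset.Icc 1 N, χ (n : ZMod q) * (n : ℂ) ^ (-(1/2 + (r1 * y1 + r2 * y2 + x) * I))) *
          Mol χ 1 (Real.log T / 1500) (1/2 + (r1 * y1 + r2 * y2 + x) * I))‖ ≤
      κ / 2 * (T * Real.log T) ^ 2 := by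
    calc ‖∑ y1 ∈ Y1, ∑ y2 ∈ Y2,
      (FF χ (Real.log T / 1500) (1/2 + (r1 * y1 + r2 * y2 + x) * I) -
        (∑ n ∈ Finset.Icc 1 N, χ (n : ZMod q) * (n : ℂ) ^ (-(1/2 + (r1 * y1 + r2 * y2 + x) * I))) *
          Mol χ 1 (Real.log T / 1500) (1/2 + (r1 * y1 + r2 * y2 + x) * I))‖
        ≤ ∑ y1 ∈ Y1, ∑ y2 ∈ Y2, D * T ^ (-(1/4) : ℝ) * T ^ (1/1500 : ℝ) :=
          norm_sum_le_of_le _ fun y1 hy1 => norm_sum_le_of_le _ fun y2 hy2 => hpt y1 hy1 y2 hy2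
      _ = Y1.card * (Y2.card * (D * T ^ (-(1/4) : ℝ) * T ^ (1/1500 : ℝ))) := by
          rw [Finset.sum_const, Finset.sum_const, nsmul_eq_mul, nsmul_eq_mul]
      _ ≤ (C * T * Real.log T) * ((C * T * Real.log T) * (D * T ^ (-(1/4) : ℝ) * T ^ (1/1500 : ℝ))) :=
          mul_le_mul hc1 (mul_le_mul_of_nonneg_right hc2 (by positivity)) (by positivity)
            (by positivity)
      _ = C ^ 2 * D * (T ^ (-(1/4) : ℝ) * T ^ (1/1500 : ℝ)) * (T * Real.log T) ^ 2 := by ring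
      _ ≤ κ / 2 * (T * Real.log T) ^ 2 := by
          refine mul_le_mul_of_nonneg_right ?_ (sq_nonneg _)
          have h4 : T ^ (-(1/4) : ℝ) * T ^ (1/1500 : ℝ) ≤ T ^ (-(1/16) : ℝ) := by
            rw [← Real.rpow_add hT00]
            exact Real.rpow_le_rpow_of_exponent_le hT11 (by norm_num)
          exact (mul_le_mul_of_nonneg_left h4 (by positivity)).trans hTκ
  have hp := hpoly T hTT2 Y1 Y2 hY1 hY2 hS1 hS2 x
  rw [← hN] at hp
  have hsplit : ∑ y1 ∈ Y1, ∑ y2 ∈ Y2,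
      FF χ (Real.log T / 1500) (1/2 + (r1 * y1 + r2 * y2 + x) * I) - (Y1.card : ℂ) * Y2.card =
      (∑ y1 ∈ Y1, ∑ y2 ∈ Y2,
      (FF χ (Real.log T / 1500) (1/2 + (r1 * y1 + r2 * y2 + x) * I) -
        (∑ n ∈ Finset.Icc 1 N, χ (n : ZMod q) * (n : ℂ) ^ (-(1/2 + (r1 * y1 + r2 * y2 + x) * I))) *
          Mol χ 1 (Real.log T / 1500) (1/2 + (r1 * y1 + r2 * y2 + x) * I))) +
      (∑ y1 ∈ Y1, ∑ y2 ∈ Y2,
        ((∑ n ∈ Finset.Icc 1 N, χ (n : ZMod q) * (n : ℂ) ^ (-(1/2 + (r1 * y1 + r2 * y2 + x) * I))) *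
          Mol χ 1 (Real.log T / 1500) (1/2 + (r1 * y1 + r2 * y2 + x) * I)) -
        (Y1.card : ℂ) * Y2.card) := by
    simp only [Finset.sum_sub_distrib]
    ring
  rw [hsplit]
  calc _ ≤ κ / 2 * (T * Real.log T) ^ 2 + κ / 2 * (T * Real.log T) ^ 2 :=
        (norm_add_le _ _).trans (add_le_add hsum hp)
    _ = κ * (T * Real.log T) ^ 2 := by ring

end LX

end F_X_F05

section F_X_E07

open Complex MeasureTheory Set Filter Topology
open scoped ComplexConjugate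

namespace LX

open LZ

theorem E07_Mol_bound {q : ℕ} (χ : DirichletCharacter ℂ q) (lam l : ℝ) (σ : ℝ) :
    ∃ K : ℝ, 0 ≤ K ∧ ∀ s : ℂ, s.re = σ → ‖Mol χ lam l s‖ ≤ K := by
  refine ⟨∑ S ∈ (PQ q ⌊Real.exp l⌋₊).powerset, |cf lam l S| * (nS S : ℝ) ^ (-σ),
    Finset.sum_nonneg fun S _ => by positivity, fun s hs => ?_⟩
  unfold Mol
  refine (norm_sum_le _ _).trans (Finset.sum_le_sum fun S hS => ?_)
  rw [norm_mul, norm_mul, norm_natCast_cpow_of_pos (nS_pos' hS), Complex.norm_real, Real.norm_eq_abs,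
    neg_re, hs]
  have h1 : |cf lam l S| * ‖χ (nS S : ZMod q)‖ ≤ |cf lam l S| :=
    mul_le_of_le_one_right (abs_nonneg _) (norm_char_le χ _)
  exact mul_le_mul_of_nonneg_right h1 (by positivity)

theorem FF_conj {q : ℕ} [NeZero q] {χ : DirichletCharacter ℂ q} (hχ : χ ≠ 1) (l : ℝ) (s : ℂ) :
    FF χ⁻¹ l (conj s) = conj (FF χ l s) := by
  unfold FF
  rw [Lf_conj hχ, Mol_conj, map_mul]

theorem FF_cont {q : ℕ} [NeZero q] {χ : DirichletCharacter ℂ q} (hχ : χ ≠ 1) (l : ℝ) :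
    Continuous (FF χ l) := by
  unfold FF
  exact (Lf_diff hχ).continuous.mul (Mol_cont χ 1 l)

theorem E07_half (B : ℝ) (hB : 1 ≤ B) : ∃ C : ℝ, 0 < C ∧
    ∀ (q : ℕ) [NeZero q] (χ : DirichletCharacter ℂ q), χ.IsPrimitive → 1 < q →
    ∃ T0 : ℝ, 2 ≤ T0 ∧ ∀ T : ℝ, T0 ≤ T → ∀ σ : ℝ,
    |σ| ≤ 1 / (2 * Real.log T) →
    ∫ t in (0:ℝ)..(B * T), ‖FF χ (Real.log T / 1500) (1/2 + σ + t * I)‖ ^ 2 ≤ C * T := by
  obtain ⟨C0, hC0, hF⟩ := F_second
  refine ⟨Real.exp 1 * (B * C0), by positivity, fun q _ χ hχ hq => ?_⟩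
  have hne := ne_one hχ hq
  obtain ⟨T00, hT00, hF⟩ := hF q χ hχ hq 0 le_rfl
  obtain ⟨Cz, hCz, hz⟩ := L_pol hne
  refine ⟨max T00 (max (Real.exp 8) (B ^ 3)), hT00.trans (le_max_left _ _), fun T hT σ hσ => ?_⟩
  have hTa : T00 ≤ T := (le_max_left _ _).trans hT
  have hTb : Real.exp 8 ≤ T := ((le_max_left _ _).trans (le_max_right _ _)).trans hT
  have hTc : B ^ 3 ≤ T := ((le_max_right _ _).trans (le_max_right _ _)).trans hT
  have hT0 : (0:ℝ) < T := (Real.exp_pos 8).trans_le hTb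
  have hB0 : (0:ℝ) < B := by linarith
  have hL8 : 8 ≤ Real.log T := (Real.le_log_iff_exp_le hT0).mpr hTb
  have hLB0 : 0 ≤ Real.log B := Real.log_nonneg hB
  have hLB : 3 * Real.log B ≤ Real.log T := by
    have := Real.log_le_log (by positivity) hTc
    rw [Real.log_pow] at this
    exact_mod_cast this
  have hBT : 0 < B * T := by positivity
  have hTBT : T ≤ B * T := le_mul_of_one_le_left hT0.le hB
  have hLBT : Real.log (B * T) = Real.log B + Real.log T := Real.log_mul hB0.ne' hT0.ne'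
  have hσ16 : |σ| ≤ 1/16 := by
    refine hσ.trans ?_
    rw [div_le_div_iff₀ (by linarith) (by norm_num)]
    linarith
  have hσ2 := abs_le.mp hσ16
  set l : ℝ := Real.log T / 1500 with hl
  set F : ℝ → ℝ := fun t => ‖FF χ l (1/2 + σ + t * I)‖ ^ 2 with hFd
  have hre : ∀ t : ℝ, (1/2 + σ + t * I : ℂ).re = 1/2 + σ := fun t => by simp
  have him : ∀ t : ℝ, (1/2 + σ + t * I : ℂ).im = t := fun t => by simp
  have hFc : Continuous F :=
    Continuous.pow (Continuous.norm ((FF_cont hne l).comp (by fun_prop))) 2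
  have hF0 : ∀ t, 0 ≤ F t := fun t => by positivity
  obtain ⟨K, hK0, hK⟩ := E07_Mol_bound χ 1 l (1/2 + σ)
  have hFb : ∀ t, 0 ≤ t → F t ≤ (Cz * K) ^ 2 * (1 + t) ^ 2 := by
    intro t ht
    have h1 := hz (1/2 + σ + t * I) (by rw [hre]; linarith)
    rw [him, abs_of_nonneg ht] at h1
    have h2 := hK (1/2 + σ + t * I) (hre t)
    simp only [hFd]
    rw [FF, norm_mul]
    calc (‖Lf χ (1/2 + σ + t * I)‖ * ‖Mol χ 1 l (1/2 + σ + t * I)‖) ^ 2
        ≤ (Cz * (1 + t) * K) ^ 2 := by gcongr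
      _ = _ := by ring
  have hint : IntegrableOn (fun t => F t * Real.exp (-t / (B * T))) (Ioi 0) := by
    have hg : IntegrableOn (fun t : ℝ => (Cz * K) ^ 2 * (18 * (B * T) ^ 2) *
        Real.exp (-(1 / (2 * (B * T))) * t)) (Ioi 0) :=
      (integrableOn_exp_mul_Ioi (by
        have : 0 < 1 / (2 * (B * T)) := by positivity
        linarith) 0).const_mul _
    refine Integrable.mono' hg ?_ ?_
    · exact (hFc.mul (by fun_prop)).aestronglyMeasurable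
    · refine (ae_restrict_mem measurableSet_Ioi).mono fun t ht => ?_
      have ht0 : (0:ℝ) < t := ht
      rw [Real.norm_of_nonneg (mul_nonneg (hF0 t) (Real.exp_pos _).le)]
      have h1 := E07_sq_exp (T := B * T) (by
        have : 1 ≤ T := (Real.one_le_exp (by norm_num)).trans hTb
        linarith) ht0.le
      calc F t * Real.exp (-t / (B * T)) ≤
          ((Cz * K) ^ 2 * (1 + t) ^ 2) * Real.exp (-t / (B * T)) :=
            mul_le_mul_of_nonneg_right (hFb t ht0.le) (Real.exp_pos _).le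
        _ = (Cz * K) ^ 2 * ((1 + t) ^ 2 * Real.exp (-t / (B * T))) := by ring
        _ ≤ (Cz * K) ^ 2 * (18 * (B * T) ^ 2 * Real.exp (-(1 / (2 * (B * T))) * t)) := by gcongr
        _ = _ := by ring
  have hER := hF (B * T) (hTa.trans hTBT) l (by
      rw [hLBT, hl]
      linarith) (by
      rw [hLBT, hl]
      linarith) σ 0 (by
      refine hσ.trans ?_
      rw [hLBT, div_le_div_iff₀ (by linarith) (by linarith)]
      linarith) (by simp)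
  have hER2 : (B * T)⁻¹ * ∫ t in Ioi (0:ℝ), F t * Real.exp (-t / (B * T)) ≤ C0 := by
    have e : ER (B * T) (fun t => ‖FF χ l (1/2 + σ + (t + (0:ℝ)) * I)‖ ^ 2) =
        (B * T)⁻¹ * ∫ t in Ioi (0:ℝ), F t * Real.exp (-t / (B * T)) := by
      rw [ER]
      simp only [ofReal_zero, add_zero, hFd]
    rw [← e]
    exact hER
  have hmain : ∫ t in (0:ℝ)..(B * T), F t ≤ Real.exp 1 * (B * T * C0) := by
    rw [intervalIntegral.integral_of_le hBT.le]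
    have h1 : ∫ t in Ioc (0:ℝ) (B * T), F t ≤
        ∫ t in Ioc (0:ℝ) (B * T), Real.exp 1 * (F t * Real.exp (-t / (B * T))) := by
      refine setIntegral_mono_on ?_ ?_ measurableSet_Ioc fun t ht => ?_
      · exact (hFc.integrableOn_Icc).mono_set Ioc_subset_Icc_self
      · exact ((hint.mono_set Ioc_subset_Ioi_self).const_mul _)
      · have h2 : 1 ≤ Real.exp 1 * Real.exp (-t / (B * T)) := by
          rw [← Real.exp_add]
          refine Real.one_le_exp ?_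
          have : t / (B * T) ≤ 1 := (div_le_one hBT).mpr ht.2
          have e : -t / (B * T) = -(t / (B * T)) := by ring
          rw [e]
          linarith
        calc F t = F t * 1 := (mul_one _).symm
          _ ≤ F t * (Real.exp 1 * Real.exp (-t / (B * T))) := mul_le_mul_of_nonneg_left h2 (hF0 t)
          _ = _ := by ring
    refine h1.trans ?_
    rw [integral_const_mul]
    refine mul_le_mul_of_nonneg_left ?_ (Real.exp_pos _).le
    have h3 : ∫ t in Ioc (0:ℝ) (B * T), F t * Real.exp (-t / (B * T)) ≤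
        ∫ t in Ioi (0:ℝ), F t * Real.exp (-t / (B * T)) :=
      setIntegral_mono_set hint
        (Eventually.of_forall fun t => mul_nonneg (hF0 t) (Real.exp_pos _).le)
        (LE.le.eventuallyLE Ioc_subset_Ioi_self)
    refine h3.trans ?_
    rw [inv_mul_le_iff₀ hBT] at hER2
    exact hER2
  calc ∫ t in (0:ℝ)..(B * T), F t ≤ Real.exp 1 * (B * T * C0) := hmain
    _ = _ := by ring

/-- second moment on [-BT,BT]; conj symmetry turns negative t into the inverse character. -/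
theorem F_sym (B : ℝ) (hB : 1 ≤ B) : ∃ C : ℝ, 0 < C ∧
    ∀ (q : ℕ) [NeZero q] (χ : DirichletCharacter ℂ q), χ.IsPrimitive → 1 < q →
    ∃ T0 : ℝ, 2 ≤ T0 ∧ ∀ T : ℝ, T0 ≤ T → ∀ σ : ℝ,
    |σ| ≤ 1 / (2 * Real.log T) →
    ∫ t in (-(B * T))..(B * T), ‖FF χ (Real.log T / 1500) (1/2 + σ + t * I)‖ ^ 2 ≤ C * T := by
  obtain ⟨C1, hC1, h0⟩ := E07_half B hB
  refine ⟨C1 + C1, by positivity, fun q _ χ hχ hq => ?_⟩
  have hne := ne_one hχ hq
  obtain ⟨T1, hT1, h1⟩ := h0 q χ hχ hq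
  obtain ⟨T2, hT2, h2⟩ := h0 q χ⁻¹ (prim_inv hχ) hq
  refine ⟨max T1 T2, hT1.trans (le_max_left _ _), fun T hT σ hσ => ?_⟩
  have h1' := h1 T ((le_max_left _ _).trans hT) σ hσ
  have h2' := h2 T ((le_max_right _ _).trans hT) σ hσ
  set l : ℝ := Real.log T / 1500 with hl
  have hFc : Continuous (fun t : ℝ => ‖FF χ l (1/2 + σ + t * I)‖ ^ 2) :=
    Continuous.pow (Continuous.norm ((FF_cont hne l).comp (by fun_prop))) 2
  have hii : ∀ a b, IntervalIntegrable (fun t : ℝ => ‖FF χ l (1/2 + σ + t * I)‖ ^ 2) volume a b :=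
    fun a b => hFc.intervalIntegrable a b
  rw [← intervalIntegral.integral_add_adjacent_intervals (hii (-(B * T)) 0) (hii 0 (B * T))]
  have h3 : ∫ t in (-(B * T))..(0:ℝ), ‖FF χ l (1/2 + σ + t * I)‖ ^ 2 =
      ∫ t in (0:ℝ)..(B * T), ‖FF χ⁻¹ l (1/2 + σ + t * I)‖ ^ 2 := by
    have h4 := intervalIntegral.integral_comp_neg (a := 0) (b := B * T)
      (fun t : ℝ => ‖FF χ l (1/2 + σ + t * I)‖ ^ 2)
    rw [neg_zero] at h4
    rw [← h4]
    refine intervalIntegral.integral_congr fun t _ => ?_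
    have e : (1/2 + σ + ((-t : ℝ) : ℂ) * I : ℂ) = conj (1/2 + σ + t * I : ℂ) := by
      apply Complex.ext
      · simp
      · simp
    have h5 := FF_conj (inv_ne_one.mpr hne) l (1/2 + σ + t * I)
    rw [inv_inv] at h5
    rw [e, h5, RCLike.norm_conj]
  rw [h3]
  linarith

end LX

end F_X_E07
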