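import Pool.Agent.Lib.MP_0f5a55_nt.V.V22
import Pool.Agent.Lib.MP_0f5a55_nt.V.V35
import Pool.Agent.Lib.MP_0f5a55_nt.V.V84

section F_X_E08

open Complex MeasureTheory Set Filter Topology
open scoped ComplexConjugate

namespace LX

open LZ

theorem FF_diff {q : ℕ} [NeZero q] {χ : DirichletCharacter ℂ q} (hχ : χ ≠ 1) (l : ℝ) :
    Differentiable ℂ (FF χ l) := by
  unfold FF
  exact (Lf_diff hχ).mul (Mol_diff χ 1 l)

/-- f(s) = FF(l, s), points ry+c, separated by |r|d/log T. -/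
theorem F_points (r d B : ℝ) (hr : r ≠ 0) (hd : 0 < d) (hB : 1 ≤ B) : ∃ C : ℝ, 0 < C ∧
    ∀ (q : ℕ) [NeZero q] (χ : DirichletCharacter ℂ q), χ.IsPrimitive → 1 < q → ∃ T0 : ℝ, 2 ≤ T0 ∧
    ∀ T : ℝ, T0 ≤ T → ∀ Y : Finset ℝ, (∀ y ∈ Y, |y| ≤ T) → LZ.Sep (d / Real.log T) Y → ∀ c : ℝ, |c| ≤ B * T →
    ∑ y ∈ Y, ‖FF χ (Real.log T / 1500) (1/2 + (r * y + c) * I)‖ ^ 2 ≤ C * T * Real.log T := by
  have hr' : 0 < |r| := abs_pos.2 hr
  set κ : ℝ := min (|r| * d / 2) (1 / 2) with hκ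
  have hκ0 : 0 < κ := lt_min (by positivity) (by norm_num)
  have hκ1 : κ ≤ |r| * d / 2 := min_le_left _ _
  have hκ2 : κ ≤ 1 / 2 := min_le_right _ _
  obtain ⟨C, hC, hF⟩ := F_sym (|r| + B + 1) (by linarith)
  refine ⟨2 * C / (Real.pi * κ), by positivity, fun q _ χ hχ hq => ?_⟩
  obtain ⟨T0, hT0, hF⟩ := hF q χ hχ hq
  refine ⟨max T0 3, hT0.trans (le_max_left _ _), ?_⟩
  intro T hT Y hY hsep c hc
  have hTT0 : T0 ≤ T := (le_max_left _ _).trans hT
  have hT3 : 3 ≤ T := (le_max_right _ _).trans hT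
  have hTpos : 0 < T := by linarith
  set L : ℝ := Real.log T with hL
  have hL1 : 1 < L := by
    rw [hL, Real.lt_log_iff_exp_lt hTpos]
    have := Real.exp_one_lt_d9
    linarith
  have hL0 : 0 < L := by linarith
  set ρ : ℝ := κ / L with hρ
  have hρ0 : 0 < ρ := by positivity
  have hρ1 : ρ ≤ 1 / (2 * L) := by
    rw [hρ, div_le_div_iff₀ hL0 (by positivity)]
    nlinarith
  have hρ2 : ρ < 1 / 2 := by
    refine lt_of_le_of_lt hρ1 ?_
    rw [div_lt_div_iff₀ (by positivity) (by norm_num)]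
    linarith
  set f : ℂ → ℂ := FF χ (L / 1500) with hf
  have hfd : ∀ z : ℂ, |z.re - 1 / 2| ≤ ρ → DifferentiableAt ℂ f z :=
    fun z _ => FF_diff (ne_one hχ hq) _ z
  set b : ℝ := (|r| + B) * T with hb
  have hb0 : 0 ≤ b := by positivity
  set Y' : Finset ℝ := Y.image (fun y => r * y + c) with hY'
  have hY'b : ∀ y ∈ Y', -b ≤ y ∧ y ≤ b := by
    intro x hx
    obtain ⟨y, hy, rfl⟩ := Finset.mem_image.1 hx
    have h1 : |r * y + c| ≤ b := by
      calc |r * y + c| ≤ |r * y| + |c| := abs_add_le _ _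
        _ = |r| * |y| + |c| := by rw [abs_mul]
        _ ≤ |r| * T + B * T := add_le_add (mul_le_mul_of_nonneg_left (hY y hy) hr'.le) hc
        _ = b := by rw [hb]; ring
    exact abs_le.1 h1
  have hsep' : LZ.Sep (2 * ρ) Y' := by
    intro x hx x' hx' hne
    obtain ⟨y, hy, rfl⟩ := Finset.mem_image.1 hx
    obtain ⟨y', hy', rfl⟩ := Finset.mem_image.1 hx'
    have hyy : y ≠ y' := by
      rintro rfl
      exact hne rfl
    have h1 := hsep y hy y' hy' hyy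
    have h2 : |r * y + c - (r * y' + c)| = |r| * |y - y'| := by
      rw [← abs_mul]; congr 1; ring
    rw [h2]
    calc 2 * ρ = 2 * κ / L := by rw [hρ]; ring
      _ ≤ |r| * d / L := by
          apply div_le_div_of_nonneg_right _ hL0.le
          linarith
      _ = |r| * (d / L) := by ring
      _ ≤ |r| * |y - y'| := mul_le_mul_of_nonneg_left h1 hr'.le
  have hmain := sum_sep (f := f) hρ0 (by linarith : -b ≤ b) Y' hY'b hsep'
    (fun z hz _ _ => hfd z hz)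
  have hinj : Set.InjOn (fun y : ℝ => r * y + c) (Y : Set ℝ) := by
    intro y _ y' _ h
    have h1 : r * y + c = r * y' + c := h
    exact mul_left_cancel₀ hr (by linarith)
  have hsum : ∑ y ∈ Y, ‖f (1/2 + (r * y + c) * I)‖ ^ 2 =
      ∑ y ∈ Y', ‖f (1/2 + y * I)‖ ^ 2 := by
    rw [hY', Finset.sum_image hinj]
    refine Finset.sum_congr rfl (fun y _ => ?_)
    push_cast
    rfl
  have hinner : ∀ σ : ℝ, |σ| ≤ ρ →
      ‖∫ t in (-b - ρ)..(b + ρ), ‖f (1/2 + σ + t * I)‖ ^ 2‖ ≤ C * T := by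
    intro σ hσ
    have hcont : Continuous (fun t : ℝ => ‖f (1/2 + σ + t * I)‖ ^ 2) := by
      have h1 : Continuous (fun t : ℝ => f (1/2 + σ + t * I)) := by
        rw [continuous_iff_continuousAt]
        intro t
        have h2 : ContinuousAt f (1/2 + σ + t * I) := by
          apply (hfd _ _).continuousAt
          have h3 : ((1/2 : ℂ) + σ + t * I).re - 1/2 = σ := by simp
          rw [h3]
          exact hσ
        have h4 : ContinuousAt (fun t : ℝ => (1/2 : ℂ) + σ + t * I) t := by fun_prop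
        have h5 := ContinuousAt.comp (f := fun t : ℝ => (1/2 : ℂ) + σ + t * I) (x := t) h2 h4
        exact h5
      exact h1.norm.pow 2
    have hle : -b - ρ ≤ b + ρ := by linarith
    have hnn : 0 ≤ ∫ t in (-b - ρ)..(b + ρ), ‖f (1/2 + σ + t * I)‖ ^ 2 :=
      intervalIntegral.integral_nonneg hle (fun t _ => by positivity)
    rw [Real.norm_of_nonneg hnn]
    have h1 : ∫ t in (-b - ρ)..(b + ρ), ‖f (1/2 + σ + t * I)‖ ^ 2 ≤
        ∫ t in (-((|r| + B + 1) * T))..((|r| + B + 1) * T), ‖f (1/2 + σ + t * I)‖ ^ 2 := by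
      have hρT : ρ ≤ T := by linarith
      have hexp : (|r| + B + 1) * T = b + T := by rw [hb]; ring
      refine intervalIntegral.integral_mono_interval ?_ hle ?_ ?_ (hcont.intervalIntegrable _ _)
      · rw [hexp]; linarith
      · rw [hexp]; linarith
      · exact Eventually.of_forall (fun t => by positivity)
    exact h1.trans (hF T hTT0 σ (hσ.trans hρ1))
  have houter : ∫ σ in (-ρ)..ρ, ∫ t in (-b - ρ)..(b + ρ), ‖f (1/2 + σ + t * I)‖ ^ 2 ≤
      C * T * (2 * ρ) := by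
    have h1 := intervalIntegral.norm_integral_le_of_norm_le_const (a := -ρ) (b := ρ) (C := C * T)
      (f := fun σ : ℝ => ∫ t in (-b - ρ)..(b + ρ), ‖f (1/2 + σ + t * I)‖ ^ 2) (by
        intro σ hσ
        rw [Set.uIoc_of_le (by linarith)] at hσ
        apply hinner
        rw [abs_le]
        exact ⟨hσ.1.le, hσ.2⟩)
    have h2 : |ρ - -ρ| = 2 * ρ := by
      rw [abs_of_nonneg (by linarith)]; ring
    rw [h2] at h1
    exact (le_abs_self _).trans h1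
  rw [hsum]
  calc ∑ y ∈ Y', ‖f (1/2 + y * I)‖ ^ 2 ≤ (Real.pi * ρ ^ 2)⁻¹ *
        ∫ σ in (-ρ)..ρ, ∫ t in (-b - ρ)..(b + ρ), ‖f (1/2 + σ + t * I)‖ ^ 2 := hmain
    _ ≤ (Real.pi * ρ ^ 2)⁻¹ * (C * T * (2 * ρ)) :=
        mul_le_mul_of_nonneg_left houter (by positivity)
    _ = 2 * C / (Real.pi * κ) * T * L := by
        rw [hρ]
        field_simp

end LX

end F_X_E08

section F_X_F06

open Complex MeasureTheory Set Filter Topology
open scoped ComplexConjugate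

namespace LX

open LZ

/-- robust form of Theorem I (Cauchy-Schwarz, 7.3). -/
theorem robust (r1 r2 d δ B : ℝ) (h1 : r1 ≠ 0) (h2 : r2 ≠ 0) (hd : 0 < d) (hδ : 0 < δ) (hB : 1 ≤ B) :
    ∃ c : ℝ, 0 < c ∧ ∀ (q : ℕ) [NeZero q] (χ : DirichletCharacter ℂ q), χ.IsPrimitive → 1 < q →
    ∃ T0 : ℝ, 2 ≤ T0 ∧ ∀ T : ℝ, T0 ≤ T → ∀ Y1 Y2 : Finset ℝ, (∀ y ∈ Y1, |y| ≤ T) → (∀ y ∈ Y2, |y| ≤ T) →
    LZ.Sep (d / Real.log T) Y1 → LZ.Sep (d / Real.log T) Y2 → δ * T * Real.log T ≤ Y1.card → δ * T * Real.log T ≤ Y2.card →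
    ∀ x : ℝ, |x| ≤ B * T →
    c * (T * Real.log T) ^ 2 ≤
      ((Y1 ×ˢ Y2).filter (fun y => Lf χ (1/2 + (r1 * y.1 + r2 * y.2 + x) * I) ≠ 0)).card := by
  have hB' : 1 ≤ B + |r1| := by linarith [abs_nonneg r1]
  obtain ⟨C1, hC1, HB⟩ := F_points r2 d (B + |r1|) h2 hd hB'
  obtain ⟨C2, TC, hC2, hTC, HC⟩ := sep_count r1 d h1 hd
  refine ⟨(δ ^ 2 / 2) ^ 2 / (C1 * C2), by positivity, fun q _ χ hχ hq => ?_⟩
  obtain ⟨TA, hTA, HA⟩ := main_sum (ne_one hχ hq) r1 r2 d B h1 h2 hd hB (δ ^ 2 / 2) (by positivity)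
  obtain ⟨TB, hTB, HB⟩ := HB q χ hχ hq
  refine ⟨max TA (max TB TC), hTA.trans (le_max_left _ _),
    fun T hT Y1 Y2 hY1 hY2 hS1 hS2 hc1 hc2 x hx => ?_⟩
  have hTA' : TA ≤ T := (le_max_left _ _).trans hT
  have hTB' : TB ≤ T := ((le_max_left _ _).trans (le_max_right _ _)).trans hT
  have hTC' : TC ≤ T := ((le_max_right _ _).trans (le_max_right _ _)).trans hT
  have hT2 : 2 ≤ T := hTA.trans hTA'
  have hL0 : 0 < Real.log T := Real.log_pos (by linarith)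
  have hT0 : 0 < T := by linarith
  set P : ℝ := T * Real.log T with hP
  have hP0 : 0 < P := by positivity
  have hmain := HA T hTA' Y1 Y2 hY1 hY2 hS1 hS2 x hx
  have hcard := (HC T hTC' Y1 hY1 hS1).1
  set F : ℝ × ℝ → ℂ := fun y => FF χ (Real.log T / 1500) (1/2 + (r1 * y.1 + r2 * y.2 + x) * I) with hF
  set Z := (Y1 ×ˢ Y2).filter (fun y => Lf χ (1/2 + (r1 * y.1 + r2 * y.2 + x) * I) ≠ 0) with hZ
  -- total sum equals the sum over Z
  have hsum : ∑ y1 ∈ Y1, ∑ y2 ∈ Y2, FF χ (Real.log T / 1500) (1/2 + (r1 * y1 + r2 * y2 + x) * I) =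
      ∑ y ∈ Z, F y := by
    rw [hZ, Finset.sum_filter_of_ne, Finset.sum_product]
    intro y _ hy hz
    apply hy
    rw [hF]
    simp only [FF]
    rw [hz, zero_mul]
  rw [hsum] at hmain
  -- second moment
  have hsq : ∑ y ∈ Z, ‖F y‖ ^ 2 ≤ C1 * C2 * P ^ 2 := by
    calc ∑ y ∈ Z, ‖F y‖ ^ 2 ≤ ∑ y ∈ Y1 ×ˢ Y2, ‖F y‖ ^ 2 :=
          Finset.sum_le_sum_of_subset_of_nonneg (Finset.filter_subset _ _) fun _ _ _ => by positivity
      _ = ∑ y1 ∈ Y1, ∑ y2 ∈ Y2, ‖F (y1, y2)‖ ^ 2 := by rw [Finset.sum_product]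
      _ ≤ ∑ y1 ∈ Y1, C1 * T * Real.log T := by
          refine Finset.sum_le_sum fun y1 hy1 => ?_
          have hc : |r1 * y1 + x| ≤ (B + |r1|) * T := by
            calc |r1 * y1 + x| ≤ |r1 * y1| + |x| := abs_add_le _ _
              _ ≤ |r1| * T + B * T := by
                  rw [abs_mul]
                  gcongr
                  exact hY1 y1 hy1
              _ = (B + |r1|) * T := by ring
          have := HB T hTB' Y2 hY2 hS2 (r1 * y1 + x) hc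
          refine le_trans (le_of_eq ?_) this
          refine Finset.sum_congr rfl fun y2 _ => ?_
          have e3 : (1/2 + ((r1:ℂ) * y1 + r2 * y2 + x) * I) =
              1/2 + ((r2:ℂ) * y2 + ((r1 * y1 + x : ℝ) : ℂ)) * I := by
            push_cast
            ring
          simp only [hF]
          rw [e3]
      _ = Y1.card * (C1 * T * Real.log T) := by rw [Finset.sum_const, nsmul_eq_mul]
      _ ≤ (C2 * T * Real.log T) * (C1 * T * Real.log T) := by gcongr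
      _ = C1 * C2 * P ^ 2 := by rw [hP]; ring
  -- Cauchy-Schwarz
  have hCS : ‖∑ y ∈ Z, F y‖ ^ 2 ≤ (Z.card : ℝ) * ∑ y ∈ Z, ‖F y‖ ^ 2 := by
    calc ‖∑ y ∈ Z, F y‖ ^ 2 ≤ (∑ y ∈ Z, ‖F y‖) ^ 2 :=
          pow_le_pow_left₀ (norm_nonneg _) (norm_sum_le _ _) 2
      _ ≤ _ := sq_sum_le_card_mul_sum_sq
  have hlow : δ ^ 2 / 2 * P ^ 2 ≤ ‖∑ y ∈ Z, F y‖ := by
    have h3 : (δ * P) ^ 2 ≤ (Y1.card : ℝ) * Y2.card := by
      have e1 : δ * P ≤ Y1.card := by rw [hP, ← mul_assoc]; exact hc1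
      have e2 : δ * P ≤ Y2.card := by rw [hP, ← mul_assoc]; exact hc2
      rw [sq]
      exact mul_le_mul e1 e2 (by positivity) (Nat.cast_nonneg _)
    have h4 : ‖(Y1.card : ℂ) * Y2.card‖ = (Y1.card : ℝ) * Y2.card := by
      rw [norm_mul, Complex.norm_natCast, Complex.norm_natCast]
    have h5 := norm_sub_norm_le ((Y1.card : ℂ) * Y2.card) (∑ y ∈ Z, F y)
    rw [norm_sub_rev, h4] at h5
    nlinarith
  have hlow2 : (δ ^ 2 / 2 * P ^ 2) ^ 2 ≤ (Z.card : ℝ) * (C1 * C2 * P ^ 2) :=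
    (pow_le_pow_left₀ (by positivity) hlow 2).trans
      (hCS.trans (mul_le_mul_of_nonneg_left hsq (Nat.cast_nonneg _)))
  have hfin : (δ ^ 2 / 2) ^ 2 * P ^ 2 ≤ (Z.card : ℝ) * (C1 * C2) := by
    have hP2 : 0 < P ^ 2 := by positivity
    have : ((δ ^ 2 / 2) ^ 2 * P ^ 2) * P ^ 2 ≤ ((Z.card : ℝ) * (C1 * C2)) * P ^ 2 := by
      calc ((δ ^ 2 / 2) ^ 2 * P ^ 2) * P ^ 2 = (δ ^ 2 / 2 * P ^ 2) ^ 2 := by ring
        _ ≤ (Z.card : ℝ) * (C1 * C2 * P ^ 2) := hlow2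
        _ = ((Z.card : ℝ) * (C1 * C2)) * P ^ 2 := by ring
    exact le_of_mul_le_mul_right this hP2
  rw [div_mul_eq_mul_div, div_le_iff₀ (by positivity)]
  exact hfin

end LX

end F_X_F06
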