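import Pool.Agent.Lib.MP_0f5a55_nt.V.V48
import Pool.Agent.Lib.MP_0f5a55_nt.V.V63
import Pool.Agent.Lib.MP_0f5a55_nt.V.V64
import Pool.Agent.Lib.MP_0f5a55_nt.V.V82
import Pool.Agent.Lib.MP_0f5a55_nt.V.V83
import Pool.Agent.Lib.MP_0f5a55_nt.V.V85

section F_X_Fin

open Complex MeasureTheory Set Filter Topology
open scoped ComplexConjugate

namespace LX

open LZ

theorem Fin_one (χ : DirichletCharacter ℂ 1) : Gam χ = LZ.Gam := by
  ext g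
  unfold Gam LZ.Gam Lf
  rw [Set.mem_ofPred_eq, Set.mem_ofPred_eq, DirichletCharacter.LFunction_modOne_eq]

theorem Fin_level {M N : ℕ} [NeZero M] [NeZero N] (hMN : M ∣ N) (χ : DirichletCharacter ℂ M) :
    Gam (DirichletCharacter.changeLevel hMN χ) = Gam χ := by
  ext g
  have hs : (1/2 + g * I : ℂ) ≠ 1 := by
    intro h
    have := congrArg Complex.re h
    simp at this
  unfold Gam Lf
  rw [Set.mem_ofPred_eq, Set.mem_ofPred_eq, DirichletCharacter.LFunction_changeLevel hMN χ (Or.inr hs),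
    mul_eq_zero, or_iff_left]
  rw [Finset.prod_eq_zero_iff]
  rintro ⟨p, hp, h0⟩
  have hp1 := (Nat.prime_of_mem_primeFactors hp)
  have h1 : ‖χ (p : ZMod M) * (p : ℂ) ^ (-(1/2 + g * I : ℂ))‖ < 1 := by
    rw [norm_mul, Complex.norm_natCast_cpow_of_pos hp1.pos]
    have hre : (-(1/2 + g * I : ℂ)).re = -(1/2) := by simp
    rw [hre]
    have h2 : (p : ℝ) ^ (-(1/2) : ℝ) < 1 :=
      Real.rpow_lt_one_of_one_lt_of_neg (by exact_mod_cast hp1.one_lt) (by norm_num)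
    have h3 : 0 ≤ (p : ℝ) ^ (-(1/2) : ℝ) := by positivity
    calc ‖χ (p : ZMod M)‖ * (p : ℝ) ^ (-(1/2) : ℝ) ≤ 1 * (p : ℝ) ^ (-(1/2) : ℝ) :=
          mul_le_mul_of_nonneg_right (χ.norm_le_one _) h3
      _ < 1 := by rw [one_mul]; exact h2
  rw [sub_eq_zero] at h0
  rw [← h0, norm_one] at h1
  exact lt_irrefl _ h1

theorem Fin_prim {P : Set ℝ → Prop} (h1 : P LZ.Gam)
    (h2 : ∀ (q : ℕ) [NeZero q] (χ : DirichletCharacter ℂ q), χ.IsPrimitive → 1 < q → P (Gam χ))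
    (d : ℕ) [NeZero d] (ψ : DirichletCharacter ℂ d) (hψ : ψ.IsPrimitive) : P (Gam ψ) := by
  rcases Nat.lt_or_ge 1 d with hd | hd
  · exact h2 d ψ hψ hd
  · have h3 : d = 1 := le_antisymm hd (Nat.pos_of_ne_zero (NeZero.ne d))
    subst h3
    rw [Fin_one]
    exact h1

theorem Fin_ind {P : Set ℝ → Prop} (h1 : P LZ.Gam)
    (h2 : ∀ (q : ℕ) [NeZero q] (χ : DirichletCharacter ℂ q), χ.IsPrimitive → 1 < q → P (Gam χ))
    {q : ℕ} [NeZero q] (χ : DirichletCharacter ℂ q) : P (Gam χ) := by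
  haveI : NeZero χ.conductor := ⟨χ.conductor_ne_zero⟩
  have e := Fin_level χ.conductor_dvd_level χ.primitiveCharacter
  rw [χ.changeLevel_primitiveCharacter] at e
  rw [e]
  exact Fin_prim h1 h2 χ.conductor χ.primitiveCharacter χ.primitiveCharacter_isPrimitive

theorem Selb_mono {c d η c' d' η' : ℝ} (hc : c' ≤ c) (hd : d' ≤ d) (hη : η' ≤ η) {Γ : Set ℝ}
    (h : Selb c d η Γ) : Selb c' d' η' Γ := by
  obtain ⟨T0, hT0, h⟩ := h
  refine ⟨T0, hT0, fun T hT => ?_⟩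
  obtain ⟨Y, h1, h2, h3⟩ := h T hT
  have hT1 : 0 < T := by linarith
  have hlog : 0 < Real.log T := Real.log_pos (by linarith)
  refine ⟨Y, fun y hy => ?_, fun a ha b hb hab => ?_, le_trans ?_ h3⟩
  · obtain ⟨k1, k2, k3⟩ := h1 y hy
    exact ⟨k1, le_trans (mul_le_mul_of_nonneg_right hη hT1.le) k2, k3⟩
  · exact le_trans (div_le_div_of_nonneg_right hd hlog.le) (h2 a ha b hb hab)
  · gcongr

/-- Selberg's theorem for all Dirichlet characters with absolute proportion -/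
theorem Selb_all : ∃ c d η : ℝ, 0 < c ∧ 0 < d ∧ 0 < η ∧ η ≤ 1/2 ∧
    ∀ (q : ℕ) [NeZero q] (χ : DirichletCharacter ℂ q), Selb c d η (Gam χ) := by
  obtain ⟨c1, d1, η1, T1, hc1, hd1, hη1, hη1', hT1, h1⟩ := LZ.selberg_sep
  obtain ⟨c2, d2, η2, hc2, hd2, hη2, hη2', h2⟩ := selberg_sep
  refine ⟨min c1 c2, min d1 d2, min η1 η2, lt_min hc1 hc2, lt_min hd1 hd2, lt_min hη1 hη2,
    (min_le_left _ _).trans hη1', ?_⟩
  intro q _ χ
  refine Fin_ind (P := Selb (min c1 c2) (min d1 d2) (min η1 η2)) ?_ ?_ χ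
  · exact Selb_mono (min_le_left _ _) (min_le_left _ _) (min_le_left _ _) ⟨T1, hT1, h1⟩
  · intro q _ χ hχ hq
    exact Selb_mono (min_le_right _ _) (min_le_right _ _) (min_le_right _ _) (h2 q χ hχ hq)

theorem Cnt_all : ∃ C : ℝ, 0 < C ∧ ∀ (q : ℕ) [NeZero q] (χ : DirichletCharacter ℂ q), Cnt C (Gam χ) := by
  obtain ⟨C1, T1, hC1, hT1, h1⟩ := LZ.Gam_count
  obtain ⟨C2, hC2, h2⟩ := Gam_count
  refine ⟨max C1 C2, lt_max_of_lt_left hC1, fun q _ χ => ?_⟩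
  refine Fin_ind (P := Cnt (max C1 C2)) ?_ ?_ χ
  · refine ⟨T1, hT1, fun T hT => ⟨(h1 T hT).1, (h1 T hT).2.trans ?_⟩⟩
    have hT0 : 0 < T := by linarith
    have hlog : 0 ≤ Real.log T := Real.log_nonneg (by linarith)
    gcongr
    exact le_max_left _ _
  · intro q _ χ hχ hq
    obtain ⟨T0, hT0, h⟩ := h2 q χ (ne_one hχ hq)
    refine ⟨T0, hT0, fun T hT => ⟨(h T hT).1, (h T hT).2.trans ?_⟩⟩
    have hT0 : 0 < T := by linarith
    have hlog : 0 ≤ Real.log T := Real.log_nonneg (by linarith)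
    gcongr
    exact le_max_right _ _

theorem Rob_all (r1 r2 d δ B : ℝ) (h1 : r1 ≠ 0) (h2 : r2 ≠ 0) (hd : 0 < d) (hδ : 0 < δ) (hB : 1 ≤ B) :
    ∃ c : ℝ, 0 < c ∧ ∀ (q : ℕ) [NeZero q] (χ : DirichletCharacter ℂ q), Rob r1 r2 d δ B c (Gam χ) := by
  classical
  obtain ⟨c1, T1, hc1, hT1, k1⟩ := LZ.robust r1 r2 d δ B h1 h2 hd hδ hB
  obtain ⟨c2, hc2, k2⟩ := robust r1 r2 d δ B h1 h2 hd hδ hB
  refine ⟨min c1 c2, lt_min hc1 hc2, fun q _ χ => ?_⟩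
  refine Fin_ind (P := Rob r1 r2 d δ B (min c1 c2)) ?_ ?_ χ
  · refine ⟨T1, hT1, fun T hT Y1 Y2 a1 a2 s1 s2 l1 l2 x hx => ?_⟩
    refine ⟨_, Finset.filter_subset _ _, ?_, le_trans ?_ (k1 T hT Y1 Y2 a1 a2 s1 s2 l1 l2 x hx)⟩
    · intro y hy hg
      apply (Finset.mem_filter.mp hy).2
      have h5 : riemannZeta (1/2 + ((r1 * y.1 + r2 * y.2 + x : ℝ) : ℂ) * I) = 0 := hg
      rw [← h5]
      push_cast
      rfl
    · exact mul_le_mul_of_nonneg_right (min_le_left _ _) (sq_nonneg _)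
  · intro q _ χ hχ hq
    obtain ⟨T0, hT0, h⟩ := k2 q χ hχ hq
    refine ⟨T0, hT0, fun T hT Y1 Y2 a1 a2 s1 s2 l1 l2 x hx => ?_⟩
    refine ⟨_, Finset.filter_subset _ _, ?_, le_trans ?_ (h T hT Y1 Y2 a1 a2 s1 s2 l1 l2 x hx)⟩
    · intro y hy hg
      apply (Finset.mem_filter.mp hy).2
      have h5 : Lf χ (1/2 + ((r1 * y.1 + r2 * y.2 + x : ℝ) : ℂ) * I) = 0 := hg
      rw [← h5]
      push_cast
      rfl
    · exact mul_le_mul_of_nonneg_right (min_le_right _ _) (sq_nonneg _)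

/-- linear relations between the ordinates of the zeros of k arbitrary Dirichlet L-functions -/
theorem thmI_all (k : ℕ) (r : Fin k → ℝ) (i j : Fin k) (hij : i ≠ j) (hi : r i ≠ 0)
    (hj : r j ≠ 0) (B : ℝ) (hB : 1 ≤ B) : ∃ c : ℝ, 0 < c ∧
    ∀ (q : Fin k → ℕ) [∀ a, NeZero (q a)] (χ : ∀ a, DirichletCharacter ℂ (q a)) (q0 : ℕ)
    [NeZero q0] (χ0 : DirichletCharacter ℂ q0),
    ∃ T0 : ℝ, 2 ≤ T0 ∧ ∀ T : ℝ, T0 ≤ T → ∀ x : ℝ, |x| ≤ B * T →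
    c * (T * Real.log T) ^ k ≤
      ({g : Fin k → ℝ | (∀ a, g a ∈ Gam (χ a) ∧ 0 < g a ∧ g a ≤ T) ∧ (∑ a, r a * g a) + x ∉ Gam χ0}.ncard : ℝ) := by
  obtain ⟨cS, dS, η, hcS, hdS, hη, hη2, hSel⟩ := Selb_all
  have hB' : 1 ≤ B + ∑ a, |r a| := by
    have : 0 ≤ ∑ a, |r a| := Finset.sum_nonneg fun a _ => abs_nonneg _
    linarith
  obtain ⟨CG, hCG, hCnt⟩ := Cnt_all
  obtain ⟨cR, hcR, hRob⟩ := Rob_all (r i) (r j) dS cS (B + ∑ a, |r a|) hi hj hdS hcS hB'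
  refine ⟨cR * cS ^ (k - 2), by positivity, ?_⟩
  intro q _ χ q0 _ χ0
  exact thmI_gen k hcS hη hcR (fun a => Gam (χ a)) (Gam χ0) (fun a => hSel (q a) (χ a))
    (fun a => hCnt (q a) (χ a)) r i j hij B (hRob q0 χ0)

end LX

end F_X_Fin

section F_Y_H00

open Complex MeasureTheory Set Filter Topology
open scoped ComplexConjugate

namespace LP

/-- Selberg's theorem, separated form, absolute constants -/
theorem selberg_abs : ∃ c d η : ℝ, 0 < c ∧ 0 < d ∧ 0 < η ∧ η ≤ 1/2 ∧ ∀ (q : ℕ) [NeZero q] (χ : DirichletCharacter ℂ q),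
    ∃ T0 : ℝ, 2 ≤ T0 ∧ ∀ T : ℝ, T0 ≤ T → ∃ Y : Finset ℝ,
    (∀ y ∈ Y, y ∈ LX.Gam χ ∧ η * T ≤ y ∧ y ≤ T) ∧ LZ.Sep (d / Real.log T) Y ∧ c * T * Real.log T ≤ Y.card := by
  obtain ⟨c, d, η, hc, hd, hη, hη2, h⟩ := LX.Selb_all
  exact ⟨c, d, η, hc, hd, hη, hη2, fun q _ χ => h q χ⟩

/-- upper bound for the number of critical zeros -/
theorem gam_count : ∃ C : ℝ, 0 < C ∧ ∀ (q : ℕ) [NeZero q] (χ : DirichletCharacter ℂ q),
    ∃ T0 : ℝ, 2 ≤ T0 ∧ ∀ T : ℝ, T0 ≤ T → (LX.Gam χ ∩ Icc (-T) T).Finite ∧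
    ((LX.Gam χ ∩ Icc (-T) T).ncard : ℝ) ≤ C * T * Real.log T := by
  obtain ⟨C, hC, h⟩ := LX.Cnt_all
  exact ⟨C, hC, fun q _ χ => h q χ⟩

end LP

end F_Y_H00
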