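import Pool.Agent.Lib.MP_0f5a55_nt.V.V61
import Pool.Agent.Lib.MP_0f5a55_nt.V.V86

section F_Y_H05

open Complex MeasureTheory Set Filter Topology
open scoped ComplexConjugate

namespace LP

open LZ (Sep)

/-- Theorem III, one modulus -/
theorem thmIII_mod : ∃ (m : ℕ) (c : ℝ), 1 ≤ m ∧ 0 < c ∧ ∀ (N : ℕ) [NeZero N] (χ : DirichletCharacter ℂ N)
    (X : Fin m → DirichletCharacter ℂ N × ℝ), Function.Injective X → ∃ T0 : ℝ, 2 ≤ T0 ∧ ∀ T : ℝ, T0 ≤ T →
    ({g : ℝ | g ∈ LX.Gam χ ∧ 0 < g ∧ g ≤ T ∧ ∃ j, g + (X j).2 ∉ LX.Gam (X j).1}.Finite) ∧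
    c * T * Real.log T ≤
      ({g : ℝ | g ∈ LX.Gam χ ∧ 0 < g ∧ g ≤ T ∧ ∃ j, g + (X j).2 ∉ LX.Gam (X j).1}.ncard : ℝ) := by
  classical
  obtain ⟨cS, d, η, hcS, hd, hη, hη2, hSS⟩ := selberg_abs
  obtain ⟨C, hC, hcom⟩ := common_bound d hd
  obtain ⟨CG, hCG, hGG⟩ := gam_count
  obtain ⟨m, hm⟩ := exists_nat_ge (2 * C / cS)
  have hm1 : (0 : ℝ) < (m : ℝ) + 1 := by positivity
  refine ⟨m + 1, cS / 2, by omega, by positivity, fun N _ χ X hX => ?_⟩
  obtain ⟨TS, hTS, hS⟩ := hSS N χ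
  obtain ⟨TG, hTG, hG⟩ := hGG N χ
  obtain ⟨T1, hT1, hT1'⟩ := hcom N (m + 1) X (by omega) hX
  refine ⟨max (max TS T1) (max TG (2 / η)), hTS.trans ((le_max_left _ _).trans (le_max_left _ _)), fun T hT => ?_⟩
  have hTTS : TS ≤ T := ((le_max_left _ _).trans (le_max_left _ _)).trans hT
  have hTT1 : T1 ≤ T := ((le_max_right _ _).trans (le_max_left _ _)).trans hT
  have hTTG : TG ≤ T := ((le_max_left _ _).trans (le_max_right _ _)).trans hT
  have hTη : 2 / η ≤ T := ((le_max_right _ _).trans (le_max_right _ _)).trans hT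
  rw [div_le_iff₀ hη] at hTη
  have hT0 : 0 < T := by linarith
  have hlog : 0 < Real.log T := Real.log_pos (by linarith)
  have hTL : 0 < T * Real.log T := by positivity
  obtain ⟨Y, hY1, hY2, hY3⟩ := hS T hTTS
  have hfin := (hG T hTTG).1
  set S : Set ℝ := {g : ℝ | g ∈ LX.Gam χ ∧ 0 < g ∧ g ≤ T ∧ ∃ j, g + (X j).2 ∉ LX.Gam (X j).1} with hSdef
  have hSfin : S.Finite := by
    refine hfin.subset ?_
    rintro g ⟨g1, g2, g3, _⟩
    exact ⟨g1, by constructor <;> linarith⟩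
  refine ⟨hSfin, ?_⟩
  set Y' : Finset ℝ := Y.filter (fun y => ∀ j, y + (X j).2 ∈ LX.Gam (X j).1) with hY'
  have hb := hT1' T hTT1 Y' (fun y hy => by
      obtain ⟨y1, y2, y3⟩ := hY1 y (Finset.mem_filter.mp hy).1
      exact ⟨by linarith, y3⟩)
    (fun a ha b hb hab => hY2 a (Finset.mem_filter.mp ha).1 b (Finset.mem_filter.mp hb).1 hab)
    (fun y hy => (Finset.mem_filter.mp hy).2)
  have hsub : ((Y.filter (fun y => ¬ ∀ j, y + (X j).2 ∈ LX.Gam (X j).1)).card : ℝ) ≤ S.ncard := by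
    rw [Set.ncard_eq_toFinset_card _ hSfin]
    exact_mod_cast Finset.card_le_card (fun y hy => by
      obtain ⟨hy1, hy2⟩ := Finset.mem_filter.mp hy
      obtain ⟨y1, y2, y3⟩ := hY1 y hy1
      rw [Set.Finite.mem_toFinset]
      exact ⟨y1, by nlinarith, y3, not_forall.mp hy2⟩)
  have hsplit : (Y.card : ℝ) = Y'.card + (Y.filter (fun y => ¬ ∀ j, y + (X j).2 ∈ LX.Gam (X j).1)).card := by
    exact_mod_cast (Finset.card_filter_add_card_filter_not (s := Y)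
      (fun y => ∀ j, y + (X j).2 ∈ LX.Gam (X j).1)).symm
  have hY'up : (Y'.card : ℝ) ≤ cS / 2 * (T * Real.log T) := by
    rw [div_le_iff₀ hcS] at hm
    have h5 : C ≤ cS / 2 * ((m : ℝ) + 1) := by nlinarith
    have h6 : (Y'.card : ℝ) * ((m : ℝ) + 1) ≤ (cS / 2 * (T * Real.log T)) * ((m : ℝ) + 1) := by
      push_cast at hb
      calc (Y'.card : ℝ) * ((m : ℝ) + 1) ≤ C * T * Real.log T := hb
        _ = C * (T * Real.log T) := by ring
        _ ≤ (cS / 2 * ((m : ℝ) + 1)) * (T * Real.log T) := mul_le_mul_of_nonneg_right h5 hTL.le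
        _ = _ := by ring
    exact le_of_mul_le_mul_right h6 hm1
  have e : cS / 2 * T * Real.log T = cS / 2 * (T * Real.log T) := by ring
  rw [e]
  have h7 : cS * (T * Real.log T) ≤ Y.card := by linarith
  linarith

end LP

end F_Y_H05
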