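import Pool.Agent.Lib.MP_0f5a55_nt.V.V87

section F_Y_H06

open Complex MeasureTheory Set Filter Topology
open scoped ComplexConjugate

namespace LP

/-- raising the modulus does not change the zeros on the critical line -/
theorem gam_lift {M N : ℕ} [NeZero M] [NeZero N] (h : M ∣ N) (χ : DirichletCharacter ℂ M) :
    LX.Gam (DirichletCharacter.changeLevel h χ) = LX.Gam χ := by
  ext g
  have hs : (1/2 + (g : ℂ) * I : ℂ) ≠ 1 := by
    intro hn
    have := congrArg Complex.re hn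
    norm_num at this
  have h1 := DirichletCharacter.LFunction_changeLevel h χ (Or.inr hs)
  have h2 : ∏ p ∈ N.primeFactors, (1 - χ (p : ZMod M) * (p : ℂ) ^ (-(1/2 + (g : ℂ) * I))) ≠ 0 := by
    rw [Finset.prod_ne_zero_iff]
    intro p hp h0
    have hp1 := Nat.prime_of_mem_primeFactors hp
    have h3 : χ (p : ZMod M) * (p : ℂ) ^ (-(1/2 + (g : ℂ) * I)) = 1 := (sub_eq_zero.mp h0).symm
    have h4 := congrArg norm h3
    rw [norm_mul, norm_one, Complex.norm_natCast_cpow_of_pos hp1.pos] at h4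
    have h5 : (-(1/2 + (g : ℂ) * I)).re = -(1/2) := by simp
    rw [h5] at h4
    have h6 : ‖χ (p : ZMod M)‖ ≤ 1 := χ.norm_le_one _
    have h7 : ((p : ℝ)) ^ (-(1/2) : ℝ) < 1 :=
      Real.rpow_lt_one_of_one_lt_of_neg (by exact_mod_cast hp1.one_lt) (by norm_num)
    have h8 : 0 ≤ ((p : ℝ)) ^ (-(1/2) : ℝ) := by positivity
    nlinarith [norm_nonneg (χ (p : ZMod M))]
  show DirichletCharacter.LFunction _ (1/2 + (g : ℂ) * I) = 0 ↔ DirichletCharacter.LFunction χ (1/2 + (g : ℂ) * I) = 0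
  rw [h1, mul_eq_zero]
  constructor
  · rintro (h | h)
    · exact h
    · exact absurd h h2
  · exact Or.inl

theorem lift_inj {N : ℕ} [NeZero N] (a b : Σ n : ℕ, DirichletCharacter ℂ (n + 1)) (ha : a.2.IsPrimitive)
    (hb : b.2.IsPrimitive) (h1 : a.1 + 1 ∣ N) (h2 : b.1 + 1 ∣ N)
    (h : DirichletCharacter.changeLevel h1 a.2 = DirichletCharacter.changeLevel h2 b.2) : a = b := by
  obtain ⟨n, χ⟩ := a
  obtain ⟨m, ψ⟩ := b
  have h3 := congrArg DirichletCharacter.conductor h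
  simp only at h1 h2 h h3 ha hb
  rw [DirichletCharacter.conductor_changeLevel, DirichletCharacter.conductor_changeLevel] at h3
  have ha' : χ.conductor = n + 1 := ha
  have hb' : ψ.conductor = m + 1 := hb
  rw [ha', hb'] at h3
  have h4 : n = m := by omega
  subst h4
  have h5 := DirichletCharacter.changeLevel_injective h1 h
  rw [h5]

/-- Theorem III: absolute `m` and `c`; primitive characters of arbitrary moduli. -/
theorem thmIII : ∃ (m : ℕ) (c : ℝ), 1 ≤ m ∧ 0 < c ∧ ∀ (q : ℕ) [NeZero q] (χ : DirichletCharacter ℂ q)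
    (X : Fin m → (Σ n : ℕ, DirichletCharacter ℂ (n + 1)) × ℝ), (∀ j, (X j).1.2.IsPrimitive) →
    Function.Injective X → ∃ T0 : ℝ, 2 ≤ T0 ∧ ∀ T : ℝ, T0 ≤ T →
    ({g : ℝ | g ∈ LX.Gam χ ∧ 0 < g ∧ g ≤ T ∧ ∃ j, g + (X j).2 ∉ LX.Gam (X j).1.2}.Finite) ∧
    c * T * Real.log T ≤
      ({g : ℝ | g ∈ LX.Gam χ ∧ 0 < g ∧ g ≤ T ∧ ∃ j, g + (X j).2 ∉ LX.Gam (X j).1.2}.ncard : ℝ) := by
  obtain ⟨m, c, hm, hc, hmain⟩ := thmIII_mod
  refine ⟨m, c, hm, hc, fun q hq χ X hX hinj => ?_⟩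
  set N : ℕ := q * ∏ j, ((X j).1.1 + 1) with hN
  have hq0 : q ≠ 0 := NeZero.ne q
  have hN0 : N ≠ 0 := mul_ne_zero hq0 (Finset.prod_ne_zero_iff.mpr fun j _ => by omega)
  have : NeZero N := ⟨hN0⟩
  have hqN : q ∣ N := Dvd.intro _ rfl
  have hdiv : ∀ j, (X j).1.1 + 1 ∣ N := fun j =>
    Dvd.dvd.mul_left (Finset.dvd_prod_of_mem (fun j => (X j).1.1 + 1) (Finset.mem_univ j)) q
  obtain ⟨T0, hT0, hT⟩ := hmain N (DirichletCharacter.changeLevel hqN χ)
    (fun j => (DirichletCharacter.changeLevel (hdiv j) (X j).1.2, (X j).2)) (by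
      intro i j hij
      have h1 : DirichletCharacter.changeLevel (hdiv i) (X i).1.2 =
        DirichletCharacter.changeLevel (hdiv j) (X j).1.2 := (Prod.ext_iff.mp hij).1
      have h2 : (X i).2 = (X j).2 := (Prod.ext_iff.mp hij).2
      exact hinj (Prod.ext (lift_inj _ _ (hX i) (hX j) _ _ h1) h2))
  refine ⟨T0, hT0, fun T hTT => ?_⟩
  have h3 := hT T hTT
  simp only [gam_lift] at h3
  exact h3

end LP

end F_Y_H06
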