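import Pool.Agent.Lib.MP_0f5a55_nt.V.V88

section F_Y_H07

open Complex MeasureTheory Set Filter Topology
open scoped ComplexConjugate

namespace LP

/-- the critical zeros of `χ` up to `T` whose translate by `x` is not a zero of `ψ` -/
def ns {q : ℕ} [NeZero q] (χ : DirichletCharacter ℂ q) (p : (Σ n : ℕ, DirichletCharacter ℂ (n + 1)) × ℝ)
    (T : ℝ) : Set ℝ :=
  {g : ℝ | g ∈ LX.Gam χ ∧ 0 < g ∧ g ≤ T ∧ g + p.2 ∉ LX.Gam p.1.2}

/-- Theorem III for finite families: at every height all but fewer than `m` members of the family -/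
theorem thmIII_fam : ∃ (m : ℕ) (c : ℝ), 1 ≤ m ∧ 0 < c ∧ ∀ (q : ℕ) [NeZero q] (χ : DirichletCharacter ℂ q)
    (S : Finset ((Σ n : ℕ, DirichletCharacter ℂ (n + 1)) × ℝ)), (∀ p ∈ S, p.1.2.IsPrimitive) →
    ∃ T0 : ℝ, 2 ≤ T0 ∧ ∀ T : ℝ, T0 ≤ T → ∀ B ⊆ S,
      (∀ p ∈ B, ((ns χ p T).ncard : ℝ) < c * T * Real.log T) → B.card < m := by
  classical
  obtain ⟨m, c, hm, hc, hmain⟩ := thmIII
  have hm0 : (0 : ℝ) < m := by exact_mod_cast hm
  refine ⟨m, c / m, hm, by positivity, fun q hq χ S hS => ?_⟩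
  -- all injective maps into S
  have hch : ∀ f : Fin m → S, ∃ T0 : ℝ, 2 ≤ T0 ∧ (Function.Injective f → ∀ T : ℝ, T0 ≤ T →
      ({g : ℝ | g ∈ LX.Gam χ ∧ 0 < g ∧ g ≤ T ∧ ∃ j, g + (f j : (Σ n : ℕ, DirichletCharacter ℂ (n + 1)) × ℝ).2 ∉
        LX.Gam (f j : (Σ n : ℕ, DirichletCharacter ℂ (n + 1)) × ℝ).1.2}.Finite) ∧
      c * T * Real.log T ≤
        ({g : ℝ | g ∈ LX.Gam χ ∧ 0 < g ∧ g ≤ T ∧ ∃ j, g + (f j : (Σ n : ℕ, DirichletCharacter ℂ (n + 1)) × ℝ).2 ∉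
          LX.Gam (f j : (Σ n : ℕ, DirichletCharacter ℂ (n + 1)) × ℝ).1.2}.ncard : ℝ)) := by
    intro f
    by_cases hf : Function.Injective f
    · obtain ⟨T0, hT0, hT⟩ := hmain q χ (fun j => (f j : (Σ n : ℕ, DirichletCharacter ℂ (n + 1)) × ℝ))
        (fun j => hS _ (f j).2) (fun i j hij => hf (Subtype.ext hij))
      exact ⟨T0, hT0, fun _ => hT⟩
    · exact ⟨2, le_rfl, fun h => absurd h hf⟩
  choose T0 hT0 hT using hch
  refine ⟨2 + ∑ f, |T0 f|, by have : 0 ≤ ∑ f, |T0 f| := Finset.sum_nonneg fun _ _ => abs_nonneg _; linarith,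
    fun T hTT B hBS hB => ?_⟩
  by_contra hcard
  rw [not_lt] at hcard
  obtain ⟨B', hB'B, hB'c⟩ := Finset.exists_subset_card_eq hcard
  -- enumerate B'
  let e : Fin m ≃ B' := (Finset.equivFinOfCardEq hB'c).symm
  let f : Fin m → S := fun j => ⟨(e j : (Σ n : ℕ, DirichletCharacter ℂ (n + 1)) × ℝ), hBS (hB'B (e j).2)⟩
  have hf : Function.Injective f := by
    intro i j hij
    have h0 : ((f i : S) : (Σ n : ℕ, DirichletCharacter ℂ (n + 1)) × ℝ) = (f j : S) := by rw [hij]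
    have h1 : ((e i : B') : (Σ n : ℕ, DirichletCharacter ℂ (n + 1)) × ℝ) = (e j : B') := h0
    exact e.injective (Subtype.ext h1)
  have hTf : T0 f ≤ T := by
    have h1 : |T0 f| ≤ ∑ f, |T0 f| :=
      Finset.single_le_sum (f := fun f => |T0 f|) (fun _ _ => abs_nonneg _) (Finset.mem_univ f)
    have h2 := le_abs_self (T0 f)
    linarith
  have hT2 : 2 ≤ T := (hT0 f).trans hTf
  obtain ⟨hfin, hlow⟩ := hT f hf T hTf
  set U : Set ℝ := {g : ℝ | g ∈ LX.Gam χ ∧ 0 < g ∧ g ≤ T ∧ ∃ j, g + (f j : (Σ n : ℕ, DirichletCharacter ℂ (n + 1)) × ℝ).2 ∉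
          LX.Gam (f j : (Σ n : ℕ, DirichletCharacter ℂ (n + 1)) × ℝ).1.2} with hU
  have hsub : U ⊆ ⋃ j, ns χ (f j) T := by
    rintro g ⟨g1, g2, g3, j, g4⟩
    exact Set.mem_iUnion.mpr ⟨j, g1, g2, g3, g4⟩
  have hnsfin : ∀ j, (ns χ (f j : (Σ n : ℕ, DirichletCharacter ℂ (n + 1)) × ℝ) T).Finite := by
    intro j
    refine hfin.subset ?_
    rintro g ⟨g1, g2, g3, g4⟩
    exact ⟨g1, g2, g3, j, g4⟩
  have hcount : U.ncard ≤ ∑ j, (ns χ (f j : (Σ n : ℕ, DirichletCharacter ℂ (n + 1)) × ℝ) T).ncard := by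
    have h1 : U.ncard ≤ (⋃ j, ns χ (f j : (Σ n : ℕ, DirichletCharacter ℂ (n + 1)) × ℝ) T).ncard :=
      Set.ncard_le_ncard hsub (Set.finite_iUnion hnsfin)
    refine h1.trans ?_
    have h2 : (⋃ j, ns χ (f j : (Σ n : ℕ, DirichletCharacter ℂ (n + 1)) × ℝ) T) =
        ↑(Finset.univ.biUnion fun j => (hnsfin j).toFinset) := by
      ext g
      simp
    rw [h2, Set.ncard_coe_finset]
    refine Finset.card_biUnion_le.trans (Finset.sum_le_sum fun j _ => ?_)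
    rw [Set.ncard_eq_toFinset_card _ (hnsfin j)]
  have hlt : ∑ j : Fin m, ((ns χ (f j : (Σ n : ℕ, DirichletCharacter ℂ (n + 1)) × ℝ) T).ncard : ℝ) <
      ∑ _j : Fin m, c / m * T * Real.log T := by
    have : Nonempty (Fin m) := ⟨⟨0, hm⟩⟩
    refine Finset.sum_lt_sum_of_nonempty Finset.univ_nonempty fun j _ => hB _ (hB'B (e j).2)
  rw [Finset.sum_const, Finset.card_univ, Fintype.card_fin, nsmul_eq_mul] at hlt
  have h3 : (m : ℝ) * (c / m * T * Real.log T) = c * T * Real.log T := by field_simp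
  rw [h3] at hlt
  have h4 : (U.ncard : ℝ) ≤ ∑ j : Fin m, ((ns χ (f j : (Σ n : ℕ, DirichletCharacter ℂ (n + 1)) × ℝ) T).ncard : ℝ) := by
    exact_mod_cast hcount
  linarith

end LP

end F_Y_H07
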