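import Mathlib.Algebra.Order.Chebyshev
import Mathlib.AlgebraicTopology.FundamentalGroupoid.SimplyConnected
import Mathlib.Analysis.Complex.AbsMax
import Mathlib.Analysis.Complex.MeanValue
import Mathlib.Analysis.MellinInversion
import Mathlib.Analysis.Normed.Group.Tannery
import Mathlib.Analysis.Real.Pi.Bounds
import Mathlib.Analysis.SpecialFunctions.Log.Summable
import Mathlib.Data.Finset.Functor
import Mathlib.Data.FunLike.Fintype
import Mathlib.Data.Int.Star
import Mathlib.NumberTheory.Harmonic.Bounds
import Mathlib.NumberTheory.LSeries.Nonvanishing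
import Mathlib.NumberTheory.LSeries.SumCoeff
import Mathlib.NumberTheory.ZetaValues
import Mathlib.Order.CompletePartialOrder
import Mathlib.Order.SuccPred.IntervalSucc
import Mathlib.RingTheory.SimpleRing.Principal
import Mathlib.Topology.Separation.CompletelyRegular
import Mathlib.Tactic

section F_Y_H01

open Complex MeasureTheory Set Filter Topology
open scoped ComplexConjugate

namespace LP

/-- combinatorics: if B = {g in A : g + x not in Gam, g <= T} has few elements then most y in Y have y+jx in Gam for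
j = 1..m: the first failure maps y to an element y+jx of B, at most m-to-one. -/
theorem chain_count (Gam : Set ℝ) (x T : ℝ) (m : ℕ) (Y B : Finset ℝ) (hY : ∀ y ∈ Y, y ∈ Gam ∧ ∀ j : ℕ, j ≤ m → 0 < y + j * x ∧ y + j * x ≤ T)
    (hB : ∀ g ∈ Gam, 0 < g → g ≤ T → g + x ∉ Gam → g ∈ B) :
    ∃ Y' ⊆ Y, (∀ y ∈ Y', ∀ j : ℕ, 1 ≤ j → j ≤ m → y + j * x ∈ Gam) ∧ Y.card ≤ Y'.card + m * B.card := by
  classical
  refine ⟨Y.filter (fun y => ∀ j : ℕ, 1 ≤ j → j ≤ m → y + j * x ∈ Gam), Finset.filter_subset _ _,
    fun y hy => (Finset.mem_filter.mp hy).2, ?_⟩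
  have hsub : Y.filter (fun y => ¬ ∀ j : ℕ, 1 ≤ j → j ≤ m → y + j * x ∈ Gam) ⊆
      (Finset.range m ×ˢ B).image (fun p : ℕ × ℝ => p.2 - p.1 * x) := by
    intro y hy
    rw [Finset.mem_filter] at hy
    obtain ⟨hyY, hbad⟩ := hy
    obtain ⟨hyG, hyT⟩ := hY y hyY
    by_contra hcon
    apply hbad
    have hall : ∀ j : ℕ, j ≤ m → y + j * x ∈ Gam := by
      intro j
      induction j with
      | zero => intro _; simpa using hyG
      | succ j ih =>
        intro hj
        by_contra hnot
        apply hcon
        have h1 := ih (by omega)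
        have h2 := hyT j (by omega)
        have h3 : y + j * x + x ∉ Gam := by
          have e : y + j * x + x = y + ((j + 1 : ℕ) : ℝ) * x := by push_cast; ring
          rw [e]
          exact hnot
        have h4 := hB _ h1 h2.1 h2.2 h3
        rw [Finset.mem_image]
        exact ⟨(j, y + j * x), Finset.mem_product.mpr ⟨Finset.mem_range.mpr (by omega), h4⟩,
          by simp⟩
    exact fun j _ hj => hall j hj
  have hc : (Y.filter (fun y => ¬ ∀ j : ℕ, 1 ≤ j → j ≤ m → y + j * x ∈ Gam)).card ≤ m * B.card := by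
    refine (Finset.card_le_card hsub).trans (Finset.card_image_le.trans ?_)
    rw [Finset.card_product, Finset.card_range]
  have hsplit := Finset.card_filter_add_card_filter_not (s := Y)
    (fun y => ∀ j : ℕ, 1 ≤ j → j ≤ m → y + j * x ∈ Gam)
  omega

end LP

end F_Y_H01
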