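import Pool.Agent.Lib.MP_0f5a55_nt.V.V61
import Pool.Agent.Lib.MP_0f5a55_nt.V.V86
import Pool.Agent.Lib.MP_0f5a55_nt.V.V90

section F_Y_H02

open Complex MeasureTheory Set Filter Topology
open scoped ComplexConjugate

namespace LP

open LZ (Sep)

/-- Theorem II for translations. -/
theorem thmII_one : ∃ c : ℝ, 0 < c ∧ ∀ (q : ℕ) [NeZero q] (χ : DirichletCharacter ℂ q) (x : ℝ), x ≠ 0 →
    ∃ T0 : ℝ, 2 ≤ T0 ∧ ∀ T : ℝ, T0 ≤ T →
    c * T * Real.log T ≤ ({g : ℝ | g ∈ LX.Gam χ ∧ 0 < g ∧ g ≤ T ∧ g + x ∉ LX.Gam χ}.ncard : ℝ) := by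
  classical
  obtain ⟨cS, d, η, hcS, hd, hη, hη2, hSS⟩ := selberg_abs
  obtain ⟨C, hC, hcom⟩ := common_bound d hd
  obtain ⟨CG, hCG, hGG⟩ := gam_count
  obtain ⟨m, hm⟩ := exists_nat_ge (8 * C / cS)
  refine ⟨cS / (8 * (m + 1)), by positivity, fun q _ χ x hx => ?_⟩
  obtain ⟨TS, hTS, hS⟩ := hSS q χ
  obtain ⟨TG, hTG, hG⟩ := hGG q χ
  set Gam : Set ℝ := LX.Gam χ with hGamdef
  obtain ⟨T1, hT1, hT1'⟩ := hcom q (m + 1) (fun j : Fin (m + 1) => (χ, ((j : ℕ) + 1 : ℝ) * x)) (by omega) (by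
    intro a b hab
    have h1 : ((a : ℕ) + 1 : ℝ) * x = ((b : ℕ) + 1 : ℝ) * x := congrArg Prod.snd hab
    have h2 := mul_right_cancel₀ hx h1
    have h3 : ((a : ℕ) : ℝ) = ((b : ℕ) : ℝ) := by linarith
    exact Fin.ext (by exact_mod_cast h3))
  have hm0 : (0 : ℝ) ≤ m := Nat.cast_nonneg m
  have hm1 : (0 : ℝ) < (m : ℝ) + 1 := by positivity
  refine ⟨max (max 4 T1) (max TG (max (2 * TS)
    ((2 * (m + 1) * |x| + 4) / η))), ?_, ?_⟩
  · exact le_trans (by norm_num) ((le_max_left 4 T1).trans (le_max_left _ _))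
  intro T hT
  have h4 : 4 ≤ T := ((le_max_left 4 T1).trans (le_max_left _ _)).trans hT
  have hTT1 : T1 ≤ T := ((le_max_right 4 T1).trans (le_max_left _ _)).trans hT
  have hTTG : TG ≤ T := ((le_max_left TG _).trans (le_max_right _ _)).trans hT
  have hTTS : 2 * TS ≤ T :=
    (((le_max_left (2 * TS) _).trans (le_max_right TG _)).trans (le_max_right _ _)).trans hT
  have hTx : (2 * (m + 1) * |x| + 4) / η ≤ T :=
    (((le_max_right (2 * TS) _).trans (le_max_right TG _)).trans (le_max_right _ _)).trans hT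
  rw [div_le_iff₀ hη] at hTx
  have hT0 : 0 < T := by linarith
  obtain ⟨Y, hY1, hY2, hY3⟩ := hS (T / 2) (by linarith)
  have hlog : 0 < Real.log T := Real.log_pos (by linarith)
  have hlog2 : 0 < Real.log (T / 2) := Real.log_pos (by linarith)
  have hloghalf : Real.log T / 2 ≤ Real.log (T / 2) := by
    have h5 : T ≤ (T / 2) ^ 2 := by nlinarith
    have h6 := Real.log_le_log hT0 h5
    rw [Real.log_pow] at h6
    push_cast at h6
    linarith
  have hlogle : Real.log (T / 2) ≤ Real.log T := Real.log_le_log (by linarith) (by linarith)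
  have hfin := (hG T hTTG).1
  have hfinB : {g : ℝ | g ∈ Gam ∧ 0 < g ∧ g ≤ T ∧ g + x ∉ Gam}.Finite := by
    refine hfin.subset ?_
    rintro g ⟨g1, g2, g3, _⟩
    exact ⟨g1, by constructor <;> linarith⟩
  have hxabs := abs_nonneg x
  have hYj : ∀ y ∈ Y, y ∈ Gam ∧ ∀ j : ℕ, j ≤ m + 1 → 0 < y + j * x ∧ y + j * x ≤ T := by
    intro y hy
    obtain ⟨y1, y2, y3⟩ := hY1 y hy
    refine ⟨y1, fun j hj => ?_⟩
    have hj' : (j : ℝ) ≤ (m : ℝ) + 1 := by exact_mod_cast hj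
    have hj0 : (0 : ℝ) ≤ j := Nat.cast_nonneg j
    have h5 : |(j : ℝ) * x| ≤ ((m : ℝ) + 1) * |x| := by
      rw [abs_mul, abs_of_nonneg hj0]
      exact mul_le_mul_of_nonneg_right hj' hxabs
    obtain ⟨h6, h7⟩ := abs_le.mp h5
    have h8 : η * T ≤ T / 2 := by nlinarith
    constructor
    · linarith
    · linarith
  obtain ⟨Y', hY'Y, hY'1, hY'2⟩ := chain_count Gam x T (m + 1) Y hfinB.toFinset hYj (by
    intro g g1 g2 g3 g4
    rw [Set.Finite.mem_toFinset]
    exact ⟨g1, g2, g3, g4⟩)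
  have hsep : Sep (d / Real.log T) Y' := by
    intro a ha b hb hab
    refine le_trans ?_ (hY2 a (hY'Y ha) b (hY'Y hb) hab)
    exact div_le_div_of_nonneg_left hd.le hlog2 hlogle
  have hbound := hT1' T hTT1 Y' (fun y hy => by
    obtain ⟨y1, y2, y3⟩ := hY1 y (hY'Y hy)
    have h9 : 0 ≤ (2 * ((m : ℝ) + 1) * |x|) := by positivity
    constructor <;> linarith) hsep (by
      intro y hy j
      have h := hY'1 y hy ((j : ℕ) + 1) (by omega) (by have := j.2; omega)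
      push_cast at h
      exact h)
  have hncard : ({g : ℝ | g ∈ Gam ∧ 0 < g ∧ g ≤ T ∧ g + x ∉ Gam}.ncard : ℝ) =
      (hfinB.toFinset.card : ℝ) := by
    rw [Set.ncard_eq_toFinset_card _ hfinB]
  rw [hncard]
  have hcard : (Y.card : ℝ) ≤ Y'.card + ((m : ℝ) + 1) * hfinB.toFinset.card := by
    exact_mod_cast hY'2
  push_cast at hbound
  have hTL : 0 < T * Real.log T := by positivity
  have hYlow : cS / 4 * (T * Real.log T) ≤ Y.card := by
    refine le_trans ?_ hY3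
    have h5 : cS * (T / 2) * (Real.log T / 2) ≤ cS * (T / 2) * Real.log (T / 2) :=
      mul_le_mul_of_nonneg_left hloghalf (by positivity)
    linarith
  have hY'up : (Y'.card : ℝ) ≤ cS / 8 * (T * Real.log T) := by
    rw [div_le_iff₀ hcS] at hm
    have h5 : 8 * C ≤ ((m : ℝ) + 1) * cS := by nlinarith
    have h6 : (Y'.card : ℝ) * ((m : ℝ) + 1) ≤ (cS / 8 * (T * Real.log T)) * ((m : ℝ) + 1) := by
      have h7 := mul_le_mul_of_nonneg_right h5 hTL.le
      linarith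
    exact le_of_mul_le_mul_right h6 hm1
  have h10 : cS / 8 * (T * Real.log T) ≤ ((m : ℝ) + 1) * hfinB.toFinset.card := by linarith
  have h11 : cS / (8 * ((m : ℝ) + 1)) * T * Real.log T =
      cS / 8 * (T * Real.log T) / ((m : ℝ) + 1) := by
    field_simp
  rw [h11, div_le_iff₀ hm1]
  linarith

end LP

end F_Y_H02
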