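import Pool.Agent.Lib.MP_0f5a55_nt.V.V86

section F_Y_H03

open Complex MeasureTheory Set Filter Topology
open scoped ComplexConjugate

namespace LP

/-- the case `0 < r` -/
theorem thmII_pos (r : ℝ) (hr : r < 1) (hr0 : 0 < r) : ∃ c : ℝ, 0 < c ∧ ∀ (q : ℕ) [NeZero q]
    (χ : DirichletCharacter ℂ q) (x : ℝ), ∃ T0 : ℝ, 2 ≤ T0 ∧ ∀ T : ℝ, T0 ≤ T →
    c * T * Real.log T ≤ ({g : ℝ | g ∈ LX.Gam χ ∧ 0 < g ∧ g ≤ T ∧ r * g + x ∉ LX.Gam χ}.ncard : ℝ) := by
  classical
  obtain ⟨c, d, η, hc, hd, hη, hη2, hSS⟩ := selberg_abs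
  obtain ⟨C, hC, hNN⟩ := gam_count
  obtain ⟨n, hn⟩ := exists_pow_lt_of_lt_one (show 0 < c / (8 * C) by positivity) hr
  set m : ℕ := n + 1 with hm
  have hrm : r ^ m < c / (8 * C) := by
    have h1 : r ^ m ≤ r ^ n := pow_le_pow_of_le_one hr0.le hr.le (by omega)
    linarith
  have hrm0 : 0 < r ^ m := pow_pos hr0 m
  have h1r : 0 < 1 - r := by linarith
  refine ⟨c / (2 * m), by positivity, fun q _ χ x => ?_⟩
  obtain ⟨T0, hT0, hS⟩ := hSS q χ
  obtain ⟨T1, hT1, hN⟩ := hNN q χ
  set Gam : Set ℝ := LX.Gam χ with hGamdef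
  set K : ℝ := |x| / (1 - r) with hK
  have hK0 : 0 ≤ K := by rw [hK]; positivity
  have hKr : r * K + |x| = K := by rw [hK]; field_simp; ring
  set φ : ℝ → ℝ := fun g => r * g + x with hφ
  have hφinj : Function.Injective φ := by
    intro a b hab
    simp only [hφ] at hab
    have : r * a = r * b := by linarith
    exact mul_left_cancel₀ hr0.ne' this
  have hit : ∀ (i : ℕ) (g : ℝ), |φ^[i] g - r ^ i * g| ≤ K := by
    intro i
    induction i with
    | zero => intro g; simp [hK0]
    | succ i ih =>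
      intro g
      rw [Function.iterate_succ_apply']
      have e : φ (φ^[i] g) - r ^ (i + 1) * g = r * (φ^[i] g - r ^ i * g) + x := by
        simp only [hφ]; ring
      rw [e]
      calc |r * (φ^[i] g - r ^ i * g) + x| ≤ |r * (φ^[i] g - r ^ i * g)| + |x| := abs_add_le _ _
        _ = r * |φ^[i] g - r ^ i * g| + |x| := by rw [abs_mul, abs_of_pos hr0]
        _ ≤ r * K + |x| := by
            have := mul_le_mul_of_nonneg_left (ih g) hr0.le
            linarith
        _ = K := hKr
  refine ⟨max (max T0 T1) (max (T1 / r ^ m) (max (K / (1 - r)) (max (K / r ^ m)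
    (K / (r ^ m * η) + 1)))), ?_, ?_⟩
  · exact hT0.trans ((le_max_left _ _).trans (le_max_left _ _))
  intro T hT
  have hTT0 : T0 ≤ T := ((le_max_left _ _).trans (le_max_left _ _)).trans hT
  have hTT1 : T1 ≤ T := ((le_max_right _ _).trans (le_max_left _ _)).trans hT
  have h2 := (le_max_right _ _).trans hT
  have hT1r : T1 / r ^ m ≤ T := (le_max_left _ _).trans h2
  have h3 := (le_max_right _ _).trans h2
  have hTK1 : K / (1 - r) ≤ T := (le_max_left _ _).trans h3
  have h4 := (le_max_right _ _).trans h3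
  have hTK2 : K / r ^ m ≤ T := (le_max_left _ _).trans h4
  have hTK3 : K / (r ^ m * η) + 1 ≤ T := (le_max_right _ _).trans h4
  have hT2 : 2 ≤ T := hT0.trans hTT0
  have hT0' : 0 < T := by linarith
  have hlT : 0 < Real.log T := Real.log_pos (by linarith)
  rw [div_le_iff₀ hrm0] at hT1r
  rw [div_le_iff₀ h1r] at hTK1
  rw [div_le_iff₀ hrm0] at hTK2
  have hTK3' : K < T * (r ^ m * η) := by
    have : K / (r ^ m * η) < T := by linarith
    rwa [div_lt_iff₀ (by positivity)] at this
  obtain ⟨Y, hY, -, hYc⟩ := hS T hTT0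
  obtain ⟨hfinT, -⟩ := hN T hTT1
  set B : Set ℝ := {g : ℝ | g ∈ Gam ∧ 0 < g ∧ g ≤ T ∧ r * g + x ∉ Gam} with hB
  have hBfin : B.Finite := by
    apply hfinT.subset
    rintro g ⟨h1, h2, h3, -⟩
    exact ⟨h1, by linarith, h3⟩
  set X : ℝ := r ^ m * T + K with hX
  have hXT1 : T1 ≤ X := by rw [hX]; linarith
  obtain ⟨hfinX, hNX⟩ := hN X hXT1
  -- the iterates
  have hpos : ∀ g ∈ Y, ∀ i ≤ m, 0 < φ^[i] g ∧ φ^[i] g ≤ T := by
    intro g hg i hi
    obtain ⟨-, hg1, hg2⟩ := hY g hg
    have hg0 : 0 < g := lt_of_lt_of_le (by positivity) hg1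
    have h1 := abs_le.1 (hit i g)
    have hri : r ^ m ≤ r ^ i := pow_le_pow_of_le_one hr0.le hr.le hi
    constructor
    · have h2 : r ^ m * (η * T) ≤ r ^ i * g :=
        mul_le_mul hri hg1 (by positivity) (by positivity)
      have h3 : r ^ m * (η * T) = T * (r ^ m * η) := by ring
      linarith [h1.1]
    · rcases Nat.eq_zero_or_pos i with h0 | h0
      · subst h0; simpa using hg2
      · have hri' : r ^ i ≤ r := by
          calc r ^ i ≤ r ^ 1 := pow_le_pow_of_le_one hr0.le hr.le h0
            _ = r := pow_one r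
        have h2 : r ^ i * g ≤ r * T := mul_le_mul hri' hg2 hg0.le hr0.le
        nlinarith [h1.2]
  -- the split
  have hcover : Y ⊆ (Y.filter fun g => φ^[m] g ∈ Gam) ∪
      (Finset.range m).biUnion fun i => Y.filter fun g => φ^[i] g ∈ B := by
    intro g hg
    rw [Finset.mem_union]
    by_cases hall : φ^[m] g ∈ Gam
    · left; exact Finset.mem_filter.2 ⟨hg, hall⟩
    · right
      have hex : ∃ i, φ^[i] g ∉ Gam := ⟨m, hall⟩
      set j := Nat.find hex with hj
      have hj1 : φ^[j] g ∉ Gam := Nat.find_spec hex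
      have hjm : j ≤ m := Nat.find_min' hex hall
      have hj0 : j ≠ 0 := by
        intro h0
        rw [h0] at hj1
        exact hj1 (hY g hg).1
      obtain ⟨i, hi⟩ := Nat.exists_eq_succ_of_ne_zero hj0
      have hilt : i < Nat.find hex := by rw [← hj, hi]; exact Nat.lt_succ_self i
      have hi1 : φ^[i] g ∈ Gam := by
        have := Nat.find_min hex hilt
        push Not at this
        exact this
      rw [Finset.mem_biUnion]
      refine ⟨i, Finset.mem_range.2 (by omega), Finset.mem_filter.2 ⟨hg, hi1, ?_, ?_, ?_⟩⟩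
      · exact (hpos g hg i (by omega)).1
      · exact (hpos g hg i (by omega)).2
      · rw [hi, Nat.succ_eq_add_one, Function.iterate_succ_apply'] at hj1
        exact hj1
  have hall : (Y.filter fun g => φ^[m] g ∈ Gam).card ≤ (Gam ∩ Icc (-X) X).ncard := by
    rw [Set.ncard_eq_toFinset_card _ hfinX]
    apply Finset.card_le_card_of_injOn (fun g => φ^[m] g)
    · intro g hg
      obtain ⟨hgY, hgG⟩ := Finset.mem_filter.1 (Finset.mem_coe.1 hg)
      rw [Finset.mem_coe, Set.Finite.mem_toFinset]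
      refine ⟨hgG, ?_, ?_⟩
      · have := (hpos g hgY m le_rfl).1
        have hX0 : 0 < X := by linarith
        show -X ≤ φ^[m] g
        linarith
      · have h1 := abs_le.1 (hit m g)
        have h2 : r ^ m * g ≤ r ^ m * T := mul_le_mul_of_nonneg_left (hY g hgY).2.2 hrm0.le
        show φ^[m] g ≤ X
        linarith [h1.2]
    · exact (hφinj.iterate m).injOn
  have hBi : ∀ i ∈ Finset.range m, (Y.filter fun g => φ^[i] g ∈ B).card ≤ B.ncard := by
    intro i _
    rw [Set.ncard_eq_toFinset_card _ hBfin]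
    apply Finset.card_le_card_of_injOn (fun g => φ^[i] g)
    · intro g hg
      rw [Finset.mem_coe, Set.Finite.mem_toFinset]
      exact (Finset.mem_filter.1 (Finset.mem_coe.1 hg)).2
    · exact (hφinj.iterate i).injOn
  have hYle : Y.card ≤ (Gam ∩ Icc (-X) X).ncard + m * B.ncard := by
    refine (Finset.card_le_card hcover).trans ((Finset.card_union_le _ _).trans ?_)
    apply add_le_add hall
    refine Finset.card_biUnion_le.trans ((Finset.sum_le_card_nsmul _ _ _ hBi).trans ?_)
    simp
  have hYle' : (Y.card : ℝ) ≤ ((Gam ∩ Icc (-X) X).ncard : ℝ) + m * B.ncard := by exact_mod_cast hYle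
  have hX0 : 0 < X := by linarith
  have hXT : X ≤ T := by
    rw [hX]
    have h1 : r ^ m ≤ r := by
      calc r ^ m ≤ r ^ 1 := pow_le_pow_of_le_one hr0.le hr.le (by omega)
        _ = r := pow_one r
    nlinarith
  have hlX : Real.log X ≤ Real.log T := Real.log_le_log hX0 hXT
  have hXlX : C * X * Real.log X ≤ c / 4 * T * Real.log T := by
    have h1 : X ≤ 2 * (r ^ m * T) := by rw [hX]; linarith
    have h2 : C * X ≤ c / 4 * T := by
      have h3 : C * r ^ m ≤ c / 8 := by
        have := mul_le_mul_of_nonneg_left hrm.le hC.le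
        have e : C * (c / (8 * C)) = c / 8 := by field_simp
        linarith
      calc C * X ≤ C * (2 * (r ^ m * T)) := mul_le_mul_of_nonneg_left h1 hC.le
        _ = 2 * (C * r ^ m) * T := by ring
        _ ≤ 2 * (c / 8) * T := by nlinarith
        _ = c / 4 * T := by ring
    have hCX : 0 ≤ C * X := by positivity
    calc C * X * Real.log X ≤ C * X * Real.log T := mul_le_mul_of_nonneg_left hlX hCX
      _ ≤ c / 4 * T * Real.log T := mul_le_mul_of_nonneg_right h2 hlT.le
  have hm0 : (0 : ℝ) < m := by rw [hm]; positivity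
  have hfin : c / 2 * T * Real.log T ≤ m * B.ncard := by
    have h1 : 0 ≤ T * Real.log T := by positivity
    nlinarith
  have e : c / (2 * m) * T * Real.log T = (c / 2 * T * Real.log T) / m := by field_simp
  rw [e, div_le_iff₀ hm0]
  linarith

end LP

end F_Y_H03
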