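import Pool.Agent.Lib.MP_0f5a55_nt.V.V56
import Pool.Agent.Lib.MP_0f5a55_nt.V.V91
import Pool.Agent.Lib.MP_0f5a55_nt.V.V92

section F_Y_H04

open Complex MeasureTheory Set Filter Topology
open scoped ComplexConjugate

namespace LP

theorem gam_neg {q : ℕ} [NeZero q] (χ : DirichletCharacter ℂ q) (g : ℝ) :
    -g ∈ LX.Gam χ⁻¹ ↔ g ∈ LX.Gam χ := by
  have h1 := (conj_facts χ χ).1 (1/2 + (g : ℂ) * I) (by
    intro h
    have := congrArg Complex.re h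
    norm_num at this)
  have h2 : conj (1/2 + (g : ℂ) * I : ℂ) = 1/2 + ((-g : ℝ) : ℂ) * I := by
    apply Complex.ext <;> simp
  rw [h2] at h1
  show LX.Lf χ⁻¹ (1/2 + ((-g : ℝ) : ℂ) * I) = 0 ↔ LX.Lf χ (1/2 + (g : ℂ) * I) = 0
  rw [h1]
  exact map_eq_zero _

theorem gam_neg_real {q : ℕ} [NeZero q] {χ : DirichletCharacter ℂ q} (hχ : χ⁻¹ = χ) (g : ℝ) :
    -g ∈ LX.Gam χ ↔ g ∈ LX.Gam χ := by
  have := gam_neg χ g
  rwa [hχ] at this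

/-- Theorem II, positive slope -/
theorem thmII (r : ℝ) (hr0 : 0 < r) (hr : r ≤ 1) : ∃ c : ℝ, 0 < c ∧ ∀ (q : ℕ) [NeZero q]
    (χ : DirichletCharacter ℂ q) (x : ℝ), (r = 1 → x ≠ 0) → ∃ T0 : ℝ, 2 ≤ T0 ∧ ∀ T : ℝ, T0 ≤ T →
    c * T * Real.log T ≤ ({g : ℝ | g ∈ LX.Gam χ ∧ 0 < g ∧ g ≤ T ∧ r * g + x ∉ LX.Gam χ}.ncard : ℝ) := by
  rcases lt_or_eq_of_le hr with h | h
  · obtain ⟨c, hc, hmain⟩ := thmII_pos r h hr0
    exact ⟨c, hc, fun q _ χ x _ => hmain q χ x⟩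
  · obtain ⟨c, hc, hmain⟩ := thmII_one
    refine ⟨c, hc, fun q _ χ x hx => ?_⟩
    have := hmain q χ x (hx h)
    rw [h]
    simpa only [one_mul] using this

/-- Theorem II, real characters, slope of any sign -/
theorem thmII_real (r : ℝ) (hr0 : r ≠ 0) (hr : |r| ≤ 1) : ∃ c : ℝ, 0 < c ∧ ∀ (q : ℕ) [NeZero q]
    (χ : DirichletCharacter ℂ q), χ⁻¹ = χ → ∀ x : ℝ, (|r| = 1 → x ≠ 0) → ∃ T0 : ℝ, 2 ≤ T0 ∧ ∀ T : ℝ, T0 ≤ T →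
    c * T * Real.log T ≤ ({g : ℝ | g ∈ LX.Gam χ ∧ 0 < g ∧ g ≤ T ∧ r * g + x ∉ LX.Gam χ}.ncard : ℝ) := by
  rcases lt_or_gt_of_ne hr0 with h | h
  · rw [abs_of_neg h] at hr
    obtain ⟨c, hc, hmain⟩ := thmII (-r) (by linarith) hr
    refine ⟨c, hc, fun q _ χ hχ x hx => ?_⟩
    obtain ⟨T0, hT0, hT⟩ := hmain q χ (-x) (fun h1 => by
      have := hx (by rw [abs_of_neg h, h1])
      simpa using this)
    refine ⟨T0, hT0, fun T hTT => ?_⟩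
    have e : {g : ℝ | g ∈ LX.Gam χ ∧ 0 < g ∧ g ≤ T ∧ r * g + x ∉ LX.Gam χ} =
        {g : ℝ | g ∈ LX.Gam χ ∧ 0 < g ∧ g ≤ T ∧ -r * g + -x ∉ LX.Gam χ} := by
      ext g
      simp only [Set.mem_setOf_eq]
      have h2 : -r * g + -x = -(r * g + x) := by ring
      rw [h2, gam_neg_real hχ]
    rw [e]
    exact hT T hTT
  · rw [abs_of_pos h] at hr
    obtain ⟨c, hc, hmain⟩ := thmII r h hr
    exact ⟨c, hc, fun q _ χ _ x hx => hmain q χ x (fun h1 => hx (by rw [abs_of_pos h, h1]))⟩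

end LP

end F_Y_H04
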