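import Pool.Agent.Lib.MP_0f5a55_nt.V.V94

section F_W_W03

open Complex MeasureTheory Set Filter Topology
open scoped ComplexConjugate

namespace LW

private theorem W03_den {z : ℂ} (h0 : 0 ≤ z.re) (h1 : z.re ≤ 1) :
    sn (Real.pi * (z - 1 / 2)) ≠ 0 := by
  apply sn_ne
  have h2 : ((Real.pi : ℂ) * (z - 1 / 2)).re = Real.pi * (z.re - 1 / 2) := by
    rw [Complex.re_ofReal_mul, Complex.sub_re]
    norm_num
  rw [h2, abs_mul, abs_of_pos Real.pi_pos]
  have h3 : |z.re - 1 / 2| < 1 := by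
    rw [abs_lt]
    constructor <;> linarith
  nlinarith [Real.pi_pos]

/-- the kernel -/
private noncomputable def W03_k (g : ℂ → ℂ) (z : ℂ) : ℂ :=
  dslope g (1 / 2) z / sn (Real.pi * (z - 1 / 2))

private theorem W03_k_eq (g : ℂ → ℂ) {z : ℂ} (hz : z ≠ 1 / 2) :
    W03_k g z = Real.pi * (g z - g (1 / 2)) / Complex.sin (Real.pi * (z - 1 / 2)) := by
  have hpi : (Real.pi : ℂ) ≠ 0 := by exact_mod_cast Real.pi_ne_zero
  unfold W03_k
  rw [dslope_of_ne _ hz, slope_def_field, ← sn_mul, mul_assoc, mul_div_mul_left _ _ hpi, div_div]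

private theorem W03_right (g : ℂ → ℂ) (y : ℝ) :
    W03_k g (1 + y * I) = Real.pi * (g (1 + y * I) - g (1 / 2)) * (sw y : ℂ) := by
  have hz : (1 + y * I : ℂ) ≠ 1 / 2 := by
    intro h
    have h1 := congrArg Complex.re h
    norm_num at h1
  have h1 : (Real.pi : ℂ) * (1 + y * I - 1 / 2) = (Real.pi * y : ℂ) * I + Real.pi / 2 := by ring
  rw [W03_k_eq g hz, h1, Complex.sin_add_pi_div_two, Complex.cos_mul_I, div_eq_mul_inv]
  unfold sw
  push_cast
  rfl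

private theorem W03_left (g : ℂ → ℂ) (y : ℝ) :
    W03_k g (y * I) = -(Real.pi * (g (y * I) - g (1 / 2)) * (sw y : ℂ)) := by
  have hz : (y * I : ℂ) ≠ 1 / 2 := by
    intro h
    have h1 := congrArg Complex.re h
    norm_num at h1
  have h1 : (Real.pi : ℂ) * (y * I - 1 / 2) = (Real.pi * y : ℂ) * I - Real.pi / 2 := by ring
  rw [W03_k_eq g hz, h1, Complex.sin_sub_pi_div_two, Complex.cos_mul_I, div_eq_mul_inv, inv_neg,
    mul_neg]
  unfold sw
  push_cast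
  rfl

private theorem W03_sin (w : ℂ) (h : 1 ≤ |w.im|) : Real.exp |w.im| / 4 ≤ ‖Complex.sin w‖ := by
  have h1 : ‖Complex.sin w‖ = ‖Complex.exp (-w * I) - Complex.exp (w * I)‖ / 2 := by
    rw [Complex.sin, norm_div, norm_mul, Complex.norm_I, mul_one, Complex.norm_ofNat]
  have h2 : ‖Complex.exp (-w * I)‖ = Real.exp w.im := by
    rw [Complex.norm_exp]
    simp
  have h3 : ‖Complex.exp (w * I)‖ = Real.exp (-w.im) := by
    rw [Complex.norm_exp]
    simp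
  have h4 : Real.exp |w.im| - Real.exp (-|w.im|) ≤
      ‖Complex.exp (-w * I) - Complex.exp (w * I)‖ := by
    rcases le_total 0 w.im with h5 | h5
    · rw [abs_of_nonneg h5, ← h2, ← h3]
      exact norm_sub_norm_le _ _
    · rw [abs_of_nonpos h5, neg_neg, ← h2, ← h3, norm_sub_rev]
      exact norm_sub_norm_le _ _
  have h5 : Real.exp (-|w.im|) ≤ Real.exp |w.im| / 2 := by
    have h6 : (2 : ℝ) ≤ Real.exp |w.im| := by
      have := Real.add_one_le_exp |w.im|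
      linarith
    have h7 : Real.exp (-|w.im|) * Real.exp |w.im| = 1 := by
      rw [← Real.exp_add, neg_add_cancel, Real.exp_zero]
    have h8 : 0 < Real.exp (-|w.im|) := Real.exp_pos _
    nlinarith
  rw [h1]
  linarith

private theorem W03_k_bound {g : ℂ → ℂ} {K : ℝ} (hK : 0 ≤ K)
    (hb : ∀ z : ℂ, 0 ≤ z.re → z.re ≤ 1 → ‖g z‖ ≤ K * Real.exp |z.im|) {z : ℂ} (h0 : 0 ≤ z.re)
    (h1 : z.re ≤ 1) (h2 : 1 ≤ |z.im|) : ‖W03_k g z‖ ≤ 32 * K * Real.exp (-|z.im|) := by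
  have hz : z ≠ 1 / 2 := by
    rintro rfl
    norm_num at h2
  have hc : ‖g (1 / 2)‖ ≤ K := by
    have := hb (1 / 2) (by norm_num) (by norm_num)
    simpa using this
  have him : ((Real.pi : ℂ) * (z - 1 / 2)).im = Real.pi * z.im := by
    rw [Complex.im_ofReal_mul, Complex.sub_im]
    norm_num
  have h3 : Real.pi * |z.im| = |((Real.pi : ℂ) * (z - 1 / 2)).im| := by
    rw [him, abs_mul, abs_of_pos Real.pi_pos]
  have hpi := Real.pi_gt_three
  have hpi4 := Real.pi_le_four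
  have h4 : 1 ≤ |((Real.pi : ℂ) * (z - 1 / 2)).im| := by
    rw [← h3]
    nlinarith
  have h5 := W03_sin _ h4
  rw [← h3] at h5
  have h6 : Real.exp (2 * |z.im|) ≤ Real.exp (Real.pi * |z.im|) := by
    apply Real.exp_le_exp.2
    nlinarith
  have h7 : Real.exp (2 * |z.im|) / 4 ≤
      ‖Complex.sin ((Real.pi : ℂ) * (z - 1 / 2))‖ := by linarith
  have h8 : 0 < Real.exp (2 * |z.im|) / 4 := by positivity
  rw [W03_k_eq g hz, norm_div, norm_mul, Complex.norm_real, Real.norm_of_nonneg Real.pi_pos.le]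
  have h9 : ‖g z - g (1 / 2)‖ ≤ 2 * K * Real.exp |z.im| := by
    have h10 := hb z h0 h1
    have h11 := norm_sub_le (g z) (g (1 / 2))
    have h12 : (1 : ℝ) ≤ Real.exp |z.im| := Real.one_le_exp (abs_nonneg _)
    nlinarith
  have h10 : Real.pi * ‖g z - g (1 / 2)‖ ≤ 4 * (2 * K * Real.exp |z.im|) :=
    mul_le_mul hpi4 h9 (norm_nonneg _) (by norm_num)
  calc Real.pi * ‖g z - g (1 / 2)‖ / ‖Complex.sin ((Real.pi : ℂ) * (z - 1 / 2))‖
      ≤ 4 * (2 * K * Real.exp |z.im|) / (Real.exp (2 * |z.im|) / 4) :=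
        div_le_div₀ (by positivity) h10 h8 h7
    _ = 32 * K * Real.exp (-|z.im|) := by
        rw [Real.exp_neg, two_mul |z.im|, Real.exp_add]
        field_simp
        ring

private theorem W03_diff {g : ℂ → ℂ} (hd : ∀ z : ℂ, 0 ≤ z.re → z.re ≤ 1 → DifferentiableAt ℂ g z)
    {z : ℂ} (h0 : 0 ≤ z.re) (h1 : z.re ≤ 1) (hz : z ≠ 1 / 2) :
    DifferentiableAt ℂ (W03_k g) z := by
  have h2 : DifferentiableAt ℂ (dslope g (1 / 2)) z :=
    (differentiableAt_dslope_of_ne hz).2 (hd z h0 h1)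
  have h3 : DifferentiableAt ℂ (fun z : ℂ => sn (Real.pi * (z - 1 / 2))) z :=
    (sn_diff _).comp z (by fun_prop)
  exact h2.div h3 (W03_den h0 h1)

private theorem W03_cont {g : ℂ → ℂ} (hd : ∀ z : ℂ, 0 ≤ z.re → z.re ≤ 1 → DifferentiableAt ℂ g z)
    {z : ℂ} (h0 : 0 ≤ z.re) (h1 : z.re ≤ 1) : ContinuousAt (W03_k g) z := by
  by_cases hz : z = 1 / 2
  · subst hz
    have h2 : ContinuousAt (dslope g (1 / 2)) (1 / 2) :=
      continuousAt_dslope_same.2 (hd _ h0 h1)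
    have h3 : DifferentiableAt ℂ (fun z : ℂ => sn (Real.pi * (z - 1 / 2))) (1 / 2) :=
      (sn_diff _).comp _ (by fun_prop)
    exact h2.div h3.continuousAt (W03_den h0 h1)
  · exact (W03_diff hd h0 h1 hz).continuousAt

private theorem W03_rect {g : ℂ → ℂ} (hd : ∀ z : ℂ, 0 ≤ z.re → z.re ≤ 1 → DifferentiableAt ℂ g z)
    {R : ℝ} (hR : 0 ≤ R) :
    (∫ x : ℝ in (0 : ℝ)..1, W03_k g (x + (-R : ℝ) * I)) -
      (∫ x : ℝ in (0 : ℝ)..1, W03_k g (x + R * I)) +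
      I • (∫ y : ℝ in -R..R, W03_k g (1 + y * I)) - I • (∫ y : ℝ in -R..R, W03_k g (y * I)) =
      0 := by
  have h1 := Complex.integral_boundary_rect_eq_zero_of_differentiable_on_off_countable
    (W03_k g) (⟨0, -R⟩ : ℂ) (⟨1, R⟩ : ℂ) {1 / 2} (countable_singleton _) (fun z hz => by
      rw [Complex.mem_reProdIm, uIcc_of_le zero_le_one] at hz
      exact (W03_cont hd hz.1.1 hz.1.2).continuousWithinAt) (fun z hz => by
      have h2 := hz.1
      rw [Complex.mem_reProdIm] at h2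
      simp only [min_eq_left (zero_le_one' ℝ), max_eq_right (zero_le_one' ℝ)] at h2
      exact W03_diff hd h2.1.1.le h2.1.2.le (fun h => hz.2 h))
  simpa using h1

/-- Poisson formula for the strip at its centre. k(z) = dslope g (1/2) z / sn(pi (z - 1/2)) is differentiable on the closed
strip (sn <> 0 for |Re| <= pi/2; dslope: Complex.differentiableOn_dslope on the open strip, quotient elsewhere), so the integral over
the rectangle [0,1] x [-R,R] vanishes (Complex.integral_boundary_rect_eq_zero_of_differentiableOn). For z <> 1/2: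
k(z) = pi (g z - g(1/2))/sin(pi(z-1/2)), sin(pi(iu - 1/2)) = -cosh(pi u), sin(pi(iu + 1/2)) = cosh(pi u). The horizontal sides:
|sin(pi(x - 1/2 + iR))| >= sinh(pi R), |g| <= K e^R. Let R -> oo and use sw_mass. -/
theorem strip_mean {g : ℂ → ℂ} {K : ℝ} (hd : ∀ z : ℂ, 0 ≤ z.re → z.re ≤ 1 → DifferentiableAt ℂ g z)
    (hb : ∀ z : ℂ, 0 ≤ z.re → z.re ≤ 1 → ‖g z‖ ≤ K * Real.exp |z.im|) :
    g (1/2) = 2⁻¹ * ∫ u : ℝ, (g (u * I) + g (1 + u * I)) * (sw u : ℂ) := by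
  have hK : 0 ≤ K := by
    have h1 := hb (1 / 2) (by norm_num) (by norm_num)
    have h2 : ‖g (1 / 2)‖ ≤ K := by simpa using h1
    exact (norm_nonneg _).trans h2
  have hc0 : Continuous (fun u : ℝ => g (u * I)) := by
    refine continuous_iff_continuousAt.2 fun u => ?_
    exact ContinuousAt.comp (f := fun u : ℝ => (u * I : ℂ)) (g := g)
      (hd (u * I) (by simp) (by simp)).continuousAt (by fun_prop)
  have hc1 : Continuous (fun u : ℝ => g (1 + u * I)) := by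
    refine continuous_iff_continuousAt.2 fun u => ?_
    exact ContinuousAt.comp (f := fun u : ℝ => (1 + u * I : ℂ)) (g := g)
      (hd (1 + u * I) (by simp) (by simp)).continuousAt (by fun_prop)
  have hsw : Continuous (fun u : ℝ => (sw u : ℂ)) := Complex.continuous_ofReal.comp sw_cont
  have hb0 : ∀ u : ℝ, ‖g (u * I)‖ ≤ K * Real.exp |u| := fun u => by
    simpa using hb (u * I) (by simp) (by simp)
  have hb1 : ∀ u : ℝ, ‖g (1 + u * I)‖ ≤ K * Real.exp |u| := fun u => by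
    simpa using hb (1 + u * I) (by simp) (by simp)
  have hint : Integrable (fun u : ℝ => (g (u * I) + g (1 + u * I)) * (sw u : ℂ)) := by
    refine (sw_exp_int.const_mul (2 * K)).mono'
      ((hc0.add hc1).mul hsw).aestronglyMeasurable (Eventually.of_forall fun u => ?_)
    rw [norm_mul, Complex.norm_real, Real.norm_of_nonneg (sw_pos u).le]
    have h1 := norm_add_le (g (u * I)) (g (1 + u * I))
    have h2 := hb0 u
    have h3 := hb1 u
    have h4 := (sw_pos u).le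
    calc ‖g (u * I) + g (1 + u * I)‖ * sw u ≤ (2 * K * Real.exp |u|) * sw u :=
          mul_le_mul_of_nonneg_right (by linarith) h4
      _ = 2 * K * (Real.exp |u| * sw u) := by ring
  have hsint : Integrable (fun u : ℝ => sw u) := by
    refine sw_exp_int.mono' sw_cont.aestronglyMeasurable (Eventually.of_forall fun u => ?_)
    rw [Real.norm_of_nonneg (sw_pos u).le]
    have h1 : (1 : ℝ) ≤ Real.exp |u| := Real.one_le_exp (abs_nonneg _)
    nlinarith [sw_pos u]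
  have hsintC : Integrable (fun u : ℝ => (sw u : ℂ)) := hsint.ofReal
  obtain ⟨F, hF⟩ : ∃ F : ℝ → ℂ, F = fun u : ℝ =>
    (g (u * I) + g (1 + u * I)) * (sw u : ℂ) - 2 * g (1 / 2) * (sw u : ℂ) := ⟨_, rfl⟩
  have hFint : Integrable F := by
    rw [hF]
    exact hint.sub (hsintC.const_mul _)
  have hFval : ∫ u, F u = (∫ u : ℝ, (g (u * I) + g (1 + u * I)) * (sw u : ℂ)) -
      2 * g (1 / 2) := by
    rw [hF, integral_sub hint (hsintC.const_mul _), integral_const_mul, integral_complex_ofReal,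
      sw_mass, Complex.ofReal_one, mul_one]
  have hlim : Tendsto (fun R : ℝ => ∫ u in -R..R, F u) atTop (𝓝 (∫ u, F u)) :=
    intervalIntegral_tendsto_integral hFint tendsto_neg_atTop_atBot tendsto_id
  have hzero : Tendsto (fun R : ℝ => ∫ u in -R..R, F u) atTop (𝓝 0) := by
    have hexp : Tendsto (fun R : ℝ => 64 * K * Real.exp (-R)) atTop (𝓝 0) := by
      have h1 : Tendsto (fun R : ℝ => Real.exp (-R)) atTop (𝓝 0) :=
        Real.tendsto_exp_neg_atTop_nhds_zero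
      simpa using h1.const_mul (64 * K)
    refine squeeze_zero_norm' ?_ hexp
    filter_upwards [eventually_ge_atTop (1 : ℝ)] with R hR
    have hrect := W03_rect hd (zero_le_one.trans hR)
    have hI : (∫ y : ℝ in -R..R, W03_k g (1 + y * I)) - (∫ y : ℝ in -R..R, W03_k g (y * I)) =
        Real.pi * ∫ u in -R..R, F u := by
      rw [← intervalIntegral.integral_const_mul, ← intervalIntegral.integral_sub]
      · refine intervalIntegral.integral_congr fun y _ => ?_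
        simp only [W03_right, W03_left, hF]
        ring
      · refine Continuous.intervalIntegrable ?_ _ _
        simp only [W03_right]
        exact (continuous_const.mul (hc1.sub continuous_const)).mul hsw
      · refine Continuous.intervalIntegrable ?_ _ _
        simp only [W03_left]
        exact ((continuous_const.mul (hc0.sub continuous_const)).mul hsw).neg
    have hup : ∀ x ∈ Set.uIoc (0 : ℝ) 1, ‖W03_k g (x + R * I)‖ ≤ 32 * K * Real.exp (-R) := by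
      intro x hx
      rw [uIoc_of_le zero_le_one] at hx
      have h1 := W03_k_bound hK hb (z := x + R * I) (by simpa using hx.1.le) (by simpa using hx.2)
        (by simpa [abs_of_nonneg (zero_le_one.trans hR)] using hR)
      simpa [abs_of_nonneg (zero_le_one.trans hR)] using h1
    have hdn : ∀ x ∈ Set.uIoc (0 : ℝ) 1,
        ‖W03_k g (x + (-R : ℝ) * I)‖ ≤ 32 * K * Real.exp (-R) := by
      intro x hx
      rw [uIoc_of_le zero_le_one] at hx
      have h1 := W03_k_bound hK hb (z := x + (-R : ℝ) * I) (by simpa using hx.1.le)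
        (by simpa using hx.2) (by simpa [abs_of_nonneg (zero_le_one.trans hR)] using hR)
      simpa [abs_of_nonneg (zero_le_one.trans hR)] using h1
    have hupI := intervalIntegral.norm_integral_le_of_norm_le_const hup
    have hdnI := intervalIntegral.norm_integral_le_of_norm_le_const hdn
    rw [sub_zero, abs_one, mul_one] at hupI hdnI
    have h2 : I * (Real.pi * ∫ u in -R..R, F u) =
        (∫ x : ℝ in (0 : ℝ)..1, W03_k g (x + R * I)) -
          (∫ x : ℝ in (0 : ℝ)..1, W03_k g (x + (-R : ℝ) * I)) := by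
      rw [← hI, mul_sub]
      rw [smul_eq_mul, smul_eq_mul] at hrect
      linear_combination hrect
    have h3 := congrArg norm h2
    rw [norm_mul, norm_mul, Complex.norm_I, one_mul, Complex.norm_real,
      Real.norm_of_nonneg Real.pi_pos.le] at h3
    have h4 := norm_sub_le (∫ x : ℝ in (0 : ℝ)..1, W03_k g (x + R * I))
      (∫ x : ℝ in (0 : ℝ)..1, W03_k g (x + (-R : ℝ) * I))
    rw [← h3] at h4
    have h5 := Real.pi_gt_three
    have h6 := norm_nonneg (∫ u in -R..R, F u)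
    nlinarith
  have h0 := tendsto_nhds_unique hlim hzero
  rw [hFval, sub_eq_zero] at h0
  rw [h0]
  ring

end LW

end F_W_W03

section F_W_W06

open Complex MeasureTheory Set Filter Topology
open scoped ComplexConjugate

namespace LW

/-- the function H = g prod ib^mu: differentiable on the closed strip, |H| = |f| on both sides, growth, value at 1/2.
Growth: for |Im z| >= 3 (all |Im rho| <= 1) ib_far gives |H| <= 2^(sum mu) |f|; the rest of the closed strip is compact. -/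
theorem strip_H {f : ℂ → ℂ} {η K : ℝ} (hη : 0 < η)
    (hf : DifferentiableOn ℂ f {z : ℂ | -η < z.re ∧ z.re < 1 + η})
    (hb : ∀ z : ℂ, 0 ≤ z.re → z.re ≤ 1 → ‖f z‖ ≤ K * Real.exp (|z.im| / 2))
    (A : Finset ℂ) (μ : ℂ → ℕ) (hA : ∀ ρ ∈ A, 0 < ρ.re ∧ ρ.re ≤ 1/2 ∧ |ρ.im| ≤ 1)
    (hμ : ∀ ρ ∈ A, (μ ρ : ℕ∞) ≤ analyticOrderAt f ρ) :
    ∃ (H : ℂ → ℂ) (K' : ℝ), (∀ z : ℂ, 0 ≤ z.re → z.re ≤ 1 → DifferentiableAt ℂ H z) ∧
      (∀ z : ℂ, 0 ≤ z.re → z.re ≤ 1 → ‖H z‖ ≤ K' * Real.exp (|z.im| / 2)) ∧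
      (∀ u : ℝ, ‖H (u * I)‖ = ‖f (u * I)‖) ∧ (∀ u : ℝ, ‖H (1 + u * I)‖ = ‖f (1 + u * I)‖) ∧
      ‖f (1/2)‖ ^ 2 * ∏ ρ ∈ A, (1 + ρ.re / 4) ^ μ ρ ≤ ‖H (1/2)‖ ^ 2 := by
  have hU : IsOpen {z : ℂ | -η < z.re ∧ z.re < 1 + η} :=
    (isOpen_lt continuous_const Complex.continuous_re).inter
      (isOpen_lt Complex.continuous_re continuous_const)
  have hAU : ∀ ρ ∈ A, ρ ∈ {z : ℂ | -η < z.re ∧ z.re < 1 + η} := by
    intro ρ hρ
    obtain ⟨h1, h2, _⟩ := hA ρ hρ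
    exact ⟨by linarith, by linarith⟩
  obtain ⟨g, hg, hfg⟩ := factor_zeros hU hf A μ hAU hμ
  have hin : ∀ z : ℂ, 0 ≤ z.re → z.re ≤ 1 → z ∈ {z : ℂ | -η < z.re ∧ z.re < 1 + η} := by
    intro z h1 h2
    exact ⟨by linarith, by linarith⟩
  have hdiff : ∀ z : ℂ, 0 ≤ z.re → z.re ≤ 1 →
      DifferentiableAt ℂ (fun z => (∏ ρ ∈ A, (ib ρ z) ^ μ ρ) * g z) z := by
    intro z h1 h2
    refine DifferentiableAt.mul ?_ (hg.differentiableAt (hU.mem_nhds (hin z h1 h2)))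
    refine DifferentiableAt.fun_finsetProd fun ρ hρ => ?_
    obtain ⟨h3, h4, _⟩ := hA ρ hρ
    exact (ib_diff h3 (by linarith) h1 h2).pow _
  have hnf : ∀ z : ℂ, 0 ≤ z.re → z.re ≤ 1 →
      ‖f z‖ = (∏ ρ ∈ A, ‖z - ρ‖ ^ μ ρ) * ‖g z‖ := by
    intro z h1 h2
    rw [hfg z (hin z h1 h2), norm_mul, norm_prod]
    simp only [norm_pow]
  have hnH : ∀ z : ℂ, ‖(∏ ρ ∈ A, (ib ρ z) ^ μ ρ) * g z‖ = (∏ ρ ∈ A, ‖ib ρ z‖ ^ μ ρ) * ‖g z‖ := by
    intro z
    rw [norm_mul, norm_prod]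
    simp only [norm_pow]
  have hcpt : IsCompact (Icc (0:ℝ) 1 ×ℂ Icc (-3:ℝ) 3) := isCompact_Icc.reProdIm isCompact_Icc
  have hcont : ContinuousOn (fun z => (∏ ρ ∈ A, (ib ρ z) ^ μ ρ) * g z)
      (Icc (0:ℝ) 1 ×ℂ Icc (-3:ℝ) 3) := by
    intro z hz
    obtain ⟨h1, h2⟩ := Complex.mem_reProdIm.1 hz
    exact (hdiff z h1.1 h1.2).continuousAt.continuousWithinAt
  obtain ⟨B, hB⟩ := hcpt.exists_bound_of_continuousOn hcont
  refine ⟨fun z => (∏ ρ ∈ A, (ib ρ z) ^ μ ρ) * g z, (∏ ρ ∈ A, (2:ℝ) ^ μ ρ) * |K| + |B|, hdiff,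
    ?_, ?_, ?_, ?_⟩
  · intro z h1 h2
    have hexp : (1:ℝ) ≤ Real.exp (|z.im| / 2) := Real.one_le_exp (by positivity)
    have hP : (0:ℝ) ≤ ∏ ρ ∈ A, (2:ℝ) ^ μ ρ := Finset.prod_nonneg fun _ _ => by positivity
    rcases le_or_gt |z.im| 3 with h3 | h3
    · have h4 := hB z (Complex.mem_reProdIm.2 ⟨⟨h1, h2⟩, abs_le.1 h3⟩)
      calc _ ≤ B := h4
        _ ≤ |B| * 1 := by rw [mul_one]; exact le_abs_self B
        _ ≤ |B| * Real.exp (|z.im| / 2) := mul_le_mul_of_nonneg_left hexp (abs_nonneg B)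
        _ ≤ ((∏ ρ ∈ A, (2:ℝ) ^ μ ρ) * |K| + |B|) * Real.exp (|z.im| / 2) := by
            apply mul_le_mul_of_nonneg_right _ (by positivity)
            have : 0 ≤ (∏ ρ ∈ A, (2:ℝ) ^ μ ρ) * |K| := mul_nonneg hP (abs_nonneg K)
            linarith
    · rw [hnH]
      have h5 : (∏ ρ ∈ A, ‖ib ρ z‖ ^ μ ρ) ≤ ∏ ρ ∈ A, ((2:ℝ) ^ μ ρ * ‖z - ρ‖ ^ μ ρ) := by
        refine Finset.prod_le_prod (fun _ _ => by positivity) fun ρ hρ => ?_
        rw [← mul_pow]
        refine pow_le_pow_left₀ (norm_nonneg _) (ib_far ?_) _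
        obtain ⟨_, _, h6⟩ := hA ρ hρ
        have h7 : |z.im| ≤ |z.im - ρ.im| + |ρ.im| := by
          have := abs_add_le (z.im - ρ.im) ρ.im
          rwa [sub_add_cancel] at this
        linarith
      rw [Finset.prod_mul_distrib] at h5
      calc (∏ ρ ∈ A, ‖ib ρ z‖ ^ μ ρ) * ‖g z‖
          ≤ ((∏ ρ ∈ A, (2:ℝ) ^ μ ρ) * ∏ ρ ∈ A, ‖z - ρ‖ ^ μ ρ) * ‖g z‖ :=
            mul_le_mul_of_nonneg_right h5 (norm_nonneg _)
        _ = (∏ ρ ∈ A, (2:ℝ) ^ μ ρ) * ‖f z‖ := by rw [hnf z h1 h2]; ring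
        _ ≤ (∏ ρ ∈ A, (2:ℝ) ^ μ ρ) * (|K| * Real.exp (|z.im| / 2)) := by
            apply mul_le_mul_of_nonneg_left _ hP
            exact (hb z h1 h2).trans (mul_le_mul_of_nonneg_right (le_abs_self K) (by positivity))
        _ ≤ ((∏ ρ ∈ A, (2:ℝ) ^ μ ρ) * |K| + |B|) * Real.exp (|z.im| / 2) := by
            have : 0 ≤ |B| * Real.exp (|z.im| / 2) := by positivity
            linarith
  · intro u
    have h1 : (0:ℝ) ≤ ((u:ℂ) * I).re := by simp
    have h2 : ((u:ℂ) * I).re ≤ 1 := by simp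
    show ‖(∏ ρ ∈ A, (ib ρ (u * I)) ^ μ ρ) * g (u * I)‖ = ‖f (u * I)‖
    rw [hnH, hnf _ h1 h2]
    congr 1
    refine Finset.prod_congr rfl fun ρ hρ => ?_
    obtain ⟨h3, h4, _⟩ := hA ρ hρ
    rw [ib_left h3 (by linarith) u]
  · intro u
    have h1 : (0:ℝ) ≤ (1 + (u:ℂ) * I).re := by simp
    have h2 : (1 + (u:ℂ) * I).re ≤ 1 := by simp
    show ‖(∏ ρ ∈ A, (ib ρ (1 + u * I)) ^ μ ρ) * g (1 + u * I)‖ = ‖f (1 + u * I)‖
    rw [hnH, hnf _ h1 h2]
    congr 1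
    refine Finset.prod_congr rfl fun ρ hρ => ?_
    obtain ⟨h3, h4, _⟩ := hA ρ hρ
    rw [ib_right h3 (by linarith) u]
  · have h1 : (0:ℝ) ≤ ((1:ℂ) / 2).re := by norm_num
    have h2 : ((1:ℂ) / 2).re ≤ 1 := by norm_num
    show ‖f (1/2)‖ ^ 2 * ∏ ρ ∈ A, (1 + ρ.re / 4) ^ μ ρ ≤
      ‖(∏ ρ ∈ A, (ib ρ (1/2)) ^ μ ρ) * g (1/2)‖ ^ 2
    rw [hnH, hnf _ h1 h2, mul_pow, mul_pow, ← Finset.prod_pow, ← Finset.prod_pow,
      mul_right_comm, ← Finset.prod_mul_distrib]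
    apply mul_le_mul_of_nonneg_right _ (by positivity)
    refine Finset.prod_le_prod (fun ρ hρ => ?_) fun ρ hρ => ?_
    · have := (hA ρ hρ).1
      positivity
    · obtain ⟨h3, h4, h5⟩ := hA ρ hρ
      have h6 := ib_mid h3 h4 h5
      rw [← pow_mul, ← pow_mul, mul_comm (μ ρ) 2, pow_mul, pow_mul, ← mul_pow]
      refine pow_le_pow_left₀ (by positivity) ?_ _
      rw [mul_comm]
      exact h6

end LW

end F_W_W06

section F_W_W07

open Complex MeasureTheory Set Filter Topology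
open scoped ComplexConjugate

namespace LW

theorem W07_prod (A : Finset ℂ) (μ : ℂ → ℕ) {δ : ℝ} (hδ : 0 < δ) (hA : ∀ ρ ∈ A, δ ≤ ρ.re) :
    1 + δ / 4 * ∑ ρ ∈ A, (μ ρ : ℝ) ≤ ∏ ρ ∈ A, (1 + ρ.re / 4) ^ μ ρ := by
  classical
  induction A using Finset.induction_on with
  | empty => simp
  | insert a s ha ih =>
    rw [Finset.sum_insert ha, Finset.prod_insert ha]
    have h1 := ih (fun ρ hρ => hA ρ (Finset.mem_insert_of_mem hρ))
    have h2 : δ ≤ a.re := hA a (Finset.mem_insert_self _ _)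
    have h3 : 1 + δ / 4 * (μ a : ℝ) ≤ (1 + a.re / 4) ^ μ a := by
      have h4 : (1 + δ / 4) ^ μ a ≤ (1 + a.re / 4) ^ μ a := by
        gcongr
      have h5 := one_add_mul_le_pow (a := δ / 4) (by linarith) (μ a)
      linarith
    have hS : 0 ≤ ∑ ρ ∈ s, (μ ρ : ℝ) := Finset.sum_nonneg (fun _ _ => Nat.cast_nonneg _)
    have hm : (0 : ℝ) ≤ μ a := Nat.cast_nonneg _
    have h6 : (1 + δ / 4 * (μ a : ℝ)) * (1 + δ / 4 * ∑ ρ ∈ s, (μ ρ : ℝ))
        ≤ (1 + a.re / 4) ^ μ a * ∏ ρ ∈ s, (1 + ρ.re / 4) ^ μ ρ := by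
      apply mul_le_mul h3 h1 (by positivity)
      exact le_trans (by positivity) h3
    have h7 : 0 ≤ (δ / 4 * (μ a : ℝ)) * (δ / 4 * ∑ ρ ∈ s, (μ ρ : ℝ)) := by positivity
    nlinarith

theorem W07_K {h : ℂ → ℂ} {K : ℝ}
    (hb : ∀ z : ℂ, 0 ≤ z.re → z.re ≤ 1 → ‖h z‖ ≤ K * Real.exp (|z.im| / 2)) : 0 ≤ K := by
  have := (norm_nonneg _).trans (hb 0 (by simp) (by simp))
  simpa using this

theorem W07_cont {h : ℂ → ℂ} {x : ℝ} (hx0 : 0 ≤ x) (hx1 : x ≤ 1)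
    (hd : ∀ z : ℂ, 0 ≤ z.re → z.re ≤ 1 → DifferentiableAt ℂ h z) :
    Continuous fun u : ℝ => h (x + u * I) := by
  rw [continuous_iff_continuousAt]
  intro u
  have h1 : ContinuousAt h ((x : ℂ) + u * I) := by
    apply (hd _ _ _).continuousAt
    · simpa using hx0
    · simpa using hx1
  have h2 : ContinuousAt (fun u : ℝ => (x : ℂ) + u * I) u := by fun_prop
  exact ContinuousAt.comp (f := fun u : ℝ => (x : ℂ) + u * I) (g := h) h1 h2

theorem W07_bd {h : ℂ → ℂ} {K x : ℝ} (hx0 : 0 ≤ x) (hx1 : x ≤ 1)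
    (hb : ∀ z : ℂ, 0 ≤ z.re → z.re ≤ 1 → ‖h z‖ ≤ K * Real.exp (|z.im| / 2)) (u : ℝ) :
    ‖h (x + u * I)‖ ^ 2 ≤ K ^ 2 * Real.exp |u| := by
  have h1 := hb (x + u * I) (by simpa using hx0) (by simpa using hx1)
  have him : ((x : ℂ) + u * I).im = u := by simp
  rw [him] at h1
  calc ‖h (x + u * I)‖ ^ 2 ≤ (K * Real.exp (|u| / 2)) ^ 2 := by gcongr
    _ = K ^ 2 * Real.exp |u| := by
      rw [mul_pow, ← Real.exp_nat_mul]
      congr 2
      push_cast
      ring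

/-- integrability of a continuous function bounded by `C exp|u|` against `sw` -/
theorem W07_int {E : Type*} [NormedAddCommGroup E] [NormedSpace ℝ E] {φ : ℝ → E} {C : ℝ}
    (hc : Continuous φ) (hb : ∀ u, ‖φ u‖ ≤ C * Real.exp |u|) :
    Integrable (fun u : ℝ => (sw u) • φ u) := by
  have h1 : Integrable (fun u : ℝ => C * (Real.exp |u| * sw u)) := sw_exp_int.const_mul C
  refine h1.mono' ((sw_cont.smul hc).aestronglyMeasurable) ?_
  filter_upwards with u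
  rw [norm_smul, Real.norm_eq_abs, abs_of_pos (sw_pos u)]
  calc sw u * ‖φ u‖ ≤ sw u * (C * Real.exp |u|) := mul_le_mul_of_nonneg_left (hb u) (sw_pos u).le
    _ = C * (Real.exp |u| * sw u) := by ring

theorem W07_intsq {h : ℂ → ℂ} {K : ℝ}
    (hd : ∀ z : ℂ, 0 ≤ z.re → z.re ≤ 1 → DifferentiableAt ℂ h z)
    (hb : ∀ z : ℂ, 0 ≤ z.re → z.re ≤ 1 → ‖h z‖ ≤ K * Real.exp (|z.im| / 2)) :
    Integrable fun u : ℝ => (‖h (u * I)‖ ^ 2 + ‖h (1 + u * I)‖ ^ 2) * sw u := by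
  have c0 := W07_cont (x := 0) le_rfl zero_le_one hd
  have c1 := W07_cont (x := 1) zero_le_one le_rfl hd
  have b0 := W07_bd (x := 0) le_rfl zero_le_one hb
  have b1 := W07_bd (x := 1) zero_le_one le_rfl hb
  simp only [ofReal_zero, ofReal_one, zero_add] at c0 c1 b0 b1
  have h1 := W07_int (φ := fun u : ℝ => ‖h (u * I)‖ ^ 2 + ‖h (1 + u * I)‖ ^ 2) (C := 2 * K ^ 2)
    ((c0.norm.pow 2).add (c1.norm.pow 2)) (fun u => by
      rw [Real.norm_eq_abs, abs_of_nonneg (by positivity)]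
      linarith [b0 u, b1 u])
  refine h1.congr ?_
  filter_upwards with u
  simp only [smul_eq_mul]
  ring

theorem W07_diff {f : ℂ → ℂ} {η : ℝ} (hη : 0 < η)
    (hf : DifferentiableOn ℂ f {z : ℂ | -η < z.re ∧ z.re < 1 + η}) (z : ℂ) (h0 : 0 ≤ z.re)
    (h1 : z.re ≤ 1) : DifferentiableAt ℂ f z := by
  have hopen : IsOpen {z : ℂ | -η < z.re ∧ z.re < 1 + η} :=
    (isOpen_lt continuous_const Complex.continuous_re).inter
      (isOpen_lt Complex.continuous_re continuous_const)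
  exact hf.differentiableAt (hopen.mem_nhds ⟨by linarith, by linarith⟩)

/-- zeros in the strip and the mean square of f on its boundary: strip_mean for H^2 -/
theorem strip_zeros {f : ℂ → ℂ} {η K δ : ℝ} (hη : 0 < η) (hδ : 0 < δ)
    (hf : DifferentiableOn ℂ f {z : ℂ | -η < z.re ∧ z.re < 1 + η})
    (hb : ∀ z : ℂ, 0 ≤ z.re → z.re ≤ 1 → ‖f z‖ ≤ K * Real.exp (|z.im| / 2))
    (A : Finset ℂ) (μ : ℂ → ℕ) (hA : ∀ ρ ∈ A, δ ≤ ρ.re ∧ ρ.re ≤ 1/2 ∧ |ρ.im| ≤ 1)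
    (hμ : ∀ ρ ∈ A, (μ ρ : ℕ∞) ≤ analyticOrderAt f ρ) :
    ‖f (1/2)‖ ^ 2 * (1 + δ / 4 * ∑ ρ ∈ A, (μ ρ : ℝ)) ≤
      2⁻¹ * ∫ u : ℝ, (‖f (u * I)‖ ^ 2 + ‖f (1 + u * I)‖ ^ 2) * sw u := by
  obtain ⟨H, K', hd, hbH, hl, hr, hm⟩ := strip_H hη hf hb A μ
    (fun ρ hρ => ⟨lt_of_lt_of_le hδ (hA ρ hρ).1, (hA ρ hρ).2.1, (hA ρ hρ).2.2⟩) hμ
  have hmean := strip_mean (g := fun z => H z ^ 2) (K := K' ^ 2)
    (fun z h0 h1 => (hd z h0 h1).pow 2) (fun z h0 h1 => by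
      rw [norm_pow]
      have h2 := hbH z h0 h1
      calc ‖H z‖ ^ 2 ≤ (K' * Real.exp (|z.im| / 2)) ^ 2 := by gcongr
        _ = K' ^ 2 * Real.exp |z.im| := by
          rw [mul_pow, ← Real.exp_nat_mul]
          congr 2
          push_cast
          ring)
  have h1 : ‖H (1 / 2)‖ ^ 2 ≤ 2⁻¹ * ∫ u : ℝ, (‖f (u * I)‖ ^ 2 + ‖f (1 + u * I)‖ ^ 2) * sw u := by
    rw [← norm_pow, hmean, norm_mul]
    have h2 : ‖(2⁻¹ : ℂ)‖ = 2⁻¹ := by simp
    rw [h2]
    apply mul_le_mul_of_nonneg_left _ (by norm_num)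
    refine (norm_integral_le_integral_norm _).trans ?_
    apply integral_mono_of_nonneg
    · filter_upwards with u
      exact norm_nonneg _
    · exact W07_intsq (W07_diff hη hf) hb
    · filter_upwards with u
      rw [norm_mul, Complex.norm_real, Real.norm_eq_abs, abs_of_pos (sw_pos u)]
      apply mul_le_mul_of_nonneg_right _ (sw_pos u).le
      refine (norm_add_le _ _).trans ?_
      rw [norm_pow, norm_pow, hl, hr]
  have h3 := W07_prod A μ hδ (fun ρ hρ => (hA ρ hρ).1)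
  calc ‖f (1/2)‖ ^ 2 * (1 + δ / 4 * ∑ ρ ∈ A, (μ ρ : ℝ))
      ≤ ‖f (1/2)‖ ^ 2 * ∏ ρ ∈ A, (1 + ρ.re / 4) ^ μ ρ :=
        mul_le_mul_of_nonneg_left h3 (by positivity)
    _ ≤ ‖H (1/2)‖ ^ 2 := hm
    _ ≤ _ := h1

theorem W07_sq (w : ℂ) : ‖w‖ ^ 2 = 1 + 2 * (w - 1).re + ‖w - 1‖ ^ 2 := by
  rw [← Complex.normSq_eq_norm_sq, ← Complex.normSq_eq_norm_sq, Complex.normSq_apply,
    Complex.normSq_apply]
  simp
  ring

/-- |f|^2 = 1 + 2 Re(f-1) + |f-1|^2 on the boundary, strip_mean for f - 1, |f(1/2)|^2 >= 1 + 2 Re(f(1/2)-1) >= 1/2 -/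
theorem strip_count {f : ℂ → ℂ} {η K δ : ℝ} (hη : 0 < η) (hδ : 0 < δ)
    (hf : DifferentiableOn ℂ f {z : ℂ | -η < z.re ∧ z.re < 1 + η})
    (hb : ∀ z : ℂ, 0 ≤ z.re → z.re ≤ 1 → ‖f z‖ ≤ K * Real.exp (|z.im| / 2))
    (A : Finset ℂ) (μ : ℂ → ℕ) (hA : ∀ ρ ∈ A, δ ≤ ρ.re ∧ ρ.re ≤ 1/2 ∧ |ρ.im| ≤ 1)
    (hμ : ∀ ρ ∈ A, (μ ρ : ℕ∞) ≤ analyticOrderAt f ρ) (h0 : ‖f (1/2) - 1‖ ≤ 1/4) :
    δ / 4 * ∑ ρ ∈ A, (μ ρ : ℝ) ≤ ∫ u : ℝ, (‖f (u * I) - 1‖ ^ 2 + ‖f (1 + u * I) - 1‖ ^ 2) * sw u := by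
  have hK := W07_K hb
  have hz := strip_zeros hη hδ hf hb A μ hA hμ
  have hdf := W07_diff hη hf
  have hdF : ∀ z : ℂ, 0 ≤ z.re → z.re ≤ 1 → DifferentiableAt ℂ (fun z => f z - 1) z :=
    fun z a b => (hdf z a b).sub_const 1
  have hbF : ∀ z : ℂ, 0 ≤ z.re → z.re ≤ 1 → ‖f z - 1‖ ≤ (K + 1) * Real.exp (|z.im| / 2) := by
    intro z a b
    refine (norm_sub_le _ _).trans ?_
    have h1 := hb z a b
    have h2 : 1 ≤ Real.exp (|z.im| / 2) := Real.one_le_exp (by positivity)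
    rw [norm_one]
    linarith
  have hbF' : ∀ z : ℂ, 0 ≤ z.re → z.re ≤ 1 → ‖f z - 1‖ ≤ (K + 1) * Real.exp |z.im| := by
    intro z a b
    refine (hbF z a b).trans ?_
    have : Real.exp (|z.im| / 2) ≤ Real.exp |z.im| := by
      apply Real.exp_le_exp.mpr
      have := abs_nonneg z.im
      linarith
    exact mul_le_mul_of_nonneg_left this (by linarith)
  have hmean := strip_mean (g := fun z => f z - 1) hdF hbF'
  have c0 := W07_cont (x := 0) le_rfl zero_le_one hdF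
  have c1 := W07_cont (x := 1) zero_le_one le_rfl hdF
  simp only [ofReal_zero, ofReal_one, zero_add] at c0 c1
  have bd0 : ∀ u : ℝ, ‖f (u * I) - 1‖ ≤ (K + 1) * Real.exp |u| := by
    intro u
    simpa using hbF' (u * I) (by simp) (by simp)
  have bd1 : ∀ u : ℝ, ‖f (1 + u * I) - 1‖ ≤ (K + 1) * Real.exp |u| := by
    intro u
    simpa using hbF' (1 + u * I) (by simp) (by simp)
  have hintF : Integrable fun u : ℝ => (sw u) • ((f (u * I) - 1) + (f (1 + u * I) - 1)) :=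
    W07_int (C := 2 * (K + 1)) (c0.add c1) (fun u => by
      refine (norm_add_le _ _).trans ?_
      linarith [bd0 u, bd1 u])
  have hmean2 : (f (1/2) - 1).re
      = 2⁻¹ * ∫ u : ℝ, ((f (u * I) - 1).re + (f (1 + u * I) - 1).re) * sw u := by
    have h1 : (∫ u : ℝ, ((f (u * I) - 1) + (f (1 + u * I) - 1)) * (sw u : ℂ)).re
        = ∫ u : ℝ, ((f (u * I) - 1).re + (f (1 + u * I) - 1).re) * sw u := by
      have h2 : (∫ u : ℝ, ((f (u * I) - 1) + (f (1 + u * I) - 1)) * (sw u : ℂ))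
          = ∫ u : ℝ, (sw u) • ((f (u * I) - 1) + (f (1 + u * I) - 1)) := by
        congr 1
        funext u
        rw [Complex.real_smul, mul_comm]
      rw [h2]
      have h3 := reCLM.integral_comp_comm hintF
      simp only [reCLM_apply] at h3
      rw [← h3]
      congr 1
      funext u
      simp
      ring
    rw [← h1]
    have h4 := congrArg Complex.re hmean
    rw [h4]
    simp
  have hsqF := W07_intsq (h := fun z => f z - 1) (K := K + 1) hdF hbF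
  have hreF : Integrable fun u : ℝ => ((f (u * I) - 1).re + (f (1 + u * I) - 1).re) * sw u := by
    have h1 := hintF.re
    refine h1.congr ?_
    filter_upwards with u
    simp
    ring
  have hsw : Integrable sw := by
    have h1 := W07_int (φ := fun _ : ℝ => (1 : ℝ)) (C := 1) continuous_const (fun u => by
      rw [norm_one, one_mul]
      exact Real.one_le_exp (abs_nonneg u))
    simpa using h1
  have hexp : (∫ u : ℝ, (‖f (u * I)‖ ^ 2 + ‖f (1 + u * I)‖ ^ 2) * sw u)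
      = 2 + 2 * (∫ u : ℝ, ((f (u * I) - 1).re + (f (1 + u * I) - 1).re) * sw u)
        + ∫ u : ℝ, (‖f (u * I) - 1‖ ^ 2 + ‖f (1 + u * I) - 1‖ ^ 2) * sw u := by
    have h1 : (∫ u : ℝ, (‖f (u * I)‖ ^ 2 + ‖f (1 + u * I)‖ ^ 2) * sw u)
        = ∫ u : ℝ, ((2 * sw u + 2 * (((f (u * I) - 1).re + (f (1 + u * I) - 1).re) * sw u))
          + (‖f (u * I) - 1‖ ^ 2 + ‖f (1 + u * I) - 1‖ ^ 2) * sw u) := by
      congr 1
      funext u
      rw [W07_sq (f (u * I)), W07_sq (f (1 + u * I))]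
      ring
    have e1 : (∫ u : ℝ, ((2 * sw u + 2 * (((f (u * I) - 1).re + (f (1 + u * I) - 1).re) * sw u))
          + (‖f (u * I) - 1‖ ^ 2 + ‖f (1 + u * I) - 1‖ ^ 2) * sw u))
        = (∫ u : ℝ, (2 * sw u + 2 * (((f (u * I) - 1).re + (f (1 + u * I) - 1).re) * sw u)))
          + ∫ u : ℝ, (‖f (u * I) - 1‖ ^ 2 + ‖f (1 + u * I) - 1‖ ^ 2) * sw u :=
      integral_add ((hsw.const_mul 2).add (hreF.const_mul 2)) hsqF
    have e2 : (∫ u : ℝ, (2 * sw u + 2 * (((f (u * I) - 1).re + (f (1 + u * I) - 1).re) * sw u)))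
        = (∫ u : ℝ, 2 * sw u)
          + ∫ u : ℝ, 2 * (((f (u * I) - 1).re + (f (1 + u * I) - 1).re) * sw u) :=
      integral_add (hsw.const_mul 2) (hreF.const_mul 2)
    rw [h1, e1, e2, integral_const_mul, integral_const_mul, sw_mass, mul_one]
  rw [hexp] at hz
  have hsq := W07_sq (f (1/2))
  have hJ : 0 ≤ ∫ u : ℝ, (‖f (u * I) - 1‖ ^ 2 + ‖f (1 + u * I) - 1‖ ^ 2) * sw u := by
    apply integral_nonneg
    intro u
    have := (sw_pos u).le
    positivity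
  have hS : 0 ≤ δ / 4 * ∑ ρ ∈ A, (μ ρ : ℝ) := by
    have : 0 ≤ ∑ ρ ∈ A, (μ ρ : ℝ) := Finset.sum_nonneg (fun _ _ => Nat.cast_nonneg _)
    positivity
  have hnn : (0:ℝ) ≤ ‖f (1/2) - 1‖ ^ 2 := by positivity
  have hlow : (1:ℝ)/2 ≤ ‖f (1/2)‖ ^ 2 := by
    have h1 : |(f (1/2) - 1).re| ≤ 1/4 := (Complex.abs_re_le_norm _).trans h0
    have h2 := (abs_le.mp h1).1
    linarith
  have h5 : (1:ℝ)/2 * (δ / 4 * ∑ ρ ∈ A, (μ ρ : ℝ))
      ≤ ‖f (1/2)‖ ^ 2 * (δ / 4 * ∑ ρ ∈ A, (μ ρ : ℝ)) := mul_le_mul_of_nonneg_right hlow hS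
  nlinarith

end LW

end F_W_W07
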