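import Pool.Agent.Lib.MP_0f5a55_nt.V.V56
import Pool.Agent.Lib.MP_0f5a55_nt.V.V61
import Pool.Agent.Lib.MP_0f5a55_nt.V.V94
import Pool.Agent.Lib.MP_0f5a55_nt.V.V96
import Pool.Agent.Lib.MP_0f5a55_nt.V.V97

section F_W_W12

open Complex MeasureTheory Set Filter Topology
open scoped ComplexConjugate

namespace LW

variable {N m : ℕ} [NeZero N]

/-- the conjugate family -/
noncomputable def cj {N m : ℕ} (X : Fin m → DirichletCharacter ℂ N × ℝ) (j : Fin m) : DirichletCharacter ℂ N × ℝ :=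
  ((X j).1⁻¹, -(X j).2)

theorem cj_inj {X : Fin m → DirichletCharacter ℂ N × ℝ} (h : Function.Injective X) : Function.Injective (cj X) := by
  intro i j hij
  have h1 : (X i).1⁻¹ = (X j).1⁻¹ := congrArg Prod.fst hij
  have h2 : -(X i).2 = -(X j).2 := congrArg Prod.snd hij
  exact h (Prod.ext (inv_injective h1) (neg_injective h2))

/-- LP.conj_facts, LX.Mol_conj -/
theorem Mn_conj (X : Fin m → DirichletCharacter ℂ N × ℝ) (l : ℝ) {s : ℂ} (hs : s.re < 1) :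
    Mn X l (conj s) = conj (Mn (cj X) l s) := by
  unfold Mn
  rw [map_mul, map_inv₀, conj_natCast, map_sum]
  congr 1
  refine Finset.sum_congr rfl fun j _ => ?_
  unfold LX.FF cj
  have e1 : conj s + ((X j).2 : ℂ) * I = conj (s + ((-(X j).2 : ℝ) : ℂ) * I) := by
    rw [map_add, map_mul, conj_ofReal, conj_I]
    push_cast
    ring
  have hne : s + ((-(X j).2 : ℝ) : ℂ) * I ≠ 1 := by
    intro h
    have := congrArg Complex.re h
    simp at this
    linarith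
  have h1 := (LP.conj_facts ((X j).1⁻¹) ((X j).1⁻¹)).1 _ hne
  have h2 := LX.Mol_conj ((X j).1⁻¹) 1 l (s + ((-(X j).2 : ℝ) : ℂ) * I)
  rw [inv_inv] at h1 h2
  rw [map_mul, e1, h1, h2]

theorem W12_FF (χ : DirichletCharacter ℂ N) (l σ : ℝ) (hσ : |σ| ≤ 1 / 8) (u : ℝ) :
    Continuous (fun t : ℝ => LX.FF χ l (1/2 + σ + t * I + u * I)) := by
  unfold LX.FF
  have hσ' := abs_le.1 hσ
  have hre : ∀ t : ℝ, ((1/2 : ℂ) + σ + t * I + u * I).re = 1 / 2 + σ := by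
    intro t
    simp
  have hc : Continuous (fun t : ℝ => (1/2 : ℂ) + σ + t * I + u * I) := by fun_prop
  refine Continuous.mul ?_ ((LX.Mol_cont χ 1 l).comp hc)
  rw [continuous_iff_continuousAt]
  intro t
  have hne : (1/2 : ℂ) + σ + t * I + u * I ≠ 1 := by
    intro h
    have := congrArg Complex.re h
    rw [hre] at this
    simp at this
    linarith
  exact ContinuousAt.comp (f := fun t : ℝ => (1/2 : ℂ) + σ + t * I + u * I) (g := LX.Lf χ)
    (DirichletCharacter.differentiableAt_LFunction χ _ (Or.inl hne)).continuousAt hc.continuousAt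

theorem W12_FFb (χ : DirichletCharacter ℂ N) (l : ℝ) (hl : 0 < l) (σ : ℝ) (hσ : |σ| ≤ 1 / 8)
    (u : ℝ) : ∃ K : ℝ, 0 ≤ K ∧ ∀ t : ℝ, ‖LX.FF χ l (1/2 + σ + t * I + u * I)‖ ≤ K * (1 + |t|) := by
  obtain ⟨Cz, hCz, hz⟩ := LP.per_pol (fun x => χ x)
  refine ⟨Cz * Real.exp l * (1 + |u|), by positivity, fun t => ?_⟩
  unfold LX.FF
  have hσ' := abs_le.1 hσ
  have hre : ((1/2 : ℂ) + σ + t * I + u * I).re = 1 / 2 + σ := by
    simp
  have him : ((1/2 : ℂ) + σ + t * I + u * I).im = t + u := by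
    simp
  rw [norm_mul]
  have h1 : ‖LX.Lf χ ((1/2 : ℂ) + σ + t * I + u * I)‖ ≤
      Cz * (1 + |((1/2 : ℂ) + σ + t * I + u * I).im|) :=
    hz ((1/2 : ℂ) + σ + t * I + u * I) (by rw [hre]; linarith) (by
    have h := Complex.abs_re_le_norm ((1/2 : ℂ) + σ + t * I + u * I - 1)
    rw [Complex.sub_re, hre, Complex.one_re] at h
    refine le_trans ?_ h
    rw [abs_of_neg (by linarith)]
    linarith)
  rw [him] at h1
  have h2 := LX.Mol_bound χ (lam := 1) (by norm_num) le_rfl hl (s := (1/2 : ℂ) + σ + t * I + u * I)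
    (by rw [hre]; linarith)
  have h3 : 0 ≤ Cz * (1 + |t + u|) := le_trans (norm_nonneg _) h1
  have h4 : 1 + |t + u| ≤ (1 + |u|) * (1 + |t|) := by
    have := abs_add_le t u
    nlinarith [abs_nonneg t, abs_nonneg u, mul_nonneg (abs_nonneg t) (abs_nonneg u)]
  calc _ ≤ (Cz * (1 + |t + u|)) * Real.exp l := by
        apply mul_le_mul h1 h2 (norm_nonneg _) h3
    _ = Cz * Real.exp l * (1 + |t + u|) := by ring
    _ ≤ Cz * Real.exp l * ((1 + |u|) * (1 + |t|)) := by gcongr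
    _ = _ := by ring

theorem W12_cont (X : Fin m → DirichletCharacter ℂ N × ℝ) (l σ : ℝ) (hσ : |σ| ≤ 1 / 8) :
    Continuous (fun t : ℝ => Mn X l (1/2 + σ + (t : ℂ) * I)) := by
  unfold Mn
  exact continuous_const.mul (continuous_finsetSum _ fun j _ => W12_FF _ l σ hσ _)

theorem W12_bound (X : Fin m → DirichletCharacter ℂ N × ℝ) (l : ℝ) (hl : 0 < l) (σ : ℝ)
    (hσ : |σ| ≤ 1 / 8) : ∃ K : ℝ, 0 ≤ K ∧ ∀ t : ℝ,
      ‖Mn X l (1/2 + σ + (t : ℂ) * I) - 1‖ ^ 2 ≤ K * (1 + |t|) ^ 2 := by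
  choose Kj hKj hb using fun j : Fin m => W12_FFb (X j).1 l hl σ hσ (X j).2
  have hS : 0 ≤ ∑ j, Kj j := Finset.sum_nonneg fun j _ => hKj j
  refine ⟨(‖(m : ℂ)⁻¹‖ * ∑ j, Kj j + 1) ^ 2, by positivity, fun t => ?_⟩
  rw [← mul_pow]
  refine pow_le_pow_left₀ (norm_nonneg _) ?_ 2
  have h1 : ‖Mn X l (1/2 + σ + (t : ℂ) * I)‖ ≤ ‖(m : ℂ)⁻¹‖ * ((∑ j, Kj j) * (1 + |t|)) := by
    unfold Mn
    rw [norm_mul]
    gcongr
    refine (norm_sum_le _ _).trans ?_
    rw [Finset.sum_mul]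
    exact Finset.sum_le_sum fun j _ => hb j t
  calc ‖Mn X l (1/2 + σ + (t : ℂ) * I) - 1‖ ≤ ‖Mn X l (1/2 + σ + (t : ℂ) * I)‖ + ‖(1 : ℂ)‖ :=
        norm_sub_le _ _
    _ ≤ ‖(m : ℂ)⁻¹‖ * ((∑ j, Kj j) * (1 + |t|)) + 1 := by
        rw [norm_one]
        gcongr
    _ ≤ _ := by nlinarith [abs_nonneg t]

theorem W12_poly (c u : ℝ) (hc : 0 ≤ c) : (1 + |c * u|) ^ 2 ≤ 4 * (1 + c) ^ 2 * Real.exp |u| := by
  have h1 : 1 + |c * u| ≤ (1 + c) * (2 * Real.exp (|u| / 2)) := by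
    have h2 := Real.add_one_le_exp (|u| / 2)
    rw [abs_mul, abs_of_nonneg hc]
    nlinarith [abs_nonneg u, mul_nonneg hc (abs_nonneg u)]
  calc (1 + |c * u|) ^ 2 ≤ ((1 + c) * (2 * Real.exp (|u| / 2))) ^ 2 :=
        pow_le_pow_left₀ (by positivity) h1 2
    _ = 4 * (1 + c) ^ 2 * Real.exp (|u| / 2) ^ 2 := by ring
    _ = _ := by
        rw [← Real.exp_nat_mul]
        congr 2
        push_cast
        ring

theorem W12_int (X : Fin m → DirichletCharacter ℂ N × ℝ) (l : ℝ) (hl : 0 < l) (σ : ℝ)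
    (hσ : |σ| ≤ 1 / 8) {T : ℝ} (hT : 0 < T) :
    Integrable (fun u : ℝ => ‖Mn X l (1/2 + σ + (Real.pi * T * u : ℝ) * I) - 1‖ ^ 2 * sw u) ∧
    IntegrableOn (fun u : ℝ => ‖Mn X l (1/2 + σ + (Real.pi * T * u : ℝ) * I) - 1‖ ^ 2 *
      Real.exp (-(Real.pi * u))) (Ioi 0) := by
  obtain ⟨K, hK, hb⟩ := W12_bound X l hl σ hσ
  have hc : 0 ≤ Real.pi * T := by positivity
  have hcont : Continuous (fun u : ℝ => ‖Mn X l (1/2 + σ + (Real.pi * T * u : ℝ) * I) - 1‖ ^ 2) := by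
    have h1 := (W12_cont X l σ hσ).comp (continuous_const.mul continuous_id :
      Continuous fun u : ℝ => Real.pi * T * u)
    exact ((h1.sub continuous_const).norm).pow 2
  have hbound : ∀ u : ℝ, ‖Mn X l (1/2 + σ + (Real.pi * T * u : ℝ) * I) - 1‖ ^ 2 ≤
      K * (4 * (1 + Real.pi * T) ^ 2) * Real.exp |u| := by
    intro u
    calc _ ≤ K * (1 + |Real.pi * T * u|) ^ 2 := hb _
      _ ≤ K * (4 * (1 + Real.pi * T) ^ 2 * Real.exp |u|) :=
          mul_le_mul_of_nonneg_left (W12_poly (Real.pi * T) u hc) hK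
      _ = _ := by ring
  constructor
  · refine Integrable.mono' (sw_exp_int.const_mul (K * (4 * (1 + Real.pi * T) ^ 2)))
      (hcont.mul sw_cont).aestronglyMeasurable (ae_of_all _ fun u => ?_)
    rw [norm_mul, Real.norm_of_nonneg (by positivity), Real.norm_of_nonneg (sw_pos u).le,
      ← mul_assoc]
    exact mul_le_mul_of_nonneg_right (hbound u) (sw_pos u).le
  · have hpi : 0 < Real.pi - 1 := by linarith [Real.pi_gt_three]
    refine Integrable.mono' ((exp_neg_integrableOn_Ioi 0 hpi).const_mul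
      (K * (4 * (1 + Real.pi * T) ^ 2))) (hcont.mul (by fun_prop)).aestronglyMeasurable
      (ae_restrict_of_forall_mem measurableSet_Ioi fun u hu => ?_)
    have hu0 : (0 : ℝ) < u := hu
    rw [norm_mul, Real.norm_of_nonneg (by positivity), Real.norm_of_nonneg (Real.exp_pos _).le]
    have h1 := hbound u
    rw [abs_of_pos hu0] at h1
    calc _ ≤ K * (4 * (1 + Real.pi * T) ^ 2) * Real.exp u * Real.exp (-(Real.pi * u)) :=
          mul_le_mul_of_nonneg_right h1 (Real.exp_pos _).le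
      _ = _ := by
          rw [mul_assoc _ (Real.exp u), ← Real.exp_add]
          congr 2
          ring

theorem W12_half (X : Fin m → DirichletCharacter ℂ N × ℝ) (l : ℝ) (hl : 0 < l) (σ : ℝ)
    (hσ : |σ| ≤ 1 / 8) {T : ℝ} (hT : 0 < T) :
    ∫ u in Ioi (0 : ℝ), ‖Mn X l (1/2 + σ + (Real.pi * T * u : ℝ) * I) - 1‖ ^ 2 * sw u ≤
      2 / Real.pi * LZ.ER T (fun t => ‖Mn X l (1/2 + σ + (t : ℂ) * I) - 1‖ ^ 2) := by
  obtain ⟨h1, h2⟩ := W12_int X l hl σ hσ hT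
  have hc : 0 < Real.pi * T := by positivity
  calc ∫ u in Ioi (0 : ℝ), ‖Mn X l (1/2 + σ + (Real.pi * T * u : ℝ) * I) - 1‖ ^ 2 * sw u
      ≤ ∫ u in Ioi (0 : ℝ), 2 * (‖Mn X l (1/2 + σ + (Real.pi * T * u : ℝ) * I) - 1‖ ^ 2 *
          Real.exp (-(Real.pi * u))) := by
        refine setIntegral_mono_on h1.integrableOn (h2.const_mul 2) measurableSet_Ioi fun u hu => ?_
        have hu0 : (0 : ℝ) < u := hu
        have h3 := sw_le u
        rw [abs_of_pos hu0] at h3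
        calc _ ≤ ‖Mn X l (1/2 + σ + (Real.pi * T * u : ℝ) * I) - 1‖ ^ 2 *
              (2 * Real.exp (-(Real.pi * u))) := by gcongr
          _ = _ := by ring
    _ = 2 * ∫ u in Ioi (0 : ℝ), (fun t : ℝ => ‖Mn X l (1/2 + σ + (t : ℂ) * I) - 1‖ ^ 2 *
          Real.exp (-t / T)) (Real.pi * T * u) := by
        rw [integral_const_mul]
        congr 1
        refine setIntegral_congr_fun measurableSet_Ioi fun u _ => ?_
        simp only
        congr 2
        field_simp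
    _ = 2 * ((Real.pi * T)⁻¹ • ∫ t in Ioi (Real.pi * T * 0),
          (fun t : ℝ => ‖Mn X l (1/2 + σ + (t : ℂ) * I) - 1‖ ^ 2 * Real.exp (-t / T)) t) := by
        congr 1
        exact integral_comp_mul_left_Ioi
          (fun t : ℝ => ‖Mn X l (1/2 + σ + (t : ℂ) * I) - 1‖ ^ 2 * Real.exp (-t / T)) 0 hc
    _ = _ := by
        rw [mul_zero, smul_eq_mul]
        unfold LZ.ER
        rw [mul_inv]
        ring

/-- mean square on the left side: LP.H_mean for X (t > 0) and for cj X (t < 0), sw(t/(pi T)) <= 2 exp(-|t|/T) -/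
theorem Mn_left : ∃ C : ℝ, 0 < C ∧ ∀ (N : ℕ) [NeZero N] (m : ℕ) (X : Fin m → DirichletCharacter ℂ N × ℝ),
    1 ≤ m → Function.Injective X → ∃ T0 : ℝ, 2 ≤ T0 ∧ ∀ T : ℝ, T0 ≤ T → ∀ σ : ℝ, |σ| ≤ 1 / Real.log T →
    Integrable (fun u : ℝ => ‖Mn X (Real.log T / 1500) (1/2 + σ + (Real.pi * T * u : ℝ) * I) - 1‖ ^ 2 * sw u) ∧
    ∫ u : ℝ, ‖Mn X (Real.log T / 1500) (1/2 + σ + (Real.pi * T * u : ℝ) * I) - 1‖ ^ 2 * sw u ≤ C / m := by
  obtain ⟨C, hC, hmean⟩ := LP.H_mean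
  refine ⟨2 * C, by positivity, ?_⟩
  intro N _ m X hm hX
  obtain ⟨T1, hT1, h1⟩ := hmean N m X hm hX
  obtain ⟨T2, hT2, h2⟩ := hmean N m (cj X) hm (cj_inj hX)
  refine ⟨max (max T1 T2) (Real.exp 8), hT1.trans ((le_max_left _ _).trans (le_max_left _ _)), ?_⟩
  intro T hT σ hσ
  have hTa : T1 ≤ T := ((le_max_left _ _).trans (le_max_left _ _)).trans hT
  have hTb : T2 ≤ T := ((le_max_right _ _).trans (le_max_left _ _)).trans hT
  have hTc : Real.exp 8 ≤ T := (le_max_right _ _).trans hT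
  have hT0 : 0 < T := by linarith
  have hL : 8 ≤ Real.log T := by
    rw [Real.le_log_iff_exp_le hT0]
    exact hTc
  have hσ8 : |σ| ≤ 1 / 8 := hσ.trans (one_div_le_one_div_of_le (by norm_num) hL)
  have hl0 : 0 < Real.log T / 1500 := by positivity
  have hm0 : (0 : ℝ) < m := by exact_mod_cast hm
  set l : ℝ := Real.log T / 1500 with hl
  -- the mean on the positive half line
  have key : ∀ Y : Fin m → DirichletCharacter ℂ N × ℝ,
      LZ.ER T (fun t => ‖(∑ j, LX.FF (Y j).1 l (1/2 + σ + (t + (Y j).2) * I)) - m‖ ^ 2) ≤ C * m →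
      ∫ u in Ioi (0 : ℝ), ‖Mn Y l (1/2 + σ + (Real.pi * T * u : ℝ) * I) - 1‖ ^ 2 * sw u ≤ C / m := by
    intro Y hY
    refine (W12_half Y l hl0 σ hσ8 hT0).trans ?_
    have e1 : LZ.ER T (fun t => ‖Mn Y l (1/2 + σ + (t : ℂ) * I) - 1‖ ^ 2) = ((m : ℝ)⁻¹) ^ 2 *
        LZ.ER T (fun t => ‖(∑ j, LX.FF (Y j).1 l (1/2 + σ + (t + (Y j).2) * I)) - m‖ ^ 2) := by
      unfold LZ.ER
      rw [mul_left_comm (((m : ℝ)⁻¹) ^ 2)]
      congr 1
      rw [← integral_const_mul]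
      congr 1
      funext t
      simp only
      have e2 : Mn Y l (1/2 + σ + (t : ℂ) * I) - 1 =
          (m : ℂ)⁻¹ * ((∑ j, LX.FF (Y j).1 l (1/2 + σ + (t + (Y j).2) * I)) - m) := by
        unfold Mn
        rw [mul_sub, inv_mul_cancel₀ (by exact_mod_cast hm0.ne')]
        congr 2
        refine Finset.sum_congr rfl fun j _ => ?_
        congr 1
        ring
      rw [e2, norm_mul, norm_inv, Complex.norm_natCast]
      ring
    rw [e1]
    have hpi : 2 / Real.pi ≤ 1 := by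
      rw [div_le_one Real.pi_pos]
      linarith [Real.pi_gt_three]
    have h3 : ((m : ℝ)⁻¹) ^ 2 * LZ.ER T (fun t => ‖(∑ j, LX.FF (Y j).1 l
        (1/2 + σ + (t + (Y j).2) * I)) - m‖ ^ 2) ≤ C / m := by
      calc _ ≤ ((m : ℝ)⁻¹) ^ 2 * (C * m) := by gcongr
        _ = C / m := by
            field_simp
    calc _ ≤ 2 / Real.pi * (C / m) := by gcongr
      _ ≤ 1 * (C / m) := by gcongr
      _ = _ := one_mul _
  have k1 := key X (h1 T hTa σ hσ)
  have k2 := key (cj X) (h2 T hTb σ hσ)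
  obtain ⟨i1, -⟩ := W12_int X l hl0 σ hσ8 hT0
  refine ⟨i1, ?_⟩
  rw [← intervalIntegral.integral_Iic_add_Ioi (b := 0) i1.integrableOn i1.integrableOn]
  have k3 : ∫ u in Iic (0 : ℝ), ‖Mn X l (1/2 + σ + (Real.pi * T * u : ℝ) * I) - 1‖ ^ 2 * sw u =
      ∫ u in Ioi (0 : ℝ), ‖Mn (cj X) l (1/2 + σ + (Real.pi * T * u : ℝ) * I) - 1‖ ^ 2 * sw u := by
    have h5 := integral_comp_neg_Ioi (0 : ℝ)
      (fun u : ℝ => ‖Mn X l (1/2 + σ + (Real.pi * T * u : ℝ) * I) - 1‖ ^ 2 * sw u)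
    rw [neg_zero] at h5
    rw [← h5]
    refine setIntegral_congr_fun measurableSet_Ioi fun u _ => ?_
    have hre : ((1/2 : ℂ) + σ + (Real.pi * T * u : ℝ) * I).re < 1 := by
      have hσ' := abs_le.1 hσ8
      have : ((1/2 : ℂ) + σ + (Real.pi * T * u : ℝ) * I).re = 1 / 2 + σ := by
        simp
      rw [this]
      linarith
    have e3 : (1/2 : ℂ) + σ + (Real.pi * T * -u : ℝ) * I =
        conj ((1/2 : ℂ) + σ + (Real.pi * T * u : ℝ) * I) := by
      have h2 : conj (2 : ℂ) = 2 := Complex.conj_ofNat 2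
      simp only [map_add, map_mul, map_div₀, map_one, h2, conj_ofReal, conj_I]
      push_cast
      ring
    have e4 : sw (-u) = sw u := by
      unfold sw
      rw [mul_neg, Real.cosh_neg]
    have e5 : ‖Mn X l (1/2 + σ + (Real.pi * T * -u : ℝ) * I) - 1‖ =
        ‖Mn (cj X) l (1/2 + σ + (Real.pi * T * u : ℝ) * I) - 1‖ := by
      rw [e3, Mn_conj X l hre]
      have : conj (Mn (cj X) l (1/2 + σ + (Real.pi * T * u : ℝ) * I)) - 1 =
          conj (Mn (cj X) l (1/2 + σ + (Real.pi * T * u : ℝ) * I) - 1) := by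
        rw [map_sub, map_one]
      rw [this, Complex.norm_conj]
    rw [e4, e5]
  rw [k3]
  have h6 : 2 * C / m = C / m + C / m := by ring
  rw [h6]
  exact add_le_add k2 k1

end LW

end F_W_W12

section F_W_W13

open Complex MeasureTheory Set Filter Topology
open scoped ComplexConjugate

namespace LW

theorem W13_two_rpow {x : ℝ} (hx : 0 < x) : (2 : ℝ) ^ (-x) ≤ 2 / x := by
  have h1 : x * Real.log 2 + 1 ≤ (2 : ℝ) ^ x := by
    rw [Real.rpow_def_of_pos (by norm_num), mul_comm]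
    exact Real.add_one_le_exp _
  have h2 : (1 : ℝ) / 2 < Real.log 2 := by
    have := Real.log_two_gt_d9
    linarith
  have h3 : x / 2 ≤ (2 : ℝ) ^ x := by nlinarith
  rw [Real.rpow_neg (by norm_num)]
  have h4 : (0 : ℝ) < x / 2 := by positivity
  calc ((2 : ℝ) ^ x)⁻¹ ≤ (x / 2)⁻¹ := inv_anti₀ h4 h3
    _ = 2 / x := by rw [inv_div]

/-- the bound far to the right -/
theorem W13_right {N m : ℕ} [NeZero N] (hm : 1 ≤ m) (X : Fin m → DirichletCharacter ℂ N × ℝ) {l T : ℝ} (hl : 0 < l)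
    (hT : 3 ≤ T) {s : ℂ} (hs : T ≤ s.re) : ‖Gt X l s - 1‖ ≤ (48 + 2 * m) / T := by
  have hT0 : 0 < T := by linarith
  have h1 : ∀ j, s + (X j).2 * I ≠ 1 := by
    intro j h
    have := congrArg Complex.re h
    simp at this
    linarith
  rw [Gt_eq X l (by linarith) h1]
  have e : Pf X s * Mn X l s - 1 = Pf X s * (Mn X l s - 1) + (Pf X s - 1) := by ring
  rw [e]
  have h2 : ‖Pf X s * (Mn X l s - 1)‖ ≤ 48 / T := by
    rw [norm_mul]
    have a1 := Pf_le X (show 0 ≤ s.re by linarith)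
    have a2 := Mn_right hl hm X (show 3 ≤ s.re by linarith)
    have a3 : (2 : ℝ) ^ (-s.re) ≤ 2 / T :=
      (W13_two_rpow (by linarith)).trans (div_le_div_of_nonneg_left (by norm_num) hT0 hs)
    calc ‖Pf X s‖ * ‖Mn X l s - 1‖ ≤ 1 * (24 * (2 : ℝ) ^ (-s.re)) :=
          mul_le_mul a1 a2 (norm_nonneg _) zero_le_one
      _ ≤ 48 / T := by
          have : 48 / T = 24 * (2 / T) := by ring
          rw [this, one_mul]
          exact mul_le_mul_of_nonneg_left a3 (by norm_num)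
  have h3 : ‖Pf X s - 1‖ ≤ 2 * m / T := by
    refine (Pf_sub X (by linarith)).trans ?_
    calc ∑ j : Fin m, 2 / ‖s + (X j).2 * I + 1‖ ≤ ∑ _j : Fin m, 2 / T := by
          refine Finset.sum_le_sum fun j _ => ?_
          refine div_le_div_of_nonneg_left (by norm_num) hT0 ?_
          have b1 := Complex.abs_re_le_norm (s + (X j).2 * I + 1)
          have b2 : (s + (X j).2 * I + 1).re = s.re + 1 := by simp
          rw [b2, abs_of_nonneg (by linarith)] at b1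
          linarith
      _ = 2 * m / T := by
          rw [Finset.sum_const, Finset.card_univ, Fintype.card_fin, nsmul_eq_mul]
          ring
  refine (norm_add_le _ _).trans ?_
  have : (48 + 2 * (m : ℝ)) / T = 48 / T + 2 * m / T := by ring
  rw [this]
  exact add_le_add h2 h3

theorem W13_sw_le_one (u : ℝ) : sw u ≤ 1 := by
  unfold sw
  exact inv_le_one_of_one_le₀ (Real.one_le_cosh _)

theorem W13_int (a x : ℝ) (ha : 0 < a) : Integrable (fun u : ℝ => (1 + (a * u + x) ^ 2)⁻¹) ∧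
    ∫ u : ℝ, (1 + (a * u + x) ^ 2)⁻¹ = Real.pi / a := by
  have h1 : Integrable (fun y : ℝ => (1 + (y + x) ^ 2)⁻¹) :=
    (integrable_inv_one_add_sq).comp_add_right x
  refine ⟨h1.comp_mul_left' ha.ne', ?_⟩
  have h2 := MeasureTheory.Measure.integral_comp_mul_left (fun y : ℝ => (1 + (y + x) ^ 2)⁻¹) a
  rw [h2, integral_add_right_eq_self (fun y : ℝ => (1 + y ^ 2)⁻¹) x, integral_univ_inv_one_add_sq,
    abs_of_pos (inv_pos.2 ha), smul_eq_mul]
  ring

/-- pointwise bound on the left side -/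
theorem W13_left {N m : ℕ} [NeZero N] (X : Fin m → DirichletCharacter ℂ N × ℝ) {l : ℝ} {s : ℂ} (hs0 : 0 ≤ s.re)
    (hs1 : s.re < 1) :
    ‖Gt X l s - 1‖ ^ 2 ≤ 2 * ‖Mn X l s - 1‖ ^ 2 + ∑ j, 8 * (m : ℝ) * (1 + (s.im + (X j).2) ^ 2)⁻¹ := by
  have h1 : ∀ j, s + (X j).2 * I ≠ 1 := by
    intro j h
    have := congrArg Complex.re h
    simp at this
    linarith
  rw [Gt_eq X l (by linarith) h1]
  have e : Pf X s * Mn X l s - 1 = Pf X s * (Mn X l s - 1) + (Pf X s - 1) := by ring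
  rw [e]
  have h2 : ‖Pf X s * (Mn X l s - 1)‖ ≤ ‖Mn X l s - 1‖ := by
    rw [norm_mul]
    have a1 := Pf_le X hs0
    have := mul_le_mul_of_nonneg_right a1 (norm_nonneg (Mn X l s - 1))
    linarith
  have h3 : ‖Pf X s - 1‖ ^ 2 ≤ ∑ j, 4 * (m : ℝ) * (1 + (s.im + (X j).2) ^ 2)⁻¹ := by
    have b1 := Pf_sub X hs0
    have b2 : ‖Pf X s - 1‖ ^ 2 ≤ (∑ j, 2 / ‖s + (X j).2 * I + 1‖) ^ 2 :=
      pow_le_pow_left₀ (norm_nonneg _) b1 2
    refine b2.trans ?_
    have b3 := sq_sum_le_card_mul_sum_sq (s := (Finset.univ : Finset (Fin m))) (f := fun j => 2 / ‖s + (X j).2 * I + 1‖)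
    rw [Finset.card_univ, Fintype.card_fin] at b3
    refine b3.trans ?_
    rw [Finset.mul_sum]
    refine Finset.sum_le_sum fun j _ => ?_
    have b4 : 1 + (s.im + (X j).2) ^ 2 ≤ ‖s + (X j).2 * I + 1‖ ^ 2 := by
      rw [Complex.sq_norm, Complex.normSq_apply]
      have c1 : (s + (X j).2 * I + 1).re = s.re + 1 := by simp
      have c2 : (s + (X j).2 * I + 1).im = s.im + (X j).2 := by simp
      rw [c1, c2]
      nlinarith
    have b5 : 0 < 1 + (s.im + (X j).2) ^ 2 := by positivity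
    have b6 : (2 / ‖s + (X j).2 * I + 1‖) ^ 2 ≤ 4 * (1 + (s.im + (X j).2) ^ 2)⁻¹ := by
      rw [div_pow, div_eq_mul_inv]
      have : ((2 : ℝ)) ^ 2 = 4 := by norm_num
      rw [this]
      exact mul_le_mul_of_nonneg_left (inv_anti₀ b5 b4) (by norm_num)
    have b7 : (0 : ℝ) ≤ m := Nat.cast_nonneg m
    calc (m : ℝ) * (2 / ‖s + (X j).2 * I + 1‖) ^ 2 ≤ m * (4 * (1 + (s.im + (X j).2) ^ 2)⁻¹) :=
          mul_le_mul_of_nonneg_left b6 b7
      _ = _ := by ring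
  have h4 : ‖Pf X s * (Mn X l s - 1) + (Pf X s - 1)‖ ≤ ‖Mn X l s - 1‖ + ‖Pf X s - 1‖ :=
    (norm_add_le _ _).trans (add_le_add h2 le_rfl)
  have h5 : ‖Pf X s * (Mn X l s - 1) + (Pf X s - 1)‖ ^ 2 ≤ (‖Mn X l s - 1‖ + ‖Pf X s - 1‖) ^ 2 :=
    pow_le_pow_left₀ (norm_nonneg _) h4 2
  have h6 : ∑ j, 8 * (m : ℝ) * (1 + (s.im + (X j).2) ^ 2)⁻¹ = 2 * ∑ j, 4 * (m : ℝ) * (1 + (s.im + (X j).2) ^ 2)⁻¹ := by
    rw [Finset.mul_sum]
    exact Finset.sum_congr rfl fun j _ => by ring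
  rw [h6]
  nlinarith [sq_nonneg (‖Mn X l s - 1‖ - ‖Pf X s - 1‖)]

/-- the mean square of Gt - 1 on both sides of the strip 1/2 + sigma <= Re s <= 1/2 + sigma + pi T, and its value at the centre.
Left: Gt - 1 = Pf (Mn - 1) + (Pf - 1), |a+b|^2 <= 2|a|^2 + 2|b|^2, |Pf - 1|^2 <= m sum 4/|3/2 + i(t+x_j)|^2 has integral O(m^2)
in t, that is O(m^2/T) in u. Right: Mn_right, Pf_sub: |Gt - 1| <= 2m/(pi T) + 24 * 2^(-3 T). -/
theorem Gt_mean : ∃ C : ℝ, 0 < C ∧ ∀ (N : ℕ) [NeZero N] (m : ℕ) (X : Fin m → DirichletCharacter ℂ N × ℝ),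
    1 ≤ m → Function.Injective X → ∃ T0 : ℝ, 2 ≤ T0 ∧ ∀ T : ℝ, T0 ≤ T → ∀ σ : ℝ, |σ| ≤ 1 / Real.log T →
    ‖Gt X (Real.log T / 1500) (1/2 + σ + (Real.pi * T / 2 : ℝ)) - 1‖ ≤ 1/4 ∧
    ∫ u : ℝ, (‖Gt X (Real.log T / 1500) (1/2 + σ + (Real.pi * T * u : ℝ) * I) - 1‖ ^ 2 +
      ‖Gt X (Real.log T / 1500) (1/2 + σ + (Real.pi * T : ℝ) + (Real.pi * T * u : ℝ) * I) - 1‖ ^ 2) * sw u ≤ C / m := by
  obtain ⟨C, hC, hML⟩ := Mn_left
  refine ⟨2 * C + 2, by positivity, fun N _ m X hm hX => ?_⟩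
  obtain ⟨T1, hT1, hML2⟩ := hML N m X hm hX
  have hm1 : (1 : ℝ) ≤ m := by exact_mod_cast hm
  have hm0 : (0 : ℝ) < m := by linarith
  refine ⟨max T1 (max (Real.exp 3) (8 * (48 + 2 * m) * m ^ 3)), hT1.trans (le_max_left _ _), fun T hT σ hσ => ?_⟩
  have g1 : T1 ≤ T := (le_max_left _ _).trans hT
  have g2 : Real.exp 3 ≤ T := ((le_max_left _ _).trans (le_max_right _ _)).trans hT
  have g3 : 8 * (48 + 2 * m) * m ^ 3 ≤ T := ((le_max_right _ _).trans (le_max_right _ _)).trans hT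
  have he3 : (4 : ℝ) ≤ Real.exp 3 := by
    have := Real.add_one_le_exp (3 : ℝ)
    linarith
  have hT4 : 4 ≤ T := he3.trans g2
  have hT0 : 0 < T := by linarith
  have hlog : 3 ≤ Real.log T := by
    rw [Real.le_log_iff_exp_le hT0]
    exact g2
  have hl : 0 < Real.log T / 1500 := by positivity
  have hσ2 : |σ| ≤ 1 / 3 := hσ.trans (by
    apply div_le_div_of_nonneg_left (by norm_num) (by norm_num) hlog)
  have hσ3 := abs_le.1 hσ2
  have hpi := Real.pi_gt_three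
  have hm3 : (1 : ℝ) ≤ m ^ 3 := one_le_pow₀ hm1
  have hmm3 : (m : ℝ) ≤ m ^ 3 := by
    calc (m : ℝ) = m ^ 1 := (pow_one _).symm
      _ ≤ m ^ 3 := pow_le_pow_right₀ hm1 (by norm_num)
  have hq1 : (48 + 2 * (m : ℝ)) / T ≤ 1 / 8 := by
    rw [div_le_iff₀ hT0]
    nlinarith
  have hq2 : (48 + 2 * (m : ℝ)) / T ≤ 1 / m := by
    rw [div_le_div_iff₀ hT0 hm0]
    nlinarith
  have hq3 : 8 * (m : ℝ) ^ 2 / T ≤ 1 / m := by
    rw [div_le_div_iff₀ hT0 hm0]
    have : 8 * (m : ℝ) ^ 2 * m = 8 * m ^ 3 := by ring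
    rw [this]
    nlinarith
  refine ⟨?_, ?_⟩
  · have h1 := W13_right hm X hl (show 3 ≤ T by linarith) (s := 1/2 + σ + (Real.pi * T / 2 : ℝ)) (by
      have : ((1/2 + σ + (Real.pi * T / 2 : ℝ) : ℂ)).re = 1/2 + σ + Real.pi * T / 2 := by
        simp
        try norm_num
      rw [this]
      nlinarith)
    linarith
  · obtain ⟨hi, hb⟩ := hML2 T g1 σ hσ
    set l := Real.log T / 1500 with hldef
    have hre : ∀ u : ℝ, (1/2 + (σ : ℂ) + (Real.pi * T * u : ℝ) * I).re = 1/2 + σ := by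
      intro u
      simp
      try norm_num
    have him : ∀ u : ℝ, (1/2 + (σ : ℂ) + (Real.pi * T * u : ℝ) * I).im = Real.pi * T * u := by
      intro u
      simp
    have hre2 : ∀ u : ℝ, (1/2 + (σ : ℂ) + (Real.pi * T : ℝ) + (Real.pi * T * u : ℝ) * I).re = 1/2 + σ + Real.pi * T := by
      intro u
      simp
      try norm_num
    have haT : 0 < Real.pi * T := by positivity
    have hIj : ∀ j : Fin m, Integrable (fun u : ℝ => 8 * (m : ℝ) * (1 + (Real.pi * T * u + (X j).2) ^ 2)⁻¹) :=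
      fun j => (W13_int (Real.pi * T) (X j).2 haT).1.const_mul _
    have hsw : Integrable sw := integrable_of_integral_eq_one sw_mass
    have hG1 : Integrable (fun u : ℝ => 2 * (‖Mn X l (1/2 + σ + (Real.pi * T * u : ℝ) * I) - 1‖ ^ 2 * sw u)) :=
      hi.const_mul 2
    have hG2 : Integrable (fun u : ℝ => ∑ j : Fin m, 8 * (m : ℝ) * (1 + (Real.pi * T * u + (X j).2) ^ 2)⁻¹) :=
      integrable_finsetSum _ fun j _ => hIj j
    have hG3 : Integrable (fun u : ℝ => 1 / (m : ℝ) * sw u) := hsw.const_mul _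
    have hG : Integrable (fun u : ℝ => 2 * (‖Mn X l (1/2 + σ + (Real.pi * T * u : ℝ) * I) - 1‖ ^ 2 * sw u) +
        ∑ j : Fin m, 8 * (m : ℝ) * (1 + (Real.pi * T * u + (X j).2) ^ 2)⁻¹ + 1 / (m : ℝ) * sw u) :=
      (hG1.add hG2).add hG3
    have hpt : ∀ u : ℝ, (‖Gt X l (1/2 + σ + (Real.pi * T * u : ℝ) * I) - 1‖ ^ 2 +
        ‖Gt X l (1/2 + σ + (Real.pi * T : ℝ) + (Real.pi * T * u : ℝ) * I) - 1‖ ^ 2) * sw u ≤
        2 * (‖Mn X l (1/2 + σ + (Real.pi * T * u : ℝ) * I) - 1‖ ^ 2 * sw u) +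
        ∑ j : Fin m, 8 * (m : ℝ) * (1 + (Real.pi * T * u + (X j).2) ^ 2)⁻¹ + 1 / (m : ℝ) * sw u := by
      intro u
      have a1 := W13_left X (l := l) (s := 1/2 + σ + (Real.pi * T * u : ℝ) * I) (by rw [hre]; linarith) (by rw [hre]; linarith)
      rw [him] at a1
      have a2 := W13_right hm X hl (show 3 ≤ T by linarith)
        (s := 1/2 + σ + (Real.pi * T : ℝ) + (Real.pi * T * u : ℝ) * I) (by rw [hre2]; nlinarith)
      have a3 : ‖Gt X l (1/2 + σ + (Real.pi * T : ℝ) + (Real.pi * T * u : ℝ) * I) - 1‖ ^ 2 ≤ 1 / m := by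
        have b1 : ‖Gt X l (1/2 + σ + (Real.pi * T : ℝ) + (Real.pi * T * u : ℝ) * I) - 1‖ ≤ 1 := by linarith
        have b2 := norm_nonneg (Gt X l (1/2 + σ + (Real.pi * T : ℝ) + (Real.pi * T * u : ℝ) * I) - 1)
        nlinarith
      have a4 := (sw_pos u).le
      have a5 := W13_sw_le_one u
      have a6 : 0 ≤ ∑ j : Fin m, 8 * (m : ℝ) * (1 + (Real.pi * T * u + (X j).2) ^ 2)⁻¹ :=
        Finset.sum_nonneg fun j _ => by positivity
      have a7 : (∑ j : Fin m, 8 * (m : ℝ) * (1 + (Real.pi * T * u + (X j).2) ^ 2)⁻¹) * sw u ≤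
          ∑ j : Fin m, 8 * (m : ℝ) * (1 + (Real.pi * T * u + (X j).2) ^ 2)⁻¹ := by
        nlinarith
      have a8 := mul_le_mul_of_nonneg_right a1 a4
      have a9 := mul_le_mul_of_nonneg_right a3 a4
      rw [add_mul] at a8 ⊢
      linarith
    refine (integral_mono_of_nonneg (Eventually.of_forall fun u => ?_) hG (Eventually.of_forall hpt)).trans ?_
    · exact mul_nonneg (add_nonneg (sq_nonneg _) (sq_nonneg _)) (sw_pos u).le
    · have hs1 := integral_add (f := fun u : ℝ => 2 * (‖Mn X l (1/2 + σ + (Real.pi * T * u : ℝ) * I) - 1‖ ^ 2 * sw u) +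
        ∑ j : Fin m, 8 * (m : ℝ) * (1 + (Real.pi * T * u + (X j).2) ^ 2)⁻¹) (hG1.add hG2) hG3
      rw [hs1, integral_add hG1 hG2, integral_const_mul, integral_const_mul, sw_mass,
        integral_finsetSum _ fun j _ => hIj j]
      have c1 : ∀ j : Fin m, ∫ u : ℝ, 8 * (m : ℝ) * (1 + (Real.pi * T * u + (X j).2) ^ 2)⁻¹ = 8 * m / T := by
        intro j
        rw [integral_const_mul, (W13_int (Real.pi * T) (X j).2 haT).2]
        field_simp
      simp_rw [c1]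
      rw [Finset.sum_const, Finset.card_univ, Fintype.card_fin, nsmul_eq_mul]
      have c2 : (m : ℝ) * (8 * m / T) = 8 * m ^ 2 / T := by ring
      rw [c2, mul_one]
      have c3 : (2 * C + 2) / (m : ℝ) = 2 * (C / m) + 1 / m + 1 / m := by ring
      rw [c3]
      linarith

end LW

end F_W_W13
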