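import Pool.Agent.Lib.MP_0f5a55_nt.V.V95
import Pool.Agent.Lib.MP_0f5a55_nt.V.V96
import Pool.Agent.Lib.MP_0f5a55_nt.V.V97
import Pool.Agent.Lib.MP_0f5a55_nt.V.V98

section F_W_W14

open Complex MeasureTheory Set Filter Topology
open scoped ComplexConjugate

namespace LW

theorem W14_an {N m : ℕ} [NeZero N] (X : Fin m → DirichletCharacter ℂ N × ℝ) (l : ℝ) {s : ℂ}
    (hs : -1 < s.re) : AnalyticAt ℂ (Gt X l) s := by
  have ho : IsOpen {z : ℂ | -1 < z.re} := isOpen_lt continuous_const Complex.continuous_re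
  have hd : DifferentiableOn ℂ (Gt X l) {z : ℂ | -1 < z.re} := fun z hz =>
    (Gt_diff X l hz).differentiableWithinAt
  exact hd.analyticAt (ho.mem_nhds hs)

theorem W14_re (b a : ℝ) (z : ℂ) : ((b : ℂ) + (a : ℂ) * z).re = b + a * z.re := by
  rw [Complex.add_re, Complex.ofReal_re, Complex.re_ofReal_mul]

theorem W14_im (b a : ℝ) (z : ℂ) : ((b : ℂ) + (a : ℂ) * z).im = a * z.im := by
  rw [Complex.add_im, Complex.ofReal_im, Complex.im_ofReal_mul, zero_add]

/-- common zeros in the right half of the critical strip, one modulus: strip_count for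
f z = Gt X (log T/1500) (1/2 - 1/log T + pi T z), delta = 1/(pi T log T) -/
theorem common_half : ∃ C : ℝ, 0 < C ∧ ∀ (N : ℕ) [NeZero N] (m : ℕ) (X : Fin m → DirichletCharacter ℂ N × ℝ),
    1 ≤ m → Function.Injective X → ∃ T0 : ℝ, 2 ≤ T0 ∧ ∀ T : ℝ, T0 ≤ T → ∀ (A : Finset ℂ) (μ : ℂ → ℕ),
    (∀ ρ ∈ A, 1/2 ≤ ρ.re ∧ ρ.re < 1 ∧ |ρ.im| ≤ T ∧
      ∀ j, (μ ρ : ℕ∞) ≤ analyticOrderAt (LX.Lf (X j).1) (ρ + (X j).2 * I)) →
    (m : ℝ) * ∑ ρ ∈ A, (μ ρ : ℝ) ≤ C * T * Real.log T := by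
  obtain ⟨C0, hC0, hmean⟩ := Gt_mean
  refine ⟨4 * Real.pi * C0, by positivity, ?_⟩
  intro N _ m X hm hX
  obtain ⟨T0, hT0, hT⟩ := hmean N m X hm hX
  refine ⟨max T0 (Real.exp 8), hT0.trans (le_max_left _ _), ?_⟩
  intro T hTT A μ hA
  have hTT0 : T0 ≤ T := (le_max_left _ _).trans hTT
  have hT2 : 2 ≤ T := hT0.trans hTT0
  have hTpos : 0 < T := by linarith
  have hL8 : 8 ≤ Real.log T := by
    rw [Real.le_log_iff_exp_le hTpos]
    exact (le_max_right _ _).trans hTT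
  have hLpos : 0 < Real.log T := by linarith
  have hpi : 3 < Real.pi := Real.pi_gt_three
  have hapos : 0 < Real.pi * T := by positivity
  have ha6 : 6 ≤ Real.pi * T := by nlinarith
  have hinvL : 1 / Real.log T ≤ 1 / 8 := one_div_le_one_div_of_le (by norm_num) hL8
  have hinvL0 : 0 < 1 / Real.log T := by positivity
  obtain ⟨hcen, hint⟩ := hT T hTT0 (-(1 / Real.log T)) (by rw [abs_neg, abs_of_pos hinvL0])
  obtain ⟨K, hK, hgrow⟩ := Gt_growth X (Real.log T / 1500)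
  have hb' : ((1 / 2 - 1 / Real.log T : ℝ) : ℂ) = 1 / 2 + ((-(1 / Real.log T) : ℝ) : ℂ) := by
    push_cast
    ring
  set l := Real.log T / 1500 with hl
  set b : ℝ := 1 / 2 - 1 / Real.log T with hb
  set a : ℝ := Real.pi * T with ha
  have hb38 : 3 / 8 ≤ b := by linarith
  have hne : a ≠ 0 := hapos.ne'
  have hcount := strip_count (f := fun z : ℂ => Gt X l ((b : ℂ) + (a : ℂ) * z))
    (η := 1 / (2 * a)) (K := 2 * K * (1 + a)) (δ := 1 / (a * Real.log T)) (by positivity)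
    (by positivity)
    (by
      intro z hz
      have h1 : -1 < ((b : ℂ) + (a : ℂ) * z).re := by
        rw [W14_re]
        have h2 : -(1 / (2 * a)) < z.re := hz.1
        have h3 : a * -(1 / (2 * a)) < a * z.re := mul_lt_mul_of_pos_left h2 hapos
        have h4 : a * -(1 / (2 * a)) = -(1 / 2) := by field_simp
        rw [h4] at h3
        linarith
      have h2 : DifferentiableAt ℂ (fun z : ℂ => (b : ℂ) + (a : ℂ) * z) z := by fun_prop
      exact (DifferentiableAt.comp z (Gt_diff X l h1) h2).differentiableWithinAt)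
    (by
      intro z hz0 hz1
      have h1 : 3 / 8 ≤ ((b : ℂ) + (a : ℂ) * z).re := by
        rw [W14_re]
        have := mul_nonneg hapos.le hz0
        linarith
      refine (hgrow _ h1).trans ?_
      rw [W14_im, abs_mul, abs_of_pos hapos]
      have h2 : 1 + |z.im| / 2 ≤ Real.exp (|z.im| / 2) := by
        rw [add_comm]
        exact Real.add_one_le_exp _
      have h3 : 0 ≤ |z.im| := abs_nonneg _
      have h4 : 1 + a * |z.im| ≤ (1 + a) * (2 * (1 + |z.im| / 2)) := by nlinarith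
      calc K * (1 + a * |z.im|) ≤ K * ((1 + a) * (2 * (1 + |z.im| / 2))) :=
            mul_le_mul_of_nonneg_left h4 hK.le
        _ ≤ K * ((1 + a) * (2 * Real.exp (|z.im| / 2))) := by gcongr
        _ = 2 * K * (1 + a) * Real.exp (|z.im| / 2) := by ring)
    (A.image fun ρ => (ρ - (b : ℂ)) / (a : ℂ)) (fun z => μ ((b : ℂ) + (a : ℂ) * z))
    (by
      intro z hz
      rw [Finset.mem_image] at hz
      obtain ⟨ρ, hρ, rfl⟩ := hz
      obtain ⟨h1, h2, h3, -⟩ := hA ρ hρ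
      have hre : ((ρ - (b : ℂ)) / (a : ℂ)).re = (ρ.re - b) / a := by
        rw [Complex.div_ofReal_re, Complex.sub_re, Complex.ofReal_re]
      have him : ((ρ - (b : ℂ)) / (a : ℂ)).im = ρ.im / a := by
        rw [Complex.div_ofReal_im, Complex.sub_im, Complex.ofReal_im, sub_zero]
      rw [hre, him]
      refine ⟨?_, ?_, ?_⟩
      · have h4 : 1 / (a * Real.log T) = (1 / Real.log T) / a := by field_simp
        rw [h4]
        apply div_le_div_of_nonneg_right _ hapos.le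
        linarith
      · rw [div_le_iff₀ hapos]
        linarith
      · rw [abs_div, abs_of_pos hapos, div_le_one hapos]
        refine h3.trans ?_
        rw [ha]
        nlinarith)
    (by
      intro z hz
      rw [Finset.mem_image] at hz
      obtain ⟨ρ, hρ, rfl⟩ := hz
      obtain ⟨h1, h2, h3, h4⟩ := hA ρ hρ
      have hne' : (a : ℂ) ≠ 0 := Complex.ofReal_ne_zero.2 hne
      have h5 : (b : ℂ) + (a : ℂ) * ((ρ - (b : ℂ)) / (a : ℂ)) = ρ := by
        rw [mul_div_cancel₀ _ hne']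
        ring
      have h6 : (μ ρ : ℕ∞) ≤ analyticOrderAt (Gt X l) ρ :=
        Gt_order X l (by linarith) h2 (μ ρ) h4
      have h7 : AnalyticAt ℂ (Gt X l) ρ := W14_an X l (by linarith)
      simp only [h5]
      exact order_affine hapos (b : ℂ) _ (by rw [h5]; exact h7) (by rw [h5]; exact h6))
    (by
      have h1 : (b : ℂ) + (a : ℂ) * (1 / 2) =
          1 / 2 + ((-(1 / Real.log T) : ℝ) : ℂ) + ((a / 2 : ℝ) : ℂ) := by
        rw [hb']
        push_cast
        ring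
      show ‖Gt X l ((b : ℂ) + (a : ℂ) * (1 / 2)) - 1‖ ≤ 1 / 4
      rw [h1]
      exact hcen)
  have hsum : ∑ z ∈ A.image (fun ρ => (ρ - (b : ℂ)) / (a : ℂ)), (μ ((b : ℂ) + (a : ℂ) * z) : ℝ) =
      ∑ ρ ∈ A, (μ ρ : ℝ) := by
    have hne' : (a : ℂ) ≠ 0 := Complex.ofReal_ne_zero.2 hne
    rw [Finset.sum_image]
    · refine Finset.sum_congr rfl fun ρ _ => ?_
      have h5 : (b : ℂ) + (a : ℂ) * ((ρ - (b : ℂ)) / (a : ℂ)) = ρ := by
        rw [mul_div_cancel₀ _ hne']
        ring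
      rw [h5]
    · intro x _ y _ hxy
      have h6 : x - (b : ℂ) = y - (b : ℂ) := by
        have h7 := congrArg (fun w => w * (a : ℂ)) hxy
        simpa only [div_mul_cancel₀ _ hne'] using h7
      exact sub_left_injective h6
  have hintE : ∫ u : ℝ, (‖(fun z : ℂ => Gt X l ((b : ℂ) + (a : ℂ) * z)) (u * I) - 1‖ ^ 2 +
      ‖(fun z : ℂ => Gt X l ((b : ℂ) + (a : ℂ) * z)) (1 + u * I) - 1‖ ^ 2) * sw u ≤ C0 / m := by
    refine le_of_eq_of_le ?_ hint
    congr 1
    funext u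
    have h1 : (b : ℂ) + (a : ℂ) * (u * I) =
        1 / 2 + ((-(1 / Real.log T) : ℝ) : ℂ) + ((a * u : ℝ) : ℂ) * I := by
      rw [hb']
      push_cast
      ring
    have h2 : (b : ℂ) + (a : ℂ) * (1 + u * I) =
        1 / 2 + ((-(1 / Real.log T) : ℝ) : ℂ) + (a : ℂ) + ((a * u : ℝ) : ℂ) * I := by
      rw [hb']
      push_cast
      ring
    show (‖Gt X l ((b : ℂ) + (a : ℂ) * (u * I)) - 1‖ ^ 2 +
      ‖Gt X l ((b : ℂ) + (a : ℂ) * (1 + u * I)) - 1‖ ^ 2) * sw u = _
    rw [h1, h2]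
  have hfin := hcount.trans hintE
  rw [hsum] at hfin
  have hmpos : (0 : ℝ) < m := by exact_mod_cast hm
  have haL : 0 < a * Real.log T := by positivity
  rw [le_div_iff₀ hmpos] at hfin
  have h8 : 1 / (a * Real.log T) / 4 * (∑ ρ ∈ A, (μ ρ : ℝ)) * m =
      (m * ∑ ρ ∈ A, (μ ρ : ℝ)) / (4 * (a * Real.log T)) := by
    field_simp
  rw [h8, div_le_iff₀ (by positivity)] at hfin
  calc (m : ℝ) * ∑ ρ ∈ A, (μ ρ : ℝ) ≤ C0 * (4 * (a * Real.log T)) := hfin
    _ = 4 * Real.pi * C0 * T * Real.log T := by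
      rw [ha]
      ring

end LW

end F_W_W14

section F_W_W17

open Complex MeasureTheory Set Filter Topology
open scoped ComplexConjugate

namespace LW

theorem lift_inj' {N : ℕ} [NeZero N] (a b : Σ n : ℕ, DirichletCharacter ℂ (n + 1)) (ha : a.2.IsPrimitive)
    (hb : b.2.IsPrimitive) (h1 : a.1 + 1 ∣ N) (h2 : b.1 + 1 ∣ N)
    (h : DirichletCharacter.changeLevel h1 a.2 = DirichletCharacter.changeLevel h2 b.2) : a = b := by
  obtain ⟨n, χ⟩ := a
  obtain ⟨m, ψ⟩ := b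
  have h3 := congrArg DirichletCharacter.conductor h
  simp only at h1 h2 h h3 ha hb
  rw [DirichletCharacter.conductor_changeLevel, DirichletCharacter.conductor_changeLevel] at h3
  have ha' : χ.conductor = n + 1 := ha
  have hb' : ψ.conductor = m + 1 := hb
  rw [ha', hb'] at h3
  have h4 : n = m := by omega
  subst h4
  have h5 := DirichletCharacter.changeLevel_injective h1 h
  rw [h5]

/-- all moduli (lift to the product of the moduli as in Y/H06, order_level), whole strip (order_reflect for Re rho < 1/2) -/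
theorem common_all : ∃ C : ℝ, 0 < C ∧ ∀ (m : ℕ) (X : Fin m → (Σ n : ℕ, DirichletCharacter ℂ (n + 1)) × ℝ),
    1 ≤ m → (∀ j, (X j).1.2.IsPrimitive) → Function.Injective X → ∃ T0 : ℝ, 2 ≤ T0 ∧ ∀ T : ℝ, T0 ≤ T →
    ∀ (A : Finset ℂ) (μ : ℂ → ℕ), (∀ ρ ∈ A, 0 < ρ.re ∧ ρ.re < 1 ∧ |ρ.im| ≤ T ∧
      ∀ j, (μ ρ : ℕ∞) ≤ analyticOrderAt (LX.Lf (X j).1.2) (ρ + (X j).2 * I)) →
    (m : ℝ) * ∑ ρ ∈ A, (μ ρ : ℝ) ≤ C * T * Real.log T := by
  classical
  obtain ⟨C, hC, hmain⟩ := common_half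
  refine ⟨2 * C, by positivity, fun m X hm hX hinj => ?_⟩
  set N : ℕ := ∏ j, ((X j).1.1 + 1) with hN
  have hN0 : N ≠ 0 := Finset.prod_ne_zero_iff.mpr fun j _ => by omega
  have hNZ : NeZero N := ⟨hN0⟩
  have hdiv : ∀ j, (X j).1.1 + 1 ∣ N := fun j =>
    Finset.dvd_prod_of_mem (fun j => (X j).1.1 + 1) (Finset.mem_univ j)
  obtain ⟨T0, hT0, hT⟩ := hmain N m
    (fun j => (DirichletCharacter.changeLevel (hdiv j) (X j).1.2, (X j).2)) hm (by
      intro i j hij
      have h1 : DirichletCharacter.changeLevel (hdiv i) (X i).1.2 =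
        DirichletCharacter.changeLevel (hdiv j) (X j).1.2 := (Prod.ext_iff.mp hij).1
      have h2 : (X i).2 = (X j).2 := (Prod.ext_iff.mp hij).2
      exact hinj (Prod.ext (lift_inj' _ _ (hX i) (hX j) _ _ h1) h2))
  refine ⟨T0, hT0, fun T hTT A μ hA => ?_⟩
  have hre : ∀ (z : ℂ) (x : ℝ), (z + x * I).re = z.re := by
    intro z x
    simp
  -- the right half
  have hR := hT T hTT (A.filter fun ρ => 1 / 2 ≤ ρ.re) μ (by
    intro ρ hρ
    rw [Finset.mem_filter] at hρ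
    obtain ⟨h0, h1, h2, h3⟩ := hA ρ hρ.1
    refine ⟨hρ.2, h1, h2, fun j => ?_⟩
    have h4 := order_level (hdiv j) (X j).1.2 (s := ρ + (X j).2 * I) (by rw [hre]; exact h0)
      (by rw [hre]; exact h1)
    show (μ ρ : ℕ∞) ≤ analyticOrderAt (LX.Lf (DirichletCharacter.changeLevel (hdiv j) (X j).1.2))
      (ρ + (X j).2 * I)
    rw [h4]
    exact h3 j)
  -- the left half
  have hL := hT T hTT ((A.filter fun ρ => ¬ 1 / 2 ≤ ρ.re).image fun ρ => 1 - conj ρ)
    (fun z => μ (1 - conj z)) (by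
    intro z hz
    rw [Finset.mem_image] at hz
    obtain ⟨ρ, hρ, rfl⟩ := hz
    rw [Finset.mem_filter] at hρ
    obtain ⟨h0, h1, h2, h3⟩ := hA ρ hρ.1
    have hr : (1 - conj ρ).re = 1 - ρ.re := by simp
    have hi : (1 - conj ρ).im = ρ.im := by simp
    have hlt := not_le.mp hρ.2
    refine ⟨by rw [hr]; linarith, by rw [hr]; linarith, by rw [hi]; exact h2, fun j => ?_⟩
    have hpt : 1 - conj ρ + (X j).2 * I = 1 - conj (ρ + (X j).2 * I) := by
      rw [map_add, map_mul, conj_I, conj_ofReal]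
      ring
    have h4 := order_level (hdiv j) (X j).1.2 (s := 1 - conj ρ + (X j).2 * I)
      (by rw [hre, hr]; linarith) (by rw [hre, hr]; linarith)
    have h5 := order_reflect (hX j) (s := ρ + (X j).2 * I) (by rw [hre]; exact h0)
      (by rw [hre]; exact h1)
    show ((μ (1 - conj (1 - conj ρ)) : ℕ) : ℕ∞) ≤
      analyticOrderAt (LX.Lf (DirichletCharacter.changeLevel (hdiv j) (X j).1.2))
      (1 - conj ρ + (X j).2 * I)
    have hcc : 1 - conj (1 - conj ρ) = ρ := by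
      rw [map_sub, map_one, conj_conj]
      ring
    rw [h4, hpt, h5, hcc]
    exact h3 j)
  have hsum : ∑ z ∈ ((A.filter fun ρ => ¬ 1 / 2 ≤ ρ.re).image fun ρ => 1 - conj ρ),
      ((μ (1 - conj z) : ℕ) : ℝ) = ∑ ρ ∈ A.filter (fun ρ => ¬ 1 / 2 ≤ ρ.re), (μ ρ : ℝ) := by
    rw [Finset.sum_image]
    · refine Finset.sum_congr rfl fun ρ _ => ?_
      have hcc : 1 - conj (1 - conj ρ) = ρ := by
        rw [map_sub, map_one, conj_conj]
        ring
      rw [hcc]
    · intro a _ b _ hab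
      have h1 : conj a = conj b := sub_right_injective hab
      exact star_injective h1
  have hsplit := Finset.sum_filter_add_sum_filter_not A (fun ρ : ℂ => 1 / 2 ≤ ρ.re)
    (fun ρ => (μ ρ : ℝ))
  rw [← hsplit, mul_add]
  have hL' : (m : ℝ) * ∑ ρ ∈ A.filter (fun ρ => ¬ 1 / 2 ≤ ρ.re), (μ ρ : ℝ) ≤
      C * T * Real.log T := by
    rw [← hsum]
    exact hL
  linarith

end LW

end F_W_W17
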